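import Pool.Agent.LibFlagPL.Graphs

/-!
# LibFlagPL.AlgA: algebraic part, Stanley-Reisner type arguments, first part
-/

section

namespace Pool.Agent.LibFlagPL

open Finset

variable {T : Type} [Fintype T] [DecidableEq T] {k : Type} [Field k]
variable {ι : Type} [Fintype ι] [DecidableEq ι]

private theorem B0_two [CharP k 2] (x : ι → k) : x + x = 0 := by
  funext i
  exact CharTwo.add_self_eq_zero (x i)

private theorem B0_sum (τ : Finset T) (g : T → ι → k) :
    ∑ s ∈ τᶜ, g s = ∑ s, if s ∉ τ then g s else 0 := by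
  rw [← Finset.sum_filter]
  refine Finset.sum_congr ?_ fun _ _ => rfl
  ext s
  rw [Finset.mem_compl, Finset.mem_filter]
  exact ⟨fun h => ⟨Finset.mem_univ s, h⟩, fun h => h.2⟩

theorem bd_bd [CharP k 2] (c : Finset T → ι → k) : bd (bd c) = 0 := by
  funext τ
  have h1 : bd (bd c) τ = ∑ p : T × T,
      (if p.1 ∉ τ ∧ p.2 ∉ insert p.1 τ then c (insert p.2 (insert p.1 τ)) else 0) := by
    rw [Fintype.sum_prod_type]
    change ∑ s ∈ τᶜ, ∑ t ∈ (insert s τ)ᶜ, c (insert t (insert s τ)) = _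
    rw [B0_sum]
    refine Finset.sum_congr rfl fun s _ => ?_
    by_cases hs : s ∉ τ
    · rw [if_pos hs, B0_sum]
      refine Finset.sum_congr rfl fun t _ => ?_
      by_cases ht : t ∉ insert s τ
      · rw [if_pos ht, if_pos ⟨hs, ht⟩]
      · rw [if_neg ht, if_neg (fun h => ht h.2)]
    · rw [if_neg hs, Finset.sum_eq_zero]
      intro t _
      rw [if_neg (fun h => hs h.1)]
  rw [h1]
  refine Finset.sum_involution (fun p _ => (p.2, p.1)) ?_ ?_ ?_ ?_
  · rintro ⟨s, t⟩ _
    have h2 : (if t ∉ τ ∧ s ∉ insert t τ then c (insert s (insert t τ)) else 0) =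
        (if s ∉ τ ∧ t ∉ insert s τ then c (insert t (insert s τ)) else 0) := by
      by_cases h : s ∉ τ ∧ t ∉ insert s τ
      · have h3 : t ∉ τ ∧ s ∉ insert t τ := by
          refine ⟨fun h4 => h.2 (Finset.mem_insert_of_mem h4), fun h4 => ?_⟩
          rcases Finset.mem_insert.1 h4 with h5 | h5
          · exact h.2 (Finset.mem_insert.2 (Or.inl h5.symm))
          · exact h.1 h5
        rw [if_pos h, if_pos h3, Finset.insert_comm]
      · have h3 : ¬ (t ∉ τ ∧ s ∉ insert t τ) := by
          rintro ⟨h4, h5⟩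
          apply h
          refine ⟨fun h6 => h5 (Finset.mem_insert_of_mem h6), fun h6 => ?_⟩
          rcases Finset.mem_insert.1 h6 with h7 | h7
          · exact h5 (Finset.mem_insert.2 (Or.inl h7.symm))
          · exact h4 h7
        rw [if_neg h, if_neg h3]
    change (if s ∉ τ ∧ t ∉ insert s τ then c (insert t (insert s τ)) else 0) +
      (if t ∉ τ ∧ s ∉ insert t τ then c (insert s (insert t τ)) else 0) = 0
    rw [h2]
    exact B0_two _
  · rintro ⟨s, t⟩ _ hne heq
    apply hne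
    have h2 : t = s := (Prod.mk.injEq _ _ _ _ ▸ heq).1
    change (if s ∉ τ ∧ t ∉ insert s τ then c (insert t (insert s τ)) else 0) = 0
    rw [if_neg]
    rintro ⟨-, h3⟩
    exact h3 (Finset.mem_insert.2 (Or.inl h2))
  · intro p _
    exact Finset.mem_univ _
  · rintro ⟨s, t⟩ _
    rfl

theorem bd_cone [CharP k 2] (y : T) (c : Finset T → ι → k) :
    bd (cone y c) + cone y (bd c) = c := by
  funext τ
  change (∑ s ∈ τᶜ, if y ∈ insert s τ then c ((insert s τ).erase y) else 0) +
    (if y ∈ τ then bd c (τ.erase y) else 0) = c τ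
  by_cases hy : y ∈ τ
  · rw [if_pos hy]
    change _ + ∑ s ∈ (τ.erase y)ᶜ, c (insert s (τ.erase y)) = c τ
    have h1 : (τ.erase y)ᶜ = insert y τᶜ := Finset.compl_erase
    have h2 : y ∉ τᶜ := fun h => (Finset.mem_compl.1 h) hy
    have h3 : (∑ s ∈ τᶜ, if y ∈ insert s τ then c ((insert s τ).erase y) else 0) =
        ∑ s ∈ τᶜ, c (insert s (τ.erase y)) := by
      refine Finset.sum_congr rfl fun s hs => ?_
      rw [if_pos (Finset.mem_insert_of_mem hy), Finset.erase_insert_of_ne]
      rintro rfl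
      exact (Finset.mem_compl.1 hs) hy
    rw [h1, Finset.sum_insert h2, Finset.insert_erase hy, h3, add_left_comm, B0_two, add_zero]
  · rw [if_neg hy, add_zero, Finset.sum_eq_single y]
    · rw [if_pos (Finset.mem_insert_self y τ), Finset.erase_insert hy]
    · intro s _ hsy
      rw [if_neg]
      intro h
      rcases Finset.mem_insert.1 h with h1 | h1
      · exact hsy h1.symm
      · exact hy h1
    · intro h
      exact absurd (Finset.mem_compl.2 hy) h

end Pool.Agent.LibFlagPL

end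

section

namespace Pool.Agent.LibFlagPL

open Finset

set_option linter.unusedSectionVars false

variable {T : Type} [Fintype T] [DecidableEq T] {k : Type} [Field k]
variable {ι : Type} [Fintype ι] [DecidableEq ι]

/-- the part of a chain away from `y` -/
def res (y : T) (c : Finset T → ι → k) : Finset T → ι → k := fun σ => if y ∈ σ then 0 else c σ

/-- the link part of a chain at `y` -/
def lkp (y : T) (c : Finset T → ι → k) : Finset T → ι → k :=
  fun τ => if y ∈ τ then 0 else c (insert y τ)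

theorem mem_Ch {G : SimpleGraph T} {e : T → Matrix ι ι k} {κ A : Finset T} {j : ℕ}
    {c : Finset T → ι → k} : c ∈ Ch G e κ A j ↔
      ∀ σ, (c σ ≠ 0 → σ ⊆ A ∧ Cl G σ ∧ σ.card = j) ∧
        ∀ s, s ∈ σ ∨ s ∈ κ → (e s).mulVec (c σ) = 0 := Iff.rfl

theorem Ch_mono {G : SimpleGraph T} {e : T → Matrix ι ι k} {κ κ' A A' : Finset T} {j : ℕ}
    (h1 : κ' ⊆ κ) (h2 : A ⊆ A') : Ch G e κ A j ≤ Ch G e κ' A' j := by
  intro c hc
  rw [mem_Ch] at hc ⊢
  intro σ
  refine ⟨fun h => ?_, fun s hs => (hc σ).2 s (hs.imp id fun h => h1 h)⟩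
  obtain ⟨h3, h4, h5⟩ := (hc σ).1 h
  exact ⟨h3.trans h2, h4, h5⟩

private theorem B1_bd (c : Finset T → ι → k) (τ : Finset T) :
    bd c τ = ∑ s ∈ τᶜ, c (insert s τ) := rfl

private theorem B1_exists {c : Finset T → ι → k} {τ : Finset T} (h : bd c τ ≠ 0) :
    ∃ s, s ∉ τ ∧ c (insert s τ) ≠ 0 := by
  by_contra hcon
  apply h
  rw [B1_bd]
  refine Finset.sum_eq_zero fun s hs => ?_
  by_contra hne
  exact hcon ⟨s, Finset.mem_compl.1 hs, hne⟩

theorem bd_mem {G : SimpleGraph T} {e : T → Matrix ι ι k} {κ A : Finset T} {j : ℕ}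
    {c : Finset T → ι → k} (hc : c ∈ Ch G e κ A (j + 1)) : bd c ∈ Ch G e κ A j := by
  rw [mem_Ch] at hc ⊢
  intro τ
  refine ⟨fun h => ?_, fun t ht => ?_⟩
  · obtain ⟨s, hs, h1⟩ := B1_exists h
    obtain ⟨h2, h3, h4⟩ := (hc _).1 h1
    refine ⟨(Finset.subset_insert s τ).trans h2, fun a ha b hb hab =>
      h3 a (Finset.mem_insert_of_mem ha) b (Finset.mem_insert_of_mem hb) hab, ?_⟩
    rw [Finset.card_insert_of_notMem hs] at h4
    omega
  · rw [B1_bd, Matrix.mulVec_sum]
    refine Finset.sum_eq_zero fun s _ => (hc _).2 t (ht.imp (fun h => Finset.mem_insert_of_mem h) id)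

/-- the boundary of a chain of degree zero vanishes -/
theorem bd_zero_deg {G : SimpleGraph T} {e : T → Matrix ι ι k} {κ A : Finset T}
    {c : Finset T → ι → k} (hc : c ∈ Ch G e κ A 0) : bd c = 0 := by
  funext τ
  by_contra h
  obtain ⟨s, hs, h1⟩ := B1_exists h
  have h2 := ((mem_Ch.1 hc _).1 h1).2.2
  rw [Finset.card_insert_of_notMem hs] at h2
  omega

/-- no chains above the dimension -/
theorem Ch_eq_zero {G : SimpleGraph T} {e : T → Matrix ι ι k} {κ A : Finset T} {j : ℕ}
    (h : ∀ σ, σ ⊆ A → Cl G σ → σ.card ≠ j) {c : Finset T → ι → k} (hc : c ∈ Ch G e κ A j) :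
    c = 0 := by
  funext σ
  by_contra hne
  obtain ⟨h1, h2, h3⟩ := (mem_Ch.1 hc σ).1 hne
  exact h σ h1 h2 h3

theorem res_add_cone (y : T) (c : Finset T → ι → k) : c = res y c + cone y (lkp y c) := by
  funext σ
  change c σ = (if y ∈ σ then 0 else c σ) +
    (if y ∈ σ then (if y ∈ σ.erase y then 0 else c (insert y (σ.erase y))) else 0)
  by_cases h : y ∈ σ
  · rw [if_pos h, if_pos h, if_neg (Finset.notMem_erase y σ), Finset.insert_erase h, zero_add]
  · rw [if_neg h, if_neg h, add_zero]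

theorem res_mem {G : SimpleGraph T} {e : T → Matrix ι ι k} {κ A : Finset T} {j : ℕ} {y : T}
    {c : Finset T → ι → k} (hc : c ∈ Ch G e κ (insert y A) j) : res y c ∈ Ch G e κ A j := by
  rw [mem_Ch] at hc ⊢
  intro σ
  unfold res
  by_cases hy : y ∈ σ
  · rw [if_pos hy]
    exact ⟨fun h => absurd rfl h, fun s _ => Matrix.mulVec_zero _⟩
  · rw [if_neg hy]
    refine ⟨fun h => ?_, (hc σ).2⟩
    obtain ⟨h1, h2, h3⟩ := (hc σ).1 h
    refine ⟨fun x hx => ?_, h2, h3⟩
    rcases Finset.mem_insert.1 (h1 hx) with rfl | h4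
    · exact absurd hx hy
    · exact h4

theorem lkp_mem {G : SimpleGraph T} {e : T → Matrix ι ι k} {κ A : Finset T} {j : ℕ} {y : T}
    {c : Finset T → ι → k} (hc : c ∈ Ch G e κ (insert y A) (j + 1)) :
    lkp y c ∈ Ch G e (insert y κ) (nb G A y) j := by
  rw [mem_Ch] at hc ⊢
  intro τ
  unfold lkp
  by_cases hy : y ∈ τ
  · rw [if_pos hy]
    exact ⟨fun h => absurd rfl h, fun s _ => Matrix.mulVec_zero _⟩
  · rw [if_neg hy]
    refine ⟨fun h => ?_, fun s hs => (hc _).2 s ?_⟩
    · obtain ⟨h1, h2, h3⟩ := (hc _).1 h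
      refine ⟨fun x hx => ?_, fun a ha b hb hab =>
        h2 a (Finset.mem_insert_of_mem ha) b (Finset.mem_insert_of_mem hb) hab, ?_⟩
      · have hxy : y ≠ x := fun h4 => hy (h4 ▸ hx)
        rw [mem_nb]
        refine ⟨?_, h2 y (Finset.mem_insert_self _ _) x (Finset.mem_insert_of_mem hx) hxy⟩
        rcases Finset.mem_insert.1 (h1 (Finset.mem_insert_of_mem hx)) with h5 | h5
        · exact absurd h5.symm hxy
        · exact h5
      · rw [Finset.card_insert_of_notMem hy] at h3
        omega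
    · rcases hs with hs | hs
      · exact Or.inl (Finset.mem_insert_of_mem hs)
      · rcases Finset.mem_insert.1 hs with rfl | h6
        · exact Or.inl (Finset.mem_insert_self _ _)
        · exact Or.inr h6

theorem cone_mem {G : SimpleGraph T} {e : T → Matrix ι ι k} {κ A : Finset T} {j : ℕ} {y : T}
    {w : Finset T → ι → k} (hw : w ∈ Ch G e (insert y κ) (nb G A y) j) :
    cone y w ∈ Ch G e κ (insert y A) (j + 1) := by
  rw [mem_Ch] at hw ⊢
  intro σ
  change ((if y ∈ σ then w (σ.erase y) else 0) ≠ 0 → _) ∧ ∀ s, _ → (e s).mulVec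
    (if y ∈ σ then w (σ.erase y) else 0) = 0
  by_cases hy : y ∈ σ
  · rw [if_pos hy]
    refine ⟨fun h => ?_, fun s hs => (hw _).2 s ?_⟩
    · obtain ⟨h1, h2, h3⟩ := (hw _).1 h
      refine ⟨fun x hx => ?_, fun a ha b hb hab => ?_, ?_⟩
      · by_cases hxy : x = y
        · rw [hxy]
          exact Finset.mem_insert_self _ _
        · exact Finset.mem_insert_of_mem (nb_subset (h1 (Finset.mem_erase.2 ⟨hxy, hx⟩)))
      · by_cases hay : a = y
        · rw [hay]
          exact (mem_nb.1 (h1 (Finset.mem_erase.2 ⟨fun h4 => hab (hay.trans h4.symm), hb⟩))).2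
        · by_cases hby : b = y
          · rw [hby]
            exact (mem_nb.1 (h1 (Finset.mem_erase.2 ⟨hay, ha⟩))).2.symm
          · exact h2 a (Finset.mem_erase.2 ⟨hay, ha⟩) b (Finset.mem_erase.2 ⟨hby, hb⟩) hab
      · have h4 := Finset.card_erase_add_one hy
        omega
    · by_cases hsy : s = y
      · exact Or.inr (Finset.mem_insert.2 (Or.inl hsy))
      · rcases hs with hs | hs
        · exact Or.inl (Finset.mem_erase.2 ⟨hsy, hs⟩)
        · exact Or.inr (Finset.mem_insert_of_mem hs)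
  · rw [if_neg hy]
    exact ⟨fun h => absurd rfl h, fun s _ => Matrix.mulVec_zero _⟩

/-- `bd` of the part away from `y` vanishes on the sets containing `y` -/
theorem bd_res_of_mem (y : T) (c : Finset T → ι → k) {τ : Finset T} (h : y ∈ τ) :
    bd (res y c) τ = 0 := by
  rw [B1_bd]
  refine Finset.sum_eq_zero fun s _ => ?_
  unfold res
  rw [if_pos (Finset.mem_insert_of_mem h)]

theorem bd_lkp_of_mem (y : T) (c : Finset T → ι → k) {τ : Finset T} (h : y ∈ τ) :
    bd (lkp y c) τ = 0 := by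
  rw [B1_bd]
  refine Finset.sum_eq_zero fun s _ => ?_
  unfold lkp
  rw [if_pos (Finset.mem_insert_of_mem h)]

end Pool.Agent.LibFlagPL

end

section

namespace Pool.Agent.LibFlagPL

open Finset

set_option linter.unusedSectionVars false

variable {T : Type} [Fintype T] [DecidableEq T] {k : Type} [Field k]
variable {ι : Type} [Fintype ι] [DecidableEq ι]

private theorem B3_nb {G : SimpleGraph T} {S : Finset T} {y s : T} (h : s ∈ nb G S y) :
    s ∈ S ∧ G.Adj y s := by
  classical
  rw [nb, Finset.mem_filter] at h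
  exact h

private theorem B3_comm {G : SimpleGraph T} {S : Finset T} {e f : T → Matrix ι ι k} (h : Sys G S e f)
    {y s : T} (hy : y ∈ S) (hs : s ∈ nb G S y) (v : ι → k) (hv : (e s).mulVec v = 0) :
    (e s).mulVec ((e y).mulVec ((f y).mulVec v)) = 0 := by
  obtain ⟨hs1, hs2⟩ := B3_nb hs
  have h1 : e s * (e y * f y) = e y * f y * e s := by
    rw [← Matrix.mul_assoc, ← h.cee y hy s hs1 hs2, Matrix.mul_assoc, h.cef s hs1 y hy hs2.symm, Matrix.mul_assoc]
  rw [Matrix.mulVec_mulVec, Matrix.mulVec_mulVec, Matrix.mul_assoc, h1, ← Matrix.mulVec_mulVec, hv,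
    Matrix.mulVec_zero]

theorem C3 {G : SimpleGraph T} {S : Finset T} {e f : T → Matrix ι ι k} (h : Sys G S e f)
    {κ A : Finset T} {j : ℕ} {y : T} (hy : y ∈ S) (hA : A ⊆ nb G S y) (hκ : κ ⊆ nb G S y)
    (h1 : HZ G e κ A j) : HZ G e (insert y κ) A j := by
  intro c hc hbc
  have hc' : c ∈ Ch G e κ A j := by
    intro σ
    exact ⟨(hc σ).1, fun s hs => (hc σ).2 s (hs.imp id fun h2 => Finset.mem_insert_of_mem h2)⟩
  obtain ⟨b, hb, hbb⟩ := h1 c hc' hbc
  refine ⟨fun σ => (e y).mulVec ((f y).mulVec (b σ)), ?_, ?_⟩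
  · intro σ
    have h0 : ∀ σ, b σ = 0 → (e y).mulVec ((f y).mulVec (b σ)) = 0 := by
      intro σ h2
      rw [h2, Matrix.mulVec_zero, Matrix.mulVec_zero]
    refine ⟨fun h2 => (hb σ).1 fun h3 => h2 (h0 σ h3), fun s hs => ?_⟩
    by_cases h2 : b σ = 0
    · change (e s).mulVec ((e y).mulVec ((f y).mulVec (b σ))) = 0
      rw [h0 σ h2, Matrix.mulVec_zero]
    · obtain ⟨h3, _, _⟩ := (hb σ).1 h2
      rcases hs with hs | hs
      · exact B3_comm h hy (hA (h3 hs)) _ ((hb σ).2 s (Or.inl hs))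
      · rcases Finset.mem_insert.mp hs with rfl | hs
        · change (e s).mulVec ((e s).mulVec ((f s).mulVec (b σ))) = 0
          rw [Matrix.mulVec_mulVec, h.ee s hy, Matrix.zero_mulVec]
        · exact B3_comm h hy (hκ hs) _ ((hb σ).2 s (Or.inr hs))
  · funext τ
    have h2 : bd (fun σ => (e y).mulVec ((f y).mulVec (b σ))) τ
        = (e y).mulVec ((f y).mulVec (bd b τ)) := by
      change ∑ s ∈ τᶜ, (e y).mulVec ((f y).mulVec (b (insert s τ)))
        = (e y).mulVec ((f y).mulVec (∑ s ∈ τᶜ, b (insert s τ)))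
      rw [← Matrix.mulVecLin_apply (f y), map_sum, ← Matrix.mulVecLin_apply (e y), map_sum]
      rfl
    rw [h2, hbb]
    have h3 : (e y).mulVec (c τ) = 0 := (hc τ).2 y (Or.inr (Finset.mem_insert_self _ _))
    have h4 := congrArg (fun M => M.mulVec (c τ)) (h.ef y hy)
    simp only [Matrix.add_mulVec, Matrix.one_mulVec] at h4
    rw [← Matrix.mulVec_mulVec, ← Matrix.mulVec_mulVec, h3, Matrix.mulVec_zero, add_zero] at h4
    exact h4

theorem V1 [CharP k 2] {G : SimpleGraph T} {S : Finset T} {e : T → Matrix ι ι k}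
    (hc : Cpl G S e) {κ B : Finset T} (hB : B ⊆ S) (h2 : B.card ≤ 2)
    (hn : ∀ a ∈ B, ∀ b ∈ B, ¬ G.Adj a b) : HZ G e κ B 1 := by
  intro c hcC hbc
  have h0 : ∑ s : T, c {s} = 0 := by
    have h3 := congrFun hbc ∅
    have h4 : bd c ∅ = ∑ s ∈ (∅ : Finset T)ᶜ, c (insert s ∅) := rfl
    rw [h4, Finset.compl_empty] at h3
    exact h3
  have h5 : ∀ a, c {a} = 0 := by
    intro a
    by_contra ha
    have haB : a ∈ B := ((hcC {a}).1 ha).1 (Finset.mem_singleton_self a)
    have h6 : ∃ b, b ≠ a ∧ c {b} ≠ 0 := by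
      by_contra h7
      push Not at h7
      rw [Finset.sum_eq_single a (fun b _ hb => h7 b hb) (fun h8 => absurd (Finset.mem_univ a) h8)] at h0
      exact ha h0
    obtain ⟨b, hba, hb⟩ := h6
    have hbB : b ∈ B := ((hcC {b}).1 hb).1 (Finset.mem_singleton_self b)
    have h7 : ∀ s, s ≠ a → s ≠ b → c {s} = 0 := by
      intro s hsa hsb
      by_contra hs
      have hsB : s ∈ B := ((hcC {s}).1 hs).1 (Finset.mem_singleton_self s)
      have h8 : ({s, a, b} : Finset T) ⊆ B := by
        intro t ht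
        simp only [Finset.mem_insert, Finset.mem_singleton] at ht
        rcases ht with rfl | rfl | rfl
        · exact hsB
        · exact haB
        · exact hbB
      have h9 := Finset.card_le_card h8
      rw [Finset.card_eq_three.mpr ⟨s, a, b, hsa, hsb, hba.symm, rfl⟩] at h9
      omega
    have h8 : c {a} + c {b} = 0 := by
      rw [← Finset.sum_pair (f := fun s => c {s}) hba.symm, ← h0]
      refine Finset.sum_subset (Finset.subset_univ _) fun s _ hs => h7 s ?_ ?_
      · rintro rfl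
        exact hs (Finset.mem_insert_self _ _)
      · rintro rfl
        exact hs (Finset.mem_insert_of_mem (Finset.mem_singleton_self _))
    have h9 : (e a).mulVec (c {a}) = 0 := (hcC {a}).2 a (Or.inl (Finset.mem_singleton_self a))
    have h10 : (e b).mulVec (c {b}) = 0 := (hcC {b}).2 b (Or.inl (Finset.mem_singleton_self b))
    have h11 : c {b} = -c {a} := by
      rw [eq_neg_iff_add_eq_zero, add_comm]
      exact h8
    rw [h11, Matrix.mulVec_neg, neg_eq_zero] at h10
    exact ha ((hc a (hB haB) b (hB hbB) hba.symm (hn a haB b hbB)).1 _ h9 h10)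
  refine ⟨0, Submodule.zero_mem _, ?_⟩
  rw [map_zero]
  funext σ
  by_contra hσ
  have hσ' : c σ ≠ 0 := fun h6 => hσ h6.symm
  obtain ⟨_, _, h6⟩ := (hcC σ).1 hσ'
  obtain ⟨a, rfl⟩ := Finset.card_eq_one.mp h6
  exact hσ' (h5 a)

theorem M0 {G : SimpleGraph T} {S : Finset T} {e : T → Matrix ι ι k}
    (hc : Cpl G S e) {A : Finset T} (hA : A ⊆ S)
    (h2 : ∃ a ∈ A, ∃ b ∈ A, a ≠ b ∧ ¬ G.Adj a b) : HZ G e ∅ A 0 := by
  intro c hcC _
  obtain ⟨a, ha, b, hb, hab, hadj⟩ := h2
  obtain ⟨x, y, hx, hy, hxy⟩ := (hc a (hA ha) b (hA hb) hab hadj).2 (c ∅)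
  have hsing : ∀ s t : T, ({s} : Finset T) = {t} ↔ s = t := fun s t => Finset.singleton_inj
  have hcl : ∀ s : T, Cl G {s} := by
    intro s t ht u hu htu
    rw [Finset.mem_singleton] at ht hu
    exact absurd (ht.trans hu.symm) htu
  refine ⟨fun σ => if σ = {a} then x else if σ = {b} then y else 0, ?_, ?_⟩
  · intro σ
    by_cases h3 : σ = {a}
    · subst h3
      refine ⟨fun _ => ⟨?_, hcl a, Finset.card_singleton a⟩, fun s hs => ?_⟩
      · rw [Finset.singleton_subset_iff]
        exact ha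
      · rcases hs with hs | hs
        · rw [Finset.mem_singleton] at hs
          subst hs
          change (e s).mulVec (if ({s} : Finset T) = {s} then x else _) = 0
          rw [if_pos rfl]
          exact hx
        · exact absurd hs (Finset.notMem_empty s)
    · by_cases h4 : σ = {b}
      · subst h4
        refine ⟨fun _ => ⟨?_, hcl b, Finset.card_singleton b⟩, fun s hs => ?_⟩
        · rw [Finset.singleton_subset_iff]
          exact hb
        · rcases hs with hs | hs
          · rw [Finset.mem_singleton] at hs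
            subst hs
            change (e s).mulVec (if ({s} : Finset T) = {a} then x else if ({s} : Finset T) = {s} then y else 0) = 0
            rw [if_neg h3, if_pos rfl]
            exact hy
          · exact absurd hs (Finset.notMem_empty s)
      · refine ⟨fun h5 => ?_, fun s _ => ?_⟩
        · exfalso
          apply h5
          change (if σ = {a} then x else if σ = {b} then y else 0) = 0
          rw [if_neg h3, if_neg h4]
        · change (e s).mulVec (if σ = {a} then x else if σ = {b} then y else 0) = 0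
          rw [if_neg h3, if_neg h4, Matrix.mulVec_zero]
  · funext τ
    change ∑ s ∈ τᶜ, (if insert s τ = {a} then x else if insert s τ = {b} then y else 0) = c τ
    by_cases hτ : τ = ∅
    · subst hτ
      rw [Finset.compl_empty, hxy]
      have h5 : ∀ s : T, (if insert s (∅ : Finset T) = {a} then x else if insert s (∅ : Finset T) = {b} then y else 0)
          = (if s = a then x else 0) + (if s = b then y else 0) := by
        intro s
        have h6 : insert s (∅ : Finset T) = {s} := rfl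
        rw [h6]
        by_cases h7 : s = a
        · subst h7
          rw [if_pos rfl, if_pos rfl, if_neg hab, add_zero]
        · rw [if_neg (fun h8 => h7 ((hsing s a).mp h8)), if_neg h7, zero_add]
          by_cases h8 : s = b
          · subst h8
            rw [if_pos rfl, if_pos rfl]
          · rw [if_neg (fun h9 => h8 ((hsing s b).mp h9)), if_neg h8]
      rw [Finset.sum_congr rfl fun s _ => h5 s, Finset.sum_add_distrib, Finset.sum_ite_eq', Finset.sum_ite_eq',
        if_pos (Finset.mem_univ a), if_pos (Finset.mem_univ b)]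
    · have h5 : c τ = 0 := by
        by_contra h6
        exact hτ (Finset.card_eq_zero.mp ((hcC τ).1 h6).2.2)
      rw [h5]
      refine Finset.sum_eq_zero fun s hs => ?_
      rw [Finset.mem_compl] at hs
      obtain ⟨t, ht⟩ := Finset.nonempty_iff_ne_empty.mpr hτ
      have h6 : ∀ u : T, insert s τ ≠ {u} := by
        intro u h7
        have h8 : s ∈ ({u} : Finset T) := by
          rw [← h7]
          exact Finset.mem_insert_self _ _
        have h9 : t ∈ ({u} : Finset T) := by
          rw [← h7]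
          exact Finset.mem_insert_of_mem ht
        rw [Finset.mem_singleton] at h8 h9
        rw [h8, ← h9] at hs
        exact hs ht
      rw [if_neg (h6 a), if_neg (h6 b)]

end Pool.Agent.LibFlagPL

end

section

namespace Pool.Agent.LibFlagPL

open Finset

set_option linter.unusedSectionVars false

variable {T : Type} [Fintype T] [DecidableEq T] {k : Type} [Field k]
variable {ι : Type} [Fintype ι] [DecidableEq ι]

private theorem B10_add_self [CharP k 2] (c : Finset T → ι → k) : c + c = 0 := by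
  funext σ i
  exact CharTwo.add_self_eq_zero (c σ i)

private def B10_Hom (G : SimpleGraph T) (e : T → Matrix ι ι k) (S : Finset T)
    (c c' : Finset T → ι → k) : Prop := ∃ b ∈ Ch G e ∅ S 2, bd b = c + c'

private theorem B10_trans [CharP k 2] {G : SimpleGraph T} {e : T → Matrix ι ι k} {S : Finset T}
    {c c' c'' : Finset T → ι → k} (h : B10_Hom G e S c c') (h' : B10_Hom G e S c' c'') :
    B10_Hom G e S c c'' := by
  obtain ⟨b, hb, e1⟩ := h
  obtain ⟨b', hb', e2⟩ := h'
  refine ⟨b + b', Submodule.add_mem _ hb hb', ?_⟩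
  rw [map_add, e1, e2]
  have h1 : c + c' + (c' + c'') = c + c'' + (c' + c') := by abel
  rw [h1, B10_add_self, add_zero]

private theorem B10_deg0 {G : SimpleGraph T} {e : T → Matrix ι ι k} {A B : Finset T}
    {c : Finset T → ι → k} (hc : c ∈ Ch G e ∅ B 0) : c ∈ Ch G e ∅ A 0 := by
  rw [mem_Ch] at hc ⊢
  intro σ
  refine ⟨fun h => ?_, (hc σ).2⟩
  obtain ⟨-, h2, h3⟩ := (hc σ).1 h
  refine ⟨?_, h2, h3⟩
  rw [Finset.card_eq_zero.1 h3]
  exact Finset.empty_subset _

private theorem B10_lift {G : SimpleGraph T} {S : Finset T} {e f : T → Matrix ι ι k}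
    (hg : Good G S e f) {A B : Finset T} (hA : A ⊆ S) (h2 : ∃ a ∈ A, ∃ b ∈ A, a ≠ b ∧ ¬ G.Adj a b)
    {c : Finset T → ι → k} (hc : c ∈ Ch G e ∅ B 1) : ∃ w ∈ Ch G e ∅ A 1, bd w = bd c := by
  have h1 : bd c ∈ Ch G e ∅ A 0 := B10_deg0 (bd_mem (j := 0) hc)
  exact M0 hg.cpl hA h2 (bd c) h1 (bd_zero_deg h1)

private theorem B10_G1 [CharP k 2] {G : SimpleGraph T} {S : Finset T} {e f : T → Matrix ι ι k}
    (hg : Good G S e f) {y : T} (hy : y ∈ S) {c c' : Finset T → ι → k}
    (hc : c ∈ Ch G e ∅ (nb G S y) 1) (hc' : c' ∈ Ch G e ∅ (nb G S y) 1) (h : bd c = bd c') :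
    B10_Hom G e S c c' := by
  have h1 : bd (c + c') = 0 := by rw [map_add, h, B10_add_self]
  obtain ⟨b, hb, e1⟩ := hg.acyc y hy (c + c') (Submodule.add_mem _ hc hc') h1
  exact ⟨b, Ch_mono (Finset.Subset.refl _) nb_subset hb, e1⟩

private theorem B10_G2 [CharP k 2] {G : SimpleGraph T} {S : Finset T} {e f : T → Matrix ι ι k}
    (hS : F3 G S) (hg : Good G S e f) {y z : T} (hy : y ∈ S) (hz : z ∈ S) (hyz : G.Adj y z)
    {c c' : Finset T → ι → k} (hc : c ∈ Ch G e ∅ (nb G S y) 1) (hc' : c' ∈ Ch G e ∅ (nb G S z) 1)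
    (h : bd c = bd c') : B10_Hom G e S c c' := by
  have hA1 : nb G (nb G S y) z ⊆ nb G S y := nb_subset
  have hA2 : nb G (nb G S y) z ⊆ nb G S z := by
    intro t ht
    rw [mem_nb] at ht ⊢
    exact ⟨(mem_nb.1 ht.1).1, ht.2⟩
  obtain ⟨w, hw, e1⟩ := B10_lift hg (hA1.trans nb_subset) (hS.circle hy hz hyz).exists_pair hc
  exact B10_trans (B10_G1 hg hy hc (Ch_mono (Finset.Subset.refl _) hA1 hw) e1.symm)
    (B10_G1 hg hz (Ch_mono (Finset.Subset.refl _) hA2 hw) hc' (e1.trans h))

private theorem B10_G3 [CharP k 2] {G : SimpleGraph T} {S : Finset T} {e f : T → Matrix ι ι k}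
    (hS : F3 G S) (hg : Good G S e f) {y z : T} (hy : y ∈ S)
    (hyz : Relation.ReflTransGen (fun a b => a ∈ S ∧ b ∈ S ∧ G.Adj a b) y z)
    {c : Finset T → ι → k} (hc : c ∈ Ch G e ∅ (nb G S y) 1) :
    ∀ c' ∈ Ch G e ∅ (nb G S z) 1, bd c = bd c' → B10_Hom G e S c c' := by
  induction hyz with
  | refl =>
    intro c' hc' h
    exact B10_G1 hg hy hc hc' h
  | tail _ hbc ih =>
    intro c' hc' h
    obtain ⟨hb, hz, hadj⟩ := hbc
    obtain ⟨w, hw, e1⟩ := B10_lift hg nb_subset (hS.2 _ hb).exists_pair hc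
    exact B10_trans (ih w hw e1.symm) (B10_G2 hS hg hb hz hadj hw hc' (e1.trans h))

theorem glue [CharP k 2] {G : SimpleGraph T} {S : Finset T} {e f : T → Matrix ι ι k}
    (hS : F3 G S) (hg : Good G S e f) : HZ G e ∅ S 1 := by
  classical
  intro c hc hbc
  obtain ⟨y0, hy0⟩ := hS.1.1
  let cs : T → Finset T → ι → k := fun s σ => if σ = {s} then c σ else 0
  have hcs : ∀ s σ, cs s σ = if σ = {s} then c σ else 0 := fun _ _ => rfl
  have hsum : ∑ s ∈ S, cs s = c := by
    funext σ
    rw [Finset.sum_apply]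
    by_cases h0 : c σ = 0
    · rw [h0]
      refine Finset.sum_eq_zero (fun s _ => ?_)
      rw [hcs, h0, ite_self]
    · obtain ⟨h1, -, h3⟩ := (mem_Ch.1 hc σ).1 h0
      obtain ⟨s0, rfl⟩ := Finset.card_eq_one.1 h3
      rw [Finset.sum_eq_single s0]
      · rw [hcs, if_pos rfl]
      · intro b _ hb
        rw [hcs, if_neg]
        intro h4
        exact hb (Finset.singleton_injective h4).symm
      · intro h4
        exact absurd (h1 (Finset.mem_singleton_self _)) h4
  have hstep : ∀ s ∈ S, ∃ w b : Finset T → ι → k, w ∈ Ch G e ∅ (nb G S y0) 1 ∧ bd w = bd (cs s) ∧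
      b ∈ Ch G e ∅ S 2 ∧ bd b = cs s + w := by
    intro s hs
    obtain ⟨ys, hys⟩ := (hS.2 s hs).1.1
    rw [mem_nb] at hys
    have h1 : cs s ∈ Ch G e ∅ (nb G S ys) 1 := by
      rw [mem_Ch]
      intro σ
      rw [hcs]
      split_ifs with h2
      · refine ⟨fun _ => ?_, (mem_Ch.1 hc σ).2⟩
        rw [h2]
        refine ⟨?_, ?_, Finset.card_singleton s⟩
        · intro t ht
          rw [Finset.mem_singleton] at ht
          rw [ht, mem_nb]
          exact ⟨hs, hys.2.symm⟩
        · intro a ha b hb hab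
          rw [Finset.mem_singleton] at ha hb
          exact absurd (ha.trans hb.symm) hab
      · exact ⟨fun h => absurd rfl h, fun t _ => Matrix.mulVec_zero _⟩
    obtain ⟨w, hw, e1⟩ := B10_lift hg nb_subset (hS.2 _ hy0).exists_pair h1
    obtain ⟨b, hb, e2⟩ := B10_G3 hS hg hys.1 (hS.1.2 ys hys.1 y0 hy0) h1 w hw e1.symm
    exact ⟨w, b, hw, e1, hb, e2⟩
  choose! w b hw using hstep
  have hW : ∑ s ∈ S, w s ∈ Ch G e ∅ (nb G S y0) 1 := Submodule.sum_mem _ (fun s hs => (hw s hs).1)
  have hW0 : bd (∑ s ∈ S, w s) = 0 := by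
    rw [map_sum, Finset.sum_congr rfl (fun s hs => (hw s hs).2.1), ← map_sum, hsum, hbc]
  obtain ⟨b', hb', e3⟩ := hg.acyc y0 hy0 _ hW hW0
  refine ⟨∑ s ∈ S, b s + b', Submodule.add_mem _ (Submodule.sum_mem _ (fun s hs => (hw s hs).2.2.1))
    (Ch_mono (Finset.Subset.refl _) nb_subset hb'), ?_⟩
  rw [map_add, map_sum, Finset.sum_congr rfl (fun s hs => (hw s hs).2.2.2), Finset.sum_add_distrib,
    hsum, e3, add_assoc, B10_add_self, add_zero]

end Pool.Agent.LibFlagPL

end

section

namespace Pool.Agent.LibFlagPL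

open Finset

set_option linter.unusedSectionVars false

variable {T : Type} [Fintype T] [DecidableEq T] {k : Type} [Field k]
variable {ι : Type} [Fintype ι] [DecidableEq ι]

private theorem B2_two [CharP k 2] (w : Finset T → ι → k) : w + w = 0 := by
  funext τ i
  exact CharTwo.add_self_eq_zero (w τ i)

private theorem B2_cone [CharP k 2] (y : T) (w : Finset T → ι → k) :
    bd (cone y w) = w + cone y (bd w) := by
  have h := bd_cone y w
  have h2 := B2_two (cone y (bd w))
  calc bd (cone y w) = bd (cone y w) + (cone y (bd w) + cone y (bd w)) := by rw [h2, add_zero]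
    _ = (bd (cone y w) + cone y (bd w)) + cone y (bd w) := by rw [add_assoc]
    _ = w + cone y (bd w) := by rw [h]

private theorem B2_lkp (y : T) (c : Finset T → ι → k) {τ : Finset T} (h : y ∈ τ) : lkp y c τ = 0 := by
  unfold lkp
  rw [if_pos h]

private theorem B2_nb (G : SimpleGraph T) (A : Finset T) (y : T) : nb G A y ⊆ A := by
  classical
  intro x hx
  unfold nb at hx
  exact (mem_filter.1 hx).1

theorem link_cycle [CharP k 2] (y : T) (c : Finset T → ι → k) (h : ∀ τ, y ∈ τ → bd c τ = 0) :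
    bd (lkp y c) = 0 ∧ bd c = bd (res y c) + lkp y c := by
  have h1 : bd c = bd (res y c) + (lkp y c + cone y (bd (lkp y c))) := by
    have h2 : bd c = bd (res y c + cone y (lkp y c)) := congrArg bd (res_add_cone y c)
    rw [h2, map_add, B2_cone]
  have h3 : bd (lkp y c) = 0 := by
    funext σ
    by_cases hy : y ∈ σ
    · rw [bd_lkp_of_mem y c hy]
      rfl
    · have h4 := congrFun h1 (insert y σ)
      have hm : y ∈ insert y σ := mem_insert_self _ _
      rw [h _ hm, Pi.add_apply, Pi.add_apply, bd_res_of_mem y c hm, B2_lkp y c hm, zero_add, zero_add] at h4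
      have h5 : cone y (bd (lkp y c)) (insert y σ) = bd (lkp y c) σ := by
        change (if y ∈ insert y σ then bd (lkp y c) ((insert y σ).erase y) else 0) = _
        rw [if_pos hm, erase_insert hy]
      rw [h5] at h4
      rw [← h4]
      rfl
  refine ⟨h3, ?_⟩
  rw [h3, map_zero, add_zero] at h1
  exact h1

/-- adding a vertex -/
theorem C1v [CharP k 2] {G : SimpleGraph T} {e : T → Matrix ι ι k} {κ A : Finset T} {j : ℕ} {y : T}
    (hy : y ∉ A) (h1 : HZ G e κ A (j + 1)) (h2 : HZ G e (insert y κ) (nb G A y) j) :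
    HZ G e κ (insert y A) (j + 1) := by
  have _ := hy
  intro c hc hbd
  obtain ⟨h3, h4⟩ := link_cycle y c (fun τ _ => by rw [hbd]; rfl)
  obtain ⟨b, hb, hbw⟩ := h2 (lkp y c) (lkp_mem hc) h3
  have hb' : b ∈ Ch G e κ A (j + 1) := Ch_mono (subset_insert _ _) (B2_nb G A y) hb
  have h5 : bd (res y c + b) = 0 := by
    rw [map_add, hbw, ← h4, hbd]
  obtain ⟨b', hb'', h6⟩ := h1 (res y c + b) (Submodule.add_mem _ (res_mem hc) hb') h5
  refine ⟨b' + cone y b, Submodule.add_mem _ (Ch_mono (Subset.refl _) (subset_insert _ _) hb'') (cone_mem hb), ?_⟩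
  rw [map_add, h6, B2_cone, hbw]
  calc res y c + b + (b + cone y (lkp y c)) = res y c + cone y (lkp y c) + (b + b) := by abel
    _ = c := by rw [B2_two, add_zero, ← res_add_cone]

/-- a boundary on `insert y A` which lives on `A` is a boundary on `A` -/
theorem C2 [CharP k 2] {G : SimpleGraph T} {e : T → Matrix ι ι k} {κ A : Finset T} {j : ℕ} {y : T}
    (hy : y ∉ A) (h2 : HZ G e (insert y κ) (nb G A y) j) {b : Finset T → ι → k}
    (hb : b ∈ Ch G e κ (insert y A) (j + 1)) (hc : bd b ∈ Ch G e κ A j) :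
    ∃ b' ∈ Ch G e κ A (j + 1), bd b' = bd b := by
  obtain ⟨h3, h4⟩ := link_cycle y b (fun τ hτ => by
    by_contra hne
    exact hy (((mem_Ch.1 hc τ).1 hne).1 hτ))
  obtain ⟨b'', hb'', hw⟩ := h2 (lkp y b) (lkp_mem hb) h3
  refine ⟨res y b + b'', Submodule.add_mem _ (res_mem hb) (Ch_mono (subset_insert _ _) (B2_nb G A y) hb''), ?_⟩
  rw [map_add, hw, ← h4]

/-- removing a vertex -/
theorem C2' [CharP k 2] {G : SimpleGraph T} {e : T → Matrix ι ι k} {κ A : Finset T} {j : ℕ} {y : T}
    (hy : y ∉ A) (h2 : HZ G e (insert y κ) (nb G A y) j) (h : HZ G e κ (insert y A) j) :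
    HZ G e κ A j := by
  intro c hc hbd
  obtain ⟨b, hb, hbc⟩ := h c (Ch_mono (Subset.refl _) (subset_insert _ _) hc) hbd
  obtain ⟨b', hb', h3⟩ := C2 hy h2 hb (hbc.symm ▸ hc)
  exact ⟨b', hb', h3.trans hbc⟩

end Pool.Agent.LibFlagPL

end

section

namespace Pool.Agent.LibFlagPL

open Finset

set_option linter.unusedSectionVars false

variable {T : Type} [Fintype T] [DecidableEq T] {k : Type} [Field k]
variable {ι : Type} [Fintype ι] [DecidableEq ι]

private theorem B4_nb_mono {G : SimpleGraph T} {A B : Finset T} {y : T} (h : A ⊆ B) :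
    nb G A y ⊆ nb G B y := by
  intro x hx
  rw [mem_nb] at hx ⊢
  exact ⟨h hx.1, hx.2⟩

private theorem B4_desc {P : Finset T → Prop} (K : Finset T)
    (hs : ∀ (B : Finset T) (y : T), y ∉ B → y ∈ K → B ⊆ K → P (insert y B) → P B) (hK : P K) :
    ∀ B : Finset T, B ⊆ K → P B := by
  have key : ∀ n (B : Finset T), B ⊆ K → (K \ B).card = n → P B := by
    intro n
    induction n with
    | zero =>
      intro B hB h
      have h1 : K ⊆ B := Finset.sdiff_eq_empty_iff_subset.1 (Finset.card_eq_zero.1 h)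
      rw [Finset.Subset.antisymm hB h1]
      exact hK
    | succ n ih =>
      intro B hB h
      have hne : (K \ B).Nonempty := by
        rw [← Finset.card_pos, h]
        omega
      obtain ⟨y, hy⟩ := hne
      rw [Finset.mem_sdiff] at hy
      refine hs B y hy.2 hy.1 hB (ih _ (Finset.insert_subset hy.1 hB) ?_)
      have h2 : K \ insert y B = (K \ B).erase y := by
        ext x
        simp only [Finset.mem_sdiff, Finset.mem_insert, Finset.mem_erase]
        tauto
      rw [h2, Finset.card_erase_of_mem (Finset.mem_sdiff.2 hy), h]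
      omega
  exact fun B hB => key _ B hB rfl

theorem HZ_empty {G : SimpleGraph T} {e : T → Matrix ι ι k} {κ : Finset T} {j : ℕ} :
    HZ G e κ ∅ (j + 1) := by
  intro c hc _
  have h0 : c = 0 := by
    refine Ch_eq_zero (fun σ hσ _ h => ?_) hc
    rw [Finset.subset_empty.1 hσ, Finset.card_empty] at h
    omega
  exact ⟨0, Submodule.zero_mem _, by rw [h0, map_zero]⟩

theorem V2 [CharP k 2] {G : SimpleGraph T} {S : Finset T} {e : T → Matrix ι ι k}
    (hc : Cpl G S e) {C : Finset T} (hCS : C ⊆ S) (hC : Circle G C) {κ B : Finset T} (hB : B ⊆ C) :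
    HZ G e κ B 2 := by
  induction B using Finset.induction_on generalizing κ with
  | empty => exact HZ_empty
  | insert y B hy ih =>
    have hyC : y ∈ C := hB (Finset.mem_insert_self _ _)
    have hBC : B ⊆ C := fun x hx => hB (Finset.mem_insert_of_mem hx)
    refine C1v hy (ih hBC) (V1 hc (fun x hx => hCS (hBC (nb_subset hx))) ?_ ?_)
    · rw [← hC.2.1 y hyC]
      exact Finset.card_le_card (B4_nb_mono hBC)
    · intro a ha b hb hab
      exact hC.not_adj hyC (B4_nb_mono hBC ha) (B4_nb_mono hBC hb) hab.ne hab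

theorem V3 [CharP k 2] {G : SimpleGraph T} {S : Finset T} {e : T → Matrix ι ι k}
    (hc : Cpl G S e) {K : Finset T} (hKS : K ⊆ S) (hK : F2 G K) {κ B : Finset T} (hB : B ⊆ K) :
    HZ G e κ B 3 := by
  induction B using Finset.induction_on generalizing κ with
  | empty => exact HZ_empty
  | insert y B hy ih =>
    have hyK : y ∈ K := hB (Finset.mem_insert_self _ _)
    have hBK : B ⊆ K := fun x hx => hB (Finset.mem_insert_of_mem hx)
    exact C1v hy (ih hBK) (V2 hc (fun x hx => hKS (nb_subset hx)) (hK.2.1 y hyK)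
      (B4_nb_mono hBK))

theorem V3' [CharP k 2] {G : SimpleGraph T} {S : Finset T} {e : T → Matrix ι ι k}
    (hc : Cpl G S e) {K : Finset T} (hKS : K ⊆ S) (hK : F2 G K) {κ B : Finset T} (hB : B ⊆ K)
    (h : HZ G e κ K 2) : HZ G e κ B 2 := by
  refine B4_desc (P := fun B => HZ G e κ B 2) K ?_ h B hB
  intro B y hy hyK hBK hP
  exact C2' hy (V2 hc (fun x hx => hKS (nb_subset hx)) (hK.2.1 y hyK) (B4_nb_mono hBK)) hP

theorem V4 [CharP k 2] {G : SimpleGraph T} {S : Finset T} {e : T → Matrix ι ι k}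
    (hc : Cpl G S e) (hS : F3 G S) {κ A : Finset T} (hA : A ⊆ S) : HZ G e κ A 4 := by
  induction A using Finset.induction_on generalizing κ with
  | empty => exact HZ_empty
  | insert y A hy ih =>
    have hyS : y ∈ S := hA (Finset.mem_insert_self _ _)
    have hAS : A ⊆ S := fun x hx => hA (Finset.mem_insert_of_mem hx)
    exact C1v hy (ih hAS) (V3 hc nb_subset (hS.2 y hyS) (B4_nb_mono hAS))

theorem V4b [CharP k 2] {G : SimpleGraph T} {S : Finset T} {e : T → Matrix ι ι k}
    (hc : Cpl G S e) (hS : F3 G S) (h : ∀ y ∈ S, HZ G e {y} (nb G S y) 2) {A : Finset T}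
    (hA : A ⊆ S) : HZ G e ∅ A 3 := by
  induction A using Finset.induction_on with
  | empty => exact HZ_empty
  | insert y A hy ih =>
    have hyS : y ∈ S := hA (Finset.mem_insert_self _ _)
    have hAS : A ⊆ S := fun x hx => hA (Finset.mem_insert_of_mem hx)
    refine C1v hy (ih hAS) ?_
    rw [insert_empty_eq]
    exact V3' hc nb_subset (hS.2 y hyS) (B4_nb_mono hAS) (h y hyS)

theorem V4c [CharP k 2] {G : SimpleGraph T} {S : Finset T} {e : T → Matrix ι ι k}
    (hc : Cpl G S e) (hS : F3 G S) (h : ∀ y ∈ S, HZ G e {y} (nb G S y) 2) {A : Finset T}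
    (hA : A ⊆ S) (h2 : HZ G e ∅ S 2) : HZ G e ∅ A 2 := by
  refine B4_desc (P := fun B => HZ G e ∅ B 2) S ?_ h2 A hA
  intro B y hy hyS hBS hP
  refine C2' hy ?_ hP
  rw [insert_empty_eq]
  exact V3' hc nb_subset (hS.2 y hyS) (B4_nb_mono hBS) (h y hyS)

end Pool.Agent.LibFlagPL

end

section

namespace Pool.Agent.LibFlagPL

open Finset

set_option linter.unusedSectionVars false

variable {T : Type} [Fintype T] [DecidableEq T] {k : Type} [Field k]
variable {ι : Type} [Fintype ι] [DecidableEq ι]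

/-- intersection of the kernels -/
def kerI (e : T → Matrix ι ι k) (σ : Finset T) : Submodule k (ι → k) where
  carrier := {v | ∀ s ∈ σ, (e s).mulVec v = 0}
  zero_mem' := fun s _ => by simp
  add_mem' := fun {a b} ha hb s hs => by rw [Matrix.mulVec_add, ha s hs, hb s hs, add_zero]
  smul_mem' := fun r a ha s hs => by rw [Matrix.mulVec_smul, ha s hs, smul_zero]

private theorem B5_step {G : SimpleGraph T} {S : Finset T} {e f : T → Matrix ι ι k}
    (h : Sys G S e f) {σ : Finset T} {s : T} (hs : s ∉ σ) (h1 : insert s σ ⊆ S)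
    (h2 : Cl G (insert s σ)) :
    2 * Module.finrank k (kerI e (insert s σ)) = Module.finrank k (kerI e σ) := by
  have hsS : s ∈ S := h1 (mem_insert_self s σ)
  have htS : ∀ t ∈ σ, t ∈ S := fun t ht => h1 (mem_insert_of_mem ht)
  have hadj : ∀ t ∈ σ, G.Adj t s := fun t ht =>
    h2 t (mem_insert_of_mem ht) s (mem_insert_self s σ) (fun hts => hs (hts ▸ ht))
  have hE : ∀ v ∈ kerI e σ, (e s).mulVecLin v ∈ kerI e σ := by
    intro v hv t ht
    show (e t).mulVec ((e s).mulVec v) = 0
    rw [Matrix.mulVec_mulVec, h.cee t (htS t ht) s hsS (hadj t ht), ← Matrix.mulVec_mulVec,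
      hv t ht, Matrix.mulVec_zero]
  have hF : ∀ v ∈ kerI e σ, (f s).mulVec v ∈ kerI e σ := by
    intro v hv t ht
    rw [Matrix.mulVec_mulVec, h.cef t (htS t ht) s hsS (hadj t ht), ← Matrix.mulVec_mulVec,
      hv t ht, Matrix.mulVec_zero]
  let E : kerI e σ →ₗ[k] kerI e σ := (e s).mulVecLin.restrict hE
  have hEv : ∀ v : kerI e σ, ((E v : kerI e σ) : ι → k) = (e s).mulVec (v : ι → k) := fun v => rfl
  have hrk : LinearMap.range E = LinearMap.ker E := by
    apply le_antisymm
    · rintro _ ⟨v, rfl⟩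
      rw [LinearMap.mem_ker]
      apply Subtype.ext
      rw [hEv, hEv, Matrix.mulVec_mulVec, h.ee s hsS, Matrix.zero_mulVec]
      rfl
    · intro v hv
      rw [LinearMap.mem_ker] at hv
      have hv' : (e s).mulVec (v : ι → k) = 0 := by
        rw [← hEv, hv]
        rfl
      refine ⟨⟨(f s).mulVec (v : ι → k), hF _ v.2⟩, ?_⟩
      apply Subtype.ext
      rw [hEv]
      show (e s).mulVec ((f s).mulVec (v : ι → k)) = v
      have h3 : (e s * f s + f s * e s).mulVec (v : ι → k) = v := by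
        rw [h.ef s hsS, Matrix.one_mulVec]
      rw [Matrix.add_mulVec, ← Matrix.mulVec_mulVec, ← Matrix.mulVec_mulVec, hv',
        Matrix.mulVec_zero, add_zero] at h3
      exact h3
  have hmap : Submodule.map (kerI e σ).subtype (LinearMap.ker E) = kerI e (insert s σ) := by
    ext v
    constructor
    · rintro ⟨w, hw, rfl⟩
      have hw' : E w = 0 := LinearMap.mem_ker.1 hw
      intro t ht
      rcases mem_insert.1 ht with h4 | h4
      · rw [h4]
        show (e s).mulVec (w : ι → k) = 0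
        rw [← hEv, hw']
        rfl
      · exact w.2 t h4
    · intro hv
      have hvσ : v ∈ kerI e σ := fun t ht => hv t (mem_insert_of_mem ht)
      refine ⟨⟨v, hvσ⟩, ?_, rfl⟩
      show (⟨v, hvσ⟩ : kerI e σ) ∈ LinearMap.ker E
      rw [LinearMap.mem_ker]
      apply Subtype.ext
      rw [hEv]
      exact hv s (mem_insert_self s σ)
  have hdim := LinearMap.finrank_range_add_finrank_ker E
  rw [hrk] at hdim
  have h5 : Module.finrank k (kerI e (insert s σ)) = Module.finrank k (LinearMap.ker E) := by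
    rw [← hmap]
    exact Submodule.finrank_map_subtype_eq _ _
  rw [h5]
  omega

theorem finrank_kerI {G : SimpleGraph T} {S : Finset T} {e f : T → Matrix ι ι k}
    (h : Sys G S e f) {σ : Finset T} (h1 : σ ⊆ S) (h2 : Cl G σ) :
    2 ^ σ.card * Module.finrank k (kerI e σ) = Fintype.card ι := by
  induction σ using Finset.induction_on with
  | empty =>
    have h3 : kerI e (∅ : Finset T) = ⊤ := by
      rw [eq_top_iff]
      intro v _ s hs
      exact absurd hs (notMem_empty s)
    rw [h3, finrank_top, Module.finrank_fintype_fun_eq_card, card_empty, pow_zero, one_mul]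
  | insert s σ hs ih =>
    have h3 := ih ((subset_insert s σ).trans h1)
      (fun a ha b hb hab => h2 a (mem_insert_of_mem ha) b (mem_insert_of_mem hb) hab)
    have h4 := B5_step h hs h1 h2
    rw [card_insert_of_notMem hs, pow_succ, mul_assoc, h4]
    exact h3

end Pool.Agent.LibFlagPL

end

section

namespace Pool.Agent.LibFlagPL

open Finset

set_option linter.unusedSectionVars false

variable {T : Type} [Fintype T] [DecidableEq T] {k : Type} [Field k]
variable {ι : Type} [Fintype ι] [DecidableEq ι]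

private theorem mem_faces_aux {G : SimpleGraph T} {A : Finset T} {j : ℕ} {σ : Finset T} :
    σ ∈ faces G A j ↔ σ ⊆ A ∧ Cl G σ ∧ σ.card = j := by
  simp only [faces, Finset.mem_filter, Finset.mem_powerset]

open scoped Classical in
/-- extension by zero -/
private noncomputable def extZ (G : SimpleGraph T) (e : T → Matrix ι ι k) (A : Finset T) (j : ℕ)
    (d : (σ : {σ // σ ∈ faces G A j}) → kerI e σ.1) : Finset T → ι → k :=
  fun σ => if hσ : σ ∈ faces G A j then (d ⟨σ, hσ⟩).1 else 0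

private theorem extZ_mem (G : SimpleGraph T) (e : T → Matrix ι ι k) (A : Finset T) (j : ℕ)
    (d : (σ : {σ // σ ∈ faces G A j}) → kerI e σ.1) : extZ G e A j d ∈ Ch G e ∅ A j := by
  intro σ
  by_cases hσ : σ ∈ faces G A j
  · have hv : extZ G e A j d σ = (d ⟨σ, hσ⟩).1 := by simp only [extZ, dif_pos hσ]
    refine ⟨fun _ => mem_faces_aux.1 hσ, fun s hs => ?_⟩
    rcases hs with hs | hs
    · rw [hv]
      exact (d ⟨σ, hσ⟩).2 s hs
    · exact absurd hs (Finset.notMem_empty s)
  · have hv : extZ G e A j d σ = 0 := by simp only [extZ, dif_neg hσ]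
    refine ⟨fun h => absurd hv h, fun s _ => ?_⟩
    rw [hv, Matrix.mulVec_zero]

private noncomputable def chEquiv (G : SimpleGraph T) (e : T → Matrix ι ι k) (A : Finset T)
    (j : ℕ) : Ch G e ∅ A j ≃ₗ[k] ((σ : {σ // σ ∈ faces G A j}) → kerI e σ.1) where
  toFun c := fun σ => ⟨c.1 σ.1, fun s hs => (c.2 σ.1).2 s (Or.inl hs)⟩
  map_add' c d := by
    funext σ
    rfl
  map_smul' r c := by
    funext σ
    rfl
  invFun d := ⟨extZ G e A j d, extZ_mem G e A j d⟩
  left_inv c := by
    apply Subtype.ext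
    funext σ
    by_cases hσ : σ ∈ faces G A j
    · simp only [extZ, dif_pos hσ]
    · simp only [extZ, dif_neg hσ]
      by_contra h
      exact hσ (mem_faces_aux.2 ((c.2 σ).1 (fun h0 => h h0.symm)))
  right_inv d := by
    funext σ
    apply Subtype.ext
    simp only [extZ, dif_pos σ.2]

theorem finrank_Ch {G : SimpleGraph T} {S : Finset T} {e f : T → Matrix ι ι k}
    (h : Sys G S e f) {A : Finset T} (hA : A ⊆ S) (j : ℕ) :
    2 ^ j * Module.finrank k (Ch G e ∅ A j) = (faces G A j).card * Fintype.card ι := by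
  classical
  rw [(chEquiv G e A j).finrank_eq, Module.finrank_pi_fintype, Finset.mul_sum]
  have h1 : ∀ σ : {σ // σ ∈ faces G A j},
      2 ^ j * Module.finrank k (kerI e σ.1) = Fintype.card ι := by
    intro σ
    obtain ⟨ha, hb, hc⟩ := mem_faces_aux.1 σ.2
    have := finrank_kerI h (ha.trans hA) hb
    rwa [hc] at this
  rw [Finset.sum_congr rfl (fun σ _ => h1 σ), Finset.sum_const, Finset.card_univ,
    Fintype.card_coe, smul_eq_mul]

end Pool.Agent.LibFlagPL

end

section

namespace Pool.Agent.LibFlagPL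

open Finset

set_option linter.unusedSectionVars false

variable {T : Type} [Fintype T] [DecidableEq T] {k : Type} [Field k]
variable {ι : Type} [Fintype ι] [DecidableEq ι]

theorem card_mul_chi {G : SimpleGraph T} {S : Finset T} {e f : T → Matrix ι ι k}
    (h : Sys G S e f) {A : Finset T} (hA : A ⊆ S) {m : ℕ}
    (hm : ∀ σ, σ ⊆ A → Cl G σ → σ.card ≤ m) :
    (Fintype.card ι : ℚ) * chi G A =
      ∑ j ∈ range (m + 1), (-1 : ℚ) ^ j * Module.finrank k (Ch G e ∅ A j) := by
  rw [chi_eq_sum hm, Finset.mul_sum]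
  refine Finset.sum_congr rfl fun j _ => ?_
  have h1 : (2 : ℚ) ^ j * Module.finrank k (Ch G e ∅ A j) =
      ((faces G A j).card : ℚ) * (Fintype.card ι : ℚ) := by
    exact_mod_cast finrank_Ch h hA j
  have h2 : (2 : ℚ) ^ j ≠ 0 := pow_ne_zero _ two_ne_zero
  have h3 : (Module.finrank k (Ch G e ∅ A j) : ℚ) =
      ((faces G A j).card : ℚ) * (Fintype.card ι : ℚ) / 2 ^ j := by
    rw [eq_div_iff h2, ← h1]
    ring
  rw [h3, div_pow]
  ring

end Pool.Agent.LibFlagPL

end

section

namespace Pool.Agent.LibFlagPL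

open Finset

set_option linter.unusedSectionVars false

variable {T : Type} [Fintype T] [DecidableEq T] {k : Type} [Field k]
variable {ι : Type} [Fintype ι] [DecidableEq ι]

/-- rank of the boundary in degree `j` -/
noncomputable def rk (G : SimpleGraph T) (e : T → Matrix ι ι k) (κ A : Finset T) (j : ℕ) : ℕ :=
  Module.finrank k (Submodule.map bd (Ch G e κ A j))

/-- dimension of the cycles in degree `j` -/
noncomputable def zk (G : SimpleGraph T) (e : T → Matrix ι ι k) (κ A : Finset T) (j : ℕ) : ℕ :=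
  Module.finrank k (Ch G e κ A j ⊓ LinearMap.ker bd : Submodule k (Finset T → ι → k))

theorem rk_add_zk (G : SimpleGraph T) (e : T → Matrix ι ι k) (κ A : Finset T) (j : ℕ) :
    rk G e κ A j + zk G e κ A j = Module.finrank k (Ch G e κ A j) := by
  have h1 := LinearMap.finrank_range_add_finrank_ker
    ((bd (T := T) (k := k) (ι := ι)).domRestrict (Ch G e κ A j))
  have h2 : Submodule.map bd (Ch G e κ A j) =
      LinearMap.range ((bd (T := T) (k := k) (ι := ι)).domRestrict (Ch G e κ A j)) := by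
    rw [LinearMap.range_domRestrict]
  have h3 : LinearMap.ker ((bd (T := T) (k := k) (ι := ι)).domRestrict (Ch G e κ A j)) =
      Submodule.comap (Ch G e κ A j).subtype (LinearMap.ker bd) := by
    ext x
    simp [LinearMap.mem_ker]
  have h4 : Module.finrank k (Ch G e κ A j ⊓ LinearMap.ker bd :
      Submodule k (Finset T → ι → k)) = Module.finrank k
      (Submodule.comap (Ch G e κ A j).subtype (LinearMap.ker bd)) := by
    rw [← Submodule.map_comap_subtype, Submodule.finrank_map_subtype_eq]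
  unfold rk zk
  rw [h2, h4, ← h3]
  exact h1

private theorem b8_le [CharP k 2] (G : SimpleGraph T) (e : T → Matrix ι ι k) (κ A : Finset T)
    (j : ℕ) : Submodule.map bd (Ch G e κ A (j + 1)) ≤ Ch G e κ A j ⊓ LinearMap.ker bd := by
  rintro _ ⟨c, hc, rfl⟩
  exact ⟨bd_mem hc, LinearMap.mem_ker.2 (bd_bd c)⟩

theorem rk_le_zk [CharP k 2] (G : SimpleGraph T) (e : T → Matrix ι ι k) (κ A : Finset T) (j : ℕ) :
    rk G e κ A (j + 1) ≤ zk G e κ A j :=
  Submodule.finrank_mono (b8_le G e κ A j)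

theorem zk_of_HZ [CharP k 2] {G : SimpleGraph T} {e : T → Matrix ι ι k} {κ A : Finset T} {j : ℕ}
    (h : HZ G e κ A j) : zk G e κ A j = rk G e κ A (j + 1) := by
  refine le_antisymm (Submodule.finrank_mono ?_) (rk_le_zk G e κ A j)
  rintro c ⟨hc, hc0⟩
  obtain ⟨b, hb, hbc⟩ := h c hc (LinearMap.mem_ker.1 hc0)
  exact ⟨b, hb, hbc⟩

theorem HZ_of_zk [CharP k 2] {G : SimpleGraph T} {e : T → Matrix ι ι k} {κ A : Finset T} {j : ℕ}
    (h : zk G e κ A j ≤ rk G e κ A (j + 1)) : HZ G e κ A j := by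
  have h1 := Submodule.eq_of_le_of_finrank_le (b8_le G e κ A j) h
  intro c hc hc0
  have h2 : c ∈ Ch G e κ A j ⊓ LinearMap.ker bd := ⟨hc, LinearMap.mem_ker.2 hc0⟩
  rw [← h1] at h2
  obtain ⟨b, hb, hbc⟩ := h2
  exact ⟨b, hb, hbc⟩

theorem rk_zero (G : SimpleGraph T) (e : T → Matrix ι ι k) (κ A : Finset T) :
    rk G e κ A 0 = 0 := by
  have h1 : Submodule.map bd (Ch G e κ A 0) = ⊥ := by
    rw [eq_bot_iff]
    rintro _ ⟨c, hc, rfl⟩
    rw [Submodule.mem_bot]
    exact bd_zero_deg hc
  unfold rk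
  rw [h1, finrank_bot]

theorem rk_top {G : SimpleGraph T} {e : T → Matrix ι ι k} {κ A : Finset T} {j : ℕ}
    (h : ∀ σ, σ ⊆ A → Cl G σ → σ.card ≠ j) : rk G e κ A j = 0 := by
  have h1 : Submodule.map bd (Ch G e κ A j) = ⊥ := by
    rw [eq_bot_iff]
    rintro _ ⟨c, hc, rfl⟩
    rw [Submodule.mem_bot, Ch_eq_zero h hc, map_zero]
  unfold rk
  rw [h1, finrank_bot]

end Pool.Agent.LibFlagPL

end

section

namespace Pool.Agent.LibFlagPL

open Finset

set_option linter.unusedSectionVars false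

variable {T : Type} [Fintype T] [DecidableEq T] {k : Type} [Field k]
variable {ι : Type} [Fintype ι] [DecidableEq ι]

theorem W1 [CharP k 2] {G : SimpleGraph T} {S : Finset T} {e f : T → Matrix ι ι k}
    (hS : F3 G S) (hg : Good G S e f) {y : T} (hy : y ∈ S) : HZ G e {y} (nb G S y) 2 := by
  have hK : F2 G (nb G S y) := hS.2 y hy
  have hKS : nb G S y ⊆ S := nb_subset
  have hHZ : HZ G e ∅ (nb G S y) 2 := by
    have hchi := card_mul_chi hg.sys hKS (m := 3) (fun σ h1 h2 => F2.no_four hK h1 h2)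
    rw [F2.chi_eq hK, mul_zero] at hchi
    simp only [Finset.sum_range_succ, Finset.sum_range_zero, zero_add, pow_zero, one_mul,
      pow_one] at hchi
    have e0 := rk_add_zk G e ∅ (nb G S y) 0
    have e1 := rk_add_zk G e ∅ (nb G S y) 1
    have e2 := rk_add_zk G e ∅ (nb G S y) 2
    have e3 := rk_add_zk G e ∅ (nb G S y) 3
    have r0 := rk_zero G e ∅ (nb G S y)
    have hM0 : HZ G e ∅ (nb G S y) 0 := M0 hg.cpl hKS (F2.exists_pair hK)
    have z0 := zk_of_HZ hM0
    have z1 := zk_of_HZ (hg.acyc y hy)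
    have z3 := zk_of_HZ (V3 hg.cpl hKS hK (κ := ∅) (Finset.Subset.refl (nb G S y)))
    have r4 : rk G e ∅ (nb G S y) 4 = 0 := rk_top (fun σ h1 h2 h3 => by
      have := F2.no_four hK h1 h2
      omega)
    have hq : ((Module.finrank k (Ch G e ∅ (nb G S y) 0) : ℕ) : ℚ) +
        (Module.finrank k (Ch G e ∅ (nb G S y) 2) : ℕ) =
        (Module.finrank k (Ch G e ∅ (nb G S y) 1) : ℕ) +
        (Module.finrank k (Ch G e ∅ (nb G S y) 3) : ℕ) := by
      linarith
    have hn : Module.finrank k (Ch G e ∅ (nb G S y) 0) +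
        Module.finrank k (Ch G e ∅ (nb G S y) 2) =
        Module.finrank k (Ch G e ∅ (nb G S y) 1) +
        Module.finrank k (Ch G e ∅ (nb G S y) 3) := by
      exact_mod_cast hq
    apply HZ_of_zk
    norm_num at z0 z1 z3 ⊢
    omega
  have h := C3 hg.sys hy (Finset.Subset.refl _) (Finset.empty_subset _) hHZ
  exact h

end Pool.Agent.LibFlagPL

end

section

namespace Pool.Agent.LibFlagPL

open Finset

set_option linter.unusedSectionVars false

variable {T : Type} [Fintype T] [DecidableEq T] {k : Type} [Field k]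
variable {ι : Type} [Fintype ι] [DecidableEq ι]

private theorem B11_key [CharP k 2] {G : SimpleGraph T} {S : Finset T} {e f : T → Matrix ι ι k}
    (hS : F3 G S) (hg : Good G S e f) {A : Finset T} (hA : A ⊆ S) :
    (Fintype.card ι : ℚ) * chi G A =
      ((zk G e ∅ A 0 : ℚ) - rk G e ∅ A 1) - ((zk G e ∅ A 1 : ℚ) - rk G e ∅ A 2) +
        ((zk G e ∅ A 2 : ℚ) - rk G e ∅ A 3) := by
  have hW : ∀ y ∈ S, HZ G e {y} (nb G S y) 2 := fun y hy => W1 hS hg hy
  have hno : ∀ σ, σ ⊆ A → Cl G σ → σ.card ≤ 4 := fun σ h1 h2 => F3.no_five hS (h1.trans hA) h2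
  have h1 := card_mul_chi hg.sys hA hno
  have hz3 : zk G e ∅ A 3 = rk G e ∅ A 4 := zk_of_HZ (V4b hg.cpl hS hW hA)
  have hz4 : zk G e ∅ A 4 = rk G e ∅ A 5 := zk_of_HZ (V4 hg.cpl hS hA)
  have hr5 : rk G e ∅ A 5 = 0 := rk_top (fun σ h2 h3 h4 => by
    have := hno σ h2 h3
    omega)
  have hr0 : rk G e ∅ A 0 = 0 := rk_zero G e ∅ A
  have d0 : (Module.finrank k (Ch G e ∅ A 0) : ℚ) = rk G e ∅ A 0 + zk G e ∅ A 0 := by
    rw [← rk_add_zk G e ∅ A 0]; push_cast; ring
  have d1 : (Module.finrank k (Ch G e ∅ A 1) : ℚ) = rk G e ∅ A 1 + zk G e ∅ A 1 := by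
    rw [← rk_add_zk G e ∅ A 1]; push_cast; ring
  have d2 : (Module.finrank k (Ch G e ∅ A 2) : ℚ) = rk G e ∅ A 2 + zk G e ∅ A 2 := by
    rw [← rk_add_zk G e ∅ A 2]; push_cast; ring
  have d3 : (Module.finrank k (Ch G e ∅ A 3) : ℚ) = rk G e ∅ A 3 + zk G e ∅ A 3 := by
    rw [← rk_add_zk G e ∅ A 3]; push_cast; ring
  have d4 : (Module.finrank k (Ch G e ∅ A 4) : ℚ) = rk G e ∅ A 4 + zk G e ∅ A 4 := by
    rw [← rk_add_zk G e ∅ A 4]; push_cast; ring
  rw [h1]
  simp only [Finset.sum_range_succ, Finset.sum_range_zero]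
  rw [d0, d1, d2, d3, d4, hz3, hz4, hr5, hr0]
  push_cast
  ring

theorem thD_of_good [CharP k 2] {G : SimpleGraph T} {S : Finset T} {e f : T → Matrix ι ι k}
    (hne : Nonempty ι) (hS : F3 G S) (hg : Good G S e f) : 0 ≤ chi G S := by
  have hN : (0 : ℚ) < Fintype.card ι := by exact_mod_cast Fintype.card_pos
  have h1 := B11_key hS hg (Finset.Subset.refl S)
  have hz0 : zk G e ∅ S 0 = rk G e ∅ S 1 :=
    zk_of_HZ (M0 hg.cpl (Finset.Subset.refl S) (F3.exists_pair hS))
  have hz1 : zk G e ∅ S 1 = rk G e ∅ S 2 := zk_of_HZ (glue hS hg)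
  have h2 : (rk G e ∅ S 3 : ℚ) ≤ zk G e ∅ S 2 := by exact_mod_cast rk_le_zk G e ∅ S 2
  rw [hz0, hz1] at h1
  have h3 : 0 ≤ (Fintype.card ι : ℚ) * chi G S := by
    rw [h1]
    linarith
  exact nonneg_of_mul_nonneg_right h3 hN

theorem thN_of_good [CharP k 2] {G : SimpleGraph T} {S : Finset T} {e f : T → Matrix ι ι k}
    (hne : Nonempty ι) (hS : F3 G S) (hg : Good G S e f) (h0 : chi G S = 0) {A : Finset T}
    (hA : A ⊆ S) (hn : ¬ Cl G A) : chi G A ≤ 0 := by
  have hN : (0 : ℚ) < Fintype.card ι := by exact_mod_cast Fintype.card_pos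
  have hW : ∀ y ∈ S, HZ G e {y} (nb G S y) 2 := fun y hy => W1 hS hg hy
  have h1 := B11_key hS hg (Finset.Subset.refl S)
  have hz0 : zk G e ∅ S 0 = rk G e ∅ S 1 :=
    zk_of_HZ (M0 hg.cpl (Finset.Subset.refl S) (F3.exists_pair hS))
  have hz1 : zk G e ∅ S 1 = rk G e ∅ S 2 := zk_of_HZ (glue hS hg)
  rw [hz0, hz1, h0, mul_zero, sub_self, sub_self, sub_self, zero_add] at h1
  have h2 : (zk G e ∅ S 2 : ℚ) = rk G e ∅ S 3 := by linarith
  have h3 : zk G e ∅ S 2 = rk G e ∅ S 3 := by exact_mod_cast h2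
  have h4 : HZ G e ∅ S 2 := HZ_of_zk h3.le
  have h5 : HZ G e ∅ A 2 := V4c hg.cpl hS hW hA h4
  have hz2 : zk G e ∅ A 2 = rk G e ∅ A 3 := zk_of_HZ h5
  have hpair : ∃ a ∈ A, ∃ b ∈ A, a ≠ b ∧ ¬ G.Adj a b := by
    by_contra hcon
    apply hn
    intro s hs t ht hst
    by_contra hadj
    exact hcon ⟨s, hs, t, ht, hst, hadj⟩
  have hz0' : zk G e ∅ A 0 = rk G e ∅ A 1 := zk_of_HZ (M0 hg.cpl hA hpair)
  have h6 := B11_key hS hg hA
  have h7 : (rk G e ∅ A 2 : ℚ) ≤ zk G e ∅ A 1 := by exact_mod_cast rk_le_zk G e ∅ A 1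
  rw [hz0', hz2] at h6
  have h8 : (Fintype.card ι : ℚ) * chi G A ≤ 0 := by
    rw [h6]
    linarith
  exact nonpos_of_mul_nonpos_right h8 hN

end Pool.Agent.LibFlagPL

end
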