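import Pool.Agent.LibFlagPL.Graphs

/-!
# LibFlagPL.AlgC: algebraic part, exterior face ideals, second part
-/

section

namespace Pool.Agent.LibFlagPL

open Matrix

theorem le_rank_iff {k : Type} [Field k] {α β : Type} [Fintype α] [Fintype β] [DecidableEq α]
    [DecidableEq β] (M : Matrix α β k) (r : ℕ) :
    r ≤ M.rank ↔ ∃ (L : Matrix (Fin r) α k) (R : Matrix β (Fin r) k), L * M * R = 1 := by
  constructor
  · intro h
    have h' : r ≤ Module.finrank k (LinearMap.range M.mulVecLin) := h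
    let b := Module.finBasis k (LinearMap.range M.mulVecLin)
    let f : Fin r → LinearMap.range M.mulVecLin := fun j => b (Fin.castLE h' j)
    have hf : LinearIndependent k f := b.linearIndependent.comp _ (Fin.castLE_injective h')
    have hw : ∀ j, ∃ w, M.mulVecLin w = (f j : α → k) := fun j => (f j).2
    choose w hw using hw
    let R : Matrix β (Fin r) k := Matrix.of fun i j => w j i
    have hcol : (M * R).col = fun j => (f j : α → k) := by
      funext j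
      rw [← hw j]
      funext i
      rfl
    have hli : LinearIndependent k (M * R).col := by
      rw [hcol]
      exact hf.map' (LinearMap.range M.mulVecLin).subtype (Submodule.ker_subtype _)
    have hinj : Function.Injective (M * R).mulVec := Matrix.mulVec_injective_iff.2 hli
    obtain ⟨g, hg⟩ := LinearMap.exists_leftInverse_of_injective (M * R).mulVecLin
      (LinearMap.ker_eq_bot.2 hinj)
    refine ⟨LinearMap.toMatrix' g, R, ?_⟩
    rw [Matrix.mul_assoc]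
    have h3 : LinearMap.toMatrix' (g ∘ₗ (M * R).mulVecLin) = (1 : Matrix (Fin r) (Fin r) k) := by
      rw [hg, LinearMap.toMatrix'_id]
    rw [LinearMap.toMatrix'_comp] at h3
    rwa [← Matrix.toLin'_apply', LinearMap.toMatrix'_toLin'] at h3
  · rintro ⟨L, R, h⟩
    calc r = (1 : Matrix (Fin r) (Fin r) k).rank := by rw [Matrix.rank_one, Fintype.card_fin]
      _ = (L * M * R).rank := by rw [h]
      _ ≤ (L * M).rank := Matrix.rank_mul_le_left _ _
      _ ≤ M.rank := Matrix.rank_mul_le_right _ _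

end Pool.Agent.LibFlagPL

end

section

namespace Pool.Agent.LibFlagPL

open Matrix Polynomial

theorem rank_generic {k : Type} [Field k] {α β : Type} [Fintype α] [Fintype β] [DecidableEq α]
    [DecidableEq β] (M : Matrix α β k[X]) (x₀ : k) :
    {x : k | (M.map (eval x)).rank < (M.map (eval x₀)).rank}.Finite := by
  obtain ⟨L, R, hLR⟩ := (le_rank_iff (M.map (eval x₀)) _).mp le_rfl
  have hev : ∀ x : k, ((L.map C * M * R.map C).det).eval x = (L * M.map (eval x) * R).det := by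
    intro x
    have h1 : (evalRingHom x) ((L.map C * M * R.map C).det) =
        ((evalRingHom x).mapMatrix (L.map C * M * R.map C)).det := RingHom.map_det _ _
    rw [RingHom.mapMatrix_apply, Matrix.map_mul, Matrix.map_mul] at h1
    have h2 : (L.map C).map (evalRingHom x) = L := by
      ext i j
      simp
    have h3 : (R.map C).map (evalRingHom x) = R := by
      ext i j
      simp
    have h4 : M.map (evalRingHom x) = M.map (eval x) := by
      ext i j
      simp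
    rw [h2, h3, h4] at h1
    exact h1
  have hD : (L.map C * M * R.map C).det ≠ 0 := by
    intro h0
    have h1 := hev x₀
    rw [h0, hLR, Matrix.det_one, eval_zero] at h1
    exact zero_ne_one h1
  refine (Polynomial.finite_setOfPred_isRoot hD).subset ?_
  intro x hx
  by_contra hroot
  have h1 : (L * M.map (eval x) * R).det ≠ 0 := by
    rw [← hev x]
    exact hroot
  have h2 : IsUnit (L * M.map (eval x) * R) :=
    (Matrix.isUnit_iff_isUnit_det _).mpr (isUnit_iff_ne_zero.mpr h1)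
  have h3 := Matrix.rank_of_isUnit _ h2
  have h4 : (L * M.map (eval x) * R).rank ≤ (M.map (eval x)).rank :=
    (Matrix.rank_mul_le_left _ _).trans (Matrix.rank_mul_le_right _ _)
  rw [h3, Fintype.card_fin] at h4
  have h5 : (M.map (eval x)).rank < (M.map (eval x₀)).rank := hx
  omega

end Pool.Agent.LibFlagPL

end

section

namespace Pool.Agent.LibFlagPL

open Matrix

variable {T : Type} [Fintype T] [DecidableEq T] {k : Type} [Field k]

theorem rz_pair (G : SimpleGraph T) (a b : T) (hab : a ≠ b) (nab : ¬ G.Adj a b) :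
    Rz k G {a, b} {(a, b)} ∅ := by
  classical
  have hAdj : ∀ s ∈ ({a, b} : Finset T), ∀ t ∈ ({a, b} : Finset T), ¬ G.Adj s t := by
    intro s hs t ht h
    rw [Finset.mem_insert, Finset.mem_singleton] at hs ht
    rcases hs with rfl | rfl
    · rcases ht with rfl | rfl
      · exact G.loopless.irrefl _ h
      · exact nab h
    · rcases ht with rfl | rfl
      · exact nab h.symm
      · exact G.loopless.irrefl _ h
  refine ⟨Fin 2, inferInstance, inferInstance,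
    fun t => if t = a then !![0, 1; 0, 0] else !![0, 0; 1, 0],
    fun t => if t = a then !![0, 0; 1, 0] else !![0, 1; 0, 0], ⟨0⟩, ?_, ?_, ?_⟩
  · refine ⟨?_, ?_, ?_, ?_, ?_, ?_⟩
    · intro s _
      split_ifs <;> ext i j <;> fin_cases i <;> fin_cases j <;> simp [Matrix.mul_apply, Fin.sum_univ_two]
    · intro s _
      split_ifs <;> ext i j <;> fin_cases i <;> fin_cases j <;> simp [Matrix.mul_apply, Fin.sum_univ_two]
    · intro s _
      split_ifs <;> ext i j <;> fin_cases i <;> fin_cases j <;>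
        simp [Matrix.mul_apply, Fin.sum_univ_two, Matrix.add_apply]
    · intro s hs t ht h
      exact absurd h (hAdj s hs t ht)
    · intro s hs t ht h
      exact absurd h (hAdj s hs t ht)
    · intro s hs t ht h
      exact absurd h (hAdj s hs t ht)
  · intro x hx
    rw [Set.mem_singleton_iff] at hx
    subst hx
    unfold GPair pr
    dsimp only
    rw [if_pos rfl, if_pos rfl, if_neg hab.symm, if_neg hab.symm]
    set A : Matrix (Fin 2) (Fin 2) k := !![0, 1; 0, 0] * !![0, 0; 1, 0] with hA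
    set B : Matrix (Fin 2) (Fin 2) k := !![0, 0; 1, 0] * !![0, 1; 0, 0] with hB
    have h1 : Matrix.fromCols A B * Matrix.fromRows A B = 1 := by
      rw [Matrix.fromCols_mul_fromRows, hA, hB]
      ext i j
      fin_cases i <;> fin_cases j <;>
        simp [Matrix.add_apply]
    calc Fintype.card (Fin 2) = (1 : Matrix (Fin 2) (Fin 2) k).rank := by rw [Matrix.rank_one]
      _ = (Matrix.fromCols A B * Matrix.fromRows A B).rank := by rw [h1]
      _ ≤ (Matrix.fromCols A B).rank := Matrix.rank_mul_le_left _ _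
  · intro S' hS'
    exact absurd hS' (Set.notMem_empty _)

theorem rz_nil (G : SimpleGraph T) : Rz k G ∅ ∅ ∅ := by
  refine ⟨Fin 1, inferInstance, inferInstance, fun _ => 0, fun _ => 0, ⟨0⟩, ?_, ?_, ?_⟩
  · refine ⟨?_, ?_, ?_, ?_, ?_, ?_⟩ <;> intro s hs <;> exact absurd hs (Finset.notMem_empty _)
  · intro x hx
    exact absurd hx (Set.notMem_empty _)
  · intro S' hS'
    exact absurd hS' (Set.notMem_empty _)

end Pool.Agent.LibFlagPL

end

section

namespace Pool.Agent.LibFlagPL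

open Matrix Kronecker

variable {T : Type} [Fintype T] [DecidableEq T] {k : Type} [Field k]
variable {ι ι' : Type} [Fintype ι] [DecidableEq ι] [Fintype ι'] [DecidableEq ι']

theorem rank_kron {α β : Type} [Fintype α] [Fintype β] [DecidableEq α] [DecidableEq β]
    (M : Matrix α β k) :
    M.rank * Fintype.card ι' ≤ (M ⊗ₖ (1 : Matrix ι' ι' k)).rank := by
  obtain ⟨L, R, hLR⟩ := (le_rank_iff M M.rank).1 le_rfl
  have h1 : (L ⊗ₖ (1 : Matrix ι' ι' k)) * (M ⊗ₖ (1 : Matrix ι' ι' k)) * (R ⊗ₖ (1 : Matrix ι' ι' k)) = 1 := by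
    rw [← Matrix.mul_kronecker_mul, ← Matrix.mul_kronecker_mul, hLR, Matrix.one_mul, Matrix.one_mul,
      Matrix.one_kronecker_one]
  have h2 : ((1 : Matrix (Fin M.rank × ι') (Fin M.rank × ι') k)).rank = M.rank * Fintype.card ι' := by
    rw [Matrix.rank_one, Fintype.card_prod, Fintype.card_fin]
  rw [← h2, ← h1]
  exact (Matrix.rank_mul_le_left _ _).trans (Matrix.rank_mul_le_right _ _)

private theorem K4c_sub {α β α' β' : Type} [Fintype α] [Fintype β] [DecidableEq α] [DecidableEq β]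
    [Fintype α'] [Fintype β'] [DecidableEq α'] [DecidableEq β'] (M : Matrix α β k) (e1 : α' ≃ α) (e2 : β' ≃ β) :
    M.rank ≤ (M.submatrix e1 e2).rank := by
  obtain ⟨L, R, hLR⟩ := (le_rank_iff M M.rank).1 le_rfl
  refine (le_rank_iff _ _).2 ⟨L.submatrix id e1, R.submatrix e2 id, ?_⟩
  rw [Matrix.submatrix_mul_equiv, Matrix.submatrix_mul_equiv, hLR]
  simp

theorem gpair_left (p : T → Matrix ι ι k) (a b : T) (h : GPair p a b) :
    GPair (fun s => p s ⊗ₖ (1 : Matrix ι' ι' k)) a b := by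
  unfold GPair at h ⊢
  have h1 : Matrix.fromCols (p a ⊗ₖ (1 : Matrix ι' ι' k)) (p b ⊗ₖ (1 : Matrix ι' ι' k)) =
      ((Matrix.fromCols (p a) (p b)) ⊗ₖ (1 : Matrix ι' ι' k)).submatrix (Equiv.refl _)
        (Equiv.sumProdDistrib ι ι ι').symm := by
    ext x y
    rcases y with y | y <;> simp [Matrix.kroneckerMap_apply]
  rw [h1, Fintype.card_prod]
  exact (Nat.mul_le_mul_right _ h).trans ((rank_kron _).trans (K4c_sub _ _ _))

theorem gpair_right (p : T → Matrix ι ι k) (a b : T) (h : GPair p a b) :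
    GPair (fun s => (1 : Matrix ι' ι' k) ⊗ₖ p s) a b := by
  unfold GPair at h ⊢
  have h1 : Matrix.fromCols ((1 : Matrix ι' ι' k) ⊗ₖ p a) ((1 : Matrix ι' ι' k) ⊗ₖ p b) =
      ((Matrix.fromCols (p a) (p b)) ⊗ₖ (1 : Matrix ι' ι' k)).submatrix (Equiv.prodComm ι' ι)
        ((Equiv.sumCongr (Equiv.prodComm ι' ι) (Equiv.prodComm ι' ι)).trans
          (Equiv.sumProdDistrib ι ι ι').symm) := by
    ext x y
    rcases y with y | y <;> (simp [Matrix.kroneckerMap_apply, mul_comm]; exact Or.inl rfl)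
  rw [h1, Fintype.card_prod, mul_comm]
  exact (Nat.mul_le_mul_right _ h).trans ((rank_kron _).trans (K4c_sub _ _ _))

private theorem K4c_link (G : SimpleGraph T) (S : Finset T) (p : T → Matrix ι ι k)
    (h : GLink G p S) {κ : Type} [Fintype κ] [DecidableEq κ] (q : T → Matrix κ κ k) (e : κ ≃ ι × ι')
    (hq : ∀ s t x y, (q s * q t) x y = (p s * p t) (e x).1 (e y).1 * (1 : Matrix ι' ι' k) (e x).2 (e y).2) :
    GLink G q S := by
  unfold GLink at h ⊢
  have h1 : PhiM G S q = ((PhiM G S p) ⊗ₖ (1 : Matrix ι' ι' k)).submatrix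
      ((Equiv.prodCongr (Equiv.refl T) e).trans (Equiv.prodAssoc T ι ι').symm)
      ((Equiv.prodCongr (Equiv.refl (T × T)) e).trans (Equiv.prodAssoc (T × T) ι ι').symm) := by
    ext x y
    obtain ⟨x1, x2⟩ := x
    obtain ⟨⟨y1, y2⟩, y3⟩ := y
    simp only [PhiM, hq, Matrix.submatrix_apply, Matrix.kroneckerMap_apply, Equiv.trans_apply,
      Equiv.prodCongr_apply, Prod.map_apply, Equiv.refl_apply, Equiv.prodAssoc_symm_apply]
    split_ifs <;> simp
  have hc : Fintype.card κ = Fintype.card ι * Fintype.card ι' := by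
    rw [Fintype.card_congr e, Fintype.card_prod]
  have h2 : (PhiM G S p).rank * Fintype.card ι' ≤ (PhiM G S q).rank := by
    rw [h1]
    exact (rank_kron _).trans (K4c_sub _ _ _)
  rw [hc]
  nlinarith [Nat.mul_le_mul_right (Fintype.card ι') h, h2]

theorem glink_left (G : SimpleGraph T) (S : Finset T) (p : T → Matrix ι ι k) (h : GLink G p S) :
    GLink G (fun s => p s ⊗ₖ (1 : Matrix ι' ι' k)) S := by
  refine K4c_link G S p h _ (Equiv.refl _) ?_
  intro s t x y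
  rw [← Matrix.mul_kronecker_mul]
  simp [Matrix.kroneckerMap_apply]
  exact Or.inl rfl

theorem glink_right (G : SimpleGraph T) (S : Finset T) (p : T → Matrix ι ι k) (h : GLink G p S) :
    GLink G (fun s => (1 : Matrix ι' ι' k) ⊗ₖ p s) S := by
  refine K4c_link G S p h _ (Equiv.prodComm _ _) ?_
  intro s t x y
  rw [← Matrix.mul_kronecker_mul]
  simp [Matrix.kroneckerMap_apply, mul_comm]
  exact Or.inl rfl

end Pool.Agent.LibFlagPL

end

section

namespace Pool.Agent.LibFlagPL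

open Matrix Kronecker

variable {T : Type} [Fintype T] [DecidableEq T] {k : Type} [Field k]

private theorem K2b_comm {ι : Type} [Fintype ι] [DecidableEq ι] (M : Matrix ι ι k) (A : Matrix (Fin 2) (Fin 2) k) :
    ((1 : Matrix ι ι k) ⊗ₖ A) * (M ⊗ₖ (1 : Matrix (Fin 2) (Fin 2) k)) =
      (M ⊗ₖ (1 : Matrix (Fin 2) (Fin 2) k)) * ((1 : Matrix ι ι k) ⊗ₖ A) := by
  rw [← Matrix.mul_kronecker_mul, ← Matrix.mul_kronecker_mul, Matrix.one_mul, Matrix.mul_one, Matrix.one_mul,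
    Matrix.mul_one]

private theorem K2b_aa : (!![0, 1; 0, 0] : Matrix (Fin 2) (Fin 2) k) * !![0, 1; 0, 0] = 0 := by
  ext i j
  fin_cases i <;> fin_cases j <;> simp [Matrix.mul_apply, Fin.sum_univ_two]

private theorem K2b_bb : (!![0, 0; 1, 0] : Matrix (Fin 2) (Fin 2) k) * !![0, 0; 1, 0] = 0 := by
  ext i j
  fin_cases i <;> fin_cases j <;> simp [Matrix.mul_apply, Fin.sum_univ_two]

private theorem K2b_ab : (!![0, 1; 0, 0] : Matrix (Fin 2) (Fin 2) k) * !![0, 0; 1, 0] +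
    !![0, 0; 1, 0] * !![0, 1; 0, 0] = 1 := by
  ext i j
  fin_cases i <;> fin_cases j <;> simp

theorem rz_insert (G : SimpleGraph T) (S : Finset T) (s : T) (hs : s ∉ S) (P : Set (T × T))
    (L : Set (Finset T)) (hP : ∀ x ∈ P, x.1 ≠ s ∧ x.2 ≠ s) (hL : ∀ S' ∈ L, s ∉ S')
    (h : Rz k G S P L) : Rz k G (insert s S) P L := by
  obtain ⟨ι, i1, i2, e, f, hne, hsys, hP', hL'⟩ := h
  obtain ⟨e', he'⟩ : ∃ e' : T → Matrix (ι × Fin 2) (ι × Fin 2) k, ∀ t, e' t =
    if t = s then (1 : Matrix ι ι k) ⊗ₖ !![0, 1; 0, 0] else e t ⊗ₖ (1 : Matrix (Fin 2) (Fin 2) k) :=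
    ⟨_, fun _ => rfl⟩
  obtain ⟨f', hf'⟩ : ∃ f' : T → Matrix (ι × Fin 2) (ι × Fin 2) k, ∀ t, f' t =
    if t = s then (1 : Matrix ι ι k) ⊗ₖ !![0, 0; 1, 0] else f t ⊗ₖ (1 : Matrix (Fin 2) (Fin 2) k) :=
    ⟨_, fun _ => rfl⟩
  have es : e' s = (1 : Matrix ι ι k) ⊗ₖ !![0, 1; 0, 0] := by rw [he', if_pos rfl]
  have fs : f' s = (1 : Matrix ι ι k) ⊗ₖ !![0, 0; 1, 0] := by rw [hf', if_pos rfl]
  have et : ∀ t, t ≠ s → e' t = e t ⊗ₖ (1 : Matrix (Fin 2) (Fin 2) k) := fun t ht => by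
    rw [he', if_neg ht]
  have ft : ∀ t, t ≠ s → f' t = f t ⊗ₖ (1 : Matrix (Fin 2) (Fin 2) k) := fun t ht => by
    rw [hf', if_neg ht]
  have hmem : ∀ t, t ∈ insert s S → t = s ∨ (t ≠ s ∧ t ∈ S) := fun t ht => by
    rw [Finset.mem_insert] at ht
    by_cases h0 : t = s
    · exact Or.inl h0
    · exact Or.inr ⟨h0, ht.resolve_left h0⟩
  have hsys' : Sys G (insert s S) e' f' := by
    refine ⟨?_, ?_, ?_, ?_, ?_, ?_⟩
    · intro t ht
      rcases hmem t ht with rfl | ⟨h0, h1⟩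
      · rw [es, ← Matrix.mul_kronecker_mul, K2b_aa, Matrix.kronecker_zero]
      · rw [et t h0, ← Matrix.mul_kronecker_mul, hsys.ee t h1, Matrix.zero_kronecker]
    · intro t ht
      rcases hmem t ht with rfl | ⟨h0, h1⟩
      · rw [fs, ← Matrix.mul_kronecker_mul, K2b_bb, Matrix.kronecker_zero]
      · rw [ft t h0, ← Matrix.mul_kronecker_mul, hsys.ff t h1, Matrix.zero_kronecker]
    · intro t ht
      rcases hmem t ht with rfl | ⟨h0, h1⟩
      · rw [es, fs, ← Matrix.mul_kronecker_mul, ← Matrix.mul_kronecker_mul, ← Matrix.kronecker_add, K2b_ab,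
          Matrix.one_mul, Matrix.one_kronecker_one]
      · rw [et t h0, ft t h0, ← Matrix.mul_kronecker_mul, ← Matrix.mul_kronecker_mul, ← Matrix.add_kronecker,
          hsys.ef t h1, Matrix.one_mul, Matrix.one_kronecker_one]
    · intro t ht u hu hadj
      rcases hmem t ht with rfl | ⟨h0, h1⟩
      · rcases hmem u hu with rfl | ⟨h2, h3⟩
        · rfl
        · rw [es, et u h2, K2b_comm]
      · rcases hmem u hu with rfl | ⟨h2, h3⟩
        · rw [es, et t h0, K2b_comm]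
        · rw [et t h0, et u h2, ← Matrix.mul_kronecker_mul, ← Matrix.mul_kronecker_mul, hsys.cee t h1 u h3 hadj]
    · intro t ht u hu hadj
      rcases hmem t ht with rfl | ⟨h0, h1⟩
      · rcases hmem u hu with rfl | ⟨h2, h3⟩
        · exact absurd hadj (G.loopless.irrefl _)
        · rw [es, ft u h2, K2b_comm]
      · rcases hmem u hu with rfl | ⟨h2, h3⟩
        · rw [fs, et t h0, K2b_comm]
        · rw [et t h0, ft u h2, ← Matrix.mul_kronecker_mul, ← Matrix.mul_kronecker_mul, hsys.cef t h1 u h3 hadj]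
    · intro t ht u hu hadj
      rcases hmem t ht with rfl | ⟨h0, h1⟩
      · rcases hmem u hu with rfl | ⟨h2, h3⟩
        · rfl
        · rw [fs, ft u h2, K2b_comm]
      · rcases hmem u hu with rfl | ⟨h2, h3⟩
        · rw [fs, ft t h0, K2b_comm]
        · rw [ft t h0, ft u h2, ← Matrix.mul_kronecker_mul, ← Matrix.mul_kronecker_mul, hsys.cff t h1 u h3 hadj]
  have hpr : ∀ t, t ≠ s → pr e' f' t = pr e f t ⊗ₖ (1 : Matrix (Fin 2) (Fin 2) k) := fun t ht => by
    show e' t * f' t = (e t * f t) ⊗ₖ (1 : Matrix (Fin 2) (Fin 2) k)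
    rw [et t ht, ft t ht, ← Matrix.mul_kronecker_mul, Matrix.one_mul]
  refine ⟨ι × Fin 2, inferInstance, inferInstance, e', f', ⟨hne.some, 0⟩, hsys', ?_, ?_⟩
  · intro x hx
    have h1 := gpair_left (ι' := Fin 2) (pr e f) x.1 x.2 (hP' x hx)
    unfold GPair at h1 ⊢
    rw [hpr _ (hP x hx).1, hpr _ (hP x hx).2]
    exact h1
  · intro S' hS'
    have h1 := glink_left (ι' := Fin 2) G S' (pr e f) (hL' S' hS')
    have h2 : PhiM G S' (pr e' f') = PhiM G S' (fun t => pr e f t ⊗ₖ (1 : Matrix (Fin 2) (Fin 2) k)) := by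
      funext x y
      unfold PhiM
      by_cases hc : y.1.1 ∈ S' ∧ y.1.2 ∈ S' ∧ G.Adj y.1.1 y.1.2 ∧ (x.1 = y.1.1 ∨ x.1 = y.1.2)
      · have n1 : y.1.1 ≠ s := fun h0 => hL S' hS' (h0 ▸ hc.1)
        have n2 : y.1.2 ≠ s := fun h0 => hL S' hS' (h0 ▸ hc.2.1)
        rw [if_pos hc, if_pos hc, hpr _ n1, hpr _ n2]
      · rw [if_neg hc, if_neg hc]
    unfold GLink at h1 ⊢
    rw [h2]
    exact h1

end Pool.Agent.LibFlagPL

end

section

namespace Pool.Agent.LibFlagPL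

variable {T : Type} [Fintype T] [DecidableEq T] {k : Type} [Field k]

theorem rz_grow (G : SimpleGraph T) (S S' : Finset T) (P : Set (T × T))
    (L : Set (Finset T)) (hP : ∀ x ∈ P, x.1 ∈ S ∧ x.2 ∈ S) (hL : ∀ S₀ ∈ L, S₀ ⊆ S)
    (h : Rz k G S P L) : Rz k G (S ∪ S') P L := by
  induction S' using Finset.induction_on with
  | empty => simpa using h
  | @insert s S₁ _ ih =>
    rw [Finset.union_insert]
    by_cases hs : s ∈ S ∪ S₁
    · rw [Finset.insert_eq_of_mem hs]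
      exact ih
    · have hsS : s ∉ S := fun h1 => hs (Finset.mem_union_left _ h1)
      refine rz_insert G (S ∪ S₁) s hs P L ?_ ?_ ih
      · intro x hx
        refine ⟨fun e => hsS ?_, fun e => hsS ?_⟩
        · rw [← e]
          exact (hP x hx).1
        · rw [← e]
          exact (hP x hx).2
      · intro S₀ hS₀ h1
        exact hsS (hL S₀ hS₀ h1)

theorem rz_base (G : SimpleGraph T) (S : Finset T) (a b : T) (ha : a ∈ S) (hb : b ∈ S)
    (hab : a ≠ b) (nab : ¬ G.Adj a b) : Rz k G S {(a, b)} ∅ := by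
  have h1 : Rz k G ({a, b} ∪ S) {(a, b)} ∅ := by
    refine rz_grow G {a, b} S {(a, b)} ∅ ?_ ?_ (rz_pair G a b hab nab)
    · intro x hx
      rw [Set.mem_singleton_iff] at hx
      rw [hx]
      simp
    · intro S₀ hS₀
      exact absurd hS₀ (Set.notMem_empty _)
  have h2 : ({a, b} : Finset T) ∪ S = S := by
    apply Finset.union_eq_right.2
    intro x hx
    rw [Finset.mem_insert, Finset.mem_singleton] at hx
    rcases hx with rfl | rfl
    · exact ha
    · exact hb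
  rw [h2] at h1
  exact h1

theorem rz_empty (G : SimpleGraph T) (S : Finset T) : Rz k G S ∅ ∅ := by
  have h1 : Rz k G (∅ ∪ S) ∅ ∅ := by
    refine rz_grow G ∅ S ∅ ∅ ?_ ?_ (rz_nil G)
    · intro x hx
      exact absurd hx (Set.notMem_empty _)
    · intro S₀ hS₀
      exact absurd hS₀ (Set.notMem_empty _)
  rw [Finset.empty_union] at h1
  exact h1

end Pool.Agent.LibFlagPL

end

section

set_option linter.unusedSimpArgs false

namespace Pool.Agent.LibFlagPL

/-- a copy of the algebra of `2 x 2` matrices -/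
structure M2c {A : Type} [Ring A] (e f : A) : Prop where
  ee : e * e = 0
  ff : f * f = 0
  ef : e * f + f * e = 1

/-- two pairs commute -/
structure Cm {A : Type} [Ring A] (e f e' f' : A) : Prop where
  c1 : e * e' = e' * e
  c2 : e * f' = f' * e
  c3 : f * e' = e' * f
  c4 : f * f' = f' * f

/-- the swap -/
def swp {A : Type} [Ring A] (e f e' f' : A) : A :=
  (e * f) * (e' * f') + e * f' + f * e' + (f * e) * (f' * e')

variable {A : Type} [Ring A] {e f e' f' : A}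

theorem swp_sq (h : M2c e f) (h' : M2c e' f') (c : Cm e f e' f') :
    swp e f e' f' * swp e f e' f' = 1 := by
  have r1 : ∀ x, e * (e * x) = 0 := fun x => by rw [← mul_assoc, h.ee, zero_mul]
  have r2 : ∀ x, f * (f * x) = 0 := fun x => by rw [← mul_assoc, h.ff, zero_mul]
  have r3 : f * e = 1 - e * f := eq_sub_of_add_eq' h.ef
  have r4 : ∀ x, f * (e * x) = x - e * (f * x) := fun x => by
    rw [← mul_assoc, r3, sub_mul, one_mul, mul_assoc]
  have s1 : ∀ x, e' * (e' * x) = 0 := fun x => by rw [← mul_assoc, h'.ee, zero_mul]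
  have s2 : ∀ x, f' * (f' * x) = 0 := fun x => by rw [← mul_assoc, h'.ff, zero_mul]
  have s3 : f' * e' = 1 - e' * f' := eq_sub_of_add_eq' h'.ef
  have s4 : ∀ x, f' * (e' * x) = x - e' * (f' * x) := fun x => by
    rw [← mul_assoc, s3, sub_mul, one_mul, mul_assoc]
  have t1 : ∀ x, e' * (e * x) = e * (e' * x) := fun x => by rw [← mul_assoc, ← c.c1, mul_assoc]
  have t2 : ∀ x, f' * (e * x) = e * (f' * x) := fun x => by rw [← mul_assoc, ← c.c2, mul_assoc]
  have t3 : ∀ x, e' * (f * x) = f * (e' * x) := fun x => by rw [← mul_assoc, ← c.c3, mul_assoc]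
  have t4 : ∀ x, f' * (f * x) = f * (f' * x) := fun x => by rw [← mul_assoc, ← c.c4, mul_assoc]
  simp only [swp, mul_add, add_mul, mul_sub, sub_mul, mul_assoc, mul_one, one_mul, mul_zero,
    zero_mul, sub_zero, h.ee, h.ff, h'.ee, h'.ff, r1, r2, r3, r4, s1, s2, s3, s4, t1, t2, t3, t4,
    ← c.c1, ← c.c2, ← c.c3, ← c.c4]
  abel

theorem swp_e (h : M2c e f) (h' : M2c e' f') (c : Cm e f e' f') :
    swp e f e' f' * e * swp e f e' f' = e' := by
  have r1 : ∀ x, e * (e * x) = 0 := fun x => by rw [← mul_assoc, h.ee, zero_mul]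
  have r2 : ∀ x, f * (f * x) = 0 := fun x => by rw [← mul_assoc, h.ff, zero_mul]
  have r3 : f * e = 1 - e * f := eq_sub_of_add_eq' h.ef
  have r4 : ∀ x, f * (e * x) = x - e * (f * x) := fun x => by
    rw [← mul_assoc, r3, sub_mul, one_mul, mul_assoc]
  have s1 : ∀ x, e' * (e' * x) = 0 := fun x => by rw [← mul_assoc, h'.ee, zero_mul]
  have s2 : ∀ x, f' * (f' * x) = 0 := fun x => by rw [← mul_assoc, h'.ff, zero_mul]
  have s3 : f' * e' = 1 - e' * f' := eq_sub_of_add_eq' h'.ef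
  have s4 : ∀ x, f' * (e' * x) = x - e' * (f' * x) := fun x => by
    rw [← mul_assoc, s3, sub_mul, one_mul, mul_assoc]
  have t1 : ∀ x, e' * (e * x) = e * (e' * x) := fun x => by rw [← mul_assoc, ← c.c1, mul_assoc]
  have t2 : ∀ x, f' * (e * x) = e * (f' * x) := fun x => by rw [← mul_assoc, ← c.c2, mul_assoc]
  have t3 : ∀ x, e' * (f * x) = f * (e' * x) := fun x => by rw [← mul_assoc, ← c.c3, mul_assoc]
  have t4 : ∀ x, f' * (f * x) = f * (f' * x) := fun x => by rw [← mul_assoc, ← c.c4, mul_assoc]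
  simp only [swp, mul_add, add_mul, mul_sub, sub_mul, mul_assoc, mul_one, one_mul, mul_zero,
    zero_mul, sub_zero, h.ee, h.ff, h'.ee, h'.ff, r1, r2, r3, r4, s1, s2, s3, s4, t1, t2, t3, t4,
    ← c.c1, ← c.c2, ← c.c3, ← c.c4]
  abel

theorem swp_f (h : M2c e f) (h' : M2c e' f') (c : Cm e f e' f') :
    swp e f e' f' * f * swp e f e' f' = f' := by
  have r1 : ∀ x, e * (e * x) = 0 := fun x => by rw [← mul_assoc, h.ee, zero_mul]
  have r2 : ∀ x, f * (f * x) = 0 := fun x => by rw [← mul_assoc, h.ff, zero_mul]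
  have r3 : f * e = 1 - e * f := eq_sub_of_add_eq' h.ef
  have r4 : ∀ x, f * (e * x) = x - e * (f * x) := fun x => by
    rw [← mul_assoc, r3, sub_mul, one_mul, mul_assoc]
  have s1 : ∀ x, e' * (e' * x) = 0 := fun x => by rw [← mul_assoc, h'.ee, zero_mul]
  have s2 : ∀ x, f' * (f' * x) = 0 := fun x => by rw [← mul_assoc, h'.ff, zero_mul]
  have s3 : f' * e' = 1 - e' * f' := eq_sub_of_add_eq' h'.ef
  have s4 : ∀ x, f' * (e' * x) = x - e' * (f' * x) := fun x => by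
    rw [← mul_assoc, s3, sub_mul, one_mul, mul_assoc]
  have t1 : ∀ x, e' * (e * x) = e * (e' * x) := fun x => by rw [← mul_assoc, ← c.c1, mul_assoc]
  have t2 : ∀ x, f' * (e * x) = e * (f' * x) := fun x => by rw [← mul_assoc, ← c.c2, mul_assoc]
  have t3 : ∀ x, e' * (f * x) = f * (e' * x) := fun x => by rw [← mul_assoc, ← c.c3, mul_assoc]
  have t4 : ∀ x, f' * (f * x) = f * (f' * x) := fun x => by rw [← mul_assoc, ← c.c4, mul_assoc]
  simp only [swp, mul_add, add_mul, mul_sub, sub_mul, mul_assoc, mul_one, one_mul, mul_zero,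
    zero_mul, sub_zero, h.ee, h.ff, h'.ee, h'.ff, r1, r2, r3, r4, s1, s2, s3, s4, t1, t2, t3, t4,
    ← c.c1, ← c.c2, ← c.c3, ← c.c4]
  abel

/-- an element which commutes with both copies commutes with the swap -/
theorem swp_comm {x : A} (h1 : x * e = e * x) (h2 : x * f = f * x) (h3 : x * e' = e' * x)
    (h4 : x * f' = f' * x) : x * swp e f e' f' = swp e f e' f' * x := by
  have t1 : ∀ y, x * (e * y) = e * (x * y) := fun y => by rw [← mul_assoc, h1, mul_assoc]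
  have t2 : ∀ y, x * (f * y) = f * (x * y) := fun y => by rw [← mul_assoc, h2, mul_assoc]
  have t3 : ∀ y, x * (e' * y) = e' * (x * y) := fun y => by rw [← mul_assoc, h3, mul_assoc]
  have t4 : ∀ y, x * (f' * y) = f' * (x * y) := fun y => by rw [← mul_assoc, h4, mul_assoc]
  simp only [swp, mul_add, add_mul, mul_assoc, t1, t2, t3, t4, h1, h2, h3, h4]

/-- the path from `1` to `τ` (characteristic two): all elements are involutions -/
theorem path_sq {x τ : A} (h2 : (2 : A) = 0) (hx : x * τ = τ * x) (hτ : τ * τ = 1) :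
    (1 + x * (1 + τ)) * (1 + x * (1 + τ)) = 1 := by
  have t2 : ∀ y : A, y + y = 0 := fun y => by rw [← two_mul, h2, zero_mul]
  have e1 : (1 + τ) * (1 + τ) = 0 := by
    have e2 : (1 + τ) * (1 + τ) = (1 + 1) + (τ + τ) + (τ * τ - 1) := by
      simp only [mul_add, add_mul, mul_one, one_mul]
      abel
    rw [e2, t2, t2, hτ, sub_self]
    simp
  have e3 : (1 + τ) * x = x * (1 + τ) := by
    rw [add_mul, mul_add, one_mul, mul_one, hx]
  have e4 : (x * (1 + τ)) * (x * (1 + τ)) = 0 := by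
    have e5 : (x * (1 + τ)) * (x * (1 + τ)) = x * (((1 + τ) * x) * (1 + τ)) := by
      simp only [mul_assoc]
    rw [e5, e3, mul_assoc x (1 + τ) (1 + τ), e1, mul_zero, mul_zero]
  obtain ⟨y, hy⟩ : ∃ y, y = x * (1 + τ) := ⟨_, rfl⟩
  rw [← hy] at e4 ⊢
  have e6 : (1 + y) * (1 + y) = 1 + (y + y) + y * y := by
    simp only [mul_add, add_mul, mul_one, one_mul]
    abel
  rw [e6, t2, e4, add_zero, add_zero]

/-- conjugation by an involution -/
theorem conj_M2c {g : A} (h : M2c e f) (hg : g * g = 1) : M2c (g * e * g) (g * f * g) := by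
  have key : ∀ x y : A, (g * x * g) * (g * y * g) = g * (x * y) * g := fun x y => by
    have e1 : (g * x * g) * (g * y * g) = g * x * (g * g) * y * g := by
      simp only [mul_assoc]
    rw [e1, hg, mul_one, mul_assoc g x y]
  refine ⟨?_, ?_, ?_⟩
  · rw [key, h.ee, mul_zero, zero_mul]
  · rw [key, h.ff, mul_zero, zero_mul]
  · rw [key, key, ← add_mul, ← mul_add, h.ef, mul_one, hg]

end Pool.Agent.LibFlagPL

end

section

namespace Pool.Agent.LibFlagPL

open Matrix Polynomial Kronecker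

variable {T : Type} [Fintype T] [DecidableEq T] {k : Type} [Field k]
variable {ι ι' : Type} [Fintype ι] [DecidableEq ι] [Fintype ι'] [DecidableEq ι']

/-- `A ⊗ 1`, as a matrix of polynomials -/
noncomputable def lft (ι' : Type) [Fintype ι'] [DecidableEq ι'] (A : Matrix ι ι k) :
    Matrix (ι × ι') (ι × ι') k[X] :=
  (A ⊗ₖ (1 : Matrix ι' ι' k)).map C

/-- `1 ⊗ B`, as a matrix of polynomials -/
noncomputable def rgt (ι : Type) [Fintype ι] [DecidableEq ι] (B : Matrix ι' ι' k) :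
    Matrix (ι × ι') (ι × ι') k[X] :=
  ((1 : Matrix ι ι k) ⊗ₖ B).map C

/-- the path from `1` to the swap at `s` -/
noncomputable def gM (e₁ f₁ : T → Matrix ι ι k) (e₂ f₂ : T → Matrix ι' ι' k) (s : T) :
    Matrix (ι × ι') (ι × ι') k[X] :=
  1 + (Polynomial.X : k[X]) •
    (1 + swp (lft ι' (e₁ s)) (lft ι' (f₁ s)) (rgt ι (e₂ s)) (rgt ι (f₂ s)))

open scoped Classical in
/-- the merged system: conjugate by the path at the vertices of `S₂` -/
noncomputable def mM (S₂ : Finset T) (e₁ f₁ : T → Matrix ι ι k) (e₂ f₂ : T → Matrix ι' ι' k)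
    (h : T → Matrix ι ι k) (s : T) : Matrix (ι × ι') (ι × ι') k[X] :=
  if s ∈ S₂ then gM e₁ f₁ e₂ f₂ s * lft ι' (h s) * gM e₁ f₁ e₂ f₂ s else lft ι' (h s)

private theorem K4d_two [CharP k 2] : (2 : Matrix (ι × ι') (ι × ι') k[X]) = 0 := by
  have h1 : (2 : k[X]) = 0 := by
    have h2 := CharP.cast_eq_zero k[X] 2
    exact_mod_cast h2
  have h3 : (2 : Matrix (ι × ι') (ι × ι') k[X]) = (2 : k[X]) • (1 : Matrix (ι × ι') (ι × ι') k[X]) := by
    rw [two_smul]
    exact one_add_one_eq_two.symm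
  rw [h3, h1, zero_smul]

private theorem K4d_lft_add (A B : Matrix ι ι k) : lft ι' (A + B) = lft ι' A + lft ι' B := by
  unfold lft
  rw [Matrix.add_kronecker, Matrix.map_add]
  intro a b
  exact C_add

private theorem K4d_rgt_add (A B : Matrix ι' ι' k) : rgt ι (A + B) = rgt ι A + rgt ι B := by
  unfold rgt
  rw [Matrix.kronecker_add, Matrix.map_add]
  intro a b
  exact C_add

private theorem K4d_lft_one : lft ι' (1 : Matrix ι ι k) = 1 := by
  unfold lft
  rw [Matrix.one_kronecker_one, Matrix.map_one _ C_0 C_1]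

private theorem K4d_rgt_one : rgt ι (1 : Matrix ι' ι' k) = 1 := by
  unfold rgt
  rw [Matrix.one_kronecker_one, Matrix.map_one _ C_0 C_1]

private theorem K4d_lft_zero : lft ι' (0 : Matrix ι ι k) = 0 := by
  unfold lft
  rw [Matrix.zero_kronecker, Matrix.map_zero _ C_0]

private theorem K4d_rgt_zero : rgt ι (0 : Matrix ι' ι' k) = 0 := by
  unfold rgt
  rw [Matrix.kronecker_zero, Matrix.map_zero _ C_0]

theorem lft_mul (A B : Matrix ι ι k) : lft ι' (A * B) = lft ι' A * lft ι' B := by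
  unfold lft
  rw [← Matrix.map_mul, ← Matrix.mul_kronecker_mul, one_mul]

theorem rgt_mul (A B : Matrix ι' ι' k) : rgt ι (A * B) = rgt ι A * rgt ι B := by
  unfold rgt
  rw [← Matrix.map_mul, ← Matrix.mul_kronecker_mul, one_mul]

theorem lft_rgt (A : Matrix ι ι k) (B : Matrix ι' ι' k) :
    lft ι' A * rgt ι B = rgt ι B * lft ι' A := by
  unfold lft rgt
  rw [← Matrix.map_mul, ← Matrix.map_mul, ← Matrix.mul_kronecker_mul, ← Matrix.mul_kronecker_mul,
    mul_one, one_mul, one_mul, mul_one]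

theorem lft_M2c {e f : Matrix ι ι k} (h : M2c e f) : M2c (lft ι' e) (lft ι' f) := by
  refine ⟨?_, ?_, ?_⟩
  · rw [← lft_mul, h.ee, K4d_lft_zero]
  · rw [← lft_mul, h.ff, K4d_lft_zero]
  · rw [← lft_mul, ← lft_mul, ← K4d_lft_add, h.ef, K4d_lft_one]

theorem rgt_M2c {e f : Matrix ι' ι' k} (h : M2c e f) : M2c (rgt ι e) (rgt ι f) := by
  refine ⟨?_, ?_, ?_⟩
  · rw [← rgt_mul, h.ee, K4d_rgt_zero]
  · rw [← rgt_mul, h.ff, K4d_rgt_zero]
  · rw [← rgt_mul, ← rgt_mul, ← K4d_rgt_add, h.ef, K4d_rgt_one]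

/-- one of the two functions -/
private def K4d_sel {α : Type} (e f : T → α) (i : Bool) : T → α := cond i e f

private theorem K4d_sys_comm {G : SimpleGraph T} {S : Finset T} {κ : Type} [Fintype κ]
    [DecidableEq κ] {e f : T → Matrix κ κ k} (h : Sys G S e f) {s t : T} (hs : s ∈ S) (ht : t ∈ S)
    (hst : G.Adj s t) (i j : Bool) :
    K4d_sel e f i s * K4d_sel e f j t = K4d_sel e f j t * K4d_sel e f i s := by
  cases i <;> cases j
  · exact h.cff s hs t ht hst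
  · exact (h.cef t ht s hs hst.symm).symm
  · exact h.cef s hs t ht hst
  · exact h.cee s hs t ht hst

private theorem K4d_gM_comm (e₁ f₁ : T → Matrix ι ι k) (e₂ f₂ : T → Matrix ι' ι' k) (t : T)
    (Z : Matrix (ι × ι') (ι × ι') k[X])
    (h1 : ∀ j, Z * lft ι' (K4d_sel e₁ f₁ j t) = lft ι' (K4d_sel e₁ f₁ j t) * Z)
    (h2 : ∀ j, Z * rgt ι (K4d_sel e₂ f₂ j t) = rgt ι (K4d_sel e₂ f₂ j t) * Z) :
    Z * gM e₁ f₁ e₂ f₂ t = gM e₁ f₁ e₂ f₂ t * Z := by
  have h3 : Z * swp (lft ι' (e₁ t)) (lft ι' (f₁ t)) (rgt ι (e₂ t)) (rgt ι (f₂ t)) =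
      swp (lft ι' (e₁ t)) (lft ι' (f₁ t)) (rgt ι (e₂ t)) (rgt ι (f₂ t)) * Z :=
    swp_comm (h1 true) (h1 false) (h2 true) (h2 false)
  unfold gM
  rw [mul_add, add_mul, mul_one, one_mul, mul_smul_comm, smul_mul_assoc, mul_add, add_mul,
    mul_one, one_mul, h3]

private theorem K4d_mM_comm (S₂ : Finset T) (e₁ f₁ : T → Matrix ι ι k)
    (e₂ f₂ : T → Matrix ι' ι' k) (t : T) (i : Bool) (Z : Matrix (ι × ι') (ι × ι') k[X])
    (h1 : ∀ j, Z * lft ι' (K4d_sel e₁ f₁ j t) = lft ι' (K4d_sel e₁ f₁ j t) * Z)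
    (h2 : t ∈ S₂ → ∀ j, Z * rgt ι (K4d_sel e₂ f₂ j t) = rgt ι (K4d_sel e₂ f₂ j t) * Z) :
    Z * mM S₂ e₁ f₁ e₂ f₂ (K4d_sel e₁ f₁ i) t = mM S₂ e₁ f₁ e₂ f₂ (K4d_sel e₁ f₁ i) t * Z := by
  unfold mM
  by_cases ht : t ∈ S₂
  · rw [if_pos ht]
    have h3 := K4d_gM_comm e₁ f₁ e₂ f₂ t Z h1 (h2 ht)
    rw [← mul_assoc, ← mul_assoc, h3, mul_assoc _ Z, h1 i, ← mul_assoc, mul_assoc _ Z, h3,
      ← mul_assoc]
  · rw [if_neg ht]
    exact h1 i

private theorem K4d_adj (G : SimpleGraph T) (S S₂ : Finset T) (hS : S₂ ⊆ S)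
    (e₁ f₁ : T → Matrix ι ι k) (e₂ f₂ : T → Matrix ι' ι' k) (h₁ : Sys G S e₁ f₁)
    (h₂ : Sys G S₂ e₂ f₂) {s t : T} (hs : s ∈ S) (ht : t ∈ S) (hst : G.Adj s t) (i j : Bool) :
    mM S₂ e₁ f₁ e₂ f₂ (K4d_sel e₁ f₁ i) s * mM S₂ e₁ f₁ e₂ f₂ (K4d_sel e₁ f₁ j) t =
      mM S₂ e₁ f₁ e₂ f₂ (K4d_sel e₁ f₁ j) t * mM S₂ e₁ f₁ e₂ f₂ (K4d_sel e₁ f₁ i) s := by
  refine K4d_mM_comm S₂ e₁ f₁ e₂ f₂ t j _ (fun j' => ?_) (fun ht2 j' => ?_)
  · refine (K4d_mM_comm S₂ e₁ f₁ e₂ f₂ s i _ (fun i' => ?_) (fun _ i' => ?_)).symm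
    · rw [← lft_mul, ← lft_mul, K4d_sys_comm h₁ hs ht hst i' j']
    · exact lft_rgt _ _
  · refine (K4d_mM_comm S₂ e₁ f₁ e₂ f₂ s i _ (fun i' => ?_) (fun hs2 i' => ?_)).symm
    · exact (lft_rgt _ _).symm
    · rw [← rgt_mul, ← rgt_mul, K4d_sys_comm h₂ hs2 ht2 hst i' j']

private theorem K4d_M2c [CharP k 2] (G : SimpleGraph T) (S S₂ : Finset T)
    (e₁ f₁ : T → Matrix ι ι k) (e₂ f₂ : T → Matrix ι' ι' k) (h₁ : Sys G S e₁ f₁)
    (h₂ : Sys G S₂ e₂ f₂) {s : T} (hs : s ∈ S) :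
    M2c (mM S₂ e₁ f₁ e₂ f₂ e₁ s) (mM S₂ e₁ f₁ e₂ f₂ f₁ s) := by
  have a1 : M2c (lft ι' (e₁ s)) (lft ι' (f₁ s)) := lft_M2c ⟨h₁.ee s hs, h₁.ff s hs, h₁.ef s hs⟩
  by_cases hs2 : s ∈ S₂
  · have a2 : M2c (rgt ι (e₂ s)) (rgt ι (f₂ s)) :=
      rgt_M2c ⟨h₂.ee s hs2, h₂.ff s hs2, h₂.ef s hs2⟩
    have a3 : Cm (lft ι' (e₁ s)) (lft ι' (f₁ s)) (rgt ι (e₂ s)) (rgt ι (f₂ s)) :=
      ⟨lft_rgt _ _, lft_rgt _ _, lft_rgt _ _, lft_rgt _ _⟩
    have a4 := swp_sq a1 a2 a3
    have a5 : gM e₁ f₁ e₂ f₂ s * gM e₁ f₁ e₂ f₂ s = 1 := by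
      have a6 := path_sq (A := Matrix (ι × ι') (ι × ι') k[X])
        (x := (Polynomial.X : k[X]) • (1 : Matrix (ι × ι') (ι × ι') k[X])) K4d_two
        (by rw [smul_mul_assoc, mul_smul_comm, one_mul, mul_one]) a4
      rw [smul_mul_assoc, one_mul] at a6
      exact a6
    have a7 := conj_M2c a1 a5
    unfold mM
    rw [if_pos hs2, if_pos hs2]
    exact a7
  · unfold mM
    rw [if_neg hs2, if_neg hs2]
    exact a1

theorem sys_merge [CharP k 2] (G : SimpleGraph T) (S S₂ : Finset T) (hS : S₂ ⊆ S)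
    (e₁ f₁ : T → Matrix ι ι k) (e₂ f₂ : T → Matrix ι' ι' k) (h₁ : Sys G S e₁ f₁)
    (h₂ : Sys G S₂ e₂ f₂) :
    Sys G S (mM S₂ e₁ f₁ e₂ f₂ e₁) (mM S₂ e₁ f₁ e₂ f₂ f₁) := by
  refine ⟨fun s hs => (K4d_M2c G S S₂ e₁ f₁ e₂ f₂ h₁ h₂ hs).ee,
    fun s hs => (K4d_M2c G S S₂ e₁ f₁ e₂ f₂ h₁ h₂ hs).ff,
    fun s hs => (K4d_M2c G S S₂ e₁ f₁ e₂ f₂ h₁ h₂ hs).ef,
    fun s hs t ht hst => ?_, fun s hs t ht hst => ?_, fun s hs t ht hst => ?_⟩
  · exact K4d_adj G S S₂ hS e₁ f₁ e₂ f₂ h₁ h₂ hs ht hst true true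
  · exact K4d_adj G S S₂ hS e₁ f₁ e₂ f₂ h₁ h₂ hs ht hst true false
  · exact K4d_adj G S S₂ hS e₁ f₁ e₂ f₂ h₁ h₂ hs ht hst false false

end Pool.Agent.LibFlagPL

end

section

namespace Pool.Agent.LibFlagPL

open Matrix Polynomial Kronecker

variable {T : Type} [Fintype T] [DecidableEq T] {k : Type} [Field k]
variable {ι ι' : Type} [Fintype ι] [DecidableEq ι] [Fintype ι'] [DecidableEq ι']

private theorem K4e_lft (A : Matrix ι ι k) (x : k) :
    (lft ι' A).map (eval x) = A ⊗ₖ (1 : Matrix ι' ι' k) := by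
  ext i j
  exact Polynomial.eval_C

private theorem K4e_rgt (B : Matrix ι' ι' k) (x : k) :
    (rgt ι B).map (eval x) = (1 : Matrix ι ι k) ⊗ₖ B := by
  ext i j
  exact Polynomial.eval_C

private theorem K4e_map_mul (M N : Matrix (ι × ι') (ι × ι') k[X]) (x : k) :
    (M * N).map (eval x) = M.map (eval x) * N.map (eval x) :=
  map_mul (evalRingHom x).mapMatrix M N

private theorem K4e_map_add (M N : Matrix (ι × ι') (ι × ι') k[X]) (x : k) :
    (M + N).map (eval x) = M.map (eval x) + N.map (eval x) :=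
  map_add (evalRingHom x).mapMatrix M N

private theorem K4e_map_one (x : k) :
    (1 : Matrix (ι × ι') (ι × ι') k[X]).map (eval x) = 1 :=
  map_one (evalRingHom x).mapMatrix

private theorem K4e_map_X (M : Matrix (ι × ι') (ι × ι') k[X]) (x : k) :
    ((Polynomial.X : k[X]) • M).map (eval x) = x • M.map (eval x) := by
  ext i j
  change eval x (Polynomial.X * M i j) = x * eval x (M i j)
  rw [eval_mul, eval_X]

private theorem K4e_gM (e₁ f₁ : T → Matrix ι ι k) (e₂ f₂ : T → Matrix ι' ι' k) (s : T) (x : k) :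
    (gM e₁ f₁ e₂ f₂ s).map (eval x) = 1 + x • (1 + swp (e₁ s ⊗ₖ (1 : Matrix ι' ι' k))
      (f₁ s ⊗ₖ (1 : Matrix ι' ι' k)) ((1 : Matrix ι ι k) ⊗ₖ e₂ s) ((1 : Matrix ι ι k) ⊗ₖ f₂ s)) := by
  unfold gM swp
  simp only [K4e_map_add, K4e_map_X, K4e_map_one, K4e_map_mul, K4e_lft, K4e_rgt]

private theorem K4e_M2c_left {e f : Matrix ι ι k} (h1 : e * e = 0) (h2 : f * f = 0) (h3 : e * f + f * e = 1) :
    M2c (e ⊗ₖ (1 : Matrix ι' ι' k)) (f ⊗ₖ (1 : Matrix ι' ι' k)) := by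
  refine ⟨?_, ?_, ?_⟩
  · rw [← Matrix.mul_kronecker_mul, h1, Matrix.zero_kronecker]
  · rw [← Matrix.mul_kronecker_mul, h2, Matrix.zero_kronecker]
  · rw [← Matrix.mul_kronecker_mul, ← Matrix.mul_kronecker_mul, ← Matrix.add_kronecker, h3, mul_one,
      Matrix.one_kronecker_one]

private theorem K4e_M2c_right {e f : Matrix ι' ι' k} (h1 : e * e = 0) (h2 : f * f = 0) (h3 : e * f + f * e = 1) :
    M2c ((1 : Matrix ι ι k) ⊗ₖ e) ((1 : Matrix ι ι k) ⊗ₖ f) := by
  refine ⟨?_, ?_, ?_⟩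
  · rw [← Matrix.mul_kronecker_mul, h1, Matrix.kronecker_zero]
  · rw [← Matrix.mul_kronecker_mul, h2, Matrix.kronecker_zero]
  · rw [← Matrix.mul_kronecker_mul, ← Matrix.mul_kronecker_mul, ← Matrix.kronecker_add, h3, mul_one,
      Matrix.one_kronecker_one]

private theorem K4e_comm (A : Matrix ι ι k) (B : Matrix ι' ι' k) :
    (A ⊗ₖ (1 : Matrix ι' ι' k)) * ((1 : Matrix ι ι k) ⊗ₖ B) =
      ((1 : Matrix ι ι k) ⊗ₖ B) * (A ⊗ₖ (1 : Matrix ι' ι' k)) := by
  rw [← Matrix.mul_kronecker_mul, ← Matrix.mul_kronecker_mul, mul_one, one_mul, mul_one, one_mul]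

private theorem K4e_Cm (e f : Matrix ι ι k) (e' f' : Matrix ι' ι' k) :
    Cm (e ⊗ₖ (1 : Matrix ι' ι' k)) (f ⊗ₖ (1 : Matrix ι' ι' k)) ((1 : Matrix ι ι k) ⊗ₖ e')
      ((1 : Matrix ι ι k) ⊗ₖ f') :=
  ⟨K4e_comm _ _, K4e_comm _ _, K4e_comm _ _, K4e_comm _ _⟩

private theorem K4e_gM_one [CharP k 2] (e₁ f₁ : T → Matrix ι ι k) (e₂ f₂ : T → Matrix ι' ι' k) (s : T) :
    (gM e₁ f₁ e₂ f₂ s).map (eval 1) = swp (e₁ s ⊗ₖ (1 : Matrix ι' ι' k))
      (f₁ s ⊗ₖ (1 : Matrix ι' ι' k)) ((1 : Matrix ι ι k) ⊗ₖ e₂ s) ((1 : Matrix ι ι k) ⊗ₖ f₂ s) := by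
  rw [K4e_gM, one_smul, ← add_assoc]
  have h2 : (1 : Matrix (ι × ι') (ι × ι') k) + 1 = 0 := by
    ext i j
    change (1 : Matrix (ι × ι') (ι × ι') k) i j + (1 : Matrix (ι × ι') (ι × ι') k) i j = 0
    exact CharTwo.add_self_eq_zero _
  rw [h2, zero_add]

theorem mM_zero (S₂ : Finset T) (e₁ f₁ : T → Matrix ι ι k) (e₂ f₂ : T → Matrix ι' ι' k)
    (h : T → Matrix ι ι k) (s : T) :
    (mM S₂ e₁ f₁ e₂ f₂ h s).map (eval 0) = h s ⊗ₖ (1 : Matrix ι' ι' k) := by
  unfold mM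
  split_ifs with hs
  · rw [K4e_map_mul, K4e_map_mul, K4e_gM, zero_smul, add_zero, one_mul, mul_one, K4e_lft]
  · rw [K4e_lft]

theorem mM_one_e [CharP k 2] (G : SimpleGraph T) (S S₂ : Finset T) (hS : S₂ ⊆ S)
    (e₁ f₁ : T → Matrix ι ι k) (e₂ f₂ : T → Matrix ι' ι' k) (h₁ : Sys G S e₁ f₁)
    (h₂ : Sys G S₂ e₂ f₂) (s : T) (hs : s ∈ S₂) :
    (mM S₂ e₁ f₁ e₂ f₂ e₁ s).map (eval 1) = (1 : Matrix ι ι k) ⊗ₖ e₂ s := by
  unfold mM
  rw [if_pos hs, K4e_map_mul, K4e_map_mul, K4e_gM_one, K4e_lft]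
  exact swp_e (K4e_M2c_left (h₁.ee s (hS hs)) (h₁.ff s (hS hs)) (h₁.ef s (hS hs)))
    (K4e_M2c_right (h₂.ee s hs) (h₂.ff s hs) (h₂.ef s hs)) (K4e_Cm _ _ _ _)

theorem mM_one_f [CharP k 2] (G : SimpleGraph T) (S S₂ : Finset T) (hS : S₂ ⊆ S)
    (e₁ f₁ : T → Matrix ι ι k) (e₂ f₂ : T → Matrix ι' ι' k) (h₁ : Sys G S e₁ f₁)
    (h₂ : Sys G S₂ e₂ f₂) (s : T) (hs : s ∈ S₂) :
    (mM S₂ e₁ f₁ e₂ f₂ f₁ s).map (eval 1) = (1 : Matrix ι ι k) ⊗ₖ f₂ s := by
  unfold mM
  rw [if_pos hs, K4e_map_mul, K4e_map_mul, K4e_gM_one, K4e_lft]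
  exact swp_f (K4e_M2c_left (h₁.ee s (hS hs)) (h₁.ff s (hS hs)) (h₁.ef s (hS hs)))
    (K4e_M2c_right (h₂.ee s hs) (h₂.ff s hs) (h₂.ef s hs)) (K4e_Cm _ _ _ _)

end Pool.Agent.LibFlagPL

end

section

namespace Pool.Agent.LibFlagPL

open Matrix Polynomial

variable {T : Type} [Fintype T] [DecidableEq T] {k : Type} [Field k]
variable {ι : Type} [Fintype ι] [DecidableEq ι]

private theorem map_eval_eq (x : k) (M : Matrix ι ι k[X]) :
    M.map (eval x) = (evalRingHom x).mapMatrix M := rfl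

theorem sys_eval (G : SimpleGraph T) (S : Finset T) (E F : T → Matrix ι ι k[X])
    (h : Sys G S E F) (x : k) :
    Sys G S (fun s => (E s).map (eval x)) (fun s => (F s).map (eval x)) := by
  constructor
  · intro s hs
    simp only [map_eval_eq]
    rw [← map_mul, h.ee s hs, map_zero]
  · intro s hs
    simp only [map_eval_eq]
    rw [← map_mul, h.ff s hs, map_zero]
  · intro s hs
    simp only [map_eval_eq]
    rw [← map_mul, ← map_mul, ← map_add, h.ef s hs, map_one]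
  · intro s hs t ht hst
    simp only [map_eval_eq]
    rw [← map_mul, ← map_mul, h.cee s hs t ht hst]
  · intro s hs t ht hst
    simp only [map_eval_eq]
    rw [← map_mul, ← map_mul, h.cef s hs t ht hst]
  · intro s hs t ht hst
    simp only [map_eval_eq]
    rw [← map_mul, ← map_mul, h.cff s hs t ht hst]

theorem pr_eval (E F : T → Matrix ι ι k[X]) (x : k) (s : T) :
    (pr E F s).map (eval x) = pr (fun s => (E s).map (eval x)) (fun s => (F s).map (eval x)) s := by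
  simp only [pr, map_eval_eq]
  rw [map_mul]

theorem phi_eval (G : SimpleGraph T) (S : Finset T) (H : T → Matrix ι ι k[X]) (x : k) :
    (PhiM G S H).map (eval x) = PhiM G S (fun s => (H s).map (eval x)) := by
  ext a b
  simp only [Matrix.map_apply, PhiM]
  split_ifs with h
  · simp only [map_eval_eq]
    rw [← map_mul]
    rfl
  · exact eval_zero

end Pool.Agent.LibFlagPL

end

section

namespace Pool.Agent.LibFlagPL

open Matrix Polynomial

variable {T : Type} [Fintype T] [DecidableEq T] {k : Type} [Field k]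
variable {ι : Type} [Fintype ι] [DecidableEq ι]

/-- the idempotents of the family at `x` -/
noncomputable def prx (E F : T → Matrix ι ι k[X]) (x : k) : T → Matrix ι ι k :=
  pr (fun s => (E s).map (eval x)) (fun s => (F s).map (eval x))

private theorem K4f_prx (E F : T → Matrix ι ι k[X]) (x : k) (s : T) :
    (pr E F s).map (eval x) = prx E F x s := pr_eval E F x s

theorem generic_pair (E F : T → Matrix ι ι k[X]) (x₀ : k) (a b : T)
    (h : GPair (prx E F x₀) a b) : {x : k | ¬ GPair (prx E F x) a b}.Finite := by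
  have hM : ∀ x : k, (Matrix.fromCols (pr E F a) (pr E F b)).map (eval x) =
      Matrix.fromCols (prx E F x a) (prx E F x b) := by
    intro x
    rw [← K4f_prx, ← K4f_prx]
    ext i j
    rcases j with j | j <;> rfl
  refine (rank_generic (Matrix.fromCols (pr E F a) (pr E F b)) x₀).subset ?_
  intro x hx
  have h1 : ¬ Fintype.card ι ≤ (Matrix.fromCols (prx E F x a) (prx E F x b)).rank := hx
  have h2 : Fintype.card ι ≤ (Matrix.fromCols (prx E F x₀ a) (prx E F x₀ b)).rank := h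
  show ((Matrix.fromCols (pr E F a) (pr E F b)).map (eval x)).rank <
    ((Matrix.fromCols (pr E F a) (pr E F b)).map (eval x₀)).rank
  rw [hM, hM]
  omega

theorem generic_link (G : SimpleGraph T) (S : Finset T) (E F : T → Matrix ι ι k[X]) (x₀ : k)
    (h : GLink G (prx E F x₀) S) : {x : k | ¬ GLink G (prx E F x) S}.Finite := by
  have hM : ∀ x : k, (PhiM G S (pr E F)).map (eval x) = PhiM G S (prx E F x) := by
    intro x
    rw [phi_eval]
    congr 1
    funext s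
    exact K4f_prx E F x s
  refine (rank_generic (PhiM G S (pr E F)) x₀).subset ?_
  intro x hx
  have h1 : ¬ S.card * Fintype.card ι ≤ 2 * (PhiM G S (prx E F x)).rank + 2 * Fintype.card ι := hx
  have h2 : S.card * Fintype.card ι ≤ 2 * (PhiM G S (prx E F x₀)).rank + 2 * Fintype.card ι := h
  show ((PhiM G S (pr E F)).map (eval x)).rank < ((PhiM G S (pr E F)).map (eval x₀)).rank
  rw [hM, hM]
  omega

end Pool.Agent.LibFlagPL

end

section

namespace Pool.Agent.LibFlagPL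

open Matrix Polynomial Kronecker

variable {T : Type} [Fintype T] [DecidableEq T] {k : Type} [Field k]

theorem merge [CharP k 2] [Infinite k] (G : SimpleGraph T) (S S₂ : Finset T) (hS : S₂ ⊆ S)
    (P P₂ : Set (T × T)) (L L₂ : Set (Finset T)) (hP : ∀ x ∈ P₂, x.1 ∈ S₂ ∧ x.2 ∈ S₂)
    (hL : ∀ S' ∈ L₂, S' ⊆ S₂) (h : Rz k G S P L) (h₂ : Rz k G S₂ P₂ L₂) :
    Rz k G S (P ∪ P₂) (L ∪ L₂) := by
  obtain ⟨ι₁, _, _, e₁, f₁, hn₁, hs₁, hP₁, hL₁⟩ := h
  obtain ⟨ι₂, _, _, e₂, f₂, hn₂, hs₂, hP₂, hL₂⟩ := h₂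
  have hsys := sys_merge G S S₂ hS e₁ f₁ e₂ f₂ hs₁ hs₂
  set E : T → Matrix (ι₁ × ι₂) (ι₁ × ι₂) k[X] := mM S₂ e₁ f₁ e₂ f₂ e₁ with hE
  set F : T → Matrix (ι₁ × ι₂) (ι₁ × ι₂) k[X] := mM S₂ e₁ f₁ e₂ f₂ f₁ with hF
  have h0 : prx E F 0 = fun s => pr e₁ f₁ s ⊗ₖ (1 : Matrix ι₂ ι₂ k) := by
    funext s
    show (E s).map (eval 0) * (F s).map (eval 0) = (e₁ s * f₁ s) ⊗ₖ (1 : Matrix ι₂ ι₂ k)
    rw [hE, hF, mM_zero, mM_zero, ← Matrix.mul_kronecker_mul, Matrix.one_mul]
  have h1 : ∀ s ∈ S₂, prx E F 1 s = (1 : Matrix ι₁ ι₁ k) ⊗ₖ pr e₂ f₂ s := by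
    intro s hs
    show (E s).map (eval 1) * (F s).map (eval 1) = (1 : Matrix ι₁ ι₁ k) ⊗ₖ (e₂ s * f₂ s)
    rw [hE, hF, mM_one_e G S S₂ hS e₁ f₁ e₂ f₂ hs₁ hs₂ s hs,
      mM_one_f G S S₂ hS e₁ f₁ e₂ f₂ hs₁ hs₂ s hs, ← Matrix.mul_kronecker_mul, Matrix.one_mul]
  have hpair : ∀ y ∈ P ∪ P₂, {x : k | ¬ GPair (prx E F x) y.1 y.2}.Finite := by
    rintro y (hy | hy)
    · apply generic_pair E F 0
      rw [h0]
      exact gpair_left _ _ _ (hP₁ y hy)
    · apply generic_pair E F 1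
      have h2 := gpair_right (ι' := ι₁) (pr e₂ f₂) y.1 y.2 (hP₂ y hy)
      unfold GPair at h2 ⊢
      rw [h1 _ (hP y hy).1, h1 _ (hP y hy).2]
      exact h2
  have hlink : ∀ S' ∈ L ∪ L₂, {x : k | ¬ GLink G (prx E F x) S'}.Finite := by
    rintro S' (hS' | hS')
    · apply generic_link G S' E F 0
      rw [h0]
      exact glink_left G _ _ (hL₁ S' hS')
    · apply generic_link G S' E F 1
      have h2 := glink_right (ι' := ι₁) G S' (pr e₂ f₂) (hL₂ S' hS')
      have h3 : PhiM G S' (prx E F 1) =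
          PhiM G S' (fun s => (1 : Matrix ι₁ ι₁ k) ⊗ₖ pr e₂ f₂ s) := by
        funext a b
        unfold PhiM
        by_cases hab : b.1.1 ∈ S' ∧ b.1.2 ∈ S' ∧ G.Adj b.1.1 b.1.2 ∧
          (a.1 = b.1.1 ∨ a.1 = b.1.2)
        · rw [if_pos hab, if_pos hab, h1 _ (hL S' hS' hab.1), h1 _ (hL S' hS' hab.2.1)]
        · rw [if_neg hab, if_neg hab]
      unfold GLink at h2 ⊢
      rw [h3]
      exact h2
  have hfin1 : (⋃ y ∈ P ∪ P₂, {x : k | ¬ GPair (prx E F x) y.1 y.2}).Finite :=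
    (Set.toFinite (P ∪ P₂)).biUnion hpair
  have hfin2 : (⋃ S' ∈ L ∪ L₂, {x : k | ¬ GLink G (prx E F x) S'}).Finite :=
    (Set.toFinite (L ∪ L₂)).biUnion hlink
  obtain ⟨x, hx⟩ := (hfin1.union hfin2).infinite_compl.nonempty
  rw [Set.mem_compl_iff, Set.mem_union, not_or] at hx
  refine ⟨ι₁ × ι₂, inferInstance, inferInstance, fun s => (E s).map (eval x),
    fun s => (F s).map (eval x), inferInstance, sys_eval G S E F hsys x, ?_, ?_⟩
  · intro y hy
    by_contra hno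
    apply hx.1
    rw [Set.mem_iUnion₂]
    exact ⟨y, hy, hno⟩
  · intro S' hS'
    by_contra hno
    apply hx.2
    rw [Set.mem_iUnion₂]
    exact ⟨S', hS', hno⟩

end Pool.Agent.LibFlagPL

end
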