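import Pool.Agent.LibFlagPL.AlgC

/-!
# LibFlagPL.AlgD: algebraic part, third part
-/

section

namespace Pool.Agent.LibFlagPL

open Matrix

variable {T : Type} [Fintype T] [DecidableEq T] {k : Type} [Field k]
variable {ι : Type} [Fintype ι] [DecidableEq ι]

theorem ker_iff_pr {G : SimpleGraph T} {S : Finset T} {e f : T → Matrix ι ι k} (h : Sys G S e f)
    {s : T} (hs : s ∈ S) (v : ι → k) : (e s).mulVec v = 0 ↔ (pr e f s).mulVec v = v := by
  constructor
  · intro hv
    have h1 : (e s * f s + f s * e s).mulVec v = v := by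
      rw [h.ef s hs, Matrix.one_mulVec]
    rw [Matrix.add_mulVec, ← Matrix.mulVec_mulVec v (f s) (e s), hv, Matrix.mulVec_zero,
      add_zero] at h1
    exact h1
  · intro hv
    rw [← hv]
    unfold pr
    rw [Matrix.mulVec_mulVec, ← Matrix.mul_assoc, h.ee s hs, Matrix.zero_mul, Matrix.zero_mulVec]

theorem two_finrank_ker {G : SimpleGraph T} {S : Finset T} {e f : T → Matrix ι ι k}
    (h : Sys G S e f) {s : T} (hs : s ∈ S) :
    2 * Module.finrank k (LinearMap.ker (e s).mulVecLin) = Fintype.card ι := by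
  have hr : LinearMap.range (e s).mulVecLin = LinearMap.ker (e s).mulVecLin := by
    ext v
    rw [LinearMap.mem_range, LinearMap.mem_ker]
    simp only [Matrix.mulVecLin_apply]
    constructor
    · rintro ⟨w, rfl⟩
      rw [Matrix.mulVec_mulVec, h.ee s hs, Matrix.zero_mulVec]
    · intro hv
      refine ⟨(f s).mulVec v, ?_⟩
      rw [Matrix.mulVec_mulVec]
      exact (ker_iff_pr h hs v).1 hv
  have h1 := LinearMap.finrank_range_add_finrank_ker (e s).mulVecLin
  rw [hr, Module.finrank_fintype_fun_eq_card] at h1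
  omega

theorem two_rank_pr {G : SimpleGraph T} {S : Finset T} {e f : T → Matrix ι ι k}
    (h : Sys G S e f) {s : T} (hs : s ∈ S) : 2 * (pr e f s).rank = Fintype.card ι := by
  have hr : LinearMap.range (pr e f s).mulVecLin = LinearMap.ker (e s).mulVecLin := by
    ext v
    rw [LinearMap.mem_range, LinearMap.mem_ker]
    simp only [Matrix.mulVecLin_apply]
    constructor
    · rintro ⟨w, rfl⟩
      unfold pr
      rw [Matrix.mulVec_mulVec, ← Matrix.mul_assoc, h.ee s hs, Matrix.zero_mul,
        Matrix.zero_mulVec]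
    · intro hv
      exact ⟨v, (ker_iff_pr h hs v).1 hv⟩
  have h1 := two_finrank_ker h hs
  unfold Matrix.rank
  rw [hr]
  exact h1

/-- functions on the vertices of `S'` with value at `s` in the kernel of `e s` -/
def VC (S' : Finset T) (e : T → Matrix ι ι k) : Submodule k (T → ι → k) where
  carrier := {c | (∀ s, s ∉ S' → c s = 0) ∧ ∀ s ∈ S', (e s).mulVec (c s) = 0}
  zero_mem' := ⟨fun _ _ => rfl, fun s _ => by simp⟩
  add_mem' := by
    intro c d hc hd
    refine ⟨fun s hs => ?_, fun s hs => ?_⟩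
    · rw [Pi.add_apply, hc.1 s hs, hd.1 s hs, add_zero]
    · rw [Pi.add_apply, Matrix.mulVec_add, hc.2 s hs, hd.2 s hs, add_zero]
  smul_mem' := by
    intro r c hc
    refine ⟨fun s hs => ?_, fun s hs => ?_⟩
    · rw [Pi.smul_apply, hc.1 s hs, smul_zero]
    · rw [Pi.smul_apply, Matrix.mulVec_smul, hc.2 s hs, smul_zero]

theorem two_finrank_VC {G : SimpleGraph T} {S S' : Finset T} {e f : T → Matrix ι ι k}
    (h : Sys G S e f) (hS : S' ⊆ S) :
    2 * Module.finrank k (VC S' e) = S'.card * Fintype.card ι := by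
  classical
  have E : VC S' e ≃ₗ[k] ((s : {x // x ∈ S'}) → LinearMap.ker (e s.1).mulVecLin) :=
    { toFun := fun c s => ⟨c.1 s.1, by
        rw [LinearMap.mem_ker, Matrix.mulVecLin_apply]
        exact c.2.2 s.1 s.2⟩
      map_add' := fun c d => by
        funext s
        rfl
      map_smul' := fun r c => by
        funext s
        rfl
      invFun := fun g => ⟨fun t => if ht : t ∈ S' then (g ⟨t, ht⟩).1 else 0, by
        refine ⟨fun s hs => ?_, fun s hs => ?_⟩
        · simp only [dif_neg hs]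
        · simp only [dif_pos hs]
          have h2 := (g ⟨s, hs⟩).2
          rw [LinearMap.mem_ker, Matrix.mulVecLin_apply] at h2
          exact h2⟩
      left_inv := fun c => by
        apply Subtype.ext
        funext t
        by_cases ht : t ∈ S'
        · simp only [dif_pos ht]
        · simp only [dif_neg ht]
          exact (c.2.1 t ht).symm
      right_inv := fun g => by
        funext s
        apply Subtype.ext
        simp only [dif_pos s.2] }
  rw [LinearEquiv.finrank_eq E, Module.finrank_pi_fintype, Finset.mul_sum]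
  have h3 : ∀ s : {x // x ∈ S'},
      2 * Module.finrank k (LinearMap.ker (e s.1).mulVecLin) = Fintype.card ι :=
    fun s => two_finrank_ker h (hS s.2)
  rw [Finset.sum_congr rfl (fun s _ => h3 s), Finset.sum_const, Finset.card_univ,
    Fintype.card_coe, smul_eq_mul]

end Pool.Agent.LibFlagPL

end

section

namespace Pool.Agent.LibFlagPL

open Matrix

variable {T : Type} [Fintype T] [DecidableEq T] {k : Type} [Field k]
variable {ι : Type} [Fintype ι] [DecidableEq ι]

theorem cpl_of_pair {G : SimpleGraph T} {S : Finset T} {e f : T → Matrix ι ι k}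
    (h : Sys G S e f) {a b : T} (ha : a ∈ S) (hb : b ∈ S) (hp : GPair (pr e f) a b) :
    (∀ v : ι → k, (e a).mulVec v = 0 → (e b).mulVec v = 0 → v = 0) ∧
    (∀ v : ι → k, ∃ x y : ι → k, (e a).mulVec x = 0 ∧ (e b).mulVec y = 0 ∧ v = x + y) := by
  have hsurj : LinearMap.range (Matrix.fromCols (pr e f a) (pr e f b)).mulVecLin = ⊤ := by
    apply Submodule.eq_top_of_finrank_eq
    apply le_antisymm
    · exact Submodule.finrank_le _
    · rw [Module.finrank_fintype_fun_eq_card]
      exact hp
  have hspan : ∀ v : ι → k, ∃ x y : ι → k, (e a).mulVec x = 0 ∧ (e b).mulVec y = 0 ∧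
      v = x + y := by
    intro v
    have hv : v ∈ LinearMap.range (Matrix.fromCols (pr e f a) (pr e f b)).mulVecLin := by
      rw [hsurj]; exact Submodule.mem_top
    obtain ⟨z, hz⟩ := hv
    refine ⟨(pr e f a).mulVec (z ∘ Sum.inl), (pr e f b).mulVec (z ∘ Sum.inr), ?_, ?_, ?_⟩
    · unfold pr
      rw [Matrix.mulVec_mulVec, ← Matrix.mul_assoc, h.ee a ha, Matrix.zero_mul,
        Matrix.zero_mulVec]
    · unfold pr
      rw [Matrix.mulVec_mulVec, ← Matrix.mul_assoc, h.ee b hb, Matrix.zero_mul,
        Matrix.zero_mulVec]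
    · rw [← hz, Matrix.mulVecLin_apply, Matrix.fromCols_mulVec]
  refine ⟨?_, hspan⟩
  have h1 := two_finrank_ker h ha
  have h2 := two_finrank_ker h hb
  have hsup : LinearMap.ker (e a).mulVecLin ⊔ LinearMap.ker (e b).mulVecLin = ⊤ := by
    rw [eq_top_iff]
    intro v _
    obtain ⟨x, y, hx, hy, hxy⟩ := hspan v
    rw [hxy]
    exact Submodule.add_mem_sup (by simpa using hx) (by simpa using hy)
  have h3 := Submodule.finrank_sup_add_finrank_inf_eq (LinearMap.ker (e a).mulVecLin)
    (LinearMap.ker (e b).mulVecLin)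
  rw [hsup, finrank_top, Module.finrank_fintype_fun_eq_card] at h3
  have h4 : Module.finrank k
      ((LinearMap.ker (e a).mulVecLin ⊓ LinearMap.ker (e b).mulVecLin : Submodule k (ι → k))) = 0 := by
    omega
  have h5 := Submodule.finrank_eq_zero.1 h4
  intro v hva hvb
  have : v ∈ LinearMap.ker (e a).mulVecLin ⊓ LinearMap.ker (e b).mulVecLin :=
    ⟨by simpa using hva, by simpa using hvb⟩
  rw [h5] at this
  simpa using this

end Pool.Agent.LibFlagPL

end

section

namespace Pool.Agent.LibFlagPL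

open Matrix

variable {T : Type} [Fintype T] [DecidableEq T] {k : Type} [Field k]
variable {ι : Type} [Fintype ι] [DecidableEq ι]

theorem sum_bd [CharP k 2] (b : Finset T → ι → k) : ∑ s : T, bd b {s} = 0 := by
  have h1 : ∀ s : T, bd b {s} = ∑ t ∈ ({s} : Finset T)ᶜ, b (insert t {s}) := fun s => rfl
  rw [Finset.sum_congr rfl fun s _ => h1 s, Finset.sum_sigma']
  refine Finset.sum_involution (fun x _ => (⟨x.2, x.1⟩ : Σ _ : T, T)) ?_ ?_ ?_ ?_
  · rintro ⟨s, t⟩ _
    change b (insert t {s}) + b (insert s {t}) = 0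
    rw [Finset.pair_comm s t]
    funext i
    exact CharTwo.add_self_eq_zero _
  · rintro ⟨s, t⟩ hx _ h2
    rw [Finset.mem_sigma, Finset.mem_compl, Finset.mem_singleton] at hx
    exact hx.2 (congrArg Sigma.fst h2)
  · rintro ⟨s, t⟩ hx
    rw [Finset.mem_sigma, Finset.mem_compl, Finset.mem_singleton] at hx ⊢
    exact ⟨Finset.mem_univ _, fun h2 => hx.2 h2.symm⟩
  · rintro ⟨s, t⟩ _
    rfl

private theorem KT_mul {G : SimpleGraph T} {S : Finset T} {e f : T → Matrix ι ι k}
    (h : Sys G S e f) {a c : T} (ha : a ∈ S) (hc : c ∈ S) (hac : G.Adj a c) :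
    e a * (pr e f a * pr e f c) = 0 ∧ e c * (pr e f a * pr e f c) = 0 := by
  constructor
  · rw [pr, pr]
    calc e a * (e a * f a * (e c * f c)) = (e a * e a) * (f a * (e c * f c)) := by noncomm_ring
      _ = 0 := by rw [h.ee a ha, Matrix.zero_mul]
  · rw [pr, pr]
    have h1 : e c * (e a * f a * (e c * f c)) = e a * f a * (e c * e c) * f c := by
      calc e c * (e a * f a * (e c * f c)) = (e c * e a) * f a * (e c * f c) := by noncomm_ring
        _ = (e a * e c) * f a * (e c * f c) := by rw [← h.cee a ha c hc hac]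
        _ = e a * (e c * f a) * (e c * f c) := by noncomm_ring
        _ = e a * (f a * e c) * (e c * f c) := by rw [h.cef c hc a ha hac.symm]
        _ = e a * f a * (e c * e c) * f c := by noncomm_ring
    rw [h1, h.ee c hc, Matrix.mul_zero, Matrix.zero_mul]

private theorem KT_pair {a c s t : T} (hac : a ≠ c) (hst : t ≠ s) (h : ({a, c} : Finset T) = insert t {s}) :
    (s = a ∧ t = c) ∨ (s = c ∧ t = a) := by
  have hs : s ∈ ({a, c} : Finset T) := by
    rw [h]
    exact Finset.mem_insert_of_mem (Finset.mem_singleton_self _)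
  have ht : t ∈ ({a, c} : Finset T) := by
    rw [h]
    exact Finset.mem_insert_self _ _
  rw [Finset.mem_insert, Finset.mem_singleton] at hs ht
  rcases hs with hs | hs <;> rcases ht with ht | ht
  · exact absurd (ht.trans hs.symm) hst
  · exact Or.inl ⟨hs, ht⟩
  · exact Or.inr ⟨hs, ht⟩
  · exact absurd (ht.trans hs.symm) hst

open scoped Classical in
private theorem KT_phi (G : SimpleGraph T) (S' : Finset T) (p : T → Matrix ι ι k)
    (y : (T × T) × ι → k) (s : T) (i : ι) :
    (PhiM G S' p).mulVec y (s, i) = ∑ z : T × T,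
      if z.1 ∈ S' ∧ z.2 ∈ S' ∧ G.Adj z.1 z.2 ∧ (s = z.1 ∨ s = z.2)
      then ((p z.1 * p z.2).mulVec (fun j => y (z, j))) i else 0 := by
  rw [Matrix.mulVec, dotProduct, Fintype.sum_prod_type]
  refine Finset.sum_congr rfl fun z _ => ?_
  by_cases hz : z.1 ∈ S' ∧ z.2 ∈ S' ∧ G.Adj z.1 z.2 ∧ (s = z.1 ∨ s = z.2)
  · rw [if_pos hz, Matrix.mulVec, dotProduct]
    refine Finset.sum_congr rfl fun j _ => ?_
    rw [PhiM, if_pos hz]
  · rw [if_neg hz]
    refine Finset.sum_eq_zero fun j _ => ?_
    rw [PhiM, if_neg hz, zero_mul]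

theorem phi_range {G : SimpleGraph T} {S S' : Finset T} {e f : T → Matrix ι ι k}
    (h : Sys G S e f) (hS : S' ⊆ S) (x : T × ι → k) :
    x ∈ LinearMap.range (PhiM G S' (pr e f)).mulVecLin ↔
      ∃ b ∈ Ch G e ∅ S' 2, ∀ s i, x (s, i) = bd b {s} i := by
  classical
  constructor
  · rintro ⟨y, rfl⟩
    set w : T × T → ι → k := fun z => (pr e f z.1 * pr e f z.2).mulVec (fun j => y (z, j)) with hw
    set b : Finset T → ι → k := fun σ => ∑ z : T × T,
      if z.1 ∈ S' ∧ z.2 ∈ S' ∧ G.Adj z.1 z.2 ∧ ({z.1, z.2} : Finset T) = σ then w z else 0 with hb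
    refine ⟨b, ?_, ?_⟩
    · intro σ
      refine ⟨fun h0 => ?_, fun s hs => ?_⟩
      · obtain ⟨z, _, hz⟩ := Finset.exists_ne_zero_of_sum_ne_zero h0
        have hz1 : z.1 ∈ S' ∧ z.2 ∈ S' ∧ G.Adj z.1 z.2 ∧ ({z.1, z.2} : Finset T) = σ := by
          by_contra hc
          exact hz (if_neg hc)
        obtain ⟨h1, h2, h3, rfl⟩ := hz1
        refine ⟨?_, ?_, Finset.card_pair h3.ne⟩
        · intro t ht
          rw [Finset.mem_insert, Finset.mem_singleton] at ht
          rcases ht with rfl | rfl
          · exact h1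
          · exact h2
        · intro t ht u hu htu
          rw [Finset.mem_insert, Finset.mem_singleton] at ht hu
          rcases ht with rfl | rfl <;> rcases hu with rfl | rfl
          · exact absurd rfl htu
          · exact h3
          · exact h3.symm
          · exact absurd rfl htu
      · rcases hs with hs | hs
        · rw [hb]
          change (e s).mulVec (∑ z : T × T, _) = 0
          rw [← Matrix.mulVecLin_apply, map_sum]
          refine Finset.sum_eq_zero fun z _ => ?_
          split_ifs with hz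
          · obtain ⟨h1, h2, h3, h4⟩ := hz
            rw [← h4, Finset.mem_insert, Finset.mem_singleton] at hs
            rw [Matrix.mulVecLin_apply, hw, Matrix.mulVec_mulVec]
            have h5 := KT_mul h (hS h1) (hS h2) h3
            rcases hs with rfl | rfl
            · rw [h5.1, Matrix.zero_mulVec]
            · rw [h5.2, Matrix.zero_mulVec]
          · rw [map_zero]
        · exact absurd hs (Finset.notMem_empty s)
    · intro s i
      rw [Matrix.mulVecLin_apply, KT_phi]
      have h1 : bd b {s} = ∑ t ∈ ({s} : Finset T)ᶜ, b (insert t {s}) := rfl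
      rw [h1, hb]
      simp only []
      rw [Finset.sum_comm, Finset.sum_apply]
      refine Finset.sum_congr rfl fun z _ => ?_
      by_cases hz : z.1 ∈ S' ∧ z.2 ∈ S' ∧ G.Adj z.1 z.2 ∧ (s = z.1 ∨ s = z.2)
      · rw [if_pos hz]
        obtain ⟨h2, h3, h4, h5⟩ := hz
        have h6 : ∃ t, t ≠ s ∧ ({z.1, z.2} : Finset T) = insert t {s} := by
          rcases h5 with h5 | h5
          · exact ⟨z.2, fun h6 => h4.ne (h5.symm.trans h6.symm), by rw [h5, Finset.pair_comm]⟩
          · exact ⟨z.1, fun h6 => h4.ne (h6.trans h5), by rw [h5]⟩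
        obtain ⟨t, ht, ht2⟩ := h6
        rw [Finset.sum_eq_single t]
        · rw [if_pos ⟨h2, h3, h4, ht2⟩]
        · intro t' ht' htt
          rw [Finset.mem_compl, Finset.mem_singleton] at ht'
          rw [if_neg]
          rintro ⟨_, _, _, h7⟩
          have h8 := KT_pair h4.ne ht' h7
          have h9 := KT_pair h4.ne ht ht2
          rcases h8 with ⟨h8, h8'⟩ | ⟨h8, h8'⟩ <;> rcases h9 with ⟨h9, h9'⟩ | ⟨h9, h9'⟩
          · exact htt (h8'.trans h9'.symm)
          · exact h4.ne (h8.symm.trans h9)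
          · exact h4.ne (h9.symm.trans h8)
          · exact htt (h8'.trans h9'.symm)
        · intro h7
          rw [Finset.mem_compl, Finset.mem_singleton, not_not] at h7
          exact absurd h7 ht
      · rw [if_neg hz, Finset.sum_eq_zero, Pi.zero_apply]
        intro t ht
        rw [Finset.mem_compl, Finset.mem_singleton] at ht
        rw [if_neg]
        rintro ⟨h2, h3, h4, h5⟩
        refine hz ⟨h2, h3, h4, ?_⟩
        rcases KT_pair h4.ne ht h5 with h6 | h6
        · exact Or.inl h6.1
        · exact Or.inr h6.1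
  · rintro ⟨b, hbC, hx⟩
    have h1 : x = ∑ σ : Finset T, (fun q : T × ι => if q.1 ∈ σ ∧ σ.card = 2 then b σ q.2 else 0) := by
      funext q
      obtain ⟨s, i⟩ := q
      rw [hx, Finset.sum_apply]
      have h2 : bd b {s} = ∑ t ∈ ({s} : Finset T)ᶜ, b (insert t {s}) := rfl
      rw [h2, Finset.sum_apply, ← Finset.sum_filter]
      refine Finset.sum_bij (fun t _ => insert t {s}) ?_ ?_ ?_ ?_
      · intro t ht
        rw [Finset.mem_compl, Finset.mem_singleton] at ht
        rw [Finset.mem_filter]
        exact ⟨Finset.mem_univ _, Finset.mem_insert_of_mem (Finset.mem_singleton_self _), Finset.card_pair ht⟩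
      · intro t ht t' ht' htt
        rw [Finset.mem_compl, Finset.mem_singleton] at ht ht'
        have h3 : t ∈ (insert t' {s} : Finset T) := by
          have h4 : (insert t {s} : Finset T) = insert t' {s} := htt
          rw [← h4]
          exact Finset.mem_insert_self _ _
        rw [Finset.mem_insert, Finset.mem_singleton] at h3
        rcases h3 with h3 | h3
        · exact h3
        · exact absurd h3 ht
      · intro σ hσ
        rw [Finset.mem_filter] at hσ
        obtain ⟨_, h3, h4⟩ := hσ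
        change s ∈ σ at h3
        obtain ⟨a, c, hac, rfl⟩ := Finset.card_eq_two.mp h4
        rw [Finset.mem_insert, Finset.mem_singleton] at h3
        rcases h3 with h3 | h3
        · refine ⟨c, ?_, ?_⟩
          · rw [Finset.mem_compl, Finset.mem_singleton]
            rintro rfl
            exact hac h3.symm
          · rw [h3, Finset.pair_comm]
        · refine ⟨a, ?_, ?_⟩
          · rw [Finset.mem_compl, Finset.mem_singleton]
            rintro rfl
            exact hac h3
          · rw [h3]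
      · intro t _
        rfl
    rw [h1]
    refine Submodule.sum_mem _ fun σ _ => ?_
    by_cases hσ : b σ = 0
    · have h2 : (fun q : T × ι => if q.1 ∈ σ ∧ σ.card = 2 then b σ q.2 else 0) = 0 := by
        funext q
        rw [hσ]
        simp
      rw [h2]
      exact Submodule.zero_mem _
    · obtain ⟨h2, h3, h4⟩ := (hbC σ).1 hσ
      obtain ⟨a, c, hac, rfl⟩ := Finset.card_eq_two.mp h4
      have ha : a ∈ S' := h2 (Finset.mem_insert_self _ _)
      have hc : c ∈ S' := h2 (Finset.mem_insert_of_mem (Finset.mem_singleton_self _))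
      have hadj : G.Adj a c := h3 a (Finset.mem_insert_self _ _) c
        (Finset.mem_insert_of_mem (Finset.mem_singleton_self _)) hac
      refine ⟨fun q => if q.1 = (a, c) then b {a, c} q.2 else 0, ?_⟩
      funext q
      obtain ⟨s, i⟩ := q
      rw [Matrix.mulVecLin_apply, KT_phi, Finset.sum_eq_single (a, c)]
      · have h5 : (fun j => (fun q : (T × T) × ι => if q.1 = (a, c) then b {a, c} q.2 else 0) ((a, c), j))
            = b {a, c} := by
          funext j
          exact if_pos rfl
        have h6 : (pr e f c).mulVec (b {a, c}) = b {a, c} :=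
          (ker_iff_pr h (hS hc) _).mp ((hbC {a, c}).2 c
            (Or.inl (Finset.mem_insert_of_mem (Finset.mem_singleton_self _))))
        have h7 : (pr e f a).mulVec (b {a, c}) = b {a, c} :=
          (ker_iff_pr h (hS ha) _).mp ((hbC {a, c}).2 a (Or.inl (Finset.mem_insert_self _ _)))
        have h8 : (pr e f a * pr e f c).mulVec (b {a, c}) = b {a, c} := by
          rw [← Matrix.mulVec_mulVec, h6, h7]
        change (if a ∈ S' ∧ c ∈ S' ∧ G.Adj a c ∧ (s = a ∨ s = c) then
          ((pr e f a * pr e f c).mulVec (fun j => (fun q : (T × T) × ι =>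
            if q.1 = (a, c) then b {a, c} q.2 else 0) ((a, c), j))) i else 0)
          = if s ∈ ({a, c} : Finset T) ∧ ({a, c} : Finset T).card = 2 then b {a, c} i else 0
        rw [h5, h8]
        by_cases hs : s = a ∨ s = c
        · rw [if_pos ⟨ha, hc, hadj, hs⟩, if_pos]
          refine ⟨?_, h4⟩
          rw [Finset.mem_insert, Finset.mem_singleton]
          exact hs
        · rw [if_neg (fun h9 => hs h9.2.2.2), if_neg]
          rintro ⟨h9, _⟩
          rw [Finset.mem_insert, Finset.mem_singleton] at h9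
          exact hs h9
      · intro z _ hz
        have h5 : (fun j => (fun q : (T × T) × ι => if q.1 = (a, c) then b {a, c} q.2 else 0) (z, j)) = 0 := by
          funext j
          exact if_neg hz
        rw [h5, Matrix.mulVec_zero]
        split_ifs <;> rfl
      · intro h5
        exact absurd (Finset.mem_univ _) h5

end Pool.Agent.LibFlagPL

end

section

namespace Pool.Agent.LibFlagPL

open Matrix

variable {T : Type} [Fintype T] [DecidableEq T] {k : Type} [Field k]
variable {ι : Type} [Fintype ι] [DecidableEq ι]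

/-- the chain of degree one with values `c s` -/
private noncomputable def KD3_ch (c : T → ι → k) : Finset T → ι → k := fun τ =>
  ∑ s : T, if τ = {s} then c s else 0

private theorem KD3_ch_single (c : T → ι → k) (s : T) : KD3_ch c {s} = c s := by
  unfold KD3_ch
  rw [Finset.sum_eq_single s]
  · simp
  · intro t _ ht
    rw [if_neg]
    intro h
    exact ht (Finset.singleton_injective h).symm
  · intro h
    exact absurd (Finset.mem_univ s) h

private theorem KD3_ch_zero (c : T → ι → k) (τ : Finset T) (hτ : ∀ s, τ ≠ {s}) :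
    KD3_ch c τ = 0 := by
  unfold KD3_ch
  refine Finset.sum_eq_zero fun s _ => ?_
  rw [if_neg (hτ s)]

private theorem KD3_mem {G : SimpleGraph T} {S' : Finset T} {e : T → Matrix ι ι k}
    {c : T → ι → k} (hc : c ∈ VC S' e) : KD3_ch c ∈ Ch G e ∅ S' 1 := by
  intro σ
  by_cases hσ : ∃ s, σ = {s}
  · obtain ⟨s, rfl⟩ := hσ
    rw [KD3_ch_single]
    refine ⟨fun h => ⟨?_, ?_, ?_⟩, ?_⟩
    · have hs : s ∈ S' := by
        by_contra hs
        exact h (hc.1 s hs)
      simpa using hs
    · intro a ha b hb hab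
      rw [Finset.mem_singleton] at ha hb
      exact absurd (ha.trans hb.symm) hab
    · simp
    · intro t ht
      have hts : t = s := by simpa using ht
      subst hts
      by_cases hs : t ∈ S'
      · exact hc.2 t hs
      · rw [hc.1 t hs]
        simp
  · push Not at hσ
    rw [KD3_ch_zero c σ hσ]
    exact ⟨fun h => absurd rfl h, fun s _ => by simp⟩

private theorem KD3_bd {c : T → ι → k} (hc : ∑ s : T, c s = 0) : bd (KD3_ch c) = 0 := by
  funext τ
  change ∑ s ∈ τᶜ, KD3_ch c (insert s τ) = 0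
  by_cases hτ : τ = ∅
  · subst hτ
    rw [Finset.compl_empty]
    rw [← hc]
    refine Finset.sum_congr rfl fun s _ => ?_
    rw [insert_empty_eq, KD3_ch_single]
  · refine Finset.sum_eq_zero fun s hs => KD3_ch_zero c _ fun t ht => ?_
    have hs' : s ∉ τ := by simpa using hs
    have h1 : (insert s τ).card = τ.card + 1 := Finset.card_insert_of_notMem hs'
    rw [ht, Finset.card_singleton] at h1
    have h2 : τ.card ≠ 0 := fun h0 => hτ (Finset.card_eq_zero.1 h0)
    omega

theorem link_of_HZ {G : SimpleGraph T} {S S' : Finset T} {e f : T → Matrix ι ι k}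
    (h : Sys G S e f) (hS : S' ⊆ S) (hz : HZ G e ∅ S' 1) : GLink G (pr e f) S' := by
  let sg : (VC S' e) →ₗ[k] (ι → k) := (∑ s : T, LinearMap.proj s) ∘ₗ (VC S' e).subtype
  have hsg : ∀ c : VC S' e, sg c = ∑ s : T, (c : T → ι → k) s := by
    intro c
    simp [sg]
  have h1 := LinearMap.finrank_range_add_finrank_ker sg
  have h2 : Module.finrank k (LinearMap.range sg) ≤ Fintype.card ι := by
    have h20 := Submodule.finrank_le (LinearMap.range sg)
    rwa [Module.finrank_fintype_fun_eq_card] at h20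
  let ψ : (T → ι → k) →ₗ[k] (T × ι → k) :=
    { toFun := fun c x => c x.1 x.2
      map_add' := fun c d => rfl
      map_smul' := fun r c => rfl }
  have hmem : ∀ c : LinearMap.ker sg, (ψ ∘ₗ (VC S' e).subtype ∘ₗ (LinearMap.ker sg).subtype) c ∈
      LinearMap.range (PhiM G S' (pr e f)).mulVecLin := by
    intro c
    rw [phi_range h hS]
    have hc0 : ∑ s : T, ((c : VC S' e) : T → ι → k) s = 0 := by
      rw [← hsg]
      exact c.2
    obtain ⟨b, hb, hbd⟩ := hz _ (KD3_mem (c : VC S' e).2) (KD3_bd hc0)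
    refine ⟨b, hb, fun s i => ?_⟩
    rw [hbd, KD3_ch_single]
    rfl
  let θ : LinearMap.ker sg →ₗ[k] LinearMap.range (PhiM G S' (pr e f)).mulVecLin :=
    LinearMap.codRestrict _ (ψ ∘ₗ (VC S' e).subtype ∘ₗ (LinearMap.ker sg).subtype) hmem
  have hinj : Function.Injective θ := by
    intro c d hcd
    have h10 : ψ ((c : VC S' e) : T → ι → k) = ψ ((d : VC S' e) : T → ι → k) :=
      congrArg Subtype.val hcd
    apply Subtype.ext
    apply Subtype.ext
    funext s i
    exact congrFun h10 (s, i)
  have h3 := LinearMap.finrank_le_finrank_of_injective hinj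
  have h4 := two_finrank_VC h hS
  have h5 : (PhiM G S' (pr e f)).rank =
      Module.finrank k (LinearMap.range (PhiM G S' (pr e f)).mulVecLin) := rfl
  unfold GLink
  omega

end Pool.Agent.LibFlagPL

end

section

namespace Pool.Agent.LibFlagPL

open Matrix

variable {T : Type} [Fintype T] [DecidableEq T] {k : Type} [Field k]
variable {ι : Type} [Fintype ι] [DecidableEq ι]

private theorem KS1_bd_apply (c : Finset T → ι → k) (τ : Finset T) :
    bd c τ = ∑ s ∈ τᶜ, c (insert s τ) := rfl

private theorem KS1_cone_apply (y : T) (c : Finset T → ι → k) (σ : Finset T) :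
    cone y c σ = if y ∈ σ then c (σ.erase y) else 0 := rfl

private theorem KS1_two [CharP k 2] (v : ι → k) : v + v = 0 := by
  funext i
  exact CharTwo.add_self_eq_zero (v i)

private theorem KS1_bd_cone [CharP k 2] (y : T) (c : Finset T → ι → k) :
    bd (cone y c) + cone y (bd c) = c := by
  funext τ
  rw [Pi.add_apply, KS1_bd_apply, KS1_cone_apply]
  by_cases hy : y ∈ τ
  · rw [if_pos hy, KS1_bd_apply]
    have h1 : (τ.erase y)ᶜ = insert y τᶜ := Finset.compl_erase
    rw [h1, Finset.sum_insert (by simpa using hy), Finset.insert_erase hy]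
    have h2 : ∑ s ∈ τᶜ, cone y c (insert s τ) = ∑ s ∈ τᶜ, c (insert s (τ.erase y)) := by
      refine Finset.sum_congr rfl fun s hs => ?_
      have hsy : s ≠ y := by
        rintro rfl
        exact (Finset.mem_compl.1 hs) hy
      rw [KS1_cone_apply, if_pos (Finset.mem_insert_of_mem hy), Finset.erase_insert_of_ne hsy.symm.symm]
    rw [h2, add_comm (c τ), ← add_assoc, KS1_two, zero_add]
  · rw [if_neg hy, add_zero, Finset.sum_eq_single y]
    · rw [KS1_cone_apply, if_pos (Finset.mem_insert_self _ _), Finset.erase_insert hy]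
    · intro s _ hsy
      rw [KS1_cone_apply, if_neg]
      intro h
      rcases Finset.mem_insert.1 h with h | h
      · exact hsy h.symm
      · exact hy h
    · intro h
      exact absurd (Finset.mem_compl.2 hy) h

/-- the chain with value `x t` at `{t}`, `t ∈ C` -/
private def KS1_X (C : Finset T) (x : T → ι → k) : Finset T → ι → k :=
  fun σ => ∑ t ∈ C, if σ = {t} then x t else 0

private theorem KS1_X_single (C : Finset T) (x : T → ι → k) {t : T} (ht : t ∈ C) :
    KS1_X C x {t} = x t := by
  unfold KS1_X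
  rw [Finset.sum_eq_single t]
  · rw [if_pos rfl]
  · intro s _ hs
    rw [if_neg]
    intro h
    exact hs (Finset.singleton_injective h).symm
  · intro h
    exact absurd ht h

private theorem KS1_X_ne (C : Finset T) (x : T → ι → k) {σ : Finset T}
    (h : KS1_X C x σ ≠ 0) : ∃ t ∈ C, σ = {t} := by
  unfold KS1_X at h
  obtain ⟨t, ht, h1⟩ := Finset.exists_ne_zero_of_sum_ne_zero h
  refine ⟨t, ht, ?_⟩
  by_contra h2
  exact h1 (if_neg h2)

private theorem KS1_X_zero (C : Finset T) (x : T → ι → k) {σ : Finset T}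
    (h : ∀ t ∈ C, σ ≠ {t}) : KS1_X C x σ = 0 := by
  by_contra h1
  obtain ⟨t, ht, h2⟩ := KS1_X_ne C x h1
  exact h t ht h2

private theorem KS1_bdX_empty (C : Finset T) (x : T → ι → k) :
    bd (KS1_X C x) ∅ = ∑ t ∈ C, x t := by
  rw [KS1_bd_apply]
  have h1 : ∀ s : T, KS1_X C x (insert s ∅) = if s ∈ C then x s else 0 := by
    intro s
    rw [insert_empty_eq]
    by_cases hs : s ∈ C
    · rw [if_pos hs, KS1_X_single C x hs]
    · rw [if_neg hs]
      refine KS1_X_zero C x fun t ht h => hs ?_
      rw [Finset.singleton_injective h]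
      exact ht
  rw [Finset.sum_congr rfl fun s _ => h1 s, Finset.compl_empty, Finset.sum_ite_mem,
    Finset.univ_inter]

private theorem KS1_bdX_ne (C : Finset T) (x : T → ι → k) {τ : Finset T} (h : τ ≠ ∅) :
    bd (KS1_X C x) τ = 0 := by
  rw [KS1_bd_apply]
  refine Finset.sum_eq_zero fun s hs => KS1_X_zero C x fun t _ h1 => ?_
  have h2 : (insert s τ).card = 1 := by rw [h1, Finset.card_singleton]
  rw [Finset.card_insert_of_notMem (Finset.mem_compl.1 hs)] at h2
  exact h (Finset.card_eq_zero.1 (by omega))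

/-- the chain `cone a X` is in `Ch` -/
private theorem KS1_mem {G : SimpleGraph T} {e : T → Matrix ι ι k} {A C : Finset T} {a : T}
    {x : T → ι → k} (ha : a ∈ A) (hCA : C ⊆ A) (haC : a ∉ C) (hC : ∀ t ∈ C, G.Adj a t)
    (hx : ∀ t ∈ C, (e a).mulVec (x t) = 0 ∧ (e t).mulVec (x t) = 0) :
    cone a (KS1_X C x) ∈ Ch G e ∅ A 2 := by
  have key : ∀ σ, cone a (KS1_X C x) σ ≠ 0 → ∃ t ∈ C, σ = {a, t} ∧ cone a (KS1_X C x) σ = x t := by
    intro σ h
    rw [KS1_cone_apply] at h
    by_cases haσ : a ∈ σ
    · rw [if_pos haσ] at h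
      obtain ⟨t, ht, h1⟩ := KS1_X_ne C x h
      refine ⟨t, ht, ?_, ?_⟩
      · rw [← Finset.insert_erase haσ, h1]
      · rw [KS1_cone_apply, if_pos haσ, h1, KS1_X_single C x ht]
    · rw [if_neg haσ] at h
      exact absurd rfl h
  intro σ
  refine ⟨fun h => ?_, fun s hs => ?_⟩
  · obtain ⟨t, ht, h1, _⟩ := key σ h
    have hat : a ≠ t := fun h => haC (h ▸ ht)
    subst h1
    refine ⟨?_, ?_, Finset.card_pair hat⟩
    · intro z hz
      rcases Finset.mem_insert.1 hz with hz | hz
      · exact hz ▸ ha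
      · rw [Finset.mem_singleton.1 hz]
        exact hCA ht
    · intro y hy z hz hyz
      rw [Finset.mem_insert, Finset.mem_singleton] at hy hz
      rcases hy with hy | hy <;> rcases hz with hz | hz
      · exact absurd (hy.trans hz.symm) hyz
      · rw [hy, hz]; exact hC t ht
      · rw [hy, hz]; exact (hC t ht).symm
      · exact absurd (hy.trans hz.symm) hyz
  · by_cases h0 : cone a (KS1_X C x) σ = 0
    · rw [h0, Matrix.mulVec_zero]
    · obtain ⟨t, ht, h1, h2⟩ := key σ h0
      rw [h2]
      rcases hs with hs | hs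
      · rw [h1, Finset.mem_insert, Finset.mem_singleton] at hs
        rcases hs with hs | hs
        · rw [hs]; exact (hx t ht).1
        · rw [hs]; exact (hx t ht).2
      · exact absurd hs (Finset.notMem_empty s)

theorem susp_HZ [CharP k 2] {G : SimpleGraph T} {S : Finset T} {e f : T → Matrix ι ι k}
    (h : Sys G S e f) {a b : T} {C : Finset T} (hS : insert a (insert b C) ⊆ S) (hab : a ≠ b)
    (haC : a ∉ C) (hbC : b ∉ C) (hC : ∀ t ∈ C, G.Adj a t ∧ G.Adj b t)
    (h1 : ∀ v : ι → k, (e a).mulVec v = 0 → (e b).mulVec v = 0 → v = 0)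
    (h2 : ∀ v : ι → k, ∃ x y : ι → k, (e a).mulVec x = 0 ∧ (e b).mulVec y = 0 ∧ v = x + y) :
    HZ G e ∅ (insert a (insert b C)) 1 := by
  classical
  intro c hc hbc
  set A : Finset T := insert a (insert b C) with hA
  choose x0 y0 hx0 hy0 hxy using fun t : T => h2 (c {t})
  have haA : a ∈ A := Finset.mem_insert_self _ _
  have hbA : b ∈ A := Finset.mem_insert_of_mem (Finset.mem_insert_self _ _)
  have hCA : C ⊆ A := fun t ht => Finset.mem_insert_of_mem (Finset.mem_insert_of_mem ht)
  -- values in `ker e_t`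
  have hker : ∀ t ∈ C, (e t).mulVec (x0 t) = 0 ∧ (e t).mulVec (y0 t) = 0 := by
    intro t ht
    have h3 : (e t).mulVec (c {t}) = 0 := (hc {t}).2 t (Or.inl (Finset.mem_singleton_self t))
    rw [hxy t, Matrix.mulVec_add] at h3
    have h4 : (e t).mulVec (x0 t) = (e t).mulVec (y0 t) := by
      have h5 := congrArg (fun w => w + (e t).mulVec (y0 t)) h3
      simp only [zero_add] at h5
      rw [add_assoc, KS1_two, add_zero] at h5
      exact h5
    have hta : G.Adj a t := (hC t ht).1
    have htb : G.Adj b t := (hC t ht).2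
    have h6 : (e a).mulVec ((e t).mulVec (x0 t)) = 0 := by
      rw [Matrix.mulVec_mulVec, h.cee a (hS haA) t (hS (hCA ht)) hta, ← Matrix.mulVec_mulVec,
        hx0 t, Matrix.mulVec_zero]
    have h7 : (e b).mulVec ((e t).mulVec (x0 t)) = 0 := by
      rw [h4, Matrix.mulVec_mulVec, h.cee b (hS hbA) t (hS (hCA ht)) htb, ← Matrix.mulVec_mulVec,
        hy0 t, Matrix.mulVec_zero]
    have h8 := h1 _ h6 h7
    exact ⟨h8, h4 ▸ h8⟩
  refine ⟨cone a (KS1_X C x0) + cone b (KS1_X C y0), Submodule.add_mem _ ?_ ?_, ?_⟩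
  · exact KS1_mem haA hCA haC (fun t ht => (hC t ht).1) fun t ht => ⟨hx0 t, (hker t ht).1⟩
  · exact KS1_mem hbA hCA hbC (fun t ht => (hC t ht).2) fun t ht => ⟨hy0 t, (hker t ht).2⟩
  -- the values at `a` and `b`
  have hsum : c {a} + (c {b} + ∑ t ∈ C, c {t}) = 0 := by
    have h3 : bd c ∅ = 0 := by rw [hbc]; rfl
    rw [KS1_bd_apply, Finset.compl_empty] at h3
    have h4 : ∀ s : T, c (insert s ∅) = c {s} := fun s => by rw [insert_empty_eq]
    rw [Finset.sum_congr rfl fun s _ => h4 s] at h3
    have h5 : ∑ s : T, c {s} = ∑ s ∈ A, c {s} := by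
      symm
      refine Finset.sum_subset (Finset.subset_univ _) fun s _ hs => ?_
      by_contra h6
      exact hs (((hc {s}).1 h6).1 (Finset.mem_singleton_self s))
    rw [h5, hA, Finset.sum_insert, Finset.sum_insert hbC] at h3
    · exact h3
    · rw [Finset.mem_insert]
      rintro (h6 | h6)
      · exact hab h6
      · exact haC h6
  have hcC : ∑ t ∈ C, c {t} = ∑ t ∈ C, x0 t + ∑ t ∈ C, y0 t := by
    rw [← Finset.sum_add_distrib]
    exact Finset.sum_congr rfl fun t _ => hxy t
  have heq : c {a} + ∑ t ∈ C, x0 t = c {b} + ∑ t ∈ C, y0 t := by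
    have h3 : (c {a} + ∑ t ∈ C, x0 t) + (c {b} + ∑ t ∈ C, y0 t) = 0 := by
      rw [← hsum, hcC]
      abel
    have h5 := congrArg (fun w => w + (c {b} + ∑ t ∈ C, y0 t)) h3
    simp only [zero_add] at h5
    rw [add_assoc, KS1_two, add_zero] at h5
    exact h5
  have hz : c {a} + ∑ t ∈ C, x0 t = 0 := by
    refine h1 _ ?_ ?_
    · rw [Matrix.mulVec_add, (hc {a}).2 a (Or.inl (Finset.mem_singleton_self a)), zero_add]
      rw [Matrix.mulVec_sum]
      exact Finset.sum_eq_zero fun t _ => hx0 t
    · rw [heq, Matrix.mulVec_add, (hc {b}).2 b (Or.inl (Finset.mem_singleton_self b)), zero_add]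
      rw [Matrix.mulVec_sum]
      exact Finset.sum_eq_zero fun t _ => hy0 t
  have hXa : ∑ t ∈ C, x0 t = c {a} := by
    have h5 := congrArg (fun w => c {a} + w) hz
    simp only [add_zero] at h5
    rw [← add_assoc, KS1_two, zero_add] at h5
    exact h5
  have hYb : ∑ t ∈ C, y0 t = c {b} := by
    have h5 := congrArg (fun w => c {b} + w) (heq.symm.trans hz)
    simp only [add_zero] at h5
    rw [← add_assoc, KS1_two, zero_add] at h5
    exact h5
  have hb : ∀ (y : T) (w : Finset T → ι → k), bd (cone y w) = w + cone y (bd w) := by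
    intro y w
    have h3 := KS1_bd_cone y w
    funext σ
    have h4 := congrFun h3 σ
    rw [Pi.add_apply] at h4 ⊢
    nth_rewrite 1 [← h4]
    rw [add_assoc, KS1_two, add_zero]
  rw [map_add, hb, hb]
  funext σ
  simp only [Pi.add_apply, KS1_cone_apply]
  by_cases h3 : ∃ t ∈ C, σ = {t}
  · obtain ⟨t, ht, rfl⟩ := h3
    have hat : a ∉ ({t} : Finset T) := by
      rw [Finset.mem_singleton]
      exact fun h => haC (h ▸ ht)
    have hbt : b ∉ ({t} : Finset T) := by
      rw [Finset.mem_singleton]
      exact fun h => hbC (h ▸ ht)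
    rw [if_neg hat, if_neg hbt, KS1_X_single C x0 ht, KS1_X_single C y0 ht, add_zero, add_zero]
    exact (hxy t).symm
  have h4 : KS1_X C x0 σ = 0 := KS1_X_zero C x0 fun t ht h => h3 ⟨t, ht, h⟩
  have h5 : KS1_X C y0 σ = 0 := KS1_X_zero C y0 fun t ht h => h3 ⟨t, ht, h⟩
  rw [h4, h5, zero_add, zero_add]
  by_cases h6 : σ = {a}
  · rw [h6, if_pos (Finset.mem_singleton_self a), if_neg (by
      rw [Finset.mem_singleton]; exact hab.symm), Finset.erase_singleton, KS1_bdX_empty, hXa, add_zero]
  by_cases h7 : σ = {b}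
  · rw [h7, if_pos (Finset.mem_singleton_self b), if_neg (by
      rw [Finset.mem_singleton]; exact hab), Finset.erase_singleton, KS1_bdX_empty, hYb, zero_add]
  have h8 : ∀ (y : T) (w : T → ι → k), σ ≠ {y} →
      (if y ∈ σ then bd (KS1_X C w) (σ.erase y) else 0) = 0 := by
    intro y w hy
    by_cases hyσ : y ∈ σ
    · rw [if_pos hyσ]
      refine KS1_bdX_ne C w fun h => hy ?_
      rw [← Finset.insert_erase hyσ, h, insert_empty_eq]
    · rw [if_neg hyσ]
  rw [h8 a x0 h6, h8 b y0 h7, add_zero]
  by_contra h9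
  obtain ⟨h10, _, h11⟩ := (hc σ).1 (fun h => h9 h.symm)
  obtain ⟨t, rfl⟩ := Finset.card_eq_one.1 h11
  have h12 := h10 (Finset.mem_singleton_self t)
  rw [hA, Finset.mem_insert, Finset.mem_insert] at h12
  rcases h12 with h12 | h12 | h12
  · exact h6 (by rw [h12])
  · exact h7 (by rw [h12])
  · exact h3 ⟨t, h12, rfl⟩

end Pool.Agent.LibFlagPL

end

section

namespace Pool.Agent.LibFlagPL

open Matrix

variable {T : Type} [Fintype T] [DecidableEq T] {k : Type} [Field k]

theorem rz_susp [CharP k 2] (G : SimpleGraph T) {a b : T} {C : Finset T} (hab : a ≠ b)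
    (nab : ¬ G.Adj a b) (haC : a ∉ C) (hbC : b ∉ C) (hC : ∀ t ∈ C, G.Adj a t ∧ G.Adj b t) :
    Rz k G (insert a (insert b C)) ∅ {insert a (insert b C)} := by
  have ha : a ∈ insert a (insert b C) := Finset.mem_insert_self _ _
  have hb : b ∈ insert a (insert b C) := Finset.mem_insert_of_mem (Finset.mem_insert_self _ _)
  obtain ⟨ι, i1, i2, e, f, hne, hs, hp, -⟩ :=
    rz_base (k := k) G (insert a (insert b C)) a b ha hb hab nab
  have h1 := cpl_of_pair hs ha hb (hp (a, b) rfl)
  have h2 := susp_HZ hs (subset_refl _) hab haC hbC hC h1.1 h1.2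
  refine ⟨ι, i1, i2, e, f, hne, hs, ?_, ?_⟩
  · intro x hx
    exact absurd hx (Set.notMem_empty x)
  · intro S' hS'
    have h3 : S' = insert a (insert b C) := hS'
    rw [h3]
    exact link_of_HZ hs (subset_refl _) h2

end Pool.Agent.LibFlagPL

end

section

namespace Pool.Agent.LibFlagPL

open Matrix

variable {T : Type} [Fintype T] [DecidableEq T] {k : Type} [Field k]
variable {ι : Type} [Fintype ι] [DecidableEq ι]

theorem HZ_of_link [CharP k 2] {G : SimpleGraph T} {S S' : Finset T} {e f : T → Matrix ι ι k}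
    (h : Sys G S e f) (hS : S' ⊆ S) {a b : T} (ha : a ∈ S') (hb : b ∈ S') (hab : a ≠ b)
    (hc : ∀ v : ι → k, ∃ x y : ι → k, (e a).mulVec x = 0 ∧ (e b).mulVec y = 0 ∧ v = x + y)
    (hl : GLink G (pr e f) S') : HZ G e ∅ S' 1 := by
  classical
  -- the sum of all values
  let Sg : (T → ι → k) →ₗ[k] (ι → k) := ∑ s : T, LinearMap.proj s
  have hSg : ∀ x : T → ι → k, Sg x = ∑ s, x s := by
    intro x
    simp [Sg, LinearMap.sum_apply]
  -- boundaries of edge chains
  have hbd0 : ∀ b ∈ Ch G e ∅ S' 2, ∀ s, s ∉ S' → bd b {s} = 0 := by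
    intro b hb s hs
    change ∑ t ∈ ({s} : Finset T)ᶜ, b (insert t {s}) = 0
    refine Finset.sum_eq_zero fun t _ => ?_
    by_contra h0
    have h1 := ((hb (insert t {s})).1 h0).1
    exact hs (h1 (by simp))
  have hbde : ∀ b ∈ Ch G e ∅ S' 2, ∀ s, (e s).mulVec (bd b {s}) = 0 := by
    intro b hb s
    change (e s).mulVec (∑ t ∈ ({s} : Finset T)ᶜ, b (insert t {s})) = 0
    rw [Matrix.mulVec_sum]
    refine Finset.sum_eq_zero fun t _ => ?_
    exact (hb (insert t {s})).2 s (Or.inl (by simp))
  let cu : (T × ι → k) ≃ₗ[k] (T → ι → k) :=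
    { toFun := fun x s i => x (s, i)
      invFun := fun x p => x p.1 p.2
      map_add' := fun x y => rfl
      map_smul' := fun r x => rfl
      left_inv := fun x => rfl
      right_inv := fun x => rfl }
  let Rg : Submodule k (T → ι → k) :=
    (LinearMap.range (PhiM G S' (pr e f)).mulVecLin).map (cu : (T × ι → k) →ₗ[k] (T → ι → k))
  have hRr : Module.finrank k Rg = (PhiM G S' (pr e f)).rank :=
    LinearEquiv.finrank_map_eq cu _
  have hR1 : Rg ≤ VC S' e ⊓ LinearMap.ker Sg := by
    rintro x ⟨y, hy, rfl⟩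
    obtain ⟨b, hb, hby⟩ := (phi_range h hS y).1 hy
    have hval : ∀ s, cu y s = bd b {s} := fun s => funext fun i => hby s i
    refine ⟨⟨fun s hs => ?_, fun s _ => ?_⟩, ?_⟩
    · change cu y s = 0
      rw [hval s]; exact hbd0 b hb s hs
    · change (e s).mulVec (cu y s) = 0
      rw [hval s]; exact hbde b hb s
    · change Sg (cu y) = 0
      rw [hSg, ← sum_bd b]
      exact Finset.sum_congr rfl fun s _ => hval s
  -- the sum is surjective
  have hsurj : LinearMap.range (Sg.domRestrict (VC S' e)) = ⊤ := by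
    rw [LinearMap.range_eq_top]
    intro v
    obtain ⟨x, y, hx, hy, hv⟩ := hc v
    refine ⟨⟨Pi.single a x + Pi.single b y, ⟨fun s hs => ?_, fun s hs => ?_⟩⟩, ?_⟩
    · have h1 : s ≠ a := fun h1 => hs (h1 ▸ ha)
      have h2 : s ≠ b := fun h2 => hs (h2 ▸ hb)
      rw [Pi.add_apply, Pi.single_eq_of_ne h1, Pi.single_eq_of_ne h2, add_zero]
    · rw [Pi.add_apply, Matrix.mulVec_add]
      by_cases h1 : s = a
      · subst h1
        rw [Pi.single_eq_same, Pi.single_eq_of_ne hab, hx, Matrix.mulVec_zero, add_zero]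
      · by_cases h2 : s = b
        · subst h2
          rw [Pi.single_eq_same, Pi.single_eq_of_ne h1, hy, Matrix.mulVec_zero, add_zero]
        · rw [Pi.single_eq_of_ne h1, Pi.single_eq_of_ne h2, Matrix.mulVec_zero, add_zero]
    · rw [LinearMap.domRestrict_apply]
      change Sg (Pi.single a x + Pi.single b y) = v
      rw [map_add, hSg, hSg, hv]
      congr 1
      · rw [Finset.sum_eq_single a (fun s _ hs => by rw [Pi.single_eq_of_ne hs])
          (fun h0 => absurd (Finset.mem_univ a) h0), Pi.single_eq_same]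
      · rw [Finset.sum_eq_single b (fun s _ hs => by rw [Pi.single_eq_of_ne hs])
          (fun h0 => absurd (Finset.mem_univ b) h0), Pi.single_eq_same]
  have hdim : Module.finrank k (VC S' e ⊓ LinearMap.ker Sg : Submodule k (T → ι → k)) +
      Fintype.card ι = Module.finrank k (VC S' e) := by
    have h1 := LinearMap.finrank_range_add_finrank_ker (Sg.domRestrict (VC S' e))
    rw [hsurj, finrank_top, Module.finrank_fintype_fun_eq_card, LinearMap.ker_domRestrict] at h1
    have h2 : Module.finrank k (((LinearMap.ker Sg).comap (VC S' e).subtype).map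
        (VC S' e).subtype) = Module.finrank k ((LinearMap.ker Sg).comap (VC S' e).subtype) :=
      Submodule.finrank_map_subtype_eq _ _
    rw [Submodule.map_comap_subtype] at h2
    rw [h2]
    omega
  have hVC := two_finrank_VC (S' := S') h hS
  have hR : Rg = VC S' e ⊓ LinearMap.ker Sg := by
    apply Submodule.eq_of_le_of_finrank_le hR1
    rw [hRr]
    unfold GLink at hl
    omega
  -- vanishing
  intro c hcc hbc
  have hx : (fun s => c {s}) ∈ VC S' e ⊓ LinearMap.ker Sg := by
    refine ⟨⟨fun s hs => ?_, fun s _ => ?_⟩, ?_⟩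
    · by_contra h0
      exact hs (((hcc {s}).1 h0).1 (by simp))
    · exact (hcc {s}).2 s (Or.inl (by simp))
    · change Sg (fun s => c {s}) = 0
      rw [hSg]
      have h1 := congrFun hbc ∅
      have h2 : bd c ∅ = ∑ s : T, c {s} := by
        change ∑ s ∈ (∅ : Finset T)ᶜ, c (insert s ∅) = _
        rw [Finset.compl_empty]
        exact Finset.sum_congr rfl fun s _ => by rw [insert_empty_eq]
      rw [h2] at h1
      exact h1
  rw [← hR] at hx
  obtain ⟨y, hy, hyx⟩ := hx
  obtain ⟨b', hb', hby⟩ := (phi_range h hS y).1 hy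
  have hval : ∀ s, c {s} = bd b' {s} := by
    intro s
    have h1 : cu y s = c {s} := congrFun hyx s
    rw [← h1]
    exact funext fun i => hby s i
  refine ⟨b', hb', ?_⟩
  funext τ
  by_cases h1 : τ.card = 1
  · obtain ⟨s, rfl⟩ := Finset.card_eq_one.1 h1
    exact (hval s).symm
  · have h2 : c τ = 0 := by
      by_contra h0
      exact h1 ((hcc τ).1 h0).2.2
    rw [h2]
    change ∑ s ∈ τᶜ, b' (insert s τ) = 0
    refine Finset.sum_eq_zero fun s hs => ?_
    by_contra h0
    have h3 := ((hb' (insert s τ)).1 h0).2.2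
    rw [Finset.card_insert_of_notMem (Finset.mem_compl.1 hs)] at h3
    omega

end Pool.Agent.LibFlagPL

end

section

namespace Pool.Agent.LibFlagPL

open Matrix

variable {T : Type} [Fintype T] [DecidableEq T] {k : Type} [Field k]

theorem good_of_rz [CharP k 2] (G : SimpleGraph T) (S : Finset T)
    (hq : ∀ y ∈ S, ∃ a ∈ nb G S y, ∃ b ∈ nb G S y, a ≠ b ∧ ¬ G.Adj a b)
    (h : Rz k G S {x | x.1 ∈ S ∧ x.2 ∈ S ∧ x.1 ≠ x.2 ∧ ¬ G.Adj x.1 x.2}
      {S' | ∃ y ∈ S, S' = nb G S y}) :
    ∃ (ι : Type) (_ : Fintype ι) (_ : DecidableEq ι) (e f : T → Matrix ι ι k),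
      Nonempty ι ∧ Good G S e f := by
  obtain ⟨ι, i1, i2, e, f, hne, hsys, hP, hL⟩ := h
  refine ⟨ι, i1, i2, e, f, hne, hsys, fun a ha b hb hab nab => ?_, fun y hy => ?_⟩
  · exact cpl_of_pair hsys ha hb (hP (a, b) ⟨ha, hb, hab, nab⟩)
  · obtain ⟨a, ha, b, hb, hab, nab⟩ := hq y hy
    have hsub : nb G S y ⊆ S := by
      classical
      exact Finset.filter_subset _ _
    exact HZ_of_link hsys hsub ha hb hab
      (cpl_of_pair hsys (hsub ha) (hsub hb) (hP (a, b) ⟨hsub ha, hsub hb, hab, nab⟩)).2
      (hL _ ⟨y, hy, rfl⟩)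

end Pool.Agent.LibFlagPL

end

section

set_option linter.unusedSectionVars false

namespace Pool.Agent.LibFlagPL

open Matrix Polynomial Kronecker

variable {T : Type} [Fintype T] [DecidableEq T] {k : Type} [Field k]

theorem rank_eval [Infinite k] {m n : Type} [Fintype m] [Fintype n] (M : Matrix m n k[X]) (x₀ : k) :
    {x : k | (M.map (Polynomial.eval x)).rank < (M.map (Polynomial.eval x₀)).rank}.Finite := by
  classical
  exact rank_generic M x₀

theorem Rz.base0 (k : Type) [Field k] [CharP k 2] [Infinite k] (G : SimpleGraph T)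
    (S : Finset T) : Rz k G S ∅ ∅ := rz_empty G S

theorem Rz.base (k : Type) [Field k] [CharP k 2] [Infinite k] {G : SimpleGraph T}
    {S : Finset T} {a b : T} (ha : a ∈ S) (hb : b ∈ S) (hab : a ≠ b) (h : ¬ G.Adj a b) :
    Rz k G S {(a, b)} ∅ := rz_base G S a b ha hb hab h

theorem Rz.merge [CharP k 2] [Infinite k] {G : SimpleGraph T} {S S2 : Finset T}
    {P P2 : Set (T × T)} {L L2 : Set (Finset T)} (h1 : Rz k G S P L) (h2 : Rz k G S2 P2 L2)
    (hS : S2 ⊆ S) (_hP : ∀ x ∈ P, x.1 ∈ S ∧ x.2 ∈ S) (hP2 : ∀ x ∈ P2, x.1 ∈ S2 ∧ x.2 ∈ S2)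
    (_hL : ∀ S' ∈ L, S' ⊆ S) (hL2 : ∀ S' ∈ L2, S' ⊆ S2) : Rz k G S (P ∪ P2) (L ∪ L2) :=
  Pool.Agent.LibFlagPL.merge G S S2 hS P P2 L L2 hP2 hL2 h1 h2

section

variable {ι : Type} [Fintype ι] [DecidableEq ι]

theorem pr_kron (e f : T → Matrix ι ι k) (m : Type) [Fintype m] [DecidableEq m] :
    pr (fun s => e s ⊗ₖ (1 : Matrix m m k)) (fun s => f s ⊗ₖ (1 : Matrix m m k)) =
      fun s => pr e f s ⊗ₖ (1 : Matrix m m k) := by
  funext s
  simp only [pr]
  rw [← Matrix.mul_kronecker_mul, Matrix.one_mul]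

theorem GPair.kronX {e f : T → Matrix ι ι k} {a b : T} (h : GPair (pr e f) a b) (m : Type)
    [Fintype m] [DecidableEq m] :
    GPair (pr (fun s => e s ⊗ₖ (1 : Matrix m m k)) (fun s => f s ⊗ₖ (1 : Matrix m m k))) a b := by
  rw [pr_kron]
  exact gpair_left _ a b h

theorem GLink.kronX {G : SimpleGraph T} {S' : Finset T} {e f : T → Matrix ι ι k}
    (h : GLink G (pr e f) S') (m : Type) [Fintype m] [DecidableEq m] :
    GLink G (pr (fun s => e s ⊗ₖ (1 : Matrix m m k)) (fun s => f s ⊗ₖ (1 : Matrix m m k))) S' := by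
  rw [pr_kron]
  exact glink_left G S' _ h

theorem Sys.kronX {G : SimpleGraph T} {S : Finset T} {e f : T → Matrix ι ι k}
    (h : Sys G S e f) (m : Type) [Fintype m] [DecidableEq m] :
    Sys G S (fun s => e s ⊗ₖ (1 : Matrix m m k)) (fun s => f s ⊗ₖ (1 : Matrix m m k)) where
  ee s hs := by rw [← Matrix.mul_kronecker_mul, h.ee s hs, Matrix.zero_kronecker]
  ff s hs := by rw [← Matrix.mul_kronecker_mul, h.ff s hs, Matrix.zero_kronecker]
  ef s hs := by
    rw [← Matrix.mul_kronecker_mul, ← Matrix.mul_kronecker_mul, ← Matrix.add_kronecker, h.ef s hs,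
      Matrix.one_mul, Matrix.one_kronecker_one]
  cee s hs t ht hst := by
    rw [← Matrix.mul_kronecker_mul, ← Matrix.mul_kronecker_mul, h.cee s hs t ht hst]
  cef s hs t ht hst := by
    rw [← Matrix.mul_kronecker_mul, ← Matrix.mul_kronecker_mul, h.cef s hs t ht hst]
  cff s hs t ht hst := by
    rw [← Matrix.mul_kronecker_mul, ← Matrix.mul_kronecker_mul, h.cff s hs t ht hst]

theorem Sys.kron {G : SimpleGraph T} {S : Finset T} {e f : T → Matrix ι ι k}
    (h : Sys G S e f) (m : Type) [Fintype m] [DecidableEq m] :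
    Sys G S (fun s => Matrix.kronecker (e s) (1 : Matrix m m k))
      (fun s => Matrix.kronecker (f s) (1 : Matrix m m k)) := h.kronX m

theorem GPair.kron {e f : T → Matrix ι ι k} {a b : T}
    (h : GPair (pr e f) a b) (m : Type) [Fintype m] [DecidableEq m] :
    GPair (pr (fun s => Matrix.kronecker (e s) (1 : Matrix m m k))
      (fun s => Matrix.kronecker (f s) (1 : Matrix m m k))) a b := h.kronX m

theorem GLink.kron {G : SimpleGraph T} {S' : Finset T} {e f : T → Matrix ι ι k}
    (h : GLink G (pr e f) S') (m : Type) [Fintype m] [DecidableEq m] :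
    GLink G (pr (fun s => Matrix.kronecker (e s) (1 : Matrix m m k))
      (fun s => Matrix.kronecker (f s) (1 : Matrix m m k))) S' := h.kronX m

end

theorem Rz.susp (k : Type) [Field k] [CharP k 2] [Infinite k] {G : SimpleGraph T}
    {S : Finset T} {a b : T} (ha : a ∈ S)
    (hb : b ∈ S) (hab : a ≠ b) (h : ¬ G.Adj a b)
    (hc : ∀ c ∈ S, c ≠ a → c ≠ b → G.Adj a c ∧ G.Adj b c) : Rz k G S ∅ {S} := by
  have hS : insert a (insert b ((S.erase a).erase b)) = S := by
    ext x
    simp only [Finset.mem_insert, Finset.mem_erase]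
    constructor
    · rintro (rfl | rfl | h)
      · exact ha
      · exact hb
      · exact h.2.2
    · intro hx
      by_cases h1 : x = a
      · exact Or.inl h1
      · by_cases h2 : x = b
        · exact Or.inr (Or.inl h2)
        · exact Or.inr (Or.inr ⟨h2, h1, hx⟩)
  have := rz_susp (k := k) G (a := a) (b := b) (C := (S.erase a).erase b) hab h (by simp)
    (by simp) (fun t ht => by
      simp only [Finset.mem_erase] at ht
      exact hc t ht.2.2 ht.2.1 ht.1)
  rwa [hS] at this

theorem Good.of_Rz [CharP k 2] [Infinite k] {G : SimpleGraph T} {S : Finset T} (h : F3 G S)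
    (hr : Rz k G S {x | x.1 ∈ S ∧ x.2 ∈ S ∧ x.1 ≠ x.2 ∧ ¬ G.Adj x.1 x.2}
      {S' | ∃ y ∈ S, S' = nb G S y}) :
    ∃ (ι : Type) (_ : Fintype ι) (_ : DecidableEq ι) (e f : T → Matrix ι ι k),
      Nonempty ι ∧ Good G S e f :=
  good_of_rz G S (fun y hy => (h.2 y hy).exists_pair) hr

end Pool.Agent.LibFlagPL

end
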