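import Pool.Agent.LibFlagPL.AlgD

/-!
# LibFlagPL.AlgE: algebraic part, fourth part
-/

section

namespace Pool.Agent.LibFlagPL

variable {A : Type} [Ring A]

/-- two commuting copies of the `2 x 2` matrices, characteristic two -/
structure TwoCopies (e f e' f' : A) : Prop where
  two : (1 : A) + 1 = 0
  ee : e * e = 0
  ff : f * f = 0
  ef : e * f + f * e = 1
  ee' : e' * e' = 0
  ff' : f' * f' = 0
  ef' : e' * f' + f' * e' = 1
  c1 : e * e' = e' * e
  c2 : e * f' = f' * e
  c3 : f * e' = e' * f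
  c4 : f * f' = f' * f

/-- the splitting element -/
def gS (e f e' f' x : A) : A := 1 + (x + 1) * (f * e * (e' * f')) + e * f'

/-- its inverse, `y = x⁻¹` -/
def gSi (e f e' f' y : A) : A := 1 + (y + 1) * (f * e * (e' * f')) + y * (e * f')

private theorem K5A_two {e f e' f' : A} (h : TwoCopies e f e' f') (a : A) : a + a = 0 := by
  have h1 : a + a = (1 + 1) * a := by noncomm_ring
  rw [h1, h.two, zero_mul]

private theorem K5A_efe {e f : A} (ee : e * e = 0) (ef : e * f + f * e = 1) : e * f * e = e := by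
  have h1 : (e * f + f * e) * e = e := by rw [ef, one_mul]
  rw [add_mul, mul_assoc f e e, ee, mul_zero, add_zero] at h1
  exact h1

private theorem K5A_RR {e f e' f' : A} (h : TwoCopies e f e' f') :
    f * e * (e' * f') * (f * e * (e' * f')) = f * e * (e' * f') := by
  have hc : Commute (e' * f') (f * e) := by
    refine Commute.mul_left (Commute.mul_right ?_ ?_) (Commute.mul_right ?_ ?_)
    · exact h.c3.symm
    · exact h.c1.symm
    · exact h.c4.symm
    · exact h.c2.symm
  have h1 : f * e * (f * e) = f * e := by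
    rw [← mul_assoc, mul_assoc f e f, mul_assoc f (e * f) e, K5A_efe h.ee h.ef]
  have h2 : e' * f' * (e' * f') = e' * f' := by
    rw [← mul_assoc, K5A_efe h.ee' h.ef']
  rw [hc.mul_mul_mul_comm, h1, h2]

private theorem K5A_NN {e f e' f' : A} (h : TwoCopies e f e' f') :
    e * f' * (e * f') = 0 := by
  have hc : Commute f' e := h.c2.symm
  rw [hc.mul_mul_mul_comm, h.ee, zero_mul]

private theorem K5A_RN {e f e' f' : A} (h : TwoCopies e f e' f') :
    f * e * (e' * f') * (e * f') = 0 := by
  have hc : Commute (e' * f') e := Commute.mul_left h.c1.symm h.c2.symm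
  rw [hc.mul_mul_mul_comm, mul_assoc f e e, h.ee, mul_zero, zero_mul]

private theorem K5A_NR {e f e' f' : A} (h : TwoCopies e f e' f') :
    e * f' * (f * e * (e' * f')) = e * f' := by
  have hc : Commute f' (f * e) := Commute.mul_right h.c4.symm h.c2.symm
  have h1 : e * (f * e) = e := by rw [← mul_assoc, K5A_efe h.ee h.ef]
  have h2 : f' * (e' * f') = f' := by
    rw [← mul_assoc]
    exact K5A_efe h.ff' (by rw [add_comm]; exact h.ef')
  rw [hc.mul_mul_mul_comm, h1, h2]

private theorem K5A_key1 {x y R N : A} (h2 : ∀ a : A, a + a = 0)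
    (hy : ∀ a : A, y * a = a * y) (hxy : x * y = 1) (hRR : R * R = R) (hNN : N * N = 0)
    (hRN : R * N = 0) (hNR : N * R = N) :
    (1 + (x + 1) * R + N) * (1 + (y + 1) * R + y * N) = 1 := by
  have e1 : R * ((y + 1) * R) = (y + 1) * R := by
    rw [← mul_assoc, mul_add, mul_one, ← hy R, add_mul, mul_assoc, hRR]
    noncomm_ring
  have e2 : R * (y * N) = 0 := by
    rw [← mul_assoc, ← hy R, mul_assoc, hRN, mul_zero]
  have e3 : N * ((y + 1) * R) = (y + 1) * N := by
    rw [← mul_assoc, mul_add, mul_one, ← hy N, add_mul, mul_assoc, hNR]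
    noncomm_ring
  have e4 : N * (y * N) = 0 := by
    rw [← mul_assoc, ← hy N, mul_assoc, hNN, mul_zero]
  have e5 : (1 + (x + 1) * R + N) * (1 + (y + 1) * R + y * N) =
      1 + (y + 1) * R + y * N + (x + 1) * R + (x + 1) * (R * ((y + 1) * R)) +
        (x + 1) * (R * (y * N)) + N + N * ((y + 1) * R) + N * (y * N) := by
    noncomm_ring
  rw [e5, e1, e2, e3, e4]
  have e6 : (x + 1) * ((y + 1) * R) = (x * y) * R + x * R + y * R + R := by
    noncomm_ring
  rw [e6, hxy]
  have e7 : 1 + (y + 1) * R + y * N + (x + 1) * R + (1 * R + x * R + y * R + R) +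
      (x + 1) * 0 + N + (y + 1) * N + 0 =
      1 + (y * R + y * R) + (x * R + x * R) + (R + R) + (R + R) + (y * N + y * N) + (N + N) := by
    noncomm_ring
  rw [e7, h2, h2, h2, h2, h2]
  simp

private theorem K5A_key2 {x y R N : A} (h2 : ∀ a : A, a + a = 0)
    (hx : ∀ a : A, x * a = a * x) (hxy : y * x = 1) (hRR : R * R = R) (hNN : N * N = 0)
    (hRN : R * N = 0) (hNR : N * R = N) :
    (1 + (y + 1) * R + y * N) * (1 + (x + 1) * R + N) = 1 := by
  have e1 : R * ((x + 1) * R) = (x + 1) * R := by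
    rw [← mul_assoc, mul_add, mul_one, ← hx R, add_mul, mul_assoc, hRR]
    noncomm_ring
  have e3 : N * ((x + 1) * R) = (x + 1) * N := by
    rw [← mul_assoc, mul_add, mul_one, ← hx N, add_mul, mul_assoc, hNR]
    noncomm_ring
  have e5 : (1 + (y + 1) * R + y * N) * (1 + (x + 1) * R + N) =
      1 + (x + 1) * R + N + (y + 1) * R + (y + 1) * (R * ((x + 1) * R)) +
        (y + 1) * (R * N) + y * N + y * (N * ((x + 1) * R)) + y * (N * N) := by
    noncomm_ring
  rw [e5, e1, hRN, e3, hNN]
  have e6 : (y + 1) * ((x + 1) * R) = (y * x) * R + x * R + y * R + R := by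
    noncomm_ring
  have e8 : y * ((x + 1) * N) = (y * x) * N + y * N := by
    noncomm_ring
  rw [e6, e8, hxy]
  have e7 : 1 + (x + 1) * R + N + (y + 1) * R + (1 * R + x * R + y * R + R) +
      (y + 1) * 0 + y * N + (1 * N + y * N) + y * 0 =
      1 + (y * R + y * R) + (x * R + x * R) + (R + R) + (R + R) + (y * N + y * N) + (N + N) := by
    noncomm_ring
  rw [e7, h2, h2, h2, h2, h2]
  simp

theorem gS_mul_gSi {e f e' f' x y : A} (h : TwoCopies e f e' f') (hx : ∀ a : A, x * a = a * x)
    (hy : ∀ a : A, y * a = a * y) (hxy : x * y = 1) : gS e f e' f' x * gSi e f e' f' y = 1 :=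
  K5A_key1 (K5A_two h) hy hxy (K5A_RR h) (K5A_NN h) (K5A_RN h) (K5A_NR h)

theorem gSi_mul_gS {e f e' f' x y : A} (h : TwoCopies e f e' f') (hx : ∀ a : A, x * a = a * x)
    (hy : ∀ a : A, y * a = a * y) (hxy : x * y = 1) : gSi e f e' f' y * gS e f e' f' x = 1 :=
  K5A_key2 (K5A_two h) hx (by rw [hy x, hxy]) (K5A_RR h) (K5A_NN h) (K5A_RN h) (K5A_NR h)

theorem gS_mul_p {e f e' f' x : A} (h : TwoCopies e f e' f') :
    gS e f e' f' x * (e * f) = e * f := by
  have h1 : f * e * (e' * f') * (e * f) = 0 := by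
    have hc : Commute (e' * f') e := Commute.mul_left h.c1.symm h.c2.symm
    rw [hc.mul_mul_mul_comm, mul_assoc f e e, h.ee, mul_zero, zero_mul]
  have h2 : e * f' * (e * f) = 0 := by
    have hc : Commute f' e := h.c2.symm
    rw [hc.mul_mul_mul_comm, h.ee, zero_mul]
  rw [gS, add_mul, add_mul, one_mul, mul_assoc (x + 1), h1, h2, mul_zero, add_zero, add_zero]

theorem gS_zero {e f e' f' : A} (h : TwoCopies e f e' f') :
    (gS e f e' f' 0 * (e' * f')) * (e * f * (e' * f') + f * e') = e * f := by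
  have hPP : e' * f' * (e' * f') = e' * f' := by
    rw [← mul_assoc, K5A_efe h.ee' h.ef']
  have hfef : f * e * f = f := K5A_efe h.ff (by rw [add_comm]; exact h.ef)
  have hfef' : f' * e' * f' = f' := K5A_efe h.ff' (by rw [add_comm]; exact h.ef')
  have hefe' : e' * f' * e' = e' := K5A_efe h.ee' h.ef'
  have g1 : gS e f e' f' 0 * (e' * f') = e' * f' + f * e * (e' * f') + e * f' := by
    rw [gS, zero_add, one_mul, add_mul, add_mul, one_mul, mul_assoc (f * e), hPP, mul_assoc e f',
      ← mul_assoc f' e' f', hfef']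
  have cpe : Commute (e' * f') e := Commute.mul_left h.c1.symm h.c2.symm
  have cpf : Commute (e' * f') f := Commute.mul_left h.c3.symm h.c4.symm
  have cfe : Commute f' e := h.c2.symm
  have cff : Commute f' f := h.c4.symm
  have a1 : e' * f' * (e * f * (e' * f')) = e * f * (e' * f') := by
    rw [← mul_assoc, (Commute.mul_right cpe cpf).eq, mul_assoc, hPP]
  have a2 : e' * f' * (f * e') = f * e' := by
    rw [← mul_assoc, cpf.eq, mul_assoc, hefe']
  have a3 : f * e * (e' * f') * (e * f * (e' * f')) = 0 := by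
    rw [mul_assoc (f * e), a1, ← mul_assoc (f * e), ← mul_assoc (f * e) e f, mul_assoc f e e,
      h.ee, mul_zero, zero_mul, zero_mul]
  have a4 : f * e * (e' * f') * (f * e') = f * e' := by
    rw [mul_assoc (f * e), a2, ← mul_assoc, hfef]
  have a5 : e * f' * (e * f * (e' * f')) = 0 := by
    rw [← mul_assoc, cfe.mul_mul_mul_comm, h.ee, zero_mul, zero_mul]
  have a6 : e * f' * (f * e') = e * f * (f' * e') := cff.mul_mul_mul_comm e e'
  rw [g1, add_mul, add_mul, mul_add, mul_add, mul_add, a1, a2, a3, a4, a5, a6, zero_add, zero_add]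
  have a7 : e * f * (e' * f') + f * e' + f * e' + e * f * (f' * e') =
      e * f * (e' * f' + f' * e') + (f * e' + f * e') := by
    noncomm_ring
  rw [a7, h.ef', mul_one, K5A_two h, add_zero]

end Pool.Agent.LibFlagPL

end

section

namespace Pool.Agent.LibFlagPL

open Finset

variable {T : Type} [Fintype T] [DecidableEq T]
variable {k : Type} [Field k]
variable {ι : Type} [Fintype ι] [DecidableEq ι]

/-- the scalar matrix -/
noncomputable def sc (ι : Type) [Fintype ι] [DecidableEq ι] (x : k) : Matrix ι ι k :=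
  x • (1 : Matrix ι ι k)

/-- first half of the split system -/
noncomputable def spE (e f : T → Matrix ι ι k) (e' f' : Matrix ι ι k) (u v : T) (x : k) :
    T → Matrix ι ι k := fun t =>
  if t = u then gS (e u) (f u) e' f' (sc ι x) * e u * gSi (e u) (f u) e' f' (sc ι x⁻¹)
  else if t = v then gS (e u) (f u) e' f' (sc ι x) * e' * gSi (e u) (f u) e' f' (sc ι x⁻¹)
  else e t

/-- second half of the split system -/
noncomputable def spF (e f : T → Matrix ι ι k) (e' f' : Matrix ι ι k) (u v : T) (x : k) :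
    T → Matrix ι ι k := fun t =>
  if t = u then gS (e u) (f u) e' f' (sc ι x) * f u * gSi (e u) (f u) e' f' (sc ι x⁻¹)
  else if t = v then gS (e u) (f u) e' f' (sc ι x) * f' * gSi (e u) (f u) e' f' (sc ι x⁻¹)
  else f t

/-- a further copy commuting with a system -/
structure Extra (S : Finset T) (e f : T → Matrix ι ι k) (e' f' : Matrix ι ι k) : Prop where
  ee' : e' * e' = 0
  ff' : f' * f' = 0
  ef' : e' * f' + f' * e' = 1
  c1 : ∀ s ∈ S, e s * e' = e' * e s
  c2 : ∀ s ∈ S, e s * f' = f' * e s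
  c3 : ∀ s ∈ S, f s * e' = e' * f s
  c4 : ∀ s ∈ S, f s * f' = f' * f s

private theorem K5B_conj {A : Type} [Ring A] {g gi a b : A} (h : gi * g = 1) :
    (g * a * gi) * (g * b * gi) = g * (a * b) * gi := by
  calc (g * a * gi) * (g * b * gi) = g * a * (gi * g) * b * gi := by noncomm_ring
    _ = g * (a * b) * gi := by rw [h, mul_one]; noncomm_ring

private theorem K5B_comm_gS {A : Type} [Ring A] {e f e' f' x a : A} (h1 : e * a = a * e)
    (h2 : f * a = a * f) (h3 : e' * a = a * e') (h4 : f' * a = a * f') (hx : x * a = a * x) :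
    gS e f e' f' x * a = a * gS e f e' f' x := by
  have c1 : Commute a e := h1.symm
  have c2 : Commute a f := h2.symm
  have c3 : Commute a e' := h3.symm
  have c4 : Commute a f' := h4.symm
  have c5 : Commute a x := hx.symm
  have : Commute a (gS e f e' f' x) := by
    unfold gS
    exact ((Commute.one_right a).add_right (((c5.add_right (Commute.one_right a))).mul_right
      ((c2.mul_right c1).mul_right (c3.mul_right c4)))).add_right (c1.mul_right c4)
  exact this.symm

private theorem K5B_comm_gSi {A : Type} [Ring A] {e f e' f' x a : A} (h1 : e * a = a * e)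
    (h2 : f * a = a * f) (h3 : e' * a = a * e') (h4 : f' * a = a * f') (hx : x * a = a * x) :
    gSi e f e' f' x * a = a * gSi e f e' f' x := by
  have c1 : Commute a e := h1.symm
  have c2 : Commute a f := h2.symm
  have c3 : Commute a e' := h3.symm
  have c4 : Commute a f' := h4.symm
  have c5 : Commute a x := hx.symm
  have : Commute a (gSi e f e' f' x) := by
    unfold gSi
    exact ((Commute.one_right a).add_right (((c5.add_right (Commute.one_right a))).mul_right
      ((c2.mul_right c1).mul_right (c3.mul_right c4)))).add_right (c5.mul_right (c1.mul_right c4))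
  exact this.symm

private theorem K5B_sc (x : k) (a : Matrix ι ι k) : sc ι x * a = a * sc ι x := by
  simp [sc]

private theorem K5B_sc_mul {x : k} (hx : x ≠ 0) : sc ι x * sc ι x⁻¹ = (1 : Matrix ι ι k) := by
  simp [sc, smul_smul, hx]

private theorem K5B_conj_comm {A : Type} [Ring A] {g gi a b : A} (h1 : g * b = b * g)
    (h2 : gi * b = b * gi) (h3 : a * b = b * a) : (g * a * gi) * b = b * (g * a * gi) := by
  calc (g * a * gi) * b = g * a * (gi * b) := by noncomm_ring
    _ = g * (a * b) * gi := by rw [h2]; noncomm_ring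
    _ = (g * b) * a * gi := by rw [h3]; noncomm_ring
    _ = b * (g * a * gi) := by rw [h1]; noncomm_ring

theorem split_sys [CharP k 2] {G : SimpleGraph T} {S : Finset T} {u v : T} (hu : u ∈ S)
    (hv : v ∈ S) (huv : G.Adj u v) {e f : T → Matrix ι ι k} {e' f' : Matrix ι ι k}
    (h : Sys (ctr G u v) (S.erase v) e f) (h' : Extra (S.erase v) e f e' f') {x : k}
    (hx : x ≠ 0) : Sys G S (spE e f e' f' u v x) (spF e f e' f' u v x) := by
  have huv' : u ≠ v := huv.ne
  have hu' : u ∈ S.erase v := mem_erase.2 ⟨huv', hu⟩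
  have two : (1 : Matrix ι ι k) + 1 = 0 := by
    have h2 : (2 : k) = 0 := by exact_mod_cast CharP.cast_eq_zero k 2
    ext i j
    by_cases hij : i = j
    · subst hij
      have : (1 : k) + 1 = 0 := by rw [one_add_one_eq_two, h2]
      simpa using this
    · simp [Matrix.one_apply_ne hij]
  have tc : TwoCopies (e u) (f u) e' f' :=
    ⟨two, h.ee u hu', h.ff u hu', h.ef u hu', h'.ee', h'.ff', h'.ef', h'.c1 u hu', h'.c2 u hu',
      h'.c3 u hu', h'.c4 u hu'⟩
  set g := gS (e u) (f u) e' f' (sc ι x) with hg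
  set gi := gSi (e u) (f u) e' f' (sc ι x⁻¹) with hgi
  have hgg : g * gi = 1 := gS_mul_gSi tc (K5B_sc x) (K5B_sc x⁻¹) (K5B_sc_mul hx)
  have hig : gi * g = 1 := gSi_mul_gS tc (K5B_sc x) (K5B_sc x⁻¹) (K5B_sc_mul hx)
  have Eu : spE e f e' f' u v x u = g * e u * gi := by simp [spE, hg, hgi]
  have Ev : spE e f e' f' u v x v = g * e' * gi := by simp [spE, hg, hgi, huv'.symm]
  have Fu : spF e f e' f' u v x u = g * f u * gi := by simp [spF, hg, hgi]
  have Fv : spF e f e' f' u v x v = g * f' * gi := by simp [spF, hg, hgi, huv'.symm]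
  have Et : ∀ t, t ≠ u → t ≠ v → spE e f e' f' u v x t = e t := fun t h1 h2 => by
    simp [spE, h1, h2]
  have Ft : ∀ t, t ≠ u → t ≠ v → spF e f e' f' u v x t = f t := fun t h1 h2 => by
    simp [spF, h1, h2]
  -- the elements commuting with g, gi
  have key : ∀ t ∈ S, t ≠ u → t ≠ v → (G.Adj u t ∨ G.Adj v t) → ∀ a, (a = e t ∨ a = f t) →
      e u * a = a * e u ∧ f u * a = a * f u ∧ e' * a = a * e' ∧ f' * a = a * f' := by
    intro t ht htu htv hadj a ha
    have ht' : t ∈ S.erase v := mem_erase.2 ⟨htv, ht⟩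
    have hadj' : (ctr G u v).Adj u t := by
      refine ⟨htu.symm, huv', htv, ?_⟩
      rcases hadj with h1 | h1
      · exact Or.inl h1
      · exact Or.inr (Or.inl ⟨rfl, h1⟩)
    rcases ha with rfl | rfl
    · exact ⟨h.cee u hu' t ht' hadj', (h.cef t ht' u hu' hadj'.symm).symm, (h'.c1 t ht').symm,
        (h'.c2 t ht').symm⟩
    · exact ⟨h.cef u hu' t ht' hadj', h.cff u hu' t ht' hadj', (h'.c3 t ht').symm,
        (h'.c4 t ht').symm⟩
  have keyg : ∀ t ∈ S, t ≠ u → t ≠ v → (G.Adj u t ∨ G.Adj v t) → ∀ a, (a = e t ∨ a = f t) →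
      ∀ b, (b * a = a * b) → (g * b * gi) * a = a * (g * b * gi) := by
    intro t ht htu htv hadj a ha b hb
    obtain ⟨k1, k2, k3, k4⟩ := key t ht htu htv hadj a ha
    exact K5B_conj_comm (K5B_comm_gS k1 k2 k3 k4 (K5B_sc x a))
      (K5B_comm_gSi k1 k2 k3 k4 (K5B_sc x⁻¹ a)) hb
  have rel : ∀ a b : Matrix ι ι k, a * b + b * a = 1 →
      (g * a * gi) * (g * b * gi) + (g * b * gi) * (g * a * gi) = 1 := by
    intro a b hab
    rw [K5B_conj hig, K5B_conj hig]
    calc g * (a * b) * gi + g * (b * a) * gi = g * (a * b + b * a) * gi := by noncomm_ring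
      _ = 1 := by rw [hab, mul_one, hgg]
  have sq : ∀ a : Matrix ι ι k, a * a = 0 → (g * a * gi) * (g * a * gi) = 0 := by
    intro a ha
    rw [K5B_conj hig, ha, mul_zero, zero_mul]
  have cm : ∀ a b : Matrix ι ι k, a * b = b * a →
      (g * a * gi) * (g * b * gi) = (g * b * gi) * (g * a * gi) := by
    intro a b hab
    rw [K5B_conj hig, K5B_conj hig, hab]
  have ctrAdj : ∀ s t, s ≠ v → t ≠ v → G.Adj s t → (ctr G u v).Adj s t :=
    fun s t hs ht hst => ⟨hst.ne, hs, ht, Or.inl hst⟩
  refine ⟨?_, ?_, ?_, ?_, ?_, ?_⟩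
  · intro s hs
    by_cases h1 : s = u
    · subst h1; rw [Eu]; exact sq _ (h.ee s hu')
    by_cases h2 : s = v
    · subst h2; rw [Ev]; exact sq _ h'.ee'
    · rw [Et s h1 h2]; exact h.ee s (mem_erase.2 ⟨h2, hs⟩)
  · intro s hs
    by_cases h1 : s = u
    · subst h1; rw [Fu]; exact sq _ (h.ff s hu')
    by_cases h2 : s = v
    · subst h2; rw [Fv]; exact sq _ h'.ff'
    · rw [Ft s h1 h2]; exact h.ff s (mem_erase.2 ⟨h2, hs⟩)
  · intro s hs
    by_cases h1 : s = u
    · subst h1; rw [Eu, Fu]; exact rel _ _ (h.ef s hu')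
    by_cases h2 : s = v
    · subst h2; rw [Ev, Fv]; exact rel _ _ h'.ef'
    · rw [Et s h1 h2, Ft s h1 h2]; exact h.ef s (mem_erase.2 ⟨h2, hs⟩)
  all_goals
    intro s hs t ht hst
    by_cases h1 : s = u
    · have h1t : t ≠ u := fun h => hst.ne (h1.trans h.symm)
      subst h1
      by_cases h2 : t = v
      · subst h2
        first
          | (rw [Eu, Ev]; exact cm _ _ tc.c1)
          | (rw [Eu, Fv]; exact cm _ _ tc.c2)
          | (rw [Fu, Fv]; exact cm _ _ tc.c4)
      · first
          | (rw [Eu, Et t h1t h2]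
             exact keyg t ht h1t h2 (Or.inl hst) _ (Or.inl rfl) _
               (key t ht h1t h2 (Or.inl hst) _ (Or.inl rfl)).1)
          | (rw [Eu, Ft t h1t h2]
             exact keyg t ht h1t h2 (Or.inl hst) _ (Or.inr rfl) _
               (key t ht h1t h2 (Or.inl hst) _ (Or.inr rfl)).1)
          | (rw [Fu, Ft t h1t h2]
             exact keyg t ht h1t h2 (Or.inl hst) _ (Or.inr rfl) _
               (key t ht h1t h2 (Or.inl hst) _ (Or.inr rfl)).2.1)
    by_cases h2 : s = v
    · have h2t : t ≠ v := fun h => hst.ne (h2.trans h.symm)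
      subst h2
      by_cases h3 : t = u
      · subst h3
        first
          | (rw [Eu, Ev]; exact (cm _ _ tc.c1).symm)
          | (rw [Ev, Fu]; exact (cm _ _ tc.c3).symm)
          | (rw [Fu, Fv]; exact (cm _ _ tc.c4).symm)
      · first
          | (rw [Ev, Et t h3 h2t]
             exact keyg t ht h3 h2t (Or.inr hst) _ (Or.inl rfl) _
               (key t ht h3 h2t (Or.inr hst) _ (Or.inl rfl)).2.2.1)
          | (rw [Ev, Ft t h3 h2t]
             exact keyg t ht h3 h2t (Or.inr hst) _ (Or.inr rfl) _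
               (key t ht h3 h2t (Or.inr hst) _ (Or.inr rfl)).2.2.1)
          | (rw [Fv, Ft t h3 h2t]
             exact keyg t ht h3 h2t (Or.inr hst) _ (Or.inr rfl) _
               (key t ht h3 h2t (Or.inr hst) _ (Or.inr rfl)).2.2.2)
    by_cases h3 : t = u
    · subst h3
      first
        | (rw [Eu, Et s h1 h2]
           exact (keyg s hs h1 h2 (Or.inl hst.symm) _ (Or.inl rfl) _
             (key s hs h1 h2 (Or.inl hst.symm) _ (Or.inl rfl)).1).symm)
        | (rw [Fu, Et s h1 h2]
           exact (keyg s hs h1 h2 (Or.inl hst.symm) _ (Or.inl rfl) _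
             (key s hs h1 h2 (Or.inl hst.symm) _ (Or.inl rfl)).2.1).symm)
        | (rw [Fu, Ft s h1 h2]
           exact (keyg s hs h1 h2 (Or.inl hst.symm) _ (Or.inr rfl) _
             (key s hs h1 h2 (Or.inl hst.symm) _ (Or.inr rfl)).2.1).symm)
    by_cases h4 : t = v
    · subst h4
      first
        | (rw [Ev, Et s h1 h2]
           exact (keyg s hs h1 h2 (Or.inr hst.symm) _ (Or.inl rfl) _
             (key s hs h1 h2 (Or.inr hst.symm) _ (Or.inl rfl)).2.2.1).symm)
        | (rw [Fv, Et s h1 h2]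
           exact (keyg s hs h1 h2 (Or.inr hst.symm) _ (Or.inl rfl) _
             (key s hs h1 h2 (Or.inr hst.symm) _ (Or.inl rfl)).2.2.2).symm)
        | (rw [Fv, Ft s h1 h2]
           exact (keyg s hs h1 h2 (Or.inr hst.symm) _ (Or.inr rfl) _
             (key s hs h1 h2 (Or.inr hst.symm) _ (Or.inr rfl)).2.2.2).symm)
    · first
        | (rw [Et s h1 h2, Et t h3 h4]
           exact h.cee s (mem_erase.2 ⟨h2, hs⟩) t (mem_erase.2 ⟨h4, ht⟩) (ctrAdj s t h2 h4 hst))
        | (rw [Et s h1 h2, Ft t h3 h4]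
           exact h.cef s (mem_erase.2 ⟨h2, hs⟩) t (mem_erase.2 ⟨h4, ht⟩) (ctrAdj s t h2 h4 hst))
        | (rw [Ft s h1 h2, Ft t h3 h4]
           exact h.cff s (mem_erase.2 ⟨h2, hs⟩) t (mem_erase.2 ⟨h4, ht⟩) (ctrAdj s t h2 h4 hst))

end Pool.Agent.LibFlagPL

end

section

namespace Pool.Agent.LibFlagPL

open Finset

variable {T : Type} [Fintype T] [DecidableEq T]
variable {R R' : Type} [CommRing R] [CommRing R']
variable {k : Type} [Field k]
variable {ι : Type} [Fintype ι] [DecidableEq ι]

open scoped Classical in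
/-- boundary matrix from edges to vertices with one matrix per ordered edge -/
noncomputable def PhiH (G : SimpleGraph T) (S : Finset T) (H : T → T → Matrix ι ι R) :
    Matrix (T × ι) ((T × T) × ι) R :=
  fun x y => if y.1.1 ∈ S ∧ y.1.2 ∈ S ∧ G.Adj y.1.1 y.1.2 ∧ (x.1 = y.1.1 ∨ x.1 = y.1.2)
    then (H y.1.1 y.1.2) x.2 y.2 else 0

theorem PhiM_eq_PhiH (G : SimpleGraph T) (S : Finset T) (h : T → Matrix ι ι R) :
    PhiM G S h = PhiH G S (fun a b => h a * h b) := by
  rfl

theorem PhiH_congr {G : SimpleGraph T} {S : Finset T} {H H' : T → T → Matrix ι ι R}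
    (h : ∀ a ∈ S, ∀ b ∈ S, G.Adj a b → H a b = H' a b) : PhiH G S H = PhiH G S H' := by
  funext x y
  unfold PhiH
  by_cases hc : y.1.1 ∈ S ∧ y.1.2 ∈ S ∧ G.Adj y.1.1 y.1.2 ∧ (x.1 = y.1.1 ∨ x.1 = y.1.2)
  · rw [if_pos hc, if_pos hc, h _ hc.1 _ hc.2.1 hc.2.2.1]
  · rw [if_neg hc, if_neg hc]

/-- block diagonal matrix (auxiliary for `PhiH_rank_le`) -/
def K5C_BD (D : T → T → Matrix ι ι k) : Matrix ((T × T) × ι) ((T × T) × ι) k :=
  fun y z => if y.1 = z.1 then (D z.1.1 z.1.2) y.2 z.2 else 0

theorem K5C_mul (G : SimpleGraph T) (S : Finset T) (H D : T → T → Matrix ι ι k) :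
    PhiH G S (fun a b => H a b * D a b) = PhiH G S H * K5C_BD D := by
  funext x z
  rw [Matrix.mul_apply, Fintype.sum_prod_type]
  rw [Finset.sum_eq_single z.1]
  · unfold PhiH K5C_BD
    by_cases hc : z.1.1 ∈ S ∧ z.1.2 ∈ S ∧ G.Adj z.1.1 z.1.2 ∧ (x.1 = z.1.1 ∨ x.1 = z.1.2)
    · rw [if_pos hc]
      change (H z.1.1 z.1.2 * D z.1.1 z.1.2) x.2 z.2 = _
      rw [Matrix.mul_apply]
      apply Finset.sum_congr rfl
      intro i _
      rw [if_pos hc, if_pos rfl]
    · rw [if_neg hc]
      symm
      apply Finset.sum_eq_zero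
      intro i _
      rw [if_neg hc, zero_mul]
  · intro b _ hb
    apply Finset.sum_eq_zero
    intro i _
    unfold K5C_BD
    rw [if_neg hb, mul_zero]
  · intro h
    exact absurd (Finset.mem_univ _) h

theorem PhiH_rank_le (G : SimpleGraph T) (S : Finset T) (H D : T → T → Matrix ι ι k) :
    (PhiH G S (fun a b => H a b * D a b)).rank ≤ (PhiH G S H).rank := by
  rw [K5C_mul]
  exact Matrix.rank_mul_le_left _ _

theorem PhiH_map (G : SimpleGraph T) (S : Finset T) (H : T → T → Matrix ι ι R) (φ : R →+* R') :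
    (PhiH G S H).map φ = PhiH G S (fun a b => (H a b).map φ) := by
  funext x y
  rw [Matrix.map_apply]
  unfold PhiH
  by_cases hc : y.1.1 ∈ S ∧ y.1.2 ∈ S ∧ G.Adj y.1.1 y.1.2 ∧ (x.1 = y.1.1 ∨ x.1 = y.1.2)
  · rw [if_pos hc, if_pos hc]
    rfl
  · rw [if_neg hc, if_neg hc, map_zero]

open scoped Classical in
/-- the contribution of the pair `p` -/
theorem K5C_part (G : SimpleGraph T) (S : Finset T) (H : T → T → Matrix ι ι R)
    (w : (T × T) × ι → R) (x : T × ι) :
    (PhiH G S H).mulVec w x = ∑ p : T × T,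
      if p.1 ∈ S ∧ p.2 ∈ S ∧ G.Adj p.1 p.2 ∧ (x.1 = p.1 ∨ x.1 = p.2)
        then (H p.1 p.2).mulVec (fun i => w (p, i)) x.2 else 0 := by
  unfold Matrix.mulVec dotProduct
  rw [Fintype.sum_prod_type]
  apply Finset.sum_congr rfl
  intro p _
  unfold PhiH
  by_cases hc : p.1 ∈ S ∧ p.2 ∈ S ∧ G.Adj p.1 p.2 ∧ (x.1 = p.1 ∨ x.1 = p.2)
  · rw [if_pos hc]
    apply Finset.sum_congr rfl
    intro i _
    change (if p.1 ∈ S ∧ p.2 ∈ S ∧ G.Adj p.1 p.2 ∧ (x.1 = p.1 ∨ x.1 = p.2) then
      (H p.1 p.2) x.2 i else 0) * w (p, i) = (H p.1 p.2) x.2 i * w (p, i)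
    rw [if_pos hc]
  · rw [if_neg hc]
    apply Finset.sum_eq_zero
    intro i _
    change (if p.1 ∈ S ∧ p.2 ∈ S ∧ G.Adj p.1 p.2 ∧ (x.1 = p.1 ∨ x.1 = p.2) then
      (H p.1 p.2) x.2 i else 0) * w (p, i) = 0
    rw [if_neg hc, zero_mul]

/-- the action of `PhiH` on a vector supported in one column -/
theorem PhiH_mulVec_single {G : SimpleGraph T} {S : Finset T} (H : T → T → Matrix ι ι R)
    {a b : T} (ha : a ∈ S) (hb : b ∈ S) (hab : G.Adj a b) (z : ι → R) :
    (PhiH G S H).mulVec (fun y => if y.1 = (a, b) then z y.2 else 0) =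
      fun x => if x.1 = a ∨ x.1 = b then (H a b).mulVec z x.2 else 0 := by
  funext x
  rw [K5C_part]
  rw [Finset.sum_eq_single (a, b)]
  · by_cases hx : x.1 = a ∨ x.1 = b
    · rw [if_pos hx, if_pos ⟨ha, hb, hab, hx⟩]
      simp
    · rw [if_neg hx, if_neg (fun h => hx h.2.2.2)]
  · intro p _ hp
    have h0 : (fun i => if ((p, i) : (T × T) × ι).1 = (a, b) then z ((p, i) : (T × T) × ι).2 else 0) =
        (0 : ι → R) := by
      funext i
      rw [if_neg hp]
      rfl
    rw [h0, Matrix.mulVec_zero]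
    simp
  · intro h
    exact absurd (Finset.mem_univ _) h

/-- the range of `PhiH` is spanned by these vectors -/
theorem PhiH_range_le {G : SimpleGraph T} {S : Finset T} {H : T → T → Matrix ι ι k}
    {W : Submodule k (T × ι → k)}
    (hW : ∀ a ∈ S, ∀ b ∈ S, G.Adj a b → ∀ z : ι → k,
      (fun x : T × ι => if x.1 = a ∨ x.1 = b then (H a b).mulVec z x.2 else 0) ∈ W) :
    LinearMap.range (PhiH G S H).mulVecLin ≤ W := by
  classical
  rintro _ ⟨w, rfl⟩
  rw [Matrix.mulVecLin_apply]
  have h1 : (PhiH G S H).mulVec w = ∑ p : T × T, (fun x : T × ι =>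
      if p.1 ∈ S ∧ p.2 ∈ S ∧ G.Adj p.1 p.2 ∧ (x.1 = p.1 ∨ x.1 = p.2)
        then (H p.1 p.2).mulVec (fun i => w (p, i)) x.2 else 0) := by
    funext x
    rw [K5C_part, Finset.sum_apply]
  rw [h1]
  apply Submodule.sum_mem
  intro p _
  by_cases hc : p.1 ∈ S ∧ p.2 ∈ S ∧ G.Adj p.1 p.2
  · have h2 := hW p.1 hc.1 p.2 hc.2.1 hc.2.2 (fun i => w (p, i))
    have h3 : (fun x : T × ι =>
      if p.1 ∈ S ∧ p.2 ∈ S ∧ G.Adj p.1 p.2 ∧ (x.1 = p.1 ∨ x.1 = p.2)
        then (H p.1 p.2).mulVec (fun i => w (p, i)) x.2 else 0) =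
        (fun x : T × ι => if x.1 = p.1 ∨ x.1 = p.2 then
          (H p.1 p.2).mulVec (fun i => w (p, i)) x.2 else 0) := by
      funext x
      by_cases hx : x.1 = p.1 ∨ x.1 = p.2
      · rw [if_pos hx, if_pos ⟨hc.1, hc.2.1, hc.2.2, hx⟩]
      · rw [if_neg hx, if_neg (fun h => hx h.2.2.2)]
    rw [h3]
    exact h2
  · have h3 : (fun x : T × ι =>
      if p.1 ∈ S ∧ p.2 ∈ S ∧ G.Adj p.1 p.2 ∧ (x.1 = p.1 ∨ x.1 = p.2)
        then (H p.1 p.2).mulVec (fun i => w (p, i)) x.2 else 0) = 0 := by
      funext x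
      rw [if_neg (fun h => hc ⟨h.1, h.2.1, h.2.2.1⟩)]
      rfl
    rw [h3]
    exact W.zero_mem

end Pool.Agent.LibFlagPL

end

section

namespace Pool.Agent.LibFlagPL

open Finset

variable {T : Type} [Fintype T] [DecidableEq T]
variable {k : Type} [Field k]
variable {R : Type} [CommRing R]
variable {ι : Type} [Fintype ι] [DecidableEq ι]

/-- edge matrices from vertex matrices, zero on the edge `u v` -/
def cut (u v : T) (h : T → Matrix ι ι R) : T → T → Matrix ι ι R := fun a b =>
  if (a = u ∧ b = v) ∨ (a = v ∧ b = u) then 0 else h a * h b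

/-- vertex matrices of the degenerating family -/
noncomputable def hx (e f : T → Matrix ι ι k) (e' f' : Matrix ι ι k) (u v : T) (x : k) :
    T → Matrix ι ι k := fun t =>
  if t = v then gS (e u) (f u) e' f' (sc ι x) * (e' * f') else e t * f t

/-- vertex matrices of the limit -/
def pz (e f : T → Matrix ι ι k) (u v : T) : T → Matrix ι ι k := fun t =>
  if t = v then e u * f u else e t * f t

private theorem K5D_sc_comm (x : k) (M : Matrix ι ι k) : sc ι x * M = M * sc ι x := by
  unfold sc
  rw [Matrix.smul_mul, Matrix.mul_smul, Matrix.one_mul, Matrix.mul_one]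

private theorem K5D_sc_mul {x : k} (hx : x ≠ 0) : sc ι x * sc ι x⁻¹ = 1 := by
  unfold sc
  rw [Matrix.smul_mul, Matrix.mul_smul, Matrix.one_mul, smul_smul, mul_inv_cancel₀ hx, one_smul]

private theorem K5D_two [CharP k 2] {G : SimpleGraph T} {S : Finset T} {u v : T}
    (hu : u ∈ S.erase v) {e f : T → Matrix ι ι k} {e' f' : Matrix ι ι k}
    (h : Sys (ctr G u v) (S.erase v) e f) (h' : Extra (S.erase v) e f e' f') :
    TwoCopies (e u) (f u) e' f' where
  two := by
    have h2 : (1 : k) + 1 = 0 := by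
      rw [one_add_one_eq_two]
      exact CharTwo.two_eq_zero
    have h3 : (1 : Matrix ι ι k) + 1 = ((1 : k) + 1) • (1 : Matrix ι ι k) := by
      rw [add_smul, one_smul]
    rw [h3, h2, zero_smul]
  ee := h.ee u hu
  ff := h.ff u hu
  ef := h.ef u hu
  ee' := h'.ee'
  ff' := h'.ff'
  ef' := h'.ef'
  c1 := h'.c1 u hu
  c2 := h'.c2 u hu
  c3 := h'.c3 u hu
  c4 := h'.c4 u hu

/-- the idempotent at a neighbour commutes with the splitting elements -/
private theorem K5D_comm {G : SimpleGraph T} {S : Finset T} {u v b : T} (huS : u ∈ S.erase v)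
    (hbS : b ∈ S.erase v) (hbu : b ≠ u) (hb : G.Adj u b ∨ G.Adj v b) {e f : T → Matrix ι ι k}
    {e' f' : Matrix ι ι k} (h : Sys (ctr G u v) (S.erase v) e f) (h' : Extra (S.erase v) e f e' f') :
    Commute (e b * f b) (e u) ∧ Commute (e b * f b) (f u) ∧ Commute (e b * f b) e' ∧
      Commute (e b * f b) f' := by
  have hadj : (ctr G u v).Adj b u := by
    refine ⟨hbu, Finset.ne_of_mem_erase hbS, Finset.ne_of_mem_erase huS, ?_⟩
    rcases hb with hb | hb
    · exact Or.inl hb.symm
    · exact Or.inr (Or.inr ⟨rfl, hb⟩)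
  have h1 : Commute (e b) (e u) := h.cee b hbS u huS hadj
  have h2 : Commute (e b) (f u) := h.cef b hbS u huS hadj
  have h3 : Commute (f b) (e u) := (h.cef u huS b hbS hadj.symm).symm
  have h4 : Commute (f b) (f u) := h.cff b hbS u huS hadj
  have h5 : Commute (e b) e' := h'.c1 b hbS
  have h6 : Commute (e b) f' := h'.c2 b hbS
  have h7 : Commute (f b) e' := h'.c3 b hbS
  have h8 : Commute (f b) f' := h'.c4 b hbS
  exact ⟨h1.mul_left h3, h2.mul_left h4, h5.mul_left h7, h6.mul_left h8⟩

private theorem K5D_gSi_comm {A : Type} [Ring A] {z e f e' f' y : A} (h1 : Commute z e) (h2 : Commute z f)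
    (h3 : Commute z e') (h4 : Commute z f') (h5 : Commute z y) : Commute z (gSi e f e' f' y) := by
  unfold gSi
  exact ((Commute.one_right z).add_right ((h5.add_right (Commute.one_right z)).mul_right
    ((h2.mul_right h1).mul_right (h3.mul_right h4)))).add_right (h5.mul_right (h1.mul_right h4))

theorem split_rank [CharP k 2] {G : SimpleGraph T} {S : Finset T} {u v : T} (hu : u ∈ S)
    (hv : v ∈ S) (huv : G.Adj u v) {e f : T → Matrix ι ι k} {e' f' : Matrix ι ι k}
    (h : Sys (ctr G u v) (S.erase v) e f) (h' : Extra (S.erase v) e f e' f') {x : k}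
    (hx0 : x ≠ 0) :
    (PhiH G S (cut u v (hx e f e' f' u v x))).rank ≤
      (PhiM G S (pr (spE e f e' f' u v x) (spF e f e' f' u v x))).rank := by
  have huS : u ∈ S.erase v := Finset.mem_erase.2 ⟨huv.ne, hu⟩
  have h2 := K5D_two huS h h'
  obtain ⟨g, hg⟩ : ∃ g, g = gS (e u) (f u) e' f' (sc ι x) := ⟨_, rfl⟩
  obtain ⟨gi, hgi⟩ : ∃ gi, gi = gSi (e u) (f u) e' f' (sc ι x⁻¹) := ⟨_, rfl⟩
  have hggi : g * gi = 1 := by
    rw [hg, hgi]
    exact gS_mul_gSi h2 (K5D_sc_comm x) (K5D_sc_comm x⁻¹) (K5D_sc_mul hx0)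
  have hgig : gi * g = 1 := by
    rw [hg, hgi]
    exact gSi_mul_gS h2 (K5D_sc_comm x) (K5D_sc_comm x⁻¹) (K5D_sc_mul hx0)
  have hgp : g * (e u * f u) = e u * f u := by
    rw [hg]
    exact gS_mul_p h2
  obtain ⟨ps, hps⟩ : ∃ ps, ps = pr (spE e f e' f' u v x) (spF e f e' f' u v x) := ⟨_, rfl⟩
  have hpu : ps u = e u * f u * gi := by
    have h3 : ps u = (g * e u * gi) * (g * f u * gi) := by
      rw [hps]
      unfold pr spE spF
      rw [if_pos rfl, if_pos rfl, ← hg, ← hgi]
    rw [h3]
    calc g * e u * gi * (g * f u * gi) = g * e u * (gi * g) * f u * gi := by noncomm_ring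
      _ = g * (e u * f u) * gi := by rw [hgig]; noncomm_ring
      _ = e u * f u * gi := by rw [hgp]
  have hpv : ps v = g * (e' * f') * gi := by
    have h3 : ps v = (g * e' * gi) * (g * f' * gi) := by
      rw [hps]
      unfold pr spE spF
      rw [if_neg huv.ne', if_neg huv.ne', if_pos rfl, if_pos rfl, ← hg, ← hgi]
    rw [h3]
    calc g * e' * gi * (g * f' * gi) = g * e' * (gi * g) * f' * gi := by noncomm_ring
      _ = g * (e' * f') * gi := by rw [hgig]; noncomm_ring
  have hpt : ∀ t, t ≠ u → t ≠ v → ps t = e t * f t := by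
    intro t h3 h4
    rw [hps]
    unfold pr spE spF
    rw [if_neg h3, if_neg h3, if_neg h4, if_neg h4]
  have hhv : hx e f e' f' u v x v = g * (e' * f') := by
    unfold hx
    rw [if_pos rfl, ← hg]
  have hht : ∀ t, t ≠ v → hx e f e' f' u v x t = e t * f t := by
    intro t h3
    unfold hx
    rw [if_neg h3]
  have hcomm : ∀ b, b ∈ S → b ≠ u → b ≠ v → (G.Adj u b ∨ G.Adj v b) →
      gi * (e b * f b) = (e b * f b) * gi := by
    intro b hb hbu hbv hadj
    obtain ⟨c1, c2, c3, c4⟩ := K5D_comm huS (Finset.mem_erase.2 ⟨hbv, hb⟩) hbu hadj h h'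
    rw [hgi]
    exact (K5D_gSi_comm c1 c2 c3 c4 (K5D_sc_comm x⁻¹ (e b * f b)).symm).eq.symm
  have key : PhiH G S (cut u v (hx e f e' f' u v x)) = PhiH G S (fun a b => (ps a * ps b) *
      (if (a = u ∧ b = v) ∨ (a = v ∧ b = u) then 0 else
        if a = u ∨ a = v ∨ b = u ∨ b = v then g else 1)) := by
    refine PhiH_congr fun a ha b hb hab => ?_
    unfold cut
    by_cases h0 : (a = u ∧ b = v) ∨ (a = v ∧ b = u)
    · rw [if_pos h0, if_pos h0, Matrix.mul_zero]
    rw [if_neg h0, if_neg h0]
    rw [not_or, not_and, not_and] at h0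
    by_cases hau : a = u
    · have hbv := h0.1 hau
      have hbu : b ≠ u := fun h3 => hab.ne (hau.trans h3.symm)
      rw [if_pos (Or.inl hau), hau, hht u huv.ne, hht b hbv, hpu, hpt b hbu hbv]
      have h3 := hcomm b hb hbu hbv (Or.inl (by rw [← hau]; exact hab))
      calc e u * f u * (e b * f b) = e u * f u * (e b * f b) * (gi * g) := by rw [hgig, Matrix.mul_one]
        _ = e u * f u * ((e b * f b) * gi) * g := by noncomm_ring
        _ = e u * f u * (gi * (e b * f b)) * g := by rw [h3]
        _ = e u * f u * gi * (e b * f b) * g := by noncomm_ring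
    by_cases hav : a = v
    · have hbu := h0.2 hav
      have hbv : b ≠ v := fun h3 => hab.ne (hav.trans h3.symm)
      rw [if_pos (Or.inr (Or.inl hav)), hav, hhv, hht b hbv, hpv, hpt b hbu hbv]
      have h3 := hcomm b hb hbu hbv (Or.inr (by rw [← hav]; exact hab))
      calc g * (e' * f') * (e b * f b) = g * (e' * f') * (e b * f b) * (gi * g) := by
            rw [hgig, Matrix.mul_one]
        _ = g * (e' * f') * ((e b * f b) * gi) * g := by noncomm_ring
        _ = g * (e' * f') * (gi * (e b * f b)) * g := by rw [h3]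
        _ = g * (e' * f') * gi * (e b * f b) * g := by noncomm_ring
    by_cases hbu : b = u
    · rw [if_pos (Or.inr (Or.inr (Or.inl hbu))), hbu, hht u huv.ne, hht a hav, hpu, hpt a hau hav]
      calc e a * f a * (e u * f u) = e a * f a * (e u * f u) * (gi * g) := by rw [hgig, Matrix.mul_one]
        _ = e a * f a * (e u * f u * gi) * g := by noncomm_ring
    by_cases hbv : b = v
    · rw [if_pos (Or.inr (Or.inr (Or.inr hbv))), hbv, hhv, hht a hav, hpv, hpt a hau hav]
      calc e a * f a * (g * (e' * f')) = e a * f a * (g * (e' * f')) * (gi * g) := by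
            rw [hgig, Matrix.mul_one]
        _ = e a * f a * (g * (e' * f') * gi) * g := by noncomm_ring
    · rw [if_neg, hht a hav, hht b hbv, hpt a hau hav, hpt b hbu hbv, Matrix.mul_one]
      rintro (h3 | h3 | h3 | h3)
      · exact hau h3
      · exact hav h3
      · exact hbu h3
      · exact hbv h3
  rw [key, ← hps, PhiM_eq_PhiH]
  exact PhiH_rank_le G S _ _

theorem zero_rank [CharP k 2] {G : SimpleGraph T} {S : Finset T} {u v : T} (hu : u ∈ S)
    (hv : v ∈ S) (huv : G.Adj u v) {e f : T → Matrix ι ι k} {e' f' : Matrix ι ι k}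
    (h : Sys (ctr G u v) (S.erase v) e f) (h' : Extra (S.erase v) e f e' f') :
    (PhiH G S (cut u v (pz e f u v))).rank ≤
      (PhiH G S (cut u v (hx e f e' f' u v 0))).rank := by
  have huS : u ∈ S.erase v := Finset.mem_erase.2 ⟨huv.ne, hu⟩
  have h2 := K5D_two huS h h'
  obtain ⟨g, hg⟩ : ∃ g, g = gS (e u) (f u) e' f' 0 := ⟨_, rfl⟩
  obtain ⟨B, hB⟩ : ∃ B, B = e u * f u * (e' * f') + f u * e' := ⟨_, rfl⟩
  have hgB : g * (e' * f') * B = e u * f u := by
    rw [hg, hB]
    exact gS_zero h2
  have hhv : hx e f e' f' u v 0 v = g * (e' * f') := by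
    unfold hx sc
    rw [if_pos rfl, zero_smul, ← hg]
  have hht : ∀ t, t ≠ v → hx e f e' f' u v 0 t = e t * f t := by
    intro t h3
    unfold hx
    rw [if_neg h3]
  have hzv : pz e f u v v = e u * f u := by
    unfold pz
    rw [if_pos rfl]
  have hzt : ∀ t, t ≠ v → pz e f u v t = e t * f t := by
    intro t h3
    unfold pz
    rw [if_neg h3]
  have hcomm : ∀ b, b ∈ S → b ≠ u → b ≠ v → (G.Adj u b ∨ G.Adj v b) →
      (e b * f b) * B = B * (e b * f b) := by
    intro b hb hbu hbv hadj
    obtain ⟨c1, c2, c3, c4⟩ := K5D_comm huS (Finset.mem_erase.2 ⟨hbv, hb⟩) hbu hadj h h'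
    rw [hB]
    exact (((c1.mul_right c2).mul_right (c3.mul_right c4)).add_right (c2.mul_right c3)).eq
  have key : PhiH G S (cut u v (pz e f u v)) = PhiH G S (fun a b => cut u v (hx e f e' f' u v 0) a b *
      (if a = v ∨ b = v then B else 1)) := by
    refine PhiH_congr fun a ha b hb hab => ?_
    unfold cut
    by_cases h0 : (a = u ∧ b = v) ∨ (a = v ∧ b = u)
    · rw [if_pos h0, if_pos h0, Matrix.zero_mul]
    rw [if_neg h0, if_neg h0]
    rw [not_or, not_and, not_and] at h0
    by_cases hav : a = v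
    · have hbu := h0.2 hav
      have hbv : b ≠ v := fun h3 => hab.ne (hav.trans h3.symm)
      rw [if_pos (Or.inl hav), hav, hhv, hht b hbv, hzv, hzt b hbv]
      have h3 := hcomm b hb hbu hbv (Or.inr (by rw [← hav]; exact hab))
      calc e u * f u * (e b * f b) = g * (e' * f') * B * (e b * f b) := by rw [hgB]
        _ = g * (e' * f') * (B * (e b * f b)) := by noncomm_ring
        _ = g * (e' * f') * ((e b * f b) * B) := by rw [h3]
        _ = g * (e' * f') * (e b * f b) * B := by noncomm_ring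
    by_cases hbv : b = v
    · rw [if_pos (Or.inr hbv), hbv, hhv, hht a hav, hzv, hzt a hav]
      calc e a * f a * (e u * f u) = e a * f a * (g * (e' * f') * B) := by rw [hgB]
        _ = e a * f a * (g * (e' * f')) * B := by noncomm_ring
    · rw [if_neg, hht a hav, hht b hbv, hzt a hav, hzt b hbv, Matrix.mul_one]
      rintro (h3 | h3)
      · exact hav h3
      · exact hbv h3
  rw [key]
  exact PhiH_rank_le G S _ _

end Pool.Agent.LibFlagPL

end

section

namespace Pool.Agent.LibFlagPL

open Finset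

variable {T : Type} [Fintype T] [DecidableEq T]
variable {k : Type} [Field k]
variable {ι : Type} [Fintype ι] [DecidableEq ι]

theorem rank_of_maps {V W : Type} [AddCommGroup V] [Module k V] [FiniteDimensional k V]
    [AddCommGroup W] [Module k W] (R : Submodule k V) (π : V →ₗ[k] W)
    (W1 : Submodule k W) (W2 : Submodule k V) (h1 : W1 ≤ R.map π)
    (h2 : W2 ≤ R) (h3 : W2 ≤ LinearMap.ker π) :
    Module.finrank k W1 + Module.finrank k W2 ≤ Module.finrank k R := by
  have e1 := LinearMap.finrank_range_add_finrank_ker (π.domRestrict R)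
  have e2 : LinearMap.range (π.domRestrict R) = R.map π := LinearMap.range_domRestrict R π
  rw [e2] at e1
  have e3 : Module.finrank k W1 ≤ Module.finrank k (R.map π : Submodule k W) :=
    Submodule.finrank_mono h1
  have e4 : Module.finrank k (W2.comap R.subtype : Submodule k R) = Module.finrank k W2 :=
    LinearEquiv.finrank_eq (Submodule.comapSubtypeEquivOfLe h2)
  have e5 : W2.comap R.subtype ≤ LinearMap.ker (π.domRestrict R) := by
    intro x hx
    rw [LinearMap.mem_ker]
    exact h3 hx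
  have e6 := Submodule.finrank_mono e5
  omega

theorem rank_half {e f : Matrix ι ι k} (h1 : e * e = 0) (h2 : f * f = 0)
    (h3 : e * f + f * e = 1) : 2 * (e * f).rank = Fintype.card ι := by
  have h4 : e * f * e = e := by
    have h5 : e * (e * f + f * e) = e * 1 := by rw [h3]
    rw [mul_add, ← mul_assoc, h1, zero_mul, zero_add, mul_one, ← mul_assoc] at h5
    exact h5
  have h6 : f * e * f = f := by
    have h5 : (e * f + f * e) * f = 1 * f := by rw [h3]
    rw [add_mul, mul_assoc e f f, h2, mul_zero, zero_add, one_mul] at h5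
    exact h5
  -- the two ranks agree
  have h7 : (f * e).rank ≤ (e * f).rank := by
    have h8 : f * e = f * (e * f) * e := by
      rw [mul_assoc f (e * f) e, h4]
    calc (f * e).rank = (f * (e * f) * e).rank := by rw [← h8]
      _ ≤ (f * (e * f)).rank := Matrix.rank_mul_le_left _ _
      _ ≤ (e * f).rank := Matrix.rank_mul_le_right _ _
  have h9 : (e * f).rank ≤ (f * e).rank := by
    have h8 : e * f = e * (f * e) * f := by
      rw [mul_assoc e (f * e) f, h6]
    calc (e * f).rank = (e * (f * e) * f).rank := by rw [← h8]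
      _ ≤ (e * (f * e)).rank := Matrix.rank_mul_le_left _ _
      _ ≤ (f * e).rank := Matrix.rank_mul_le_right _ _
  have h10 : Fintype.card ι ≤ (e * f).rank + (f * e).rank := by
    have h11 := LinearMap.finrank_range_add_finrank_ker (e * f).mulVecLin
    rw [Module.finrank_fintype_fun_eq_card] at h11
    have h12 : LinearMap.ker (e * f).mulVecLin ≤ LinearMap.range (f * e).mulVecLin := by
      intro v hv
      rw [LinearMap.mem_ker, Matrix.mulVecLin_apply] at hv
      refine ⟨v, ?_⟩
      rw [Matrix.mulVecLin_apply]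
      have h13 : (e * f + f * e).mulVec v = v := by rw [h3, Matrix.one_mulVec]
      rwa [Matrix.add_mulVec, hv, zero_add] at h13
    have h14 := Submodule.finrank_mono h12
    have h15 : (e * f).rank = Module.finrank k (LinearMap.range (e * f).mulVecLin) := rfl
    have h16 : (f * e).rank = Module.finrank k (LinearMap.range (f * e).mulVecLin) := rfl
    omega
  have h12 : (e * f).rank + (f * e).rank ≤ Fintype.card ι := by
    apply Matrix.rank_add_rank_le_card_of_mul_eq_zero
    rw [mul_assoc, ← mul_assoc f f e, h2, zero_mul, mul_zero]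
  omega

/-- surjectivity in the form used here -/
theorem GPair.surj {p : T → Matrix ι ι k} {a b : T} (h : GPair p a b) (v : ι → k) :
    ∃ x y : ι → k, v = (p a).mulVec x + (p b).mulVec y := by
  have h1 : LinearMap.range (Matrix.fromCols (p a) (p b)).mulVecLin = ⊤ := by
    apply Submodule.eq_top_of_finrank_eq
    apply le_antisymm (Submodule.finrank_le _)
    rw [Module.finrank_fintype_fun_eq_card]
    exact h
  have h2 : v ∈ LinearMap.range (Matrix.fromCols (p a) (p b)).mulVecLin := by
    rw [h1]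
    exact Submodule.mem_top
  obtain ⟨z, hz⟩ := h2
  refine ⟨z ∘ Sum.inl, z ∘ Sum.inr, ?_⟩
  rw [← hz, Matrix.mulVecLin_apply, Matrix.fromCols_mulVec]

end Pool.Agent.LibFlagPL

end

section

namespace Pool.Agent.LibFlagPL

open Finset

variable {T : Type} [Fintype T] [DecidableEq T]
variable {k : Type} [Field k]
variable {ι : Type} [Fintype ι] [DecidableEq ι]

private theorem K5E_mem {G : SimpleGraph T} {S : Finset T} (H : T → T → Matrix ι ι k)
    {a b : T} (ha : a ∈ S) (hb : b ∈ S) (hab : G.Adj a b) (z : ι → k) :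
    (fun x : T × ι => if x.1 = a ∨ x.1 = b then (H a b).mulVec z x.2 else 0) ∈
      LinearMap.range (PhiH G S H).mulVecLin :=
  ⟨_, PhiH_mulVec_single H ha hb hab z⟩

/-- the spread of a vector to the coordinates `u` and `v` -/
private def K5E_J (u v : T) : (ι → k) →ₗ[k] (T × ι → k) where
  toFun d := fun x => if x.1 = u ∨ x.1 = v then d x.2 else 0
  map_add' c d := by
    funext x
    by_cases h : x.1 = u ∨ x.1 = v <;> simp [h]
  map_smul' r c := by
    funext x
    by_cases h : x.1 = u ∨ x.1 = v <;> simp [h]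

/-- the collapse of the coordinate `v` into the coordinate `u` -/
private def K5E_pi (u v : T) : (T × ι → k) →ₗ[k] (T × ι → k) where
  toFun w := fun x => if x.1 = v then 0 else if x.1 = u then w (u, x.2) + w (v, x.2) else w x
  map_add' c d := by
    funext x
    by_cases h : x.1 = v
    · simp [h]
    · by_cases h' : x.1 = u
      · simp only [if_neg h, if_pos h', Pi.add_apply]
        ring
      · simp [h, h']
  map_smul' r c := by
    funext x
    by_cases h : x.1 = v
    · simp [h]
    · by_cases h' : x.1 = u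
      · simp only [if_neg h, if_pos h', Pi.smul_apply, smul_eq_mul, RingHom.id_apply]
        ring
      · simp [h, h']

private theorem K5E_Jinj {u v : T} : Function.Injective (K5E_J (k := k) (ι := ι) u v) := by
  intro c d h
  funext i
  have h1 := congrFun h (u, i)
  simpa [K5E_J] using h1

private theorem K5E_two [CharP k 2] (x : k) : x + x = 0 := CharTwo.add_self_eq_zero x

/-- the spread of `p u * p a` applied to a vector -/
private theorem K5E_spread [CharP k 2] {G : SimpleGraph T} {S : Finset T} {u v a : T} (hu : u ∈ S)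
    (hv : v ∈ S) (huv : u ≠ v) (ha : a ∈ S) (hua : G.Adj u a) (hva : G.Adj v a)
    {e f : T → Matrix ι ι k} (x : ι → k) :
    K5E_J u v ((pr e f u * pr e f a).mulVec x) ∈
      LinearMap.range (PhiH G S (cut u v (pz e f u v))).mulVecLin := by
  have hau : a ≠ u := fun h => by
    rw [h] at hua
    exact hua.ne rfl
  have hav : a ≠ v := fun h => by
    rw [h] at hva
    exact hva.ne rfl
  have h1 : cut u v (pz e f u v) u a = pr e f u * pr e f a := by
    simp only [cut, pz, pr]
    rw [if_neg (by rintro (h | h); exacts [hav h.2, huv h.1]), if_neg huv, if_neg hav]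
  have h2 : cut u v (pz e f u v) v a = pr e f u * pr e f a := by
    simp only [cut, pz, pr]
    rw [if_neg (by rintro (h | h); exacts [hav h.2, hau h.2]), if_pos trivial, if_neg hav]
  have m1 := K5E_mem (G := G) (cut u v (pz e f u v)) hu ha hua x
  have m2 := K5E_mem (G := G) (cut u v (pz e f u v)) hv ha hva x
  rw [h1] at m1
  rw [h2] at m2
  have m3 := Submodule.add_mem _ m1 m2
  convert m3 using 1
  funext y
  obtain ⟨t, i⟩ := y
  simp only [K5E_J, LinearMap.coe_mk, AddHom.coe_mk, Pi.add_apply]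
  by_cases htu : t = u
  · subst htu
    simp [huv, hau.symm]
  · by_cases htv : t = v
    · subst htv
      simp [htu, hav.symm]
    · by_cases hta : t = a
      · subst hta
        simp only [htu, htv, or_self, if_false, or_true, if_true]
        exact (K5E_two _).symm
      · simp [htu, htv, hta]

theorem limit_rank [CharP k 2] {G : SimpleGraph T} {S : Finset T} {u v a b : T} (hu : u ∈ S)
    (hv : v ∈ S) (huv : G.Adj u v) (ha : a ∈ S) (hb : b ∈ S) (hua : G.Adj u a)
    (hva : G.Adj v a) (hub : G.Adj u b) (hvb : G.Adj v b) {e f : T → Matrix ι ι k}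
    (h : Sys (ctr G u v) (S.erase v) e f) (hab : GPair (pr e f) a b) :
    2 * (PhiM (ctr G u v) (S.erase v) (pr e f)).rank + Fintype.card ι ≤
      2 * (PhiH G S (cut u v (pz e f u v))).rank := by
  have hne : u ≠ v := huv.ne
  have hu1 : u ∈ S.erase v := mem_erase.2 ⟨hne, hu⟩
  -- the rank of `p u`
  have hhalf : 2 * (e u * f u).rank = Fintype.card ι :=
    rank_half (h.ee u hu1) (h.ff u hu1) (h.ef u hu1)
  have hW2 : Module.finrank k
      ((LinearMap.range (e u * f u).mulVecLin).map (K5E_J (k := k) (ι := ι) u v)) =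
      (e u * f u).rank :=
    (LinearEquiv.finrank_eq (Submodule.equivMapOfInjective _ K5E_Jinj _)).symm
  have key := rank_of_maps (LinearMap.range (PhiH G S (cut u v (pz e f u v))).mulVecLin)
    (K5E_pi (k := k) (ι := ι) u v)
    (LinearMap.range (PhiM (ctr G u v) (S.erase v) (pr e f)).mulVecLin)
    ((LinearMap.range (e u * f u).mulVecLin).map (K5E_J (k := k) (ι := ι) u v)) ?_ ?_ ?_
  · rw [hW2] at key
    have e1 : Module.finrank k
        (LinearMap.range (PhiM (ctr G u v) (S.erase v) (pr e f)).mulVecLin) =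
        (PhiM (ctr G u v) (S.erase v) (pr e f)).rank := rfl
    have e2 : Module.finrank k
        (LinearMap.range (PhiH G S (cut u v (pz e f u v))).mulVecLin) =
        (PhiH G S (cut u v (pz e f u v))).rank := rfl
    rw [e1, e2] at key
    omega
  · rw [PhiM_eq_PhiH]
    refine PhiH_range_le ?_
    intro c hc d hd hcd z
    obtain ⟨h1, h2, h3, h4⟩ := hcd
    have hcS : c ∈ S := (mem_erase.1 hc).2
    have hdS : d ∈ S := (mem_erase.1 hd).2
    rcases h4 with h4 | ⟨h4, h5⟩ | ⟨h4, h5⟩
    · refine ⟨_, K5E_mem (G := G) (cut u v (pz e f u v)) hcS hdS h4 z, ?_⟩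
      have hH : cut u v (pz e f u v) c d = pr e f c * pr e f d := by
        simp only [cut, pz, pr]
        rw [if_neg (by rintro (h | h); exacts [h3 h.2, h2 h.1]), if_neg h2, if_neg h3]
      rw [hH]
      funext y
      obtain ⟨t, i⟩ := y
      simp only [K5E_pi, LinearMap.coe_mk, AddHom.coe_mk]
      by_cases htv : t = v
      · subst htv
        simp [h2.symm, h3.symm]
      · by_cases htu : t = u
        · subst htu
          simp [htv, h2.symm, h3.symm]
        · simp [htv, htu]
    · subst h4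
      refine ⟨_, K5E_mem (G := G) (cut c v (pz e f c v)) hv hdS h5 z, ?_⟩
      have hH : cut c v (pz e f c v) v d = pr e f c * pr e f d := by
        simp only [cut, pz, pr]
        rw [if_neg (by rintro (h | h); exacts [h3 h.2, h1 h.2.symm]), if_pos trivial, if_neg h3]
      rw [hH]
      funext y
      obtain ⟨t, i⟩ := y
      simp only [K5E_pi, LinearMap.coe_mk, AddHom.coe_mk]
      by_cases htv : t = v
      · subst htv
        simp [h2.symm, h3.symm]
      · by_cases htu : t = c
        · subst htu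
          simp [h1, h2]
        · simp [htv, htu]
    · subst h4
      refine ⟨_, K5E_mem (G := G) (cut d v (pz e f d v)) hcS hv h5.symm z, ?_⟩
      have hH : cut d v (pz e f d v) c v = pr e f c * pr e f d := by
        simp only [cut, pz, pr]
        rw [if_neg (by rintro (h | h); exacts [h1 h.1, h2 h.1]), if_neg h2, if_pos trivial]
      rw [hH]
      funext y
      obtain ⟨t, i⟩ := y
      simp only [K5E_pi, LinearMap.coe_mk, AddHom.coe_mk]
      by_cases htv : t = v
      · subst htv
        simp [h2.symm, h3.symm]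
      · by_cases htu : t = d
        · subst htu
          simp [h1.symm, h3]
        · simp [htv, htu]
  · rintro _ ⟨_, ⟨z, rfl⟩, rfl⟩
    obtain ⟨x, y, hxy⟩ := hab.surj z
    have hz : (e u * f u).mulVecLin z = (pr e f u * pr e f a).mulVec x +
        (pr e f u * pr e f b).mulVec y := by
      rw [Matrix.mulVecLin_apply, hxy, Matrix.mulVec_add, Matrix.mulVec_mulVec,
        Matrix.mulVec_mulVec]
      rfl
    rw [hz, map_add]
    exact Submodule.add_mem _ (K5E_spread hu hv hne ha hua hva x)
      (K5E_spread hu hv hne hb hub hvb y)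
  · rintro _ ⟨_, ⟨z, rfl⟩, rfl⟩
    rw [LinearMap.mem_ker]
    funext y
    obtain ⟨t, i⟩ := y
    simp only [K5E_pi, K5E_J, LinearMap.coe_mk, AddHom.coe_mk, Pi.zero_apply]
    by_cases htv : t = v
    · simp [htv]
    · by_cases htu : t = u
      · rw [if_neg htv, if_pos htu, if_pos (Or.inl trivial), if_pos (Or.inr trivial)]
        exact K5E_two _
      · simp [htv, htu]

end Pool.Agent.LibFlagPL

end

section

namespace Pool.Agent.LibFlagPL

open Finset Polynomial

variable {T : Type} [Fintype T] [DecidableEq T]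
variable {k : Type} [Field k]
variable {ι : Type} [Fintype ι] [DecidableEq ι]

/-- polynomial version of `hx` -/
noncomputable def hX (e f : T → Matrix ι ι k) (e' f' : Matrix ι ι k) (u v : T) :
    T → Matrix ι ι k[X] := fun t =>
  if t = v then
    (1 + (X + 1 : k[X]) • ((f u * e u * (e' * f')).map C) + (e u * f').map C) *
      ((e' * f').map C)
  else (e t * f t).map C

theorem hX_eval (e f : T → Matrix ι ι k) (e' f' : Matrix ι ι k) (u v : T) (x : k) (t : T) :
    (hX e f e' f' u v t).map (Polynomial.eval x) = hx e f e' f' u v x t := by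
  have key : ∀ M : Matrix ι ι k[X], M.map (Polynomial.eval x) =
      (Polynomial.evalRingHom x).mapMatrix M := fun M => by
    ext i j
    simp
  have hC : ∀ M : Matrix ι ι k, (Polynomial.evalRingHom x).mapMatrix (M.map C) = M := fun M => by
    ext i j
    simp
  have hs : ∀ M : Matrix ι ι k,
      (Polynomial.evalRingHom x).mapMatrix ((X + 1 : k[X]) • M.map C) = (sc ι x + 1) * M :=
    fun M => by
      have h1 : (sc ι x + 1) * M = (x + 1) • M := by
        unfold sc
        rw [add_mul, Matrix.smul_mul, one_mul, add_smul, one_smul]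
      rw [h1]
      ext i j
      simp
  unfold hX hx
  by_cases ht : t = v
  · rw [if_pos ht, if_pos ht, key, map_mul, map_add, map_add, map_one, hC, hC, hs]
    rfl
  · rw [if_neg ht, if_neg ht, key, hC]

theorem PhiH_cut_eval (G : SimpleGraph T) (S : Finset T) (e f : T → Matrix ι ι k)
    (e' f' : Matrix ι ι k) (u v : T) (x : k) :
    (PhiH G S (cut u v (hX e f e' f' u v))).map (Polynomial.eval x) =
      PhiH G S (cut u v (hx e f e' f' u v x)) := by
  have h := PhiH_map G S (cut u v (hX e f e' f' u v)) (Polynomial.evalRingHom x)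
  have h2 : (PhiH G S (cut u v (hX e f e' f' u v))).map (Polynomial.evalRingHom x) =
      (PhiH G S (cut u v (hX e f e' f' u v))).map (Polynomial.eval x) := by
    ext i j
    simp
  rw [← h2, h]
  apply PhiH_congr
  intro a _ b _ _
  have key : ∀ M : Matrix ι ι k[X], M.map (Polynomial.evalRingHom x) =
      M.map (Polynomial.eval x) := fun M => by
    ext i j
    simp
  have hmul : ∀ M M' : Matrix ι ι k[X], (M * M').map (Polynomial.eval x) =
      M.map (Polynomial.eval x) * M'.map (Polynomial.eval x) := fun M M' => by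
    have h3 := (Polynomial.evalRingHom x).mapMatrix.map_mul M M'
    simpa [RingHom.mapMatrix_apply, key] using h3
  unfold cut
  by_cases hc : (a = u ∧ b = v) ∨ (a = v ∧ b = u)
  · rw [if_pos hc, if_pos hc]
    ext i j
    simp
  · rw [if_neg hc, if_neg hc, key, hmul, hX_eval, hX_eval]

theorem Rz.split [CharP k 2] [Infinite k] {G : SimpleGraph T} {S : Finset T} {u v a b : T}
    (hu : u ∈ S) (hv : v ∈ S) (huv : G.Adj u v) (ha : a ∈ S) (hb : b ∈ S) (hua : G.Adj u a)
    (hva : G.Adj v a) (hub : G.Adj u b) (hvb : G.Adj v b)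
    (h : Rz k (ctr G u v) (S.erase v) {(a, b)} {S.erase v}) : Rz k G S ∅ {S} := by
  obtain ⟨ι, _, _, e, f, hne, hsys, hP, hL⟩ := h
  have sys1 := hsys.kron (Fin 2)
  have gp1 := (hP (a, b) rfl).kron (Fin 2)
  have gl1 := (hL (S.erase v) rfl).kron (Fin 2)
  generalize he1 : (fun s => Matrix.kronecker (e s) (1 : Matrix (Fin 2) (Fin 2) k)) = e1
    at sys1 gp1 gl1
  generalize hf1 : (fun s => Matrix.kronecker (f s) (1 : Matrix (Fin 2) (Fin 2) k)) = f1
    at sys1 gp1 gl1
  obtain ⟨e', he'⟩ : ∃ e' : Matrix (ι × Fin 2) (ι × Fin 2) k,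
    e' = Matrix.kronecker (1 : Matrix ι ι k) !![0, 1; 0, 0] := ⟨_, rfl⟩
  obtain ⟨f', hf'⟩ : ∃ f' : Matrix (ι × Fin 2) (ι × Fin 2) k,
    f' = Matrix.kronecker (1 : Matrix ι ι k) !![0, 0; 1, 0] := ⟨_, rfl⟩
  have hk : ∀ (A B : Matrix ι ι k) (A' B' : Matrix (Fin 2) (Fin 2) k),
      Matrix.kronecker A A' * Matrix.kronecker B B' = Matrix.kronecker (A * B) (A' * B') :=
    fun A B A' B' => (Matrix.mul_kronecker_mul A B A' B').symm
  have hkc : ∀ (A : Matrix ι ι k) (A' : Matrix (Fin 2) (Fin 2) k),
      Matrix.kronecker A 1 * Matrix.kronecker 1 A' =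
        Matrix.kronecker 1 A' * Matrix.kronecker A 1 := fun A A' => by
    rw [hk, hk, mul_one, one_mul, mul_one, one_mul]
  have hEE : (!![0, 1; 0, 0] : Matrix (Fin 2) (Fin 2) k) * !![0, 1; 0, 0] = 0 := by
    ext i j
    fin_cases i <;> fin_cases j <;> simp
  have hFF : (!![0, 0; 1, 0] : Matrix (Fin 2) (Fin 2) k) * !![0, 0; 1, 0] = 0 := by
    ext i j
    fin_cases i <;> fin_cases j <;> simp
  have hEF : (!![0, 1; 0, 0] : Matrix (Fin 2) (Fin 2) k) * !![0, 0; 1, 0] +
      !![0, 0; 1, 0] * !![0, 1; 0, 0] = 1 := by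
    ext i j
    fin_cases i <;> fin_cases j <;> simp
  have ext1 : Extra (S.erase v) e1 f1 e' f' := by
    refine ⟨?_, ?_, ?_, ?_, ?_, ?_, ?_⟩
    · rw [he', hk, hEE]
      exact Matrix.kronecker_zero _
    · rw [hf', hk, hFF]
      exact Matrix.kronecker_zero _
    · have h1 := Matrix.kronecker_add (1 : Matrix ι ι k)
        ((!![0, 1; 0, 0] : Matrix (Fin 2) (Fin 2) k) * !![0, 0; 1, 0])
        (!![0, 0; 1, 0] * !![0, 1; 0, 0])
      rw [hEF] at h1
      rw [he', hf', hk, hk, one_mul]
      exact h1.symm.trans Matrix.one_kronecker_one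
    · intro s _
      rw [← he1, he']
      exact hkc _ _
    · intro s _
      rw [← he1, hf']
      exact hkc _ _
    · intro s _
      rw [← hf1, he']
      exact hkc _ _
    · intro s _
      rw [← hf1, hf']
      exact hkc _ _
  have hlim := limit_rank hu hv huv ha hb hua hva hub hvb sys1 gp1
  have hzero := zero_rank hu hv huv sys1 ext1
  have hfin := rank_eval (PhiH G S (cut u v (hX e1 f1 e' f' u v))) 0
  obtain ⟨x, hx⟩ := (hfin.insert 0).exists_notMem
  rw [Set.mem_insert_iff, not_or] at hx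
  obtain ⟨hx0, hx1⟩ := hx
  rw [Set.mem_ofPred_eq, not_lt, PhiH_cut_eval, PhiH_cut_eval] at hx1
  have hsp := split_rank hu hv huv sys1 ext1 hx0
  have hcard := Finset.card_erase_add_one hv
  refine ⟨ι × Fin 2, inferInstance, inferInstance, spE e1 f1 e' f' u v x,
    spF e1 f1 e' f' u v x, inferInstance, split_sys hu hv huv sys1 ext1 hx0, ?_, ?_⟩
  · intro y hy
    exact absurd hy (Set.notMem_empty y)
  · intro S' hS'
    rw [Set.mem_singleton_iff] at hS'
    subst hS'
    unfold GLink at gl1 ⊢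
    rw [← hcard, add_mul, one_mul]
    omega

end Pool.Agent.LibFlagPL

end
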