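import Pool.Agent.LibFlagPL.Graphs

/-!
# LibFlagPL.SurfC: flag 2-spheres, counting
-/

section

namespace Pool.Agent.LibFlagPL

open Finset

set_option linter.unusedSectionVars false

variable {T : Type} [Fintype T] [DecidableEq T]

/-- a nonempty subset of a connected set which is closed under neighbours is everything -/
theorem Conn.closed {G : SimpleGraph T} {S D : Finset T} (h : Conn G S) (hD : D ⊆ S)
    (hn : D.Nonempty) (hc : ∀ x ∈ D, ∀ y ∈ S, G.Adj x y → y ∈ D) : D = S := by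
  obtain ⟨x, hx⟩ := hn
  refine Finset.Subset.antisymm hD fun y hy => ?_
  have h1 := h.2 x (hD hx) y hy
  induction h1 with
  | refl => exact hx
  | tail _ hbc ih => exact hc _ (ih hbc.1) _ hbc.2.1 hbc.2.2

/-- converse of `Conn.closed` -/
theorem Conn.of_closed {G : SimpleGraph T} {S : Finset T} (hn : S.Nonempty)
    (h : ∀ D ⊆ S, D.Nonempty → (∀ x ∈ D, ∀ y ∈ S, G.Adj x y → y ∈ D) → D = S) :
    Conn G S := by
  classical
  refine ⟨hn, fun x hx y hy => ?_⟩
  have h1 := h (S.filter fun y => Relation.ReflTransGen (fun a b => a ∈ S ∧ b ∈ S ∧ G.Adj a b) x y)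
    (filter_subset _ _) ⟨x, mem_filter.2 ⟨hx, Relation.ReflTransGen.refl⟩⟩ ?_
  · rw [← h1] at hy
    exact (mem_filter.1 hy).2
  · intro a ha b hb hab
    rw [mem_filter] at ha ⊢
    exact ⟨hb, ha.2.tail ⟨ha.1, hb, hab⟩⟩

end Pool.Agent.LibFlagPL

end

section

namespace Pool.Agent.LibFlagPL

open Finset

set_option linter.unusedSectionVars false

variable {T : Type} [Fintype T] [DecidableEq T]

theorem tri_iff {G : SimpleGraph T} {S : Finset T} {y t r : T} :
    ({y, t, r} ∈ faces G S 3) ↔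
      (y ∈ S ∧ t ∈ S ∧ r ∈ S ∧ G.Adj y t ∧ G.Adj y r ∧ G.Adj t r) := by
  rw [mem_faces]
  constructor
  · rintro ⟨h1, h2, h3⟩
    have hyt : y ≠ t := by
      rintro rfl
      have : ({y, y, r} : Finset T) = {y, r} := by simp
      rw [this] at h3
      have := Finset.card_le_two (a := y) (b := r)
      omega
    have hyr : y ≠ r := by
      rintro rfl
      have : ({y, t, y} : Finset T) = {t, y} := by
        ext z; simp
      rw [this] at h3
      have := Finset.card_le_two (a := t) (b := y)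
      omega
    have htr : t ≠ r := by
      rintro rfl
      have : ({y, t, t} : Finset T) = {y, t} := by simp
      rw [this] at h3
      have := Finset.card_le_two (a := y) (b := t)
      omega
    have my : y ∈ ({y, t, r} : Finset T) := by simp
    have mt : t ∈ ({y, t, r} : Finset T) := by simp
    have mr : r ∈ ({y, t, r} : Finset T) := by simp
    exact ⟨h1 my, h1 mt, h1 mr, h2 y my t mt hyt, h2 y my r mr hyr, h2 t mt r mr htr⟩
  · rintro ⟨hy, ht, hr, a1, a2, a3⟩
    refine ⟨?_, ?_, ?_⟩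
    · intro z hz
      simp only [Finset.mem_insert, Finset.mem_singleton] at hz
      rcases hz with rfl | rfl | rfl <;> assumption
    · intro p hp q hq hpq
      simp only [Finset.mem_insert, Finset.mem_singleton] at hp hq
      rcases hp with rfl | rfl | rfl <;> rcases hq with rfl | rfl | rfl <;>
        first
          | exact absurd rfl hpq
          | assumption
          | exact a1.symm
          | exact a2.symm
          | exact a3.symm
    · exact Finset.card_eq_three.2 ⟨y, t, r, a1.ne, a2.ne, a3.ne, rfl⟩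

theorem edge_iff {G : SimpleGraph T} {S : Finset T} {y t : T} :
    ({y, t} ∈ faces G S 2) ↔ (y ∈ S ∧ t ∈ S ∧ G.Adj y t) := by
  rw [mem_faces]
  constructor
  · rintro ⟨h1, h2, h3⟩
    have hyt : y ≠ t := by
      rintro rfl
      simp at h3
    have my : y ∈ ({y, t} : Finset T) := by simp
    have mt : t ∈ ({y, t} : Finset T) := by simp
    exact ⟨h1 my, h1 mt, h2 y my t mt hyt⟩
  · rintro ⟨hy, ht, a1⟩
    refine ⟨?_, ?_, ?_⟩
    · intro z hz
      simp only [Finset.mem_insert, Finset.mem_singleton] at hz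
      rcases hz with rfl | rfl <;> assumption
    · intro p hp q hq hpq
      simp only [Finset.mem_insert, Finset.mem_singleton] at hp hq
      rcases hp with rfl | rfl <;> rcases hq with rfl | rfl <;>
        first
          | exact absurd rfl hpq
          | assumption
          | exact a1.symm
    · exact Finset.card_pair a1.ne

theorem exists_edge {G : SimpleGraph T} {S ε : Finset T} (h : ε ∈ faces G S 2) :
    ∃ y ∈ S, ∃ t ∈ S, G.Adj y t ∧ ε = {y, t} := by
  have h3 := (mem_faces.1 h).2.2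
  obtain ⟨y, t, _, rfl⟩ := Finset.card_eq_two.1 h3
  obtain ⟨hy, ht, a⟩ := edge_iff.1 h
  exact ⟨y, hy, t, ht, a, rfl⟩

theorem tri_at_edge {G : SimpleGraph T} {S : Finset T} {y t a b : T} {σ : Finset T}
    (hab : nb G (nb G S y) t = {a, b}) (hσ : σ ∈ faces G S 3) (hy : y ∈ σ) (ht : t ∈ σ)
    (hyt : y ≠ t) : σ = {y, t, a} ∨ σ = {y, t, b} := by
  have h3 := (mem_faces.1 hσ).2.2
  have ht' : t ∈ σ.erase y := Finset.mem_erase.2 ⟨hyt.symm, ht⟩
  have hc : ((σ.erase y).erase t).card = 1 := by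
    rw [Finset.card_erase_of_mem ht', Finset.card_erase_of_mem hy, h3]
  obtain ⟨r, hr⟩ := Finset.card_eq_one.1 hc
  have hσe : σ = {y, t, r} := by
    rw [← Finset.insert_erase hy, ← Finset.insert_erase ht', hr]
  rw [hσe] at hσ
  obtain ⟨_, _, hrS, _, a2, a3⟩ := tri_iff.1 hσ
  have hmem : r ∈ nb G (nb G S y) t := mem_nb.2 ⟨mem_nb.2 ⟨hrS, a2⟩, a3⟩
  rw [hab] at hmem
  simp only [Finset.mem_insert, Finset.mem_singleton] at hmem
  rcases hmem with rfl | rfl
  · exact Or.inl hσe
  · exact Or.inr hσe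

/-- every edge of a flag 2-sphere lies in exactly two triangles -/
theorem filter_edge {G : SimpleGraph T} {S : Finset T} {y t a b : T} (hy : y ∈ S)
    (ht : t ∈ nb G S y) (hne : a ≠ b) (hab : nb G (nb G S y) t = {a, b}) :
    (faces G S 3).filter (fun σ => ({y, t} : Finset T) ⊆ σ) = {{y, t, a}, {y, t, b}} := by
  obtain ⟨htS, hyt⟩ := mem_nb.1 ht
  ext σ
  simp only [Finset.mem_filter, Finset.mem_insert, Finset.mem_singleton]
  constructor
  · rintro ⟨h1, h2⟩
    exact tri_at_edge hab h1 (h2 (by simp)) (h2 (by simp)) hyt.ne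
  · have key : ∀ r, r ∈ nb G (nb G S y) t → ({y, t, r} : Finset T) ∈ faces G S 3 ∧
        ({y, t} : Finset T) ⊆ {y, t, r} := by
      intro r hr
      obtain ⟨h1, h2⟩ := mem_nb.1 hr
      obtain ⟨h3, h4⟩ := mem_nb.1 h1
      refine ⟨tri_iff.2 ⟨hy, htS, h3, hyt, h4, h2⟩, ?_⟩
      intro z hz
      simp only [Finset.mem_insert, Finset.mem_singleton] at hz ⊢
      tauto
    rintro (rfl | rfl)
    · exact key a (by rw [hab]; simp)
    · exact key b (by rw [hab]; simp)

theorem F2.two_tri {G : SimpleGraph T} {S ε : Finset T} (h : F2 G S) (hε : ε ∈ faces G S 2) :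
    ((faces G S 3).filter (fun σ => ε ⊆ σ)).card = 2 := by
  obtain ⟨y, hy, t, ht, hyt, rfl⟩ := exists_edge hε
  have ht' : t ∈ nb G S y := mem_nb.2 ⟨ht, hyt⟩
  obtain ⟨a, b, hne, _, hab⟩ := (h.2.1 y hy).nb_eq ht'
  rw [filter_edge hy ht' hne hab]
  have ha : a ∈ nb G (nb G S y) t := by rw [hab]; simp
  obtain ⟨h1, h2⟩ := mem_nb.1 ha
  obtain ⟨h3, h4⟩ := mem_nb.1 h1
  refine Finset.card_pair ?_
  intro heq
  have : a ∈ ({y, t, b} : Finset T) := by rw [← heq]; simp
  simp only [Finset.mem_insert, Finset.mem_singleton] at this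
  rcases this with rfl | rfl | h5
  · exact h4.ne rfl
  · exact h2.ne rfl
  · exact hne h5

end Pool.Agent.LibFlagPL

end

section

namespace Pool.Agent.LibFlagPL

open Finset

set_option linter.unusedSectionVars false

variable {T : Type} [Fintype T] [DecidableEq T]

/-- one triangle at the edge `{y, t}` in `D` implies that all are -/
private theorem F1b_edge {G : SimpleGraph T} {S : Finset T} (h : F2 G S) {D : Finset (Finset T)}
    (hD : D ⊆ faces G S 3) {y t : T} (hy : y ∈ S) (ht : t ∈ nb G S y)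
    (he : Even ((D.filter (fun σ => ({y, t} : Finset T) ⊆ σ)).card))
    {σ₀ : Finset T} (h0 : σ₀ ∈ D) (h0y : y ∈ σ₀) (h0t : t ∈ σ₀) {σ : Finset T}
    (hσ : σ ∈ faces G S 3) (hσy : y ∈ σ) (hσt : t ∈ σ) : σ ∈ D := by
  obtain ⟨a, b, hab, _, hnb⟩ := Circle.nb_eq (h.2.1 y hy) ht
  have hf := filter_edge hy ht hab hnb
  have hsub : D.filter (fun σ => ({y, t} : Finset T) ⊆ σ) ⊆
      ({{y, t, a}, {y, t, b}} : Finset (Finset T)) := by
    rw [← hf]
    exact Finset.filter_subset_filter _ hD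
  have hmem : σ₀ ∈ D.filter (fun σ => ({y, t} : Finset T) ⊆ σ) := by
    rw [Finset.mem_filter]
    refine ⟨h0, ?_⟩
    intro s hs
    rw [Finset.mem_insert, Finset.mem_singleton] at hs
    rcases hs with rfl | rfl
    · exact h0y
    · exact h0t
  have hpos : 0 < (D.filter (fun σ => ({y, t} : Finset T) ⊆ σ)).card :=
    Finset.card_pos.2 ⟨σ₀, hmem⟩
  have hle : ({{y, t, a}, {y, t, b}} : Finset (Finset T)).card ≤ 2 := Finset.card_le_two
  obtain ⟨m, hm⟩ := he
  have heq : D.filter (fun σ => ({y, t} : Finset T) ⊆ σ) =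
      ({{y, t, a}, {y, t, b}} : Finset (Finset T)) :=
    Finset.eq_of_subset_of_card_le hsub (by omega)
  have h1 : σ ∈ (faces G S 3).filter (fun σ => ({y, t} : Finset T) ⊆ σ) := by
    rw [Finset.mem_filter]
    refine ⟨hσ, ?_⟩
    intro s hs
    rw [Finset.mem_insert, Finset.mem_singleton] at hs
    rcases hs with rfl | rfl
    · exact hσy
    · exact hσt
  rw [hf, ← heq, Finset.mem_filter] at h1
  exact h1.1

/-- a triangle at `y` has another vertex, in the link of `y` -/
private theorem F1b_other {G : SimpleGraph T} {S σ : Finset T} {y : T} (hσ : σ ∈ faces G S 3)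
    (hy : y ∈ σ) : ∃ t ∈ σ, t ∈ nb G S y := by
  rw [mem_faces] at hσ
  obtain ⟨h1, h2, h3⟩ := hσ
  have h4 : 1 < σ.card := by omega
  obtain ⟨t, ht, hty⟩ := Finset.exists_mem_ne h4 y
  exact ⟨t, ht, mem_nb.2 ⟨h1 ht, h2 y hy t ht hty.symm⟩⟩

/-- if at the vertex `y` every edge lies in an even number of triangles of `D`, then all or none
of the triangles at `y` belong to `D` -/
theorem F2.const_at {G : SimpleGraph T} {S : Finset T} (h : F2 G S) {D : Finset (Finset T)}
    (hD : D ⊆ faces G S 3) {y : T} (hy : y ∈ S)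
    (he : ∀ t ∈ nb G S y, Even ((D.filter (fun σ => ({y, t} : Finset T) ⊆ σ)).card))
    {σ τ : Finset T} (hσ : σ ∈ faces G S 3) (hyσ : y ∈ σ) (hτ : τ ∈ faces G S 3)
    (hyτ : y ∈ τ) (hσD : σ ∈ D) : τ ∈ D := by
  classical
  have hC := h.2.1 y hy
  have key : (nb G S y).filter (fun t => ∀ ρ ∈ faces G S 3, y ∈ ρ → t ∈ ρ → ρ ∈ D) = nb G S y := by
    refine Conn.closed hC.2.2 (Finset.filter_subset _ _) ?_ ?_
    · obtain ⟨t, ht, htC⟩ := F1b_other hσ hyσ
      refine ⟨t, Finset.mem_filter.2 ⟨htC, fun ρ hρ h1 h2 => ?_⟩⟩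
      exact F1b_edge h hD hy htC (he t htC) hσD hyσ ht hρ h1 h2
    · intro x hx z hz hxz
      rw [Finset.mem_filter] at hx
      have hx1 := mem_nb.1 hx.1
      have hz1 := mem_nb.1 hz
      have htri : ({y, x, z} : Finset T) ∈ faces G S 3 :=
        tri_iff.2 ⟨hy, hx1.1, hz1.1, hx1.2, hz1.2, hxz⟩
      have hin : ({y, x, z} : Finset T) ∈ D := hx.2 _ htri (by simp) (by simp)
      refine Finset.mem_filter.2 ⟨hz, fun ρ hρ h1 h2 => ?_⟩
      exact F1b_edge h hD hy hz (he z hz) hin (by simp) (by simp) hρ h1 h2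
  obtain ⟨t, ht, htC⟩ := F1b_other hτ hyτ
  rw [← key, Finset.mem_filter] at htC
  exact htC.2 τ hτ hyτ ht

theorem F2.closed_tri {G : SimpleGraph T} {S : Finset T} (h : F2 G S) {D : Finset (Finset T)}
    (hD : D ⊆ faces G S 3)
    (he : ∀ ε ∈ faces G S 2, Even ((D.filter (fun σ => ε ⊆ σ)).card)) :
    D = ∅ ∨ D = faces G S 3 := by
  classical
  rcases Finset.eq_empty_or_nonempty D with h0 | ⟨σ₀, hσ₀⟩
  · exact Or.inl h0
  · right
    have he' : ∀ y ∈ S, ∀ t ∈ nb G S y,
        Even ((D.filter (fun σ => ({y, t} : Finset T) ⊆ σ)).card) := by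
      intro y hy t ht
      have ht1 := mem_nb.1 ht
      exact he _ (edge_iff.2 ⟨hy, ht1.1, ht1.2⟩)
    have key : S.filter (fun y => ∀ ρ ∈ faces G S 3, y ∈ ρ → ρ ∈ D) = S := by
      refine Conn.closed h.1 (Finset.filter_subset _ _) ?_ ?_
      · have h1 := mem_faces.1 (hD hσ₀)
        have h2 : σ₀.Nonempty := by
          rw [← Finset.card_pos]
          omega
        obtain ⟨y, hy⟩ := h2
        refine ⟨y, Finset.mem_filter.2 ⟨h1.1 hy, fun ρ hρ hyρ => ?_⟩⟩
        exact F2.const_at h hD (h1.1 hy) (he' y (h1.1 hy)) (hD hσ₀) hy hρ hyρ hσ₀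
      · intro x hx z hz hxz
        rw [Finset.mem_filter] at hx
        have hzC : z ∈ nb G S x := mem_nb.2 ⟨hz, hxz⟩
        obtain ⟨a, b, _, _, hnb⟩ := Circle.nb_eq (h.2.1 x hx.1) hzC
        have ha : a ∈ nb G (nb G S x) z := by
          rw [hnb]
          simp
        have ha1 := mem_nb.1 ha
        have ha2 := mem_nb.1 ha1.1
        have htri : ({x, z, a} : Finset T) ∈ faces G S 3 :=
          tri_iff.2 ⟨hx.1, hz, ha2.1, hxz, ha2.2, ha1.2⟩
        have hin : ({x, z, a} : Finset T) ∈ D := hx.2 _ htri (by simp)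
        refine Finset.mem_filter.2 ⟨hz, fun ρ hρ hzρ => ?_⟩
        exact F2.const_at h hD hz (he' z hz) htri (by simp) hρ hzρ hin
    refine Finset.Subset.antisymm hD fun σ hσ => ?_
    have h1 := mem_faces.1 hσ
    have h2 : σ.Nonempty := by
      rw [← Finset.card_pos]
      omega
    obtain ⟨y, hy⟩ := h2
    have h3 := h1.1 hy
    rw [← key, Finset.mem_filter] at h3
    exact h3.2 σ hσ hy

end Pool.Agent.LibFlagPL

end

section

namespace Pool.Agent.LibFlagPL

open Finset

set_option linter.unusedSectionVars false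

variable {T : Type} [Fintype T] [DecidableEq T]

/-- boundary from triangles to edges -/
noncomputable def B2 (G : SimpleGraph T) (S : Finset T) :
    ({σ // σ ∈ faces G S 3} → ZMod 2) →ₗ[ZMod 2] ({ε // ε ∈ faces G S 2} → ZMod 2) where
  toFun c := fun ε => ∑ σ : {σ // σ ∈ faces G S 3}, if ε.1 ⊆ σ.1 then c σ else 0
  map_add' c d := by
    funext ε
    simp only [Pi.add_apply, ← Finset.sum_add_distrib]
    refine Finset.sum_congr rfl fun σ _ => ?_
    by_cases h : ε.1 ⊆ σ.1 <;> simp [h]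
  map_smul' r c := by
    funext ε
    simp only [Pi.smul_apply, smul_eq_mul, RingHom.id_apply, Finset.mul_sum]
    refine Finset.sum_congr rfl fun σ _ => ?_
    by_cases h : ε.1 ⊆ σ.1 <;> simp [h]

/-- boundary from edges to vertices -/
noncomputable def B1 (G : SimpleGraph T) (S : Finset T) :
    ({ε // ε ∈ faces G S 2} → ZMod 2) →ₗ[ZMod 2] ({y // y ∈ S} → ZMod 2) where
  toFun c := fun y => ∑ ε : {ε // ε ∈ faces G S 2}, if y.1 ∈ ε.1 then c ε else 0
  map_add' c d := by
    funext y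
    simp only [Pi.add_apply, ← Finset.sum_add_distrib]
    refine Finset.sum_congr rfl fun ε _ => ?_
    by_cases h : y.1 ∈ ε.1 <;> simp [h]
  map_smul' r c := by
    funext y
    simp only [Pi.smul_apply, smul_eq_mul, RingHom.id_apply, Finset.mul_sum]
    refine Finset.sum_congr rfl fun ε _ => ?_
    by_cases h : y.1 ∈ ε.1 <;> simp [h]

private theorem F1c_cnt {G : SimpleGraph T} {S : Finset T} {σ : Finset T} (hσ : σ ∈ faces G S 3) (y : T)
    (r : ZMod 2) : ∑ ε ∈ faces G S 2, (if y ∈ ε ∧ ε ⊆ σ then r else 0) = 0 := by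
  obtain ⟨hσS, hσC, hσc⟩ := mem_faces.mp hσ
  by_cases hy : y ∈ σ
  · have hc2 : (σ.erase y).card = 2 := by
      rw [Finset.card_erase_of_mem hy, hσc]
    obtain ⟨a, b, hab, hE⟩ := Finset.card_eq_two.mp hc2
    have ha : a ∈ σ.erase y := by rw [hE]; simp
    have hb : b ∈ σ.erase y := by rw [hE]; simp
    have hya : y ≠ a := (Finset.mem_erase.mp ha).1.symm
    have hyb : y ≠ b := (Finset.mem_erase.mp hb).1.symm
    have haσ := (Finset.mem_erase.mp ha).2
    have hbσ := (Finset.mem_erase.mp hb).2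
    have hfil : (faces G S 2).filter (fun ε => y ∈ ε ∧ ε ⊆ σ) = {{y, a}, {y, b}} := by
      ext ε
      simp only [Finset.mem_filter, Finset.mem_insert, Finset.mem_singleton]
      constructor
      · rintro ⟨hε, hyε, hεσ⟩
        obtain ⟨_, _, hεc⟩ := mem_faces.mp hε
        have hc1 : (ε.erase y).card = 1 := by
          rw [Finset.card_erase_of_mem hyε, hεc]
        obtain ⟨x, hx⟩ := Finset.card_eq_one.mp hc1
        have hxe : x ∈ ε.erase y := by rw [hx]; simp
        have hεx : ε = {y, x} := by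
          rw [← Finset.insert_erase hyε, hx]
        have hxσ : x ∈ σ.erase y :=
          Finset.mem_erase.mpr ⟨(Finset.mem_erase.mp hxe).1, hεσ (Finset.mem_erase.mp hxe).2⟩
        rw [hE] at hxσ
        simp only [Finset.mem_insert, Finset.mem_singleton] at hxσ
        rcases hxσ with h1 | h1
        · left; rw [hεx, h1]
        · right; rw [hεx, h1]
      · intro h
        have key : ∀ x ∈ σ, y ≠ x → ({y, x} : Finset T) ∈ faces G S 2 ∧ y ∈ ({y, x} : Finset T) ∧
            ({y, x} : Finset T) ⊆ σ := by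
          intro x hx hyx
          have hsub : ({y, x} : Finset T) ⊆ σ := by
            intro z hz
            simp only [Finset.mem_insert, Finset.mem_singleton] at hz
            rcases hz with rfl | rfl
            · exact hy
            · exact hx
          refine ⟨mem_faces.mpr ⟨hsub.trans hσS, fun s hs t ht hst => hσC s (hsub hs) t (hsub ht) hst,
            Finset.card_pair hyx⟩, by simp, hsub⟩
        rcases h with rfl | rfl
        · exact key a haσ hya
        · exact key b hbσ hyb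
    rw [← Finset.sum_filter, hfil]
    have hne : ({y, a} : Finset T) ≠ {y, b} := by
      intro h
      have h1 : a ∈ ({y, b} : Finset T) := by rw [← h]; simp
      simp only [Finset.mem_insert, Finset.mem_singleton] at h1
      rcases h1 with h1 | h1
      · exact hya h1.symm
      · exact hab h1
    rw [Finset.sum_pair hne]
    exact CharTwo.add_self_eq_zero r
  · refine Finset.sum_eq_zero fun ε _ => ?_
    rw [if_neg]
    rintro ⟨h1, h2⟩
    exact hy (h2 h1)

theorem B1_B2 {G : SimpleGraph T} {S : Finset T} (c : {σ // σ ∈ faces G S 3} → ZMod 2) :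
    B1 G S (B2 G S c) = 0 := by
  funext y
  have h1 : B1 G S (B2 G S c) y = ∑ ε : {ε // ε ∈ faces G S 2},
      ∑ σ : {σ // σ ∈ faces G S 3}, if y.1 ∈ ε.1 ∧ ε.1 ⊆ σ.1 then c σ else 0 := by
    show ∑ ε : {ε // ε ∈ faces G S 2}, (if y.1 ∈ ε.1 then
      ∑ σ : {σ // σ ∈ faces G S 3}, (if ε.1 ⊆ σ.1 then c σ else 0) else 0) = _
    refine Finset.sum_congr rfl fun ε _ => ?_
    by_cases h : y.1 ∈ ε.1
    · simp [h]
    · simp [h]
  rw [h1, Finset.sum_comm]
  refine Finset.sum_eq_zero fun σ _ => ?_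
  have h2 := Finset.sum_coe_sort (faces G S 2) (fun ε => if y.1 ∈ ε ∧ ε ⊆ σ.1 then c σ else 0)
  exact h2.trans (F1c_cnt σ.2 y.1 (c σ))

private theorem F1c_single {G : SimpleGraph T} {S : Finset T} {y t : T} (hy : y ∈ S) (ht : t ∈ S)
    (h : G.Adj y t) : (Pi.single ⟨y, hy⟩ 1 + Pi.single ⟨t, ht⟩ 1 : {y // y ∈ S} → ZMod 2) ∈
      LinearMap.range (B1 G S) := by
  have hε : ({y, t} : Finset T) ∈ faces G S 2 := edge_iff.mpr ⟨hy, ht, h⟩
  refine ⟨Pi.single ⟨{y, t}, hε⟩ 1, ?_⟩
  funext z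
  show ∑ ε : {ε // ε ∈ faces G S 2}, (if z.1 ∈ ε.1 then
    (Pi.single ⟨{y, t}, hε⟩ 1 : {ε // ε ∈ faces G S 2} → ZMod 2) ε else 0) = _
  rw [Finset.sum_eq_single (⟨{y, t}, hε⟩ : {ε // ε ∈ faces G S 2})]
  · rw [Pi.single_eq_same, Pi.add_apply]
    have hyt : y ≠ t := h.ne
    by_cases h1 : z = ⟨y, hy⟩
    · subst h1
      have h2 : (⟨y, hy⟩ : {y // y ∈ S}) ≠ ⟨t, ht⟩ := fun h3 => hyt (congrArg Subtype.val h3)
      simp [Pi.single_eq_of_ne h2]
    · by_cases h2 : z = ⟨t, ht⟩
      · subst h2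
        simp [Pi.single_eq_of_ne h1]
      · have h3 : z.1 ∉ ({y, t} : Finset T) := by
          simp only [Finset.mem_insert, Finset.mem_singleton, not_or]
          exact ⟨fun h4 => h1 (Subtype.ext h4), fun h4 => h2 (Subtype.ext h4)⟩
        rw [if_neg h3, Pi.single_eq_of_ne h1, Pi.single_eq_of_ne h2, add_zero]
  · intro ε _ hne
    rw [Pi.single_eq_of_ne hne]
    simp
  · intro h1
    exact absurd (Finset.mem_univ _) h1

private theorem F1c_dbl {α : Type} (v : α → ZMod 2) : v + v = 0 := by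
  funext i
  exact CharTwo.add_self_eq_zero (v i)

private theorem F1c_mid {α : Type} (u v w : α → ZMod 2) : u + v + (v + w) = u + w := by
  have h : u + v + (v + w) = u + w + (v + v) := by abel
  rw [h, F1c_dbl, add_zero]

private theorem F1c_end {α : Type} (u v : α → ZMod 2) : u + v + u = v := by
  have h : u + v + u = v + (u + u) := by abel
  rw [h, F1c_dbl, add_zero]

theorem rank_B1 {G : SimpleGraph T} {S : Finset T} (h : Conn G S) :
    S.card ≤ Module.finrank (ZMod 2) (LinearMap.range (B1 G S)) + 1 := by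
  classical
  obtain ⟨x, hx⟩ := h.1
  have hall : ∀ y (hy : y ∈ S), (Pi.single ⟨x, hx⟩ 1 + Pi.single ⟨y, hy⟩ 1 : {y // y ∈ S} → ZMod 2) ∈
      LinearMap.range (B1 G S) := by
    intro y hy
    have hpath := h.2 x hx y hy
    have hgen : ∀ w, Relation.ReflTransGen (fun a b => a ∈ S ∧ b ∈ S ∧ G.Adj a b) x w → ∀ hw : w ∈ S,
        (Pi.single ⟨x, hx⟩ 1 + Pi.single ⟨w, hw⟩ 1 : {y // y ∈ S} → ZMod 2) ∈
          LinearMap.range (B1 G S) := by
      intro w hxw
      induction hxw with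
      | refl =>
        intro hw
        rw [F1c_dbl]
        exact Submodule.zero_mem _
      | tail _ hbc ih =>
        intro hw
        obtain ⟨hb, hc, hadj⟩ := hbc
        have h1 := Submodule.add_mem _ (ih hb) (F1c_single hb hc hadj)
        rw [F1c_mid] at h1
        exact h1
    exact hgen y hpath hy
  have htop : (⊤ : Submodule (ZMod 2) ({y // y ∈ S} → ZMod 2)) ≤
      LinearMap.range (B1 G S) ⊔ Submodule.span (ZMod 2) {Pi.single ⟨x, hx⟩ 1} := by
    intro v _
    have hx1 : (Pi.single ⟨x, hx⟩ 1 : {y // y ∈ S} → ZMod 2) ∈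
        LinearMap.range (B1 G S) ⊔ Submodule.span (ZMod 2) {Pi.single ⟨x, hx⟩ 1} :=
      Submodule.mem_sup_right (Submodule.mem_span_singleton_self _)
    have hy1 : ∀ y : {y // y ∈ S}, (Pi.single y 1 : {y // y ∈ S} → ZMod 2) ∈
        LinearMap.range (B1 G S) ⊔ Submodule.span (ZMod 2) {Pi.single ⟨x, hx⟩ 1} := by
      intro y
      have h1 := Submodule.add_mem _ (Submodule.mem_sup_left (hall y.1 y.2)) hx1
      rw [F1c_end] at h1
      exact h1
    rw [← Finset.univ_sum_single v]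
    refine Submodule.sum_mem _ fun y _ => ?_
    have h3 : (Pi.single y (v y) : {y // y ∈ S} → ZMod 2) = v y • Pi.single y 1 := by
      rw [← Pi.single_smul, smul_eq_mul, mul_one]
    rw [h3]
    exact Submodule.smul_mem _ _ (hy1 y)
  have h4 : Module.finrank (ZMod 2) (⊤ : Submodule (ZMod 2) ({y // y ∈ S} → ZMod 2)) = S.card := by
    rw [finrank_top, Module.finrank_fintype_fun_eq_card, Fintype.card_coe]
  have h5 := Submodule.finrank_mono htop
  have h6 := Submodule.finrank_add_le_finrank_add_finrank (LinearMap.range (B1 G S))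
    (Submodule.span (ZMod 2) {(Pi.single ⟨x, hx⟩ 1 : {y // y ∈ S} → ZMod 2)})
  have h7 : Module.finrank (ZMod 2)
      (Submodule.span (ZMod 2) {(Pi.single ⟨x, hx⟩ 1 : {y // y ∈ S} → ZMod 2)}) ≤ 1 :=
    (finrank_span_le_card _).trans (by simp)
  omega

end Pool.Agent.LibFlagPL

end

section

namespace Pool.Agent.LibFlagPL

open Finset

set_option linter.unusedSectionVars false

variable {T : Type} [Fintype T] [DecidableEq T]

private theorem F1d_zmod (x : ZMod 2) : x = if x ≠ 0 then 1 else 0 := by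
  revert x
  decide

private theorem F1d_const {G : SimpleGraph T} {S : Finset T} (h : F2 G S)
    {c : {σ // σ ∈ faces G S 3} → ZMod 2} (hc : B2 G S c = 0) : c = 0 ∨ c = 1 := by
  classical
  obtain ⟨D, hD⟩ : ∃ D : Finset (Finset T), ∀ σ, σ ∈ D ↔ ∃ h : σ ∈ faces G S 3, c ⟨σ, h⟩ ≠ 0 := by
    refine ⟨(faces G S 3).filter fun σ => ∃ h : σ ∈ faces G S 3, c ⟨σ, h⟩ ≠ 0, fun σ => ?_⟩
    rw [Finset.mem_filter]
    exact ⟨fun h => h.2, fun h => ⟨h.1, h⟩⟩
  have hsub : D ⊆ faces G S 3 := fun σ hσ => ((hD σ).1 hσ).1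
  have heven : ∀ ε ∈ faces G S 2, Even ((D.filter (fun σ => ε ⊆ σ)).card) := by
    intro ε hε
    have h1 := congrFun hc ⟨ε, hε⟩
    have h2 : (B2 G S c) ⟨ε, hε⟩ = ∑ σ : {σ // σ ∈ faces G S 3}, if ε ⊆ σ.1 then c σ else 0 := rfl
    have h3 : ∀ σ : {σ // σ ∈ faces G S 3}, (if ε ⊆ σ.1 then c σ else 0) =
        (fun σ : Finset T => if σ ∈ D ∧ ε ⊆ σ then (1 : ZMod 2) else 0) σ.1 := by
      intro σ
      by_cases h4 : ε ⊆ σ.1
      · rw [if_pos h4]
        change c σ = if σ.1 ∈ D ∧ ε ⊆ σ.1 then (1 : ZMod 2) else 0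
        rw [F1d_zmod (c σ)]
        by_cases h5 : c σ ≠ 0
        · rw [if_pos h5, if_pos ⟨(hD σ.1).2 ⟨σ.2, h5⟩, h4⟩]
        · rw [if_neg h5, if_neg]
          rintro ⟨h6, _⟩
          obtain ⟨_, h7⟩ := (hD σ.1).1 h6
          exact h5 h7
      · rw [if_neg h4]
        change 0 = if σ.1 ∈ D ∧ ε ⊆ σ.1 then (1 : ZMod 2) else 0
        rw [if_neg fun h5 => h4 h5.2]
    rw [h2, Finset.sum_congr rfl fun σ _ => h3 σ,
      Finset.sum_coe_sort (faces G S 3) (fun σ : Finset T => if σ ∈ D ∧ ε ⊆ σ then (1 : ZMod 2) else 0),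
      Finset.sum_boole] at h1
    have h6 : (faces G S 3).filter (fun σ => σ ∈ D ∧ ε ⊆ σ) = D.filter (fun σ => ε ⊆ σ) := by
      ext σ
      rw [Finset.mem_filter, Finset.mem_filter]
      exact ⟨fun h => h.2, fun h => ⟨hsub h.1, h⟩⟩
    rw [h6] at h1
    exact (ZMod.natCast_eq_zero_iff_even).1 h1
  rcases h.closed_tri hsub heven with h1 | h1
  · left
    funext σ
    by_contra hcon
    have h2 := (hD σ.1).2 ⟨σ.2, hcon⟩
    rw [h1] at h2
    exact Finset.notMem_empty _ h2
  · right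
    funext σ
    have h2 : σ.1 ∈ D := by
      rw [h1]
      exact σ.2
    obtain ⟨_, h3⟩ := (hD σ.1).1 h2
    rw [F1d_zmod (c σ), if_pos h3]
    rfl

theorem F2.ker_B2 {G : SimpleGraph T} {S : Finset T} (h : F2 G S) :
    Module.finrank (ZMod 2) (LinearMap.ker (B2 G S)) ≤ 1 := by
  have h1 : LinearMap.ker (B2 G S) ≤ Submodule.span (ZMod 2) {1} := by
    intro c hc
    rcases F1d_const h (LinearMap.mem_ker.1 hc) with h2 | h2
    · rw [h2]
      exact Submodule.zero_mem _
    · rw [h2]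
      exact Submodule.mem_span_singleton_self 1
  refine (Submodule.finrank_mono h1).trans ?_
  refine (finrank_span_le_card _).trans ?_
  rw [Set.toFinset_singleton, Finset.card_singleton]

end Pool.Agent.LibFlagPL

end

section

namespace Pool.Agent.LibFlagPL

open Finset

set_option linter.unusedSectionVars false

variable {T : Type} [Fintype T] [DecidableEq T]

private theorem f1e_sum {α : Type} [DecidableEq α] (s t : Finset α) (hts : t ⊆ s) (p : α → Prop)
    [DecidablePred p] :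
    (∑ x : {x // x ∈ s}, if p x.1 then (if x.1 ∈ t then (1 : ZMod 2) else 0) else 0) =
      ((t.filter p).card : ZMod 2) := by
  rw [Finset.sum_coe_sort s (fun x => if p x then (if x ∈ t then (1 : ZMod 2) else 0) else 0)]
  have h1 : ∀ x ∈ s, (if p x then (if x ∈ t then (1 : ZMod 2) else 0) else 0) =
      if x ∈ t.filter p then 1 else 0 := by
    intro x _
    by_cases hp : p x <;> by_cases ht : x ∈ t <;> simp [hp, ht]
  rw [Finset.sum_congr rfl h1, Finset.sum_boole]
  congr 2
  ext x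
  simp only [Finset.mem_filter]
  exact ⟨fun h => h.2, fun h => ⟨hts h.1, h⟩⟩

theorem F2.range_eq {G : SimpleGraph T} {S : Finset T} (h : F2 G S) :
    LinearMap.range (B2 G S) = LinearMap.ker (B1 G S) := by
  have hle : LinearMap.range (B2 G S) ≤ LinearMap.ker (B1 G S) := by
    rintro _ ⟨c, rfl⟩
    exact LinearMap.mem_ker.2 (B1_B2 c)
  refine Submodule.eq_of_le_of_finrank_le hle ?_
  have h1 := LinearMap.finrank_range_add_finrank_ker (B2 G S)
  have h2 := LinearMap.finrank_range_add_finrank_ker (B1 G S)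
  rw [Module.finrank_fintype_fun_eq_card, Fintype.card_coe] at h1 h2
  have h3 := h.ker_B2
  have h4 := rank_B1 h.1
  have h5 := h.faces_three
  have h6 := h.faces_two
  omega

/-- a set of edges with even degrees is the boundary of a set of triangles -/
theorem F2.bound {G : SimpleGraph T} {S : Finset T} (h : F2 G S) {z : Finset (Finset T)}
    (hz : z ⊆ faces G S 2) (he : ∀ y ∈ S, Even ((z.filter (fun ε => y ∈ ε)).card)) :
    ∃ D ⊆ faces G S 3, ∀ ε ∈ faces G S 2,
      (Odd ((D.filter (fun σ => ε ⊆ σ)).card) ↔ ε ∈ z) := by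
  classical
  obtain ⟨c, hc⟩ : ∃ c : {ε // ε ∈ faces G S 2} → ZMod 2,
      c = fun ε => if ε.1 ∈ z then 1 else 0 := ⟨_, rfl⟩
  have hker : c ∈ LinearMap.ker (B1 G S) := by
    rw [LinearMap.mem_ker]
    funext y
    have h1 : B1 G S c y = ∑ ε : {ε // ε ∈ faces G S 2},
        if y.1 ∈ ε.1 then (if ε.1 ∈ z then (1 : ZMod 2) else 0) else 0 := by
      rw [hc]
      rfl
    rw [h1, f1e_sum (faces G S 2) z hz (fun ε => y.1 ∈ ε)]
    exact (ZMod.natCast_eq_zero_iff_even).2 (he y.1 y.2)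
  rw [← h.range_eq] at hker
  obtain ⟨d, hd⟩ := hker
  obtain ⟨D, hD⟩ : ∃ D : Finset (Finset T),
      D = (faces G S 3).filter (fun σ => ∃ h : σ ∈ faces G S 3, d ⟨σ, h⟩ = 1) := ⟨_, rfl⟩
  have hDs : D ⊆ faces G S 3 := by
    rw [hD]
    exact Finset.filter_subset _ _
  have hdD : ∀ σ : {σ // σ ∈ faces G S 3}, d σ = if σ.1 ∈ D then 1 else 0 := by
    intro σ
    by_cases h1 : d σ = 1
    · rw [if_pos (by rw [hD, Finset.mem_filter]; exact ⟨σ.2, σ.2, h1⟩), h1]
    · rw [if_neg (by
        rw [hD, Finset.mem_filter]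
        rintro ⟨_, _, h2⟩
        exact h1 h2)]
      have h3 : ∀ x : ZMod 2, x ≠ 1 → x = 0 := by decide
      exact h3 _ h1
  refine ⟨D, hDs, fun ε hε => ?_⟩
  have h1 : B2 G S d ⟨ε, hε⟩ = ∑ σ : {σ // σ ∈ faces G S 3},
      if ε ⊆ σ.1 then (if σ.1 ∈ D then (1 : ZMod 2) else 0) else 0 := by
    have h2 : B2 G S d ⟨ε, hε⟩ = ∑ σ : {σ // σ ∈ faces G S 3},
      if ε ⊆ σ.1 then d σ else 0 := rfl
    rw [h2]
    refine Finset.sum_congr rfl fun σ _ => ?_
    rw [hdD σ]
  rw [hd, f1e_sum (faces G S 3) D hDs (fun σ => ε ⊆ σ), hc] at h1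
  rw [← ZMod.natCast_eq_one_iff_odd, ← h1]
  by_cases hz2 : ε ∈ z
  · simp [hz2]
  · simp [hz2]

end Pool.Agent.LibFlagPL

end
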