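import Pool.Agent.LibFlagPL.SurfB
import Pool.Agent.LibFlagPL.SurfC

/-!
# LibFlagPL.SurfD: good edges in flag 2-spheres
-/

section

namespace Pool.Agent.LibFlagPL

open Finset

set_option linter.unusedSectionVars false

variable {T : Type} [Fintype T] [DecidableEq T]

private theorem F2a_mem_nb {G : SimpleGraph T} {S : Finset T} {y t : T} :
    t ∈ nb G S y ↔ t ∈ S ∧ G.Adj y t := by
  classical
  unfold nb
  exact Finset.mem_filter

private theorem F2a_pair_ne {p q r s : T} (h1 : p ≠ r) (h2 : p ≠ s) :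
    ({p, q} : Finset T) ≠ {r, s} := by
  intro h
  have h3 : p ∈ ({r, s} : Finset T) := h ▸ Finset.mem_insert_self p {q}
  rcases Finset.mem_insert.1 h3 with h4 | h4
  · exact h1 h4
  · exact h2 (Finset.mem_singleton.1 h4)

private theorem F2a_even {v w x w' : T} (h1 : v ≠ w) (h2 : v ≠ x) (h3 : v ≠ w') (h4 : w ≠ x)
    (h5 : w ≠ w') (h6 : x ≠ w') (r : T) :
    Even ((({{v, w}, {w, x}, {x, w'}, {w', v}} : Finset (Finset T)).filter (fun ε => r ∈ ε)).card) := by
  have e1 : ({v, w} : Finset T) ≠ {w', v} := by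
    rw [Finset.pair_comm v w]
    exact F2a_pair_ne h5 h1.symm
  have e2 : ({v, w} : Finset T) ≠ {w, x} := F2a_pair_ne h1 h2
  have e3 : ({w, x} : Finset T) ≠ {x, w'} := F2a_pair_ne h4 h5
  have e4 : ({x, w'} : Finset T) ≠ {w', v} := F2a_pair_ne h6 h2.symm
  by_cases hv : r = v
  · subst hv
    simp [Finset.filter_insert, Finset.filter_singleton, h1, h2, h3, Finset.card_pair e1]
  by_cases hw : r = w
  · subst hw
    simp [Finset.filter_insert, Finset.filter_singleton, h1.symm, h4, h5, Finset.card_pair e2]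
  by_cases hx : r = x
  · subst hx
    simp [Finset.filter_insert, Finset.filter_singleton, h2.symm, h4.symm, h6, Finset.card_pair e3]
  by_cases hw' : r = w'
  · subst hw'
    simp [Finset.filter_insert, Finset.filter_singleton, h3.symm, h5.symm, h6.symm, Finset.card_pair e4]
  simp [Finset.filter_insert, Finset.filter_singleton, hv, hw, hx, hw']

/-- `w, a, b, w'` are vertices of the circle `N(v)`, `a` and `b` are the two neighbours of `w` in it;
`x` is a common neighbour of `w, w'` outside `N[v]`.  Then no other vertex outside `N[v]` is a common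
neighbour of `a` and `b`. -/
theorem F2.noncross {G : SimpleGraph T} {S : Finset T} (h : F2 G S) {v w w' a b x y : T}
    (hv : v ∈ S) (hw : w ∈ nb G S v) (hw' : w' ∈ nb G S v) (ha : a ∈ nb G S v)
    (hb : b ∈ nb G S v) (hwa : G.Adj w a) (hwb : G.Adj w b) (hab : a ≠ b) (hw1 : w' ≠ w)
    (hw2 : w' ≠ a) (hw3 : w' ≠ b) (hx : x ∈ S) (hxv : x ≠ v) (hvx : ¬ G.Adj v x)
    (hxw : G.Adj x w) (hxw' : G.Adj x w') (hy : y ∈ S) (hyv : y ≠ v) (hvy : ¬ G.Adj v y)
    (hya : G.Adj y a) (hyb : G.Adj y b) : y = x := by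
  classical
  by_contra hyx
  obtain ⟨hwS, hvw⟩ := F2a_mem_nb.1 hw
  obtain ⟨hw'S, hvw'⟩ := F2a_mem_nb.1 hw'
  obtain ⟨haS, hva⟩ := F2a_mem_nb.1 ha
  obtain ⟨hbS, hvb⟩ := F2a_mem_nb.1 hb
  have n1 : v ≠ w := hvw.ne
  have n2 : v ≠ x := hxv.symm
  have n3 : v ≠ w' := hvw'.ne
  have n4 : w ≠ x := fun h => hvx (h ▸ hvw)
  have n6 : x ≠ w' := fun h => hvx (h ▸ hvw')
  obtain ⟨z, hz⟩ : ∃ z : Finset (Finset T), z = {{v, w}, {w, x}, {x, w'}, {w', v}} := ⟨_, rfl⟩
  have hzS : z ⊆ faces G S 2 := by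
    intro ε hε
    rw [hz] at hε
    simp only [Finset.mem_insert, Finset.mem_singleton] at hε
    rcases hε with rfl | rfl | rfl | rfl
    · exact edge_iff.2 ⟨hv, hwS, hvw⟩
    · exact edge_iff.2 ⟨hwS, hx, hxw.symm⟩
    · exact edge_iff.2 ⟨hx, hw'S, hxw'⟩
    · exact edge_iff.2 ⟨hw'S, hv, hvw'.symm⟩
  have hzV : ∀ ε ∈ z, ∀ r ∈ ε, r = v ∨ r = w ∨ r = x ∨ r = w' := by
    intro ε hε r hr
    rw [hz] at hε
    simp only [Finset.mem_insert, Finset.mem_singleton] at hε
    rcases hε with rfl | rfl | rfl | rfl <;>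
      (simp only [Finset.mem_insert, Finset.mem_singleton] at hr; tauto)
  obtain ⟨D, hD, hDz⟩ := h.bound hzS (fun r _ => by
    rw [hz]
    exact F2a_even n1 n2 n3 n4 hw1.symm n6 r)
  -- all or none of the triangles at `r` are in `D`
  have hconst : ∀ r ∈ S, r ≠ v → r ≠ w → r ≠ x → r ≠ w' → ∀ σ ∈ faces G S 3, r ∈ σ →
      ∀ τ ∈ faces G S 3, r ∈ τ → σ ∈ D → τ ∈ D := by
    intro r hr r1 r2 r3 r4 σ hσ hrσ τ hτ hrτ hσD
    refine h.const_at hD hr (fun t ht => ?_) hσ hrσ hτ hrτ hσD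
    obtain ⟨htS, hrt⟩ := F2a_mem_nb.1 ht
    rw [← Nat.not_odd_iff_even, hDz _ (edge_iff.2 ⟨hr, htS, hrt⟩)]
    intro h1
    rcases hzV _ h1 r (Finset.mem_insert_self _ _) with h2 | h2 | h2 | h2
    · exact r1 h2
    · exact r2 h2
    · exact r3 h2
    · exact r4 h2
  have hab' : nb G (nb G S v) w = {a, b} := by
    have hc := (h.2.1 v hv).2.1 w hw
    symm
    refine Finset.eq_of_subset_of_card_le ?_ (by rw [hc, Finset.card_pair hab])
    intro r hr
    rcases Finset.mem_insert.1 hr with rfl | hr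
    · exact F2a_mem_nb.2 ⟨ha, hwa⟩
    · rw [Finset.mem_singleton.1 hr]
      exact F2a_mem_nb.2 ⟨hb, hwb⟩
  have hfil := filter_edge hv hw hab hab'
  have hσa : ({v, w, a} : Finset T) ∈ faces G S 3 := tri_iff.2 ⟨hv, hwS, haS, hvw, hva, hwa⟩
  have hσb : ({v, w, b} : Finset T) ∈ faces G S 3 := tri_iff.2 ⟨hv, hwS, hbS, hvw, hvb, hwb⟩
  -- edges lie in triangles
  have htri : ∀ s ∈ S, ∀ t ∈ S, G.Adj s t → ∃ σ ∈ faces G S 3, s ∈ σ ∧ t ∈ σ := by
    intro s hs t ht hst
    have h1 := h.two_tri (edge_iff.2 ⟨hs, ht, hst⟩)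
    have h2 : ((faces G S 3).filter (fun σ => ({s, t} : Finset T) ⊆ σ)).Nonempty := by
      rw [← Finset.card_pos, h1]
      norm_num
    obtain ⟨σ, hσ⟩ := h2
    rw [Finset.mem_filter] at hσ
    exact ⟨σ, hσ.1, hσ.2 (Finset.mem_insert_self _ _),
      hσ.2 (Finset.mem_insert_of_mem (Finset.mem_singleton_self _))⟩
  obtain ⟨σ, hσ, hyσ, haσ⟩ := htri y hy a haS hya
  obtain ⟨τ, hτ, hyτ, hbτ⟩ := htri y hy b hbS hyb
  have a1 : a ≠ v := hva.ne'
  have a2 : a ≠ w := hwa.ne'
  have a3 : a ≠ x := fun h => hvx (h ▸ hva)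
  have b1 : b ≠ v := hvb.ne'
  have b2 : b ≠ w := hwb.ne'
  have b3 : b ≠ x := fun h => hvx (h ▸ hvb)
  have y2 : y ≠ w := fun h => hvy (h ▸ hvw)
  have y4 : y ≠ w' := fun h => hvy (h ▸ hvw')
  have ma : a ∈ ({v, w, a} : Finset T) := by simp
  have mb : b ∈ ({v, w, b} : Finset T) := by simp
  have hiff : ({v, w, a} : Finset T) ∈ D ↔ ({v, w, b} : Finset T) ∈ D := by
    constructor
    · intro h1
      have h2 := hconst a haS a1 a2 a3 hw2.symm _ hσa ma σ hσ haσ h1
      have h3 := hconst y hy hyv y2 hyx y4 σ hσ hyσ τ hτ hyτ h2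
      exact hconst b hbS b1 b2 b3 hw3.symm τ hτ hbτ _ hσb mb h3
    · intro h1
      have h2 := hconst b hbS b1 b2 b3 hw3.symm _ hσb mb τ hτ hbτ h1
      have h3 := hconst y hy hyv y2 hyx y4 τ hτ hyτ σ hσ hyσ h2
      exact hconst a haS a1 a2 a3 hw2.symm σ hσ haσ _ hσa ma h3
  have hodd : Odd ((D.filter (fun σ => ({v, w} : Finset T) ⊆ σ)).card) := by
    rw [hDz _ (edge_iff.2 ⟨hv, hwS, hvw⟩), hz]
    exact Finset.mem_insert_self _ _
  have hDf : D.filter (fun σ => ({v, w} : Finset T) ⊆ σ) =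
      ({{v, w, a}, {v, w, b}} : Finset (Finset T)).filter (fun σ => σ ∈ D) := by
    rw [← hfil]
    ext ρ
    simp only [Finset.mem_filter]
    constructor
    · rintro ⟨h1, h2⟩
      exact ⟨⟨hD h1, h2⟩, h1⟩
    · rintro ⟨⟨_, h2⟩, h1⟩
      exact ⟨h1, h2⟩
  have hne : ({v, w, a} : Finset T) ≠ {v, w, b} := by
    intro h1
    have h2 : a ∈ ({v, w, b} : Finset T) := h1 ▸ ma
    simp only [Finset.mem_insert, Finset.mem_singleton] at h2
    rcases h2 with h2 | h2 | h2
    · exact a1 h2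
    · exact a2 h2
    · exact hab h2
  rw [hDf, Finset.filter_insert, Finset.filter_singleton] at hodd
  by_cases h1 : ({v, w, a} : Finset T) ∈ D
  · have h2 := hiff.1 h1
    rw [if_pos h1, if_pos h2, Finset.card_pair hne] at hodd
    exact absurd hodd (by decide)
  · have h2 : ({v, w, b} : Finset T) ∉ D := fun h3 => h1 (hiff.2 h3)
    rw [if_neg h1, if_neg h2, Finset.card_empty] at hodd
    exact absurd hodd (by decide)

end Pool.Agent.LibFlagPL

end

section

namespace Pool.Agent.LibFlagPL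

open Finset

set_option linter.unusedSectionVars false

variable {T : Type} [Fintype T] [DecidableEq T]

private theorem F2b_two {G : SimpleGraph T} {C : Finset T} (h : Circle G C) {t : T} (ht : t ∈ C) :
    ∃ x y : T, x ≠ y ∧ x ∈ C ∧ y ∈ C ∧ G.Adj t x ∧ G.Adj t y ∧ ¬ G.Adj x y ∧
      ∀ z ∈ C, G.Adj t z → z = x ∨ z = y := by
  obtain ⟨x, y, hxy, hna, he⟩ := h.nb_eq ht
  have hx : x ∈ nb G C t := by
    rw [he]
    exact mem_insert_self _ _
  have hy : y ∈ nb G C t := by
    rw [he]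
    exact mem_insert_of_mem (mem_singleton_self _)
  rw [mem_nb] at hx hy
  refine ⟨x, y, hxy, hx.1, hy.1, hx.2, hy.2, hna, fun z hz hz2 => ?_⟩
  have hz3 : z ∈ nb G C t := mem_nb.2 ⟨hz, hz2⟩
  rw [he, mem_insert, mem_singleton] at hz3
  exact hz3

private theorem F2b_other {G : SimpleGraph T} {C : Finset T} (h : Circle G C) {t a : T}
    (ht : t ∈ C) (ha : a ∈ C) (hta : G.Adj t a) :
    ∃ y : T, y ≠ a ∧ y ∈ C ∧ G.Adj t y ∧ ¬ G.Adj a y ∧
      ∀ z ∈ C, G.Adj t z → z = a ∨ z = y := by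
  obtain ⟨x, y, hxy, hx, hy, htx, hty, hna, hz⟩ := F2b_two h ht
  rcases hz a ha hta with rfl | rfl
  · exact ⟨y, hxy.symm, hy, hty, hna, hz⟩
  · exact ⟨x, hxy, hx, htx, fun hh => hna hh.symm, fun z hz1 hz2 => (hz z hz1 hz2).symm⟩

/-- for every vertex `a` of a circle with four vertices -/
theorem Circle.four_b {G : SimpleGraph T} {C : Finset T} (h : Circle G C) (hc : C.card = 4)
    {a : T} (ha : a ∈ C) :
    ∃ b c d : T, C = {a, b, c, d} ∧ a ≠ b ∧ a ≠ c ∧ a ≠ d ∧ b ≠ c ∧ b ≠ d ∧ c ≠ d ∧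
      G.Adj a b ∧ G.Adj b c ∧ G.Adj c d ∧ G.Adj d a ∧ ¬ G.Adj a c ∧ ¬ G.Adj b d := by
  obtain ⟨b, d, hbd, hb, hd, hab, had, hnbd, hA⟩ := F2b_two h ha
  have hlt : ({a, b, d} : Finset T).card < C.card := by
    rw [hc]
    exact lt_of_le_of_lt Finset.card_le_three (by norm_num)
  obtain ⟨c, hcC, hcn⟩ := Finset.exists_mem_notMem_of_card_lt_card hlt
  simp only [mem_insert, mem_singleton, not_or] at hcn
  obtain ⟨hca0, hcb0, hcd0⟩ := hcn
  have hca : c ≠ a := hca0
  have hcb : c ≠ b := hcb0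
  have hcd : c ≠ d := hcd0
  have hab' : a ≠ b := hab.ne
  have had' : a ≠ d := had.ne
  have hsub : ({a, b, c, d} : Finset T) ⊆ C := by
    intro z hz
    simp only [mem_insert, mem_singleton] at hz
    rcases hz with rfl | rfl | rfl | rfl <;> assumption
  have hcard : ({a, b, c, d} : Finset T).card = 4 := by
    rw [card_insert_of_notMem, card_insert_of_notMem, card_insert_of_notMem, card_singleton]
    · simpa using hcd
    · simp only [mem_insert, mem_singleton, not_or]
      exact ⟨hcb.symm, hbd⟩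
    · simp only [mem_insert, mem_singleton, not_or]
      exact ⟨hab', hca.symm, had'⟩
  have hCeq : C = {a, b, c, d} :=
    (Finset.eq_of_subset_of_card_le hsub (by rw [hc, hcard])).symm
  have hnac : ¬ G.Adj a c := fun hh => by
    rcases hA c hcC hh with h1 | h1
    · exact hcb h1
    · exact hcd h1
  have key : ∀ z ∈ C, G.Adj c z → z = b ∨ z = d := by
    intro z hz hcz
    rw [hCeq] at hz
    simp only [mem_insert, mem_singleton] at hz
    rcases hz with rfl | rfl | rfl | rfl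
    · exact absurd hcz.symm hnac
    · exact Or.inl rfl
    · exact absurd hcz (SimpleGraph.irrefl G)
    · exact Or.inr rfl
  obtain ⟨x, y, hxy, hx, hy, hcx, hcy, _, _⟩ := F2b_two h hcC
  have hcb2 : G.Adj c b ∧ G.Adj c d := by
    rcases key x hx hcx with rfl | rfl <;> rcases key y hy hcy with rfl | rfl
    · exact absurd rfl hxy
    · exact ⟨hcx, hcy⟩
    · exact ⟨hcy, hcx⟩
    · exact absurd rfl hxy
  exact ⟨b, c, d, hCeq, hab', hca.symm, had', hcb.symm, hbd, hcd, hab, hcb2.1.symm, hcb2.2,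
    had.symm, hnac, hnbd⟩

/-- for every vertex `a` of a circle with five vertices -/
theorem Circle.five_b {G : SimpleGraph T} {C : Finset T} (h : Circle G C) (hc : C.card = 5)
    {a : T} (ha : a ∈ C) :
    ∃ b c d e : T, C = {a, b, c, d, e} ∧ a ≠ b ∧ a ≠ c ∧ a ≠ d ∧ a ≠ e ∧ b ≠ c ∧ b ≠ d ∧
      b ≠ e ∧ c ≠ d ∧ c ≠ e ∧ d ≠ e ∧
      G.Adj a b ∧ G.Adj b c ∧ G.Adj c d ∧ G.Adj d e ∧ G.Adj e a ∧
      ¬ G.Adj a c ∧ ¬ G.Adj a d ∧ ¬ G.Adj b d ∧ ¬ G.Adj b e ∧ ¬ G.Adj c e := by
  obtain ⟨b, e, hbe, hb, he, hab, hae, hnbe, hA⟩ := F2b_two h ha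
  obtain ⟨c, hca, hcC, hbc, hnac, hB⟩ := F2b_other h hb ha hab.symm
  obtain ⟨d, hda, hdC, hed, hnad, hE⟩ := F2b_other h he ha hae.symm
  have hab' : a ≠ b := hab.ne
  have hae' : a ≠ e := hae.ne
  have hbc' : b ≠ c := hbc.ne
  have hed' : e ≠ d := hed.ne
  have hbd' : b ≠ d := fun hh => by
    subst hh
    exact hnbe hed.symm
  have hce' : c ≠ e := fun hh => by
    subst hh
    exact hnbe hbc
  have hcd' : c ≠ d := by
    intro hh
    subst hh
    have hlt : ({a, b, c, e} : Finset T).card < C.card := by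
      rw [hc]
      exact lt_of_le_of_lt Finset.card_le_four (by norm_num)
    obtain ⟨z, hzC, hzn⟩ := Finset.exists_mem_notMem_of_card_lt_card hlt
    simp only [mem_insert, mem_singleton, not_or] at hzn
    obtain ⟨hza, hzb, hzc, hze⟩ := hzn
    have hsub : ({a, b, c, e, z} : Finset T) ⊆ C := by
      intro w hw
      simp only [mem_insert, mem_singleton] at hw
      rcases hw with rfl | rfl | rfl | rfl | rfl <;> assumption
    have hcard : ({a, b, c, e, z} : Finset T).card = 5 := by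
      rw [card_insert_of_notMem, card_insert_of_notMem, card_insert_of_notMem,
        card_insert_of_notMem, card_singleton]
      · simpa using fun hh : e = z => hze hh.symm
      · simp only [mem_insert, mem_singleton, not_or]
        exact ⟨hce', fun hh => hzc hh.symm⟩
      · simp only [mem_insert, mem_singleton, not_or]
        exact ⟨hbc', hbe, fun hh => hzb hh.symm⟩
      · simp only [mem_insert, mem_singleton, not_or]
        exact ⟨hab', hca.symm, hae', fun hh => hza hh.symm⟩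
    have hCeq : C = {a, b, c, e, z} :=
      (Finset.eq_of_subset_of_card_le hsub (by rw [hc, hcard])).symm
    have key : ∀ w ∈ C, G.Adj z w → w = c := by
      intro w hw hzw
      rw [hCeq] at hw
      simp only [mem_insert, mem_singleton] at hw
      rcases hw with rfl | rfl | rfl | rfl | rfl
      · rcases hA z hzC hzw.symm with h1 | h1
        · exact absurd h1 hzb
        · exact absurd h1 hze
      · rcases hB z hzC hzw.symm with h1 | h1
        · exact absurd h1 hza
        · exact absurd h1 hzc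
      · rfl
      · rcases hE z hzC hzw.symm with h1 | h1
        · exact absurd h1 hza
        · exact absurd h1 hzc
      · exact absurd hzw (SimpleGraph.irrefl G)
    obtain ⟨x, y, hxy, hx, hy, hzx, hzy, _, _⟩ := F2b_two h hzC
    exact hxy ((key x hx hzx).trans (key y hy hzy).symm)
  have hsub : ({a, b, c, d, e} : Finset T) ⊆ C := by
    intro w hw
    simp only [mem_insert, mem_singleton] at hw
    rcases hw with rfl | rfl | rfl | rfl | rfl <;> assumption
  have hcard : ({a, b, c, d, e} : Finset T).card = 5 := by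
    rw [card_insert_of_notMem, card_insert_of_notMem, card_insert_of_notMem,
      card_insert_of_notMem, card_singleton]
    · simpa using hed'.symm
    · simp only [mem_insert, mem_singleton, not_or]
      exact ⟨hcd', hce'⟩
    · simp only [mem_insert, mem_singleton, not_or]
      exact ⟨hbc', hbd', hbe⟩
    · simp only [mem_insert, mem_singleton, not_or]
      exact ⟨hab', hca.symm, hda.symm, hae'⟩
  have hCeq : C = {a, b, c, d, e} :=
    (Finset.eq_of_subset_of_card_le hsub (by rw [hc, hcard])).symm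
  have hnbd : ¬ G.Adj b d := fun hh => by
    rcases hB d hdC hh with h1 | h1
    · exact hda h1
    · exact hcd' h1.symm
  have hnce : ¬ G.Adj c e := fun hh => by
    rcases hE c hcC hh.symm with h1 | h1
    · exact hca h1
    · exact hcd' h1
  obtain ⟨y, hyb, hyC, hcy, _, _⟩ := F2b_other h hcC hb hbc.symm
  have hyd : y = d := by
    rw [hCeq] at hyC
    simp only [mem_insert, mem_singleton] at hyC
    rcases hyC with rfl | rfl | rfl | rfl | rfl
    · exact absurd hcy.symm hnac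
    · exact absurd rfl hyb
    · exact absurd hcy (SimpleGraph.irrefl G)
    · rfl
    · exact absurd hcy hnce
  subst hyd
  exact ⟨b, c, y, e, hCeq, hab', hca.symm, hda.symm, hae', hbc', hbd', hbe, hcd', hce',
    hed'.symm, hab, hbc, hcy, hed.symm, hae.symm, hnac, hnad, hnbd, hnbe, hnce⟩

end Pool.Agent.LibFlagPL

end

section

namespace Pool.Agent.LibFlagPL

open Finset

set_option linter.unusedSectionVars false

variable {T : Type} [Fintype T] [DecidableEq T]

private theorem mnb {G : SimpleGraph T} {S : Finset T} {y t : T} :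
    t ∈ nb G S y ↔ t ∈ S ∧ G.Adj y t := by
  classical
  unfold nb
  simp

theorem bad {G : SimpleGraph T} {S : Finset T} {v w : T} (hv : v ∈ S) (hw : w ∈ nb G S v)
    (h : ¬ GE G S v w) :
    ∃ p ∈ S, ∃ t ∈ nb G S v, p ≠ v ∧ ¬ G.Adj v p ∧ G.Adj p w ∧ G.Adj p t ∧ t ≠ w ∧
      ¬ G.Adj w t := by
  have hw1 : w ∈ S := (mnb.mp hw).1
  have hw2 : G.Adj v w := (mnb.mp hw).2
  unfold GE at h
  push Not at h
  obtain ⟨p, hp, t, ht, hpv, htw, h1, h2, h3, h4, h5⟩ := h hv hw1 hw2
  exact ⟨p, hp, t, mnb.mpr ⟨ht, h3.symm⟩, hpv, h4, h1.symm, h2, htw, h5⟩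

private theorem aux5 {G : SimpleGraph T} {S : Finset T} (h : F2 G S) {v : T} (hv : v ∈ S)
    (hb : ∀ w ∈ nb G S v, ¬ GE G S v w) {a b c d e x : T} (hC : nb G S v = {a, b, c, d, e})
    (hab : a ≠ b) (hac : a ≠ c) (had : a ≠ d) (hae : a ≠ e) (hbc : b ≠ c) (hbd : b ≠ d)
    (hbe : b ≠ e) (hcd : c ≠ d) (hce : c ≠ e) (hde : d ≠ e)
    (jab : G.Adj a b) (jbc : G.Adj b c) (jcd : G.Adj c d) (jde : G.Adj d e) (jea : G.Adj e a)
    (hx : x ∈ S) (hxv : x ≠ v) (hvx : ¬ G.Adj v x) (hxa : G.Adj x a) (hxc : G.Adj x c) :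
    G.Adj x b ∧ G.Adj x d ∧ G.Adj x e := by
  have ma : a ∈ nb G S v := by rw [hC]; simp
  have mb : b ∈ nb G S v := by rw [hC]; simp
  have mc : c ∈ nb G S v := by rw [hC]; simp
  have md : d ∈ nb G S v := by rw [hC]; simp
  have me : e ∈ nb G S v := by rw [hC]; simp
  have hbx : G.Adj x b ∧ (G.Adj x d ∨ G.Adj x e) := by
    obtain ⟨p, hp, t, ht, hpv, hvp, hpb, hpt, htb, hbt⟩ := bad hv mb (hb b mb)
    rw [hC] at ht
    simp only [Finset.mem_insert, Finset.mem_singleton] at ht
    rcases ht with rfl | rfl | rfl | rfl | rfl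
    · exact absurd jab.symm hbt
    · exact absurd rfl htb
    · exact absurd jbc hbt
    · have he := F2.noncross h hv (w := c) (w' := a) (a := b) (b := t) mc ma mb md jbc.symm jcd
        hbd hac hab had hx hxv hvx hxc hxa hp hpv hvp hpb hpt
      subst he
      exact ⟨hpb, Or.inl hpt⟩
    · have he := F2.noncross h hv (w := a) (w' := c) (a := b) (b := t) ma mc mb me jab jea.symm
        hbe hac.symm hbc.symm hce hx hxv hvx hxa hxc hp hpv hvp hpb hpt
      subst he
      exact ⟨hpb, Or.inr hpt⟩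
  obtain ⟨hxb, hor⟩ := hbx
  rcases hor with hxd | hxe
  · refine ⟨hxb, hxd, ?_⟩
    obtain ⟨p, hp, t, ht, hpv, hvp, hpe, hpt, hte, het⟩ := bad hv me (hb e me)
    rw [hC] at ht
    simp only [Finset.mem_insert, Finset.mem_singleton] at ht
    rcases ht with rfl | rfl | rfl | rfl | rfl
    · exact absurd jea het
    · have he := F2.noncross h hv (w := a) (w' := d) (a := t) (b := e) ma md mb me jab jea.symm
        hbe had.symm hbd.symm hde hx hxv hvx hxa hxd hp hpv hvp hpt hpe
      subst he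
      exact hpe
    · have he := F2.noncross h hv (w := d) (w' := a) (a := t) (b := e) md ma mc me jcd.symm jde
        hce had hac hae hx hxv hvx hxd hxa hp hpv hvp hpt hpe
      subst he
      exact hpe
    · exact absurd jde.symm het
    · exact absurd rfl hte
  · refine ⟨hxb, ?_, hxe⟩
    obtain ⟨p, hp, t, ht, hpv, hvp, hpd, hpt, htd, hdt⟩ := bad hv md (hb d md)
    rw [hC] at ht
    simp only [Finset.mem_insert, Finset.mem_singleton] at ht
    rcases ht with rfl | rfl | rfl | rfl | rfl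
    · have he := F2.noncross h hv (w := e) (w' := c) (a := d) (b := t) me mc md ma jde.symm jea
        had.symm hce hcd hac.symm hx hxv hvx hxe hxc hp hpv hvp hpd hpt
      subst he
      exact hpd
    · have he := F2.noncross h hv (w := c) (w' := a) (a := t) (b := d) mc ma mb md jbc.symm jcd
        hbd hac hab had hx hxv hvx hxc hxa hp hpv hvp hpt hpd
      subst he
      exact hpd
    · exact absurd jcd.symm hdt
    · exact absurd rfl htd
    · exact absurd jde hdt

theorem F2.all_bad {G : SimpleGraph T} {S : Finset T} (h : F2 G S) {v : T} (hv : v ∈ S)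
    (h5 : (nb G S v).card ≤ 5) (hb : ∀ w ∈ nb G S v, ¬ GE G S v w) :
    ∃ x ∈ S, x ≠ v ∧ ¬ G.Adj v x ∧ nb G S v ⊆ nb G S x := by
  have hcirc := h.2.1 v hv
  have h4 := hcirc.1
  have hne : (nb G S v).Nonempty := Finset.card_pos.mp (by omega)
  obtain ⟨a, ma⟩ := hne
  have hcase : (nb G S v).card = 4 ∨ (nb G S v).card = 5 := by omega
  rcases hcase with hc | hc
  · obtain ⟨b, c, d, hC, hab, hac, had, hbc, hbd, hcd, jab, jbc, jcd, jda, nac, nbd⟩ :=
      Circle.four_b hcirc hc ma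
    have mb : b ∈ nb G S v := by rw [hC]; simp
    have mc : c ∈ nb G S v := by rw [hC]; simp
    have md : d ∈ nb G S v := by rw [hC]; simp
    obtain ⟨x, hx, t, ht, hxv, hvx, hxa, hxt, hta, hat⟩ := bad hv ma (hb a ma)
    obtain ⟨y, hy, s, hs, hyv, hvy, hyb, hys, hsb, hbs⟩ := bad hv mb (hb b mb)
    have htc : t = c := by
      rw [hC] at ht
      simp only [Finset.mem_insert, Finset.mem_singleton] at ht
      rcases ht with h1 | h1 | h1 | h1
      · exact absurd h1 hta
      · exact absurd (h1 ▸ jab) hat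
      · exact h1
      · exact absurd (h1 ▸ jda.symm) hat
    have hsd : s = d := by
      rw [hC] at hs
      simp only [Finset.mem_insert, Finset.mem_singleton] at hs
      rcases hs with h1 | h1 | h1 | h1
      · exact absurd (h1 ▸ jab.symm) hbs
      · exact absurd h1 hsb
      · exact absurd (h1 ▸ jbc) hbs
      · exact h1
    rw [htc] at hxt
    rw [hsd] at hys
    have he := F2.noncross h hv (w := a) (w' := c) (a := b) (b := d) ma mc mb md jab jda.symm
      hbd hac.symm hbc.symm hcd hx hxv hvx hxa hxt hy hyv hvy hyb hys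
    subst he
    refine ⟨y, hx, hxv, hvx, ?_⟩
    intro z hz
    have hzS : z ∈ S := (mnb.mp hz).1
    rw [hC] at hz
    simp only [Finset.mem_insert, Finset.mem_singleton] at hz
    refine mnb.mpr ⟨hzS, ?_⟩
    rcases hz with h1 | h1 | h1 | h1
    · exact h1 ▸ hxa
    · exact h1 ▸ hyb
    · exact h1 ▸ hxt
    · exact h1 ▸ hys
  · obtain ⟨b, c, d, e, hC, hab, hac, had, hae, hbc, hbd, hbe, hcd, hce, hde, jab, jbc, jcd,
      jde, jea, nac, nad, nbd, nbe, nce⟩ := Circle.five_b hcirc hc ma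
    obtain ⟨x, hx, t, ht, hxv, hvx, hxa, hxt, hta, hat⟩ := bad hv ma (hb a ma)
    have hcd' : t = c ∨ t = d := by
      rw [hC] at ht
      simp only [Finset.mem_insert, Finset.mem_singleton] at ht
      rcases ht with h1 | h1 | h1 | h1 | h1
      · exact absurd h1 hta
      · exact absurd (h1 ▸ jab) hat
      · exact Or.inl h1
      · exact Or.inr h1
      · exact absurd (h1 ▸ jea.symm) hat
    have hall : G.Adj x b ∧ G.Adj x c ∧ G.Adj x d ∧ G.Adj x e := by
      rcases hcd' with h1 | h1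
      · have hxc : G.Adj x c := h1 ▸ hxt
        obtain ⟨g1, g2, g3⟩ := aux5 h hv hb hC hab hac had hae hbc hbd hbe hcd hce hde jab jbc
          jcd jde jea hx hxv hvx hxa hxc
        exact ⟨g1, hxc, g2, g3⟩
      · have hxd : G.Adj x d := h1 ▸ hxt
        have hC' : nb G S v = {a, e, d, c, b} := by
          rw [hC]
          ext z
          simp only [Finset.mem_insert, Finset.mem_singleton]
          tauto
        obtain ⟨g1, g2, g3⟩ := aux5 h hv hb hC' hae had hac hab hde.symm hce.symm hbe.symm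
          hcd.symm hbd.symm hbc.symm jea.symm jde.symm jcd.symm jbc.symm jab.symm hx hxv hvx
          hxa hxd
        exact ⟨g3, g2, hxd, g1⟩
    refine ⟨x, hx, hxv, hvx, ?_⟩
    intro z hz
    have hzS : z ∈ S := (mnb.mp hz).1
    rw [hC] at hz
    simp only [Finset.mem_insert, Finset.mem_singleton] at hz
    refine mnb.mpr ⟨hzS, ?_⟩
    rcases hz with h1 | h1 | h1 | h1 | h1
    · exact h1 ▸ hxa
    · exact h1 ▸ hall.1
    · exact h1 ▸ hall.2.1
    · exact h1 ▸ hall.2.2.1
    · exact h1 ▸ hall.2.2.2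

end Pool.Agent.LibFlagPL

end

section

namespace Pool.Agent.LibFlagPL

open Finset

set_option linter.unusedSectionVars false

variable {T : Type} [Fintype T] [DecidableEq T]

theorem F2.exists_deg {G : SimpleGraph T} {S : Finset T} (h : F2 G S) :
    ∃ v ∈ S, (nb G S v).card ≤ 5 := by
  by_contra hcon
  push Not at hcon
  have h1 := h.2.2
  have h2 : S.card • 6 ≤ ∑ s ∈ S, (nb G S s).card :=
    Finset.card_nsmul_le_sum S _ 6 (fun s hs => hcon s hs)
  rw [smul_eq_mul] at h2
  omega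

theorem F2.exists_deg_off {G : SimpleGraph T} {S : Finset T} (h : F2 G S) {c : T} (hc : c ∈ S)
    (h4 : (nb G S c).card = 4) :
    ∃ v ∈ S, v ∉ insert c (nb G S c) ∧ (nb G S v).card ≤ 5 := by
  by_contra hcon
  push Not at hcon
  have h1 := h.2.2
  have hcn : c ∉ nb G S c := by
    intro h5
    exact G.loopless.irrefl c (mem_nb.1 h5).2
  have hN : insert c (nb G S c) ⊆ S := by
    intro x hx
    rcases Finset.mem_insert.1 hx with rfl | hx
    · exact hc
    · exact (mem_nb.1 hx).1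
  have hNc : (insert c (nb G S c)).card = 5 := by
    rw [Finset.card_insert_of_notMem hcn, h4]
  have h6 := Finset.sum_sdiff (f := fun s => (nb G S s).card) hN
  have h7 := Finset.card_sdiff_add_card_eq_card hN
  have h2 : (S \ insert c (nb G S c)).card • 6 ≤
      ∑ s ∈ S \ insert c (nb G S c), (nb G S s).card := by
    refine Finset.card_nsmul_le_sum _ _ 6 (fun s hs => ?_)
    rw [Finset.mem_sdiff] at hs
    exact hcon s hs.1 hs.2
  have h3 : (insert c (nb G S c)).card • 4 ≤ ∑ s ∈ insert c (nb G S c), (nb G S s).card :=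
    Finset.card_nsmul_le_sum _ _ 4 (fun s hs => (h.2.1 s (hN hs)).1)
  rw [smul_eq_mul] at h2 h3
  rw [hNc] at h3 h7
  omega

end Pool.Agent.LibFlagPL

end

section

namespace Pool.Agent.LibFlagPL

open Finset

set_option linter.unusedSectionVars false

variable {T : Type} [Fintype T] [DecidableEq T]

theorem F2.susp_eq {G : SimpleGraph T} {S : Finset T} (h : F2 G S) {v x : T} (hv : v ∈ S)
    (hx : x ∈ S) (hxv : x ≠ v) (hn : ¬ G.Adj v x) (hs : nb G S v ⊆ nb G S x) :
    nb G S v = nb G S x ∧ S = insert v (insert x (nb G S v)) :=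
  h.susp_of_subset hv hx hxv.symm hn hs

end Pool.Agent.LibFlagPL

end

section

namespace Pool.Agent.LibFlagPL

open Finset

set_option linter.unusedSectionVars false

variable {T : Type} [Fintype T] [DecidableEq T]

theorem ii2 {G : SimpleGraph T} {S : Finset T} (h : F2 G S) {c : T} (hc : c ∈ S)
    (h4 : (nb G S c).card = 4) (h7 : 7 ≤ S.card) :
    ∃ u v : T, GE G S u v ∧ u ∉ insert c (nb G S c) := by
  obtain ⟨v, hv, hvc, h5⟩ := h.exists_deg_off hc h4
  by_cases hg : ∃ w ∈ nb G S v, GE G S v w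
  · obtain ⟨w, _, hw⟩ := hg
    exact ⟨v, w, hw, hvc⟩
  · have hb : ∀ w ∈ nb G S v, ¬ GE G S v w := fun w hw h1 => hg ⟨w, hw, h1⟩
    obtain ⟨x, hx, hxv, hn, hs⟩ := h.all_bad hv h5 hb
    obtain ⟨h1, h2⟩ := h.susp_eq hv hx hxv hn hs
    exfalso
    have h3 : c ∈ insert v (insert x (nb G S v)) := by rw [← h2]; exact hc
    rw [Finset.mem_insert, Finset.mem_insert] at h3
    have hcx : c = x := by
      rcases h3 with h3 | h3 | h3
      · exact absurd (h3 ▸ Finset.mem_insert_self _ _) hvc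
      · exact h3
      · refine absurd (Finset.mem_insert_of_mem ?_) hvc
        rw [mem_nb] at h3 ⊢
        exact ⟨hv, h3.2.symm⟩
    have h5 : (insert v (insert x (nb G S v))).card ≤ (nb G S v).card + 2 :=
      (Finset.card_insert_le _ _).trans (by
        have := Finset.card_insert_le x (nb G S v)
        omega)
    rw [← h2, h1, ← hcx, h4] at h5
    omega

theorem i2 {G : SimpleGraph T} {S : Finset T} (h : F2 G S) (h6 : S.card ≠ 6) :
    ∃ u v : T, GE G S u v := by
  have h7 : 7 ≤ S.card := by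
    have := h.six_le
    omega
  obtain ⟨v, hv, h5⟩ := h.exists_deg
  by_cases hg : ∃ w ∈ nb G S v, GE G S v w
  · obtain ⟨w, _, hw⟩ := hg
    exact ⟨v, w, hw⟩
  · have hb : ∀ w ∈ nb G S v, ¬ GE G S v w := fun w hw h1 => hg ⟨w, hw, h1⟩
    obtain ⟨x, hx, hxv, hn, hs⟩ := h.all_bad hv h5 hb
    obtain ⟨h1, h2⟩ := h.susp_eq hv hx hxv hn hs
    have hC : Circle G (nb G S v) := h.2.1 v hv
    obtain ⟨w, hw⟩ := hC.2.2.1
    have hwS : w ∈ S := (mem_nb.1 hw).1
    have hwx : w ∈ nb G S x := h1 ▸ hw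
    have h3 : nb G S w = insert v (insert x (nb G (nb G S v) w)) := by
      ext y
      rw [Finset.mem_insert, Finset.mem_insert, mem_nb, mem_nb]
      constructor
      · rintro ⟨hy, hwy⟩
        have h4 : y ∈ insert v (insert x (nb G S v)) := by rw [← h2]; exact hy
        rw [Finset.mem_insert, Finset.mem_insert] at h4
        rcases h4 with h4 | h4 | h4
        · exact Or.inl h4
        · exact Or.inr (Or.inl h4)
        · exact Or.inr (Or.inr ⟨h4, hwy⟩)
      · rintro (h4 | h4 | h4)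
        · rw [h4]
          exact ⟨hv, (mem_nb.1 hw).2.symm⟩
        · rw [h4]
          exact ⟨hx, (mem_nb.1 hwx).2.symm⟩
        · exact ⟨(mem_nb.1 h4.1).1, h4.2⟩
    have h4 : (nb G S w).card = 4 := by
      rw [h3, Finset.card_insert_of_notMem, Finset.card_insert_of_notMem, hC.2.1 w hw]
      · intro h6
        exact hn (mem_nb.1 (mem_nb.1 h6).1).2
      · intro h6
        rw [Finset.mem_insert] at h6
        rcases h6 with h6 | h6
        · exact hxv h6.symm
        · exact G.loopless.irrefl v (mem_nb.1 (mem_nb.1 h6).1).2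
    obtain ⟨u, u', hu, _⟩ := ii2 h hwS h4 h7
    exact ⟨u, u', hu⟩

end Pool.Agent.LibFlagPL

end

section

namespace Pool.Agent.LibFlagPL

open Finset

set_option linter.unusedSectionVars false

variable {T : Type} [Fintype T] [DecidableEq T]

private theorem F5_eq {G : SimpleGraph T} {S : Finset T} (h6 : S.card = 6) {a b : T} (ha : a ∈ S)
    (hb : b ∈ S) (hab : a ≠ b) (hn : ¬ G.Adj a b) (h4 : (nb G S a).card = 4) :
    ∀ c ∈ S, c ≠ a → c ≠ b → G.Adj a c := by
  have hsub : nb G S a ⊆ (S.erase a).erase b := by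
    intro t ht
    have h1 := mem_nb.1 ht
    refine Finset.mem_erase.2 ⟨?_, Finset.mem_erase.2 ⟨?_, h1.1⟩⟩
    · rintro rfl
      exact hn h1.2
    · rintro rfl
      exact G.loopless.irrefl _ h1.2
  have hcard : ((S.erase a).erase b).card = 4 := by
    rw [Finset.card_erase_of_mem (Finset.mem_erase.2 ⟨hab.symm, hb⟩), Finset.card_erase_of_mem ha, h6]
  have heq := Finset.eq_of_subset_of_card_le hsub (by omega)
  intro c hc hca hcb
  have h2 : c ∈ nb G S a := by
    rw [heq]
    exact Finset.mem_erase.2 ⟨hcb, Finset.mem_erase.2 ⟨hca, hc⟩⟩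
  exact (mem_nb.1 h2).2

theorem J1 {G : SimpleGraph T} {S : Finset T} (h : F2 G S) :
    (∃ a ∈ S, ∃ b ∈ S, a ≠ b ∧ ¬ G.Adj a b ∧
      ∀ c ∈ S, c ≠ a → c ≠ b → G.Adj a c ∧ G.Adj b c) ∨
    (∃ u ∈ S, ∃ v ∈ S, G.Adj u v ∧ F2 (ctr G u v) (S.erase v)) := by
  by_cases h6 : S.card = 6
  · left
    have hge : ∀ s ∈ S, 4 ≤ (nb G S s).card := fun s hs => (h.2.1 s hs).1
    have hsum : ∑ s ∈ S, (nb G S s).card = ∑ s ∈ S, 4 := by
      rw [Finset.sum_const, smul_eq_mul, h6]
      have := h.2.2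
      rw [h6] at this
      omega
    have hall : ∀ s ∈ S, 4 = (nb G S s).card :=
      (Finset.sum_eq_sum_iff_of_le hge).1 hsum.symm
    obtain ⟨a, ha⟩ := h.1.1
    have hex : ∃ b ∈ S.erase a, b ∉ nb G S a := by
      by_contra hcon
      have h1 : S.erase a ⊆ nb G S a := by
        intro t ht
        by_contra h2
        exact hcon ⟨t, ht, h2⟩
      have h2 := Finset.card_le_card h1
      rw [Finset.card_erase_of_mem ha, h6, ← hall a ha] at h2
      omega
    obtain ⟨b, hb, hnb⟩ := hex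
    rw [Finset.mem_erase] at hb
    have hnab : ¬ G.Adj a b := fun h1 => hnb (mem_nb.2 ⟨hb.2, h1⟩)
    refine ⟨a, ha, b, hb.2, hb.1.symm, hnab, fun c hc hca hcb => ⟨?_, ?_⟩⟩
    · exact F5_eq h6 ha hb.2 hb.1.symm hnab (hall a ha).symm c hc hca hcb
    · exact F5_eq h6 hb.2 ha hb.1 (fun h1 => hnab h1.symm) (hall b hb.2).symm c hc hcb hca
  · right
    obtain ⟨u, v, he⟩ := i2 h h6
    exact ⟨u, he.1, v, he.2.1, he.2.2.1, F2.ctr h he⟩

end Pool.Agent.LibFlagPL

end
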