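import Pool.Agent.LibFlagPL.AlgA
import Pool.Agent.LibFlagPL.AlgE
import Pool.Agent.LibFlagPL.SurfD

/-!
# LibFlagPL.AlgF: the inequalities (D) and (N) in all dimensions
-/

section

namespace Pool.Agent.LibFlagPL

open Finset

variable {T : Type} [Fintype T] [DecidableEq T]

private theorem K6_congr {k : Type} [Field k] {G : SimpleGraph T} {S : Finset T}
    {P P' : Set (T × T)} {L L' : Set (Finset T)} (h : Rz k G S P L) (hP : P = P') (hL : L = L') :
    Rz k G S P' L' := by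
  rw [← hP, ← hL]
  exact h

theorem key (k : Type) [Field k] [CharP k 2] [Infinite k] (n : ℕ) :
    ∀ (G : SimpleGraph T) (S : Finset T), S.card = n → F2 G S → Rz k G S ∅ {S} := by
  induction n using Nat.strong_induction_on with
  | _ n ih =>
    intro G S hn h
    rcases J1 h with ⟨a, ha, b, hb, hab, h1, h2⟩ | ⟨u, hu, v, hv, huv, h1⟩
    · exact Rz.susp k ha hb hab h1 h2
    · have hv1 : v ∈ nb G S u := mem_nb.2 ⟨hv, huv⟩
      obtain ⟨a, b, hab, hnab, he⟩ := (h.2.1 u hu).nb_eq hv1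
      have ha1 : a ∈ nb G (nb G S u) v := by
        rw [he]
        exact Finset.mem_insert_self _ _
      have hb1 : b ∈ nb G (nb G S u) v := by
        rw [he]
        exact Finset.mem_insert_of_mem (Finset.mem_singleton_self _)
      obtain ⟨ha2, hva⟩ := mem_nb.1 ha1
      obtain ⟨ha, hua⟩ := mem_nb.1 ha2
      obtain ⟨hb2, hvb⟩ := mem_nb.1 hb1
      obtain ⟨hb, hub⟩ := mem_nb.1 hb2
      have ha' : a ∈ S.erase v := Finset.mem_erase.2 ⟨hva.ne.symm, ha⟩
      have hb' : b ∈ S.erase v := Finset.mem_erase.2 ⟨hvb.ne.symm, hb⟩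
      have hn' : ¬ (ctr G u v).Adj a b := by
        rintro ⟨-, -, -, h4⟩
        rcases h4 with h4 | h4 | h4
        · exact hnab h4
        · exact hua.ne h4.1.symm
        · exact hub.ne h4.1.symm
      have hlt : (S.erase v).card < n := by
        rw [← hn]
        exact Finset.card_erase_lt_of_mem hv
      have e1 := ih _ hlt (ctr G u v) (S.erase v) rfl h1
      have e2 : Rz k (ctr G u v) (S.erase v) {(a, b)} ∅ := Rz.base k ha' hb' hab hn'
      have e3 := Rz.merge e2 e1 (Finset.Subset.refl _)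
        (by
          intro x hx
          rw [Set.mem_singleton_iff] at hx
          rw [hx]
          exact ⟨ha', hb'⟩)
        (fun x hx => absurd hx (Set.notMem_empty x))
        (fun S' hS' => absurd hS' (Set.notMem_empty S'))
        (by
          intro S' hS'
          rw [Set.mem_singleton_iff] at hS'
          rw [hS'])
      exact Rz.split hu hv huv ha hb hua hva hub hvb
        (K6_congr e3 (Set.union_empty _) (Set.empty_union _))

theorem all_goals (k : Type) [Field k] [CharP k 2] [Infinite k] {G : SimpleGraph T}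
    {S : Finset T} (h : F3 G S) :
    Rz k G S {x | x.1 ∈ S ∧ x.2 ∈ S ∧ x.1 ≠ x.2 ∧ ¬ G.Adj x.1 x.2}
      {S' | ∃ y ∈ S, S' = nb G S y} := by
  classical
  have h1 : ∀ Q : Finset (T × T),
      (∀ x ∈ Q, x.1 ∈ S ∧ x.2 ∈ S ∧ x.1 ≠ x.2 ∧ ¬ G.Adj x.1 x.2) →
        Rz k G S (↑Q : Set (T × T)) ∅ := by
    intro Q
    induction Q using Finset.induction_on with
    | empty =>
      intro _
      rw [Finset.coe_empty]
      exact Rz.base0 k G S
    | insert x Q _ ih =>
      intro hQ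
      have e1 := ih fun y hy => hQ y (Finset.mem_insert_of_mem hy)
      obtain ⟨m1, m2, m3, m4⟩ := hQ x (Finset.mem_insert_self _ _)
      have e2 : Rz k G S {(x.1, x.2)} ∅ := Rz.base k m1 m2 m3 m4
      have e3 := Rz.merge e2 e1 (Finset.Subset.refl _)
        (by
          intro y hy
          rw [Set.mem_singleton_iff] at hy
          rw [hy]
          exact ⟨m1, m2⟩)
        (by
          intro y hy
          have hy' := hQ y (Finset.mem_insert_of_mem (Finset.mem_coe.1 hy))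
          exact ⟨hy'.1, hy'.2.1⟩)
        (fun S' hS' => absurd hS' (Set.notMem_empty S'))
        (fun S' hS' => absurd hS' (Set.notMem_empty S'))
      refine K6_congr e3 ?_ (Set.empty_union _)
      rw [Finset.coe_insert, Set.singleton_union]
  have h2 : Rz k G S {x | x.1 ∈ S ∧ x.2 ∈ S ∧ x.1 ≠ x.2 ∧ ¬ G.Adj x.1 x.2} ∅ := by
    have e := h1 (Finset.univ.filter fun x => x.1 ∈ S ∧ x.2 ∈ S ∧ x.1 ≠ x.2 ∧ ¬ G.Adj x.1 x.2)
      (fun x hx => (Finset.mem_filter.1 hx).2)
    refine K6_congr e ?_ rfl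
    ext x
    simp
  have h3 : ∀ Y : Finset T, Y ⊆ S →
      Rz k G S {x | x.1 ∈ S ∧ x.2 ∈ S ∧ x.1 ≠ x.2 ∧ ¬ G.Adj x.1 x.2}
        {S' | ∃ y ∈ Y, S' = nb G S y} := by
    intro Y
    induction Y using Finset.induction_on with
    | empty =>
      intro _
      refine K6_congr h2 rfl ?_
      ext S'
      simp
    | insert y Y _ ih =>
      intro hY
      have e1 := ih fun z hz => hY (Finset.mem_insert_of_mem hz)
      have hy : y ∈ S := hY (Finset.mem_insert_self _ _)
      have e2 : Rz k G (nb G S y) ∅ {nb G S y} := key k _ G (nb G S y) rfl (h.2 y hy)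
      have e3 := Rz.merge e1 e2 nb_subset
        (fun x hx => ⟨hx.1, hx.2.1⟩)
        (fun x hx => absurd hx (Set.notMem_empty x))
        (by
          rintro S' ⟨z, _, rfl⟩
          exact nb_subset)
        (by
          intro S' hS'
          rw [Set.mem_singleton_iff] at hS'
          rw [hS'])
      refine K6_congr e3 (Set.union_empty _) ?_
      ext S'
      simp only [Set.mem_union, Set.mem_ofPred_eq, Set.mem_singleton_iff, Finset.mem_insert]
      constructor
      · rintro (⟨z, hz, rfl⟩ | rfl)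
        · exact ⟨z, Or.inr hz, rfl⟩
        · exact ⟨y, Or.inl rfl, rfl⟩
      · rintro ⟨z, rfl | hz, rfl⟩
        · exact Or.inr rfl
        · exact Or.inl ⟨z, hz, rfl⟩
  exact h3 S (Finset.Subset.refl S)

theorem exists_good (k : Type) [Field k] [CharP k 2] [Infinite k] {G : SimpleGraph T}
    {S : Finset T} (h : F3 G S) :
    ∃ (ι : Type) (_ : Fintype ι) (_ : DecidableEq ι) (e f : T → Matrix ι ι k),
      Nonempty ι ∧ Good G S e f :=
  Good.of_Rz h (all_goals k h)

end Pool.Agent.LibFlagPL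

end

section

namespace Pool.Agent.LibFlagPL

open Finset

variable {T : Type} [Fintype T] [DecidableEq T]

/-- (D): `gamma_2 ≥ 0` for connected closed flag 3-manifolds -/
theorem thD {G : SimpleGraph T} {S : Finset T} (h : F3 G S) : 0 ≤ chi G S := by
  haveI : Fact (Nat.Prime 2) := ⟨Nat.prime_two⟩
  haveI : CharP (AlgebraicClosure (ZMod 2)) 2 :=
    charP_of_injective_algebraMap (algebraMap (ZMod 2) (AlgebraicClosure (ZMod 2))).injective 2
  haveI : Infinite (AlgebraicClosure (ZMod 2)) := IsAlgClosed.instInfinite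
  obtain ⟨ι, h1, h2, e, f, hne, hg⟩ := exists_good (AlgebraicClosure (ZMod 2)) h
  exact thD_of_good hne h hg

/-- (N) -/
theorem thN {G : SimpleGraph T} {S : Finset T} (h : F3 G S) (h0 : chi G S = 0)
    {A : Finset T} (hA : A ⊆ S) (hn : ¬ Cl G A) : chi G A ≤ 0 := by
  haveI : Fact (Nat.Prime 2) := ⟨Nat.prime_two⟩
  haveI : CharP (AlgebraicClosure (ZMod 2)) 2 :=
    charP_of_injective_algebraMap (algebraMap (ZMod 2) (AlgebraicClosure (ZMod 2))).injective 2
  haveI : Infinite (AlgebraicClosure (ZMod 2)) := IsAlgClosed.instInfinite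
  obtain ⟨ι, h1, h2, e, f, hne, hg⟩ := exists_good (AlgebraicClosure (ZMod 2)) h
  exact thN_of_good hne h hg h0 hA hn

end Pool.Agent.LibFlagPL

end

section

namespace Pool.Agent.LibFlagPL

open Finset

variable {T : Type} [Fintype T] [DecidableEq T] {k : Type} [Field k]
variable {ι : Type} [Fintype ι] [DecidableEq ι]

/-- acyclicity needed for a vertex link `K` (of any dimension at least two) -/
structure Acy (G : SimpleGraph T) (e : T → Matrix ι ι k) (K : Finset T) : Prop where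
  one : HZ G e ∅ K 1
  ge2 : ∀ A ⊆ K, ∀ j, HZ G e ∅ A (j + 2)

/-- system in which all nonadjacent pairs are complementary and all induced flag 2-spheres are
acyclic in degree one -/
structure Good2 (G : SimpleGraph T) (S : Finset T) (e f : T → Matrix ι ι k) : Prop where
  sys : Sys G S e f
  cpl : Cpl G S e
  acyc : ∀ L ⊆ S, F2 G L → HZ G e ∅ L 1

end Pool.Agent.LibFlagPL

end

section

namespace Pool.Agent.LibFlagPL

open Finset

set_option linter.unusedSectionVars false

variable {T : Type} [Fintype T] [DecidableEq T] {k : Type} [Field k]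
variable {ι : Type} [Fintype ι] [DecidableEq ι]

private theorem DA2_tel (r z : ℕ → ℚ) (M : ℕ) :
    ∑ j ∈ range (M + 1), (-1 : ℚ) ^ j * (r j + z j) =
      ∑ j ∈ range (M + 1), (-1 : ℚ) ^ j * (z j - r (j + 1)) + r 0 + (-1 : ℚ) ^ M * r (M + 1) := by
  induction M with
  | zero =>
    simp only [zero_add, Finset.sum_range_one, pow_zero, one_mul]
    ring
  | succ n ih =>
    rw [Finset.sum_range_succ, ih, Finset.sum_range_succ _ (n + 1), pow_succ]
    ring

theorem euler [CharP k 2] {G : SimpleGraph T} {S : Finset T} {e f : T → Matrix ι ι k}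
    (h : Sys G S e f) {A : Finset T} (hA : A ⊆ S) {M : ℕ} (hM : A.card ≤ M) :
    (Fintype.card ι : ℚ) * chi G A =
      ∑ j ∈ range (M + 1), (-1 : ℚ) ^ j * ((zk G e ∅ A j : ℚ) - rk G e ∅ A (j + 1)) := by
  have hchi := card_mul_chi h hA (m := M) (fun σ h1 _ => (Finset.card_le_card h1).trans hM)
  have h1 : ∀ j, (Module.finrank k (Ch G e ∅ A j) : ℚ) = (rk G e ∅ A j : ℚ) + zk G e ∅ A j := by
    intro j
    rw [← rk_add_zk]
    push_cast
    rfl
  have h2 : rk G e ∅ A (M + 1) = 0 := rk_top (fun σ hσ _ h4 => by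
    have := Finset.card_le_card hσ
    omega)
  rw [hchi]
  simp only [h1]
  rw [DA2_tel (fun j => (rk G e ∅ A j : ℚ)) (fun j => (zk G e ∅ A j : ℚ)) M, h2, rk_zero]
  simp

end Pool.Agent.LibFlagPL

end

section

namespace Pool.Agent.LibFlagPL

open Finset

set_option linter.unusedSectionVars false

variable {T : Type} [Fintype T] [DecidableEq T] {k : Type} [Field k]
variable {ι : Type} [Fintype ι] [DecidableEq ι]

theorem acy_F2 [CharP k 2] {G : SimpleGraph T} {S : Finset T} {e f : T → Matrix ι ι k}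
    (hg : Good2 G S e f) {K : Finset T} (hKS : K ⊆ S) (hK : F2 G K) : Acy G e K := by
  have hHZ : HZ G e ∅ K 2 := by
    have hchi := card_mul_chi hg.sys hKS (m := 3) (fun σ h1 h2 => F2.no_four hK h1 h2)
    rw [F2.chi_eq hK, mul_zero] at hchi
    simp only [Finset.sum_range_succ, Finset.sum_range_zero, zero_add, pow_zero, one_mul,
      pow_one] at hchi
    have e0 := rk_add_zk G e ∅ K 0
    have e1 := rk_add_zk G e ∅ K 1
    have e2 := rk_add_zk G e ∅ K 2
    have e3 := rk_add_zk G e ∅ K 3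
    have r0 := rk_zero G e ∅ K
    have hM0 : HZ G e ∅ K 0 := M0 hg.cpl hKS (F2.exists_pair hK)
    have z0 := zk_of_HZ hM0
    have z1 := zk_of_HZ (hg.acyc K hKS hK)
    have z3 := zk_of_HZ (V3 hg.cpl hKS hK (κ := ∅) (Finset.Subset.refl K))
    have r4 : rk G e ∅ K 4 = 0 := rk_top (fun σ h1 h2 h3 => by
      have := F2.no_four hK h1 h2
      omega)
    have hq : ((Module.finrank k (Ch G e ∅ K 0) : ℕ) : ℚ) +
        (Module.finrank k (Ch G e ∅ K 2) : ℕ) =
        (Module.finrank k (Ch G e ∅ K 1) : ℕ) +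
        (Module.finrank k (Ch G e ∅ K 3) : ℕ) := by
      linarith
    have hn : Module.finrank k (Ch G e ∅ K 0) +
        Module.finrank k (Ch G e ∅ K 2) =
        Module.finrank k (Ch G e ∅ K 1) +
        Module.finrank k (Ch G e ∅ K 3) := by
      exact_mod_cast hq
    apply HZ_of_zk
    norm_num at z0 z1 z3 ⊢
    omega
  refine ⟨hg.acyc K hKS hK, ?_⟩
  intro A hA j
  rcases j with _ | _ | j
  · exact V3' hg.cpl hKS hK hA hHZ
  · exact V3 hg.cpl hKS hK hA
  · intro c hc _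
    have h0 : c = 0 := Ch_eq_zero (fun σ h1 h2 h3 => by
      have := F2.no_four hK (h1.trans hA) h2
      omega) hc
    exact ⟨0, Submodule.zero_mem _, by rw [h0, map_zero]⟩

end Pool.Agent.LibFlagPL

end

section

namespace Pool.Agent.LibFlagPL

open Finset

set_option linter.unusedSectionVars false

variable {T : Type} [Fintype T] [DecidableEq T] {k : Type} [Field k]
variable {ι : Type} [Fintype ι] [DecidableEq ι]

private structure DA4_H (G : SimpleGraph T) (e : T → Matrix ι ι k) (S K : Finset T) : Prop where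
  cpl : Cpl G S e
  sub : K ⊆ S
  conn : Conn G K
  h1 : ∀ y ∈ K, HZ G e ∅ (nb G K y) 1
  h2 : ∀ y ∈ K, ∀ z ∈ nb G K y, ∃ a ∈ nb G (nb G K y) z, ∃ b ∈ nb G (nb G K y) z,
    a ≠ b ∧ ¬ G.Adj a b
  h3 : ∀ y ∈ K, ∃ a ∈ nb G K y, ∃ b ∈ nb G K y, a ≠ b ∧ ¬ G.Adj a b

private theorem DA4_add_self [CharP k 2] (c : Finset T → ι → k) : c + c = 0 := by
  funext σ i
  exact CharTwo.add_self_eq_zero (c σ i)

private def DA4_Hom (G : SimpleGraph T) (e : T → Matrix ι ι k) (S : Finset T)
    (c c' : Finset T → ι → k) : Prop := ∃ b ∈ Ch G e ∅ S 2, bd b = c + c'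

private theorem DA4_trans [CharP k 2] {G : SimpleGraph T} {e : T → Matrix ι ι k} {S : Finset T}
    {c c' c'' : Finset T → ι → k} (h : DA4_Hom G e S c c') (h' : DA4_Hom G e S c' c'') :
    DA4_Hom G e S c c'' := by
  obtain ⟨b, hb, e1⟩ := h
  obtain ⟨b', hb', e2⟩ := h'
  refine ⟨b + b', Submodule.add_mem _ hb hb', ?_⟩
  rw [map_add, e1, e2]
  have h1 : c + c' + (c' + c'') = c + c'' + (c' + c') := by abel
  rw [h1, DA4_add_self, add_zero]

private theorem DA4_deg0 {G : SimpleGraph T} {e : T → Matrix ι ι k} {A B : Finset T}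
    {c : Finset T → ι → k} (hc : c ∈ Ch G e ∅ B 0) : c ∈ Ch G e ∅ A 0 := by
  rw [mem_Ch] at hc ⊢
  intro σ
  refine ⟨fun h => ?_, (hc σ).2⟩
  obtain ⟨-, h2, h3⟩ := (hc σ).1 h
  refine ⟨?_, h2, h3⟩
  rw [Finset.card_eq_zero.1 h3]
  exact Finset.empty_subset _

private theorem DA4_lift {G : SimpleGraph T} {S K : Finset T} {e : T → Matrix ι ι k}
    (hg : DA4_H G e S K) {A B : Finset T} (hA : A ⊆ K)
    (h2 : ∃ a ∈ A, ∃ b ∈ A, a ≠ b ∧ ¬ G.Adj a b)
    {c : Finset T → ι → k} (hc : c ∈ Ch G e ∅ B 1) : ∃ w ∈ Ch G e ∅ A 1, bd w = bd c := by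
  have h1 : bd c ∈ Ch G e ∅ A 0 := DA4_deg0 (bd_mem (j := 0) hc)
  exact M0 hg.cpl (hA.trans hg.sub) h2 (bd c) h1 (bd_zero_deg h1)

private theorem DA4_G1 [CharP k 2] {G : SimpleGraph T} {S K : Finset T} {e : T → Matrix ι ι k}
    (hg : DA4_H G e S K) {y : T} (hy : y ∈ K) {c c' : Finset T → ι → k}
    (hc : c ∈ Ch G e ∅ (nb G K y) 1) (hc' : c' ∈ Ch G e ∅ (nb G K y) 1) (h : bd c = bd c') :
    DA4_Hom G e K c c' := by
  have h1 : bd (c + c') = 0 := by rw [map_add, h, DA4_add_self]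
  obtain ⟨b, hb, e1⟩ := hg.h1 y hy (c + c') (Submodule.add_mem _ hc hc') h1
  exact ⟨b, Ch_mono (Finset.Subset.refl _) nb_subset hb, e1⟩

private theorem DA4_G2 [CharP k 2] {G : SimpleGraph T} {S K : Finset T} {e : T → Matrix ι ι k}
    (hg : DA4_H G e S K) {y z : T} (hy : y ∈ K) (hz : z ∈ K) (hyz : G.Adj y z)
    {c c' : Finset T → ι → k} (hc : c ∈ Ch G e ∅ (nb G K y) 1) (hc' : c' ∈ Ch G e ∅ (nb G K z) 1)
    (h : bd c = bd c') : DA4_Hom G e K c c' := by
  have hA1 : nb G (nb G K y) z ⊆ nb G K y := nb_subset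
  have hA2 : nb G (nb G K y) z ⊆ nb G K z := by
    intro t ht
    rw [mem_nb] at ht ⊢
    exact ⟨(mem_nb.1 ht.1).1, ht.2⟩
  obtain ⟨w, hw, e1⟩ := DA4_lift hg (hA1.trans nb_subset)
    (hg.h2 y hy z (mem_nb.2 ⟨hz, hyz⟩)) hc
  exact DA4_trans (DA4_G1 hg hy hc (Ch_mono (Finset.Subset.refl _) hA1 hw) e1.symm)
    (DA4_G1 hg hz (Ch_mono (Finset.Subset.refl _) hA2 hw) hc' (e1.trans h))

private theorem DA4_G3 [CharP k 2] {G : SimpleGraph T} {S K : Finset T} {e : T → Matrix ι ι k}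
    (hg : DA4_H G e S K) {y z : T} (hy : y ∈ K)
    (hyz : Relation.ReflTransGen (fun a b => a ∈ K ∧ b ∈ K ∧ G.Adj a b) y z)
    {c : Finset T → ι → k} (hc : c ∈ Ch G e ∅ (nb G K y) 1) :
    ∀ c' ∈ Ch G e ∅ (nb G K z) 1, bd c = bd c' → DA4_Hom G e K c c' := by
  induction hyz with
  | refl =>
    intro c' hc' h
    exact DA4_G1 hg hy hc hc' h
  | tail _ hbc ih =>
    intro c' hc' h
    obtain ⟨hb, hz, hadj⟩ := hbc
    obtain ⟨w, hw, e1⟩ := DA4_lift hg nb_subset (hg.h3 _ hb) hc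
    exact DA4_trans (ih w hw e1.symm) (DA4_G2 hg hb hz hadj hw hc' (e1.trans h))

theorem glue2 [CharP k 2] {G : SimpleGraph T} {S : Finset T} {e : T → Matrix ι ι k}
    (hcpl : Cpl G S e) {K : Finset T} (hKS : K ⊆ S) (hc : Conn G K)
    (h1 : ∀ y ∈ K, HZ G e ∅ (nb G K y) 1)
    (h2 : ∀ y ∈ K, ∀ z ∈ nb G K y, ∃ a ∈ nb G (nb G K y) z, ∃ b ∈ nb G (nb G K y) z,
      a ≠ b ∧ ¬ G.Adj a b)
    (h3 : ∀ y ∈ K, ∃ a ∈ nb G K y, ∃ b ∈ nb G K y, a ≠ b ∧ ¬ G.Adj a b) :
    HZ G e ∅ K 1 := by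
  classical
  have hg : DA4_H G e S K := ⟨hcpl, hKS, hc, h1, h2, h3⟩
  intro c hc hbc
  obtain ⟨y0, hy0⟩ := hg.conn.1
  let cs : T → Finset T → ι → k := fun s σ => if σ = {s} then c σ else 0
  have hcs : ∀ s σ, cs s σ = if σ = {s} then c σ else 0 := fun _ _ => rfl
  have hsum : ∑ s ∈ K, cs s = c := by
    funext σ
    rw [Finset.sum_apply]
    by_cases h0 : c σ = 0
    · rw [h0]
      refine Finset.sum_eq_zero (fun s _ => ?_)
      rw [hcs, h0, ite_self]
    · obtain ⟨h1, -, h3⟩ := (mem_Ch.1 hc σ).1 h0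
      obtain ⟨s0, rfl⟩ := Finset.card_eq_one.1 h3
      rw [Finset.sum_eq_single s0]
      · rw [hcs, if_pos rfl]
      · intro b _ hb
        rw [hcs, if_neg]
        intro h4
        exact hb (Finset.singleton_injective h4).symm
      · intro h4
        exact absurd (h1 (Finset.mem_singleton_self _)) h4
  have hstep : ∀ s ∈ K, ∃ w b : Finset T → ι → k, w ∈ Ch G e ∅ (nb G K y0) 1 ∧ bd w = bd (cs s) ∧
      b ∈ Ch G e ∅ K 2 ∧ bd b = cs s + w := by
    intro s hs
    obtain ⟨ys, hys, -⟩ := hg.h3 s hs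
    rw [mem_nb] at hys
    have h1 : cs s ∈ Ch G e ∅ (nb G K ys) 1 := by
      rw [mem_Ch]
      intro σ
      rw [hcs]
      split_ifs with h2
      · refine ⟨fun _ => ?_, (mem_Ch.1 hc σ).2⟩
        rw [h2]
        refine ⟨?_, ?_, Finset.card_singleton s⟩
        · intro t ht
          rw [Finset.mem_singleton] at ht
          rw [ht, mem_nb]
          exact ⟨hs, hys.2.symm⟩
        · intro a ha b hb hab
          rw [Finset.mem_singleton] at ha hb
          exact absurd (ha.trans hb.symm) hab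
      · exact ⟨fun h => absurd rfl h, fun t _ => Matrix.mulVec_zero _⟩
    obtain ⟨w, hw, e1⟩ := DA4_lift hg nb_subset (hg.h3 _ hy0) h1
    obtain ⟨b, hb, e2⟩ := DA4_G3 hg hys.1 (hg.conn.2 ys hys.1 y0 hy0) h1 w hw e1.symm
    exact ⟨w, b, hw, e1, hb, e2⟩
  choose! w b hw using hstep
  have hW : ∑ s ∈ K, w s ∈ Ch G e ∅ (nb G K y0) 1 := Submodule.sum_mem _ (fun s hs => (hw s hs).1)
  have hW0 : bd (∑ s ∈ K, w s) = 0 := by
    rw [map_sum, Finset.sum_congr rfl (fun s hs => (hw s hs).2.1), ← map_sum, hsum, hbc]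
  obtain ⟨b', hb', e3⟩ := hg.h1 y0 hy0 _ hW hW0
  refine ⟨∑ s ∈ K, b s + b', Submodule.add_mem _ (Submodule.sum_mem _ (fun s hs => (hw s hs).2.2.1))
    (Ch_mono (Finset.Subset.refl _) nb_subset hb'), ?_⟩
  rw [map_add, map_sum, Finset.sum_congr rfl (fun s hs => (hw s hs).2.2.2), Finset.sum_add_distrib,
    hsum, e3, add_assoc, DA4_add_self, add_zero]

end Pool.Agent.LibFlagPL

end

section

namespace Pool.Agent.LibFlagPL

open Finset

set_option linter.unusedSectionVars false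

variable {T : Type} [Fintype T] [DecidableEq T] {k : Type} [Field k]
variable {ι : Type} [Fintype ι] [DecidableEq ι]

private theorem DA5_desc {P : Finset T → Prop} (K : Finset T)
    (hs : ∀ (B : Finset T) (y : T), y ∉ B → y ∈ K → B ⊆ K → P (insert y B) → P B) (hK : P K) :
    ∀ B : Finset T, B ⊆ K → P B := by
  have key : ∀ n (B : Finset T), B ⊆ K → (K \ B).card = n → P B := by
    intro n
    induction n with
    | zero =>
      intro B hB h
      have h1 : K ⊆ B := Finset.sdiff_eq_empty_iff_subset.1 (Finset.card_eq_zero.1 h)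
      rw [Finset.Subset.antisymm hB h1]
      exact hK
    | succ n ih =>
      intro B hB h
      have hne : (K \ B).Nonempty := by
        rw [← Finset.card_pos, h]
        omega
      obtain ⟨y, hy⟩ := hne
      rw [Finset.mem_sdiff] at hy
      refine hs B y hy.2 hy.1 hB (ih _ (Finset.insert_subset hy.1 hB) ?_)
      have h2 : K \ insert y B = (K \ B).erase y := by
        ext x
        simp only [Finset.mem_sdiff, Finset.mem_insert, Finset.mem_erase]
        tauto
      rw [h2, Finset.card_erase_of_mem (Finset.mem_sdiff.2 hy), h]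
      omega
  exact fun B hB => key _ B hB rfl

private theorem DA5_nb_mono {G : SimpleGraph T} {A S : Finset T} {y : T} (h : A ⊆ S) :
    nb G A y ⊆ nb G S y := by
  intro x hx
  rw [mem_nb] at hx ⊢
  exact ⟨h hx.1, hx.2⟩

private theorem DA5_link {G : SimpleGraph T} {S : Finset T} {e f : T → Matrix ι ι k}
    (hsys : Sys G S e f) {K : Finset T} (hKS : K ⊆ S) (h : ∀ y ∈ K, Acy G e (nb G K y))
    {A : Finset T} (hA : A ⊆ K) {y : T} (hy : y ∈ K) (j : ℕ) :
    HZ G e (insert y ∅) (nb G A y) (j + 2) :=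
  C3 hsys (hKS hy) (DA5_nb_mono (hA.trans hKS)) (Finset.empty_subset _)
    ((h y hy).ge2 (nb G A y) (DA5_nb_mono hA) j)

theorem acy_ge3 [CharP k 2] {G : SimpleGraph T} {S : Finset T} {e f : T → Matrix ι ι k}
    (hsys : Sys G S e f) {K : Finset T} (hKS : K ⊆ S) (h : ∀ y ∈ K, Acy G e (nb G K y))
    {A : Finset T} (hA : A ⊆ K) (j : ℕ) : HZ G e ∅ A (j + 3) := by
  induction A using Finset.induction_on with
  | empty => exact HZ_empty
  | insert y A hy ih =>
    have hyK : y ∈ K := hA (Finset.mem_insert_self _ _)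
    have hAK : A ⊆ K := fun x hx => hA (Finset.mem_insert_of_mem hx)
    exact C1v hy (ih hAK) (DA5_link hsys hKS h hAK hyK j)

theorem acy_two [CharP k 2] {G : SimpleGraph T} {S : Finset T} {e f : T → Matrix ι ι k}
    (hsys : Sys G S e f) {K : Finset T} (hKS : K ⊆ S) (h : ∀ y ∈ K, Acy G e (nb G K y))
    (h2 : HZ G e ∅ K 2) {A : Finset T} (hA : A ⊆ K) : HZ G e ∅ A 2 := by
  refine DA5_desc (P := fun B => HZ G e ∅ B 2) K ?_ h2 A hA
  intro B y hy hyK hBK hP
  exact C2' hy (DA5_link hsys hKS h hBK hyK 0) hP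

end Pool.Agent.LibFlagPL

end

section

set_option linter.unusedSectionVars false

namespace Pool.Agent.LibFlagPL

open Finset

variable {T : Type} [Fintype T] [DecidableEq T]

private theorem DA6_congr {k : Type} [Field k] {G : SimpleGraph T} {S : Finset T}
    {P P' : Set (T × T)} {L L' : Set (Finset T)} (h : Rz k G S P L) (hP : P = P') (hL : L = L') :
    Rz k G S P' L' := by
  rw [← hP, ← hL]
  exact h

theorem all_goals2 (k : Type) [Field k] [CharP k 2] [Infinite k] (G : SimpleGraph T)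
    (S : Finset T) (Q : Finset (Finset T)) (hQ : ∀ L ∈ Q, L ⊆ S ∧ F2 G L) :
    Rz k G S {x | x.1 ∈ S ∧ x.2 ∈ S ∧ x.1 ≠ x.2 ∧ ¬ G.Adj x.1 x.2}
      (↑Q : Set (Finset T)) := by
  classical
  have h1 : ∀ Q : Finset (T × T),
      (∀ x ∈ Q, x.1 ∈ S ∧ x.2 ∈ S ∧ x.1 ≠ x.2 ∧ ¬ G.Adj x.1 x.2) →
        Rz k G S (↑Q : Set (T × T)) ∅ := by
    intro Q
    induction Q using Finset.induction_on with
    | empty =>
      intro _
      rw [Finset.coe_empty]
      exact Rz.base0 k G S
    | insert x Q _ ih =>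
      intro hQ
      have e1 := ih fun y hy => hQ y (Finset.mem_insert_of_mem hy)
      obtain ⟨m1, m2, m3, m4⟩ := hQ x (Finset.mem_insert_self _ _)
      have e2 : Rz k G S {(x.1, x.2)} ∅ := Rz.base k m1 m2 m3 m4
      have e3 := Rz.merge e2 e1 (Finset.Subset.refl _)
        (by
          intro y hy
          rw [Set.mem_singleton_iff] at hy
          rw [hy]
          exact ⟨m1, m2⟩)
        (by
          intro y hy
          have hy' := hQ y (Finset.mem_insert_of_mem (Finset.mem_coe.1 hy))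
          exact ⟨hy'.1, hy'.2.1⟩)
        (fun S' hS' => absurd hS' (Set.notMem_empty S'))
        (fun S' hS' => absurd hS' (Set.notMem_empty S'))
      refine DA6_congr e3 ?_ (Set.empty_union _)
      rw [Finset.coe_insert, Set.singleton_union]
  have h2 : Rz k G S {x | x.1 ∈ S ∧ x.2 ∈ S ∧ x.1 ≠ x.2 ∧ ¬ G.Adj x.1 x.2} ∅ := by
    have e := h1 (Finset.univ.filter fun x => x.1 ∈ S ∧ x.2 ∈ S ∧ x.1 ≠ x.2 ∧ ¬ G.Adj x.1 x.2)
      (fun x hx => (Finset.mem_filter.1 hx).2)
    refine DA6_congr e ?_ rfl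
    ext x
    simp
  induction Q using Finset.induction_on with
  | empty =>
    refine DA6_congr h2 rfl ?_
    rw [Finset.coe_empty]
  | insert L Q _ ih =>
    have e1 := ih fun L' hL' => hQ L' (Finset.mem_insert_of_mem hL')
    obtain ⟨hL1, hL2⟩ := hQ L (Finset.mem_insert_self _ _)
    have e2 : Rz k G L ∅ {L} := key k _ G L rfl hL2
    have e3 := Rz.merge e1 e2 hL1
      (fun x hx => ⟨hx.1, hx.2.1⟩)
      (fun x hx => absurd hx (Set.notMem_empty x))
      (fun S' hS' => (hQ S' (Finset.mem_insert_of_mem (Finset.mem_coe.1 hS'))).1)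
      (by
        intro S' hS'
        rw [Set.mem_singleton_iff] at hS'
        rw [hS'])
    refine DA6_congr e3 (Set.union_empty _) ?_
    rw [Finset.coe_insert, Set.insert_eq, Set.union_comm]

theorem exists_good2 (k : Type) [Field k] [CharP k 2] [Infinite k] (G : SimpleGraph T)
    (S : Finset T) :
    ∃ (ι : Type) (_ : Fintype ι) (_ : DecidableEq ι) (e f : T → Matrix ι ι k),
      Nonempty ι ∧ Good2 G S e f := by
  classical
  obtain ⟨ι, i1, i2, e, f, hne, hsys, hP, hL⟩ :=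
    all_goals2 k G S (S.powerset.filter fun L => F2 G L) (fun L hL => by
      rw [Finset.mem_filter, Finset.mem_powerset] at hL
      exact hL)
  refine ⟨ι, i1, i2, e, f, hne, hsys, fun a ha b hb hab nab => ?_, fun L hLS hL2 => ?_⟩
  · exact cpl_of_pair hsys ha hb (hP (a, b) ⟨ha, hb, hab, nab⟩)
  · obtain ⟨a, ha, b, hb, hab, nab⟩ := hL2.exists_pair
    exact HZ_of_link hsys hLS ha hb hab
      (cpl_of_pair hsys (hLS ha) (hLS hb) (hP (a, b) ⟨hLS ha, hLS hb, hab, nab⟩)).2
      (hL _ (Finset.mem_coe.2 (by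
        rw [Finset.mem_filter, Finset.mem_powerset]
        exact ⟨hLS, hL2⟩)))

end Pool.Agent.LibFlagPL

end

section

namespace Pool.Agent.LibFlagPL

open Finset

set_option linter.unusedSectionVars false

variable {T : Type} [Fintype T] [DecidableEq T]

theorem DA7_pair {G : SimpleGraph T} : ∀ (m : ℕ) (S : Finset T), Zc G m S →
    ∃ a ∈ S, ∃ b ∈ S, a ≠ b ∧ ¬ G.Adj a b
  | 0, S, h => by
    obtain ⟨a, b, hab, rfl⟩ := Finset.card_eq_two.1 h.1
    exact ⟨a, by simp, b, by simp, hab, h.2 a (by simp) b (by simp)⟩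
  | 1, S, h => Circle.exists_pair h
  | 2, S, h => F2.exists_pair h
  | (m + 3), S, h => by
    obtain ⟨s, hs⟩ := h.1.1
    obtain ⟨a, ha, b, hb, h1⟩ := DA7_pair (m + 2) (nb G S s) (h.2.1 s hs)
    exact ⟨a, nb_subset ha, b, nb_subset hb, h1⟩

theorem DA7_link {G : SimpleGraph T} (m : ℕ) (S : Finset T) (h : Zc G (m + 1) S) {s : T}
    (hs : s ∈ S) : Zc G m (nb G S s) := by
  cases m with
  | zero =>
    have h' : Circle G S := h
    refine ⟨h'.2.1 s hs, fun a ha b hb hadj => ?_⟩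
    exact h'.not_adj hs ha hb hadj.ne hadj
  | succ m =>
    cases m with
    | zero =>
      have h' : F2 G S := h
      exact h'.2.1 s hs
    | succ m => exact h.2.1 s hs

section

variable {k : Type} [Field k]
variable {ι : Type} [Fintype ι] [DecidableEq ι]

/-- Euler characteristic when the homology vanishes in degrees at least three -/
private theorem DA7_euler [CharP k 2] {G : SimpleGraph T} {S : Finset T} {e f : T → Matrix ι ι k}
    (h : Sys G S e f) {A : Finset T} (hA : A ⊆ S) (h3 : ∀ j, HZ G e ∅ A (j + 3)) :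
    (Fintype.card ι : ℚ) * chi G A =
      ((zk G e ∅ A 0 : ℚ) - rk G e ∅ A 1) - ((zk G e ∅ A 1 : ℚ) - rk G e ∅ A 2) +
        ((zk G e ∅ A 2 : ℚ) - rk G e ∅ A 3) := by
  rw [euler h hA (M := A.card + 2) (by omega)]
  have h1 : range 3 ⊆ range (A.card + 2 + 1) := Finset.range_mono (by omega)
  rw [← Finset.sum_subset h1]
  · simp only [Finset.sum_range_succ, Finset.sum_range_zero]
    ring
  · intro j _ hj
    rw [Finset.mem_range, not_lt] at hj
    obtain ⟨i, rfl⟩ := Nat.exists_eq_add_of_le hj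
    have h2 := zk_of_HZ (h3 i)
    rw [show 3 + i = i + 3 by omega, h2, sub_self, mul_zero]

private theorem DA7_low [CharP k 2] {G : SimpleGraph T} {S : Finset T} {e f : T → Matrix ι ι k}
    (hg : Good2 G S e f) {K : Finset T} (hKS : K ⊆ S) (m : ℕ) (hc : Conn G K)
    (hl : ∀ s ∈ K, Zc G (m + 2) (nb G K s)) (ha : ∀ s ∈ K, Acy G e (nb G K s)) :
    HZ G e ∅ K 0 ∧ HZ G e ∅ K 1 ∧
      (Fintype.card ι : ℚ) * chi G K = (zk G e ∅ K 2 : ℚ) - rk G e ∅ K 3 := by
  have h0 : HZ G e ∅ K 0 := by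
    refine M0 hg.cpl hKS ?_
    obtain ⟨s, hs⟩ := hc.1
    obtain ⟨a, ha, b, hb, h1⟩ := DA7_pair _ _ (hl s hs)
    exact ⟨a, nb_subset ha, b, nb_subset hb, h1⟩
  have h1 : HZ G e ∅ K 1 := by
    refine glue2 hg.cpl hKS hc (fun y hy => (ha y hy).one) (fun y hy z hz => ?_)
      (fun y hy => DA7_pair _ _ (hl y hy))
    exact DA7_pair _ _ (DA7_link (m + 1) _ (hl y hy) hz)
  have h2 := DA7_euler hg.sys hKS (fun j => acy_ge3 hg.sys hKS ha (Finset.Subset.refl K) j)
  have z0 := zk_of_HZ h0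
  have z1 := zk_of_HZ h1
  refine ⟨h0, h1, ?_⟩
  rw [h2, z0, z1]
  norm_num

theorem acy_nonneg [CharP k 2] {G : SimpleGraph T} {S : Finset T} {e f : T → Matrix ι ι k}
    (hne : Nonempty ι) (hg : Good2 G S e f) {K : Finset T} (hKS : K ⊆ S) (m : ℕ) (hc : Conn G K)
    (hl : ∀ s ∈ K, Zc G (m + 2) (nb G K s)) (ha : ∀ s ∈ K, Acy G e (nb G K s)) :
    0 ≤ chi G K := by
  have hN : (0 : ℚ) < Fintype.card ι := by exact_mod_cast Fintype.card_pos
  obtain ⟨-, -, h⟩ := DA7_low hg hKS m hc hl ha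
  have h2 : (rk G e ∅ K 3 : ℚ) ≤ zk G e ∅ K 2 := by exact_mod_cast rk_le_zk G e ∅ K 2
  have h3 : 0 ≤ (Fintype.card ι : ℚ) * chi G K := by
    rw [h]
    linarith
  exact nonneg_of_mul_nonneg_right h3 hN

theorem acy_step [CharP k 2] {G : SimpleGraph T} {S : Finset T} {e f : T → Matrix ι ι k}
    (hg : Good2 G S e f) {K : Finset T} (hKS : K ⊆ S) (m : ℕ) (hc : Conn G K)
    (hl : ∀ s ∈ K, Zc G (m + 2) (nb G K s)) (ha : ∀ s ∈ K, Acy G e (nb G K s))
    (h0 : chi G K = 0) : Acy G e K := by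
  obtain ⟨-, h1, h⟩ := DA7_low hg hKS m hc hl ha
  rw [h0, mul_zero] at h
  have h2 : (zk G e ∅ K 2 : ℚ) = rk G e ∅ K 3 := by linarith
  have h3 : zk G e ∅ K 2 = rk G e ∅ K 3 := by exact_mod_cast h2
  have h4 : HZ G e ∅ K 2 := HZ_of_zk h3.le
  refine ⟨h1, fun A hA j => ?_⟩
  cases j with
  | zero => exact acy_two hg.sys hKS ha h4 hA
  | succ j => exact acy_ge3 hg.sys hKS ha hA j

theorem acy_zc [CharP k 2] {G : SimpleGraph T} {S : Finset T} {e f : T → Matrix ι ι k}
    (hg : Good2 G S e f) : ∀ (m : ℕ) (K : Finset T), K ⊆ S → Zc G (m + 2) K → Acy G e K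
  | 0, K, hKS, hK => acy_F2 hg hKS hK
  | (m + 1), K, hKS, hK =>
    acy_step hg hKS m hK.1 hK.2.1
      (fun s hs => acy_zc hg m _ (nb_subset.trans hKS) (hK.2.1 s hs)) hK.2.2

theorem Acy.chi_le [CharP k 2] {G : SimpleGraph T} {S : Finset T} {e f : T → Matrix ι ι k}
    (hne : Nonempty ι) (hg : Good2 G S e f) {K : Finset T} (hKS : K ⊆ S) (hK : Acy G e K)
    {A : Finset T} (hA : A ⊆ K) (hn : ¬ Cl G A) : chi G A ≤ 0 := by
  have hN : (0 : ℚ) < Fintype.card ι := by exact_mod_cast Fintype.card_pos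
  have h1 := DA7_euler hg.sys (hA.trans hKS) (fun j => hK.ge2 A hA (j + 1))
  have hpair : ∃ a ∈ A, ∃ b ∈ A, a ≠ b ∧ ¬ G.Adj a b := by
    by_contra hcon
    apply hn
    intro s hs t ht hst
    by_contra hadj
    exact hcon ⟨s, hs, t, ht, hst, hadj⟩
  have z0 := zk_of_HZ (M0 hg.cpl (hA.trans hKS) hpair)
  have z2 := zk_of_HZ (hK.ge2 A hA 0)
  have h2 : (rk G e ∅ A 2 : ℚ) ≤ zk G e ∅ A 1 := by exact_mod_cast rk_le_zk G e ∅ A 1
  have z2' : zk G e ∅ A 2 = rk G e ∅ A 3 := z2
  have z0' : zk G e ∅ A 0 = rk G e ∅ A 1 := z0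
  rw [z0', z2'] at h1
  have h3 : (Fintype.card ι : ℚ) * chi G A ≤ 0 := by
    rw [h1]
    linarith
  exact nonpos_of_mul_nonpos_right h3 hN

end

theorem dHypG : DHypG := by
  intro m T _ _ G S hc hl
  have : Fact (Nat.Prime 2) := ⟨Nat.prime_two⟩
  have : CharP (AlgebraicClosure (ZMod 2)) 2 :=
    charP_of_injective_algebraMap (algebraMap (ZMod 2) (AlgebraicClosure (ZMod 2))).injective 2
  have : Infinite (AlgebraicClosure (ZMod 2)) := IsAlgClosed.instInfinite
  obtain ⟨ι, h1, h2, e, f, hne, hg⟩ := exists_good2 (AlgebraicClosure (ZMod 2)) G S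
  exact acy_nonneg hne hg (Finset.Subset.refl S) m hc hl
    (fun s hs => acy_zc hg m _ nb_subset (hl s hs))

theorem nHypG : NHypG := by
  intro m T _ _ G S hS A hA hn
  have : Fact (Nat.Prime 2) := ⟨Nat.prime_two⟩
  have : CharP (AlgebraicClosure (ZMod 2)) 2 :=
    charP_of_injective_algebraMap (algebraMap (ZMod 2) (AlgebraicClosure (ZMod 2))).injective 2
  have : Infinite (AlgebraicClosure (ZMod 2)) := IsAlgClosed.instInfinite
  obtain ⟨ι, h1, h2, e, f, hne, hg⟩ := exists_good2 (AlgebraicClosure (ZMod 2)) G S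
  exact Acy.chi_le hne hg (Finset.Subset.refl S) (acy_zc hg (m + 1) S (Finset.Subset.refl S) hS)
    hA hn

end Pool.Agent.LibFlagPL

end
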