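import Pool.Agent.LibFlagPL.Graphs

/-!
# LibFlagPL.CommonA: common neighbours of two nonadjacent vertices, first part
-/

section

namespace Pool.Agent.LibFlagPL

open Finset

variable {T : Type} [Fintype T] [DecidableEq T]

theorem Conn.eq_of_closed_y {G : SimpleGraph T} {S A : Finset T} (h : Conn G S) (hA : A ⊆ S)
    (hne : A.Nonempty) (hcl : ∀ a ∈ A, ∀ b ∈ S, G.Adj a b → b ∈ A) : A = S := by
  refine Finset.Subset.antisymm hA fun y hy => ?_
  obtain ⟨x, hx⟩ := hne
  have h1 := h.2 x (hA hx) y hy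
  induction h1 with
  | refl => exact hx
  | tail _ h3 ih => exact hcl _ (ih h3.1) _ h3.2.1 h3.2.2

end Pool.Agent.LibFlagPL

end

section

namespace Pool.Agent.LibFlagPL

open Finset

variable {T : Type} [Fintype T] [DecidableEq T]

/-- number of triangles with exactly two vertices in `B` -/
noncomputable def mm (G : SimpleGraph T) (K B : Finset T) : ℕ :=
  ∑ r ∈ K \ B, (faces G (nb G B r) 2).card

private theorem Y1_double {G : SimpleGraph T} {S B : Finset T} (j : ℕ) :
    ∑ r ∈ S, (faces G (nb G B r) j).card = ∑ σ ∈ faces G B j, (cn G S σ).card := by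
  classical
  have h1 := Finset.sum_card_bipartiteAbove_eq_sum_card_bipartiteBelow
    (s := S) (t := faces G B j) (fun (r : T) (σ : Finset T) => ∀ s ∈ σ, G.Adj r s)
  have h2 : ∀ r ∈ S, (Finset.bipartiteAbove (fun (r : T) (σ : Finset T) => ∀ s ∈ σ, G.Adj r s)
      (faces G B j) r).card = (faces G (nb G B r) j).card := by
    intro r _
    congr 1
    ext σ
    rw [Finset.mem_bipartiteAbove, mem_faces, mem_faces]
    constructor
    · rintro ⟨⟨h3, h4, h5⟩, h6⟩
      exact ⟨fun s hs => mem_nb.2 ⟨h3 hs, h6 s hs⟩, h4, h5⟩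
    · rintro ⟨h3, h4, h5⟩
      exact ⟨⟨fun s hs => (mem_nb.1 (h3 hs)).1, h4, h5⟩, fun s hs => (mem_nb.1 (h3 hs)).2⟩
  have h3 : ∀ σ ∈ faces G B j, (Finset.bipartiteBelow
      (fun (r : T) (σ : Finset T) => ∀ s ∈ σ, G.Adj r s) S σ).card = (cn G S σ).card := by
    intro σ _
    congr 1
    ext r
    rw [Finset.mem_bipartiteBelow, mem_cn]
    exact ⟨fun h => ⟨h.1, fun s hs => (h.2 s hs).symm⟩, fun h => ⟨h.1, fun s hs => (h.2 s hs).symm⟩⟩
  rw [Finset.sum_congr rfl h2, Finset.sum_congr rfl h3] at h1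
  exact h1

private theorem Y1_cn {G : SimpleGraph T} {K B σ : Finset T} (h : F2 G K) (hB : B ⊆ K)
    (hσ : σ ∈ faces G B 2) : (cn G K σ).card = 2 := by
  obtain ⟨h1, h2, h3⟩ := mem_faces.1 hσ
  obtain ⟨a, b, hab, rfl⟩ := Finset.card_eq_two.1 h3
  have ha : a ∈ K := hB (h1 (by simp))
  have hb : b ∈ K := hB (h1 (by simp))
  have hadj : G.Adj a b := h2 a (by simp) b (by simp) hab
  have h4 : cn G K {a, b} = nb G (nb G K a) b := by
    ext t
    rw [mem_cn, mem_nb, mem_nb]
    constructor
    · rintro ⟨h5, h6⟩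
      exact ⟨⟨h5, h6 a (by simp)⟩, h6 b (by simp)⟩
    · rintro ⟨⟨h5, h6⟩, h7⟩
      refine ⟨h5, fun s hs => ?_⟩
      rw [Finset.mem_insert, Finset.mem_singleton] at hs
      rcases hs with rfl | rfl
      · exact h6
      · exact h7
  rw [h4]
  exact (h.2.1 a ha).2.1 b (mem_nb.2 ⟨hb, hadj⟩)

theorem F2.two_mul_faces_two {G : SimpleGraph T} {K B : Finset T} (h : F2 G K) (hB : B ⊆ K) :
    2 * (faces G B 2).card = 3 * (faces G B 3).card + mm G K B := by
  have h1 : ∑ σ ∈ faces G B 2, (cn G K σ).card = (faces G B 2).card * 2 := by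
    rw [Finset.sum_congr rfl fun σ hσ => Y1_cn h hB hσ, Finset.sum_const, smul_eq_mul]
  have h2 := Y1_double (G := G) (S := K) (B := B) 2
  have h3 := sum_faces_nb (G := G) (S := B) 2
  have h4 : ∑ r ∈ K \ B, (faces G (nb G B r) 2).card + ∑ r ∈ B, (faces G (nb G B r) 2).card =
      ∑ r ∈ K, (faces G (nb G B r) 2).card := Finset.sum_sdiff hB
  have h5 : (faces G B (2 + 1)).card = (faces G B 3).card := rfl
  unfold mm
  omega

end Pool.Agent.LibFlagPL

end

section

namespace Pool.Agent.LibFlagPL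

open Finset

variable {T : Type} [Fintype T] [DecidableEq T]

private theorem Y2_aux {G : SimpleGraph T} {K B : Finset T} (hB : B ⊆ K) :
    ((faces G K 3).filter (fun σ => (σ ∩ B).card = 2)).card = mm G K B := by
  classical
  unfold mm
  rw [← Finset.card_sigma]
  symm
  refine Finset.card_bij (fun p _ => insert p.1 p.2) ?_ ?_ ?_
  · rintro ⟨r, e⟩ hp
    rw [Finset.mem_sigma] at hp
    obtain ⟨hr, he⟩ := hp
    simp only at hr he ⊢
    obtain ⟨he1, he2, he3⟩ := mem_faces.1 he
    rw [Finset.mem_sdiff] at hr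
    have heB : e ⊆ B := fun t ht => (mem_nb.1 (he1 ht)).1
    have hre : r ∉ e := fun h => hr.2 (heB h)
    rw [Finset.mem_filter, mem_faces]
    refine ⟨⟨?_, ?_, ?_⟩, ?_⟩
    · intro t ht
      rcases Finset.mem_insert.1 ht with h | h
      · rw [h]; exact hr.1
      · exact hB (heB h)
    · intro a ha b hb hab
      rcases Finset.mem_insert.1 ha with h | h <;> rcases Finset.mem_insert.1 hb with h' | h'
      · exact absurd (h.trans h'.symm) hab
      · rw [h]; exact (mem_nb.1 (he1 h')).2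
      · rw [h']; exact (mem_nb.1 (he1 h)).2.symm
      · exact he2 a h b h' hab
    · rw [Finset.card_insert_of_notMem hre, he3]
    · rw [Finset.insert_inter_of_notMem hr.2, Finset.inter_eq_left.2 heB, he3]
  · rintro ⟨r, e⟩ hp ⟨r', e'⟩ hp' heq
    rw [Finset.mem_sigma] at hp hp'
    obtain ⟨hr, he⟩ := hp
    obtain ⟨hr', he'⟩ := hp'
    simp only at hr he hr' he' heq
    rw [Finset.mem_sdiff] at hr hr'
    have heB : e ⊆ B := fun t ht => (mem_nb.1 ((mem_faces.1 he).1 ht)).1
    have heB' : e' ⊆ B := fun t ht => (mem_nb.1 ((mem_faces.1 he').1 ht)).1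
    have h1 : e = e' := by
      have : insert r e ∩ B = insert r' e' ∩ B := by rw [heq]
      rw [Finset.insert_inter_of_notMem hr.2, Finset.insert_inter_of_notMem hr'.2,
        Finset.inter_eq_left.2 heB, Finset.inter_eq_left.2 heB'] at this
      exact this
    have h2 : r = r' := by
      have h3 : r ∈ insert r' e' := heq ▸ Finset.mem_insert_self r e
      rcases Finset.mem_insert.1 h3 with h | h
      · exact h
      · exact absurd (heB' h) hr.2
    subst h1
    subst h2
    rfl
  · intro σ hσ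
    rw [Finset.mem_filter, mem_faces] at hσ
    obtain ⟨⟨h1, h2, h3⟩, h4⟩ := hσ
    have h5 : (σ \ B).card = 1 := by
      have := Finset.card_sdiff_add_card_inter σ B
      omega
    obtain ⟨r, hr⟩ := Finset.card_eq_one.1 h5
    have hrσ : r ∈ σ \ B := by rw [hr]; exact Finset.mem_singleton_self r
    rw [Finset.mem_sdiff] at hrσ
    refine ⟨⟨r, σ ∩ B⟩, ?_, ?_⟩
    · rw [Finset.mem_sigma]
      refine ⟨Finset.mem_sdiff.2 ⟨h1 hrσ.1, hrσ.2⟩, ?_⟩
      rw [mem_faces]
      refine ⟨?_, ?_, h4⟩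
      · intro t ht
        rw [Finset.mem_inter] at ht
        refine mem_nb.2 ⟨ht.2, h2 r hrσ.1 t ht.1 ?_⟩
        rintro rfl
        exact hrσ.2 ht.2
      · intro a ha b hb hab
        exact h2 a (Finset.mem_inter.1 ha).1 b (Finset.mem_inter.1 hb).1 hab
    · simp only
      rw [Finset.insert_eq, ← hr]
      exact Finset.sdiff_union_inter σ B

theorem faces_three_split {G : SimpleGraph T} {K B : Finset T} (hB : B ⊆ K) :
    (faces G K 3).card =
      (faces G B 3).card + (faces G (K \ B) 3).card + mm G K B + mm G K (K \ B) := by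
  classical
  have hfib := Finset.card_eq_sum_card_fiberwise (s := faces G K 3) (t := Finset.range 4)
    (f := fun σ => (σ ∩ B).card) (by
      intro σ hσ
      have h1 := (mem_faces.1 (Finset.mem_coe.1 hσ)).2.2
      have h2 := Finset.card_le_card (Finset.inter_subset_left (s₁ := σ) (s₂ := B))
      rw [Finset.mem_coe, Finset.mem_range]
      simp only
      omega)
  rw [hfib]
  simp only [Finset.sum_range_succ, Finset.sum_range_zero, zero_add]
  have hkey : ∀ σ ∈ faces G K 3, (σ ∩ B).card + (σ ∩ (K \ B)).card = 3 := by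
    intro σ hσ
    obtain ⟨h1, h2, h3⟩ := mem_faces.1 hσ
    have h4 := Finset.card_sdiff_add_card_inter σ B
    have h5 : σ ∩ (K \ B) = σ \ B := by
      ext t
      simp only [Finset.mem_inter, Finset.mem_sdiff]
      constructor
      · rintro ⟨h, _, h'⟩
        exact ⟨h, h'⟩
      · rintro ⟨h, h'⟩
        exact ⟨h, h1 h, h'⟩
    rw [h5]
    omega
  have e0 : (faces G K 3).filter (fun σ => (σ ∩ B).card = 0) = faces G (K \ B) 3 := by
    ext σ
    rw [Finset.mem_filter, mem_faces, mem_faces, Finset.card_eq_zero]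
    constructor
    · rintro ⟨⟨h1, h2, h3⟩, h4⟩
      refine ⟨fun t ht => Finset.mem_sdiff.2 ⟨h1 ht, fun htB => ?_⟩, h2, h3⟩
      have : t ∈ σ ∩ B := Finset.mem_inter.2 ⟨ht, htB⟩
      rw [h4] at this
      simp at this
    · rintro ⟨h1, h2, h3⟩
      refine ⟨⟨fun t ht => (Finset.mem_sdiff.1 (h1 ht)).1, h2, h3⟩, ?_⟩
      rw [Finset.eq_empty_iff_forall_notMem]
      intro t ht
      rw [Finset.mem_inter] at ht
      exact (Finset.mem_sdiff.1 (h1 ht.1)).2 ht.2
  have e3 : (faces G K 3).filter (fun σ => (σ ∩ B).card = 3) = faces G B 3 := by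
    ext σ
    rw [Finset.mem_filter, mem_faces, mem_faces]
    constructor
    · rintro ⟨⟨h1, h2, h3⟩, h4⟩
      refine ⟨?_, h2, h3⟩
      have : σ ∩ B = σ := Finset.eq_of_subset_of_card_le Finset.inter_subset_left (by omega)
      exact Finset.inter_eq_left.1 this
    · rintro ⟨h1, h2, h3⟩
      refine ⟨⟨h1.trans hB, h2, h3⟩, ?_⟩
      rw [Finset.inter_eq_left.2 h1, h3]
  have e1 : (faces G K 3).filter (fun σ => (σ ∩ B).card = 1) =
      (faces G K 3).filter (fun σ => (σ ∩ (K \ B)).card = 2) := by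
    refine Finset.filter_congr (fun σ hσ => ?_)
    have := hkey σ hσ
    omega
  have a2 := Y2_aux (G := G) hB
  have a1 := Y2_aux (G := G) (K := K) (B := K \ B) Finset.sdiff_subset
  rw [e0, e1, e3, a1, a2]
  omega

end Pool.Agent.LibFlagPL

end

section

namespace Pool.Agent.LibFlagPL

open Finset

variable {T : Type} [Fintype T] [DecidableEq T]

/-- Euler number of the complex on `B` (at most two-dimensional) -/
noncomputable def EU (G : SimpleGraph T) (B : Finset T) : ℤ :=
  (B.card : ℤ) - (faces G B 2).card + (faces G B 3).card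

theorem EU_compl {G : SimpleGraph T} {K B : Finset T} (h : F2 G K) (hB : B ⊆ K) :
    EU G B + EU G (K \ B) = 2 := by
  have h1 := h.two_mul_faces_two hB
  have h2 := h.two_mul_faces_two (Finset.sdiff_subset : K \ B ⊆ K)
  have h3 := faces_three_split (G := G) hB
  have h4 := h.faces_three
  have h5 := Finset.card_sdiff_add_card_eq_card hB
  unfold EU
  omega

theorem F2.chi_EU {G : SimpleGraph T} {K B : Finset T} (h : F2 G K) (hB : B ⊆ K) :
    8 * chi G B = 8 - 4 * (EU G B : ℚ) - (mm G K B : ℚ) := by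
  have h0 := chi_eq_sum (G := G) (S := B) (m := 3) (fun σ h1 h2 => h.no_four (h1.trans hB) h2)
  have h1 := h.two_mul_faces_two hB
  have h1' : (2 : ℚ) * (faces G B 2).card = 3 * (faces G B 3).card + mm G K B := by
    exact_mod_cast h1
  rw [h0, Finset.sum_range_succ, Finset.sum_range_succ, Finset.sum_range_succ,
    Finset.sum_range_succ, Finset.sum_range_zero, faces_zero, card_faces_one, Finset.card_singleton]
  unfold EU
  push_cast
  linarith

end Pool.Agent.LibFlagPL

end

section

namespace Pool.Agent.LibFlagPL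

open Finset

variable {T : Type} [Fintype T] [DecidableEq T]

theorem chi_union_y {G : SimpleGraph T} {A B : Finset T}
    (h : ∀ x ∈ A \ B, ∀ y ∈ B \ A, ¬ G.Adj x y) :
    chi G (A ∪ B) + chi G (A ∩ B) = chi G A + chi G B := by
  classical
  unfold chi
  have h1 : ((A ∪ B).powerset.filter fun σ => Cl G σ) =
      (A.powerset.filter fun σ => Cl G σ) ∪ (B.powerset.filter fun σ => Cl G σ) := by
    ext σ
    simp only [Finset.mem_union, Finset.mem_filter, Finset.mem_powerset]
    constructor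
    · rintro ⟨h1, h2⟩
      by_cases hA : σ ⊆ A
      · exact Or.inl ⟨hA, h2⟩
      · by_cases hB : σ ⊆ B
        · exact Or.inr ⟨hB, h2⟩
        · exfalso
          obtain ⟨y, hy, hyA⟩ := Finset.not_subset.1 hA
          obtain ⟨x, hx, hxB⟩ := Finset.not_subset.1 hB
          have hyB : y ∈ B := (Finset.mem_union.1 (h1 hy)).resolve_left hyA
          have hxA : x ∈ A := (Finset.mem_union.1 (h1 hx)).resolve_right hxB
          have hne : x ≠ y := fun e => hyA (e ▸ hxA)
          exact h x (Finset.mem_sdiff.2 ⟨hxA, hxB⟩) y (Finset.mem_sdiff.2 ⟨hyB, hyA⟩)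
            (h2 x hx y hy hne)
    · rintro (⟨h1, h2⟩ | ⟨h1, h2⟩)
      · exact ⟨h1.trans Finset.subset_union_left, h2⟩
      · exact ⟨h1.trans Finset.subset_union_right, h2⟩
  have h2 : ((A ∩ B).powerset.filter fun σ => Cl G σ) =
      (A.powerset.filter fun σ => Cl G σ) ∩ (B.powerset.filter fun σ => Cl G σ) := by
    ext σ
    simp only [Finset.mem_inter, Finset.mem_filter, Finset.mem_powerset, Finset.subset_inter_iff]
    tauto
  rw [h1, h2]
  exact Finset.sum_union_inter

theorem chi_clique {G : SimpleGraph T} {A : Finset T} (h : Cl G A) :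
    chi G A = (1 / 2 : ℚ) ^ A.card := by
  classical
  unfold chi
  have h1 : (A.powerset.filter fun σ => Cl G σ) = A.powerset := by
    refine Finset.filter_true_of_mem fun σ hσ => ?_
    have h2 := Finset.mem_powerset.1 hσ
    exact fun s hs t ht hst => h s (h2 hs) t (h2 ht) hst
  rw [h1]
  have h3 := Finset.sum_pow_mul_eq_add_pow (-1 / 2 : ℚ) 1 A
  simp only [one_pow, mul_one] at h3
  rw [h3]
  norm_num

end Pool.Agent.LibFlagPL

end

section

namespace Pool.Agent.LibFlagPL

open Finset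

variable {T : Type} [Fintype T] [DecidableEq T]

/-- the edge set `F` connects `B` -/
def ConnFy (B : Finset T) (F : Finset (Finset T)) : Prop :=
  B.Nonempty ∧ ∀ x ∈ B, ∀ y ∈ B,
    Relation.ReflTransGen (fun a b => a ∈ B ∧ b ∈ B ∧ a ≠ b ∧ ({a, b} : Finset T) ∈ F) x y

omit [Fintype T] [DecidableEq T] in
private theorem Y5_cross {r : T → T → Prop} {x y : T} (h : Relation.ReflTransGen r x y)
    (A : Finset T) (hx : x ∈ A) (hy : y ∉ A) : ∃ a b, r a b ∧ a ∈ A ∧ b ∉ A := by
  induction h with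
  | refl => exact absurd hx hy
  | @tail b c _ hbc ih =>
    by_cases hb : b ∈ A
    · exact ⟨b, c, hbc, hb, hy⟩
    · exact ih hb

theorem ConnFy.card_le {B : Finset T} {F : Finset (Finset T)} (h : ConnFy B F) :
    B.card ≤ F.card + 1 := by
  classical
  obtain ⟨⟨x, hx⟩, hconn⟩ := h
  have key : ∀ k : ℕ, k + 1 ≤ B.card → ∃ A ⊆ B, x ∈ A ∧ A.card = k + 1 ∧
      A.card ≤ (F.filter fun e => e ⊆ A).card + 1 := by
    intro k
    induction k with
    | zero =>
      intro _
      exact ⟨{x}, Finset.singleton_subset_iff.2 hx, Finset.mem_singleton_self x,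
        Finset.card_singleton x, by rw [Finset.card_singleton]; omega⟩
    | succ k ih =>
      intro hk
      obtain ⟨A, hAB, hxA, hAk, hAF⟩ := ih (by omega)
      have hne : ∃ y ∈ B, y ∉ A := by
        by_contra hcon
        push Not at hcon
        have := Finset.card_le_card (fun y hy => hcon y hy : B ⊆ A)
        omega
      obtain ⟨y, hyB, hyA⟩ := hne
      obtain ⟨a, b, hab, haA, hbA⟩ := Y5_cross (hconn x hx y hyB) A hxA hyA
      refine ⟨insert b A, ?_, Finset.mem_insert_of_mem hxA, ?_, ?_⟩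
      · intro z hz
        rcases Finset.mem_insert.1 hz with rfl | hz
        · exact hab.2.1
        · exact hAB hz
      · rw [Finset.card_insert_of_notMem hbA, hAk]
      · rw [Finset.card_insert_of_notMem hbA]
        have h1 : insert ({a, b} : Finset T) (F.filter fun e => e ⊆ A) ⊆
            F.filter fun e => e ⊆ insert b A := by
          intro e he
          rcases Finset.mem_insert.1 he with rfl | he
          · rw [Finset.mem_filter]
            refine ⟨hab.2.2.2, ?_⟩
            intro z hz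
            rw [Finset.mem_insert, Finset.mem_singleton] at hz
            rcases hz with rfl | rfl
            · exact Finset.mem_insert_of_mem haA
            · exact Finset.mem_insert_self _ _
          · rw [Finset.mem_filter] at he ⊢
            exact ⟨he.1, he.2.trans (Finset.subset_insert _ _)⟩
        have h2 : ({a, b} : Finset T) ∉ F.filter fun e => e ⊆ A := by
          intro h3
          rw [Finset.mem_filter] at h3
          exact hbA (h3.2 (Finset.mem_insert_of_mem (Finset.mem_singleton_self b)))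
        have h3 := Finset.card_le_card h1
        rw [Finset.card_insert_of_notMem h2] at h3
        omega
  have hpos : 0 < B.card := Finset.card_pos.2 ⟨x, hx⟩
  obtain ⟨A, -, -, hAk, hAF⟩ := key (B.card - 1) (by omega)
  have h4 := Finset.card_filter_le F (fun e => e ⊆ A)
  omega

end Pool.Agent.LibFlagPL

end

section

namespace Pool.Agent.LibFlagPL

open Finset

variable {T : Type} [Fintype T] [DecidableEq T]

theorem ConnFy.collapse {B : Finset T} {F D : Finset (Finset T)} (h : ConnFy B F)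
    (hD : ∀ τ ∈ D, τ ⊆ B ∧ τ.card = 3 ∧ ∀ e ⊆ τ, e.card = 2 → e ∈ F)
    (hfree : ∀ D' ⊆ D, D'.Nonempty →
      ∃ e : Finset T, e.card = 2 ∧ (D'.filter fun τ => e ⊆ τ).card = 1) :
    B.card + D.card ≤ F.card + 1 := by
  obtain ⟨n, hn⟩ : ∃ n, D.card = n := ⟨_, rfl⟩
  induction n generalizing F D with
  | zero =>
    have := h.card_le
    omega
  | succ n ih =>
    have hne : D.Nonempty := Finset.card_pos.1 (by omega)
    obtain ⟨e, he2, he⟩ := hfree D (Finset.Subset.refl D) hne
    obtain ⟨τ, hτ⟩ := Finset.card_eq_one.1 he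
    have hτm : τ ∈ D.filter fun τ => e ⊆ τ := by rw [hτ]; exact Finset.mem_singleton_self τ
    rw [Finset.mem_filter] at hτm
    obtain ⟨hτD, heτ⟩ := hτm
    have honly : ∀ σ ∈ D, e ⊆ σ → σ = τ := by
      intro σ hσ heσ
      have h1 : σ ∈ D.filter fun τ => e ⊆ τ := Finset.mem_filter.2 ⟨hσ, heσ⟩
      rw [hτ] at h1
      exact Finset.mem_singleton.1 h1
    obtain ⟨hτB, hτ3, hτF⟩ := hD τ hτD
    have heF : e ∈ F := hτF e heτ he2
    have hc1 : (τ \ e).card = 1 := by
      have := Finset.card_sdiff_add_card_eq_card heτ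
      omega
    obtain ⟨c, hc⟩ := Finset.card_eq_one.1 hc1
    have hcm : c ∈ τ \ e := by rw [hc]; exact Finset.mem_singleton_self c
    rw [Finset.mem_sdiff] at hcm
    obtain ⟨hcτ, hce⟩ := hcm
    have hside : ∀ p ∈ e, p ≠ c ∧ ({p, c} : Finset T) ∈ F.erase e := by
      intro p hp
      have hpc : p ≠ c := by
        rintro rfl
        exact hce hp
      refine ⟨hpc, Finset.mem_erase.2 ⟨?_, ?_⟩⟩
      · intro h1
        apply hce
        rw [← h1]
        exact Finset.mem_insert_of_mem (Finset.mem_singleton_self c)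
      · refine hτF _ ?_ (Finset.card_pair hpc)
        intro z hz
        rw [Finset.mem_insert, Finset.mem_singleton] at hz
        rcases hz with rfl | rfl
        · exact heτ hp
        · exact hcτ
    have hconn : ConnFy B (F.erase e) := by
      refine ⟨h.1, fun x hx y hy => ?_⟩
      have h1 := h.2 x hx y hy
      induction h1 with
      | refl => exact Relation.ReflTransGen.refl
      | @tail p q _ hpq ih2 =>
        have hpB := hpq.1
        refine (ih2 hpB).trans ?_
        by_cases hpe : ({p, q} : Finset T) = e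
        · have hp : p ∈ e := by rw [← hpe]; exact Finset.mem_insert_self _ _
          have hq : q ∈ e := by
            rw [← hpe]; exact Finset.mem_insert_of_mem (Finset.mem_singleton_self q)
          have h2 := hside p hp
          have h3 := hside q hq
          refine (Relation.ReflTransGen.single (b := c) ?_).tail ?_
          · exact ⟨hpB, hτB hcτ, h2.1, h2.2⟩
          · refine ⟨hτB hcτ, hpq.2.1, h3.1.symm, ?_⟩
            rw [Finset.pair_comm]
            exact h3.2
        · exact Relation.ReflTransGen.single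
            ⟨hpB, hpq.2.1, hpq.2.2.1, Finset.mem_erase.2 ⟨hpe, hpq.2.2.2⟩⟩
    have h5 := ih (F := F.erase e) (D := D.erase τ) hconn ?_ ?_
      (by rw [Finset.card_erase_of_mem hτD]; omega)
    · rw [Finset.card_erase_of_mem hτD, Finset.card_erase_of_mem heF] at h5
      have h6 : 0 < F.card := Finset.card_pos.2 ⟨e, heF⟩
      omega
    · intro σ hσ
      rw [Finset.mem_erase] at hσ
      obtain ⟨h1, h2, h3⟩ := hD σ hσ.2
      refine ⟨h1, h2, fun e' he' hc2 => Finset.mem_erase.2 ⟨?_, h3 e' he' hc2⟩⟩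
      rintro rfl
      exact hσ.1 (honly σ hσ.2 he')
    · intro D' hD' hne'
      exact hfree D' (hD'.trans (Finset.erase_subset _ _)) hne'

end Pool.Agent.LibFlagPL

end

section

namespace Pool.Agent.LibFlagPL

open Finset

variable {T : Type} [Fintype T] [DecidableEq T]

theorem F2.cover {G : SimpleGraph T} {K : Finset T} (h : F2 G K) {D : Finset (Finset T)}
    (hD : D ⊆ faces G K 3) (hne : D.Nonempty)
    (hfree : ∀ e : Finset T, e.card = 2 → (D.filter fun τ => e ⊆ τ).card ≠ 1) :
    ∀ x ∈ K, ∃ τ ∈ D, x ∈ τ := by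
  obtain ⟨hK, hcirc, -⟩ := h
  have hface : ∀ τ ∈ D, τ ⊆ K ∧ Cl G τ ∧ τ.card = 3 := fun τ hτ => mem_faces.1 (hD hτ)
  -- the step at a covered vertex
  have step : ∀ s, (∃ τ ∈ D, s ∈ τ) → ∀ t ∈ nb G K s, ∃ τ ∈ D, s ∈ τ ∧ t ∈ τ := by
    rintro s ⟨τ₀, hτ₀, hsτ₀⟩
    obtain ⟨hτK, hτcl, hτ3⟩ := hface τ₀ hτ₀
    have hsK : s ∈ K := hτK hsτ₀
    have hC := hcirc s hsK
    obtain ⟨t₀, ht₀τ, ht₀s⟩ : ∃ t₀ ∈ τ₀, t₀ ≠ s := by
      have h1 : 0 < (τ₀.erase s).card := by
        rw [Finset.card_erase_of_mem hsτ₀]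
        omega
      obtain ⟨t₀, ht₀⟩ := Finset.card_pos.1 h1
      rw [Finset.mem_erase] at ht₀
      exact ⟨t₀, ht₀.2, ht₀.1⟩
    have ht₀N : t₀ ∈ nb G K s := mem_nb.2 ⟨hτK ht₀τ, hτcl s hsτ₀ t₀ ht₀τ ht₀s.symm⟩
    have hclosed : ∀ t ∈ nb G K s, (∃ τ ∈ D, s ∈ τ ∧ t ∈ τ) → ∀ u ∈ nb G K s, G.Adj t u →
        ∃ τ ∈ D, s ∈ τ ∧ u ∈ τ := by
      rintro t ht ⟨τ₁, hτ₁, hs₁, ht₁⟩ u hu htu
      have hst : G.Adj s t := (mem_nb.1 ht).2
      have hcard : ({s, t} : Finset T).card = 2 := Finset.card_pair hst.ne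
      have h1 := hfree {s, t} hcard
      have hm₁ : τ₁ ∈ D.filter fun τ => ({s, t} : Finset T) ⊆ τ := by
        rw [Finset.mem_filter]
        refine ⟨hτ₁, ?_⟩
        intro z hz
        rw [Finset.mem_insert, Finset.mem_singleton] at hz
        rcases hz with rfl | rfl
        · exact hs₁
        · exact ht₁
      have h2 : 0 < (D.filter fun τ => ({s, t} : Finset T) ⊆ τ).card := Finset.card_pos.2 ⟨_, hm₁⟩
      have h3 : 1 < (D.filter fun τ => ({s, t} : Finset T) ⊆ τ).card := by omega
      obtain ⟨τ₂, hm₂, hne⟩ := Finset.exists_mem_ne h3 τ₁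
      rw [Finset.mem_filter] at hm₂
      obtain ⟨hτ₂, hst₂⟩ := hm₂
      have hs₂ : s ∈ τ₂ := hst₂ (Finset.mem_insert_self _ _)
      have ht₂ : t ∈ τ₂ := hst₂ (Finset.mem_insert_of_mem (Finset.mem_singleton_self _))
      -- third vertices
      have third : ∀ τ ∈ D, s ∈ τ → t ∈ τ → ∃ w, τ = {s, t, w} ∧ w ∈ nb G (nb G K s) t := by
        intro τ hτ hs ht'
        obtain ⟨hK', hcl', h3'⟩ := hface τ hτ
        have h4 : ((τ.erase s).erase t).card = 1 := by
          rw [Finset.card_erase_of_mem (Finset.mem_erase.2 ⟨hst.ne.symm, ht'⟩),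
            Finset.card_erase_of_mem hs]
          omega
        obtain ⟨w, hw⟩ := Finset.card_eq_one.1 h4
        have hwm : w ∈ (τ.erase s).erase t := by rw [hw]; exact Finset.mem_singleton_self w
        rw [Finset.mem_erase, Finset.mem_erase] at hwm
        refine ⟨w, ?_, ?_⟩
        · rw [← hw, Finset.insert_erase (Finset.mem_erase.2 ⟨hst.ne.symm, ht'⟩),
            Finset.insert_erase hs]
        · exact mem_nb.2 ⟨mem_nb.2 ⟨hK' hwm.2.2, hcl' s hs w hwm.2.2 hwm.2.1.symm⟩,
            hcl' t ht' w hwm.2.2 hwm.1.symm⟩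
      obtain ⟨w₁, he₁, hw₁⟩ := third τ₁ hτ₁ hs₁ ht₁
      obtain ⟨w₂, he₂, hw₂⟩ := third τ₂ hτ₂ hs₂ ht₂
      have hw : w₁ ≠ w₂ := by
        rintro rfl
        exact hne (he₂.trans he₁.symm)
      have h5 : ({w₁, w₂} : Finset T) = nb G (nb G K s) t := by
        refine Finset.eq_of_subset_of_card_le ?_ ?_
        · intro z hz
          rw [Finset.mem_insert, Finset.mem_singleton] at hz
          rcases hz with rfl | rfl
          · exact hw₁
          · exact hw₂
        · rw [Finset.card_pair hw, hC.2.1 t ht]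
      have h6 : u ∈ nb G (nb G K s) t := mem_nb.2 ⟨hu, htu⟩
      rw [← h5, Finset.mem_insert, Finset.mem_singleton] at h6
      rcases h6 with rfl | rfl
      · exact ⟨τ₁, hτ₁, hs₁, by rw [he₁]; simp⟩
      · exact ⟨τ₂, hτ₂, hs₂, by rw [he₂]; simp⟩
    intro t ht
    have hpath := hC.2.2.2 t₀ ht₀N t ht
    clear ht
    induction hpath with
    | refl => exact ⟨τ₀, hτ₀, hsτ₀, ht₀τ⟩
    | @tail p q _ hpq ih => exact hclosed p hpq.1 ih q hpq.2.1 hpq.2.2
  obtain ⟨τ₀, hτ₀⟩ := hne
  obtain ⟨hτK, -, hτ3⟩ := hface τ₀ hτ₀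
  obtain ⟨x₀, hx₀⟩ := Finset.card_pos.1 (show 0 < τ₀.card by omega)
  intro x hx
  have hpath := hK.2 x₀ (hτK hx₀) x hx
  clear hx
  induction hpath with
  | refl => exact ⟨τ₀, hτ₀, hx₀⟩
  | @tail p q _ hpq ih =>
    obtain ⟨τ, hτ, -, h7⟩ := step p ih q (mem_nb.2 ⟨hpq.2.1, hpq.2.2⟩)
    exact ⟨τ, hτ, h7⟩

end Pool.Agent.LibFlagPL

end

section

namespace Pool.Agent.LibFlagPL

open Finset

variable {T : Type} [Fintype T] [DecidableEq T]

theorem EU_le_one {G : SimpleGraph T} {K B : Finset T} (h : F2 G K) (hc : Conn G B)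
    (hB : B ⊆ K) (hne : B ≠ K) : EU G B ≤ 1 := by
  have hconn : ConnFy B (faces G B 2) := by
    refine ⟨hc.1, fun x hx y hy => Relation.ReflTransGen.mono ?_ _ _ (hc.2 x hx y hy)⟩
    intro a b hab
    refine ⟨hab.1, hab.2.1, hab.2.2.ne, mem_faces.2 ⟨?_, ?_, Finset.card_pair hab.2.2.ne⟩⟩
    · intro z hz
      rcases Finset.mem_insert.1 hz with h1 | h1
      · rw [h1]; exact hab.1
      · rw [Finset.mem_singleton.1 h1]; exact hab.2.1
    · intro s hs t ht hst
      rcases Finset.mem_insert.1 hs with h1 | h1 <;> rcases Finset.mem_insert.1 ht with h2 | h2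
      · exact absurd (h1.trans h2.symm) hst
      · rw [h1, Finset.mem_singleton.1 h2]; exact hab.2.2
      · rw [Finset.mem_singleton.1 h1, h2]; exact hab.2.2.symm
      · exact absurd ((Finset.mem_singleton.1 h1).trans (Finset.mem_singleton.1 h2).symm) hst
  have key := hconn.collapse (D := faces G B 3) (fun τ hτ => ?_) (fun D' hD' hne' => ?_)
  · unfold EU
    omega
  · have h1 := mem_faces.1 hτ
    refine ⟨h1.1, h1.2.2, fun e he he2 => mem_faces.2 ⟨fun x hx => h1.1 (he hx), ?_, he2⟩⟩
    intro s hs t ht hst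
    exact h1.2.1 s (he hs) t (he ht) hst
  · by_contra hno
    push Not at hno
    apply hne
    refine Finset.Subset.antisymm hB fun x hx => ?_
    obtain ⟨τ, hτ, hxτ⟩ := h.cover (D := D') (fun τ hτ => by
      have h1 := mem_faces.1 (hD' hτ)
      exact mem_faces.2 ⟨fun z hz => hB (h1.1 hz), h1.2.1, h1.2.2⟩) hne' hno x hx
    exact (mem_faces.1 (hD' hτ)).1 hxτ

theorem EU_eq_one {G : SimpleGraph T} {K B : Finset T} (h : F2 G K) (hc : Conn G B)
    (hB : B ⊆ K) (hc' : Conn G (K \ B)) : EU G B = 1 := by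
  have hne : B ≠ K := by
    rintro rfl
    obtain ⟨x, hx⟩ := hc'.1
    rw [Finset.sdiff_self] at hx
    exact absurd hx (Finset.notMem_empty x)
  have hne' : K \ B ≠ K := by
    intro h1
    obtain ⟨x, hx⟩ := hc.1
    have h2 : x ∈ K \ B := by rw [h1]; exact hB hx
    exact (Finset.mem_sdiff.1 h2).2 hx
  have h1 := EU_le_one h hc hB hne
  have h2 := EU_le_one h hc' Finset.sdiff_subset hne'
  have h3 := EU_compl h hB
  omega

end Pool.Agent.LibFlagPL

end

section

namespace Pool.Agent.LibFlagPL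

open Finset

variable {T : Type} [Fintype T] [DecidableEq T]

private theorem y9_card {G : SimpleGraph T} {P R : Finset T} (hd : Disjoint P R) (p : T) :
    (nb G (P ∪ R) p).card = (nb G P p).card + (nb G R p).card := by
  have h : nb G (P ∪ R) p = nb G P p ∪ nb G R p := by
    ext t
    rw [Finset.mem_union, mem_nb, mem_nb, mem_nb, Finset.mem_union]
    tauto
  rw [h, Finset.card_union_of_disjoint]
  exact Finset.disjoint_of_subset_left nb_subset (Finset.disjoint_of_subset_right nb_subset hd)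

private theorem y9_even {G : SimpleGraph T} {P : Finset T} :
    ∑ p ∈ P, (nb G P p).card = 2 * (faces G P 2).card := by
  have h := sum_faces_nb (G := G) (S := P) 1
  rw [Finset.sum_congr rfl fun s _ => card_faces_one (G := G) (S := nb G P s)] at h
  exact h

private theorem y9_closed {G : SimpleGraph T} {S D : Finset T} (h : Conn G S) (hD : D ⊆ S)
    (hn : D.Nonempty) (hc : ∀ x ∈ D, ∀ y ∈ S, G.Adj x y → y ∈ D) : D = S := by
  obtain ⟨x, hx⟩ := hn
  refine Finset.Subset.antisymm hD fun y hy => ?_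
  have hr := h.2 x (hD hx) y hy
  clear hy
  induction hr with
  | refl => exact hx
  | tail _ hst ih => exact hc _ ih _ hst.2.1 hst.2.2

theorem Circle.cut {G : SimpleGraph T} {C P R : Finset T} (h : Circle G C) (hC : C = P ∪ R)
    (hd : Disjoint P R) (hP : P.Nonempty) (hR : R.Nonempty) :
    2 ≤ ∑ p ∈ P, (nb G R p).card := by
  have h1 : ∑ p ∈ P, (nb G C p).card = P.card * 2 := by
    rw [Finset.sum_congr rfl fun p hp => h.2.1 p (by rw [hC]; exact Finset.mem_union_left _ hp),
      Finset.sum_const, smul_eq_mul]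
  have h2 : ∑ p ∈ P, (nb G C p).card = 2 * (faces G P 2).card + ∑ p ∈ P, (nb G R p).card := by
    rw [← y9_even, ← Finset.sum_add_distrib]
    refine Finset.sum_congr rfl fun p _ => ?_
    rw [hC, y9_card hd]
  have h3 : ∑ p ∈ P, (nb G R p).card ≠ 0 := by
    intro h0
    rw [Finset.sum_eq_zero_iff] at h0
    have hPC : P = C := by
      refine y9_closed h.2.2 (by rw [hC]; exact Finset.subset_union_left) hP ?_
      intro x hx y hy hxy
      rw [hC, Finset.mem_union] at hy
      rcases hy with hy | hy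
      · exact hy
      · exfalso
        have h4 := Finset.card_eq_zero.1 (h0 x hx)
        have h5 : y ∈ nb G R x := mem_nb.2 ⟨hy, hxy⟩
        rw [h4] at h5
        exact Finset.notMem_empty _ h5
    obtain ⟨r, hr⟩ := hR
    have hrC : r ∈ P := by
      rw [hPC, hC]
      exact Finset.mem_union_right _ hr
    exact Finset.disjoint_left.1 hd hrC hr
  omega

theorem Circle.ext {G : SimpleGraph T} {C P R P0 : Finset T} (h : Circle G C) (hC : C = P ∪ R)
    (hd : Disjoint P R) (hP0 : P0 ⊆ P) (hne : P0.Nonempty)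
    (h2 : ∀ p ∈ P0, (nb G P0 p).card + (nb G R p).card = 2)
    (hsum : ∑ p ∈ P, (nb G R p).card ≤ ∑ p ∈ P0, (nb G R p).card) : P0 = P := by
  by_contra hneq
  have hPC : P ⊆ C := by rw [hC]; exact Finset.subset_union_left
  have hnb : ∀ p ∈ P0, nb G P0 p = nb G P p := by
    intro p hp
    refine Finset.eq_of_subset_of_card_le ?_ ?_
    · intro t ht
      obtain ⟨h3, h4⟩ := mem_nb.1 ht
      exact mem_nb.2 ⟨hP0 h3, h4⟩
    · have h3 := h.2.1 p (hPC (hP0 hp))
      rw [hC, y9_card hd] at h3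
      have h4 := h2 p hp
      omega
  have hD : (P \ P0).Nonempty := by
    by_contra he
    rw [Finset.not_nonempty_iff_eq_empty, Finset.sdiff_eq_empty_iff_subset] at he
    exact hneq (Finset.Subset.antisymm hP0 he)
  have hz : ∑ p ∈ P \ P0, (nb G R p).card = 0 := by
    have h3 := Finset.sum_sdiff (f := fun p => (nb G R p).card) hP0
    omega
  rw [Finset.sum_eq_zero_iff] at hz
  have hDC : P \ P0 = C := by
    refine y9_closed h.2.2 (Finset.sdiff_subset.trans hPC) hD ?_
    intro x hx y hy hxy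
    have hxP := (Finset.mem_sdiff.1 hx).1
    have hx0 := (Finset.mem_sdiff.1 hx).2
    rw [hC, Finset.mem_union] at hy
    rcases hy with hy | hy
    · refine Finset.mem_sdiff.2 ⟨hy, fun hy0 => hx0 ?_⟩
      have h5 : x ∈ nb G P y := mem_nb.2 ⟨hxP, hxy.symm⟩
      rw [← hnb y hy0] at h5
      exact (mem_nb.1 h5).1
    · exfalso
      have h4 := Finset.card_eq_zero.1 (hz x hx)
      have h5 : y ∈ nb G R x := mem_nb.2 ⟨hy, hxy⟩
      rw [h4] at h5
      exact Finset.notMem_empty _ h5
  obtain ⟨p, hp⟩ := hne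
  have h6 : p ∈ P \ P0 := by
    rw [hDC]
    exact hPC (hP0 hp)
  exact (Finset.mem_sdiff.1 h6).2 hp

end Pool.Agent.LibFlagPL

end
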