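import Pool.Agent.LibFlagPL.CommonA

/-!
# LibFlagPL.CommonB: common neighbours of two nonadjacent vertices, second part
-/

section

namespace Pool.Agent.LibFlagPL

open Finset

variable {T : Type} [Fintype T] [DecidableEq T]

/-- number of common neighbours of `b` and `c` in `R` -/
noncomputable def mu (G : SimpleGraph T) (R : Finset T) (b c : T) : ℕ :=
  (nb G (nb G R b) c).card

/-- number of edges between the two parts of the link of `b` -/
noncomputable def tau (G : SimpleGraph T) (Q R : Finset T) (b : T) : ℕ :=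
  ∑ c ∈ nb G Q b, mu G R b c

theorem mu_comm {G : SimpleGraph T} {R : Finset T} (b c : T) : mu G R b c = mu G R c b := by
  unfold mu
  congr 1
  ext t
  rw [mem_nb, mem_nb, mem_nb, mem_nb]
  constructor
  · rintro ⟨⟨h1, h2⟩, h3⟩
    exact ⟨⟨h1, h3⟩, h2⟩
  · rintro ⟨⟨h1, h2⟩, h3⟩
    exact ⟨⟨h1, h3⟩, h2⟩

theorem sum_tau {G : SimpleGraph T} {K Q : Finset T} :
    ∑ b ∈ Q, tau G Q (K \ Q) b = 2 * mm G K Q := by
  classical
  have h1 : ∀ (R : Finset T) (b c : T), (nb G (nb G R b) c).card =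
      ∑ r ∈ R, if G.Adj b r ∧ G.Adj c r then 1 else 0 := by
    intro R b c
    unfold nb
    rw [Finset.filter_filter, Finset.card_filter]
  have h2 : ∀ (R : Finset T) (b : T) (f : T → ℕ), ∑ c ∈ nb G R b, f c =
      ∑ c ∈ R, if G.Adj b c then f c else 0 := by
    intro R b f
    unfold nb
    rw [Finset.sum_filter]
  have hr : ∀ r ∈ K \ Q, 2 * (faces G (nb G Q r) 2).card =
      ∑ b ∈ Q, ∑ c ∈ Q, if G.Adj b c ∧ G.Adj b r ∧ G.Adj c r then 1 else 0 := by
    intro r _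
    have h3 := sum_faces_nb (G := G) (S := nb G Q r) 1
    simp only [card_faces_one] at h3
    have h4 : 2 * (faces G (nb G Q r) 2).card = ∑ b ∈ nb G Q r, (nb G (nb G Q r) b).card := h3.symm
    rw [h4, h2]
    refine Finset.sum_congr rfl fun b _ => ?_
    rw [h1]
    by_cases hb : G.Adj r b
    · rw [if_pos hb]
      refine Finset.sum_congr rfl fun c _ => ?_
      have : (G.Adj r c ∧ G.Adj b c) ↔ (G.Adj b c ∧ G.Adj b r ∧ G.Adj c r) := by
        constructor
        · rintro ⟨h5, h6⟩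
          exact ⟨h6, hb.symm, h5.symm⟩
        · rintro ⟨h5, _, h6⟩
          exact ⟨h6.symm, h5⟩
      simp only [this]
    · rw [if_neg hb]
      symm
      refine Finset.sum_eq_zero fun c _ => ?_
      rw [if_neg]
      rintro ⟨_, h6, _⟩
      exact hb h6.symm
  have hl : ∀ b ∈ Q, tau G Q (K \ Q) b =
      ∑ c ∈ Q, ∑ r ∈ K \ Q, if G.Adj b c ∧ G.Adj b r ∧ G.Adj c r then 1 else 0 := by
    intro b _
    unfold tau mu
    rw [h2]
    refine Finset.sum_congr rfl fun c _ => ?_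
    rw [h1]
    by_cases hb : G.Adj b c
    · rw [if_pos hb]
      refine Finset.sum_congr rfl fun r _ => ?_
      simp only [hb, true_and]
    · rw [if_neg hb]
      symm
      refine Finset.sum_eq_zero fun r _ => ?_
      rw [if_neg]
      rintro ⟨h6, _⟩
      exact hb h6
  rw [Finset.sum_congr rfl hl]
  unfold mm
  rw [Finset.mul_sum, Finset.sum_congr rfl hr]
  rw [Finset.sum_comm (s := K \ Q) (t := Q)]
  refine Finset.sum_congr rfl fun b _ => ?_
  rw [Finset.sum_comm]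

theorem F2.mu_add {G : SimpleGraph T} {K Q : Finset T} (h : F2 G K) (hQ : Q ⊆ K) {b c : T}
    (hb : b ∈ K) (hc : c ∈ K) (hbc : G.Adj b c) :
    (nb G (nb G Q b) c).card + mu G (K \ Q) b c = 2 := by
  have h1 : (nb G (nb G K b) c).card = 2 := (h.2.1 b hb).2.1 c (mem_nb.2 ⟨hc, hbc⟩)
  unfold mu
  rw [← h1, ← Finset.card_union_of_disjoint]
  · congr 1
    ext t
    rw [Finset.mem_union, mem_nb, mem_nb, mem_nb, mem_nb, mem_nb, mem_nb, Finset.mem_sdiff]
    constructor
    · rintro (⟨⟨h2, h3⟩, h4⟩ | ⟨⟨h2, h3⟩, h4⟩)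
      · exact ⟨⟨hQ h2, h3⟩, h4⟩
      · exact ⟨⟨h2.1, h3⟩, h4⟩
    · rintro ⟨⟨h2, h3⟩, h4⟩
      by_cases h5 : t ∈ Q
      · exact Or.inl ⟨⟨h5, h3⟩, h4⟩
      · exact Or.inr ⟨⟨⟨h2, h5⟩, h3⟩, h4⟩
  · rw [Finset.disjoint_left]
    intro t ht ht'
    rw [mem_nb, mem_nb] at ht ht'
    exact (Finset.mem_sdiff.1 ht'.1.1).2 ht.1.1

end Pool.Agent.LibFlagPL

end

section

namespace Pool.Agent.LibFlagPL

open Finset

variable {T : Type} [Fintype T] [DecidableEq T]

private theorem Y10b_union {G : SimpleGraph T} {K Q : Finset T} (hQ : Q ⊆ K) (b : T) :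
    nb G K b = nb G Q b ∪ nb G (K \ Q) b := by
  ext t
  rw [mem_union, mem_nb, mem_nb, mem_nb, mem_sdiff]
  constructor
  · rintro ⟨h1, h2⟩
    by_cases h3 : t ∈ Q
    · exact Or.inl ⟨h3, h2⟩
    · exact Or.inr ⟨⟨h1, h3⟩, h2⟩
  · rintro (⟨h1, h2⟩ | ⟨h1, h2⟩)
    · exact ⟨hQ h1, h2⟩
    · exact ⟨h1.1, h2⟩

private theorem Y10b_disj {G : SimpleGraph T} {K Q : Finset T} (b : T) :
    Disjoint (nb G Q b) (nb G (K \ Q) b) := by
  rw [disjoint_left]
  intro t h1 h2
  exact (mem_sdiff.1 (mem_nb.1 h2).1).2 (mem_nb.1 h1).1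

theorem F2.tau_ge_two {G : SimpleGraph T} {K Q : Finset T} (h : F2 G K) (hQ : Q ⊆ K) {b : T}
    (hb : b ∈ Q) (h1 : (nb G Q b).Nonempty) (h2 : (nb G (K \ Q) b).Nonempty) :
    2 ≤ tau G Q (K \ Q) b :=
  Circle.cut (h.2.1 b (hQ hb)) (Y10b_union hQ b) (Y10b_disj b) h1 h2

theorem F2.link_ext {G : SimpleGraph T} {K Q : Finset T} (h : F2 G K) (hQ : Q ⊆ K) {b : T}
    (hb : b ∈ Q) {P0 : Finset T} (hP0 : P0 ⊆ nb G Q b) (hne : P0.Nonempty)
    (h2 : ∀ p ∈ P0, (nb G P0 p).card + mu G (K \ Q) b p = 2)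
    (hsum : tau G Q (K \ Q) b ≤ ∑ p ∈ P0, mu G (K \ Q) b p) : nb G Q b = P0 :=
  (Circle.ext (h.2.1 b (hQ hb)) (Y10b_union hQ b) (Y10b_disj b) hP0 hne h2 hsum).symm

end Pool.Agent.LibFlagPL

end

section

namespace Pool.Agent.LibFlagPL

open Finset

variable {T : Type} [Fintype T] [DecidableEq T]

open scoped Classical in
/-- the elements of `Q` with a neighbour in `R` -/
noncomputable def bnd (G : SimpleGraph T) (Q R : Finset T) : Finset T :=
  Q.filter (fun b => ∃ r ∈ R, G.Adj b r)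

theorem mem_bnd {G : SimpleGraph T} {Q R : Finset T} {b : T} :
    b ∈ bnd G Q R ↔ b ∈ Q ∧ ∃ r ∈ R, G.Adj b r := by
  simp [bnd]

open scoped Classical in
/-- number of common neighbours in `R` of two adjacent vertices, 0 for nonadjacent ones -/
noncomputable def wt (G : SimpleGraph T) (R : Finset T) (b c : T) : ℕ :=
  if G.Adj b c then mu G R b c else 0

theorem wt_comm {G : SimpleGraph T} {R : Finset T} (b c : T) : wt G R b c = wt G R c b := by
  unfold wt
  by_cases h : G.Adj b c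
  · rw [if_pos h, if_pos h.symm, mu_comm]
  · rw [if_neg h, if_neg (fun h' => h h'.symm)]

theorem wt_pos {G : SimpleGraph T} {R : Finset T} {b c : T} (h : 0 < wt G R b c) :
    G.Adj b c ∧ wt G R b c = mu G R b c ∧ ∃ r ∈ R, G.Adj b r ∧ G.Adj c r := by
  unfold wt at h ⊢
  by_cases hbc : G.Adj b c
  · rw [if_pos hbc] at h ⊢
    refine ⟨hbc, rfl, ?_⟩
    unfold mu at h
    obtain ⟨r, hr⟩ := card_pos.1 h
    rw [mem_nb, mem_nb] at hr
    exact ⟨r, hr.1.1, hr.1.2, hr.2⟩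
  · rw [if_neg hbc] at h
    exact absurd h (lt_irrefl 0)

theorem tau_eq_wt {G : SimpleGraph T} {Q R : Finset T} {b : T} (hb : b ∈ Q) :
    tau G Q R b = ∑ c ∈ (bnd G Q R).erase b, wt G R b c := by
  have h1 : tau G Q R b = ∑ c ∈ Q, wt G R b c := by
    unfold tau
    have h2 : ∑ c ∈ nb G Q b, mu G R b c = ∑ c ∈ nb G Q b, wt G R b c := by
      refine sum_congr rfl ?_
      intro c hc
      rw [mem_nb] at hc
      unfold wt
      rw [if_pos hc.2]
    rw [h2]
    refine sum_subset ?_ ?_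
    · intro c hc
      rw [mem_nb] at hc
      exact hc.1
    · intro c hc hn
      have h3 : ¬ G.Adj b c := fun h => hn (mem_nb.2 ⟨hc, h⟩)
      unfold wt
      rw [if_neg h3]
  rw [h1]
  symm
  refine sum_subset ?_ ?_
  · intro c hc
    exact (mem_bnd.1 (mem_of_mem_erase hc)).1
  · intro c hc hn
    by_contra h0
    obtain ⟨h4, -, r, hr, -, hcr⟩ := wt_pos (Nat.pos_of_ne_zero h0)
    exact hn (mem_erase.2 ⟨h4.ne', mem_bnd.2 ⟨hc, r, hr, hcr⟩⟩)

theorem F2.wt_le_two {G : SimpleGraph T} {K Q : Finset T} (h : F2 G K) (hQ : Q ⊆ K) {b c : T}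
    (hb : b ∈ K) (hc : c ∈ K) : wt G (K \ Q) b c ≤ 2 := by
  unfold wt
  by_cases hbc : G.Adj b c
  · rw [if_pos hbc]
    have h1 := F2.mu_add h hQ hb hc hbc
    omega
  · rw [if_neg hbc]
    exact Nat.zero_le 2

theorem F2.wt_le_one {G : SimpleGraph T} {K Q : Finset T} (h : F2 G K) (hQ : Q ⊆ K) {b c d : T}
    (hb : b ∈ K) (hc : c ∈ K) (hd : d ∈ Q) (hbd : G.Adj b d) (hcd : G.Adj c d) :
    wt G (K \ Q) b c ≤ 1 := by
  unfold wt
  by_cases hbc : G.Adj b c
  · rw [if_pos hbc]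
    have h1 := F2.mu_add h hQ hb hc hbc
    have h2 : 0 < (nb G (nb G Q b) c).card :=
      card_pos.2 ⟨d, mem_nb.2 ⟨mem_nb.2 ⟨hd, hbd⟩, hcd⟩⟩
    omega
  · rw [if_neg hbc]
    exact Nat.zero_le 1

end Pool.Agent.LibFlagPL

end

section

namespace Pool.Agent.LibFlagPL

open Finset

variable {T : Type} [Fintype T] [DecidableEq T]

theorem F2.mm_eq_four {G : SimpleGraph T} {K Q : Finset T} (h : F2 G K) (hQ : Q ⊆ K)
    (hc : Conn G Q) (hc' : Conn G (K \ Q)) (h0 : chi G Q = 0) : mm G K Q = 4 := by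
  have h1 := h.chi_EU hQ
  rw [EU_eq_one h hc hQ hc', h0] at h1
  have h2 : (mm G K Q : ℚ) = 4 := by
    push_cast at h1
    linarith
  exact_mod_cast h2

theorem Conn.nb_nonempty {G : SimpleGraph T} {Q : Finset T} (hc : Conn G Q) (hcl : ¬ Cl G Q)
    {b : T} (hb : b ∈ Q) : (nb G Q b).Nonempty := by
  by_contra hne
  rw [Finset.not_nonempty_iff_eq_empty] at hne
  apply hcl
  have h1 : ({b} : Finset T) = Q := by
    refine hc.eq_of_closed_y (Finset.singleton_subset_iff.2 hb) (Finset.singleton_nonempty b) ?_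
    intro a ha c hcQ hac
    rw [Finset.mem_singleton] at ha
    rw [ha] at hac
    have h2 : c ∈ nb G Q b := mem_nb.2 ⟨hcQ, hac⟩
    rw [hne] at h2
    exact absurd h2 (Finset.notMem_empty c)
  rw [← h1]
  intro x hx y hy hxy
  rw [Finset.mem_singleton] at hx hy
  exact absurd (hx.trans hy.symm) hxy

theorem F2.sum_tau_bnd {G : SimpleGraph T} {K Q : Finset T} (h : F2 G K) (hQ : Q ⊆ K)
    (hc : Conn G Q) (hc' : Conn G (K \ Q)) (h0 : chi G Q = 0) :
    ∑ b ∈ bnd G Q (K \ Q), tau G Q (K \ Q) b = 8 := by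
  have h1 : ∑ b ∈ bnd G Q (K \ Q), tau G Q (K \ Q) b = ∑ b ∈ Q, tau G Q (K \ Q) b := by
    refine Finset.sum_subset (fun b hb => (mem_bnd.1 hb).1) ?_
    intro b hb hnb
    unfold tau
    refine Finset.sum_eq_zero fun c _ => ?_
    unfold mu
    rw [Finset.card_eq_zero, Finset.eq_empty_iff_forall_notMem]
    intro t ht
    obtain ⟨h2, _⟩ := mem_nb.1 ht
    obtain ⟨h3, h4⟩ := mem_nb.1 h2
    exact hnb (mem_bnd.2 ⟨hb, t, h3, h4⟩)
  rw [h1, sum_tau, h.mm_eq_four hQ hc hc' h0]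

theorem F2.tau_ge {G : SimpleGraph T} {K Q : Finset T} (h : F2 G K) (hQ : Q ⊆ K)
    (hc : Conn G Q) (hcl : ¬ Cl G Q) {b : T} (hb : b ∈ bnd G Q (K \ Q)) :
    2 ≤ tau G Q (K \ Q) b := by
  obtain ⟨h1, r, h2, h3⟩ := mem_bnd.1 hb
  exact h.tau_ge_two hQ h1 (hc.nb_nonempty hcl h1) ⟨r, mem_nb.2 ⟨h2, h3⟩⟩

end Pool.Agent.LibFlagPL

end

section

namespace Pool.Agent.LibFlagPL

open Finset

variable {T : Type} [Fintype T] [DecidableEq T]

theorem region_card {G : SimpleGraph T} {K Q : Finset T} (h : F2 G K) (hQ : Q ⊆ K)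
    (hc : Conn G Q) (hc' : Conn G (K \ Q)) (hcl : ¬ Cl G Q) (h0 : chi G Q = 0) :
    (bnd G Q (K \ Q)).card = 3 ∨ (bnd G Q (K \ Q)).card = 4 := by
  have hsum := F2.sum_tau_bnd h hQ hc hc' h0
  have hge : ∀ b ∈ bnd G Q (K \ Q), 2 ≤ tau G Q (K \ Q) b :=
    fun b hb => F2.tau_ge h hQ hc hcl hb
  have h4 : (bnd G Q (K \ Q)).card ≤ 4 := by
    have h1 := Finset.card_nsmul_le_sum (bnd G Q (K \ Q)) (fun b => tau G Q (K \ Q) b) 2 hge
    rw [hsum, smul_eq_mul] at h1
    omega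
  have h0' : (bnd G Q (K \ Q)).card ≠ 0 := by
    intro hz
    rw [Finset.card_eq_zero] at hz
    rw [hz, Finset.sum_empty] at hsum
    omega
  have h1' : (bnd G Q (K \ Q)).card ≠ 1 := by
    intro hz
    obtain ⟨b, hb⟩ := Finset.card_eq_one.1 hz
    have hbm : b ∈ bnd G Q (K \ Q) := by rw [hb]; exact Finset.mem_singleton_self b
    have h2 := hge b hbm
    rw [tau_eq_wt (mem_bnd.1 hbm).1, hb] at h2
    simp at h2
  have h2' : (bnd G Q (K \ Q)).card ≠ 2 := by
    intro hz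
    obtain ⟨b, c, hbc, hb⟩ := Finset.card_eq_two.1 hz
    have hbm : b ∈ bnd G Q (K \ Q) := by rw [hb]; simp
    have hcm : c ∈ bnd G Q (K \ Q) := by rw [hb]; simp
    have hbK : b ∈ K := hQ (mem_bnd.1 hbm).1
    have hcK : c ∈ K := hQ (mem_bnd.1 hcm).1
    rw [hb, Finset.sum_pair hbc, tau_eq_wt (mem_bnd.1 hbm).1, tau_eq_wt (mem_bnd.1 hcm).1, hb] at hsum
    have e1 : ({b, c} : Finset T).erase b = {c} := by
      ext x
      simp only [Finset.mem_erase, Finset.mem_insert, Finset.mem_singleton]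
      constructor
      · rintro ⟨h1, h2⟩
        exact h2.resolve_left h1
      · rintro rfl
        exact ⟨hbc.symm, Or.inr rfl⟩
    have e2 : ({b, c} : Finset T).erase c = {b} := by
      ext x
      simp only [Finset.mem_erase, Finset.mem_insert, Finset.mem_singleton]
      constructor
      · rintro ⟨h1, h2⟩
        exact h2.resolve_right h1
      · rintro rfl
        exact ⟨hbc, Or.inl rfl⟩
    rw [e1, e2, Finset.sum_singleton, Finset.sum_singleton] at hsum
    have h3 := F2.wt_le_two h hQ hbK hcK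
    have h5 := F2.wt_le_two h hQ hcK hbK
    omega
  omega

/-- the middle vertex is `b` -/
private theorem three_aux {G : SimpleGraph T} {K Q : Finset T} (h : F2 G K) (hQ : Q ⊆ K)
    (hc : Conn G Q) {a b c : T} (hb : bnd G Q (K \ Q) = {a, b, c}) (hab : a ≠ b) (hac : a ≠ c)
    (hbc : b ≠ c) (w1 : wt G (K \ Q) a b = 2) (w2 : wt G (K \ Q) b c = 2)
    (w3 : wt G (K \ Q) a c = 0) : TyC G Q ∧ bnd G Q (K \ Q) = Q := by
  have ham : a ∈ bnd G Q (K \ Q) := by rw [hb]; simp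
  have hbm : b ∈ bnd G Q (K \ Q) := by rw [hb]; simp
  have hcm : c ∈ bnd G Q (K \ Q) := by rw [hb]; simp
  have haQ : a ∈ Q := (mem_bnd.1 ham).1
  have hbQ : b ∈ Q := (mem_bnd.1 hbm).1
  have hcQ : c ∈ Q := (mem_bnd.1 hcm).1
  obtain ⟨adjab, hw1, -⟩ := wt_pos (G := G) (R := K \ Q) (b := a) (c := b) (by rw [w1]; norm_num)
  obtain ⟨adjbc, hw2, -⟩ := wt_pos (G := G) (R := K \ Q) (b := b) (c := c) (by rw [w2]; norm_num)
  have ea : ({a, b, c} : Finset T).erase a = {b, c} := by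
    ext x
    simp only [Finset.mem_erase, Finset.mem_insert, Finset.mem_singleton]
    constructor
    · rintro ⟨h1, h2 | h2⟩
      · exact absurd h2 h1
      · exact h2
    · rintro (rfl | rfl)
      · exact ⟨hab.symm, Or.inr (Or.inl rfl)⟩
      · exact ⟨hac.symm, Or.inr (Or.inr rfl)⟩
  have eb : ({a, b, c} : Finset T).erase b = {a, c} := by
    ext x
    simp only [Finset.mem_erase, Finset.mem_insert, Finset.mem_singleton]
    constructor
    · rintro ⟨h1, h2 | h2 | h2⟩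
      · exact Or.inl h2
      · exact absurd h2 h1
      · exact Or.inr h2
    · rintro (rfl | rfl)
      · exact ⟨hab, Or.inl rfl⟩
      · exact ⟨hbc.symm, Or.inr (Or.inr rfl)⟩
  have ec : ({a, b, c} : Finset T).erase c = {a, b} := by
    ext x
    simp only [Finset.mem_erase, Finset.mem_insert, Finset.mem_singleton]
    constructor
    · rintro ⟨h1, h2 | h2 | h2⟩
      · exact Or.inl h2
      · exact Or.inr h2
      · exact absurd h2 h1
    · rintro (rfl | rfl)
      · exact ⟨hac, Or.inl rfl⟩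
      · exact ⟨hbc, Or.inr (Or.inl rfl)⟩
  have ta : tau G Q (K \ Q) a = 2 := by
    rw [tau_eq_wt haQ, hb, ea, Finset.sum_pair hbc, w1, w3]
  have tb : tau G Q (K \ Q) b = 4 := by
    rw [tau_eq_wt hbQ, hb, eb, Finset.sum_pair hac, wt_comm, w1, w2]
  have tc : tau G Q (K \ Q) c = 2 := by
    rw [tau_eq_wt hcQ, hb, ec, Finset.sum_pair hab, wt_comm, w3, wt_comm, w2]
  have nbself : ∀ x : T, (nb G ({x} : Finset T) x).card = 0 := by
    intro x
    rw [Finset.card_eq_zero, Finset.eq_empty_iff_forall_notMem]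
    intro y hy
    rw [mem_nb, Finset.mem_singleton] at hy
    rw [hy.1] at hy
    exact G.loopless.irrefl _ hy.2
  have na : nb G Q a = {b} := by
    refine F2.link_ext h hQ haQ ?_ ⟨b, Finset.mem_singleton_self b⟩ ?_ ?_
    · intro x hx
      rw [Finset.mem_singleton] at hx
      rw [hx]
      exact mem_nb.2 ⟨hbQ, adjab⟩
    · intro p hp
      rw [Finset.mem_singleton] at hp
      rw [hp, nbself, ← hw1, w1]
    · rw [ta, Finset.sum_singleton, ← hw1, w1]
  have ncb : nb G Q c = {b} := by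
    refine F2.link_ext h hQ hcQ ?_ ⟨b, Finset.mem_singleton_self b⟩ ?_ ?_
    · intro x hx
      rw [Finset.mem_singleton] at hx
      rw [hx]
      exact mem_nb.2 ⟨hbQ, adjbc.symm⟩
    · intro p hp
      rw [Finset.mem_singleton] at hp
      rw [hp, nbself, mu_comm, ← hw2, w2]
    · rw [tc, Finset.sum_singleton, mu_comm, ← hw2, w2]
  have nadj : ¬ G.Adj a c := by
    intro hadj
    have h1 : c ∈ nb G Q a := mem_nb.2 ⟨hcQ, hadj⟩
    rw [na, Finset.mem_singleton] at h1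
    exact hbc h1.symm
  have pair_nb : ∀ x ∈ ({a, c} : Finset T), (nb G ({a, c} : Finset T) x).card = 0 := by
    intro x hx
    rw [Finset.card_eq_zero, Finset.eq_empty_iff_forall_notMem]
    intro y hy
    rw [mem_nb] at hy
    obtain ⟨hy1, hy2⟩ := hy
    rw [Finset.mem_insert, Finset.mem_singleton] at hx hy1
    rcases hx with rfl | rfl <;> rcases hy1 with rfl | rfl
    · exact G.loopless.irrefl _ hy2
    · exact nadj hy2
    · exact nadj hy2.symm
    · exact G.loopless.irrefl _ hy2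
  have nbb : nb G Q b = {a, c} := by
    refine F2.link_ext h hQ hbQ ?_ ⟨a, Finset.mem_insert_self _ _⟩ ?_ ?_
    · intro x hx
      rw [Finset.mem_insert, Finset.mem_singleton] at hx
      rcases hx with rfl | rfl
      · exact mem_nb.2 ⟨haQ, adjab.symm⟩
      · exact mem_nb.2 ⟨hcQ, adjbc⟩
    · intro p hp
      rw [pair_nb p hp]
      rw [Finset.mem_insert, Finset.mem_singleton] at hp
      rcases hp with rfl | rfl
      · rw [mu_comm, ← hw1, w1]
      · rw [← hw2, w2]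
    · rw [tb, Finset.sum_pair hac, mu_comm b a, ← hw1, ← hw2, w1, w2]
  have hQeq : ({a, b, c} : Finset T) = Q := by
    refine hc.eq_of_closed_y ?_ ⟨a, Finset.mem_insert_self _ _⟩ ?_
    · intro x hx
      simp only [Finset.mem_insert, Finset.mem_singleton] at hx
      rcases hx with rfl | rfl | rfl
      · exact haQ
      · exact hbQ
      · exact hcQ
    · intro x hx y hy hxy
      have hy' : y ∈ nb G Q x := mem_nb.2 ⟨hy, hxy⟩
      simp only [Finset.mem_insert, Finset.mem_singleton] at hx ⊢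
      rcases hx with rfl | rfl | rfl
      · rw [na, Finset.mem_singleton] at hy'
        exact Or.inr (Or.inl hy')
      · rw [nbb, Finset.mem_insert, Finset.mem_singleton] at hy'
        rcases hy' with h1 | h1
        · exact Or.inl h1
        · exact Or.inr (Or.inr h1)
      · rw [ncb, Finset.mem_singleton] at hy'
        exact Or.inr (Or.inl hy')
  refine ⟨⟨a, b, c, hQeq.symm, hac, nadj, adjab, adjbc.symm⟩, ?_⟩
  rw [hb, hQeq]

theorem region_three {G : SimpleGraph T} {K Q : Finset T} (h : F2 G K) (hQ : Q ⊆ K)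
    (hc : Conn G Q) (hc' : Conn G (K \ Q)) (hcl : ¬ Cl G Q) (h0 : chi G Q = 0)
    (h3 : (bnd G Q (K \ Q)).card = 3) : TyC G Q ∧ bnd G Q (K \ Q) = Q := by
  have hsum := F2.sum_tau_bnd h hQ hc hc' h0
  obtain ⟨a, b, c, hab, hac, hbc, hb⟩ := Finset.card_eq_three.1 h3
  have ham : a ∈ bnd G Q (K \ Q) := by rw [hb]; simp
  have hbm : b ∈ bnd G Q (K \ Q) := by rw [hb]; simp
  have hcm : c ∈ bnd G Q (K \ Q) := by rw [hb]; simp
  have haQ : a ∈ Q := (mem_bnd.1 ham).1
  have hbQ : b ∈ Q := (mem_bnd.1 hbm).1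
  have hcQ : c ∈ Q := (mem_bnd.1 hcm).1
  have ea : ({a, b, c} : Finset T).erase a = {b, c} := by
    ext x
    simp only [Finset.mem_erase, Finset.mem_insert, Finset.mem_singleton]
    constructor
    · rintro ⟨h1, h2 | h2⟩
      · exact absurd h2 h1
      · exact h2
    · rintro (rfl | rfl)
      · exact ⟨hab.symm, Or.inr (Or.inl rfl)⟩
      · exact ⟨hac.symm, Or.inr (Or.inr rfl)⟩
  have eb : ({a, b, c} : Finset T).erase b = {a, c} := by
    ext x
    simp only [Finset.mem_erase, Finset.mem_insert, Finset.mem_singleton]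
    constructor
    · rintro ⟨h1, h2 | h2 | h2⟩
      · exact Or.inl h2
      · exact absurd h2 h1
      · exact Or.inr h2
    · rintro (rfl | rfl)
      · exact ⟨hab, Or.inl rfl⟩
      · exact ⟨hbc.symm, Or.inr (Or.inr rfl)⟩
  have ec : ({a, b, c} : Finset T).erase c = {a, b} := by
    ext x
    simp only [Finset.mem_erase, Finset.mem_insert, Finset.mem_singleton]
    constructor
    · rintro ⟨h1, h2 | h2 | h2⟩
      · exact Or.inl h2
      · exact Or.inr h2
      · exact absurd h2 h1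
    · rintro (rfl | rfl)
      · exact ⟨hac, Or.inl rfl⟩
      · exact ⟨hbc, Or.inr (Or.inl rfl)⟩
  have ta : tau G Q (K \ Q) a = wt G (K \ Q) a b + wt G (K \ Q) a c := by
    rw [tau_eq_wt haQ, hb, ea, Finset.sum_pair hbc]
  have tb : tau G Q (K \ Q) b = wt G (K \ Q) a b + wt G (K \ Q) b c := by
    rw [tau_eq_wt hbQ, hb, eb, Finset.sum_pair hac, wt_comm b a]
  have tc : tau G Q (K \ Q) c = wt G (K \ Q) a c + wt G (K \ Q) b c := by
    rw [tau_eq_wt hcQ, hb, ec, Finset.sum_pair hab, wt_comm c a, wt_comm c b]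
  have hs : (wt G (K \ Q) a b + wt G (K \ Q) a c) + ((wt G (K \ Q) a b + wt G (K \ Q) b c) +
      (wt G (K \ Q) a c + wt G (K \ Q) b c)) = 8 := by
    rw [← ta, ← tb, ← tc]
    rw [hb, Finset.sum_insert (by simp [hab, hac]), Finset.sum_pair hbc] at hsum
    exact hsum
  have u1 := F2.wt_le_two h hQ (hQ haQ) (hQ hbQ)
  have u2 := F2.wt_le_two h hQ (hQ hbQ) (hQ hcQ)
  have u3 := F2.wt_le_two h hQ (hQ haQ) (hQ hcQ)
  by_cases z3 : wt G (K \ Q) a c = 0
  · exact three_aux h hQ hc hb hab hac hbc (by omega) (by omega) z3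
  · by_cases z2 : wt G (K \ Q) b c = 0
    · -- middle vertex `a`
      have hb' : bnd G Q (K \ Q) = {b, a, c} := by
        rw [hb]
        ext x
        simp only [Finset.mem_insert, Finset.mem_singleton]
        tauto
      exact three_aux h hQ hc hb' hab.symm hbc hac (by rw [wt_comm]; omega) (by omega) z2
    · by_cases z1 : wt G (K \ Q) a b = 0
      · -- middle vertex `c`
        have hb' : bnd G Q (K \ Q) = {a, c, b} := by
          rw [hb]
          ext x
          simp only [Finset.mem_insert, Finset.mem_singleton]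
          tauto
        exact three_aux h hQ hc hb' hac hab hbc.symm (by omega) (by rw [wt_comm]; omega) z1
      · exfalso
        obtain ⟨adj1, -, -⟩ := wt_pos (Nat.pos_of_ne_zero z1)
        obtain ⟨adj2, -, -⟩ := wt_pos (Nat.pos_of_ne_zero z2)
        obtain ⟨adj3, -, -⟩ := wt_pos (Nat.pos_of_ne_zero z3)
        have v1 := F2.wt_le_one h hQ (hQ haQ) (hQ hbQ) hcQ adj3 adj2
        have v2 := F2.wt_le_one h hQ (hQ hbQ) (hQ hcQ) haQ adj1.symm adj3.symm
        have v3 := F2.wt_le_one h hQ (hQ haQ) (hQ hcQ) hbQ adj1 adj2.symm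
        omega

end Pool.Agent.LibFlagPL

end

section

namespace Pool.Agent.LibFlagPL

open Finset

variable {T : Type} [Fintype T] [DecidableEq T]

private theorem Y13_no_two {G : SimpleGraph T} {K Q : Finset T} (h : F2 G K) (hQ : Q ⊆ K)
    (hc : Conn G Q) (hcl : ¬ Cl G Q) {b c : T} (hb : b ∈ Q) (hcQ : c ∈ Q)
    (tb : tau G Q (K \ Q) b = 2) (tc : tau G Q (K \ Q) c = 2) (hw : wt G (K \ Q) b c = 2) :
    False := by
  have h1 := wt_pos (G := G) (R := K \ Q) (b := b) (c := c) (by omega)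
  have h2 := wt_pos (G := G) (R := K \ Q) (b := c) (c := b) (by rw [wt_comm]; omega)
  have hw' : wt G (K \ Q) c b = 2 := by rw [wt_comm]; exact hw
  have e1 : nb G Q b = {c} := by
    refine F2.link_ext h hQ hb (P0 := {c}) ?_ (Finset.singleton_nonempty c) ?_ ?_
    · intro x hx
      rw [Finset.mem_singleton] at hx
      subst hx
      exact mem_nb.2 ⟨hcQ, h1.1⟩
    · intro p hp
      rw [Finset.mem_singleton] at hp
      subst hp
      have : nb G {p} p = ∅ := by
        ext x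
        simp only [mem_nb, Finset.mem_singleton, Finset.notMem_empty, iff_false, not_and]
        rintro rfl
        exact G.loopless.irrefl x
      rw [this, Finset.card_empty, ← h1.2.1, hw]
    · rw [Finset.sum_singleton, ← h1.2.1, hw, tb]
  have e2 : nb G Q c = {b} := by
    refine F2.link_ext h hQ hcQ (P0 := {b}) ?_ (Finset.singleton_nonempty b) ?_ ?_
    · intro x hx
      rw [Finset.mem_singleton] at hx
      subst hx
      exact mem_nb.2 ⟨hb, h2.1⟩
    · intro p hp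
      rw [Finset.mem_singleton] at hp
      subst hp
      have : nb G {p} p = ∅ := by
        ext x
        simp only [mem_nb, Finset.mem_singleton, Finset.notMem_empty, iff_false, not_and]
        rintro rfl
        exact G.loopless.irrefl x
      rw [this, Finset.card_empty, ← h2.2.1, hw']
    · rw [Finset.sum_singleton, ← h2.2.1, hw', tc]
  have e3 : ({b, c} : Finset T) = Q := by
    refine hc.eq_of_closed_y ?_ ⟨b, by simp⟩ ?_
    · intro x hx
      simp only [Finset.mem_insert, Finset.mem_singleton] at hx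
      rcases hx with rfl | rfl
      · exact hb
      · exact hcQ
    · intro x hx y hy hxy
      simp only [Finset.mem_insert, Finset.mem_singleton] at hx
      rcases hx with rfl | rfl
      · have : y ∈ nb G Q x := mem_nb.2 ⟨hy, hxy⟩
        rw [e1] at this
        simp only [Finset.mem_singleton] at this
        simp [this]
      · have : y ∈ nb G Q x := mem_nb.2 ⟨hy, hxy⟩
        rw [e2] at this
        simp only [Finset.mem_singleton] at this
        simp [this]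
  apply hcl
  rw [← e3]
  intro x hx y hy hxy
  simp only [Finset.mem_insert, Finset.mem_singleton] at hx hy
  rcases hx with rfl | rfl <;> rcases hy with rfl | rfl
  · exact absurd rfl hxy
  · exact h1.1
  · exact h1.1.symm
  · exact absurd rfl hxy

private theorem Y13_arith {ab ac ad bc bd cd : ℕ} (s1 : ab + ac + ad = 2) (s2 : ab + bc + bd = 2)
    (s3 : ac + bc + cd = 2) (s4 : ad + bd + cd = 2) (u1 : ab ≤ 1) (u2 : ac ≤ 1) (u3 : ad ≤ 1)
    (u4 : bc ≤ 1) (u5 : bd ≤ 1) (u6 : cd ≤ 1) :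
    (ab = 0 ∧ cd = 0 ∧ ac = 1 ∧ bd = 1 ∧ ad = 1 ∧ bc = 1) ∨
    (ac = 0 ∧ bd = 0 ∧ ab = 1 ∧ cd = 1 ∧ ad = 1 ∧ bc = 1) ∨
    (ad = 0 ∧ bc = 0 ∧ ab = 1 ∧ cd = 1 ∧ ac = 1 ∧ bd = 1) := by
  omega

theorem region_four {G : SimpleGraph T} {K Q : Finset T} (h : F2 G K) (hQ : Q ⊆ K)
    (hc : Conn G Q) (hc' : Conn G (K \ Q)) (hcl : ¬ Cl G Q) (h0 : chi G Q = 0)
    (h4 : (bnd G Q (K \ Q)).card = 4) :
    ∃ p q r s : T, bnd G Q (K \ Q) = {p, q, r, s} ∧ p ≠ q ∧ p ≠ r ∧ p ≠ s ∧ q ≠ r ∧ q ≠ s ∧ r ≠ s ∧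
      wt G (K \ Q) p q = 1 ∧ wt G (K \ Q) q r = 1 ∧ wt G (K \ Q) r s = 1 ∧ wt G (K \ Q) s p = 1 ∧
      wt G (K \ Q) p r = 0 ∧ wt G (K \ Q) q s = 0 := by
  obtain ⟨a, S, haS, hS, hS3⟩ := Finset.card_eq_succ.1 h4
  obtain ⟨b, c, d, hbc, hbd, hcd, rfl⟩ := Finset.card_eq_three.1 hS3
  simp only [Finset.mem_insert, Finset.mem_singleton, not_or] at haS
  obtain ⟨hab, hac, had⟩ := haS
  have hsum := F2.sum_tau_bnd h hQ hc hc' h0
  have hmem : ∀ x : T, x ∈ bnd G Q (K \ Q) ↔ x = a ∨ x = b ∨ x = c ∨ x = d := by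
    intro x
    rw [← hS]
    simp
  have ha : a ∈ bnd G Q (K \ Q) := (hmem a).2 (Or.inl rfl)
  have hb : b ∈ bnd G Q (K \ Q) := (hmem b).2 (Or.inr (Or.inl rfl))
  have hcc : c ∈ bnd G Q (K \ Q) := (hmem c).2 (Or.inr (Or.inr (Or.inl rfl)))
  have hd : d ∈ bnd G Q (K \ Q) := (hmem d).2 (Or.inr (Or.inr (Or.inr rfl)))
  have haQ := (mem_bnd.1 ha).1
  have hbQ := (mem_bnd.1 hb).1
  have hcQ := (mem_bnd.1 hcc).1
  have hdQ := (mem_bnd.1 hd).1
  have hexp : ∀ f : T → ℕ, ∑ x ∈ bnd G Q (K \ Q), f x = f a + f b + f c + f d := by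
    intro f
    rw [← hS, Finset.sum_insert (by simp [hab, hac, had]), Finset.sum_insert (by simp [hbc, hbd]),
      Finset.sum_insert (by simp [hcd]), Finset.sum_singleton]
    ring
  rw [hexp] at hsum
  have ta := F2.tau_ge h hQ hc hcl ha
  have tb := F2.tau_ge h hQ hc hcl hb
  have tc := F2.tau_ge h hQ hc hcl hcc
  have td := F2.tau_ge h hQ hc hcl hd
  have ta2 : tau G Q (K \ Q) a = 2 := by omega
  have tb2 : tau G Q (K \ Q) b = 2 := by omega
  have tc2 : tau G Q (K \ Q) c = 2 := by omega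
  have td2 : tau G Q (K \ Q) d = 2 := by omega
  have ea := tau_eq_wt (G := G) (R := K \ Q) haQ
  have eb := tau_eq_wt (G := G) (R := K \ Q) hbQ
  have ec := tau_eq_wt (G := G) (R := K \ Q) hcQ
  have ed := tau_eq_wt (G := G) (R := K \ Q) hdQ
  have fa := Finset.add_sum_erase (bnd G Q (K \ Q)) (fun x => wt G (K \ Q) a x) ha
  have fb := Finset.add_sum_erase (bnd G Q (K \ Q)) (fun x => wt G (K \ Q) b x) hb
  have fc := Finset.add_sum_erase (bnd G Q (K \ Q)) (fun x => wt G (K \ Q) c x) hcc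
  have fd := Finset.add_sum_erase (bnd G Q (K \ Q)) (fun x => wt G (K \ Q) d x) hd
  rw [hexp] at fa fb fc fd
  have n1 : wt G (K \ Q) a b ≠ 2 := fun hh => Y13_no_two h hQ hc hcl haQ hbQ ta2 tb2 hh
  have n2 : wt G (K \ Q) a c ≠ 2 := fun hh => Y13_no_two h hQ hc hcl haQ hcQ ta2 tc2 hh
  have n3 : wt G (K \ Q) a d ≠ 2 := fun hh => Y13_no_two h hQ hc hcl haQ hdQ ta2 td2 hh
  have n4 : wt G (K \ Q) b c ≠ 2 := fun hh => Y13_no_two h hQ hc hcl hbQ hcQ tb2 tc2 hh
  have n5 : wt G (K \ Q) b d ≠ 2 := fun hh => Y13_no_two h hQ hc hcl hbQ hdQ tb2 td2 hh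
  have n6 : wt G (K \ Q) c d ≠ 2 := fun hh => Y13_no_two h hQ hc hcl hcQ hdQ tc2 td2 hh
  have u1 := F2.wt_le_two h hQ (hQ haQ) (hQ hbQ)
  have u2 := F2.wt_le_two h hQ (hQ haQ) (hQ hcQ)
  have u3 := F2.wt_le_two h hQ (hQ haQ) (hQ hdQ)
  have u4 := F2.wt_le_two h hQ (hQ hbQ) (hQ hcQ)
  have u5 := F2.wt_le_two h hQ (hQ hbQ) (hQ hdQ)
  have u6 := F2.wt_le_two h hQ (hQ hcQ) (hQ hdQ)
  have c1 := wt_comm (G := G) (R := K \ Q) b a
  have c2 := wt_comm (G := G) (R := K \ Q) c a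
  have c3 := wt_comm (G := G) (R := K \ Q) d a
  have c4 := wt_comm (G := G) (R := K \ Q) c b
  have c5 := wt_comm (G := G) (R := K \ Q) d b
  have c6 := wt_comm (G := G) (R := K \ Q) d c
  rw [ea] at ta2
  rw [eb] at tb2
  rw [ec] at tc2
  rw [ed] at td2
  have s1 : wt G (K \ Q) a b + wt G (K \ Q) a c + wt G (K \ Q) a d = 2 := by omega
  have s2 : wt G (K \ Q) a b + wt G (K \ Q) b c + wt G (K \ Q) b d = 2 := by omega
  have s3 : wt G (K \ Q) a c + wt G (K \ Q) b c + wt G (K \ Q) c d = 2 := by omega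
  have s4 : wt G (K \ Q) a d + wt G (K \ Q) b d + wt G (K \ Q) c d = 2 := by omega
  rcases Y13_arith s1 s2 s3 s4 (by omega) (by omega) (by omega) (by omega) (by omega) (by omega) with
    ⟨z1, z2, z3, z4, z5, z6⟩ | ⟨z1, z2, z3, z4, z5, z6⟩ | ⟨z1, z2, z3, z4, z5, z6⟩
  · refine ⟨a, c, b, d, ?_, hac, hab, had, Ne.symm hbc, hcd, hbd, z3, by rw [c4, z6], z4,
      by rw [c3, z5], z1, z2⟩
    rw [← hS]
    ext x
    simp only [Finset.mem_insert, Finset.mem_singleton]
    tauto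
  · exact ⟨a, b, c, d, hS.symm, hab, hac, had, hbc, hbd, hcd, z3, z6, z4, by rw [c3, z5], z1, z2⟩
  · refine ⟨a, b, d, c, ?_, hab, had, hac, hbd, hbc, Ne.symm hcd, z3, z6, by rw [c6, z4],
      by rw [c2, z5], z1, z2⟩
    rw [← hS]
    ext x
    simp only [Finset.mem_insert, Finset.mem_singleton]
    tauto

end Pool.Agent.LibFlagPL

end
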