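import Pool.Agent.LibFlagPL.CommonB

/-!
# LibFlagPL.CommonC: common neighbours of two nonadjacent vertices, classification
-/

section

namespace Pool.Agent.LibFlagPL

open Finset

set_option linter.unusedSectionVars false

variable {T : Type} [Fintype T] [DecidableEq T]

private theorem Y14_mu {G : SimpleGraph T} {R : Finset T} {b c : T} (hbc : G.Adj b c) :
    mu G R b c = wt G R b c := by
  rw [wt, if_pos hbc]

private theorem Y14_two {G : SimpleGraph T} {K Q : Finset T} (h : F2 G K) (hQ : Q ⊆ K)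
    {x y z : T} (hx : x ∈ Q) (hy : y ∈ Q) (hz : z ∈ Q) (hxy : G.Adj x y) (hxz : G.Adj x z)
    (hyz : G.Adj y z) (m1 : wt G (K \ Q) x y = 1) (m2 : wt G (K \ Q) x z = 1)
    (ht : tau G Q (K \ Q) x = 2) : nb G Q x = {y, z} := by
  have hne : y ≠ z := hyz.ne
  have n1 : nb G ({y, z} : Finset T) y = {z} := by
    ext t
    simp only [mem_nb, Finset.mem_insert, Finset.mem_singleton]
    constructor
    · rintro ⟨rfl | rfl, h2⟩
      · exact absurd h2 (G.loopless.irrefl _)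
      · rfl
    · rintro rfl
      exact ⟨Or.inr rfl, hyz⟩
  have n2 : nb G ({y, z} : Finset T) z = {y} := by
    ext t
    simp only [mem_nb, Finset.mem_insert, Finset.mem_singleton]
    constructor
    · rintro ⟨rfl | rfl, h2⟩
      · rfl
      · exact absurd h2 (G.loopless.irrefl _)
    · rintro rfl
      exact ⟨Or.inl rfl, hyz.symm⟩
  refine F2.link_ext h hQ hx (P0 := {y, z}) ?_ ⟨y, by simp⟩ ?_ ?_
  · intro t ht
    simp only [Finset.mem_insert, Finset.mem_singleton] at ht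
    rcases ht with rfl | rfl
    · exact mem_nb.2 ⟨hy, hxy⟩
    · exact mem_nb.2 ⟨hz, hxz⟩
  · intro t ht
    simp only [Finset.mem_insert, Finset.mem_singleton] at ht
    rcases ht with rfl | rfl
    · rw [n1, Y14_mu hxy, m1, Finset.card_singleton]
    · rw [n2, Y14_mu hxz, m2, Finset.card_singleton]
  · rw [Finset.sum_insert (by simpa using hne), Finset.sum_singleton, Y14_mu hxy, Y14_mu hxz, m1, m2,
      ht]

private theorem Y14_three {G : SimpleGraph T} {K Q : Finset T} (h : F2 G K) (hQ : Q ⊆ K)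
    {x y z w : T} (hx : x ∈ Q) (hy : y ∈ Q) (hz : z ∈ Q) (hw : w ∈ Q) (hxy : G.Adj x y)
    (hxz : G.Adj x z) (hxw : G.Adj x w) (hyz : G.Adj y z) (hzw : G.Adj z w) (hyw : ¬ G.Adj y w)
    (hne : y ≠ w) (m1 : wt G (K \ Q) x y = 1) (m2 : wt G (K \ Q) x z = 0)
    (m3 : wt G (K \ Q) x w = 1) (ht : tau G Q (K \ Q) x = 2) : nb G Q x = {y, z, w} := by
  have n1 : nb G ({y, z, w} : Finset T) y = {z} := by
    ext t
    simp only [mem_nb, Finset.mem_insert, Finset.mem_singleton]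
    constructor
    · rintro ⟨rfl | rfl | rfl, h2⟩
      · exact absurd h2 (G.loopless.irrefl _)
      · rfl
      · exact absurd h2 hyw
    · rintro rfl
      exact ⟨Or.inr (Or.inl rfl), hyz⟩
  have n3 : nb G ({y, z, w} : Finset T) w = {z} := by
    ext t
    simp only [mem_nb, Finset.mem_insert, Finset.mem_singleton]
    constructor
    · rintro ⟨rfl | rfl | rfl, h2⟩
      · exact absurd h2.symm hyw
      · rfl
      · exact absurd h2 (G.loopless.irrefl _)
    · rintro rfl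
      exact ⟨Or.inr (Or.inl rfl), hzw.symm⟩
  have n2 : nb G ({y, z, w} : Finset T) z = {y, w} := by
    ext t
    simp only [mem_nb, Finset.mem_insert, Finset.mem_singleton]
    constructor
    · rintro ⟨rfl | rfl | rfl, h2⟩
      · exact Or.inl rfl
      · exact absurd h2 (G.loopless.irrefl _)
      · exact Or.inr rfl
    · rintro (rfl | rfl)
      · exact ⟨Or.inl rfl, hyz.symm⟩
      · exact ⟨Or.inr (Or.inr rfl), hzw⟩
  refine F2.link_ext h hQ hx (P0 := {y, z, w}) ?_ ⟨y, by simp⟩ ?_ ?_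
  · intro t ht
    simp only [Finset.mem_insert, Finset.mem_singleton] at ht
    rcases ht with rfl | rfl | rfl
    · exact mem_nb.2 ⟨hy, hxy⟩
    · exact mem_nb.2 ⟨hz, hxz⟩
    · exact mem_nb.2 ⟨hw, hxw⟩
  · intro t ht
    simp only [Finset.mem_insert, Finset.mem_singleton] at ht
    rcases ht with rfl | rfl | rfl
    · rw [n1, Y14_mu hxy, m1, Finset.card_singleton]
    · rw [n2, Y14_mu hxz, m2, Finset.card_pair hne]
    · rw [n3, Y14_mu hxw, m3, Finset.card_singleton]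
  · rw [Finset.sum_insert (by simp [hyz.ne, hne]), Finset.sum_insert (by simpa using hzw.ne),
      Finset.sum_singleton, Y14_mu hxy, Y14_mu hxz, Y14_mu hxw, m1, m2, m3, ht]
    omega

theorem region_chord {G : SimpleGraph T} {K Q : Finset T} (h : F2 G K) (hQ : Q ⊆ K)
    (hc : Conn G Q) {p q r s : T}
    (hb : bnd G Q (K \ Q) = {p, q, r, s}) (hpq : p ≠ q) (hpr : p ≠ r) (hps : p ≠ s) (hqr : q ≠ r)
    (hqs : q ≠ s) (hrs : r ≠ s) (w1 : wt G (K \ Q) p q = 1) (w2 : wt G (K \ Q) q r = 1)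
    (w3 : wt G (K \ Q) r s = 1) (w4 : wt G (K \ Q) s p = 1) (w5 : wt G (K \ Q) p r = 0)
    (w6 : wt G (K \ Q) q s = 0) (hadj : G.Adj p r) :
    TyD G Q ∧ bnd G Q (K \ Q) = Q := by
  have hmem : ∀ x : T, x ∈ bnd G Q (K \ Q) ↔ x = p ∨ x = q ∨ x = r ∨ x = s := by
    intro x
    rw [hb]
    simp
  have hp : p ∈ bnd G Q (K \ Q) := (hmem p).2 (Or.inl rfl)
  have hq : q ∈ bnd G Q (K \ Q) := (hmem q).2 (Or.inr (Or.inl rfl))
  have hr : r ∈ bnd G Q (K \ Q) := (hmem r).2 (Or.inr (Or.inr (Or.inl rfl)))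
  have hs : s ∈ bnd G Q (K \ Q) := (hmem s).2 (Or.inr (Or.inr (Or.inr rfl)))
  have hpQ := (mem_bnd.1 hp).1
  have hqQ := (mem_bnd.1 hq).1
  have hrQ := (mem_bnd.1 hr).1
  have hsQ := (mem_bnd.1 hs).1
  have hexp : ∀ f : T → ℕ, ∑ x ∈ bnd G Q (K \ Q), f x = f p + f q + f r + f s := by
    intro f
    rw [hb, Finset.sum_insert (by simp [hpq, hpr, hps]), Finset.sum_insert (by simp [hqr, hqs]),
      Finset.sum_insert (by simp [hrs]), Finset.sum_singleton]
    ring
  have w1' : wt G (K \ Q) q p = 1 := by rw [wt_comm]; exact w1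
  have w2' : wt G (K \ Q) r q = 1 := by rw [wt_comm]; exact w2
  have w3' : wt G (K \ Q) s r = 1 := by rw [wt_comm]; exact w3
  have w4' : wt G (K \ Q) p s = 1 := by rw [wt_comm]; exact w4
  have w5' : wt G (K \ Q) r p = 0 := by rw [wt_comm]; exact w5
  have w6' : wt G (K \ Q) s q = 0 := by rw [wt_comm]; exact w6
  have apq : G.Adj p q := (wt_pos (by omega : 0 < wt G (K \ Q) p q)).1
  have aqr : G.Adj q r := (wt_pos (by omega : 0 < wt G (K \ Q) q r)).1
  have ars : G.Adj r s := (wt_pos (by omega : 0 < wt G (K \ Q) r s)).1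
  have asp : G.Adj s p := (wt_pos (by omega : 0 < wt G (K \ Q) s p)).1
  have fp := Finset.add_sum_erase (bnd G Q (K \ Q)) (fun x => wt G (K \ Q) p x) hp
  have fq := Finset.add_sum_erase (bnd G Q (K \ Q)) (fun x => wt G (K \ Q) q x) hq
  have fr := Finset.add_sum_erase (bnd G Q (K \ Q)) (fun x => wt G (K \ Q) r x) hr
  have fs := Finset.add_sum_erase (bnd G Q (K \ Q)) (fun x => wt G (K \ Q) s x) hs
  rw [hexp, ← tau_eq_wt hpQ] at fp
  rw [hexp, ← tau_eq_wt hqQ] at fq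
  rw [hexp, ← tau_eq_wt hrQ] at fr
  rw [hexp, ← tau_eq_wt hsQ] at fs
  have tp : tau G Q (K \ Q) p = 2 := by omega
  have tq : tau G Q (K \ Q) q = 2 := by omega
  have tr : tau G Q (K \ Q) r = 2 := by omega
  have ts : tau G Q (K \ Q) s = 2 := by omega
  have eq' : nb G Q q = {p, r} := Y14_two h hQ hqQ hpQ hrQ apq.symm aqr hadj w1' w2 tq
  have es' : nb G Q s = {p, r} := Y14_two h hQ hsQ hpQ hrQ asp ars.symm hadj w4 w3' ts
  have nqs : ¬ G.Adj q s := by
    intro hh
    have : s ∈ nb G Q q := mem_nb.2 ⟨hsQ, hh⟩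
    rw [eq'] at this
    simp only [Finset.mem_insert, Finset.mem_singleton] at this
    rcases this with h1 | h1
    · exact hps h1.symm
    · exact hrs h1.symm
  have ep' : nb G Q p = {q, r, s} :=
    Y14_three h hQ hpQ hqQ hrQ hsQ apq hadj asp.symm aqr ars nqs hqs w1 w5 w4' tp
  have er' : nb G Q r = {q, p, s} :=
    Y14_three h hQ hrQ hqQ hpQ hsQ aqr.symm hadj.symm ars apq.symm asp.symm nqs hqs w2' w5' w3 tr
  have e : ({p, q, r, s} : Finset T) = Q := by
    refine hc.eq_of_closed_y ?_ ⟨p, by simp⟩ ?_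
    · intro x hx
      simp only [Finset.mem_insert, Finset.mem_singleton] at hx
      rcases hx with rfl | rfl | rfl | rfl
      · exact hpQ
      · exact hqQ
      · exact hrQ
      · exact hsQ
    · intro x hx y hy hxy
      have hy2 : y ∈ nb G Q x := mem_nb.2 ⟨hy, hxy⟩
      simp only [Finset.mem_insert, Finset.mem_singleton] at hx
      rcases hx with rfl | rfl | rfl | rfl
      · rw [ep'] at hy2
        simp only [Finset.mem_insert, Finset.mem_singleton] at hy2 ⊢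
        tauto
      · rw [eq'] at hy2
        simp only [Finset.mem_insert, Finset.mem_singleton] at hy2 ⊢
        tauto
      · rw [er'] at hy2
        simp only [Finset.mem_insert, Finset.mem_singleton] at hy2 ⊢
        tauto
      · rw [es'] at hy2
        simp only [Finset.mem_insert, Finset.mem_singleton] at hy2 ⊢
        tauto
  refine ⟨⟨q, s, p, r, ?_, hqs, nqs, apq.symm, asp, aqr, ars.symm, hadj⟩, by rw [hb, e]⟩
  rw [← e]
  ext x
  simp only [Finset.mem_insert, Finset.mem_singleton]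
  tauto

end Pool.Agent.LibFlagPL

end

section

namespace Pool.Agent.LibFlagPL

open Finset

variable {T : Type} [Fintype T] [DecidableEq T]

theorem region {G : SimpleGraph T} {K Q : Finset T} (h : F2 G K) (hQ : Q ⊆ K)
    (hc : Conn G Q) (hc' : Conn G (K \ Q)) (hcl : ¬ Cl G Q) (h0 : chi G Q = 0) :
    (TyC G Q ∧ bnd G Q (K \ Q) = Q) ∨ (TyD G Q ∧ bnd G Q (K \ Q) = Q) ∨
      ∃ p q r s : T, Ind4 G p q r s ∧ bnd G Q (K \ Q) = {p, q, r, s} := by
  rcases region_card h hQ hc hc' hcl h0 with h3 | h4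
  · exact Or.inl (region_three h hQ hc hc' hcl h0 h3)
  · right
    obtain ⟨p, q, r, s, hb, hpq, hpr, hps, hqr, hqs, hrs, w1, w2, w3, w4, w5, w6⟩ :=
      region_four h hQ hc hc' hcl h0 h4
    by_cases hadj : G.Adj p r
    · exact Or.inl (region_chord h hQ hc hb hpq hpr hps hqr hqs hrs w1 w2 w3 w4 w5 w6 hadj)
    · by_cases hadj' : G.Adj q s
      · left
        have hb' : bnd G Q (K \ Q) = {q, r, s, p} := by
          rw [hb]
          ext x
          simp only [Finset.mem_insert, Finset.mem_singleton]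
          tauto
        exact region_chord h hQ hc hb' hqr hqs hpq.symm hrs hpr.symm hps.symm w2 w3 w4 w1 w6
          (by rw [wt_comm]; exact w5) hadj'
      · right
        refine ⟨p, q, r, s, ⟨?_, ?_, ?_, ?_, hpr, hqs, hadj, hadj'⟩, hb⟩
        · exact (wt_pos (by rw [w1]; exact Nat.one_pos)).1
        · exact (wt_pos (by rw [w2]; exact Nat.one_pos)).1
        · exact (wt_pos (by rw [w3]; exact Nat.one_pos)).1
        · exact (wt_pos (by rw [w4]; exact Nat.one_pos)).1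

end Pool.Agent.LibFlagPL

end

section

namespace Pool.Agent.LibFlagPL

open Finset

variable {T : Type} [Fintype T] [DecidableEq T]

private def stp (G : SimpleGraph T) (Z : Finset T) (a b : T) : Prop := a ∈ Z ∧ b ∈ Z ∧ G.Adj a b

private theorem stp_symm {G : SimpleGraph T} {Z : Finset T} {a b : T}
    (h : Relation.ReflTransGen (stp G Z) a b) : Relation.ReflTransGen (stp G Z) b a := by
  induction h with
  | refl => exact Relation.ReflTransGen.refl
  | tail _ h2 ih => exact Relation.ReflTransGen.head ⟨h2.2.1, h2.1, h2.2.2.symm⟩ ih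

theorem exists_comp {G : SimpleGraph T} {Z : Finset T} {x : T} (hx : x ∈ Z) :
    ∃ R : Finset T, R ⊆ Z ∧ x ∈ R ∧ Conn G R ∧ ∀ a ∈ R, ∀ b ∈ Z, G.Adj a b → b ∈ R := by
  classical
  have hmem : ∀ y, y ∈ Z.filter (fun y => Relation.ReflTransGen (stp G Z) x y) ↔
      y ∈ Z ∧ Relation.ReflTransGen (stp G Z) x y := fun y => Finset.mem_filter
  have hcl : ∀ a ∈ Z.filter (fun y => Relation.ReflTransGen (stp G Z) x y), ∀ b ∈ Z, G.Adj a b →
      b ∈ Z.filter (fun y => Relation.ReflTransGen (stp G Z) x y) := by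
    intro a ha b hb hab
    rw [hmem] at ha ⊢
    exact ⟨hb, ha.2.tail ⟨ha.1, hb, hab⟩⟩
  refine ⟨Z.filter (fun y => Relation.ReflTransGen (stp G Z) x y), Finset.filter_subset _ _,
    (hmem x).2 ⟨hx, Relation.ReflTransGen.refl⟩, ⟨⟨x, (hmem x).2 ⟨hx, Relation.ReflTransGen.refl⟩⟩, ?_⟩, hcl⟩
  have key : ∀ y, Relation.ReflTransGen (stp G Z) x y →
      Relation.ReflTransGen (stp G (Z.filter (fun y => Relation.ReflTransGen (stp G Z) x y))) x y := by
    intro y hy
    induction hy with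
    | refl => exact Relation.ReflTransGen.refl
    | tail h1 h2 ih =>
      exact ih.tail ⟨(hmem _).2 ⟨h2.1, h1⟩, (hmem _).2 ⟨h2.2.1, h1.tail h2⟩, h2.2.2⟩
  intro a ha b hb
  rw [hmem] at ha hb
  exact (stp_symm (key a ha.2)).trans (key b hb.2)

theorem not_conn_split {G : SimpleGraph T} {Y : Finset T} (hne : Y.Nonempty) (hc : ¬ Conn G Y) :
    ∃ A B : Finset T, A.Nonempty ∧ B.Nonempty ∧ Disjoint A B ∧ Y = A ∪ B ∧
      ∀ a ∈ A, ∀ b ∈ B, ¬ G.Adj a b := by
  obtain ⟨x, hx⟩ := hne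
  obtain ⟨R, hR, hxR, hRc, hRcl⟩ := exists_comp (G := G) hx
  refine ⟨R, Y \ R, ⟨x, hxR⟩, ?_, Finset.disjoint_sdiff, ?_, ?_⟩
  · rw [Finset.nonempty_iff_ne_empty]
    intro h0
    rw [Finset.sdiff_eq_empty_iff_subset] at h0
    have h1 : R = Y := Finset.Subset.antisymm hR h0
    rw [h1] at hRc
    exact hc hRc
  · exact (Finset.union_sdiff_of_subset hR).symm
  · intro a ha b hb hab
    rw [Finset.mem_sdiff] at hb
    exact hb.2 (hRcl a ha b hb.1 hab)

end Pool.Agent.LibFlagPL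

end

section

namespace Pool.Agent.LibFlagPL

open Finset

variable {T : Type} [Fintype T] [DecidableEq T]

private def stq (G : SimpleGraph T) (Z : Finset T) (a b : T) : Prop := a ∈ Z ∧ b ∈ Z ∧ G.Adj a b

private theorem stq_symm {G : SimpleGraph T} {Z : Finset T} {a b : T}
    (h : Relation.ReflTransGen (stq G Z) a b) : Relation.ReflTransGen (stq G Z) b a := by
  induction h with
  | refl => exact Relation.ReflTransGen.refl
  | tail _ h2 ih => exact Relation.ReflTransGen.head ⟨h2.2.1, h2.1, h2.2.2.symm⟩ ih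

theorem conn_compl_comp {G : SimpleGraph T} {K Y R : Finset T} (hK : Conn G K) (hY : Y ⊆ K)
    (hc : Conn G Y) (hR : R ⊆ K \ Y) (hcl : ∀ a ∈ R, ∀ b ∈ K \ Y, G.Adj a b → b ∈ R) :
    Conn G (K \ R) := by
  classical
  obtain ⟨y0, hy0⟩ := hc.1
  have hYQ : Y ⊆ K \ R := by
    intro y hy
    refine Finset.mem_sdiff.2 ⟨hY hy, fun hyR => ?_⟩
    exact (Finset.mem_sdiff.1 (hR hyR)).2 hy
  have hmono : ∀ a b, Relation.ReflTransGen (stq G Y) a b →
      Relation.ReflTransGen (stq G (K \ R)) a b := by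
    intro a b h
    induction h with
    | refl => exact Relation.ReflTransGen.refl
    | tail _ h2 ih => exact ih.tail ⟨hYQ h2.1, hYQ h2.2.1, h2.2.2⟩
  have key : ∀ z ∈ K \ R, Relation.ReflTransGen (stq G (K \ R)) y0 z := by
    by_contra hcon
    push Not at hcon
    obtain ⟨z, hz, hz'⟩ := hcon
    have hB : (K \ R).filter (fun b => ¬ Relation.ReflTransGen (stq G (K \ R)) y0 b) = K := by
      refine hK.eq_of_closed_y ((Finset.filter_subset _ _).trans Finset.sdiff_subset)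
        ⟨z, Finset.mem_filter.2 ⟨hz, hz'⟩⟩ ?_
      intro a ha b hb hab
      rw [Finset.mem_filter] at ha
      have haY : a ∉ Y := fun h => ha.2 (hmono _ _ (hc.2 y0 hy0 a h))
      have haK := Finset.mem_sdiff.1 ha.1
      have hbR : b ∉ R := fun h => haK.2 (hcl b h a (Finset.mem_sdiff.2 ⟨haK.1, haY⟩) hab.symm)
      have hbQ : b ∈ K \ R := Finset.mem_sdiff.2 ⟨hb, hbR⟩
      refine Finset.mem_filter.2 ⟨hbQ, fun h => ha.2 (h.tail ⟨hbQ, ha.1, hab.symm⟩)⟩
    have h1 : y0 ∈ (K \ R).filter (fun b => ¬ Relation.ReflTransGen (stq G (K \ R)) y0 b) := by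
      rw [hB]
      exact hY hy0
    exact (Finset.mem_filter.1 h1).2 Relation.ReflTransGen.refl
  refine ⟨⟨y0, hYQ hy0⟩, fun a ha b hb => ?_⟩
  exact (stq_symm (key a ha)).trans (key b hb)

end Pool.Agent.LibFlagPL

end

section

namespace Pool.Agent.LibFlagPL

open Finset

variable {T : Type} [Fintype T] [DecidableEq T]

theorem classY_disc {G : SimpleGraph T} {K Y : Finset T}
    (hN : ∀ A ⊆ K, ¬ Cl G A → chi G A ≤ 0) (hY : Y ⊆ K) (hcl : ¬ Cl G Y) (h0 : 0 ≤ chi G Y)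
    (hc : ¬ Conn G Y) : TyB G Y := by
  have hne : Y.Nonempty := by
    rw [Finset.nonempty_iff_ne_empty]
    intro h
    exact hcl (by rw [h]; intro s hs; exact absurd hs (Finset.notMem_empty s))
  obtain ⟨A, B, hA, hB, hd, hAB, hno⟩ := not_conn_split hne hc
  have hAK : A ⊆ K := fun x hx => hY (by rw [hAB]; exact Finset.mem_union_left _ hx)
  have hBK : B ⊆ K := fun x hx => hY (by rw [hAB]; exact Finset.mem_union_right _ hx)
  have hchi : chi G Y + 1 = chi G A + chi G B := by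
    have h1 := chi_union_y (G := G) (A := A) (B := B) (fun x hx y hy =>
      hno x (Finset.mem_sdiff.1 hx).1 y (Finset.mem_sdiff.1 hy).1)
    rw [Finset.disjoint_iff_inter_eq_empty.1 hd, ← hAB] at h1
    have h2 : chi G (∅ : Finset T) = 1 := by
      rw [chi_clique (fun s hs => absurd hs (Finset.notMem_empty s))]
      simp
    rw [h2] at h1
    exact h1
  have half : ∀ C : Finset T, C.Nonempty → C ⊆ K → chi G C ≤ 1 / 2 ∧ (chi G C = 1 / 2 → C.card = 1) := by
    intro C hC hCK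
    by_cases hcC : Cl G C
    · rw [chi_clique hcC]
      have hpos : 1 ≤ C.card := Finset.Nonempty.card_pos hC
      constructor
      · calc (1 / 2 : ℚ) ^ C.card ≤ (1 / 2 : ℚ) ^ 1 :=
              pow_le_pow_of_le_one (by norm_num) (by norm_num) hpos
          _ = 1 / 2 := by norm_num
      · intro h
        by_contra hne1
        have h2 : 2 ≤ C.card := by omega
        have h3 : (1 / 2 : ℚ) ^ C.card ≤ (1 / 2 : ℚ) ^ 2 :=
          pow_le_pow_of_le_one (by norm_num) (by norm_num) h2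
        rw [h] at h3
        norm_num at h3
    · have h1 := hN C hCK hcC
      constructor
      · linarith
      · intro h
        rw [h] at h1
        norm_num at h1
  have hA1 := half A hA hAK
  have hB1 := half B hB hBK
  have hAeq : chi G A = 1 / 2 := by linarith [hA1.1, hB1.1]
  have hBeq : chi G B = 1 / 2 := by linarith [hA1.1, hB1.1]
  obtain ⟨a, ha⟩ := Finset.card_eq_one.1 (hA1.2 hAeq)
  obtain ⟨b, hb⟩ := Finset.card_eq_one.1 (hB1.2 hBeq)
  subst ha
  subst hb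
  refine ⟨a, b, ?_, ?_, hno a (by simp) b (by simp)⟩
  · rw [hAB]
    ext x
    simp
  · intro h
    rw [h] at hd
    simp at hd

end Pool.Agent.LibFlagPL

end

section

namespace Pool.Agent.LibFlagPL

open Finset

variable {T : Type} [Fintype T] [DecidableEq T]

omit [Fintype T] [DecidableEq T] in
private theorem Y17b_Cl {G : SimpleGraph T} {A B : Finset T} (h : A ⊆ B) (hcl : ¬ Cl G A) :
    ¬ Cl G B := fun hB => hcl fun s hs t ht hst => hB s (h hs) t (h ht) hst

theorem classY_zero {G : SimpleGraph T} {K Y R : Finset T} (hK : F2 G K)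
    (hN : ∀ A ⊆ K, ¬ Cl G A → chi G A ≤ 0) (hY : Y ⊆ K) (hcl : ¬ Cl G Y) (h0 : 0 ≤ chi G Y)
    (hR : R ⊆ K \ Y) (hcR : ∀ a ∈ R, ∀ b ∈ K \ Y, G.Adj a b → b ∈ R) :
    chi G (K \ R) = 0 ∧ bnd G (K \ R) R ⊆ Y := by
  have hRK : R ⊆ K := hR.trans Finset.sdiff_subset
  have hRY : ∀ x ∈ R, x ∉ Y := fun x hx => (Finset.mem_sdiff.1 (hR hx)).2
  have hCY : bnd G (K \ R) R ⊆ Y := by
    intro c hc
    rw [mem_bnd, Finset.mem_sdiff] at hc
    obtain ⟨⟨h1, h2⟩, r, hr, hcr⟩ := hc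
    by_contra h3
    exact h2 (hcR r hr c (Finset.mem_sdiff.2 ⟨h1, h3⟩) hcr.symm)
  refine ⟨?_, hCY⟩
  obtain ⟨C, hC⟩ : ∃ C, C = bnd G (K \ R) R := ⟨_, rfl⟩
  rw [← hC] at hCY
  have hCm : ∀ c, c ∈ C ↔ (c ∈ K ∧ c ∉ R) ∧ ∃ r ∈ R, G.Adj c r := by
    intro c
    rw [hC, mem_bnd, Finset.mem_sdiff]
  have e1 := chi_union_y (G := G) (A := K \ R) (B := R ∪ C) (by
    intro x hx y hy hxy
    rw [Finset.mem_sdiff, Finset.mem_sdiff, Finset.mem_union, not_or] at hx
    rw [Finset.mem_sdiff, Finset.mem_union, Finset.mem_sdiff] at hy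
    rcases hy.1 with h1 | h1
    · exact hx.2.2 ((hCm x).2 ⟨hx.1, y, h1, hxy⟩)
    · exact hy.2 ((hCm y).1 h1).1)
  have e2 := chi_union_y (G := G) (A := Y) (B := R ∪ C) (by
    intro x hx y hy hxy
    rw [Finset.mem_sdiff, Finset.mem_union, not_or] at hx
    rw [Finset.mem_sdiff, Finset.mem_union] at hy
    rcases hy.1 with h1 | h1
    · exact hx.2.2 ((hCm x).2 ⟨⟨hY hx.1, hx.2.1⟩, y, h1, hxy⟩)
    · exact hy.2 (hCY h1))
  have u1 : (K \ R) ∪ (R ∪ C) = K := by
    ext x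
    rw [Finset.mem_union, Finset.mem_union, Finset.mem_sdiff]
    constructor
    · rintro (h1 | h1 | h1)
      · exact h1.1
      · exact hRK h1
      · exact hY (hCY h1)
    · intro h1
      by_cases h2 : x ∈ R
      · exact Or.inr (Or.inl h2)
      · exact Or.inl ⟨h1, h2⟩
  have i1 : (K \ R) ∩ (R ∪ C) = C := by
    ext x
    rw [Finset.mem_inter, Finset.mem_union, Finset.mem_sdiff]
    constructor
    · rintro ⟨h1, h2 | h2⟩
      · exact absurd h2 h1.2
      · exact h2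
    · intro h1
      exact ⟨((hCm x).1 h1).1, Or.inr h1⟩
  have u2 : Y ∪ (R ∪ C) = Y ∪ R := by
    ext x
    rw [Finset.mem_union, Finset.mem_union, Finset.mem_union]
    constructor
    · rintro (h1 | h1 | h1)
      · exact Or.inl h1
      · exact Or.inr h1
      · exact Or.inl (hCY h1)
    · rintro (h1 | h1)
      · exact Or.inl h1
      · exact Or.inr (Or.inl h1)
  have i2 : Y ∩ (R ∪ C) = C := by
    ext x
    rw [Finset.mem_inter, Finset.mem_union]
    constructor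
    · rintro ⟨h1, h2 | h2⟩
      · exact absurd h1 (hRY x h2)
      · exact h2
    · intro h1
      exact ⟨hCY h1, Or.inr h1⟩
  rw [u1, i1, hK.chi_eq] at e1
  rw [u2, i2] at e2
  have hYQ : Y ⊆ K \ R := by
    intro x hx
    rw [Finset.mem_sdiff]
    exact ⟨hY hx, fun h1 => hRY x h1 hx⟩
  have n1 := hN (K \ R) Finset.sdiff_subset (Y17b_Cl hYQ hcl)
  have n2 := hN (Y ∪ R) (Finset.union_subset hY hRK) (Y17b_Cl Finset.subset_union_left hcl)
  have n3 := hN Y hY hcl
  linarith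

end Pool.Agent.LibFlagPL

end

section

namespace Pool.Agent.LibFlagPL

open Finset

variable {T : Type} [Fintype T] [DecidableEq T]

theorem classY_comp {G : SimpleGraph T} {K Y R : Finset T} (hK : F2 G K)
    (hN : ∀ A ⊆ K, ¬ Cl G A → chi G A ≤ 0) (hY : Y ⊆ K) (hcl : ¬ Cl G Y)
    (h0 : 0 ≤ chi G Y) (hc : Conn G Y) (hR : R ⊆ K \ Y) (hRc : Conn G R)
    (hRcl : ∀ x ∈ R, ∀ y ∈ K \ Y, G.Adj x y → y ∈ R) :
    TyC G Y ∨ TyD G Y ∨ ∃ p q r s : T, p ∈ Y ∧ q ∈ Y ∧ r ∈ Y ∧ s ∈ Y ∧ Ind4 G p q r s ∧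
      ∀ y ∈ Y, (∃ x ∈ R, G.Adj y x) ↔ y ∈ ({p, q, r, s} : Finset T) := by
  have hRK : R ⊆ K := hR.trans Finset.sdiff_subset
  have hKQ : K \ (K \ R) = R := Finset.sdiff_sdiff_eq_self hRK
  have hQ : Conn G (K \ R) := conn_compl_comp hK.1 hY hc hR hRcl
  have hYQ : Y ⊆ K \ R := by
    intro y hy
    refine Finset.mem_sdiff.2 ⟨hY hy, fun hyR => ?_⟩
    exact (Finset.mem_sdiff.1 (hR hyR)).2 hy
  have hQcl : ¬ Cl G (K \ R) := fun h1 => hcl fun s hs t ht => h1 s (hYQ hs) t (hYQ ht)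
  obtain ⟨hz, hb⟩ := classY_zero hK hN hY hcl h0 hR hRcl
  have hreg := region hK (Finset.sdiff_subset (s := K) (t := R)) hQ (by rw [hKQ]; exact hRc) hQcl hz
  rw [hKQ] at hreg
  rcases hreg with ⟨h1, h2⟩ | ⟨h1, h2⟩ | ⟨p, q, r, s, h1, h2⟩
  · left
    have h3 : Y = K \ R := Finset.Subset.antisymm hYQ (by rw [← h2]; exact hb)
    rw [h3]
    exact h1
  · right; left
    have h3 : Y = K \ R := Finset.Subset.antisymm hYQ (by rw [← h2]; exact hb)
    rw [h3]
    exact h1
  · right; right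
    have hin : ∀ y, y ∈ ({p, q, r, s} : Finset T) → y ∈ Y := fun y hy => hb (by rw [h2]; exact hy)
    refine ⟨p, q, r, s, hin p (by simp), hin q (by simp), hin r (by simp),
      hin s (by simp), h1, fun y hy => ?_⟩
    rw [← h2, mem_bnd]
    constructor
    · rintro ⟨x', hx', hadj⟩
      exact ⟨hYQ hy, x', hx', hadj⟩
    · rintro ⟨-, x', hx', hadj⟩
      exact ⟨x', hx', hadj⟩

/-- strong form: in the last case every component of `K \ Y` is attached along an induced 4-cycle -/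
theorem classY_all {G : SimpleGraph T} {K Y : Finset T} (hK : F2 G K)
    (hN : ∀ A ⊆ K, ¬ Cl G A → chi G A ≤ 0) (hY : Y ⊆ K) (hcl : ¬ Cl G Y)
    (h0 : 0 ≤ chi G Y) :
    TyB G Y ∨ TyC G Y ∨ TyD G Y ∨ (Conn G Y ∧ ∀ R ⊆ K \ Y, Conn G R →
      (∀ x ∈ R, ∀ y ∈ K \ Y, G.Adj x y → y ∈ R) →
      ∃ p q r s : T, p ∈ Y ∧ q ∈ Y ∧ r ∈ Y ∧ s ∈ Y ∧ Ind4 G p q r s ∧
        ∀ y ∈ Y, (∃ x ∈ R, G.Adj y x) ↔ y ∈ ({p, q, r, s} : Finset T)) := by
  by_cases hc : Conn G Y
  · right
    by_cases hCD : TyC G Y ∨ TyD G Y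
    · rcases hCD with h1 | h1
      · exact Or.inl h1
      · exact Or.inr (Or.inl h1)
    · right; right
      refine ⟨hc, fun R hR hRc hRcl => ?_⟩
      rcases classY_comp hK hN hY hcl h0 hc hR hRc hRcl with h1 | h1 | h1
      · exact absurd (Or.inl h1) hCD
      · exact absurd (Or.inr h1) hCD
      · exact h1
  · left
    exact classY_disc hN hY hcl h0 hc

theorem classY {G : SimpleGraph T} {K Y : Finset T} (hK : F2 G K)
    (hN : ∀ A ⊆ K, ¬ Cl G A → chi G A ≤ 0) (hY : Y ⊆ K) (hne : Y ≠ K) (hcl : ¬ Cl G Y)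
    (h0 : 0 ≤ chi G Y) : TyB G Y ∨ TyC G Y ∨ TyD G Y ∨ TyE G K Y := by
  rcases classY_all hK hN hY hcl h0 with h1 | h1 | h1 | ⟨-, h1⟩
  · exact Or.inl h1
  · exact Or.inr (Or.inl h1)
  · exact Or.inr (Or.inr (Or.inl h1))
  · right; right; right
    obtain ⟨x, hxK, hxY⟩ : ∃ x ∈ K, x ∉ Y := by
      by_contra hcon
      push Not at hcon
      exact hne (Finset.Subset.antisymm hY hcon)
    have hx : x ∈ K \ Y := Finset.mem_sdiff.2 ⟨hxK, hxY⟩
    obtain ⟨R, hR, hxR, hRc, hRcl⟩ := exists_comp (G := G) hx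
    obtain ⟨p, q, r, s, hp, hq, hr, hs, h4, h5⟩ := h1 R hR hRc hRcl
    exact ⟨R, p, q, r, s, hR, hRc, hRcl, hp, hq, hr, hs, h4, h5⟩

end Pool.Agent.LibFlagPL

end
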