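import Mathlib

/-!
# Definitions of the statement (MP_41cbfb_co)

Finite simplicial complexes, links, edge contractions, cross-polytopes, PL spheres, the gamma
vector, chains of edge contractions.

A finite simplicial complex is a finite family `K` of finite sets of natural numbers (its faces,
the empty face included) which is closed under taking subsets.  Every finite simplicial complex is
isomorphic to such a family.
-/

namespace Pool.Agent.LibFlagPL

open Finset Polynomial

/-- finite families of finite sets of natural numbers -/
abbrev Fam := Finset (Finset ℕ)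

/-- `K` is a simplicial complex: it contains the empty face and is closed under subsets -/
def IsCx (K : Fam) : Prop := ∅ ∈ K ∧ ∀ s ∈ K, ∀ t, t ⊆ s → t ∈ K

/-- flag: every set of vertices that are pairwise joined by edges is a face
(the case `a = b` says that the elements of `s` are vertices) -/
def Flag (K : Fam) : Prop := ∀ s : Finset ℕ, (∀ a ∈ s, ∀ b ∈ s, ({a, b} : Finset ℕ) ∈ K) → s ∈ K

/-- link of the face `σ`: all faces `τ` disjoint from `σ` with `σ ∪ τ ∈ K` -/
def link (K : Fam) (σ : Finset ℕ) : Fam := K.filter (fun τ => Disjoint σ τ ∧ σ ∪ τ ∈ K)

/-- contraction of the edge `{u, v}`: `v` is replaced by `u` in every face -/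
def contr (K : Fam) (u v : ℕ) : Fam :=
  K.image (fun s => if v ∈ s then insert u (s.erase v) else s)

/-- isomorphism of complexes: renaming of the vertices by a permutation of the natural numbers
(for finite complexes this is the same as a bijection between the vertex sets) -/
def Iso (K L : Fam) : Prop := ∃ f : Equiv.Perm ℕ, L = K.image (fun s => s.image f)

/-- boundary complex of the `d`-dimensional cross-polytope, a `(d - 1)`-dimensional flag sphere:
vertices `0, ..., 2 d - 1`, antipodal pairs `2 i, 2 i + 1`, the faces are the sets of vertices
without antipodal pair -/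
def cross (d : ℕ) : Fam :=
  (range (2 * d)).powerset.filter (fun s => ∀ i ∈ range d, ¬ (2 * i ∈ s ∧ 2 * i + 1 ∈ s))

/-- boundary complex of the `d`-simplex with the vertices `0, ..., d` -/
def bds (d : ℕ) : Fam := (range (d + 1)).ssubsets

/-- stellar subdivision of `K` at the face `E` with the new vertex `a`: the faces containing `E` are
removed and the cone with apex `a` over (boundary of `E`) * (link of `E`) is added; this last
complex consists of the faces `s` of `K` with `¬ E ⊆ s` and `s ∪ E ∈ K` -/
def stell (K : Fam) (E : Finset ℕ) (a : ℕ) : Fam :=
  K.filter (fun s => ¬ E ⊆ s) ∪ (K.filter (fun s => ¬ E ⊆ s ∧ s ∪ E ∈ K)).image (insert a)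

/-- elementary step between complexes: renaming of the vertices, or a stellar subdivision at a face
with at least two vertices, with a new vertex -/
def StStep (K L : Fam) : Prop :=
  IsCx K ∧ (Iso K L ∨ ∃ (E : Finset ℕ) (a : ℕ), E ∈ K ∧ 2 ≤ E.card ∧ (∀ s ∈ K, a ∉ s) ∧
    L = stell K E a)

/-- stellar equivalence: a finite sequence of renamings, stellar subdivisions and inverses of
stellar subdivisions -/
def StEq : Fam → Fam → Prop := Relation.EqvGen StStep

/-- PL spheres of dimension `d - 1`: the complexes that are related to the boundary of the
`d`-simplex by a finite sequence of stellar subdivisions, their inverses and renamings.  By the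
theorem of Alexander and Newman (stellar equivalence = PL homeomorphism) these are exactly the
complexes PL homeomorphic to the boundary of the `d`-simplex. -/
def SPL (d : ℕ) (K : Fam) : Prop := IsCx K ∧ StEq (bds d) K

/-- number of faces with `i` vertices (`f_(i - 1)`) -/
def fnum (K : Fam) (i : ℕ) : ℕ := (K.filter (fun s => s.card = i)).card

/-- `h`-polynomial of a `(d - 1)`-dimensional complex -/
noncomputable def hpoly (d : ℕ) (K : Fam) : ℤ[X] :=
  ∑ i ∈ range (d + 1), C (fnum K i : ℤ) * X ^ i * (1 - X) ^ (d - i)

/-- `g` is the gamma vector of the `(d - 1)`-dimensional sphere `K`: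
`h(t) = ∑ g_i t^i (1 + t)^(d - 2 i)`, the sum over `0 ≤ i ≤ d / 2` -/
def IsGamma (d : ℕ) (K : Fam) (g : ℕ → ℤ) : Prop :=
  hpoly d K = ∑ i ∈ range (d / 2 + 1), C (g i) * X ^ i * (1 + X) ^ (d - 2 * i)

/-- `K` reduces to the boundary of the cross-polytope: there is a finite chain of edge contractions
`K = K_0 → K_1 → ... → K_k`, all `K_i` are flag PL spheres of dimension `d - 1`, the link of every
contracted edge is isomorphic to the boundary of the `(d - 2)`-dimensional cross-polytope, and
`K_k` is isomorphic to the boundary of the `d`-dimensional cross-polytope -/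
inductive SReduces (d : ℕ) : Fam → Prop
  | base {K : Fam} : Flag K → SPL d K → Iso (cross d) K → SReduces d K
  | step {K : Fam} {u v : ℕ} : Flag K → SPL d K → u ≠ v → ({u, v} : Finset ℕ) ∈ K →
      Iso (cross (d - 2)) (link K {u, v}) → SReduces d (contr K u v) → SReduces d K

end Pool.Agent.LibFlagPL
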