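import Pool.Agent.LibFlagPL.Graphs
import Pool.Agent.LibFlagPL.SphereDefs

/-!
# LibFlagPL.Complexes: complexes, links, contractions, suspensions, complexes of cliques, cross-polytopes
-/

section

namespace Pool.Agent.LibFlagPL

open Finset Polynomial

/-- link condition for the edge `u v`: `lk u ∩ lk v = lk {u, v}` -/
def LinkCond (K : Fam) (u v : ℕ) : Prop :=
  u ≠ v ∧ ({u, v} : Finset ℕ) ∈ K ∧
    ∀ s ∈ K, insert u s ∈ K → insert v s ∈ K → insert u (insert v s) ∈ K

/-- closed manifold modelled on the class `P`: a complex all of whose vertex links are in `P` -/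
def Man (P : Fam → Prop) (K : Fam) : Prop := IsCx K ∧ ∀ v : ℕ, {v} ∈ K → P (link K {v})

/-- elementary step between manifolds: an isomorphism or an edge contraction satisfying the
link condition -/
def Step (P : Fam → Prop) (K L : Fam) : Prop :=
  Man P K ∧ Man P L ∧ (Iso K L ∨ ∃ u v : ℕ, LinkCond K u v ∧ L = contr K u v)

/-- `PLS d`: spheres of dimension `d - 1` by edge contractions (auxiliary) -/
def PLS : ℕ → Fam → Prop
  | 0 => fun K => K = {∅}
  | d + 1 => fun K => Man (PLS d) K ∧ Relation.EqvGen (Step (PLS d)) (bds (d + 1)) K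

/-- chains of contractions with `PLS` in place of `SPL` (auxiliary) -/
inductive Reduces (d : ℕ) : Fam → Prop
  | base {K : Fam} : Flag K → PLS d K → Iso (cross d) K → Reduces d K
  | step {K : Fam} {u v : ℕ} : Flag K → PLS d K → u ≠ v → ({u, v} : Finset ℕ) ∈ K →
      Iso (cross (d - 2)) (link K {u, v}) → Reduces d (contr K u v) → Reduces d K

end Pool.Agent.LibFlagPL

end

section

namespace Pool.Agent.LibFlagPL

open Finset

theorem mem_link {K : Fam} {σ τ : Finset ℕ} (h : IsCx K) :
    τ ∈ link K σ ↔ Disjoint σ τ ∧ σ ∪ τ ∈ K := by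
  unfold link
  rw [Finset.mem_filter]
  constructor
  · rintro ⟨_, h1⟩
    exact h1
  · rintro ⟨h1, h2⟩
    exact ⟨h.2 _ h2 _ Finset.subset_union_right, h1, h2⟩

theorem isCx_link {K : Fam} {σ : Finset ℕ} (h : IsCx K) (hσ : σ ∈ K) : IsCx (link K σ) := by
  constructor
  · rw [mem_link h]
    refine ⟨Finset.disjoint_empty_right _, ?_⟩
    rw [Finset.union_empty]
    exact hσ
  · intro s hs t ht
    rw [mem_link h] at hs ⊢
    exact ⟨Finset.disjoint_of_subset_right ht hs.1,
      h.2 _ hs.2 _ (Finset.union_subset_union (Finset.Subset.refl _) ht)⟩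

theorem mem_contr {K : Fam} {u v : ℕ} {s : Finset ℕ} :
    s ∈ contr K u v ↔ (s ∈ K ∧ v ∉ s) ∨ ∃ t ∈ K, v ∈ t ∧ s = insert u (t.erase v) := by
  unfold contr
  rw [Finset.mem_image]
  constructor
  · rintro ⟨t, ht, hs⟩
    by_cases hv : v ∈ t
    · rw [if_pos hv] at hs
      exact Or.inr ⟨t, ht, hv, hs.symm⟩
    · rw [if_neg hv] at hs
      subst hs
      exact Or.inl ⟨ht, hv⟩
  · rintro (⟨h1, h2⟩ | ⟨t, ht, hv, hs⟩)
    · exact ⟨s, h1, by rw [if_neg h2]⟩
    · exact ⟨t, ht, by rw [if_pos hv]; exact hs.symm⟩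

theorem isCx_contr {K : Fam} {u v : ℕ} (h : IsCx K) : IsCx (contr K u v) := by
  constructor
  · rw [mem_contr]
    exact Or.inl ⟨h.1, Finset.notMem_empty _⟩
  · intro s hs t ht
    rw [mem_contr] at hs ⊢
    rcases hs with ⟨h1, h2⟩ | ⟨r, hr, hv, hs⟩
    · exact Or.inl ⟨h.2 _ h1 _ ht, fun h3 => h2 (ht h3)⟩
    · subst hs
      by_cases huv : u = v
      · -- insert v (r.erase v) = r
        subst huv
        rw [Finset.insert_erase hv] at ht
        by_cases hut : u ∈ t
        · exact Or.inr ⟨t, h.2 _ hr _ ht, hut, by rw [Finset.insert_erase hut]⟩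
        · exact Or.inl ⟨h.2 _ hr _ ht, hut⟩
      · by_cases hut : u ∈ t
        · right
          refine ⟨insert v (t.erase u), ?_, Finset.mem_insert_self _ _, ?_⟩
          · apply h.2 _ hr
            intro x hx
            rw [Finset.mem_insert] at hx
            rcases hx with hx | hx
            · rw [hx]; exact hv
            · rw [Finset.mem_erase] at hx
              have h4 := ht hx.2
              rw [Finset.mem_insert] at h4
              rcases h4 with h4 | h4
              · exact absurd h4 hx.1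
              · exact Finset.mem_of_mem_erase h4
          · have hvt : v ∉ t := by
              intro h5
              have h4 := ht h5
              rw [Finset.mem_insert] at h4
              rcases h4 with h4 | h4
              · exact huv h4.symm
              · exact Finset.notMem_erase _ _ h4
            have hvt2 : v ∉ t.erase u := fun h5 => hvt (Finset.mem_of_mem_erase h5)
            rw [Finset.erase_insert hvt2, Finset.insert_erase hut]
        · left
          have h6 : t ⊆ r.erase v := by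
            intro x hx
            have h4 := ht hx
            rw [Finset.mem_insert] at h4
            rcases h4 with h4 | h4
            · rw [h4] at hx
              exact absurd hx hut
            · exact h4
          exact ⟨h.2 _ hr _ (h6.trans (Finset.erase_subset _ _)),
            fun h7 => Finset.notMem_erase _ _ (h6 h7)⟩

theorem isCx_iso {K L : Fam} (h : Iso K L) (hK : IsCx K) : IsCx L := by
  obtain ⟨f, rfl⟩ := h
  constructor
  · rw [Finset.mem_image]
    exact ⟨∅, hK.1, Finset.image_empty _⟩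
  · intro s hs t ht
    rw [Finset.mem_image] at hs ⊢
    obtain ⟨r, hr, rfl⟩ := hs
    refine ⟨t.image f.symm, ?_, ?_⟩
    · apply hK.2 _ hr
      intro x hx
      rw [Finset.mem_image] at hx
      obtain ⟨y, hy, rfl⟩ := hx
      have h1 := ht hy
      rw [Finset.mem_image] at h1
      obtain ⟨z, hz, rfl⟩ := h1
      rw [Equiv.symm_apply_apply]
      exact hz
    · rw [Finset.image_image]
      have : (f ∘ f.symm : ℕ → ℕ) = id := by
        funext x
        simp
      rw [this, Finset.image_id]

theorem Iso.refl (K : Fam) : Iso K K := by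
  refine ⟨Equiv.refl ℕ, ?_⟩
  have : (fun s : Finset ℕ => s.image (Equiv.refl ℕ)) = id := by
    funext s
    ext x
    simp
  rw [this, Finset.image_id]

theorem Iso.symm {K L : Fam} (h : Iso K L) : Iso L K := by
  obtain ⟨f, rfl⟩ := h
  refine ⟨f.symm, ?_⟩
  rw [Finset.image_image]
  have : ((fun s : Finset ℕ => s.image f.symm) ∘ (fun s : Finset ℕ => s.image f)) = id := by
    funext s
    ext x
    simp
  rw [this, Finset.image_id]

theorem Iso.trans {K L M : Fam} (h : Iso K L) (h' : Iso L M) : Iso K M := by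
  obtain ⟨f, rfl⟩ := h
  obtain ⟨g, rfl⟩ := h'
  refine ⟨f.trans g, ?_⟩
  rw [Finset.image_image]
  apply Finset.image_congr
  intro s _
  ext x
  simp

/-- links of isomorphic complexes -/
theorem Iso.link_image {K L : Fam} (f : Equiv.Perm ℕ) (h : L = K.image (fun s => s.image f))
    (hK : IsCx K) (σ : Finset ℕ) :
    link L (σ.image f) = (link K σ).image (fun s => s.image f) := by
  have hL : IsCx L := isCx_iso ⟨f, h⟩ hK
  have hinj : Function.Injective (fun s : Finset ℕ => s.image f) :=
    Finset.image_injective f.injective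
  ext τ
  rw [mem_link hL, Finset.mem_image]
  constructor
  · rintro ⟨h1, h2⟩
    refine ⟨τ.image f.symm, ?_, ?_⟩
    · have h3 : (τ.image f.symm).image f = τ := by
        rw [Finset.image_image]
        have : (f ∘ f.symm : ℕ → ℕ) = id := by
          funext x
          simp
        rw [this, Finset.image_id]
      rw [mem_link hK]
      constructor
      · rw [← h3] at h1
        exact (Finset.disjoint_image f.injective).1 h1
      · rw [h, Finset.mem_image] at h2
        obtain ⟨r, hr, hr2⟩ := h2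
        have h4 : (σ ∪ τ.image f.symm).image f = r.image f := by
          rw [Finset.image_union, h3]
          exact hr2.symm
        have h5 : σ ∪ τ.image f.symm = r := hinj h4
        rw [h5]
        exact hr
    · show (τ.image f.symm).image f = τ
      rw [Finset.image_image]
      have : (f ∘ f.symm : ℕ → ℕ) = id := by
        funext x
        simp
      rw [this, Finset.image_id]
  · rintro ⟨r, hr, rfl⟩
    rw [mem_link hK] at hr
    refine ⟨(Finset.disjoint_image f.injective).2 hr.1, ?_⟩
    rw [h, Finset.mem_image]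
    exact ⟨σ ∪ r, hr.2, by simp only [Finset.image_union]⟩

theorem Iso.fnum_eq {K L : Fam} (h : Iso K L) (i : ℕ) : fnum K i = fnum L i := by
  obtain ⟨f, rfl⟩ := h
  have hinj : Function.Injective (fun s : Finset ℕ => s.image f) :=
    Finset.image_injective f.injective
  unfold fnum
  rw [Finset.filter_image, Finset.card_image_of_injective _ hinj]
  congr 1
  apply Finset.filter_congr
  intro s _
  rw [Finset.card_image_of_injective _ f.injective]

end Pool.Agent.LibFlagPL

end

section

namespace Pool.Agent.LibFlagPL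

open Finset

theorem PLS.isCx {d : ℕ} {K : Fam} (h : PLS d K) : IsCx K := by
  cases d with
  | zero =>
    have h1 : K = {∅} := h
    subst h1
    refine ⟨Finset.mem_singleton_self _, ?_⟩
    intro s hs t ht
    rw [Finset.mem_singleton] at hs ⊢
    subst hs
    exact Finset.subset_empty.1 ht
  | succ d => exact h.1.1

theorem PLS.link {d : ℕ} {K : Fam} (h : PLS (d + 1) K) {v : ℕ} (hv : {v} ∈ K) :
    PLS d (link K {v}) := h.1.2 v hv

theorem PLS_iso {d : ℕ} {K L : Fam} (h : Iso K L) (hK : PLS d K) : PLS d L := by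
  induction d generalizing K L with
  | zero =>
    have h1 : K = {∅} := hK
    subst h1
    obtain ⟨f, hf⟩ := h
    show L = {∅}
    rw [hf, Finset.image_singleton, Finset.image_empty]
  | succ d ih =>
    obtain ⟨f, hf⟩ := h
    have hcx : IsCx L := isCx_iso ⟨f, hf⟩ hK.1.1
    have hman : Man (PLS d) L := by
      refine ⟨hcx, ?_⟩
      intro v hv
      have hv2 := hv
      rw [hf, Finset.mem_image] at hv2
      obtain ⟨s, hs, hs2⟩ := hv2
      have hinj : Function.Injective (fun s : Finset ℕ => s.image f) :=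
        Finset.image_injective f.injective
      have h3 : (({f.symm v} : Finset ℕ)).image f = {v} := by
        rw [Finset.image_singleton, Equiv.apply_symm_apply]
      have h4 : s = {f.symm v} := by
        apply hinj
        show s.image f = (({f.symm v} : Finset ℕ)).image f
        rw [h3]
        exact hs2
      rw [h4] at hs
      have h5 := Iso.link_image f hf hK.1.1 {f.symm v}
      rw [h3] at h5
      exact ih ⟨f, h5⟩ (hK.1.2 _ hs)
    exact ⟨hman, Relation.EqvGen.trans _ _ _ hK.2
      (Relation.EqvGen.rel _ _ ⟨hK.1, hman, Or.inl ⟨f, hf⟩⟩)⟩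

private theorem P1b_image_symm (f : Equiv.Perm ℕ) (τ : Finset ℕ) :
    (τ.image f.symm).image f = τ := by
  rw [Finset.image_image]
  have : (f ∘ f.symm : ℕ → ℕ) = id := by
    funext x
    simp
  rw [this, Finset.image_id]

private theorem P1b_ssubsets (f : Equiv.Perm ℕ) (S : Finset ℕ) :
    (S.ssubsets).image (fun s => s.image f) = (S.image f).ssubsets := by
  have hinj : Function.Injective (fun s : Finset ℕ => s.image f) :=
    Finset.image_injective f.injective
  ext τ
  rw [Finset.mem_image, Finset.mem_ssubsets]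
  constructor
  · rintro ⟨s, hs, rfl⟩
    rw [Finset.mem_ssubsets, Finset.ssubset_iff_subset_ne] at hs
    rw [Finset.ssubset_iff_subset_ne]
    exact ⟨Finset.image_subset_image hs.1, fun h => hs.2 (hinj h)⟩
  · intro h
    rw [Finset.ssubset_iff_subset_ne] at h
    refine ⟨τ.image f.symm, ?_, P1b_image_symm f τ⟩
    rw [Finset.mem_ssubsets, Finset.ssubset_iff_subset_ne]
    constructor
    · intro x hx
      rw [Finset.mem_image] at hx
      obtain ⟨y, hy, rfl⟩ := hx
      have h1 := h.1 hy
      rw [Finset.mem_image] at h1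
      obtain ⟨z, hz, rfl⟩ := h1
      rw [Equiv.symm_apply_apply]
      exact hz
    · intro h2
      apply h.2
      rw [← h2, P1b_image_symm]

private theorem P1b_isCx_bds (d : ℕ) : IsCx (bds d) := by
  unfold bds
  constructor
  · rw [Finset.mem_ssubsets, Finset.empty_ssubset]
    exact ⟨0, by rw [Finset.mem_range]; omega⟩
  · intro s hs t ht
    rw [Finset.mem_ssubsets] at hs ⊢
    exact lt_of_le_of_lt ht hs

private theorem P1b_link_bds (d v : ℕ) (hv : v < d + 2) :
    Pool.Agent.LibFlagPL.link (bds (d + 1)) {v} = ((range (d + 2)).erase v).ssubsets := by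
  ext τ
  rw [mem_link (P1b_isCx_bds (d + 1)), Finset.mem_ssubsets]
  unfold bds
  rw [Finset.mem_ssubsets, Finset.disjoint_singleton_left, Finset.ssubset_iff_subset_ne,
    Finset.ssubset_iff_subset_ne]
  have hvr : v ∈ range (d + 1 + 1) := by
    rw [Finset.mem_range]; exact hv
  constructor
  · rintro ⟨h1, h2, h3⟩
    constructor
    · intro x hx
      rw [Finset.mem_erase]
      exact ⟨fun h => h1 (h ▸ hx), h2 (Finset.mem_union_right _ hx)⟩
    · intro h
      apply h3
      rw [h]
      rw [Finset.singleton_union]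
      exact Finset.insert_erase hvr
  · rintro ⟨h1, h2⟩
    have hvt : v ∉ τ := fun h => Finset.notMem_erase _ _ (h1 h)
    refine ⟨hvt, ?_, ?_⟩
    · intro x hx
      rw [Finset.mem_union, Finset.mem_singleton] at hx
      rcases hx with hx | hx
      · rw [hx]; exact hvr
      · exact Finset.mem_of_mem_erase (h1 hx)
    · intro h
      apply h2
      rw [show d + 2 = d + 1 + 1 from rfl, ← h, Finset.singleton_union, Finset.erase_insert hvt]

theorem bds_link (d v : ℕ) (hv : v < d + 2) : Iso (bds d) (link (bds (d + 1)) {v}) := by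
  refine ⟨Equiv.swap v (d + 1), ?_⟩
  rw [P1b_link_bds d v hv]
  unfold bds
  rw [P1b_ssubsets]
  congr 1
  ext x
  rw [Finset.mem_image, Finset.mem_erase, Finset.mem_range]
  constructor
  · rintro ⟨h1, h2⟩
    by_cases h3 : x = d + 1
    · subst h3
      exact ⟨v, by rw [Finset.mem_range]; omega, Equiv.swap_apply_left _ _⟩
    · exact ⟨x, by rw [Finset.mem_range]; omega, Equiv.swap_apply_of_ne_of_ne h1 h3⟩
  · rintro ⟨y, hy, rfl⟩
    rw [Finset.mem_range] at hy
    by_cases h3 : y = v
    · subst h3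
      rw [Equiv.swap_apply_left]
      omega
    · rw [Equiv.swap_apply_of_ne_of_ne h3 (by omega)]
      omega

theorem PLS_bds (d : ℕ) : PLS d (bds d) := by
  induction d with
  | zero =>
    show bds 0 = {∅}
    unfold bds
    ext s
    rw [Finset.mem_ssubsets, Finset.mem_singleton]
    constructor
    · intro h
      have h1 : s.card < (range (0 + 1)).card := Finset.card_lt_card h
      rw [Finset.card_range] at h1
      exact Finset.card_eq_zero.1 (by omega)
    · rintro rfl
      rw [Finset.empty_ssubset]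
      exact ⟨0, by rw [Finset.mem_range]; omega⟩
  | succ d ih =>
    refine ⟨⟨P1b_isCx_bds (d + 1), ?_⟩, Relation.EqvGen.refl _⟩
    intro v hv
    have hv2 : v < d + 2 := by
      unfold bds at hv
      rw [Finset.mem_ssubsets] at hv
      have h1 := hv.1 (Finset.mem_singleton_self v)
      rw [Finset.mem_range] at h1
      exact h1
    exact PLS_iso (bds_link d v hv2) ih

/-- backwards: if the contraction is a PL sphere, so is the complex -/
theorem PLS_of_contr {d : ℕ} {K : Fam} {u v : ℕ} (hK : Man (PLS d) K) (huv : LinkCond K u v)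
    (h : PLS (d + 1) (contr K u v)) : PLS (d + 1) K :=
  ⟨hK, Relation.EqvGen.trans _ _ _ h.2 (Relation.EqvGen.symm _ _
    (Relation.EqvGen.rel _ _ ⟨hK, h.1, Or.inr ⟨u, v, huv, rfl⟩⟩))⟩

/-- forwards -/
theorem PLS_contr {d : ℕ} {K : Fam} {u v : ℕ} (hK : PLS (d + 1) K) (huv : LinkCond K u v)
    (h : Man (PLS d) (contr K u v)) : PLS (d + 1) (contr K u v) :=
  ⟨h, Relation.EqvGen.trans _ _ _ hK.2
    (Relation.EqvGen.rel _ _ ⟨hK.1, h, Or.inr ⟨u, v, huv, rfl⟩⟩)⟩

end Pool.Agent.LibFlagPL

end

section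

namespace Pool.Agent.LibFlagPL

open Finset

variable {N : ℕ}

open scoped Classical in
/-- the clique complex of `G` on `S` -/
noncomputable def cxOf (G : SimpleGraph (Fin N)) (S : Finset (Fin N)) : Fam :=
  (S.powerset.filter (fun σ => Cl G σ)).image (fun σ => σ.image Fin.val)

theorem mem_cxOf {G : SimpleGraph (Fin N)} {S : Finset (Fin N)} {s : Finset ℕ} :
    s ∈ cxOf G S ↔ ∃ σ : Finset (Fin N), σ ⊆ S ∧ Cl G σ ∧ s = σ.image Fin.val := by
  classical
  unfold cxOf
  rw [mem_image]
  constructor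
  · rintro ⟨σ, hσ, rfl⟩
    rw [mem_filter, mem_powerset] at hσ
    exact ⟨σ, hσ.1, hσ.2, rfl⟩
  · rintro ⟨σ, h1, h2, rfl⟩
    refine ⟨σ, ?_, rfl⟩
    rw [mem_filter, mem_powerset]
    exact ⟨h1, h2⟩

private theorem P2_inj {σ τ : Finset (Fin N)} (h : σ.image Fin.val = τ.image Fin.val) :
    σ = τ := Finset.image_injective Fin.val_injective h

theorem image_mem_cxOf {G : SimpleGraph (Fin N)} {S σ : Finset (Fin N)} :
    σ.image Fin.val ∈ cxOf G S ↔ σ ⊆ S ∧ Cl G σ := by
  rw [mem_cxOf]
  constructor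
  · rintro ⟨τ, h1, h2, h3⟩
    have h4 := P2_inj h3
    subst h4
    exact ⟨h1, h2⟩
  · rintro ⟨h1, h2⟩
    exact ⟨σ, h1, h2, rfl⟩

private theorem P2_pair {G : SimpleGraph (Fin N)} {S : Finset (Fin N)} {u v : Fin N} :
    ({u.val, v.val} : Finset ℕ) ∈ cxOf G S ↔ u ∈ S ∧ v ∈ S ∧ (u ≠ v → G.Adj u v) := by
  have h1 : ({u.val, v.val} : Finset ℕ) = ({u, v} : Finset (Fin N)).image Fin.val := by
    rw [image_insert, image_singleton]
  rw [h1, image_mem_cxOf]
  constructor
  · rintro ⟨h2, h3⟩
    have hu := mem_insert_self u ({v} : Finset (Fin N))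
    have hv := mem_insert_of_mem (a := v) (b := u) (mem_singleton_self v)
    exact ⟨h2 hu, h2 hv, fun h4 => h3 u hu v hv h4⟩
  · rintro ⟨h2, h3, h4⟩
    refine ⟨?_, ?_⟩
    · intro z hz
      simp only [mem_insert, mem_singleton] at hz
      rcases hz with rfl | rfl <;> assumption
    · intro a ha b hb hab
      simp only [mem_insert, mem_singleton] at ha hb
      rcases ha with rfl | rfl <;> rcases hb with rfl | rfl
      · exact absurd rfl hab
      · exact h4 hab
      · exact (h4 hab.symm).symm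
      · exact absurd rfl hab

theorem isCx_cxOf (G : SimpleGraph (Fin N)) (S : Finset (Fin N)) : IsCx (cxOf G S) := by
  constructor
  · rw [mem_cxOf]
    refine ⟨∅, empty_subset S, ?_, ?_⟩
    · intro a ha
      exact absurd ha (notMem_empty a)
    · rw [image_empty]
  · intro s hs t hts
    rw [mem_cxOf] at hs ⊢
    obtain ⟨σ, h1, h2, rfl⟩ := hs
    obtain ⟨τ, h3, rfl⟩ := subset_image_iff.1 hts
    exact ⟨τ, h3.trans h1, fun a ha b hb hab => h2 a (h3 ha) b (h3 hb) hab, rfl⟩

theorem flag_cxOf (G : SimpleGraph (Fin N)) (S : Finset (Fin N)) : Flag (cxOf G S) := by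
  intro s hs
  have hv : ∀ a ∈ s, ∃ v ∈ S, v.val = a := by
    intro a ha
    have h1 := hs a ha a ha
    rw [mem_cxOf] at h1
    obtain ⟨σ, h2, _, h4⟩ := h1
    have h5 : a ∈ σ.image Fin.val := by
      rw [← h4]
      exact mem_insert_self a _
    rw [mem_image] at h5
    obtain ⟨v, hv, h6⟩ := h5
    exact ⟨v, h2 hv, h6⟩
  rw [mem_cxOf]
  refine ⟨S.filter (fun v => v.val ∈ s), filter_subset _ _, ?_, ?_⟩
  · intro a ha b hb hab
    rw [mem_filter] at ha hb
    exact (P2_pair.1 (hs _ ha.2 _ hb.2)).2.2 hab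
  · ext a
    rw [mem_image]
    constructor
    · intro ha
      obtain ⟨v, hvS, rfl⟩ := hv a ha
      exact ⟨v, mem_filter.2 ⟨hvS, ha⟩, rfl⟩
    · rintro ⟨v, hv1, rfl⟩
      exact (mem_filter.1 hv1).2

theorem exists_cxOf {K : Fam} (h : IsCx K) (h' : Flag K) :
    ∃ (N : ℕ) (G : SimpleGraph (Fin N)) (S : Finset (Fin N)), K = cxOf G S := by
  classical
  obtain ⟨N, hN⟩ : ∃ N : ℕ, ∀ s ∈ K, ∀ a ∈ s, a < N := by
    refine ⟨(K.sup id).sup id + 1, fun s hs a ha => ?_⟩
    have h1 : s ≤ K.sup id := le_sup (f := id) hs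
    have h2 : a ≤ (K.sup id).sup id := le_sup (f := id) (h1 ha)
    omega
  refine ⟨N, ⟨fun a b => a ≠ b ∧ ({a.val, b.val} : Finset ℕ) ∈ K, ?_, ?_⟩,
    univ.filter (fun a => ({a.val} : Finset ℕ) ∈ K), ?_⟩
  · constructor
    rintro a b ⟨h1, h2⟩
    exact ⟨h1.symm, by rwa [pair_comm]⟩
  · exact ⟨fun a ha => ha.1 rfl⟩
  · ext s
    rw [mem_cxOf]
    constructor
    · intro hs
      refine ⟨univ.filter (fun a => a.val ∈ s), ?_, ?_, ?_⟩
      · intro a ha
        rw [mem_filter] at ha ⊢
        exact ⟨mem_univ _, h.2 s hs _ (by simpa using ha.2)⟩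
      · intro a ha b hb hab
        rw [mem_filter] at ha hb
        refine ⟨hab, h.2 s hs _ ?_⟩
        intro z hz
        simp only [mem_insert, mem_singleton] at hz
        rcases hz with rfl | rfl
        · exact ha.2
        · exact hb.2
      · ext a
        rw [mem_image]
        constructor
        · intro ha
          exact ⟨⟨a, hN s hs a ha⟩, mem_filter.2 ⟨mem_univ _, ha⟩, rfl⟩
        · rintro ⟨v, hv, rfl⟩
          exact (mem_filter.1 hv).2
    · rintro ⟨σ, h1, h2, rfl⟩
      refine h' _ ?_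
      intro a ha b hb
      rw [mem_image] at ha hb
      obtain ⟨x, hx, rfl⟩ := ha
      obtain ⟨y, hy, rfl⟩ := hb
      by_cases hxy : x = y
      · subst hxy
        rw [pair_eq_singleton]
        exact (mem_filter.1 (h1 hx)).2
      · exact (h2 x hx y hy hxy).2

theorem fnum_cxOf (G : SimpleGraph (Fin N)) (S : Finset (Fin N)) (j : ℕ) :
    fnum (cxOf G S) j = (faces G S j).card := by
  classical
  have h1 : (cxOf G S).filter (fun s => s.card = j) =
      (faces G S j).image (fun σ => σ.image Fin.val) := by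
    ext s
    rw [mem_filter, mem_cxOf, mem_image]
    unfold faces
    constructor
    · rintro ⟨⟨σ, h2, h3, rfl⟩, h4⟩
      refine ⟨σ, ?_, rfl⟩
      rw [mem_filter, mem_powerset]
      rw [card_image_of_injective _ Fin.val_injective] at h4
      exact ⟨h2, h3, h4⟩
    · rintro ⟨σ, h2, rfl⟩
      rw [mem_filter, mem_powerset] at h2
      refine ⟨⟨σ, h2.1, h2.2.1, rfl⟩, ?_⟩
      rw [card_image_of_injective _ Fin.val_injective]
      exact h2.2.2
  unfold fnum
  rw [h1, card_image_of_injective _ (Finset.image_injective Fin.val_injective)]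

theorem vertex_mem_cxOf {G : SimpleGraph (Fin N)} {S : Finset (Fin N)} {a : ℕ} :
    ({a} : Finset ℕ) ∈ cxOf G S ↔ ∃ v ∈ S, v.val = a := by
  constructor
  · intro h
    rw [mem_cxOf] at h
    obtain ⟨σ, h1, _, h3⟩ := h
    have h4 : a ∈ σ.image Fin.val := by
      rw [← h3]
      exact mem_singleton_self a
    rw [mem_image] at h4
    obtain ⟨v, hv, h5⟩ := h4
    exact ⟨v, h1 hv, h5⟩
  · rintro ⟨v, hv, rfl⟩
    have h1 := (P2_pair (G := G) (S := S) (u := v) (v := v)).2
      ⟨hv, hv, fun h2 => absurd rfl h2⟩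
    rwa [pair_eq_singleton] at h1

theorem edge_mem_cxOf {G : SimpleGraph (Fin N)} {S : Finset (Fin N)} {u v : Fin N}
    (huv : u ≠ v) : ({u.val, v.val} : Finset ℕ) ∈ cxOf G S ↔ u ∈ S ∧ v ∈ S ∧ G.Adj u v := by
  rw [P2_pair]
  exact ⟨fun h => ⟨h.1, h.2.1, h.2.2 huv⟩, fun h => ⟨h.1, h.2.1, fun _ => h.2.2⟩⟩

end Pool.Agent.LibFlagPL

end

section

namespace Pool.Agent.LibFlagPL

open Finset

variable {N : ℕ}

theorem P2b_mem_cn {G : SimpleGraph (Fin N)} {S σ : Finset (Fin N)} {t : Fin N} :
    t ∈ cn G S σ ↔ t ∈ S ∧ ∀ s ∈ σ, G.Adj s t := by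
  classical
  unfold cn
  simp [Finset.mem_filter]

theorem P2b_mem_nb {G : SimpleGraph (Fin N)} {S : Finset (Fin N)} {y t : Fin N} :
    t ∈ nb G S y ↔ t ∈ S ∧ G.Adj y t := by
  classical
  unfold nb
  simp [Finset.mem_filter]

theorem P2b_val_mem {σ : Finset (Fin N)} {x : Fin N} : x.val ∈ σ.image Fin.val ↔ x ∈ σ := by
  constructor
  · intro h
    obtain ⟨y, hy, hyx⟩ := Finset.mem_image.1 h
    have : y = x := Fin.ext hyx
    exact this ▸ hy
  · intro h
    exact Finset.mem_image.2 ⟨x, h, rfl⟩

theorem P2b_image_insert {σ : Finset (Fin N)} {x : Fin N} :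
    (insert x σ).image Fin.val = insert x.val (σ.image Fin.val) := by
  rw [Finset.image_insert]

theorem P2b_image_erase {σ : Finset (Fin N)} {x : Fin N} :
    (σ.erase x).image Fin.val = (σ.image Fin.val).erase x.val :=
  Finset.image_erase Fin.val_injective σ x

theorem link_cxOf {G : SimpleGraph (Fin N)} {S σ : Finset (Fin N)} (h1 : σ ⊆ S)
    (h2 : Cl G σ) : link (cxOf G S) (σ.image Fin.val) = cxOf G (cn G S σ) := by
  ext τ
  rw [mem_link (isCx_cxOf G S)]
  constructor
  · rintro ⟨hd, hu⟩
    have hτ : τ ∈ cxOf G S := (isCx_cxOf G S).2 _ hu _ Finset.subset_union_right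
    obtain ⟨τ', hτ1, hτ2, rfl⟩ := mem_cxOf.1 hτ
    rw [← Finset.image_union, image_mem_cxOf] at hu
    rw [image_mem_cxOf]
    refine ⟨fun t ht => P2b_mem_cn.2 ⟨hτ1 ht, fun s hs => ?_⟩, hτ2⟩
    refine hu.2 s (Finset.mem_union_left _ hs) t (Finset.mem_union_right _ ht) ?_
    rintro rfl
    exact (Finset.disjoint_left.1 hd) (P2b_val_mem.2 hs) (P2b_val_mem.2 ht)
  · intro hτ
    obtain ⟨τ', hτ1, hτ2, rfl⟩ := mem_cxOf.1 hτ
    constructor
    · rw [Finset.disjoint_left]
      intro a ha hb
      obtain ⟨x, hx, rfl⟩ := Finset.mem_image.1 ha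
      have hx' := P2b_val_mem.1 hb
      exact (P2b_mem_cn.1 (hτ1 hx')).2 x hx |>.ne rfl
    · rw [← Finset.image_union, image_mem_cxOf]
      refine ⟨Finset.union_subset h1 (fun t ht => (P2b_mem_cn.1 (hτ1 ht)).1), ?_⟩
      intro s hs t ht hst
      rcases Finset.mem_union.1 hs with hs | hs <;> rcases Finset.mem_union.1 ht with ht | ht
      · exact h2 s hs t ht hst
      · exact (P2b_mem_cn.1 (hτ1 ht)).2 s hs
      · exact ((P2b_mem_cn.1 (hτ1 hs)).2 t ht).symm
      · exact hτ2 s hs t ht hst

theorem link_vertex_cxOf {G : SimpleGraph (Fin N)} {S : Finset (Fin N)} {v : Fin N}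
    (hv : v ∈ S) : link (cxOf G S) {v.val} = cxOf G (nb G S v) := by
  have h := link_cxOf (G := G) (S := S) (σ := {v}) (by simpa using hv)
    (by
      intro s hs t ht hst
      rw [Finset.mem_singleton] at hs ht
      exact absurd (hs.trans ht.symm) hst)
  rw [Finset.image_singleton] at h
  rw [h]
  congr 1
  ext t
  rw [P2b_mem_cn, P2b_mem_nb]
  simp

theorem contr_cxOf {G : SimpleGraph (Fin N)} {S : Finset (Fin N)} {u v : Fin N}
    (h : GE G S u v) : contr (cxOf G S) u.val v.val = cxOf (ctr G u v) (S.erase v) := by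
  obtain ⟨hu, hv, huv, hge⟩ := h
  have hne : u ≠ v := huv.ne
  ext s
  rw [mem_contr]
  constructor
  · rintro (⟨hs, hvs⟩ | ⟨t, ht, hvt, rfl⟩)
    · obtain ⟨σ, hσ1, hσ2, rfl⟩ := mem_cxOf.1 hs
      have hvσ : v ∉ σ := fun hh => hvs (P2b_val_mem.2 hh)
      rw [image_mem_cxOf]
      refine ⟨fun x hx => Finset.mem_erase.2 ⟨fun hxv => hvσ (hxv ▸ hx), hσ1 hx⟩, ?_⟩
      intro a ha b hb hab
      exact ⟨hab, fun hav => hvσ (hav ▸ ha), fun hbv => hvσ (hbv ▸ hb), Or.inl (hσ2 a ha b hb hab)⟩
    · obtain ⟨σ, hσ1, hσ2, rfl⟩ := mem_cxOf.1 ht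
      have hvσ : v ∈ σ := P2b_val_mem.1 hvt
      rw [← P2b_image_erase, ← P2b_image_insert, image_mem_cxOf]
      refine ⟨?_, ?_⟩
      · intro x hx
        rcases Finset.mem_insert.1 hx with rfl | hx
        · exact Finset.mem_erase.2 ⟨hne, hu⟩
        · exact Finset.mem_erase.2 ⟨(Finset.mem_erase.1 hx).1, hσ1 (Finset.mem_erase.1 hx).2⟩
      · intro a ha b hb hab
        have hav : a ≠ v := by
          rcases Finset.mem_insert.1 ha with rfl | ha
          · exact hne
          · exact (Finset.mem_erase.1 ha).1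
        have hbv : b ≠ v := by
          rcases Finset.mem_insert.1 hb with rfl | hb
          · exact hne
          · exact (Finset.mem_erase.1 hb).1
        refine ⟨hab, hav, hbv, ?_⟩
        rcases Finset.mem_insert.1 ha with hau | ha <;> rcases Finset.mem_insert.1 hb with hbu | hb
        · exact absurd (hau.trans hbu.symm) hab
        · exact Or.inr (Or.inl ⟨hau, hσ2 v hvσ b (Finset.mem_erase.1 hb).2 hbv.symm⟩)
        · exact Or.inr (Or.inr ⟨hbu, hσ2 v hvσ a (Finset.mem_erase.1 ha).2 hav.symm⟩)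
        · exact Or.inl (hσ2 a (Finset.mem_erase.1 ha).2 b (Finset.mem_erase.1 hb).2 hab)
  · intro hs
    obtain ⟨σ, hσ1, hσ2, rfl⟩ := mem_cxOf.1 hs
    have hvσ : v ∉ σ := fun hh => (Finset.mem_erase.1 (hσ1 hh)).1 rfl
    have hσS : σ ⊆ S := fun x hx => (Finset.mem_erase.1 (hσ1 hx)).2
    by_cases hcl : Cl G σ
    · exact Or.inl ⟨image_mem_cxOf.2 ⟨hσS, hcl⟩, fun hh => hvσ (P2b_val_mem.1 hh)⟩
    · right
      -- there is a pair not adjacent in `G`
      have hex : u ∈ σ ∧ ∃ w ∈ σ, w ≠ u ∧ ¬ G.Adj u w := by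
        by_contra hcon
        refine hcl (fun a ha b hb hab => ?_)
        by_contra hnab
        apply hcon
        obtain ⟨_, _, _, h4⟩ := hσ2 a ha b hb hab
        rcases h4 with h4 | ⟨rfl, h4⟩ | ⟨rfl, h4⟩
        · exact absurd h4 hnab
        · exact ⟨ha, b, hb, hab.symm, hnab⟩
        · exact ⟨hb, a, ha, hab, fun hh => hnab hh.symm⟩
      obtain ⟨huσ, w, hwσ, hwu, hnw⟩ := hex
      have hvw : G.Adj v w := by
        obtain ⟨_, _, _, h4⟩ := hσ2 u huσ w hwσ hwu.symm
        rcases h4 with h4 | ⟨_, h4⟩ | ⟨h4, _⟩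
        · exact absurd h4 hnw
        · exact h4
        · exact absurd h4 hwu
      -- all elements of `σ.erase u` are adjacent to `v`
      have hall : ∀ t ∈ σ, t ≠ u → G.Adj v t := by
        intro t ht htu
        obtain ⟨_, _, _, h4⟩ := hσ2 u huσ t ht htu.symm
        rcases h4 with h4 | ⟨_, h4⟩ | ⟨h4, _⟩
        · by_cases hwt : w = t
          · exact hwt ▸ hvw
          · have hwt' : G.Adj w t := by
              obtain ⟨_, _, _, h5⟩ := hσ2 w hwσ t ht hwt
              rcases h5 with h5 | ⟨h5, _⟩ | ⟨h5, _⟩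
              · exact h5
              · exact absurd h5 hwu
              · exact absurd h5 htu
            have htv : t ≠ v := fun hh => hvσ (hh ▸ ht)
            rcases hge w (hσS hwσ) t (hσS ht) hwu htv hvw hwt' h4.symm with h6 | h6
            · exact absurd h6 hnw
            · exact h6
        · exact h4
        · exact absurd h4 htu
      refine ⟨(insert v (σ.erase u)).image Fin.val, ?_, ?_, ?_⟩
      · rw [image_mem_cxOf]
        refine ⟨?_, ?_⟩
        · intro x hx
          rcases Finset.mem_insert.1 hx with rfl | hx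
          · exact hv
          · exact hσS (Finset.mem_erase.1 hx).2
        · intro a ha b hb hab
          rcases Finset.mem_insert.1 ha with hav | ha <;>
            rcases Finset.mem_insert.1 hb with hbv | hb
          · exact absurd (hav.trans hbv.symm) hab
          · rw [hav]
            exact hall b (Finset.mem_erase.1 hb).2 (Finset.mem_erase.1 hb).1
          · rw [hbv]
            exact (hall a (Finset.mem_erase.1 ha).2 (Finset.mem_erase.1 ha).1).symm
          · obtain ⟨_, _, _, h5⟩ := hσ2 a (Finset.mem_erase.1 ha).2 b (Finset.mem_erase.1 hb).2 hab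
            rcases h5 with h5 | ⟨h5, _⟩ | ⟨h5, _⟩
            · exact h5
            · exact absurd h5 (Finset.mem_erase.1 ha).1
            · exact absurd h5 (Finset.mem_erase.1 hb).1
      · exact P2b_val_mem.2 (Finset.mem_insert_self _ _)
      · rw [← P2b_image_erase, ← P2b_image_insert]
        congr 1
        have hv' : v ∉ σ.erase u := fun hh => hvσ (Finset.mem_erase.1 hh).2
        rw [Finset.erase_insert hv', Finset.insert_erase huσ]

theorem linkCond_cxOf {G : SimpleGraph (Fin N)} {S : Finset (Fin N)} {u v : Fin N}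
    (hu : u ∈ S) (hv : v ∈ S) (huv : G.Adj u v) : LinkCond (cxOf G S) u.val v.val := by
  refine ⟨fun hh => huv.ne (Fin.ext hh), ?_, ?_⟩
  · exact (edge_mem_cxOf huv.ne).2 ⟨hu, hv, huv⟩
  · intro s hs h1 h2
    obtain ⟨σ, hσ1, hσ2, rfl⟩ := mem_cxOf.1 hs
    rw [← P2b_image_insert, image_mem_cxOf] at h1 h2
    rw [← P2b_image_insert, ← P2b_image_insert, image_mem_cxOf]
    refine ⟨?_, ?_⟩
    · intro x hx
      rcases Finset.mem_insert.1 hx with rfl | hx
      · exact hu
      · exact h2.1 hx
    · intro a ha b hb hab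
      rcases Finset.mem_insert.1 ha with hau | ha <;> rcases Finset.mem_insert.1 hb with hbu | hb
      · exact absurd (hau.trans hbu.symm) hab
      · rcases Finset.mem_insert.1 hb with hbv | hb'
        · rw [hau, hbv]; exact huv
        · rw [hau]
          exact h1.2 u (Finset.mem_insert_self _ _) b (Finset.mem_insert_of_mem hb') (hau ▸ hab)
      · rcases Finset.mem_insert.1 ha with hav | ha'
        · rw [hbu, hav]; exact huv.symm
        · rw [hbu]
          exact h1.2 a (Finset.mem_insert_of_mem ha') u (Finset.mem_insert_self _ _) (hbu ▸ hab)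
      · exact h2.2 a ha b hb hab

end Pool.Agent.LibFlagPL

end

section

namespace Pool.Agent.LibFlagPL

open Finset

/-- connectedness of the edge graph -/
def ConnF (K : Fam) : Prop :=
  (∃ a : ℕ, {a} ∈ K) ∧ ∀ a b : ℕ, {a} ∈ K → {b} ∈ K →
    Relation.ReflTransGen (fun x y => ({x, y} : Finset ℕ) ∈ K) a b

private theorem P3_iso_pair {K : Fam} (f : Equiv.Perm ℕ) (x y : ℕ) :
    ({f x, f y} : Finset ℕ) ∈ K.image (fun s => s.image f) ↔ ({x, y} : Finset ℕ) ∈ K := by
  have h : ({f x, f y} : Finset ℕ) = ({x, y} : Finset ℕ).image f := by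
    rw [Finset.image_insert, Finset.image_singleton]
  rw [h, Finset.mem_image]
  constructor
  · rintro ⟨t, ht, h1⟩
    have h2 := Finset.image_injective f.injective h1
    rw [← h2]
    exact ht
  · intro h1
    exact ⟨_, h1, rfl⟩

private theorem P3_iso_one {K L : Fam} (h : Iso K L) (hK : ConnF K) : ConnF L := by
  obtain ⟨f, rfl⟩ := h
  obtain ⟨⟨a, ha⟩, hc⟩ := hK
  have hs : ∀ x : ℕ, ({f x} : Finset ℕ) ∈ K.image (fun s => s.image f) ↔ ({x} : Finset ℕ) ∈ K := by
    intro x
    have h1 := P3_iso_pair (K := K) f x x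
    rw [Finset.pair_eq_singleton, Finset.pair_eq_singleton] at h1
    exact h1
  refine ⟨⟨f a, (hs a).2 ha⟩, fun x y hx hy => ?_⟩
  obtain ⟨x, rfl⟩ := f.surjective x
  obtain ⟨y, rfl⟩ := f.surjective y
  refine Relation.ReflTransGen.lift (p := fun x y => ({x, y} : Finset ℕ) ∈
    K.image (fun s => s.image f)) f ?_ x y (hc x y ((hs x).1 hx) ((hs y).1 hy))
  intro a b hab
  exact (P3_iso_pair f a b).2 hab

theorem ConnF_iso {K L : Fam} (h : Iso K L) : ConnF K ↔ ConnF L :=
  ⟨P3_iso_one h, P3_iso_one h.symm⟩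

theorem ConnF_contr {K : Fam} {u v : ℕ} (hK : IsCx K) (huv : u ≠ v)
    (h : ({u, v} : Finset ℕ) ∈ K) : ConnF K ↔ ConnF (contr K u v) := by
  have hu : ({u} : Finset ℕ) ∈ K := hK.2 _ h _ (by simp)
  have hvu : ({v, u} : Finset ℕ) ∈ K := by rw [Finset.pair_comm]; exact h
  have hpair : ∀ x y : ℕ, ({x, y} : Finset ℕ) ∈ K →
      ({(if x = v then u else x), (if y = v then u else y)} : Finset ℕ) ∈ contr K u v := by
    intro x y hxy
    rw [mem_contr]
    by_cases hx : x = v <;> by_cases hy : y = v
    · rw [if_pos hx, if_pos hy]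
      right
      refine ⟨_, hxy, by rw [hx]; exact Finset.mem_insert_self v _, ?_⟩
      subst hx
      subst hy
      simp
    · rw [if_pos hx, if_neg hy]
      right
      refine ⟨_, hxy, by rw [hx]; exact Finset.mem_insert_self v _, ?_⟩
      subst hx
      rw [Finset.erase_insert]
      rw [Finset.mem_singleton]
      exact fun h => hy h.symm
    · rw [if_neg hx, if_pos hy]
      right
      refine ⟨_, hxy, by rw [hy]; simp, ?_⟩
      subst hy
      rw [Finset.pair_comm x y, Finset.erase_insert, Finset.pair_comm]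
      rw [Finset.mem_singleton]
      exact fun h => hx h.symm
    · rw [if_neg hx, if_neg hy]
      left
      refine ⟨hxy, ?_⟩
      rw [Finset.mem_insert, Finset.mem_singleton]
      rintro (h1 | h1)
      · exact hx h1.symm
      · exact hy h1.symm
  have hsing : ∀ x : ℕ, ({x} : Finset ℕ) ∈ K →
      ({(if x = v then u else x)} : Finset ℕ) ∈ contr K u v := by
    intro x hx
    have h1 := hpair x x (by rw [Finset.pair_eq_singleton]; exact hx)
    rw [Finset.pair_eq_singleton] at h1
    exact h1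
  have hback : ∀ x : ℕ, ({x} : Finset ℕ) ∈ contr K u v → ({x} : Finset ℕ) ∈ K ∧ x ≠ v := by
    intro x hx
    rw [mem_contr] at hx
    rcases hx with ⟨h1, h2⟩ | ⟨t, ht, hvt, h1⟩
    · exact ⟨h1, fun h3 => h2 (by rw [h3]; exact Finset.mem_singleton_self v)⟩
    · have h2 : u ∈ ({x} : Finset ℕ) := by rw [h1]; exact Finset.mem_insert_self u _
      rw [Finset.mem_singleton] at h2
      rw [← h2]
      exact ⟨hu, huv⟩
  constructor
  · rintro ⟨⟨a, ha⟩, hc⟩
    refine ⟨⟨_, hsing a ha⟩, fun x y hx hy => ?_⟩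
    obtain ⟨hx1, hx2⟩ := hback x hx
    obtain ⟨hy1, hy2⟩ := hback y hy
    have h1 : Relation.ReflTransGen (fun x y => ({x, y} : Finset ℕ) ∈ contr K u v)
        (if x = v then u else x) (if y = v then u else y) :=
      Relation.ReflTransGen.lift (p := fun x y => ({x, y} : Finset ℕ) ∈ contr K u v)
        (fun x => if x = v then u else x) hpair x y (hc x y hx1 hy1)
    rw [if_neg hx2, if_neg hy2] at h1
    exact h1
  · rintro ⟨⟨a, ha⟩, hc⟩
    have hstep : ∀ x y : ℕ, ({x, y} : Finset ℕ) ∈ contr K u v →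
        Relation.ReflTransGen (fun x y => ({x, y} : Finset ℕ) ∈ K) x y := by
      intro x y hxy
      rw [mem_contr] at hxy
      rcases hxy with ⟨h1, _⟩ | ⟨t, ht, hvt, h1⟩
      · exact Relation.ReflTransGen.single h1
      · have h2 : ∀ w ∈ ({x, y} : Finset ℕ), ({v, w} : Finset ℕ) ∈ K := by
          intro w hw
          rw [h1, Finset.mem_insert] at hw
          rcases hw with rfl | hw
          · exact hvu
          · refine hK.2 t ht _ ?_
            rw [Finset.insert_subset_iff, Finset.singleton_subset_iff]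
            exact ⟨hvt, Finset.mem_of_mem_erase hw⟩
        have h3 : ({x, v} : Finset ℕ) ∈ K := by
          rw [Finset.pair_comm]
          exact h2 x (Finset.mem_insert_self x _)
        have h4 : ({v, y} : Finset ℕ) ∈ K := h2 y (by simp)
        exact (Relation.ReflTransGen.single h3).tail h4
    have hpath : ∀ x y : ℕ, Relation.ReflTransGen
        (fun x y => ({x, y} : Finset ℕ) ∈ contr K u v) x y →
        Relation.ReflTransGen (fun x y => ({x, y} : Finset ℕ) ∈ K) x y := by
      intro x y hxy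
      induction hxy with
      | refl => exact Relation.ReflTransGen.refl
      | tail _ h2 ih => exact ih.trans (hstep _ _ h2)
    have hend : ∀ x : ℕ, Relation.ReflTransGen (fun x y => ({x, y} : Finset ℕ) ∈ K) x
        (if x = v then u else x) ∧ Relation.ReflTransGen (fun x y => ({x, y} : Finset ℕ) ∈ K)
        (if x = v then u else x) x := by
      intro x
      by_cases hx : x = v
      · rw [if_pos hx, hx]
        exact ⟨Relation.ReflTransGen.single hvu, Relation.ReflTransGen.single h⟩
      · rw [if_neg hx]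
        exact ⟨Relation.ReflTransGen.refl, Relation.ReflTransGen.refl⟩
    refine ⟨⟨a, (hback a ha).1⟩, fun x y hx hy => ?_⟩
    exact ((hend x).1.trans (hpath _ _ (hc _ _ (hsing x hx) (hsing y hy)))).trans (hend y).2

private theorem P3_step {P : Fam → Prop} {K L : Fam} (h : Step P K L) : ConnF K ↔ ConnF L := by
  obtain ⟨h1, _, h3⟩ := h
  rcases h3 with h3 | ⟨u, v, h4, rfl⟩
  · exact ConnF_iso h3
  · exact ConnF_contr h1.1 h4.1 h4.2.1

private theorem P3_eqv {P : Fam → Prop} {K L : Fam} (h : Relation.EqvGen (Step P) K L) :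
    ConnF K ↔ ConnF L := by
  induction h with
  | rel _ _ h => exact P3_step h
  | refl _ => exact Iff.rfl
  | symm _ _ _ ih => exact ih.symm
  | trans _ _ _ _ _ ih1 ih2 => exact ih1.trans ih2

private theorem P3_bds (d : ℕ) : ConnF (bds (d + 2)) := by
  have h1 : ∀ s : Finset ℕ, s ⊆ range (d + 2 + 1) → s.card ≤ 2 → s ∈ bds (d + 2) := by
    intro s hs hc
    unfold bds
    rw [Finset.mem_ssubsets]
    refine Finset.ssubset_iff_subset_ne.2 ⟨hs, fun h => ?_⟩
    rw [h, Finset.card_range] at hc
    omega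
  have h2 : ∀ a : ℕ, ({a} : Finset ℕ) ∈ bds (d + 2) → a ∈ range (d + 2 + 1) := by
    intro a ha
    unfold bds at ha
    rw [Finset.mem_ssubsets] at ha
    exact ha.1 (Finset.mem_singleton_self a)
  refine ⟨⟨0, h1 _ ?_ ?_⟩, fun a b ha hb => Relation.ReflTransGen.single (h1 _ ?_ ?_)⟩
  · rw [Finset.singleton_subset_iff, Finset.mem_range]
    omega
  · rw [Finset.card_singleton]
    omega
  · rw [Finset.insert_subset_iff, Finset.singleton_subset_iff]
    exact ⟨h2 a ha, h2 b hb⟩
  · exact Finset.card_le_two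

theorem PLS.connF {d : ℕ} {K : Fam} (h : PLS (d + 2) K) : ConnF K := by
  have h1 : Relation.EqvGen (Step (PLS (d + 1))) (bds (d + 2)) K := h.2
  exact (P3_eqv h1).1 (P3_bds d)

end Pool.Agent.LibFlagPL

end

section

namespace Pool.Agent.LibFlagPL

open Finset

/-- suspension of `K` with apexes `x`, `y` -/
def susp (K : Fam) (x y : ℕ) : Fam := K ∪ K.image (insert x) ∪ K.image (insert y)

/-- `x` is not a vertex of `K` -/
def Fresh (K : Fam) (x : ℕ) : Prop := ∀ s ∈ K, x ∉ s

theorem P4_mem_susp {K : Fam} {x y : ℕ} {s : Finset ℕ} :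
    s ∈ susp K x y ↔ s ∈ K ∨ (∃ t ∈ K, insert x t = s) ∨ ∃ t ∈ K, insert y t = s := by
  unfold susp
  simp only [mem_union, mem_image]
  exact or_assoc

theorem isCx_susp {K : Fam} (h : IsCx K) (x y : ℕ) : IsCx (susp K x y) := by
  have key : ∀ z : ℕ, ∀ s' ∈ K, ∀ t : Finset ℕ, t ⊆ insert z s' →
      t ∈ K ∨ ∃ w ∈ K, insert z w = t := by
    intro z s' hs' t ht
    by_cases hz : z ∈ t
    · right
      refine ⟨t.erase z, h.2 s' hs' _ ?_, insert_erase hz⟩
      intro a ha
      rw [mem_erase] at ha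
      rcases mem_insert.mp (ht ha.2) with h1 | h1
      · exact absurd h1 ha.1
      · exact h1
    · left
      refine h.2 s' hs' t ?_
      intro a ha
      rcases mem_insert.mp (ht ha) with h1 | h1
      · exact absurd (h1 ▸ ha) hz
      · exact h1
  refine ⟨P4_mem_susp.mpr (Or.inl h.1), ?_⟩
  intro s hs t ht
  rw [P4_mem_susp] at hs ⊢
  rcases hs with hs | ⟨s', hs', rfl⟩ | ⟨s', hs', rfl⟩
  · exact Or.inl (h.2 s hs t ht)
  · rcases key x s' hs' t ht with h1 | h1
    · exact Or.inl h1
    · exact Or.inr (Or.inl h1)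
  · rcases key y s' hs' t ht with h1 | h1
    · exact Or.inl h1
    · exact Or.inr (Or.inr h1)

theorem P4_not_mem {K : Fam} (h : IsCx K) {x v : ℕ} (hx : Fresh K x) (hv : {v} ∈ K) : v ≠ x := by
  rintro rfl
  exact hx {v} hv (mem_singleton_self v)

theorem P4_eq_erase {a : ℕ} {s t : Finset ℕ} (h : insert a t = s) (ha : a ∉ t) : t = s.erase a := by
  rw [← h, erase_insert ha]

theorem susp_link_vertex {K : Fam} (h : IsCx K) {x y v : ℕ} (hxy : x ≠ y) (hx : Fresh K x)
    (hy : Fresh K y) (hv : {v} ∈ K) :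
    link (susp K x y) {v} = susp (link K {v}) x y := by
  have hvx : v ≠ x := P4_not_mem h hx hv
  have hvy : v ≠ y := P4_not_mem h hy hv
  have aux : ∀ z : ℕ, v ≠ z → Fresh K z → ∀ τ : Finset ℕ, v ∉ τ →
      ∀ t ∈ K, insert z t = insert v τ → ∃ w ∈ link K {v}, insert z w = τ := by
    intro z hz hfz τ hvτ t ht he
    have hzt : z ∉ t := hfz t ht
    have hzτ : z ∈ τ := by
      have : z ∈ insert v τ := by rw [← he]; exact mem_insert_self z t
      rcases mem_insert.mp this with h1 | h1
      · exact absurd h1.symm hz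
      · exact h1
    refine ⟨τ.erase z, ?_, insert_erase hzτ⟩
    rw [mem_link h]
    refine ⟨?_, ?_⟩
    · rw [disjoint_singleton_left]
      intro hc
      exact hvτ (mem_of_mem_erase hc)
    · have h1 : {v} ∪ τ.erase z = t := by
        rw [P4_eq_erase he hzt, ← insert_eq]
        ext a
        simp only [mem_insert, mem_erase]
        constructor
        · rintro (rfl | ⟨h2, h3⟩)
          · exact ⟨hz, Or.inl rfl⟩
          · exact ⟨h2, Or.inr h3⟩
        · rintro ⟨h2, rfl | h3⟩
          · exact Or.inl rfl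
          · exact Or.inr ⟨h2, h3⟩
      rw [h1]
      exact ht
  ext τ
  rw [mem_link (isCx_susp h x y), disjoint_singleton_left, ← insert_eq, P4_mem_susp, P4_mem_susp]
  constructor
  · rintro ⟨hvτ, h1 | ⟨t, ht, he⟩ | ⟨t, ht, he⟩⟩
    · left
      rw [mem_link h, disjoint_singleton_left, ← insert_eq]
      exact ⟨hvτ, h1⟩
    · exact Or.inr (Or.inl (aux x hvx hx τ hvτ t ht he))
    · exact Or.inr (Or.inr (aux y hvy hy τ hvτ t ht he))
  · rintro (h1 | ⟨t, ht, rfl⟩ | ⟨t, ht, rfl⟩)
    · rw [mem_link h, disjoint_singleton_left, ← insert_eq] at h1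
      exact ⟨h1.1, Or.inl h1.2⟩
    · rw [mem_link h, disjoint_singleton_left, ← insert_eq] at ht
      refine ⟨?_, Or.inr (Or.inl ⟨insert v t, ht.2, Finset.insert_comm x v t⟩)⟩
      rw [mem_insert]
      rintro (h2 | h2)
      · exact hvx h2
      · exact ht.1 h2
    · rw [mem_link h, disjoint_singleton_left, ← insert_eq] at ht
      refine ⟨?_, Or.inr (Or.inr ⟨insert v t, ht.2, Finset.insert_comm y v t⟩)⟩
      rw [mem_insert]
      rintro (h2 | h2)
      · exact hvy h2
      · exact ht.1 h2

theorem P4_link_apex {K : Fam} (h : IsCx K) {x y z z' : ℕ} (hz : (z = x ∧ z' = y) ∨ (z = y ∧ z' = x))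
    (hxy : x ≠ y) (hx : Fresh K x) (hy : Fresh K y) : link (susp K x y) {z} = K := by
  have hzz : z ≠ z' := by
    rcases hz with ⟨rfl, rfl⟩ | ⟨rfl, rfl⟩
    · exact hxy
    · exact hxy.symm
  have hfz : Fresh K z := by
    rcases hz with ⟨rfl, rfl⟩ | ⟨rfl, rfl⟩
    · exact hx
    · exact hy
  have hm : ∀ s : Finset ℕ, s ∈ susp K x y ↔
      s ∈ K ∨ (∃ t ∈ K, insert z t = s) ∨ ∃ t ∈ K, insert z' t = s := by
    intro s
    rw [P4_mem_susp]
    rcases hz with ⟨rfl, rfl⟩ | ⟨rfl, rfl⟩
    · rfl
    · exact or_congr_right or_comm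
  ext τ
  rw [mem_link (isCx_susp h x y), disjoint_singleton_left, ← insert_eq, hm]
  constructor
  · rintro ⟨hzτ, h1 | ⟨t, ht, he⟩ | ⟨t, ht, he⟩⟩
    · exact absurd (mem_insert_self z τ) (hfz _ h1)
    · have h2 := P4_eq_erase he (hfz t ht)
      rw [erase_insert hzτ] at h2
      rw [← h2]
      exact ht
    · have h2 : z ∈ insert z' t := by rw [he]; exact mem_insert_self z τ
      rcases mem_insert.mp h2 with h3 | h3
      · exact absurd h3 hzz
      · exact absurd h3 (hfz t ht)
  · intro hτ
    exact ⟨hfz τ hτ, Or.inr (Or.inl ⟨τ, hτ, rfl⟩)⟩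

theorem susp_link_apex {K : Fam} (h : IsCx K) {x y : ℕ} (hxy : x ≠ y) (hx : Fresh K x)
    (hy : Fresh K y) : link (susp K x y) {x} = K ∧ link (susp K x y) {y} = K :=
  ⟨P4_link_apex h (Or.inl ⟨rfl, rfl⟩) hxy hx hy, P4_link_apex h (Or.inr ⟨rfl, rfl⟩) hxy hx hy⟩

/-- members of the suspension with neither apex -/
theorem P4_mem_of {K : Fam} {x y : ℕ} {w : Finset ℕ} (hw : w ∈ susp K x y) (h1 : x ∉ w)
    (h2 : y ∉ w) : w ∈ K := by
  rw [P4_mem_susp] at hw
  rcases hw with hw | ⟨t, -, rfl⟩ | ⟨t, -, rfl⟩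
  · exact hw
  · exact absurd (mem_insert_self x t) h1
  · exact absurd (mem_insert_self y t) h2

theorem P4_erase_x {K : Fam} {x y : ℕ} (hxy : x ≠ y) (hx : Fresh K x) {w : Finset ℕ}
    (hw : w ∈ susp K x y) (h1 : x ∈ w) : w.erase x ∈ K := by
  rw [P4_mem_susp] at hw
  rcases hw with hw | ⟨t, ht, rfl⟩ | ⟨t, ht, rfl⟩
  · exact absurd h1 (hx w hw)
  · rw [erase_insert (hx t ht)]
    exact ht
  · rcases mem_insert.mp h1 with h2 | h2
    · exact absurd h2 hxy
    · exact absurd h2 (hx t ht)

theorem P4_susp_comm (K : Fam) (x y : ℕ) : susp K x y = susp K y x := by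
  ext s
  rw [P4_mem_susp, P4_mem_susp]
  exact or_congr_right or_comm

theorem P4_erase_y {K : Fam} {x y : ℕ} (hxy : x ≠ y) (hy : Fresh K y) {w : Finset ℕ}
    (hw : w ∈ susp K x y) (h1 : y ∈ w) : w.erase y ∈ K := by
  rw [P4_susp_comm] at hw
  exact P4_erase_x hxy.symm hy hw h1

theorem P4_push {u v z : ℕ} (hzv : z ≠ v) (t : Finset ℕ) :
    (if v ∈ insert z t then insert u ((insert z t).erase v) else insert z t) =
      insert z (if v ∈ t then insert u (t.erase v) else t) := by
  by_cases hv : v ∈ t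
  · rw [if_pos hv, if_pos (mem_insert_of_mem hv), Finset.erase_insert_of_ne hzv, Finset.insert_comm]
  · rw [if_neg hv, if_neg]
    rw [mem_insert]
    rintro (h | h)
    · exact hzv h.symm
    · exact hv h

theorem susp_contr {K : Fam} (h : IsCx K) {x y u v : ℕ} (hxy : x ≠ y) (hx : Fresh K x)
    (hy : Fresh K y) (huv : LinkCond K u v) :
    LinkCond (susp K x y) u v ∧ contr (susp K x y) u v = susp (contr K u v) x y := by
  obtain ⟨hne, hed, hlc⟩ := huv
  have hu : {u} ∈ K := h.2 _ hed _ (by simp)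
  have hv : {v} ∈ K := h.2 _ hed _ (by simp)
  have hux : u ≠ x := P4_not_mem h hx hu
  have huy : u ≠ y := P4_not_mem h hy hu
  have hvx : v ≠ x := P4_not_mem h hx hv
  have hvy : v ≠ y := P4_not_mem h hy hv
  refine ⟨⟨hne, P4_mem_susp.mpr (Or.inl hed), ?_⟩, ?_⟩
  · intro s hs h1 h2
    have hs' := hs
    rw [P4_mem_susp] at hs'
    rcases hs' with hs' | ⟨t, ht, rfl⟩ | ⟨t, ht, rfl⟩
    · have nx : ∀ a : ℕ, a ≠ x → x ∉ insert a s := by
        intro a ha hc
        rcases mem_insert.mp hc with h3 | h3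
        · exact ha h3.symm
        · exact hx s hs' h3
      have ny : ∀ a : ℕ, a ≠ y → y ∉ insert a s := by
        intro a ha hc
        rcases mem_insert.mp hc with h3 | h3
        · exact ha h3.symm
        · exact hy s hs' h3
      have h3 : insert u s ∈ K := P4_mem_of h1 (nx u hux) (ny u huy)
      have h4 : insert v s ∈ K := P4_mem_of h2 (nx v hvx) (ny v hvy)
      exact P4_mem_susp.mpr (Or.inl (hlc s hs' h3 h4))
    · have e1 : ∀ a : ℕ, a ≠ x → insert a (insert x t) ∈ susp K x y → insert a t ∈ K := by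
        intro a ha hm
        have h3 := P4_erase_x hxy hx hm (mem_insert_of_mem (mem_insert_self x t))
        rw [Finset.erase_insert_of_ne ha, erase_insert (hx t ht)] at h3
        exact h3
      have h5 := hlc t ht (e1 u hux h1) (e1 v hvx h2)
      refine P4_mem_susp.mpr (Or.inr (Or.inl ⟨_, h5, ?_⟩))
      rw [Finset.insert_comm x u, Finset.insert_comm x v]
    · have e1 : ∀ a : ℕ, a ≠ y → insert a (insert y t) ∈ susp K x y → insert a t ∈ K := by
        intro a ha hm
        have h3 := P4_erase_y hxy hy hm (mem_insert_of_mem (mem_insert_self y t))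
        rw [Finset.erase_insert_of_ne ha, erase_insert (hy t ht)] at h3
        exact h3
      have h5 := hlc t ht (e1 u huy h1) (e1 v hvy h2)
      refine P4_mem_susp.mpr (Or.inr (Or.inr ⟨_, h5, ?_⟩))
      rw [Finset.insert_comm y u, Finset.insert_comm y v]
  · unfold contr susp
    rw [image_union, image_union, image_image, image_image, image_image, image_image]
    congr 1
    · congr 1
      refine Finset.image_congr ?_
      intro t _
      exact P4_push hvx.symm t
    · refine Finset.image_congr ?_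
      intro t _
      exact P4_push hvy.symm t

end Pool.Agent.LibFlagPL

end

section

namespace Pool.Agent.LibFlagPL

open Finset

theorem P4b_ssub (A : Finset ℕ) (f : Equiv.Perm ℕ) :
    (A.image f).ssubsets = A.ssubsets.image (fun s => s.image f) := by
  ext t
  simp only [Finset.mem_ssubsets, Finset.mem_image]
  have hinv : (t.image f.symm).image f = t := by
    ext a
    simp only [Finset.mem_image]
    constructor
    · rintro ⟨b, ⟨c, hc, rfl⟩, rfl⟩
      rw [Equiv.apply_symm_apply]
      exact hc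
    · intro ha
      exact ⟨f.symm a, ⟨a, ha, rfl⟩, Equiv.apply_symm_apply f a⟩
  constructor
  · intro ht
    refine ⟨t.image f.symm, ?_, hinv⟩
    rw [Finset.ssubset_iff_subset_ne] at ht ⊢
    refine ⟨?_, ?_⟩
    · intro a ha
      obtain ⟨b, hb, rfl⟩ := Finset.mem_image.1 ha
      obtain ⟨c, hc, rfl⟩ := Finset.mem_image.1 (ht.1 hb)
      rw [Equiv.symm_apply_apply]
      exact hc
    · intro h
      apply ht.2
      rw [← h, hinv]
  · rintro ⟨s, hs, rfl⟩
    rw [Finset.ssubset_iff_subset_ne] at hs ⊢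
    refine ⟨Finset.image_subset_image hs.1, ?_⟩
    intro h
    exact hs.2 (Finset.image_injective f.injective h)

theorem P4b_mem_susp {K : Fam} {x y : ℕ} {t : Finset ℕ} :
    t ∈ susp K x y ↔ t ∈ K ∨ (∃ a ∈ K, insert x a = t) ∨ ∃ a ∈ K, insert y a = t := by
  rw [susp, Finset.mem_union, Finset.mem_union, Finset.mem_image, Finset.mem_image, or_assoc]

theorem P4b_mem_susp_bds {R : Finset ℕ} {x y : ℕ} (hxy : x ≠ y) (hx : x ∉ R) (hy : y ∉ R)
    {t : Finset ℕ} : t ∈ susp R.ssubsets x y ↔
      t ⊆ insert x (insert y R) ∧ ¬ (x ∈ t ∧ y ∈ t) ∧ ¬ R ⊆ t := by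
  rw [P4b_mem_susp]
  constructor
  · rintro (h | ⟨a, ha, rfl⟩ | ⟨a, ha, rfl⟩)
    · rw [Finset.mem_ssubsets] at h
      refine ⟨fun b hb => ?_, fun hb => hx (h.1 hb.1), h.2⟩
      exact Finset.mem_insert_of_mem (Finset.mem_insert_of_mem (h.1 hb))
    · rw [Finset.mem_ssubsets] at ha
      refine ⟨fun b hb => ?_, fun hb => ?_, fun hR => ha.2 fun b hb => ?_⟩
      · rcases Finset.mem_insert.1 hb with rfl | hb
        · exact Finset.mem_insert_self _ _
        · exact Finset.mem_insert_of_mem (Finset.mem_insert_of_mem (ha.1 hb))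
      · rcases Finset.mem_insert.1 hb.2 with h | h
        · exact hxy h.symm
        · exact hy (ha.1 h)
      · rcases Finset.mem_insert.1 (hR hb) with rfl | h
        · exact absurd hb hx
        · exact h
    · rw [Finset.mem_ssubsets] at ha
      refine ⟨fun b hb => ?_, fun hb => ?_, fun hR => ha.2 fun b hb => ?_⟩
      · rcases Finset.mem_insert.1 hb with rfl | hb
        · exact Finset.mem_insert_of_mem (Finset.mem_insert_self _ _)
        · exact Finset.mem_insert_of_mem (Finset.mem_insert_of_mem (ha.1 hb))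
      · rcases Finset.mem_insert.1 hb.1 with h | h
        · exact hxy h
        · exact hx (ha.1 h)
      · rcases Finset.mem_insert.1 (hR hb) with rfl | h
        · exact absurd hb hy
        · exact h
  · rintro ⟨h1, h2, h3⟩
    by_cases hxt : x ∈ t
    · refine Or.inr (Or.inl ⟨t.erase x, ?_, Finset.insert_erase hxt⟩)
      rw [Finset.mem_ssubsets]
      refine ⟨fun b hb => ?_, fun hR => h3 fun b hb => Finset.mem_of_mem_erase (hR hb)⟩
      have hb2 := Finset.mem_erase.1 hb
      rcases Finset.mem_insert.1 (h1 hb2.2) with h | h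
      · exact absurd h hb2.1
      · rcases Finset.mem_insert.1 h with h | h
        · exact absurd ⟨hxt, h ▸ hb2.2⟩ h2
        · exact h
    · by_cases hyt : y ∈ t
      · refine Or.inr (Or.inr ⟨t.erase y, ?_, Finset.insert_erase hyt⟩)
        rw [Finset.mem_ssubsets]
        refine ⟨fun b hb => ?_, fun hR => h3 fun b hb => Finset.mem_of_mem_erase (hR hb)⟩
        have hb2 := Finset.mem_erase.1 hb
        rcases Finset.mem_insert.1 (h1 hb2.2) with h | h
        · exact absurd (h ▸ hb2.2) hxt
        · rcases Finset.mem_insert.1 h with h | h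
          · exact absurd h hb2.1
          · exact h
      · refine Or.inl ?_
        rw [Finset.mem_ssubsets]
        refine ⟨fun b hb => ?_, h3⟩
        rcases Finset.mem_insert.1 (h1 hb) with h | h
        · exact absurd (h ▸ hb) hxt
        · rcases Finset.mem_insert.1 h with h | h
          · exact absurd (h ▸ hb) hyt
          · exact h

theorem susp_iso {K L : Fam} (h : Iso K L) {x y x' y' : ℕ} (hxy : x ≠ y) (hxy' : x' ≠ y')
    (hx : Fresh K x) (hy : Fresh K y) (hx' : Fresh L x') (hy' : Fresh L y') :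
    Iso (susp K x y) (susp L x' y') := by
  obtain ⟨f, hf⟩ := h
  obtain ⟨g1, hg1⟩ : ∃ g1 : Equiv.Perm ℕ, g1 = (Equiv.swap (f x) x') * f := ⟨_, rfl⟩
  obtain ⟨g, hg⟩ : ∃ g : Equiv.Perm ℕ, g = (Equiv.swap (g1 y) y') * g1 := ⟨_, rfl⟩
  have h1x : g1 x = x' := by
    rw [hg1, Equiv.Perm.mul_apply, Equiv.swap_apply_left]
  have hgy : g y = y' := by
    rw [hg, Equiv.Perm.mul_apply, Equiv.swap_apply_left]
  have hgx : g x = x' := by
    rw [hg, Equiv.Perm.mul_apply, h1x, Equiv.swap_apply_of_ne_of_ne]
    · intro h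
      rw [← h1x] at h
      exact hxy (g1.injective h)
    · exact hxy'
  have hmem : ∀ s ∈ K, ∀ v ∈ s, f v ∈ s.image f ∧ s.image f ∈ L := by
    intro s hs v hv
    refine ⟨Finset.mem_image_of_mem _ hv, ?_⟩
    rw [hf]
    exact Finset.mem_image_of_mem (fun s => s.image f) hs
  have h1v : ∀ s ∈ K, ∀ v ∈ s, g1 v = f v := by
    intro s hs v hv
    rw [hg1, Equiv.Perm.mul_apply, Equiv.swap_apply_of_ne_of_ne]
    · intro h
      rw [f.injective h] at hv
      exact hx s hs hv
    · intro h
      have h2 := hmem s hs v hv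
      rw [h] at h2
      exact hx' _ h2.2 h2.1
  have hgv : ∀ s ∈ K, ∀ v ∈ s, g v = f v := by
    intro s hs v hv
    rw [hg, Equiv.Perm.mul_apply, Equiv.swap_apply_of_ne_of_ne]
    · exact h1v s hs v hv
    · intro h
      rw [g1.injective h] at hv
      exact hy s hs hv
    · intro h
      have h2 := hmem s hs v hv
      rw [h1v s hs v hv] at h
      rw [h] at h2
      exact hy' _ h2.2 h2.1
  have himg : ∀ s ∈ K, s.image g = s.image f := by
    intro s hs
    exact Finset.image_congr fun v hv => hgv s hs v hv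
  refine ⟨g, ?_⟩
  ext t
  rw [P4b_mem_susp, Finset.mem_image]
  constructor
  · rintro (ht | ⟨a, ha, rfl⟩ | ⟨a, ha, rfl⟩)
    · rw [hf] at ht
      obtain ⟨s, hs, rfl⟩ := Finset.mem_image.1 ht
      exact ⟨s, P4b_mem_susp.2 (Or.inl hs), himg s hs⟩
    · rw [hf] at ha
      obtain ⟨s, hs, rfl⟩ := Finset.mem_image.1 ha
      refine ⟨insert x s, P4b_mem_susp.2 (Or.inr (Or.inl ⟨s, hs, rfl⟩)), ?_⟩
      rw [Finset.image_insert, himg s hs, hgx]
    · rw [hf] at ha
      obtain ⟨s, hs, rfl⟩ := Finset.mem_image.1 ha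
      refine ⟨insert y s, P4b_mem_susp.2 (Or.inr (Or.inr ⟨s, hs, rfl⟩)), ?_⟩
      rw [Finset.image_insert, himg s hs, hgy]
  · rintro ⟨a, ha, rfl⟩
    rcases P4b_mem_susp.1 ha with hs | ⟨s, hs, rfl⟩ | ⟨s, hs, rfl⟩
    · refine Or.inl ?_
      rw [himg a hs, hf]
      exact Finset.mem_image_of_mem (fun s => s.image f) hs
    · refine Or.inr (Or.inl ⟨s.image f, ?_, ?_⟩)
      · rw [hf]
        exact Finset.mem_image_of_mem (fun s => s.image f) hs
      · rw [Finset.image_insert, himg s hs, hgx]
    · refine Or.inr (Or.inr ⟨s.image f, ?_, ?_⟩)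
      · rw [hf]
        exact Finset.mem_image_of_mem (fun s => s.image f) hs
      · rw [Finset.image_insert, himg s hs, hgy]

theorem P4b_contr {R : Finset ℕ} {x y : ℕ} (hxy : x ≠ y) (hx : x ∉ R) (hy : y ∉ R) (h0 : 0 ∈ R) :
    contr (susp R.ssubsets x y) 0 y = (insert x R).ssubsets := by
  ext t
  rw [contr, Finset.mem_image, Finset.mem_ssubsets]
  constructor
  · rintro ⟨s, hs, rfl⟩
    obtain ⟨h1, h2, h3⟩ := (P4b_mem_susp_bds hxy hx hy).1 hs
    by_cases hys : y ∈ s
    · rw [if_pos hys]
      have hxs : x ∉ s := fun h => h2 ⟨h, hys⟩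
      refine ⟨fun b hb => ?_, fun hR => ?_⟩
      · rcases Finset.mem_insert.1 hb with rfl | hb
        · exact Finset.mem_insert_of_mem h0
        · have hb2 := Finset.mem_erase.1 hb
          rcases Finset.mem_insert.1 (h1 hb2.2) with h | h
          · exact absurd (h ▸ hb2.2) hxs
          · rcases Finset.mem_insert.1 h with h | h
            · exact absurd h hb2.1
            · exact Finset.mem_insert_of_mem h
      · rcases Finset.mem_insert.1 (hR (Finset.mem_insert_self x R)) with h | h
        · exact hx (h ▸ h0)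
        · exact hxs (Finset.mem_of_mem_erase h)
    · rw [if_neg hys]
      refine ⟨fun b hb => ?_, fun hR => h3 fun b hb => hR (Finset.mem_insert_of_mem hb)⟩
      rcases Finset.mem_insert.1 (h1 hb) with h | h
      · exact h ▸ Finset.mem_insert_self _ _
      · rcases Finset.mem_insert.1 h with h | h
        · exact absurd (h ▸ hb) hys
        · exact Finset.mem_insert_of_mem h
  · intro ht
    by_cases hR : R ⊆ t
    · have hxt : x ∉ t := by
        intro h
        exact ht.2 (Finset.insert_subset h hR)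
      have htR : t = R := by
        refine Finset.Subset.antisymm (fun b hb => ?_) hR
        rcases Finset.mem_insert.1 (ht.1 hb) with h | h
        · exact absurd (h ▸ hb) hxt
        · exact h
      have hyE : y ∉ R.erase 0 := fun h => hy (Finset.mem_of_mem_erase h)
      refine ⟨insert y (R.erase 0), (P4b_mem_susp_bds hxy hx hy).2 ⟨fun b hb => ?_, fun hb => ?_, fun h => ?_⟩, ?_⟩
      · rcases Finset.mem_insert.1 hb with rfl | hb
        · exact Finset.mem_insert_of_mem (Finset.mem_insert_self _ _)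
        · exact Finset.mem_insert_of_mem (Finset.mem_insert_of_mem (Finset.mem_of_mem_erase hb))
      · rcases Finset.mem_insert.1 hb.1 with h | h
        · exact hxy h
        · exact hx (Finset.mem_of_mem_erase h)
      · rcases Finset.mem_insert.1 (h h0) with h' | h'
        · exact hy (h' ▸ h0)
        · exact (Finset.mem_erase.1 h').1 rfl
      · rw [if_pos (Finset.mem_insert_self _ _), Finset.erase_insert hyE, Finset.insert_erase h0, htR]
    · have hyt : y ∉ t := by
        intro h
        rcases Finset.mem_insert.1 (ht.1 h) with h' | h'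
        · exact hxy h'.symm
        · exact hy h'
      refine ⟨t, (P4b_mem_susp_bds hxy hx hy).2 ⟨fun b hb => ?_, fun hb => hyt hb.2, hR⟩, if_neg hyt⟩
      rcases Finset.mem_insert.1 (ht.1 hb) with h | h
      · exact h ▸ Finset.mem_insert_self _ _
      · exact Finset.mem_insert_of_mem (Finset.mem_insert_of_mem h)

theorem susp_bds (d : ℕ) {x y : ℕ} (hxy : x ≠ y) (hx : d + 1 < x) (hy : d + 1 < y) :
    LinkCond (susp (bds (d + 1)) x y) 0 y ∧
      Iso (bds (d + 2)) (contr (susp (bds (d + 1)) x y) 0 y) := by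
  have hxR : x ∉ range (d + 1 + 1) := by
    rw [Finset.mem_range]
    omega
  have hyR : y ∉ range (d + 1 + 1) := by
    rw [Finset.mem_range]
    omega
  have h0R : 0 ∈ range (d + 1 + 1) := by
    rw [Finset.mem_range]
    omega
  constructor
  · refine ⟨by omega, ?_, ?_⟩
    · rw [bds, P4b_mem_susp_bds hxy hxR hyR]
      refine ⟨fun b hb => ?_, fun hb => ?_, fun hR => ?_⟩
      · rcases Finset.mem_insert.1 hb with h | h
        · rw [h]
          exact Finset.mem_insert_of_mem (Finset.mem_insert_of_mem h0R)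
        · rw [Finset.mem_singleton.1 h]
          exact Finset.mem_insert_of_mem (Finset.mem_insert_self _ _)
      · have h := hb.1
        rw [Finset.mem_insert, Finset.mem_singleton] at h
        omega
      · have h1 : (1 : ℕ) ∈ range (d + 1 + 1) := by
          rw [Finset.mem_range]
          omega
        have h := hR h1
        rw [Finset.mem_insert, Finset.mem_singleton] at h
        omega
    · intro s _ h0 hys
      rw [bds, P4b_mem_susp_bds hxy hxR hyR] at h0 hys ⊢
      refine ⟨fun b hb => ?_, fun hb => ?_, fun hR => ?_⟩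
      · rcases Finset.mem_insert.1 hb with h | h
        · rw [h]
          exact Finset.mem_insert_of_mem (Finset.mem_insert_of_mem h0R)
        · exact hys.1 h
      · rcases Finset.mem_insert.1 hb.1 with h | h
        · omega
        · exact hys.2.1 ⟨h, Finset.mem_insert_self _ _⟩
      · refine h0.2.2 fun b hb => ?_
        rcases Finset.mem_insert.1 (hR hb) with h | h
        · rw [h]
          exact Finset.mem_insert_self _ _
        · rcases Finset.mem_insert.1 h with h | h
          · exact absurd (h ▸ hb) hyR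
          · exact Finset.mem_insert_of_mem h
  · rw [bds, bds, P4b_contr hxy hxR hyR h0R]
    refine ⟨Equiv.swap (d + 1 + 1) x, ?_⟩
    rw [← P4b_ssub]
    congr 1
    have h2 : Finset.image (⇑(Equiv.swap (d + 1 + 1) x)) (range (d + 1 + 1)) =
        Finset.image id (range (d + 1 + 1)) := by
      refine Finset.image_congr fun v hv => ?_
      have hv' := Finset.mem_range.1 (Finset.mem_coe.1 hv)
      rw [Equiv.swap_apply_of_ne_of_ne (by omega) (by omega), id]
    have h3 : range (d + 2 + 1) = insert (d + 1 + 1) (range (d + 1 + 1)) := Finset.range_add_one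
    rw [h3, Finset.image_insert, Equiv.swap_apply_left, h2, Finset.image_id]

end Pool.Agent.LibFlagPL

end

section

namespace Pool.Agent.LibFlagPL

open Finset

private theorem P4c_fresh_ex (K : Fam) : ∃ a b : ℕ, a ≠ b ∧ Fresh K a ∧ Fresh K b := by
  have h : ∃ m : ℕ, ∀ s ∈ K, ∀ z ∈ s, z < m := by
    refine ⟨(K.sup (fun s => s.sup id)) + 1, fun s hs z hz => ?_⟩
    have h1 : z ≤ s.sup id := Finset.le_sup (f := id) hz
    have h2 : s.sup id ≤ K.sup (fun s => s.sup id) := Finset.le_sup (f := fun s : Finset ℕ => s.sup id) hs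
    omega
  obtain ⟨m, hm⟩ := h
  refine ⟨m, m + 1, by omega, fun s hs hz => ?_, fun s hs hz => ?_⟩
  · exact lt_irrefl _ (hm s hs m hz)
  · have := hm s hs (m + 1) hz
    omega

private theorem P4c_fresh_link {K : Fam} {σ : Finset ℕ} {x : ℕ} (h : Fresh K x) : Fresh (link K σ) x := by
  intro s hs
  exact h s (Finset.mem_filter.1 hs).1

private theorem P4c_fresh_contr {K : Fam} {u v x : ℕ} (_hK : IsCx K) (huv : LinkCond K u v) (h : Fresh K x) :
    Fresh (contr K u v) x := by
  intro s hs hx
  rcases mem_contr.1 hs with ⟨h1, -⟩ | ⟨t, ht, hvt, rfl⟩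
  · exact h s h1 hx
  · rcases Finset.mem_insert.1 hx with h1 | h1
    · have h2 : ({u, v} : Finset ℕ) ∈ K := huv.2.1
      exact h _ h2 (by rw [h1]; simp)
    · exact h t ht (Finset.mem_of_mem_erase h1)

private theorem P4c_man {d : ℕ} (ih : ∀ {K : Fam}, PLS d K → ∀ {x y : ℕ}, x ≠ y → Fresh K x → Fresh K y →
    PLS (d + 1) (susp K x y)) {L : Fam} (hL : PLS (d + 1) L) {x y : ℕ} (hxy : x ≠ y) (hx : Fresh L x)
    (hy : Fresh L y) : Man (PLS (d + 1)) (susp L x y) := by
  have hC : IsCx L := hL.isCx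
  refine ⟨isCx_susp hC x y, fun w hw => ?_⟩
  have hap := susp_link_apex hC hxy hx hy
  have hc : ({w} : Finset ℕ) ∈ L ∨ w = x ∨ w = y := by
    unfold susp at hw
    rw [Finset.mem_union, Finset.mem_union, Finset.mem_image, Finset.mem_image] at hw
    rcases hw with (h1 | ⟨s, -, h1⟩) | ⟨s, -, h1⟩
    · exact Or.inl h1
    · right; left
      have h2 : x ∈ insert x s := Finset.mem_insert_self x s
      rw [h1, Finset.mem_singleton] at h2
      exact h2.symm
    · right; right
      have h2 : y ∈ insert y s := Finset.mem_insert_self y s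
      rw [h1, Finset.mem_singleton] at h2
      exact h2.symm
  rcases hc with h1 | rfl | rfl
  · rw [susp_link_vertex hC hxy hx hy h1]
    exact ih (hL.link h1) hxy (P4c_fresh_link hx) (P4c_fresh_link hy)
  · rw [hap.1]; exact hL
  · rw [hap.2]; exact hL

private theorem P4c_path {d : ℕ} (ih : ∀ {K : Fam}, PLS d K → ∀ {x y : ℕ}, x ≠ y → Fresh K x → Fresh K y →
    PLS (d + 1) (susp K x y)) {L L' : Fam} (h : Relation.EqvGen (Step (PLS d)) L L') :
    (PLS (d + 1) L ↔ PLS (d + 1) L') ∧ (PLS (d + 1) L → ∀ x y x' y' : ℕ, x ≠ y → x' ≠ y' → Fresh L x → Fresh L y →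
      Fresh L' x' → Fresh L' y' → Relation.EqvGen (Step (PLS (d + 1))) (susp L x y) (susp L' x' y')) := by
  have hiso : ∀ {A B : Fam}, Iso A B → PLS (d + 1) A → PLS (d + 1) B → ∀ x y x' y' : ℕ, x ≠ y → x' ≠ y' →
      Fresh A x → Fresh A y → Fresh B x' → Fresh B y' →
      Relation.EqvGen (Step (PLS (d + 1))) (susp A x y) (susp B x' y') := by
    intro A B hAB hA hB x y x' y' hxy hxy' hx hy hx' hy'
    exact Relation.EqvGen.rel _ _ ⟨P4c_man ih hA hxy hx hy, P4c_man ih hB hxy' hx' hy',
      Or.inl (susp_iso hAB hxy hxy' hx hy hx' hy')⟩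
  induction h with
  | rel A B hAB =>
    obtain ⟨hA, hB, hs⟩ := hAB
    have hiff : PLS (d + 1) A ↔ PLS (d + 1) B :=
      ⟨fun h => ⟨hB, h.2.trans _ _ _ (Relation.EqvGen.rel _ _ ⟨hA, hB, hs⟩)⟩,
        fun h => ⟨hA, h.2.trans _ _ _ (Relation.EqvGen.symm _ _ (Relation.EqvGen.rel _ _ ⟨hA, hB, hs⟩))⟩⟩
    refine ⟨hiff, fun hP x y x' y' hxy hxy' hx hy hx' hy' => ?_⟩
    have hP' := hiff.1 hP
    rcases hs with hs | ⟨u, v, huv, rfl⟩
    · exact hiso hs hP hP' x y x' y' hxy hxy' hx hy hx' hy'
    · have hx2 := P4c_fresh_contr hA.1 huv hx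
      have hy2 := P4c_fresh_contr hA.1 huv hy
      have hsc := susp_contr hA.1 hxy hx hy huv
      refine Relation.EqvGen.trans _ (susp (contr A u v) x y) _ (Relation.EqvGen.rel _ _
        ⟨P4c_man ih hP hxy hx hy, P4c_man ih hP' hxy hx2 hy2, Or.inr ⟨u, v, hsc.1, hsc.2.symm⟩⟩) ?_
      exact hiso (Iso.refl _) hP' hP' x y x' y' hxy hxy' hx2 hy2 hx' hy'
  | refl A =>
    exact ⟨Iff.rfl, fun hP x y x' y' hxy hxy' hx hy hx' hy' =>
      hiso (Iso.refl _) hP hP x y x' y' hxy hxy' hx hy hx' hy'⟩
  | symm A B _ hAB =>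
    refine ⟨hAB.1.symm, fun hP x y x' y' hxy hxy' hx hy hx' hy' => ?_⟩
    exact Relation.EqvGen.symm _ _ (hAB.2 (hAB.1.2 hP) x' y' x y hxy' hxy hx' hy' hx hy)
  | trans A B C _ _ hAB hBC =>
    refine ⟨hAB.1.trans hBC.1, fun hP x y x' y' hxy hxy' hx hy hx' hy' => ?_⟩
    obtain ⟨a, b, hab, ha, hb⟩ := P4c_fresh_ex B
    exact Relation.EqvGen.trans _ _ _ (hAB.2 hP x y a b hxy hab hx hy ha hb)
      (hBC.2 (hAB.1.1 hP) a b x' y' hab hxy' ha hb hx' hy')

theorem PLS_susp {d : ℕ} {K : Fam} (h : PLS d K) {x y : ℕ} (hxy : x ≠ y) (hx : Fresh K x)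
    (hy : Fresh K y) : PLS (d + 1) (susp K x y) := by
  induction d generalizing K x y with
  | zero =>
    have hK : K = {∅} := h
    subst hK
    have h0 : bds 1 = susp ({∅} : Fam) 0 1 := by decide
    refine PLS_iso (K := bds 1) ?_ (PLS_bds 1)
    rw [h0]
    refine susp_iso (Iso.refl _) (by decide) hxy ?_ ?_ hx hy
    · intro s hs
      rw [Finset.mem_singleton] at hs
      rw [hs]; simp
    · intro s hs
      rw [Finset.mem_singleton] at hs
      rw [hs]; simp
  | succ d ih =>
    have ih' : ∀ {K : Fam}, PLS d K → ∀ {x y : ℕ}, x ≠ y → Fresh K x → Fresh K y →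
        PLS (d + 1) (susp K x y) := fun {K} hK {x y} h1 h2 h3 => ih hK h1 h2 h3
    refine ⟨P4c_man ih' h hxy hx hy, ?_⟩
    have hb : PLS (d + 1) (bds (d + 1)) := PLS_bds (d + 1)
    have fr : ∀ a, d + 1 < a → Fresh (bds (d + 1)) a := by
      intro a ha s hs hz
      unfold bds at hs
      have h1 := (Finset.mem_ssubsets.1 hs).1 hz
      rw [Finset.mem_range] at h1
      omega
    have hab : d + 2 ≠ d + 3 := by omega
    have hs := susp_bds d hab (by omega) (by omega)
    have h1 : PLS (d + 2) (susp (bds (d + 1)) (d + 2) (d + 3)) :=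
      PLS_of_contr (P4c_man ih' hb hab (fr _ (by omega)) (fr _ (by omega))) hs.1
        (PLS_iso hs.2 (PLS_bds (d + 2)))
    exact h1.2.trans _ _ _ ((P4c_path ih' h.2).2 hb (d + 2) (d + 3) x y hab hxy (fr _ (by omega)) (fr _ (by omega)) hx hy)

theorem cross_succ (d : ℕ) : cross (d + 1) = susp (cross d) (2 * d) (2 * d + 1) := by
  ext s
  unfold susp cross
  simp only [Finset.mem_union, Finset.mem_image, Finset.mem_filter, Finset.mem_powerset]
  constructor
  · rintro ⟨h1, h2⟩
    have key : ∀ t : Finset ℕ, t ⊆ s → 2 * d ∉ t → 2 * d + 1 ∉ t →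
        t ⊆ range (2 * d) ∧ ∀ i ∈ range d, ¬ (2 * i ∈ t ∧ 2 * i + 1 ∈ t) := by
      intro t ht h3 h4
      refine ⟨fun z hz => ?_, fun i hi h5 => ?_⟩
      · have h5 := Finset.mem_range.1 (h1 (ht hz))
        rw [Finset.mem_range]
        have h6 : z ≠ 2 * d := fun h => h3 (h ▸ hz)
        have h7 : z ≠ 2 * d + 1 := fun h => h4 (h ▸ hz)
        omega
      · exact h2 i (Finset.mem_range.2 (by have := Finset.mem_range.1 hi; omega)) ⟨ht h5.1, ht h5.2⟩
    have hd := h2 d (Finset.mem_range.2 (by omega))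
    by_cases ha : 2 * d ∈ s
    · have hb : 2 * d + 1 ∉ s := fun h => hd ⟨ha, h⟩
      left; right
      refine ⟨s.erase (2 * d), key _ (Finset.erase_subset _ _) (Finset.notMem_erase _ _)
        (fun h => hb (Finset.mem_of_mem_erase h)), Finset.insert_erase ha⟩
    · by_cases hb : 2 * d + 1 ∈ s
      · right
        exact ⟨s.erase (2 * d + 1), key _ (Finset.erase_subset _ _)
          (fun h => ha (Finset.mem_of_mem_erase h)) (Finset.notMem_erase _ _), Finset.insert_erase hb⟩
      · left; left
        exact key s (Finset.Subset.refl _) ha hb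
  · have sub : ∀ t : Finset ℕ, t ⊆ range (2 * d) → t ⊆ range (2 * (d + 1)) := by
      intro t ht z hz
      have := Finset.mem_range.1 (ht hz)
      exact Finset.mem_range.2 (by omega)
    have lt : ∀ t : Finset ℕ, t ⊆ range (2 * d) → ∀ z ∈ t, z < 2 * d := fun t ht z hz => Finset.mem_range.1 (ht hz)
    rintro ((⟨h1, h2⟩ | ⟨t, ⟨h1, h2⟩, rfl⟩) | ⟨t, ⟨h1, h2⟩, rfl⟩)
    · refine ⟨sub s h1, fun i hi h3 => ?_⟩
      by_cases h4 : i < d
      · exact h2 i (Finset.mem_range.2 h4) h3
      · have := lt s h1 _ h3.1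
        omega
    · refine ⟨?_, fun i hi h3 => ?_⟩
      · intro z hz
        rcases Finset.mem_insert.1 hz with rfl | hz
        · exact Finset.mem_range.2 (by omega)
        · exact sub t h1 hz
      · have a1 := Finset.mem_insert.1 h3.1
        have a2 := Finset.mem_insert.1 h3.2
        rcases a1 with a1 | a1
        · rcases a2 with a2 | a2
          · omega
          · have := lt t h1 _ a2
            omega
        · have b1 := lt t h1 _ a1
          rcases a2 with a2 | a2
          · omega
          · exact h2 i (Finset.mem_range.2 (by omega)) ⟨a1, a2⟩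
    · refine ⟨?_, fun i hi h3 => ?_⟩
      · intro z hz
        rcases Finset.mem_insert.1 hz with rfl | hz
        · exact Finset.mem_range.2 (by omega)
        · exact sub t h1 hz
      · have a1 := Finset.mem_insert.1 h3.1
        have a2 := Finset.mem_insert.1 h3.2
        rcases a1 with a1 | a1
        · omega
        · have b1 := lt t h1 _ a1
          rcases a2 with a2 | a2
          · omega
          · exact h2 i (Finset.mem_range.2 (by omega)) ⟨a1, a2⟩

theorem PLS_cross (d : ℕ) : PLS d (cross d) := by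
  induction d with
  | zero =>
    show cross 0 = {∅}
    decide
  | succ d ih =>
    have fr : ∀ a, 2 * d ≤ a → Fresh (cross d) a := by
      intro a ha s hs hz
      unfold cross at hs
      have h1 := Finset.mem_powerset.1 (Finset.mem_filter.1 hs).1 hz
      rw [Finset.mem_range] at h1
      omega
    rw [cross_succ]
    exact PLS_susp ih (by omega) (fr _ (by omega)) (fr _ (by omega))

end Pool.Agent.LibFlagPL

end

section

namespace Pool.Agent.LibFlagPL

open Finset

variable {N : ℕ}

/-- every vertex has exactly one nonneighbour -/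
def Oct1 {T : Type} (G : SimpleGraph T) (S : Finset T) : Prop :=
  ∀ v ∈ S, ∃ w ∈ S, w ≠ v ∧ ¬ G.Adj v w ∧ ∀ t ∈ S, t ≠ v → t ≠ w → G.Adj v t

theorem iso_cross {G : SimpleGraph (Fin N)} {S : Finset (Fin N)} {m : ℕ}
    (h : S.card = 2 * m) (h1 : Oct1 G S) : Iso (cross m) (cxOf G S) := by
  induction m generalizing S with
  | zero =>
    have hS : S = ∅ := Finset.card_eq_zero.1 (by omega)
    subst hS
    have e1 : cross 0 = ({∅} : Fam) := by decide
    have e2 : cxOf G (∅ : Finset (Fin N)) = {∅} := by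
      ext s
      rw [mem_cxOf, Finset.mem_singleton]
      constructor
      · rintro ⟨σ, h2, -, rfl⟩
        rw [Finset.subset_empty.1 h2, Finset.image_empty]
      · rintro rfl
        exact ⟨∅, Finset.Subset.refl _, fun s hs => absurd hs (Finset.notMem_empty s), by rw [Finset.image_empty]⟩
    rw [e1, e2]
    exact Iso.refl _
  | succ m ih =>
    have hne : S.Nonempty := by
      rw [← Finset.card_pos]
      omega
    obtain ⟨v, hv⟩ := hne
    obtain ⟨w, hw, hwv, hnvw, hvt⟩ := h1 v hv
    have hwt : ∀ t ∈ S, t ≠ v → t ≠ w → G.Adj w t := by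
      obtain ⟨z, hz, hzw, hnwz, hall⟩ := h1 w hw
      have e : z = v := by
        by_contra hne
        exact hnvw ((hall v hv (Ne.symm hwv) (fun h => hne h.symm)).symm)
      intro t ht htv htw
      exact hall t ht htw (by rw [e]; exact htv)
    have hwS : w ∈ S.erase v := Finset.mem_erase.2 ⟨hwv, hw⟩
    have hmem : ∀ t, t ∈ (S.erase v).erase w ↔ t ≠ w ∧ t ≠ v ∧ t ∈ S := by
      intro t
      rw [Finset.mem_erase, Finset.mem_erase]
    have hcard : ((S.erase v).erase w).card = 2 * m := by
      rw [Finset.card_erase_of_mem hwS, Finset.card_erase_of_mem hv]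
      omega
    have hO : Oct1 G ((S.erase v).erase w) := by
      intro x hx
      obtain ⟨hxw, hxv, hxS⟩ := (hmem x).1 hx
      obtain ⟨z, hz, hzx, hnxz, hall⟩ := h1 x hxS
      refine ⟨z, (hmem z).2 ⟨?_, ?_, hz⟩, hzx, hnxz, fun t ht htx htz => hall t ((hmem t).1 ht).2.2 htx htz⟩
      · rintro rfl
        exact hnxz (hwt x hxS hxv hxw).symm
      · rintro rfl
        exact hnxz (hvt x hxS hxv hxw).symm
    have hI := ih hcard hO
    have fr : ∀ z : Fin N, z ∉ (S.erase v).erase w → Fresh (cxOf G ((S.erase v).erase w)) z.val := by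
      intro z hz s hs hzs
      obtain ⟨σ, hσ, -, rfl⟩ := mem_cxOf.1 hs
      obtain ⟨y, hy, hyz⟩ := Finset.mem_image.1 hzs
      have : y = z := Fin.val_injective hyz
      exact hz (this ▸ hσ hy)
    have fc : ∀ a, 2 * m ≤ a → Fresh (cross m) a := by
      intro a ha s hs hz
      unfold cross at hs
      have h1 := Finset.mem_powerset.1 (Finset.mem_filter.1 hs).1 hz
      rw [Finset.mem_range] at h1
      omega
    have hsusp : cxOf G S = susp (cxOf G ((S.erase v).erase w)) v.val w.val := by
      have key : ∀ z : Fin N, z ∈ S → (∀ t ∈ (S.erase v).erase w, G.Adj z t) →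
          ∀ τ ⊆ (S.erase v).erase w, Cl G τ → insert z.val (τ.image Fin.val) ∈ cxOf G S := by
        intro z hz had τ hτ hcl
        rw [← Finset.image_insert]
        refine image_mem_cxOf.2 ⟨?_, ?_⟩
        · intro t ht
          rcases Finset.mem_insert.1 ht with rfl | ht
          · exact hz
          · exact ((hmem t).1 (hτ ht)).2.2
        · intro a ha b hb hab
          rcases Finset.mem_insert.1 ha with ha' | ha'
          · rcases Finset.mem_insert.1 hb with hb' | hb'
            · exact absurd (ha'.trans hb'.symm) hab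
            · rw [ha']; exact had b (hτ hb')
          · rcases Finset.mem_insert.1 hb with hb' | hb'
            · rw [hb']; exact (had a (hτ ha')).symm
            · exact hcl a ha' b hb' hab
      ext s
      unfold susp
      rw [Finset.mem_union, Finset.mem_union, Finset.mem_image, Finset.mem_image]
      constructor
      · intro hs
        obtain ⟨σ, hσ, hcl, rfl⟩ := mem_cxOf.1 hs
        have sub : ∀ τ ⊆ σ, Cl G τ := fun τ hτ a ha b hb hab => hcl a (hτ ha) b (hτ hb) hab
        by_cases hvσ : v ∈ σ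
        · have hwσ : w ∉ σ := fun h => hnvw (hcl v hvσ w h hwv.symm)
          left; right
          refine ⟨(σ.erase v).image Fin.val, image_mem_cxOf.2 ⟨?_, sub _ (Finset.erase_subset _ _)⟩, ?_⟩
          · intro t ht
            obtain ⟨a1, a2⟩ := Finset.mem_erase.1 ht
            exact (hmem t).2 ⟨fun h => hwσ (h ▸ a2), a1, hσ a2⟩
          · rw [← Finset.image_insert, Finset.insert_erase hvσ]
        · by_cases hwσ : w ∈ σ
          · right
            refine ⟨(σ.erase w).image Fin.val, image_mem_cxOf.2 ⟨?_, sub _ (Finset.erase_subset _ _)⟩, ?_⟩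
            · intro t ht
              obtain ⟨a1, a2⟩ := Finset.mem_erase.1 ht
              exact (hmem t).2 ⟨a1, fun h => hvσ (h ▸ a2), hσ a2⟩
            · rw [← Finset.image_insert, Finset.insert_erase hwσ]
          · left; left
            refine image_mem_cxOf.2 ⟨?_, hcl⟩
            intro t ht
            exact (hmem t).2 ⟨fun h => hwσ (h ▸ ht), fun h => hvσ (h ▸ ht), hσ ht⟩
      · rintro ((hs | ⟨t, ht, rfl⟩) | ⟨t, ht, rfl⟩)
        · obtain ⟨σ, hσ, hcl, rfl⟩ := mem_cxOf.1 hs
          exact image_mem_cxOf.2 ⟨fun t ht => ((hmem t).1 (hσ ht)).2.2, hcl⟩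
        · obtain ⟨σ, hσ, hcl, rfl⟩ := mem_cxOf.1 ht
          exact key v hv (fun t ht => hvt t ((hmem t).1 ht).2.2 ((hmem t).1 ht).2.1 ((hmem t).1 ht).1) σ hσ hcl
        · obtain ⟨σ, hσ, hcl, rfl⟩ := mem_cxOf.1 ht
          exact key w hw (fun t ht => hwt t ((hmem t).1 ht).2.2 ((hmem t).1 ht).2.1 ((hmem t).1 ht).1) σ hσ hcl
    rw [cross_succ, hsusp]
    exact susp_iso hI (by omega) (fun h => hwv (Fin.val_injective h).symm) (fc _ (by omega)) (fc _ (by omega))
      (fr v (fun h => ((hmem v).1 h).2.1 rfl)) (fr w (fun h => ((hmem w).1 h).1 rfl))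

end Pool.Agent.LibFlagPL

end
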