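import Pool.Agent.LibFlagPL.Complexes

/-!
# LibFlagPL.Conv: the converse direction
-/

section

namespace Pool.Agent.LibFlagPL

open Finset Polynomial

/-- coefficients up to degree two of `(1 + a X)^n`, via twice the second one -/
theorem P6_coeff (a : ℤ) (n : ℕ) :
    ((1 + C a * X : ℤ[X]) ^ n).coeff 0 = 1 ∧ ((1 + C a * X : ℤ[X]) ^ n).coeff 1 = n * a ∧
      2 * ((1 + C a * X : ℤ[X]) ^ n).coeff 2 = n * (n - 1) * a ^ 2 := by
  induction n with
  | zero =>
    refine ⟨by simp, ?_, ?_⟩
    · simp [coeff_one]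
    · simp [coeff_one]
  | succ n ih =>
    obtain ⟨h0, h1, h2⟩ := ih
    have hs : ∀ j, ((1 + C a * X : ℤ[X]) ^ (n + 1)).coeff (j + 1) =
        ((1 + C a * X : ℤ[X]) ^ n).coeff (j + 1) + a * ((1 + C a * X : ℤ[X]) ^ n).coeff j := by
      intro j
      rw [pow_succ, mul_add, mul_one, coeff_add]
      congr 1
      rw [show (1 + C a * X : ℤ[X]) ^ n * (C a * X) = C a * ((1 + C a * X : ℤ[X]) ^ n) * X by ring,
        coeff_mul_X, coeff_C_mul]
    refine ⟨?_, ?_, ?_⟩
    · rw [pow_succ, mul_coeff_zero, h0]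
      simp
    · rw [hs 0, h0, h1]
      push_cast
      ring
    · rw [hs 1, h1, mul_add, h2]
      push_cast
      ring

theorem P6_plus (n : ℕ) : ((1 + X : ℤ[X]) ^ n).coeff 0 = 1 ∧ ((1 + X : ℤ[X]) ^ n).coeff 1 = n ∧
      2 * ((1 + X : ℤ[X]) ^ n).coeff 2 = n * (n - 1) := by
  have := P6_coeff 1 n
  simpa using this

theorem P6_minus (n : ℕ) : ((1 - X : ℤ[X]) ^ n).coeff 0 = 1 ∧ ((1 - X : ℤ[X]) ^ n).coeff 1 = -n ∧
      2 * ((1 - X : ℤ[X]) ^ n).coeff 2 = n * (n - 1) := by
  have := P6_coeff (-1) n
  have h : (1 + C (-1 : ℤ) * X : ℤ[X]) = 1 - X := by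
    rw [C_neg, C_1]
    ring
  rw [h] at this
  simpa using this

/-- coefficients up to degree two of a sum of `C (a i) X^i q_i` -/
theorem P6_sum (m : ℕ) (a : ℕ → ℤ) (q : ℕ → ℤ[X]) (j : ℕ) (hj : j ≤ 2) (hm : 3 ≤ m) :
    (∑ i ∈ range m, C (a i) * X ^ i * q i).coeff j =
      ∑ i ∈ range 3, (if i ≤ j then a i * (q i).coeff (j - i) else 0) := by
  rw [finsetSum_coeff]
  have h1 : ∀ i, (C (a i) * X ^ i * q i).coeff j =
      if i ≤ j then a i * (q i).coeff (j - i) else 0 := by
    intro i
    rw [mul_assoc, coeff_C_mul, coeff_X_pow_mul']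
    by_cases h : i ≤ j
    · rw [if_pos h, if_pos h]
    · rw [if_neg h, if_neg h, mul_zero]
  rw [Finset.sum_congr rfl (fun i _ => h1 i)]
  refine (Finset.sum_subset (Finset.range_subset_range.2 hm) ?_).symm
  intro i _ hi
  rw [if_neg]
  simp only [mem_range] at hi
  omega

theorem P6_eqs {d : ℕ} (hd : 4 ≤ d) {K : Fam} {g : ℕ → ℤ} (h0 : fnum K 0 = 1)
    (h : IsGamma d K g) :
    g 0 = 1 ∧ g 1 = (fnum K 1 : ℤ) - 2 * d ∧
      g 2 = (fnum K 2 : ℤ) - (2 * d - 3) * fnum K 1 + 2 * d * (d - 2) := by
  unfold IsGamma hpoly at h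
  have e0 := congrArg (fun p => coeff p 0) h
  have e1 := congrArg (fun p => coeff p 1) h
  have e2 := congrArg (fun p => coeff p 2) h
  beta_reduce at e0 e1 e2
  rw [P6_sum (d + 1) (fun i => (fnum K i : ℤ)) (fun i => (1 - X) ^ (d - i)) _ (by omega) (by omega),
    P6_sum (d / 2 + 1) g (fun i => (1 + X) ^ (d - 2 * i)) _ (by omega) (by omega)] at e0 e1 e2
  simp only [Finset.sum_range_succ, Finset.sum_range_zero, zero_add, Nat.sub_zero, h0,
    Nat.mul_zero, Nat.mul_one, Nat.sub_self] at e0 e1 e2
  norm_num at e0 e1 e2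
  have m0 := P6_minus d
  have m1 := P6_minus (d - 1)
  have m2 := P6_minus (d - 2)
  have p0 := P6_plus d
  have p1 := P6_plus (d - 2)
  have p2 := P6_plus (d - 4)
  have c1 : ((d - 1 : ℕ) : ℤ) = d - 1 := by
    rw [Nat.cast_sub (by omega)]
    simp
  have c2 : ((d - 2 : ℕ) : ℤ) = d - 2 := by
    rw [Nat.cast_sub (by omega)]
    simp
  rw [m0.1, p0.1, mul_one] at e0
  rw [m0.2.1, m1.1, p0.2.1, p1.1, ← e0] at e1
  rw [m1.2.1, m2.1, p1.2.1, p2.1, c1, c2, ← e0] at e2
  have h1 : g 1 = (fnum K 1 : ℤ) - 2 * d := by linarith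
  have hb : ((1 - X : ℤ[X]) ^ d).coeff 2 = ((1 + X : ℤ[X]) ^ d).coeff 2 := by
    have x1 := m0.2.2
    have x2 := p0.2.2
    omega
  refine ⟨e0.symm, h1, ?_⟩
  rw [hb, h1] at e2
  linarith

theorem gamma_zero {d : ℕ} (hd : 4 ≤ d) {K : Fam} {g : ℕ → ℤ} (h0 : fnum K 0 = 1)
    (h : IsGamma d K g) : g 0 = 1 := (P6_eqs hd h0 h).1

theorem gamma_one {d : ℕ} (hd : 4 ≤ d) {K : Fam} {g : ℕ → ℤ} (h0 : fnum K 0 = 1)
    (h : IsGamma d K g) : g 1 = (fnum K 1 : ℤ) - 2 * d := (P6_eqs hd h0 h).2.1

theorem gamma_two {d : ℕ} (hd : 4 ≤ d) {K : Fam} {g : ℕ → ℤ} (h0 : fnum K 0 = 1)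
    (h : IsGamma d K g) :
    g 2 = (fnum K 2 : ℤ) - (2 * d - 3) * fnum K 1 + 2 * d * (d - 2) := (P6_eqs hd h0 h).2.2

end Pool.Agent.LibFlagPL

end

section

namespace Pool.Agent.LibFlagPL

open Finset Polynomial

/-- face polynomial -/
noncomputable def fpK (K : Fam) : ℚ[X] := ∑ s ∈ K, X ^ s.card

theorem coeff_fpK (K : Fam) (i : ℕ) : (fpK K).coeff i = fnum K i := by
  unfold fpK fnum
  rw [Polynomial.finsetSum_coeff, Finset.card_filter]
  push_cast
  refine Finset.sum_congr rfl fun s _ => ?_
  rw [Polynomial.coeff_X_pow]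
  by_cases h : s.card = i
  · simp [h]
  · rw [if_neg (fun h' => h h'.symm), if_neg h]

theorem Iso.fpK_eq {K L : Fam} (h : Iso K L) : fpK K = fpK L := by
  ext i
  rw [coeff_fpK, coeff_fpK, h.fnum_eq]

private theorem CV_L {K : Fam} (hK : IsCx K) {u v : ℕ} {s : Finset ℕ} :
    s ∈ link K {u, v} ↔ u ∉ s ∧ v ∉ s ∧ insert u (insert v s) ∈ K := by
  rw [mem_link hK]
  have e : ({u, v} : Finset ℕ) ∪ s = insert u (insert v s) := by
    rw [insert_union, singleton_union]
  rw [e, disjoint_insert_left, disjoint_singleton_left]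
  tauto

theorem Flag.linkCond {K : Fam} (hF : Flag K) {u v : ℕ} (hne : u ≠ v)
    (huv : ({u, v} : Finset ℕ) ∈ K) (hK : IsCx K) : LinkCond K u v := by
  refine ⟨hne, huv, fun s hs hus hvs => hF _ ?_⟩
  have hu : ∀ a ∈ insert u s, ∀ b ∈ insert u s, ({a, b} : Finset ℕ) ∈ K := by
    intro a ha b hb
    refine hK.2 _ hus _ ?_
    intro x hx
    rw [mem_insert, mem_singleton] at hx
    rcases hx with rfl | rfl
    · exact ha
    · exact hb
  have hv : ∀ a ∈ insert v s, ∀ b ∈ insert v s, ({a, b} : Finset ℕ) ∈ K := by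
    intro a ha b hb
    refine hK.2 _ hvs _ ?_
    intro x hx
    rw [mem_insert, mem_singleton] at hx
    rcases hx with rfl | rfl
    · exact ha
    · exact hb
  intro a ha b hb
  rw [mem_insert, mem_insert] at ha hb
  by_cases h1 : a = v
  · by_cases h2 : b = u
    · rw [h1, h2, Finset.pair_comm]
      exact huv
    · have hb' : b ∈ insert v s := by
        rw [mem_insert]
        tauto
      exact hv a (by rw [h1]; exact mem_insert_self _ _) b hb'
  · have ha' : a ∈ insert u s := by
      rw [mem_insert]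
      tauto
    by_cases h2 : b = v
    · by_cases h3 : a = u
      · rw [h3, h2]
        exact huv
      · have ha2 : a ∈ insert v s := by
          rw [mem_insert] at ha' ⊢
          tauto
        exact hv a ha2 b (by rw [h2]; exact mem_insert_self _ _)
    · exact hu a ha' b (by
        rw [mem_insert]
        tauto)

/-- the face polynomial after a contraction -/
theorem fpK_contr {K : Fam} (hK : IsCx K) {u v : ℕ} (huv : LinkCond K u v) :
    fpK K = fpK (contr K u v) + (X + X ^ 2) * fpK (link K {u, v}) := by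
  obtain ⟨hne, -, hl⟩ := huv
  obtain ⟨B, hB⟩ : ∃ B : Fam, B = K.filter (fun s => v ∉ s) := ⟨_, rfl⟩
  obtain ⟨C, hC⟩ : ∃ C : Fam, C = K.filter (fun s => v ∈ s ∧ u ∉ s) := ⟨_, rfl⟩
  obtain ⟨D, hD⟩ : ∃ D : Fam, D = K.filter (fun s => v ∈ s ∧ u ∈ s) := ⟨_, rfl⟩
  have hK1 : fpK K = fpK B + fpK C + fpK D := by
    unfold fpK
    have h1 : K = B ∪ C ∪ D := by
      ext s
      simp only [hB, hC, hD, mem_union, mem_filter]
      tauto
    have d1 : Disjoint (B ∪ C) D := by
      rw [Finset.disjoint_left]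
      intro s hs hs'
      simp only [hB, hC, hD, mem_union, mem_filter] at hs hs'
      tauto
    have d2 : Disjoint B C := by
      rw [Finset.disjoint_left]
      intro s hs hs'
      simp only [hB, hC, mem_filter] at hs hs'
      tauto
    conv_lhs => rw [h1]
    rw [Finset.sum_union d1, Finset.sum_union d2]
  -- `D` corresponds to the link
  have hD1 : fpK D = X ^ 2 * fpK (link K {u, v}) := by
    unfold fpK
    rw [Finset.mul_sum]
    refine Finset.sum_bij' (i := fun s _ => (s.erase v).erase u)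
      (j := fun t _ => insert u (insert v t)) ?_ ?_ ?_ ?_ ?_
    · intro s hs
      rw [hD, mem_filter] at hs
      rw [CV_L hK]
      refine ⟨notMem_erase _ _, fun h => ?_, ?_⟩
      · exact notMem_erase v s (mem_of_mem_erase h)
      · have h1 : u ∈ s.erase v := mem_erase.2 ⟨hne, hs.2.2⟩
        rw [Finset.insert_comm, Finset.insert_erase h1, Finset.insert_erase hs.2.1]
        exact hs.1
    · intro t ht
      rw [CV_L hK] at ht
      rw [hD, mem_filter]
      exact ⟨ht.2.2, by simp, by simp⟩
    · intro s hs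
      rw [hD, mem_filter] at hs
      have h1 : u ∈ s.erase v := mem_erase.2 ⟨hne, hs.2.2⟩
      change insert u (insert v ((s.erase v).erase u)) = s
      rw [Finset.insert_comm, Finset.insert_erase h1, Finset.insert_erase hs.2.1]
    · intro t ht
      rw [CV_L hK] at ht
      rw [Finset.insert_comm, Finset.erase_insert, Finset.erase_insert ht.1]
      rw [mem_insert]
      rintro (h | h)
      · exact hne h.symm
      · exact ht.2.1 h
    · intro s hs
      rw [hD, mem_filter] at hs
      have h1 : u ∈ s.erase v := mem_erase.2 ⟨hne, hs.2.2⟩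
      have h2 := Finset.card_erase_add_one h1
      have h3 := Finset.card_erase_add_one hs.2.1
      rw [← pow_add]
      congr 1
      omega
  -- the part of the image coming from `C` which is already in `B`
  have hI : fpK (contr K u v) + X * fpK (link K {u, v}) = fpK B + fpK C := by
    obtain ⟨C', hC'⟩ : ∃ C' : Fam, C' = C.image (fun s => insert u (s.erase v)) := ⟨_, rfl⟩
    have hinj : Set.InjOn (fun s : Finset ℕ => insert u (s.erase v)) (C : Set (Finset ℕ)) := by
      intro s hs t ht hst
      rw [Finset.mem_coe, hC, mem_filter] at hs ht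
      have h1 : u ∉ s.erase v := fun h => hs.2.2 (mem_of_mem_erase h)
      have h2 : u ∉ t.erase v := fun h => ht.2.2 (mem_of_mem_erase h)
      have h3 : s.erase v = t.erase v := by
        have h4 : (insert u (s.erase v)).erase u = (insert u (t.erase v)).erase u := by
          have : insert u (s.erase v) = insert u (t.erase v) := hst
          rw [this]
        rwa [Finset.erase_insert h1, Finset.erase_insert h2] at h4
      have h5 : insert v (s.erase v) = insert v (t.erase v) := by rw [h3]
      rwa [Finset.insert_erase hs.2.1, Finset.insert_erase ht.2.1] at h5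
    have hC1 : fpK C = fpK C' := by
      unfold fpK
      rw [hC', Finset.sum_image hinj]
      refine Finset.sum_congr rfl fun s hs => ?_
      rw [hC, mem_filter] at hs
      have h1 : u ∉ s.erase v := fun h => hs.2.2 (mem_of_mem_erase h)
      rw [Finset.card_insert_of_notMem h1, Finset.card_erase_add_one hs.2.1]
    have hcon : contr K u v = B ∪ C' := by
      ext s
      rw [mem_union]
      unfold contr
      rw [mem_image, hB, hC', hC, mem_filter]
      constructor
      · rintro ⟨t, ht, rfl⟩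
        by_cases h1 : v ∈ t
        · rw [if_pos h1]
          by_cases h2 : u ∈ t
          · left
            have h3 : insert u (t.erase v) = t.erase v :=
              Finset.insert_eq_of_mem (mem_erase.2 ⟨hne, h2⟩)
            rw [h3]
            exact ⟨hK.2 _ ht _ (erase_subset _ _), notMem_erase _ _⟩
          · right
            exact mem_image.2 ⟨t, mem_filter.2 ⟨ht, h1, h2⟩, rfl⟩
        · rw [if_neg h1]
          exact Or.inl ⟨ht, h1⟩
      · rintro (⟨h1, h2⟩ | h1)
        · exact ⟨s, h1, by rw [if_neg h2]⟩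
        · obtain ⟨t, ht, rfl⟩ := mem_image.1 h1
          rw [mem_filter] at ht
          exact ⟨t, ht.1, by rw [if_pos ht.2.1]⟩
    have hBC : fpK (B ∩ C') = X * fpK (link K {u, v}) := by
      unfold fpK
      rw [Finset.mul_sum]
      refine Finset.sum_bij' (i := fun s _ => s.erase u) (j := fun t _ => insert u t) ?_ ?_ ?_ ?_ ?_
      · intro s hs
        rw [mem_inter, hB, hC', hC, mem_filter, mem_image] at hs
        obtain ⟨⟨h1, h2⟩, t, ht, rfl⟩ := hs
        rw [mem_filter] at ht
        have h3 : u ∉ t.erase v := fun h => ht.2.2 (mem_of_mem_erase h)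
        rw [Finset.erase_insert h3, CV_L hK]
        refine ⟨h3, notMem_erase _ _, ?_⟩
        rw [Finset.insert_erase ht.2.1]
        have h4 := hl (t.erase v) (hK.2 _ ht.1 _ (erase_subset _ _)) h1
          (by rw [Finset.insert_erase ht.2.1]; exact ht.1)
        rwa [Finset.insert_erase ht.2.1] at h4
      · intro t ht
        rw [CV_L hK] at ht
        rw [mem_inter, hB, hC', hC, mem_filter, mem_image]
        refine ⟨⟨hK.2 _ ht.2.2 _ (by
          rw [Finset.insert_comm]
          exact subset_insert _ _), ?_⟩, insert v t, ?_, ?_⟩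
        · rw [mem_insert]
          rintro (h | h)
          · exact hne h.symm
          · exact ht.2.1 h
        · rw [mem_filter]
          refine ⟨hK.2 _ ht.2.2 _ (subset_insert _ _), mem_insert_self _ _, ?_⟩
          rw [mem_insert]
          rintro (h | h)
          · exact hne h
          · exact ht.1 h
        · rw [Finset.erase_insert ht.2.1]
      · intro s hs
        rw [mem_inter, hB, hC', hC, mem_filter, mem_image] at hs
        obtain ⟨-, t, -, rfl⟩ := hs
        exact Finset.insert_erase (mem_insert_self _ _)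
      · intro t ht
        rw [CV_L hK] at ht
        exact Finset.erase_insert ht.1
      · intro s hs
        rw [mem_inter, hB, hC', hC, mem_filter, mem_image] at hs
        obtain ⟨-, t, -, rfl⟩ := hs
        rw [← Finset.card_erase_add_one (mem_insert_self u (t.erase v)), pow_succ]
        ring
    rw [hcon, hC1, ← hBC]
    exact Finset.sum_union_inter
  rw [hK1, ← hI, hD1]
  ring

theorem mem_cross_iff {d : ℕ} {s : Finset ℕ} :
    s ∈ cross d ↔ (∀ x ∈ s, x < 2 * d) ∧ ∀ i < d, ¬ (2 * i ∈ s ∧ 2 * i + 1 ∈ s) := by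
  unfold cross
  rw [mem_filter, mem_powerset]
  constructor
  · rintro ⟨h1, h2⟩
    exact ⟨fun x hx => mem_range.1 (h1 hx), fun i hi => h2 i (mem_range.2 hi)⟩
  · rintro ⟨h1, h2⟩
    exact ⟨fun x hx => mem_range.2 (h1 x hx), fun i hi => h2 i (mem_range.1 hi)⟩

private theorem CV_insert {d x : ℕ} (hx : x = 2 * d ∨ x = 2 * d + 1) {s : Finset ℕ}
    (hs : s ∈ cross d) : x ∉ s ∧ insert x s ∈ cross (d + 1) := by
  rw [mem_cross_iff] at hs
  obtain ⟨h1, h2⟩ := hs
  have hxs : ∀ y ∈ s, y < 2 * d := h1
  refine ⟨fun h => by have := h1 x h; omega, ?_⟩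
  rw [mem_cross_iff]
  refine ⟨fun y hy => ?_, fun i hi => ?_⟩
  · rw [mem_insert] at hy
    rcases hy with rfl | hy
    · omega
    · have := h1 y hy
      omega
  · rintro ⟨h3, h4⟩
    rw [mem_insert] at h3 h4
    rcases h3 with h3 | h3
    · rcases h4 with h4 | h4
      · omega
      · have := h1 _ h4
        omega
    · rcases h4 with h4 | h4
      · have := h1 _ h3
        omega
      · have := h1 _ h3
        exact h2 i (by omega) ⟨h3, h4⟩

private theorem CV_erase {d x : ℕ} (hx : x = 2 * d ∨ x = 2 * d + 1) {s : Finset ℕ}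
    (hs : s ∈ cross (d + 1)) (hxs : x ∈ s) : s.erase x ∈ cross d := by
  rw [mem_cross_iff] at hs ⊢
  obtain ⟨h1, h2⟩ := hs
  refine ⟨fun y hy => ?_, fun i hi => ?_⟩
  · rw [mem_erase] at hy
    have h3 := h1 y hy.2
    have h4 := h2 d (by omega)
    rcases hx with rfl | rfl
    · by_contra hlt
      have h5 : y = 2 * d + 1 := by omega
      rw [h5] at hy
      exact h4 ⟨hxs, hy.2⟩
    · by_contra hlt
      have h5 : y = 2 * d := by omega
      rw [h5] at hy
      exact h4 ⟨hy.2, hxs⟩
  · rintro ⟨h3, h4⟩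
    exact h2 i (by omega) ⟨mem_of_mem_erase h3, mem_of_mem_erase h4⟩

/-- the face polynomial of the cross-polytope -/
theorem fpK_cross (d : ℕ) : fpK (cross d) = (1 + C 2 * X) ^ d := by
  induction d with
  | zero =>
    have h : cross 0 = {∅} := by
      ext s
      simp [cross]
    rw [h]
    unfold fpK
    simp
  | succ d ih =>
    have hsplit : cross (d + 1) = cross d ∪
        ((cross d).image (insert (2 * d)) ∪ (cross d).image (insert (2 * d + 1))) := by
      ext s
      rw [mem_union, mem_union, mem_image, mem_image]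
      constructor
      · intro hs
        by_cases ha : 2 * d ∈ s
        · exact Or.inr (Or.inl ⟨s.erase (2 * d), CV_erase (Or.inl rfl) hs ha, insert_erase ha⟩)
        · by_cases hb : 2 * d + 1 ∈ s
          · exact Or.inr (Or.inr ⟨s.erase (2 * d + 1), CV_erase (Or.inr rfl) hs hb,
              insert_erase hb⟩)
          · left
            rw [mem_cross_iff] at hs ⊢
            refine ⟨fun y hy => ?_, fun i hi => hs.2 i (by omega)⟩
            have h1 := hs.1 y hy
            have h2 : y ≠ 2 * d := fun h => ha (h ▸ hy)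
            have h3 : y ≠ 2 * d + 1 := fun h => hb (h ▸ hy)
            omega
      · rintro (hs | ⟨t, ht, rfl⟩ | ⟨t, ht, rfl⟩)
        · rw [mem_cross_iff] at hs ⊢
          refine ⟨fun y hy => ?_, fun i hi => ?_⟩
          · have := hs.1 y hy
            omega
          · rintro ⟨h3, h4⟩
            have := hs.1 _ h3
            exact hs.2 i (by omega) ⟨h3, h4⟩
        · exact (CV_insert (Or.inl rfl) ht).2
        · exact (CV_insert (Or.inr rfl) ht).2
    have hno : ∀ x, (x = 2 * d ∨ x = 2 * d + 1) → ∀ s ∈ cross d, x ∉ s :=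
      fun x hx s hs => (CV_insert hx hs).1
    have himg : ∀ x, (x = 2 * d ∨ x = 2 * d + 1) →
        ∑ s ∈ (cross d).image (insert x), (X : ℚ[X]) ^ s.card = X * fpK (cross d) := by
      intro x hx
      rw [Finset.sum_image]
      · unfold fpK
        rw [Finset.mul_sum]
        refine Finset.sum_congr rfl fun s hs => ?_
        rw [Finset.card_insert_of_notMem (hno x hx s hs), pow_succ]
        ring
      · intro s hs t ht hst
        have h1 := hno x hx s hs
        have h2 := hno x hx t ht
        have h3 : (insert x s).erase x = (insert x t).erase x := by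
          have : insert x s = insert x t := hst
          rw [this]
        rwa [Finset.erase_insert h1, Finset.erase_insert h2] at h3
    have d1 : Disjoint (cross d)
        ((cross d).image (insert (2 * d)) ∪ (cross d).image (insert (2 * d + 1))) := by
      rw [Finset.disjoint_left]
      intro s hs hs'
      rw [mem_union, mem_image, mem_image] at hs'
      rcases hs' with ⟨t, -, rfl⟩ | ⟨t, -, rfl⟩
      · exact hno _ (Or.inl rfl) _ hs (mem_insert_self _ _)
      · exact hno _ (Or.inr rfl) _ hs (mem_insert_self _ _)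
    have d2 : Disjoint ((cross d).image (insert (2 * d)))
        ((cross d).image (insert (2 * d + 1))) := by
      rw [Finset.disjoint_left]
      intro s hs hs'
      rw [mem_image] at hs hs'
      obtain ⟨t, ht, rfl⟩ := hs
      obtain ⟨t', ht', h3⟩ := hs'
      have h4 : 2 * d + 1 ∈ insert (2 * d) t := by
        rw [← h3]
        exact mem_insert_self _ _
      rw [mem_insert] at h4
      rcases h4 with h4 | h4
      · omega
      · exact hno _ (Or.inr rfl) _ ht h4
    have e1 : fpK (cross (d + 1)) = fpK (cross d) + (X * fpK (cross d) + X * fpK (cross d)) := by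
      conv_lhs => rw [hsplit]
      unfold fpK
      rw [Finset.sum_union d1, Finset.sum_union d2, himg _ (Or.inl rfl), himg _ (Or.inr rfl)]
      rfl
    rw [e1, ih, pow_succ]
    have h2 : (C 2 : ℚ[X]) = 2 := rfl
    rw [h2]
    ring

/-- evaluation of the `h`-polynomial at `x / (1 + x)` -/
theorem hpoly_eval {d : ℕ} {K : Fam} {x : ℚ} (hx : 1 + x ≠ 0) :
    (1 + x) ^ d * ((hpoly d K).map (Int.castRingHom ℚ)).eval (x / (1 + x)) =
      ∑ j ∈ range (d + 1), (fnum K j : ℚ) * x ^ j := by
  unfold hpoly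
  rw [Polynomial.map_sum, Polynomial.eval_finsetSum, Finset.mul_sum]
  refine Finset.sum_congr rfl fun j hj => ?_
  rw [Finset.mem_range] at hj
  have h1 : 1 - x / (1 + x) = (1 + x)⁻¹ := by
    field_simp
    ring
  have h2 : (1 + x) ^ d = (1 + x) ^ j * (1 + x) ^ (d - j) := by
    rw [← pow_add]
    congr 1
    omega
  simp only [Polynomial.map_mul, Polynomial.map_pow, Polynomial.map_sub, Polynomial.map_one,
    Polynomial.map_X, Polynomial.eval_mul, Polynomial.eval_pow,
    Polynomial.eval_sub, Polynomial.eval_one, Polynomial.eval_X, Polynomial.eval_C,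
    Polynomial.map_C]
  simp only [Int.cast_natCast, eq_intCast]
  rw [h1, h2, div_pow, inv_pow]
  field_simp

end Pool.Agent.LibFlagPL

end

section

namespace Pool.Agent.LibFlagPL

open Finset Polynomial

/-- uniqueness of representations `∑ c_i X^i q_i` with `q_i(0) = 1` -/
theorem CV2_unique {R : Type} [CommRing R] (m : ℕ) (c : ℕ → R) (q : ℕ → R[X])
    (hq : ∀ i, (q i).coeff 0 = 1) (h : ∑ i ∈ range m, C (c i) * X ^ i * q i = 0) :
    ∀ i < m, c i = 0 := by
  intro i
  induction i using Nat.strong_induction_on with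
  | _ i ih =>
    intro hi
    have h1 := congrArg (fun p => coeff p i) h
    simp only [coeff_zero] at h1
    rw [finsetSum_coeff, Finset.sum_eq_single i] at h1
    · rw [mul_assoc, coeff_C_mul, coeff_X_pow_mul', if_pos le_rfl, Nat.sub_self, hq, mul_one] at h1
      exact h1
    · intro j hj hji
      rw [mul_assoc, coeff_C_mul, coeff_X_pow_mul']
      rcases lt_or_gt_of_ne hji with h2 | h2
      · rw [ih j h2 (by omega), zero_mul]
      · rw [if_neg (by omega), mul_zero]
    · intro h2
      exact absurd (mem_range.2 hi) h2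

theorem SReduces.isCx {d : ℕ} {K : Fam} (h : SReduces d K) : IsCx K := by
  cases h with
  | base _ h2 _ => exact h2.1
  | step _ h2 _ _ _ _ => exact h2.1

/-- the face polynomial of a reducible sphere -/
theorem SReduces.fpK_eq {d : ℕ} {K : Fam} (h : SReduces d K) :
    ∃ n : ℕ, fpK K = (1 + C 2 * X) ^ d + C (n : ℚ) * (X + X ^ 2) * (1 + C 2 * X) ^ (d - 2) := by
  induction h with
  | base _ _ h3 =>
    refine ⟨0, ?_⟩
    rw [← h3.fpK_eq, fpK_cross]
    simp
  | @step K u v h1 h2 h3 h4 h5 _ ih =>
    obtain ⟨n, hn⟩ := ih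
    refine ⟨n + 1, ?_⟩
    rw [fpK_contr h2.1 (h1.linkCond h3 h4 h2.1), hn, ← h5.fpK_eq, fpK_cross]
    push_cast
    rw [C_add, C_1]
    ring

/-- reducible spheres have `gamma_i = 0` for all `i ≥ 2` -/
theorem gamma_zero_of_SReduces {d : ℕ} (hd : 4 ≤ d) {K : Fam} (h : SReduces d K) {g : ℕ → ℤ}
    (hg : IsGamma d K g) : ∀ i, 2 ≤ i → i ≤ d / 2 → g i = 0 := by
  obtain ⟨n, hn⟩ := h.fpK_eq
  -- no faces above the dimension
  have hdeg : (fpK K).natDegree ≤ d := by
    rw [hn]
    have e1 : ((1 + C 2 * X : ℚ[X])).natDegree ≤ 1 := by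
      refine (natDegree_add_le _ _).trans ?_
      simp only [natDegree_one]
      exact max_le (by omega) ((natDegree_C_mul_le _ _).trans natDegree_X_le)
    have e2 : ((X + X ^ 2 : ℚ[X])).natDegree ≤ 2 := by
      refine (natDegree_add_le _ _).trans (max_le (natDegree_X_le.trans (by omega)) ?_)
      exact natDegree_X_pow_le 2
    refine (natDegree_add_le _ _).trans (max_le ?_ ?_)
    · exact (natDegree_pow_le_of_le d e1).trans (by omega)
    · refine natDegree_mul_le.trans ?_
      have e3 := natDegree_pow_le_of_le (d - 2) e1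
      have e4 : (C (n : ℚ) * (X + X ^ 2)).natDegree ≤ 2 := (natDegree_C_mul_le _ _).trans e2
      omega
  have heval : ∀ x : ℚ, (fpK K).eval x = ∑ j ∈ range (d + 1), (fnum K j : ℚ) * x ^ j := by
    intro x
    rw [eval_eq_sum_range' (n := d + 1) (by omega)]
    refine Finset.sum_congr rfl fun j _ => ?_
    rw [coeff_fpK]
  -- the h-polynomial
  have key : (hpoly d K).map (Int.castRingHom ℚ) =
      (1 + X) ^ d + C (n : ℚ) * X * (1 + X) ^ (d - 2) := by
    refine Polynomial.eq_of_infinite_eval_eq _ _ ?_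
    refine Set.Infinite.mono ?_ (Set.Finite.infinite_compl (Set.finite_singleton (1 : ℚ)))
    intro t ht
    have ht1 : (1 : ℚ) - t ≠ 0 := by
      intro h0
      apply ht
      rw [Set.mem_singleton_iff]
      linarith
    obtain ⟨x, hx⟩ : ∃ x : ℚ, x = t / (1 - t) := ⟨_, rfl⟩
    have hx1 : 1 + x = 1 / (1 - t) := by
      rw [hx]
      field_simp
      ring
    have hx0 : 1 + x ≠ 0 := by
      rw [hx1]
      exact one_div_ne_zero ht1
    have hxt : x / (1 + x) = t := by
      rw [hx1, hx]
      field_simp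
    have e1 := hpoly_eval (d := d) (K := K) hx0
    rw [← heval, hn, hxt] at e1
    simp only [eval_add, eval_mul, eval_pow, eval_one, eval_X, eval_C] at e1
    change eval t ((hpoly d K).map (Int.castRingHom ℚ)) =
      eval t ((1 + X) ^ d + C (n : ℚ) * X * (1 + X) ^ (d - 2))
    simp only [eval_add, eval_mul, eval_pow, eval_one, eval_X, eval_C]
    have h2 : 1 + 2 * x = (1 + t) / (1 - t) := by
      rw [hx]
      field_simp
      ring
    have h3 : x + x ^ 2 = t / (1 - t) ^ 2 := by
      rw [hx]
      field_simp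
      ring
    have h4 : (1 - t) ^ d = (1 - t) ^ (d - 2) * (1 - t) ^ 2 := by
      rw [← pow_add]
      congr 1
      omega
    rw [hx1, h2, h3, div_pow, div_pow, div_pow, one_pow, h4] at e1
    field_simp at e1
    linarith
  -- compare with the gamma vector
  obtain ⟨a, ha⟩ : ∃ a : ℕ → ℚ, a = fun i => if i = 0 then 1 else if i = 1 then (n : ℚ) else 0 :=
    ⟨_, rfl⟩
  have hsum : ∑ i ∈ range (d / 2 + 1), C (a i) * X ^ i * (1 + X : ℚ[X]) ^ (d - 2 * i) =
      (1 + X) ^ d + C (n : ℚ) * X * (1 + X) ^ (d - 2) := by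
    rw [← Finset.sum_subset (s₁ := range 2) (Finset.range_mono (by omega))]
    · rw [Finset.sum_range_succ, Finset.sum_range_one, ha]
      simp
    · intro i _ hi2
      rw [Finset.mem_range] at hi2
      have h3 : a i = 0 := by
        rw [ha]
        simp only
        rw [if_neg (by omega), if_neg (by omega)]
      rw [h3]
      simp
  have hg' : ∑ i ∈ range (d / 2 + 1), C ((g i : ℚ)) * X ^ i * (1 + X : ℚ[X]) ^ (d - 2 * i) =
      (hpoly d K).map (Int.castRingHom ℚ) := by
    have h1 : hpoly d K = ∑ i ∈ range (d / 2 + 1), C (g i) * X ^ i * (1 + X) ^ (d - 2 * i) := hg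
    rw [h1, Polynomial.map_sum]
    refine Finset.sum_congr rfl fun i _ => ?_
    simp
  have hdiff : ∑ i ∈ range (d / 2 + 1), C ((g i : ℚ) - a i) * X ^ i *
      (1 + X : ℚ[X]) ^ (d - 2 * i) = 0 := by
    have h1 : ∀ i, C ((g i : ℚ) - a i) * X ^ i * (1 + X : ℚ[X]) ^ (d - 2 * i) =
        C ((g i : ℚ)) * X ^ i * (1 + X : ℚ[X]) ^ (d - 2 * i) -
          C (a i) * X ^ i * (1 + X : ℚ[X]) ^ (d - 2 * i) := by
      intro i
      rw [C_sub]
      ring
    rw [Finset.sum_congr rfl (fun i _ => h1 i), Finset.sum_sub_distrib, hg', key, hsum, sub_self]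
  intro i hi1 hi2
  have h1 := CV2_unique (d / 2 + 1) (fun i => (g i : ℚ) - a i) (fun i => (1 + X) ^ (d - 2 * i))
    (fun i => by
      rw [coeff_zero_eq_eval_zero]
      simp) hdiff i (by omega)
  have h2 : a i = 0 := by
    rw [ha]
    simp only
    rw [if_neg (by omega), if_neg (by omega)]
  have h3 : (g i : ℚ) - a i = 0 := h1
  rw [h2, sub_zero] at h3
  exact_mod_cast h3

end Pool.Agent.LibFlagPL

end
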