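import Pool.Agent.LibFlagPL.StellA

/-!
# LibFlagPL.EG: every PL sphere has a gamma vector (Dehn-Sommerville)
-/

set_option autoImplicit false

namespace Pool.Agent.LibFlagPL

open Finset Polynomial

private theorem EG_eul {d : ℕ} {K : Fam} (h : SW d K) {s : Finset ℕ} (hs : s ∈ K) :
    ∑ t ∈ K.filter (fun t => s ⊆ t), (-1 : ℤ) ^ (d - t.card) = 1 := by
  obtain ⟨h1, h2⟩ := h.link_face hs
  have h3 := h2.eul
  unfold eul at h3
  have hcx := h.isCx
  have h4 : K.filter (fun t => s ⊆ t) = (link K s).image (fun t => s ∪ t) := by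
    ext t
    simp only [mem_filter, mem_image, link]
    constructor
    · rintro ⟨ht, hst⟩
      refine ⟨t \ s, ⟨hcx.2 t ht _ sdiff_subset, disjoint_sdiff, ?_⟩, ?_⟩
      · rw [union_sdiff_of_subset hst]; exact ht
      · exact union_sdiff_of_subset hst
    · rintro ⟨r, ⟨hr, hd, hu⟩, rfl⟩
      exact ⟨hu, subset_union_left⟩
  have hinj : Set.InjOn (fun t => s ∪ t) (link K s : Set (Finset ℕ)) := by
    intro a ha b hb hab
    rw [mem_coe, link, mem_filter] at ha hb
    have h5 : (s ∪ a) \ s = (s ∪ b) \ s := by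
      have : s ∪ a = s ∪ b := hab
      rw [this]
    rwa [union_sdiff_cancel_left ha.2.1, union_sdiff_cancel_left hb.2.1] at h5
  rw [h4, sum_image hinj]
  have h6 : ∀ t ∈ link K s, (-1 : ℤ) ^ (d - (s ∪ t).card) =
      (-1) ^ (d - s.card) * (-1) ^ t.card := by
    intro t ht
    have ht' := ht
    rw [link, mem_filter] at ht'
    have h7 : (s ∪ t).card = s.card + t.card := card_union_of_disjoint ht'.2.1
    have h8 : (s ∪ t).card ≤ d := (h.link_face ht'.2.2).1
    have h9 : d - s.card = (d - (s ∪ t).card) + t.card := by omega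
    rw [h9, pow_add, mul_assoc, ← mul_pow]
    norm_num
  rw [sum_congr rfl h6, ← mul_sum, h3, ← mul_pow]
  norm_num

private theorem EG_hpoly {d : ℕ} {K : Fam} (h : ∀ s ∈ K, s.card ≤ d) :
    hpoly d K = ∑ s ∈ K, X ^ s.card * (1 - X) ^ (d - s.card) := by
  have h1 : ∀ s ∈ K, s.card ∈ range (d + 1) := fun s hs => mem_range_succ_iff.2 (h s hs)
  rw [hpoly, ← sum_fiberwise_of_maps_to h1]
  refine sum_congr rfl fun i _ => ?_
  have h2 : ∀ s ∈ K.filter (fun s => s.card = i),
      (X ^ s.card * (1 - X) ^ (d - s.card) : ℤ[X]) = X ^ i * (1 - X) ^ (d - i) := by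
    intro s hs
    rw [(mem_filter.1 hs).2]
  rw [sum_congr rfl h2, sum_const, nsmul_eq_mul, fnum, mul_assoc]
  simp

private theorem EG_ds {d : ℕ} {K : Fam} (h : SW d K) :
    hpoly d K = ∑ t ∈ K, (X - 1) ^ (d - t.card) := by
  have hcx := h.isCx
  have hc : ∀ s ∈ K, s.card ≤ d := fun s hs => (h.link_face hs).1
  rw [EG_hpoly hc]
  have h1 : ∀ t ∈ K, ((X - 1) ^ (d - t.card) : ℤ[X]) =
      ∑ s ∈ K, if s ⊆ t then
        C ((-1 : ℤ) ^ (d - t.card)) * (X ^ s.card * (1 - X) ^ (d - s.card)) else 0 := by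
    intro t ht
    have h2 := sum_pow_mul_eq_add_pow (X : ℤ[X]) (1 - X) t
    rw [add_sub_cancel, one_pow] at h2
    have h3 : K.filter (fun s => s ⊆ t) = t.powerset := by
      ext s
      rw [mem_filter, mem_powerset]
      exact ⟨fun h => h.2, fun h => ⟨hcx.2 t ht s h, h⟩⟩
    rw [← sum_filter, h3, ← mul_sum]
    have h4 : ∀ s ∈ t.powerset, (X ^ s.card * (1 - X) ^ (d - s.card) : ℤ[X]) =
        (1 - X) ^ (d - t.card) * (X ^ s.card * (1 - X) ^ (t.card - s.card)) := by
      intro s hs
      have h5 : s.card ≤ t.card := card_le_card (mem_powerset.1 hs)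
      have h6 := hc t ht
      have h7 : d - s.card = (d - t.card) + (t.card - s.card) := by omega
      rw [h7, pow_add]
      ring
    rw [sum_congr rfl h4, ← mul_sum, h2, mul_one, C_pow, C_neg, C_1, ← mul_pow]
    congr 1
    ring
  rw [sum_congr rfl h1, sum_comm]
  refine sum_congr rfl fun s hs => ?_
  rw [← sum_filter, ← sum_mul, ← map_sum, EG_eul h hs, C_1, one_mul]

private theorem EG_refl (n : ℕ) : reflect n ((1 - X : ℤ[X]) ^ n) = (X - 1) ^ n := by
  induction n with
  | zero =>
    rw [pow_zero, pow_zero]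
    simp
  | succ n ih =>
    have h1 : ((1 - X : ℤ[X])).natDegree ≤ 1 := by compute_degree
    have h2 : ((1 - X : ℤ[X]) ^ n).natDegree ≤ n := by
      have := natDegree_pow_le_of_le n h1
      simpa using this
    rw [pow_succ, reflect_mul _ _ h2 h1, ih, pow_succ]
    congr 1
    have h3 : (1 - X : ℤ[X]) = C 1 * X ^ 0 + C (-1) * X ^ 1 := by
      simp [sub_eq_add_neg]
    rw [h3, reflect_add, reflect_C_mul_X_pow, reflect_C_mul_X_pow]
    rw [revAt_le (by norm_num), revAt_le le_rfl]
    simp [sub_eq_add_neg]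

private theorem EG_reflect {d : ℕ} {K : Fam} (h : ∀ s ∈ K, s.card ≤ d) :
    reflect d (hpoly d K) = ∑ t ∈ K, (X - 1) ^ (d - t.card) := by
  rw [EG_hpoly h]
  have hmap : ∀ L : Fam, reflect d (∑ s ∈ L, (X ^ s.card * (1 - X) ^ (d - s.card) : ℤ[X])) =
      ∑ s ∈ L, reflect d (X ^ s.card * (1 - X) ^ (d - s.card) : ℤ[X]) := by
    intro L
    induction L using Finset.induction_on with
    | empty => simp
    | insert a L ha ih => rw [sum_insert ha, sum_insert ha, reflect_add, ih]
  rw [hmap]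
  refine sum_congr rfl fun s hs => ?_
  have h1 := h s hs
  have h2 : d = s.card + (d - s.card) := by omega
  have h3 : ((1 - X : ℤ[X])).natDegree ≤ 1 := by compute_degree
  have h4 : ((1 - X : ℤ[X]) ^ (d - s.card)).natDegree ≤ d - s.card := by
    have := natDegree_pow_le_of_le (d - s.card) h3
    simpa using this
  have h5 : reflect (s.card + (d - s.card)) (X ^ s.card * (1 - X) ^ (d - s.card) : ℤ[X]) =
      reflect s.card (X ^ s.card) * reflect (d - s.card) ((1 - X) ^ (d - s.card)) :=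
    reflect_mul _ _ (natDegree_X_pow_le _) h4
  rw [← h2] at h5
  rw [h5, EG_refl]
  have h6 : reflect s.card (X ^ s.card : ℤ[X]) = 1 := by
    simp
  rw [h6, one_mul]

private theorem EG_deg {d : ℕ} {K : Fam} (h : ∀ s ∈ K, s.card ≤ d) :
    (hpoly d K).natDegree ≤ d := by
  rw [EG_hpoly h]
  refine natDegree_sum_le_of_forall_le _ _ fun s hs => ?_
  have h3 : ((1 - X : ℤ[X])).natDegree ≤ 1 := by compute_degree
  have h4 : ((1 - X : ℤ[X]) ^ (d - s.card)).natDegree ≤ d - s.card := by
    have := natDegree_pow_le_of_le (d - s.card) h3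
    simpa using this
  have h5 := natDegree_mul_le_of_le (natDegree_X_pow_le (R := ℤ) s.card) h4
  have h6 := h s hs
  omega

private theorem EG_pal (d : ℕ) : ∀ P : ℤ[X], P.natDegree ≤ d →
    (∀ i, i ≤ d → P.coeff i = P.coeff (d - i)) →
    ∃ g : ℕ → ℤ, P = ∑ i ∈ range (d / 2 + 1), C (g i) * X ^ i * (1 + X) ^ (d - 2 * i) := by
  induction d using Nat.twoStepInduction with
  | zero =>
    intro P hP _
    refine ⟨fun _ => P.coeff 0, ?_⟩
    rw [eq_C_of_natDegree_le_zero hP]
    simp
  | one =>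
    intro P hP h
    refine ⟨fun _ => P.coeff 0, ?_⟩
    have h1 := h 0 (by omega)
    have h2 : P = C (P.coeff 1) * X + C (P.coeff 0) := eq_X_add_C_of_natDegree_le_one hP
    simp only [Nat.reduceDiv, zero_add, range_one, sum_singleton, pow_zero, mul_one, mul_zero,
      Nat.sub_zero, pow_one]
    rw [tsub_zero] at h1
    conv_lhs => rw [h2, ← h1]
    ring
  | more d ih _ =>
    intro P hP h
    obtain ⟨R, hR⟩ : ∃ R : ℤ[X], R = P - C (P.coeff 0) * (1 + X) ^ (d + 2) := ⟨_, rfl⟩
    have hRc : ∀ i, R.coeff i = P.coeff i - P.coeff 0 * ((d + 2).choose i : ℤ) := by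
      intro i
      rw [hR, coeff_sub, coeff_C_mul, coeff_one_add_X_pow]
    have hR0 : R.coeff 0 = 0 := by
      rw [hRc, Nat.choose_zero_right]
      push_cast
      ring
    have hRhi : ∀ i, d + 1 < i → R.coeff i = 0 := by
      intro i hi
      rw [hRc]
      rcases Nat.lt_or_ge (d + 2) i with h1 | h1
      · rw [coeff_eq_zero_of_natDegree_lt (lt_of_le_of_lt hP h1), Nat.choose_eq_zero_of_lt h1]
        simp
      · have h2 : i = d + 2 := by omega
        have h3 := h 0 (by omega)
        rw [tsub_zero] at h3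
        rw [h2, Nat.choose_self, ← h3]
        simp
    have hRp : ∀ i, i ≤ d + 2 → R.coeff i = R.coeff (d + 2 - i) := by
      intro i hi
      rw [hRc, hRc, h i hi, Nat.choose_symm hi]
    obtain ⟨g, hg⟩ := ih R.divX (by
        rw [natDegree_le_iff_coeff_eq_zero]
        intro i hi
        rw [coeff_divX]
        exact hRhi _ (by omega)) (by
        intro i hi
        rw [coeff_divX, coeff_divX, hRp (i + 1) (by omega)]
        congr 1
        omega)
    refine ⟨fun i => if i = 0 then P.coeff 0 else g (i - 1), ?_⟩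
    have h1 : (d + 2) / 2 + 1 = (d / 2 + 1) + 1 := by omega
    rw [h1, sum_range_succ']
    have h2 : ∀ i ∈ range (d / 2 + 1), C (if i + 1 = 0 then P.coeff 0 else g (i + 1 - 1)) *
        X ^ (i + 1) * (1 + X) ^ (d + 2 - 2 * (i + 1)) =
        (C (g i) * X ^ i * (1 + X) ^ (d - 2 * i)) * X := by
      intro i _
      have h3 : d + 2 - 2 * (i + 1) = d - 2 * i := by omega
      rw [if_neg (Nat.succ_ne_zero i), Nat.add_sub_cancel, h3, pow_succ]
      ring
    have h5 : (fun i => if i = 0 then P.coeff 0 else g (i - 1)) 0 = P.coeff 0 := if_pos rfl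
    rw [sum_congr rfl h2, ← sum_mul, ← hg, h5, pow_zero, mul_one, mul_zero, tsub_zero]
    have h4 := divX_mul_X_add R
    rw [hR0, C_0, add_zero] at h4
    rw [h4, hR]
    ring

/-- every PL sphere has a gamma vector (Dehn-Sommerville) -/
theorem exists_gamma {d : ℕ} {K : Fam} (h : SPL d K) : ∃ g : ℕ → ℤ, IsGamma d K g := by
  have hW := SW_of_SPL h
  have hc : ∀ s ∈ K, s.card ≤ d := fun s hs => (hW.link_face hs).1
  have h1 : reflect d (hpoly d K) = hpoly d K := by rw [EG_reflect hc, ← EG_ds hW]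
  refine EG_pal d (hpoly d K) (EG_deg hc) fun i hi => ?_
  have h2 := coeff_reflect d (hpoly d K) i
  rw [h1, revAt_le hi] at h2
  exact h2

end Pool.Agent.LibFlagPL
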