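import Pool.Agent.LibFlagPL.Graphs

/-!
# LibFlagPL.GalA: `gamma_2 ≥ 0`, separators, pseudomanifolds, components of connected sets
-/

section

namespace Pool.Agent.LibGal41

open Finset Pool.Agent.LibFlagPL

variable {T : Type} [Fintype T] [DecidableEq T]

/-- The class of all `m`-dimensional complexes used here: dimension `0`: two nonadjacent points;
dimension `m + 1`: connected, all vertex links are in the class of dimension `m`, and for every
vertex the vertices outside its closed star induce a connected nonempty graph. -/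
def Sd (G : SimpleGraph T) : ℕ → Finset T → Prop
  | 0, S => S.card = 2 ∧ ∀ a ∈ S, ∀ b ∈ S, ¬ G.Adj a b
  | (m + 1), S => Conn G S ∧ ∀ v ∈ S, Sd G m (nb G S v) ∧ Conn G (S \ insert v (nb G S v))

/-- Discrete pseudomanifolds: dimension `0`: two nonadjacent points; dimension `m + 1`: connected,
all vertex links are discrete pseudomanifolds of dimension `m` (in dimension `1` these are the
cycles of length at least four). -/
def DP (G : SimpleGraph T) : ℕ → Finset T → Prop
  | 0, S => S.card = 2 ∧ ∀ a ∈ S, ∀ b ∈ S, ¬ G.Adj a b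
  | (m + 1), S => Conn G S ∧ ∀ v ∈ S, DP G m (nb G S v)

/-- the number of ordered pairs `(a, b)` of adjacent vertices with `a ∈ A` and `b ∈ B` -/
noncomputable def ee (G : SimpleGraph T) (A B : Finset T) : ℤ := ∑ a ∈ A, ((nb G B a).card : ℤ)

open scoped Classical in
/-- the vertices of `S` outside `A` with a neighbour in `A` -/
noncomputable def Nb (G : SimpleGraph T) (S A : Finset T) : Finset T :=
  (S \ A).filter (fun x => ∃ a ∈ A, G.Adj a x)

/-- twice the number of edges inside `S` with at least one end in `O` (for `O ⊆ S`) -/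
noncomputable def inc2 (G : SimpleGraph T) (S O : Finset T) : ℤ := ee G O O + 2 * ee G O (S \ O)

/-- twice `gamma_2` of an `m`-dimensional complex -/
noncomputable def g2 (G : SimpleGraph T) (m : ℕ) (S : Finset T) : ℤ :=
  ee G S S - 2 * (2 * (m : ℤ) - 1) * (S.card : ℤ) + 4 * ((m : ℤ) + 1) * ((m : ℤ) - 1)

/-- the inequality `(C)`: for every connected `O` which does not dominate `S`,
`inc(O) ≥ |N(O)| + (2m-1)(|O|-1)` (everything multiplied by two) -/
def CC (G : SimpleGraph T) (m : ℕ) (S : Finset T) : Prop :=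
  ∀ O : Finset T, O ⊆ S → Conn G O → (∃ q ∈ S, q ∉ O ∧ q ∉ Nb G S O) →
    2 * ((Nb G S O).card : ℤ) + 2 * (2 * (m : ℤ) - 1) * ((O.card : ℤ) - 1) ≤ inc2 G S O

open scoped Classical in
/-- the vertices of `A` which can be reached from `x` inside `A` -/
noncomputable def comp (H : SimpleGraph T) (A : Finset T) (x : T) : Finset T :=
  A.filter (fun y => Relation.ReflTransGen (fun a b => a ∈ A ∧ b ∈ A ∧ H.Adj a b) x y)

/-- the connected components of the induced graph on `A` -/
noncomputable def comps (H : SimpleGraph T) (A : Finset T) : Finset (Finset T) :=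
  A.image (comp H A)

/-- the bipartite graph of the edges of `G` between `A` and `B` -/
def bip (G : SimpleGraph T) (A B : Finset T) : SimpleGraph T where
  Adj s t := G.Adj s t ∧ ((s ∈ A ∧ t ∈ B) ∨ (s ∈ B ∧ t ∈ A))
  symm := by
    constructor
    rintro s t ⟨h1, h2⟩
    refine ⟨h1.symm, ?_⟩
    rcases h2 with h | h
    · exact Or.inr ⟨h.2, h.1⟩
    · exact Or.inl ⟨h.2, h.1⟩
  loopless := ⟨fun s h => G.loopless.irrefl s h.1⟩

/-- the situation of the induction step -/
structure Stp (G : SimpleGraph T) (m : ℕ) (S O : Finset T) (f : T) : Prop where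
  sd : Sd G (m + 1) S
  sub : O ⊆ S
  conn : Conn G O
  hf : f ∈ Nb G S O
  hq : ∃ q ∈ S, q ∉ O ∧ q ∉ Nb G S O ∧ G.Adj f q

/-- the components of `O` outside the link of `f` -/
noncomputable def BO (G : SimpleGraph T) (S O : Finset T) (f : T) : Finset (Finset T) :=
  comps G (O \ nb G S f)

/-- the components of `O` inside the link of `f` -/
noncomputable def BW (G : SimpleGraph T) (S O : Finset T) (f : T) : Finset (Finset T) :=
  comps G (O ∩ nb G S f)

/-- the vertices of `N(O)` outside the closed star of `f` -/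
noncomputable def SS (G : SimpleGraph T) (S O : Finset T) (f : T) : Finset T :=
  Nb G S O \ insert f (nb G S f)

/-- the vertices of `N(O)` in the link of `f` -/
noncomputable def FF (G : SimpleGraph T) (S O : Finset T) (f : T) : Finset T :=
  Nb G S O ∩ nb G S f

open scoped Classical in
/-- the vertices of `SS` adjacent to the blob `i` -/
noncomputable def Sx (G : SimpleGraph T) (S O : Finset T) (f : T) (i : Finset T) : Finset T :=
  (SS G S O f).filter (fun s => ∃ w ∈ i, G.Adj w s)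

/-- the components of the bipartite graph between the blob `i` and `Sx i` -/
noncomputable def CX (G : SimpleGraph T) (S O : Finset T) (f : T) (i : Finset T) :
    Finset (Finset T) :=
  comps (bip G i (Sx G S O f i)) (i ∪ Sx G S O f i)

/-- two blobs are adjacent -/
def BAdj (G : SimpleGraph T) (j i : Finset T) : Prop := ∃ a ∈ j, ∃ w ∈ i, G.Adj a w

open scoped Classical in
/-- the cost of the pair of blobs `j` (outside the link of `f`), `i` (inside) -/
noncomputable def cost (G : SimpleGraph T) (S O : Finset T) (f : T) (j i : Finset T) : ℤ :=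
  ∑ C ∈ (CX G S O f i).filter (fun C => (C ∩ Nb G S j).Nonempty),
    (((C ∩ Nb G S j).card : ℤ) - 1)

/-- the common neighbours of the blobs `j` and `i` in the link of `f` -/
noncomputable def N0 (G : SimpleGraph T) (S : Finset T) (f : T) (j i : Finset T) : Finset T :=
  Nb G (nb G S f) i ∩ Nb G S j

open scoped Classical in
/-- the vertices of the blob `i` all of whose neighbours outside the closed star of `f` are
in `j` -/
noncomputable def UU (G : SimpleGraph T) (S : Finset T) (f : T) (j i : Finset T) : Finset T :=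
  i.filter (fun w => ∀ y ∈ S, G.Adj w y → y ≠ f → ¬ G.Adj f y → y ∈ j)

open scoped Classical in
/-- the vertices of the blob `i` adjacent to `j` which are not in `UU` -/
noncomputable def XX (G : SimpleGraph T) (S : Finset T) (f : T) (j i : Finset T) : Finset T :=
  i.filter (fun w => w ∈ Nb G S j ∧ ∃ y ∈ S, G.Adj w y ∧ y ≠ f ∧ ¬ G.Adj f y ∧ y ∉ j)

open scoped Classical in
/-- the vertices of `SS` adjacent to the vertex `w` and to the blob `j` -/
noncomputable def TT (G : SimpleGraph T) (S O : Finset T) (f w : T) (j : Finset T) : Finset T :=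
  (SS G S O f).filter (fun s => G.Adj w s ∧ s ∈ Nb G S j)

open scoped Classical in
/-- the blobs outside the link of `f` adjacent to the blob `i` -/
noncomputable def JJ (G : SimpleGraph T) (S O : Finset T) (f : T) (i : Finset T) :
    Finset (Finset T) :=
  (BO G S O f).filter (fun j => BAdj G j i)

open scoped Classical in
/-- number of components of the bipartite graph of `i` with a vertex in `i` adjacent to `j` -/
noncomputable def dg (G : SimpleGraph T) (S O : Finset T) (f : T) (j i : Finset T) : ℤ :=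
  (((CX G S O f i).filter (fun C => ((C ∩ i) ∩ Nb G S j).Nonempty)).card : ℤ)

end Pool.Agent.LibGal41

end

section

set_option linter.unusedSectionVars false

namespace Pool.Agent.LibGal41

open Finset Pool.Agent.LibFlagPL

variable {T : Type} [Fintype T] [DecidableEq T]

theorem mem_nb {G : SimpleGraph T} {S : Finset T} {y t : T} :
    t ∈ nb G S y ↔ t ∈ S ∧ G.Adj y t := by
  classical
  unfold nb
  simp

theorem mem_Nb {G : SimpleGraph T} {S A : Finset T} {x : T} :
    x ∈ Nb G S A ↔ x ∈ S ∧ x ∉ A ∧ ∃ a ∈ A, G.Adj a x := by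
  classical
  unfold Nb
  simp only [mem_filter, mem_sdiff, and_assoc]

theorem mem_SS {G : SimpleGraph T} {S O : Finset T} {f x : T} :
    x ∈ SS G S O f ↔ x ∈ Nb G S O ∧ x ≠ f ∧ x ∉ nb G S f := by
  unfold SS
  simp only [mem_sdiff, mem_insert, not_or]

theorem mem_FF {G : SimpleGraph T} {S O : Finset T} {f x : T} :
    x ∈ FF G S O f ↔ x ∈ Nb G S O ∧ x ∈ nb G S f := by
  unfold FF
  simp only [mem_inter]

theorem mem_Sx {G : SimpleGraph T} {S O : Finset T} {f : T} {i : Finset T} {x : T} :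
    x ∈ Sx G S O f i ↔ x ∈ SS G S O f ∧ ∃ w ∈ i, G.Adj w x := by
  classical
  unfold Sx
  simp only [mem_filter]

theorem mem_N0 {G : SimpleGraph T} {S : Finset T} {f : T} {j i : Finset T} {x : T} :
    x ∈ N0 G S f j i ↔ x ∈ Nb G (nb G S f) i ∧ x ∈ Nb G S j := by
  unfold N0
  simp only [mem_inter]

theorem mem_comp {H : SimpleGraph T} {A : Finset T} {x y : T} :
    y ∈ comp H A x ↔ y ∈ A ∧ Relation.ReflTransGen (fun a b => a ∈ A ∧ b ∈ A ∧ H.Adj a b) x y := by
  classical
  unfold comp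
  simp only [mem_filter]

theorem mem_comps {H : SimpleGraph T} {A C : Finset T} :
    C ∈ comps H A ↔ ∃ x ∈ A, comp H A x = C := by
  unfold comps
  simp only [mem_image]

theorem nb_sub {G : SimpleGraph T} {S : Finset T} {y : T} : nb G S y ⊆ S := by
  intro t ht
  exact (mem_nb.1 ht).1

theorem Nb_sub {G : SimpleGraph T} {S A : Finset T} : Nb G S A ⊆ S := by
  intro t ht
  exact (mem_Nb.1 ht).1

theorem Nb_not_mem {G : SimpleGraph T} {S A : Finset T} {x : T} (h : x ∈ Nb G S A) : x ∉ A :=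
  (mem_Nb.1 h).2.1

theorem bip_adj {G : SimpleGraph T} {A B : Finset T} {s t : T} :
    (bip G A B).Adj s t ↔ G.Adj s t ∧ ((s ∈ A ∧ t ∈ B) ∨ (s ∈ B ∧ t ∈ A)) := Iff.rfl

/-- the vertices outside the closed star -/
theorem mem_far {G : SimpleGraph T} {S : Finset T} {v x : T} :
    x ∈ S \ insert v (nb G S v) ↔ x ∈ S ∧ x ≠ v ∧ ¬ G.Adj v x := by
  simp only [mem_sdiff, mem_insert, mem_nb, not_or, not_and]
  constructor
  · rintro ⟨h1, h2, h3⟩
    exact ⟨h1, h2, h3 h1⟩
  · rintro ⟨h1, h2, h3⟩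
    exact ⟨h1, h2, fun _ => h3⟩

/-- vertices of the link of `w` outside the closed star of `f` -/
theorem mem_far_nb {G : SimpleGraph T} {S : Finset T} {w f x : T} :
    x ∈ nb G S w \ insert f (nb G (nb G S w) f) ↔
      x ∈ S ∧ G.Adj w x ∧ x ≠ f ∧ ¬ G.Adj f x := by
  rw [mem_far, mem_nb, and_assoc]

theorem mem_UU {G : SimpleGraph T} {S : Finset T} {f : T} {j i : Finset T} {w : T} :
    w ∈ UU G S f j i ↔ w ∈ i ∧ ∀ y ∈ S, G.Adj w y → y ≠ f → ¬ G.Adj f y → y ∈ j := by
  classical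
  unfold UU
  simp only [mem_filter]

theorem mem_XX {G : SimpleGraph T} {S : Finset T} {f : T} {j i : Finset T} {w : T} :
    w ∈ XX G S f j i ↔ w ∈ i ∧ w ∈ Nb G S j ∧
      ∃ y ∈ S, G.Adj w y ∧ y ≠ f ∧ ¬ G.Adj f y ∧ y ∉ j := by
  classical
  unfold XX
  simp only [mem_filter]

theorem mem_TT {G : SimpleGraph T} {S O : Finset T} {f w : T} {j : Finset T} {s : T} :
    s ∈ TT G S O f w j ↔ s ∈ SS G S O f ∧ G.Adj w s ∧ s ∈ Nb G S j := by
  classical
  unfold TT
  simp only [mem_filter]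

theorem mem_JJ {G : SimpleGraph T} {S O : Finset T} {f : T} {i j : Finset T} :
    j ∈ JJ G S O f i ↔ j ∈ BO G S O f ∧ BAdj G j i := by
  classical
  unfold JJ
  simp only [mem_filter]

end Pool.Agent.LibGal41

end

section

set_option linter.unusedSectionVars false
set_option linter.unusedVariables false

namespace Pool.Agent.LibGal41

open Finset Pool.Agent.LibFlagPL

variable {T : Type} [Fintype T] [DecidableEq T]

theorem ee_comm (G : SimpleGraph T) (A B : Finset T) : ee G A B = ee G B A := by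
  classical
  unfold ee nb
  simp only [card_filter, Nat.cast_sum]
  rw [sum_comm]
  refine sum_congr rfl fun b _ => sum_congr rfl fun a _ => ?_
  simp only [G.adj_comm]

theorem ee_union_left (G : SimpleGraph T) {A A' : Finset T} (B : Finset T) (h : Disjoint A A') :
    ee G (A ∪ A') B = ee G A B + ee G A' B := by
  unfold ee
  exact sum_union h

theorem ee_union_right (G : SimpleGraph T) (A : Finset T) {B B' : Finset T} (h : Disjoint B B') :
    ee G A (B ∪ B') = ee G A B + ee G A B' := by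
  rw [ee_comm G A, ee_union_left G A h, ee_comm G B, ee_comm G B']

end Pool.Agent.LibGal41

end

section

set_option linter.unusedSectionVars false
set_option linter.unusedVariables false

namespace Pool.Agent.LibGal41

open Finset Pool.Agent.LibFlagPL

variable {T : Type} [Fintype T] [DecidableEq T]

private theorem mem_nb2 {G : SimpleGraph T} {S : Finset T} {y x : T} : x ∈ nb G S y ↔ x ∈ S ∧ G.Adj y x := by
  unfold nb
  simp

theorem ee_zero {G : SimpleGraph T} {A B : Finset T} (h : ∀ a ∈ A, ∀ b ∈ B, ¬ G.Adj a b) :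
    ee G A B = 0 := by
  unfold ee
  refine Finset.sum_eq_zero fun a ha => ?_
  have : nb G B a = ∅ := by
    refine Finset.eq_empty_of_forall_notMem fun b hb => ?_
    obtain ⟨h1, h2⟩ := mem_nb2.1 hb
    exact h a ha b h1 h2
  rw [this]
  simp

theorem ee_nonneg (G : SimpleGraph T) (A B : Finset T) : 0 ≤ ee G A B := by
  unfold ee
  exact Finset.sum_nonneg fun a _ => Int.natCast_nonneg _

theorem ee_star {G : SimpleGraph T} {A : Finset T} {f : T} (h : ∀ a ∈ A, G.Adj a f) :
    ee G A {f} = (A.card : ℤ) := by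
  unfold ee
  have : ∀ a ∈ A, ((nb G {f} a).card : ℤ) = 1 := by
    intro a ha
    have h1 : nb G {f} a = {f} := by
      ext x
      rw [mem_nb2, Finset.mem_singleton]
      constructor
      · exact fun h2 => h2.1
      · rintro rfl
        exact ⟨rfl, h a ha⟩
    rw [h1]
    simp
  rw [Finset.sum_congr rfl this]
  simp

theorem ee_mono_right (G : SimpleGraph T) (A : Finset T) {B B' : Finset T} (h : B ⊆ B') :
    ee G A B ≤ ee G A B' := by
  unfold ee
  refine Finset.sum_le_sum fun a _ => ?_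
  have h1 : nb G B a ⊆ nb G B' a := by
    intro x hx
    obtain ⟨h2, h3⟩ := mem_nb2.1 hx
    exact mem_nb2.2 ⟨h h2, h3⟩
  exact_mod_cast Finset.card_le_card h1

theorem ee_biUnion_left (G : SimpleGraph T) {P : Finset (Finset T)}
    (hP : ∀ C ∈ P, ∀ C' ∈ P, C ≠ C' → Disjoint C C') (B : Finset T) :
    ee G (P.biUnion id) B = ∑ C ∈ P, ee G C B := by
  unfold ee
  exact Finset.sum_biUnion (f := fun a => ((nb G B a).card : ℤ)) (t := id) (fun C hC C' hC' hne => hP C hC C' hC' hne)

theorem ee_biUnion_right (G : SimpleGraph T) {P : Finset (Finset T)}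
    (hP : ∀ C ∈ P, ∀ C' ∈ P, C ≠ C' → Disjoint C C') (B : Finset T) :
    ee G B (P.biUnion id) = ∑ C ∈ P, ee G B C := by
  rw [ee_comm, ee_biUnion_left G hP B]
  exact Finset.sum_congr rfl fun C _ => ee_comm G C B

theorem ee_congr_right {G : SimpleGraph T} {A B B' : Finset T}
    (h : ∀ a ∈ A, ∀ b, G.Adj a b → (b ∈ B ↔ b ∈ B')) : ee G A B = ee G A B' := by
  unfold ee
  refine Finset.sum_congr rfl fun a ha => ?_
  have h1 : nb G B a = nb G B' a := by
    ext x
    rw [mem_nb2, mem_nb2]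
    constructor
    · rintro ⟨h2, h3⟩
      exact ⟨(h a ha x h3).1 h2, h3⟩
    · rintro ⟨h2, h3⟩
      exact ⟨(h a ha x h3).2 h2, h3⟩
  rw [h1]

end Pool.Agent.LibGal41

end

section

set_option linter.unusedSectionVars false
set_option linter.unusedVariables false

namespace Pool.Agent.LibGal41

open Finset Pool.Agent.LibFlagPL

variable {T : Type} [Fintype T] [DecidableEq T]

private theorem rel_symm {H : SimpleGraph T} {A : Finset T} {x y : T}
    (h : Relation.ReflTransGen (fun a b => a ∈ A ∧ b ∈ A ∧ H.Adj a b) x y) :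
    Relation.ReflTransGen (fun a b => a ∈ A ∧ b ∈ A ∧ H.Adj a b) y x := by
  induction h with
  | refl => exact Relation.ReflTransGen.refl
  | tail _ hbc ih =>
    exact Relation.ReflTransGen.head ⟨hbc.2.1, hbc.1, hbc.2.2.symm⟩ ih

private theorem rel_lift {H : SimpleGraph T} {A : Finset T} {x y : T} (hx : x ∈ A)
    (h : Relation.ReflTransGen (fun a b => a ∈ A ∧ b ∈ A ∧ H.Adj a b) x y) :
    y ∈ comp H A x ∧
      Relation.ReflTransGen (fun a b => a ∈ comp H A x ∧ b ∈ comp H A x ∧ H.Adj a b) x y := by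
  induction h with
  | refl => exact ⟨mem_comp.2 ⟨hx, Relation.ReflTransGen.refl⟩, Relation.ReflTransGen.refl⟩
  | tail hab hbc ih =>
    have hc := mem_comp.2 ⟨hbc.2.1, hab.tail hbc⟩
    exact ⟨hc, ih.2.tail ⟨ih.1, hc, hbc.2.2⟩⟩

private theorem comp_sub_of {H : SimpleGraph T} {A : Finset T} {x y z : T}
    (h : z ∈ comp H A x) (h' : z ∈ comp H A y) : comp H A x ⊆ comp H A y := by
  intro t ht
  rw [mem_comp] at h h' ht ⊢
  exact ⟨ht.1, (h'.2.trans (rel_symm h.2)).trans ht.2⟩

theorem comps_sub {H : SimpleGraph T} {A C : Finset T} (h : C ∈ comps H A) : C ⊆ A := by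
  obtain ⟨x, hx, rfl⟩ := mem_comps.1 h
  intro y hy
  exact (mem_comp.1 hy).1

theorem comps_conn {H : SimpleGraph T} {A C : Finset T} (h : C ∈ comps H A) : Conn H C := by
  obtain ⟨x, hx, rfl⟩ := mem_comps.1 h
  refine ⟨⟨x, mem_comp.2 ⟨hx, Relation.ReflTransGen.refl⟩⟩, ?_⟩
  intro y hy z hz
  have h1 := (rel_lift hx (mem_comp.1 hy).2).2
  have h2 := (rel_lift hx (mem_comp.1 hz).2).2
  exact (rel_symm h1).trans h2

theorem comps_closed {H : SimpleGraph T} {A C : Finset T} (h : C ∈ comps H A) {x y : T}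
    (hx : x ∈ C) (hy : y ∈ A) (hxy : H.Adj x y) : y ∈ C := by
  obtain ⟨x0, hx0, rfl⟩ := mem_comps.1 h
  rw [mem_comp] at hx ⊢
  exact ⟨hy, hx.2.tail ⟨hx.1, hy, hxy⟩⟩

theorem comps_cover {H : SimpleGraph T} {A : Finset T} {x : T} (hx : x ∈ A) :
    ∃ C ∈ comps H A, x ∈ C := by
  exact ⟨comp H A x, mem_comps.2 ⟨x, hx, rfl⟩, mem_comp.2 ⟨hx, Relation.ReflTransGen.refl⟩⟩

theorem comps_disj {H : SimpleGraph T} {A C C' : Finset T} (h : C ∈ comps H A)
    (h' : C' ∈ comps H A) (hne : C ≠ C') : Disjoint C C' := by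
  obtain ⟨x, hx, rfl⟩ := mem_comps.1 h
  obtain ⟨y, hy, rfl⟩ := mem_comps.1 h'
  rw [Finset.disjoint_left]
  intro z hz hz'
  exact hne (Finset.Subset.antisymm (comp_sub_of hz hz') (comp_sub_of hz' hz))

end Pool.Agent.LibGal41

end

section

set_option linter.unusedSectionVars false
set_option linter.unusedVariables false

namespace Pool.Agent.LibGal41

open Finset Pool.Agent.LibFlagPL

variable {T : Type} [Fintype T] [DecidableEq T]

theorem comps_nonadj {H : SimpleGraph T} {A C C' : Finset T} (h : C ∈ comps H A)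
    (h' : C' ∈ comps H A) (hne : C ≠ C') {a b : T} (ha : a ∈ C) (hb : b ∈ C') :
    ¬ H.Adj a b := by
  intro hab
  have hbC : b ∈ C := comps_closed h ha (comps_sub h' hb) hab
  exact (Finset.disjoint_left.1 (comps_disj h h' hne)) hbC hb

theorem comps_biUnion (H : SimpleGraph T) (A : Finset T) : (comps H A).biUnion id = A := by
  ext x
  simp only [mem_biUnion, id]
  constructor
  · rintro ⟨C, hC, hx⟩
    exact comps_sub hC hx
  · intro hx
    exact comps_cover hx

theorem comps_sum (H : SimpleGraph T) (A : Finset T) (g : T → ℤ) :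
    ∑ C ∈ comps H A, ∑ x ∈ C, g x = ∑ x ∈ A, g x := by
  conv_rhs => rw [← comps_biUnion H A]
  rw [sum_biUnion]
  · rfl
  · intro C hC C' hC' hne
    exact comps_disj hC hC' hne

theorem comps_card (H : SimpleGraph T) (A : Finset T) :
    ∑ C ∈ comps H A, (C.card : ℤ) = (A.card : ℤ) := by
  have h := comps_sum H A (fun _ => (1 : ℤ))
  simpa using h

theorem comps_card_inter (H : SimpleGraph T) (A B : Finset T) :
    ∑ C ∈ comps H A, ((C ∩ B).card : ℤ) = ((A ∩ B).card : ℤ) := by
  have h := comps_sum H A (fun x => if x ∈ B then (1 : ℤ) else 0)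
  simp only [sum_ite_mem, sum_const, mul_one, nsmul_eq_mul] at h
  exact h

end Pool.Agent.LibGal41

end

section

set_option linter.unusedSectionVars false
set_option linter.unusedVariables false

namespace Pool.Agent.LibGal41

open Finset Pool.Agent.LibFlagPL

variable {T : Type} [Fintype T] [DecidableEq T]

theorem sum_inc2 {G : SimpleGraph T} {S A : Finset T} (hA : A ⊆ S) :
    ∑ C ∈ comps G A, inc2 G S C = inc2 G S A := by
  have hP : ∀ C ∈ comps G A, ∀ C' ∈ comps G A, C ≠ C' → Disjoint C C' :=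
    fun C hC C' hC' hne => comps_disj hC hC' hne
  have h1 : ee G A A = ∑ C ∈ comps G A, ee G C C := by
    have h := ee_biUnion_left G hP A
    rw [comps_biUnion] at h
    rw [h]
    refine Finset.sum_congr rfl fun C hC => ee_congr_right fun a ha b hab => ?_
    exact ⟨fun hb => comps_closed hC ha hb hab, fun hb => comps_sub hC hb⟩
  have h2 : ee G A (S \ A) = ∑ C ∈ comps G A, ee G C (S \ C) := by
    have h := ee_biUnion_left G hP (S \ A)
    rw [comps_biUnion] at h
    rw [h]
    refine Finset.sum_congr rfl fun C hC => ee_congr_right fun a ha b hab => ?_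
    rw [mem_sdiff, mem_sdiff]
    constructor
    · rintro ⟨hb, hb2⟩
      exact ⟨hb, fun hb3 => hb2 (comps_sub hC hb3)⟩
    · rintro ⟨hb, hb2⟩
      exact ⟨hb, fun hb3 => hb2 (comps_closed hC ha hb3 hab)⟩
  unfold inc2
  rw [h1, h2, Finset.sum_add_distrib, Finset.mul_sum]

end Pool.Agent.LibGal41

end

section

set_option linter.unusedSectionVars false

namespace Pool.Agent.LibGal41

open Finset Pool.Agent.LibFlagPL

variable {T : Type} [Fintype T] [DecidableEq T]

theorem not_mem_nb_self {G : SimpleGraph T} {S : Finset T} {y : T} : y ∉ nb G S y :=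
  fun h => (mem_nb.1 h).2.ne rfl

theorem nb_nb {G : SimpleGraph T} {S : Finset T} {w f : T} :
    nb G (nb G S w) f = nb G S w ∩ nb G S f := by
  ext x
  simp only [mem_inter, mem_nb]
  tauto

/-- a connected graph has an edge leaving every proper nonempty subset -/
theorem conn_cut' {G : SimpleGraph T} {S : Finset T} (h : Conn G S) {A : Finset T} (hA : A ⊆ S)
    (hne : A.Nonempty) (hb : ∃ b ∈ S, b ∉ A) : ∃ a ∈ A, ∃ b ∈ S, b ∉ A ∧ G.Adj a b := by
  obtain ⟨x, hx⟩ := hne
  obtain ⟨y, hy, hyA⟩ := hb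
  by_contra hcon
  push Not at hcon
  have key : ∀ z, Relation.ReflTransGen (fun a b => a ∈ S ∧ b ∈ S ∧ G.Adj a b) x z → z ∈ A := by
    intro z hz
    induction hz with
    | refl => exact hx
    | tail _ hbc ih =>
      by_contra hc
      exact hcon _ ih _ hbc.2.1 hc hbc.2.2
  exact hyA (key y (h.2 x (hA hx) y hy))

/-- the converse -/
theorem conn_of_cut {G : SimpleGraph T} {S : Finset T} (hS : S.Nonempty)
    (h : ∀ A ⊆ S, A.Nonempty → (∃ b ∈ S, b ∉ A) → ∃ a ∈ A, ∃ b ∈ S, b ∉ A ∧ G.Adj a b) :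
    Conn G S := by
  classical
  refine ⟨hS, fun x hx y hy => ?_⟩
  by_contra hcon
  obtain ⟨a, ha, b, hb, hbA, hab⟩ := h
    (S.filter (fun z => Relation.ReflTransGen (fun a b => a ∈ S ∧ b ∈ S ∧ G.Adj a b) x z))
    (filter_subset _ _) ⟨x, mem_filter.2 ⟨hx, Relation.ReflTransGen.refl⟩⟩
    ⟨y, hy, fun hy' => hcon (mem_filter.1 hy').2⟩
  rw [mem_filter] at ha
  exact hbA (mem_filter.2 ⟨hb, ha.2.tail ⟨ha.1, hb, hab⟩⟩)

theorem conn_singleton {G : SimpleGraph T} (x : T) : Conn G {x} := by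
  refine ⟨⟨x, mem_singleton_self x⟩, fun a ha b hb => ?_⟩
  rw [mem_singleton] at ha hb
  subst ha
  subst hb
  exact Relation.ReflTransGen.refl

/-- a connected set covered by two sets without edges between them lies in one of them -/
theorem conn_two {G : SimpleGraph T} {S P Q : Finset T} (h : Conn G S)
    (hc : ∀ x ∈ S, x ∈ P ∨ x ∈ Q) (hn : ∀ p ∈ P, ∀ q ∈ Q, q ∉ P → ¬ G.Adj p q) :
    S ⊆ P ∨ S ⊆ Q := by
  by_cases h1 : ∃ x ∈ S, x ∈ P
  · by_cases h2 : ∃ y ∈ S, y ∉ P
    · obtain ⟨x, hx, hxP⟩ := h1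
      obtain ⟨y, hy, hyP⟩ := h2
      obtain ⟨a, ha, b, hb, hbA, hab⟩ := conn_cut' h (A := S ∩ P) inter_subset_left
        ⟨x, mem_inter.2 ⟨hx, hxP⟩⟩ ⟨y, hy, fun h' => hyP (mem_inter.1 h').2⟩
      have hbP : b ∉ P := fun h' => hbA (mem_inter.2 ⟨hb, h'⟩)
      have hbQ : b ∈ Q := (hc b hb).resolve_left hbP
      exact absurd hab (hn a (mem_inter.1 ha).2 b hbQ hbP)
    · push Not at h2
      exact Or.inl h2
  · push Not at h1
    exact Or.inr fun x hx => (hc x hx).resolve_left (h1 x hx)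

theorem Sd.conn {G : SimpleGraph T} {m : ℕ} {S : Finset T} (h : Sd G (m + 1) S) : Conn G S := h.1

theorem Sd.link {G : SimpleGraph T} {m : ℕ} {S : Finset T} (h : Sd G (m + 1) S) {v : T}
    (hv : v ∈ S) : Sd G m (nb G S v) := (h.2 v hv).1

theorem Sd.ext {G : SimpleGraph T} {m : ℕ} {S : Finset T} (h : Sd G (m + 1) S) {v : T}
    (hv : v ∈ S) : Conn G (S \ insert v (nb G S v)) := (h.2 v hv).2

theorem Sd.nonempty {G : SimpleGraph T} {m : ℕ} {S : Finset T} (h : Sd G m S) : S.Nonempty := by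
  cases m with
  | zero =>
    rw [← Finset.card_pos]
    have := h.1
    omega
  | succ m => exact h.1.1

/-- `(F3)`: for an edge `w f` the neighbours of `w` outside the closed star of `f` induce a
connected nonempty graph -/
theorem Sd.F3 {G : SimpleGraph T} {m : ℕ} {S : Finset T} (h : Sd G (m + 1) S) {w f : T}
    (hw : w ∈ S) (hf : f ∈ nb G S w) : Conn G (nb G S w \ insert f (nb G S f)) := by
  have hK := h.link hw
  cases m with
  | zero =>
    obtain ⟨hc, hn⟩ := hK
    rw [Finset.card_eq_two] at hc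
    obtain ⟨a, b, hab, hS⟩ := hc
    have key : ∀ x y : T, x ≠ y → nb G S w = {x, y} → f = x →
        Conn G (nb G S w \ insert f (nb G S f)) := by
      intro x y hxy hS' hfx
      subst hfx
      have : nb G S w \ insert f (nb G S f) = {y} := by
        ext z
        rw [hS']
        simp only [mem_sdiff, mem_insert, mem_singleton, mem_nb, not_or, not_and]
        constructor
        · rintro ⟨hz1 | hz1, hz2, _⟩
          · exact absurd hz1 hz2
          · exact hz1
        · rintro rfl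
          refine ⟨Or.inr rfl, hxy.symm, fun _ => ?_⟩
          exact hn f (by rw [hS']; simp) z (by rw [hS']; simp)
      rw [this]
      exact conn_singleton y
    have hf' := hf
    rw [hS, mem_insert, mem_singleton] at hf'
    rcases hf' with hfa | hfb
    · exact key a b hab hS hfa
    · exact key b a hab.symm (by rw [hS, Finset.pair_comm]) hfb
  | succ m =>
    have := hK.ext hf
    have heq : nb G S w \ insert f (nb G (nb G S w) f) = nb G S w \ insert f (nb G S f) := by
      ext z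
      simp only [mem_sdiff, mem_insert, nb_nb, mem_inter, not_or, not_and]
      tauto
    rwa [heq] at this

/-- `(F3b)`: a triangle `w x f` in a complex of dimension at least two: `w` and `x` have a common
neighbour outside the closed star of `f` -/
theorem Sd.F3b {G : SimpleGraph T} {m : ℕ} {S : Finset T} (h : Sd G (m + 2) S) {w x f : T}
    (hw : w ∈ S) (hx : x ∈ nb G S w) (hf : f ∈ nb G S w) (hxf : G.Adj x f) :
    ∃ y ∈ S, G.Adj w y ∧ G.Adj x y ∧ y ≠ f ∧ ¬ G.Adj f y := by
  have hK : Sd G (m + 1) (nb G S w) := h.link hw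
  have hfx : f ∈ nb G (nb G S w) x := mem_nb.2 ⟨hf, hxf⟩
  obtain ⟨y, hy⟩ := (hK.F3 hx hfx).1
  simp only [mem_sdiff, mem_insert, mem_nb, not_or, not_and] at hy
  exact ⟨y, hy.1.1.1, hy.1.1.2, hy.1.2, hy.2.1, fun hfy => hy.2.2 hy.1.1 hfy⟩

/-- `(F2)`, first form: a nonempty set `U` whose closed neighbourhood is not everything has at
least `2 m` neighbours -/
theorem Sd.sepU {G : SimpleGraph T} {m : ℕ} {S : Finset T} (h : Sd G m S) {U : Finset T}
    (hU : U ⊆ S) (hne : U.Nonempty) (hq : ∃ q ∈ S, q ∉ U ∧ q ∉ Nb G S U) :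
    2 * m ≤ (Nb G S U).card := by
  induction m generalizing S U with
  | zero => simp
  | succ m ih =>
    -- the rest
    set Q : Finset T := S.filter (fun q => q ∉ U ∧ q ∉ Nb G S U) with hQ
    have hQmem : ∀ q, q ∈ Q ↔ q ∈ S ∧ q ∉ U ∧ q ∉ Nb G S U := by
      intro q
      rw [hQ, mem_filter]
    obtain ⟨q0, hq0S, hq0U, hq0N⟩ := hq
    have hQne : Q.Nonempty := ⟨q0, (hQmem q0).2 ⟨hq0S, hq0U, hq0N⟩⟩
    obtain ⟨u0, hu0⟩ := hne
    -- no edges between `U` and `Q`
    have hno : ∀ u ∈ U, ∀ q ∈ Q, ¬ G.Adj u q := by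
      intro u hu q hq hadj
      have hq' := (hQmem q).1 hq
      exact hq'.2.2 (mem_Nb.2 ⟨hq'.1, hq'.2.1, u, hu, hadj⟩)
    obtain ⟨q, hqQ, a, haS, haQ, hqa⟩ := conn_cut' h.conn (A := Q)
      (fun x hx => ((hQmem x).1 hx).1) hQne
      ⟨u0, hU hu0, fun h' => ((hQmem u0).1 h').2.1 hu0⟩
    have haU : a ∉ U := fun h' => hno a h' q hqQ hqa.symm
    have haN : a ∈ Nb G S U := by
      by_contra h'
      exact haQ ((hQmem a).2 ⟨haS, haU, h'⟩)
    obtain ⟨_, _, u, huU, hua⟩ := mem_Nb.1 haN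
    have hqS : q ∈ S := ((hQmem q).1 hqQ).1
    -- the bound in the link of `a`
    have hK : Sd G m (nb G S a) := h.link haS
    have hsub : Nb G (nb G S a) (U ∩ nb G S a) ⊆ (Nb G S U).erase a := by
      intro x hx
      obtain ⟨hx1, hx2, w, hw, hwx⟩ := mem_Nb.1 hx
      have hxa : x ≠ a := fun h' => (mem_nb.1 hx1).2.ne h'.symm
      refine mem_erase.2 ⟨hxa, mem_Nb.2 ⟨(mem_nb.1 hx1).1, fun h' => hx2 (mem_inter.2 ⟨h', hx1⟩),
        w, (mem_inter.1 hw).1, hwx⟩⟩
    have hstep : 2 * m ≤ (Nb G (nb G S a) (U ∩ nb G S a)).card := by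
      refine ih hK inter_subset_right ⟨u, mem_inter.2 ⟨huU, mem_nb.2 ⟨hU huU, hua.symm⟩⟩⟩
        ⟨q, mem_nb.2 ⟨hqS, hqa.symm⟩, ?_, ?_⟩
      · exact fun h' => ((hQmem q).1 hqQ).2.1 (mem_inter.1 h').1
      · intro h'
        have := hsub h'
        exact ((hQmem q).1 hqQ).2.2 (mem_erase.1 this).2
    -- one more vertex
    have hex : ∃ b ∈ Nb G S U, b ≠ a ∧ ¬ G.Adj a b := by
      by_contra hcon
      push Not at hcon
      have hcov : ∀ x ∈ S \ insert a (nb G S a), x ∈ U ∨ x ∈ Q := by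
        intro x hx
        simp only [mem_sdiff, mem_insert, mem_nb, not_or, not_and] at hx
        by_cases hxU : x ∈ U
        · exact Or.inl hxU
        · refine Or.inr ((hQmem x).2 ⟨hx.1, hxU, fun h' => ?_⟩)
          exact hx.2.2 hx.1 (hcon x h' hx.2.1)
      rcases conn_two (h.ext haS) hcov (fun p hp q hq _ => hno p hp q hq) with hin | hin
      · -- `Q` lies in the link of `a`
        have hqN : q ∈ nb G S a := mem_nb.2 ⟨hqS, hqa.symm⟩
        obtain ⟨y, hy⟩ := (h.F3 hqS (mem_nb.2 ⟨haS, hqa⟩)).1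
        simp only [mem_sdiff, mem_insert, mem_nb, not_or, not_and] at hy
        have hyU : y ∈ U := hin (by
          simp only [mem_sdiff, mem_insert, mem_nb, not_or, not_and]
          exact ⟨hy.1.1, hy.2.1, hy.2.2⟩)
        exact hno y hyU q hqQ hy.1.2.symm
      · obtain ⟨y, hy⟩ := (h.F3 (hU huU) (mem_nb.2 ⟨haS, hua⟩)).1
        simp only [mem_sdiff, mem_insert, mem_nb, not_or, not_and] at hy
        have hyQ : y ∈ Q := hin (by
          simp only [mem_sdiff, mem_insert, mem_nb, not_or, not_and]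
          exact ⟨hy.1.1, hy.2.1, hy.2.2⟩)
        exact hno u huU y hyQ hy.1.2
    obtain ⟨b, hbN, hba, hab⟩ := hex
    have hsub2 : Nb G (nb G S a) (U ∩ nb G S a) ⊆ ((Nb G S U).erase a).erase b := by
      intro x hx
      refine mem_erase.2 ⟨fun h' => ?_, hsub hx⟩
      subst h'
      exact hab (mem_nb.1 (mem_Nb.1 hx).1).2
    have hc1 := Finset.card_le_card hsub2
    have hbe : b ∈ (Nb G S U).erase a := mem_erase.2 ⟨hba, hbN⟩
    have hc2 := Finset.card_erase_of_mem hbe
    have hc3 := Finset.card_erase_of_mem haN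
    have hc4 : 0 < ((Nb G S U).erase a).card := Finset.card_pos.2 ⟨b, hbe⟩
    have hc5 : 0 < (Nb G S U).card := Finset.card_pos.2 ⟨a, haN⟩
    omega

/-- `(F2)`, second form: a separator has at least `2 m` elements -/
theorem Sd.sep {G : SimpleGraph T} {m : ℕ} {S : Finset T} (h : Sd G m S) {A P Q : Finset T}
    (hPS : P ⊆ S) (hP : P.Nonempty) (hQ : ∃ q ∈ Q, q ∈ S ∧ q ∉ P ∧ q ∉ A)
    (hc : ∀ x ∈ S, x ∈ A ∨ x ∈ P ∨ x ∈ Q) (hn : ∀ p ∈ P, ∀ q ∈ Q, ¬ G.Adj p q) :
    2 * m ≤ A.card := by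
  have hsub : Nb G S P ⊆ A := by
    intro x hx
    obtain ⟨hx1, hx2, p, hp, hpx⟩ := mem_Nb.1 hx
    rcases hc x hx1 with h1 | h1 | h1
    · exact h1
    · exact absurd h1 hx2
    · exact absurd hpx (hn p hp x h1)
  obtain ⟨q, hqQ, hqS, hqP, hqA⟩ := hQ
  exact (h.sepU hPS hP ⟨q, hqS, hqP, fun h' => hqA (hsub h')⟩).trans (Finset.card_le_card hsub)

end Pool.Agent.LibGal41

end

section

set_option linter.unusedSectionVars false

namespace Pool.Agent.LibGal41

open Finset Pool.Agent.LibFlagPL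

variable {T : Type} [Fintype T] [DecidableEq T]

/-- handshake lemma for the induced graph on `A` -/
theorem even_deg_sum (G : SimpleGraph T) (A : Finset T) : Even (∑ a ∈ A, (nb G A a).card) := by
  classical
  have h1 : ∑ a ∈ A, (nb G A a).card = ((A ×ˢ A).filter (fun p => G.Adj p.1 p.2)).card := by
    rw [Finset.card_filter, Finset.sum_product]
    refine Finset.sum_congr rfl fun a _ => ?_
    unfold nb
    rw [Finset.card_filter]
  rw [h1]
  set P := (A ×ˢ A).filter (fun p : T × T => G.Adj p.1 p.2) with hP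
  have h2 : ∑ p ∈ P, (1 : ZMod 2) = 0 := by
    refine Finset.sum_involution (fun p _ => p.swap) ?_ ?_ ?_ ?_
    · intro p _
      decide
    · intro p hp _ heq
      rw [hP, mem_filter] at hp
      have : p.2 = p.1 := congrArg Prod.fst heq
      exact hp.2.ne this.symm
    · intro p hp
      rw [hP, mem_filter, mem_product] at hp ⊢
      exact ⟨⟨hp.1.2, hp.1.1⟩, hp.2.symm⟩
    · intro p _
      exact Prod.swap_swap p
  rw [Finset.sum_const, nsmul_eq_mul, mul_one] at h2
  rw [← ZMod.natCast_eq_zero_iff_even]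
  exact h2

/-- induction step in dimension at least two -/
theorem ext_step {G : SimpleGraph T} {m : ℕ} {S : Finset T} (hS : Conn G S)
    (hl : ∀ v ∈ S, Sd G (m + 1) (nb G S v)) {v : T} (hv : v ∈ S) :
    Conn G (S \ insert v (nb G S v)) := by
  -- the pieces
  have hU : ∀ x ∈ nb G S v, Conn G (nb G S x \ insert v (nb G S v)) := by
    intro x hx
    have hxS : x ∈ S := (mem_nb.1 hx).1
    have hvx : v ∈ nb G S x := mem_nb.2 ⟨hv, (mem_nb.1 hx).2.symm⟩
    have := (hl x hxS).ext hvx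
    have heq : nb G S x \ insert v (nb G (nb G S x) v) = nb G S x \ insert v (nb G S v) := by
      ext z
      simp only [mem_sdiff, mem_insert, nb_nb, mem_inter, not_or, not_and]
      tauto
    rwa [heq] at this
  have hUS : ∀ x, nb G S x \ insert v (nb G S v) ⊆ S \ insert v (nb G S v) := by
    intro x z hz
    rw [mem_sdiff] at hz ⊢
    exact ⟨nb_sub hz.1, hz.2⟩
  have hmeet : ∀ x ∈ nb G S v, ∀ x' ∈ nb G S v, G.Adj x x' →
      ∃ y ∈ nb G S x \ insert v (nb G S v), y ∈ nb G S x' \ insert v (nb G S v) := by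
    intro x hx x' hx' hxx
    have hxS : x ∈ S := (mem_nb.1 hx).1
    have hvx : v ∈ nb G S x := mem_nb.2 ⟨hv, (mem_nb.1 hx).2.symm⟩
    have hx'x : x' ∈ nb G S x := mem_nb.2 ⟨(mem_nb.1 hx').1, hxx⟩
    have hvv : v ∈ nb G (nb G S x) x' := mem_nb.2 ⟨hvx, (mem_nb.1 hx').2.symm⟩
    obtain ⟨y, hy⟩ := ((hl x hxS).F3 hx'x hvv).1
    simp only [mem_sdiff, mem_insert, nb_nb, mem_inter, mem_nb, not_or, not_and] at hy ⊢
    refine ⟨y, ⟨hy.1.1, hy.2.1, fun h1 h2 => hy.2.2 hy.1.1 h1 h2⟩,
      ⟨hy.1.2, hy.2.1, fun h1 h2 => hy.2.2 hy.1.1 h1 h2⟩⟩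
  have hNv : Conn G (nb G S v) := (hl v hv).conn
  obtain ⟨x0, hx0⟩ := hNv.1
  refine conn_of_cut ?_ ?_
  · obtain ⟨y, hy⟩ := (hU x0 hx0).1
    exact ⟨y, hUS x0 hy⟩
  · intro A hA hAne hB
    by_contra hcon
    push Not at hcon
    -- `hcon : ∀ a ∈ A, ∀ b ∈ S \ N[v], b ∉ A → ¬ G.Adj a b`
    have hsplit : ∀ x ∈ nb G S v, nb G S x \ insert v (nb G S v) ⊆ A ∨
        nb G S x \ insert v (nb G S v) ⊆ (S \ insert v (nb G S v)) \ A := by
      intro x hx
      refine conn_two (hU x hx) ?_ ?_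
      · intro z hz
        by_cases h : z ∈ A
        · exact Or.inl h
        · exact Or.inr (mem_sdiff.2 ⟨hUS x hz, h⟩)
      · intro p hp q hq hqA
        exact hcon p hp q (mem_sdiff.1 hq).1 hqA
    have hall : (∀ x ∈ nb G S v, nb G S x \ insert v (nb G S v) ⊆ A) ∨
        (∀ x ∈ nb G S v, nb G S x \ insert v (nb G S v) ⊆ (S \ insert v (nb G S v)) \ A) := by
      classical
      by_cases h1 : ∀ x ∈ nb G S v, nb G S x \ insert v (nb G S v) ⊆ A
      · exact Or.inl h1
      · right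
        by_contra h2
        push Not at h1 h2
        obtain ⟨x1, hx1, hx1A⟩ := h1
        obtain ⟨x2, hx2, hx2B⟩ := h2
        have hx2A : nb G S x2 \ insert v (nb G S v) ⊆ A := (hsplit x2 hx2).resolve_right hx2B
        obtain ⟨a, ha, b, hb, hbA, hab⟩ := conn_cut' hNv
          (A := (nb G S v).filter (fun x => nb G S x \ insert v (nb G S v) ⊆ A))
          (filter_subset _ _) ⟨x2, mem_filter.2 ⟨hx2, hx2A⟩⟩
          ⟨x1, hx1, fun h => hx1A (mem_filter.1 h).2⟩
        rw [mem_filter] at ha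
        have hbB : nb G S b \ insert v (nb G S v) ⊆ (S \ insert v (nb G S v)) \ A :=
          (hsplit b hb).resolve_left fun h => hbA (mem_filter.2 ⟨hb, h⟩)
        obtain ⟨y, hy1, hy2⟩ := hmeet a ha.1 b hb hab
        exact (mem_sdiff.1 (hbB hy2)).2 (ha.2 hy1)
    -- a part without neighbours in the link of `v` is closed
    have hend : ∀ B : Finset T, B ⊆ S \ insert v (nb G S v) → B.Nonempty →
        (∀ x ∈ nb G S v, ∀ z ∈ B, z ∉ nb G S x \ insert v (nb G S v)) →
        (∀ b ∈ B, ∀ c ∈ S \ insert v (nb G S v), c ∉ B → ¬ G.Adj b c) → False := by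
      intro B hBS hBne hBx hBn
      obtain ⟨b, hb, c, hcS, hcB, hbc⟩ := conn_cut' hS (A := B)
        (fun z hz => (mem_sdiff.1 (hBS hz)).1) hBne
        ⟨v, hv, fun h => (mem_sdiff.1 (hBS h)).2 (mem_insert_self _ _)⟩
      have hbS := mem_sdiff.1 (hBS hb)
      by_cases hc : c ∈ insert v (nb G S v)
      · rcases mem_insert.1 hc with hcv | hcv
        · subst hcv
          exact hbS.2 (mem_insert_of_mem (mem_nb.2 ⟨hbS.1, hbc.symm⟩))
        · exact hBx c hcv b hb (mem_sdiff.2 ⟨mem_nb.2 ⟨hbS.1, hbc.symm⟩, hbS.2⟩)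
      · exact hBn b hb c (mem_sdiff.2 ⟨hcS, hc⟩) hcB hbc
    obtain ⟨b0, hb0, hb0A⟩ := hB
    rcases hall with h | h
    · refine hend ((S \ insert v (nb G S v)) \ A) (fun z hz => (mem_sdiff.1 hz).1)
        ⟨b0, mem_sdiff.2 ⟨hb0, hb0A⟩⟩ ?_ ?_
      · intro x hx z hz hz'
        exact (mem_sdiff.1 hz).2 (h x hx hz')
      · intro b hb c hc hcB hbc
        have hcA : c ∈ A := by
          by_contra h'
          exact hcB (mem_sdiff.2 ⟨hc, h'⟩)
        exact hcon c hcA b (mem_sdiff.1 hb).1 (mem_sdiff.1 hb).2 hbc.symm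
    · refine hend A hA hAne ?_ ?_
      · intro x hx z hz hz'
        exact (mem_sdiff.1 (h x hx hz')).2 hz
      · intro b hb c hc hcA hbc
        exact hcon b hb c hc hcA hbc

/-- induction step in dimension one -/
theorem ext_one {G : SimpleGraph T} {S : Finset T} (hS : Conn G S)
    (hl : ∀ v ∈ S, Sd G 0 (nb G S v)) {v : T} (hv : v ∈ S) :
    Conn G (S \ insert v (nb G S v)) := by
  classical
  have hcard : ∀ x ∈ S, (nb G S x).card = 2 := fun x hx => (hl x hx).1
  have htri : ∀ x ∈ S, ∀ a ∈ nb G S x, ∀ b ∈ nb G S x, ¬ G.Adj a b := fun x hx => (hl x hx).2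
  -- every neighbour of `v` has exactly one neighbour outside the closed star of `v`
  have hone : ∀ x ∈ nb G S v, ∃ y, nb G S x \ insert v (nb G S v) = {y} := by
    intro x hx
    have hxS : x ∈ S := (mem_nb.1 hx).1
    have hvx : v ∈ nb G S x := mem_nb.2 ⟨hv, (mem_nb.1 hx).2.symm⟩
    have h1 : nb G S x \ insert v (nb G S v) = (nb G S x).erase v := by
      ext z
      simp only [mem_sdiff, mem_insert, mem_erase, not_or]
      constructor
      · rintro ⟨h1, h2, _⟩
        exact ⟨h2, h1⟩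
      · rintro ⟨h1, h2⟩
        refine ⟨h2, h1, fun h3 => ?_⟩
        exact htri v hv x hx z h3 (mem_nb.1 h2).2
    rw [h1]
    rw [← Finset.card_eq_one, Finset.card_erase_of_mem hvx, hcard x hxS]
  obtain ⟨x0, hx0⟩ : (nb G S v).Nonempty := by
    rw [← Finset.card_pos, hcard v hv]
    norm_num
  refine conn_of_cut ?_ ?_
  · obtain ⟨y, hy⟩ := hone x0 hx0
    have : y ∈ nb G S x0 \ insert v (nb G S v) := by
      rw [hy]
      exact mem_singleton_self y
    rw [mem_sdiff] at this
    exact ⟨y, mem_sdiff.2 ⟨nb_sub this.1, this.2⟩⟩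
  · intro A hA hAne hB
    by_contra hcon
    push Not at hcon
    obtain ⟨b0, hb0, hb0A⟩ := hB
    -- a closed part `B` meets a piece of a neighbour of `v`
    have hend : ∀ B : Finset T, B ⊆ S \ insert v (nb G S v) → B.Nonempty →
        (∀ b ∈ B, ∀ c ∈ S \ insert v (nb G S v), c ∉ B → ¬ G.Adj b c) →
        ∃ x ∈ nb G S v, ∃ z ∈ B, G.Adj x z := by
      intro B hBS hBne hBn
      obtain ⟨b, hb, c, hcS, hcB, hbc⟩ := conn_cut' hS (A := B)
        (fun z hz => (mem_sdiff.1 (hBS hz)).1) hBne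
        ⟨v, hv, fun h => (mem_sdiff.1 (hBS h)).2 (mem_insert_self _ _)⟩
      have hbS := mem_sdiff.1 (hBS hb)
      by_cases hc : c ∈ insert v (nb G S v)
      · rcases mem_insert.1 hc with hcv | hcv
        · subst hcv
          exact absurd (mem_insert_of_mem (mem_nb.2 ⟨hbS.1, hbc.symm⟩)) hbS.2
        · exact ⟨c, hcv, b, hb, hbc.symm⟩
      · exact absurd hbc (hBn b hb c (mem_sdiff.2 ⟨hcS, hc⟩) hcB)
    obtain ⟨x1, hx1, z1, hz1, hxz1⟩ := hend A hA hAne (fun b hb c hc hcA => hcon b hb c hc hcA)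
    obtain ⟨x2, hx2, z2, hz2, hxz2⟩ := hend ((S \ insert v (nb G S v)) \ A)
      (fun z hz => (mem_sdiff.1 hz).1) ⟨b0, mem_sdiff.2 ⟨hb0, hb0A⟩⟩ (by
        intro b hb c hc hcB hbc
        have hcA : c ∈ A := by
          by_contra h'
          exact hcB (mem_sdiff.2 ⟨hc, h'⟩)
        exact hcon c hcA b (mem_sdiff.1 hb).1 (mem_sdiff.1 hb).2 hbc.symm)
    have hz2' := mem_sdiff.1 hz2
    have hz1S := mem_sdiff.1 (hA hz1)
    have hz2S := mem_sdiff.1 hz2'.1
    -- the two pieces
    have hp1 : ∀ z ∈ S \ insert v (nb G S v), G.Adj x1 z → z = z1 := by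
      intro z hz hadj
      obtain ⟨y, hy⟩ := hone x1 hx1
      have e1 : z1 ∈ nb G S x1 \ insert v (nb G S v) :=
        mem_sdiff.2 ⟨mem_nb.2 ⟨hz1S.1, hxz1⟩, hz1S.2⟩
      have e2 : z ∈ nb G S x1 \ insert v (nb G S v) :=
        mem_sdiff.2 ⟨mem_nb.2 ⟨(mem_sdiff.1 hz).1, hadj⟩, (mem_sdiff.1 hz).2⟩
      rw [hy, mem_singleton] at e1 e2
      rw [e1, e2]
    have hp2 : ∀ z ∈ S \ insert v (nb G S v), G.Adj x2 z → z = z2 := by
      intro z hz hadj
      obtain ⟨y, hy⟩ := hone x2 hx2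
      have e1 : z2 ∈ nb G S x2 \ insert v (nb G S v) :=
        mem_sdiff.2 ⟨mem_nb.2 ⟨hz2S.1, hxz2⟩, hz2S.2⟩
      have e2 : z ∈ nb G S x2 \ insert v (nb G S v) :=
        mem_sdiff.2 ⟨mem_nb.2 ⟨(mem_sdiff.1 hz).1, hadj⟩, (mem_sdiff.1 hz).2⟩
      rw [hy, mem_singleton] at e1 e2
      rw [e1, e2]
    have hx12 : x1 ≠ x2 := by
      rintro rfl
      have := hp1 z2 hz2'.1 hxz2
      rw [this] at hz2'
      exact hz2'.2 hz1
    have hNv : nb G S v = {x1, x2} := by
      symm
      refine Finset.eq_of_subset_of_card_le ?_ ?_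
      · intro z hz
        rw [mem_insert, mem_singleton] at hz
        rcases hz with rfl | rfl
        · exact hx1
        · exact hx2
      · rw [hcard v hv, Finset.card_pair hx12]
    -- degrees in `A`
    have hdeg : ∀ a ∈ A, (nb G A a).card = if a = z1 then 1 else 2 := by
      intro a ha
      have haS := mem_sdiff.1 (hA ha)
      have hout : ∀ c ∈ nb G S a, c ∉ A → c = x1 ∧ a = z1 := by
        intro c hc hcA
        have hc' := mem_nb.1 hc
        by_cases h : c ∈ insert v (nb G S v)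
        · rcases mem_insert.1 h with hcv | hcv
          · subst hcv
            exact absurd (mem_insert_of_mem (mem_nb.2 ⟨haS.1, hc'.2.symm⟩)) haS.2
          · rw [hNv, mem_insert, mem_singleton] at hcv
            rcases hcv with hcv | hcv
            · subst hcv
              exact ⟨rfl, hp1 a (hA ha) hc'.2.symm⟩
            · subst hcv
              have := hp2 a (hA ha) hc'.2.symm
              rw [this] at ha
              exact absurd ha hz2'.2
        · exact absurd hc'.2 (hcon a ha c (mem_sdiff.2 ⟨hc'.1, h⟩) hcA)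
      by_cases haz : a = z1
      · rw [if_pos haz]
        have : nb G A a = (nb G S a).erase x1 := by
          ext z
          rw [mem_erase, mem_nb, mem_nb]
          constructor
          · rintro ⟨h1, h2⟩
            refine ⟨?_, (mem_sdiff.1 (hA h1)).1, h2⟩
            rintro rfl
            exact (mem_sdiff.1 (hA h1)).2 (mem_insert_of_mem hx1)
          · rintro ⟨h1, h2, h3⟩
            refine ⟨?_, h3⟩
            by_contra h4
            exact h1 (hout z (mem_nb.2 ⟨h2, h3⟩) h4).1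
        rw [this, Finset.card_erase_of_mem, hcard a haS.1]
        rw [haz]
        exact mem_nb.2 ⟨(mem_nb.1 hx1).1, hxz1.symm⟩
      · rw [if_neg haz]
        have : nb G A a = nb G S a := by
          ext z
          rw [mem_nb, mem_nb]
          constructor
          · rintro ⟨h1, h2⟩
            exact ⟨(mem_sdiff.1 (hA h1)).1, h2⟩
          · rintro ⟨h2, h3⟩
            refine ⟨?_, h3⟩
            by_contra h4
            exact haz (hout z (mem_nb.2 ⟨h2, h3⟩) h4).2
        rw [this, hcard a haS.1]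
    have hev := even_deg_sum G A
    rw [Finset.sum_congr rfl hdeg, ← Finset.add_sum_erase A _ hz1, if_pos rfl] at hev
    have hrest : ∑ x ∈ A.erase z1, (if x = z1 then 1 else 2) = 2 * (A.erase z1).card := by
      rw [Finset.sum_congr rfl (g := fun _ => 2)]
      · rw [Finset.sum_const, smul_eq_mul, mul_comm]
      · intro x hx
        rw [if_neg (mem_erase.1 hx).1]
    rw [hrest] at hev
    rw [Nat.even_iff] at hev
    omega

/-- discrete pseudomanifolds are in the class `Sd` -/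
theorem DP.sd {G : SimpleGraph T} {m : ℕ} {S : Finset T} (h : DP G m S) : Sd G m S := by
  induction m generalizing S with
  | zero => exact h
  | succ m ih =>
    have hl : ∀ v ∈ S, Sd G m (nb G S v) := fun v hv => ih (h.2 v hv)
    refine ⟨h.1, fun v hv => ⟨hl v hv, ?_⟩⟩
    cases m with
    | zero => exact ext_one h.1 hl hv
    | succ m => exact ext_step h.1 hl hv

end Pool.Agent.LibGal41

end

section

set_option linter.unusedSectionVars false
set_option linter.unusedVariables false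

namespace Pool.Agent.LibGal41

open Finset Pool.Agent.LibFlagPL

variable {T : Type} [Fintype T] [DecidableEq T]

theorem Sd.far {G : SimpleGraph T} {m : ℕ} {S : Finset T} (h : Sd G m S) {v : T} (hv : v ∈ S) :
    Conn G (S \ insert v (nb G S v)) := by
  cases m with
  | zero =>
    obtain ⟨hc, hn⟩ := h
    have hnb : nb G S v = ∅ := by
      ext z
      simp only [mem_nb, notMem_empty, iff_false, not_and]
      exact fun hz => hn v hv z hz
    rw [hnb]
    have h1 : (S \ insert v (∅ : Finset T)).card = 1 := by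
      rw [card_sdiff_of_subset (by simpa using hv)]
      simp [hc]
    obtain ⟨y, hy⟩ := card_eq_one.1 h1
    rw [hy]
    exact conn_singleton y
  | succ m => exact h.ext hv

theorem Sd.far_nb {G : SimpleGraph T} {m : ℕ} {S : Finset T} (h : Sd G (m + 1) S) {w f : T}
    (hw : w ∈ S) (hf : f ∈ nb G S w) :
    Conn G (nb G S w \ insert f (nb G (nb G S w) f)) :=
  (h.link hw).far hf

theorem Sd.third {G : SimpleGraph T} {m : ℕ} {S : Finset T} (h : Sd G (m + 1) S) {w x f : T}
    (hw : w ∈ S) (hx : x ∈ S) (hf : f ∈ S) (hwx : G.Adj w x) (hwf : G.Adj w f)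
    (hxf : G.Adj x f) : ∃ y ∈ S, G.Adj w y ∧ G.Adj x y ∧ y ≠ f ∧ ¬ G.Adj f y := by
  cases m with
  | zero =>
    exact absurd hxf ((h.link hw).2 x (mem_nb.2 ⟨hx, hwx⟩) f (mem_nb.2 ⟨hf, hwf⟩))
  | succ m =>
    exact h.F3b hw (mem_nb.2 ⟨hx, hwx⟩) (mem_nb.2 ⟨hf, hwf⟩) hxf

end Pool.Agent.LibGal41

end

section

set_option linter.unusedSectionVars false
set_option linter.unusedVariables false

namespace Pool.Agent.LibGal41

open Finset Pool.Agent.LibFlagPL

variable {T : Type} [Fintype T] [DecidableEq T]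

theorem Stp.fS {G : SimpleGraph T} {m : ℕ} {S O : Finset T} {f : T} (hs : Stp G m S O f) :
    f ∈ S ∧ f ∉ O := by
  have h := mem_Nb.1 hs.hf
  exact ⟨h.1, h.2.1⟩

theorem Stp.linkK {G : SimpleGraph T} {m : ℕ} {S O : Finset T} {f : T} (hs : Stp G m S O f) :
    Sd G m (nb G S f) :=
  Sd.link hs.sd (Stp.fS hs).1

theorem BO_sub {G : SimpleGraph T} {S O : Finset T} {f : T} {j : Finset T}
    (hj : j ∈ BO G S O f) {a : T} (ha : a ∈ j) : a ∈ O ∧ a ∉ nb G S f := by
  have h : a ∈ O \ nb G S f := comps_sub (A := O \ nb G S f) hj ha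
  exact mem_sdiff.1 h

theorem BW_sub {G : SimpleGraph T} {S O : Finset T} {f : T} {i : Finset T}
    (hi : i ∈ BW G S O f) {a : T} (ha : a ∈ i) : a ∈ O ∧ a ∈ nb G S f := by
  have h : a ∈ O ∩ nb G S f := comps_sub (A := O ∩ nb G S f) hi ha
  exact mem_inter.1 h

theorem BO_conn {G : SimpleGraph T} {S O : Finset T} {f : T} {j : Finset T}
    (hj : j ∈ BO G S O f) : Conn G j :=
  comps_conn (A := O \ nb G S f) hj

theorem BW_conn {G : SimpleGraph T} {S O : Finset T} {f : T} {i : Finset T}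
    (hi : i ∈ BW G S O f) : Conn G i :=
  comps_conn (A := O ∩ nb G S f) hi

theorem Stp.f_not_adj {G : SimpleGraph T} {m : ℕ} {S O : Finset T} {f : T}
    (hs : Stp G m S O f) {j : Finset T} (hj : j ∈ BO G S O f) {a : T} (ha : a ∈ j) :
    ¬ G.Adj f a := by
  intro h
  obtain ⟨h1, h2⟩ := BO_sub hj ha
  exact h2 (mem_nb.2 ⟨hs.sub h1, h⟩)

theorem Stp.BW_nonempty {G : SimpleGraph T} {m : ℕ} {S O : Finset T} {f : T}
    (hs : Stp G m S O f) : (BW G S O f).Nonempty := by
  obtain ⟨_, _, a, ha, haf⟩ := mem_Nb.1 hs.hf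
  have h1 : a ∈ O ∩ nb G S f := mem_inter.2 ⟨ha, mem_nb.2 ⟨hs.sub ha, haf.symm⟩⟩
  obtain ⟨C, hC, _⟩ := comps_cover (H := G) h1
  exact ⟨C, hC⟩

end Pool.Agent.LibGal41

end

section

set_option linter.unusedSectionVars false
set_option linter.unusedVariables false

namespace Pool.Agent.LibGal41

open Finset Pool.Agent.LibFlagPL

variable {T : Type} [Fintype T] [DecidableEq T]

theorem Stp.Nb_BO_sub {G : SimpleGraph T} {m : ℕ} {S O : Finset T} {f : T}
    (hs : Stp G m S O f) {j : Finset T} (hj : j ∈ BO G S O f) :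
    Nb G S j ⊆ (O ∩ nb G S f) ∪ SS G S O f ∪ FF G S O f := by
  intro x hx
  obtain ⟨hxS, hxj, a, haj, hax⟩ := mem_Nb.1 hx
  obtain ⟨haO, haf⟩ := BO_sub hj haj
  have hnf := hs.f_not_adj hj haj
  have hxf : x ≠ f := fun h => hnf (h ▸ hax.symm)
  by_cases hxO : x ∈ O
  · by_cases hxK : x ∈ nb G S f
    · exact mem_union_left _ (mem_union_left _ (mem_inter.2 ⟨hxO, hxK⟩))
    · exact absurd (comps_closed hj haj (mem_sdiff.2 ⟨hxO, hxK⟩) hax) hxj
  · have hxN : x ∈ Nb G S O := mem_Nb.2 ⟨hxS, hxO, a, haO, hax⟩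
    by_cases hxK : x ∈ nb G S f
    · exact mem_union_right _ (mem_FF.2 ⟨hxN, hxK⟩)
    · exact mem_union_left _ (mem_union_right _ (mem_SS.2 ⟨hxN, hxf, hxK⟩))

theorem Stp.Nb_BW_sub {G : SimpleGraph T} {m : ℕ} {S O : Finset T} {f : T}
    (hs : Stp G m S O f) {i : Finset T} (hi : i ∈ BW G S O f) :
    Nb G (nb G S f) i ⊆ FF G S O f := by
  intro x hx
  obtain ⟨hxK, hxi, w, hwi, hwx⟩ := mem_Nb.1 hx
  obtain ⟨hwO, hwK⟩ := BW_sub hi hwi
  by_cases hxO : x ∈ O
  · exact absurd (comps_closed hi hwi (mem_inter.2 ⟨hxO, hxK⟩) hwx) hxi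
  · exact mem_FF.2 ⟨mem_Nb.2 ⟨nb_sub hxK, hxO, w, hwO, hwx⟩, hxK⟩

theorem Stp.far_sub {G : SimpleGraph T} {m : ℕ} {S O : Finset T} {f : T}
    (hs : Stp G m S O f) {w y : T} (hw : w ∈ O) (hy : y ∈ S) (hwy : G.Adj w y) (hyf : y ≠ f)
    (hfy : ¬ G.Adj f y) : y ∈ O \ nb G S f ∨ y ∈ SS G S O f := by
  have hyK : y ∉ nb G S f := fun h => hfy (mem_nb.1 h).2
  by_cases hyO : y ∈ O
  · exact Or.inl (mem_sdiff.2 ⟨hyO, hyK⟩)
  · exact Or.inr (mem_SS.2 ⟨mem_Nb.2 ⟨hy, hyO, w, hw, hwy⟩, hyf, hyK⟩)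

theorem Stp.card_Nb {G : SimpleGraph T} {m : ℕ} {S O : Finset T} {f : T}
    (hs : Stp G m S O f) :
    ((Nb G S O).card : ℤ) = 1 + ((FF G S O f).card : ℤ) + ((SS G S O f).card : ℤ) := by
  have hfK : f ∉ nb G S f := fun h => G.loopless.irrefl f (mem_nb.1 h).2
  have h1 : SS G S O f = (Nb G S O \ {f}) \ nb G S f := by
    ext x
    rw [mem_SS]
    simp only [mem_sdiff, mem_singleton, and_assoc]
  have h2 : FF G S O f = (Nb G S O \ {f}) ∩ nb G S f := by
    ext x
    rw [mem_FF]
    simp only [mem_inter, mem_sdiff, mem_singleton]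
    constructor
    · rintro ⟨h, hk⟩
      exact ⟨⟨h, fun e => hfK (e ▸ hk)⟩, hk⟩
    · rintro ⟨⟨h, _⟩, hk⟩
      exact ⟨h, hk⟩
  have h3 := card_sdiff_add_card_inter (Nb G S O \ {f}) (nb G S f)
  have h4 : (Nb G S O \ {f}).card + 1 = (Nb G S O).card := by
    rw [← card_singleton f]
    exact card_sdiff_add_card_eq_card (singleton_subset_iff.2 hs.hf)
  rw [← h1, ← h2] at h3
  omega

theorem SS_disj_FF {G : SimpleGraph T} {S O : Finset T} {f : T} :
    Disjoint (SS G S O f) (FF G S O f) := by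
  rw [Finset.disjoint_left]
  intro x h1 h2
  exact (mem_SS.1 h1).2.2 (mem_FF.1 h2).2

end Pool.Agent.LibGal41

end

section

set_option linter.unusedSectionVars false
set_option linter.unusedVariables false

namespace Pool.Agent.LibGal41

open Finset Pool.Agent.LibFlagPL

variable {T : Type} [Fintype T] [DecidableEq T]

/-- an edge leaves every proper nonempty subset of a connected set -/
theorem conn_cut {H : SimpleGraph T} {A A' : Finset T} (h : Conn H A) (hsub : A' ⊆ A)
    (hne : A'.Nonempty) (hpr : A' ≠ A) : ∃ x ∈ A', ∃ y ∈ A \ A', H.Adj x y := by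
  have hb : ∃ b ∈ A, b ∉ A' := by
    by_contra hcon
    push Not at hcon
    exact hpr (Finset.Subset.antisymm hsub hcon)
  obtain ⟨a, ha, b, hb, hbA, hab⟩ := conn_cut' h hsub hne hb
  exact ⟨a, ha, b, mem_sdiff.2 ⟨hb, hbA⟩, hab⟩

end Pool.Agent.LibGal41

end

section

set_option linter.unusedSectionVars false
set_option linter.unusedVariables false

namespace Pool.Agent.LibGal41

open Finset Pool.Agent.LibFlagPL

variable {T : Type} [Fintype T] [DecidableEq T]

/-- every vertex of `O` is in a blob -/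
private theorem n3_cover {G : SimpleGraph T} {S O : Finset T} {f v : T} (hv : v ∈ O) :
    (∃ j ∈ BO G S O f, v ∈ j ∧ v ∉ nb G S f) ∨ (∃ i ∈ BW G S O f, v ∈ i ∧ v ∈ nb G S f) := by
  by_cases h : v ∈ nb G S f
  · obtain ⟨C, hC, hvC⟩ := comps_cover (H := G) (A := O ∩ nb G S f) (x := v)
      (mem_inter.2 ⟨hv, h⟩)
    exact Or.inr ⟨C, hC, hvC, h⟩
  · obtain ⟨C, hC, hvC⟩ := comps_cover (H := G) (A := O \ nb G S f) (x := v)
      (mem_sdiff.2 ⟨hv, h⟩)
    exact Or.inl ⟨C, hC, hvC, h⟩

/-- blobs of the same kind with a common vertex are equal -/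
private theorem n3_eqO {G : SimpleGraph T} {S O : Finset T} {f v : T} {j j' : Finset T}
    (hj : j ∈ BO G S O f) (hj' : j' ∈ BO G S O f) (h : v ∈ j) (h' : v ∈ j') : j = j' := by
  by_contra hne
  exact Finset.disjoint_left.1 (comps_disj hj hj' hne) h h'

private theorem n3_eqW {G : SimpleGraph T} {S O : Finset T} {f v : T} {j j' : Finset T}
    (hj : j ∈ BW G S O f) (hj' : j' ∈ BW G S O f) (h : v ∈ j) (h' : v ∈ j') : j = j' := by
  by_contra hne
  exact Finset.disjoint_left.1 (comps_disj hj hj' hne) h h'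

/-- an edge from a selected blob to a vertex of `O` which is in no selected blob -/
private theorem n3_edge {G : SimpleGraph T} {S O : Finset T} {f : T}
    {X' Y' : Finset (Finset T)} (hX : X' ⊆ BO G S O f) (hY : Y' ⊆ BW G S O f) {u v : T}
    (hu : (∃ x ∈ X', u ∈ x) ∨ (∃ y ∈ Y', u ∈ y)) (hv : v ∈ O)
    (hvX : ∀ x ∈ X', v ∉ x) (hvY : ∀ y ∈ Y', v ∉ y) (huv : G.Adj u v) :
    (∃ x ∈ X', ∃ y ∈ BW G S O f \ Y', BAdj G x y) ∨
      (∃ x ∈ BO G S O f \ X', ∃ y ∈ Y', BAdj G x y) := by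
  rcases n3_cover (G := G) (S := S) (f := f) hv with ⟨j, hj, hvj, hvn⟩ | ⟨i, hi, hvi, hvn⟩
  · have hjX : j ∉ X' := fun h => hvX j h hvj
    rcases hu with ⟨x, hx, hux⟩ | ⟨y, hy, huy⟩
    · exfalso
      have hcl : v ∈ x := comps_closed (hX hx) hux (mem_sdiff.2 ⟨hv, hvn⟩) huv
      exact hvX x hx hcl
    · exact Or.inr ⟨j, mem_sdiff.2 ⟨hj, hjX⟩, y, hy, v, hvj, u, huy, huv.symm⟩
  · have hiY : i ∉ Y' := fun h => hvY i h hvi
    rcases hu with ⟨x, hx, hux⟩ | ⟨y, hy, huy⟩
    · exact Or.inl ⟨x, hx, i, mem_sdiff.2 ⟨hi, hiY⟩, u, hux, v, hvi, huv⟩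
    · exfalso
      have hcl : v ∈ y := comps_closed (hY hy) huy (mem_inter.2 ⟨hv, hvn⟩) huv
      exact hvY y hy hcl

theorem Stp.blob_cut {G : SimpleGraph T} {m : ℕ} {S O : Finset T} {f : T}
    (hs : Stp G m S O f) : ∀ X' ⊆ BO G S O f, ∀ Y' ⊆ BW G S O f,
      (X'.Nonempty ∨ Y'.Nonempty) → (X' ≠ BO G S O f ∨ Y' ≠ BW G S O f) →
      (∃ x ∈ X', ∃ y ∈ BW G S O f \ Y', BAdj G x y) ∨
        (∃ x ∈ BO G S O f \ X', ∃ y ∈ Y', BAdj G x y) := by
  intro X' hX Y' hY hne hpr
  classical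
  have hmem : ∀ t : T, t ∈ X'.biUnion id ∪ Y'.biUnion id ↔
      (∃ x ∈ X', t ∈ x) ∨ (∃ y ∈ Y', t ∈ y) := by
    intro t
    simp only [mem_union, mem_biUnion, id]
  have hUO : X'.biUnion id ∪ Y'.biUnion id ⊆ O := by
    intro t ht
    rcases (hmem t).1 ht with ⟨x, hx, htx⟩ | ⟨y, hy, hty⟩
    · exact (BO_sub (hX hx) htx).1
    · exact (BW_sub (hY hy) hty).1
  have hUne : (X'.biUnion id ∪ Y'.biUnion id).Nonempty := by
    rcases hne with ⟨x, hx⟩ | ⟨y, hy⟩
    · obtain ⟨t, ht⟩ := (BO_conn (hX hx)).1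
      exact ⟨t, (hmem t).2 (Or.inl ⟨x, hx, ht⟩)⟩
    · obtain ⟨t, ht⟩ := (BW_conn (hY hy)).1
      exact ⟨t, (hmem t).2 (Or.inr ⟨y, hy, ht⟩)⟩
  have hUpr : X'.biUnion id ∪ Y'.biUnion id ≠ O := by
    intro hEq
    rcases hpr with h | h
    · apply h
      apply Subset.antisymm hX
      intro j hj
      obtain ⟨t, ht⟩ := (BO_conn hj).1
      have htO := BO_sub hj ht
      have htU : t ∈ X'.biUnion id ∪ Y'.biUnion id := by
        rw [hEq]
        exact htO.1
      rcases (hmem t).1 htU with ⟨x, hx, htx⟩ | ⟨y, hy, hty⟩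
      · rw [n3_eqO hj (hX hx) ht htx]
        exact hx
      · exact absurd (BW_sub (hY hy) hty).2 htO.2
    · apply h
      apply Subset.antisymm hY
      intro i hi
      obtain ⟨t, ht⟩ := (BW_conn hi).1
      have htO := BW_sub hi ht
      have htU : t ∈ X'.biUnion id ∪ Y'.biUnion id := by
        rw [hEq]
        exact htO.1
      rcases (hmem t).1 htU with ⟨x, hx, htx⟩ | ⟨y, hy, hty⟩
      · exact absurd htO.2 (BO_sub (hX hx) htx).2
      · rw [n3_eqW hi (hY hy) ht hty]
        exact hy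
  obtain ⟨u, hu, v, hv, huv⟩ := conn_cut hs.conn hUO hUne hUpr
  rw [mem_sdiff] at hv
  refine n3_edge hX hY ((hmem u).1 hu) hv.1 ?_ ?_ huv
  · intro x hx hvx
    exact hv.2 ((hmem v).2 (Or.inl ⟨x, hx, hvx⟩))
  · intro y hy hvy
    exact hv.2 ((hmem v).2 (Or.inr ⟨y, hy, hvy⟩))

theorem Stp.blob_of_SS {G : SimpleGraph T} {m : ℕ} {S O : Finset T} {f : T}
    (hs : Stp G m S O f) {s : T} (hx : s ∈ SS G S O f) :
    (∃ j ∈ BO G S O f, s ∈ Nb G S j) ∨ (∃ i ∈ BW G S O f, s ∈ Sx G S O f i) := by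
  rw [mem_SS] at hx
  obtain ⟨hsN, hsf, hsn⟩ := hx
  rw [mem_Nb] at hsN
  obtain ⟨hsS, hsO, a, haO, has⟩ := hsN
  rcases n3_cover (G := G) (S := S) (f := f) haO with ⟨j, hj, haj, han⟩ | ⟨i, hi, hai, han⟩
  · left
    refine ⟨j, hj, ?_⟩
    rw [mem_Nb]
    exact ⟨hsS, fun h => hsO (BO_sub hj h).1, a, haj, has⟩
  · right
    refine ⟨i, hi, ?_⟩
    rw [mem_Sx, mem_SS, mem_Nb]
    exact ⟨⟨⟨hsS, hsO, a, haO, has⟩, hsf, hsn⟩, a, hai, has⟩

theorem Stp.blob_of_FF {G : SimpleGraph T} {m : ℕ} {S O : Finset T} {f : T}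
    (hs : Stp G m S O f) {s : T} (hx : s ∈ FF G S O f) :
    (∃ j ∈ BO G S O f, s ∈ Nb G S j) ∨ (∃ i ∈ BW G S O f, s ∈ Nb G (nb G S f) i) := by
  rw [mem_FF] at hx
  obtain ⟨hsN, hsn⟩ := hx
  rw [mem_Nb] at hsN
  obtain ⟨hsS, hsO, a, haO, has⟩ := hsN
  rcases n3_cover (G := G) (S := S) (f := f) haO with ⟨j, hj, haj, han⟩ | ⟨i, hi, hai, han⟩
  · left
    refine ⟨j, hj, ?_⟩
    rw [mem_Nb]
    exact ⟨hsS, fun h => hsO (BO_sub hj h).1, a, haj, has⟩
  · right
    refine ⟨i, hi, ?_⟩
    rw [mem_Nb]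
    exact ⟨hsn, fun h => hsO (BW_sub hi h).1, a, hai, has⟩

end Pool.Agent.LibGal41

end

section

set_option linter.unusedSectionVars false
set_option linter.unusedVariables false

namespace Pool.Agent.LibGal41

open Finset Pool.Agent.LibFlagPL

variable {T : Type} [Fintype T] [DecidableEq T]

theorem Sd.Nb_card {G : SimpleGraph T} {m : ℕ} {S U : Finset T} (h : Sd G m S) (hU : U ⊆ S)
    (hne : U.Nonempty) (hq : ∃ q ∈ S, q ∉ U ∧ q ∉ Nb G S U) : 2 * m ≤ (Nb G S U).card :=
  h.sepU hU hne hq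

end Pool.Agent.LibGal41

end

section

set_option linter.unusedSectionVars false
set_option linter.unusedVariables false

namespace Pool.Agent.LibGal41

open Finset

open scoped Classical in
private theorem t1_stepY {α β : Type} (TE : Finset (α × β)) (Y' : Finset β) (x : α) (y : β)
    (hTE : ∀ p ∈ TE, p.2 ∈ Y') (hy : y ∉ Y')
    (hb : ∀ (A : Finset α) (B : Finset β), (A.Nonempty ∨ B.Nonempty) →
        ((TE.filter (fun p => p.1 ∈ A ∧ p.2 ∈ B)).card : ℤ) ≤ A.card + B.card - 1)
    (A : Finset α) (B : Finset β) (hAB : A.Nonempty ∨ B.Nonempty) :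
    (((insert (x, y) TE).filter (fun p => p.1 ∈ A ∧ p.2 ∈ B)).card : ℤ)
      ≤ A.card + B.card - 1 := by
  by_cases hyB : y ∈ B
  · have hcard : (B.erase y).card + 1 = B.card := Finset.card_erase_add_one hyB
    have hsub : (insert (x, y) TE).filter (fun p => p.1 ∈ A ∧ p.2 ∈ B) ⊆
        insert (x, y) (TE.filter (fun p => p.1 ∈ A ∧ p.2 ∈ B.erase y)) := by
      intro p hp
      rw [Finset.mem_filter, Finset.mem_insert] at hp
      obtain ⟨hp1, hp2, hp3⟩ := hp
      rcases hp1 with hp1 | hp1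
      · rw [hp1]; exact Finset.mem_insert_self _ _
      · refine Finset.mem_insert_of_mem (Finset.mem_filter.mpr ⟨hp1, hp2, ?_⟩)
        refine Finset.mem_erase.mpr ⟨?_, hp3⟩
        intro h
        exact hy (h ▸ hTE p hp1)
    by_cases hne : A.Nonempty ∨ (B.erase y).Nonempty
    · have h1 := hb A (B.erase y) hne
      have h2 : (((insert (x, y) TE).filter (fun p => p.1 ∈ A ∧ p.2 ∈ B)).card) ≤
          (TE.filter (fun p => p.1 ∈ A ∧ p.2 ∈ B.erase y)).card + 1 :=
        le_trans (Finset.card_le_card hsub) (Finset.card_insert_le _ _)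
      have h3 : (((insert (x, y) TE).filter (fun p => p.1 ∈ A ∧ p.2 ∈ B)).card : ℤ) ≤
          ((TE.filter (fun p => p.1 ∈ A ∧ p.2 ∈ B.erase y)).card : ℤ) + 1 := by exact_mod_cast h2
      have h4 : ((B.erase y).card : ℤ) + 1 = B.card := by exact_mod_cast hcard
      linarith
    · rw [not_or, Finset.not_nonempty_iff_eq_empty, Finset.not_nonempty_iff_eq_empty] at hne
      obtain ⟨hA, hB⟩ := hne
      have h0 : (insert (x, y) TE).filter (fun p => p.1 ∈ A ∧ p.2 ∈ B) = ∅ := by
        apply Finset.filter_eq_empty_iff.mpr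
        intro p _ hp
        rw [hA] at hp
        exact absurd hp.1 (Finset.notMem_empty _)
      rw [h0, hA]
      rw [hB, Finset.card_empty] at hcard
      rw [← hcard]
      simp
  · have heq : (insert (x, y) TE).filter (fun p => p.1 ∈ A ∧ p.2 ∈ B) =
        TE.filter (fun p => p.1 ∈ A ∧ p.2 ∈ B) := by
      rw [Finset.filter_insert, if_neg]
      exact fun h => hyB h.2
    rw [heq]
    exact hb A B hAB

open scoped Classical in
private theorem t1_stepX {α β : Type} (TE : Finset (α × β)) (X' : Finset α) (x : α) (y : β)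
    (hTE : ∀ p ∈ TE, p.1 ∈ X') (hx : x ∉ X')
    (hb : ∀ (A : Finset α) (B : Finset β), (A.Nonempty ∨ B.Nonempty) →
        ((TE.filter (fun p => p.1 ∈ A ∧ p.2 ∈ B)).card : ℤ) ≤ A.card + B.card - 1)
    (A : Finset α) (B : Finset β) (hAB : A.Nonempty ∨ B.Nonempty) :
    (((insert (x, y) TE).filter (fun p => p.1 ∈ A ∧ p.2 ∈ B)).card : ℤ)
      ≤ A.card + B.card - 1 := by
  by_cases hxA : x ∈ A
  · have hcard : (A.erase x).card + 1 = A.card := Finset.card_erase_add_one hxA
    have hsub : (insert (x, y) TE).filter (fun p => p.1 ∈ A ∧ p.2 ∈ B) ⊆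
        insert (x, y) (TE.filter (fun p => p.1 ∈ A.erase x ∧ p.2 ∈ B)) := by
      intro p hp
      rw [Finset.mem_filter, Finset.mem_insert] at hp
      obtain ⟨hp1, hp2, hp3⟩ := hp
      rcases hp1 with hp1 | hp1
      · rw [hp1]; exact Finset.mem_insert_self _ _
      · refine Finset.mem_insert_of_mem (Finset.mem_filter.mpr ⟨hp1, ?_, hp3⟩)
        refine Finset.mem_erase.mpr ⟨?_, hp2⟩
        intro h
        exact hx (h ▸ hTE p hp1)
    by_cases hne : (A.erase x).Nonempty ∨ B.Nonempty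
    · have h1 := hb (A.erase x) B hne
      have h2 : (((insert (x, y) TE).filter (fun p => p.1 ∈ A ∧ p.2 ∈ B)).card) ≤
          (TE.filter (fun p => p.1 ∈ A.erase x ∧ p.2 ∈ B)).card + 1 :=
        le_trans (Finset.card_le_card hsub) (Finset.card_insert_le _ _)
      have h3 : (((insert (x, y) TE).filter (fun p => p.1 ∈ A ∧ p.2 ∈ B)).card : ℤ) ≤
          ((TE.filter (fun p => p.1 ∈ A.erase x ∧ p.2 ∈ B)).card : ℤ) + 1 := by exact_mod_cast h2
      have h4 : ((A.erase x).card : ℤ) + 1 = A.card := by exact_mod_cast hcard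
      linarith
    · rw [not_or, Finset.not_nonempty_iff_eq_empty, Finset.not_nonempty_iff_eq_empty] at hne
      obtain ⟨hA, hB⟩ := hne
      have h0 : (insert (x, y) TE).filter (fun p => p.1 ∈ A ∧ p.2 ∈ B) = ∅ := by
        apply Finset.filter_eq_empty_iff.mpr
        intro p _ hp
        rw [hB] at hp
        exact absurd hp.2 (Finset.notMem_empty _)
      rw [h0, hB]
      rw [hA, Finset.card_empty] at hcard
      rw [← hcard]
      simp
  · have heq : (insert (x, y) TE).filter (fun p => p.1 ∈ A ∧ p.2 ∈ B) =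
        TE.filter (fun p => p.1 ∈ A ∧ p.2 ∈ B) := by
      rw [Finset.filter_insert, if_neg]
      exact fun h => hxA h.1
    rw [heq]
    exact hb A B hAB

open scoped Classical in
private theorem t1_grow {α β : Type} (X : Finset α) (Y : Finset β) (r : α → β → Prop)
    (hne : X.Nonempty ∨ Y.Nonempty)
    (hconn : ∀ X' ⊆ X, ∀ Y' ⊆ Y, (X'.Nonempty ∨ Y'.Nonempty) → (X' ≠ X ∨ Y' ≠ Y) →
      (∃ x ∈ X', ∃ y ∈ Y \ Y', r x y) ∨ (∃ x ∈ X \ X', ∃ y ∈ Y', r x y)) :
    ∀ n : ℕ, n + 1 ≤ X.card + Y.card →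
      ∃ X' ⊆ X, ∃ Y' ⊆ Y, X'.card + Y'.card = n + 1 ∧
        ∃ TE : Finset (α × β), (∀ p ∈ TE, p.1 ∈ X' ∧ p.2 ∈ Y' ∧ r p.1 p.2) ∧
          TE.card = n ∧
          ∀ (A : Finset α) (B : Finset β), (A.Nonempty ∨ B.Nonempty) →
            ((TE.filter (fun p => p.1 ∈ A ∧ p.2 ∈ B)).card : ℤ) ≤ A.card + B.card - 1 := by
  intro n
  induction n with
  | zero =>
    intro _
    have hbase : ∀ (A : Finset α) (B : Finset β), (A.Nonempty ∨ B.Nonempty) →
        (((∅ : Finset (α × β)).filter (fun p => p.1 ∈ A ∧ p.2 ∈ B)).card : ℤ)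
          ≤ A.card + B.card - 1 := by
      intro A B hAB
      rw [Finset.filter_empty, Finset.card_empty]
      have : 1 ≤ A.card + B.card := by
        rcases hAB with h | h
        · have := Finset.card_pos.mpr h; omega
        · have := Finset.card_pos.mpr h; omega
      have h2 : (1 : ℤ) ≤ A.card + B.card := by exact_mod_cast this
      push_cast
      linarith
    rcases hne with ⟨x, hx⟩ | ⟨y, hy⟩
    · exact ⟨{x}, Finset.singleton_subset_iff.mpr hx, ∅, Finset.empty_subset _, by simp, ∅,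
        fun p hp => absurd hp (Finset.notMem_empty _), Finset.card_empty, hbase⟩
    · exact ⟨∅, Finset.empty_subset _, {y}, Finset.singleton_subset_iff.mpr hy, by simp, ∅,
        fun p hp => absurd hp (Finset.notMem_empty _), Finset.card_empty, hbase⟩
  | succ n ih =>
    intro hn
    obtain ⟨X', hX', Y', hY', hcard, TE, hTE, hTc, hb⟩ := ih (by omega)
    have hne' : X'.Nonempty ∨ Y'.Nonempty := by
      by_contra h
      rw [not_or, Finset.not_nonempty_iff_eq_empty, Finset.not_nonempty_iff_eq_empty] at h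
      rw [h.1, h.2] at hcard
      simp at hcard
    have hprop : X' ≠ X ∨ Y' ≠ Y := by
      by_contra h
      rw [not_or, not_not, not_not] at h
      rw [h.1, h.2] at hcard
      omega
    rcases hconn X' hX' Y' hY' hne' hprop with ⟨x, hx, y, hy, hr⟩ | ⟨x, hx, y, hy, hr⟩
    · rw [Finset.mem_sdiff] at hy
      have hnot : (x, y) ∉ TE := fun h => hy.2 (hTE _ h).2.1
      refine ⟨X', hX', insert y Y', Finset.insert_subset hy.1 hY', ?_, insert (x, y) TE, ?_, ?_, ?_⟩
      · rw [Finset.card_insert_of_notMem hy.2]; omega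
      · intro p hp
        rcases Finset.mem_insert.mp hp with hp | hp
        · rw [hp]; exact ⟨hx, Finset.mem_insert_self _ _, hr⟩
        · obtain ⟨h1, h2, h3⟩ := hTE p hp
          exact ⟨h1, Finset.mem_insert_of_mem h2, h3⟩
      · rw [Finset.card_insert_of_notMem hnot, hTc]
      · intro A B hAB
        exact t1_stepY TE Y' x y (fun p hp => (hTE p hp).2.1) hy.2 hb A B hAB
    · rw [Finset.mem_sdiff] at hx
      have hnot : (x, y) ∉ TE := fun h => hx.2 (hTE _ h).1
      refine ⟨insert x X', Finset.insert_subset hx.1 hX', Y', hY', ?_, insert (x, y) TE, ?_, ?_, ?_⟩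
      · rw [Finset.card_insert_of_notMem hx.2]; omega
      · intro p hp
        rcases Finset.mem_insert.mp hp with hp | hp
        · rw [hp]; exact ⟨Finset.mem_insert_self _ _, hy, hr⟩
        · obtain ⟨h1, h2, h3⟩ := hTE p hp
          exact ⟨Finset.mem_insert_of_mem h1, h2, h3⟩
      · rw [Finset.card_insert_of_notMem hnot, hTc]
      · intro A B hAB
        exact t1_stepX TE X' x y (fun p hp => (hTE p hp).1) hx.2 hb A B hAB

open scoped Classical in
theorem exists_tree {α β : Type} (X : Finset α) (Y : Finset β) (r : α → β → Prop)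
    (hne : X.Nonempty ∨ Y.Nonempty)
    (hconn : ∀ X' ⊆ X, ∀ Y' ⊆ Y, (X'.Nonempty ∨ Y'.Nonempty) → (X' ≠ X ∨ Y' ≠ Y) →
      (∃ x ∈ X', ∃ y ∈ Y \ Y', r x y) ∨ (∃ x ∈ X \ X', ∃ y ∈ Y', r x y)) :
    ∃ TE : Finset (α × β), (∀ p ∈ TE, p.1 ∈ X ∧ p.2 ∈ Y ∧ r p.1 p.2) ∧
      (TE.card : ℤ) = X.card + Y.card - 1 ∧
      ∀ (A : Finset α) (B : Finset β), (A.Nonempty ∨ B.Nonempty) →
        ((TE.filter (fun p => p.1 ∈ A ∧ p.2 ∈ B)).card : ℤ) ≤ A.card + B.card - 1 := by
  have hpos : 1 ≤ X.card + Y.card := by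
    rcases hne with h | h
    · have := Finset.card_pos.mpr h; omega
    · have := Finset.card_pos.mpr h; omega
  obtain ⟨X', hX', Y', hY', hcard, TE, hTE, hTc, hb⟩ :=
    t1_grow X Y r hne hconn (X.card + Y.card - 1) (by omega)
  refine ⟨TE, fun p hp => ?_, ?_, hb⟩
  · obtain ⟨h1, h2, h3⟩ := hTE p hp
    exact ⟨hX' h1, hY' h2, h3⟩
  · rw [hTc]
    push_cast [Nat.cast_sub hpos]
    ring

end Pool.Agent.LibGal41

end

section

set_option linter.unusedSectionVars false
set_option linter.unusedVariables false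

namespace Pool.Agent.LibGal41

open Finset

open scoped Classical in
theorem edges_ge {α β : Type} (X : Finset α) (Y : Finset β) (r : α → β → Prop)
    (hne : X.Nonempty ∨ Y.Nonempty)
    (hconn : ∀ X' ⊆ X, ∀ Y' ⊆ Y, (X'.Nonempty ∨ Y'.Nonempty) → (X' ≠ X ∨ Y' ≠ Y) →
      (∃ x ∈ X', ∃ y ∈ Y \ Y', r x y) ∨ (∃ x ∈ X \ X', ∃ y ∈ Y', r x y)) :
    (X.card : ℤ) + Y.card - 1 ≤ ∑ y ∈ Y, ((X.filter (fun x => r x y)).card : ℤ) := by
  obtain ⟨TE, h1, h2, _⟩ := exists_tree X Y r hne hconn
  rw [← h2, Finset.card_eq_sum_card_fiberwise (f := Prod.snd) (s := TE) (t := Y)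
    (fun p hp => (h1 p hp).2.1), Nat.cast_sum]
  refine Finset.sum_le_sum fun y _ => ?_
  have h3 : (TE.filter (fun p => p.2 = y)).card ≤ (X.filter (fun x => r x y)).card := by
    refine Finset.card_le_card_of_injOn Prod.fst ?_ ?_
    · intro p hp
      have hp' : p ∈ TE ∧ p.2 = y := by simpa using hp
      obtain ⟨h4, _, h5⟩ := h1 p hp'.1
      have h6 : r p.1 y := hp'.2 ▸ h5
      have : p.1 ∈ X.filter (fun x => r x y) := Finset.mem_filter.mpr ⟨h4, h6⟩
      exact this
    · intro p hp q hq hpq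
      have hp' : p ∈ TE ∧ p.2 = y := by simpa using hp
      have hq' : q ∈ TE ∧ q.2 = y := by simpa using hq
      exact Prod.ext hpq (hp'.2.trans hq'.2.symm)
  exact_mod_cast h3

end Pool.Agent.LibGal41

end

section

set_option linter.unusedSectionVars false
set_option linter.unusedVariables false

namespace Pool.Agent.LibGal41

open Finset Pool.Agent.LibFlagPL

variable {T : Type} [Fintype T] [DecidableEq T]

theorem ee_ge_of_bip_conn {G : SimpleGraph T} {A B C : Finset T} (hAB : Disjoint A B)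
    (hC : C ⊆ A ∪ B) (h : Conn (bip G A B) C) :
    ((C ∩ A).card : ℤ) + ((C ∩ B).card : ℤ) - 1 ≤ ee G (C ∩ A) (C ∩ B) := by
  classical
  have hCAB : C = (C ∩ A) ∪ (C ∩ B) := by
    rw [← inter_union_distrib_left]
    exact (inter_eq_left.2 hC).symm
  have hCne : C.Nonempty := h.1
  have hne : (C ∩ A).Nonempty ∨ (C ∩ B).Nonempty := by
    obtain ⟨c, hc⟩ := hCne
    rw [hCAB, mem_union] at hc
    rcases hc with hc | hc
    · exact Or.inl ⟨c, hc⟩
    · exact Or.inr ⟨c, hc⟩
  have key := edges_ge (C ∩ A) (C ∩ B) (fun x y => G.Adj x y) hne ?_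
  · have e1 : ee G (C ∩ A) (C ∩ B) =
        ∑ y ∈ C ∩ B, (((C ∩ A).filter (fun x => G.Adj x y)).card : ℤ) := by
      rw [ee_comm]
      unfold ee
      refine sum_congr rfl fun y _ => ?_
      have e2 : nb G (C ∩ A) y = (C ∩ A).filter (fun x => G.Adj x y) := by
        ext t
        rw [mem_nb, mem_filter, G.adj_comm]
      rw [e2]
    rw [e1]
    exact key
  · intro X' hX' Y' hY' hXY hXY2
    have hsub : X' ∪ Y' ⊆ C := by
      intro t ht
      rcases mem_union.1 ht with ht | ht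
      · exact (mem_inter.1 (hX' ht)).1
      · exact (mem_inter.1 (hY' ht)).1
    have hne' : (X' ∪ Y').Nonempty := by
      rcases hXY with hx | hx
      · exact hx.mono subset_union_left
      · exact hx.mono subset_union_right
    have hXA : ∀ t ∈ X', t ∈ A := fun t ht => (mem_inter.1 (hX' ht)).2
    have hYB : ∀ t ∈ Y', t ∈ B := fun t ht => (mem_inter.1 (hY' ht)).2
    have hdis : ∀ t, t ∈ A → t ∈ B → False := fun t h1 h2 =>
      (disjoint_left.1 hAB h1 h2)
    have hpr : X' ∪ Y' ≠ C := by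
      intro heq
      rcases hXY2 with hx | hx
      · refine hx (Subset.antisymm hX' fun t ht => ?_)
        have h1 : t ∈ X' ∪ Y' := by
          rw [heq]
          exact (mem_inter.1 ht).1
        rcases mem_union.1 h1 with h2 | h2
        · exact h2
        · exact (hdis t (mem_inter.1 ht).2 (hYB t h2)).elim
      · refine hx (Subset.antisymm hY' fun t ht => ?_)
        have h1 : t ∈ X' ∪ Y' := by
          rw [heq]
          exact (mem_inter.1 ht).1
        rcases mem_union.1 h1 with h2 | h2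
        · exact (hdis t (hXA t h2) (mem_inter.1 ht).2).elim
        · exact h2
    obtain ⟨x, hx, y, hy, hadj⟩ := conn_cut h hsub hne' hpr
    obtain ⟨hadj1, hadj2⟩ := bip_adj.1 hadj
    rw [mem_sdiff, mem_union, not_or] at hy
    rcases hadj2 with ⟨hxA, hyB⟩ | ⟨hxB, hyA⟩
    · left
      refine ⟨x, ?_, y, ?_, hadj1⟩
      · rcases mem_union.1 hx with hx | hx
        · exact hx
        · exact (hdis x hxA (hYB x hx)).elim
      · exact (@Finset.mem_sdiff T (fun a b => Classical.propDecidable (a = b)) _ _ _).2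
          ⟨mem_inter.2 ⟨hy.1, hyB⟩, hy.2.2⟩
    · right
      refine ⟨y, ?_, x, ?_, hadj1.symm⟩
      · exact (@Finset.mem_sdiff T (fun a b => Classical.propDecidable (a = b)) _ _ _).2
          ⟨mem_inter.2 ⟨hy.1, hyA⟩, hy.2.1⟩
      · rcases mem_union.1 hx with hx | hx
        · exact (hdis x (hXA x hx) hxB).elim
        · exact hx

end Pool.Agent.LibGal41

end
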