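import Pool.Agent.LibFlagPL.GalA

/-!
# LibFlagPL.GalB: `gamma_2 ≥ 0` in all dimensions, the induction
-/

section

set_option linter.unusedSectionVars false
set_option linter.unusedVariables false

namespace Pool.Agent.LibGal41

open Finset Pool.Agent.LibFlagPL

variable {T : Type} [Fintype T] [DecidableEq T]

theorem Stp.inc2_eq {G : SimpleGraph T} {m : ℕ} {S O : Finset T} {f : T}
    (hs : Stp G m S O f) :
    inc2 G S O = ∑ j ∈ BO G S O f, inc2 G S j + ∑ i ∈ BW G S O f, inc2 G (nb G S f) i +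
      2 * ((O ∩ nb G S f).card : ℤ) + 2 * ee G (O ∩ nb G S f) (SS G S O f) := by
  have h1 : ∑ j ∈ BO G S O f, inc2 G S j = inc2 G S (O \ nb G S f) :=
    sum_inc2 (fun x hx => hs.sub (mem_sdiff.1 hx).1)
  have h2 : ∑ i ∈ BW G S O f, inc2 G (nb G S f) i = inc2 G (nb G S f) (O ∩ nb G S f) :=
    sum_inc2 inter_subset_right
  rw [h1, h2]
  set K := nb G S f with hK
  set W := O ∩ K with hW
  set P := O \ K with hP
  have hO : O = P ∪ W := (sdiff_union_inter O K).symm
  have hdis : Disjoint P W := disjoint_sdiff_inter O K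
  have e1 : ee G O O = ee G P P + ee G P W + ee G W P + ee G W W := by
    conv_lhs => rw [hO]
    rw [ee_union_left G _ hdis, ee_union_right G _ hdis, ee_union_right G _ hdis]
    ring
  have e2 : ee G O (S \ O) = ee G P (S \ O) + ee G W (S \ O) := by
    have h3 : ee G O (S \ O) = ee G (P ∪ W) (S \ O) := by rw [← hO]
    rw [h3, ee_union_left G _ hdis]
  have e3 : ee G P (S \ P) = ee G P W + ee G P (S \ O) := by
    have h3 : S \ P = W ∪ (S \ O) := by
      ext x
      simp only [mem_sdiff, mem_union, hP, hW, mem_inter, not_and, not_not]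
      constructor
      · rintro ⟨ha, hb⟩
        by_cases hx : x ∈ O
        · exact Or.inl ⟨hx, hb hx⟩
        · exact Or.inr ⟨ha, hx⟩
      · rintro (⟨ha, hb⟩ | ⟨ha, hb⟩)
        · exact ⟨hs.sub ha, fun _ => hb⟩
        · exact ⟨ha, fun h => absurd h hb⟩
    rw [h3, ee_union_right]
    rw [disjoint_left]
    intro x hx hx2
    exact (mem_sdiff.1 hx2).2 (mem_inter.1 hx).1
  have hfO : f ∉ O := hs.fS.2
  have hfS : f ∈ S := hs.fS.1
  have e4 : ee G W (S \ O) = (W.card : ℤ) + (ee G W (FF G S O f) + ee G W (SS G S O f)) := by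
    have h3 : ee G W (S \ O) = ee G W ({f} ∪ (FF G S O f ∪ SS G S O f)) := by
      refine ee_congr_right fun a ha b hab => ?_
      have haO : a ∈ O := (mem_inter.1 ha).1
      simp only [mem_sdiff, mem_union, mem_singleton, mem_FF, mem_SS, mem_Nb]
      constructor
      · rintro ⟨hbS, hbO⟩
        by_cases hbf : b = f
        · exact Or.inl hbf
        · right
          by_cases hbK : b ∈ nb G S f
          · exact Or.inl ⟨⟨hbS, hbO, a, haO, hab⟩, hbK⟩
          · exact Or.inr ⟨⟨hbS, hbO, a, haO, hab⟩, hbf, hbK⟩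
      · rintro (hb | ⟨⟨hbS, hbO, _⟩, _⟩ | ⟨⟨hbS, hbO, _⟩, _⟩)
        · rw [hb]
          exact ⟨hfS, hfO⟩
        · exact ⟨hbS, hbO⟩
        · exact ⟨hbS, hbO⟩
    rw [h3, ee_union_right, ee_union_right, ee_star]
    · intro a ha
      exact (mem_nb.1 (mem_inter.1 ha).2).2.symm
    · exact SS_disj_FF.symm
    · rw [disjoint_left]
      intro x hx hx2
      rw [mem_singleton] at hx
      subst hx
      rw [mem_union, mem_FF, mem_SS] at hx2
      rcases hx2 with h | h
      · exact (mem_nb.1 h.2).2.ne rfl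
      · exact h.2.1 rfl
  have e5 : ee G W (K \ W) = ee G W (FF G S O f) := by
    refine ee_congr_right fun a ha b hab => ?_
    have haO : a ∈ O := (mem_inter.1 ha).1
    simp only [mem_sdiff, mem_FF, mem_Nb, hW, mem_inter, not_and]
    constructor
    · rintro ⟨hbK, hb⟩
      exact ⟨⟨(mem_nb.1 hbK).1, fun h => hb h hbK, a, haO, hab⟩, hbK⟩
    · rintro ⟨⟨_, hbO, _⟩, hbK⟩
      exact ⟨hbK, fun h _ => hbO h⟩
  unfold inc2
  rw [e1, e2, e3, e4, e5, ee_comm G W P]
  ring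

end Pool.Agent.LibGal41

end

section

set_option linter.unusedSectionVars false
set_option linter.unusedVariables false

namespace Pool.Agent.LibGal41

open Finset Pool.Agent.LibFlagPL

variable {T : Type} [Fintype T] [DecidableEq T]

theorem Stp.BO_ok {G : SimpleGraph T} {m : ℕ} {S O : Finset T} {f : T}
    (hs : Stp G m S O f) {j : Finset T} (hj : j ∈ BO G S O f) :
    j ⊆ S ∧ j.card < O.card ∧ ∃ q ∈ S, q ∉ j ∧ q ∉ Nb G S j := by
  have hjO : j ⊆ O := fun a ha => (BO_sub hj ha).1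
  refine ⟨fun a ha => hs.sub (hjO ha), ?_, f, hs.fS.1, fun h1 => hs.fS.2 (hjO h1), ?_⟩
  · obtain ⟨i, hi⟩ := hs.BW_nonempty
    obtain ⟨w, hw⟩ := (BW_conn hi).1
    have hw1 := BW_sub hi hw
    refine Finset.card_lt_card (Finset.ssubset_iff_subset_ne.2 ⟨hjO, fun h1 => ?_⟩)
    have hw2 : w ∈ j := by
      rw [h1]
      exact hw1.1
    exact (BO_sub hj hw2).2 hw1.2
  · intro h1
    obtain ⟨_, _, a, ha, haf⟩ := mem_Nb.1 h1
    exact hs.f_not_adj hj ha haf.symm

theorem Stp.BW_ok {G : SimpleGraph T} {m : ℕ} {S O : Finset T} {f : T}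
    (hs : Stp G m S O f) {i : Finset T} (hi : i ∈ BW G S O f) :
    i ⊆ nb G S f ∧ ∃ q ∈ nb G S f, q ∉ i ∧ q ∉ Nb G (nb G S f) i := by
  obtain ⟨q, hqS, hqO, hqN, hfq⟩ := hs.hq
  refine ⟨fun a ha => (BW_sub hi ha).2, q, mem_nb.2 ⟨hqS, hfq⟩, fun h1 => hqO (BW_sub hi h1).1, ?_⟩
  intro h1
  obtain ⟨_, _, a, ha, haq⟩ := mem_Nb.1 h1
  exact hqN (mem_Nb.2 ⟨hqS, hqO, a, (BW_sub hi ha).1, haq⟩)

theorem Stp.BO_card_sum {G : SimpleGraph T} {m : ℕ} {S O : Finset T} {f : T}
    (hs : Stp G m S O f) :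
    ∑ j ∈ BO G S O f, (j.card : ℤ) + ∑ i ∈ BW G S O f, (i.card : ℤ) = (O.card : ℤ) ∧
      ∑ i ∈ BW G S O f, (i.card : ℤ) = ((O ∩ nb G S f).card : ℤ) := by
  have h1 : ∑ j ∈ BO G S O f, (j.card : ℤ) = ((O \ nb G S f).card : ℤ) := comps_card G _
  have h2 : ∑ i ∈ BW G S O f, (i.card : ℤ) = ((O ∩ nb G S f).card : ℤ) := comps_card G _
  refine ⟨?_, h2⟩
  rw [h1, h2]
  exact_mod_cast Finset.card_sdiff_add_card_inter O (nb G S f)

end Pool.Agent.LibGal41

end

section

set_option linter.unusedSectionVars false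
set_option linter.unusedVariables false

namespace Pool.Agent.LibGal41

open Finset Pool.Agent.LibFlagPL

variable {T : Type} [Fintype T] [DecidableEq T]

theorem Stp.L1 {G : SimpleGraph T} {m : ℕ} {S O : Finset T} {f : T}
    (hs : Stp G m S O f) {j i : Finset T} (hj : j ∈ BO G S O f)
    (hi : i ∈ BW G S O f) {w : T} (hw : w ∈ XX G S f j i) :
    ∃ s ∈ Sx G S O f i, G.Adj w s ∧ s ∈ Nb G S j := by
  obtain ⟨hwi, hwj, y, hyS, hwy, hyf, hfy, hyj⟩ := mem_XX.1 hw
  obtain ⟨hwO, hwK⟩ := BW_sub hi hwi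
  have hwS : w ∈ S := hs.sub hwO
  have hfw : G.Adj f w := (mem_nb.1 hwK).2
  have hfS : f ∈ S := hs.fS.1
  have hfnb : f ∈ nb G S w := mem_nb.2 ⟨hfS, hfw.symm⟩
  have hZ := hs.sd.far_nb hwS hfnb
  obtain ⟨_, _, a, ha, haw⟩ := mem_Nb.1 hwj
  have haO := BO_sub hj ha
  have haS : a ∈ S := hs.sub haO.1
  have haf : a ≠ f := fun h => hs.fS.2 (h ▸ haO.1)
  have hfa : ¬ G.Adj f a := hs.f_not_adj hj ha
  obtain ⟨x, hx, s, hsZ, hxs⟩ := conn_cut hZ
    (A' := (nb G S w \ insert f (nb G (nb G S w) f)) ∩ j) inter_subset_left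
    ⟨a, mem_inter.2 ⟨mem_far_nb.2 ⟨haS, haw.symm, haf, hfa⟩, ha⟩⟩
    (fun h => hyj (by
      have : y ∈ (nb G S w \ insert f (nb G (nb G S w) f)) ∩ j := by
        rw [h]
        exact mem_far_nb.2 ⟨hyS, hwy, hyf, hfy⟩
      exact (mem_inter.1 this).2))
  rw [mem_sdiff, mem_inter, not_and] at hsZ
  have hsfar := mem_far_nb.1 hsZ.1
  have hsj : s ∉ j := hsZ.2 hsZ.1
  have hxj : x ∈ j := (mem_inter.1 hx).2
  have hsNb : s ∈ Nb G S j := mem_Nb.2 ⟨hsfar.1, hsj, x, hxj, hxs⟩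
  rcases hs.far_sub hwO hsfar.1 hsfar.2.1 hsfar.2.2.1 hsfar.2.2.2 with h | h
  · exact absurd (comps_closed hj hxj h hxs) hsj
  · exact ⟨s, mem_Sx.2 ⟨h, w, hwi, hsfar.2.1⟩, hsfar.2.1, hsNb⟩

end Pool.Agent.LibGal41

end

section

set_option linter.unusedSectionVars false
set_option linter.unusedVariables false

namespace Pool.Agent.LibGal41

open Finset Pool.Agent.LibFlagPL

variable {T : Type} [Fintype T] [DecidableEq T]

private theorem L2_XX_sub {G : SimpleGraph T} {S : Finset T} {f : T} {j i : Finset T} :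
    XX G S f j i ⊆ i := fun _ hw => (mem_XX.1 hw).1

/-- `cost` as a sum over all components -/
private theorem L2_cost {G : SimpleGraph T} {S O : Finset T} {f : T} {j i : Finset T} :
    cost G S O f j i = ∑ C ∈ CX G S O f i,
      (if (C ∩ Nb G S j).card = 0 then 0 else ((C ∩ Nb G S j).card : ℤ) - 1) := by
  classical
  unfold cost
  rw [Finset.sum_filter]
  refine Finset.sum_congr rfl fun C _ => ?_
  by_cases h : (C ∩ Nb G S j).card = 0
  · rw [if_pos h, if_neg]
    rw [Finset.card_eq_zero] at h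
    rw [h]
    exact Finset.not_nonempty_empty
  · rw [if_neg h, if_pos]
    rw [← Finset.card_pos]
    omega

/-- a component which meets `XX` contains one more vertex of `Nb G S j` -/
private theorem L2_key {G : SimpleGraph T} {m : ℕ} {S O : Finset T} {f : T}
    (hs : Stp G m S O f) {j i : Finset T} (hj : j ∈ BO G S O f)
    (hi : i ∈ BW G S O f) {C : Finset T} (hC : C ∈ CX G S O f i) :
    ((C ∩ XX G S f j i).card : ℤ) ≤
      (if (C ∩ Nb G S j).card = 0 then 0 else ((C ∩ Nb G S j).card : ℤ) - 1) := by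
  classical
  by_cases hne : (C ∩ XX G S f j i).Nonempty
  · obtain ⟨w, hw⟩ := hne
    rw [mem_inter] at hw
    obtain ⟨s, hs1, hs2, hs3⟩ := hs.L1 hj hi hw.2
    have hwi : w ∈ i := L2_XX_sub hw.2
    have hsC : s ∈ C := by
      refine comps_closed hC hw.1 (mem_union_right _ hs1) ?_
      exact bip_adj.2 ⟨hs2, Or.inl ⟨hwi, hs1⟩⟩
    have hsO : s ∉ O := (mem_Nb.1 (mem_SS.1 (mem_Sx.1 hs1).1).1).2.1
    have hsi : s ∉ XX G S f j i := fun h => hsO (BW_sub hi (L2_XX_sub h)).1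
    have h1 : insert s (C ∩ XX G S f j i) ⊆ C ∩ Nb G S j := by
      intro x hx
      rw [mem_insert, mem_inter] at hx
      rcases hx with rfl | hx
      · exact mem_inter.2 ⟨hsC, hs3⟩
      · exact mem_inter.2 ⟨hx.1, (mem_XX.1 hx.2).2.1⟩
    have h2 := card_le_card h1
    rw [card_insert_of_notMem (fun h => hsi (mem_inter.1 h).2)] at h2
    rw [if_neg (by omega)]
    omega
  · rw [not_nonempty_iff_eq_empty] at hne
    rw [hne, card_empty]
    split_ifs with h
    · simp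
    · push_cast
      omega

private theorem L2_sum {G : SimpleGraph T} {S O : Finset T} {f : T} {j i : Finset T} :
    ((XX G S f j i).card : ℤ) = ∑ C ∈ CX G S O f i, ((C ∩ XX G S f j i).card : ℤ) := by
  unfold CX
  rw [comps_card_inter, inter_eq_right.2 (L2_XX_sub.trans subset_union_left)]

theorem Stp.L2 {G : SimpleGraph T} {m : ℕ} {S O : Finset T} {f : T}
    (hs : Stp G m S O f) {j i : Finset T} (hj : j ∈ BO G S O f)
    (hi : i ∈ BW G S O f) : ((XX G S f j i).card : ℤ) ≤ cost G S O f j i := by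
  rw [L2_cost, L2_sum (O := O)]
  exact Finset.sum_le_sum fun C hC => L2_key hs hj hi hC

theorem Stp.L2' {G : SimpleGraph T} {m : ℕ} {S O : Finset T} {f : T}
    (hs : Stp G m S O f) {j i : Finset T} (hj : j ∈ BO G S O f)
    (hi : i ∈ BW G S O f) {w0 : T} (hw : w0 ∈ XX G S f j i) :
    ((XX G S f j i).card : ℤ) - 1 + ((TT G S O f w0 j).card : ℤ) ≤ cost G S O f j i := by
  classical
  have hwi : w0 ∈ i := L2_XX_sub hw
  obtain ⟨C0, hC0, hwC⟩ : ∃ C ∈ CX G S O f i, w0 ∈ C :=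
    comps_cover (mem_union_left _ hwi)
  have hTC : TT G S O f w0 j ⊆ C0 ∩ Nb G S j := by
    intro s hs1
    obtain ⟨h1, h2, h3⟩ := mem_TT.1 hs1
    have h4 : s ∈ Sx G S O f i := mem_Sx.2 ⟨h1, w0, hwi, h2⟩
    exact mem_inter.2 ⟨comps_closed hC0 hwC (mem_union_right _ h4)
      (bip_adj.2 ⟨h2, Or.inl ⟨hwi, h4⟩⟩), h3⟩
  have hdisj : Disjoint (C0 ∩ XX G S f j i) (TT G S O f w0 j) := by
    rw [Finset.disjoint_left]
    intro s h1 h2
    have h3 : s ∉ O := (mem_Nb.1 (mem_SS.1 (mem_TT.1 h2).1).1).2.1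
    exact h3 (BW_sub hi (L2_XX_sub (mem_inter.1 h1).2)).1
  have hsub : (C0 ∩ XX G S f j i) ∪ TT G S O f w0 j ⊆ C0 ∩ Nb G S j := by
    refine union_subset ?_ hTC
    exact inter_subset_inter_left fun x hx => (mem_XX.1 hx).2.1
  have h0 : (C0 ∩ XX G S f j i).card + (TT G S O f w0 j).card ≤ (C0 ∩ Nb G S j).card := by
    rw [← card_union_of_disjoint hdisj]
    exact card_le_card hsub
  have hpos : 0 < (C0 ∩ Nb G S j).card :=
    card_pos.2 ⟨w0, mem_inter.2 ⟨hwC, (mem_XX.1 hw).2.1⟩⟩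
  have hsum : ((TT G S O f w0 j).card : ℤ) - 1 = ∑ C ∈ CX G S O f i,
      (if C = C0 then ((TT G S O f w0 j).card : ℤ) - 1 else 0) := by
    rw [Finset.sum_ite_eq' (CX G S O f i) C0, if_pos hC0]
  have hgoal : ((XX G S f j i).card : ℤ) - 1 + ((TT G S O f w0 j).card : ℤ) =
      ((XX G S f j i).card : ℤ) + (((TT G S O f w0 j).card : ℤ) - 1) := by ring
  rw [hgoal, L2_cost, L2_sum (O := O), hsum, ← Finset.sum_add_distrib]
  refine Finset.sum_le_sum fun C hC => ?_
  by_cases hCC : C = C0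
  · rw [if_pos hCC, hCC, if_neg (by omega)]
    omega
  · rw [if_neg hCC, add_zero]
    exact L2_key hs hj hi hC

end Pool.Agent.LibGal41

end

section

set_option linter.unusedSectionVars false
set_option linter.unusedVariables false

namespace Pool.Agent.LibGal41

open Finset Pool.Agent.LibFlagPL

variable {T : Type} [Fintype T] [DecidableEq T]

theorem Stp.L3 {G : SimpleGraph T} {m : ℕ} {S O : Finset T} {f : T}
    (hs : Stp G m S O f) {j i : Finset T} (hj : j ∈ BO G S O f)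
    (hi : i ∈ BW G S O f) (hU : (UU G S f j i).Nonempty) :
    2 * (m : ℤ) ≤ ((XX G S f j i).card : ℤ) + ((N0 G S f j i).card : ℤ) := by
  classical
  obtain ⟨hiK, q, hqK, hqi, hqN⟩ := hs.BW_ok hi
  have hUi : UU G S f j i ⊆ i := fun w hw => (mem_UU.1 hw).1
  have h1 : 2 * m ≤ (Nb G (nb G S f) (UU G S f j i)).card := by
    refine hs.linkK.Nb_card (hUi.trans hiK) hU ⟨q, hqK, fun h => hqi (hUi h), fun h => hqN ?_⟩
    obtain ⟨_, _, a, ha, haq⟩ := mem_Nb.1 h
    exact mem_Nb.2 ⟨hqK, hqi, a, hUi ha, haq⟩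
  have h2 : Nb G (nb G S f) (UU G S f j i) ⊆ XX G S f j i ∪ N0 G S f j i := by
    intro x hx
    obtain ⟨hxK, hxU, w, hw, hwx⟩ := mem_Nb.1 hx
    obtain ⟨hwi, hwj⟩ := mem_UU.1 hw
    have hwK := hiK hwi
    obtain ⟨hwS, hfw⟩ := mem_nb.1 hwK
    obtain ⟨hxS, hfx⟩ := mem_nb.1 hxK
    obtain ⟨y, hyS, hwy, hxy, hyf, hfy⟩ :=
      hs.sd.third hwS hxS hs.fS.1 hwx hfw.symm hfx.symm
    have hyj : y ∈ j := hwj y hyS hwy hyf hfy
    have hxj : x ∉ j := fun h => (BO_sub hj h).2 hxK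
    have hxNj : x ∈ Nb G S j := mem_Nb.2 ⟨hxS, hxj, y, hyj, hxy.symm⟩
    have hwO := (BW_sub hi hwi).1
    by_cases hxO : x ∈ O
    · have hxi : x ∈ i :=
        comps_closed hi hwi (mem_inter.2 ⟨hxO, hxK⟩) hwx
      have hex : ∃ y ∈ S, G.Adj x y ∧ y ≠ f ∧ ¬ G.Adj f y ∧ y ∉ j := by
        by_contra hcon
        push Not at hcon
        exact hxU (mem_UU.2 ⟨hxi, hcon⟩)
      exact mem_union_left _ (mem_XX.2 ⟨hxi, hxNj, hex⟩)
    · have hxi : x ∉ i := fun h => hxO (BW_sub hi h).1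
      exact mem_union_right _ (mem_N0.2 ⟨mem_Nb.2 ⟨hxK, hxi, w, hwi, hwx⟩, hxNj⟩)
  have h3 := (Finset.card_le_card h2).trans (Finset.card_union_le _ _)
  have h4 : 2 * m ≤ (XX G S f j i).card + (N0 G S f j i).card := h1.trans h3
  exact_mod_cast h4

end Pool.Agent.LibGal41

end

section

set_option linter.unusedSectionVars false
set_option linter.unusedVariables false

namespace Pool.Agent.LibGal41

open Finset Pool.Agent.LibFlagPL

variable {T : Type} [Fintype T] [DecidableEq T]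

theorem Stp.L4 {G : SimpleGraph T} {m : ℕ} {S O : Finset T} {f : T}
    (hs : Stp G m S O f) {j i : Finset T} (hj : j ∈ BO G S O f)
    (hi : i ∈ BW G S O f) (hU : ¬ (UU G S f j i).Nonempty) {w0 : T} (hw : w0 ∈ i)
    (hwj : w0 ∈ Nb G S j) : w0 ∈ XX G S f j i ∧
    2 * (m : ℤ) ≤ ((XX G S f j i).card : ℤ) - 1 + ((TT G S O f w0 j).card : ℤ) +
      ((N0 G S f j i).card : ℤ) := by
  obtain ⟨hw0O, hw0f⟩ := BW_sub hi hw
  have hw0S : w0 ∈ S := hs.sub hw0O
  have hfw0 : G.Adj f w0 := (mem_nb.1 hw0f).2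
  have hX : ∀ x ∈ i, x ∈ Nb G S j → x ∈ XX G S f j i := by
    intro x hx hxj
    refine mem_XX.2 ⟨hx, hxj, ?_⟩
    by_contra hcon
    refine hU ⟨x, mem_UU.2 ⟨hx, fun y hy h1 h2 h3 => ?_⟩⟩
    by_contra h4
    exact hcon ⟨y, hy, h1, h2, h3, h4⟩
  have hK : Sd G m (nb G S w0) := hs.sd.link hw0S
  have hf0 : f ∈ nb G S w0 := mem_nb.2 ⟨hs.fS.1, hfw0.symm⟩
  have hsub : Nb G (nb G S w0) (j ∩ nb G S w0) ⊆
      ((XX G S f j i).erase w0 ∪ TT G S O f w0 j) ∪ N0 G S f j i := by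
    intro x hx
    obtain ⟨hxK, hxU, a, haU, hax⟩ := mem_Nb.1 hx
    obtain ⟨hxS, hw0x⟩ := mem_nb.1 hxK
    have haj : a ∈ j := (Finset.mem_inter.1 haU).1
    have hxj : x ∉ j := fun h => hxU (Finset.mem_inter.2 ⟨h, hxK⟩)
    have hxN : x ∈ Nb G S j := mem_Nb.2 ⟨hxS, hxj, a, haj, hax⟩
    rcases Finset.mem_union.1 (hs.Nb_BO_sub hj hxN) with h | h
    · rcases Finset.mem_union.1 h with h | h
      · have hxi : x ∈ i := comps_closed hi hw h hw0x
        refine Finset.mem_union_left _ (Finset.mem_union_left _ (Finset.mem_erase.2 ⟨?_, hX x hxi hxN⟩))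
        intro h1
        rw [h1] at hw0x
        exact G.loopless.irrefl w0 hw0x
      · exact Finset.mem_union_left _ (Finset.mem_union_right _ (mem_TT.2 ⟨h, hw0x, hxN⟩))
    · obtain ⟨h1, h2⟩ := mem_FF.1 h
      refine Finset.mem_union_right _ (mem_N0.2 ⟨mem_Nb.2 ⟨h2, ?_, w0, hw, hw0x⟩, hxN⟩)
      intro h3
      exact Nb_not_mem h1 (BW_sub hi h3).1
  obtain ⟨a, haj, haw0⟩ := (mem_Nb.1 hwj).2.2
  have hne : (j ∩ nb G S w0).Nonempty :=
    ⟨a, Finset.mem_inter.2 ⟨haj, mem_nb.2 ⟨hs.sub (BO_sub hj haj).1, haw0.symm⟩⟩⟩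
  have hcard := hK.Nb_card (U := j ∩ nb G S w0) Finset.inter_subset_right hne
    ⟨f, hf0, fun h => hs.fS.2 (BO_sub hj (Finset.mem_inter.1 h).1).1, fun h => by
      obtain ⟨_, _, b, hb, hbf⟩ := mem_Nb.1 h
      exact hs.f_not_adj hj (Finset.mem_inter.1 hb).1 hbf.symm⟩
  have hw0X : w0 ∈ XX G S f j i := hX w0 hw hwj
  refine ⟨hw0X, ?_⟩
  have h1 := Finset.card_le_card hsub
  have h2 := Finset.card_union_le ((XX G S f j i).erase w0 ∪ TT G S O f w0 j) (N0 G S f j i)
  have h3 := Finset.card_union_le ((XX G S f j i).erase w0) (TT G S O f w0 j)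
  have h4 := Finset.card_erase_add_one hw0X
  have h5 : 2 * m + 1 ≤ (XX G S f j i).card + (TT G S O f w0 j).card + (N0 G S f j i).card := by
    omega
  have h6 : (2 * (m : ℤ) + 1) ≤ ((XX G S f j i).card : ℤ) + ((TT G S O f w0 j).card : ℤ) +
      ((N0 G S f j i).card : ℤ) := by exact_mod_cast h5
  linarith

end Pool.Agent.LibGal41

end

section

set_option linter.unusedSectionVars false
set_option linter.unusedVariables false

namespace Pool.Agent.LibGal41

open Finset Pool.Agent.LibFlagPL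

variable {T : Type} [Fintype T] [DecidableEq T]

/-- Lemma 1 of the page -/
theorem Stp.lemma1 {G : SimpleGraph T} {m : ℕ} {S O : Finset T} {f : T}
    (hs : Stp G m S O f) {j i : Finset T} (hj : j ∈ BO G S O f)
    (hi : i ∈ BW G S O f) (h : BAdj G j i) :
    2 * (m : ℤ) ≤ cost G S O f j i + ((N0 G S f j i).card : ℤ) := by
  by_cases hU : (UU G S f j i).Nonempty
  · have h1 := hs.L2 hj hi
    have h2 := hs.L3 hj hi hU
    linarith
  · obtain ⟨a, ha, w, hw, haw⟩ := h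
    have hw1 : w ∈ O ∩ nb G S f := comps_sub hi hw
    have hw2 := mem_nb.1 (Finset.mem_inter.1 hw1).2
    have hwj : w ∉ j := by
      intro hwj
      have h3 : w ∈ O \ nb G S f := comps_sub hj hwj
      exact (Finset.mem_sdiff.1 h3).2 (Finset.mem_inter.1 hw1).2
    have hwN : w ∈ Nb G S j := mem_Nb.2 ⟨hw2.1, hwj, a, ha, haw⟩
    obtain ⟨h4, h5⟩ := hs.L4 hj hi hU hw hwN
    have h6 := hs.L2' hj hi h4
    linarith

end Pool.Agent.LibGal41

end

section

set_option linter.unusedSectionVars false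
set_option linter.unusedVariables false

namespace Pool.Agent.LibGal41

open Finset Pool.Agent.LibFlagPL

variable {T : Type} [Fintype T] [DecidableEq T]

theorem Stp.CX_meet {G : SimpleGraph T} {S O : Finset T} {f : T} {i : Finset T}
    {C : Finset T} (hC : C ∈ CX G S O f i) : ∃ w ∈ C, w ∈ i := by
  have hsub : C ⊆ i ∪ Sx G S O f i := comps_sub hC
  obtain ⟨x, hx⟩ := (comps_conn hC).1
  rcases Finset.mem_union.1 (hsub hx) with h | h
  · exact ⟨x, hx, h⟩
  · obtain ⟨_, w, hw, hwx⟩ := mem_Sx.1 h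
    exact ⟨w, comps_closed hC hx (Finset.mem_union_left _ hw)
      (bip_adj.2 ⟨hwx.symm, Or.inr ⟨h, hw⟩⟩), hw⟩

theorem Stp.CX_of_mem {G : SimpleGraph T} {S O : Finset T} {f : T} {i : Finset T}
    {w : T} (hw : w ∈ i) : ∃ C ∈ CX G S O f i, w ∈ C :=
  comps_cover (Finset.mem_union_left _ hw)

theorem Stp.mem_Nb_of {G : SimpleGraph T} {m : ℕ} {S O : Finset T} {f : T}
    (hs : Stp G m S O f) {i j : Finset T} (hi : i ∈ BW G S O f) (hj : j ∈ BO G S O f)
    {a w : T} (ha : a ∈ j) (hw : w ∈ i) (haw : G.Adj a w) : w ∈ Nb G S j :=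
  mem_Nb.2 ⟨hs.sub (BW_sub hi hw).1, fun h => (BO_sub hj h).2 (BW_sub hi hw).2, a, ha, haw⟩

theorem Stp.gamma_cut {G : SimpleGraph T} {m : ℕ} {S O : Finset T} {f : T}
    (hs : Stp G m S O f) {i : Finset T} (hi : i ∈ BW G S O f) :
    ∀ X' ⊆ CX G S O f i, ∀ Y' ⊆ JJ G S O f i, (X'.Nonempty ∨ Y'.Nonempty) →
      (X' ≠ CX G S O f i ∨ Y' ≠ JJ G S O f i) →
      (∃ x ∈ X', ∃ y ∈ JJ G S O f i \ Y', ((x ∩ i) ∩ Nb G S y).Nonempty) ∨
        (∃ x ∈ CX G S O f i \ X', ∃ y ∈ Y', ((x ∩ i) ∩ Nb G S y).Nonempty) := by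
  classical
  intro X' hX' Y' hY' hne hpr
  by_contra hcon
  push Not at hcon
  obtain ⟨h1, h2⟩ := hcon
  -- the key equivalence
  have K : ∀ C ∈ CX G S O f i, ∀ j ∈ JJ G S O f i, ((C ∩ i) ∩ Nb G S j).Nonempty →
      (C ∈ X' ↔ j ∈ Y') := by
    intro C hC j hj hn
    constructor
    · intro hCX
      by_contra hjY
      have := h1 C hCX j (Finset.mem_sdiff.2 ⟨hj, hjY⟩)
      rw [this] at hn
      exact Finset.not_nonempty_empty hn
    · intro hjY
      by_contra hCX
      have := h2 C (Finset.mem_sdiff.2 ⟨hC, hCX⟩) j hjY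
      rw [this] at hn
      exact Finset.not_nonempty_empty hn
  have B : ∀ j ∈ JJ G S O f i, ∃ C ∈ CX G S O f i, ((C ∩ i) ∩ Nb G S j).Nonempty := by
    intro j hj
    obtain ⟨hjB, a, ha, w, hw, haw⟩ := mem_JJ.1 hj
    obtain ⟨C, hC, hwC⟩ := Stp.CX_of_mem (G := G) (S := S) (O := O) (f := f) hw
    exact ⟨C, hC, w, Finset.mem_inter.2 ⟨Finset.mem_inter.2 ⟨hwC, hw⟩,
      hs.mem_Nb_of hi hjB ha hw haw⟩⟩
  have hX'ne : X'.Nonempty := by
    rcases hne with h | ⟨j, hj⟩
    · exact h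
    · obtain ⟨C, hC, hn⟩ := B j (hY' hj)
      exact ⟨C, (K C hC j (hY' hj) hn).2 hj⟩
  have hX'pr : ∃ C ∈ CX G S O f i, C ∉ X' := by
    by_contra hall
    push Not at hall
    have hXe : X' = CX G S O f i := Finset.Subset.antisymm hX' hall
    have hYn : Y' ≠ JJ G S O f i := by
      rcases hpr with h | h
      · exact absurd hXe h
      · exact h
    apply hYn
    refine Finset.Subset.antisymm hY' ?_
    intro j hj
    obtain ⟨C, hC, hn⟩ := B j hj
    exact (K C hC j hj hn).1 (hall C hC)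
  set P : Finset T := i.filter (fun w => ∃ C ∈ X', w ∈ C) with hP
  have hPne : P.Nonempty := by
    obtain ⟨C, hC⟩ := hX'ne
    obtain ⟨w, hwC, hwi⟩ := Stp.CX_meet (hX' hC)
    exact ⟨w, Finset.mem_filter.2 ⟨hwi, C, hC, hwC⟩⟩
  have hPpr : P ≠ i := by
    intro hPi
    obtain ⟨C, hC, hCX⟩ := hX'pr
    obtain ⟨w, hwC, hwi⟩ := Stp.CX_meet hC
    rw [← hPi] at hwi
    obtain ⟨_, C', hC', hwC'⟩ := Finset.mem_filter.1 hwi
    by_cases he : C = C'
    · exact hCX (he ▸ hC')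
    · have hd : Disjoint C C' := comps_disj hC (hX' hC') he
      exact Finset.disjoint_left.1 hd hwC hwC'
  obtain ⟨w, hwP, w', hw'P, hww'⟩ := conn_cut (BW_conn hi) (Finset.filter_subset _ _) hPne hPpr
  obtain ⟨hwi, C, hCX, hwC⟩ := Finset.mem_filter.1 hwP
  obtain ⟨hw'i, hw'n⟩ := Finset.mem_sdiff.1 hw'P
  have hwO := BW_sub hi hwi
  have hw'O := BW_sub hi hw'i
  obtain ⟨y, hyS, hwy, hw'y, hyf, hfy⟩ := Sd.third hs.sd (hs.sub hwO.1) (hs.sub hw'O.1) hs.fS.1
    hww' (mem_nb.1 hwO.2).2.symm (mem_nb.1 hw'O.2).2.symm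
  rcases hs.far_sub hwO.1 hyS hwy hyf hfy with hyO | hySS
  · obtain ⟨j, hj, hyj⟩ := comps_cover (H := G) hyO
    have hjB : j ∈ BO G S O f := hj
    have hjJ : j ∈ JJ G S O f i := mem_JJ.2 ⟨hjB, y, hyj, w, hwi, hwy.symm⟩
    obtain ⟨C', hC', hw'C'⟩ := Stp.CX_of_mem (G := G) (S := S) (O := O) (f := f) hw'i
    have hjY : j ∈ Y' := (K C (hX' hCX) j hjJ ⟨w, Finset.mem_inter.2
      ⟨Finset.mem_inter.2 ⟨hwC, hwi⟩, hs.mem_Nb_of hi hjB hyj hwi hwy.symm⟩⟩).1 hCX
    have hC'X : C' ∈ X' := (K C' hC' j hjJ ⟨w', Finset.mem_inter.2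
      ⟨Finset.mem_inter.2 ⟨hw'C', hw'i⟩, hs.mem_Nb_of hi hjB hyj hw'i hw'y.symm⟩⟩).2 hjY
    exact hw'n (Finset.mem_filter.2 ⟨hw'i, C', hC'X, hw'C'⟩)
  · have hySx : y ∈ Sx G S O f i := mem_Sx.2 ⟨hySS, w, hwi, hwy⟩
    have hyC : y ∈ C := comps_closed (hX' hCX) hwC (Finset.mem_union_right _ hySx)
      (bip_adj.2 ⟨hwy, Or.inl ⟨hwi, hySx⟩⟩)
    have hw'C : w' ∈ C := comps_closed (hX' hCX) hyC (Finset.mem_union_left _ hw'i)
      (bip_adj.2 ⟨hw'y.symm, Or.inr ⟨hySx, hw'i⟩⟩)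
    exact hw'n (Finset.mem_filter.2 ⟨hw'i, C, hCX, hw'C⟩)

theorem Stp.M1 {G : SimpleGraph T} {m : ℕ} {S O : Finset T} {f : T}
    (hs : Stp G m S O f) {i : Finset T} (hi : i ∈ BW G S O f) :
    ((CX G S O f i).card : ℤ) + ((JJ G S O f i).card : ℤ) - 1 ≤
      ∑ j ∈ JJ G S O f i, dg G S O f j i := by
  classical
  have hne : (CX G S O f i).Nonempty ∨ (JJ G S O f i).Nonempty := by
    obtain ⟨w, hw⟩ := (BW_conn hi).1
    obtain ⟨C, hC, _⟩ := Stp.CX_of_mem (G := G) (S := S) (O := O) (f := f) hw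
    exact Or.inl ⟨C, hC⟩
  have h := edges_ge (CX G S O f i) (JJ G S O f i)
    (fun C j => ((C ∩ i) ∩ Nb G S j).Nonempty) hne (by
      intro X' hX' Y' hY' h1 h2
      rcases hs.gamma_cut hi X' hX' Y' hY' h1 h2 with ⟨x, hx, y, hy, h⟩ | ⟨x, hx, y, hy, h⟩
      · exact Or.inl ⟨x, hx, y, (@Finset.mem_sdiff _ (fun a b => Classical.propDecidable (a = b))
          _ _ _).2 (Finset.mem_sdiff.1 hy), h⟩
      · exact Or.inr ⟨x, (@Finset.mem_sdiff _ (fun a b => Classical.propDecidable (a = b))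
          _ _ _).2 (Finset.mem_sdiff.1 hx), y, hy, h⟩)
  refine le_trans h (le_of_eq ?_)
  apply Finset.sum_congr rfl
  intro j hj
  unfold dg
  congr 2
  apply Finset.filter_congr_decidable

end Pool.Agent.LibGal41

end

section

set_option linter.unusedSectionVars false
set_option linter.unusedVariables false

namespace Pool.Agent.LibGal41

open Finset Pool.Agent.LibFlagPL

variable {T : Type} [Fintype T] [DecidableEq T]

/-- the blob `i` and the vertices `Sx i` are disjoint -/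
private theorem M2_disj {G : SimpleGraph T} {m : ℕ} {S O : Finset T} {f : T}
    (hs : Stp G m S O f) {i : Finset T} (hi : i ∈ BW G S O f) :
    Disjoint i (Sx G S O f i) := by
  rw [Finset.disjoint_left]
  intro x hx hx'
  have hO : x ∈ O := by
    have := comps_sub (show i ∈ comps G (O ∩ nb G S f) from hi) hx
    exact (mem_inter.1 this).1
  have h2 := (mem_SS.1 (mem_Sx.1 hx').1).1
  exact Nb_not_mem h2 hO

open scoped Classical in
theorem Stp.M2a {G : SimpleGraph T} {m : ℕ} {S O : Finset T} {f : T}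
    (hs : Stp G m S O f) {i : Finset T} (hi : i ∈ BW G S O f) (j : Finset T) :
    ((i ∩ Nb G S j).card : ℤ) + ((Sx G S O f i ∩ Nb G S j).card : ℤ) = cost G S O f j i +
      (((CX G S O f i).filter (fun C => (C ∩ Nb G S j).Nonempty)).card : ℤ) := by
  have hd := M2_disj hs hi
  have h1 := comps_card_inter (bip G i (Sx G S O f i)) (i ∪ Sx G S O f i) (Nb G S j)
  have h2 : (((i ∪ Sx G S O f i) ∩ Nb G S j).card : ℤ) =
      ((i ∩ Nb G S j).card : ℤ) + ((Sx G S O f i ∩ Nb G S j).card : ℤ) := by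
    rw [Finset.union_inter_distrib_right, Finset.card_union_of_disjoint]
    · push_cast
      rfl
    · exact Finset.disjoint_of_subset_left Finset.inter_subset_left
        (Finset.disjoint_of_subset_right Finset.inter_subset_left hd)
  rw [← h2, ← h1]
  unfold cost
  change ∑ C ∈ CX G S O f i, ((C ∩ Nb G S j).card : ℤ) = _
  rw [← Finset.sum_filter_add_sum_filter_not (CX G S O f i)
    (fun C => (C ∩ Nb G S j).Nonempty)]
  have h3 : ∑ C ∈ (CX G S O f i).filter (fun C => ¬ (C ∩ Nb G S j).Nonempty),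
      ((C ∩ Nb G S j).card : ℤ) = 0 := by
    apply Finset.sum_eq_zero
    intro C hC
    have h4 := (mem_filter.1 hC).2
    rw [Finset.not_nonempty_iff_eq_empty] at h4
    rw [h4]
    simp
  rw [h3, add_zero, Finset.sum_sub_distrib]
  simp

theorem Stp.M2b {G : SimpleGraph T} {m : ℕ} {S O : Finset T} {f : T}
    (hs : Stp G m S O f) {i : Finset T} (hi : i ∈ BW G S O f) (j : Finset T) :
    dg G S O f j i ≤ ((i ∩ Nb G S j).card : ℤ) := by
  classical
  have h1 := comps_card_inter (bip G i (Sx G S O f i)) (i ∪ Sx G S O f i) (i ∩ Nb G S j)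
  have h2 : (i ∪ Sx G S O f i) ∩ (i ∩ Nb G S j) = i ∩ Nb G S j := by
    apply Finset.inter_eq_right.2
    exact Finset.inter_subset_left.trans Finset.subset_union_left
  rw [h2] at h1
  rw [← h1]
  unfold dg
  change _ ≤ ∑ C ∈ CX G S O f i, ((C ∩ (i ∩ Nb G S j)).card : ℤ)
  rw [Finset.card_eq_sum_ones]
  push_cast
  calc ∑ C ∈ (CX G S O f i).filter (fun C => ((C ∩ i) ∩ Nb G S j).Nonempty), (1 : ℤ)
      ≤ ∑ C ∈ (CX G S O f i).filter (fun C => ((C ∩ i) ∩ Nb G S j).Nonempty),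
        ((C ∩ (i ∩ Nb G S j)).card : ℤ) := by
        apply Finset.sum_le_sum
        intro C hC
        have h4 := (mem_filter.1 hC).2
        rw [Finset.inter_assoc] at h4
        have := Finset.card_pos.2 h4
        exact_mod_cast this
    _ ≤ _ := by
        apply Finset.sum_le_sum_of_subset_of_nonneg (Finset.filter_subset _ _)
        intro C _ _
        positivity

open scoped Classical in
theorem Stp.M2c {G : SimpleGraph T} {m : ℕ} {S O : Finset T} {f : T}
    (hs : Stp G m S O f) {i : Finset T} (hi : i ∈ BW G S O f) (j : Finset T) :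
    dg G S O f j i ≤
      (((CX G S O f i).filter (fun C => (C ∩ Nb G S j).Nonempty)).card : ℤ) := by
  unfold dg
  norm_cast
  apply Finset.card_le_card
  intro C hC
  rw [mem_filter] at hC ⊢
  refine ⟨hC.1, hC.2.mono ?_⟩
  exact Finset.inter_subset_inter_right Finset.inter_subset_left

end Pool.Agent.LibGal41

end

section

set_option linter.unusedSectionVars false
set_option linter.unusedVariables false

namespace Pool.Agent.LibGal41

open Finset Pool.Agent.LibFlagPL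

variable {T : Type} [Fintype T] [DecidableEq T]

open scoped Classical in
theorem Stp.M2s {G : SimpleGraph T} {m : ℕ} {S O : Finset T} {f : T}
    (hs : Stp G m S O f) (TE : Finset (Finset T × Finset T)) {i : Finset T}
    (hi : i ∈ BW G S O f) :
    ((CX G S O f i).card : ℤ) + ((JJ G S O f i).card : ℤ) - 1 +
      ∑ j ∈ (JJ G S O f i).filter (fun j => (j, i) ∈ TE),
        (cost G S O f j i - ((Sx G S O f i ∩ Nb G S j).card : ℤ)) ≤
      ∑ j ∈ BO G S O f, ((i ∩ Nb G S j).card : ℤ) := by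
  have h1 := hs.M1 hi
  rw [Finset.sum_filter]
  have h2 : ∑ j ∈ JJ G S O f i, dg G S O f j i + ∑ j ∈ JJ G S O f i,
      (if (j, i) ∈ TE then cost G S O f j i - ((Sx G S O f i ∩ Nb G S j).card : ℤ) else 0) ≤
      ∑ j ∈ JJ G S O f i, ((i ∩ Nb G S j).card : ℤ) := by
    rw [← Finset.sum_add_distrib]
    refine Finset.sum_le_sum fun j _ => ?_
    by_cases hT : (j, i) ∈ TE
    · rw [if_pos hT]
      have h3 := hs.M2a hi j
      have h4 := hs.M2c hi j
      linarith
    · rw [if_neg hT, add_zero]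
      exact hs.M2b hi j
  have h3 : ∑ j ∈ JJ G S O f i, ((i ∩ Nb G S j).card : ℤ) ≤
      ∑ j ∈ BO G S O f, ((i ∩ Nb G S j).card : ℤ) := by
    refine Finset.sum_le_sum_of_subset_of_nonneg (fun j hj => (mem_JJ.1 hj).1) ?_
    intro j _ _
    positivity
  linarith

end Pool.Agent.LibGal41

end

section

set_option linter.unusedSectionVars false
set_option linter.unusedVariables false

namespace Pool.Agent.LibGal41

open Finset Pool.Agent.LibFlagPL

variable {T : Type} [Fintype T] [DecidableEq T]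

private theorem M3_disj {G : SimpleGraph T} {S O : Finset T} {f : T} {i : Finset T}
    (hi : i ∈ BW G S O f) : Disjoint i (Sx G S O f i) := by
  rw [Finset.disjoint_left]
  intro a ha ha2
  exact Nb_not_mem (mem_SS.1 (mem_Sx.1 ha2).1).1 (BW_sub hi ha).1

private theorem M3_sum (G H : SimpleGraph T) {A i : Finset T} (B : Finset T) (hA : i ⊆ A) :
    ∑ C ∈ comps H A, ee G (C ∩ i) B = ee G i B := by
  unfold ee
  have h1 : ∀ C : Finset T, ∑ a ∈ C ∩ i, ((nb G B a).card : ℤ) =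
      ∑ a ∈ C, (if a ∈ i then ((nb G B a).card : ℤ) else 0) := by
    intro C
    rw [Finset.sum_ite_mem]
  rw [Finset.sum_congr rfl fun C _ => h1 C, comps_sum, Finset.sum_ite_mem,
    Finset.inter_eq_right.2 hA]

theorem Stp.M3a {G : SimpleGraph T} {m : ℕ} {S O : Finset T} {f : T}
    (hs : Stp G m S O f) {i : Finset T} (hi : i ∈ BW G S O f) :
    (i.card : ℤ) + ((Sx G S O f i).card : ℤ) - ((CX G S O f i).card : ℤ) ≤
      ee G i (Sx G S O f i) := by
  have hd := M3_disj hi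
  have h1 : ∀ C ∈ CX G S O f i, ((C ∩ i).card : ℤ) + ((C ∩ Sx G S O f i).card : ℤ) - 1 ≤
      ee G (C ∩ i) (Sx G S O f i) := by
    intro C hC
    have h2 := ee_ge_of_bip_conn (G := G) hd (comps_sub hC) (comps_conn hC)
    have h3 : ee G (C ∩ i) (C ∩ Sx G S O f i) = ee G (C ∩ i) (Sx G S O f i) := by
      apply ee_congr_right
      intro a ha b hab
      rw [Finset.mem_inter] at ha
      constructor
      · intro hb
        exact (Finset.mem_inter.1 hb).2
      · intro hb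
        refine Finset.mem_inter.2 ⟨?_, hb⟩
        exact comps_closed hC ha.1 (Finset.mem_union_right _ hb)
          (bip_adj.2 ⟨hab, Or.inl ⟨ha.2, hb⟩⟩)
    rw [← h3]
    exact h2
  have h4 := Finset.sum_le_sum h1
  have h5 : ∑ C ∈ CX G S O f i, ee G (C ∩ i) (Sx G S O f i) = ee G i (Sx G S O f i) :=
    M3_sum G _ _ Finset.subset_union_left
  have h6 : ∑ C ∈ CX G S O f i, ((C ∩ i).card : ℤ) = (i.card : ℤ) := by
    have h := comps_card_inter (bip G i (Sx G S O f i)) (i ∪ Sx G S O f i) i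
    rw [Finset.inter_eq_right.2 Finset.subset_union_left] at h
    exact h
  have h7 : ∑ C ∈ CX G S O f i, ((C ∩ Sx G S O f i).card : ℤ) = ((Sx G S O f i).card : ℤ) := by
    have h := comps_card_inter (bip G i (Sx G S O f i)) (i ∪ Sx G S O f i) (Sx G S O f i)
    rw [Finset.inter_eq_right.2 Finset.subset_union_right] at h
    exact h
  rw [h5, Finset.sum_sub_distrib, Finset.sum_add_distrib, h6, h7, Finset.sum_const,
    nsmul_eq_mul, mul_one] at h4
  exact h4

theorem Stp.M3b {G : SimpleGraph T} {m : ℕ} {S O : Finset T} {f : T}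
    (hs : Stp G m S O f) :
    ee G (O ∩ nb G S f) (SS G S O f) = ∑ i ∈ BW G S O f, ee G i (Sx G S O f i) := by
  have h1 : ee G (O ∩ nb G S f) (SS G S O f) = ∑ i ∈ BW G S O f, ee G i (SS G S O f) := by
    have h2 := ee_biUnion_left G (P := comps G (O ∩ nb G S f))
      (fun C hC C' hC' hne => comps_disj hC hC' hne) (SS G S O f)
    rw [comps_biUnion] at h2
    exact h2
  rw [h1]
  refine Finset.sum_congr rfl fun i hi => ?_
  apply ee_congr_right
  intro a ha b hab
  rw [mem_Sx]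
  exact ⟨fun hb => ⟨hb, a, ha, hab⟩, fun hb => hb.1⟩

end Pool.Agent.LibGal41

end

section

set_option linter.unusedSectionVars false
set_option linter.unusedVariables false

namespace Pool.Agent.LibGal41

open Finset

/-- double counting of pairs -/
theorem dc_aux {β δ : Type} (P : Finset β) (Z : Finset δ) (R : β → δ → Prop)
    [∀ p z, Decidable (R p z)] :
    ∑ z ∈ Z, ((P.filter (fun p => R p z)).card : ℤ) =
      ∑ p ∈ P, ((Z.filter (fun z => R p z)).card : ℤ) := by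
  have h1 : ∀ z ∈ Z, ((P.filter (fun p => R p z)).card : ℤ) =
      ∑ p ∈ P, (if R p z then (1 : ℤ) else 0) := by
    intro z _
    rw [Finset.card_filter]
    push_cast
    rfl
  have h2 : ∀ p ∈ P, ((Z.filter (fun z => R p z)).card : ℤ) =
      ∑ z ∈ Z, (if R p z then (1 : ℤ) else 0) := by
    intro p _
    rw [Finset.card_filter]
    push_cast
    rfl
  rw [Finset.sum_congr rfl h1, Finset.sum_congr rfl h2, Finset.sum_comm]

theorem forest_count {β γ δ : Type} [DecidableEq β] [DecidableEq γ] [DecidableEq δ] (X : Finset β) (Y : Finset γ) (Z : Finset δ)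
    (a : β → Finset δ) (b : γ → Finset δ) (TE : Finset (β × γ))
    (hTE : ∀ p ∈ TE, p.1 ∈ X ∧ p.2 ∈ Y)
    (hfor : ∀ (A : Finset β) (B : Finset γ), (A.Nonempty ∨ B.Nonempty) →
        ((TE.filter (fun p => p.1 ∈ A ∧ p.2 ∈ B)).card : ℤ) ≤ A.card + B.card - 1)
    (hb : ∀ i ∈ Y, b i ⊆ Z)
    (hcov : ∀ z ∈ Z, (∃ j ∈ X, z ∈ a j) ∨ (∃ i ∈ Y, z ∈ b i)) :
    ∑ p ∈ TE, ((b p.2 ∩ a p.1).card : ℤ) + (Z.card : ℤ) ≤
      ∑ i ∈ Y, ((b i).card : ℤ) + ∑ j ∈ X, ((Z ∩ a j).card : ℤ) := by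
  have hz : ∀ z ∈ Z, ((TE.filter (fun p => z ∈ a p.1 ∧ z ∈ b p.2)).card : ℤ) + 1 ≤
      ((X.filter (fun j => z ∈ a j)).card : ℤ) + ((Y.filter (fun i => z ∈ b i)).card : ℤ) := by
    intro z hz
    have h := hfor (X.filter (fun j => z ∈ a j)) (Y.filter (fun i => z ∈ b i)) (by
      rcases hcov z hz with ⟨j, hj, hzj⟩ | ⟨i, hi, hzi⟩
      · exact Or.inl ⟨j, Finset.mem_filter.mpr ⟨hj, hzj⟩⟩
      · exact Or.inr ⟨i, Finset.mem_filter.mpr ⟨hi, hzi⟩⟩)
    have he : TE.filter (fun p => p.1 ∈ X.filter (fun j => z ∈ a j) ∧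
        p.2 ∈ Y.filter (fun i => z ∈ b i)) = TE.filter (fun p => z ∈ a p.1 ∧ z ∈ b p.2) := by
      apply Finset.filter_congr
      intro p hp
      simp only [Finset.mem_filter]
      constructor
      · rintro ⟨h1, h2⟩
        exact ⟨h1.2, h2.2⟩
      · rintro ⟨h1, h2⟩
        exact ⟨⟨(hTE p hp).1, h1⟩, ⟨(hTE p hp).2, h2⟩⟩
    rw [he] at h
    linarith
  have hs := Finset.sum_le_sum hz
  rw [Finset.sum_add_distrib, Finset.sum_add_distrib] at hs
  rw [dc_aux TE Z (fun p z => z ∈ a p.1 ∧ z ∈ b p.2), dc_aux X Z (fun j z => z ∈ a j),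
    dc_aux Y Z (fun i z => z ∈ b i)] at hs
  have e1 : ∀ p ∈ TE, ((Z.filter (fun z => z ∈ a p.1 ∧ z ∈ b p.2)).card : ℤ) =
      ((b p.2 ∩ a p.1).card : ℤ) := by
    intro p hp
    congr 2
    ext z
    simp only [Finset.mem_filter, Finset.mem_inter]
    constructor
    · rintro ⟨_, h1, h2⟩
      exact ⟨h2, h1⟩
    · rintro ⟨h2, h1⟩
      exact ⟨hb _ (hTE p hp).2 h2, h1, h2⟩
  have e2 : ∀ j ∈ X, ((Z.filter (fun z => z ∈ a j)).card : ℤ) = ((Z ∩ a j).card : ℤ) := by
    intro j _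
    congr 2
  have e3 : ∀ i ∈ Y, ((Z.filter (fun z => z ∈ b i)).card : ℤ) = ((b i).card : ℤ) := by
    intro i hi
    congr 2
    ext z
    simp only [Finset.mem_filter]
    exact ⟨fun h => h.2, fun h => ⟨hb i hi h, h⟩⟩
  rw [Finset.sum_congr rfl e1, Finset.sum_congr rfl e2, Finset.sum_congr rfl e3] at hs
  simp only [Finset.sum_const, nsmul_eq_mul, mul_one] at hs
  linarith

end Pool.Agent.LibGal41

end

section

set_option linter.unusedSectionVars false
set_option linter.unusedVariables false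

namespace Pool.Agent.LibGal41

open Finset Pool.Agent.LibFlagPL

variable {T : Type} [Fintype T] [DecidableEq T]

theorem Stp.M5a {G : SimpleGraph T} {m : ℕ} {S O : Finset T} {f : T}
    (hs : Stp G m S O f) (TE : Finset (Finset T × Finset T))
    (hTE : ∀ p ∈ TE, p.1 ∈ BO G S O f ∧ p.2 ∈ BW G S O f)
    (hfor : ∀ (A B : Finset (Finset T)), (A.Nonempty ∨ B.Nonempty) →
        ((TE.filter (fun p => p.1 ∈ A ∧ p.2 ∈ B)).card : ℤ) ≤ A.card + B.card - 1) :
    ∑ p ∈ TE, ((Sx G S O f p.2 ∩ Nb G S p.1).card : ℤ) + ((SS G S O f).card : ℤ) ≤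
      ∑ i ∈ BW G S O f, ((Sx G S O f i).card : ℤ) +
        ∑ j ∈ BO G S O f, ((SS G S O f ∩ Nb G S j).card : ℤ) := by
  have h := forest_count (BO G S O f) (BW G S O f) (SS G S O f) (fun j => Nb G S j)
    (fun i => Sx G S O f i) TE hTE (fun A B hAB => by
      exact hfor A B hAB) (fun i hi x hx => (mem_Sx.1 hx).1) (fun z hz => hs.blob_of_SS hz)
  exact h

theorem Stp.M5b {G : SimpleGraph T} {m : ℕ} {S O : Finset T} {f : T}
    (hs : Stp G m S O f) (TE : Finset (Finset T × Finset T))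
    (hTE : ∀ p ∈ TE, p.1 ∈ BO G S O f ∧ p.2 ∈ BW G S O f)
    (hfor : ∀ (A B : Finset (Finset T)), (A.Nonempty ∨ B.Nonempty) →
        ((TE.filter (fun p => p.1 ∈ A ∧ p.2 ∈ B)).card : ℤ) ≤ A.card + B.card - 1) :
    ∑ p ∈ TE, ((N0 G S f p.1 p.2).card : ℤ) + ((FF G S O f).card : ℤ) ≤
      ∑ i ∈ BW G S O f, ((Nb G (nb G S f) i).card : ℤ) +
        ∑ j ∈ BO G S O f, ((FF G S O f ∩ Nb G S j).card : ℤ) := by
  have h := forest_count (BO G S O f) (BW G S O f) (FF G S O f) (fun j => Nb G S j)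
    (fun i => Nb G (nb G S f) i) TE hTE (fun A B hAB => by
      exact hfor A B hAB) (fun i hi => hs.Nb_BW_sub hi) (fun z hz => hs.blob_of_FF hz)
  unfold N0
  exact h

theorem Stp.M5c {G : SimpleGraph T} {m : ℕ} {S O : Finset T} {f : T}
    (hs : Stp G m S O f) :
    ((BO G S O f).card : ℤ) + ((BW G S O f).card : ℤ) - 1 ≤
      ∑ i ∈ BW G S O f, ((JJ G S O f i).card : ℤ) := by
  classical
  have h := edges_ge (BO G S O f) (BW G S O f) (BAdj G) (Or.inr hs.BW_nonempty) (by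
    intro X' hX' Y' hY' h1 h2
    rcases hs.blob_cut X' hX' Y' hY' h1 h2 with ⟨x, hx, y, hy, hxy⟩ | ⟨x, hx, y, hy, hxy⟩
    · exact Or.inl ⟨x, hx, y, by simpa only [Finset.mem_sdiff] using hy, hxy⟩
    · exact Or.inr ⟨x, by simpa only [Finset.mem_sdiff] using hx, y, hy, hxy⟩)
  refine h.trans (le_of_eq ?_)
  refine Finset.sum_congr rfl fun i _ => ?_
  congr 2

end Pool.Agent.LibGal41

end

section

set_option linter.unusedSectionVars false
set_option linter.unusedVariables false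

namespace Pool.Agent.LibGal41

open Finset Pool.Agent.LibFlagPL

variable {T : Type} [Fintype T] [DecidableEq T]

theorem Stp.M6a {G : SimpleGraph T} {m : ℕ} {S O : Finset T} {f : T}
    (hs : Stp G m S O f) {j : Finset T} (hj : j ∈ BO G S O f) :
    ((Nb G S j).card : ℤ) = (((O ∩ nb G S f) ∩ Nb G S j).card : ℤ) +
      ((SS G S O f ∩ Nb G S j).card : ℤ) + ((FF G S O f ∩ Nb G S j).card : ℤ) := by
  classical
  have hsub := hs.Nb_BO_sub hj
  have hSO : Disjoint (O ∩ nb G S f) (SS G S O f) := by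
    rw [Finset.disjoint_left]
    intro x hx hx'
    exact (Nb_not_mem (mem_SS.1 hx').1) (mem_inter.1 hx).1
  have hFO : Disjoint (O ∩ nb G S f) (FF G S O f) := by
    rw [Finset.disjoint_left]
    intro x hx hx'
    exact (Nb_not_mem (mem_FF.1 hx').1) (mem_inter.1 hx).1
  have h1 : Nb G S j = ((O ∩ nb G S f) ∩ Nb G S j) ∪ (SS G S O f ∩ Nb G S j) ∪
      (FF G S O f ∩ Nb G S j) := by
    rw [← Finset.union_inter_distrib_right, ← Finset.union_inter_distrib_right]
    exact (Finset.inter_eq_right.2 hsub).symm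
  have h2 : (Nb G S j).card = (((O ∩ nb G S f) ∩ Nb G S j).card +
      (SS G S O f ∩ Nb G S j).card) + (FF G S O f ∩ Nb G S j).card := by
    conv_lhs => rw [h1]
    rw [Finset.card_union_of_disjoint, Finset.card_union_of_disjoint]
    · exact hSO.mono Finset.inter_subset_left Finset.inter_subset_left
    · rw [Finset.disjoint_union_left]
      exact ⟨hFO.mono Finset.inter_subset_left Finset.inter_subset_left,
        SS_disj_FF.mono Finset.inter_subset_left Finset.inter_subset_left⟩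
  exact_mod_cast h2

theorem Stp.M6b {G : SimpleGraph T} {m : ℕ} {S O : Finset T} {f : T}
    (hs : Stp G m S O f) :
    ∑ i ∈ BW G S O f, ∑ j ∈ BO G S O f, ((i ∩ Nb G S j).card : ℤ) =
      ∑ j ∈ BO G S O f, (((O ∩ nb G S f) ∩ Nb G S j).card : ℤ) := by
  classical
  rw [Finset.sum_comm]
  refine Finset.sum_congr rfl fun j _ => ?_
  exact comps_card_inter G (O ∩ nb G S f) (Nb G S j)

open scoped Classical in
theorem Stp.M6c {G : SimpleGraph T} {m : ℕ} {S O : Finset T} {f : T}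
    (hs : Stp G m S O f) (TE : Finset (Finset T × Finset T))
    (hTE : ∀ p ∈ TE, p.1 ∈ BO G S O f ∧ p.2 ∈ BW G S O f ∧ BAdj G p.1 p.2)
    (g : Finset T → Finset T → ℤ) :
    ∑ i ∈ BW G S O f, ∑ j ∈ (JJ G S O f i).filter (fun j => (j, i) ∈ TE), g j i =
      ∑ p ∈ TE, g p.1 p.2 := by
  classical
  rw [Finset.sum_sigma']
  refine Finset.sum_bij' (fun x _ => ((x.2, x.1) : Finset T × Finset T))
    (fun p _ => (⟨p.2, p.1⟩ : (_ : Finset T) × Finset T)) ?_ ?_ ?_ ?_ ?_
  · rintro ⟨i, j⟩ hx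
    rw [Finset.mem_sigma, mem_filter] at hx
    exact hx.2.2
  · rintro ⟨j, i⟩ hp
    obtain ⟨h1, h2, h3⟩ := hTE _ hp
    rw [Finset.mem_sigma, mem_filter]
    exact ⟨h2, mem_JJ.2 ⟨h1, h3⟩, hp⟩
  · rintro ⟨i, j⟩ _
    rfl
  · rintro ⟨j, i⟩ _
    rfl
  · rintro ⟨i, j⟩ _
    rfl

end Pool.Agent.LibGal41

end

section

set_option linter.unusedSectionVars false
set_option linter.unusedVariables false

namespace Pool.Agent.LibGal41

open Finset Pool.Agent.LibFlagPL

variable {T : Type} [Fintype T] [DecidableEq T]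

/-- Lemma 2 of the page (with the bound `(STAR)`, slack `|BW| - 1`) -/
theorem Stp.star {G : SimpleGraph T} {m : ℕ} {S O : Finset T} {f : T}
    (hs : Stp G m S O f) :
    ((O ∩ nb G S f).card : ℤ) + ((SS G S O f).card : ℤ) + ((FF G S O f).card : ℤ) +
      ((BO G S O f).card : ℤ) - 1 +
      2 * (m : ℤ) * (((BO G S O f).card : ℤ) + ((BW G S O f).card : ℤ) - 1) ≤
    ∑ j ∈ BO G S O f, ((Nb G S j).card : ℤ) +
      ∑ i ∈ BW G S O f, ((Nb G (nb G S f) i).card : ℤ) +
      ee G (O ∩ nb G S f) (SS G S O f) := by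
  classical
  obtain ⟨TE, hTE, hcard, hfor⟩ := exists_tree (BO G S O f) (BW G S O f) (BAdj G)
    (Or.inr hs.BW_nonempty) (by
    intro X' hX' Y' hY' h1 h2
    rcases hs.blob_cut X' hX' Y' hY' h1 h2 with ⟨x, hx, y, hy, hxy⟩ | ⟨x, hx, y, hy, hxy⟩
    · exact Or.inl ⟨x, hx, y, by simpa only [Finset.mem_sdiff] using hy, hxy⟩
    · exact Or.inr ⟨x, by simpa only [Finset.mem_sdiff] using hx, y, hy, hxy⟩)
  have hTE' : ∀ p ∈ TE, p.1 ∈ BO G S O f ∧ p.2 ∈ BW G S O f := fun p hp =>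
    ⟨(hTE p hp).1, (hTE p hp).2.1⟩
  have hfor' : ∀ (A B : Finset (Finset T)), (A.Nonempty ∨ B.Nonempty) →
      ((TE.filter (fun p => p.1 ∈ A ∧ p.2 ∈ B)).card : ℤ) ≤ A.card + B.card - 1 := by
    intro A B hAB
    refine le_of_eq_of_le (congrArg (fun s : Finset (Finset T × Finset T) =>
      ((s.card : ℕ) : ℤ)) ?_) (hfor A B hAB)
    ext p
    simp only [Finset.mem_filter]
  -- (1)
  have e1 := Finset.sum_le_sum (fun i hi => hs.M2s TE hi)
  rw [hs.M6b] at e1
  rw [Finset.sum_add_distrib, hs.M6c TE hTE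
    (fun j i => cost G S O f j i - ((Sx G S O f i ∩ Nb G S j).card : ℤ))] at e1
  simp only [Finset.sum_sub_distrib, Finset.sum_add_distrib, Finset.sum_const, nsmul_eq_mul,
    mul_one] at e1
  -- (2)
  have e2 := Finset.sum_le_sum (fun i hi => hs.M3a hi)
  rw [← hs.M3b] at e2
  simp only [Finset.sum_sub_distrib, Finset.sum_add_distrib] at e2
  rw [hs.BO_card_sum.2] at e2
  -- (3), (4), (5)
  have e3 := hs.M5a TE hTE' hfor'
  have e4 := hs.M5b TE hTE' hfor'
  have e5 := hs.M5c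
  -- (6)
  have e6 := Finset.sum_congr rfl (fun j hj => hs.M6a (j := j) hj)
  simp only [Finset.sum_add_distrib] at e6
  -- (7)
  have e7 : ∑ p ∈ TE, (2 * (m : ℤ)) ≤
      ∑ p ∈ TE, (cost G S O f p.1 p.2 + ((N0 G S f p.1 p.2).card : ℤ)) :=
    Finset.sum_le_sum (fun p hp => hs.lemma1 (hTE p hp).1 (hTE p hp).2.1 (hTE p hp).2.2)
  rw [Finset.sum_const, nsmul_eq_mul, Finset.sum_add_distrib, hcard] at e7
  linarith

end Pool.Agent.LibGal41

end

section

set_option linter.unusedSectionVars false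
set_option linter.unusedVariables false

namespace Pool.Agent.LibGal41

open Finset Pool.Agent.LibFlagPL

variable {T : Type} [Fintype T] [DecidableEq T]

theorem Stp.step {G : SimpleGraph T} {m : ℕ} {S O : Finset T} {f : T}
    (hs : Stp G m S O f) (hK : CC G m (nb G S f))
    (hO : ∀ j ∈ BO G S O f, 2 * ((Nb G S j).card : ℤ) +
      2 * (2 * ((m + 1 : ℕ) : ℤ) - 1) * ((j.card : ℤ) - 1) ≤ inc2 G S j) :
    2 * ((Nb G S O).card : ℤ) + 2 * (2 * ((m + 1 : ℕ) : ℤ) - 1) * ((O.card : ℤ) - 1) ≤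
      inc2 G S O := by
  have hO' : ∀ j ∈ BO G S O f, 2 * ((Nb G S j).card : ℤ) +
      (2 * (2 * ((m + 1 : ℕ) : ℤ) - 1) * (j.card : ℤ) - 2 * (2 * ((m + 1 : ℕ) : ℤ) - 1)) ≤
        inc2 G S j := by
    intro j hj
    have h := hO j hj
    have h1 : 2 * (2 * ((m + 1 : ℕ) : ℤ) - 1) * ((j.card : ℤ) - 1) =
        2 * (2 * ((m + 1 : ℕ) : ℤ) - 1) * (j.card : ℤ) - 2 * (2 * ((m + 1 : ℕ) : ℤ) - 1) := by
      ring
    rwa [h1] at h
  have hK' : ∀ i ∈ BW G S O f, 2 * ((Nb G (nb G S f) i).card : ℤ) +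
      (2 * (2 * (m : ℤ) - 1) * (i.card : ℤ) - 2 * (2 * (m : ℤ) - 1)) ≤
        inc2 G (nb G S f) i := by
    intro i hi
    have h := hK i (hs.BW_ok hi).1 (BW_conn hi) (hs.BW_ok hi).2
    have h1 : 2 * (2 * (m : ℤ) - 1) * ((i.card : ℤ) - 1) =
        2 * (2 * (m : ℤ) - 1) * (i.card : ℤ) - 2 * (2 * (m : ℤ) - 1) := by
      ring
    rwa [h1] at h
  have s1 := Finset.sum_le_sum hO'
  have s2 := Finset.sum_le_sum hK'
  rw [Finset.sum_add_distrib, Finset.sum_sub_distrib, ← Finset.mul_sum, ← Finset.mul_sum,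
    Finset.sum_const, nsmul_eq_mul] at s1 s2
  obtain ⟨c1, c2⟩ := hs.BO_card_sum
  rw [c2] at c1 s2
  have c3 : ∑ j ∈ BO G S O f, (j.card : ℤ) = (O.card : ℤ) - ((O ∩ nb G S f).card : ℤ) := by
    linarith
  rw [c3] at s1
  have h2 := hs.star
  have h3 := hs.card_Nb
  have h4 := hs.inc2_eq
  have h5 : (1 : ℤ) ≤ ((BW G S O f).card : ℤ) := by
    exact_mod_cast Finset.card_pos.2 hs.BW_nonempty
  push_cast at s1 ⊢
  rw [h4, h3]
  generalize (∑ j ∈ BO G S O f, inc2 G S j) = I1 at *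
  generalize (∑ i ∈ BW G S O f, inc2 G (nb G S f) i) = I2 at *
  generalize (∑ j ∈ BO G S O f, ((Nb G S j).card : ℤ)) = N1 at *
  generalize (∑ i ∈ BW G S O f, ((Nb G (nb G S f) i).card : ℤ)) = N2 at *
  generalize ee G (O ∩ nb G S f) (SS G S O f) = e at *
  generalize ((O ∩ nb G S f).card : ℤ) = w at *
  generalize (O.card : ℤ) = o at *
  generalize ((SS G S O f).card : ℤ) = s at *
  generalize ((FF G S O f).card : ℤ) = ff at *
  generalize ((BO G S O f).card : ℤ) = k at *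
  generalize ((BW G S O f).card : ℤ) = l at *
  generalize (m : ℤ) = M at *
  nlinarith [s1, s2, h2, h5]

end Pool.Agent.LibGal41

end

section

set_option linter.unusedSectionVars false
set_option linter.unusedVariables false

namespace Pool.Agent.LibGal41

open Finset Pool.Agent.LibFlagPL

variable {T : Type} [Fintype T] [DecidableEq T]

theorem exists_f {G : SimpleGraph T} {m : ℕ} {S O : Finset T} (h : Sd G (m + 1) S)
    (hO : O ⊆ S) (hc : Conn G O) (hq : ∃ q ∈ S, q ∉ O ∧ q ∉ Nb G S O) :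
    ∃ f, Stp G m S O f := by
  obtain ⟨q, hqS, hqO, hqN⟩ := hq
  obtain ⟨o, ho⟩ := hc.1
  have hqQ : q ∈ S \ (O ∪ Nb G S O) := by
    rw [Finset.mem_sdiff, Finset.mem_union]
    exact ⟨hqS, fun h1 => h1.elim hqO hqN⟩
  have hne : S \ (O ∪ Nb G S O) ≠ S := by
    intro h1
    have h2 : o ∈ S \ (O ∪ Nb G S O) := by
      rw [h1]
      exact hO ho
    rw [Finset.mem_sdiff, Finset.mem_union] at h2
    exact h2.2 (Or.inl ho)
  obtain ⟨x, hx, y, hy, hxy⟩ := conn_cut (Sd.conn h) Finset.sdiff_subset ⟨q, hqQ⟩ hne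
  rw [Finset.mem_sdiff, Finset.mem_union, not_or] at hx
  rw [Finset.mem_sdiff] at hy
  have hyS := hy.1
  have hy2 : y ∈ O ∪ Nb G S O := by
    by_contra h1
    exact hy.2 (Finset.mem_sdiff.2 ⟨hyS, h1⟩)
  rcases Finset.mem_union.1 hy2 with h1 | h1
  · exact absurd (mem_Nb.2 ⟨hx.1, hx.2.1, y, h1, hxy.symm⟩) hx.2.2
  · exact ⟨y, h, hO, hc, h1, x, hx.1, hx.2.1, hx.2.2, hxy.symm⟩

end Pool.Agent.LibGal41

end

section

set_option linter.unusedSectionVars false
set_option linter.unusedVariables false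

namespace Pool.Agent.LibGal41

open Finset Pool.Agent.LibFlagPL

variable {T : Type} [Fintype T] [DecidableEq T]

theorem cc_zero {G : SimpleGraph T} {S : Finset T} (h : Sd G 0 S) : CC G 0 S := by
  intro O hO hc _
  have hno : ∀ a ∈ S, ∀ b ∈ S, ¬ G.Adj a b := h.2
  have hNb : Nb G S O = ∅ := by
    rw [Finset.eq_empty_iff_forall_notMem]
    intro x hx
    obtain ⟨h1, _, a, ha, h2⟩ := mem_Nb.1 hx
    exact hno a (hO ha) x h1 h2
  have hcard : 1 ≤ O.card := Finset.card_pos.2 hc.1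
  have h1 : (1 : ℤ) ≤ (O.card : ℤ) := by exact_mod_cast hcard
  have h2 := ee_nonneg G O O
  have h3 := ee_nonneg G O (S \ O)
  rw [hNb, Finset.card_empty]
  unfold inc2
  push_cast
  linarith

private theorem F3_aux {G : SimpleGraph T} {m : ℕ} {S : Finset T} (h : Sd G (m + 1) S)
    (IH : ∀ v ∈ S, CC G m (nb G S v)) (n : ℕ) : ∀ O : Finset T, O.card = n → O ⊆ S → Conn G O →
      (∃ q ∈ S, q ∉ O ∧ q ∉ Nb G S O) →
        2 * ((Nb G S O).card : ℤ) + 2 * (2 * ((m + 1 : ℕ) : ℤ) - 1) * ((O.card : ℤ) - 1) ≤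
          inc2 G S O := by
  induction n using Nat.strong_induction_on with
  | _ n ih =>
    intro O hn hO hc hq
    obtain ⟨f, hs⟩ := exists_f h hO hc hq
    refine hs.step (IH f hs.fS.1) fun j hj => ?_
    obtain ⟨h1, h2, h3⟩ := hs.BO_ok hj
    exact ih j.card (hn ▸ h2) j rfl h1 (BO_conn hj) h3

theorem cc_succ {G : SimpleGraph T} {m : ℕ} {S : Finset T} (h : Sd G (m + 1) S)
    (IH : ∀ v ∈ S, CC G m (nb G S v)) : CC G (m + 1) S :=
  fun O hO hc hq => F3_aux h IH O.card O rfl hO hc hq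

/-- the inequality `(C)` -/
theorem Sd.cc {G : SimpleGraph T} {m : ℕ} {S : Finset T} (h : Sd G m S) : CC G m S := by
  induction m generalizing S with
  | zero => exact cc_zero h
  | succ m ih => exact cc_succ h fun v hv => ih (Sd.link h hv)

end Pool.Agent.LibGal41

end

section

set_option linter.unusedSectionVars false
set_option linter.unusedVariables false

namespace Pool.Agent.LibGal41

open Finset Pool.Agent.LibFlagPL

variable {T : Type} [Fintype T] [DecidableEq T]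

private theorem F4_Nb {G : SimpleGraph T} {m : ℕ} {S : Finset T} (h : Sd G (m + 1) S) {z : T}
    (hz : z ∈ S) : Nb G S (S \ insert z (nb G S z)) = nb G S z := by
  ext x
  rw [mem_Nb, mem_nb, mem_far]
  constructor
  · rintro ⟨hx, hxO, a, ha, hax⟩
    refine ⟨hx, ?_⟩
    by_contra hzx
    have hxz : x = z := by
      by_contra hne
      exact hxO ⟨hx, hne, hzx⟩
    subst hxz
    exact (mem_far.1 ha).2.2 hax.symm
  · rintro ⟨hx, hzx⟩
    refine ⟨hx, fun hc => hc.2.2 hzx, ?_⟩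
    obtain ⟨y, hy⟩ := (Sd.far_nb h hx (f := z) (mem_nb.2 ⟨hz, hzx.symm⟩)).1
    rw [mem_far_nb] at hy
    exact ⟨y, mem_far.2 ⟨hy.1, hy.2.2.1, hy.2.2.2⟩, hy.2.1.symm⟩

/-- `gamma_2` of a vertex link is at most `gamma_2` -/
theorem gal2_link {G : SimpleGraph T} {m : ℕ} {S : Finset T} (h : Sd G (m + 1) S) {z : T}
    (hz : z ∈ S) : g2 G m (nb G S z) ≤ g2 G (m + 1) S := by
  have hNb := F4_Nb h hz
  have hzK : z ∉ nb G S z := fun hc => G.loopless.irrefl z (mem_nb.1 hc).2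
  have hsub : insert z (nb G S z) ⊆ S := by
    intro x hx
    rcases mem_insert.1 hx with rfl | hx
    · exact hz
    · exact nb_sub hx
  have hcc := Sd.cc h (S \ insert z (nb G S z)) sdiff_subset (h.far hz)
    ⟨z, hz, fun hc => (mem_far.1 hc).2.1 rfl, by rw [hNb]; exact hzK⟩
  rw [hNb] at hcc
  have hcard : ((S \ insert z (nb G S z)).card : ℤ) = (S.card : ℤ) - 1 - ((nb G S z).card : ℤ) := by
    have h1 := card_sdiff_add_card_eq_card hsub
    rw [card_insert_of_notMem hzK] at h1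
    have h2 : (((S \ insert z (nb G S z)).card + ((nb G S z).card + 1) : ℕ) : ℤ) = (S.card : ℤ) := by
      rw [h1]
    push_cast at h2
    linarith
  rw [hcard] at hcc
  have hSO : S \ (S \ insert z (nb G S z)) = insert z (nb G S z) :=
    Finset.sdiff_sdiff_eq_self hsub
  have hins : insert z (nb G S z) = {z} ∪ nb G S z := rfl
  have hdz : Disjoint ({z} : Finset T) (nb G S z) := disjoint_singleton_left.2 hzK
  have hOz : ee G (S \ insert z (nb G S z)) {z} = 0 := by
    apply ee_zero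
    intro a ha b hb hab
    rw [mem_singleton] at hb
    subst hb
    exact (mem_far.1 ha).2.2 hab.symm
  have hOi : ee G (S \ insert z (nb G S z)) (insert z (nb G S z)) =
      ee G (S \ insert z (nb G S z)) (nb G S z) := by
    have h1 : ee G (S \ insert z (nb G S z)) ({z} ∪ nb G S z) =
        ee G (S \ insert z (nb G S z)) {z} + ee G (S \ insert z (nb G S z)) (nb G S z) :=
      ee_union_right G _ hdz
    rw [hOz, zero_add] at h1
    exact h1
  have hzz : ee G ({z} : Finset T) {z} = 0 := by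
    apply ee_zero
    intro a ha b hb hab
    rw [mem_singleton] at ha hb
    subst ha
    subst hb
    exact G.loopless.irrefl _ hab
  have hKz : ee G (nb G S z) {z} = ((nb G S z).card : ℤ) :=
    ee_star fun a ha => (mem_nb.1 ha).2.symm
  have hzK' : ee G ({z} : Finset T) (nb G S z) = ((nb G S z).card : ℤ) := by
    rw [ee_comm]
    exact hKz
  have hii : ee G (insert z (nb G S z)) (insert z (nb G S z)) =
      ee G (nb G S z) (nb G S z) + 2 * ((nb G S z).card : ℤ) := by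
    rw [hins, ee_union_left G _ hdz, ee_union_right G _ hdz, ee_union_right G _ hdz, hzz, hKz,
      hzK']
    ring
  have hinc : inc2 G S (S \ insert z (nb G S z)) =
      ee G (S \ insert z (nb G S z)) (S \ insert z (nb G S z)) +
        2 * ee G (S \ insert z (nb G S z)) (nb G S z) := by
    unfold inc2
    rw [hSO, hOi]
  have hSS : ee G S S = ee G (S \ insert z (nb G S z)) (S \ insert z (nb G S z)) +
      2 * ee G (S \ insert z (nb G S z)) (nb G S z) + ee G (nb G S z) (nb G S z) +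
        2 * ((nb G S z).card : ℤ) := by
    have hS : S = (S \ insert z (nb G S z)) ∪ insert z (nb G S z) :=
      (sdiff_union_of_subset hsub).symm
    have hd : Disjoint (S \ insert z (nb G S z)) (insert z (nb G S z)) := sdiff_disjoint
    have h1 : ee G ((S \ insert z (nb G S z)) ∪ insert z (nb G S z))
        ((S \ insert z (nb G S z)) ∪ insert z (nb G S z)) =
        ee G (S \ insert z (nb G S z)) (S \ insert z (nb G S z)) +
      2 * ee G (S \ insert z (nb G S z)) (nb G S z) + ee G (nb G S z) (nb G S z) +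
        2 * ((nb G S z).card : ℤ) := by
      rw [ee_union_left G _ hd, ee_union_right G _ hd, ee_union_right G _ hd, hOi,
        ee_comm G (insert z (nb G S z)) (S \ insert z (nb G S z)), hOi, hii]
      ring
    rw [← hS] at h1
    exact h1
  rw [hinc] at hcc
  unfold g2
  push_cast at hcc ⊢
  linarith

end Pool.Agent.LibGal41

end

section

set_option linter.unusedSectionVars false
set_option linter.unusedVariables false

namespace Pool.Agent.LibGal41

open Finset Pool.Agent.LibFlagPL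

variable {T : Type} [Fintype T] [DecidableEq T]

/-- `gamma_2 ≥ 0` -/
theorem gal2_nonneg {G : SimpleGraph T} {m : ℕ} {S : Finset T} (h : Sd G m S) :
    0 ≤ g2 G m S := by
  induction m generalizing S with
  | zero =>
    obtain ⟨h1, h2⟩ : S.card = 2 ∧ ∀ a ∈ S, ∀ b ∈ S, ¬ G.Adj a b := h
    have h0 : ee G S S = 0 := ee_zero h2
    unfold g2
    rw [h0, h1]
    norm_num
  | succ m ih =>
    obtain ⟨z, hz⟩ := h.nonempty
    exact (ih (h.link hz)).trans (gal2_link h hz)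

end Pool.Agent.LibGal41

end
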