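import Pool.Agent.LibFlagPL.Complexes

/-!
# LibFlagPL.SurfA: circles and flag 2-spheres
-/

section

namespace Pool.Agent.LibFlagPL

open Finset

variable {N : ℕ}

private theorem P5a_pair {T : Type} [DecidableEq T] {s : Finset T} (hs : s.card = 2) {a b x : T}
    (ha : a ∈ s) (hb : b ∈ s) (hab : a ≠ b) (hx : x ∈ s) : x = a ∨ x = b := by
  by_contra hne
  rw [not_or] at hne
  have h1 : ({x, a, b} : Finset T) ⊆ s := by
    intro y hy
    rw [Finset.mem_insert, Finset.mem_insert, Finset.mem_singleton] at hy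
    rcases hy with hy | hy | hy
    · rw [hy]
      exact hx
    · rw [hy]
      exact ha
    · rw [hy]
      exact hb
  have h2 := Finset.card_le_card h1
  rw [Finset.card_insert_of_notMem, Finset.card_pair hab] at h2
  · omega
  · rw [Finset.mem_insert, Finset.mem_singleton, not_or]
    exact hne

private theorem P5a_closed {T : Type} [Fintype T] [DecidableEq T] {G : SimpleGraph T}
    {S A : Finset T} (h : Conn G S) (hA : A ⊆ S)
    (hne : A.Nonempty) (hcl : ∀ a ∈ A, ∀ b ∈ S, G.Adj a b → b ∈ A) : A = S := by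
  obtain ⟨x, hx⟩ := hne
  have key : ∀ y, Relation.ReflTransGen (fun a b => a ∈ S ∧ b ∈ S ∧ G.Adj a b) x y →
      y ∈ A := by
    intro y hxy
    induction hxy with
    | refl => exact hx
    | tail _ h2 ih => exact hcl _ ih _ h2.2.1 h2.2.2
  exact Finset.Subset.antisymm hA fun y hy => key y (h.2 x (hA hx) y hy)

private theorem P5a_ctr {T : Type} [Fintype T] [DecidableEq T] {G : SimpleGraph T}
    {u v s t : T} : (ctr G u v).Adj s t ↔
      (s ≠ t ∧ s ≠ v ∧ t ≠ v ∧ (G.Adj s t ∨ (s = u ∧ G.Adj v t) ∨ (t = u ∧ G.Adj v s))) :=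
  Iff.rfl

theorem circle_oct1 {T : Type} [Fintype T] [DecidableEq T] {G : SimpleGraph T} {S : Finset T}
    (h : Circle G S) (h4 : S.card = 4) : Oct1 G S := by
  intro v hv
  have hsub : nb G S v ⊆ S.erase v := by
    intro x hx
    have h1 := mem_nb.1 hx
    exact Finset.mem_erase.2 ⟨h1.2.ne.symm, h1.1⟩
  have hcard : (S.erase v \ nb G S v).card = 1 := by
    rw [Finset.card_sdiff_of_subset hsub, Finset.card_erase_of_mem hv, h4, h.2.1 v hv]
  obtain ⟨w, hw⟩ := Finset.card_eq_one.1 hcard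
  have hw' : w ∈ S.erase v \ nb G S v := by
    rw [hw]
    exact Finset.mem_singleton_self w
  rw [Finset.mem_sdiff, Finset.mem_erase, mem_nb] at hw'
  refine ⟨w, hw'.1.2, hw'.1.1, fun hadj => hw'.2 ⟨hw'.1.2, hadj⟩, ?_⟩
  intro t ht htv htw
  by_contra hadj
  apply htw
  have h1 : t ∈ S.erase v \ nb G S v := by
    rw [Finset.mem_sdiff, Finset.mem_erase, mem_nb]
    exact ⟨⟨htv, ht⟩, fun h2 => hadj h2.2⟩
  rw [hw, Finset.mem_singleton] at h1
  exact h1

theorem circle_GE {T : Type} [Fintype T] [DecidableEq T] {G : SimpleGraph T} {S : Finset T}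
    (h : Circle G S) (h5 : 5 ≤ S.card) {u v : T} (hu : u ∈ S) (hv : v ∈ S)
    (huv : G.Adj u v) : GE G S u v := by
  refine ⟨hu, hv, huv, ?_⟩
  intro w hw t ht hwu htv hvw hwt htu
  exfalso
  have h1 : ({u, v, w, t} : Finset T) = S := by
    refine P5a_closed h.2.2 ?_ ⟨u, by simp⟩ ?_
    · intro x hx
      simp only [Finset.mem_insert, Finset.mem_singleton] at hx
      rcases hx with hx | hx | hx | hx
      · rw [hx]
        exact hu
      · rw [hx]
        exact hv
      · rw [hx]
        exact hw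
      · rw [hx]
        exact ht
    · intro a ha b hb hab
      simp only [Finset.mem_insert, Finset.mem_singleton] at ha ⊢
      rcases ha with ha | ha | ha | ha
      · rw [ha] at hab
        rcases P5a_pair (h.2.1 u hu) (mem_nb.2 ⟨hv, huv⟩) (mem_nb.2 ⟨ht, htu.symm⟩)
          (Ne.symm htv) (mem_nb.2 ⟨hb, hab⟩) with h2 | h2
        · exact Or.inr (Or.inl h2)
        · exact Or.inr (Or.inr (Or.inr h2))
      · rw [ha] at hab
        rcases P5a_pair (h.2.1 v hv) (mem_nb.2 ⟨hu, huv.symm⟩) (mem_nb.2 ⟨hw, hvw⟩)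
          (Ne.symm hwu) (mem_nb.2 ⟨hb, hab⟩) with h2 | h2
        · exact Or.inl h2
        · exact Or.inr (Or.inr (Or.inl h2))
      · rw [ha] at hab
        rcases P5a_pair (h.2.1 w hw) (mem_nb.2 ⟨hv, hvw.symm⟩) (mem_nb.2 ⟨ht, hwt⟩)
          (Ne.symm htv) (mem_nb.2 ⟨hb, hab⟩) with h2 | h2
        · exact Or.inr (Or.inl h2)
        · exact Or.inr (Or.inr (Or.inr h2))
      · rw [ha] at hab
        rcases P5a_pair (h.2.1 t ht) (mem_nb.2 ⟨hu, htu⟩) (mem_nb.2 ⟨hw, hwt.symm⟩)
          (Ne.symm hwu) (mem_nb.2 ⟨hb, hab⟩) with h2 | h2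
        · exact Or.inl h2
        · exact Or.inr (Or.inr (Or.inl h2))
  have h2 : ({u, v, w, t} : Finset T).card ≤ 4 := Finset.card_le_four
  rw [h1] at h2
  omega

theorem circle_ctr {T : Type} [Fintype T] [DecidableEq T] {G : SimpleGraph T} {S : Finset T}
    (h : Circle G S) (h5 : 5 ≤ S.card) {u v : T} (hu : u ∈ S) (hv : v ∈ S)
    (huv : G.Adj u v) : Circle (ctr G u v) (S.erase v) := by
  have huv' : u ≠ v := huv.ne
  refine ⟨?_, ?_, ?_⟩
  · rw [Finset.card_erase_of_mem hv]
    omega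
  · intro s hs
    rw [Finset.mem_erase] at hs
    by_cases hsu : s = u
    · rw [hsu]
      obtain ⟨a, b, hab, _, hnu⟩ := h.nb_eq hu
      obtain ⟨c, d, hcd, _, hnv⟩ := h.nb_eq hv
      obtain ⟨u1, hu1, hu1'⟩ : ∃ u1, u1 ≠ v ∧ u1 ∈ nb G S u := by
        rw [hnu]
        by_cases ha : a = v
        · exact ⟨b, fun h1 => hab (ha.trans h1.symm), by simp⟩
        · exact ⟨a, ha, by simp⟩
      obtain ⟨v1, hv1, hv1'⟩ : ∃ v1, v1 ≠ u ∧ v1 ∈ nb G S v := by
        rw [hnv]
        by_cases hc : c = u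
        · exact ⟨d, fun h1 => hcd (hc.trans h1.symm), by simp⟩
        · exact ⟨c, hc, by simp⟩
      have hvnu : v ∈ nb G S u := mem_nb.2 ⟨hv, huv⟩
      have hunv : u ∈ nb G S v := mem_nb.2 ⟨hu, huv.symm⟩
      have hne : u1 ≠ v1 := by
        intro h1
        rw [← h1] at hv1'
        exact h.not_adj hu hvnu hu1' (Ne.symm hu1) (mem_nb.1 hv1').2
      have h1 : nb (ctr G u v) (S.erase v) u = {u1, v1} := by
        ext x
        rw [mem_nb, P5a_ctr, Finset.mem_erase, Finset.mem_insert, Finset.mem_singleton]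
        constructor
        · rintro ⟨⟨h2, h3⟩, h4, _, _, h5 | h5 | h5⟩
          · rcases P5a_pair (h.2.1 u hu) hvnu hu1' (Ne.symm hu1) (mem_nb.2 ⟨h3, h5⟩) with h6 | h6
            · exact absurd h6 h2
            · exact Or.inl h6
          · rcases P5a_pair (h.2.1 v hv) hunv hv1' (Ne.symm hv1) (mem_nb.2 ⟨h3, h5.2⟩) with h6 | h6
            · exact absurd h6 (Ne.symm h4)
            · exact Or.inr h6
          · exact absurd h5.1 (Ne.symm h4)
        · have h2 := mem_nb.1 hu1'
          have h3 := mem_nb.1 hv1'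
          rintro (h4 | h4)
          · rw [h4]
            exact ⟨⟨hu1, h2.1⟩, h2.2.ne, huv', hu1, Or.inl h2.2⟩
          · rw [h4]
            exact ⟨⟨h3.2.ne.symm, h3.1⟩, Ne.symm hv1, huv', h3.2.ne.symm,
              Or.inr (Or.inl ⟨rfl, h3.2⟩)⟩
      rw [h1, Finset.card_pair hne]
    · by_cases hsv : G.Adj s v
      · have hus : ¬ G.Adj u s :=
          h.not_adj hv (mem_nb.2 ⟨hu, huv.symm⟩) (mem_nb.2 ⟨hs.2, hsv.symm⟩) (Ne.symm hsu)
        have h1 : nb (ctr G u v) (S.erase v) s = insert u ((nb G S s).erase v) := by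
          ext x
          rw [mem_nb, P5a_ctr, Finset.mem_erase, Finset.mem_insert, Finset.mem_erase, mem_nb]
          constructor
          · rintro ⟨⟨h2, h3⟩, h4, _, _, h5 | h5 | h5⟩
            · exact Or.inr ⟨h2, h3, h5⟩
            · exact absurd h5.1 hsu
            · exact Or.inl h5.1
          · rintro (h2 | ⟨h2, h3, h4⟩)
            · rw [h2]
              exact ⟨⟨huv', hu⟩, hsu, hs.1, huv', Or.inr (Or.inr ⟨rfl, hsv.symm⟩)⟩
            · exact ⟨⟨h2, h3⟩, h4.ne, hs.1, h2, Or.inl h4⟩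
        rw [h1, Finset.card_insert_of_notMem, Finset.card_erase_of_mem
          (mem_nb.2 ⟨hv, hsv⟩), h.2.1 s hs.2]
        rw [Finset.mem_erase, mem_nb]
        rintro ⟨_, _, h2⟩
        exact hus h2.symm
      · have h1 : nb (ctr G u v) (S.erase v) s = nb G S s := by
          ext x
          rw [mem_nb, P5a_ctr, Finset.mem_erase, mem_nb]
          constructor
          · rintro ⟨⟨h2, h3⟩, h4, _, _, h5 | h5 | h5⟩
            · exact ⟨h3, h5⟩
            · exact absurd h5.1 hsu
            · exact absurd h5.2.symm hsv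
          · rintro ⟨h2, h3⟩
            have h4 : x ≠ v := by
              intro h5
              rw [h5] at h3
              exact hsv h3
            exact ⟨⟨h4, h2⟩, h3.ne, hs.1, h4, Or.inl h3⟩
        rw [h1]
        exact h.2.1 s hs.2
  · refine ⟨⟨u, Finset.mem_erase.2 ⟨huv', hu⟩⟩, ?_⟩
    intro x hx y hy
    rw [Finset.mem_erase] at hx hy
    have key : ∀ z, Relation.ReflTransGen (fun a b => a ∈ S ∧ b ∈ S ∧ G.Adj a b) x z →
        Relation.ReflTransGen
          (fun a b => a ∈ S.erase v ∧ b ∈ S.erase v ∧ (ctr G u v).Adj a b) x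
          (if z = v then u else z) := by
      intro z hxz
      induction hxz with
      | refl => rw [if_neg hx.1]
      | @tail z z' _ h2 ih =>
        obtain ⟨h3, h4, h5⟩ := h2
        by_cases hz : z = v
        · rw [if_pos hz] at ih
          have hz' : z' ≠ v := by
            intro h6
            rw [hz, h6] at h5
            exact h5.ne rfl
          rw [if_neg hz']
          rw [hz] at h5
          by_cases hz'u : z' = u
          · rw [hz'u]
            exact ih
          · refine ih.tail ⟨Finset.mem_erase.2 ⟨huv', hu⟩, Finset.mem_erase.2 ⟨hz', h4⟩, ?_⟩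
            rw [P5a_ctr]
            exact ⟨Ne.symm hz'u, huv', hz', Or.inr (Or.inl ⟨rfl, h5⟩)⟩
        · rw [if_neg hz] at ih
          by_cases hz' : z' = v
          · rw [if_pos hz']
            rw [hz'] at h5
            by_cases hzu : z = u
            · rw [hzu] at ih
              exact ih
            · refine ih.tail ⟨Finset.mem_erase.2 ⟨hz, h3⟩, Finset.mem_erase.2 ⟨huv', hu⟩, ?_⟩
              rw [P5a_ctr]
              exact ⟨hzu, hz, huv', Or.inr (Or.inr ⟨rfl, h5.symm⟩)⟩
          · rw [if_neg hz']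
            refine ih.tail ⟨Finset.mem_erase.2 ⟨hz, h3⟩, Finset.mem_erase.2 ⟨hz', h4⟩, ?_⟩
            rw [P5a_ctr]
            exact ⟨h5.ne, hz, hz', Or.inl h5⟩
    have h1 := key y (h.2.2.2 x hx.2 y hy.2)
    rw [if_neg hy.1] at h1
    exact h1

end Pool.Agent.LibFlagPL

end

section

namespace Pool.Agent.LibFlagPL

open Finset

set_option linter.unusedSectionVars false

variable {T : Type} [Fintype T] [DecidableEq T]

theorem Conn.eq_of_closed {G : SimpleGraph T} {S A : Finset T} (h : Conn G S) (hA : A ⊆ S)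
    (hne : A.Nonempty) (hcl : ∀ a ∈ A, ∀ b ∈ S, G.Adj a b → b ∈ A) : A = S := by
  refine Finset.Subset.antisymm hA ?_
  obtain ⟨x, hx⟩ := hne
  intro y hy
  have key : ∀ z, Relation.ReflTransGen (fun a b => a ∈ S ∧ b ∈ S ∧ G.Adj a b) x z → z ∈ A := by
    intro z hz
    induction hz with
    | refl => exact hx
    | tail _ hst ih => exact hcl _ ih _ hst.2.1 hst.2.2
  exact key y (h.2 x (hA hx) y hy)

theorem nb_mono {G : SimpleGraph T} {S S' : Finset T} (h : S ⊆ S') (y : T) :
    nb G S y ⊆ nb G S' y := by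
  intro t ht
  have h1 := mem_nb.1 ht
  exact mem_nb.2 ⟨h h1.1, h1.2⟩

/-- a circle contained in a circle is equal to it -/
theorem Circle.eq_of_subset {G : SimpleGraph T} {C C' : Finset T} (h : Circle G C)
    (h' : Circle G C') (hs : C ⊆ C') : C = C' := by
  refine Conn.eq_of_closed h'.2.2 hs h.2.2.1 ?_
  intro a ha b hb hab
  have h1 : nb G C a = nb G C' a :=
    Finset.eq_of_subset_of_card_le (nb_mono hs a) (by rw [h.2.1 a ha, h'.2.1 a (hs ha)])
  have h2 : b ∈ nb G C a := by
    rw [h1]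
    exact mem_nb.2 ⟨hb, hab⟩
  exact (mem_nb.1 h2).1

/-- a flag 2-sphere contained in a flag 2-sphere is equal to it -/
theorem F2.eq_of_subset {G : SimpleGraph T} {K K' : Finset T} (h : F2 G K)
    (h' : F2 G K') (hs : K ⊆ K') : K = K' := by
  refine Conn.eq_of_closed h'.1 hs h.1.1 ?_
  intro a ha b hb hab
  have h1 : nb G K a = nb G K' a :=
    Circle.eq_of_subset (h.2.1 a ha) (h'.2.1 a (hs ha)) (nb_mono hs a)
  have h2 : b ∈ nb G K a := by
    rw [h1]
    exact mem_nb.2 ⟨hb, hab⟩
  exact (mem_nb.1 h2).1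

/-- a flag 3-manifold contained in a flag 3-manifold is equal to it -/
theorem F3.eq_of_subset {G : SimpleGraph T} {M M' : Finset T} (h : F3 G M)
    (h' : F3 G M') (hs : M ⊆ M') : M = M' := by
  refine Conn.eq_of_closed h'.1 hs h.1.1 ?_
  intro a ha b hb hab
  have h1 : nb G M a = nb G M' a :=
    F2.eq_of_subset (h.2 a ha) (h'.2 a (hs ha)) (nb_mono hs a)
  have h2 : b ∈ nb G M a := by
    rw [h1]
    exact mem_nb.2 ⟨hb, hab⟩
  exact (mem_nb.1 h2).1

end Pool.Agent.LibFlagPL

end

section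

namespace Pool.Agent.LibFlagPL

open Finset

set_option linter.unusedSectionVars false

variable {T : Type} [Fintype T] [DecidableEq T]

private theorem S2B_nb {G : SimpleGraph T} {C : Finset T} {x a b c : T}
    (hC : ∀ t, t ∈ C ↔ t = x ∨ t = a ∨ t = b ∨ t = c) (ha : G.Adj x a) (hb : G.Adj x b)
    (hc : ¬ G.Adj x c) : nb G C x = {a, b} := by
  ext t
  rw [mem_nb, hC, Finset.mem_insert, Finset.mem_singleton]
  constructor
  · rintro ⟨h, hadj⟩
    rcases h with rfl | rfl | rfl | rfl
    · exact absurd rfl hadj.ne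
    · exact Or.inl rfl
    · exact Or.inr rfl
    · exact absurd hadj hc
  · rintro (rfl | rfl)
    · exact ⟨Or.inr (Or.inl rfl), ha⟩
    · exact ⟨Or.inr (Or.inr (Or.inl rfl)), hb⟩

theorem circle_four {G : SimpleGraph T} {p q r s : T} (h1 : G.Adj p q) (h2 : G.Adj q r)
    (h3 : G.Adj r s) (h4 : G.Adj s p) (hpr : p ≠ r) (hqs : q ≠ s) (n1 : ¬ G.Adj p r)
    (n2 : ¬ G.Adj q s) : Circle G {p, q, r, s} := by
  have hC : ∀ t, t ∈ ({p, q, r, s} : Finset T) ↔ t = p ∨ t = q ∨ t = r ∨ t = s := by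
    intro t
    simp only [Finset.mem_insert, Finset.mem_singleton]
  refine ⟨?_, ?_, ⟨p, (hC p).2 (Or.inl rfl)⟩, ?_⟩
  · have h5 : ({p, q, r, s} : Finset T).card = 4 := by
      rw [Finset.card_insert_of_notMem, Finset.card_insert_of_notMem, Finset.card_pair h3.ne]
      · simp only [Finset.mem_insert, Finset.mem_singleton, not_or]
        exact ⟨h2.ne, hqs⟩
      · simp only [Finset.mem_insert, Finset.mem_singleton, not_or]
        exact ⟨h1.ne, hpr, h4.ne.symm⟩
    omega
  · intro t ht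
    rcases (hC t).1 ht with rfl | rfl | rfl | rfl
    · rw [S2B_nb (c := r) (a := q) (b := s) (by intro t; rw [hC]; tauto) h1 h4.symm n1,
        Finset.card_pair hqs]
    · rw [S2B_nb (c := s) (a := p) (b := r) (by intro t; rw [hC]; tauto) h1.symm h2 n2,
        Finset.card_pair hpr]
    · rw [S2B_nb (c := p) (a := q) (b := s) (by intro t; rw [hC]; tauto) h2.symm h3
        (fun h => n1 h.symm), Finset.card_pair hqs]
    · rw [S2B_nb (c := q) (a := r) (b := p) (by intro t; rw [hC]; tauto) h3.symm h4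
        (fun h => n2 h.symm), Finset.card_pair hpr.symm]
  · have hp : p ∈ ({p, q, r, s} : Finset T) := (hC p).2 (Or.inl rfl)
    have hq : q ∈ ({p, q, r, s} : Finset T) := (hC q).2 (Or.inr (Or.inl rfl))
    have hr : r ∈ ({p, q, r, s} : Finset T) := (hC r).2 (Or.inr (Or.inr (Or.inl rfl)))
    have hs : s ∈ ({p, q, r, s} : Finset T) := (hC s).2 (Or.inr (Or.inr (Or.inr rfl)))
    have hto : ∀ x ∈ ({p, q, r, s} : Finset T), Relation.ReflTransGen
        (fun a b => a ∈ ({p, q, r, s} : Finset T) ∧ b ∈ ({p, q, r, s} : Finset T) ∧ G.Adj a b) x p ∧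
        Relation.ReflTransGen
        (fun a b => a ∈ ({p, q, r, s} : Finset T) ∧ b ∈ ({p, q, r, s} : Finset T) ∧ G.Adj a b) p x := by
      intro x hx
      rcases (hC x).1 hx with hx' | hx' | hx' | hx'
      · rw [hx']
        exact ⟨Relation.ReflTransGen.refl, Relation.ReflTransGen.refl⟩
      · rw [hx']
        exact ⟨Relation.ReflTransGen.single ⟨hq, hp, h1.symm⟩,
          Relation.ReflTransGen.single ⟨hp, hq, h1⟩⟩
      · rw [hx']
        exact ⟨(Relation.ReflTransGen.single ⟨hr, hq, h2.symm⟩).tail ⟨hq, hp, h1.symm⟩,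
          (Relation.ReflTransGen.single ⟨hp, hq, h1⟩).tail ⟨hq, hr, h2⟩⟩
      · rw [hx']
        exact ⟨Relation.ReflTransGen.single ⟨hs, hp, h4⟩,
          Relation.ReflTransGen.single ⟨hp, hs, h4.symm⟩⟩
    intro x hx y hy
    exact (hto x hx).1.trans (hto y hy).2

theorem Circle.four {G : SimpleGraph T} {C : Finset T} (h : Circle G C) (h4 : C.card = 4) :
    ∃ p q r s : T, C = {p, q, r, s} ∧ p ≠ r ∧ q ≠ s ∧ G.Adj p q ∧ G.Adj q r ∧ G.Adj r s ∧
      G.Adj s p ∧ ¬ G.Adj p r ∧ ¬ G.Adj q s := by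
  obtain ⟨t, ht⟩ := h.2.2.1
  obtain ⟨a, b, hab, hadj, he⟩ := h.nb_eq ht
  have ha : a ∈ C ∧ G.Adj t a := mem_nb.1 (by rw [he]; simp)
  have hb : b ∈ C ∧ G.Adj t b := mem_nb.1 (by rw [he]; simp)
  have hsub : ({t, a, b} : Finset T) ⊆ C := by
    intro y hy
    simp only [Finset.mem_insert, Finset.mem_singleton] at hy
    rcases hy with rfl | rfl | rfl
    · exact ht
    · exact ha.1
    · exact hb.1
  have h3 : ({t, a, b} : Finset T).card = 3 :=
    Finset.card_eq_three.2 ⟨t, a, b, ha.2.ne, hb.2.ne, hab, rfl⟩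
  have h5 : (C \ {t, a, b}).card = 1 := by
    rw [Finset.card_sdiff_of_subset hsub, h4, h3]
  obtain ⟨c, hc⟩ := Finset.card_eq_one.1 h5
  have hcC : c ∈ C \ {t, a, b} := by rw [hc]; simp
  rw [Finset.mem_sdiff] at hcC
  simp only [Finset.mem_insert, Finset.mem_singleton, not_or] at hcC
  obtain ⟨hcC, hct, hca, hcb⟩ := hcC
  have hmem : ∀ y ∈ C, y = t ∨ y = a ∨ y = b ∨ y = c := by
    intro y hy
    by_cases h6 : y ∈ ({t, a, b} : Finset T)
    · simp only [Finset.mem_insert, Finset.mem_singleton] at h6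
      tauto
    · have h7 : y ∈ C \ {t, a, b} := Finset.mem_sdiff.2 ⟨hy, h6⟩
      rw [hc, Finset.mem_singleton] at h7
      tauto
  have htc : ¬ G.Adj t c := by
    intro h6
    have h7 : c ∈ nb G C t := mem_nb.2 ⟨hcC, h6⟩
    rw [he, Finset.mem_insert, Finset.mem_singleton] at h7
    rcases h7 with h7 | h7
    · exact hca h7
    · exact hcb h7
  -- a vertex `x` different from `t`, `y`, `c` and not adjacent to `y` is adjacent to `c`
  have key : ∀ x ∈ C, ∀ y, x ≠ t → (∀ z ∈ C, z = t ∨ z = x ∨ z = y ∨ z = c) → ¬ G.Adj x y →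
      G.Adj x c := by
    intro x hx y _ hz hxy
    by_contra hxc
    have h6 : nb G C x ⊆ {t} := by
      intro z hz'
      have h7 := mem_nb.1 hz'
      rw [Finset.mem_singleton]
      rcases hz z h7.1 with h8 | h8 | h8 | h8
      · exact h8
      · exact absurd h8.symm h7.2.ne
      · rw [h8] at h7
        exact absurd h7.2 hxy
      · rw [h8] at h7
        exact absurd h7.2 hxc
    have h7 := Finset.card_le_card h6
    rw [h.2.1 x hx, Finset.card_singleton] at h7
    omega
  have hac : G.Adj a c := key a ha.1 b ha.2.ne.symm (fun z hz => hmem z hz) hadj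
  have hbc : G.Adj b c := key b hb.1 a hb.2.ne.symm (fun z hz => by
    have := hmem z hz
    tauto) (fun h6 => hadj h6.symm)
  refine ⟨t, a, c, b, ?_, hct ∘ Eq.symm, hab, ha.2, hac, hbc.symm, hb.2.symm, htc, hadj⟩
  ext y
  simp only [Finset.mem_insert, Finset.mem_singleton]
  constructor
  · intro hy
    have := hmem y hy
    tauto
  · rintro (rfl | rfl | rfl | rfl)
    · exact ht
    · exact ha.1
    · exact hcC
    · exact hb.1

end Pool.Agent.LibFlagPL

end

section

namespace Pool.Agent.LibFlagPL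

open Finset

set_option linter.unusedSectionVars false

variable {T : Type} [Fintype T] [DecidableEq T]

theorem F2.four_le {G : SimpleGraph T} {K : Finset T} (h : F2 G K) {s : T} (hs : s ∈ K) :
    4 ≤ (nb G K s).card := (h.2.1 s hs).1

theorem F2.six_le {G : SimpleGraph T} {K : Finset T} (h : F2 G K) : 6 ≤ K.card := by
  have h1 := h.2.2
  have h2 : K.card • 4 ≤ ∑ s ∈ K, (nb G K s).card :=
    card_nsmul_le_sum K _ 4 fun s hs => h.four_le hs
  rw [smul_eq_mul] at h2
  omega

theorem F2.exists_four {G : SimpleGraph T} {K : Finset T} (h : F2 G K) (h11 : K.card ≤ 11) :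
    ∃ u ∈ K, (nb G K u).card = 4 := by
  by_contra hcon
  have h1 := h.2.2
  have h2 : K.card • 5 ≤ ∑ s ∈ K, (nb G K s).card :=
    card_nsmul_le_sum K _ 5 fun s hs => by
      have h3 := h.four_le hs
      have h4 : (nb G K s).card ≠ 4 := fun h5 => hcon ⟨s, hs, h5⟩
      omega
  rw [smul_eq_mul] at h2
  omega

/-- an edge is in exactly two triangles -/
theorem F2.nb_pair {G : SimpleGraph T} {K : Finset T} (h : F2 G K) {s t : T} (hs : s ∈ K)
    (ht : t ∈ K) (hst : G.Adj s t) :
    ∃ p q : T, p ≠ q ∧ ¬ G.Adj p q ∧ nb G (nb G K s) t = {p, q} :=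
  (h.2.1 s hs).nb_eq (mem_nb.2 ⟨ht, hst⟩)

/-- a triangle is in exactly two tetrahedra -/
theorem F3.nb_pair {G : SimpleGraph T} {M : Finset T} (h : F3 G M) {r s t : T} (hr : r ∈ M)
    (hs : s ∈ M) (ht : t ∈ M) (hrs : G.Adj r s) (hst : G.Adj s t) (hrt : G.Adj r t) :
    ∃ p q : T, p ≠ q ∧ ¬ G.Adj p q ∧ nb G (nb G (nb G M r) s) t = {p, q} :=
  (h.circle hr hs hrs).nb_eq (mem_nb.2 ⟨mem_nb.2 ⟨ht, hrt⟩, hst⟩)

theorem F2.exists_nonadj {G : SimpleGraph T} {K : Finset T} (h : F2 G K) {s : T}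
    (hs : s ∈ K) : ∃ s' ∈ K, s' ≠ s ∧ ¬ G.Adj s s' := by
  by_contra hcon
  have h4 := h.four_le hs
  obtain ⟨t, ht⟩ : (nb G K s).Nonempty := card_pos.1 (by omega)
  have htK := (mem_nb.1 ht).1
  have h5 := h.four_le htK
  have h6 : (nb G (nb G K s) t).card = 2 := (h.2.1 s hs).2.1 t ht
  have h7 : nb G K t ⊆ insert s (nb G (nb G K s) t) := by
    intro x hx
    rw [mem_nb] at hx
    rw [mem_insert, mem_nb, mem_nb]
    by_cases hxs : x = s
    · exact Or.inl hxs
    · refine Or.inr ⟨⟨hx.1, ?_⟩, hx.2⟩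
      by_contra h8
      exact hcon ⟨x, hx.1, hxs, h8⟩
  have h8 := (card_le_card h7).trans (card_insert_le _ _)
  omega

theorem F3.exists_nonadj {G : SimpleGraph T} {M : Finset T} (h : F3 G M) {s : T}
    (hs : s ∈ M) : ∃ s' ∈ M, s' ≠ s ∧ ¬ G.Adj s s' := by
  have h6 := (h.2 s hs).six_le
  obtain ⟨t, ht⟩ : (nb G M s).Nonempty := card_pos.1 (by omega)
  rw [mem_nb] at ht
  obtain ⟨s', hs', hne, hna⟩ := (h.2 t ht.1).exists_nonadj (mem_nb.2 ⟨hs, ht.2.symm⟩)
  exact ⟨s', (mem_nb.1 hs').1, hne, hna⟩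

theorem F3.eight_le {G : SimpleGraph T} {M : Finset T} (h : F3 G M) : 8 ≤ M.card := by
  obtain ⟨s, hs⟩ := h.1.1
  have h6 := (h.2 s hs).six_le
  obtain ⟨s', hs', hne, hna⟩ := h.exists_nonadj hs
  have h1 : s' ∉ nb G M s := fun h2 => hna (mem_nb.1 h2).2
  have h2 : s ∉ insert s' (nb G M s) := by
    rw [mem_insert, mem_nb]
    rintro (h3 | h3)
    · exact hne h3.symm
    · exact G.loopless.irrefl s h3.2
  have h3 : insert s (insert s' (nb G M s)) ⊆ M := by
    intro x hx
    rw [mem_insert, mem_insert] at hx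
    rcases hx with rfl | rfl | hx
    · exact hs
    · exact hs'
    · exact nb_subset hx
  have h4 := card_le_card h3
  rw [card_insert_of_notMem h2, card_insert_of_notMem h1] at h4
  omega

end Pool.Agent.LibFlagPL

end

section

namespace Pool.Agent.LibFlagPL

open Finset

set_option linter.unusedSectionVars false

variable {T : Type} [Fintype T] [DecidableEq T]

theorem Circle.conn_erase {G : SimpleGraph T} {C : Finset T} (h : Circle G C) {t : T}
    (ht : t ∈ C) : Conn G (C.erase t) := by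
  classical
  obtain ⟨a, b, hab, hadj, he⟩ := h.nb_eq ht
  have ha : a ∈ nb G C t := by rw [he]; simp
  have hb : b ∈ nb G C t := by rw [he]; simp
  have ha' := mem_nb.1 ha
  have hb' := mem_nb.1 hb
  have haC : a ∈ C.erase t := Finset.mem_erase.2 ⟨ha'.2.ne', ha'.1⟩
  have hbC : b ∈ C.erase t := Finset.mem_erase.2 ⟨hb'.2.ne', hb'.1⟩
  let R : T → T → Prop := fun x y => x ∈ C.erase t ∧ y ∈ C.erase t ∧ G.Adj x y
  let A : Finset T := (C.erase t).filter fun x => Relation.ReflTransGen R a x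
  have hA : ∀ x, x ∈ A ↔ x ∈ C.erase t ∧ Relation.ReflTransGen R a x := by
    intro x
    simp only [A, Finset.mem_filter]
  have haA : a ∈ A := (hA a).2 ⟨haC, Relation.ReflTransGen.refl⟩
  have hcl : ∀ x ∈ A, ∀ y ∈ C.erase t, G.Adj x y → y ∈ A := by
    intro x hx y hy hxy
    have h1 := (hA x).1 hx
    exact (hA y).2 ⟨hy, h1.2.tail ⟨h1.1, hy, hxy⟩⟩
  have hAC : A ⊆ C.erase t := fun x hx => ((hA x).1 hx).1
  have hbA : b ∈ A := by
    by_contra hbA
    have hdeg : ∀ x ∈ A.erase a, (nb G A x).card = 2 := by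
      intro x hx
      have hx1 := Finset.mem_erase.1 hx
      have hxC := Finset.mem_of_mem_erase (hAC hx1.2)
      have hxb : x ≠ b := fun h0 => hbA (h0 ▸ hx1.2)
      have h1 : nb G A x = nb G C x := by
        ext y
        rw [mem_nb, mem_nb]
        constructor
        · rintro ⟨h1, h2⟩
          exact ⟨Finset.mem_of_mem_erase (hAC h1), h2⟩
        · rintro ⟨h1, h2⟩
          refine ⟨hcl x hx1.2 y (Finset.mem_erase.2 ⟨?_, h1⟩) h2, h2⟩
          rintro rfl
          have h3 : x ∈ nb G C y := mem_nb.2 ⟨hxC, h2.symm⟩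
          rw [he] at h3
          simp only [Finset.mem_insert, Finset.mem_singleton] at h3
          exact h3.elim hx1.1 hxb
      rw [h1]
      exact h.2.1 x hxC
    have hdega : (nb G A a).card = 1 := by
      have h1 : nb G A a = (nb G C a).erase t := by
        ext y
        rw [mem_nb, Finset.mem_erase, mem_nb]
        constructor
        · rintro ⟨h1, h2⟩
          exact ⟨(Finset.mem_erase.1 (hAC h1)).1, Finset.mem_of_mem_erase (hAC h1), h2⟩
        · rintro ⟨h1, h2, h3⟩
          exact ⟨hcl a haA y (Finset.mem_erase.2 ⟨h1, h2⟩) h3, h3⟩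
      have h2 : t ∈ nb G C a := mem_nb.2 ⟨ht, ha'.2.symm⟩
      rw [h1, Finset.card_erase_of_mem h2, h.2.1 a ha'.1]
    have hsum : ∑ x ∈ A, (nb G A x).card = 1 + (A.erase a).card * 2 := by
      rw [← Finset.add_sum_erase A _ haA, hdega, Finset.sum_congr rfl hdeg, Finset.sum_const,
        smul_eq_mul]
    have hev := sum_faces_nb (G := G) (S := A) 1
    have h1 : ∑ s ∈ A, (faces G (nb G A s) 1).card = ∑ x ∈ A, (nb G A x).card :=
      Finset.sum_congr rfl fun x _ => card_faces_one
    rw [h1, hsum] at hev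
    omega
  have hclosed : insert t A = C := by
    apply h.2.2.eq_of_closed
    · intro x hx
      rcases Finset.mem_insert.1 hx with rfl | hx
      · exact ht
      · exact Finset.mem_of_mem_erase (hAC hx)
    · exact ⟨t, Finset.mem_insert_self t A⟩
    · intro x hx y hy hxy
      by_cases hyt : y = t
      · rw [hyt]; exact Finset.mem_insert_self t A
      · apply Finset.mem_insert_of_mem
        rcases Finset.mem_insert.1 hx with rfl | hx
        · have h3 : y ∈ nb G C x := mem_nb.2 ⟨hy, hxy⟩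
          rw [he] at h3
          simp only [Finset.mem_insert, Finset.mem_singleton] at h3
          rcases h3 with rfl | rfl
          · exact haA
          · exact hbA
        · exact hcl x hx y (Finset.mem_erase.2 ⟨hyt, hy⟩) hxy
  have hall : ∀ x ∈ C.erase t, Relation.ReflTransGen R a x := by
    intro x hx
    have hx1 := Finset.mem_erase.1 hx
    have h2 : x ∈ insert t A := by rw [hclosed]; exact hx1.2
    rcases Finset.mem_insert.1 h2 with h3 | h3
    · exact absurd h3 hx1.1
    · exact ((hA x).1 h3).2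
  have hsym : ∀ x y, Relation.ReflTransGen R x y → Relation.ReflTransGen R y x := by
    intro x y hxy
    induction hxy with
    | refl => exact Relation.ReflTransGen.refl
    | tail _ hst ih => exact Relation.ReflTransGen.head ⟨hst.2.1, hst.1, hst.2.2.symm⟩ ih
  exact ⟨⟨a, haC⟩, fun x hx y hy => (hsym a x (hall x hx)).trans (hall y hy)⟩

end Pool.Agent.LibFlagPL

end

section

namespace Pool.Agent.LibFlagPL

open Finset

set_option linter.unusedSectionVars false

variable {T : Type} [Fintype T] [DecidableEq T]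

/-- neighbours of an apex in the suspension -/
private theorem S2S_apex {G : SimpleGraph T} {C : Finset T} {s s' : T}
    (hs : ∀ t ∈ C, G.Adj s t) (hn : ¬ G.Adj s s') : nb G (insert s (insert s' C)) s = C := by
  ext x
  simp only [mem_nb, Finset.mem_insert]
  constructor
  · rintro ⟨rfl | rfl | h, h2⟩
    · exact absurd rfl h2.ne
    · exact absurd h2 hn
    · exact h
  · intro h
    exact ⟨Or.inr (Or.inr h), hs x h⟩

/-- neighbours of a vertex of the base -/
private theorem S2S_base {G : SimpleGraph T} {C : Finset T} {s s' : T}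
    (hs : ∀ t ∈ C, G.Adj s t) (hs' : ∀ t ∈ C, G.Adj s' t) {t : T} (ht : t ∈ C) :
    nb G (insert s (insert s' C)) t = insert s (insert s' (nb G C t)) := by
  ext x
  simp only [mem_nb, Finset.mem_insert]
  constructor
  · rintro ⟨rfl | rfl | h, h2⟩
    · exact Or.inl rfl
    · exact Or.inr (Or.inl rfl)
    · exact Or.inr (Or.inr ⟨h, h2⟩)
  · rintro (rfl | rfl | ⟨h, h2⟩)
    · exact ⟨Or.inl rfl, (hs t ht).symm⟩
    · exact ⟨Or.inr (Or.inl rfl), (hs' t ht).symm⟩
    · exact ⟨Or.inr (Or.inr h), h2⟩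

/-- connectedness of the suspension -/
private theorem S2S_conn {G : SimpleGraph T} {C : Finset T} {s s' : T} (hne : C.Nonempty)
    (hs : ∀ t ∈ C, G.Adj s t) (hs' : ∀ t ∈ C, G.Adj s' t) :
    Conn G (insert s (insert s' C)) := by
  have ms : s ∈ insert s (insert s' C) := Finset.mem_insert_self _ _
  have ms' : s' ∈ insert s (insert s' C) :=
    Finset.mem_insert_of_mem (Finset.mem_insert_self _ _)
  have mC : ∀ t ∈ C, t ∈ insert s (insert s' C) := fun t ht =>
    Finset.mem_insert_of_mem (Finset.mem_insert_of_mem ht)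
  obtain ⟨c, hc⟩ := hne
  have key1 : ∀ x ∈ insert s (insert s' C), Relation.ReflTransGen
      (fun a b => a ∈ insert s (insert s' C) ∧ b ∈ insert s (insert s' C) ∧ G.Adj a b) s x := by
    intro x hx
    rcases Finset.mem_insert.1 hx with rfl | hx
    · exact Relation.ReflTransGen.refl
    · rcases Finset.mem_insert.1 hx with rfl | hx
      · exact Relation.ReflTransGen.tail
          (Relation.ReflTransGen.single ⟨ms, mC c hc, hs c hc⟩) ⟨mC c hc, ms', (hs' c hc).symm⟩
      · exact Relation.ReflTransGen.single ⟨ms, mC x hx, hs x hx⟩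
  have key2 : ∀ x ∈ insert s (insert s' C), Relation.ReflTransGen
      (fun a b => a ∈ insert s (insert s' C) ∧ b ∈ insert s (insert s' C) ∧ G.Adj a b) x s := by
    intro x hx
    rcases Finset.mem_insert.1 hx with rfl | hx
    · exact Relation.ReflTransGen.refl
    · rcases Finset.mem_insert.1 hx with rfl | hx
      · exact Relation.ReflTransGen.tail
          (Relation.ReflTransGen.single ⟨ms', mC c hc, hs' c hc⟩) ⟨mC c hc, ms, (hs c hc).symm⟩
      · exact Relation.ReflTransGen.single ⟨mC x hx, ms, (hs x hx).symm⟩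
  exact ⟨⟨s, ms⟩, fun x hx y hy => (key2 x hx).trans (key1 y hy)⟩

theorem F2_susp {G : SimpleGraph T} {C : Finset T} (h : Circle G C) {s s' : T}
    (hs : ∀ t ∈ C, G.Adj s t) (hs' : ∀ t ∈ C, G.Adj s' t) (hne : s ≠ s')
    (hn : ¬ G.Adj s s') : F2 G (insert s (insert s' C)) := by
  have hsC : s ∉ C := fun h1 => (hs s h1).ne rfl
  have hsC' : s' ∉ C := fun h1 => (hs' s' h1).ne rfl
  have hins : s ∉ insert s' C := by
    rw [Finset.mem_insert]
    rintro (h1 | h1)
    · exact hne h1
    · exact hsC h1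
  have hn' : ¬ G.Adj s' s := fun h1 => hn h1.symm
  have hcomm : insert s (insert s' C) = insert s' (insert s C) := Finset.insert_comm _ _ _
  have e1 : nb G (insert s (insert s' C)) s = C := S2S_apex hs hn
  have e2 : nb G (insert s (insert s' C)) s' = C := by
    rw [hcomm]
    exact S2S_apex hs' hn'
  have e3 : ∀ t ∈ C, Circle G (nb G (insert s (insert s' C)) t) ∧
      (nb G (insert s (insert s' C)) t).card = 4 := by
    intro t ht
    obtain ⟨a, b, hab, hadj, he⟩ := h.nb_eq ht
    have ha : a ∈ C := by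
      have : a ∈ nb G C t := by rw [he]; simp
      exact (mem_nb.1 this).1
    have hb : b ∈ C := by
      have : b ∈ nb G C t := by rw [he]; simp
      exact (mem_nb.1 this).1
    have e4 : nb G (insert s (insert s' C)) t = {s, a, s', b} := by
      rw [S2S_base hs hs' ht, he]
      ext x
      simp only [Finset.mem_insert, Finset.mem_singleton]
      tauto
    have hc : Circle G {s, a, s', b} :=
      circle_four (hs a ha) (hs' a ha).symm (hs' b hb) (hs b hb).symm hne hab hn hadj
    have hsa : s ≠ a := fun h1 => hsC (h1 ▸ ha)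
    have hsb : s ≠ b := fun h1 => hsC (h1 ▸ hb)
    have hsa' : s' ≠ a := fun h1 => hsC' (h1 ▸ ha)
    have hsb' : s' ≠ b := fun h1 => hsC' (h1 ▸ hb)
    refine ⟨by rw [e4]; exact hc, ?_⟩
    rw [S2S_base hs hs' ht, he, Finset.card_insert_of_notMem, Finset.card_insert_of_notMem,
      Finset.card_pair hab]
    · simp only [Finset.mem_insert, Finset.mem_singleton]
      rintro (h1 | h1)
      · exact hsa' h1
      · exact hsb' h1
    · simp only [Finset.mem_insert, Finset.mem_singleton]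
      rintro (h1 | h1 | h1)
      · exact hne h1
      · exact hsa h1
      · exact hsb h1
  refine ⟨S2S_conn h.2.2.1 hs hs', ?_, ?_⟩
  · intro x hx
    rcases Finset.mem_insert.1 hx with rfl | hx
    · rw [e1]
      exact h
    · rcases Finset.mem_insert.1 hx with rfl | hx
      · rw [e2]
        exact h
      · exact (e3 x hx).1
  · rw [Finset.sum_insert hins, Finset.sum_insert hsC', e1, e2,
      Finset.sum_congr rfl (fun t ht => (e3 t ht).2), Finset.sum_const, smul_eq_mul,
      Finset.card_insert_of_notMem hins, Finset.card_insert_of_notMem hsC']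
    ring

theorem F3_susp {G : SimpleGraph T} {K : Finset T} (h : F2 G K) {s s' : T}
    (hs : ∀ t ∈ K, G.Adj s t) (hs' : ∀ t ∈ K, G.Adj s' t) (hne : s ≠ s')
    (hn : ¬ G.Adj s s') : F3 G (insert s (insert s' K)) := by
  have hn' : ¬ G.Adj s' s := fun h1 => hn h1.symm
  have hcomm : insert s (insert s' K) = insert s' (insert s K) := Finset.insert_comm _ _ _
  refine ⟨S2S_conn h.1.1 hs hs', ?_⟩
  intro x hx
  rcases Finset.mem_insert.1 hx with rfl | hx
  · rw [S2S_apex hs hn]
    exact h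
  · rcases Finset.mem_insert.1 hx with rfl | hx
    · rw [hcomm, S2S_apex hs' hn']
      exact h
    · rw [S2S_base hs hs' hx]
      exact F2_susp (h.2.1 x hx) (fun t ht => hs t (nb_subset ht))
        (fun t ht => hs' t (nb_subset ht)) hne hn

end Pool.Agent.LibFlagPL

end

section

namespace Pool.Agent.LibFlagPL

open Finset

set_option linter.unusedSectionVars false

variable {T : Type} [Fintype T] [DecidableEq T]

theorem F2.susp_of_subset {G : SimpleGraph T} {K : Finset T} (h : F2 G K) {s s' : T}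
    (hs : s ∈ K) (hs' : s' ∈ K) (hne : s ≠ s') (hn : ¬ G.Adj s s')
    (hsub : nb G K s ⊆ nb G K s') :
    nb G K s = nb G K s' ∧ K = insert s (insert s' (nb G K s)) := by
  have hN : nb G K s = nb G K s' := Circle.eq_of_subset (h.2.1 s hs) (h.2.1 s' hs') hsub
  refine ⟨hN, (Conn.eq_of_closed h.1 ?_ ⟨s, Finset.mem_insert_self _ _⟩ ?_).symm⟩
  · intro x hx
    rcases Finset.mem_insert.1 hx with rfl | hx
    · exact hs
    rcases Finset.mem_insert.1 hx with rfl | hx
    · exact hs'
    · exact nb_subset hx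
  · intro a ha b hb hab
    rcases Finset.mem_insert.1 ha with rfl | ha
    · exact Finset.mem_insert_of_mem (Finset.mem_insert_of_mem (mem_nb.2 ⟨hb, hab⟩))
    rcases Finset.mem_insert.1 ha with rfl | ha
    · exact Finset.mem_insert_of_mem (Finset.mem_insert_of_mem (by
        rw [hN]
        exact mem_nb.2 ⟨hb, hab⟩))
    have hsa : G.Adj s a := (mem_nb.1 ha).2
    have hs'a : G.Adj s' a := (mem_nb.1 (hsub ha)).2
    have haK : a ∈ K := nb_subset ha
    obtain ⟨x, y, hxy, hnxy, he⟩ := Circle.nb_eq (h.2.1 s hs) ha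
    have hx : x ∈ nb G (nb G K s) a := by rw [he]; simp
    have hy : y ∈ nb G (nb G K s) a := by rw [he]; simp
    have hx1 := (mem_nb.1 hx).1
    have hy1 := (mem_nb.1 hy).1
    have hc : Circle G {s, x, s', y} := circle_four (mem_nb.1 hx1).2 (mem_nb.1 (hsub hx1)).2.symm
      (mem_nb.1 (hsub hy1)).2 (mem_nb.1 hy1).2.symm hne hxy hn hnxy
    have hsub2 : ({s, x, s', y} : Finset T) ⊆ nb G K a := by
      intro z hz
      simp only [Finset.mem_insert, Finset.mem_singleton] at hz
      rcases hz with rfl | rfl | rfl | rfl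
      · exact mem_nb.2 ⟨hs, hsa.symm⟩
      · exact mem_nb.2 ⟨nb_subset hx1, (mem_nb.1 hx).2⟩
      · exact mem_nb.2 ⟨hs', hs'a.symm⟩
      · exact mem_nb.2 ⟨nb_subset hy1, (mem_nb.1 hy).2⟩
    have heq := Circle.eq_of_subset hc (h.2.1 a haK) hsub2
    have hb2 : b ∈ ({s, x, s', y} : Finset T) := by
      rw [heq]
      exact mem_nb.2 ⟨hb, hab⟩
    simp only [Finset.mem_insert, Finset.mem_singleton] at hb2
    rcases hb2 with rfl | rfl | rfl | rfl
    · exact Finset.mem_insert_self _ _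
    · exact Finset.mem_insert_of_mem (Finset.mem_insert_of_mem hx1)
    · exact Finset.mem_insert_of_mem (Finset.mem_insert_self _ _)
    · exact Finset.mem_insert_of_mem (Finset.mem_insert_of_mem hy1)

theorem F3.susp_of_subset {G : SimpleGraph T} {M : Finset T} (h : F3 G M) {s s' : T}
    (hs : s ∈ M) (hs' : s' ∈ M) (hne : s ≠ s') (hn : ¬ G.Adj s s')
    (hsub : nb G M s ⊆ nb G M s') :
    nb G M s = nb G M s' ∧ M = insert s (insert s' (nb G M s)) := by
  have hN : nb G M s = nb G M s' := F2.eq_of_subset (h.2 s hs) (h.2 s' hs') hsub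
  refine ⟨hN, (Conn.eq_of_closed h.1 ?_ ⟨s, Finset.mem_insert_self _ _⟩ ?_).symm⟩
  · intro x hx
    rcases Finset.mem_insert.1 hx with rfl | hx
    · exact hs
    rcases Finset.mem_insert.1 hx with rfl | hx
    · exact hs'
    · exact nb_subset hx
  · intro a ha b hb hab
    rcases Finset.mem_insert.1 ha with rfl | ha
    · exact Finset.mem_insert_of_mem (Finset.mem_insert_of_mem (mem_nb.2 ⟨hb, hab⟩))
    rcases Finset.mem_insert.1 ha with rfl | ha
    · exact Finset.mem_insert_of_mem (Finset.mem_insert_of_mem (by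
        rw [hN]
        exact mem_nb.2 ⟨hb, hab⟩))
    have hsa : G.Adj s a := (mem_nb.1 ha).2
    have hs'a : G.Adj s' a := (mem_nb.1 (hsub ha)).2
    have haM : a ∈ M := nb_subset ha
    have hC : F2 G (insert s (insert s' (nb G (nb G M s) a))) :=
      F2_susp (F3.circle h hs haM hsa) (fun t ht => (mem_nb.1 (mem_nb.1 ht).1).2)
        (fun t ht => (mem_nb.1 (hsub (mem_nb.1 ht).1)).2) hne hn
    have hsub2 : insert s (insert s' (nb G (nb G M s) a)) ⊆ nb G M a := by
      intro z hz
      rcases Finset.mem_insert.1 hz with rfl | hz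
      · exact mem_nb.2 ⟨hs, hsa.symm⟩
      rcases Finset.mem_insert.1 hz with rfl | hz
      · exact mem_nb.2 ⟨hs', hs'a.symm⟩
      · exact mem_nb.2 ⟨nb_subset (mem_nb.1 hz).1, (mem_nb.1 hz).2⟩
    have heq := F2.eq_of_subset hC (h.2 a haM) hsub2
    have hb2 : b ∈ insert s (insert s' (nb G (nb G M s) a)) := by
      rw [heq]
      exact mem_nb.2 ⟨hb, hab⟩
    rcases Finset.mem_insert.1 hb2 with rfl | hb2
    · exact Finset.mem_insert_self _ _
    rcases Finset.mem_insert.1 hb2 with rfl | hb2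
    · exact Finset.mem_insert_of_mem (Finset.mem_insert_self _ _)
    · exact Finset.mem_insert_of_mem (Finset.mem_insert_of_mem (mem_nb.1 hb2).1)

end Pool.Agent.LibFlagPL

end

section

namespace Pool.Agent.LibFlagPL

open Finset

set_option linter.unusedSectionVars false

variable {T : Type} [Fintype T] [DecidableEq T]

private theorem S2O_one {G : SimpleGraph T} {K : Finset T} {s : T} (hs : s ∈ K)
    (h : (nb G K s).card + 2 = K.card) : ∃ s' ∈ K, s' ≠ s ∧ ¬ G.Adj s s' ∧
      ∀ t ∈ K, t ≠ s → ¬ G.Adj s t → t = s' := by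
  have hsub : nb G K s ⊆ K := fun t ht => (mem_nb.1 ht).1
  have hsn : s ∉ nb G K s := fun hn => G.loopless.irrefl s (mem_nb.1 hn).2
  have h1 : (K \ nb G K s).card = 2 := by
    have := Finset.card_sdiff_add_card_eq_card hsub
    omega
  have h2 : s ∈ K \ nb G K s := Finset.mem_sdiff.2 ⟨hs, hsn⟩
  have h3 : ((K \ nb G K s).erase s).card = 1 := by
    rw [Finset.card_erase_of_mem h2, h1]
  obtain ⟨s', hs'⟩ := Finset.card_eq_one.1 h3
  have h4 : s' ∈ (K \ nb G K s).erase s := by
    rw [hs']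
    exact Finset.mem_singleton_self _
  have h5 := Finset.mem_erase.1 h4
  have h6 := Finset.mem_sdiff.1 h5.2
  refine ⟨s', h6.1, h5.1, fun hadj => h6.2 (mem_nb.2 ⟨h6.1, hadj⟩), fun t ht hne hn => ?_⟩
  have h7 : t ∈ (K \ nb G K s).erase s :=
    Finset.mem_erase.2 ⟨hne, Finset.mem_sdiff.2 ⟨ht, fun hx => hn (mem_nb.1 hx).2⟩⟩
  rw [hs'] at h7
  exact Finset.mem_singleton.1 h7

private theorem S2O_anti {G : SimpleGraph T} {K : Finset T}
    (h : ∀ t ∈ K, (nb G K t).card + 2 = K.card) {s : T} (hs : s ∈ K) :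
    ∃ s' ∈ K, s' ≠ s ∧ ¬ G.Adj s s' ∧
      ∀ t ∈ K, t ≠ s → t ≠ s' → G.Adj s t ∧ G.Adj s' t := by
  obtain ⟨s', h1, h2, h3, h4⟩ := S2O_one hs (h s hs)
  obtain ⟨s'', h5, h6, h7, h8⟩ := S2O_one h1 (h s' h1)
  have h9 : s = s'' := h8 s hs h2.symm (fun hx => h3 hx.symm)
  subst h9
  refine ⟨s', h1, h2, h3, fun t ht hts hts' => ⟨?_, ?_⟩⟩
  · by_contra hn
    exact hts' (h4 t ht hts hn)
  · by_contra hn
    exact hts (h8 t ht hts' hn)

theorem F2.six_iff {G : SimpleGraph T} {K : Finset T} (h : F2 G K) :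
    K.card = 6 ↔ ∀ s ∈ K, (nb G K s).card = 4 := by
  have h1 := h.2.2
  constructor
  · intro h6
    have h2 : ∑ s ∈ K, 4 = ∑ s ∈ K, (nb G K s).card := by
      rw [Finset.sum_const, smul_eq_mul]
      omega
    have h3 := (Finset.sum_eq_sum_iff_of_le (fun s hs => h.four_le hs)).1 h2
    exact fun s hs => (h3 s hs).symm
  · intro h4
    have h2 : ∑ s ∈ K, (nb G K s).card = ∑ s ∈ K, 4 := Finset.sum_congr rfl h4
    rw [Finset.sum_const, smul_eq_mul] at h2
    omega

theorem F2.antipode {G : SimpleGraph T} {K : Finset T} (h : F2 G K) (h6 : K.card = 6) {s : T}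
    (hs : s ∈ K) : ∃ s' ∈ K, s' ≠ s ∧ ¬ G.Adj s s' ∧
      ∀ t ∈ K, t ≠ s → t ≠ s' → G.Adj s t ∧ G.Adj s' t := by
  refine S2O_anti (fun t ht => ?_) hs
  rw [h.six_iff.1 h6 t ht, h6]

private theorem S2O_deg {G : SimpleGraph T} {M : Finset T} (h : F3 G M) (h8 : M.card = 8) {s : T}
    (hs : s ∈ M) : (nb G M s).card = 6 := by
  have h1 : 6 ≤ (nb G M s).card := (h.2 s hs).six_le
  obtain ⟨s', h2, h3, h4⟩ := h.exists_nonadj hs
  have h5 : nb G M s ⊆ (M.erase s).erase s' := by
    intro t ht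
    have ht' := mem_nb.1 ht
    refine Finset.mem_erase.2 ⟨?_, Finset.mem_erase.2 ⟨?_, ht'.1⟩⟩
    · rintro rfl
      exact h4 ht'.2
    · rintro rfl
      exact G.loopless.irrefl _ ht'.2
  have h6 := Finset.card_le_card h5
  rw [Finset.card_erase_of_mem (Finset.mem_erase.2 ⟨h3, h2⟩), Finset.card_erase_of_mem hs, h8] at h6
  omega

theorem F3.antipode {G : SimpleGraph T} {M : Finset T} (h : F3 G M) (h8 : M.card = 8) {s : T}
    (hs : s ∈ M) : ∃ s' ∈ M, s' ≠ s ∧ ¬ G.Adj s s' ∧
      ∀ t ∈ M, t ≠ s → t ≠ s' → G.Adj s t ∧ G.Adj s' t := by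
  refine S2O_anti (fun t ht => ?_) hs
  rw [S2O_deg h h8 ht, h8]

theorem F3.oct_nb {G : SimpleGraph T} {M : Finset T} (h : F3 G M) (h8 : M.card = 8) {s : T}
    (hs : s ∈ M) : Oct G (nb G M s) :=
  ⟨h.2 s hs, S2O_deg h h8 hs⟩

end Pool.Agent.LibFlagPL

end
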