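import Pool.Agent.LibFlagPL.SideC
import Pool.Agent.LibFlagPL.SurfA

/-!
# LibFlagPL.GenA: the class `Z_m` in all dimensions, rules for `chi`, Lemma S
-/

section

namespace Pool.Agent.LibFlagPL

open Finset

set_option linter.unusedSectionVars false

variable {T : Type} [Fintype T] [DecidableEq T]


theorem nb_self_notMem {G : SimpleGraph T} {S : Finset T} {y : T} : y ∉ nb G S y :=
  fun h => G.loopless.irrefl y (mem_nb.1 h).2

theorem nb_nb_comm {G : SimpleGraph T} {S : Finset T} (x y : T) :
    nb G (nb G S x) y = nb G (nb G S y) x := by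
  ext t
  simp only [mem_nb]
  tauto

theorem nb_insert_adj {G : SimpleGraph T} {S : Finset T} {x y : T} (h : G.Adj x y) :
    nb G (insert y S) x = insert y (nb G S x) := by
  ext t
  simp only [mem_nb, Finset.mem_insert]
  constructor
  · rintro ⟨h1 | h1, h2⟩
    · exact Or.inl h1
    · exact Or.inr ⟨h1, h2⟩
  · rintro (h1 | h1)
    · exact ⟨Or.inl h1, h1 ▸ h⟩
    · exact ⟨Or.inr h1.1, h1.2⟩

theorem nb_insert_not_adj {G : SimpleGraph T} {S : Finset T} {x y : T} (h : ¬ G.Adj x y) :
    nb G (insert y S) x = nb G S x := by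
  ext t
  simp only [mem_nb, Finset.mem_insert]
  constructor
  · rintro ⟨h1 | h1, h2⟩
    · exact absurd (h1 ▸ h2) h
    · exact ⟨h1, h2⟩
  · rintro ⟨h1, h2⟩
    exact ⟨Or.inr h1, h2⟩

theorem nb_eq_of_all {G : SimpleGraph T} {S : Finset T} {x : T} (h : ∀ t ∈ S, G.Adj x t) :
    nb G S x = S := by
  ext t
  rw [mem_nb]
  exact ⟨fun h1 => h1.1, fun h1 => ⟨h1, h t h1⟩⟩

theorem nb_eq_inter {G : SimpleGraph T} {S A : Finset T} (h : A ⊆ S) (x : T) :
    nb G A x = A ∩ nb G S x := by
  ext t
  simp only [mem_nb, Finset.mem_inter]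
  constructor
  · rintro ⟨h1, h2⟩
    exact ⟨h1, h h1, h2⟩
  · rintro ⟨h1, _, h2⟩
    exact ⟨h1, h2⟩

theorem nb_union_eq {G : SimpleGraph T} {A B : Finset T} (x : T) :
    nb G (A ∪ B) x = nb G A x ∪ nb G B x := by
  ext t
  simp only [mem_nb, Finset.mem_union]
  tauto

theorem nb_sdiff_eq {G : SimpleGraph T} {A B : Finset T} (x : T) :
    nb G (A \ B) x = nb G A x \ nb G B x := by
  ext t
  simp only [mem_nb, Finset.mem_sdiff]
  tauto

theorem nb_erase_eq {G : SimpleGraph T} {A : Finset T} (x a : T) :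
    nb G (A.erase a) x = (nb G A x).erase a := by
  ext t
  simp only [mem_nb, Finset.mem_erase]
  tauto


theorem Zc.nonempty {G : SimpleGraph T} {m : ℕ} {S : Finset T} (h : Zc G m S) : S.Nonempty := by
  match m, h with
  | 0, h => exact Finset.card_pos.1 (by rw [h.1]; norm_num)
  | 1, h => exact h.2.2.1
  | 2, h => exact h.1.1
  | (m + 3), h => exact h.1.1

theorem Zc.conn {G : SimpleGraph T} {m : ℕ} {S : Finset T} (h : Zc G (m + 1) S) : Conn G S := by
  match m, h with
  | 0, h => exact h.2.2
  | 1, h => exact h.1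
  | (m + 2), h => exact h.1

theorem Zc.link {G : SimpleGraph T} {m : ℕ} {S : Finset T} (h : Zc G (m + 1) S) {s : T}
    (hs : s ∈ S) : Zc G m (nb G S s) := by
  match m, h with
  | 0, h =>
    refine ⟨h.2.1 s hs, fun a ha b hb hab => ?_⟩
    exact h.not_adj hs ha hb hab.ne hab
  | 1, h => exact h.2.1 s hs
  | (m + 2), h => exact h.2.1 s hs

theorem Zc.chi_eq {G : SimpleGraph T} {m : ℕ} {S : Finset T} (h : Zc G (m + 2) S) :
    chi G S = 0 := by
  match m, h with
  | 0, h => exact F2.chi_eq h
  | (m + 1), h => exact h.2.2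

/-- construction of the members of `Z_m`, `m ≥ 3` -/
theorem Zc.mk {G : SimpleGraph T} {m : ℕ} {S : Finset T} (hc : Conn G S)
    (hl : ∀ s ∈ S, Zc G (m + 2) (nb G S s)) (h0 : chi G S = 0) : Zc G (m + 3) S :=
  ⟨hc, hl, h0⟩

theorem zc_zero_iff {G : SimpleGraph T} {S : Finset T} :
    Zc G 0 S ↔ ∃ a b : T, a ≠ b ∧ ¬ G.Adj a b ∧ S = {a, b} := by
  constructor
  · rintro ⟨h1, h2⟩
    obtain ⟨a, b, hab, rfl⟩ := Finset.card_eq_two.1 h1
    exact ⟨a, b, hab, h2 a (by simp) b (by simp), rfl⟩
  · rintro ⟨a, b, hab, hn, rfl⟩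
    refine ⟨Finset.card_pair hab, ?_⟩
    intro x hx y hy hxy
    simp only [Finset.mem_insert, Finset.mem_singleton] at hx hy
    rcases hx with rfl | rfl <;> rcases hy with rfl | rfl
    · exact G.loopless.irrefl _ hxy
    · exact hn hxy
    · exact hn hxy.symm
    · exact G.loopless.irrefl _ hxy

theorem zc_one_iff {G : SimpleGraph T} {S : Finset T} : Zc G 1 S ↔ Circle G S := Iff.rfl

theorem zc_two_iff {G : SimpleGraph T} {S : Finset T} : Zc G 2 S ↔ F2 G S := Iff.rfl

theorem zc_three_iff {G : SimpleGraph T} {S : Finset T} : Zc G 3 S ↔ F3 G S ∧ chi G S = 0 :=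
  ⟨fun h => ⟨⟨h.1, h.2.1⟩, h.2.2⟩, fun h => ⟨h.1.1, h.1.2, h.2⟩⟩

end Pool.Agent.LibFlagPL

end

section

namespace Pool.Agent.LibFlagPL

open Finset

set_option linter.unusedSectionVars false

variable {T : Type} [Fintype T] [DecidableEq T]

theorem Emb.chi_eq {T' : Type} [Fintype T'] [DecidableEq T'] {G : SimpleGraph T} {S : Finset T}
    {G' : SimpleGraph T'} {φ : T → T'} (h : Emb G S G' φ) : chi G' (S.image φ) = chi G S := by
  classical
  unfold chi
  have hback : ∀ τ : Finset T', τ ⊆ S.image φ → (S.filter fun s => φ s ∈ τ).image φ = τ := by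
    intro τ hτ
    ext x
    rw [Finset.mem_image]
    constructor
    · rintro ⟨s, hs, rfl⟩
      exact (Finset.mem_filter.1 hs).2
    · intro hx
      obtain ⟨s, hs, rfl⟩ := Finset.mem_image.1 (hτ hx)
      exact ⟨s, Finset.mem_filter.2 ⟨hs, hx⟩, rfl⟩
  have hforth : ∀ σ : Finset T, σ ⊆ S → (S.filter fun s => φ s ∈ σ.image φ) = σ := by
    intro σ hσ
    ext x
    rw [Finset.mem_filter, Finset.mem_image]
    constructor
    · rintro ⟨hx, y, hy, hyx⟩
      rw [← h.1 y (hσ hy) x hx hyx]
      exact hy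
    · intro hx
      exact ⟨hσ hx, x, hx, rfl⟩
  refine Finset.sum_nbij' (fun τ => S.filter fun s => φ s ∈ τ) (fun σ => σ.image φ) ?_ ?_ ?_ ?_ ?_
  · intro τ hτ
    rw [Finset.mem_filter, Finset.mem_powerset] at hτ
    rw [Finset.mem_filter, Finset.mem_powerset]
    refine ⟨Finset.filter_subset _ _, ?_⟩
    intro s hs t ht hst
    rw [Finset.mem_filter] at hs ht
    exact (h.2 s hs.1 t ht.1).1 (hτ.2 _ hs.2 _ ht.2 fun h1 => hst (h.1 s hs.1 t ht.1 h1))
  · intro σ hσ
    rw [Finset.mem_filter, Finset.mem_powerset] at hσ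
    rw [Finset.mem_filter, Finset.mem_powerset]
    refine ⟨Finset.image_subset_image hσ.1, ?_⟩
    intro x hx y hy hxy
    obtain ⟨s, hs, rfl⟩ := Finset.mem_image.1 hx
    obtain ⟨t, ht, rfl⟩ := Finset.mem_image.1 hy
    exact (h.2 s (hσ.1 hs) t (hσ.1 ht)).2 (hσ.2 s hs t ht fun h1 => hxy (by rw [h1]))
  · intro τ hτ
    rw [Finset.mem_filter, Finset.mem_powerset] at hτ
    exact hback τ hτ.1
  · intro σ hσ
    rw [Finset.mem_filter, Finset.mem_powerset] at hσ
    exact hforth σ hσ.1
  · intro τ hτ
    rw [Finset.mem_filter, Finset.mem_powerset] at hτ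
    have h1 : (S.filter fun s => φ s ∈ τ).card = τ.card := by
      rw [← (h.mono (Finset.filter_subset (fun s => φ s ∈ τ) S)).card, hback τ hτ.1]
    rw [h1]

theorem Agr.zc {G G' : SimpleGraph T} {S : Finset T} (h : Agr G G' S) {m : ℕ}
    (hZ : Zc G m S) : Zc G' m S := by
  induction m using Nat.strong_induction_on generalizing S with
  | _ m ih =>
    match m, hZ, ih with
    | 0, hZ, _ => exact ⟨hZ.1, fun a ha b hb hab => hZ.2 a ha b hb ((h a ha b hb).2 hab)⟩
    | 1, hZ, _ => exact Agr.circle h hZ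
    | 2, hZ, _ => exact Agr.f2 h hZ
    | (m + 3), hZ, ih =>
      refine ⟨Agr.conn h hZ.1, fun s hs => ?_, ?_⟩
      · rw [Agr.nb h hs]
        exact ih (m + 2) (by omega) (Agr.mono h nb_subset) (hZ.2.1 s hs)
      · rw [Agr.chi h]
        exact hZ.2.2

theorem Emb.zc {T' : Type} [Fintype T'] [DecidableEq T'] {G : SimpleGraph T} {S : Finset T}
    {G' : SimpleGraph T'} {φ : T → T'} (h : Emb G S G' φ) {m : ℕ} (hZ : Zc G m S) :
    Zc G' m (S.image φ) := by
  induction m using Nat.strong_induction_on generalizing S with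
  | _ m ih =>
    match m, hZ, ih with
    | 0, hZ, _ =>
      refine ⟨by rw [h.card]; exact hZ.1, ?_⟩
      intro x hx y hy hxy
      obtain ⟨s, hs, rfl⟩ := Finset.mem_image.1 hx
      obtain ⟨t, ht, rfl⟩ := Finset.mem_image.1 hy
      exact hZ.2 s hs t ht ((h.2 s hs t ht).1 hxy)
    | 1, hZ, _ => exact Emb.circle h hZ
    | 2, hZ, _ => exact Emb.f2 h hZ
    | (m + 3), hZ, ih =>
      refine ⟨Emb.conn h hZ.1, fun x hx => ?_, ?_⟩
      · obtain ⟨s, hs, rfl⟩ := Finset.mem_image.1 hx
        rw [Emb.nb h hs]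
        exact ih (m + 2) (by omega) (Emb.mono h nb_subset) (hZ.2.1 s hs)
      · rw [Emb.chi_eq h]
        exact hZ.2.2

end Pool.Agent.LibFlagPL

end

section

namespace Pool.Agent.LibFlagPL

open Finset

set_option linter.unusedSectionVars false

variable {T : Type} [Fintype T] [DecidableEq T]

/-- SUB -/
theorem zc_sub {G : SimpleGraph T} {m : ℕ} {A B : Finset T} (hA : Zc G m A) (hB : Zc G m B)
    (h : A ⊆ B) : A = B := by
  induction m generalizing A B with
  | zero =>
    refine Finset.eq_of_subset_of_card_le h ?_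
    rw [hA.1, hB.1]
  | succ m ih =>
    refine Conn.eq_of_closed (Zc.conn hB) h (Zc.nonempty hA) ?_
    intro a ha b hb hab
    have h1 := ih (Zc.link hA ha) (Zc.link hB (h ha)) (nb_mono h a)
    have h2 : b ∈ nb G A a := by
      rw [h1]
      exact mem_nb.2 ⟨hb, hab⟩
    exact (mem_nb.1 h2).1

theorem Zc.exists_nonadj {G : SimpleGraph T} {m : ℕ} {K : Finset T} (h : Zc G m K) {x : T}
    (hx : x ∈ K) : ∃ y ∈ K, y ≠ x ∧ ¬ G.Adj x y := by
  induction m generalizing K x with
  | zero =>
    obtain ⟨a, b, hab, hn, rfl⟩ := zc_zero_iff.1 h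
    rw [Finset.mem_insert, Finset.mem_singleton] at hx
    rcases hx with rfl | rfl
    · exact ⟨b, by simp, hab.symm, hn⟩
    · exact ⟨a, by simp, hab, fun h1 => hn h1.symm⟩
  | succ m ih =>
    obtain ⟨t, ht⟩ := Zc.nonempty (Zc.link h hx)
    rw [mem_nb] at ht
    obtain ⟨z, hz, hzx, hn⟩ := ih (Zc.link h ht.1) (mem_nb.2 ⟨hx, ht.2.symm⟩)
    exact ⟨z, (mem_nb.1 hz).1, hzx, hn⟩

theorem Zc.card_ge {G : SimpleGraph T} {m : ℕ} {S : Finset T} (h : Zc G m S) :
    2 * m + 2 ≤ S.card := by
  induction m generalizing S with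
  | zero =>
    have h1 : S.card = 2 := h.1
    omega
  | succ m ih =>
    obtain ⟨x, hx⟩ := Zc.nonempty h
    obtain ⟨y, hy, hyx, hn⟩ := Zc.exists_nonadj h hx
    have h1 := ih (Zc.link h hx)
    have h2 : y ∉ nb G S x := fun h3 => hn (mem_nb.1 h3).2
    have h3 : x ∉ insert y (nb G S x) := by
      rw [Finset.mem_insert]
      rintro (h4 | h4)
      · exact hyx h4.symm
      · exact nb_self_notMem h4
    have h4 : insert x (insert y (nb G S x)) ⊆ S := by
      intro t ht
      rw [Finset.mem_insert, Finset.mem_insert] at ht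
      rcases ht with ht | ht | ht
      · rw [ht]
        exact hx
      · rw [ht]
        exact hy
      · exact (mem_nb.1 ht).1
    have h5 := Finset.card_le_card h4
    rw [Finset.card_insert_of_notMem h3, Finset.card_insert_of_notMem h2] at h5
    omega

end Pool.Agent.LibFlagPL

end

section

namespace Pool.Agent.LibFlagPL

open Finset

set_option linter.unusedSectionVars false

variable {T : Type} [Fintype T] [DecidableEq T]

theorem chi_glue {G : SimpleGraph T} {A B : Finset T}
    (h : ∀ x ∈ A \ B, ∀ y ∈ B \ A, ¬ G.Adj x y) :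
    chi G (A ∪ B) + chi G (A ∩ B) = chi G A + chi G B := by
  classical
  unfold chi
  have h1 : ((A ∪ B).powerset.filter fun σ => Cl G σ) =
      (A.powerset.filter fun σ => Cl G σ) ∪ (B.powerset.filter fun σ => Cl G σ) := by
    ext σ
    simp only [Finset.mem_union, Finset.mem_filter, Finset.mem_powerset]
    constructor
    · rintro ⟨h1, h2⟩
      by_cases hA : σ ⊆ A
      · exact Or.inl ⟨hA, h2⟩
      · by_cases hB : σ ⊆ B
        · exact Or.inr ⟨hB, h2⟩
        · exfalso
          obtain ⟨y, hy, hyA⟩ := Finset.not_subset.1 hA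
          obtain ⟨x, hx, hxB⟩ := Finset.not_subset.1 hB
          have hyB : y ∈ B := (Finset.mem_union.1 (h1 hy)).resolve_left hyA
          have hxA : x ∈ A := (Finset.mem_union.1 (h1 hx)).resolve_right hxB
          have hne : x ≠ y := fun e => hyA (e ▸ hxA)
          exact h x (Finset.mem_sdiff.2 ⟨hxA, hxB⟩) y (Finset.mem_sdiff.2 ⟨hyB, hyA⟩)
            (h2 x hx y hy hne)
    · rintro (⟨h1, h2⟩ | ⟨h1, h2⟩)
      · exact ⟨h1.trans Finset.subset_union_left, h2⟩
      · exact ⟨h1.trans Finset.subset_union_right, h2⟩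
  have h2 : ((A ∩ B).powerset.filter fun σ => Cl G σ) =
      (A.powerset.filter fun σ => Cl G σ) ∩ (B.powerset.filter fun σ => Cl G σ) := by
    ext σ
    simp only [Finset.mem_inter, Finset.mem_filter, Finset.mem_powerset, Finset.subset_inter_iff]
    tauto
  rw [h1, h2]
  exact Finset.sum_union_inter

theorem chi_cl {G : SimpleGraph T} {A : Finset T} (h : Cl G A) :
    chi G A = (1 / 2 : ℚ) ^ A.card := by
  classical
  unfold chi
  have h1 : (A.powerset.filter fun σ => Cl G σ) = A.powerset := by
    refine Finset.filter_true_of_mem fun σ hσ => ?_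
    have h2 := Finset.mem_powerset.1 hσ
    exact fun s hs t ht hst => h s (h2 hs) t (h2 ht) hst
  rw [h1]
  have h3 := Finset.sum_pow_mul_eq_add_pow (-1 / 2 : ℚ) 1 A
  simp only [one_pow, mul_one] at h3
  rw [h3]
  norm_num

theorem chi_join_pair {G : SimpleGraph T} {R : Finset T} {a b : T} (hne : a ≠ b)
    (hn : ¬ G.Adj a b) (ha : ∀ t ∈ R, G.Adj a t) (hb : ∀ t ∈ R, G.Adj b t) :
    chi G (insert a (insert b R)) = 0 := by
  have haR : a ∉ R := fun h => G.loopless.irrefl a (ha a h)
  have hbR : b ∉ R := fun h => G.loopless.irrefl b (hb b h)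
  have h1 : a ∉ insert b R := by
    rw [Finset.mem_insert]
    rintro (h | h)
    · exact hne h
    · exact haR h
  rw [chi_insert h1, chi_insert hbR, nb_insert_not_adj hn, nb_eq_of_all ha, nb_eq_of_all hb]
  ring

end Pool.Agent.LibFlagPL

end

section

namespace Pool.Agent.LibFlagPL

open Finset

set_option linter.unusedSectionVars false

variable {T : Type} [Fintype T] [DecidableEq T]

theorem susp_conn {G : SimpleGraph T} {K : Finset T} {s s' : T} (hK : K.Nonempty)
    (h : ∀ t ∈ K, G.Adj s t) (h' : ∀ t ∈ K, G.Adj s' t) :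
    Conn G (insert s (insert s' K)) := by
  have ms : s ∈ insert s (insert s' K) := Finset.mem_insert_self _ _
  have ms' : s' ∈ insert s (insert s' K) :=
    Finset.mem_insert_of_mem (Finset.mem_insert_self _ _)
  have mK : ∀ t ∈ K, t ∈ insert s (insert s' K) := fun t ht =>
    Finset.mem_insert_of_mem (Finset.mem_insert_of_mem ht)
  obtain ⟨c, hc⟩ := hK
  have key1 : ∀ x ∈ insert s (insert s' K), Relation.ReflTransGen
      (fun a b => a ∈ insert s (insert s' K) ∧ b ∈ insert s (insert s' K) ∧ G.Adj a b) s x := by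
    intro x hx
    rcases Finset.mem_insert.1 hx with rfl | hx
    · exact Relation.ReflTransGen.refl
    · rcases Finset.mem_insert.1 hx with rfl | hx
      · exact Relation.ReflTransGen.tail
          (Relation.ReflTransGen.single ⟨ms, mK c hc, h c hc⟩) ⟨mK c hc, ms', (h' c hc).symm⟩
      · exact Relation.ReflTransGen.single ⟨ms, mK x hx, h x hx⟩
  have key2 : ∀ x ∈ insert s (insert s' K), Relation.ReflTransGen
      (fun a b => a ∈ insert s (insert s' K) ∧ b ∈ insert s (insert s' K) ∧ G.Adj a b) x s := by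
    intro x hx
    rcases Finset.mem_insert.1 hx with rfl | hx
    · exact Relation.ReflTransGen.refl
    · rcases Finset.mem_insert.1 hx with rfl | hx
      · exact Relation.ReflTransGen.tail
          (Relation.ReflTransGen.single ⟨ms', mK c hc, h' c hc⟩) ⟨mK c hc, ms, (h c hc).symm⟩
      · exact Relation.ReflTransGen.single ⟨mK x hx, ms, (h x hx).symm⟩
  exact ⟨⟨s, ms⟩, fun x hx y hy => (key2 x hx).trans (key1 y hy)⟩

theorem zc_susp {G : SimpleGraph T} {m : ℕ} {K : Finset T} (hK : Zc G m K) {s s' : T}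
    (hne : s ≠ s') (hn : ¬ G.Adj s s') (h : ∀ t ∈ K, G.Adj s t) (h' : ∀ t ∈ K, G.Adj s' t) :
    Zc G (m + 1) (insert s (insert s' K)) := by
  induction m generalizing K with
  | zero =>
    obtain ⟨a, b, hab, hnab, rfl⟩ := zc_zero_iff.1 hK
    have e : insert s (insert s' ({a, b} : Finset T)) = {s, a, s', b} := by
      ext x
      simp only [Finset.mem_insert, Finset.mem_singleton]
      tauto
    have ha : a ∈ ({a, b} : Finset T) := by simp
    have hb : b ∈ ({a, b} : Finset T) := by simp
    change Zc G 1 _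
    rw [zc_one_iff, e]
    exact circle_four (h a ha) (h' a ha).symm (h' b hb) (h b hb).symm hne hab hn hnab
  | succ m ih =>
    cases m with
    | zero =>
      change Zc G 2 _
      rw [zc_two_iff]
      exact F2_susp (zc_one_iff.1 hK) h h' hne hn
    | succ m =>
      refine Zc.mk (susp_conn hK.nonempty h h') ?_ (chi_join_pair hne hn h h')
      intro x hx
      rcases Finset.mem_insert.1 hx with rfl | hx
      · rw [nb_insert_not_adj (G.loopless.irrefl x), nb_insert_not_adj hn, nb_eq_of_all h]
        exact hK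
      · rcases Finset.mem_insert.1 hx with rfl | hx
        · rw [nb_insert_not_adj (fun h1 => hn h1.symm), nb_insert_not_adj (G.loopless.irrefl x),
            nb_eq_of_all h']
          exact hK
        · rw [nb_insert_adj (h x hx).symm, nb_insert_adj (h' x hx).symm]
          exact ih (Zc.link hK hx) (fun t ht => h t (mem_nb.1 ht).1) (fun t ht => h' t (mem_nb.1 ht).1)

end Pool.Agent.LibFlagPL

end

section

namespace Pool.Agent.LibFlagPL

open Finset

set_option linter.unusedSectionVars false

variable {T : Type} [Fintype T] [DecidableEq T]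

/-- SUSP -/
theorem zc_susp_eq {G : SimpleGraph T} {m : ℕ} {K : Finset T} (hK : Zc G (m + 1) K) {s s' : T}
    (hs : s ∈ K) (hs' : s' ∈ K) (hne : s ≠ s') (hn : ¬ G.Adj s s')
    (h : nb G K s ⊆ nb G K s') : K = insert s (insert s' (nb G K s)) := by
  have hL := hK.link hs
  have h1 : ∀ t ∈ nb G K s, G.Adj s t := fun t ht => (mem_nb.1 ht).2
  have h2 : ∀ t ∈ nb G K s, G.Adj s' t := fun t ht => (mem_nb.1 (h ht)).2
  refine (zc_sub (zc_susp hL hne hn h1 h2) hK ?_).symm
  intro t ht
  rcases Finset.mem_insert.1 ht with rfl | ht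
  · exact hs
  rcases Finset.mem_insert.1 ht with rfl | ht
  · exact hs'
  · exact nb_subset ht

end Pool.Agent.LibFlagPL

end

section

namespace Pool.Agent.LibFlagPL

open Finset

set_option linter.unusedSectionVars false

variable {T : Type} [Fintype T] [DecidableEq T]

theorem JT.mono {G : SimpleGraph T} {Y A : Finset T} (h : JT G Y) (hA : A ⊆ Y) : JT G A :=
  fun x hx y hy z hz => h x (hA hx) y (hA hy) z (hA hz)

private theorem GB6_anti {G : SimpleGraph T} {k : ℕ} {O : Finset T} (h : DIA G O k) {x : T}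
    (hx : x ∈ O) : ∃ x' ∈ O, x' ≠ x ∧ ¬ G.Adj x x' ∧
      ∀ t ∈ O, t ≠ x → t ≠ x' → G.Adj x t ∧ G.Adj x' t := by
  obtain ⟨x', hx', hne, hn⟩ := h.2.2 x hx
  refine ⟨x', hx', hne, hn, fun t ht htx htx' => ⟨?_, ?_⟩⟩
  · by_contra hcon
    exact htx' (h.2.1 x hx t ht x' hx' htx hne hcon hn)
  · by_contra hcon
    exact htx (h.2.1 x' hx' t ht x hx htx' hne.symm hcon (fun h1 => hn h1.symm))

theorem DIA.link {G : SimpleGraph T} {k : ℕ} {O : Finset T} (h : DIA G O (k + 1)) {o : T}
    (ho : o ∈ O) : DIA G (nb G O o) k ∧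
      ∃ o' ∈ O, o' ≠ o ∧ ¬ G.Adj o o' ∧ O = insert o (insert o' (nb G O o)) ∧
        ∀ t ∈ nb G O o, G.Adj o' t := by
  obtain ⟨o', ho', hne, hn, hall⟩ := GB6_anti h ho
  have hO : O = insert o (insert o' (nb G O o)) := by
    ext t
    simp only [Finset.mem_insert, mem_nb]
    constructor
    · intro ht
      by_cases h1 : t = o
      · exact Or.inl h1
      · by_cases h2 : t = o'
        · exact Or.inr (Or.inl h2)
        · exact Or.inr (Or.inr ⟨ht, (hall t ht h1 h2).1⟩)
    · rintro (rfl | rfl | ⟨h1, _⟩)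
      · exact ho
      · exact ho'
      · exact h1
  have ho'n : ∀ t ∈ nb G O o, G.Adj o' t := by
    intro t ht
    obtain ⟨h1, h2⟩ := mem_nb.1 ht
    exact (hall t h1 h2.ne' (fun h3 => hn (h3 ▸ h2))).2
  have h1 : o ∉ insert o' (nb G O o) := by
    rw [Finset.mem_insert]
    rintro (h2 | h2)
    · exact hne h2.symm
    · exact nb_self_notMem h2
  have h2 : o' ∉ nb G O o := fun h3 => hn (mem_nb.1 h3).2
  have hcard : O.card = (nb G O o).card + 2 := by
    conv_lhs => rw [hO]
    rw [Finset.card_insert_of_notMem h1, Finset.card_insert_of_notMem h2]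
  have hc := h.1
  refine ⟨⟨by omega, h.2.1.mono nb_subset, fun x hx => ?_⟩, o', ho', hne, hn, hO, ho'n⟩
  obtain ⟨hxO, hox⟩ := mem_nb.1 hx
  obtain ⟨x', hx', hxx, hxn⟩ := h.2.2 x hxO
  refine ⟨x', ?_, hxx, hxn⟩
  have h3 : x' ≠ o := fun h4 => hxn (h4 ▸ hox.symm)
  have h4 : x' ≠ o' := fun h5 => hxn (h5 ▸ (ho'n x hx).symm)
  exact mem_nb.2 ⟨hx', (hall x' hx' h3 h4).1⟩

theorem DIA.susp {G : SimpleGraph T} {k : ℕ} {C : Finset T} (h : DIA G C k) {x x' : T}
    (hne : x ≠ x') (hn : ¬ G.Adj x x') (hx : ∀ t ∈ C, G.Adj x t) (hx' : ∀ t ∈ C, G.Adj x' t) :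
    DIA G (insert x (insert x' C)) (k + 1) := by
  have h1 : x' ∉ C := fun h2 => G.loopless.irrefl x' (hx' x' h2)
  have h2 : x ∉ insert x' C := by
    rw [Finset.mem_insert]
    rintro (h3 | h3)
    · exact hne h3
    · exact G.loopless.irrefl x (hx x h3)
  have hn' : ¬ G.Adj x' x := fun h3 => hn h3.symm
  refine ⟨?_, ?_, ?_⟩
  · rw [Finset.card_insert_of_notMem h2, Finset.card_insert_of_notMem h1, h.1]
    ring
  · intro a ha b hb c hc hba hca hab hac
    simp only [Finset.mem_insert] at ha hb hc
    rcases ha with rfl | rfl | ha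
    · have e1 : b = x' := by
        rcases hb with hb | hb | hb
        · exact absurd hb hba
        · exact hb
        · exact absurd (hx b hb) hab
      have e2 : c = x' := by
        rcases hc with hc | hc | hc
        · exact absurd hc hca
        · exact hc
        · exact absurd (hx c hc) hac
      rw [e1, e2]
    · have e1 : b = x := by
        rcases hb with hb | hb | hb
        · exact hb
        · exact absurd hb hba
        · exact absurd (hx' b hb) hab
      have e2 : c = x := by
        rcases hc with hc | hc | hc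
        · exact hc
        · exact absurd hc hca
        · exact absurd (hx' c hc) hac
      rw [e1, e2]
    · have e1 : b ∈ C := by
        rcases hb with hb | hb | hb
        · exact absurd (hb ▸ (hx a ha).symm) hab
        · exact absurd (hb ▸ (hx' a ha).symm) hab
        · exact hb
      have e2 : c ∈ C := by
        rcases hc with hc | hc | hc
        · exact absurd (hc ▸ (hx a ha).symm) hac
        · exact absurd (hc ▸ (hx' a ha).symm) hac
        · exact hc
      exact h.2.1 a ha b e1 c e2 hba hca hab hac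
  · intro a ha
    simp only [Finset.mem_insert] at ha
    rcases ha with rfl | rfl | ha
    · exact ⟨x', by simp, hne.symm, hn⟩
    · exact ⟨x, by simp, hne, hn'⟩
    · obtain ⟨b, hb, h3, h4⟩ := h.2.2 a ha
      exact ⟨b, Finset.mem_insert_of_mem (Finset.mem_insert_of_mem hb), h3, h4⟩

theorem DIA.anti {G : SimpleGraph T} {k : ℕ} {O : Finset T} (h : DIA G O k) {x : T}
    (hx : x ∈ O) : ∃ x' ∈ O, x' ≠ x ∧ ¬ G.Adj x x' ∧
      ∀ t ∈ O, t ≠ x → t ≠ x' → G.Adj x t ∧ G.Adj x' t :=
  GB6_anti h hx

theorem DIA.pos {G : SimpleGraph T} {k : ℕ} {O : Finset T} (h : DIA G O k) (hO : O.Nonempty) :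
    1 ≤ k := by
  have h1 := Finset.card_pos.2 hO
  have h2 := h.1
  omega

end Pool.Agent.LibFlagPL

end

section

namespace Pool.Agent.LibFlagPL

open Finset

set_option linter.unusedSectionVars false

variable {T : Type} [Fintype T] [DecidableEq T]

private theorem GB7_split {G : SimpleGraph T} {k : ℕ} {O : Finset T} (h : DIA G O (k + 1)) :
    ∃ o ∈ O, ∃ o' ∈ O, o' ≠ o ∧ ¬ G.Adj o o' ∧ DIA G (nb G O o) k ∧
      O = insert o (insert o' (nb G O o)) ∧ (∀ t ∈ nb G O o, G.Adj o t) ∧
        ∀ t ∈ nb G O o, G.Adj o' t := by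
  have h1 : 0 < O.card := by
    rw [h.1]
    omega
  obtain ⟨o, ho⟩ := Finset.card_pos.1 h1
  obtain ⟨h2, o', h3, h4, h5, h6, h7⟩ := h.link ho
  exact ⟨o, ho, o', h3, h4, h5, h2, h6, fun t ht => (mem_nb.1 ht).2, h7⟩

theorem DIA.zc {G : SimpleGraph T} {k : ℕ} {O : Finset T} (h : DIA G O (k + 1)) : Zc G k O := by
  induction k generalizing O with
  | zero =>
    obtain ⟨a, b, hab, hO⟩ := Finset.card_eq_two.1 (h.1.trans (by norm_num))
    refine zc_zero_iff.2 ⟨a, b, hab, ?_, hO⟩
    have ha : a ∈ O := by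
      rw [hO]
      simp
    obtain ⟨y, hy, hya, hn⟩ := h.2.2 a ha
    rw [hO, Finset.mem_insert, Finset.mem_singleton] at hy
    rcases hy with hy | hy
    · exact absurd hy hya
    · rw [← hy]
      exact hn
  | succ k ih =>
    obtain ⟨o, ho, o', ho', hne, hn, hd, hO, h1, h2⟩ := GB7_split h
    have h3 : Zc G k (nb G O o) := ih hd
    rw [hO]
    exact zc_susp h3 hne.symm hn h1 h2

theorem DIA.chi_eq {G : SimpleGraph T} {k : ℕ} {O : Finset T} (h : DIA G O (k + 1)) :
    chi G O = 0 := by
  obtain ⟨o, ho, o', ho', hne, hn, hd, hO, h1, h2⟩ := GB7_split h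
  rw [hO]
  exact chi_join_pair hne.symm hn h1 h2

theorem oct_iff_dia {G : SimpleGraph T} {O : Finset T} : Oct G O ↔ DIA G O 3 := by
  constructor
  · rintro ⟨h1, h6⟩
    refine ⟨h6.trans (by norm_num), ?_, ?_⟩
    · intro x hx y hy z hz hyx hzx hxy hxz
      obtain ⟨x', h2, h3, h4, h5⟩ := h1.antipode h6 hx
      have hy' : y = x' := by
        by_contra hne
        exact hxy (h5 y hy hyx hne).1
      have hz' : z = x' := by
        by_contra hne
        exact hxz (h5 z hz hzx hne).1
      rw [hy', hz']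
    · intro x hx
      obtain ⟨x', h2, h3, h4, h5⟩ := h1.antipode h6 hx
      exact ⟨x', h2, h3, h4⟩
  · intro h
    have h1 : Zc G 2 O := DIA.zc (k := 2) h
    exact ⟨zc_two_iff.1 h1, h.1.trans (by norm_num)⟩

end Pool.Agent.LibFlagPL

end

section

namespace Pool.Agent.LibFlagPL

open Finset

set_option linter.unusedSectionVars false

variable {T : Type} [Fintype T] [DecidableEq T]

private theorem GB8_card {G : SimpleGraph T} : ∀ (m : ℕ) (K : Finset T), Zc G m K → JT G K →
    K.card = 2 * (m + 1) := by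
  intro m
  induction m with
  | zero =>
    intro K h _
    exact h.1
  | succ m ih =>
    intro K h hJ
    obtain ⟨x, hx⟩ := h.nonempty
    obtain ⟨x', hx', hne, hn⟩ := h.exists_nonadj hx
    have h1 : ∀ t ∈ K, t ≠ x → t ≠ x' → G.Adj x t := by
      intro t ht htx htx'
      by_contra hcon
      exact htx' (hJ x hx t ht x' hx' htx hne hcon hn)
    have h3 : x' ∉ nb G K x := fun h4 => hn (mem_nb.1 h4).2
    have h4 : x ∉ insert x' (nb G K x) := by
      intro h5
      rcases Finset.mem_insert.1 h5 with h6 | h6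
      · exact hne h6.symm
      · exact nb_self_notMem h6
    have h2 : K = insert x (insert x' (nb G K x)) := by
      ext t
      rw [Finset.mem_insert, Finset.mem_insert]
      constructor
      · intro ht
        by_cases e1 : t = x
        · exact Or.inl e1
        · by_cases e2 : t = x'
          · exact Or.inr (Or.inl e2)
          · exact Or.inr (Or.inr (mem_nb.2 ⟨ht, h1 t ht e1 e2⟩))
      · rintro (e1 | e2 | e3)
        · rw [e1]; exact hx
        · rw [e2]; exact hx'
        · exact nb_subset e3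
    have h5 := ih (nb G K x) (h.link hx) (hJ.mono nb_subset)
    have h6 := congrArg Finset.card h2
    rw [Finset.card_insert_of_notMem h4, Finset.card_insert_of_notMem h3, h5] at h6
    omega

theorem zc_jt {G : SimpleGraph T} {m : ℕ} {K : Finset T} (h : Zc G m K) (hJ : JT G K) :
    DIA G K (m + 1) :=
  ⟨GB8_card m K h hJ, hJ, fun _ hx => h.exists_nonadj hx⟩

theorem zc_dia_of_card {G : SimpleGraph T} {m : ℕ} {S : Finset T} (h : Zc G m S)
    (hc : S.card = 2 * m + 2) : DIA G S (m + 1) := by
  refine zc_jt h ?_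
  intro x hx y hy z hz hyx hzx hxy hxz
  by_contra hyz
  have h1 : z ∉ nb G S x := fun h4 => hxz (mem_nb.1 h4).2
  have h2 : y ∉ insert z (nb G S x) := by
    intro h5
    rcases Finset.mem_insert.1 h5 with h6 | h6
    · exact hyz h6
    · exact hxy (mem_nb.1 h6).2
  have h3 : x ∉ insert y (insert z (nb G S x)) := by
    intro h5
    rcases Finset.mem_insert.1 h5 with h6 | h6
    · exact hyx h6.symm
    · rcases Finset.mem_insert.1 h6 with h7 | h7
      · exact hzx h7.symm
      · exact nb_self_notMem h7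
  have hsub : insert x (insert y (insert z (nb G S x))) ⊆ S :=
    Finset.insert_subset hx (Finset.insert_subset hy (Finset.insert_subset hz nb_subset))
  have h4 := Finset.card_le_card hsub
  rw [Finset.card_insert_of_notMem h3, Finset.card_insert_of_notMem h2,
    Finset.card_insert_of_notMem h1, hc] at h4
  cases m with
  | zero => omega
  | succ m =>
    have h5 := (h.link hx).card_ge
    omega

end Pool.Agent.LibFlagPL

end

section

namespace Pool.Agent.LibFlagPL

open Finset

set_option linter.unusedSectionVars false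

variable {T : Type} [Fintype T] [DecidableEq T]

private theorem gs1_mono {G : SimpleGraph T} {A B : Finset T} (h : A ⊆ B) {x y : T}
    (hxy : Relation.ReflTransGen (fun a b => a ∈ A ∧ b ∈ A ∧ G.Adj a b) x y) :
    Relation.ReflTransGen (fun a b => a ∈ B ∧ b ∈ B ∧ G.Adj a b) x y := by
  induction hxy with
  | refl => exact Relation.ReflTransGen.refl
  | tail _ hbc ih => exact ih.tail ⟨h hbc.1, h hbc.2.1, hbc.2.2⟩

theorem Conn.erase_of_nb {G : SimpleGraph T} {X : Finset T} {c : T} (hX : Conn G X)
    (hn : Conn G (nb G X c)) : Conn G (X.erase c) := by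
  obtain ⟨u, hu⟩ := hn.1
  have hu' := mem_nb.1 hu
  have hsub : nb G X c ⊆ X.erase c := by
    intro t ht
    have ht' := mem_nb.1 ht
    exact Finset.mem_erase.2 ⟨ht'.2.ne', ht'.1⟩
  have key : ∀ x, Relation.ReflTransGen (fun a b => a ∈ X ∧ b ∈ X ∧ G.Adj a b) u x → x ≠ c →
      Relation.ReflTransGen (fun a b => a ∈ X.erase c ∧ b ∈ X.erase c ∧ G.Adj a b) u x ∧
      Relation.ReflTransGen (fun a b => a ∈ X.erase c ∧ b ∈ X.erase c ∧ G.Adj a b) x u := by
    intro x hx
    induction hx with
    | refl => exact fun _ => ⟨Relation.ReflTransGen.refl, Relation.ReflTransGen.refl⟩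
    | @tail p x _ hpx ih =>
      intro hxc
      by_cases hpc : p = c
      · subst hpc
        have hxn : x ∈ nb G X p := mem_nb.2 ⟨hpx.2.1, hpx.2.2⟩
        exact ⟨gs1_mono hsub (hn.2 u hu x hxn), gs1_mono hsub (hn.2 x hxn u hu)⟩
      · obtain ⟨h1, h2⟩ := ih hpc
        have hpe : p ∈ X.erase c := Finset.mem_erase.2 ⟨hpc, hpx.1⟩
        have hxe : x ∈ X.erase c := Finset.mem_erase.2 ⟨hxc, hpx.2.1⟩
        exact ⟨h1.tail ⟨hpe, hxe, hpx.2.2⟩, Relation.ReflTransGen.head ⟨hxe, hpe, hpx.2.2.symm⟩ h2⟩
  refine ⟨⟨u, hsub hu⟩, fun x hx y hy => ?_⟩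
  have hx' := Finset.mem_erase.1 hx
  have hy' := Finset.mem_erase.1 hy
  exact (key x (hX.2 u hu'.1 x hx'.2) hx'.1).2.trans (key y (hX.2 u hu'.1 y hy'.2) hy'.1).1

end Pool.Agent.LibFlagPL

end

section

namespace Pool.Agent.LibFlagPL

open Finset

set_option linter.unusedSectionVars false

variable {T : Type} [Fintype T] [DecidableEq T]

private theorem GS2_step {G : SimpleGraph T} {K C : Finset T} {c : T} (hc : c ∈ C)
    (hX : Conn G (K \ C.erase c)) (hn : Conn G (nb G K c \ nb G C c)) : Conn G (K \ C) := by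
  have h1 : (K \ C.erase c).erase c = K \ C := by
    ext t
    simp only [Finset.mem_erase, Finset.mem_sdiff, not_and]
    constructor
    · rintro ⟨h1, h2, h3⟩
      exact ⟨h2, fun h4 => h3 h1 h4⟩
    · rintro ⟨h1, h2⟩
      exact ⟨fun h3 => h2 (h3 ▸ hc), h1, fun _ h4 => h2 h4⟩
  have h2 : nb G (K \ C.erase c) c = nb G K c \ nb G C c := by
    rw [nb_sdiff_eq, nb_erase_eq, Finset.erase_eq_of_notMem nb_self_notMem]
  rw [← h1]
  refine Conn.erase_of_nb hX ?_
  rw [h2]
  exact hn

private theorem GS2_single {G : SimpleGraph T} (b : T) : Conn G {b} := by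
  refine ⟨Finset.singleton_nonempty b, fun x hx y hy => ?_⟩
  rw [Finset.mem_singleton] at hx hy
  rw [hx, hy]

private theorem GS2_main (G : SimpleGraph T) : ∀ (m n : ℕ) (K C : Finset T), C.card = n → Zc G m K →
    C ⊆ K → JT G C → C ≠ K → ¬ DIA G C m → Conn G (K \ C) := by
  intro m
  induction m with
  | zero =>
    intro n K C _ hK hC _ hne hD
    obtain ⟨a, b, hab, hn, rfl⟩ := zc_zero_iff.1 hK
    have h0 : C ≠ ∅ := by
      rintro rfl
      apply hD
      exact ⟨rfl, fun x hx => absurd hx (Finset.notMem_empty x), fun x hx => absurd hx (Finset.notMem_empty x)⟩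
    have hsub : ∀ t ∈ C, t = a ∨ t = b := fun t ht => by
      have h1 := hC ht
      rw [Finset.mem_insert, Finset.mem_singleton] at h1
      exact h1
    by_cases ha : a ∈ C
    · by_cases hb : b ∈ C
      · exfalso
        apply hne
        refine Finset.Subset.antisymm hC ?_
        intro t ht
        rw [Finset.mem_insert, Finset.mem_singleton] at ht
        rcases ht with rfl | rfl
        · exact ha
        · exact hb
      · have h1 : ({a, b} : Finset T) \ C = {b} := by
          ext t
          rw [Finset.mem_sdiff, Finset.mem_insert, Finset.mem_singleton]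
          constructor
          · rintro ⟨h1 | h1, h2⟩
            · exact absurd (h1 ▸ ha) h2
            · exact h1
          · intro h1
            exact ⟨Or.inr h1, h1 ▸ hb⟩
        rw [h1]
        exact GS2_single b
    · by_cases hb : b ∈ C
      · have h1 : ({a, b} : Finset T) \ C = {a} := by
          ext t
          rw [Finset.mem_sdiff, Finset.mem_insert, Finset.mem_singleton, Finset.mem_singleton]
          constructor
          · rintro ⟨h1 | h1, h2⟩
            · exact h1
            · exact absurd (h1 ▸ hb) h2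
          · intro h1
            exact ⟨Or.inl h1, h1 ▸ ha⟩
        rw [h1]
        exact GS2_single a
      · exfalso
        apply h0
        rw [Finset.eq_empty_iff_forall_notMem]
        intro t ht
        rcases hsub t ht with rfl | rfl
        · exact ha ht
        · exact hb ht
  | succ m ihm =>
    intro n
    induction n with
    | zero =>
      intro K C hcard hK _ _ _ _
      rw [Finset.card_eq_zero] at hcard
      rw [hcard, Finset.sdiff_empty]
      exact hK.conn
    | succ n ihn =>
      intro K C hcard hK hC hJ hne hD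
      by_cases hcl : ∃ c ∈ C, ∃ c' ∈ C, c ≠ c' ∧ ¬ G.Adj c c'
      · obtain ⟨c, hc, c', hc', hcc, hadj⟩ := hcl
        have hX : Conn G (K \ C.erase c) := by
          refine ihn K (C.erase c) ?_ hK ((Finset.erase_subset c C).trans hC) (hJ.mono (Finset.erase_subset c C)) ?_ ?_
          · rw [Finset.card_erase_of_mem hc, hcard]
            rfl
          · intro h1
            have h2 : c ∈ C.erase c := by
              rw [h1]
              exact hC hc
            exact (Finset.mem_erase.mp h2).1 rfl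
          · intro h1
            obtain ⟨z, hz, hzc, hz2⟩ := h1.2.2 c' (Finset.mem_erase.mpr ⟨hcc.symm, hc'⟩)
            obtain ⟨hz3, hz4⟩ := Finset.mem_erase.mp hz
            exact hz3 (hJ c' hc' z hz4 c hc hzc hcc hz2 (fun h2 => hadj h2.symm))
        have hx : ∀ t ∈ nb G C c, G.Adj c t := fun t ht => (mem_nb.1 ht).2
        have hx' : ∀ t ∈ nb G C c, G.Adj c' t := by
          intro t ht
          obtain ⟨h1, h2⟩ := mem_nb.1 ht
          by_contra h3
          have h4 : t ≠ c' := fun h5 => hadj (h5 ▸ h2)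
          exact h2.ne (hJ c' hc' c hc t h1 hcc h4 (fun h5 => hadj h5.symm) h3)
        have hCe : C = insert c (insert c' (nb G C c)) := by
          ext t
          rw [Finset.mem_insert, Finset.mem_insert]
          constructor
          · intro ht
            by_cases h1 : t = c
            · exact Or.inl h1
            · by_cases h2 : G.Adj c t
              · exact Or.inr (Or.inr (mem_nb.2 ⟨ht, h2⟩))
              · exact Or.inr (Or.inl (hJ c hc t ht c' hc' h1 hcc.symm h2 hadj))
          · rintro (rfl | rfl | h1)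
            · exact hc
            · exact hc'
            · exact (mem_nb.1 h1).1
        have hDn : ¬ DIA G (nb G C c) m := by
          intro h1
          apply hD
          rw [hCe]
          exact h1.susp hcc hadj hx hx'
        have hDsub : nb G C c ⊆ nb G K c := fun t ht =>
          mem_nb.2 ⟨hC (mem_nb.1 ht).1, (mem_nb.1 ht).2⟩
        have hDJ : JT G (nb G C c) := hJ.mono fun t ht => (mem_nb.1 ht).1
        have hDne : nb G C c ≠ nb G K c := by
          intro h1
          have h2 : Zc G m (nb G C c) := by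
            rw [h1]
            exact hK.link (hC hc)
          have h3 : DIA G (nb G C c) (m + 1) := zc_jt h2 hDJ
          have h4 : DIA G C (m + 1 + 1) := by
            rw [hCe]
            exact h3.susp hcc hadj hx hx'
          exact hne (zc_sub h4.zc hK hC)
        exact GS2_step hc hX (ihm _ (nb G K c) (nb G C c) rfl (hK.link (hC hc)) hDsub hDJ hDne hDn)
      · push Not at hcl
        have hnon : C.Nonempty := by
          rw [← Finset.card_pos, hcard]
          exact Nat.succ_pos n
        obtain ⟨c, hc⟩ := hnon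
        have hno : ∀ (A : Finset T) (j : ℕ), A ⊆ C → ¬ DIA G A (j + 1) := by
          intro A j hA h1
          have h2 : A.Nonempty := by
            rw [← Finset.card_pos, h1.1]
            omega
          obtain ⟨x, hx⟩ := h2
          obtain ⟨y, hy, hyx, hadj⟩ := h1.2.2 x hx
          exact hadj (hcl x (hA hx) y (hA hy) hyx.symm)
        have hX : Conn G (K \ C.erase c) := by
          refine ihn K (C.erase c) ?_ hK ((Finset.erase_subset c C).trans hC) (hJ.mono (Finset.erase_subset c C)) ?_
            (hno _ m (Finset.erase_subset c C))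
          · rw [Finset.card_erase_of_mem hc, hcard]
            rfl
          · intro h1
            have h2 : c ∈ C.erase c := by
              rw [h1]
              exact hC hc
            exact (Finset.mem_erase.mp h2).1 rfl
        by_cases hm : m = 0 ∧ C = {c}
        · obtain ⟨rfl, hCc⟩ := hm
          have hK1 : Circle G K := hK
          have h1 : K \ C = K.erase c := by
            rw [hCc, Finset.sdiff_singleton_eq_erase]
          rw [h1]
          exact hK1.conn_erase (hC hc)
        · have hDsubC : nb G C c ⊆ C := fun t ht => (mem_nb.1 ht).1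
          have hDsub : nb G C c ⊆ nb G K c := fun t ht =>
            mem_nb.2 ⟨hC (mem_nb.1 ht).1, (mem_nb.1 ht).2⟩
          have hDJ : JT G (nb G C c) := hJ.mono hDsubC
          have hL : Zc G m (nb G K c) := hK.link (hC hc)
          have hDne : nb G C c ≠ nb G K c := by
            intro h1
            obtain ⟨x, hx⟩ := hL.nonempty
            obtain ⟨y, hy, hyx, hadj⟩ := hL.exists_nonadj hx
            rw [← h1] at hx hy
            exact hadj (hcl x (hDsubC hx) y (hDsubC hy) hyx.symm)
          have hDn : ¬ DIA G (nb G C c) m := by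
            cases m with
            | zero =>
              intro h1
              apply hm
              refine ⟨rfl, ?_⟩
              have h2 : nb G C c = ∅ := Finset.card_eq_zero.mp h1.1
              refine Finset.eq_singleton_iff_unique_mem.mpr ⟨hc, fun x hx => ?_⟩
              by_contra h3
              have h4 : x ∈ nb G C c := mem_nb.2 ⟨hx, hcl c hc x hx (fun h5 => h3 h5.symm)⟩
              rw [h2] at h4
              exact Finset.notMem_empty x h4
            | succ j => exact hno _ j hDsubC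
          exact GS2_step hc hX (ihm _ (nb G K c) (nb G C c) rfl hL hDsub hDJ hDne hDn)

theorem lemmaS0 {G : SimpleGraph T} {m : ℕ} {K C : Finset T} (hK : Zc G m K) (hC : C ⊆ K)
    (hJ : JT G C) (hne : C ≠ K) (hD : ¬ DIA G C m) : Conn G (K \ C) :=
  GS2_main G m _ K C rfl hK hC hJ hne hD

theorem lemmaS {G : SimpleGraph T} {r : ℕ} {K C : Finset T} (hK : Zc G (r + 1) K) (hC : C ⊆ K)
    (hJ : JT G C) (hne : C ≠ K) (hD : ¬ DIA G C (r + 1)) : Conn G (K \ C) :=
  lemmaS0 hK hC hJ hne hD

end Pool.Agent.LibFlagPL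

end

section

namespace Pool.Agent.LibFlagPL

open Finset

set_option linter.unusedSectionVars false

variable {T : Type} [Fintype T] [DecidableEq T]

/-- rule (e) -/
theorem chi_le_half {G : SimpleGraph T} {S A : Finset T}
    (hN : ∀ A ⊆ S, ¬ Cl G A → chi G A ≤ 0) (hA : A ⊆ S) (hne : A.Nonempty) :
    chi G A ≤ 1 / 2 ∧ (chi G A = 1 / 2 → A.card = 1) := by
  by_cases hcl : Cl G A
  · rw [chi_cl hcl]
    have hpos : 1 ≤ A.card := Finset.card_pos.2 hne
    refine ⟨?_, ?_⟩
    · calc (1 / 2 : ℚ) ^ A.card ≤ (1 / 2 : ℚ) ^ 1 :=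
            pow_le_pow_of_le_one (by norm_num) (by norm_num) hpos
        _ = 1 / 2 := pow_one _
    · intro h1
      by_contra h2
      have h3 : 2 ≤ A.card := by omega
      have h4 : (1 / 2 : ℚ) ^ A.card ≤ (1 / 2 : ℚ) ^ 2 :=
        pow_le_pow_of_le_one (by norm_num) (by norm_num) h3
      rw [h1] at h4
      norm_num at h4
  · have h1 := hN A hA hcl
    refine ⟨by linarith, fun h2 => ?_⟩
    rw [h2] at h1
    norm_num at h1

/-- rule (f), the CHI TRICK -/
theorem chi_trick {G : SimpleGraph T} {S A A' P : Finset T}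
    (hN : ∀ A ⊆ S, ¬ Cl G A → chi G A ≤ 0) (hA : A ⊆ S) (hP : P ⊆ S) (hd : Disjoint A P)
    (hA' : A' ⊆ A) (hcl : Cl G A') (h : ∀ p ∈ P, ∀ a ∈ A \ A', ¬ G.Adj p a)
    (h0 : chi G A = 0) (h1 : chi G (A ∪ P) = 0) : P = ∅ := by
  have e1 : A ∩ (P ∪ A') = A' := by
    ext x
    rw [Finset.mem_inter, Finset.mem_union]
    constructor
    · rintro ⟨h2, h3 | h3⟩
      · exact absurd h3 (Finset.disjoint_left.1 hd h2)
      · exact h3
    · intro h2
      exact ⟨hA' h2, Or.inr h2⟩
  have e2 : A ∪ (P ∪ A') = A ∪ P := by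
    ext x
    rw [Finset.mem_union, Finset.mem_union, Finset.mem_union]
    constructor
    · rintro (h2 | h2 | h2)
      · exact Or.inl h2
      · exact Or.inr h2
      · exact Or.inl (hA' h2)
    · rintro (h2 | h2)
      · exact Or.inl h2
      · exact Or.inr (Or.inl h2)
  have h2 := chi_glue (G := G) (A := A) (B := P ∪ A') (by
    intro a ha b hb hab
    rw [Finset.mem_sdiff, Finset.mem_union] at ha hb
    rcases hb.1 with h3 | h3
    · exact h b h3 a (Finset.mem_sdiff.2 ⟨ha.1, fun h4 => ha.2 (Or.inr h4)⟩) hab.symm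
    · exact hb.2 (hA' h3))
  rw [e1, e2, h0, h1, zero_add, zero_add, chi_cl hcl] at h2
  have hPS : P ∪ A' ⊆ S := Finset.union_subset hP (hA'.trans hA)
  have hcl' : Cl G (P ∪ A') := by
    by_contra h3
    have h4 := hN _ hPS h3
    rw [← h2] at h4
    have h5 : (0 : ℚ) < (1 / 2) ^ A'.card := by positivity
    linarith
  rw [chi_cl hcl'] at h2
  have h3 : A'.card = (P ∪ A').card :=
    pow_right_injective₀ (by norm_num : (0 : ℚ) < 1 / 2) (by norm_num) h2
  have h4 : A' = P ∪ A' := Finset.eq_of_subset_of_card_le Finset.subset_union_right h3.ge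
  rw [Finset.eq_empty_iff_forall_notMem]
  intro x hx
  have h5 : x ∈ A' := by
    rw [h4]
    exact Finset.mem_union_left _ hx
  exact Finset.disjoint_left.1 hd (hA' h5) hx

end Pool.Agent.LibFlagPL

end
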