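import Pool.Agent.LibFlagPL.SideC

/-!
# LibFlagPL.SideD: the claim for 3-manifolds with `chi = 0` from the prime case
-/

section

namespace Pool.Agent.LibFlagPL

open Finset

set_option linter.unusedSectionVars false

variable {T : Type} [Fintype T] [DecidableEq T]

private theorem O28_closed {G : SimpleGraph T} {S A : Finset T} (h : Conn G S) (hA : A ⊆ S)
    (hne : A.Nonempty) (hcl : ∀ a ∈ A, ∀ b ∈ S, G.Adj a b → b ∈ A) : A = S := by
  obtain ⟨x, hx⟩ := hne
  have key : ∀ y, Relation.ReflTransGen (fun a b => a ∈ S ∧ b ∈ S ∧ G.Adj a b) x y →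
      y ∈ A := by
    intro y hxy
    induction hxy with
    | refl => exact hx
    | tail _ h2 ih => exact hcl _ ih _ h2.2.1 h2.2.2
  exact Finset.Subset.antisymm hA fun y hy => key y (h.2 x (hA hx) y hy)

private theorem O28_mono {G : SimpleGraph T} {S S' : Finset T} (hs : S ⊆ S') (t : T) :
    nb G S t ⊆ nb G S' t := by
  intro x hx
  rw [mem_nb] at hx ⊢
  exact ⟨hs hx.1, hx.2⟩

private theorem O28_step {G : SimpleGraph T} {S S' : Finset T} (hS : S.Nonempty)
    (h' : Conn G S') (hs : S ⊆ S') (hnb : ∀ t ∈ S, nb G S t = nb G S' t) : S = S' := by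
  refine O28_closed h' hs hS fun a ha b hb hab => ?_
  have h1 : b ∈ nb G S' a := mem_nb.2 ⟨hb, hab⟩
  rw [← hnb a ha] at h1
  exact (mem_nb.1 h1).1

theorem sub_circle {G : SimpleGraph T} {C C' : Finset T} (h : Circle G C) (h' : Circle G C')
    (hs : C ⊆ C') : C = C' := by
  refine O28_step h.2.2.1 h'.2.2 hs fun t ht => ?_
  exact Finset.eq_of_subset_of_card_le (O28_mono hs t) (by rw [h.2.1 t ht, h'.2.1 t (hs ht)])

theorem sub_f2 {G : SimpleGraph T} {S S' : Finset T} (h : F2 G S) (h' : F2 G S')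
    (hs : S ⊆ S') : S = S' := by
  refine O28_step h.1.1 h'.1 hs fun t ht => ?_
  exact sub_circle (h.2.1 t ht) (h'.2.1 t (hs ht)) (O28_mono hs t)

theorem sub_f3 {G : SimpleGraph T} {S S' : Finset T} (h : F3 G S) (h' : F3 G S')
    (hs : S ⊆ S') : S = S' := by
  refine O28_step h.1.1 h'.1 hs fun t ht => ?_
  exact sub_f2 (h.2 t ht) (h'.2 t (hs ht)) (O28_mono hs t)

end Pool.Agent.LibFlagPL

end

section

namespace Pool.Agent.LibFlagPL

open Finset

set_option linter.unusedSectionVars false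

variable {T : Type} [Fintype T] [DecidableEq T]

private theorem O29_nb {G : SimpleGraph T} {a b c d : T} (nab : ¬ G.Adj a b)
    (h1 : G.Adj a c) (h2 : G.Adj a d) : nb G {a, b, c, d} a = {c, d} := by
  ext x
  simp only [mem_nb, Finset.mem_insert, Finset.mem_singleton]
  constructor
  · rintro ⟨rfl | rfl | rfl | rfl, h⟩
    · exact absurd rfl h.ne
    · exact absurd h nab
    · exact Or.inl rfl
    · exact Or.inr rfl
  · rintro (rfl | rfl)
    · exact ⟨Or.inr (Or.inr (Or.inl rfl)), h1⟩
    · exact ⟨Or.inr (Or.inr (Or.inr rfl)), h2⟩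

private theorem O29_conn {G : SimpleGraph T} {S : Finset T} {a b : T} (ha : a ∈ S)
    (hb : b ∈ S) {c : T} (hc : c ∈ S) (h1 : ∀ x ∈ S, x ≠ a → x ≠ b → G.Adj a x)
    (h2 : G.Adj a c) (h3 : G.Adj b c) : Conn G S := by
  have key1 : ∀ x ∈ S, Relation.ReflTransGen
      (fun a b => a ∈ S ∧ b ∈ S ∧ G.Adj a b) a x := by
    intro x hx
    by_cases hxa : x = a
    · rw [hxa]
    · by_cases hxb : x = b
      · rw [hxb]
        exact Relation.ReflTransGen.tail
          (Relation.ReflTransGen.single ⟨ha, hc, h2⟩) ⟨hc, hb, h3.symm⟩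
      · exact Relation.ReflTransGen.single ⟨ha, hx, h1 x hx hxa hxb⟩
  have key2 : ∀ x ∈ S, Relation.ReflTransGen
      (fun a b => a ∈ S ∧ b ∈ S ∧ G.Adj a b) x a := by
    intro x hx
    by_cases hxa : x = a
    · rw [hxa]
    · by_cases hxb : x = b
      · rw [hxb]
        exact Relation.ReflTransGen.tail
          (Relation.ReflTransGen.single ⟨hb, hc, h3⟩) ⟨hc, ha, h2.symm⟩
      · exact Relation.ReflTransGen.single ⟨hx, ha, (h1 x hx hxa hxb).symm⟩
  exact ⟨⟨a, ha⟩, fun x hx y hy => (key2 x hx).trans (key1 y hy)⟩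

private theorem O29_apex {G : SimpleGraph T} {C : Finset T} {s s' : T}
    (hs : ∀ t ∈ C, G.Adj s t) (hn : ¬ G.Adj s s') : nb G (insert s (insert s' C)) s = C := by
  ext x
  simp only [mem_nb, Finset.mem_insert]
  constructor
  · rintro ⟨rfl | rfl | h, h2⟩
    · exact absurd rfl h2.ne
    · exact absurd h2 hn
    · exact h
  · intro h
    exact ⟨Or.inr (Or.inr h), hs x h⟩

private theorem O29_base {G : SimpleGraph T} {C : Finset T} {s s' : T}
    (hs : ∀ t ∈ C, G.Adj s t) (hs' : ∀ t ∈ C, G.Adj s' t) {t : T} (ht : t ∈ C) :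
    nb G (insert s (insert s' C)) t = insert s (insert s' (nb G C t)) := by
  ext x
  simp only [mem_nb, Finset.mem_insert]
  constructor
  · rintro ⟨rfl | rfl | h, h2⟩
    · exact Or.inl rfl
    · exact Or.inr (Or.inl rfl)
    · exact Or.inr (Or.inr ⟨h, h2⟩)
  · rintro (rfl | rfl | ⟨h, h2⟩)
    · exact ⟨Or.inl rfl, (hs t ht).symm⟩
    · exact ⟨Or.inr (Or.inl rfl), (hs' t ht).symm⟩
    · exact ⟨Or.inr (Or.inr h), h2⟩

theorem susp_circle {G : SimpleGraph T} {a b c d : T} (hab : a ≠ b) (hcd : c ≠ d)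
    (nab : ¬ G.Adj a b) (ncd : ¬ G.Adj c d) (h1 : G.Adj a c) (h2 : G.Adj a d)
    (h3 : G.Adj b c) (h4 : G.Adj b d) : Circle G {a, b, c, d} := by
  have hac := h1.ne
  have had := h2.ne
  have hbc := h3.ne
  have hbd := h4.ne
  have nba : ¬ G.Adj b a := fun h => nab h.symm
  have ndc : ¬ G.Adj d c := fun h => ncd h.symm
  have hcard : ({a, b, c, d} : Finset T).card = 4 :=
    Finset.card_eq_four.2 ⟨a, b, c, d, hab, hac, had, hbc, hbd, hcd, rfl⟩
  have ea : nb G {a, b, c, d} a = {c, d} := O29_nb nab h1 h2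
  have eb : nb G {a, b, c, d} b = {c, d} := by
    have e : ({a, b, c, d} : Finset T) = {b, a, c, d} := by
      ext x
      simp only [Finset.mem_insert, Finset.mem_singleton]
      tauto
    rw [e]
    exact O29_nb nba h3 h4
  have ec : nb G {a, b, c, d} c = {a, b} := by
    have e : ({a, b, c, d} : Finset T) = {c, d, a, b} := by
      ext x
      simp only [Finset.mem_insert, Finset.mem_singleton]
      tauto
    rw [e]
    exact O29_nb ncd h1.symm h3.symm
  have ed : nb G {a, b, c, d} d = {a, b} := by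
    have e : ({a, b, c, d} : Finset T) = {d, c, a, b} := by
      ext x
      simp only [Finset.mem_insert, Finset.mem_singleton]
      tauto
    rw [e]
    exact O29_nb ndc h2.symm h4.symm
  refine ⟨hcard.ge, ?_, ?_⟩
  · intro t ht
    simp only [Finset.mem_insert, Finset.mem_singleton] at ht
    rcases ht with h | h | h | h
    · rw [h, ea]
      exact Finset.card_pair hcd
    · rw [h, eb]
      exact Finset.card_pair hcd
    · rw [h, ec]
      exact Finset.card_pair hab
    · rw [h, ed]
      exact Finset.card_pair hab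
  · refine O29_conn (a := a) (b := b) (c := c) (by simp) (by simp) (by simp) ?_ h1 h3
    intro x hx hxa hxb
    simp only [Finset.mem_insert, Finset.mem_singleton] at hx
    rcases hx with h | h | h | h
    · exact absurd h hxa
    · exact absurd h hxb
    · rw [h]
      exact h1
    · rw [h]
      exact h2

theorem susp_f2 {G : SimpleGraph T} {C : Finset T} {a b : T} (hC : Circle G C) (hab : a ≠ b)
    (nab : ¬ G.Adj a b) (ha : ∀ c ∈ C, G.Adj a c) (hb : ∀ c ∈ C, G.Adj b c) :
    F2 G (insert a (insert b C)) := by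
  have haC : a ∉ C := fun h1 => (ha a h1).ne rfl
  have hbC : b ∉ C := fun h1 => (hb b h1).ne rfl
  have hins : a ∉ insert b C := by
    rw [Finset.mem_insert]
    rintro (h1 | h1)
    · exact hab h1
    · exact haC h1
  have nba : ¬ G.Adj b a := fun h1 => nab h1.symm
  have hcomm : insert a (insert b C) = insert b (insert a C) := Finset.insert_comm _ _ _
  have e1 : nb G (insert a (insert b C)) a = C := O29_apex ha nab
  have e2 : nb G (insert a (insert b C)) b = C := by
    rw [hcomm]
    exact O29_apex hb nba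
  have e3 : ∀ t ∈ C, Circle G (nb G (insert a (insert b C)) t) ∧
      (nb G (insert a (insert b C)) t).card = 4 := by
    intro t ht
    obtain ⟨c, d, hcd, hadj, he⟩ := hC.nb_eq ht
    have hc : c ∈ C := by
      have : c ∈ nb G C t := by rw [he]; simp
      exact (mem_nb.1 this).1
    have hd : d ∈ C := by
      have : d ∈ nb G C t := by rw [he]; simp
      exact (mem_nb.1 this).1
    have hcirc : Circle G {a, b, c, d} :=
      susp_circle hab hcd nab hadj (ha c hc) (ha d hd) (hb c hc) (hb d hd)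
    have hac := (ha c hc).ne
    have had := (ha d hd).ne
    have hbc := (hb c hc).ne
    have hbd := (hb d hd).ne
    rw [O29_base ha hb ht, he]
    exact ⟨hcirc, Finset.card_eq_four.2 ⟨a, b, c, d, hab, hac, had, hbc, hbd, hcd, rfl⟩⟩
  obtain ⟨c, hc⟩ := hC.2.2.1
  refine ⟨?_, ?_, ?_⟩
  · refine O29_conn (a := a) (b := b) (c := c) (by simp) (by simp) (by simp [hc]) ?_
      (ha c hc) (hb c hc)
    intro x hx hxa hxb
    rcases Finset.mem_insert.1 hx with h | hx
    · exact absurd h hxa
    · rcases Finset.mem_insert.1 hx with h | hx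
      · exact absurd h hxb
      · exact ha x hx
  · intro x hx
    rcases Finset.mem_insert.1 hx with h | hx
    · rw [h, e1]
      exact hC
    · rcases Finset.mem_insert.1 hx with h | hx
      · rw [h, e2]
        exact hC
      · exact (e3 x hx).1
  · rw [Finset.sum_insert hins, Finset.sum_insert hbC, e1, e2,
      Finset.sum_congr rfl (fun t ht => (e3 t ht).2), Finset.sum_const, smul_eq_mul,
      Finset.card_insert_of_notMem hins, Finset.card_insert_of_notMem hbC]
    ring

end Pool.Agent.LibFlagPL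

end

section

namespace Pool.Agent.LibFlagPL

open Finset

set_option linter.unusedSectionVars false

variable {T : Type} [Fintype T] [DecidableEq T]

private theorem O30_four {G : SimpleGraph T} {O : Finset T} (hO : Oct G O) {v : T} (hv : v ∈ O) :
    (nb G O v).card = 4 := by
  obtain ⟨⟨_, hcirc, hsum⟩, h6⟩ := hO
  have h1 := Finset.add_sum_erase O (fun s => (nb G O s).card) hv
  have h2 : (O.erase v).card • 4 ≤ ∑ s ∈ O.erase v, (nb G O s).card :=
    Finset.card_nsmul_le_sum _ _ _ fun s hs => (hcirc s (Finset.mem_of_mem_erase hs)).1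
  rw [Finset.card_erase_of_mem hv, h6, smul_eq_mul] at h2
  rw [h6] at hsum
  have h3 := (hcirc v hv).1
  omega

theorem Oct.facts {G : SimpleGraph T} {O : Finset T} (hO : Oct G O) {v : T} (hv : v ∈ O) :
    ∃ x ∈ O, x ≠ v ∧ ¬ G.Adj v x ∧ (nb G O v).card = 4 ∧ nb G O x = nb G O v ∧
      O = insert v (insert x (nb G O v)) := by
  have h4 := O30_four hO hv
  have hvn : v ∉ nb G O v := fun h => (mem_nb.1 h).2.ne rfl
  have hsub : insert v (nb G O v) ⊆ O := by
    intro t ht
    rcases Finset.mem_insert.1 ht with ht | ht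
    · rw [ht]
      exact hv
    · exact (mem_nb.1 ht).1
  have hcard : (O \ insert v (nb G O v)).card = 1 := by
    rw [Finset.card_sdiff_of_subset hsub, Finset.card_insert_of_notMem hvn, h4, hO.2]
  obtain ⟨x, hx⟩ := Finset.card_eq_one.1 hcard
  have hx' : x ∈ O \ insert v (nb G O v) := by
    rw [hx]
    exact Finset.mem_singleton_self x
  rw [Finset.mem_sdiff, Finset.mem_insert, not_or, mem_nb] at hx'
  have hrest : ∀ t ∈ O, t ≠ v → t ∉ nb G O v → t = x := by
    intro t ht htv htn
    have h1 : t ∈ O \ insert v (nb G O v) := by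
      rw [Finset.mem_sdiff, Finset.mem_insert, not_or]
      exact ⟨ht, htv, htn⟩
    rw [hx, Finset.mem_singleton] at h1
    exact h1
  have hnadj : ¬ G.Adj v x := fun h => hx'.2.2 ⟨hx'.1, h⟩
  have hnbx : nb G O x = nb G O v := by
    apply Finset.eq_of_subset_of_card_le
    · intro t ht
      have h1 := mem_nb.1 ht
      by_contra htn
      have htv : t ≠ v := by
        intro h2
        rw [h2] at h1
        exact hnadj h1.2.symm
      exact h1.2.ne (hrest t h1.1 htv htn).symm
    · rw [h4, O30_four hO hx'.1]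
  refine ⟨x, hx'.1, hx'.2.1, hnadj, h4, hnbx, ?_⟩
  ext t
  rw [Finset.mem_insert, Finset.mem_insert]
  constructor
  · intro ht
    by_cases h1 : t = v
    · exact Or.inl h1
    · by_cases h2 : t ∈ nb G O v
      · exact Or.inr (Or.inr h2)
      · exact Or.inr (Or.inl (hrest t ht h1 h2))
  · rintro (h1 | h1 | h1)
    · rw [h1]
      exact hv
    · rw [h1]
      exact hx'.1
    · exact (mem_nb.1 h1).1

end Pool.Agent.LibFlagPL

end

section

namespace Pool.Agent.LibFlagPL

open Finset

set_option linter.unusedSectionVars false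

variable {T : Type} [Fintype T] [DecidableEq T]

private theorem O31_adj {G : SimpleGraph T} {L C : Finset T} {p p' : T} (hL : Oct G L)
    (hp : p ∈ L) (hp' : p' ∈ L) (hne : p' ≠ p) (hn : ¬ G.Adj p p') (hCL : C ⊆ L) (hpC : p ∉ C)
    (hpC' : p' ∉ C) : ∀ t ∈ C, G.Adj p t := by
  obtain ⟨x, _, _, _, _, _, hLe⟩ := Oct.facts hL hp
  have hx : p' = x := by
    have h1 : p' ∈ insert p (insert x (nb G L p)) := by rw [← hLe]; exact hp'
    rw [Finset.mem_insert, Finset.mem_insert] at h1
    rcases h1 with h1 | h1 | h1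
    · exact absurd h1 hne
    · exact h1
    · exact absurd (mem_nb.1 h1).2 hn
  intro t ht
  have h1 : t ∈ insert p (insert x (nb G L p)) := by rw [← hLe]; exact hCL ht
  rw [Finset.mem_insert, Finset.mem_insert] at h1
  rcases h1 with h1 | h1 | h1
  · exact absurd (h1 ▸ ht) hpC
  · exact absurd (by rw [hx, ← h1]; exact ht) hpC'
  · exact (mem_nb.1 h1).2

theorem a2_link {G : SimpleGraph T} {M O P Q : Finset T} {c : T} (hO : Oct G O) (hOM : O ⊆ M)
    (hS : Sides G M O P Q 3) (hc : c ∈ O) (hL : Oct G (nb G M c)) :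
    ∃ p ∈ P, ∃ p' ∈ Q, nb G M c = insert p (insert p' (nb G O c)) ∧
      (∀ t ∈ nb G O c, G.Adj p t) ∧ (∀ t ∈ nb G O c, G.Adj p' t) := by
  have hl : Sides G (nb G M c) (nb G O c) (nb G M c ∩ P) (nb G M c ∩ Q) 2 :=
    Sides.link (j := 2) hS hOM hc
  have hC : Circle G (nb G O c) := hO.1.2.1 c hc
  have hC4 : (nb G O c).card = 4 := by
    obtain ⟨x, _, _, _, h, _, _⟩ := Oct.facts hO hc
    exact h
  have hCL : nb G O c ⊆ nb G M c := by
    intro t ht
    exact mem_nb.2 ⟨hOM (mem_nb.1 ht).1, (mem_nb.1 ht).2⟩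
  obtain ⟨t, ht⟩ : (nb G O c).Nonempty := by
    rw [← Finset.card_pos, hC4]
    norm_num
  obtain ⟨a, b, _, _, he⟩ := hC.nb_eq ht
  have ha : a ∈ nb G (nb G O c) t := by rw [he]; exact Finset.mem_insert_self a _
  obtain ⟨haC, hta⟩ := mem_nb.1 ha
  have hf : ({t, a} : Finset T) ∈ faces G (nb G O c) 2 := by
    rw [mem_faces]
    refine ⟨Finset.insert_subset_iff.2 ⟨ht, Finset.singleton_subset_iff.2 haC⟩, ?_,
      Finset.card_pair hta.ne⟩
    intro u hu v hv huv
    rw [Finset.mem_insert, Finset.mem_singleton] at hu hv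
    rcases hu with rfl | rfl <;> rcases hv with rfl | rfl
    · exact absurd rfl huv
    · exact hta
    · exact hta.symm
    · exact absurd rfl huv
  obtain ⟨p, hp, _⟩ := hl.left _ hf
  obtain ⟨p', hp', _⟩ := hl.right _ hf
  obtain ⟨hpL, hpP⟩ := Finset.mem_inter.1 hp
  obtain ⟨hpL', hpQ⟩ := Finset.mem_inter.1 hp'
  have hpC : p ∉ nb G O c := hl.left_not_mem hp
  have hpC' : p' ∉ nb G O c := hl.right_not_mem hp'
  have hne : p' ≠ p := by
    intro h
    exact Finset.disjoint_left.1 hS.disj hpP (h ▸ hpQ)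
  have hsep : ¬ G.Adj p p' := hS.sep p hpP p' hpQ
  refine ⟨p, hpP, p', hpQ, ?_, ?_, ?_⟩
  · symm
    refine Finset.eq_of_subset_of_card_le ?_ ?_
    · intro x hx
      rw [Finset.mem_insert, Finset.mem_insert] at hx
      rcases hx with rfl | rfl | hx
      · exact hpL
      · exact hpL'
      · exact hCL hx
    · rw [hL.2, Finset.card_insert_of_notMem, Finset.card_insert_of_notMem hpC', hC4]
      rw [Finset.mem_insert]
      rintro (h | h)
      · exact hne h.symm
      · exact hpC h
  · exact O31_adj hL hpL hpL' hne hsep hCL hpC hpC'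
  · exact O31_adj hL hpL' hpL hne.symm (fun h => hsep h.symm) hCL hpC' hpC

end Pool.Agent.LibFlagPL

end

section

namespace Pool.Agent.LibFlagPL

open Finset

set_option linter.unusedSectionVars false

variable {T : Type} [Fintype T] [DecidableEq T]

private theorem O32_closed {G : SimpleGraph T} {M : Finset T} {s s' : T} (hM : F3 G M) (hs : s ∈ M)
    (hs' : s' ∈ M) (hne : s ≠ s') (hn : ¬ G.Adj s s') (h : nb G M s ⊆ nb G M s') :
    ∀ y ∈ insert s (insert s' (nb G M s)), ∀ z ∈ M, G.Adj y z →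
      z ∈ insert s (insert s' (nb G M s)) := by
  have heq : nb G M s = nb G M s' := sub_f2 (hM.2 s hs) (hM.2 s' hs') h
  intro y hy z hz hyz
  rcases mem_insert.1 hy with h1 | hy
  · subst h1
    exact mem_insert_of_mem (mem_insert_of_mem (mem_nb.2 ⟨hz, hyz⟩))
  · rcases mem_insert.1 hy with h1 | hy
    · subst h1
      refine mem_insert_of_mem (mem_insert_of_mem ?_)
      rw [heq]
      exact mem_nb.2 ⟨hz, hyz⟩
    · have hyM := (mem_nb.1 hy).1
      have hsy := (mem_nb.1 hy).2
      have hs'y := (mem_nb.1 (h hy)).2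
      have hC : Circle G (nb G (nb G M s) y) := (hM.2 s hs).2.1 y hy
      have hF := susp_f2 hC hne hn (fun c hc => (mem_nb.1 (mem_nb.1 hc).1).2)
        (fun c hc => (mem_nb.1 (h (mem_nb.1 hc).1)).2)
      have hsub : insert s (insert s' (nb G (nb G M s) y)) ⊆ nb G M y := by
        intro c hc
        rcases mem_insert.1 hc with h1 | hc
        · rw [h1]
          exact mem_nb.2 ⟨hs, hsy.symm⟩
        · rcases mem_insert.1 hc with h1 | hc
          · rw [h1]
            exact mem_nb.2 ⟨hs', hs'y.symm⟩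
          · exact mem_nb.2 ⟨(mem_nb.1 (mem_nb.1 hc).1).1, (mem_nb.1 hc).2⟩
      have h2 := sub_f2 hF (hM.2 y hyM) hsub
      have h3 : z ∈ insert s (insert s' (nb G (nb G M s) y)) := by
        rw [h2]
        exact mem_nb.2 ⟨hz, hyz⟩
      rcases mem_insert.1 h3 with h1 | h3
      · rw [h1]
        exact mem_insert_self _ _
      · rcases mem_insert.1 h3 with h1 | h3
        · rw [h1]
          exact mem_insert_of_mem (mem_insert_self _ _)
        · exact mem_insert_of_mem (mem_insert_of_mem (mem_nb.1 h3).1)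

theorem susp_eq {G : SimpleGraph T} {M : Finset T} {s s' : T} (hM : F3 G M) (hs : s ∈ M)
    (hs' : s' ∈ M) (hne : s ≠ s') (hn : ¬ G.Adj s s') (h : nb G M s ⊆ nb G M s') :
    M = insert s (insert s' (nb G M s)) := by
  have hcl := O32_closed hM hs hs' hne hn h
  apply Subset.antisymm
  · intro z hz
    have hr := hM.1.2 s hs z hz
    induction hr with
    | refl => exact mem_insert_self _ _
    | tail _ hstep ih => exact hcl _ (ih hstep.1) _ hstep.2.1 hstep.2.2
  · intro z hz
    rcases mem_insert.1 hz with h1 | hz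
    · rw [h1]
      exact hs
    · rcases mem_insert.1 hz with h1 | hz
      · rw [h1]
        exact hs'
      · exact (mem_nb.1 hz).1

theorem susp_card {G : SimpleGraph T} {M : Finset T} {s s' : T} (hM : F3 G M) (hs : s ∈ M)
    (hs' : s' ∈ M) (hne : s ≠ s') (hn : ¬ G.Adj s s') (h : nb G M s ⊆ nb G M s') :
    M.card = (nb G M s).card + 2 := by
  have h1 := congrArg Finset.card (susp_eq hM hs hs' hne hn h)
  have h2 : s' ∉ nb G M s := fun hc => hn (mem_nb.1 hc).2
  have h3 : s ∉ insert s' (nb G M s) := by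
    intro hc
    rcases mem_insert.1 hc with h4 | h4
    · exact hne h4
    · exact (mem_nb.1 h4).2.ne rfl
  rw [card_insert_of_notMem h3, card_insert_of_notMem h2] at h1
  omega

end Pool.Agent.LibFlagPL

end

section

namespace Pool.Agent.LibFlagPL

open Finset

set_option linter.unusedSectionVars false

variable {T : Type} [Fintype T] [DecidableEq T]

theorem a2_edge {G : SimpleGraph T} {M C : Finset T} {c x p w : T} (hM : F3 G M)
    (hC : Circle G C) (hCM : C ⊆ M) (hc : c ∈ M) (hp : p ∈ M) (hw : w ∈ M) (hwc' : w ≠ c)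
    (hwc : ¬ G.Adj w c) (hcx : ¬ G.Adj c x) (hpc : G.Adj p c) (hcC : ∀ t ∈ C, G.Adj c t)
    (hpC : ∀ t ∈ C, G.Adj p t) (hL : nb G M w = insert p (insert x C)) : GE G M w p := by
  have hpw : p ∈ nb G M w := by
    rw [hL]
    exact Finset.mem_insert_self _ _
  have hwp : G.Adj w p := (mem_nb.1 hpw).2
  have hwC : ∀ t ∈ C, G.Adj w t := by
    intro t ht
    have h1 : t ∈ nb G M w := by
      rw [hL]
      exact Finset.mem_insert_of_mem (Finset.mem_insert_of_mem ht)
    exact (mem_nb.1 h1).2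
  have hF : F2 G (insert c (insert w C)) :=
    susp_f2 hC hwc'.symm (fun h => hwc h.symm) hcC hwC
  have hsub : insert c (insert w C) ⊆ nb G M p := by
    intro t ht
    rw [Finset.mem_insert, Finset.mem_insert] at ht
    rcases ht with h | h | h
    · rw [h]
      exact mem_nb.2 ⟨hc, hpc⟩
    · rw [h]
      exact mem_nb.2 ⟨hw, hwp.symm⟩
    · exact mem_nb.2 ⟨hCM h, hpC t h⟩
  have heq := sub_f2 hF (hM.2 p hp) hsub
  refine ⟨hw, hp, hwp, ?_⟩
  intro w1 hw1 t ht hne hne' h1 h2 h3
  have ht' : t ∈ nb G M w := mem_nb.2 ⟨ht, h3.symm⟩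
  rw [hL, Finset.mem_insert, Finset.mem_insert] at ht'
  rcases ht' with h | h | h
  · exact absurd h hne'
  · have hw1' : w1 ∈ nb G M p := mem_nb.2 ⟨hw1, h1⟩
    rw [← heq, Finset.mem_insert, Finset.mem_insert] at hw1'
    rcases hw1' with h4 | h4 | h4
    · rw [h4, h] at h2
      exact absurd h2 hcx
    · exact absurd h4 hne
    · exact Or.inl (hwC w1 h4)
  · exact Or.inr (hpC t h)

end Pool.Agent.LibFlagPL

end

section

namespace Pool.Agent.LibFlagPL

open Finset

set_option linter.unusedSectionVars false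

variable {T : Type} [Fintype T] [DecidableEq T]

private theorem O34_left {G : SimpleGraph T} {M O P Q : Finset T} (hO : F2 G O)
    (hS : Sides G M O P Q 3) : ∃ p, p ∈ P := by
  obtain ⟨o, ho⟩ := hO.1.1
  obtain ⟨σ, hσ, _⟩ := W2.pure hO.w2 ho
  obtain ⟨p, hp, _⟩ := hS.left σ hσ
  exact ⟨p, hp⟩

theorem two_le_side {G : SimpleGraph T} {M O P Q : Finset T} (hM : F3 G M) (hO : F2 G O)
    (hOM : O ⊆ M) (hS : Sides G M O P Q 3) (hn : ∀ u ∈ M, nb G M u ≠ O) : 2 ≤ P.card := by
  by_contra hlt
  obtain ⟨p, hp⟩ := O34_left hO hS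
  have hc : P.card = 1 := by
    have := Finset.card_pos.2 ⟨p, hp⟩
    omega
  obtain ⟨a, ha⟩ := Finset.card_eq_one.1 hc
  have hpa : p = a := by rw [ha] at hp; exact Finset.mem_singleton.1 hp
  have hpM : p ∈ M := hS.left_subset hp
  have hsub : nb G M p ⊆ O := by
    intro t ht
    obtain ⟨h1, h2⟩ := mem_nb.1 ht
    rcases hS.cases h1 with h | h | h
    · exact h
    · rw [ha] at h
      have : t = p := by rw [hpa]; exact Finset.mem_singleton.1 h
      exact absurd this.symm h2.ne
    · exact absurd h2 (hS.sep p hp t h)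
  exact hn p hpM (sub_f2 (hM.2 p hpM) hO hsub)

theorem stepA1 (hD : DHyp) {G : SimpleGraph T} {M O P Q : Finset T}
    (IH : ∀ (G' : SimpleGraph T) (M' : Finset T), M'.card < M.card → F3 G' M' →
      chi G' M' = 0 → I2 G' M')
    (hM : F3 G M) (h0 : chi G M = 0) (hO : Oct G O) (hOM : O ⊆ M) (hS : Sides G M O P Q 3)
    (hn : ∀ u ∈ M, nb G M u ≠ O) : ∃ u v, GE G M u v ∧ u ∈ P := by
  obtain ⟨q, hqQ⟩ := O34_left hO.1 hS.symm
  have hqO : q ∉ O := hS.right_not_mem hqQ
  have hqP : q ∉ P := fun h => Finset.disjoint_left.1 hS.disj h hqQ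
  have hq : q ∉ O ∪ P := by
    rw [Finset.mem_union]
    rintro (h | h)
    · exact hqO h
    · exact hqP h
  have hP2 := two_le_side hM hO.1 hOM hS hn
  have hQ2 := two_le_side hM hO.1 hOM hS.symm hn
  have hdOP : Disjoint O P := by
    rw [Finset.disjoint_right]
    exact fun p hp => hS.left_not_mem hp
  have hcard1 : (insert q (O ∪ P)).card = 7 + P.card := by
    rw [Finset.card_insert_of_notMem hq, Finset.card_union_of_disjoint hdOP, hO.2]
    omega
  have hcardM : M.card = 6 + P.card + Q.card := by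
    have h1 := Finset.card_sdiff_add_card_eq_card hOM
    rw [← hS.union, Finset.card_union_of_disjoint hS.disj, hO.2] at h1
    omega
  have h3 := cap3 hM hO.1 hOM hS hq
  have hz := cap_chi_zero hD hM h0 hO.1 hOM hS hq
  have hI := IH _ _ (by omega) h3 hz
  have hnb := cap_nb_q (G := G) (P := P) hqO
  have hoct : Oct (capG G O q) (nb (capG G O q) (insert q (O ∪ P)) q) := by
    rw [hnb]
    exact ⟨Agr.f2 (cap_agr_away hqO) hO.1, hO.2⟩
  obtain ⟨u, v, hg, hu⟩ := hI q (Finset.mem_insert_self _ _) hoct (by omega)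
  rw [hnb] at hu
  obtain ⟨g1, g2⟩ := GE.of_cap hOM hS hq hg hu
  exact ⟨u, v, g1, g2⟩

end Pool.Agent.LibFlagPL

end

section

namespace Pool.Agent.LibFlagPL

open Finset

set_option linter.unusedSectionVars false

variable {T : Type} [Fintype T] [DecidableEq T]

theorem a1_away (hD : DHyp) {G : SimpleGraph T} {M O : Finset T} {c : T}
    (IH : ∀ (G' : SimpleGraph T) (M' : Finset T), M'.card < M.card → F3 G' M' →
      chi G' M' = 0 → I2 G' M')
    (hM : F3 G M) (h0 : chi G M = 0) (hO : Oct G O) (hOM : O ⊆ M)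
    (hn : ∀ u ∈ M, nb G M u ≠ O) (hc : c ∈ M) (hcO : c ∉ O) :
    ∃ u v, GE G M u v ∧ u ∉ insert c (nb G M c) := by
  obtain ⟨P, Q, hS⟩ := sides_exist hD hM h0 hOM hO.1
  rcases hS.cases hc with h1 | h1 | h1
  · exact absurd h1 hcO
  · obtain ⟨u, v, huv, hu⟩ := stepA1 hD IH hM h0 hO hOM hS.symm hn
    refine ⟨u, v, huv, fun h2 => ?_⟩
    rcases Finset.mem_insert.1 h2 with h3 | h3
    · rw [h3] at hu
      exact Finset.disjoint_left.1 hS.disj h1 hu
    · exact hS.sep c h1 u hu (mem_nb.1 h3).2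
  · obtain ⟨u, v, huv, hu⟩ := stepA1 hD IH hM h0 hO hOM hS hn
    refine ⟨u, v, huv, fun h2 => ?_⟩
    rcases Finset.mem_insert.1 h2 with h3 | h3
    · rw [h3] at hu
      exact Finset.disjoint_left.1 hS.disj hu h1
    · exact hS.sep u hu c h1 (mem_nb.1 h3).2.symm

private theorem O35_core (hD : DHyp) {G : SimpleGraph T} {M O P Q : Finset T} {c x p p' : T}
    (IH : ∀ (G' : SimpleGraph T) (M' : Finset T), M'.card < M.card → F3 G' M' →
      chi G' M' = 0 → I2 G' M')
    (hM : F3 G M) (h0 : chi G M = 0) (hO : Oct G O) (hOM : O ⊆ M) (hcO : c ∈ O)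
    (hS : Sides G M O P Q 3) (hp : p ∈ P) (hp' : p' ∈ Q)
    (hL : nb G M c = insert p (insert p' (nb G O c))) (hpC : ∀ t ∈ nb G O c, G.Adj p t)
    (hxO : x ∈ O) (hxc : x ≠ c) (hcx : ¬ G.Adj c x) (hcard : (nb G O c).card = 4)
    (hnbx : nb G O x = nb G O c) (hpx : ¬ G.Adj p x) :
    ∃ u v, GE G M u v ∧ u ∉ insert c (nb G M c) := by
  have hpO : p ∉ O := hS.left_not_mem hp
  have hp'O : p' ∉ O := hS.right_not_mem hp'
  have hpM : p ∈ M := hS.left_subset hp
  have hcM : c ∈ M := hOM hcO
  have hCO : nb G O c ⊆ O := nb_subset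
  have hpx' : p ≠ x := fun h => hpO (h ▸ hxO)
  have hpC' : p ∉ nb G O c := fun h => hpO (hCO h)
  have hxC : x ∉ nb G O c := fun h => hcx (mem_nb.1 h).2
  have hcC : c ∉ nb G O c := fun h => (mem_nb.1 h).2.ne rfl
  have hxt : ∀ t ∈ nb G O c, G.Adj x t := by
    intro t ht
    rw [← hnbx] at ht
    exact (mem_nb.1 ht).2
  have hCirc : Circle G (nb G O c) := hO.1.2.1 c hcO
  have hF2 : F2 G (insert p (insert x (nb G O c))) := susp_f2 hCirc hpx' hpx hpC hxt
  have hp1 : p ∉ insert x (nb G O c) := by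
    intro h
    rcases Finset.mem_insert.1 h with h | h
    · exact hpx' h
    · exact hpC' h
  have hc6 : (insert p (insert x (nb G O c))).card = 6 := by
    rw [Finset.card_insert_of_notMem hp1, Finset.card_insert_of_notMem hxC, hcard]
  have hsub : insert p (insert x (nb G O c)) ⊆ M := by
    intro t ht
    rcases Finset.mem_insert.1 ht with h | h
    · rw [h]
      exact hpM
    · rcases Finset.mem_insert.1 h with h | h
      · rw [h]
        exact hOM hxO
      · exact hOM (hCO h)
  have hcO' : c ∉ insert p (insert x (nb G O c)) := by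
    intro h
    rcases Finset.mem_insert.1 h with h | h
    · exact hpO (h ▸ hcO)
    · rcases Finset.mem_insert.1 h with h | h
      · exact hxc h.symm
      · exact hcC h
  by_cases hw : ∃ w ∈ M, nb G M w = insert p (insert x (nb G O c))
  · obtain ⟨w, hwM, hwL⟩ := hw
    have hwc' : w ≠ c := by
      intro h
      rw [h] at hwL
      have h1 : p' ∈ nb G M c := by
        rw [hL]
        exact Finset.mem_insert_of_mem (Finset.mem_insert_self p' _)
      rw [hwL] at h1
      rcases Finset.mem_insert.1 h1 with h2 | h2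
      · rw [h2] at hp'
        exact Finset.disjoint_left.1 hS.disj hp hp'
      · rcases Finset.mem_insert.1 h2 with h3 | h3
        · exact hp'O (h3 ▸ hxO)
        · exact hp'O (hCO h3)
    have hwc : ¬ G.Adj w c := by
      intro h
      have h1 : c ∈ nb G M w := mem_nb.2 ⟨hcM, h⟩
      rw [hwL] at h1
      exact hcO' h1
    have hpc : G.Adj p c := by
      have h1 : p ∈ nb G M c := by
        rw [hL]
        exact Finset.mem_insert_self p _
      exact (mem_nb.1 h1).2.symm
    refine ⟨w, p, a2_edge hM hCirc (fun t ht => hOM (hCO ht)) hcM hpM hwM hwc' hwc hcx hpc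
      (fun t ht => (mem_nb.1 ht).2) hpC hwL, fun h => ?_⟩
    rcases Finset.mem_insert.1 h with h | h
    · exact hwc' h
    · exact hwc (mem_nb.1 h).2.symm
  · exact a1_away hD IH hM h0 ⟨hF2, hc6⟩ hsub (fun u hu h => hw ⟨u, hu, h⟩) hcM hcO'

theorem stepA2 (hD : DHyp) {G : SimpleGraph T} {M O : Finset T} {c : T}
    (IH : ∀ (G' : SimpleGraph T) (M' : Finset T), M'.card < M.card → F3 G' M' →
      chi G' M' = 0 → I2 G' M')
    (hM : F3 G M) (h0 : chi G M = 0) (h9 : 9 ≤ M.card) (hO : Oct G O) (hOM : O ⊆ M)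
    (hcO : c ∈ O) (hL : Oct G (nb G M c)) :
    ∃ u v, GE G M u v ∧ u ∉ insert c (nb G M c) := by
  obtain ⟨x, hxO, hxc, hcx, hcard, hnbx, -⟩ := hO.facts hcO
  obtain ⟨P, Q, hS⟩ := sides_exist hD hM h0 hOM hO.1
  obtain ⟨p, hp, p', hp', hLeq, hpC, hp'C⟩ := a2_link hO hOM hS hcO hL
  by_cases h1 : G.Adj p x
  · by_cases h2 : G.Adj p' x
    · exfalso
      have hsub : nb G M c ⊆ nb G M x := by
        intro t ht
        rw [hLeq] at ht
        rcases Finset.mem_insert.1 ht with h | h
        · rw [h]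
          exact mem_nb.2 ⟨hS.left_subset hp, h1.symm⟩
        · rcases Finset.mem_insert.1 h with h | h
          · rw [h]
            exact mem_nb.2 ⟨hS.right_subset hp', h2.symm⟩
          · rw [← hnbx] at h
            exact mem_nb.2 ⟨hOM (mem_nb.1 h).1, (mem_nb.1 h).2⟩
      have h3 := susp_card hM (hOM hcO) (hOM hxO) hxc.symm hcx hsub
      have h4 : (nb G M c).card = 6 := hL.2
      omega
    · refine O35_core hD IH hM h0 hO hOM hcO hS.symm hp' hp ?_ hp'C hxO hxc hcx hcard hnbx h2
      rw [hLeq, Finset.insert_comm]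
  · exact O35_core hD IH hM h0 hO hOM hcO hS hp hp' hLeq hpC hxO hxc hcx hcard hnbx h1

end Pool.Agent.LibFlagPL

end

section

namespace Pool.Agent.LibFlagPL

open Finset

set_option linter.unusedSectionVars false

variable {T : Type} [Fintype T] [DecidableEq T]

theorem thOCT (hD : DHyp)
    (hSusp : ∀ (G : SimpleGraph T) (M : Finset T), F3 G M → Susp G M → I1 G M ∧ I2 G M)
    (hP : ∀ (G : SimpleGraph T) (M : Finset T), F3 G M → chi G M = 0 → Prime3 G M →
      ¬ Susp G M → I1 G M ∧ I2 G M)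
    (G : SimpleGraph T) (M : Finset T) (hM : F3 G M) (h0 : chi G M = 0) :
    I1 G M ∧ I2 G M := by
  have key : ∀ n : ℕ, ∀ (G : SimpleGraph T) (M : Finset T), M.card = n → F3 G M → chi G M = 0 →
      I1 G M ∧ I2 G M := by
    intro n
    induction n using Nat.strong_induction_on with
    | _ n ih =>
      intro G M hn hM h0
      have IH : ∀ (G' : SimpleGraph T) (M' : Finset T), M'.card < M.card → F3 G' M' →
          chi G' M' = 0 → I2 G' M' := fun G' M' hlt hM' h0' =>
        (ih M'.card (hn ▸ hlt) G' M' rfl hM' h0').2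
      by_cases hs : Susp G M
      · exact hSusp G M hM hs
      by_cases hp : Prime3 G M
      · exact hP G M hM h0 hp hs
      unfold Prime3 at hp
      push Not at hp
      obtain ⟨O, hOM, hO, hno⟩ := hp
      refine ⟨Or.inr ?_, ?_⟩
      · obtain ⟨P, Q, hS⟩ := sides_exist hD hM h0 hOM hO.1
        obtain ⟨u, v, huv, -⟩ := stepA1 hD IH hM h0 hO hOM hS hno
        exact ⟨u, v, huv⟩
      · intro c hc hL h9
        by_cases hcO : c ∈ O
        · exact stepA2 hD IH hM h0 h9 hO hOM hcO hL
        · exact a1_away hD IH hM h0 hO hOM hno hc hcO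
  exact key M.card G M rfl hM h0

end Pool.Agent.LibFlagPL

end
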