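import Pool.Agent.LibFlagPL.GenP
import Pool.Agent.LibFlagPL.SideD

/-!
# LibFlagPL.GenC: the claim and the reduction in all dimensions
-/

section

namespace Pool.Agent.LibFlagPL

open Finset

set_option linter.unusedSectionVars false

variable {T : Type} [Fintype T] [DecidableEq T]

private theorem GCA1_side {G : SimpleGraph T} {M O U V : Finset T} (hS : Sep G M O U V) {t : T}
    (ht : t ∈ M) : t ∈ O ∨ t ∈ U ∨ t ∈ V := by
  by_cases h1 : t ∈ O
  · exact Or.inl h1
  · have : t ∈ U ∪ V := by rw [hS.union]; exact Finset.mem_sdiff.2 ⟨ht, h1⟩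
    exact Or.inr (Finset.mem_union.1 this)

private theorem GCA1_notO {G : SimpleGraph T} {M O U V : Finset T} (hS : Sep G M O U V) {t : T}
    (ht : t ∈ U) : t ∈ M ∧ t ∉ O := Finset.mem_sdiff.1 (hS.compU.1 ht)

theorem Agr.dia {G G' : SimpleGraph T} {S : Finset T} {k : ℕ} (h : Agr G G' S)
    (hd : DIA G S k) : DIA G' S k := by
  obtain ⟨h1, h2, h3⟩ := hd
  refine ⟨h1, ?_, ?_⟩
  · intro x hx y hy z hz hyx hzx hxy hxz
    exact h2 x hx y hy z hz hyx hzx (fun h' => hxy ((h x hx y hy).1 h'))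
      (fun h' => hxz ((h x hx z hz).1 h'))
  · intro x hx
    obtain ⟨y, hy, hne, hn⟩ := h3 x hx
    exact ⟨y, hy, hne, fun h' => hn ((h x hx y hy).2 h')⟩

theorem two_le_side_m {G : SimpleGraph T} {m : ℕ} {M O U V : Finset T} (hM : Zc G (m + 3) M)
    (hd : DIA G O (m + 3)) (hOM : O ⊆ M) (hS : Sep G M O U V)
    (hn : ∀ u ∈ M, nb G M u ≠ O) : 2 ≤ U.card := by
  by_contra hlt
  obtain ⟨p, hp⟩ := hS.compU.2.1.1
  have hc : U.card = 1 := by
    have := Finset.card_pos.2 ⟨p, hp⟩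
    omega
  obtain ⟨a, ha⟩ := Finset.card_eq_one.1 hc
  have hpa : p = a := by rw [ha] at hp; exact Finset.mem_singleton.1 hp
  have hpM : p ∈ M := (GCA1_notO hS hp).1
  have hsub : nb G M p ⊆ O := by
    intro t ht
    obtain ⟨h1, h2⟩ := mem_nb.1 ht
    rcases GCA1_side hS h1 with h | h | h
    · exact h
    · rw [ha] at h
      have : t = p := by rw [hpa]; exact Finset.mem_singleton.1 h
      exact absurd this.symm h2.ne
    · exact absurd h2 (hS.no_edge p hp t h)
  exact hn p hpM (zc_sub (m := m + 2) (Zc.link (m := m + 2) hM hpM) (DIA.zc (k := m + 2) hd) hsub)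

theorem stepA1m (hD : DHypG) (hN : NHypG) {G : SimpleGraph T} {m : ℕ} {M O U V : Finset T}
    (IH : ∀ (G' : SimpleGraph T) (M' : Finset T), M'.card < M.card → Zc G' (m + 3) M' →
      I2m G' M' (m + 3))
    (hM : Zc G (m + 3) M) (hd : DIA G O (m + 3)) (hOM : O ⊆ M) (hS : Sep G M O U V)
    (hn : ∀ u ∈ M, nb G M u ≠ O) : ∃ u v, GE G M u v ∧ u ∈ U := by
  obtain ⟨q, hqV⟩ := hS.compV.2.1.1
  have hqO : q ∉ O := (GCA1_notO hS.symm hqV).2
  have hqU : q ∉ U := fun h => Finset.disjoint_left.1 hS.disj h hqV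
  have hq : q ∉ O ∪ U := by
    rw [Finset.mem_union]
    rintro (h | h)
    · exact hqO h
    · exact hqU h
  have hU2 := two_le_side_m hM hd hOM hS hn
  have hV2 := two_le_side_m hM hd hOM hS.symm hn
  have hdOU : Disjoint O U := by
    rw [Finset.disjoint_right]
    exact fun p hp => (GCA1_notO hS hp).2
  have hOc : O.card = 2 * (m + 3) := hd.1
  have hcard1 : (insert q (O ∪ U)).card = 2 * (m + 3) + 1 + U.card := by
    rw [Finset.card_insert_of_notMem hq, Finset.card_union_of_disjoint hdOU, hOc]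
    omega
  have hcardM : M.card = 2 * (m + 3) + U.card + V.card := by
    have h1 := Finset.card_sdiff_add_card_eq_card hOM
    rw [← hS.union, Finset.card_union_of_disjoint hS.disj, hOc] at h1
    omega
  have h3 : Zc (capG G O q) (m + 3) (insert q (O ∪ U)) :=
    gcap hD hN (m := m + 1) hM hOM hd hS hq
  have hI := IH _ _ (by omega) h3
  have hnb := cap_nb_q (G := G) (P := U) hqO
  have hoct : DIA (capG G O q) (nb (capG G O q) (insert q (O ∪ U)) q) (m + 3) := by
    rw [hnb]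
    exact Agr.dia (cap_agr_away hqO) hd
  obtain ⟨u, v, hg, hu⟩ := hI q (Finset.mem_insert_self _ _) hoct (by omega)
  rw [hnb] at hu
  have hsd : Sides G M O U V (m + 3) := Sep.sides hD (r := m + 2) hM hOM hd hS
  obtain ⟨g1, g2⟩ := gGE_of_cap hOM hsd hq hg hu
  exact ⟨u, v, g1, g2⟩

end Pool.Agent.LibFlagPL

end

section

namespace Pool.Agent.LibFlagPL

open Finset

set_option linter.unusedSectionVars false

variable {T : Type} [Fintype T] [DecidableEq T]

private theorem GCA2_nb {G : SimpleGraph T} {S : Finset T} {y t : T} :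
    t ∈ nb G S y ↔ t ∈ S ∧ G.Adj y t := by
  simp [nb]

theorem a2_link_m {G : SimpleGraph T} {m : ℕ} {M O U V : Finset T} {c : T}
    (hd : DIA G O (m + 3)) (hOM : O ⊆ M) (hS : Sep G M O U V) (hc : c ∈ O)
    (hL : DIA G (nb G M c) (m + 3)) :
    ∃ p ∈ U, ∃ p' ∈ V, nb G M c = insert p (insert p' (nb G O c)) ∧
      (∀ t ∈ nb G O c, G.Adj p t) ∧ (∀ t ∈ nb G O c, G.Adj p' t) := by
  have hC := (DIA.link (k := m + 2) hd hc).1
  obtain ⟨p, hp⟩ := hS.touchU c hc
  obtain ⟨p', hp'⟩ := hS.touchV c hc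
  obtain ⟨hpU, hcp⟩ := GCA2_nb.1 hp
  obtain ⟨hpV, hcp'⟩ := GCA2_nb.1 hp'
  obtain ⟨hpM, hpO⟩ := Finset.mem_sdiff.1 (hS.compU.1 hpU)
  obtain ⟨hpM', hpO'⟩ := Finset.mem_sdiff.1 (hS.compV.1 hpV)
  have hpL : p ∈ nb G M c := GCA2_nb.2 ⟨hpM, hcp⟩
  have hpL' : p' ∈ nb G M c := GCA2_nb.2 ⟨hpM', hcp'⟩
  have hne : p ≠ p' := fun h => Finset.disjoint_left.1 hS.disj hpU (h ▸ hpV)
  have hno : ¬ G.Adj p p' := hS.no_edge p hpU p' hpV
  have hCL : ∀ t ∈ nb G O c, t ∈ nb G M c := fun t ht =>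
    GCA2_nb.2 ⟨hOM (GCA2_nb.1 ht).1, (GCA2_nb.1 ht).2⟩
  have hpC : p ∉ nb G O c := fun h => hpO (GCA2_nb.1 h).1
  have hpC' : p' ∉ nb G O c := fun h => hpO' (GCA2_nb.1 h).1
  refine ⟨p, hpU, p', hpV, ?_, ?_, ?_⟩
  · symm
    refine Finset.eq_of_subset_of_card_le ?_ ?_
    · intro x hx
      rcases Finset.mem_insert.1 hx with rfl | hx
      · exact hpL
      · rcases Finset.mem_insert.1 hx with rfl | hx
        · exact hpL'
        · exact hCL x hx
    · have h1 : p ∉ insert p' (nb G O c) := by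
        intro h
        rcases Finset.mem_insert.1 h with h | h
        · exact hne h
        · exact hpC h
      rw [Finset.card_insert_of_notMem h1, Finset.card_insert_of_notMem hpC', hC.1, hL.1]
      omega
  · intro t ht
    by_contra h
    have h1 : t = p' := hL.2.1 p hpL t (hCL t ht) p' hpL' (fun h2 => hpC (h2 ▸ ht)) hne.symm h hno
    exact hpC' (h1 ▸ ht)
  · intro t ht
    by_contra h
    have h1 : t = p := hL.2.1 p' hpL' t (hCL t ht) p hpL (fun h2 => hpC' (h2 ▸ ht)) hne h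
      (fun h2 => hno h2.symm)
    exact hpC (h1 ▸ ht)

end Pool.Agent.LibFlagPL

end

section

namespace Pool.Agent.LibFlagPL

open Finset

set_option linter.unusedSectionVars false

variable {T : Type} [Fintype T] [DecidableEq T]

theorem a2_edge_m {G : SimpleGraph T} {m : ℕ} {M C : Finset T} {c x p w : T}
    (hM : Zc G (m + 3) M) (hC : DIA G C (m + 2)) (hCM : C ⊆ M) (hc : c ∈ M) (hp : p ∈ M)
    (hw : w ∈ M) (hwc' : w ≠ c) (hwc : ¬ G.Adj w c) (hcx : ¬ G.Adj c x) (hpc : G.Adj p c)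
    (hcC : ∀ t ∈ C, G.Adj c t) (hpC : ∀ t ∈ C, G.Adj p t)
    (hL : nb G M w = insert p (insert x C)) : GE G M w p := by
  have hpw : G.Adj w p := by
    have h1 : p ∈ nb G M w := by
      rw [hL]
      exact Finset.mem_insert_self _ _
    exact (mem_nb.1 h1).2
  have hwC : ∀ t ∈ C, G.Adj w t := by
    intro t ht
    have h1 : t ∈ nb G M w := by
      rw [hL]
      exact Finset.mem_insert_of_mem (Finset.mem_insert_of_mem ht)
    exact (mem_nb.1 h1).2
  have hCz : Zc G (m + 1) C := DIA.zc hC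
  have hsus : Zc G (m + 2) (insert c (insert w C)) :=
    zc_susp hCz (Ne.symm hwc') (fun h1 => hwc h1.symm) hcC hwC
  have hlk : Zc G (m + 2) (nb G M p) := Zc.link hM hp
  have hsub : insert c (insert w C) ⊆ nb G M p := by
    intro y hy
    rw [mem_nb]
    rcases Finset.mem_insert.1 hy with rfl | hy
    · exact ⟨hc, hpc⟩
    · rcases Finset.mem_insert.1 hy with rfl | hy
      · exact ⟨hw, hpw.symm⟩
      · exact ⟨hCM hy, hpC y hy⟩
  have heq := zc_sub hsus hlk hsub
  refine ⟨hw, hp, hpw, ?_⟩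
  intro w1 hw1 t ht hne1 hne2 h1 h2 h3
  have ht1 : t ∈ nb G M w := mem_nb.2 ⟨ht, h3.symm⟩
  rw [hL] at ht1
  rcases Finset.mem_insert.1 ht1 with h4 | h4
  · exact absurd h4 hne2
  · rcases Finset.mem_insert.1 h4 with h5 | h5
    · have hw2 : w1 ∈ nb G M p := mem_nb.2 ⟨hw1, h1⟩
      rw [← heq] at hw2
      rcases Finset.mem_insert.1 hw2 with h6 | h6
      · rw [h6, h5] at h2
        exact absurd h2 hcx
      · rcases Finset.mem_insert.1 h6 with h7 | h7
        · exact absurd h7 hne1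
        · exact Or.inl (hwC w1 h7)
    · exact Or.inr (hpC t h5)

end Pool.Agent.LibFlagPL

end

section

namespace Pool.Agent.LibFlagPL

open Finset

set_option linter.unusedSectionVars false

variable {T : Type} [Fintype T] [DecidableEq T]

private theorem GCA4_sub {G : SimpleGraph T} {M O U V : Finset T} (hS : Sep G M O U V) :
    U ⊆ M ∧ V ⊆ M ∧ (∀ u ∈ U, u ∉ O) ∧ (∀ u ∈ V, u ∉ O) := by
  have h1 : ∀ u ∈ U, u ∈ M \ O := fun u hu => hS.compU.1 hu
  have h2 : ∀ u ∈ V, u ∈ M \ O := fun u hu => hS.compV.1 hu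
  exact ⟨fun u hu => (Finset.mem_sdiff.1 (h1 u hu)).1, fun u hu => (Finset.mem_sdiff.1 (h2 u hu)).1,
    fun u hu => (Finset.mem_sdiff.1 (h1 u hu)).2, fun u hu => (Finset.mem_sdiff.1 (h2 u hu)).2⟩

theorem a1_away_m (hD : DHypG) (hN : NHypG) {G : SimpleGraph T} {m : ℕ} {M O : Finset T} {c : T}
    (IH : ∀ (G' : SimpleGraph T) (M' : Finset T), M'.card < M.card → Zc G' (m + 3) M' →
      I2m G' M' (m + 3))
    (hM : Zc G (m + 3) M) (hd : DIA G O (m + 3)) (hOM : O ⊆ M)
    (hn : ∀ u ∈ M, nb G M u ≠ O) (hc : c ∈ M) (hcO : c ∉ O) :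
    ∃ u v, GE G M u v ∧ u ∉ insert c (nb G M c) := by
  obtain ⟨P, Q, hS⟩ := sep_exists hD hM hOM hd
  have h0 : c ∈ P ∪ Q := by
    rw [hS.union]
    exact Finset.mem_sdiff.2 ⟨hc, hcO⟩
  rcases Finset.mem_union.1 h0 with h1 | h1
  · obtain ⟨u, v, huv, hu⟩ := stepA1m hD hN IH hM hd hOM hS.symm hn
    refine ⟨u, v, huv, fun h2 => ?_⟩
    rcases Finset.mem_insert.1 h2 with h3 | h3
    · rw [h3] at hu
      exact Finset.disjoint_left.1 hS.disj h1 hu
    · exact hS.no_edge c h1 u hu (mem_nb.1 h3).2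
  · obtain ⟨u, v, huv, hu⟩ := stepA1m hD hN IH hM hd hOM hS hn
    refine ⟨u, v, huv, fun h2 => ?_⟩
    rcases Finset.mem_insert.1 h2 with h3 | h3
    · rw [h3] at hu
      exact Finset.disjoint_left.1 hS.disj hu h1
    · exact hS.no_edge u hu c h1 (mem_nb.1 h3).2.symm

private theorem GCA4_core (hD : DHypG) (hN : NHypG) {G : SimpleGraph T} {m : ℕ}
    {M O P Q : Finset T} {c x p p' : T}
    (IH : ∀ (G' : SimpleGraph T) (M' : Finset T), M'.card < M.card → Zc G' (m + 3) M' →
      I2m G' M' (m + 3))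
    (hM : Zc G (m + 3) M) (hd : DIA G O (m + 3)) (hOM : O ⊆ M) (hcO : c ∈ O)
    (hS : Sep G M O P Q) (hp : p ∈ P) (hp' : p' ∈ Q)
    (hL : nb G M c = insert p (insert p' (nb G O c))) (hpC : ∀ t ∈ nb G O c, G.Adj p t)
    (hxO : x ∈ O) (hxc : x ≠ c) (hcx : ¬ G.Adj c x) (hdC : DIA G (nb G O c) (m + 2))
    (hxt : ∀ t ∈ nb G O c, G.Adj x t) (hpx : ¬ G.Adj p x) :
    ∃ u v, GE G M u v ∧ u ∉ insert c (nb G M c) := by
  obtain ⟨hPM, hQM, hPO, hQO⟩ := GCA4_sub hS
  have hpO : p ∉ O := hPO p hp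
  have hp'O : p' ∉ O := hQO p' hp'
  have hpM : p ∈ M := hPM hp
  have hcM : c ∈ M := hOM hcO
  have hCO : nb G O c ⊆ O := nb_subset
  have hpx' : p ≠ x := fun h => hpO (h ▸ hxO)
  have hcC : c ∉ nb G O c := fun h => (mem_nb.1 h).2.ne rfl
  have hdO : DIA G (insert p (insert x (nb G O c))) (m + 3) := DIA.susp hdC hpx' hpx hpC hxt
  have hsub : insert p (insert x (nb G O c)) ⊆ M := by
    intro t ht
    rcases Finset.mem_insert.1 ht with h | h
    · rw [h]
      exact hpM
    · rcases Finset.mem_insert.1 h with h | h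
      · rw [h]
        exact hOM hxO
      · exact hOM (hCO h)
  have hcO' : c ∉ insert p (insert x (nb G O c)) := by
    intro h
    rcases Finset.mem_insert.1 h with h | h
    · exact hpO (h ▸ hcO)
    · rcases Finset.mem_insert.1 h with h | h
      · exact hxc h.symm
      · exact hcC h
  by_cases hw : ∃ w ∈ M, nb G M w = insert p (insert x (nb G O c))
  · obtain ⟨w, hwM, hwL⟩ := hw
    have hwc' : w ≠ c := by
      intro h
      rw [h] at hwL
      have h1 : p' ∈ nb G M c := by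
        rw [hL]
        exact Finset.mem_insert_of_mem (Finset.mem_insert_self p' _)
      rw [hwL] at h1
      rcases Finset.mem_insert.1 h1 with h2 | h2
      · rw [h2] at hp'
        exact Finset.disjoint_left.1 hS.disj hp hp'
      · rcases Finset.mem_insert.1 h2 with h3 | h3
        · exact hp'O (h3 ▸ hxO)
        · exact hp'O (hCO h3)
    have hwc : ¬ G.Adj w c := by
      intro h
      have h1 : c ∈ nb G M w := mem_nb.2 ⟨hcM, h⟩
      rw [hwL] at h1
      exact hcO' h1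
    have hpc : G.Adj p c := by
      have h1 : p ∈ nb G M c := by
        rw [hL]
        exact Finset.mem_insert_self p _
      exact (mem_nb.1 h1).2.symm
    refine ⟨w, p, a2_edge_m hM hdC (fun t ht => hOM (hCO ht)) hcM hpM hwM hwc' hwc hcx hpc
      (fun t ht => (mem_nb.1 ht).2) hpC hwL, fun h => ?_⟩
    rcases Finset.mem_insert.1 h with h | h
    · exact hwc' h
    · exact hwc (mem_nb.1 h).2.symm
  · exact a1_away_m hD hN IH hM hdO hsub (fun u hu h => hw ⟨u, hu, h⟩) hcM hcO'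

theorem stepA2m (hD : DHypG) (hN : NHypG) {G : SimpleGraph T} {m : ℕ} {M O : Finset T} {c : T}
    (IH : ∀ (G' : SimpleGraph T) (M' : Finset T), M'.card < M.card → Zc G' (m + 3) M' →
      I2m G' M' (m + 3))
    (hM : Zc G (m + 3) M) (h9 : 2 * (m + 3) + 3 ≤ M.card) (hd : DIA G O (m + 3)) (hOM : O ⊆ M)
    (hcO : c ∈ O) (hL : DIA G (nb G M c) (m + 3)) :
    ∃ u v, GE G M u v ∧ u ∉ insert c (nb G M c) := by
  obtain ⟨hdC, x, hxO, hxc, hcx, hOeq, hxt⟩ := DIA.link hd hcO
  obtain ⟨P, Q, hS⟩ := sep_exists hD hM hOM hd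
  obtain ⟨p, hp, p', hp', hLeq, hpC, hp'C⟩ := a2_link_m hd hOM hS hcO hL
  obtain ⟨hPM, hQM, hPO, hQO⟩ := GCA4_sub hS
  by_cases h1 : G.Adj p x
  · by_cases h2 : G.Adj p' x
    · exfalso
      have hsub : nb G M c ⊆ nb G M x := by
        intro t ht
        rw [hLeq] at ht
        rcases Finset.mem_insert.1 ht with h | h
        · rw [h]
          exact mem_nb.2 ⟨hPM hp, h1.symm⟩
        · rcases Finset.mem_insert.1 h with h | h
          · rw [h]
            exact mem_nb.2 ⟨hQM hp', h2.symm⟩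
          · exact mem_nb.2 ⟨hOM (mem_nb.1 h).1, hxt t h⟩
      have h3 := zc_susp_eq hM (hOM hcO) (hOM hxO) hxc.symm hcx hsub
      have h4 : (nb G M c).card = 2 * (m + 3) := hL.1
      have h5 : M.card ≤ (nb G M c).card + 2 := by
        conv_lhs => rw [h3]
        refine (Finset.card_insert_le _ _).trans ?_
        have := Finset.card_insert_le x (nb G M c)
        omega
      omega
    · refine GCA4_core hD hN IH hM hd hOM hcO hS.symm hp' hp ?_ hp'C hxO hxc hcx hdC hxt h2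
      rw [hLeq, Finset.insert_comm]
  · exact GCA4_core hD hN IH hM hd hOM hcO hS hp hp' hLeq hpC hxO hxc hcx hdC hxt h1

end Pool.Agent.LibFlagPL

end

section

namespace Pool.Agent.LibFlagPL

open Finset

set_option linter.unusedSectionVars false

variable {T : Type} [Fintype T] [DecidableEq T]

theorem gstepA1 (hD : DHypG) (hN : NHypG) {G : SimpleGraph T} {m : ℕ} {M O P Q : Finset T}
    (IH : ∀ (G' : SimpleGraph T) (M' : Finset T), M'.card < M.card → Zc G' (m + 3) M' →
      I2m G' M' (m + 3))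
    (hM : Zc G (m + 3) M) (hO : DIA G O (m + 3)) (hOM : O ⊆ M) (hS : Sep G M O P Q)
    (hn : ∀ u ∈ M, nb G M u ≠ O) : ∃ u v, GE G M u v ∧ u ∈ P :=
  stepA1m hD hN IH hM hO hOM hS hn

theorem ga1_away (hD : DHypG) (hN : NHypG) {G : SimpleGraph T} {m : ℕ} {M O : Finset T} {c : T}
    (IH : ∀ (G' : SimpleGraph T) (M' : Finset T), M'.card < M.card → Zc G' (m + 3) M' →
      I2m G' M' (m + 3))
    (hM : Zc G (m + 3) M) (hO : DIA G O (m + 3)) (hOM : O ⊆ M)
    (hn : ∀ u ∈ M, nb G M u ≠ O) (hc : c ∈ M) (hcO : c ∉ O) :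
    ∃ u v, GE G M u v ∧ u ∉ insert c (nb G M c) :=
  a1_away_m hD hN IH hM hO hOM hn hc hcO

theorem gstepA2 (hD : DHypG) (hN : NHypG) {G : SimpleGraph T} {m : ℕ} {M O : Finset T} {c : T}
    (IH : ∀ (G' : SimpleGraph T) (M' : Finset T), M'.card < M.card → Zc G' (m + 3) M' →
      I2m G' M' (m + 3))
    (hM : Zc G (m + 3) M) (hs : ¬ Susp G M) (hO : DIA G O (m + 3)) (hOM : O ⊆ M)
    (_hn : ∀ u ∈ M, nb G M u ≠ O) (hcO : c ∈ O) (hL : DIA G (nb G M c) (m + 3)) :
    ∃ u v, GE G M u v ∧ u ∉ insert c (nb G M c) := by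
  refine stepA2m hD hN IH hM ?_ hO hOM hcO hL
  have h1 := Zc.card_ge hM
  by_contra h2
  have h3 : M.card = 2 * (m + 3) + 2 := by omega
  have h4 := zc_dia_of_card hM h3
  obtain ⟨-, s', hs', hne, hna, -, hadj⟩ := DIA.link h4 (hOM hcO)
  refine hs ⟨c, hOM hcO, s', hs', hne.symm, hna, ?_⟩
  intro t ht
  exact mem_nb.2 ⟨(mem_nb.1 ht).1, hadj t ht⟩

end Pool.Agent.LibFlagPL

end

section

namespace Pool.Agent.LibFlagPL

open Finset

set_option linter.unusedSectionVars false

variable {T : Type} [Fintype T] [DecidableEq T]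

theorem gGE_of_susp {G : SimpleGraph T} {K : Finset T} {s s' u v : T}
    (hs : ∀ t ∈ K, G.Adj s t) (hs' : ∀ t ∈ K, G.Adj s' t) (h : GE G K u v) :
    GE G (insert s (insert s' K)) u v := by
  obtain ⟨hu, hv, huv, h4⟩ := h
  refine ⟨mem_insert_of_mem (mem_insert_of_mem hu), mem_insert_of_mem (mem_insert_of_mem hv),
    huv, ?_⟩
  intro w hw t ht hwu htv hvw hwt htu
  rw [mem_insert, mem_insert] at hw ht
  rcases hw with rfl | rfl | hw
  · exact Or.inl (hs u hu).symm
  · exact Or.inl (hs' u hu).symm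
  · rcases ht with rfl | rfl | ht
    · exact Or.inr (hs v hv).symm
    · exact Or.inr (hs' v hv).symm
    · exact h4 w hw t ht hwu htv hvw hwt htu

/-- case B -/
theorem gcaseB {G : SimpleGraph T} {m : ℕ} {M : Finset T}
    (IH : ∀ (K : Finset T), Zc G (m + 3) K → I1m G K (m + 3) ∧ I2m G K (m + 3))
    (hM : Zc G (m + 4) M) (hS : Susp G M) : I1m G M (m + 4) ∧ I2m G M (m + 4) := by
  obtain ⟨s, hs, s', hs', hne, hn, hsub⟩ := hS
  have hMeq := zc_susp_eq hM hs hs' hne hn hsub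
  have hK : Zc G (m + 3) (nb G M s) := hM.link hs
  obtain ⟨K, hKdef⟩ : ∃ K, K = nb G M s := ⟨_, rfl⟩
  rw [← hKdef] at hMeq hK hsub
  have h1 : ∀ t ∈ K, G.Adj s t := fun t ht => by
    rw [hKdef] at ht
    exact (mem_nb.1 ht).2
  have h2 : ∀ t ∈ K, G.Adj s' t := fun t ht => (mem_nb.1 (hsub ht)).2
  have hsK : s ∉ K := fun h => (h1 s h).ne rfl
  have hs'K : s' ∉ K := fun h => (h2 s' h).ne rfl
  have hcard : M.card = K.card + 2 := by
    rw [hMeq, card_insert_of_notMem, card_insert_of_notMem hs'K]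
    rw [mem_insert, not_or]
    exact ⟨hne, hsK⟩
  have hKM : K ⊆ M := by
    rw [hMeq]
    exact fun t ht => mem_insert_of_mem (mem_insert_of_mem ht)
  have hs'nb : nb G M s' = K := by
    ext t
    constructor
    · intro ht
      obtain ⟨ht1, ht2⟩ := mem_nb.1 ht
      rw [hMeq, mem_insert, mem_insert] at ht1
      rcases ht1 with rfl | rfl | ht1
      · exact absurd ht2.symm hn
      · exact absurd ht2 (G.loopless.irrefl _)
      · exact ht1
    · exact fun ht => hsub ht
  obtain ⟨i1, i2⟩ := IH K hK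
  refine ⟨?_, ?_⟩
  · rcases i1 with h | ⟨u, v, huv⟩
    · left
      omega
    · right
      refine ⟨u, v, ?_⟩
      rw [hMeq]
      exact gGE_of_susp h1 h2 huv
  · intro c hc hd hlt
    by_cases hcs : c = s
    · exfalso
      rw [hcs, ← hKdef] at hd
      have := hd.1
      omega
    by_cases hcs' : c = s'
    · exfalso
      rw [hcs', hs'nb] at hd
      have := hd.1
      omega
    have hcK : c ∈ K := by
      rw [hMeq, mem_insert, mem_insert] at hc
      rcases hc with h | h | h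
      · exact absurd h hcs
      · exact absurd h hcs'
      · exact h
    have hsc : s ∈ nb G M c := mem_nb.2 ⟨hs, (h1 c hcK).symm⟩
    have hlink := (hd.link hsc).1
    have heq : nb G (nb G M c) s = nb G K c := by
      ext t
      constructor
      · intro ht
        obtain ⟨ht1, ht2⟩ := mem_nb.1 ht
        obtain ⟨ht3, ht4⟩ := mem_nb.1 ht1
        refine mem_nb.2 ⟨?_, ht4⟩
        rw [hKdef]
        exact mem_nb.2 ⟨ht3, ht2⟩
      · intro ht
        obtain ⟨ht1, ht2⟩ := mem_nb.1 ht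
        exact mem_nb.2 ⟨mem_nb.2 ⟨hKM ht1, ht2⟩, h1 t ht1⟩
    rw [heq] at hlink
    obtain ⟨u, v, huv, hu⟩ := i2 c hcK hlink (by omega)
    refine ⟨u, v, ?_, ?_⟩
    · rw [hMeq]
      exact gGE_of_susp h1 h2 huv
    · intro h
      apply hu
      rw [mem_insert] at h ⊢
      rcases h with h | h
      · exact Or.inl h
      · exact Or.inr (mem_nb.2 ⟨huv.1, (mem_nb.1 h).2⟩)

end Pool.Agent.LibFlagPL

end

section

namespace Pool.Agent.LibFlagPL

open Finset

set_option linter.unusedSectionVars false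

/-- one dimension up: from the claim in dimension `m + 3` to the claim in dimension `m + 4` -/
theorem gclaim_step (hD : DHypG) (hN : NHypG) {T : Type} [Fintype T] [DecidableEq T] {m : ℕ}
    (IHm : ∀ (G : SimpleGraph T) (K : Finset T), Zc G (m + 3) K →
      I1m G K (m + 3) ∧ I2m G K (m + 3)) :
    ∀ (n : ℕ) (G : SimpleGraph T) (M : Finset T), M.card = n → Zc G (m + 4) M →
      I1m G M (m + 4) ∧ I2m G M (m + 4) := by
  intro n
  induction n using Nat.strong_induction_on with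
  | _ n ih =>
    intro G M hn hM
    have IH : ∀ (G' : SimpleGraph T) (M' : Finset T), M'.card < M.card → Zc G' (m + 4) M' →
        I2m G' M' (m + 4) := fun G' M' hlt hM' => (ih M'.card (hn ▸ hlt) G' M' rfl hM').2
    by_cases hs : Susp G M
    · exact gcaseB (fun K hK => IHm G K hK) hM hs
    by_cases hp : PrimeM G M (m + 4)
    · obtain ⟨h1, h2⟩ := gprime hD hN hM hs hp
      exact ⟨Or.inr h1, h2⟩
    unfold PrimeM at hp
    push Not at hp
    obtain ⟨O, hOM, hO, hno⟩ := hp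
    refine ⟨Or.inr ?_, ?_⟩
    · obtain ⟨P, Q, hS⟩ := sep_exists hD hM hOM hO
      obtain ⟨u, v, huv, -⟩ := gstepA1 (m := m + 1) hD hN IH hM hO hOM hS hno
      exact ⟨u, v, huv⟩
    · intro c hc hL _
      by_cases hcO : c ∈ O
      · exact gstepA2 (m := m + 1) hD hN IH hM hs hO hOM hno hcO hL
      · exact ga1_away (m := m + 1) hD hN IH hM hO hOM hno hc hcO

theorem gclaim (hD : DHypG) (hN : NHypG)
    (base : ∀ (T : Type) [Fintype T] [DecidableEq T] (G : SimpleGraph T) (M : Finset T),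
      Zc G 3 M → I1m G M 3 ∧ I2m G M 3) {T : Type} [Fintype T] [DecidableEq T]
    (G : SimpleGraph T) (m : ℕ) (M : Finset T) (hM : Zc G (m + 3) M) :
    I1m G M (m + 3) ∧ I2m G M (m + 3) := by
  induction m generalizing G M with
  | zero => exact base T G M hM
  | succ m ih => exact gclaim_step hD hN (fun G K hK => ih G K hK) M.card G M rfl hM

end Pool.Agent.LibFlagPL

end

section

namespace Pool.Agent.LibFlagPL

open Finset Polynomial

set_option linter.unusedSectionVars false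

variable {T : Type} [Fintype T] [DecidableEq T]

theorem gred (hD : DHypG) (hN : NHypG)
    (base : ∀ (T : Type) [Fintype T] [DecidableEq T] (G : SimpleGraph T) (M : Finset T),
      Zc G 3 M → I1m G M 3 ∧ I2m G M 3)
    (m : ℕ) : ∀ (n : ℕ) (G : SimpleGraph T) (M : Finset T), M.card = n → Zc G (m + 3) M →
      RedM G M m := by
  intro n
  induction n with
  | zero =>
    intro G M hc hM
    obtain ⟨x, hx⟩ := hM.nonempty
    have := Finset.card_pos.2 ⟨x, hx⟩
    omega
  | succ n ih =>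
    intro G M hc hM
    rcases (gclaim hD hN base G m M hM).1 with h | ⟨u, v, hg⟩
    · exact RedM.base (zc_dia_of_card hM (by omega))
    · obtain ⟨hl, hz⟩ := gcon hD hM hg
      refine RedM.step hM hg hl (ih _ _ ?_ hz)
      rw [Finset.card_erase_of_mem hg.2.1]
      omega

end Pool.Agent.LibFlagPL

end
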