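import Pool.Agent.LibFlagPL.GenA
import Pool.Agent.LibFlagPL.SurfC

/-!
# LibFlagPL.GenE: cocycles and separation by cross-polytopes in all dimensions
-/

section

namespace Pool.Agent.LibFlagPL

open Finset

set_option linter.unusedSectionVars false

variable {T : Type} [Fintype T] [DecidableEq T]

theorem Comp.sub_of_conn {G : SimpleGraph T} {X Z W : Finset T} (h : Comp G X Z)
    (hW : Conn G W) (hWX : W ⊆ X) {x : T} (hx : x ∈ W) (hxZ : x ∈ Z) : W ⊆ Z := by
  have key : ∀ y, Relation.ReflTransGen (fun a b => a ∈ W ∧ b ∈ W ∧ G.Adj a b) x y → y ∈ Z := by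
    intro y h1
    induction h1 with
    | refl => exact hxZ
    | tail _ h2 ih => exact h.2.2 _ ih _ (hWX h2.2.1) h2.2.2
  intro y hy
  exact key y (hW.2 x hx y hy)

theorem Comp.eq_of_mem {G : SimpleGraph T} {X Z Z' : Finset T} (h : Comp G X Z)
    (h' : Comp G X Z') {x : T} (hx : x ∈ Z) (hx' : x ∈ Z') : Z = Z' := by
  exact Finset.Subset.antisymm (h'.sub_of_conn h.2.1 h.1 hx hx') (h.sub_of_conn h'.2.1 h'.1 hx' hx)

theorem comp_exists {G : SimpleGraph T} {X : Finset T} {x : T} (hx : x ∈ X) :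
    ∃ Z, Comp G X Z ∧ x ∈ Z := by
  classical
  let R : T → T → Prop := fun a b => a ∈ X ∧ b ∈ X ∧ G.Adj a b
  let Z : Finset T := X.filter fun y => Relation.ReflTransGen R x y
  have hZ : ∀ y, y ∈ Z ↔ y ∈ X ∧ Relation.ReflTransGen R x y := fun y => Finset.mem_filter
  have hxZ : x ∈ Z := (hZ x).2 ⟨hx, Relation.ReflTransGen.refl⟩
  let RZ : T → T → Prop := fun a b => a ∈ Z ∧ b ∈ Z ∧ G.Adj a b
  have h1 : ∀ y, Relation.ReflTransGen R x y → Relation.ReflTransGen RZ x y := by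
    intro y hy
    induction hy with
    | refl => exact Relation.ReflTransGen.refl
    | tail h2 h3 ih =>
      exact ih.tail ⟨(hZ _).2 ⟨h3.1, h2⟩, (hZ _).2 ⟨h3.2.1, h2.tail h3⟩, h3.2.2⟩
  have hsym : ∀ y z, Relation.ReflTransGen RZ y z → Relation.ReflTransGen RZ z y := by
    intro y z h2
    induction h2 with
    | refl => exact Relation.ReflTransGen.refl
    | tail _ h3 ih => exact Relation.ReflTransGen.head ⟨h3.2.1, h3.1, h3.2.2.symm⟩ ih
  refine ⟨Z, ⟨Finset.filter_subset _ _, ⟨⟨x, hxZ⟩, ?_⟩, ?_⟩, hxZ⟩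
  · intro y hy z hz
    exact (hsym _ _ (h1 y ((hZ y).1 hy).2)).trans (h1 z ((hZ z).1 hz).2)
  · intro y hy z hz hyz
    have h2 := (hZ y).1 hy
    exact (hZ z).2 ⟨hz, h2.2.tail ⟨h2.1, hz, hyz⟩⟩

theorem Sep.symm {G : SimpleGraph T} {K O U V : Finset T} (h : Sep G K O U V) :
    Sep G K O V U := by
  exact ⟨h.compV, h.compU, h.disj.symm, by rw [Finset.union_comm]; exact h.union, h.touchV, h.touchU⟩

theorem Sep.comp {G : SimpleGraph T} {K O U V Z : Finset T} (hS : Sep G K O U V)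
    (hZ : Comp G (K \ O) Z) : Z = U ∨ Z = V := by
  obtain ⟨x, hx⟩ := hZ.2.1.1
  have h1 : x ∈ U ∪ V := by rw [hS.union]; exact hZ.1 hx
  rcases Finset.mem_union.1 h1 with h2 | h2
  · exact Or.inl (hZ.eq_of_mem hS.compU hx h2)
  · exact Or.inr (hZ.eq_of_mem hS.compV hx h2)

theorem Sep.no_edge {G : SimpleGraph T} {K O U V : Finset T} (hS : Sep G K O U V) :
    ∀ p ∈ U, ∀ q ∈ V, ¬ G.Adj p q := by
  intro p hp q hq hpq
  have h1 : q ∈ U := hS.compU.2.2 p hp q (hS.compV.1 hq) hpq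
  exact (Finset.disjoint_left.1 hS.disj) h1 hq

private theorem GE1_part0 {G : SimpleGraph T} {W P Q : Finset T} (hW : Conn G W)
    (hWX : W ⊆ P ∪ Q) (hno : ∀ p ∈ P, ∀ q ∈ Q, ¬ G.Adj p q) {x : T} (hx : x ∈ W) (hxP : x ∈ P) :
    W ⊆ P := by
  have key : ∀ y, Relation.ReflTransGen (fun a b => a ∈ W ∧ b ∈ W ∧ G.Adj a b) x y → y ∈ P := by
    intro y h1
    induction h1 with
    | refl => exact hxP
    | tail _ h2 ih =>
      rcases Finset.mem_union.1 (hWX h2.2.1) with h3 | h3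
      · exact h3
      · exact absurd h2.2.2 (hno _ ih _ h3)
  intro y hy
  exact key y (hW.2 x hx y hy)

private theorem GE1_part {G : SimpleGraph T} {W P Q : Finset T} (hW : Conn G W)
    (hWX : W ⊆ P ∪ Q) (hno : ∀ p ∈ P, ∀ q ∈ Q, ¬ G.Adj p q) : W ⊆ P ∨ W ⊆ Q := by
  obtain ⟨x, hx⟩ := hW.1
  rcases Finset.mem_union.1 (hWX hx) with h | h
  · exact Or.inl (GE1_part0 hW hWX hno hx h)
  · right
    rw [Finset.union_comm] at hWX
    exact GE1_part0 hW hWX (fun q hq p hp hqp => hno p hp q hq hqp.symm) hx h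

theorem Sep.of_parts {G : SimpleGraph T} {K O U V P Q : Finset T} (hS : Sep G K O U V)
    (hu : P ∪ Q = K \ O) (hd : Disjoint P Q) (hP : P.Nonempty) (hQ : Q.Nonempty)
    (hno : ∀ p ∈ P, ∀ q ∈ Q, ¬ G.Adj p q) : Sep G K O P Q := by
  have hU : U ⊆ P ∪ Q := by rw [hu]; exact hS.compU.1
  have hV : V ⊆ P ∪ Q := by rw [hu]; exact hS.compV.1
  have hUV : U ∪ V = P ∪ Q := by rw [hu]; exact hS.union
  have hd' := Finset.disjoint_left.1 hd
  rcases GE1_part hS.compU.2.1 hU hno with h1 | h1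
  · rcases GE1_part hS.compV.2.1 hV hno with h2 | h2
    · exfalso
      obtain ⟨q, hq⟩ := hQ
      have h3 : q ∈ U ∪ V := by rw [hUV]; exact Finset.mem_union_right _ hq
      rcases Finset.mem_union.1 h3 with h4 | h4
      · exact hd' (h1 h4) hq
      · exact hd' (h2 h4) hq
    · have hP1 : P = U := by
        refine Finset.Subset.antisymm ?_ h1
        intro p hp
        have h3 : p ∈ U ∪ V := by rw [hUV]; exact Finset.mem_union_left _ hp
        rcases Finset.mem_union.1 h3 with h4 | h4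
        · exact h4
        · exact absurd (h2 h4) (hd' hp)
      have hQ1 : Q = V := by
        refine Finset.Subset.antisymm ?_ h2
        intro q hq
        have h3 : q ∈ U ∪ V := by rw [hUV]; exact Finset.mem_union_right _ hq
        rcases Finset.mem_union.1 h3 with h4 | h4
        · exact absurd hq (hd' (h1 h4))
        · exact h4
      rw [hP1, hQ1]
      exact hS
  · rcases GE1_part hS.compV.2.1 hV hno with h2 | h2
    · have hP1 : P = V := by
        refine Finset.Subset.antisymm ?_ h2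
        intro p hp
        have h3 : p ∈ U ∪ V := by rw [hUV]; exact Finset.mem_union_left _ hp
        rcases Finset.mem_union.1 h3 with h4 | h4
        · exact absurd (h1 h4) (hd' hp)
        · exact h4
      have hQ1 : Q = U := by
        refine Finset.Subset.antisymm ?_ h1
        intro q hq
        have h3 : q ∈ U ∪ V := by rw [hUV]; exact Finset.mem_union_right _ hq
        rcases Finset.mem_union.1 h3 with h4 | h4
        · exact h4
        · exact absurd hq (hd' (h2 h4))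
      rw [hP1, hQ1]
      exact hS.symm
    · exfalso
      obtain ⟨p, hp⟩ := hP
      have h3 : p ∈ U ∪ V := by rw [hUV]; exact Finset.mem_union_left _ hp
      rcases Finset.mem_union.1 h3 with h4 | h4
      · exact hd' hp (h1 h4)
      · exact hd' hp (h2 h4)

theorem Sep.link_of {G : SimpleGraph T} {K O U V : Finset T} (hS : Sep G K O U V)
    (hO : O ⊆ K) {o : T} (ho : o ∈ O)
    (h' : ∃ U' V', Sep G (nb G K o) (nb G O o) U' V') :
    Sep G (nb G K o) (nb G O o) (nb G U o) (nb G V o) := by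
  classical
  obtain ⟨U', V', h1⟩ := h'
  refine h1.of_parts ?_ ?_ (hS.touchU o ho) (hS.touchV o ho) ?_
  · ext t
    have h2 : t ∈ U ∪ V ↔ t ∈ K \ O := by rw [hS.union]
    rw [Finset.mem_union, Finset.mem_sdiff] at h2
    unfold nb
    simp only [Finset.mem_union, Finset.mem_filter, Finset.mem_sdiff]
    tauto
  · unfold nb
    exact Finset.disjoint_filter_filter hS.disj
  · intro p hp q hq
    exact hS.no_edge p (Finset.mem_filter.1 hp).1 q (Finset.mem_filter.1 hq).1

end Pool.Agent.LibFlagPL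

end

section

namespace Pool.Agent.LibFlagPL

open Finset

set_option linter.unusedSectionVars false

variable {T : Type} [Fintype T] [DecidableEq T]

private theorem GE2_touch {G : SimpleGraph T} {K Z : Finset T} (hK : Circle G K) {a b : T} (ha : a ∈ K)
    (hb : b ∈ K) (hab : a ≠ b) (hZ : Comp G (K \ {a, b}) Z) : ∃ z ∈ Z, G.Adj z a := by
  by_contra hcon
  push Not at hcon
  have h1 : Z = K.erase b := by
    refine Conn.eq_of_closed (hK.conn_erase hb) ?_ hZ.2.1.1 ?_
    · intro z hz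
      have h2 := hZ.1 hz
      rw [Finset.mem_sdiff, Finset.mem_insert, Finset.mem_singleton, not_or] at h2
      exact Finset.mem_erase.2 ⟨h2.2.2, h2.1⟩
    · intro z hz y hy hzy
      have hy' := Finset.mem_erase.1 hy
      refine hZ.2.2 z hz y ?_ hzy
      rw [Finset.mem_sdiff, Finset.mem_insert, Finset.mem_singleton, not_or]
      refine ⟨hy'.2, ?_, hy'.1⟩
      rintro rfl
      exact hcon z hz hzy
  have h3 : a ∈ Z := by rw [h1]; exact Finset.mem_erase.2 ⟨hab, ha⟩
  have h4 := hZ.1 h3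
  rw [Finset.mem_sdiff] at h4
  exact h4.2 (Finset.mem_insert_self a _)

private theorem GE2_count {G : SimpleGraph T} {K : Finset T} (hK : Circle G K) {a b : T} (ha : a ∈ K)
    (hb : b ∈ K) (hab : a ≠ b) (hn : ¬ G.Adj a b) : ¬ Conn G (K \ {a, b}) := by
  classical
  intro hc
  have hmem : ∀ t, t ∈ K \ {a, b} ↔ t ∈ K ∧ t ≠ a ∧ t ≠ b := by
    intro t
    rw [Finset.mem_sdiff, Finset.mem_insert, Finset.mem_singleton, not_or]
  have h1 : ∀ x ∈ K \ {a, b}, (nb G (K \ {a, b}) x).card + (({a, b} : Finset T).filter (fun o => G.Adj x o)).card = 2 := by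
    intro x hx
    have hx' := (hmem x).1 hx
    have h2 : nb G K x = nb G (K \ {a, b}) x ∪ ({a, b} : Finset T).filter (fun o => G.Adj x o) := by
      ext t
      rw [Finset.mem_union, mem_nb, mem_nb, hmem, Finset.mem_filter, Finset.mem_insert, Finset.mem_singleton]
      constructor
      · rintro ⟨h3, h4⟩
        by_cases h5 : t = a ∨ t = b
        · exact Or.inr ⟨h5, h4⟩
        · rw [not_or] at h5
          exact Or.inl ⟨⟨h3, h5⟩, h4⟩
      · rintro (⟨h3, h4⟩ | ⟨h3, h4⟩)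
        · exact ⟨h3.1, h4⟩
        · rcases h3 with rfl | rfl
          · exact ⟨ha, h4⟩
          · exact ⟨hb, h4⟩
    have h3 : Disjoint (nb G (K \ {a, b}) x) (({a, b} : Finset T).filter (fun o => G.Adj x o)) := by
      rw [Finset.disjoint_left]
      intro t ht ht'
      have h4 := (hmem t).1 (nb_subset ht)
      rw [Finset.mem_filter, Finset.mem_insert, Finset.mem_singleton] at ht'
      rcases ht'.1 with h5 | h5
      · exact h4.2.1 h5
      · exact h4.2.2 h5
    rw [← Finset.card_union_of_disjoint h3, ← h2]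
    exact hK.2.1 x hx'.1
  have hnb : ∀ o, o = a ∨ o = b → ((K \ {a, b}).filter (fun x => G.Adj x o)).card = 2 := by
    intro o ho
    have hoK : o ∈ K := by
      rcases ho with rfl | rfl
      · exact ha
      · exact hb
    rw [← hK.2.1 o hoK]
    congr 1
    ext t
    rw [Finset.mem_filter, hmem, mem_nb]
    constructor
    · rintro ⟨h2, h3⟩
      exact ⟨h2.1, h3.symm⟩
    · rintro ⟨h2, h3⟩
      refine ⟨⟨h2, ?_, ?_⟩, h3.symm⟩
      · rintro rfl
        rcases ho with rfl | rfl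
        · exact h3.ne rfl
        · exact hn h3.symm
      · rintro rfl
        rcases ho with rfl | rfl
        · exact hn h3
        · exact h3.ne rfl
  have h4 : ∑ x ∈ K \ {a, b}, (({a, b} : Finset T).filter (fun o => G.Adj x o)).card = 4 := by
    simp only [Finset.card_filter]
    rw [Finset.sum_comm, Finset.sum_pair hab, ← Finset.card_filter, ← Finset.card_filter, hnb a (Or.inl rfl),
      hnb b (Or.inr rfl)]
  have h5 : ∑ x ∈ K \ {a, b}, (nb G (K \ {a, b}) x).card + 4 = 2 * (K \ {a, b}).card := by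
    rw [← h4, ← Finset.sum_add_distrib, Finset.sum_congr rfl h1, Finset.sum_const, smul_eq_mul, mul_comm]
  have h6 := sum_faces_nb (G := G) (S := K \ {a, b}) 1
  have h7 : ∑ s ∈ K \ {a, b}, (faces G (nb G (K \ {a, b}) s) 1).card = ∑ x ∈ K \ {a, b}, (nb G (K \ {a, b}) x).card :=
    Finset.sum_congr rfl fun x _ => card_faces_one
  rw [h7] at h6
  have h8 := rank_one_ge hc
  have h9 : (Dm G (K \ {a, b}) 1).rank ≤ (faces G (K \ {a, b}) 2).card := by
    refine (Matrix.rank_le_card_width _).trans ?_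
    rw [Fintype.card_coe]
  have h10 : (faces G (K \ {a, b}) (1 + 1)).card = (faces G (K \ {a, b}) 2).card := rfl
  rw [h10] at h6
  omega

theorem sep_one {G : SimpleGraph T} {K O : Finset T} (hK : Circle G K) (hO : O ⊆ K)
    (hd : DIA G O 1) : ∃ U V, Sep G K O U V := by
  classical
  obtain ⟨a, b, hab, rfl⟩ := Finset.card_eq_two.1 hd.1
  have ha : a ∈ K := hO (Finset.mem_insert_self a _)
  have hb : b ∈ K := hO (Finset.mem_insert_of_mem (Finset.mem_singleton_self b))
  have hn : ¬ G.Adj a b := by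
    obtain ⟨y, hy, hya, hyn⟩ := hd.2.2 a (Finset.mem_insert_self a _)
    rw [Finset.mem_insert, Finset.mem_singleton] at hy
    rcases hy with h | h
    · exact absurd h hya
    · rw [h] at hyn; exact hyn
  have hta : ∀ Z, Comp G (K \ {a, b}) Z → ∃ z ∈ Z, G.Adj z a := fun Z hZ => GE2_touch hK ha hb hab hZ
  have htb : ∀ Z, Comp G (K \ {a, b}) Z → ∃ z ∈ Z, G.Adj z b := by
    intro Z hZ
    refine GE2_touch hK hb ha hab.symm ?_
    rw [Finset.pair_comm]
    exact hZ
  have hmem : ∀ t, t ∈ K \ {a, b} ↔ t ∈ K ∧ t ≠ a ∧ t ≠ b := by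
    intro t
    rw [Finset.mem_sdiff, Finset.mem_insert, Finset.mem_singleton, not_or]
  obtain ⟨a1, a2, h12, hn12, he⟩ := hK.nb_eq ha
  have hsub : ∀ t ∈ nb G K a, t ∈ K \ {a, b} := by
    intro t ht
    have h1 := mem_nb.1 ht
    rw [hmem]
    refine ⟨h1.1, h1.2.ne', ?_⟩
    rintro rfl
    exact hn h1.2
  have ha1 : a1 ∈ K \ {a, b} := hsub a1 (by rw [he]; exact Finset.mem_insert_self _ _)
  have ha2 : a2 ∈ K \ {a, b} := hsub a2 (by rw [he]; exact Finset.mem_insert_of_mem (Finset.mem_singleton_self _))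
  obtain ⟨U, hU, h1U⟩ := comp_exists (G := G) ha1
  obtain ⟨V, hV, h2V⟩ := comp_exists (G := G) ha2
  have hcov : ∀ x ∈ K \ {a, b}, x ∈ U ∨ x ∈ V := by
    intro x hx
    obtain ⟨Z, hZ, hxZ⟩ := comp_exists (G := G) hx
    obtain ⟨z, hz, hza⟩ := hta Z hZ
    have h1 : z ∈ nb G K a := mem_nb.2 ⟨((hmem z).1 (hZ.1 hz)).1, hza.symm⟩
    rw [he, Finset.mem_insert, Finset.mem_singleton] at h1
    rcases h1 with rfl | rfl
    · left
      rw [← hZ.eq_of_mem hU hz h1U]
      exact hxZ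
    · right
      rw [← hZ.eq_of_mem hV hz h2V]
      exact hxZ
  have hne : U ≠ V := by
    rintro rfl
    have h1 : U = K \ {a, b} := by
      refine Finset.Subset.antisymm hU.1 (fun x hx => ?_)
      rcases hcov x hx with h | h <;> exact h
    have h2 := hU.2.1
    rw [h1] at h2
    exact GE2_count hK ha hb hab hn h2
  refine ⟨U, V, hU, hV, ?_, ?_, ?_, ?_⟩
  · rw [Finset.disjoint_left]
    intro x hx hx'
    exact hne (hU.eq_of_mem hV hx hx')
  · refine Finset.Subset.antisymm (Finset.union_subset hU.1 hV.1) (fun x hx => ?_)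
    rw [Finset.mem_union]
    exact hcov x hx
  · intro o ho
    rw [Finset.mem_insert, Finset.mem_singleton] at ho
    rcases ho with rfl | rfl
    · obtain ⟨z, hz, hza⟩ := hta U hU
      exact ⟨z, mem_nb.2 ⟨hz, hza.symm⟩⟩
    · obtain ⟨z, hz, hza⟩ := htb U hU
      exact ⟨z, mem_nb.2 ⟨hz, hza.symm⟩⟩
  · intro o ho
    rw [Finset.mem_insert, Finset.mem_singleton] at ho
    rcases ho with rfl | rfl
    · obtain ⟨z, hz, hza⟩ := hta V hV
      exact ⟨z, mem_nb.2 ⟨hz, hza.symm⟩⟩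
    · obtain ⟨z, hz, hza⟩ := htb V hV
      exact ⟨z, mem_nb.2 ⟨hz, hza.symm⟩⟩

end Pool.Agent.LibFlagPL

end

section

namespace Pool.Agent.LibFlagPL

open Finset

set_option linter.unusedSectionVars false

variable {T : Type} [Fintype T] [DecidableEq T]

/-- the edges of a circle at a vertex -/
private theorem GE3_even {G : SimpleGraph T} {O : Finset T} (hC : Circle G O) (y : T) :
    Even (((faces G O 2).filter (fun ε => y ∈ ε)).card) := by
  classical
  by_cases hyO : y ∈ O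
  · obtain ⟨a, b, hab, -, hnb⟩ := hC.nb_eq hyO
    have ha : a ∈ nb G O y := by rw [hnb]; simp
    have hb : b ∈ nb G O y := by rw [hnb]; simp
    have ha' := mem_nb.1 ha
    have hb' := mem_nb.1 hb
    have hfil : (faces G O 2).filter (fun ε => y ∈ ε) = {{y, a}, {y, b}} := by
      ext ε
      rw [Finset.mem_filter, Finset.mem_insert, Finset.mem_singleton]
      constructor
      · rintro ⟨h1, h2⟩
        obtain ⟨p, hp, q, hq, hpq, rfl⟩ := exists_edge h1
        rw [Finset.mem_insert, Finset.mem_singleton] at h2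
        rcases h2 with rfl | rfl
        · have h3 : q ∈ nb G O y := mem_nb.2 ⟨hq, hpq⟩
          rw [hnb, Finset.mem_insert, Finset.mem_singleton] at h3
          rcases h3 with rfl | rfl
          · exact Or.inl rfl
          · exact Or.inr rfl
        · have h3 : p ∈ nb G O y := mem_nb.2 ⟨hp, hpq.symm⟩
          rw [hnb, Finset.mem_insert, Finset.mem_singleton] at h3
          rcases h3 with rfl | rfl
          · exact Or.inl (Finset.pair_comm _ _)
          · exact Or.inr (Finset.pair_comm _ _)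
      · rintro (rfl | rfl)
        · exact ⟨edge_iff.2 ⟨hyO, ha'.1, ha'.2⟩, Finset.mem_insert_self _ _⟩
        · exact ⟨edge_iff.2 ⟨hyO, hb'.1, hb'.2⟩, Finset.mem_insert_self _ _⟩
    have hne : ({y, a} : Finset T) ≠ {y, b} := by
      intro h
      have h1 : a ∈ ({y, b} : Finset T) := by rw [← h]; simp
      rw [Finset.mem_insert, Finset.mem_singleton] at h1
      rcases h1 with h1 | h1
      · exact ha'.2.ne h1.symm
      · exact hab h1
    rw [hfil, Finset.card_pair hne]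
    exact ⟨1, rfl⟩
  · have hfil : (faces G O 2).filter (fun ε => y ∈ ε) = ∅ := by
      rw [Finset.filter_eq_empty_iff]
      intro ε hε hy
      exact hyO ((mem_faces.1 hε).1 hy)
    rw [hfil, Finset.card_empty]
    exact ⟨0, rfl⟩

/-- the two triangles at an edge of `O` -/
private theorem GE3_edge {G : SimpleGraph T} {K : Finset T} (hK : F2 G K) {D : Finset (Finset T)}
    (hD : D ⊆ faces G K 3) {s t : T} (hst : ({s, t} : Finset T) ∈ faces G K 2)
    (hodd : Odd ((D.filter (fun σ => ({s, t} : Finset T) ⊆ σ)).card)) :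
    ∃ a b : T, ({s, t, a} : Finset T) ∈ D ∧ ({s, t, b} : Finset T) ∈ faces G K 3 ∧
      ({s, t, b} : Finset T) ∉ D := by
  classical
  obtain ⟨hs, ht, hadj⟩ := edge_iff.1 hst
  have htn : t ∈ nb G K s := mem_nb.2 ⟨ht, hadj⟩
  obtain ⟨a, b, hab, -, hnb⟩ := Circle.nb_eq (hK.2.1 s hs) htn
  have hf := filter_edge hs htn hab hnb
  have hmem : ∀ τ, τ ∈ (faces G K 3).filter (fun σ => ({s, t} : Finset T) ⊆ σ) ↔
      τ = {s, t, a} ∨ τ = {s, t, b} := by
    intro τ
    rw [hf, Finset.mem_insert, Finset.mem_singleton]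
  have ha3 : ({s, t, a} : Finset T) ∈ faces G K 3 := (Finset.mem_filter.1 ((hmem _).2 (Or.inl rfl))).1
  have hb3 : ({s, t, b} : Finset T) ∈ faces G K 3 := (Finset.mem_filter.1 ((hmem _).2 (Or.inr rfl))).1
  have hsa : ({s, t} : Finset T) ⊆ {s, t, a} := (Finset.mem_filter.1 ((hmem _).2 (Or.inl rfl))).2
  have hsb : ({s, t} : Finset T) ⊆ {s, t, b} := (Finset.mem_filter.1 ((hmem _).2 (Or.inr rfl))).2
  by_cases h1 : ({s, t, a} : Finset T) ∈ D
  · by_cases h2 : ({s, t, b} : Finset T) ∈ D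
    · exfalso
      have h3 : D.filter (fun σ => ({s, t} : Finset T) ⊆ σ) =
          (faces G K 3).filter (fun σ => ({s, t} : Finset T) ⊆ σ) := by
        ext τ
        rw [hmem, Finset.mem_filter]
        constructor
        · rintro ⟨h4, h5⟩
          exact (hmem τ).1 (Finset.mem_filter.2 ⟨hD h4, h5⟩)
        · rintro (rfl | rfl)
          · exact ⟨h1, hsa⟩
          · exact ⟨h2, hsb⟩
      rw [h3, hK.two_tri hst] at hodd
      exact absurd hodd (by decide)
    · exact ⟨a, b, h1, hb3, h2⟩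
  · by_cases h2 : ({s, t, b} : Finset T) ∈ D
    · exact ⟨b, a, h2, ha3, h1⟩
    · exfalso
      have h3 : D.filter (fun σ => ({s, t} : Finset T) ⊆ σ) = ∅ := by
        rw [Finset.filter_eq_empty_iff]
        intro τ hτ hsub
        rcases (hmem τ).1 (Finset.mem_filter.2 ⟨hD hτ, hsub⟩) with rfl | rfl
        · exact h1 hτ
        · exact h2 hτ
      rw [h3, Finset.card_empty] at hodd
      exact absurd hodd (by decide)

theorem sides_two {G : SimpleGraph T} {K O : Finset T} (hK : F2 G K) (hO : O ⊆ K)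
    (hC : Circle G O) : ∃ P Q, Sides G K O P Q 2 := by
  classical
  have hz : faces G O 2 ⊆ faces G K 2 := by
    intro σ hσ
    rw [mem_faces] at hσ ⊢
    exact ⟨hσ.1.trans hO, hσ.2⟩
  obtain ⟨D, hD, hDz⟩ := hK.bound hz (fun y _ => GE3_even hC y)
  have hconst : ∀ y ∈ K, y ∉ O → ∀ σ ∈ faces G K 3, y ∈ σ → ∀ τ ∈ faces G K 3, y ∈ τ → σ ∈ D → τ ∈ D := by
    intro y hy hyO σ hσ hyσ τ hτ hyτ hσD
    refine hK.const_at hD hy (fun t ht => ?_) hσ hyσ hτ hyτ hσD
    have ht' := mem_nb.1 ht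
    rw [← Nat.not_odd_iff_even, hDz _ (edge_iff.2 ⟨hy, ht'.1, ht'.2⟩)]
    intro h
    exact hyO (edge_iff.1 h).1
  have hno : ∀ s t a : T, ({s, t} : Finset T) ∈ faces G O 2 → ({s, t, a} : Finset T) ∈ faces G K 3 → a ∉ O := by
    intro s t a hst h3 ha
    have h4 := mem_faces.1 h3
    have h5 := edge_iff.1 hst
    have h6 : ({s, t, a} : Finset T) ⊆ O := by
      intro x hx
      simp only [Finset.mem_insert, Finset.mem_singleton] at hx
      rcases hx with rfl | rfl | rfl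
      · exact h5.1
      · exact h5.2.1
      · exact ha
    have h7 := hC.no_three h6 h4.2.1
    have h8 := h4.2.2
    omega
  have hmemP : ∀ y, y ∈ (K \ O).filter (fun y => ∃ σ ∈ D, y ∈ σ) ↔ (y ∈ K ∧ y ∉ O) ∧ ∃ σ ∈ D, y ∈ σ := by
    intro y
    rw [Finset.mem_filter, Finset.mem_sdiff]
  have hmemQ : ∀ y, y ∈ (K \ O).filter (fun y => ¬ ∃ σ ∈ D, y ∈ σ) ↔ (y ∈ K ∧ y ∉ O) ∧ ¬ ∃ σ ∈ D, y ∈ σ := by
    intro y
    rw [Finset.mem_filter, Finset.mem_sdiff]
  refine ⟨(K \ O).filter (fun y => ∃ σ ∈ D, y ∈ σ), (K \ O).filter (fun y => ¬ ∃ σ ∈ D, y ∈ σ),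
    ?_, ?_, ?_, ?_, ?_⟩
  · rw [Finset.disjoint_left]
    intro y h1 h2
    exact ((hmemQ y).1 h2).2 ((hmemP y).1 h1).2
  · ext y
    rw [Finset.mem_union, hmemP, hmemQ, Finset.mem_sdiff]
    constructor
    · rintro (h | h)
      · exact h.1
      · exact h.1
    · intro h
      by_cases h2 : ∃ σ ∈ D, y ∈ σ
      · exact Or.inl ⟨h, h2⟩
      · exact Or.inr ⟨h, h2⟩
  · intro p hp q hq hpq
    obtain ⟨⟨hpK, hpO⟩, σ, hσ, hpσ⟩ := (hmemP p).1 hp
    obtain ⟨⟨hqK, -⟩, hq2⟩ := (hmemQ q).1 hq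
    have hqn : q ∈ nb G K p := mem_nb.2 ⟨hqK, hpq⟩
    obtain ⟨a, b, -, -, hnb⟩ := Circle.nb_eq (hK.2.1 p hpK) hqn
    have ha : a ∈ nb G (nb G K p) q := by rw [hnb]; simp
    have ha1 := mem_nb.1 ha
    have ha2 := mem_nb.1 ha1.1
    have h3 : ({p, q, a} : Finset T) ∈ faces G K 3 := tri_iff.2 ⟨hpK, hqK, ha2.1, hpq, ha2.2, ha1.2⟩
    exact hq2 ⟨_, hconst p hpK hpO σ (hD hσ) hpσ _ h3 (by simp) hσ, by simp⟩
  · intro σ hσ
    obtain ⟨s, hs, t, ht, hst, rfl⟩ := exists_edge hσ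
    obtain ⟨a, b, h1, h2, h3⟩ := GE3_edge hK hD (hz hσ) ((hDz _ (hz hσ)).2 hσ)
    have h4 := tri_iff.1 (hD h1)
    refine ⟨a, (hmemP a).2 ⟨⟨h4.2.2.1, hno s t a hσ (hD h1)⟩, _, h1, by simp⟩, ?_⟩
    intro x hx
    simp only [Finset.mem_insert, Finset.mem_singleton] at hx
    rcases hx with rfl | rfl
    · exact h4.2.2.2.2.1.symm
    · exact h4.2.2.2.2.2.symm
  · intro σ hσ
    obtain ⟨s, hs, t, ht, hst, rfl⟩ := exists_edge hσ
    obtain ⟨a, b, h1, h2, h3⟩ := GE3_edge hK hD (hz hσ) ((hDz _ (hz hσ)).2 hσ)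
    have h4 := tri_iff.1 h2
    have hbO := hno s t b hσ h2
    refine ⟨b, (hmemQ b).2 ⟨⟨h4.2.2.1, hbO⟩, ?_⟩, ?_⟩
    · rintro ⟨τ, hτ, hbτ⟩
      exact h3 (hconst b h4.2.2.1 hbO τ (hD hτ) hbτ _ h2 (by simp) hτ)
    · intro x hx
      simp only [Finset.mem_insert, Finset.mem_singleton] at hx
      rcases hx with rfl | rfl
      · exact h4.2.2.2.2.1.symm
      · exact h4.2.2.2.2.2.symm

end Pool.Agent.LibFlagPL

end

section

namespace Pool.Agent.LibFlagPL

open Finset

set_option linter.unusedSectionVars false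

variable {T : Type} [Fintype T] [DecidableEq T]

private theorem GE4_side {G : SimpleGraph T} {K O P Q : Finset T} (hKc : Conn G K)
    (hOc : Conn G O) (hO : O ⊆ K) (hu : P ∪ Q = K \ O)
    (hno : ∀ p ∈ P, ∀ q ∈ Q, ¬ G.Adj p q)
    (hc : ∀ o ∈ O, Conn G (nb G P o))
    (ht : ∀ o ∈ O, ∀ p ∈ nb G O o, (nb G (nb G P o) p).Nonempty) : Comp G (K \ O) P := by
  have hPK : P ⊆ K \ O := by
    rw [← hu]
    exact Finset.subset_union_left
  have hb : ∀ Z, Comp G P Z → ∀ o ∈ O, ∀ z ∈ Z, G.Adj o z → nb G P o ⊆ Z := by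
    intro Z hZ o ho z hz hoz
    exact Comp.sub_of_conn hZ (hc o ho) nb_subset (mem_nb.2 ⟨hZ.1 hz, hoz⟩) hz
  have hA : ∀ Z, Comp G P Z → ∀ o ∈ O, nb G P o ⊆ Z := by
    intro Z hZ
    have ha : ∃ o ∈ O, ∃ z ∈ Z, G.Adj o z := by
      by_contra hcon
      push Not at hcon
      obtain ⟨x, hx⟩ := hZ.2.1.1
      obtain ⟨o, ho⟩ := hOc.1
      have hxK : x ∈ K := (Finset.mem_sdiff.1 (hPK (hZ.1 hx))).1
      have hch := hKc.2 x hxK o (hO ho)
      have hoZ : o ∈ Z := by
        clear ho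
        induction hch with
        | refl => exact hx
        | @tail b c _ hab ih =>
          obtain ⟨_, hbK, hadj⟩ := hab
          by_cases hcO : c ∈ O
          · exact absurd hadj.symm (hcon c hcO b ih)
          · have hc2 : c ∈ P ∪ Q := by
              rw [hu]
              exact Finset.mem_sdiff.2 ⟨hbK, hcO⟩
            rcases Finset.mem_union.1 hc2 with h | h
            · exact hZ.2.2 b ih c h hadj
            · exact absurd hadj (hno b (hZ.1 ih) c h)
      exact (Finset.mem_sdiff.1 (hPK (hZ.1 hoZ))).2 ho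
    obtain ⟨o1, ho1, z, hz, hadj⟩ := ha
    intro o ho
    have hch := hOc.2 o1 ho1 o ho
    clear ho
    induction hch with
    | refl => exact hb Z hZ o1 ho1 z hz hadj
    | tail _ hab ih =>
      obtain ⟨hbO, hcO, hadj2⟩ := hab
      obtain ⟨w, hw⟩ := ht _ hbO _ (mem_nb.2 ⟨hcO, hadj2⟩)
      rw [mem_nb] at hw
      exact hb Z hZ _ hcO w (ih hw.1) hw.2
  obtain ⟨o, ho⟩ := hOc.1
  obtain ⟨w, hw⟩ := (hc o ho).1
  have hwP : w ∈ P := (mem_nb.1 hw).1
  obtain ⟨Z, hZ, _⟩ := comp_exists (G := G) hwP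
  have hPZ : P = Z := by
    refine Finset.Subset.antisymm ?_ hZ.1
    intro y hy
    obtain ⟨Z', hZ', hyZ'⟩ := comp_exists (G := G) hy
    have : Z = Z' := Comp.eq_of_mem hZ hZ' (hA Z hZ o ho hw) (hA Z' hZ' o ho hw)
    rw [this]
    exact hyZ'
  refine ⟨hPK, ?_, ?_⟩
  · rw [hPZ]
    exact hZ.2.1
  · intro x hx y hy hxy
    rw [← hu] at hy
    rcases Finset.mem_union.1 hy with h | h
    · exact h
    · exact absurd hxy (hno x hx y h)

theorem sep_of_links {G : SimpleGraph T} {r : ℕ} {K O P Q : Finset T} (hK : Zc G (r + 2) K)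
    (hO : O ⊆ K) (hd : DIA G O (r + 2)) (hdis : Disjoint P Q) (hu : P ∪ Q = K \ O)
    (hno : ∀ p ∈ P, ∀ q ∈ Q, ¬ G.Adj p q)
    (hl : ∀ o ∈ O, Sep G (nb G K o) (nb G O o) (nb G P o) (nb G Q o)) : Sep G K O P Q := by
  have hOc : Conn G O := (DIA.zc (k := r + 1) hd).conn
  have hKc : Conn G K := Zc.conn (m := r + 1) hK
  have hu' : Q ∪ P = K \ O := by
    rw [Finset.union_comm]
    exact hu
  exact
    { compU := GE4_side hKc hOc hO hu hno (fun o ho => (hl o ho).compU.2.1)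
        (fun o ho p hp => (hl o ho).touchU p hp)
      compV := GE4_side hKc hOc hO hu' (fun q hq p hp h => hno p hp q hq h.symm)
        (fun o ho => (hl o ho).compV.2.1) (fun o ho p hp => (hl o ho).touchV p hp)
      disj := hdis
      union := hu
      touchU := fun o ho => (hl o ho).compU.2.1.1
      touchV := fun o ho => (hl o ho).compV.2.1.1 }

end Pool.Agent.LibFlagPL

end

section

namespace Pool.Agent.LibFlagPL

open Finset

set_option linter.unusedSectionVars false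

variable {T : Type} [Fintype T] [DecidableEq T]

theorem sep_two {G : SimpleGraph T} {K O : Finset T} (hK : F2 G K) (hO : O ⊆ K)
    (hd : DIA G O 2) : ∃ U V, Sep G K O U V := by
  have hC : Circle G O := DIA.zc (k := 1) hd
  obtain ⟨P, Q, hS⟩ := sides_two hK hO hC
  have hPK := hS.left_subset
  have hQK := hS.right_subset
  refine ⟨P, Q, sep_of_links (r := 0) hK hO hd hS.disj hS.union hS.sep ?_⟩
  intro o ho
  have hoK := hO ho
  have hl := Sides.link (j := 1) hS hO ho
  have hd1 : DIA G (nb G O o) 1 := (DIA.link (k := 1) hd ho).1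
  have hKo : Circle G (nb G K o) := hK.2.1 o hoK
  have hsub : nb G O o ⊆ nb G K o := by
    intro t ht
    have h1 := mem_nb.1 ht
    exact mem_nb.2 ⟨hO h1.1, h1.2⟩
  obtain ⟨U, V, hUV⟩ := sep_one hKo hsub hd1
  have hP : nb G K o ∩ P = nb G P o := by
    ext t
    rw [Finset.mem_inter, mem_nb, mem_nb]
    constructor
    · rintro ⟨⟨_, h2⟩, h3⟩
      exact ⟨h3, h2⟩
    · rintro ⟨h1, h2⟩
      exact ⟨⟨hPK h1, h2⟩, h1⟩
  have hQ : nb G K o ∩ Q = nb G Q o := by
    ext t
    rw [Finset.mem_inter, mem_nb, mem_nb]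
    constructor
    · rintro ⟨⟨_, h2⟩, h3⟩
      exact ⟨h3, h2⟩
    · rintro ⟨h1, h2⟩
      exact ⟨⟨hQK h1, h2⟩, h1⟩
  rw [hP, hQ] at hl
  have hne : (nb G O o).Nonempty := by
    rw [← Finset.card_pos, hd1.1]
    omega
  obtain ⟨t, ht⟩ := hne
  have hσ : ({t} : Finset T) ∈ faces G (nb G O o) 1 := by
    refine mem_faces.2 ⟨Finset.singleton_subset_iff.2 ht, ?_, Finset.card_singleton t⟩
    intro a ha b hb hab
    rw [Finset.mem_singleton] at ha hb
    exact absurd (ha.trans hb.symm) hab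
  obtain ⟨p, hp, _⟩ := hl.left _ hσ
  obtain ⟨q, hq, _⟩ := hl.right _ hσ
  exact hUV.of_parts hl.union hl.disj ⟨p, hp⟩ ⟨q, hq⟩ hl.sep

end Pool.Agent.LibFlagPL

end

section

namespace Pool.Agent.LibFlagPL

open Finset

set_option linter.unusedSectionVars false

variable {T : Type} [Fintype T] [DecidableEq T]

/-- labels of the two sides at every vertex of `O` -/
def Lab (G : SimpleGraph T) (K O : Finset T) (l : T → T → ZMod 2) : Prop :=
  ∀ o ∈ O, Sep G (nb G K o) (nb G O o) ((nb G K o \ O).filter (fun w => l o w = 0))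
    ((nb G K o \ O).filter (fun w => l o w = 1))

private theorem GE6_nb {G : SimpleGraph T} {K : Finset T} {o w : T} :
    w ∈ nb G K o ↔ w ∈ K ∧ G.Adj o w := by
  classical
  unfold nb
  rw [Finset.mem_filter]

private theorem GE6_two (a : ZMod 2) : a = 0 ∨ a = 1 := by
  revert a
  decide

private theorem GE6_sdiff {G : SimpleGraph T} {K O : Finset T} (o : T) :
    nb G K o \ O = nb G K o \ nb G O o := by
  ext w
  rw [Finset.mem_sdiff, Finset.mem_sdiff, GE6_nb, GE6_nb]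
  constructor
  · rintro ⟨h1, h2⟩
    exact ⟨h1, fun h3 => h2 h3.1⟩
  · rintro ⟨h1, h2⟩
    exact ⟨h1, fun h3 => h2 ⟨h3, h1.2⟩⟩

theorem lab_exists {G : SimpleGraph T} {K O : Finset T} (hO : O ⊆ K)
    (hex1 : ∀ o ∈ O, ∃ U V, Sep G (nb G K o) (nb G O o) U V) : ∃ l, Lab G K O l := by
  classical
  choose U V hS using hex1
  refine ⟨fun o w => if h : o ∈ O then (if w ∈ U o h then 0 else 1) else 0, ?_⟩
  intro o ho
  have hu := (hS o ho).union
  have hd := (hS o ho).disj
  have h1 : (nb G K o \ O).filter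
      (fun w => (fun o w => if h : o ∈ O then (if w ∈ U o h then (0 : ZMod 2) else 1) else 0) o w = 0) = U o ho := by
    ext w
    rw [Finset.mem_filter, GE6_sdiff, ← hu, Finset.mem_union]
    simp only [dif_pos ho]
    constructor
    · rintro ⟨-, h2⟩
      by_contra hn
      rw [if_neg hn] at h2
      exact one_ne_zero h2
    · intro h2
      exact ⟨Or.inl h2, if_pos h2⟩
  have h2 : (nb G K o \ O).filter
      (fun w => (fun o w => if h : o ∈ O then (if w ∈ U o h then (0 : ZMod 2) else 1) else 0) o w = 1) = V o ho := by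
    ext w
    rw [Finset.mem_filter, GE6_sdiff, ← hu, Finset.mem_union]
    simp only [dif_pos ho]
    constructor
    · rintro ⟨h3, h2⟩
      rcases h3 with h3 | h3
      · rw [if_pos h3] at h2
        exact absurd h2.symm one_ne_zero
      · exact h3
    · intro h2
      refine ⟨Or.inr h2, if_neg ?_⟩
      intro h3
      exact Finset.disjoint_left.mp hd h3 h2
  have h3 := hS o ho
  rw [← h1, ← h2] at h3
  exact h3

theorem lab_pair {G : SimpleGraph T} {K O : Finset T} {l : T → T → ZMod 2} (hO : O ⊆ K)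
    (hl : Lab G K O l)
    (hex2 : ∀ o ∈ O, ∀ p ∈ nb G O o,
      ∃ U V, Sep G (nb G (nb G K o) p) (nb G (nb G O o) p) U V) {o p : T} (ho : o ∈ O)
    (hp : p ∈ O) (hop : G.Adj o p) :
    ∃ c : ZMod 2, ∀ w ∈ K \ O, G.Adj o w → G.Adj p w → l o w + l p w = c := by
  classical
  have hsub : ∀ o, nb G O o ⊆ nb G K o := by
    intro o w hw
    rw [GE6_nb] at hw ⊢
    exact ⟨hO hw.1, hw.2⟩
  have hcomm : ∀ K : Finset T, nb G (nb G K p) o = nb G (nb G K o) p := by
    intro K
    ext w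
    rw [GE6_nb, GE6_nb, GE6_nb, GE6_nb]
    tauto
  have hpo : p ∈ nb G O o := GE6_nb.mpr ⟨hp, hop⟩
  have hop' : o ∈ nb G O p := GE6_nb.mpr ⟨ho, hop.symm⟩
  have S1 := Sep.link_of (hl o ho) (hsub o) hpo (hex2 o ho p hpo)
  have S2 := Sep.link_of (hl p hp) (hsub p) hop' (hex2 p hp o hop')
  rw [hcomm K, hcomm O] at S2
  have hmo : ∀ w ∈ K \ O, G.Adj o w → G.Adj p w → ∀ i : ZMod 2,
      (w ∈ nb G ((nb G K o \ O).filter (fun w => l o w = i)) p ↔ l o w = i) := by
    intro w hw h1 h2 i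
    rw [Finset.mem_sdiff] at hw
    rw [GE6_nb, Finset.mem_filter, Finset.mem_sdiff, GE6_nb]
    constructor
    · rintro ⟨⟨-, h3⟩, -⟩
      exact h3
    · intro h3
      exact ⟨⟨⟨⟨hw.1, h1⟩, hw.2⟩, h3⟩, h2⟩
  have hmp : ∀ w ∈ K \ O, G.Adj o w → G.Adj p w → ∀ i : ZMod 2,
      (w ∈ nb G ((nb G K p \ O).filter (fun w => l p w = i)) o ↔ l p w = i) := by
    intro w hw h1 h2 i
    rw [Finset.mem_sdiff] at hw
    rw [GE6_nb, Finset.mem_filter, Finset.mem_sdiff, GE6_nb]
    constructor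
    · rintro ⟨⟨-, h3⟩, -⟩
      exact h3
    · intro h3
      exact ⟨⟨⟨⟨hw.1, h2⟩, hw.2⟩, h3⟩, h1⟩
  rcases S1.comp S2.compU with hc | hc
  · refine ⟨0, fun w hw h1 h2 => ?_⟩
    have h3 := hmo w hw h1 h2 0
    have h4 := hmp w hw h1 h2 0
    rw [hc, h3] at h4
    rcases GE6_two (l o w) with h5 | h5
    · rw [h5, h4.mp h5]
      decide
    · rcases GE6_two (l p w) with h6 | h6
      · exact absurd ((h4.mpr h6).symm.trans h5) zero_ne_one
      · rw [h5, h6]
        decide
  · refine ⟨1, fun w hw h1 h2 => ?_⟩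
    have h3 := hmo w hw h1 h2 1
    have h4 := hmp w hw h1 h2 0
    rw [hc, h3] at h4
    rcases GE6_two (l o w) with h5 | h5
    · rcases GE6_two (l p w) with h6 | h6
      · exact absurd (h5.symm.trans (h4.mpr h6)) zero_ne_one
      · rw [h5, h6]
        decide
    · rw [h5, h4.mp h5]
      decide

end Pool.Agent.LibFlagPL

end

section

namespace Pool.Agent.LibFlagPL

open Finset

set_option linter.unusedSectionVars false

variable {T : Type} [Fintype T] [DecidableEq T]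

private theorem GH3_a : ∀ a b c d e : ZMod 2, a + b + c = 0 → d + b + e = 0 → e + c = d + a := by
  decide

private theorem GH3_b : ∀ a b : ZMod 2, a = a + b + b := by decide

private theorem GH3_c : ∀ a b : ZMod 2, a = b + (a + b) := by decide

private theorem GH3_d : ∀ a b c : ZMod 2, a + b + c = 0 → b = a + c := by decide

theorem DIA.H1 {G : SimpleGraph T} {k : ℕ} {O : Finset T} (h : DIA G O (k + 3))
    {z : T → T → ZMod 2} (hz : Coc G O z) :
    ∃ w : T → ZMod 2, ∀ s ∈ O, ∀ t ∈ O, G.Adj s t → z s t = w s + w t := by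
  obtain ⟨o, ho⟩ : O.Nonempty := by
    rw [← Finset.card_pos, h.1]
    omega
  obtain ⟨hN, o', ho', hne, hna, hO, hadj⟩ := DIA.link (k := k + 2) h ho
  have hconn : Conn G (nb G O o) := (DIA.zc (k := k + 1) hN).conn
  obtain ⟨t0, ht0⟩ := hconn.1
  have hclaim : ∀ t ∈ nb G O o, z o' t + z o t = z o' t0 + z o t0 := by
    intro t ht
    have hpath := hconn.2 t0 ht0 t ht
    clear ht
    induction hpath with
    | refl => rfl
    | @tail p q _ hpq ih =>
      have hp := mem_nb.1 hpq.1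
      have hq := mem_nb.1 hpq.2.1
      rw [← ih]
      exact GH3_a _ _ _ _ _ (hz.tri o ho p hp.1 q hq.1 hp.2 hpq.2.2 hq.2)
        (hz.tri o' ho' p hp.1 q hq.1 (hadj p hpq.1) hpq.2.2 (hadj q hpq.2.1))
  have hNo : ∀ t ∈ nb G O o, t ≠ o ∧ t ≠ o' := by
    intro t ht
    have h1 := (mem_nb.1 ht).2
    refine ⟨h1.ne.symm, ?_⟩
    rintro rfl
    exact hna h1
  refine ⟨fun x => if x = o then 0 else if x = o' then z o' t0 + z o t0 else z o x, ?_⟩
  have hwo : (fun x => if x = o then 0 else if x = o' then z o' t0 + z o t0 else z o x) o =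
      (0 : ZMod 2) := if_pos rfl
  have hwo' : (fun x => if x = o then 0 else if x = o' then z o' t0 + z o t0 else z o x) o' =
      z o' t0 + z o t0 := by
    simp only [if_neg hne, if_true]
  have hwN : ∀ t ∈ nb G O o,
      (fun x => if x = o then 0 else if x = o' then z o' t0 + z o t0 else z o x) t = z o t := by
    intro t ht
    have h1 := hNo t ht
    simp only [if_neg h1.1, if_neg h1.2]
  have hmem : ∀ s ∈ O, s = o ∨ s = o' ∨ s ∈ nb G O o := by
    intro s hs
    rw [hO, Finset.mem_insert, Finset.mem_insert] at hs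
    exact hs
  intro s hs t ht hst
  rcases hmem s hs with rfl | rfl | hsN
  · rcases hmem t ht with rfl | rfl | htN
    · exact absurd rfl hst.ne
    · exact absurd hst hna
    · rw [hwo, hwN t htN, zero_add]
  · rcases hmem t ht with rfl | rfl | htN
    · exact absurd hst.symm hna
    · exact absurd rfl hst.ne
    · rw [hwo', hwN t htN, ← hclaim t htN]
      exact GH3_b _ _
  · rcases hmem t ht with rfl | rfl | htN
    · rw [hwN s hsN, hwo, add_zero]
      exact hz.symm _ _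
    · rw [hwN s hsN, hwo', ← hclaim s hsN, hz.symm]
      exact GH3_c _ _
    · rw [hwN s hsN, hwN t htN]
      have h1 := mem_nb.1 hsN
      have h2 := mem_nb.1 htN
      exact GH3_d _ _ _ (hz.tri o ho s hs t ht h1.2 hst h2.2)

end Pool.Agent.LibFlagPL

end

section

namespace Pool.Agent.LibFlagPL

open Finset

set_option linter.unusedSectionVars false

variable {T : Type} [Fintype T] [DecidableEq T]

private theorem GE7_nb {G : SimpleGraph T} {K : Finset T} {o w : T} :
    w ∈ nb G K o ↔ w ∈ K ∧ G.Adj o w := by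
  classical
  unfold nb
  rw [Finset.mem_filter]

private theorem GE7_two (a : ZMod 2) : a = 0 ∨ a = 1 := by
  revert a
  decide

private theorem GE7_sum3 (a b c : ZMod 2) : (a + b) + (b + c) + (a + c) = 0 := by
  revert a b c
  decide

private theorem GE7_fin (a b c d e : ZMod 2) (h1 : a + b = e) (h2 : e = c + d) : a + c = b + d := by
  revert a b c d e
  decide

private theorem GE7_w {G : SimpleGraph T} {K O : Finset T} {l : T → T → ZMod 2}
    (hl : Lab G K O l) {o p : T} (ho : o ∈ O) (hp : p ∈ O) (hop : G.Adj o p) :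
    ∃ w ∈ K \ O, G.Adj o w ∧ G.Adj p w := by
  obtain ⟨w, hw⟩ := (hl o ho).touchU p (GE7_nb.mpr ⟨hp, hop⟩)
  rw [GE7_nb, Finset.mem_filter, Finset.mem_sdiff, GE7_nb] at hw
  obtain ⟨⟨⟨⟨h1, h2⟩, h3⟩, -⟩, h4⟩ := hw
  exact ⟨w, Finset.mem_sdiff.mpr ⟨h1, h3⟩, h2, h4⟩

theorem lab_consistent {G : SimpleGraph T} {r : ℕ} {K O : Finset T} (hO : O ⊆ K)
    (hd : DIA G O (r + 3))
    (hex1 : ∀ o ∈ O, ∃ U V, Sep G (nb G K o) (nb G O o) U V)
    (hex2 : ∀ o ∈ O, ∀ p ∈ nb G O o,
      ∃ U V, Sep G (nb G (nb G K o) p) (nb G (nb G O o) p) U V) :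
    ∃ l : T → T → ZMod 2, Lab G K O l ∧ ∀ o ∈ O, ∀ p ∈ O, G.Adj o p →
      ∀ w ∈ K \ O, G.Adj o w → G.Adj p w → l o w = l p w := by
  classical
  obtain ⟨l, hl⟩ := lab_exists hO hex1
  have hex : ∀ o p, ∃ c : ZMod 2, (o ∈ O → p ∈ O → G.Adj o p →
      ∀ w ∈ K \ O, G.Adj o w → G.Adj p w → l o w + l p w = c) ∧
      (¬ (o ∈ O ∧ p ∈ O ∧ G.Adj o p) → c = 0) := by
    intro o p
    by_cases h : o ∈ O ∧ p ∈ O ∧ G.Adj o p
    · obtain ⟨c, hc⟩ := lab_pair hO hl hex2 h.1 h.2.1 h.2.2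
      exact ⟨c, fun _ _ _ => hc, fun h' => absurd h h'⟩
    · exact ⟨0, fun h1 h2 h3 => absurd ⟨h1, h2, h3⟩ h, fun _ => rfl⟩
  choose z hz hz0 using hex
  have hcoc : Coc G O z := by
    refine ⟨?_, ?_⟩
    · intro s t
      by_cases h : s ∈ O ∧ t ∈ O ∧ G.Adj s t
      · obtain ⟨w, hw, h1, h2⟩ := GE7_w hl h.1 h.2.1 h.2.2
        rw [← hz s t h.1 h.2.1 h.2.2 w hw h1 h2, ← hz t s h.2.1 h.1 h.2.2.symm w hw h2 h1, add_comm]
      · rw [hz0 s t h, hz0 t s (fun h' => h ⟨h'.2.1, h'.1, h'.2.2.symm⟩)]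
    · intro s hs t ht u hu hst htu hsu
      have hsub : nb G O s ⊆ nb G K s := by
        intro w hw
        rw [GE7_nb] at hw ⊢
        exact ⟨hO hw.1, hw.2⟩
      have htn : t ∈ nb G O s := GE7_nb.mpr ⟨ht, hst⟩
      have S1 := Sep.link_of (hl s hs) hsub htn (hex2 s hs t htn)
      obtain ⟨w, hw⟩ := S1.touchU u (GE7_nb.mpr ⟨GE7_nb.mpr ⟨hu, hsu⟩, htu⟩)
      rw [GE7_nb, GE7_nb, Finset.mem_filter, Finset.mem_sdiff, GE7_nb] at hw
      obtain ⟨⟨⟨⟨⟨h1, h2⟩, h3⟩, -⟩, h4⟩, h5⟩ := hw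
      have hw' : w ∈ K \ O := Finset.mem_sdiff.mpr ⟨h1, h3⟩
      rw [← hz s t hs ht hst w hw' h2 h4, ← hz t u ht hu htu w hw' h4 h5,
        ← hz s u hs hu hsu w hw' h2 h5]
      exact GE7_sum3 _ _ _
  obtain ⟨ψ, hψ⟩ := DIA.H1 hd hcoc
  refine ⟨fun o w => l o w + ψ o, ?_, ?_⟩
  · intro o ho
    rcases GE7_two (ψ o) with h0 | h1
    · have := hl o ho
      simpa only [h0, add_zero] using this
    · have h2 := (hl o ho).symm
      have e1 : (nb G K o \ O).filter (fun w => l o w + ψ o = 0) =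
          (nb G K o \ O).filter (fun w => l o w = 1) := by
        refine Finset.filter_congr fun w _ => ?_
        rw [h1]
        rcases GE7_two (l o w) with h3 | h3 <;> rw [h3] <;> decide
      have e2 : (nb G K o \ O).filter (fun w => l o w + ψ o = 1) =
          (nb G K o \ O).filter (fun w => l o w = 0) := by
        refine Finset.filter_congr fun w _ => ?_
        rw [h1]
        rcases GE7_two (l o w) with h3 | h3 <;> rw [h3] <;> decide
      show Sep G (nb G K o) (nb G O o) ((nb G K o \ O).filter (fun w => l o w + ψ o = 0))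
        ((nb G K o \ O).filter (fun w => l o w + ψ o = 1))
      rw [e1, e2]
      exact h2
  · intro o ho p hp hop w hw h1 h2
    exact GE7_fin _ _ _ _ _ (hz o p ho hp hop w hw h1 h2) (hψ o ho p hp hop)

end Pool.Agent.LibFlagPL

end

section

namespace Pool.Agent.LibFlagPL

open Finset

set_option linter.unusedSectionVars false

variable {T : Type} [Fintype T] [DecidableEq T]

theorem Emb.faces_card {T' : Type} [Fintype T'] [DecidableEq T'] {G : SimpleGraph T}
    {S : Finset T} {G' : SimpleGraph T'} {φ : T → T'} (h : Emb G S G' φ) (j : ℕ) :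
    (LibFlagPL.faces G' (S.image φ) j).card = (LibFlagPL.faces G S j).card := by
  refine (Finset.card_bij (fun σ _ => σ.image φ) ?_ ?_ ?_).symm
  · intro σ hσ
    obtain ⟨h1, h2, h3⟩ := mem_faces.1 hσ
    refine mem_faces.2 ⟨Finset.image_subset_image h1, ?_, ?_⟩
    · intro s hs t ht hst
      obtain ⟨s', hs', rfl⟩ := Finset.mem_image.1 hs
      obtain ⟨t', ht', rfl⟩ := Finset.mem_image.1 ht
      have h4 : s' ≠ t' := fun h5 => hst (by rw [h5])
      exact (h.2 s' (h1 hs') t' (h1 ht')).2 (h2 s' hs' t' ht' h4)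
    · rw [Finset.card_image_of_injOn, h3]
      intro s hs t ht hst
      exact h.1 s (h1 hs) t (h1 ht) hst
  · intro σ hσ τ hτ hst
    obtain ⟨h1, -, -⟩ := mem_faces.1 hσ
    obtain ⟨h2, -, -⟩ := mem_faces.1 hτ
    ext x
    constructor
    · intro hx
      have h3 : φ x ∈ τ.image φ := by
        rw [← hst]
        exact Finset.mem_image_of_mem φ hx
      obtain ⟨y, hy, hyx⟩ := Finset.mem_image.1 h3
      rw [← h.1 y (h2 hy) x (h1 hx) hyx]
      exact hy
    · intro hx
      have h3 : φ x ∈ σ.image φ := by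
        rw [hst]
        exact Finset.mem_image_of_mem φ hx
      obtain ⟨y, hy, hyx⟩ := Finset.mem_image.1 h3
      rw [← h.1 y (h1 hy) x (h2 hx) hyx]
      exact hy
  · intro τ hτ
    obtain ⟨h1, h2, h3⟩ := mem_faces.1 hτ
    have himg : (S.filter fun s => φ s ∈ τ).image φ = τ := by
      ext x
      rw [Finset.mem_image]
      constructor
      · rintro ⟨y, hy, rfl⟩
        exact (Finset.mem_filter.1 hy).2
      · intro hx
        obtain ⟨y, hy, rfl⟩ := Finset.mem_image.1 (h1 hx)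
        exact ⟨y, Finset.mem_filter.2 ⟨hy, hx⟩, rfl⟩
    refine ⟨S.filter fun s => φ s ∈ τ, mem_faces.2 ⟨Finset.filter_subset _ _, ?_, ?_⟩, himg⟩
    · intro s hs t ht hst
      rw [Finset.mem_filter] at hs ht
      exact (h.2 s hs.1 t ht.1).1 (h2 _ hs.2 _ ht.2 fun h5 => hst (h.1 s hs.1 t ht.1 h5))
    · rw [← h3]
      conv_rhs => rw [← himg]
      rw [Finset.card_image_of_injOn]
      intro s hs t ht hst
      rw [Finset.mem_coe, Finset.mem_filter] at hs ht
      exact h.1 s hs.1 t ht.1 hst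

theorem dbl_faces {G : SimpleGraph T} {S : Finset T} {z : T → T → ZMod 2} (hz : Coc G S z)
    (j : ℕ) : (faces (dbl G z) (S ×ˢ univ) (j + 1)).card = 2 * (faces G S (j + 1)).card := by
  have h1 : ∑ a ∈ S ×ˢ (univ : Finset (ZMod 2)),
      (faces (dbl G z) (nb (dbl G z) (S ×ˢ univ) a) j).card =
      (j + 1) * (faces (dbl G z) (S ×ˢ univ) (j + 1)).card := sum_faces_nb j
  have h2 : ∑ s ∈ S, (faces G (nb G S s) j).card = (j + 1) * (faces G S (j + 1)).card :=
    sum_faces_nb j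
  have h3 : ∑ a ∈ S ×ˢ (univ : Finset (ZMod 2)),
      (faces (dbl G z) (nb (dbl G z) (S ×ˢ univ) a) j).card =
      2 * ∑ s ∈ S, (faces G (nb G S s) j).card := by
    rw [Finset.sum_product, Finset.mul_sum]
    refine Finset.sum_congr rfl fun v hv => ?_
    have h4 : ∀ i ∈ (univ : Finset (ZMod 2)),
        (faces (dbl G z) (nb (dbl G z) (S ×ˢ univ) (v, i)) j).card =
          (faces G (nb G S v) j).card := by
      intro i _
      rw [dbl_nb hz hv i]
      exact (dbl_emb hz hv i).faces_card j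
    rw [Finset.sum_congr rfl h4, Finset.sum_const, Finset.card_univ, ZMod.card, smul_eq_mul]
  rw [h3, h2] at h1
  have h5 : (j + 1) * (faces (dbl G z) (S ×ˢ univ) (j + 1)).card =
      (j + 1) * (2 * (faces G S (j + 1)).card) := by
    rw [← h1]
    ring
  exact Nat.eq_of_mul_eq_mul_left (Nat.succ_pos j) h5

theorem dbl_chi {G : SimpleGraph T} {S : Finset T} {z : T → T → ZMod 2} (hz : Coc G S z) :
    chi (dbl G z) (S ×ˢ univ) = 2 * chi G S - 1 := by
  have h1 := chi_eq_sum (G := dbl G z) (S := S ×ˢ (univ : Finset (ZMod 2)))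
    (m := (S ×ˢ (univ : Finset (ZMod 2))).card) (fun σ hσ _ => Finset.card_le_card hσ)
  have h2 := chi_eq_sum (G := G) (S := S)
    (m := (S ×ˢ (univ : Finset (ZMod 2))).card) (fun σ hσ _ => by
      refine (Finset.card_le_card hσ).trans ?_
      rw [Finset.card_product, Finset.card_univ, ZMod.card]
      omega)
  rw [Finset.sum_range_succ', faces_zero, Finset.card_singleton] at h1 h2
  rw [h1, h2]
  have h3 : ∀ j ∈ range (S ×ˢ (univ : Finset (ZMod 2))).card,
      ((faces (dbl G z) (S ×ˢ univ) (j + 1)).card : ℚ) * (-1 / 2) ^ (j + 1) =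
        2 * (((faces G S (j + 1)).card : ℚ) * (-1 / 2) ^ (j + 1)) := by
    intro j _
    rw [dbl_faces hz j]
    push_cast
    ring
  rw [Finset.sum_congr rfl h3, ← Finset.mul_sum]
  push_cast
  ring

theorem dbl_link {G : SimpleGraph T} {S : Finset T} {z : T → T → ZMod 2} (hz : Coc G S z)
    {m : ℕ} (h : ∀ s ∈ S, Zc G m (nb G S s)) :
    ∀ a ∈ S ×ˢ (univ : Finset (ZMod 2)), Zc (dbl G z) m (nb (dbl G z) (S ×ˢ univ) a) := by
  rintro ⟨v, i⟩ hvi
  have hv : v ∈ S := (Finset.mem_product.1 hvi).1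
  rw [dbl_nb hz hv i]
  exact (dbl_emb hz hv i).zc (h v hv)

end Pool.Agent.LibFlagPL

end

section

namespace Pool.Agent.LibFlagPL

open Finset

set_option linter.unusedSectionVars false

variable {T : Type} [Fintype T] [DecidableEq T]

theorem gH1 (hD : DHypG) {G : SimpleGraph T} {m : ℕ} {S : Finset T} (h : Zc G (m + 2) S)
    {z : T → T → ZMod 2} (hz : Coc G S z) :
    ∃ w : T → ZMod 2, ∀ s ∈ S, ∀ t ∈ S, G.Adj s t → z s t = w s + w t := by
  by_contra hn
  have hconn : Conn (dbl G z) (S ×ˢ (univ : Finset (ZMod 2))) :=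
    dbl_conn hz (Zc.conn (m := m + 1) h) hn
  cases m with
  | zero =>
    have hF : F2 G S := h
    have hl : ∀ s ∈ S, Zc G 1 (nb G S s) := hF.2.1
    have hW : W2 (dbl G z) (S ×ˢ (univ : Finset (ZMod 2))) := ⟨hconn, dbl_link hz hl⟩
    have h1 := w2_ineq hW
    have h2 : ∑ a ∈ S ×ˢ (univ : Finset (ZMod 2)),
        (faces (dbl G z) (nb (dbl G z) (S ×ˢ univ) a) 1).card
        = (1 + 1) * (faces (dbl G z) (S ×ˢ (univ : Finset (ZMod 2))) (1 + 1)).card := sum_faces_nb 1
    have h3 : ∑ a ∈ S ×ˢ (univ : Finset (ZMod 2)),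
        (faces (dbl G z) (nb (dbl G z) (S ×ˢ univ) a) 1).card
        = ∑ a ∈ S ×ˢ (univ : Finset (ZMod 2)), (nb (dbl G z) (S ×ˢ univ) a).card :=
      Finset.sum_congr rfl fun s _ => card_faces_one
    have h4 : ∑ s ∈ S, (faces G (nb G S s) 1).card = (1 + 1) * (faces G S (1 + 1)).card :=
      sum_faces_nb 1
    have h5 : ∑ s ∈ S, (faces G (nb G S s) 1).card = ∑ s ∈ S, (nb G S s).card :=
      Finset.sum_congr rfl fun s _ => card_faces_one
    have h6 := dbl_faces hz 1
    have h7 := hF.2.2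
    have h8 : (S ×ˢ (univ : Finset (ZMod 2))).card = S.card * 2 := by
      rw [Finset.card_product, Finset.card_univ, ZMod.card]
    rw [h8] at h1
    omega
  | succ m =>
    have hF : Conn G S ∧ (∀ s ∈ S, Zc G (m + 2) (nb G S s)) ∧ chi G S = 0 := h
    have h1 := hD m (T × ZMod 2) (dbl G z) (S ×ˢ (univ : Finset (ZMod 2))) hconn
      (dbl_link hz hF.2.1)
    rw [dbl_chi hz, hF.2.2] at h1
    norm_num at h1

end Pool.Agent.LibFlagPL

end

section

namespace Pool.Agent.LibFlagPL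

open Finset

set_option linter.unusedSectionVars false

variable {T : Type} [Fintype T] [DecidableEq T]

private theorem GE8_zero : ∀ a b : ZMod 2, a + b = 0 → a = b := by decide

private theorem GE8_eq0 : ∀ a b : ZMod 2, b = a ↔ a + b = 0 := by decide

private theorem GE8_eq1 : ∀ a b : ZMod 2, ¬ b = a ↔ a + b = 1 := by decide

private theorem GE8_two : ∀ a : ZMod 2, a + a = 0 := by decide

private theorem GE8_cases : ∀ a b : ZMod 2, a = b ∨ (a = 0 ∧ b = 1) ∨ (a = 1 ∧ b = 0) := by decide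

open scoped Classical in
private noncomputable def GE8_z (G : SimpleGraph T) (O : Finset T) (l : T → T → ZMod 2)
    (s t : T) : ZMod 2 :=
  if s ∈ O ∧ t ∉ O ∧ G.Adj s t then l s t
  else if t ∈ O ∧ s ∉ O ∧ G.Adj s t then l t s else 0

private theorem GE8_z1 {G : SimpleGraph T} {O : Finset T} {l : T → T → ZMod 2} {s t : T}
    (hs : s ∈ O) (ht : t ∉ O) (h : G.Adj s t) : GE8_z G O l s t = l s t := by
  unfold GE8_z
  rw [if_pos ⟨hs, ht, h⟩]

private theorem GE8_z2 {G : SimpleGraph T} {O : Finset T} {l : T → T → ZMod 2} {s t : T}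
    (hs : s ∉ O) (ht : t ∈ O) (h : G.Adj s t) : GE8_z G O l s t = l t s := by
  unfold GE8_z
  rw [if_neg (fun h1 => hs h1.1), if_pos ⟨ht, hs, h⟩]

private theorem GE8_z3 {G : SimpleGraph T} {O : Finset T} {l : T → T → ZMod 2} {s t : T}
    (hs : s ∈ O) (ht : t ∈ O) : GE8_z G O l s t = 0 := by
  unfold GE8_z
  rw [if_neg (fun h1 => h1.2.1 ht), if_neg (fun h1 => h1.2.1 hs)]

private theorem GE8_z4 {G : SimpleGraph T} {O : Finset T} {l : T → T → ZMod 2} {s t : T}
    (hs : s ∉ O) (ht : t ∉ O) : GE8_z G O l s t = 0 := by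
  unfold GE8_z
  rw [if_neg (fun h1 => hs h1.1), if_neg (fun h1 => ht h1.1)]

private theorem GE8_z5 {G : SimpleGraph T} {O : Finset T} {l : T → T → ZMod 2} {s t : T}
    (h : ¬ G.Adj s t) : GE8_z G O l s t = 0 := by
  unfold GE8_z
  rw [if_neg (fun h1 => h h1.2.2), if_neg (fun h1 => h h1.2.2)]

private theorem GE8_symm {G : SimpleGraph T} {O : Finset T} {l : T → T → ZMod 2} (s t : T) :
    GE8_z G O l s t = GE8_z G O l t s := by
  by_cases h : G.Adj s t
  · by_cases hs : s ∈ O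
    · by_cases ht : t ∈ O
      · rw [GE8_z3 hs ht, GE8_z3 ht hs]
      · rw [GE8_z1 hs ht h, GE8_z2 ht hs h.symm]
    · by_cases ht : t ∈ O
      · rw [GE8_z2 hs ht h, GE8_z1 ht hs h.symm]
      · rw [GE8_z4 hs ht, GE8_z4 ht hs]
  · rw [GE8_z5 h, GE8_z5 (fun h1 => h h1.symm)]

theorem parts_of_labels (hD : DHypG) {G : SimpleGraph T} {r : ℕ} {K O : Finset T}
    (hK : Zc G (r + 3) K) (hO : O ⊆ K) (hd : DIA G O (r + 3)) {l : T → T → ZMod 2}
    (hl : Lab G K O l)
    (hc : ∀ o ∈ O, ∀ p ∈ O, G.Adj o p → ∀ w ∈ K \ O, G.Adj o w → G.Adj p w → l o w = l p w) :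
    ∃ P Q : Finset T, Disjoint P Q ∧ P ∪ Q = K \ O ∧ (∀ p ∈ P, ∀ q ∈ Q, ¬ G.Adj p q) ∧
      ∀ o ∈ O, Sep G (nb G K o) (nb G O o) (nb G P o) (nb G Q o) := by
  classical
  have hA : ∀ o ∈ O, ∀ w ∈ K, ∀ w' ∈ K, w ∉ O → w' ∉ O → G.Adj o w → G.Adj o w' →
      G.Adj w w' → l o w = l o w' := by
    intro o ho w hw w' hw' hwO hwO' how how' hww
    rcases GE8_cases (l o w) (l o w') with h | ⟨h1, h2⟩ | ⟨h1, h2⟩
    · exact h
    · exfalso
      refine (hl o ho).no_edge w ?_ w' ?_ hww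
      · exact Finset.mem_filter.2 ⟨Finset.mem_sdiff.2 ⟨mem_nb.2 ⟨hw, how⟩, hwO⟩, h1⟩
      · exact Finset.mem_filter.2 ⟨Finset.mem_sdiff.2 ⟨mem_nb.2 ⟨hw', how'⟩, hwO'⟩, h2⟩
    · exfalso
      refine (hl o ho).no_edge w' ?_ w ?_ hww.symm
      · exact Finset.mem_filter.2 ⟨Finset.mem_sdiff.2 ⟨mem_nb.2 ⟨hw', how'⟩, hwO'⟩, h2⟩
      · exact Finset.mem_filter.2 ⟨Finset.mem_sdiff.2 ⟨mem_nb.2 ⟨hw, how⟩, hwO⟩, h1⟩
  have hcoc : Coc G K (GE8_z G O l) := by
    refine ⟨GE8_symm, ?_⟩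
    intro s hs t ht u hu hst htu hsu
    by_cases h1 : s ∈ O
    · by_cases h2 : t ∈ O
      · by_cases h3 : u ∈ O
        · rw [GE8_z3 h1 h2, GE8_z3 h2 h3, GE8_z3 h1 h3]
          rfl
        · rw [GE8_z3 h1 h2, GE8_z1 h2 h3 htu, GE8_z1 h1 h3 hsu,
            hc s h1 t h2 hst u (Finset.mem_sdiff.2 ⟨hu, h3⟩) hsu htu, zero_add]
          exact GE8_two _
      · by_cases h3 : u ∈ O
        · rw [GE8_z1 h1 h2 hst, GE8_z2 h2 h3 htu, GE8_z3 h1 h3,
            hc s h1 u h3 hsu t (Finset.mem_sdiff.2 ⟨ht, h2⟩) hst htu.symm, add_zero]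
          exact GE8_two _
        · rw [GE8_z1 h1 h2 hst, GE8_z4 h2 h3, GE8_z1 h1 h3 hsu,
            hA s h1 t ht u hu h2 h3 hst hsu htu, add_zero]
          exact GE8_two _
    · by_cases h2 : t ∈ O
      · by_cases h3 : u ∈ O
        · rw [GE8_z2 h1 h2 hst, GE8_z3 h2 h3, GE8_z2 h1 h3 hsu,
            hc t h2 u h3 htu s (Finset.mem_sdiff.2 ⟨hs, h1⟩) hst.symm hsu.symm, add_zero]
          exact GE8_two _
        · rw [GE8_z2 h1 h2 hst, GE8_z1 h2 h3 htu, GE8_z4 h1 h3,
            hA t h2 s hs u hu h1 h3 hst.symm htu hsu, add_zero]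
          exact GE8_two _
      · by_cases h3 : u ∈ O
        · rw [GE8_z4 h1 h2, GE8_z2 h2 h3 htu, GE8_z2 h1 h3 hsu,
            hA u h3 t ht s hs h2 h1 htu.symm hsu.symm hst.symm, zero_add]
          exact GE8_two _
        · rw [GE8_z4 h1 h2, GE8_z4 h2 h3, GE8_z4 h1 h3]
          rfl
  obtain ⟨w, hw⟩ := gH1 hD (m := r + 1) hK hcoc
  have hconn : Conn G O := (DIA.zc (k := r + 2) hd).conn
  obtain ⟨o₀, ho₀⟩ := hconn.1
  have hconst : ∀ o ∈ O, w o = w o₀ := by
    intro o ho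
    have key : ∀ y, Relation.ReflTransGen (fun a b => a ∈ O ∧ b ∈ O ∧ G.Adj a b) o₀ y →
        w y = w o₀ := by
      intro y hy
      induction hy with
      | refl => rfl
      | tail _ hst ih =>
        obtain ⟨ha, hb, hab⟩ := hst
        have h1 := hw _ (hO ha) _ (hO hb) hab
        rw [GE8_z3 ha hb] at h1
        rw [← ih]
        exact (GE8_zero _ _ h1.symm).symm
    exact key o (hconn.2 o₀ ho₀ o ho)
  refine ⟨(K \ O).filter (fun t => w t = w o₀), (K \ O).filter (fun t => ¬ w t = w o₀),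
    ?_, ?_, ?_, ?_⟩
  · rw [Finset.disjoint_left]
    intro t h1 h2
    exact (Finset.mem_filter.1 h2).2 (Finset.mem_filter.1 h1).2
  · ext t
    rw [Finset.mem_union, Finset.mem_filter, Finset.mem_filter]
    constructor
    · rintro (h | h)
      · exact h.1
      · exact h.1
    · intro h
      by_cases h1 : w t = w o₀
      · exact Or.inl ⟨h, h1⟩
      · exact Or.inr ⟨h, h1⟩
  · intro p hp q hq hpq
    obtain ⟨hp1, hp2⟩ := Finset.mem_filter.1 hp
    obtain ⟨hq1, hq2⟩ := Finset.mem_filter.1 hq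
    have hp3 := Finset.mem_sdiff.1 hp1
    have hq3 := Finset.mem_sdiff.1 hq1
    have h1 := hw p hp3.1 q hq3.1 hpq
    rw [GE8_z4 hp3.2 hq3.2] at h1
    exact hq2 ((GE8_zero _ _ h1.symm).symm.trans hp2)
  · intro o ho
    have hval : ∀ t ∈ K, t ∉ O → G.Adj o t → l o t = w o₀ + w t := by
      intro t ht htO hot
      have h1 := hw o (hO ho) t ht hot
      rw [GE8_z1 ho htO hot, hconst o ho] at h1
      exact h1
    have eP : nb G ((K \ O).filter (fun t => w t = w o₀)) o =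
        (nb G K o \ O).filter (fun t => l o t = 0) := by
      ext t
      simp only [mem_nb, Finset.mem_filter, Finset.mem_sdiff]
      constructor
      · rintro ⟨⟨⟨h1, h2⟩, h3⟩, h4⟩
        refine ⟨⟨⟨h1, h4⟩, h2⟩, ?_⟩
        rw [hval t h1 h2 h4]
        exact (GE8_eq0 _ _).1 h3
      · rintro ⟨⟨⟨h1, h4⟩, h2⟩, h3⟩
        refine ⟨⟨⟨h1, h2⟩, ?_⟩, h4⟩
        rw [hval t h1 h2 h4] at h3
        exact (GE8_eq0 _ _).2 h3
    have eQ : nb G ((K \ O).filter (fun t => ¬ w t = w o₀)) o =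
        (nb G K o \ O).filter (fun t => l o t = 1) := by
      ext t
      simp only [mem_nb, Finset.mem_filter, Finset.mem_sdiff]
      constructor
      · rintro ⟨⟨⟨h1, h2⟩, h3⟩, h4⟩
        refine ⟨⟨⟨h1, h4⟩, h2⟩, ?_⟩
        rw [hval t h1 h2 h4]
        exact (GE8_eq1 _ _).1 h3
      · rintro ⟨⟨⟨h1, h4⟩, h2⟩, h3⟩
        refine ⟨⟨⟨h1, h2⟩, ?_⟩, h4⟩
        rw [hval t h1 h2 h4] at h3
        exact (GE8_eq1 _ _).2 h3
    rw [eP, eQ]
    exact hl o ho

end Pool.Agent.LibFlagPL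

end

section

namespace Pool.Agent.LibFlagPL

open Finset

set_option linter.unusedSectionVars false

variable {T : Type} [Fintype T] [DecidableEq T]

private theorem GE9_mem {G : SimpleGraph T} {S : Finset T} {y t : T} : t ∈ nb G S y ↔ t ∈ S ∧ G.Adj y t := by
  classical
  unfold nb
  exact Finset.mem_filter

private theorem GE9_face {G : SimpleGraph T} {S σ : Finset T} {j : ℕ} :
    σ ∈ faces G S j ↔ σ ⊆ S ∧ Cl G σ ∧ σ.card = j := by
  classical
  unfold faces
  refine Finset.mem_filter.trans ?_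
  rw [Finset.mem_powerset]

private theorem GE9_mono {G : SimpleGraph T} {S S' : Finset T} (h : S ⊆ S') (y : T) : nb G S y ⊆ nb G S' y := by
  intro t ht
  rw [GE9_mem] at ht ⊢
  exact ⟨h ht.1, ht.2⟩

theorem sep_exists (hD : DHypG) {G : SimpleGraph T} {r : ℕ} {K O : Finset T}
    (hK : Zc G (r + 1) K) (hO : O ⊆ K) (hd : DIA G O (r + 1)) : ∃ U V, Sep G K O U V := by
  induction r using Nat.strong_induction_on generalizing K O with
  | _ r ih =>
    rcases r with _ | _ | s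
    · exact sep_one hK hO hd
    · exact sep_two hK hO hd
    · have hex1 : ∀ o ∈ O, ∃ U V, Sep G (nb G K o) (nb G O o) U V := fun o ho =>
        ih (s + 1) (by omega) (Zc.link hK (hO ho)) (GE9_mono hO o) (DIA.link hd ho).1
      have hex2 : ∀ o ∈ O, ∀ p ∈ nb G O o,
          ∃ U V, Sep G (nb G (nb G K o) p) (nb G (nb G O o) p) U V := by
        intro o ho p hp
        have h1 := Zc.link hK (hO ho)
        have h2 := (DIA.link hd ho).1
        exact ih s (by omega) (Zc.link h1 (GE9_mono hO o hp)) (GE9_mono (GE9_mono hO o) p)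
          (DIA.link h2 hp).1
      obtain ⟨l, hl, hc⟩ := lab_consistent (r := s) hO hd hex1 hex2
      obtain ⟨P, Q, h1, h2, h3, h4⟩ := parts_of_labels hD (r := s) hK hO hd hl hc
      exact ⟨P, Q, sep_of_links (r := s + 1) hK hO hd h1 h2 h3 h4⟩

theorem Sep.link (hD : DHypG) {G : SimpleGraph T} {r : ℕ} {K O U V : Finset T}
    (hK : Zc G (r + 2) K) (hO : O ⊆ K) (hd : DIA G O (r + 2)) (hS : Sep G K O U V) {o : T}
    (ho : o ∈ O) : Sep G (nb G K o) (nb G O o) (nb G U o) (nb G V o) :=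
  hS.link_of hO ho (sep_exists hD (r := r) (Zc.link hK (hO ho)) (GE9_mono hO o) (DIA.link hd ho).1)

private theorem GE9_left (hD : DHypG) {G : SimpleGraph T} {r : ℕ} {K O U V : Finset T}
    (hK : Zc G (r + 1) K) (hO : O ⊆ K) (hd : DIA G O (r + 1)) (hS : Sep G K O U V) :
    ∀ σ ∈ faces G O (r + 1), ∃ p ∈ U, ∀ s ∈ σ, G.Adj p s := by
  induction r generalizing K O U V with
  | zero =>
    intro σ hσ
    rw [GE9_face] at hσ
    obtain ⟨h1, -, h3⟩ := hσ
    obtain ⟨o, rfl⟩ := Finset.card_eq_one.1 h3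
    obtain ⟨p, hp⟩ := hS.touchU o (h1 (Finset.mem_singleton_self o))
    rw [GE9_mem] at hp
    refine ⟨p, hp.1, fun s hs => ?_⟩
    rw [Finset.mem_singleton.1 hs]
    exact hp.2.symm
  | succ r ih =>
    intro σ hσ
    rw [GE9_face] at hσ
    obtain ⟨h1, h2, h3⟩ := hσ
    have hne : σ.Nonempty := Finset.card_pos.1 (by omega)
    obtain ⟨o, ho⟩ := hne
    have h4 := Sep.link hD hK hO hd hS (h1 ho)
    have h5 : σ.erase o ∈ faces G (nb G O o) (r + 1) := by
      rw [GE9_face]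
      refine ⟨fun t ht => ?_, fun x hx y hy hxy => ?_, ?_⟩
      · rw [Finset.mem_erase] at ht
        rw [GE9_mem]
        exact ⟨h1 ht.2, h2 o ho t ht.2 ht.1.symm⟩
      · exact h2 x (Finset.mem_of_mem_erase hx) y (Finset.mem_of_mem_erase hy) hxy
      · rw [Finset.card_erase_of_mem ho]
        omega
    obtain ⟨p, hp, hps⟩ := ih (Zc.link hK (hO (h1 ho))) (GE9_mono hO o) (DIA.link hd (h1 ho)).1 h4 _ h5
    rw [GE9_mem] at hp
    refine ⟨p, hp.1, fun s hs => ?_⟩
    by_cases e : s = o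
    · rw [e]
      exact hp.2.symm
    · exact hps s (Finset.mem_erase.2 ⟨e, hs⟩)

theorem Sep.sides (hD : DHypG) {G : SimpleGraph T} {r : ℕ} {K O U V : Finset T}
    (hK : Zc G (r + 1) K) (hO : O ⊆ K) (hd : DIA G O (r + 1)) (hS : Sep G K O U V) :
    Sides G K O U V (r + 1) where
  disj := hS.disj
  union := hS.union
  sep := hS.no_edge
  left := GE9_left hD hK hO hd hS
  right := GE9_left hD hK hO hd hS.symm

end Pool.Agent.LibFlagPL

end
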