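import Pool.Agent.LibFlagPL.SurfA

/-!
# LibFlagPL.SurfB: contraction of good edges in flag 2-spheres
-/

section

namespace Pool.Agent.LibFlagPL

open Finset

set_option linter.unusedSectionVars false

variable {T : Type} [Fintype T] [DecidableEq T]

theorem circle_congr {G G' : SimpleGraph T} {C C' : Finset T} (f : T → T)
    (hf : ∀ a ∈ C, ∀ b ∈ C, f a = f b → a = b) (hC : C' = C.image f)
    (hadj : ∀ a ∈ C, ∀ b ∈ C, (G'.Adj (f a) (f b) ↔ G.Adj a b)) (h : Circle G C) :
    Circle G' C' := by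
  obtain ⟨h1, h2, h3, h4⟩ := h
  have hinj : Set.InjOn f (C : Set T) := fun a ha b hb hab => hf a ha b hb hab
  refine ⟨?_, ?_, ?_, ?_⟩
  · rw [hC, Finset.card_image_of_injOn hinj]
    exact h1
  · intro t ht
    rw [hC, Finset.mem_image] at ht
    obtain ⟨a, ha, rfl⟩ := ht
    have h5 : nb G' C' (f a) = (nb G C a).image f := by
      ext t
      rw [mem_nb, hC, Finset.mem_image, Finset.mem_image]
      constructor
      · rintro ⟨⟨b, hb, rfl⟩, h6⟩
        exact ⟨b, mem_nb.2 ⟨hb, (hadj a ha b hb).1 h6⟩, rfl⟩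
      · rintro ⟨b, hb, rfl⟩
        obtain ⟨hb1, hb2⟩ := mem_nb.1 hb
        exact ⟨⟨b, hb1, rfl⟩, (hadj a ha b hb1).2 hb2⟩
    rw [h5, Finset.card_image_of_injOn]
    · exact h2 a ha
    · intro x hx y hy hxy
      exact hf x (nb_subset hx) y (nb_subset hy) hxy
  · rw [hC]
    exact h3.image f
  · intro x hx y hy
    rw [hC, Finset.mem_image] at hx hy
    obtain ⟨a, ha, rfl⟩ := hx
    obtain ⟨b, hb, rfl⟩ := hy
    refine Relation.ReflTransGen.lift f ?_ _ _ (h4 a ha b hb)
    rintro x y ⟨hx, hy, hxy⟩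
    rw [hC]
    exact ⟨Finset.mem_image_of_mem f hx, Finset.mem_image_of_mem f hy, (hadj x hx y hy).2 hxy⟩

theorem ctr_conn {G : SimpleGraph T} {K : Finset T} {u v : T} (hu : u ∈ K)
    (huv : G.Adj u v) (h : Conn G K) : Conn (ctr G u v) (K.erase v) := by
  have hne : u ≠ v := huv.ne
  have huK : u ∈ K.erase v := Finset.mem_erase.2 ⟨hne, hu⟩
  refine ⟨⟨u, huK⟩, ?_⟩
  intro x hx y hy
  obtain ⟨hxv, hxK⟩ := Finset.mem_erase.1 hx
  obtain ⟨hyv, hyK⟩ := Finset.mem_erase.1 hy
  have key : ∀ z, Relation.ReflTransGen (fun a b => a ∈ K ∧ b ∈ K ∧ G.Adj a b) x z →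
      Relation.ReflTransGen (fun a b => a ∈ K.erase v ∧ b ∈ K.erase v ∧ (ctr G u v).Adj a b) x
        (if z = v then u else z) := by
    intro z hz
    induction hz with
    | refl =>
      rw [if_neg hxv]
    | @tail z w _ hzw ih =>
      obtain ⟨hz, hw, hadj⟩ := hzw
      by_cases hzv : z = v
      · rw [if_pos hzv] at ih
        by_cases hwv : w = v
        · exact absurd (hzv.trans hwv.symm) hadj.ne
        · rw [if_neg hwv]
          by_cases hwu : w = u
          · rw [hwu]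
            exact ih
          · refine ih.tail ⟨huK, Finset.mem_erase.2 ⟨hwv, hw⟩, fun e => hwu e.symm, hne, hwv,
              Or.inr (Or.inl ⟨rfl, ?_⟩)⟩
            rw [← hzv]
            exact hadj
      · rw [if_neg hzv] at ih
        by_cases hwv : w = v
        · rw [if_pos hwv]
          by_cases hzu : z = u
          · rw [hzu] at ih
            exact ih
          · refine ih.tail ⟨Finset.mem_erase.2 ⟨hzv, hz⟩, huK, hzu, hzv, hne,
              Or.inr (Or.inr ⟨rfl, ?_⟩)⟩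
            rw [← hwv]
            exact hadj.symm
        · rw [if_neg hwv]
          exact ih.tail ⟨Finset.mem_erase.2 ⟨hzv, hz⟩, Finset.mem_erase.2 ⟨hwv, hw⟩, hadj.ne,
            hzv, hwv, Or.inl hadj⟩
  have h1 := key y (h.2 x hxK y hyK)
  rwa [if_neg hyv] at h1

theorem nb_ctr_self {G : SimpleGraph T} {K : Finset T} {u v : T} (huv : G.Adj u v) :
    nb (ctr G u v) (K.erase v) u = ((nb G K u ∪ nb G K v).erase u).erase v := by
  ext t
  rw [mem_nb, Finset.mem_erase, Finset.mem_erase, Finset.mem_erase, Finset.mem_union, mem_nb, mem_nb]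
  constructor
  · rintro ⟨⟨h1, h2⟩, h3, h4, h5, h6⟩
    refine ⟨h1, h3.symm, ?_⟩
    rcases h6 with h6 | h6 | h6
    · exact Or.inl ⟨h2, h6⟩
    · exact Or.inr ⟨h2, h6.2⟩
    · exact absurd h6.1.symm h3
  · rintro ⟨h1, h2, h3⟩
    rcases h3 with ⟨h3, h4⟩ | ⟨h3, h4⟩
    · exact ⟨⟨h1, h3⟩, Ne.symm h2, huv.ne, h1, Or.inl h4⟩
    · exact ⟨⟨h1, h3⟩, Ne.symm h2, huv.ne, h1, Or.inr (Or.inl ⟨rfl, h4⟩)⟩

theorem nb_ctr_of_not_adj {G : SimpleGraph T} {K : Finset T} {u v s : T} (hs : s ≠ u)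
    (hsv : s ≠ v) (hn : ¬ G.Adj s v) :
    nb (ctr G u v) (K.erase v) s = nb G K s := by
  ext t
  rw [mem_nb, Finset.mem_erase, mem_nb]
  constructor
  · rintro ⟨⟨h1, h2⟩, h3, h4, h5, h6⟩
    refine ⟨h2, ?_⟩
    rcases h6 with h6 | h6 | h6
    · exact h6
    · exact absurd h6.1 hs
    · exact absurd h6.2.symm hn
  · rintro ⟨h1, h2⟩
    have h3 : t ≠ v := by
      rintro rfl
      exact hn h2
    exact ⟨⟨h3, h1⟩, h2.ne, hsv, h3, Or.inl h2⟩

theorem nb_ctr_of_adj {G : SimpleGraph T} {K : Finset T} {u v s : T} (hu : u ∈ K)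
    (huv : G.Adj u v) (hs : s ≠ u) (hsv : G.Adj s v) :
    nb (ctr G u v) (K.erase v) s = insert u ((nb G K s).erase v) := by
  ext t
  rw [mem_nb, Finset.mem_erase, Finset.mem_insert, Finset.mem_erase, mem_nb]
  constructor
  · rintro ⟨⟨h1, h2⟩, h3, h4, h5, h6⟩
    rcases h6 with h6 | h6 | h6
    · exact Or.inr ⟨h1, h2, h6⟩
    · exact absurd h6.1 hs
    · exact Or.inl h6.1
  · rintro (h1 | ⟨h1, h2, h3⟩)
    · rw [h1]
      exact ⟨⟨huv.ne, hu⟩, hs, hsv.ne, huv.ne, Or.inr (Or.inr ⟨rfl, hsv.symm⟩)⟩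
    · exact ⟨⟨h1, h2⟩, h3.ne, hsv.ne, h1, Or.inl h3⟩

end Pool.Agent.LibFlagPL

end

section

namespace Pool.Agent.LibFlagPL

open Finset

set_option linter.unusedSectionVars false

variable {T : Type} [Fintype T] [DecidableEq T]

theorem circle_ctr_far {G : SimpleGraph T} {K : Finset T} {u v s : T} (h : F2 G K)
    (he : GE G K u v) (hs : s ∈ K) (hsu : s ≠ u) (hsv : s ≠ v)
    (hn : ¬ (G.Adj s u ∧ G.Adj s v)) :
    Circle (ctr G u v) (nb (ctr G u v) (K.erase v) s) ∧
      (nb (ctr G u v) (K.erase v) s).card = (nb G K s).card := by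
  obtain ⟨hu, hv, huv, hcyc⟩ := he
  have hcirc : Circle G (nb G K s) := h.2.1 s hs
  by_cases hv' : G.Adj s v
  · have hu' : ¬ G.Adj s u := fun h1 => hn ⟨h1, hv'⟩
    have hun : ∀ x ∈ nb G K s, x ≠ u := by
      intro x hx hxu
      rw [hxu] at hx
      exact hu' (mem_nb.1 hx).2
    have key : ∀ b ∈ nb G K s, b ≠ v → ((ctr G u v).Adj u b ↔ G.Adj v b) := by
      intro b hb hbv
      obtain ⟨hbK, hsb⟩ := mem_nb.1 hb
      constructor
      · rintro ⟨-, -, -, h1 | h1 | h1⟩
        · rcases hcyc s hs b hbK hsu hbv hv'.symm hsb h1.symm with h2 | h2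
          · exact absurd h2.symm hu'
          · exact h2
        · exact h1.2
        · exact absurd h1.1 (hun b hb)
      · intro h1
        exact ⟨(hun b hb).symm, huv.ne, hbv, Or.inr (Or.inl ⟨rfl, h1⟩)⟩
    have hinj : ∀ a ∈ nb G K s, ∀ b ∈ nb G K s,
        (fun x => if x = v then u else x) a = (fun x => if x = v then u else x) b → a = b := by
      intro a ha b hb hab
      dsimp only at hab
      split_ifs at hab with h1 h2 h2
      · rw [h1, h2]
      · exact absurd hab.symm (hun b hb)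
      · exact absurd hab (hun a ha)
      · exact hab
    have himg : nb (ctr G u v) (K.erase v) s = (nb G K s).image (fun x => if x = v then u else x) := by
      rw [nb_ctr_of_adj hu huv hsu hv']
      ext t
      rw [Finset.mem_insert, Finset.mem_erase, Finset.mem_image]
      constructor
      · rintro (rfl | ⟨h1, h2⟩)
        · exact ⟨v, mem_nb.2 ⟨hv, hv'⟩, if_pos rfl⟩
        · exact ⟨t, h2, if_neg h1⟩
      · rintro ⟨a, ha, rfl⟩
        by_cases h1 : a = v
        · rw [if_pos h1]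
          exact Or.inl rfl
        · rw [if_neg h1]
          exact Or.inr ⟨h1, ha⟩
    refine ⟨circle_congr (fun x => if x = v then u else x) hinj himg ?_ hcirc, ?_⟩
    · intro a ha b hb
      by_cases h1 : a = v
      · by_cases h2 : b = v
        · rw [if_pos h1, if_pos h2, h1, h2]
          exact ⟨fun h3 => absurd rfl h3.ne, fun h3 => absurd rfl h3.ne⟩
        · rw [if_pos h1, if_neg h2, h1]
          exact key b hb h2
      · by_cases h2 : b = v
        · rw [if_neg h1, if_pos h2, h2, SimpleGraph.adj_comm, G.adj_comm]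
          exact key a ha h1
        · rw [if_neg h1, if_neg h2]
          constructor
          · rintro ⟨-, -, -, h3 | h3 | h3⟩
            · exact h3
            · exact absurd h3.1 (hun a ha)
            · exact absurd h3.1 (hun b hb)
          · intro h3
            exact ⟨h3.ne, h1, h2, Or.inl h3⟩
    · rw [himg]
      exact Finset.card_image_of_injOn (fun a ha b hb hab => hinj a ha b hb hab)
  · have himg : nb (ctr G u v) (K.erase v) s = nb G K s := nb_ctr_of_not_adj hsu hsv hv'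
    refine ⟨?_, by rw [himg]⟩
    refine circle_congr id (fun a _ b _ hab => hab) (by rw [himg, Finset.image_id]) ?_ hcirc
    have key : ∀ b ∈ nb G K s, u ∈ nb G K s → b ≠ u → G.Adj v b → G.Adj u b := by
      intro b hb hus hbu hvb
      obtain ⟨hbK, hsb⟩ := mem_nb.1 hb
      rcases hcyc b hbK s hs hbu hsv hvb hsb.symm (mem_nb.1 hus).2 with h2 | h2
      · exact h2
      · exact absurd h2.symm hv'
    intro a ha b hb
    have hav : a ≠ v := by
      rintro rfl
      exact hv' (mem_nb.1 ha).2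
    have hbv : b ≠ v := by
      rintro rfl
      exact hv' (mem_nb.1 hb).2
    simp only [id]
    constructor
    · rintro ⟨h0, -, -, h3 | h3 | h3⟩
      · exact h3
      · obtain ⟨rfl, h4⟩ := h3
        exact key b hb ha (Ne.symm h0) h4
      · obtain ⟨rfl, h4⟩ := h3
        exact (key a ha hb h0 h4).symm
    · intro h3
      exact ⟨h3.ne, hav, hbv, Or.inl h3⟩

end Pool.Agent.LibFlagPL

end

section

namespace Pool.Agent.LibFlagPL

open Finset

set_option linter.unusedSectionVars false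

variable {T : Type} [Fintype T] [DecidableEq T]

private theorem S2C3_other {s : Finset T} (hs : s.card = 2) {a : T} (ha : a ∈ s) :
    ∃ b : T, b ≠ a ∧ s = {a, b} := by
  obtain ⟨x, y, hxy, rfl⟩ := Finset.card_eq_two.1 hs
  simp only [Finset.mem_insert, Finset.mem_singleton] at ha
  rcases ha with rfl | rfl
  · exact ⟨y, hxy.symm, rfl⟩
  · exact ⟨x, hxy, Finset.pair_comm x a⟩

theorem circle_ctr_edge {G : SimpleGraph T} {C : Finset T} {u v : T} (h : Circle G C)
    (hu : u ∈ C) (hv : v ∈ C) (huv : G.Adj u v) (h5 : 5 ≤ C.card) :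
    Circle (ctr G u v) (C.erase v) := by
  have hvu : v ∈ nb G C u := mem_nb.2 ⟨hv, huv⟩
  have huv' : u ∈ nb G C v := mem_nb.2 ⟨hu, huv.symm⟩
  have hne : u ≠ v := huv.ne
  refine ⟨?_, ?_, ctr_conn hu huv h.2.2⟩
  · rw [Finset.card_erase_of_mem hv]
    omega
  · intro t ht
    have htv : t ≠ v := (Finset.mem_erase.1 ht).1
    have htC : t ∈ C := (Finset.mem_erase.1 ht).2
    by_cases htu : t = u
    · rw [htu, nb_ctr_self huv]
      obtain ⟨u1, hu1v, hu1⟩ := S2C3_other (h.2.1 u hu) hvu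
      obtain ⟨v1, hv1u, hv1⟩ := S2C3_other (h.2.1 v hv) huv'
      have hu1m : u1 ∈ nb G C u := by rw [hu1]; simp
      have hv1m : v1 ∈ nb G C v := by rw [hv1]; simp
      have hu1u : u1 ≠ u := (mem_nb.1 hu1m).2.ne.symm
      have hv1v : v1 ≠ v := (mem_nb.1 hv1m).2.ne.symm
      have hd : u1 ≠ v1 := by
        intro heq
        refine h.not_adj hu hvu hu1m (Ne.symm hu1v) ?_
        rw [heq]
        exact (mem_nb.1 hv1m).2
      have hset : ((nb G C u ∪ nb G C v).erase u).erase v = {u1, v1} := by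
        rw [hu1, hv1]
        ext x
        simp only [Finset.mem_erase, Finset.mem_union, Finset.mem_insert, Finset.mem_singleton]
        constructor
        · rintro ⟨hxv, hxu, (rfl | rfl) | (rfl | rfl)⟩
          · exact absurd rfl hxv
          · exact Or.inl rfl
          · exact absurd rfl hxu
          · exact Or.inr rfl
        · rintro (rfl | rfl)
          · exact ⟨hu1v, hu1u, Or.inl (Or.inr rfl)⟩
          · exact ⟨hv1v, hv1u, Or.inr (Or.inr rfl)⟩
      rw [hset]
      exact Finset.card_pair hd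
    · by_cases hadj : G.Adj t v
      · rw [nb_ctr_of_adj hu huv htu hadj]
        have hvt : v ∈ nb G C t := mem_nb.2 ⟨hv, hadj⟩
        have htm : t ∈ nb G C v := mem_nb.2 ⟨htC, hadj.symm⟩
        have hut : u ∉ (nb G C t).erase v := by
          intro hm
          exact h.not_adj hv htm huv' htu (mem_nb.1 (Finset.mem_erase.1 hm).2).2
        rw [Finset.card_insert_of_notMem hut, Finset.card_erase_of_mem hvt, h.2.1 t htC]
      · rw [nb_ctr_of_not_adj htu htv hadj]
        exact h.2.1 t htC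

theorem F2.card_five {G : SimpleGraph T} {K : Finset T} {u v s : T} (h : F2 G K)
    (he : GE G K u v) (hs : s ∈ K) (hsu : G.Adj s u) (hsv : G.Adj s v) :
    5 ≤ (nb G K s).card := by
  obtain ⟨huK, hvK, huv, hge⟩ := he
  have hC : Circle G (nb G K s) := h.2.1 s hs
  have hu : u ∈ nb G K s := mem_nb.2 ⟨huK, hsu⟩
  have hv : v ∈ nb G K s := mem_nb.2 ⟨hvK, hsv⟩
  by_contra hlt
  have h4 : (nb G K s).card = 4 := by
    have := hC.1
    omega
  have hvu : v ∈ nb G (nb G K s) u := mem_nb.2 ⟨hv, huv⟩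
  have huv' : u ∈ nb G (nb G K s) v := mem_nb.2 ⟨hu, huv.symm⟩
  obtain ⟨w, hwv, hw⟩ := S2C3_other (hC.2.1 u hu) hvu
  obtain ⟨t, htu, ht⟩ := S2C3_other (hC.2.1 v hv) huv'
  have hwm : w ∈ nb G (nb G K s) u := by rw [hw]; simp
  have htm : t ∈ nb G (nb G K s) v := by rw [ht]; simp
  have hwC := (mem_nb.1 hwm).1
  have htC := (mem_nb.1 htm).1
  have huw := (mem_nb.1 hwm).2
  have hvt := (mem_nb.1 htm).2
  have n1 : ¬ G.Adj v w := hC.not_adj hu hvu hwm (Ne.symm hwv)
  have n2 : ¬ G.Adj u t := hC.not_adj hv huv' htm (Ne.symm htu)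
  have hwt : w ≠ t := by
    intro heq
    exact n1 (heq ▸ hvt)
  have hne : u ≠ v := huv.ne
  have hsub : ({u, v, w, t} : Finset T) ⊆ nb G K s := by
    intro x hx
    simp only [Finset.mem_insert, Finset.mem_singleton] at hx
    rcases hx with rfl | rfl | rfl | rfl
    · exact hu
    · exact hv
    · exact hwC
    · exact htC
  have hcard : ({u, v, w, t} : Finset T).card = 4 := by
    rw [Finset.card_insert_of_notMem, Finset.card_insert_of_notMem, Finset.card_pair hwt]
    · simp only [Finset.mem_insert, Finset.mem_singleton, not_or]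
      exact ⟨Ne.symm hwv, hvt.ne⟩
    · simp only [Finset.mem_insert, Finset.mem_singleton, not_or]
      exact ⟨hne, huw.ne, Ne.symm htu⟩
  have hEq : ({u, v, w, t} : Finset T) = nb G K s :=
    Finset.eq_of_subset_of_card_le hsub (by rw [hcard, h4])
  have hadj : G.Adj w t := by
    by_contra hn
    have h2 := hC.2.1 w hwC
    have hsub2 : nb G (nb G K s) w ⊆ {u} := by
      intro x hx
      have hx' := mem_nb.1 hx
      have hxm : x ∈ ({u, v, w, t} : Finset T) := by rw [hEq]; exact hx'.1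
      simp only [Finset.mem_insert, Finset.mem_singleton] at hxm
      rcases hxm with rfl | rfl | rfl | rfl
      · simp
      · exact absurd hx'.2.symm n1
      · exact absurd rfl hx'.2.ne
      · exact absurd hx'.2 hn
    have := Finset.card_le_card hsub2
    rw [h2, Finset.card_singleton] at this
    omega
  rcases hge t (nb_subset htC) w (nb_subset hwC) htu hwv hvt hadj.symm huw.symm with h1 | h1
  · exact n2 h1
  · exact n1 h1

theorem circle_ctr_common {G : SimpleGraph T} {K : Finset T} {u v s : T} (h : F2 G K)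
    (he : GE G K u v) (hs : s ∈ K) (hsu : G.Adj s u) (hsv : G.Adj s v) :
    Circle (ctr G u v) (nb (ctr G u v) (K.erase v) s) ∧
      (nb (ctr G u v) (K.erase v) s).card + 1 = (nb G K s).card := by
  have h5 := h.card_five he hs hsu hsv
  have huv := he.2.2.1
  have hu : u ∈ nb G K s := mem_nb.2 ⟨he.1, hsu⟩
  have hv : v ∈ nb G K s := mem_nb.2 ⟨he.2.1, hsv⟩
  have hum : u ∈ (nb G K s).erase v := Finset.mem_erase.2 ⟨huv.ne, hu⟩
  rw [nb_ctr_of_adj he.1 huv hsu.ne hsv, Finset.insert_eq_of_mem hum]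
  refine ⟨circle_ctr_edge (h.2.1 s hs) hu hv huv h5, ?_⟩
  rw [Finset.card_erase_of_mem hv]
  omega

end Pool.Agent.LibFlagPL

end

section

namespace Pool.Agent.LibFlagPL

open Finset

set_option linter.unusedSectionVars false

variable {T : Type} [Fintype T] [DecidableEq T]

private theorem S2C4_adj {G : SimpleGraph T} {u v s t : T} (hsv : s ≠ v) (htv : t ≠ v)
    (hsu : s ≠ u) (htu : t ≠ u) : (ctr G u v).Adj s t ↔ G.Adj s t := by
  constructor
  · intro h
    have h1 : s ≠ t ∧ s ≠ v ∧ t ≠ v ∧ (G.Adj s t ∨ (s = u ∧ G.Adj v t) ∨ (t = u ∧ G.Adj v s)) := h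
    rcases h1.2.2.2 with h2 | h2 | h2
    · exact h2
    · exact absurd h2.1 hsu
    · exact absurd h2.1 htu
  · intro h
    show s ≠ t ∧ s ≠ v ∧ t ≠ v ∧ (G.Adj s t ∨ (s = u ∧ G.Adj v t) ∨ (t = u ∧ G.Adj v s))
    exact ⟨h.ne, hsv, htv, Or.inl h⟩

private theorem S2C4_symm {G : SimpleGraph T} {K : Finset T} {u v : T} (he : GE G K u v) :
    GE G K v u := by
  refine ⟨he.2.1, he.1, he.2.2.1.symm, ?_⟩
  intro w hw t ht hwv htu huw hwt htv
  rcases he.2.2.2 t ht w hw htu hwv htv.symm hwt.symm huw.symm with h | h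
  · exact Or.inr h
  · exact Or.inl h

/-- a vertex of the link of `u` not adjacent to `v` -/
private theorem S2C4_far {G : SimpleGraph T} {K L : Finset T} {u v : T} (h : F2 G K)
    (he : GE G K u v)
    (hL : ∀ t, t ∈ L ↔ t ≠ v ∧ t ≠ u ∧ t ∈ K ∧ (G.Adj u t ∨ G.Adj v t)) {t : T}
    (htK : t ∈ K) (htv : t ≠ v) (hut : G.Adj u t) (hn : ¬ G.Adj v t) :
    (nb G L t).card = 2 := by
  have hC : Circle G (nb G K u) := h.2.1 u he.1
  have h1 : nb G L t = nb G (nb G K u) t := by
    ext t'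
    rw [mem_nb, mem_nb, mem_nb, hL]
    constructor
    · rintro ⟨⟨h2, h3, h4, h5⟩, h6⟩
      refine ⟨⟨h4, ?_⟩, h6⟩
      rcases h5 with h5 | h5
      · exact h5
      · rcases he.2.2.2 t' h4 t htK h3 htv h5 h6.symm hut.symm with h7 | h7
        · exact h7
        · exact absurd h7 hn
    · rintro ⟨⟨h2, h3⟩, h4⟩
      refine ⟨⟨?_, h3.ne.symm, h2, Or.inl h3⟩, h4⟩
      intro h5
      rw [h5] at h4
      exact hn h4.symm
  rw [h1]
  exact hC.2.1 t (mem_nb.2 ⟨htK, hut⟩)

private theorem S2C4_pair {G : SimpleGraph T} {C : Finset T} (h : Circle G C) {t v : T}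
    (ht : t ∈ C) (hv : v ∈ C) (htv : G.Adj t v) :
    ∃ a : T, a ≠ v ∧ ∀ x, x ∈ C ∧ G.Adj t x ↔ x = v ∨ x = a := by
  obtain ⟨a, b, hab, _, he⟩ := h.nb_eq ht
  have h1 : ∀ x, x ∈ C ∧ G.Adj t x ↔ x = a ∨ x = b := by
    intro x
    rw [← mem_nb (G := G) (S := C), he, Finset.mem_insert, Finset.mem_singleton]
  rcases (h1 v).1 ⟨hv, htv⟩ with h2 | h2
  · refine ⟨b, fun h3 => hab (h2.symm.trans h3.symm), fun x => ?_⟩
    rw [h1, h2]
  · refine ⟨a, fun h3 => hab (h3.trans h2), fun x => ?_⟩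
    rw [h1, h2, or_comm]

/-- a common neighbour of `u` and `v` -/
private theorem S2C4_common {G : SimpleGraph T} {K L : Finset T} {u v : T} (h : F2 G K)
    (he : GE G K u v)
    (hL : ∀ t, t ∈ L ↔ t ≠ v ∧ t ≠ u ∧ t ∈ K ∧ (G.Adj u t ∨ G.Adj v t)) {t : T}
    (htK : t ∈ K) (hut : G.Adj u t) (hvt : G.Adj v t) :
    (nb G L t).card = 2 := by
  have hCu : Circle G (nb G K u) := h.2.1 u he.1
  have hCv : Circle G (nb G K v) := h.2.1 v he.2.1
  obtain ⟨a1, ha1, h1⟩ := S2C4_pair hCu (mem_nb.2 ⟨htK, hut⟩) (mem_nb.2 ⟨he.2.1, he.2.2.1⟩)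
    hvt.symm
  obtain ⟨a2, ha2, h2⟩ := S2C4_pair hCv (mem_nb.2 ⟨htK, hvt⟩) (mem_nb.2 ⟨he.1, he.2.2.1.symm⟩)
    hut.symm
  obtain ⟨p, q, hpq, hadj, hc⟩ := h.nb_pair he.1 he.2.1 he.2.2.1
  have ha1' := (h1 a1).2 (Or.inr rfl)
  have ha2' := (h2 a2).2 (Or.inr rfl)
  rw [mem_nb] at ha1' ha2'
  have hne : a1 ≠ a2 := by
    intro h3
    rw [← h3] at ha2'
    have h4 : a1 ∈ nb G (nb G K u) v := mem_nb.2 ⟨mem_nb.2 ha1'.1, ha2'.1.2⟩
    have h5 : t ∈ nb G (nb G K u) v := mem_nb.2 ⟨mem_nb.2 ⟨htK, hut⟩, hvt⟩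
    rw [hc, Finset.mem_insert, Finset.mem_singleton] at h4 h5
    have h6 := ha1'.2
    rcases h4 with h4 | h4 <;> rcases h5 with h5 | h5
    · rw [h4, h5] at h6
      exact h6.ne rfl
    · rw [h4, h5] at h6
      exact hadj h6.symm
    · rw [h4, h5] at h6
      exact hadj h6
    · rw [h4, h5] at h6
      exact h6.ne rfl
  have h3 : nb G L t = {a1, a2} := by
    ext x
    rw [mem_nb, hL, Finset.mem_insert, Finset.mem_singleton]
    constructor
    · rintro ⟨⟨h4, h5, h6, h7 | h7⟩, h8⟩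
      · rcases (h1 x).1 ⟨mem_nb.2 ⟨h6, h7⟩, h8⟩ with h9 | h9
        · exact absurd h9 h4
        · exact Or.inl h9
      · rcases (h2 x).1 ⟨mem_nb.2 ⟨h6, h7⟩, h8⟩ with h9 | h9
        · exact absurd h9 h5
        · exact Or.inr h9
    · rintro (h4 | h4)
      · rw [h4]
        exact ⟨⟨ha1, ha1'.1.2.ne.symm, ha1'.1.1, Or.inl ha1'.1.2⟩, ha1'.2⟩
      · rw [h4]
        exact ⟨⟨ha2'.1.2.ne.symm, ha2, ha2'.1.1, Or.inr ha2'.1.2⟩, ha2'.2⟩
  rw [h3, Finset.card_pair hne]

theorem circle_ctr_self {G : SimpleGraph T} {K : Finset T} {u v : T} (h : F2 G K)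
    (he : GE G K u v) :
    Circle (ctr G u v) (nb (ctr G u v) (K.erase v) u) ∧
      (nb (ctr G u v) (K.erase v) u).card + 4 = (nb G K u).card + (nb G K v).card := by
  have huv : G.Adj u v := he.2.2.1
  obtain ⟨L, hLdef⟩ : ∃ L, L = nb (ctr G u v) (K.erase v) u := ⟨_, rfl⟩
  have hLE : L = ((nb G K u ∪ nb G K v).erase u).erase v := by
    rw [hLdef, nb_ctr_self huv]
  have hL : ∀ t, t ∈ L ↔ t ≠ v ∧ t ≠ u ∧ t ∈ K ∧ (G.Adj u t ∨ G.Adj v t) := by
    intro t
    rw [hLE, Finset.mem_erase, Finset.mem_erase, Finset.mem_union, mem_nb, mem_nb]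
    tauto
  rw [← hLdef]
  have hL' : ∀ t, t ∈ L ↔ t ≠ u ∧ t ≠ v ∧ t ∈ K ∧ (G.Adj v t ∨ G.Adj u t) := by
    intro t
    rw [hL]
    tauto
  have hCu : Circle G (nb G K u) := h.2.1 u he.1
  have hCv : Circle G (nb G K v) := h.2.1 v he.2.1
  have hvu : v ∈ nb G K u := mem_nb.2 ⟨he.2.1, huv⟩
  have huv' : u ∈ nb G K v := mem_nb.2 ⟨he.1, huv.symm⟩
  obtain ⟨p, q, hpq, hadj, hc⟩ := h.nb_pair he.1 he.2.1 huv
  have hAB : (nb G K u).erase v ∪ (nb G K v).erase u = L := by
    ext t
    rw [Finset.mem_union, Finset.mem_erase, Finset.mem_erase, mem_nb, mem_nb, hL]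
    constructor
    · rintro (⟨h1, h2, h3⟩ | ⟨h1, h2, h3⟩)
      · exact ⟨h1, h3.ne.symm, h2, Or.inl h3⟩
      · exact ⟨h3.ne.symm, h1, h2, Or.inr h3⟩
    · rintro ⟨h1, h2, h3, h4 | h4⟩
      · exact Or.inl ⟨h1, h3, h4⟩
      · exact Or.inr ⟨h2, h3, h4⟩
  have hint : (nb G K u).erase v ∩ (nb G K v).erase u = {p, q} := by
    rw [← hc]
    ext t
    rw [Finset.mem_inter, Finset.mem_erase, Finset.mem_erase, mem_nb, mem_nb, mem_nb, mem_nb]
    constructor
    · rintro ⟨⟨_, h2⟩, _, h3⟩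
      exact ⟨h2, h3.2⟩
    · rintro ⟨h2, h3⟩
      exact ⟨⟨h3.ne.symm, h2⟩, h2.2.ne.symm, h2.1, h3⟩
  have hcard : L.card + 4 = (nb G K u).card + (nb G K v).card := by
    have h1 := Finset.card_union_add_card_inter ((nb G K u).erase v) ((nb G K v).erase u)
    rw [hAB, hint, Finset.card_pair hpq, Finset.card_erase_of_mem hvu,
      Finset.card_erase_of_mem huv'] at h1
    have h2 := h.four_le he.1
    have h3 := h.four_le he.2.1
    omega
  refine ⟨⟨?_, ?_, ?_⟩, hcard⟩
  · have h2 := h.four_le he.1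
    have h3 := h.four_le he.2.1
    omega
  · intro t ht
    have h1 := (hL t).1 ht
    have h2 : nb (ctr G u v) L t = nb G L t := by
      ext x
      rw [mem_nb, mem_nb]
      constructor
      · rintro ⟨h3, h4⟩
        have h5 := (hL x).1 h3
        exact ⟨h3, (S2C4_adj h1.1 h5.1 h1.2.1 h5.2.1).1 h4⟩
      · rintro ⟨h3, h4⟩
        have h5 := (hL x).1 h3
        exact ⟨h3, (S2C4_adj h1.1 h5.1 h1.2.1 h5.2.1).2 h4⟩
    rw [h2]
    by_cases hut : G.Adj u t
    · by_cases hvt : G.Adj v t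
      · exact S2C4_common h he hL h1.2.2.1 hut hvt
      · exact S2C4_far h he hL h1.2.2.1 h1.1 hut hvt
    · have hvt : G.Adj v t := by
        rcases h1.2.2.2 with h3 | h3
        · exact absurd h3 hut
        · exact h3
      exact S2C4_far h (S2C4_symm he) hL' h1.2.2.1 h1.2.1 hvt hut
  · have hcu := hCu.conn_erase hvu
    have hcv := hCv.conn_erase huv'
    have hp : p ∈ (nb G K u).erase v ∩ (nb G K v).erase u := by
      rw [hint]
      exact Finset.mem_insert_self p _
    rw [Finset.mem_inter] at hp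
    have hAL : (nb G K u).erase v ⊆ L := by
      rw [← hAB]
      exact Finset.subset_union_left
    have hBL : (nb G K v).erase u ⊆ L := by
      rw [← hAB]
      exact Finset.subset_union_right
    have hmono : ∀ A : Finset T, A ⊆ L → ∀ x y : T,
        Relation.ReflTransGen (fun a b => a ∈ A ∧ b ∈ A ∧ G.Adj a b) x y →
        Relation.ReflTransGen (fun a b => a ∈ L ∧ b ∈ L ∧ (ctr G u v).Adj a b) x y := by
      intro A hA x y hxy
      refine Relation.ReflTransGen.mono ?_ _ _ hxy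
      rintro a b ⟨h1, h2, h3⟩
      have h4 := (hL a).1 (hA h1)
      have h5 := (hL b).1 (hA h2)
      exact ⟨hA h1, hA h2, (S2C4_adj h4.1 h5.1 h4.2.1 h5.2.1).2 h3⟩
    have hto : ∀ x ∈ L, Relation.ReflTransGen
        (fun a b => a ∈ L ∧ b ∈ L ∧ (ctr G u v).Adj a b) x p := by
      intro x hx
      rw [← hAB, Finset.mem_union] at hx
      rcases hx with hx | hx
      · exact hmono _ hAL _ _ (hcu.2 x hx p hp.1)
      · exact hmono _ hBL _ _ (hcv.2 x hx p hp.2)
    have hfrom : ∀ x ∈ L, Relation.ReflTransGen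
        (fun a b => a ∈ L ∧ b ∈ L ∧ (ctr G u v).Adj a b) p x := by
      intro x hx
      rw [← hAB, Finset.mem_union] at hx
      rcases hx with hx | hx
      · exact hmono _ hAL _ _ (hcu.2 p hp.1 x hx)
      · exact hmono _ hBL _ _ (hcv.2 p hp.2 x hx)
    exact ⟨⟨p, hAL hp.1⟩, fun x hx y hy => (hto x hx).trans (hfrom y hy)⟩

end Pool.Agent.LibFlagPL

end

section

namespace Pool.Agent.LibFlagPL

open Finset

set_option linter.unusedSectionVars false

variable {T : Type} [Fintype T] [DecidableEq T]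

theorem F2.ctr {G : SimpleGraph T} {K : Finset T} {u v : T} (h : F2 G K)
    (he : GE G K u v) : F2 (ctr G u v) (K.erase v) := by
  classical
  have hu : u ∈ K := he.1
  have hv : v ∈ K := he.2.1
  have huv : G.Adj u v := he.2.2.1
  have huv' : u ≠ v := huv.ne
  refine ⟨ctr_conn hu huv h.1, ?_, ?_⟩
  · intro s hs
    have hsv : s ≠ v := (Finset.mem_erase.1 hs).1
    have hsK : s ∈ K := (Finset.mem_erase.1 hs).2
    by_cases hsu : s = u
    · rw [hsu]
      exact (circle_ctr_self h he).1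
    · by_cases hn : G.Adj s u ∧ G.Adj s v
      · exact (circle_ctr_common h he hsK hn.1 hn.2).1
      · exact (circle_ctr_far h he hsK hsu hsv hn).1
  · have e1 : (∑ s ∈ (K.erase v).erase u, (nb (Pool.Agent.LibFlagPL.ctr G u v) (K.erase v) s).card) + 2
        = ∑ s ∈ (K.erase v).erase u, (nb G K s).card := by
      have hfil : (((K.erase v).erase u).filter fun s => G.Adj s u ∧ G.Adj s v)
          = nb G (nb G K u) v := by
        ext s
        unfold nb
        simp only [Finset.mem_filter, Finset.mem_erase]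
        constructor
        · rintro ⟨⟨_, _, h3⟩, h4, h5⟩
          exact ⟨⟨h3, h4.symm⟩, h5.symm⟩
        · rintro ⟨⟨h1, h2⟩, h3⟩
          exact ⟨⟨h2.ne', h3.ne', h1⟩, h2.symm, h3.symm⟩
      have hcard : (((K.erase v).erase u).filter fun s => G.Adj s u ∧ G.Adj s v).card = 2 := by
        rw [hfil]
        have hvu : v ∈ nb G K u := by
          unfold nb
          rw [Finset.mem_filter]
          exact ⟨hv, huv⟩
        exact (h.2.1 u hu).2.1 v hvu
      have hsum : ∑ s ∈ (K.erase v).erase u, (nb G K s).card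
          = ∑ s ∈ (K.erase v).erase u, ((nb (Pool.Agent.LibFlagPL.ctr G u v) (K.erase v) s).card
            + if G.Adj s u ∧ G.Adj s v then 1 else 0) := by
        refine Finset.sum_congr rfl ?_
        intro s hs
        have hsu : s ≠ u := (Finset.mem_erase.1 hs).1
        have hs' := (Finset.mem_erase.1 hs).2
        have hsv : s ≠ v := (Finset.mem_erase.1 hs').1
        have hsK : s ∈ K := (Finset.mem_erase.1 hs').2
        by_cases hn : G.Adj s u ∧ G.Adj s v
        · rw [if_pos hn]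
          exact (circle_ctr_common h he hsK hn.1 hn.2).2.symm
        · rw [if_neg hn, add_zero]
          exact (circle_ctr_far h he hsK hsu hsv hn).2.symm
      rw [hsum, Finset.sum_add_distrib]
      congr 1
      rw [← hcard, Finset.card_filter]
    have hu' : u ∈ K.erase v := Finset.mem_erase.2 ⟨huv', hu⟩
    have e2 : ∑ s ∈ K, (nb G K s).card = (nb G K v).card + ((nb G K u).card
        + ∑ s ∈ (K.erase v).erase u, (nb G K s).card) := by
      rw [← Finset.add_sum_erase K (fun s => (nb G K s).card) hv,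
        ← Finset.add_sum_erase (K.erase v) (fun s => (nb G K s).card) hu']
    have e3 : ∑ s ∈ K.erase v, (nb (Pool.Agent.LibFlagPL.ctr G u v) (K.erase v) s).card
        = (nb (Pool.Agent.LibFlagPL.ctr G u v) (K.erase v) u).card
          + ∑ s ∈ (K.erase v).erase u, (nb (Pool.Agent.LibFlagPL.ctr G u v) (K.erase v) s).card := by
      rw [← Finset.add_sum_erase (K.erase v)
        (fun s => (nb (Pool.Agent.LibFlagPL.ctr G u v) (K.erase v) s).card) hu']
    have e4 := (circle_ctr_self h he).2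
    have e5 := h.2.2
    have e6 : (K.erase v).card + 1 = K.card := Finset.card_erase_add_one hv
    omega

end Pool.Agent.LibFlagPL

end

section

namespace Pool.Agent.LibFlagPL

open Finset

set_option linter.unusedSectionVars false

variable {T : Type} [Fintype T] [DecidableEq T]

private theorem S2X_mem {G : SimpleGraph T} {S : Finset T} {y t : T} :
    t ∈ nb G S y ↔ t ∈ S ∧ G.Adj y t := by
  simp [nb]

theorem good_of_good {G : SimpleGraph T} {K : Finset T} {s s' u v : T}
    (hs : ∀ t ∈ K, G.Adj s t) (hs' : ∀ t ∈ K, G.Adj s' t) (h : GE G K u v) :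
    GE G (insert s (insert s' K)) u v := by
  obtain ⟨hu, hv, huv, h4⟩ := h
  refine ⟨mem_insert_of_mem (mem_insert_of_mem hu), mem_insert_of_mem (mem_insert_of_mem hv),
    huv, ?_⟩
  intro w hw t ht hwu htv hvw hwt htu
  rcases mem_insert.1 hw with rfl | hw
  · exact Or.inl (hs u hu).symm
  rcases mem_insert.1 hw with rfl | hw
  · exact Or.inl (hs' u hu).symm
  rcases mem_insert.1 ht with rfl | ht
  · exact Or.inr (hs v hv).symm
  rcases mem_insert.1 ht with rfl | ht
  · exact Or.inr (hs' v hv).symm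
  exact h4 w hw t ht hwu htv hvw hwt htu

private theorem S2X_data {G : SimpleGraph T} {M : Finset T} (h : F3 G M) (hs : Susp G M) :
    ∃ s s' : T, ∃ K : Finset T, F2 G K ∧ (∀ t ∈ K, G.Adj s t) ∧ (∀ t ∈ K, G.Adj s' t) ∧
      M = insert s (insert s' K) ∧ M.card = K.card + 2 ∧ nb G M s = K ∧ nb G M s' = K ∧
      s ∉ K ∧ s' ∉ K ∧ s ≠ s' := by
  obtain ⟨s, hsM, s', hsM', hne, hn, hsub⟩ := hs
  obtain ⟨he, hM⟩ := F3.susp_of_subset h hsM hsM' hne hn hsub
  obtain ⟨K, hK⟩ : ∃ K, K = nb G M s := ⟨_, rfl⟩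
  have hsK : s ∉ K := by
    rw [hK, S2X_mem]
    rintro ⟨-, hh⟩
    exact G.loopless.irrefl s hh
  have hsK' : s' ∉ K := by
    rw [hK, S2X_mem]
    rintro ⟨-, hh⟩
    exact hn hh
  have hM' : M = insert s (insert s' K) := by
    rw [hK]
    exact hM
  refine ⟨s, s', K, ?_, ?_, ?_, hM', ?_, hK.symm, ?_, hsK, hsK', hne⟩
  · rw [hK]
    exact h.2 s hsM
  · intro t ht
    rw [hK, S2X_mem] at ht
    exact ht.2
  · intro t ht
    rw [hK, he, S2X_mem] at ht
    exact ht.2
  · have h1 : s ∉ insert s' K := by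
      rw [mem_insert]
      rintro (hh | hh)
      · exact hne hh
      · exact hsK hh
    rw [hM', card_insert_of_notMem h1, card_insert_of_notMem hsK']
  · rw [hK, he]

theorem caseB_I1 {G : SimpleGraph T} {M : Finset T} (h : F3 G M) (hs : Susp G M)
    (hi2 : ∀ K : Finset T, F2 G K → K.card ≠ 6 → ∃ u v : T, GE G K u v) : I1 G M := by
  obtain ⟨s, s', K, hK, h1, h1', hM, hc, -, -, -, -, -⟩ := S2X_data h hs
  by_cases h6 : K.card = 6
  · left
    omega
  · right
    obtain ⟨u, v, huv⟩ := hi2 K hK h6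
    refine ⟨u, v, ?_⟩
    rw [hM]
    exact good_of_good h1 h1' huv

theorem caseB_I2 {G : SimpleGraph T} {M : Finset T} (h : F3 G M) (hs : Susp G M)
    (hii2 : ∀ K : Finset T, F2 G K → ∀ c ∈ K, (nb G K c).card = 4 → 7 ≤ K.card →
      ∃ u v : T, GE G K u v ∧ u ∉ insert c (nb G K c)) : I2 G M := by
  obtain ⟨s, s', K, hK, h1, h1', hM, hcard, hns, hns', hsK, hsK', hne⟩ := S2X_data h hs
  intro c hc hoct h9
  have hsplit : c = s ∨ c = s' ∨ c ∈ K := by
    rw [hM] at hc
    rcases mem_insert.1 hc with hc | hc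
    · exact Or.inl hc
    rcases mem_insert.1 hc with hc | hc
    · exact Or.inr (Or.inl hc)
    · exact Or.inr (Or.inr hc)
  rcases hsplit with rfl | rfl | hcK
  · exfalso
    have h6 := hoct.2
    rw [hns] at h6
    omega
  · exfalso
    have h6 := hoct.2
    rw [hns'] at h6
    omega
  · have hnb : nb G M c = insert s (insert s' (nb G K c)) := by
      ext t
      rw [S2X_mem, mem_insert, mem_insert, S2X_mem, hM, mem_insert, mem_insert]
      constructor
      · rintro ⟨rfl | rfl | ht, hct⟩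
        · exact Or.inl rfl
        · exact Or.inr (Or.inl rfl)
        · exact Or.inr (Or.inr ⟨ht, hct⟩)
      · rintro (rfl | rfl | ⟨ht, hct⟩)
        · exact ⟨Or.inl rfl, (h1 c hcK).symm⟩
        · exact ⟨Or.inr (Or.inl rfl), (h1' c hcK).symm⟩
        · exact ⟨Or.inr (Or.inr ht), hct⟩
    have hs'n : s' ∉ nb G K c := fun hh => hsK' (S2X_mem.1 hh).1
    have hsn : s ∉ insert s' (nb G K c) := by
      rw [mem_insert]
      rintro (hh | hh)
      · exact hne hh
      · exact hsK (S2X_mem.1 hh).1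
    have h4 : (nb G K c).card = 4 := by
      have h6 := hoct.2
      rw [hnb, card_insert_of_notMem hsn, card_insert_of_notMem hs'n] at h6
      omega
    obtain ⟨u, v, huv, hu⟩ := hii2 K hK c hcK h4 (by omega)
    refine ⟨u, v, ?_, ?_⟩
    · rw [hM]
      exact good_of_good h1 h1' huv
    · intro hh
      refine hu ?_
      rcases mem_insert.1 hh with hh | hh
      · exact mem_insert.2 (Or.inl hh)
      · exact mem_insert.2 (Or.inr (S2X_mem.2 ⟨huv.1, (S2X_mem.1 hh).2⟩))

end Pool.Agent.LibFlagPL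

end
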