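import Pool.Agent.LibFlagPL.GenE
import Pool.Agent.LibFlagPL.SurfB

/-!
# LibFlagPL.GenK: caps, glueing and contraction in all dimensions
-/

section

namespace Pool.Agent.LibFlagPL

open Finset

set_option linter.unusedSectionVars false

variable {T : Type} [Fintype T] [DecidableEq T]

/-- a connected complex with circular links and `chi = 0` is a flag 2-sphere -/
theorem f2_of_chi {G : SimpleGraph T} {S : Finset T} (hc : Conn G S)
    (hl : ∀ s ∈ S, Circle G (nb G S s)) (h0 : chi G S = 0) : F2 G S := by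
  refine ⟨hc, hl, ?_⟩
  have hno : ∀ σ, σ ⊆ S → Cl G σ → σ.card ≤ 3 := by
    intro σ h1 h2
    rcases Finset.eq_empty_or_nonempty σ with rfl | ⟨s, hs⟩
    · simp
    · have h3 : σ.erase s ⊆ nb G S s := fun t ht =>
        mem_nb.2 ⟨h1 (Finset.mem_of_mem_erase ht), h2 s hs t (Finset.mem_of_mem_erase ht)
          (Finset.ne_of_mem_erase ht).symm⟩
      have h4 : Cl G (σ.erase s) := fun a ha b hb hab =>
        h2 a (Finset.mem_of_mem_erase ha) b (Finset.mem_of_mem_erase hb) hab
      have h5 := Circle.no_three (hl s (h1 hs)) h3 h4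
      rw [Finset.card_erase_of_mem hs] at h5
      omega
  have h1 := chi_eq_sum (G := G) (S := S) (m := 3) hno
  have h2 : ∑ s ∈ S, (faces G (nb G S s) 1).card = 2 * (faces G S 2).card := sum_faces_nb 1
  have h3 : ∑ s ∈ S, (faces G (nb G S s) 1).card = ∑ s ∈ S, (nb G S s).card :=
    Finset.sum_congr rfl (fun s _ => card_faces_one)
  have h4 : ∑ s ∈ S, (faces G (nb G S s) 2).card = 3 * (faces G S 3).card := sum_faces_nb 2
  have h5 : ∑ s ∈ S, (faces G (nb G S s) 2).card = ∑ s ∈ S, (nb G S s).card :=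
    Finset.sum_congr rfl (fun s hs => (hl s hs).faces_two)
  rw [h3] at h2
  rw [h5] at h4
  rw [h0] at h1
  simp only [Finset.sum_range_succ, Finset.sum_range_zero, faces_zero, card_faces_one,
    Finset.card_singleton] at h1
  have h2' : ((∑ s ∈ S, (nb G S s).card : ℕ) : ℚ) = 2 * ((faces G S 2).card : ℚ) := by
    rw [h2]; push_cast; ring
  have h4' : ((∑ s ∈ S, (nb G S s).card : ℕ) : ℚ) = 3 * ((faces G S 3).card : ℚ) := by
    rw [h4]; push_cast; ring
  have h6 : ((∑ s ∈ S, (nb G S s).card : ℕ) : ℚ) + 12 = 6 * (S.card : ℚ) := by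
    push_cast at h1 h2' h4' ⊢
    linarith
  exact_mod_cast h6

private theorem GG1_conn_union {G : SimpleGraph T} {A B : Finset T} (hA : Conn G A)
    (hB : Conn G B) (h : (A ∩ B).Nonempty) : Conn G (A ∪ B) := by
  obtain ⟨e, he⟩ := h
  have heA := (Finset.mem_inter.1 he).1
  have heB := (Finset.mem_inter.1 he).2
  have key : ∀ x ∈ A ∪ B,
      Relation.ReflTransGen (fun a b => a ∈ A ∪ B ∧ b ∈ A ∪ B ∧ G.Adj a b) x e ∧
      Relation.ReflTransGen (fun a b => a ∈ A ∪ B ∧ b ∈ A ∪ B ∧ G.Adj a b) e x := by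
    intro x hx
    rcases Finset.mem_union.1 hx with hx | hx
    · have hm : ∀ a b, a ∈ A ∧ b ∈ A ∧ G.Adj a b → a ∈ A ∪ B ∧ b ∈ A ∪ B ∧ G.Adj a b :=
        fun a b hab => ⟨Finset.mem_union_left _ hab.1, Finset.mem_union_left _ hab.2.1, hab.2.2⟩
      exact ⟨Relation.ReflTransGen.mono hm x e (hA.2 x hx e heA),
        Relation.ReflTransGen.mono hm e x (hA.2 e heA x hx)⟩
    · have hm : ∀ a b, a ∈ B ∧ b ∈ B ∧ G.Adj a b → a ∈ A ∪ B ∧ b ∈ A ∪ B ∧ G.Adj a b :=
        fun a b hab => ⟨Finset.mem_union_right _ hab.1, Finset.mem_union_right _ hab.2.1, hab.2.2⟩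
      exact ⟨Relation.ReflTransGen.mono hm x e (hB.2 x hx e heB),
        Relation.ReflTransGen.mono hm e x (hB.2 e heB x hx)⟩
  exact ⟨⟨e, Finset.mem_union_left _ heA⟩, fun x hx y hy => (key x hx).1.trans (key y hy).2⟩

private theorem GG1_nb_insert {G : SimpleGraph T} {A : Finset T} {p : T} :
    nb G (insert p A) p = nb G A p := by
  ext t
  rw [mem_nb, mem_nb, Finset.mem_insert]
  constructor
  · rintro ⟨rfl | h, h'⟩
    · exact absurd h' (G.loopless.irrefl _)
    · exact ⟨h, h'⟩
  · rintro ⟨h, h'⟩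
    exact ⟨Or.inr h, h'⟩

/-- links outside `E` -/
private theorem GG1_nb_out {G : SimpleGraph T} {A B E : Finset T} {p x : T}
    (hpE : nb G A p = E) (hAB : A ∩ B = E) (hno : ∀ a ∈ A \ E, ∀ b ∈ B \ E, ¬ G.Adj a b)
    (hx : x ∈ A) (hxE : x ∉ E) : nb G (A ∪ B) x = nb G (insert p A) x := by
  ext t
  rw [mem_nb, mem_nb, Finset.mem_union, Finset.mem_insert]
  constructor
  · rintro ⟨h | h, h'⟩
    · exact ⟨Or.inr h, h'⟩
    · by_cases htA : t ∈ A
      · exact ⟨Or.inr htA, h'⟩
      · exfalso
        refine hno x (Finset.mem_sdiff.2 ⟨hx, hxE⟩) t (Finset.mem_sdiff.2 ⟨h, ?_⟩) h'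
        intro htE
        rw [← hAB] at htE
        exact htA (Finset.mem_inter.1 htE).1
  · rintro ⟨rfl | h, h'⟩
    · exfalso
      apply hxE
      rw [← hpE]
      exact mem_nb.2 ⟨hx, h'.symm⟩
    · exact ⟨Or.inl h, h'⟩

private theorem GG1_nb_union {G : SimpleGraph T} {A B : Finset T} {x : T} :
    nb G (A ∪ B) x = nb G A x ∪ nb G B x := by
  ext t
  simp only [mem_nb, Finset.mem_union]
  tauto

private theorem GG1_nb_in {G : SimpleGraph T} {A : Finset T} {p x : T} (h : G.Adj p x) :
    nb G (insert p A) x = insert p (nb G A x) := by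
  ext t
  simp only [mem_nb, Finset.mem_insert]
  constructor
  · rintro ⟨rfl | h1, h2⟩
    · exact Or.inl rfl
    · exact Or.inr ⟨h1, h2⟩
  · rintro (rfl | ⟨h1, h2⟩)
    · exact ⟨Or.inl rfl, h.symm⟩
    · exact ⟨Or.inr h1, h2⟩

private theorem GG1_conn {G : SimpleGraph T} {r : ℕ} {A : Finset T} {p : T} (hp : p ∉ A)
    (hA : Zc G (r + 1) (insert p A)) : Conn G A := by
  have h1 : (nb G (insert p A) p).Nonempty := (hA.link (Finset.mem_insert_self p A)).nonempty
  obtain ⟨e, he⟩ := h1
  have he' := mem_nb.1 he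
  have h2 : Conn G (insert p A \ {p}) := by
    refine lemmaS hA ?_ ?_ ?_ ?_
    · intro x hx
      rw [Finset.mem_singleton] at hx
      rw [hx]
      exact Finset.mem_insert_self p A
    · intro x hx y hy z hz _ _ _ _
      rw [Finset.mem_singleton] at hy hz
      rw [hy, hz]
    · intro h
      rw [← h, Finset.mem_singleton] at he'
      exact G.loopless.irrefl p (he'.1 ▸ he'.2)
    · rintro ⟨h, -⟩
      rw [Finset.card_singleton] at h
      omega
  have h3 : insert p A \ {p} = A := by
    ext x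
    rw [Finset.mem_sdiff, Finset.mem_insert, Finset.mem_singleton]
    constructor
    · rintro ⟨h | h, h'⟩
      · exact absurd h h'
      · exact h
    · intro h
      exact ⟨Or.inr h, fun h' => hp (h' ▸ h)⟩
  rwa [h3] at h2

private theorem GG1_circle {G : SimpleGraph T} {A B E : Finset T} {p q : T} (hp : p ∉ A)
    (hq : q ∉ B) (hA : Circle G (insert p A)) (hB : Circle G (insert q B))
    (hpE : nb G A p = E) (hqE : nb G B q = E) (hAB : A ∩ B = E)
    (hno : ∀ a ∈ A \ E, ∀ b ∈ B \ E, ¬ G.Adj a b) (hcA : Conn G A) (hcB : Conn G B) :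
    Circle G (A ∪ B) := by
  have hE2 : E.card = 2 := by
    have h1 := hA.2.1 p (Finset.mem_insert_self p A)
    rwa [GG1_nb_insert, hpE] at h1
  have hEne : (A ∩ B).Nonempty := by
    rw [hAB, ← Finset.card_pos]
    omega
  have hcU : (A ∪ B).card + 2 = A.card + B.card := by
    have h1 := Finset.card_union_add_card_inter A B
    rwa [hAB, hE2] at h1
  have hA3 : 4 ≤ A.card + 1 := by
    have h1 := hA.1
    rwa [Finset.card_insert_of_notMem hp] at h1
  have hB3 : 4 ≤ B.card + 1 := by
    have h1 := hB.1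
    rwa [Finset.card_insert_of_notMem hq] at h1
  have hAB' : B ∩ A = E := by rw [Finset.inter_comm]; exact hAB
  have hno' : ∀ b ∈ B \ E, ∀ a ∈ A \ E, ¬ G.Adj b a := fun b hb a ha h => hno a ha b hb h.symm
  refine ⟨by omega, ?_, GG1_conn_union hcA hcB hEne⟩
  intro x hx
  by_cases hxE : x ∈ E
  · have hxA : x ∈ A := by rw [← hAB] at hxE; exact (Finset.mem_inter.1 hxE).1
    have hxB : x ∈ B := by rw [← hAB] at hxE; exact (Finset.mem_inter.1 hxE).2
    have hpx : G.Adj p x := by
      have h1 := hxE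
      rw [← hpE] at h1
      exact (mem_nb.1 h1).2
    have hqx : G.Adj q x := by
      have h1 := hxE
      rw [← hqE] at h1
      exact (mem_nb.1 h1).2
    have h1 := hA.2.1 x (Finset.mem_insert_of_mem hxA)
    rw [GG1_nb_in hpx, Finset.card_insert_of_notMem fun h => hp (mem_nb.1 h).1] at h1
    have h2 := hB.2.1 x (Finset.mem_insert_of_mem hxB)
    rw [GG1_nb_in hqx, Finset.card_insert_of_notMem fun h => hq (mem_nb.1 h).1] at h2
    have h3 : Disjoint (nb G A x) (nb G B x) := by
      rw [Finset.disjoint_left]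
      intro t htA htB
      have htE : t ∈ E := by
        rw [← hAB]
        exact Finset.mem_inter.2 ⟨(mem_nb.1 htA).1, (mem_nb.1 htB).1⟩
      have h4 : ∀ y, y ∈ E → y ∈ nb G (insert p A) p := by
        intro y hy
        rw [GG1_nb_insert, hpE]
        exact hy
      exact hA.not_adj (Finset.mem_insert_self p A) (h4 x hxE) (h4 t htE) (mem_nb.1 htA).2.ne
        (mem_nb.1 htA).2
    rw [GG1_nb_union, Finset.card_union_of_disjoint h3]
    omega
  · rcases Finset.mem_union.1 hx with h | h
    · rw [GG1_nb_out hpE hAB hno h hxE]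
      exact hA.2.1 x (Finset.mem_insert_of_mem h)
    · rw [Finset.union_comm, GG1_nb_out hqE hAB' hno' h hxE]
      exact hB.2.1 x (Finset.mem_insert_of_mem h)

theorem gglue {G : SimpleGraph T} {r : ℕ} {A B E : Finset T} {p q : T} (hp : p ∉ A) (hq : q ∉ B)
    (hA : Zc G (r + 1) (insert p A)) (hB : Zc G (r + 1) (insert q B)) (hpE : nb G A p = E)
    (hqE : nb G B q = E) (hAB : A ∩ B = E) (hno : ∀ a ∈ A \ E, ∀ b ∈ B \ E, ¬ G.Adj a b) :
    Zc G (r + 1) (A ∪ B) := by
  induction r generalizing A B E p q with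
  | zero => exact GG1_circle hp hq hA hB hpE hqE hAB hno (GG1_conn hp hA) (GG1_conn hq hB)
  | succ r ih =>
    have hcA : Conn G A := GG1_conn hp hA
    have hcB : Conn G B := GG1_conn hq hB
    have hEne : (A ∩ B).Nonempty := by
      rw [hAB, ← hpE, ← GG1_nb_insert]
      exact (hA.link (Finset.mem_insert_self p A)).nonempty
    have hconn : Conn G (A ∪ B) := GG1_conn_union hcA hcB hEne
    have hAB' : B ∩ A = E := by rw [Finset.inter_comm]; exact hAB
    have hno' : ∀ b ∈ B \ E, ∀ a ∈ A \ E, ¬ G.Adj b a := fun b hb a ha h => hno a ha b hb h.symm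
    have hlink : ∀ x ∈ A ∪ B, Zc G (r + 1) (nb G (A ∪ B) x) := by
      intro x hx
      by_cases hxE : x ∈ E
      · have hxA : x ∈ A := by rw [← hAB] at hxE; exact (Finset.mem_inter.1 hxE).1
        have hxB : x ∈ B := by rw [← hAB] at hxE; exact (Finset.mem_inter.1 hxE).2
        have hpx : G.Adj p x := by
          have h1 := hxE
          rw [← hpE] at h1
          exact (mem_nb.1 h1).2
        have hqx : G.Adj q x := by
          have h1 := hxE
          rw [← hqE] at h1
          exact (mem_nb.1 h1).2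
        have h1 : Zc G (r + 1) (insert p (nb G A x)) := by
          rw [← GG1_nb_in hpx]
          exact hA.link (Finset.mem_insert_of_mem hxA)
        have h2 : Zc G (r + 1) (insert q (nb G B x)) := by
          rw [← GG1_nb_in hqx]
          exact hB.link (Finset.mem_insert_of_mem hxB)
        have hmem : ∀ t, t ∈ E ↔ t ∈ A ∧ G.Adj p t := fun t => by rw [← hpE, mem_nb]
        have hmem' : ∀ t, t ∈ E ↔ t ∈ B ∧ G.Adj q t := fun t => by rw [← hqE, mem_nb]
        rw [GG1_nb_union]
        refine ih (E := nb G E x) (fun h => hp (mem_nb.1 h).1) (fun h => hq (mem_nb.1 h).1) h1 h2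
          ?_ ?_ ?_ ?_
        · ext t
          rw [mem_nb, mem_nb, mem_nb, hmem]
          tauto
        · ext t
          rw [mem_nb, mem_nb, mem_nb, hmem']
          tauto
        · ext t
          rw [Finset.mem_inter, mem_nb, mem_nb, mem_nb, ← hAB, Finset.mem_inter]
          tauto
        · intro a ha b hb
          rw [Finset.mem_sdiff, mem_nb, mem_nb] at ha hb
          exact hno a (Finset.mem_sdiff.2 ⟨ha.1.1, fun h => ha.2 ⟨h, ha.1.2⟩⟩) b
            (Finset.mem_sdiff.2 ⟨hb.1.1, fun h => hb.2 ⟨h, hb.1.2⟩⟩)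
      · rcases Finset.mem_union.1 hx with h | h
        · rw [GG1_nb_out hpE hAB hno h hxE]
          exact hA.link (Finset.mem_insert_of_mem h)
        · rw [Finset.union_comm, GG1_nb_out hqE hAB' hno' h hxE]
          exact hB.link (Finset.mem_insert_of_mem h)
    have hchi : chi G (A ∪ B) = 0 := by
      have h1 : chi G (A ∪ B) + chi G (A ∩ B) = chi G A + chi G B := by
        refine chi_glue ?_
        intro a ha b hb
        rw [Finset.mem_sdiff] at ha hb
        refine hno a (Finset.mem_sdiff.2 ⟨ha.1, fun h => ?_⟩) b (Finset.mem_sdiff.2 ⟨hb.1, fun h => ?_⟩)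
        · rw [← hAB] at h
          exact ha.2 (Finset.mem_inter.1 h).2
        · rw [← hAB] at h
          exact hb.2 (Finset.mem_inter.1 h).1
      have h2 := chi_insert (G := G) hp
      have h3 := chi_insert (G := G) hq
      have h4 : chi G (insert p A) = 0 := hA.chi_eq
      have h5 : chi G (insert q B) = 0 := hB.chi_eq
      rw [hAB] at h1
      rw [hpE, h4] at h2
      rw [hqE, h5] at h3
      linarith
    cases r with
    | zero => exact f2_of_chi hconn hlink hchi
    | succ m => exact ⟨hconn, hlink, hchi⟩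

end Pool.Agent.LibFlagPL

end

section

namespace Pool.Agent.LibFlagPL

open Finset

set_option linter.unusedSectionVars false

variable {T : Type} [Fintype T] [DecidableEq T]

private theorem GG2_adj {G : SimpleGraph T} {u v s t : T} (hsv : s ≠ v) (htv : t ≠ v)
    (hsu : s ≠ u) (htu : t ≠ u) : (ctr G u v).Adj s t ↔ G.Adj s t := by
  constructor
  · rintro ⟨_, _, _, h | h | h⟩
    · exact h
    · exact absurd h.1 hsu
    · exact absurd h.1 htu
  · intro h
    exact ⟨h.ne, hsv, htv, Or.inl h⟩

private theorem GG2_adj_left {G : SimpleGraph T} {u v t : T} (huv : u ≠ v) (htv : t ≠ v)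
    (htu : t ≠ u) : (ctr G u v).Adj u t ↔ G.Adj u t ∨ G.Adj v t := by
  constructor
  · rintro ⟨_, _, _, h | h | h⟩
    · exact Or.inl h
    · exact Or.inr h.2
    · exact absurd h.1 htu
  · rintro (h | h)
    · exact ⟨h.ne, huv, htv, Or.inl h⟩
    · exact ⟨htu.symm, huv, htv, Or.inr (Or.inl ⟨rfl, h⟩)⟩

theorem agr_ctr {G : SimpleGraph T} {u v : T} {S : Finset T} (hu : u ∉ S) (hv : v ∉ S) :
    Agr G (ctr G u v) S := by
  intro s hs t ht
  have h1 : s ≠ v := fun h => hv (h ▸ hs)
  have h2 : t ≠ v := fun h => hv (h ▸ ht)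
  have h3 : s ≠ u := fun h => hu (h ▸ hs)
  have h4 : t ≠ u := fun h => hu (h ▸ ht)
  exact (GG2_adj h1 h2 h3 h4).symm

/-- `chi` of the contraction -/
theorem chi_ctr {G : SimpleGraph T} {M : Finset T} {u v : T} (hg : GE G M u v) :
    chi (ctr G u v) (M.erase v) = chi G M + chi G (nb G M u ∩ nb G M v) / 4 := by
  obtain ⟨hu, hv, huv, hcyc⟩ := hg
  have hne : u ≠ v := huv.ne
  obtain ⟨N, hN⟩ : ∃ N, N = (M.erase v).erase u := ⟨_, rfl⟩
  have huN : u ∉ N := by rw [hN]; exact Finset.notMem_erase u _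
  have hvN : v ∉ N := by
    rw [hN]
    exact fun h => Finset.notMem_erase v M (Finset.mem_of_mem_erase h)
  have hvuN : v ∉ insert u N := by
    rw [Finset.mem_insert]
    rintro (h | h)
    · exact hne h.symm
    · exact hvN h
  have h1 : M.erase v = insert u N := by
    rw [hN, Finset.insert_erase (Finset.mem_erase.2 ⟨hne, hu⟩)]
  have h2 : M = insert v (insert u N) := by
    rw [← h1, Finset.insert_erase hv]
  have hmN : ∀ t, t ∈ N ↔ t ≠ u ∧ t ≠ v ∧ t ∈ M := by
    intro t
    rw [hN, Finset.mem_erase, Finset.mem_erase]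
  have hag : Agr G (ctr G u v) N := agr_ctr huN hvN
  -- left side
  have hnb : nb (ctr G u v) N u = nb G N u ∪ nb G N v := by
    ext t
    rw [mem_nb, Finset.mem_union, mem_nb, mem_nb]
    constructor
    · rintro ⟨h3, h4⟩
      rcases (GG2_adj_left hne ((hmN t).1 h3).2.1 ((hmN t).1 h3).1).1 h4 with h5 | h5
      · exact Or.inl ⟨h3, h5⟩
      · exact Or.inr ⟨h3, h5⟩
    · rintro (⟨h3, h4⟩ | ⟨h3, h4⟩)
      · exact ⟨h3, (GG2_adj_left hne ((hmN t).1 h3).2.1 ((hmN t).1 h3).1).2 (Or.inl h4)⟩
      · exact ⟨h3, (GG2_adj_left hne ((hmN t).1 h3).2.1 ((hmN t).1 h3).1).2 (Or.inr h4)⟩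
  have hL : chi (ctr G u v) (M.erase v) = chi G N - chi G (nb G N u ∪ nb G N v) / 2 := by
    rw [h1, chi_insert huN, hnb, hag.chi]
    rw [(hag.mono (Finset.union_subset nb_subset nb_subset)).chi]
  have hglue : chi G (nb G N u ∪ nb G N v) + chi G (nb G N u ∩ nb G N v) =
      chi G (nb G N u) + chi G (nb G N v) := by
    refine chi_glue ?_
    intro a ha b hb hab
    rw [Finset.mem_sdiff, mem_nb, mem_nb] at ha hb
    have ha1 := (hmN a).1 ha.1.1
    have hb1 := (hmN b).1 hb.1.1
    rcases hcyc b hb1.2.2 a ha1.2.2 hb1.1 ha1.2.1 hb.1.2 hab.symm ha.1.2.symm with h | h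
    · exact hb.2 ⟨hb.1.1, h⟩
    · exact ha.2 ⟨ha.1.1, h⟩
  -- right side
  have hR1 : chi G M = chi G (insert u N) - chi G (nb G (insert u N) v) / 2 := by
    conv_lhs => rw [h2]
    exact chi_insert hvuN
  have hR2 : nb G (insert u N) v = insert u (nb G N v) := by
    ext t
    rw [mem_nb, Finset.mem_insert, Finset.mem_insert, mem_nb]
    constructor
    · rintro ⟨h3 | h3, h4⟩
      · exact Or.inl h3
      · exact Or.inr ⟨h3, h4⟩
    · rintro (h3 | ⟨h3, h4⟩)
      · exact ⟨Or.inl h3, h3 ▸ huv.symm⟩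
      · exact ⟨Or.inr h3, h4⟩
  have hR3 : chi G (insert u N) = chi G N - chi G (nb G N u) / 2 := chi_insert huN
  have hR4 : chi G (insert u (nb G N v)) = chi G (nb G N v) - chi G (nb G (nb G N v) u) / 2 :=
    chi_insert fun h => huN (mem_nb.1 h).1
  have hR5 : nb G (nb G N v) u = nb G N u ∩ nb G N v := by
    ext t
    rw [mem_nb, Finset.mem_inter, mem_nb, mem_nb]
    tauto
  have hE : nb G M u ∩ nb G M v = nb G N u ∩ nb G N v := by
    ext t
    rw [Finset.mem_inter, Finset.mem_inter, mem_nb, mem_nb, mem_nb, mem_nb, hmN]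
    constructor
    · rintro ⟨⟨h3, h4⟩, _, h5⟩
      exact ⟨⟨⟨h4.ne.symm, h5.ne.symm, h3⟩, h4⟩, ⟨h4.ne.symm, h5.ne.symm, h3⟩, h5⟩
    · rintro ⟨⟨h3, h4⟩, _, h5⟩
      exact ⟨⟨h3.2.2, h4⟩, h3.2.2, h5⟩
  rw [hL, hE, hR1, hR2, hR3, hR4, hR5]
  linarith

/-- good edges are good in the links of common neighbours -/
theorem GE.link {G : SimpleGraph T} {M : Finset T} {u v x : T} (hg : GE G M u v)
    (hxu : G.Adj x u) (hxv : G.Adj x v) : GE G (nb G M x) u v := by
  obtain ⟨hu, hv, huv, hcyc⟩ := hg
  exact ⟨mem_nb.2 ⟨hu, hxu⟩, mem_nb.2 ⟨hv, hxv⟩, huv, fun w hw t ht h1 h2 h3 h4 h5 =>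
    hcyc w (mem_nb.1 hw).1 t (mem_nb.1 ht).1 h1 h2 h3 h4 h5⟩

/-- the links of the contraction -/
theorem gcon_link {G : SimpleGraph T} {n : ℕ} {M : Finset T} {u v s : T} (hM : Zc G (n + 2) M)
    (hg : GE G M u v) (hs : s ∈ M) (hsv : s ≠ v)
    (hcom : G.Adj s u → G.Adj s v → Zc (ctr G u v) (n + 1) ((nb G M s).erase v)) :
    Zc (ctr G u v) (n + 1) (nb (ctr G u v) (M.erase v) s) := by
  obtain ⟨hu, hv, huv, hcyc⟩ := hg
  have hne : u ≠ v := huv.ne
  by_cases hsu : s = u
  · subst hsu
    obtain ⟨A, hA⟩ : ∃ A, A = (nb G M s).erase v := ⟨_, rfl⟩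
    obtain ⟨B, hB⟩ : ∃ B, B = (nb G M v).erase s := ⟨_, rfl⟩
    have hmA : ∀ t, t ∈ A ↔ t ≠ v ∧ t ∈ M ∧ G.Adj s t := by
      intro t
      rw [hA, Finset.mem_erase, mem_nb]
    have hmB : ∀ t, t ∈ B ↔ t ≠ s ∧ t ∈ M ∧ G.Adj v t := by
      intro t
      rw [hB, Finset.mem_erase, mem_nb]
    have hvA : v ∉ A := fun h => ((hmA v).1 h).1 rfl
    have hsB : s ∉ B := fun h => ((hmB s).1 h).1 rfl
    have hAi : insert v A = nb G M s := by
      rw [hA]; exact Finset.insert_erase (mem_nb.2 ⟨hv, huv⟩)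
    have hBi : insert s B = nb G M v := by
      rw [hB]; exact Finset.insert_erase (mem_nb.2 ⟨hu, huv.symm⟩)
    have h1 : Zc G (n + 1) (A ∪ B) := by
      refine gglue (E := A ∩ B) hvA hsB ?_ ?_ ?_ ?_ rfl ?_
      · rw [hAi]; exact hM.link hu
      · rw [hBi]; exact hM.link hv
      · ext t
        rw [mem_nb, Finset.mem_inter, hmA, hmB]
        constructor
        · rintro ⟨h2, h3⟩
          exact ⟨h2, h2.2.2.ne.symm, h2.2.1, h3⟩
        · rintro ⟨h2, h3⟩
          exact ⟨h2, h3.2.2⟩
      · ext t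
        rw [mem_nb, Finset.mem_inter, hmA, hmB]
        constructor
        · rintro ⟨h2, h3⟩
          exact ⟨⟨h2.2.2.ne.symm, h2.2.1, h3⟩, h2⟩
        · rintro ⟨h2, h3⟩
          exact ⟨h3, h2.2.2⟩
      · intro a ha b hb hab
        rw [Finset.mem_sdiff, Finset.mem_inter] at ha hb
        have ha1 := (hmA a).1 ha.1
        have hb1 := (hmB b).1 hb.1
        rcases hcyc b hb1.2.1 a ha1.2.1 hb1.1 ha1.1 hb1.2.2 hab.symm ha1.2.2.symm with h | h
        · exact hb.2 ⟨(hmA b).2 ⟨hb1.2.2.ne.symm, hb1.2.1, h⟩, hb.1⟩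
        · exact ha.2 ⟨ha.1, (hmB a).2 ⟨ha1.2.2.ne.symm, ha1.2.1, h⟩⟩
    have h2 : nb (ctr G s v) (M.erase v) s = A ∪ B := by
      rw [nb_ctr_self huv]
      ext t
      rw [Finset.mem_erase, Finset.mem_erase, Finset.mem_union, Finset.mem_union, mem_nb, mem_nb,
        hmA, hmB]
      constructor
      · rintro ⟨h3, h4, h5 | h5⟩
        · exact Or.inl ⟨h3, h5⟩
        · exact Or.inr ⟨h4, h5⟩
      · rintro (h3 | h3)
        · exact ⟨h3.1, h3.2.2.ne.symm, Or.inl h3.2⟩
        · exact ⟨h3.2.2.ne.symm, h3.1, Or.inr h3.2⟩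
    rw [h2]
    refine Agr.zc (agr_ctr ?_ ?_) h1
    · rw [Finset.mem_union]
      rintro (h | h)
      · exact G.loopless.irrefl s ((hmA s).1 h).2.2
      · exact hsB h
    · rw [Finset.mem_union]
      rintro (h | h)
      · exact hvA h
      · exact G.loopless.irrefl v ((hmB v).1 h).2.2
  · by_cases hav : G.Adj s v
    · by_cases hau : G.Adj s u
      · -- common neighbour
        rw [nb_ctr_of_adj hu huv hsu hav]
        have h1 : insert u ((nb G M s).erase v) = (nb G M s).erase v :=
          Finset.insert_eq_self.2 (Finset.mem_erase.2 ⟨hne, mem_nb.2 ⟨hu, hau⟩⟩)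
        rw [h1]
        exact hcom hau hav
      · -- neighbour of `v` only: rename `v` to `u`
        rw [nb_ctr_of_adj hu huv hsu hav]
        have h1 : insert u ((nb G M s).erase v) = (nb G M s).image fun t => if t = v then u else t := by
          ext t
          rw [Finset.mem_insert, Finset.mem_erase, Finset.mem_image]
          constructor
          · rintro (rfl | ⟨h2, h3⟩)
            · exact ⟨v, mem_nb.2 ⟨hv, hav⟩, if_pos rfl⟩
            · exact ⟨t, h3, if_neg h2⟩
          · rintro ⟨a, h2, h3⟩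
            by_cases h4 : a = v
            · rw [if_pos h4] at h3
              exact Or.inl h3.symm
            · rw [if_neg h4] at h3
              rw [← h3]
              exact Or.inr ⟨h4, h2⟩
        rw [h1]
        have hun : ∀ t ∈ nb G M s, t ≠ u := by
          intro t ht h
          rw [h] at ht
          exact hau (mem_nb.1 ht).2
        -- adjacency to `u` implies adjacency to `v`
        have hkey : ∀ t ∈ nb G M s, t ≠ v → G.Adj u t → G.Adj v t := by
          intro t ht htv h
          rcases hcyc s hs t (mem_nb.1 ht).1 hsu htv hav.symm (mem_nb.1 ht).2 h.symm with h2 | h2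
          · exact absurd h2.symm hau
          · exact h2
        refine Emb.zc (G := G) ⟨?_, ?_⟩ (hM.link hs)
        · intro a ha b hb hab
          by_cases h2 : a = v
          · by_cases h3 : b = v
            · rw [h2, h3]
            · rw [if_pos h2, if_neg h3] at hab
              exact absurd hab.symm (hun b hb)
          · by_cases h3 : b = v
            · rw [if_neg h2, if_pos h3] at hab
              exact absurd hab (hun a ha)
            · rw [if_neg h2, if_neg h3] at hab
              exact hab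
        · intro a ha b hb
          by_cases h2 : a = v
          · by_cases h3 : b = v
            · rw [if_pos h2, if_pos h3, h2, h3]
              exact ⟨fun h => absurd h ((ctr G u v).loopless.irrefl u),
                fun h => absurd h (G.loopless.irrefl v)⟩
            · rw [if_pos h2, if_neg h3, h2, GG2_adj_left hne h3 (hun b hb)]
              exact ⟨fun h => h.elim (hkey b hb h3) id, Or.inr⟩
          · by_cases h3 : b = v
            · rw [if_neg h2, if_pos h3, h3, SimpleGraph.adj_comm, GG2_adj_left hne h2 (hun a ha),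
                SimpleGraph.adj_comm G a v]
              exact ⟨fun h => h.elim (hkey a ha h2) id, Or.inr⟩
            · rw [if_neg h2, if_neg h3, GG2_adj h2 h3 (hun a ha) (hun b hb)]
    · -- not adjacent to `v`
      rw [nb_ctr_of_not_adj hsu hsv hav]
      refine Agr.zc (G := G) ?_ (hM.link hs)
      have hvn : ∀ t ∈ nb G M s, t ≠ v := by
        intro t ht h
        rw [h] at ht
        exact hav (mem_nb.1 ht).2
      have hkey : G.Adj s u → ∀ t ∈ nb G M s, t ≠ u → G.Adj v t → G.Adj u t := by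
        intro hau t ht htu h
        rcases hcyc t (mem_nb.1 ht).1 s hs htu hsv h (mem_nb.1 ht).2.symm hau with h2 | h2
        · exact h2
        · exact absurd h2.symm hav
      intro a ha b hb
      by_cases h2 : a = u
      · by_cases h3 : b = u
        · rw [h2, h3]
          exact ⟨fun h => absurd h (G.loopless.irrefl u),
            fun h => absurd h ((ctr G u v).loopless.irrefl u)⟩
        · rw [h2, GG2_adj_left hne (hvn b hb) h3]
          have hau : G.Adj s u := by rw [h2] at ha; exact (mem_nb.1 ha).2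
          exact ⟨Or.inl, fun h => h.elim id (hkey hau b hb h3)⟩
      · by_cases h3 : b = u
        · rw [h3, SimpleGraph.adj_comm (ctr G u v), GG2_adj_left hne (hvn a ha) h2,
            SimpleGraph.adj_comm G a u]
          have hau : G.Adj s u := by rw [h3] at hb; exact (mem_nb.1 hb).2
          exact ⟨Or.inl, fun h => h.elim id (hkey hau a ha h2)⟩
        · rw [GG2_adj (hvn a ha) (hvn b hb) h2 h3]

end Pool.Agent.LibFlagPL

end

section

namespace Pool.Agent.LibFlagPL

open Finset

set_option linter.unusedSectionVars false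

variable {T : Type} [Fintype T] [DecidableEq T]

/-- if all vertex links are cross-polytopes (of dimension at least one), so is the complex -/
theorem dia_of_links {G : SimpleGraph T} {r : ℕ} {K : Finset T} (hK : Zc G (r + 2) K)
    (h : ∀ x ∈ K, DIA G (nb G K x) (r + 2)) : DIA G K (r + 3) := by
  refine zc_jt hK ?_
  intro x hx
  have hc : Conn G (nb G K x) := (hK.link hx).conn
  obtain ⟨y0, hy0⟩ := hc.1
  have hy0' := mem_nb.1 hy0
  obtain ⟨t0, ht0, ht0x, ht0n⟩ := (h y0 hy0'.1).2.2 x (mem_nb.2 ⟨hx, hy0'.2.symm⟩)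
  have key : ∀ y, Relation.ReflTransGen (fun a b => a ∈ nb G K x ∧ b ∈ nb G K x ∧ G.Adj a b) y0 y →
      t0 ∈ nb G K y := by
    intro y hy
    induction hy with
    | refl => exact ht0
    | tail _ hab ih =>
      obtain ⟨ha, hb, hab⟩ := hab
      rename_i a b _
      have ha' := mem_nb.1 ha
      have hb' := mem_nb.1 hb
      have h1 := ((h a ha'.1).link (o := b) (mem_nb.2 ⟨hb'.1, hab⟩)).1
      obtain ⟨t1, ht1, ht1x, ht1n⟩ := h1.2.2 x
        (mem_nb.2 ⟨mem_nb.2 ⟨hx, ha'.2.symm⟩, hb'.2.symm⟩)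
      have ht1' := mem_nb.1 ht1
      have h2 : t0 = t1 := (h a ha'.1).2.1 x (mem_nb.2 ⟨hx, ha'.2.symm⟩) t0 ih t1 ht1'.1 ht0x ht1x
        ht0n ht1n
      rw [h2]
      exact mem_nb.2 ⟨(mem_nb.1 ht1'.1).1, ht1'.2⟩
  have ht0K : t0 ∈ K := (mem_nb.1 ht0).1
  have hsub : nb G K x ⊆ nb G K t0 := by
    intro y hy
    exact mem_nb.2 ⟨(mem_nb.1 hy).1, (mem_nb.1 (key y (hc.2 y0 hy0 y hy))).2.symm⟩
  have hKe := zc_susp_eq hK hx ht0K ht0x.symm ht0n hsub
  have huniq : ∀ y ∈ K, y ≠ x → ¬ G.Adj x y → y = t0 := by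
    intro y hy hyx hn
    rw [hKe, Finset.mem_insert, Finset.mem_insert] at hy
    rcases hy with h1 | h1 | h1
    · exact absurd h1 hyx
    · exact h1
    · exact absurd (mem_nb.1 h1).2 hn
  intro y hy z hz hyx hzx hny hnz
  rw [huniq y hy hyx hny, huniq z hz hzx hnz]

private theorem GG3_chi_circle {G : SimpleGraph T} {E : Finset T} (h : Circle G E) :
    chi G E = 1 - (E.card : ℚ) / 4 := by
  have h1 := chi_eq_sum (G := G) (S := E) (m := 2) (fun σ h1 h2 => h.no_three h1 h2)
  rw [h1]
  simp only [Finset.sum_range_succ, Finset.sum_range_zero, faces_zero, card_faces_one,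
    Finset.card_singleton, h.faces_two]
  push_cast
  ring

private theorem GG3_inter {G : SimpleGraph T} {M : Finset T} {u v : T} :
    nb G M u ∩ nb G M v = nb G (nb G M u) v := by
  ext t
  rw [Finset.mem_inter, mem_nb, mem_nb, mem_nb, mem_nb]
  tauto

private theorem GG3_nb {G : SimpleGraph T} {M : Finset T} {u v x : T} :
    nb G (nb G M u ∩ nb G M v) x = nb G (nb G M x) u ∩ nb G (nb G M x) v := by
  ext t
  simp only [Finset.mem_inter, mem_nb]
  tauto

theorem gcon_aux (hD : DHypG) {G : SimpleGraph T} {m : ℕ} {M : Finset T} {u v : T}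
    (hM : Zc G (m + 2) M) (hg : GE G M u v) :
    DIA G (nb G M u ∩ nb G M v) (m + 1) ∧ Zc (ctr G u v) (m + 2) (M.erase v) := by
  induction m generalizing M with
  | zero =>
    have hF : F2 G M := hM
    refine ⟨?_, hF.ctr hg⟩
    have hC : Circle G (nb G M u) := hF.2.1 u hg.1
    obtain ⟨a, b, hab, hn, he⟩ := hC.nb_eq (mem_nb.2 ⟨hg.2.1, hg.2.2.1⟩)
    rw [GG3_inter, he]
    refine ⟨Finset.card_pair hab, ?_, ?_⟩
    · intro x hx y hy z hz hyx hzx _ _
      rw [Finset.mem_insert, Finset.mem_singleton] at hx hy hz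
      rcases hx with rfl | rfl <;> rcases hy with rfl | rfl <;> rcases hz with rfl | rfl <;>
        first | rfl | exact absurd rfl hyx | exact absurd rfl hzx
    · intro x hx
      rw [Finset.mem_insert, Finset.mem_singleton] at hx
      rcases hx with rfl | rfl
      · exact ⟨b, by simp, hab.symm, hn⟩
      · exact ⟨a, by simp, hab, fun h => hn h.symm⟩
  | succ m ih =>
    have hu := hg.1
    have hv := hg.2.1
    have huv := hg.2.2.1
    have hEZ : Zc G (m + 1) (nb G M u ∩ nb G M v) := by
      rw [GG3_inter]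
      exact (hM.link hu).link (mem_nb.2 ⟨hv, huv⟩)
    have hIH : ∀ x ∈ nb G M u ∩ nb G M v,
        DIA G (nb G (nb G M u ∩ nb G M v) x) (m + 1) ∧
          Zc (ctr G u v) (m + 2) ((nb G M x).erase v) := by
      intro x hx
      rw [Finset.mem_inter, mem_nb, mem_nb] at hx
      rw [GG3_nb]
      exact ih (hM.link hx.1.1) (hg.link hx.1.2.symm hx.2.2.symm)
    have hconn : Conn (ctr G u v) (M.erase v) := ctr_conn hu huv hM.conn
    have hlinks : ∀ s ∈ M.erase v, Zc (ctr G u v) (m + 2) (nb (ctr G u v) (M.erase v) s) := by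
      intro s hs
      rw [Finset.mem_erase] at hs
      refine gcon_link (n := m + 1) hM hg hs.2 hs.1 ?_
      intro h1 h2
      exact (hIH s (Finset.mem_inter.2 ⟨mem_nb.2 ⟨hs.2, h1.symm⟩, mem_nb.2 ⟨hs.2, h2.symm⟩⟩)).2
    have hchiM : chi G M = 0 := hM.chi_eq
    have hchi := chi_ctr hg
    rw [hchiM, zero_add] at hchi
    have hE : DIA G (nb G M u ∩ nb G M v) (m + 1 + 1) ∧ chi G (nb G M u ∩ nb G M v) = 0 := by
      cases m with
      | zero =>
        have hC : Circle G (nb G M u ∩ nb G M v) := hEZ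
        have h1 := GG3_chi_circle hC
        have h2 : 0 ≤ chi (ctr G u v) (M.erase v) := hD 0 T (ctr G u v) (M.erase v) hconn hlinks
        rw [hchi, h1] at h2
        have h3 : ((nb G M u ∩ nb G M v).card : ℚ) ≤ 4 := by linarith
        have h4 : (nb G M u ∩ nb G M v).card ≤ 4 := by exact_mod_cast h3
        have h5 : (nb G M u ∩ nb G M v).card = 4 := le_antisymm h4 hC.1
        refine ⟨zc_dia_of_card hEZ h5, ?_⟩
        rw [h1, h5]
        norm_num
      | succ n =>
        exact ⟨dia_of_links hEZ fun x hx => (hIH x hx).1, hEZ.chi_eq⟩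
    refine ⟨hE.1, ?_⟩
    have hchi0 : chi (ctr G u v) (M.erase v) = 0 := by
      rw [hchi, hE.2]
      norm_num
    exact ⟨hconn, hlinks, hchi0⟩

theorem gcon (hD : DHypG) {G : SimpleGraph T} {m : ℕ} {M : Finset T} {u v : T}
    (hM : Zc G (m + 3) M) (hg : GE G M u v) :
    DIA G (nb G M u ∩ nb G M v) (m + 2) ∧ Zc (ctr G u v) (m + 3) (M.erase v) :=
  gcon_aux hD (m := m + 1) hM hg

end Pool.Agent.LibFlagPL

end

section

namespace Pool.Agent.LibFlagPL

open Finset

set_option linter.unusedSectionVars false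

variable {T : Type} [Fintype T] [DecidableEq T]

private theorem GK1_nonadj {G : SimpleGraph T} {O A : Finset T} {k : ℕ} (hd : DIA G O (k + 1))
    (hA : O ⊆ A) : ¬ Cl G A := by
  intro hc
  have h1 : O.Nonempty := by
    rw [← Finset.card_pos, hd.1]
    omega
  obtain ⟨x, hx⟩ := h1
  obtain ⟨y, hy, hne, hn⟩ := hd.2.2 x hx
  exact hn (hc x (hA hx) y (hA hy) hne.symm)

private theorem GK1_nbq {G : SimpleGraph T} {O U : Finset T} {q : T} (hq : q ∉ O ∪ U) :
    nb (capG G O q) (O ∪ U) q = O := by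
  ext t
  rw [mem_nb]
  constructor
  · rintro ⟨h1, h2⟩
    have htq : t ≠ q := fun h => hq (h ▸ h1)
    exact (capG_adj_left htq).1 h2
  · intro h
    have htq : t ≠ q := fun h' => hq (h' ▸ Finset.mem_union_left _ h)
    exact ⟨Finset.mem_union_left _ h, (capG_adj_left htq).2 h⟩

theorem gcap (hD : DHypG) (hN : NHypG) {G : SimpleGraph T} {m : ℕ} {K O U V : Finset T} {q : T}
    (hK : Zc G (m + 2) K) (hO : O ⊆ K) (hd : DIA G O (m + 2)) (hS : Sep G K O U V)
    (hq : q ∉ O ∪ U) : Zc (capG G O q) (m + 2) (insert q (O ∪ U)) := by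
  induction m generalizing K O U V with
  | zero =>
    have hSd : Sides G K O U V 2 := Sep.sides hD (r := 1) hK hO hd hS
    have hC : Circle G O := DIA.zc (k := 1) hd
    exact cap2 hK hC hO hSd hq
  | succ m ih =>
    have hSd : Sides G K O U V (m + 3) := Sep.sides hD (r := m + 2) hK hO hd hS
    have hUK : U ⊆ K := hSd.left_subset
    have hVK : V ⊆ K := hSd.right_subset
    have hqO : q ∉ O := fun h => hq (Finset.mem_union_left _ h)
    have hne : O.Nonempty := by
      rw [← Finset.card_pos, hd.1]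
      omega
    have hOz : Zc G (m + 2) O := DIA.zc (k := m + 2) hd
    have hKc : Conn G K := Zc.conn (m := m + 2) hK
    have hOchi : chi G O = 0 := Zc.chi_eq hOz
    have hKchi : chi G K = 0 := Zc.chi_eq (m := m + 1) hK
    have key : Conn (capG G O q) (insert q (O ∪ U)) ∧
        (∀ s ∈ insert q (O ∪ U), Zc (capG G O q) (m + 2)
          (nb (capG G O q) (insert q (O ∪ U)) s)) ∧ chi (capG G O q) (insert q (O ∪ U)) = 0 := by
      refine ⟨cap_conn hSd hO hne hKc hq, ?_, ?_⟩
      · intro s hs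
        rcases Finset.mem_insert.1 hs with rfl | hs
        · rw [cap_nb_q hqO]
          exact (cap_agr_away hqO).zc hOz
        · rcases Finset.mem_union.1 hs with ho | hp
          · rw [cap_nb_mid hSd hO hq ho]
            refine (cap_agr hSd hq ho).zc ?_
            have h1 : nb G K s ∩ U = nb G U s := by
              ext t
              rw [Finset.mem_inter, mem_nb, mem_nb]
              constructor
              · rintro ⟨⟨_, h2⟩, h3⟩
                exact ⟨h3, h2⟩
              · rintro ⟨h3, h2⟩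
                exact ⟨⟨hUK h3, h2⟩, h3⟩
            rw [h1]
            have hO' : nb G O s ⊆ nb G K s := by
              intro t ht
              rw [mem_nb] at ht ⊢
              exact ⟨hO ht.1, ht.2⟩
            have hq' : q ∉ nb G O s ∪ nb G U s := by
              intro h
              apply hq
              rcases Finset.mem_union.1 h with h | h
              · exact Finset.mem_union_left _ (mem_nb.1 h).1
              · exact Finset.mem_union_right _ (mem_nb.1 h).1
            exact ih (Zc.link (m := m + 2) hK (hO ho)) hO' (DIA.link hd ho).1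
              (Sep.link hD (r := m + 1) hK hO hd hS ho) hq'
          · rw [cap_nb_left hSd hO hq hp]
            have hq' : q ∉ nb G K s := by
              intro h
              obtain ⟨h1, h2⟩ := mem_nb.1 h
              rcases hSd.cases h1 with h3 | h3 | h3
              · exact hqO h3
              · exact hq (Finset.mem_union_right _ h3)
              · exact hSd.sep s hp q h3 h2
            exact (cap_agr_away hq').zc (Zc.link (m := m + 2) hK (hUK hp))
      · have h1 := chi_sides_union hSd hO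
        rw [hKchi, hOchi] at h1
        have h2 : chi G (O ∪ U) ≤ 0 := hN m T G K hK (O ∪ U) (Finset.union_subset hO hUK)
          (GK1_nonadj (k := m + 2) hd Finset.subset_union_left)
        have h3 : chi G (O ∪ V) ≤ 0 := hN m T G K hK (O ∪ V) (Finset.union_subset hO hVK)
          (GK1_nonadj (k := m + 2) hd Finset.subset_union_left)
        have h4 : chi G (O ∪ U) = 0 := by linarith
        rw [chi_insert hq, GK1_nbq hq, (cap_agr_away (G := G) (O := O) hq).chi,
          (cap_agr_away (G := G) (O := O) hqO).chi, h4, hOchi]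
        norm_num
    exact key

end Pool.Agent.LibFlagPL

end

section

namespace Pool.Agent.LibFlagPL

open Finset

set_option linter.unusedSectionVars false

variable {T : Type} [Fintype T] [DecidableEq T]

theorem gGE_of_cap {G : SimpleGraph T} {M O P Q : Finset T} {q u v : T} {j : ℕ}
    (hOM : O ⊆ M) (hS : Sides G M O P Q j) (hq : q ∉ O ∪ P)
    (h : GE (capG G O q) (insert q (O ∪ P)) u v) (hu : u ∉ insert q O) :
    GE G M u v ∧ u ∈ P := by
  obtain ⟨huM, hvM, huv, hsq⟩ := h
  have huq : u ≠ q := fun h0 => hu (by rw [h0]; exact Finset.mem_insert_self q O)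
  have huO : u ∉ O := fun h0 => hu (Finset.mem_insert_of_mem h0)
  have huP : u ∈ P := by
    rcases Finset.mem_insert.1 huM with h0 | h0
    · exact absurd h0 huq
    · rcases Finset.mem_union.1 h0 with h1 | h1
      · exact absurd h1 huO
      · exact h1
  have hvq : v ≠ q := by
    rintro rfl
    exact huO ((capG_adj_right huq).1 huv)
  have hvOP : v ∈ O ∪ P := (Finset.mem_insert.1 hvM).resolve_left hvq
  have hM : ∀ x ∈ O ∪ P, x ∈ M := fun x hx =>
    (Finset.mem_union.1 hx).elim (fun h0 => hOM h0) (fun h0 => hS.left_subset h0)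
  have hne : ∀ x ∈ O ∪ P, x ≠ q := fun x hx h0 => hq (h0 ▸ hx)
  have huOP : u ∈ O ∪ P := Finset.mem_union_right _ huP
  have huv' : G.Adj u v := (capG_adj huq hvq).1 huv
  refine ⟨⟨hM u huOP, hM v hvOP, huv', ?_⟩, huP⟩
  intro w hw t ht hwu htv hvw hwt htu
  have htOP : t ∈ O ∪ P := by
    rcases hS.cases ht with h0 | h0 | h0
    · exact Finset.mem_union_left _ h0
    · exact Finset.mem_union_right _ h0
    · exact absurd htu.symm (hS.sep u huP t h0)
  have htq : t ≠ q := hne t htOP
  have htu' : (capG G O q).Adj t u := (capG_adj htq huq).2 htu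
  by_cases hwQ : w ∈ Q
  · have hvO : v ∈ O := by
      rcases Finset.mem_union.1 hvOP with h0 | h0
      · exact h0
      · exact absurd hvw (hS.sep v h0 w hwQ)
    have htO : t ∈ O := by
      rcases Finset.mem_union.1 htOP with h0 | h0
      · exact h0
      · exact absurd hwt.symm (hS.sep t h0 w hwQ)
    rcases hsq q (Finset.mem_insert_self q _) t (Finset.mem_insert_of_mem htOP) huq.symm htv
      ((capG_adj_right hvq).2 hvO) ((capG_adj_left htq).2 htO) htu' with h0 | h0
    · exact absurd ((capG_adj_right huq).1 h0) huO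
    · exact Or.inr ((capG_adj hvq htq).1 h0)
  · have hwOP : w ∈ O ∪ P := by
      rcases hS.cases hw with h0 | h0 | h0
      · exact Finset.mem_union_left _ h0
      · exact Finset.mem_union_right _ h0
      · exact absurd h0 hwQ
    have hwq : w ≠ q := hne w hwOP
    rcases hsq w (Finset.mem_insert_of_mem hwOP) t (Finset.mem_insert_of_mem htOP) hwu htv
      ((capG_adj hvq hwq).2 hvw) ((capG_adj hwq htq).2 hwt) htu' with h0 | h0
    · exact Or.inl ((capG_adj huq hwq).1 h0)
    · exact Or.inr ((capG_adj hvq htq).1 h0)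

end Pool.Agent.LibFlagPL

end
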