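import Pool.Agent.LibFlagPL.CommonC
import Pool.Agent.LibFlagPL.GenE

/-!
# LibFlagPL.GenY: common neighbours in all dimensions
-/

section

namespace Pool.Agent.LibFlagPL

open Finset

set_option linter.unusedSectionVars false

variable {T : Type} [Fintype T] [DecidableEq T]

private theorem jt_of_card_two {G : SimpleGraph T} {a b : T} : JT G {a, b} := by
  intro x hx y hy z hz hyx hzx _ _
  simp only [Finset.mem_insert, Finset.mem_singleton] at hx hy hz
  rcases hx with rfl | rfl <;> rcases hy with rfl | rfl <;> rcases hz with rfl | rfl <;>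
    first
      | rfl
      | exact absurd rfl hyx
      | exact absurd rfl hzx

theorem TyB.jt {G : SimpleGraph T} {Y : Finset T} (h : TyB G Y) : JT G Y := by
  obtain ⟨a, b, rfl, -, -⟩ := h
  exact jt_of_card_two

theorem TyC.jt {G : SimpleGraph T} {Y : Finset T} (h : TyC G Y) : JT G Y := by
  obtain ⟨a, m, b, rfl, hab, hn, ham, hbm⟩ := h
  intro x hx y hy z hz hyx hzx hxy hxz
  simp only [Finset.mem_insert, Finset.mem_singleton] at hx hy hz
  rcases hx with rfl | rfl | rfl <;> rcases hy with rfl | rfl | rfl <;>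
    rcases hz with rfl | rfl | rfl <;>
    first
      | rfl
      | exact absurd rfl hyx
      | exact absurd rfl hzx
      | exact absurd ham hxy
      | exact absurd ham hxz
      | exact absurd hbm hxy
      | exact absurd hbm hxz
      | exact absurd ham.symm hxy
      | exact absurd ham.symm hxz
      | exact absurd hbm.symm hxy
      | exact absurd hbm.symm hxz

theorem TyD.jt {G : SimpleGraph T} {Y : Finset T} (h : TyD G Y) : JT G Y := by
  obtain ⟨a, b, m, n, rfl, hab, hn, ham, hbm, han, hbn, hmn⟩ := h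
  intro x hx y hy z hz hyx hzx hxy hxz
  simp only [Finset.mem_insert, Finset.mem_singleton] at hx hy hz
  rcases hx with rfl | rfl | rfl | rfl <;> rcases hy with rfl | rfl | rfl | rfl <;>
    rcases hz with rfl | rfl | rfl | rfl <;>
    first
      | rfl
      | exact absurd rfl hyx
      | exact absurd rfl hzx
      | exact absurd ham hxy
      | exact absurd ham hxz
      | exact absurd hbm hxy
      | exact absurd hbm hxz
      | exact absurd ham.symm hxy
      | exact absurd ham.symm hxz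
      | exact absurd hbm.symm hxy
      | exact absurd hbm.symm hxz
      | exact absurd han hxy
      | exact absurd han hxz
      | exact absurd hbn hxy
      | exact absurd hbn hxz
      | exact absurd han.symm hxy
      | exact absurd han.symm hxz
      | exact absurd hbn.symm hxy
      | exact absurd hbn.symm hxz
      | exact absurd hmn hxy
      | exact absurd hmn hxz
      | exact absurd hmn.symm hxy
      | exact absurd hmn.symm hxz

theorem Cl.jt_y {G : SimpleGraph T} {Y : Finset T} (h : Cl G Y) : JT G Y :=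
  fun x hx y hy z _ hyx _ hxy _ => absurd (h x hx y hy (Ne.symm hyx)) hxy

theorem Ind4.dia_y {G : SimpleGraph T} {p q r s : T} (h : Ind4 G p q r s) :
    DIA G {p, q, r, s} 2 := by
  obtain ⟨hpq, hqr, hrs, hsp, npr, nqs, hpr, hqs⟩ := h
  have hpq' := hpq.ne
  have hqr' := hqr.ne
  have hrs' := hrs.ne
  have hsp' := hsp.ne
  refine ⟨?_, ?_, ?_⟩
  · rw [Finset.card_insert_of_notMem, Finset.card_insert_of_notMem,
      Finset.card_insert_of_notMem, Finset.card_singleton]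
    · simp [hrs']
    · simp [hqr', nqs]
    · simp [hpq', npr, hsp'.symm]
  · intro x hx y hy z hz hyx hzx hxy hxz
    simp only [Finset.mem_insert, Finset.mem_singleton] at hx hy hz
    rcases hx with rfl | rfl | rfl | rfl <;> rcases hy with rfl | rfl | rfl | rfl <;>
      rcases hz with rfl | rfl | rfl | rfl <;>
      first
        | rfl
        | exact absurd rfl hyx
        | exact absurd rfl hzx
        | exact absurd hpq hxy
        | exact absurd hpq hxz
        | exact absurd hpq.symm hxy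
        | exact absurd hpq.symm hxz
        | exact absurd hqr hxy
        | exact absurd hqr hxz
        | exact absurd hqr.symm hxy
        | exact absurd hqr.symm hxz
        | exact absurd hrs hxy
        | exact absurd hrs hxz
        | exact absurd hrs.symm hxy
        | exact absurd hrs.symm hxz
        | exact absurd hsp hxy
        | exact absurd hsp hxz
        | exact absurd hsp.symm hxy
        | exact absurd hsp.symm hxz
  · intro x hx
    simp only [Finset.mem_insert, Finset.mem_singleton] at hx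
    rcases hx with rfl | rfl | rfl | rfl
    · exact ⟨r, by simp, npr.symm, hpr⟩
    · exact ⟨s, by simp, nqs.symm, hqs⟩
    · exact ⟨p, by simp, npr, fun h => hpr h.symm⟩
    · exact ⟨q, by simp, nqs, fun h => hqs h.symm⟩

/-- `chi` of the common neighbours of two nonadjacent vertices is nonnegative -/
theorem chi_common_nonneg {G : SimpleGraph T} {M : Finset T}
    (hN : ∀ A ⊆ M, ¬ Cl G A → chi G A ≤ 0) {a b : T} (ha : a ∈ M) (hb : b ∈ M) (hne : a ≠ b)
    (hn : ¬ G.Adj a b) (hK : chi G (nb G M a) = 0) :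
    0 ≤ chi G (nb G M a ∩ nb G M b) := by
  have h1 : chi G (insert a (nb G M a)) = 0 := by
    have haK : a ∉ nb G M a := fun h => G.loopless.irrefl a (mem_nb.1 h).2
    have h2 : nb G (nb G M a) a = nb G M a := by
      ext t
      rw [mem_nb, mem_nb]
      constructor
      · exact fun h => h.1
      · exact fun h => ⟨h, h.2⟩
    rw [chi_insert haK, h2, hK]
    norm_num
  have hbK : b ∉ insert a (nb G M a) := by
    rw [Finset.mem_insert]
    rintro (h | h)
    · exact hne h.symm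
    · exact hn (mem_nb.1 h).2
  have h3 : nb G (insert a (nb G M a)) b = nb G M a ∩ nb G M b := by
    ext t
    rw [mem_nb, Finset.mem_insert, Finset.mem_inter, mem_nb, mem_nb]
    constructor
    · rintro ⟨rfl | ⟨h4, h5⟩, h6⟩
      · exact absurd h6.symm hn
      · exact ⟨⟨h4, h5⟩, h4, h6⟩
    · rintro ⟨⟨h4, h5⟩, -, h6⟩
      exact ⟨Or.inr ⟨h4, h5⟩, h6⟩
  have h4 := chi_insert (G := G) hbK
  rw [h1, h3] at h4
  have h5 : chi G (insert b (insert a (nb G M a))) ≤ 0 := by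
    refine hN _ ?_ ?_
    · intro t ht
      rw [Finset.mem_insert, Finset.mem_insert] at ht
      rcases ht with rfl | rfl | ht
      · exact hb
      · exact ha
      · exact (mem_nb.1 ht).1
    · intro hcl
      exact hn (hcl a (by simp) b (by simp) hne)
  rw [h4] at h5
  linarith

theorem gclass_base (hN : NHypG) {G : SimpleGraph T} {M : Finset T} (hM : Zc G 3 M) {a b : T}
    (ha : a ∈ M) (hb : b ∈ M) (hne : a ≠ b) (hn : ¬ G.Adj a b) :
    JT G (nb G M a ∩ nb G M b) ∨ T3 G (nb G M a) (nb G M a ∩ nb G M b) 2 := by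
  have hNM : ∀ A ⊆ M, ¬ Cl G A → chi G A ≤ 0 := hN 0 T G M hM
  have hK : F2 G (nb G M a) := hM.2.1 a ha
  have hNK : ∀ A ⊆ nb G M a, ¬ Cl G A → chi G A ≤ 0 := fun A hA => hNM A (hA.trans nb_subset)
  have h0 : 0 ≤ chi G (nb G M a ∩ nb G M b) := chi_common_nonneg hNM ha hb hne hn hK.chi_eq
  by_cases hcl : Cl G (nb G M a ∩ nb G M b)
  · exact Or.inl (Cl.jt_y hcl)
  · rcases classY_all hK hNK Finset.inter_subset_left hcl h0 with h | h | h | ⟨-, h⟩
    · exact Or.inl h.jt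
    · exact Or.inl h.jt
    · exact Or.inl h.jt
    · right
      rintro Z ⟨hZ, hZc, hZcl⟩
      obtain ⟨p, q, r, s, hp, hq, hr, hs, h4, h5⟩ := h Z hZ hZc hZcl
      have h6 : bdy G (nb G M a ∩ nb G M b) Z = {p, q, r, s} := by
        classical
        ext y
        unfold bdy
        rw [Finset.mem_filter]
        constructor
        · rintro ⟨h7, h8⟩
          exact (h5 y h7).1 h8
        · intro h7
          have h8 : y ∈ nb G M a ∩ nb G M b := by
            simp only [Finset.mem_insert, Finset.mem_singleton] at h7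
            rcases h7 with rfl | rfl | rfl | rfl
            · exact hp
            · exact hq
            · exact hr
            · exact hs
          exact ⟨h8, (h5 y h8).2 h7⟩
      rw [h6]
      exact h4.dia_y

end Pool.Agent.LibFlagPL

end

section

namespace Pool.Agent.LibFlagPL

open Finset

set_option linter.unusedSectionVars false

variable {T : Type} [Fintype T] [DecidableEq T]

theorem mem_bdy {G : SimpleGraph T} {Y Z : Finset T} {y : T} :
    y ∈ bdy G Y Z ↔ y ∈ Y ∧ ∃ x ∈ Z, G.Adj y x := by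
  simp [bdy]

theorem gy_exists_comp {G : SimpleGraph T} {X : Finset T} {x : T} (hx : x ∈ X) :
    ∃ Z, Comp G X Z ∧ x ∈ Z := by
  classical
  let Z := X.filter (fun y => Relation.ReflTransGen (fun a b => a ∈ X ∧ b ∈ X ∧ G.Adj a b) x y)
  have hZ : ∀ y, y ∈ Z ↔ y ∈ X ∧ Relation.ReflTransGen (fun a b => a ∈ X ∧ b ∈ X ∧ G.Adj a b) x y :=
    fun y => Finset.mem_filter
  have hxZ : x ∈ Z := (hZ x).2 ⟨hx, Relation.ReflTransGen.refl⟩
  have key : ∀ y, Relation.ReflTransGen (fun a b => a ∈ X ∧ b ∈ X ∧ G.Adj a b) x y →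
      Relation.ReflTransGen (fun a b => a ∈ Z ∧ b ∈ Z ∧ G.Adj a b) x y := by
    intro y hy
    induction hy with
    | refl => exact Relation.ReflTransGen.refl
    | tail hab hbc ih =>
      obtain ⟨h1, h2, h3⟩ := hbc
      exact ih.tail ⟨(hZ _).2 ⟨h1, hab⟩, (hZ _).2 ⟨h2, hab.tail ⟨h1, h2, h3⟩⟩, h3⟩
  have hsym : ∀ y, Relation.ReflTransGen (fun a b => a ∈ Z ∧ b ∈ Z ∧ G.Adj a b) x y →
      Relation.ReflTransGen (fun a b => a ∈ Z ∧ b ∈ Z ∧ G.Adj a b) y x := by
    intro y hy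
    induction hy with
    | refl => exact Relation.ReflTransGen.refl
    | tail _ hbc ih => exact Relation.ReflTransGen.head ⟨hbc.2.1, hbc.1, hbc.2.2.symm⟩ ih
  refine ⟨Z, ⟨fun y hy => ((hZ y).1 hy).1, ⟨⟨x, hxZ⟩, fun a ha b hb => ?_⟩, ?_⟩, hxZ⟩
  · exact (hsym a (key a ((hZ a).1 ha).2)).trans (key b ((hZ b).1 hb).2)
  · intro a ha b hb hab
    obtain ⟨h1, h2⟩ := (hZ a).1 ha
    exact (hZ b).2 ⟨hb, h2.tail ⟨h1, hb, hab⟩⟩

/-- a connected subset meeting a component lies in it -/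
theorem gy_comp_sub {G : SimpleGraph T} {X Z W : Finset T} (hZ : Comp G X Z) (hW : Conn G W)
    (hWX : W ⊆ X) {x : T} (hxW : x ∈ W) (hxZ : x ∈ Z) : W ⊆ Z := by
  have key : ∀ y, Relation.ReflTransGen (fun a b => a ∈ W ∧ b ∈ W ∧ G.Adj a b) x y → y ∈ Z := by
    intro y hy
    induction hy with
    | refl => exact hxZ
    | tail _ hbc ih =>
      obtain ⟨_, h2, h3⟩ := hbc
      exact hZ.2.2 _ ih _ (hWX h2) h3
  exact fun y hy => key y (hW.2 x hxW y hy)

theorem gy_comp_eq {G : SimpleGraph T} {X Z Z' : Finset T} (hZ : Comp G X Z)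
    (hZ' : Comp G X Z') {x : T} (hx : x ∈ Z) (hx' : x ∈ Z') : Z = Z' :=
  Finset.Subset.antisymm (gy_comp_sub hZ' hZ.2.1 hZ.1 hx hx') (gy_comp_sub hZ hZ'.2.1 hZ'.1 hx' hx)

theorem gy_comp_conn {G : SimpleGraph T} {X Z : Finset T} (hZ : Comp G X Z) (hX : Conn G X) :
    Z = X := by
  obtain ⟨x, hx⟩ := hZ.2.1.1
  exact Finset.Subset.antisymm hZ.1 (gy_comp_sub hZ hX (Finset.Subset.refl _) (hZ.1 hx) hx)

theorem gy_comp_shrink {G : SimpleGraph T} {K Y Z C : Finset T} (hZ : Comp G (K \ Y) Z)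
    (hb : bdy G Y Z ⊆ C) (hC : C ⊆ Y) : Comp G (K \ C) Z := by
  refine ⟨fun z hz => ?_, hZ.2.1, fun x hx y hy hxy => ?_⟩
  · obtain ⟨h1, h2⟩ := Finset.mem_sdiff.1 (hZ.1 hz)
    exact Finset.mem_sdiff.2 ⟨h1, fun h3 => h2 (hC h3)⟩
  · obtain ⟨h1, h2⟩ := Finset.mem_sdiff.1 hy
    by_cases h3 : y ∈ Y
    · exact absurd (hb (mem_bdy.2 ⟨h3, x, hx, hxy.symm⟩)) h2
    · exact hZ.2.2 x hx y (Finset.mem_sdiff.2 ⟨h1, h3⟩) hxy

theorem gy_bdy_nonempty {G : SimpleGraph T} {K Y Z : Finset T} (hK : Conn G K) (hY : Y ⊆ K)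
    (hne : Y.Nonempty) (hZ : Comp G (K \ Y) Z) : (bdy G Y Z).Nonempty := by
  by_contra hcon
  rw [Finset.not_nonempty_iff_eq_empty] at hcon
  have h1 : Comp G K Z := by
    refine ⟨hZ.1.trans Finset.sdiff_subset, hZ.2.1, fun x hx y hy hxy => ?_⟩
    by_cases h3 : y ∈ Y
    · have h4 : y ∈ bdy G Y Z := mem_bdy.2 ⟨h3, x, hx, hxy.symm⟩
      rw [hcon] at h4
      exact absurd h4 (Finset.notMem_empty y)
    · exact hZ.2.2 x hx y (Finset.mem_sdiff.2 ⟨hy, h3⟩) hxy
  have h2 := gy_comp_conn h1 hK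
  obtain ⟨y, hy⟩ := hne
  have h3 : y ∈ Z := by
    rw [h2]
    exact hY hy
  exact (Finset.mem_sdiff.1 (hZ.1 h3)).2 hy

theorem gy_nb_sdiff {G : SimpleGraph T} {K Y : Finset T} (x : T) :
    nb G (K \ Y) x = nb G K x \ nb G Y x := by
  ext t
  simp only [mem_nb, Finset.mem_sdiff]
  tauto

theorem gy_nb_comm {G : SimpleGraph T} {K : Finset T} (a b : T) :
    nb G (nb G K a) b = nb G (nb G K b) a := by
  ext t
  simp only [mem_nb]
  tauto

theorem gy_nb_mono {G : SimpleGraph T} {K L : Finset T} (h : K ⊆ L) (a : T) :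
    nb G K a ⊆ nb G L a := by
  intro t ht
  obtain ⟨h1, h2⟩ := mem_nb.1 ht
  exact mem_nb.2 ⟨h h1, h2⟩

end Pool.Agent.LibFlagPL

end

section

namespace Pool.Agent.LibFlagPL

open Finset

set_option linter.unusedSectionVars false

variable {T : Type} [Fintype T] [DecidableEq T]

theorem DIA.eq_of_sub {G : SimpleGraph T} {k : ℕ} {O O' : Finset T} (h : DIA G O k)
    (h' : DIA G O' k) (hs : O ⊆ O') : O = O' := by
  exact Finset.eq_of_subset_of_card_le hs (by rw [h.1, h'.1])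

theorem gy_jt_cl {G : SimpleGraph T} {A : Finset T} (h : Cl G A) : JT G A := by
  intro x hx y hy z _ hyx _ hxy _
  exact absurd (h x hx y hy hyx.symm) hxy

/-- a vertex of `Y` outside an induced cross-polytope of `Y` is adjacent to all of it -/
theorem JT.adj_dia {G : SimpleGraph T} {k : ℕ} {Y O : Finset T} (hY : JT G Y) (hO : O ⊆ Y)
    (hd : DIA G O k) {u : T} (hu : u ∈ Y) (huO : u ∉ O) : ∀ o ∈ O, G.Adj u o := by
  intro o ho
  by_contra hn
  obtain ⟨o', ho', hne, hno⟩ := hd.2.2 o ho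
  have h1 : u ≠ o := by
    intro h2
    rw [h2] at huO
    exact huO ho
  have h3 := hY o (hO ho) u hu o' (hO ho') h1 hne (fun h4 => hn h4.symm) hno
  rw [h3] at huO
  exact huO ho'

theorem jt_pair {G : SimpleGraph T} {A : Finset T} {b c : T} (hA : JT G A) (hne : b ≠ c)
    (hn : ¬ G.Adj b c) (hb : ∀ t ∈ A, G.Adj b t) (hc : ∀ t ∈ A, G.Adj c t) :
    JT G (insert b (insert c A)) := by
  have memb : ∀ t ∈ insert b (insert c A), t ≠ b → ¬ G.Adj b t → t = c := by
    intro t ht h1 h2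
    rcases Finset.mem_insert.1 ht with h3 | h3
    · exact absurd h3 h1
    · rcases Finset.mem_insert.1 h3 with h4 | h4
      · exact h4
      · exact absurd (hb t h4) h2
  have memc : ∀ t ∈ insert b (insert c A), t ≠ c → ¬ G.Adj c t → t = b := by
    intro t ht h1 h2
    rcases Finset.mem_insert.1 ht with h3 | h3
    · exact h3
    · rcases Finset.mem_insert.1 h3 with h4 | h4
      · exact absurd h4 h1
      · exact absurd (hc t h4) h2
  have mema : ∀ x ∈ A, ∀ t ∈ insert b (insert c A), ¬ G.Adj x t → t ∈ A := by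
    intro x hx t ht h1
    rcases Finset.mem_insert.1 ht with h3 | h3
    · rw [h3] at h1
      exact absurd (hb x hx).symm h1
    · rcases Finset.mem_insert.1 h3 with h4 | h4
      · rw [h4] at h1
        exact absurd (hc x hx).symm h1
      · exact h4
  have _ := hne
  have _ := hn
  intro x hx y hy z hz hyx hzx hxy hxz
  rcases Finset.mem_insert.1 hx with h3 | h3
  · rw [h3] at hyx hzx hxy hxz
    rw [memb y hy hyx hxy, memb z hz hzx hxz]
  · rcases Finset.mem_insert.1 h3 with h4 | h4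
    · rw [h4] at hyx hzx hxy hxz
      rw [memc y hy hyx hxy, memc z hz hzx hxz]
    · exact hA x h4 y (mema x h4 y hy hxy) z (mema x h4 z hz hxz) hyx hzx hxy hxz

theorem jt_conn {G : SimpleGraph T} {A : Finset T} (hA : JT G A) (h3 : 3 ≤ A.card) :
    Conn G A := by
  refine ⟨Finset.card_pos.1 (by omega), fun x hx y hy => ?_⟩
  by_cases hxy : x = y
  · rw [hxy]
  · by_cases hadj : G.Adj x y
    · exact Relation.ReflTransGen.single ⟨hx, hy, hadj⟩
    · obtain ⟨z, hz, hz'⟩ := Finset.exists_mem_notMem_of_card_lt_card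
        (s := {x, y}) (t := A) (lt_of_le_of_lt Finset.card_le_two (by omega))
      rw [Finset.mem_insert, Finset.mem_singleton, not_or] at hz'
      have h1 : G.Adj x z := by
        by_contra hn
        exact hz'.2 (hA x hx y hy z hz (Ne.symm hxy) hz'.1 hadj hn).symm
      have h2 : G.Adj z y := by
        by_contra hn
        exact hz'.1 (hA y hy x hx z hz hxy hz'.2 (fun h => hadj h.symm)
          (fun h => hn h.symm)).symm
      exact (Relation.ReflTransGen.single ⟨hx, hz, h1⟩).tail ⟨hz, hy, h2⟩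

theorem DIA.conn {G : SimpleGraph T} {k : ℕ} {O : Finset T} (h : DIA G O (k + 2)) :
    Conn G O := by
  exact jt_conn h.2.1 (by rw [h.1]; omega)

theorem DIA.nonempty {G : SimpleGraph T} {k : ℕ} {O : Finset T} (h : DIA G O (k + 1)) :
    O.Nonempty := by
  exact Finset.card_pos.1 (by rw [h.1]; omega)

/-- uniqueness of the antipode -/
theorem JT.uniq {G : SimpleGraph T} {A : Finset T} (h : JT G A) {x y z : T} (hx : x ∈ A)
    (hy : y ∈ A) (hz : z ∈ A) (hxy : ¬ G.Adj x y) (hyx : y ≠ x) (hzx : z ≠ x) (hzy : z ≠ y) :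
    G.Adj x z := by
  by_contra hn
  exact hzy (h x hx y hy z hz hyx hzx hxy hn).symm

end Pool.Agent.LibFlagPL

end

section

namespace Pool.Agent.LibFlagPL

open Finset

set_option linter.unusedSectionVars false

variable {T : Type} [Fintype T] [DecidableEq T]

/-- special vertex `b` (with `L = K_b`, `C = Y_b`) -/
structure GSp (G : SimpleGraph T) (L C : Finset T) (k : ℕ) : Prop where
  jt : JT G C
  conn : Conn G (L \ C)
  full : ∀ y ∈ C, ∃ z ∈ L \ C, G.Adj y z
  ndia : ¬ DIA G C k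

theorem gy_special_of {G : SimpleGraph T} {m : ℕ} {L C : Finset T} (hL : Zc G (m + 1) L)
    (hC : C ⊆ L) (hJ : JT G C) (hT : ¬ T3 G L C (m + 1)) : GSp G L C (m + 1) := by
  unfold T3 at hT
  push Not at hT
  obtain ⟨Z, hZ, hD⟩ := hT
  have hBC : bdy G C Z ⊆ C := fun y hy => (mem_bdy.1 hy).1
  have hne : bdy G C Z ≠ L := by
    intro h
    obtain ⟨z, hz⟩ := hZ.2.1.1
    have h1 := Finset.mem_sdiff.1 (hZ.1 hz)
    exact h1.2 (hBC (h ▸ h1.1))
  have hconn := lemmaS hL (hBC.trans hC) (hJ.mono hBC) hne hD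
  have hZeq : Z = L \ bdy G C Z := gy_comp_conn (gy_comp_shrink hZ subset_rfl hBC) hconn
  have hCB : C ⊆ bdy G C Z := by
    intro y hy
    by_contra hyB
    have h1 : y ∈ Z := by
      rw [hZeq]
      exact Finset.mem_sdiff.2 ⟨hC hy, hyB⟩
    exact (Finset.mem_sdiff.1 (hZ.1 h1)).2 hy
  have hB : bdy G C Z = C := Finset.Subset.antisymm hBC hCB
  rw [hB] at hD hconn
  refine ⟨hJ, hconn, ?_, hD⟩
  intro y hy
  obtain ⟨x, hx, hadj⟩ := (mem_bdy.1 (hCB hy)).2
  exact ⟨x, hZ.1 hx, hadj⟩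

theorem GSp.star {G : SimpleGraph T} {m : ℕ} {L C O : Finset T} (hL : Zc G (m + 1) L)
    (hC : C ⊆ L) (h : GSp G L C (m + 1)) (hO : O ⊆ C) : ¬ DIA G O (m + 1) := by
  intro d
  have hne : O ≠ C := by
    rintro rfl
    exact h.ndia d
  obtain ⟨u, hu, huO⟩ := Finset.exists_of_ssubset (Finset.ssubset_iff_subset_ne.2 ⟨hO, hne⟩)
  have hadj := h.jt.adj_dia hO d hu huO
  have hsub : O ⊆ nb G L u := fun o ho => mem_nb.2 ⟨hC (hO ho), hadj o ho⟩
  have heq : O = nb G L u := zc_sub d.zc (hL.link (hC hu)) hsub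
  obtain ⟨z, hz, hzu⟩ := h.full u hu
  have h1 := Finset.mem_sdiff.1 hz
  have h2 : z ∈ O := by
    rw [heq]
    exact mem_nb.2 ⟨h1.1, hzu⟩
  exact h1.2 (hO h2)

end Pool.Agent.LibFlagPL

end

section

namespace Pool.Agent.LibFlagPL

open Finset

set_option linter.unusedSectionVars false

variable {T : Type} [Fintype T] [DecidableEq T]

theorem gy_partner {G : SimpleGraph T} {m : ℕ} {K Y : Finset T} (hY : Y ⊆ K) {b y : T}
    (hb : b ∈ Y) (hs : GSp G (nb G K b) (nb G Y b) (m + 2)) (hy : y ∈ nb G Y b)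
    (hT : T3 G (nb G K y) (nb G Y y) (m + 2)) :
    ∃ c ∈ nb G Y y, c ≠ b ∧ ¬ G.Adj b c ∧ ∃ D0 : Finset T, D0 ⊆ nb G Y b ∧ D0 ⊆ nb G Y y ∧
      DIA G D0 (m + 1) ∧ ∀ t ∈ D0, G.Adj c t := by
  obtain ⟨z, hz, hyz⟩ := hs.full y hy
  rw [Finset.mem_sdiff] at hz
  obtain ⟨hzK, hzY⟩ := hz
  have hzK' := mem_nb.1 hzK
  have hy' := mem_nb.1 hy
  have hzY' : z ∉ Y := fun h => hzY (mem_nb.2 ⟨h, hzK'.2⟩)
  have hzX : z ∈ nb G K y \ nb G Y y := by
    rw [Finset.mem_sdiff]
    exact ⟨mem_nb.2 ⟨hzK'.1, hyz⟩, fun h => hzY' (mem_nb.1 h).1⟩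
  obtain ⟨ρ', hρ', hzρ⟩ := gy_exists_comp hzX
  have hD' := hT ρ' hρ'
  have hbD : b ∈ bdy G (nb G Y y) ρ' :=
    mem_bdy.2 ⟨mem_nb.2 ⟨hb, hy'.2.symm⟩, z, hzρ, hzK'.2⟩
  have hsub : bdy G (nb G Y y) ρ' ⊆ nb G Y y := fun t ht => (mem_bdy.1 ht).1
  obtain ⟨hL, c, hc, hcb, hbc, _, hct⟩ := DIA.link (k := m + 1) hD' hbD
  refine ⟨c, hsub hc, hcb, hbc, nb G (bdy G (nb G Y y) ρ') b, ?_, ?_, hL, hct⟩
  · intro t ht
    have h1 := mem_nb.1 ht
    exact mem_nb.2 ⟨(mem_nb.1 (hsub h1.1)).1, h1.2⟩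
  · intro t ht
    exact hsub (mem_nb.1 ht).1

theorem gy_not_T {G : SimpleGraph T} {m : ℕ} {K Y : Finset T} (hK : Zc G (m + 3) K)
    (hY : Y ⊆ K) {b d d' : T} (hb : b ∈ Y) (hs : GSp G (nb G K b) (nb G Y b) (m + 2))
    (hd : d ∈ nb G Y b) (hd' : d' ∈ nb G Y b) (hne : d ≠ d') (hn : ¬ G.Adj d d') :
    ¬ T3 G (nb G K d) (nb G Y d) (m + 2) := by
  intro hT
  obtain ⟨c, _, _, _, D0, hD0b, hD0d, hD0, _⟩ := gy_partner hY hb hs hd hT
  have h1 : ∀ t ∈ D0, G.Adj d t := fun t ht => (mem_nb.1 (hD0d ht)).2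
  have h2 : ∀ t ∈ D0, G.Adj d' t := by
    intro t ht
    by_contra hcon
    have hdt := h1 t ht
    have htd' : t ≠ d' := by
      rintro rfl
      exact hn hdt
    have h3 := hs.jt d' hd' d hd t (hD0b ht) hne htd' (fun h => hn h.symm) hcon
    rw [h3] at hdt
    exact G.irrefl hdt
  have h4 := hD0.susp hne hn h1 h2
  refine GSp.star (m := m + 1) (hK.link (hY hb)) (gy_nb_mono hY b) hs ?_ h4
  intro t ht
  rw [Finset.mem_insert, Finset.mem_insert] at ht
  rcases ht with rfl | rfl | ht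
  · exact hd
  · exact hd'
  · exact hD0b ht

end Pool.Agent.LibFlagPL

end

section

namespace Pool.Agent.LibFlagPL

open Finset

set_option linter.unusedSectionVars false

variable {T : Type} [Fintype T] [DecidableEq T]

theorem gy_partner_all {G : SimpleGraph T} {m : ℕ} {K Y : Finset T} (hK : Zc G (m + 3) K)
    (hY : Y ⊆ K) (hx : ∀ x ∈ Y, JT G (nb G Y x) ∨ T3 G (nb G K x) (nb G Y x) (m + 2))
    {b y : T} (hb : b ∈ Y) (hs : GSp G (nb G K b) (nb G Y b) (m + 2)) (hy : y ∈ nb G Y b)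
    (hT : T3 G (nb G K y) (nb G Y y) (m + 2)) :
    ∃ c ∈ nb G Y y, c ≠ b ∧ ¬ G.Adj b c ∧ ∀ e ∈ nb G Y b, G.Adj c e := by
  obtain ⟨c, hc, hcb, hbc, D0, hD0b, hD0y, hDIA, hcD⟩ := gy_partner hY hb hs hy hT
  refine ⟨c, hc, hcb, hbc, ?_⟩
  intro e he
  obtain ⟨d, hd⟩ := hDIA.nonempty
  obtain ⟨d', hd', hdd', hnd⟩ := hDIA.2.2 d hd
  have hdb := mem_nb.1 (hD0b hd)
  have heb := mem_nb.1 he
  have hJd : JT G (nb G Y d) := (hx d hdb.1).resolve_right
    (gy_not_T hK hY hb hs (hD0b hd) (hD0b hd') hdd'.symm hnd)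
  by_cases h1 : e = d
  · rw [h1]
    exact hcD d hd
  · by_cases h2 : e = d'
    · rw [h2]
      exact hcD d' hd'
    · have h3 : G.Adj d e := hs.jt.uniq (hD0b hd) (hD0b hd') he hnd hdd' h1 h2
      have h4 : b ∈ nb G Y d := mem_nb.2 ⟨hb, hdb.2.symm⟩
      have h5 : c ∈ nb G Y d := mem_nb.2 ⟨(mem_nb.1 hc).1, (hcD d hd).symm⟩
      have h6 : e ∈ nb G Y d := mem_nb.2 ⟨heb.1, h3⟩
      have h7 : e ≠ c := fun h => hbc (h ▸ heb.2)
      exact hJd.uniq h5 h4 h6 (fun h => hbc h.symm) hcb.symm h7 heb.2.ne.symm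

end Pool.Agent.LibFlagPL

end

section

namespace Pool.Agent.LibFlagPL

open Finset

set_option linter.unusedSectionVars false

variable {T : Type} [Fintype T] [DecidableEq T]

theorem gy_Y3a {G : SimpleGraph T} {m : ℕ} {K Y : Finset T} (hK : Zc G (m + 3) K)
    (hY : Y ⊆ K) (hN : ∀ A ⊆ K, ¬ Cl G A → chi G A ≤ 0)
    (hx0 : ∀ x ∈ Y, Cl G (nb G Y x) ∨ chi G (nb G Y x) = 0)
    (hx : ∀ x ∈ Y, JT G (nb G Y x) ∨ T3 G (nb G K x) (nb G Y x) (m + 2))
    {b y : T} (hb : b ∈ Y) (hs : GSp G (nb G K b) (nb G Y b) (m + 2)) (hy : y ∈ nb G Y b)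
    (hT : T3 G (nb G K y) (nb G Y y) (m + 2)) : JT G (nb G Y y) := by
  classical
  obtain ⟨c, hcy, hcb, hbc, hce⟩ := gy_partner_all hK hY hx hb hs hy hT
  obtain ⟨hyY, hby⟩ := mem_nb.1 hy
  obtain ⟨hcY, hyc⟩ := mem_nb.1 hcy
  obtain ⟨R, hR⟩ : ∃ R : Finset T, R = nb G (nb G Y b) y := ⟨_, rfl⟩
  have hmR : ∀ t, t ∈ R ↔ t ∈ nb G Y b ∧ G.Adj y t := by
    intro t
    rw [hR]
    exact mem_nb
  obtain ⟨A, hA⟩ : ∃ A : Finset T, A = insert b (insert c R) := ⟨_, rfl⟩
  have hmA : ∀ t, t ∈ A ↔ t = b ∨ t = c ∨ t ∈ R := by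
    intro t
    rw [hA, Finset.mem_insert, Finset.mem_insert]
  have hbA : b ∈ A := (hmA b).2 (Or.inl rfl)
  have hcA : c ∈ A := (hmA c).2 (Or.inr (Or.inl rfl))
  have hAsub : A ⊆ nb G Y y := by
    intro t ht
    rcases (hmA t).1 ht with h | h | h
    · rw [h]
      exact mem_nb.2 ⟨hb, hby.symm⟩
    · rw [h]
      exact hcy
    · obtain ⟨h1, h2⟩ := (hmR t).1 h
      exact mem_nb.2 ⟨(mem_nb.1 h1).1, h2⟩
  obtain ⟨P, hP⟩ : ∃ P : Finset T, P = nb G Y y \ A := ⟨_, rfl⟩
  have hmP : ∀ p ∈ P, p ∈ Y ∧ G.Adj y p ∧ p ∉ A := by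
    intro p hp
    rw [hP] at hp
    obtain ⟨h1, h2⟩ := Finset.mem_sdiff.1 hp
    exact ⟨(mem_nb.1 h1).1, (mem_nb.1 h1).2, h2⟩
  have hpb : ∀ p ∈ P, ¬ G.Adj p b := by
    intro p hp hadj
    obtain ⟨h1, h2, h3⟩ := hmP p hp
    exact h3 ((hmA p).2 (Or.inr (Or.inr ((hmR p).2 ⟨mem_nb.2 ⟨h1, hadj.symm⟩, h2⟩))))
  have hpd : ∀ p ∈ P, ∀ d ∈ R, ∀ d' ∈ nb G Y b, d' ≠ d → ¬ G.Adj d d' → ¬ G.Adj p d := by
    intro p hp d hd d' hd' hne hn hadj
    obtain ⟨h1, h2, h3⟩ := hmP p hp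
    have hdb : d ∈ nb G Y b := ((hmR d).1 hd).1
    have hdY : d ∈ Y := (mem_nb.1 hdb).1
    have h4 := gy_not_T hK hY hb hs hdb hd' hne.symm hn
    have h5 : JT G (nb G Y d) := (hx d hdY).resolve_right h4
    have hbd : b ∈ nb G Y d := mem_nb.2 ⟨hb, (mem_nb.1 hdb).2.symm⟩
    have hcd : c ∈ nb G Y d := mem_nb.2 ⟨hcY, (hce d hdb).symm⟩
    have hpd' : p ∈ nb G Y d := mem_nb.2 ⟨h1, hadj.symm⟩
    have hpb' : p ≠ b := fun h => h3 (h ▸ hbA)
    have hpc' : p ≠ c := fun h => h3 (h ▸ hcA)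
    exact hpc' (h5 b hbd c hcd p hpd' hcb hpb' hbc (fun h => hpb p hp h.symm)).symm
  obtain ⟨A', hA'⟩ : ∃ A' : Finset T,
      A' = insert c (R.filter (fun e => ∀ f ∈ nb G Y b, f ≠ e → G.Adj e f)) := ⟨_, rfl⟩
  have hmA' : ∀ t, t ∈ A' ↔ t = c ∨ (t ∈ R ∧ ∀ f ∈ nb G Y b, f ≠ t → G.Adj t f) := by
    intro t
    rw [hA', Finset.mem_insert, Finset.mem_filter]
  have hA'sub : A' ⊆ A := by
    intro t ht
    rcases (hmA' t).1 ht with h | h
    · rw [h]
      exact hcA
    · exact (hmA t).2 (Or.inr (Or.inr h.1))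
  have hcl : Cl G A' := by
    intro s hs' t ht hst
    rcases (hmA' s).1 hs' with h | h <;> rcases (hmA' t).1 ht with h' | h'
    · exact absurd (h.trans h'.symm) hst
    · rw [h]
      exact hce t ((hmR t).1 h'.1).1
    · rw [h']
      exact (hce s ((hmR s).1 h.1).1).symm
    · exact h.2 t ((hmR t).1 h'.1).1 (fun he => hst he.symm)
  have hno : ∀ p ∈ P, ∀ a ∈ A \ A', ¬ G.Adj p a := by
    intro p hp a ha
    obtain ⟨ha1, ha2⟩ := Finset.mem_sdiff.1 ha
    rcases (hmA a).1 ha1 with h | h | h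
    · rw [h]
      exact hpb p hp
    · exact absurd ((hmA' a).2 (Or.inl h)) ha2
    · by_cases hall : ∀ f ∈ nb G Y b, f ≠ a → G.Adj a f
      · exact absurd ((hmA' a).2 (Or.inr ⟨h, hall⟩)) ha2
      · push Not at hall
        obtain ⟨f, hf1, hf2, hf3⟩ := hall
        exact hpd p hp a h f hf1 hf2 hf3
  have hbR : ∀ t ∈ R, G.Adj b t := fun t ht => (mem_nb.1 ((hmR t).1 ht).1).2
  have hcR : ∀ t ∈ R, G.Adj c t := fun t ht => hce t ((hmR t).1 ht).1
  have hchiA : chi G A = 0 := by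
    rw [hA]
    exact chi_join_pair hcb.symm hbc hbR hcR
  have hunion : A ∪ P = nb G Y y := by
    rw [hP]
    exact Finset.union_sdiff_of_subset hAsub
  have hncl : ¬ Cl G (nb G Y y) := fun h => hbc (h b (hAsub hbA) c (hAsub hcA) hcb.symm)
  have hchi : chi G (A ∪ P) = 0 := by
    rw [hunion]
    exact (hx0 y hyY).resolve_left hncl
  have hdisj : Disjoint A P := by
    rw [hP]
    exact Finset.disjoint_sdiff
  have hAK : A ⊆ K := fun t ht => hY ((mem_nb.1 (hAsub ht)).1)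
  have hPK : P ⊆ K := fun p hp => hY (hmP p hp).1
  have hPe : P = ∅ := chi_trick hN hAK hPK hdisj hA'sub hcl hno hchiA hchi
  rw [hPe, Finset.union_empty] at hunion
  rw [← hunion, hA]
  have hRsub : R ⊆ nb G Y b := fun t ht => ((hmR t).1 ht).1
  exact jt_pair (JT.mono hs.jt hRsub) hcb.symm hbc hbR hcR

end Pool.Agent.LibFlagPL

end

section

namespace Pool.Agent.LibFlagPL

open Finset

set_option linter.unusedSectionVars false

variable {T : Type} [Fintype T] [DecidableEq T]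

theorem gy_Y3b {G : SimpleGraph T} {m : ℕ} {K Y : Finset T} (hK : Zc G (m + 3) K)
    (hY : Y ⊆ K) (hN : ∀ A ⊆ K, ¬ Cl G A → chi G A ≤ 0) (h0 : chi G Y = 0)
    (hx0 : ∀ x ∈ Y, Cl G (nb G Y x) ∨ chi G (nb G Y x) = 0)
    (hx : ∀ x ∈ Y, JT G (nb G Y x) ∨ T3 G (nb G K x) (nb G Y x) (m + 2))
    {b y : T} (hb : b ∈ Y) (hs : GSp G (nb G K b) (nb G Y b) (m + 2)) (hy : y ∈ nb G Y b)
    (hT : T3 G (nb G K y) (nb G Y y) (m + 2)) : JT G Y := by
  obtain ⟨c, hcy, hcb, hbc, hce⟩ := gy_partner_all hK hY hx hb hs hy hT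
  have hcY : c ∈ Y := nb_subset hcy
  have hJT : ∀ e ∈ nb G Y b, JT G (nb G Y e) := by
    intro e he
    rcases hx e (nb_subset he) with h | h
    · exact h
    · exact gy_Y3a hK hY hN hx0 hx hb hs he h
  have hbt : ∀ t ∈ nb G Y b, G.Adj b t := fun t ht => (mem_nb.1 ht).2
  have hAY : insert b (insert c (nb G Y b)) ⊆ Y := by
    intro t ht
    rcases Finset.mem_insert.1 ht with h | h
    · rw [h]
      exact hb
    · rcases Finset.mem_insert.1 h with h | h
      · rw [h]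
        exact hcY
      · exact nb_subset h
  have hP : Y \ insert b (insert c (nb G Y b)) = ∅ := by
    refine chi_trick (A := insert b (insert c (nb G Y b))) (A' := {c}) hN (hAY.trans hY)
      (Finset.sdiff_subset.trans hY) Finset.disjoint_sdiff ?_ ?_ ?_
      (chi_join_pair hcb.symm hbc hbt hce) ?_
    · rw [Finset.singleton_subset_iff]
      exact Finset.mem_insert_of_mem (Finset.mem_insert_self _ _)
    · intro s hs t ht hne
      rw [Finset.mem_singleton] at hs ht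
      exact absurd (hs.trans ht.symm) hne
    · intro p hp a ha hpa
      obtain ⟨hpY, hpA⟩ := Finset.mem_sdiff.1 hp
      obtain ⟨haA, hac⟩ := Finset.mem_sdiff.1 ha
      have hpb : p ≠ b := fun h => hpA (by rw [h]; exact Finset.mem_insert_self _ _)
      have hpc : p ≠ c := fun h =>
        hpA (by rw [h]; exact Finset.mem_insert_of_mem (Finset.mem_insert_self _ _))
      have hpnb : ¬ G.Adj b p := fun h =>
        hpA (Finset.mem_insert_of_mem (Finset.mem_insert_of_mem (mem_nb.2 ⟨hpY, h⟩)))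
      rcases Finset.mem_insert.1 haA with h | h
      · rw [h] at hpa
        exact hpnb hpa.symm
      · rcases Finset.mem_insert.1 h with h | h
        · exact hac (Finset.mem_singleton.2 h)
        · have h1 := mem_nb.1 h
          exact hpnb ((hJT a h).uniq (mem_nb.2 ⟨hb, h1.2.symm⟩) (mem_nb.2 ⟨hcY, (hce a h).symm⟩)
            (mem_nb.2 ⟨hpY, hpa.symm⟩) hbc hcb hpb hpc)
    · rw [Finset.union_sdiff_of_subset hAY]
      exact h0
  have hYA : Y = insert b (insert c (nb G Y b)) :=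
    Finset.Subset.antisymm (Finset.sdiff_eq_empty_iff_subset.1 hP) hAY
  rw [hYA]
  exact jt_pair hs.jt hcb.symm hbc hbt hce

end Pool.Agent.LibFlagPL

end

section

namespace Pool.Agent.LibFlagPL

open Finset

set_option linter.unusedSectionVars false

variable {T : Type} [Fintype T] [DecidableEq T]

private theorem GY3_cl {G : SimpleGraph T} {A B : Finset T} (h : B ⊆ A) (hA : Cl G A) : Cl G B :=
  fun s hs t ht hst => hA s (h hs) t (h ht) hst

private theorem GY3_empty {G : SimpleGraph T} : chi G (∅ : Finset T) = 1 := by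
  rw [chi_cl (fun s hs => absurd hs (Finset.notMem_empty s)), Finset.card_empty, pow_zero]

theorem gy_disc {G : SimpleGraph T} {K Y : Finset T} (hY : Y ⊆ K)
    (hN : ∀ A ⊆ K, ¬ Cl G A → chi G A ≤ 0) (hcl : ¬ Cl G Y) (h0 : chi G Y = 0)
    (hc : ¬ Conn G Y) : JT G Y := by
  have hne : Y.Nonempty := by
    rw [Finset.nonempty_iff_ne_empty]
    rintro rfl
    exact hcl (fun s hs => absurd hs (Finset.notMem_empty s))
  obtain ⟨x, hx⟩ := hne
  obtain ⟨Z, hZ, hxZ⟩ := gy_exists_comp (G := G) hx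
  have hZY : Z ≠ Y := by
    intro e
    rw [← e] at hc
    exact hc hZ.2.1
  have hW : (Y \ Z).Nonempty := by
    rw [Finset.sdiff_nonempty]
    exact fun h => hZY (Finset.Subset.antisymm hZ.1 h)
  have hglue := chi_glue (G := G) (A := Z) (B := Y \ Z) (by
    intro a ha b hb hab
    rw [Finset.mem_sdiff] at ha hb
    exact hb.2 (hZ.2.2 a ha.1 b (Finset.mem_sdiff.1 hb.1).1 hab))
  have e1 : Z ∪ Y \ Z = Y := Finset.union_sdiff_of_subset hZ.1
  have e2 : Z ∩ (Y \ Z) = ∅ := Finset.inter_sdiff_self _ _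
  rw [e1, e2, h0, GY3_empty] at hglue
  obtain ⟨z1, z2⟩ := chi_le_half hN (hZ.1.trans hY) ⟨x, hxZ⟩
  obtain ⟨w1, w2⟩ := chi_le_half hN (Finset.sdiff_subset.trans hY) hW
  have z3 := z2 (by linarith)
  have w3 := w2 (by linarith)
  have hcard : Y.card = 2 := by
    rw [← e1, Finset.card_union_of_disjoint Finset.disjoint_sdiff, z3, w3]
  intro a ha b hb c hc' hba hca _ _
  by_contra hbc
  have hsub : ({a, b, c} : Finset T) ⊆ Y := by
    intro t ht
    simp only [Finset.mem_insert, Finset.mem_singleton] at ht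
    rcases ht with rfl | rfl | rfl <;> assumption
  have h3 : ({a, b, c} : Finset T).card = 3 := Finset.card_eq_three.2 ⟨a, b, c, hba.symm, hca.symm, hbc, rfl⟩
  have := Finset.card_le_card hsub
  omega

theorem gy_chi_compl {G : SimpleGraph T} {K Y Z : Finset T} (hY : Y ⊆ K)
    (hN : ∀ A ⊆ K, ¬ Cl G A → chi G A ≤ 0) (hcl : ¬ Cl G Y) (h0 : chi G Y = 0)
    (hK0 : chi G K = 0) (hZ : Comp G (K \ Y) Z) : chi G (K \ Z) = 0 := by
  have hZm : ∀ t ∈ Z, t ∈ K ∧ t ∉ Y := fun t ht => Finset.mem_sdiff.1 (hZ.1 ht)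
  have hglue := chi_glue (G := G) (A := K \ Z) (B := Y ∪ Z) (by
    intro a ha b hb hab
    rw [Finset.mem_sdiff, Finset.mem_sdiff, Finset.mem_union] at ha
    rw [Finset.mem_sdiff, Finset.mem_sdiff, Finset.mem_union] at hb
    have hbZ : b ∈ Z := by
      by_contra hbZ
      rcases hb.1 with h1 | h1
      · exact hb.2 ⟨hY h1, hbZ⟩
      · exact hbZ h1
    exact ha.2 (Or.inr (hZ.2.2 b hbZ a (Finset.mem_sdiff.2 ⟨ha.1.1, fun h => ha.2 (Or.inl h)⟩) hab.symm)))
  have e1 : K \ Z ∪ (Y ∪ Z) = K := by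
    ext t
    rw [Finset.mem_union, Finset.mem_sdiff, Finset.mem_union]
    constructor
    · rintro (h | h | h)
      · exact h.1
      · exact hY h
      · exact (hZm t h).1
    · intro h
      by_cases hz : t ∈ Z
      · exact Or.inr (Or.inr hz)
      · exact Or.inl ⟨h, hz⟩
  have e2 : (K \ Z) ∩ (Y ∪ Z) = Y := by
    ext t
    rw [Finset.mem_inter, Finset.mem_sdiff, Finset.mem_union]
    constructor
    · rintro ⟨⟨-, h1⟩, h | h⟩
      · exact h
      · exact absurd h h1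
    · intro h
      exact ⟨⟨hY h, fun hz => (hZm t hz).2 h⟩, Or.inl h⟩
  rw [e1, e2, hK0, h0] at hglue
  have hsub1 : Y ⊆ K \ Z := fun t ht => Finset.mem_sdiff.2 ⟨hY ht, fun hz => (hZm t hz).2 ht⟩
  have hsub2 : Y ∪ Z ⊆ K := Finset.union_subset hY (fun t ht => (hZm t ht).1)
  have h1 := hN (K \ Z) Finset.sdiff_subset (fun h => hcl (GY3_cl hsub1 h))
  have h2 := hN (Y ∪ Z) hsub2 (fun h => hcl (GY3_cl Finset.subset_union_left h))
  linarith

end Pool.Agent.LibFlagPL

end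

section

namespace Pool.Agent.LibFlagPL

open Finset

set_option linter.unusedSectionVars false

variable {T : Type} [Fintype T] [DecidableEq T]

theorem gy_far {G : SimpleGraph T} {Y : Finset T} (hx : ∀ x ∈ Y, JT G (nb G Y x)) {x w e f : T}
    (hxY : x ∈ Y) (hwY : w ∈ Y) (hne : w ≠ x) (hn : ¬ G.Adj x w) (he : e ∈ nb G Y x)
    (hew : G.Adj e w) (hf : f ∈ nb G Y e) (hfx : f ≠ x) (hfw : f ≠ w) :
    G.Adj x f ∧ G.Adj w f := by
  obtain ⟨heY, hxe⟩ := mem_nb.1 he
  have hx' : x ∈ nb G Y e := mem_nb.2 ⟨hxY, hxe.symm⟩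
  have hw' : w ∈ nb G Y e := mem_nb.2 ⟨hwY, hew⟩
  refine ⟨(hx e heY).uniq hx' hw' hf hn hne hfx hfw, ?_⟩
  exact (hx e heY).uniq hw' hx' hf (fun h => hn h.symm) hne.symm hfw hfx

theorem gy_Yb1 {G : SimpleGraph T} {K Y : Finset T} (hY : Y ⊆ K)
    (hN : ∀ A ⊆ K, ¬ Cl G A → chi G A ≤ 0) (h0 : chi G Y = 0)
    (hx : ∀ x ∈ Y, JT G (nb G Y x)) {x w : T} (hxY : x ∈ Y) (hwY : w ∈ Y) (hne : w ≠ x)
    (hn : ¬ G.Adj x w) (hall : ∀ e ∈ nb G Y x, G.Adj w e) : JT G Y := by
  have hadj : ∀ t ∈ nb G Y x, G.Adj x t := fun t ht => (mem_nb.1 ht).2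
  have hAY : insert x (insert w (nb G Y x)) ⊆ Y := by
    intro a ha
    rcases mem_insert.1 ha with rfl | ha
    · exact hxY
    rcases mem_insert.1 ha with rfl | ha
    · exact hwY
    exact (mem_nb.1 ha).1
  have hwA : w ∈ insert x (insert w (nb G Y x)) := mem_insert_of_mem (mem_insert_self _ _)
  have hP : Y \ insert x (insert w (nb G Y x)) = ∅ := by
    refine chi_trick (A' := {w}) hN (hAY.trans hY) (sdiff_subset.trans hY) disjoint_sdiff
      (singleton_subset_iff.2 hwA) ?_ ?_ (chi_join_pair hne.symm hn hadj hall) ?_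
    · intro a ha b hb hab
      rw [mem_singleton] at ha hb
      exact absurd (ha.trans hb.symm) hab
    · intro p hp a ha hpa
      obtain ⟨hpY, hpA⟩ := mem_sdiff.1 hp
      obtain ⟨haA, haw⟩ := mem_sdiff.1 ha
      rw [mem_singleton] at haw
      have hpx : p ≠ x := fun h => hpA (h ▸ mem_insert_self _ _)
      have hpw : p ≠ w := fun h => hpA (h ▸ hwA)
      have hnp : ¬ G.Adj x p := fun h =>
        hpA (mem_insert_of_mem (mem_insert_of_mem (mem_nb.2 ⟨hpY, h⟩)))
      rcases mem_insert.1 haA with rfl | haA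
      · exact hnp hpa.symm
      rcases mem_insert.1 haA with rfl | haA
      · exact haw rfl
      · exact hnp (gy_far hx hxY hwY hne hn haA (hall a haA).symm (mem_nb.2 ⟨hpY, hpa.symm⟩)
          hpx hpw).1
    · rw [union_sdiff_of_subset hAY]
      exact h0
  have hYA : Y = insert x (insert w (nb G Y x)) :=
    Subset.antisymm (sdiff_eq_empty_iff_subset.1 hP) hAY
  have hJ := jt_pair (hx x hxY) hne.symm hn hadj hall
  rw [← hYA] at hJ
  exact hJ

end Pool.Agent.LibFlagPL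

end

section

namespace Pool.Agent.LibFlagPL

open Finset

set_option linter.unusedSectionVars false

variable {T : Type} [Fintype T] [DecidableEq T]

private theorem GY13_path {G : SimpleGraph T} {S : Finset T} {P : T → Prop} {x : T}
    (hP : P x) (hstep : ∀ a ∈ S, P a → ∀ b ∈ S, G.Adj a b → P b) {y : T}
    (h : Relation.ReflTransGen (fun a b => a ∈ S ∧ b ∈ S ∧ G.Adj a b) x y) : P y := by
  induction h with
  | refl => exact hP
  | tail _ hab ih => exact hstep _ hab.1 ih _ hab.2.1 hab.2.2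

private theorem GY13_cyc {G : SimpleGraph T} {K Y : Finset T} (hY : Y ⊆ K)
    (hN : ∀ A ⊆ K, ¬ Cl G A → chi G A ≤ 0) (h0 : chi G Y = 0)
    (hx : ∀ x ∈ Y, JT G (nb G Y x)) {x w d d' : T} (hxY : x ∈ Y) (hwY : w ∈ Y) (hne : w ≠ x)
    (hn : ¬ G.Adj x w) (hnb : nb G Y x = {d, d'}) (hdd : d ≠ d') (hndd : ¬ G.Adj d d')
    (hdw : G.Adj d w) : JT G Y := by
  have hd : d ∈ nb G Y x := by rw [hnb]; simp
  have hd' : d' ∈ nb G Y x := by rw [hnb]; simp
  have hd2 := mem_nb.1 hd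
  have hd'2 := mem_nb.1 hd'
  by_cases hwd' : G.Adj w d'
  · refine gy_Yb1 hY hN h0 hx hxY hwY hne hn ?_
    intro e he
    rw [hnb] at he
    simp only [mem_insert, mem_singleton] at he
    rcases he with rfl | rfl
    · exact hdw.symm
    · exact hwd'
  · exfalso
    have hxd' : x ≠ d' := hd'2.2.ne
    have hxd : x ≠ d := hd2.2.ne
    have hwd'ne : w ≠ d' := by
      rintro rfl
      exact hn hd'2.2
    have hwdne : w ≠ d := hdw.ne'
    have hnbd : ∀ f ∈ Y, G.Adj d f → f = x ∨ f = w := by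
      intro f hf hdf
      by_contra hcon
      push Not at hcon
      have h1 := gy_far hx hxY hwY hne hn hd hdw (mem_nb.2 ⟨hf, hdf⟩) hcon.1 hcon.2
      have h2 : f ∈ nb G Y x := mem_nb.2 ⟨hf, h1.1⟩
      rw [hnb] at h2
      simp only [mem_insert, mem_singleton] at h2
      rcases h2 with rfl | rfl
      · exact G.loopless.irrefl _ hdf
      · exact hndd hdf
    have hnbx : ∀ f ∈ Y, G.Adj x f → f = d ∨ f = d' := by
      intro f hf hxf
      have h2 : f ∈ nb G Y x := mem_nb.2 ⟨hf, hxf⟩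
      rw [hnb] at h2
      simpa using h2
    -- chi of the path
    have hA : chi G ({d', x, d, w} : Finset T) = -1 / 4 := by
      have h1 := chi_glue (G := G) (A := ({d, d', x} : Finset T)) (B := ({d, w} : Finset T)) (by
        intro a ha b hb
        simp only [mem_sdiff, mem_insert, mem_singleton, not_or] at ha hb
        have hb' : b = w := by tauto
        subst hb'
        rcases ha.1 with h | h | h
        · exact absurd h ha.2.1
        · subst h
          intro h'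
          exact hwd' h'.symm
        · subst h
          exact hn)
      have h2 : chi G ({d, d', x} : Finset T) = 0 := by
        refine chi_join_pair hdd hndd ?_ ?_
        · intro t ht
          rw [mem_singleton] at ht
          subst ht
          exact hd2.2.symm
        · intro t ht
          rw [mem_singleton] at ht
          subst ht
          exact hd'2.2.symm
      have h3 : chi G ({d, w} : Finset T) = 1 / 4 := by
        rw [chi_cl]
        · rw [card_pair hwdne.symm]; norm_num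
        · intro s hs t ht hst
          simp only [mem_insert, mem_singleton] at hs ht
          rcases hs with rfl | rfl <;> rcases ht with rfl | rfl
          · exact absurd rfl hst
          · exact hdw
          · exact hdw.symm
          · exact absurd rfl hst
      have h4 : chi G ({d} : Finset T) = 1 / 2 := by
        rw [chi_cl]
        · simp
        · intro s hs t ht hst
          simp only [mem_singleton] at hs ht
          subst hs
          exact absurd ht.symm hst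
      have h5 : ({d, d', x} : Finset T) ∪ {d, w} = {d', x, d, w} := by
        ext t
        simp only [mem_union, mem_insert, mem_singleton]
        tauto
      have h6 : ({d, d', x} : Finset T) ∩ {d, w} = {d} := by
        ext t
        simp only [mem_inter, mem_insert, mem_singleton]
        constructor
        · rintro ⟨h | h | h, h' | h'⟩
          · exact h
          · exact h
          · exact h'
          · exact absurd (h'.symm.trans h) hwd'ne
          · exact h'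
          · exact absurd (h'.symm.trans h) hne
        · intro h
          exact ⟨Or.inl h, Or.inl h⟩
      rw [h5, h6, h2, h3, h4] at h1
      linarith
    have hAY : ({d', x, d, w} : Finset T) ⊆ Y := by
      intro t ht
      simp only [mem_insert, mem_singleton] at ht
      rcases ht with rfl | rfl | rfl | rfl
      · exact hd'2.1
      · exact hxY
      · exact hd2.1
      · exact hwY
    have hglue := chi_glue (G := G) (A := ({d', x, d, w} : Finset T))
      (B := (Y \ {d', x, d, w}) ∪ {w, d'}) (by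
        intro a ha b hb
        simp only [mem_sdiff, mem_union, mem_insert, mem_singleton, not_or, not_and] at ha hb
        have hb2 : b ∈ Y ∧ b ≠ d' ∧ b ≠ x ∧ b ≠ d ∧ b ≠ w := by
          rcases hb.1 with h | h | h
          · exact ⟨h.1, h.2⟩
          · exact absurd h hb.2.2.2.2
          · exact absurd h hb.2.1
        intro hab
        rcases ha.1 with h | h | h | h
        · exact ha.2.2.2 h
        · subst h
          rcases hnbx b hb2.1 hab with h | h
          · exact hb2.2.2.2.1 h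
          · exact hb2.2.1 h
        · subst h
          rcases hnbd b hb2.1 hab with h | h
          · exact hb2.2.2.1 h
          · exact hb2.2.2.2.2 h
        · exact ha.2.2.1 h)
    have h7 : ({d', x, d, w} : Finset T) ∪ ((Y \ {d', x, d, w}) ∪ {w, d'}) = Y := by
      ext t
      constructor
      · intro ht
        simp only [mem_union, mem_sdiff] at ht
        rcases ht with h | h | h
        · exact hAY h
        · exact h.1
        · simp only [mem_insert, mem_singleton] at h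
          rcases h with rfl | rfl
          · exact hwY
          · exact hd'2.1
      · intro ht
        by_cases h : t ∈ ({d', x, d, w} : Finset T)
        · exact mem_union_left _ h
        · exact mem_union_right _ (mem_union_left _ (mem_sdiff.2 ⟨ht, h⟩))
    have h8 : ({d', x, d, w} : Finset T) ∩ ((Y \ {d', x, d, w}) ∪ {w, d'}) = {w, d'} := by
      ext t
      constructor
      · intro ht
        have h1 := (mem_inter.1 ht).1
        rcases mem_union.1 (mem_inter.1 ht).2 with h | h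
        · exact absurd h1 (mem_sdiff.1 h).2
        · exact h
      · intro ht
        refine mem_inter.2 ⟨?_, mem_union_right _ ht⟩
        simp only [mem_insert, mem_singleton] at ht ⊢
        tauto
    have h9 : chi G ({w, d'} : Finset T) = 0 := by
      have h10 := chi_join_pair (G := G) (R := (∅ : Finset T)) hwd'ne hwd' (by simp) (by simp)
      simpa using h10
    have h11 : chi G ((Y \ {d', x, d, w}) ∪ {w, d'}) ≤ 0 := by
      refine hN _ ?_ ?_
      · intro t ht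
        rcases mem_union.1 ht with h | h
        · exact hY (mem_sdiff.1 h).1
        · simp only [mem_insert, mem_singleton] at h
          rcases h with rfl | rfl
          · exact hY hwY
          · exact hY hd'2.1
      · intro hcl
        exact hwd' (hcl w (mem_union_right _ (by simp)) d' (mem_union_right _ (by simp)) hwd'ne)
    rw [h7, h8, h9, hA, h0] at hglue
    linarith

theorem gy_Yb {G : SimpleGraph T} {K Y : Finset T} (hY : Y ⊆ K)
    (hN : ∀ A ⊆ K, ¬ Cl G A → chi G A ≤ 0) (hcl : ¬ Cl G Y) (h0 : chi G Y = 0)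
    (hc : Conn G Y) (hx : ∀ x ∈ Y, JT G (nb G Y x)) : JT G Y := by
  obtain ⟨x, hxY, d, hd, d', hd', hdd, hndd⟩ : ∃ x ∈ Y, ∃ d ∈ nb G Y x, ∃ d' ∈ nb G Y x,
      d ≠ d' ∧ ¬ G.Adj d d' := by
    by_contra hcon
    push Not at hcon
    apply hcl
    intro p hp q hq hpq
    have h1 : q = p ∨ G.Adj p q := by
      refine GY13_path (P := fun z => z = p ∨ G.Adj p z) (Or.inl rfl) ?_ (hc.2 p hp q hq)
      intro a ha hPa b hb hab
      by_cases hbp : b = p
      · exact Or.inl hbp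
      · right
        rcases hPa with h | h
        · rw [← h]; exact hab
        · exact hcon a ha p (mem_nb.2 ⟨hp, h.symm⟩) b (mem_nb.2 ⟨hb, hab⟩) (Ne.symm hbp)
    rcases h1 with h | h
    · exact absurd h.symm hpq
    · exact h
  by_cases hall : ∀ y ∈ Y, y ≠ x → G.Adj x y
  · intro a ha b hb c hc' hba hca hab hac
    have hax : a ≠ x := by
      rintro rfl
      exact hab (hall b hb hba)
    have hbx : b ≠ x := by
      rintro rfl
      exact hab (hall a ha hax).symm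
    have hcx : c ≠ x := by
      rintro rfl
      exact hac (hall a ha hax).symm
    exact hx x hxY a (mem_nb.2 ⟨ha, hall a ha hax⟩) b (mem_nb.2 ⟨hb, hall b hb hbx⟩) c
      (mem_nb.2 ⟨hc', hall c hc' hcx⟩) hba hca hab hac
  · push Not at hall
    obtain ⟨y, hyY, hyx, hxy⟩ := hall
    obtain ⟨e, he, w, hwY, hew, hne, hn⟩ : ∃ e ∈ nb G Y x, ∃ w ∈ Y, G.Adj e w ∧ w ≠ x ∧
        ¬ G.Adj x w := by
      by_contra hcon
      push Not at hcon
      have h1 : y = x ∨ G.Adj x y := by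
        refine GY13_path (P := fun z => z = x ∨ G.Adj x z) (Or.inl rfl) ?_ (hc.2 x hxY y hyY)
        intro a ha hPa b hb hab
        by_cases hbx : b = x
        · exact Or.inl hbx
        · right
          rcases hPa with h | h
          · rw [← h]; exact hab
          · exact hcon a (mem_nb.2 ⟨ha, h⟩) b hb hab hbx
      rcases h1 with h | h
      · exact hyx h
      · exact hxy h
    by_cases h3 : 3 ≤ (nb G Y x).card
    · have hcn := jt_conn (hx x hxY) h3
      refine gy_Yb1 hY hN h0 hx hxY hwY hne hn ?_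
      intro f hf
      refine GY13_path (P := fun z => G.Adj w z) hew.symm ?_ (hcn.2 e he f hf)
      intro a ha hPa b hb hab
      have hb2 := mem_nb.1 hb
      refine (gy_far hx hxY hwY hne hn ha hPa.symm (mem_nb.2 ⟨hb2.1, hab⟩) hb2.2.ne' ?_).2
      rintro rfl
      exact hn hb2.2
    · have hnb : nb G Y x = {d, d'} := by
        symm
        apply Finset.eq_of_subset_of_card_le
        · intro t ht
          simp only [mem_insert, mem_singleton] at ht
          rcases ht with rfl | rfl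
          · exact hd
          · exact hd'
        · rw [card_pair hdd]
          omega
      have he2 := he
      rw [hnb] at he2
      simp only [mem_insert, mem_singleton] at he2
      rcases he2 with rfl | rfl
      · exact GY13_cyc hY hN h0 hx hxY hwY hne hn hnb hdd hndd hew
      · refine GY13_cyc hY hN h0 hx hxY hwY hne hn (d' := d) ?_ hdd.symm ?_ hew
        · rw [hnb, pair_comm]
        · intro h
          exact hndd h.symm

end Pool.Agent.LibFlagPL

end

section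

namespace Pool.Agent.LibFlagPL

open Finset

set_option linter.unusedSectionVars false

variable {T : Type} [Fintype T] [DecidableEq T]

theorem gy_local (hDH : DHypG) {G : SimpleGraph T} {m : ℕ} {L V ρ D w : Finset T}
    (hL : Zc G (m + 2) L) (hV : V ⊆ L) (hρ : Comp G (L \ V) ρ) (hb : bdy G V ρ = D)
    (hd : DIA G D (m + 2)) {d z : T} (hdD : d ∈ D)
    (hw : Comp G (nb G L d \ nb G V d) w) (hz : z ∈ w) (hzρ : z ∈ ρ) :
    bdy G (nb G V d) w = nb G D d ∧ w = nb G ρ d := by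
  have hDV : D ⊆ V := by
    intro y hy
    rw [← hb] at hy
    exact (mem_bdy.1 hy).1
  have hDL : D ⊆ L := hDV.trans hV
  have hdL : d ∈ L := hDL hdD
  have hwLV : w ⊆ L \ V := by
    intro y hy
    have h1 := hw.1 hy
    rw [← gy_nb_sdiff] at h1
    exact (mem_nb.1 h1).1
  have hwL : w ⊆ nb G L d := fun y hy => (Finset.mem_sdiff.1 (hw.1 hy)).1
  have hwρ : w ⊆ ρ := gy_comp_sub hρ hw.2.1 hwLV hz hzρ
  have hBsub : bdy G (nb G V d) w ⊆ nb G D d := by
    intro y hy
    obtain ⟨h1, x, hx, hyx⟩ := mem_bdy.1 hy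
    have h2 := mem_nb.1 h1
    refine mem_nb.2 ⟨?_, h2.2⟩
    rw [← hb]
    exact mem_bdy.2 ⟨h2.1, x, hwρ hx, hyx⟩
  have hBV : bdy G (nb G V d) w ⊆ nb G V d := fun y hy => (mem_bdy.1 hy).1
  have hDd : DIA G (nb G D d) (m + 1) := (DIA.link (k := m + 1) hd hdD).1
  have hB : bdy G (nb G V d) w = nb G D d := by
    by_cases hBD : DIA G (bdy G (nb G V d) w) (m + 1)
    · exact hBD.eq_of_sub hDd hBsub
    · have hKd : Zc G (m + 1) (nb G L d) := hL.link hdL
      have hne : bdy G (nb G V d) w ≠ nb G L d := by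
        intro h1
        have h2 : z ∈ bdy G (nb G V d) w := by
          rw [h1]
          exact hwL hz
        exact (Finset.mem_sdiff.1 (hwLV hz)).2 (mem_nb.1 (hBV h2)).1
      have hconn := lemmaS hKd (hBV.trans (gy_nb_mono hV d)) (hDd.2.1.mono hBsub) hne hBD
      have hw' : Comp G (nb G L d \ bdy G (nb G V d) w) w := gy_comp_shrink hw subset_rfl hBV
      have hweq := gy_comp_conn hw' hconn
      refine Finset.Subset.antisymm hBsub ?_
      intro y hy
      by_contra hyB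
      have h1 : y ∈ nb G V d := gy_nb_mono hDV d hy
      have h2 : y ∈ w := by
        rw [hweq]
        exact Finset.mem_sdiff.2 ⟨gy_nb_mono hV d h1, hyB⟩
      exact (Finset.mem_sdiff.1 (hwLV h2)).2 (mem_nb.1 h1).1
  refine ⟨hB, ?_⟩
  obtain ⟨U, V', hS⟩ := sep_exists hDH hL hDL hd
  have hρD : Comp G (L \ D) ρ := gy_comp_shrink hρ hb.subset hDV
  have hlink := Sep.link hDH hL hDL hd hS hdD
  have hρd : Comp G (nb G L d \ nb G D d) (nb G ρ d) := by
    rcases hS.comp hρD with h1 | h1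
    · rw [h1]
      exact hlink.compU
    · rw [h1]
      exact hlink.compV
  have hwD : Comp G (nb G L d \ nb G D d) w := gy_comp_shrink hw hB.subset (gy_nb_mono hDV d)
  exact gy_comp_eq hwD hρd hz (mem_nb.2 ⟨hzρ, (mem_nb.1 (hwL hz)).2⟩)

end Pool.Agent.LibFlagPL

end

section

namespace Pool.Agent.LibFlagPL

open Finset

set_option linter.unusedSectionVars false

variable {T : Type} [Fintype T] [DecidableEq T]

private theorem gy7_mem {G : SimpleGraph T} {K Y : Finset T} {b d z : T}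
    (hz : z ∈ nb G K b \ nb G Y b) (hdz : G.Adj d z) :
    z ∈ nb G (nb G K b) d \ nb G (nb G Y b) d := by
  rw [Finset.mem_sdiff] at hz ⊢
  refine ⟨mem_nb.2 ⟨hz.1, hdz⟩, fun h => hz.2 (mem_nb.1 h).1⟩

theorem gy_adj (hDH : DHypG) {G : SimpleGraph T} {m : ℕ} {K Y ρ ρ' : Finset T}
    (hK : Zc G (m + 3) K) (hY : Y ⊆ K) {b d z : T} (hbY : b ∈ Y) (hdY : d ∈ Y)
    (hbd : G.Adj b d) (hρ : Comp G (nb G K b \ nb G Y b) ρ) (hzρ : z ∈ ρ)
    (hρ' : Comp G (nb G K d \ nb G Y d) ρ') (hzρ' : z ∈ ρ')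
    (hd : DIA G (bdy G (nb G Y b) ρ) (m + 2)) (hd' : DIA G (bdy G (nb G Y d) ρ') (m + 2)) :
    d ∈ bdy G (nb G Y b) ρ ∧ b ∈ bdy G (nb G Y d) ρ' ∧
      nb G (bdy G (nb G Y b) ρ) d = nb G (bdy G (nb G Y d) ρ') b ∧ nb G ρ d = nb G ρ' b := by
  have hbz : G.Adj b z := (mem_nb.1 (Finset.mem_sdiff.1 (hρ.1 hzρ)).1).2
  have hdz : G.Adj d z := (mem_nb.1 (Finset.mem_sdiff.1 (hρ'.1 hzρ')).1).2
  have h1 : d ∈ bdy G (nb G Y b) ρ := mem_bdy.2 ⟨mem_nb.2 ⟨hdY, hbd⟩, z, hzρ, hdz⟩
  have h2 : b ∈ bdy G (nb G Y d) ρ' := mem_bdy.2 ⟨mem_nb.2 ⟨hbY, hbd.symm⟩, z, hzρ', hbz⟩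
  obtain ⟨w, hw, hzw⟩ := gy_exists_comp (G := G) (gy7_mem (hρ.1 hzρ) hdz)
  obtain ⟨e1, e2⟩ := gy_local hDH (Zc.link hK (hY hbY)) (gy_nb_mono hY b) hρ rfl hd h1 hw hzw hzρ
  have hw' : Comp G (nb G (nb G K d) b \ nb G (nb G Y d) b) w := by
    rw [gy_nb_comm d b, gy_nb_comm (K := Y) d b]
    exact hw
  obtain ⟨e3, e4⟩ := gy_local hDH (Zc.link hK (hY hdY)) (gy_nb_mono hY d) hρ' rfl hd' h2 hw' hzw hzρ'
  refine ⟨h1, h2, ?_, ?_⟩
  · rw [← e1, ← e3, gy_nb_comm d b]
  · rw [← e2, ← e4]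

theorem gy_adj_exists (hDH : DHypG) {G : SimpleGraph T} {m : ℕ} {K Y ρ : Finset T}
    (hK : Zc G (m + 3) K) (hY : Y ⊆ K) {b d e : T} (hbY : b ∈ Y)
    (hρ : Comp G (nb G K b \ nb G Y b) ρ) (hd : DIA G (bdy G (nb G Y b) ρ) (m + 2))
    (hdD : d ∈ bdy G (nb G Y b) ρ) (heD : e ∈ bdy G (nb G Y b) ρ) (hde : G.Adj d e) :
    ∃ z ∈ ρ, G.Adj z d ∧ G.Adj z e := by
  obtain ⟨_, z0, hz0, hdz0⟩ := mem_bdy.1 hdD
  obtain ⟨w, hw, hzw⟩ := gy_exists_comp (G := G) (gy7_mem (hρ.1 hz0) hdz0)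
  obtain ⟨e1, e2⟩ := gy_local hDH (Zc.link hK (hY hbY)) (gy_nb_mono hY b) hρ rfl hd hdD hw hzw hz0
  have he : e ∈ bdy G (nb G (nb G Y b) d) w := by
    rw [e1]
    exact mem_nb.2 ⟨heD, hde⟩
  obtain ⟨_, x, hxw, hex⟩ := mem_bdy.1 he
  rw [e2] at hxw
  exact ⟨x, (mem_nb.1 hxw).1, (mem_nb.1 hxw).2.symm, hex.symm⟩

end Pool.Agent.LibFlagPL

end

section

namespace Pool.Agent.LibFlagPL

open Finset

set_option linter.unusedSectionVars false

variable {T : Type} [Fintype T] [DecidableEq T]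

/-- the data at a vertex `d` of the boundary -/
private def GY8_P (G : SimpleGraph T) (m : ℕ) (K Y ρ : Finset T) (b d c : T) : Prop :=
  ∃ ρ' z, z ∈ ρ ∧ z ∈ ρ' ∧ G.Adj z d ∧ Comp G (nb G K d \ nb G Y d) ρ' ∧
    DIA G (bdy G (nb G Y d) ρ') (m + 2) ∧ c ∈ bdy G (nb G Y d) ρ' ∧ c ≠ b ∧ ¬ G.Adj b c

theorem gy_common (hDH : DHypG) {G : SimpleGraph T} {m : ℕ} {K Y Z ρ : Finset T}
    (hK : Zc G (m + 3) K) (hY : Y ⊆ K) (hZ : Comp G (K \ Y) Z)
    (hT : ∀ b ∈ bdy G Y Z, T3 G (nb G K b) (nb G Y b) (m + 2)) {b z0 : T}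
    (hb : b ∈ bdy G Y Z) (hρ : Comp G (nb G K b \ nb G Y b) ρ) (hz0 : z0 ∈ ρ) (hz0Z : z0 ∈ Z) :
    ∃ c ∈ Y, c ≠ b ∧ ¬ G.Adj b c ∧ ∀ d ∈ bdy G (nb G Y b) ρ, G.Adj c d ∧
      ∃ ρ' z, Comp G (nb G K d \ nb G Y d) ρ' ∧ z ∈ ρ ∧ z ∈ ρ' ∧
        bdy G (nb G Y d) ρ' = insert b (insert c (nb G (bdy G (nb G Y b) ρ) d)) := by
  have hD : DIA G (bdy G (nb G Y b) ρ) (m + 2) := hT b hb ρ hρ
  have hbY : b ∈ Y := (mem_bdy.1 hb).1
  have hDY : ∀ d ∈ bdy G (nb G Y b) ρ, d ∈ Y ∧ G.Adj b d := fun d hd => mem_nb.1 (mem_bdy.1 hd).1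
  have hρK : ∀ t ∈ ρ, t ∈ K ∧ t ∉ Y := by
    intro t ht
    have h1 := Finset.mem_sdiff.1 (hρ.1 ht)
    have h2 := mem_nb.1 h1.1
    exact ⟨h2.1, fun h3 => h1.2 (mem_nb.2 ⟨h3, h2.2⟩)⟩
  have hρZ : ρ ⊆ Z :=
    gy_comp_sub hZ hρ.2.1 (fun t ht => Finset.mem_sdiff.2 (hρK t ht)) hz0 hz0Z
  -- the component at `d` containing `z`
  have hcomp : ∀ d ∈ bdy G (nb G Y b) ρ, ∀ z ∈ ρ, G.Adj z d →
      ∃ ρ', Comp G (nb G K d \ nb G Y d) ρ' ∧ z ∈ ρ' ∧ DIA G (bdy G (nb G Y d) ρ') (m + 2) := by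
    intro d hd z hz hzd
    obtain ⟨ρ', h1, h2⟩ := gy_exists_comp (G := G) (X := nb G K d \ nb G Y d) (x := z)
      (Finset.mem_sdiff.2 ⟨mem_nb.2 ⟨(hρK z hz).1, hzd.symm⟩, fun h => (hρK z hz).2 (mem_nb.1 h).1⟩)
    exact ⟨ρ', h1, h2, hT d (mem_bdy.2 ⟨(hDY d hd).1, z, hρZ hz, hzd.symm⟩) ρ' h1⟩
  -- one step
  have hstep : ∀ c d e, d ∈ bdy G (nb G Y b) ρ → e ∈ bdy G (nb G Y b) ρ → G.Adj d e →
      GY8_P G m K Y ρ b d c → GY8_P G m K Y ρ b e c := by
    rintro c d e hd he hde ⟨ρ', z', hz'ρ, hz'ρ', -, hρ', hD', hc, hcb, hbc⟩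
    obtain ⟨z, hz, hzd, hze⟩ := gy_adj_exists hDH hK hY hbY hρ hD hd he hde
    obtain ⟨-, hbD', -, h4⟩ := gy_adj hDH hK hY hbY (hDY d hd).1 (hDY d hd).2 hρ hz'ρ hρ' hz'ρ' hD hD'
    have hzρ' : z ∈ ρ' := by
      have h5 : z ∈ nb G ρ d := mem_nb.2 ⟨hz, hzd.symm⟩
      rw [h4] at h5
      exact (mem_nb.1 h5).1
    obtain ⟨ρ'', hρ'', hzρ'', hD''⟩ := hcomp e he z hz hze
    obtain ⟨heD', -, h6, -⟩ := gy_adj hDH hK hY (hDY d hd).1 (hDY e he).1 hde hρ' hzρ' hρ'' hzρ'' hD' hD''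
    have hec : e ≠ c := by
      rintro rfl
      exact hbc (hDY e he).2
    have hce : G.Adj c e := hD'.2.1.uniq hc hbD' heD' (fun h => hbc h.symm) hcb.symm hec
      (hDY e he).2.ne'
    have h7 : c ∈ nb G (bdy G (nb G Y d) ρ') e := mem_nb.2 ⟨hc, hce.symm⟩
    rw [h6] at h7
    exact ⟨ρ'', z, hz, hzρ'', hze, hρ'', hD'', (mem_nb.1 h7).1, hcb, hbc⟩
  have hconn := hD.conn
  obtain ⟨d0, hd0⟩ := hconn.1
  obtain ⟨c, hc0⟩ : ∃ c, GY8_P G m K Y ρ b d0 c := by
    obtain ⟨-, z, hz, hdz⟩ := mem_bdy.1 hd0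
    obtain ⟨ρ', hρ', hzρ', hD'⟩ := hcomp d0 hd0 z hz hdz.symm
    obtain ⟨-, hbD', -, -⟩ := gy_adj hDH hK hY hbY (hDY d0 hd0).1 (hDY d0 hd0).2 hρ hz hρ' hzρ' hD hD'
    obtain ⟨-, c, hc, hcb, hbc, -, -⟩ := DIA.link (k := m + 1) hD' hbD'
    exact ⟨c, ρ', z, hz, hzρ', hdz.symm, hρ', hD', hc, hcb, hbc⟩
  have hall : ∀ d, d ∈ bdy G (nb G Y b) ρ → GY8_P G m K Y ρ b d c := by
    intro d hd
    have hpath := hconn.2 d0 hd0 d hd
    clear hd
    induction hpath with
    | refl => exact hc0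
    | tail _ hbc ih => exact hstep c _ _ hbc.1 hbc.2.1 hbc.2.2 ih
  have hcb : c ≠ b ∧ ¬ G.Adj b c := by
    obtain ⟨_, _, -, -, -, -, -, -, h1, h2⟩ := hc0
    exact ⟨h1, h2⟩
  have hcY : c ∈ Y := by
    obtain ⟨_, _, -, -, -, -, -, h1, -, -⟩ := hc0
    exact (mem_nb.1 (mem_bdy.1 h1).1).1
  refine ⟨c, hcY, hcb.1, hcb.2, fun d hd => ?_⟩
  obtain ⟨ρ', z, hz, hzρ', -, hρ', hD', hc, -, -⟩ := hall d hd
  refine ⟨(mem_nb.1 (mem_bdy.1 hc).1).2.symm, ρ', z, hρ', hz, hzρ', ?_⟩
  obtain ⟨-, hbD', h3, -⟩ := gy_adj hDH hK hY hbY (hDY d hd).1 (hDY d hd).2 hρ hz hρ' hzρ' hD hD'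
  obtain ⟨-, o, ho, hob, hbo, h4, -⟩ := DIA.link (k := m + 1) hD' hbD'
  have hoc : o = c := hD'.2.1 b hbD' o ho c hc hob hcb.1 hbo hcb.2
  rw [h3, ← hoc]
  exact h4

end Pool.Agent.LibFlagPL

end

section

namespace Pool.Agent.LibFlagPL

open Finset

set_option linter.unusedSectionVars false

variable {T : Type} [Fintype T] [DecidableEq T]

private theorem GY9_swap {G : SimpleGraph T} {K O U V : Finset T} (h : Sep G K O U V) :
    Sep G K O V U where
  compU := h.compV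
  compV := h.compU
  disj := h.disj.symm
  union := by rw [Finset.union_comm]; exact h.union
  touchU := h.touchV
  touchV := h.touchU

private theorem GY9_sep (hDH : DHypG) {G : SimpleGraph T} {m : ℕ} {K O : Finset T}
    (hK : Zc G (m + 3) K) (hO : O ⊆ K) (hd : DIA G O (m + 3)) {z : T} (hz : z ∈ K \ O) :
    ∃ U V, Sep G K O U V ∧ z ∈ U := by
  obtain ⟨U, V, hS⟩ := sep_exists (r := m + 2) hDH hK hO hd
  have h1 : z ∈ U ∪ V := by rw [hS.union]; exact hz
  rcases Finset.mem_union.1 h1 with h | h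
  · exact ⟨U, V, hS, h⟩
  · exact ⟨V, U, GY9_swap hS, h⟩

theorem gy_Y1 (hDH : DHypG) {G : SimpleGraph T} {m : ℕ} {K Y Z : Finset T}
    (hK : Zc G (m + 3) K) (hY : Y ⊆ K) (hN : ∀ A ⊆ K, ¬ Cl G A → chi G A ≤ 0)
    (hcl : ¬ Cl G Y) (h0 : chi G Y = 0) (hZ : Comp G (K \ Y) Z)
    (hT : ∀ b ∈ bdy G Y Z, T3 G (nb G K b) (nb G Y b) (m + 2)) :
    DIA G (bdy G Y Z) (m + 3) := by
  have hKc : Conn G K := Zc.conn (m := m + 2) hK
  have hYne : Y.Nonempty := by
    rw [Finset.nonempty_iff_ne_empty]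
    rintro rfl
    exact hcl (fun s hs => absurd hs (Finset.notMem_empty s))
  obtain ⟨b, hb⟩ := gy_bdy_nonempty hKc hY hYne hZ
  have hb' := mem_bdy.1 hb
  obtain ⟨hbY, z0, hz0Z, hbz0⟩ := hb'
  have hZK : ∀ x ∈ Z, x ∈ K ∧ x ∉ Y := fun x hx => Finset.mem_sdiff.1 (hZ.1 hx)
  have hz0X : z0 ∈ nb G K b \ nb G Y b :=
    Finset.mem_sdiff.2 ⟨mem_nb.2 ⟨(hZK z0 hz0Z).1, hbz0⟩,
      fun h => (hZK z0 hz0Z).2 (mem_nb.1 h).1⟩
  obtain ⟨ρ, hρ, hz0⟩ := gy_exists_comp hz0X
  have hsdK : ∀ x : T, nb G K x \ nb G Y x ⊆ K \ Y := by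
    intro x t ht
    rw [Finset.mem_sdiff] at ht
    have h1 := mem_nb.1 ht.1
    exact Finset.mem_sdiff.2 ⟨h1.1, fun h => ht.2 (mem_nb.2 ⟨h, h1.2⟩)⟩
  have hρZ : ρ ⊆ Z := gy_comp_sub hZ hρ.2.1 (hρ.1.trans (hsdK b)) hz0 hz0Z
  obtain ⟨c, hcY, hcb, hbc, hall⟩ := gy_common hDH hK hY hZ hT hb hρ hz0 hz0Z
  have hD : DIA G (bdy G (nb G Y b) ρ) (m + 2) := hT b hb ρ hρ
  have hDY' : bdy G (nb G Y b) ρ ⊆ nb G Y b := fun t ht => (mem_bdy.1 ht).1
  obtain ⟨D, hDdef⟩ : ∃ D, D = bdy G (nb G Y b) ρ := ⟨_, rfl⟩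
  rw [← hDdef] at hall hD hDY'
  have hbD : ∀ t ∈ D, G.Adj b t := fun t ht => (mem_nb.1 (hDY' ht)).2
  have hcD : ∀ t ∈ D, G.Adj c t := fun t ht => (hall t ht).1
  have hOd : DIA G (insert b (insert c D)) (m + 3) := hD.susp (Ne.symm hcb) hbc hbD hcD
  obtain ⟨O, hOdef⟩ : ∃ O, O = insert b (insert c D) := ⟨_, rfl⟩
  rw [← hOdef] at hOd
  have hmO : ∀ t, t ∈ O ↔ t = b ∨ t = c ∨ t ∈ D := by
    intro t
    rw [hOdef, Finset.mem_insert, Finset.mem_insert]
  have hOY : O ⊆ Y := by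
    intro t ht
    rcases (hmO t).1 ht with rfl | rfl | h
    · exact hbY
    · exact hcY
    · exact (mem_nb.1 (hDY' h)).1
  have hOK : O ⊆ K := hOY.trans hY
  have hnbO : nb G O b = D := by
    ext t
    rw [mem_nb, hmO]
    constructor
    · rintro ⟨rfl | rfl | h, h2⟩
      · exact absurd h2 (G.irrefl)
      · exact absurd h2 hbc
      · exact h
    · intro h
      exact ⟨Or.inr (Or.inr h), hbD t h⟩
  have hnbOd : ∀ d ∈ D, nb G O d = insert b (insert c (nb G D d)) := by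
    intro d hd
    ext t
    rw [mem_nb, hmO, Finset.mem_insert, Finset.mem_insert, mem_nb]
    constructor
    · rintro ⟨rfl | rfl | h, h2⟩
      · exact Or.inl rfl
      · exact Or.inr (Or.inl rfl)
      · exact Or.inr (Or.inr ⟨h, h2⟩)
    · rintro (rfl | rfl | ⟨h, h2⟩)
      · exact ⟨Or.inl rfl, (hbD d hd).symm⟩
      · exact ⟨Or.inr (Or.inl rfl), (hcD d hd).symm⟩
      · exact ⟨Or.inr (Or.inr h), h2⟩
  have hZO : Z ⊆ K \ O := fun x hx =>
    Finset.mem_sdiff.2 ⟨(hZK x hx).1, fun h => (hZK x hx).2 (hOY h)⟩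
  obtain ⟨U, V, hS, hz0U⟩ := GY9_sep hDH hK hOK hOd (hZO hz0Z)
  have hZU : Z ⊆ U := gy_comp_sub hS.compU hZ.2.1 hZO hz0Z hz0U
  have hbO : b ∈ O := (hmO b).2 (Or.inl rfl)
  have hcO : c ∈ O := (hmO c).2 (Or.inr (Or.inl rfl))
  have hbK : b ∈ K := hOK hbO
  -- at `b`
  have hUb : nb G U b ⊆ Z := by
    have hL := Sep.link (r := m + 1) hDH hK hOK hOd hS hbO
    have h1 : Comp G (nb G K b \ nb G O b) ρ := by
      refine gy_comp_shrink hρ ?_ ?_
      · rw [hnbO, hDdef]
      · rw [hnbO]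
        exact hDY'
    have h2 : nb G U b = ρ := gy_comp_eq hL.compU h1 (mem_nb.2 ⟨hz0U, hbz0⟩) hz0
    rw [h2]
    exact hρZ
  -- at `d`
  have hUd : ∀ d ∈ D, nb G U d ⊆ Z := by
    intro d hd
    obtain ⟨_, ρ', z, hρ', hz, hz', hbd⟩ := hall d hd
    have hdO : d ∈ O := (hmO d).2 (Or.inr (Or.inr hd))
    have hL := Sep.link (r := m + 1) hDH hK hOK hOd hS hdO
    have h1 : Comp G (nb G K d \ nb G O d) ρ' := by
      refine gy_comp_shrink hρ' ?_ ?_
      · rw [hbd, hnbOd d hd]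
      · exact gy_nb_mono hOY d
    have hzZ : z ∈ Z := hρZ hz
    have hdz : G.Adj d z := (mem_nb.1 (Finset.mem_sdiff.1 (hρ'.1 hz')).1).2
    have h2 : nb G U d = ρ' := gy_comp_eq hL.compU h1 (mem_nb.2 ⟨hZU hzZ, hdz⟩) hz'
    rw [h2]
    exact gy_comp_sub hZ hρ'.2.1 (hρ'.1.trans (hsdK d)) hz' hzZ
  have hUK : ∀ x ∈ U, x ∈ K ∧ x ∉ O := fun x hx => Finset.mem_sdiff.1 (hS.compU.1 hx)
  have hVK : ∀ x ∈ V, x ∈ K ∧ x ∉ O := fun x hx => Finset.mem_sdiff.1 (hS.compV.1 hx)
  have hUV : ∀ x ∈ U, x ∉ V := fun x hx hx' => Finset.disjoint_left.1 hS.disj hx hx'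
  have hun : (V ∪ O) ∪ insert c (U \ Z) = K \ Z := by
    ext t
    rw [Finset.mem_union, Finset.mem_union, Finset.mem_insert, Finset.mem_sdiff,
      Finset.mem_sdiff]
    constructor
    · rintro ((h | h) | (rfl | h))
      · exact ⟨(hVK t h).1, fun hz => hUV t (hZU hz) h⟩
      · exact ⟨hOK h, fun hz => (hZK t hz).2 (hOY h)⟩
      · exact ⟨hY hcY, fun hz => (hZK _ hz).2 hcY⟩
      · exact ⟨(hUK t h.1).1, h.2⟩
    · rintro ⟨h1, h2⟩
      by_cases hO : t ∈ O
      · exact Or.inl (Or.inr hO)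
      · have h3 : t ∈ U ∪ V := by
          rw [hS.union]
          exact Finset.mem_sdiff.2 ⟨h1, hO⟩
        rcases Finset.mem_union.1 h3 with h | h
        · exact Or.inr (Or.inr ⟨h, h2⟩)
        · exact Or.inl (Or.inl h)
  have hin : (V ∪ O) ∩ insert c (U \ Z) = {c} := by
    ext t
    rw [Finset.mem_inter, Finset.mem_union, Finset.mem_insert, Finset.mem_sdiff,
      Finset.mem_singleton]
    constructor
    · rintro ⟨h1, rfl | h2⟩
      · rfl
      · rcases h1 with h | h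
        · exact absurd h (hUV t h2.1)
        · exact absurd h (hUK t h2.1).2
    · rintro rfl
      exact ⟨Or.inr hcO, Or.inl rfl⟩
  have hg := chi_glue (G := G) (A := V ∪ O) (B := insert c (U \ Z)) (by
    intro a ha p hp hadj
    rw [Finset.mem_sdiff, Finset.mem_union, Finset.mem_insert] at ha
    rw [Finset.mem_sdiff, Finset.mem_union, Finset.mem_insert, Finset.mem_sdiff] at hp
    have hac : a ≠ c := fun h => ha.2 (Or.inl h)
    have hpc : p ≠ c := by
      rintro rfl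
      exact hp.2 (Or.inr hcO)
    have hpU : p ∈ U ∧ p ∉ Z := by
      rcases hp.1 with h | h
      · exact absurd h hpc
      · exact h
    rcases ha.1 with h | h
    · have h3 := hS.compU.2.2 p hpU.1 a (Finset.mem_sdiff.2 (hVK a h)) hadj.symm
      exact hUV a h3 h
    · rcases (hmO a).1 h with rfl | rfl | h
      · exact hpU.2 (hUb (mem_nb.2 ⟨hpU.1, hadj⟩))
      · exact hac rfl
      · exact hpU.2 (hUd a h (mem_nb.2 ⟨hpU.1, hadj⟩)))
  rw [hun, hin] at hg
  have hK0 : chi G K = 0 := Zc.chi_eq (m := m + 1) hK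
  have hKZ := gy_chi_compl hY hN hcl h0 hK0 hZ
  have hc1 : chi G {c} = 1 / 2 := by
    rw [chi_cl (A := {c})]
    · simp
    · intro s hs t ht hst
      rw [Finset.mem_singleton] at hs ht
      rw [hs, ht] at hst
      exact absurd rfl hst
  have hA : chi G (V ∪ O) ≤ 0 := by
    apply hN
    · intro t ht
      rcases Finset.mem_union.1 ht with h | h
      · exact (hVK t h).1
      · exact hOK h
    · intro hcl'
      exact hbc (hcl' b (Finset.mem_union_right _ hbO) c (Finset.mem_union_right _ hcO)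
        (Ne.symm hcb))
  have hBsub : insert c (U \ Z) ⊆ K := by
    intro t ht
    rcases Finset.mem_insert.1 ht with rfl | h
    · exact hY hcY
    · exact (hUK t (Finset.mem_sdiff.1 h).1).1
  obtain ⟨hB1, hB2⟩ := chi_le_half hN hBsub ⟨c, Finset.mem_insert_self _ _⟩
  have hB3 := hB2 (by linarith)
  have hcP : c ∉ U \ Z := fun h => (hUK c (Finset.mem_sdiff.1 h).1).2 hcO
  rw [Finset.card_insert_of_notMem hcP] at hB3
  have hP : U \ Z = ∅ := by
    rw [← Finset.card_eq_zero]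
    omega
  have hZeq : Z = U := by
    apply Finset.Subset.antisymm hZU
    intro t ht
    by_contra hcon
    have : t ∈ U \ Z := Finset.mem_sdiff.2 ⟨ht, hcon⟩
    rw [hP] at this
    exact absurd this (Finset.notMem_empty t)
  have hbO' : bdy G Y Z = O := by
    ext y
    rw [mem_bdy]
    constructor
    · rintro ⟨hy, x, hx, hyx⟩
      by_contra hcon
      have h3 := hS.compU.2.2 x (hZU hx) y (Finset.mem_sdiff.2 ⟨hY hy, hcon⟩) hyx.symm
      rw [← hZeq] at h3
      exact (hZK y h3).2 hy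
    · intro hy
      obtain ⟨x, hx⟩ := hS.touchU y hy
      have hx' := mem_nb.1 hx
      refine ⟨hOY hy, x, ?_, hx'.2⟩
      rw [hZeq]
      exact hx'.1
  rw [hbO']
  exact hOd

end Pool.Agent.LibFlagPL

end

section

namespace Pool.Agent.LibFlagPL

open Finset

set_option linter.unusedSectionVars false

variable {T : Type} [Fintype T] [DecidableEq T]

/-- the induction step, abstractly: `K ∈ Z_(m+3)` -/
theorem gstep (hD : DHypG) {G : SimpleGraph T} {m : ℕ} {K Y : Finset T} (hK : Zc G (m + 3) K)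
    (hY : Y ⊆ K) (hN : ∀ A ⊆ K, ¬ Cl G A → chi G A ≤ 0) (h0 : Cl G Y ∨ chi G Y = 0)
    (hx0 : ∀ x ∈ Y, Cl G (nb G Y x) ∨ chi G (nb G Y x) = 0)
    (hx : ∀ x ∈ Y, JT G (nb G Y x) ∨ T3 G (nb G K x) (nb G Y x) (m + 2)) :
    JT G Y ∨ T3 G K Y (m + 3) := by
  by_cases hcl : Cl G Y
  · exact Or.inl (gy_jt_cl hcl)
  have h0' : chi G Y = 0 := h0.resolve_left hcl
  by_cases hc : Conn G Y
  swap
  · exact Or.inl (gy_disc hY hN hcl h0' hc)
  by_cases hT : T3 G K Y (m + 3)
  · exact Or.inr hT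
  have h1 : ∃ Z, Comp G (K \ Y) Z ∧ ¬ DIA G (bdy G Y Z) (m + 3) := by
    by_contra h
    apply hT
    intro Z hZ
    by_contra h2
    exact h ⟨Z, hZ, h2⟩
  obtain ⟨Z, hZ, hZd⟩ := h1
  have h2 : ∃ b ∈ bdy G Y Z, ¬ T3 G (nb G K b) (nb G Y b) (m + 2) := by
    by_contra h
    apply hZd
    refine gy_Y1 hD hK hY hN hcl h0' hZ ?_
    intro b hb
    by_contra h3
    exact h ⟨b, hb, h3⟩
  obtain ⟨b, hb, hbT⟩ := h2
  have hbY : b ∈ Y := (mem_bdy.1 hb).1
  left
  by_contra hJ
  have claim : ∀ x ∈ Y, ¬ T3 G (nb G K x) (nb G Y x) (m + 2) →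
      ∀ y ∈ nb G Y x, ¬ T3 G (nb G K y) (nb G Y y) (m + 2) := by
    intro x hxY hxT y hy hyT
    have h3 : JT G (nb G Y x) := (hx x hxY).resolve_right hxT
    have h4 : Zc G (m + 1 + 1) (nb G K x) := Zc.link (m := m + 2) hK (hY hxY)
    have h5 : GSp G (nb G K x) (nb G Y x) (m + 2) :=
      gy_special_of (m := m + 1) h4 (gy_nb_mono hY x) h3 hxT
    exact hJ (gy_Y3b hK hY hN h0' hx0 hx hxY h5 hy hyT)
  have key : ∀ x, Relation.ReflTransGen (fun a b => a ∈ Y ∧ b ∈ Y ∧ G.Adj a b) b x →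
      ¬ T3 G (nb G K x) (nb G Y x) (m + 2) := by
    intro x hx1
    induction hx1 with
    | refl => exact hbT
    | tail _ hst ih => exact claim _ hst.1 ih _ (mem_nb.2 ⟨hst.2.1, hst.2.2⟩)
  exact hJ (gy_Yb hY hN hcl h0' hc
    (fun x hxY => (hx x hxY).resolve_right (key x (hc.2 b hbY x hxY))))

end Pool.Agent.LibFlagPL

end

section

namespace Pool.Agent.LibFlagPL

open Finset

set_option linter.unusedSectionVars false

variable {T : Type} [Fintype T] [DecidableEq T]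

private theorem GY15_cl_insert {G : SimpleGraph T} {A τ : Finset T} {x : T} (hτ : τ ⊆ A)
    (hx : x ∉ A) : Cl G (insert x τ) ↔ τ ⊆ nb G A x ∧ Cl G τ := by
  constructor
  · intro h
    refine ⟨fun t ht => mem_nb.2 ⟨hτ ht, h x (mem_insert_self _ _) t (mem_insert_of_mem ht) ?_⟩,
      fun s hs t ht hst => h s (mem_insert_of_mem hs) t (mem_insert_of_mem ht) hst⟩
    rintro rfl
    exact hx (hτ ht)
  · rintro ⟨h1, h2⟩ s hs t ht hst
    rw [mem_insert] at hs ht
    rcases hs with rfl | hs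
    · rcases ht with rfl | ht
      · exact absurd rfl hst
      · exact (mem_nb.1 (h1 ht)).2
    · rcases ht with rfl | ht
      · exact (mem_nb.1 (h1 hs)).2.symm
      · exact h2 s hs t ht hst

private theorem GY15_chi_insert {G : SimpleGraph T} {A : Finset T} {x : T} (hx : x ∉ A) :
    chi G (insert x A) = chi G A - chi G (nb G A x) / 2 := by
  classical
  unfold chi
  rw [powerset_insert, filter_union, sum_union]
  · have h1 : (image (insert x) A.powerset).filter (fun σ => Cl G σ) =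
        ((nb G A x).powerset.filter (fun σ => Cl G σ)).image (insert x) := by
      ext σ
      simp only [mem_filter, mem_image, mem_powerset]
      constructor
      · rintro ⟨⟨τ, hτ, rfl⟩, h2⟩
        exact ⟨τ, (GY15_cl_insert hτ hx).1 h2, rfl⟩
      · rintro ⟨τ, hτ, rfl⟩
        have h3 : τ ⊆ A := hτ.1.trans nb_subset
        exact ⟨⟨τ, h3, rfl⟩, (GY15_cl_insert h3 hx).2 hτ⟩
    have hnx : ∀ τ ∈ (nb G A x).powerset.filter (fun σ => Cl G σ), x ∉ τ := by
      intro τ hτ h2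
      rw [mem_filter, mem_powerset] at hτ
      exact hx (nb_subset (hτ.1 h2))
    rw [h1, sum_image]
    · have h4 : ∑ τ ∈ (nb G A x).powerset.filter (fun σ => Cl G σ),
          (-1 / 2 : ℚ) ^ (insert x τ).card =
          (∑ τ ∈ (nb G A x).powerset.filter (fun σ => Cl G σ), (-1 / 2 : ℚ) ^ τ.card) *
            (-1 / 2) := by
        rw [sum_mul]
        refine sum_congr rfl fun τ hτ => ?_
        rw [card_insert_of_notMem (hnx τ hτ), pow_succ]
      rw [h4]
      ring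
    · intro τ hτ τ' hτ' h2
      have h3 : (insert x τ).erase x = (insert x τ').erase x := by rw [h2]
      rwa [erase_insert (hnx τ hτ), erase_insert (hnx τ' hτ')] at h3
  · rw [disjoint_left]
    intro σ h1 h2
    simp only [mem_filter, mem_image, mem_powerset] at h1 h2
    obtain ⟨⟨τ, _, rfl⟩, _⟩ := h2
    exact hx (h1.1 (mem_insert_self _ _))

private theorem GY15_nb_nb {G : SimpleGraph T} {M : Finset T} (a b : T) :
    nb G (nb G M a) b = nb G M a ∩ nb G M b := by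
  ext t
  rw [mem_inter, mem_nb, mem_nb, mem_nb]
  tauto

theorem gy_chi_zero (hN : NHypG) {G : SimpleGraph T} {m : ℕ} {M : Finset T}
    (hM : Zc G (m + 3) M) {a b : T} (ha : a ∈ M) (hb : b ∈ M) (hne : a ≠ b)
    (hn : ¬ G.Adj a b) :
    Cl G (nb G M a ∩ nb G M b) ∨ chi G (nb G M a ∩ nb G M b) = 0 := by
  by_cases hcl : Cl G (nb G M a ∩ nb G M b)
  · exact Or.inl hcl
  · refine Or.inr ?_
    have hK : Zc G (m + 2) (nb G M a) := Zc.link hM ha
    have hK0 : chi G (nb G M a) = 0 := hK.chi_eq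
    have haK : a ∉ nb G M a := fun h => SimpleGraph.irrefl G (mem_nb.1 h).2
    have hbK : b ∉ insert a (nb G M a) := by
      rw [mem_insert, not_or]
      exact ⟨hne.symm, fun h => hn (mem_nb.1 h).2⟩
    have e1 : nb G (nb G M a) a = nb G M a := by
      rw [GY15_nb_nb, inter_self]
    have e2 : nb G (insert a (nb G M a)) b = nb G M a ∩ nb G M b := by
      rw [← GY15_nb_nb]
      ext t
      rw [mem_nb, mem_nb, mem_insert]
      constructor
      · rintro ⟨h1 | h1, h2⟩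
        · rw [h1] at h2
          exact absurd h2.symm hn
        · exact ⟨h1, h2⟩
      · rintro ⟨h1, h2⟩
        exact ⟨Or.inr h1, h2⟩
    have h1 := GY15_chi_insert (G := G) haK
    have h2 := GY15_chi_insert (G := G) hbK
    rw [e1, hK0] at h1
    rw [e2, h1] at h2
    have hsub : insert b (insert a (nb G M a)) ⊆ M := by
      intro t ht
      simp only [mem_insert] at ht
      rcases ht with rfl | rfl | ht
      · exact hb
      · exact ha
      · exact nb_subset ht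
    have h3 : chi G (insert b (insert a (nb G M a))) ≤ 0 := by
      refine hN m T G M hM _ hsub fun h => ?_
      exact hn (h a (by simp) b (by simp) hne)
    have h4 : chi G (nb G M a ∩ nb G M b) ≤ 0 :=
      hN m T G M hM _ (inter_subset_left.trans nb_subset) hcl
    linarith

theorem gclass' (hD : DHypG) (hN : NHypG)
    (base : ∀ (G : SimpleGraph T) (M : Finset T), Zc G 3 M → ∀ a ∈ M, ∀ b ∈ M, a ≠ b →
      ¬ G.Adj a b → JT G (nb G M a ∩ nb G M b) ∨ T3 G (nb G M a) (nb G M a ∩ nb G M b) 2)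
    {G : SimpleGraph T} {m : ℕ} {M : Finset T} (hM : Zc G (m + 3) M) {a b : T} (ha : a ∈ M)
    (hb : b ∈ M) (hne : a ≠ b) (hn : ¬ G.Adj a b) :
    JT G (nb G M a ∩ nb G M b) ∨ T3 G (nb G M a) (nb G M a ∩ nb G M b) (m + 2) := by
  induction m generalizing M a b with
  | zero => exact base G M hM a ha b hb hne hn
  | succ m ih =>
    have hK : Zc G (m + 3) (nb G M a) := Zc.link (m := m + 3) hM ha
    refine gstep hD hK inter_subset_left
      (fun A hA hcl => hN (m + 1) T G M hM A (hA.trans nb_subset) hcl)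
      (gy_chi_zero hN (m := m + 1) hM ha hb hne hn) ?_ ?_
    · intro x hx
      rw [mem_inter, mem_nb, mem_nb] at hx
      have hMx : Zc G (m + 3) (nb G M x) := Zc.link (m := m + 3) hM hx.1.1
      have h1 := gy_chi_zero hN hMx (mem_nb.2 ⟨ha, hx.1.2.symm⟩) (mem_nb.2 ⟨hb, hx.2.2.symm⟩)
        hne hn
      have e : nb G (nb G M x) a ∩ nb G (nb G M x) b = nb G (nb G M a ∩ nb G M b) x := by
        ext t
        simp only [mem_inter, mem_nb]
        tauto
      rwa [e] at h1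
    · intro x hx
      rw [mem_inter, mem_nb, mem_nb] at hx
      have hMx : Zc G (m + 3) (nb G M x) := Zc.link (m := m + 3) hM hx.1.1
      have h1 := ih hMx (mem_nb.2 ⟨ha, hx.1.2.symm⟩) (mem_nb.2 ⟨hb, hx.2.2.symm⟩) hne hn
      have e : nb G (nb G M x) a ∩ nb G (nb G M x) b = nb G (nb G M a ∩ nb G M b) x := by
        ext t
        simp only [mem_inter, mem_nb]
        tauto
      have e' : nb G (nb G M x) a = nb G (nb G M a) x := by
        ext t
        rw [mem_nb, mem_nb, mem_nb, mem_nb]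
        tauto
      rwa [e, e'] at h1

end Pool.Agent.LibFlagPL

end

section

namespace Pool.Agent.LibFlagPL

open Finset

set_option linter.unusedSectionVars false

variable {T : Type} [Fintype T] [DecidableEq T]

theorem gclass (hD : DHypG) (hN : NHypG) {G : SimpleGraph T} {m : ℕ} {M : Finset T}
    (hM : Zc G (m + 3) M) {a b : T} (ha : a ∈ M) (hb : b ∈ M) (hne : a ≠ b)
    (hn : ¬ G.Adj a b) :
    JT G (nb G M a ∩ nb G M b) ∨ T3 G (nb G M a) (nb G M a ∩ nb G M b) (m + 2) :=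
  gclass' hD hN (fun _ _ h _ ha _ hb hne hn => gclass_base hN h ha hb hne hn) hM ha hb hne hn

end Pool.Agent.LibFlagPL

end
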