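import Pool.Agent.LibFlagPL.GenA

/-!
# LibFlagPL.GenZ: the face polynomial
-/

section

namespace Pool.Agent.LibFlagPL

open Finset Polynomial

set_option linter.unusedSectionVars false

variable {T : Type} [Fintype T] [DecidableEq T]

theorem fpoly_coeff {G : SimpleGraph T} {S : Finset T} (j : ℕ) :
    (fpoly G S).coeff j = ((faces G S j).card : ℚ) := by
  classical
  unfold fpoly
  rw [Polynomial.finsetSum_coeff]
  simp only [Polynomial.coeff_X_pow]
  rw [Finset.sum_boole]
  congr 2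
  ext σ
  simp only [Finset.mem_filter, Finset.mem_powerset, mem_faces]
  constructor
  · rintro ⟨⟨h1, h2⟩, h3⟩
    exact ⟨h1, h2, h3.symm⟩
  · rintro ⟨h1, h2, h3⟩
    exact ⟨⟨h1, h2⟩, h3.symm⟩

theorem chi_eq_eval {G : SimpleGraph T} {S : Finset T} :
    chi G S = (fpoly G S).eval (-1 / 2 : ℚ) := by
  classical
  unfold fpoly chi
  rw [Polynomial.eval_finsetSum]
  simp only [Polynomial.eval_pow, Polynomial.eval_X]

theorem fpoly_deriv {G : SimpleGraph T} {S : Finset T} :
    derivative (fpoly G S) = ∑ s ∈ S, fpoly G (nb G S s) := by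
  classical
  ext j
  rw [Polynomial.coeff_derivative, fpoly_coeff, Polynomial.finsetSum_coeff,
    Finset.sum_congr rfl (fun s _ => fpoly_coeff (G := G) (S := nb G S s) j)]
  have h := sum_faces_nb (G := G) (S := S) j
  have h' : (∑ s ∈ S, ((faces G (nb G S s) j).card : ℚ)) =
      (((j + 1) * (faces G S (j + 1)).card : ℕ) : ℚ) := by
    rw [← h]
    push_cast
    rfl
  rw [h']
  push_cast
  ring

end Pool.Agent.LibFlagPL

end

section

namespace Pool.Agent.LibFlagPL

open Finset Polynomial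

set_option linter.unusedSectionVars false

variable {T : Type} [Fintype T] [DecidableEq T]

theorem fpoly_eval_zero {G : SimpleGraph T} {S : Finset T} : (fpoly G S).eval 0 = 1 := by
  unfold fpoly
  rw [eval_finsetSum]
  rw [Finset.sum_eq_single ∅]
  · simp
  · intro σ _ h
    have hc : σ.card ≠ 0 := by
      intro h0
      exact h (Finset.card_eq_zero.1 h0)
    simp [hc]
  · intro h
    exfalso
    apply h
    simp [Cl]

theorem poly_eq_of_deriv {P Q : Polynomial ℚ} (h : derivative P = derivative Q) (a : ℚ)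
    (ha : P.eval a = Q.eval a) : P = Q := by
  have h1 : derivative (P - Q) = 0 := by rw [derivative_sub, h, sub_self]
  have h2 := derivative_eq_zero.1 h1
  obtain ⟨c, hc⟩ := natDegree_eq_zero.1 h2
  have h3 : (P - Q).eval a = 0 := by rw [eval_sub, ha, sub_self]
  rw [← hc, eval_C] at h3
  rw [h3, C_0] at hc
  exact (sub_eq_zero.1 hc.symm)

theorem deriv_pow_lin (n : ℕ) :
    derivative ((1 + C (2 : ℚ) * X) ^ (n + 1)) = C (2 * ((n : ℚ) + 1)) * (1 + C 2 * X) ^ n := by
  rw [derivative_pow]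
  simp only [derivative_add, derivative_one, derivative_mul, derivative_C, derivative_X,
    Nat.add_sub_cancel, zero_mul, zero_add, mul_one]
  rw [show (2 * ((n : ℚ) + 1)) = ((n : ℚ) + 1) * 2 by ring, C_mul, C_add]
  simp only [map_natCast, map_one]
  push_cast
  ring

/-- the derivative of the face polynomial from the links -/
theorem fpoly_deriv_of_links {G : SimpleGraph T} {m : ℕ} {S : Finset T}
    (hl : ∀ s ∈ S, fpoly G (nb G S s) =
      C (1 + (((nb G S s).card : ℚ) - 2 * m - 6) / 4) * (1 + C 2 * X) ^ (m + 3) -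
      C ((((nb G S s).card : ℚ) - 2 * m - 6) / 4) * (1 + C 2 * X) ^ (m + 1)) :
    derivative (fpoly G S) =
      C ((S.card : ℚ) + ((∑ s ∈ S, ((nb G S s).card : ℚ)) - (2 * m + 6) * S.card) / 4) *
        (1 + C 2 * X) ^ (m + 3) -
      C (((∑ s ∈ S, ((nb G S s).card : ℚ)) - (2 * m + 6) * S.card) / 4) *
        (1 + C 2 * X) ^ (m + 1) := by
  rw [fpoly_deriv, Finset.sum_congr rfl hl, Finset.sum_sub_distrib, ← Finset.sum_mul,
    ← Finset.sum_mul, ← map_sum, ← map_sum]
  have h1 : ∑ s ∈ S, (((nb G S s).card : ℚ) - 2 * m - 6) / 4 =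
      ((∑ s ∈ S, ((nb G S s).card : ℚ)) - (2 * m + 6) * S.card) / 4 := by
    rw [← Finset.sum_div, Finset.sum_sub_distrib, Finset.sum_sub_distrib, Finset.sum_const,
      Finset.sum_const, nsmul_eq_mul, nsmul_eq_mul]
    ring
  rw [Finset.sum_add_distrib, h1, Finset.sum_const, nsmul_eq_mul, mul_one]

/-- the degree sum and the face polynomial from the links and `chi = 0` -/
theorem fpoly_core {G : SimpleGraph T} {m : ℕ} {S : Finset T}
    (hl : ∀ s ∈ S, fpoly G (nb G S s) =
      C (1 + (((nb G S s).card : ℚ) - 2 * m - 6) / 4) * (1 + C 2 * X) ^ (m + 3) -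
      C ((((nb G S s).card : ℚ) - 2 * m - 6) / 4) * (1 + C 2 * X) ^ (m + 1))
    (h0 : chi G S = 0) :
    (∑ s ∈ S, ((nb G S s).card : ℚ)) = (4 * m + 10) * S.card - 4 * (m + 2) * (m + 4) ∧
    fpoly G S = C (1 + ((S.card : ℚ) - 2 * (m + 1 : ℕ) - 6) / 4) * (1 + C 2 * X) ^ (m + 4) -
      C (((S.card : ℚ) - 2 * (m + 1 : ℕ) - 6) / 4) * (1 + C 2 * X) ^ (m + 2) := by
  have hd := fpoly_deriv_of_links hl
  set A : ℚ := (∑ s ∈ S, ((nb G S s).card : ℚ)) with hA
  set n : ℚ := (S.card : ℚ) with hn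
  obtain ⟨c1, hc1⟩ : ∃ c1 : ℚ, n + (A - (2 * m + 6) * n) / 4 = 2 * ((m : ℚ) + 4) * c1 := by
    refine ⟨(n + (A - (2 * m + 6) * n) / 4) / (2 * ((m : ℚ) + 4)), ?_⟩
    have : (2 * ((m : ℚ) + 4)) ≠ 0 := by positivity
    field_simp
  obtain ⟨c2, hc2⟩ : ∃ c2 : ℚ, (A - (2 * m + 6) * n) / 4 = 2 * ((m : ℚ) + 2) * c2 := by
    refine ⟨((A - (2 * m + 6) * n) / 4) / (2 * ((m : ℚ) + 2)), ?_⟩
    have : (2 * ((m : ℚ) + 2)) ≠ 0 := by positivity
    field_simp
  have hF : fpoly G S = C c1 * (1 + C 2 * X) ^ (m + 4) - C c2 * (1 + C 2 * X) ^ (m + 2) := by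
    refine poly_eq_of_deriv ?_ (-1 / 2) ?_
    · rw [hd, derivative_sub, derivative_C_mul, derivative_C_mul,
        show m + 4 = (m + 3) + 1 by ring, show m + 2 = (m + 1) + 1 by ring,
        deriv_pow_lin, deriv_pow_lin, ← mul_assoc, ← mul_assoc, ← C_mul, ← C_mul, hc1, hc2]
      push_cast
      rw [show (2 * ((m : ℚ) + 4) * c1) = c1 * (2 * ((m : ℚ) + 3 + 1)) by ring,
        show (2 * ((m : ℚ) + 2) * c2) = c2 * (2 * ((m : ℚ) + 1 + 1)) by ring]
    · rw [← chi_eq_eval, h0]
      have h5 : (1 + (2 : ℚ) * (-1 / 2)) = 0 := by norm_num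
      simp only [eval_sub, eval_mul, eval_pow, eval_add, eval_C, eval_X, eval_one, h5]
      rw [zero_pow (by omega), zero_pow (by omega)]
      ring
  have h1 : c1 - c2 = 1 := by
    have := fpoly_eval_zero (G := G) (S := S)
    rw [hF] at this
    simpa using this
  have h2 : c2 = (n - 2 * (m + 1 : ℕ) - 6) / 4 := by
    have h3 : n + (2 * ((m : ℚ) + 2) * c2) = 2 * ((m : ℚ) + 4) * c1 := by
      rw [← hc1, ← hc2]
    have h4 : c1 = 1 + c2 := by linarith
    rw [h4] at h3
    push_cast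
    linarith
  have h3 : c1 = 1 + (n - 2 * (m + 1 : ℕ) - 6) / 4 := by linarith
  refine ⟨?_, ?_⟩
  · rw [h2] at hc2
    push_cast at hc2
    have h6 : A - (2 * m + 6) * n = 2 * ((m : ℚ) + 2) * (n - 2 * (m + 1) - 6) := by
      linarith
    linarith
  · rw [hF, h2, h3]

theorem fpoly_two {G : SimpleGraph T} {S : Finset T} (h : S.card = 2)
    (hn : ∀ a ∈ S, ∀ b ∈ S, ¬ G.Adj a b) : fpoly G S = 1 + C 2 * X := by
  refine poly_eq_of_deriv ?_ 0 ?_
  · rw [fpoly_deriv]
    have : ∀ s ∈ S, fpoly G (nb G S s) = 1 := by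
      intro s hs
      have h1 : nb G S s = ∅ := by
        ext t
        simp only [nb, mem_filter, notMem_empty, iff_false, not_and]
        intro ht
        exact hn s hs t ht
      rw [h1]
      unfold fpoly
      rw [Finset.powerset_empty]
      rw [Finset.filter_singleton]
      rw [if_pos (by intro s hs; simp at hs)]
      simp
    rw [Finset.sum_congr rfl this]
    simp only [Finset.sum_const, h, nsmul_eq_mul, mul_one, derivative_add, derivative_one,
      derivative_C_mul, derivative_X, zero_add]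
    exact (C_ofNat (R := ℚ) 2).symm ▸ rfl
  · rw [fpoly_eval_zero]; simp

theorem fpoly_circle {G : SimpleGraph T} {S : Finset T} (h : Circle G S)
    (hn : ∀ s ∈ S, ∀ a ∈ nb G S s, ∀ b ∈ nb G S s, ¬ G.Adj a b) :
    fpoly G S = 1 + C (S.card : ℚ) * X + C (S.card : ℚ) * X ^ 2 := by
  refine poly_eq_of_deriv ?_ 0 ?_
  · rw [fpoly_deriv]
    rw [Finset.sum_congr rfl (fun s hs => fpoly_two (h.2.1 s hs) (hn s hs))]
    simp only [Finset.sum_const, nsmul_eq_mul, derivative_add, derivative_one, derivative_C_mul,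
      derivative_X, derivative_X_pow, zero_add, mul_one]
    have h2 : (C (2 : ℚ) : ℚ[X]) = 2 := by exact C_ofNat 2
    simp only [map_natCast, h2]
    norm_num
    ring
  · rw [fpoly_eval_zero]; simp

/-- the face polynomial of a flag 2-sphere -/
theorem fpoly_F2 {G : SimpleGraph T} {S : Finset T} (h : F2 G S)
    (hn : ∀ t ∈ S, ∀ s ∈ nb G S t, ∀ a ∈ nb G (nb G S t) s, ∀ b ∈ nb G (nb G S t) s,
      ¬ G.Adj a b) :
    fpoly G S = C (1 + ((S.card : ℚ) - 2 * (0 : ℕ) - 6) / 4) * (1 + C 2 * X) ^ (0 + 3) -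
      C (((S.card : ℚ) - 2 * (0 : ℕ) - 6) / 4) * (1 + C 2 * X) ^ (0 + 1) := by
  have he : (∑ s ∈ S, ((nb G S s).card : ℚ)) = 6 * S.card - 12 := by
    have := h.2.2
    have h1 : ((∑ s ∈ S, (nb G S s).card : ℕ) : ℚ) + 12 = 6 * S.card := by exact_mod_cast this
    rw [Nat.cast_sum] at h1
    linarith
  refine poly_eq_of_deriv ?_ 0 ?_
  · rw [fpoly_deriv]
    rw [Finset.sum_congr rfl (fun s hs => fpoly_circle (h.2.1 s hs) (hn s hs))]
    rw [Finset.sum_add_distrib, Finset.sum_add_distrib, ← Finset.sum_mul, ← Finset.sum_mul,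
      ← map_sum, he, Finset.sum_const, nsmul_eq_mul, mul_one]
    simp only [derivative_sub, derivative_C_mul, zero_add, pow_one, derivative_add,
      derivative_one, derivative_X, mul_one, derivative_pow]
    refine Polynomial.funext fun x => ?_
    simp only [eval_add, eval_sub, eval_mul, eval_pow, eval_C, eval_X, eval_one, eval_natCast]
    push_cast
    ring
  · rw [fpoly_eval_zero]
    simp

/-- in a flag circle (cycle of length at least four) two neighbours of a vertex are not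
adjacent -/
theorem circle_nbr {G : SimpleGraph T} {C : Finset T} (h : Circle G C) {s : T} (hs : s ∈ C)
    {a b : T} (ha : a ∈ nb G C s) (hb : b ∈ nb G C s) : ¬ G.Adj a b := by
  by_cases hab : a = b
  · subst hab
    exact G.loopless.irrefl a
  · exact h.not_adj hs ha hb hab

/-- the face polynomial of `S ∈ Z_m`, `m ≥ 2` -/
theorem Zc.fpoly_eq {G : SimpleGraph T} {m : ℕ} {S : Finset T} (h : Zc G (m + 2) S) :
    fpoly G S = C (1 + ((S.card : ℚ) - 2 * m - 6) / 4) * (1 + C 2 * X) ^ (m + 3) -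
      C (((S.card : ℚ) - 2 * m - 6) / 4) * (1 + C 2 * X) ^ (m + 1) := by
  induction m generalizing S with
  | zero =>
    have h' : F2 G S := h
    exact fpoly_F2 h' (fun t ht s hs a ha b hb => circle_nbr (h'.2.1 t ht) hs ha hb)
  | succ m ih =>
    have h' : Conn G S ∧ (∀ s ∈ S, Zc G (m + 2) (nb G S s)) ∧ chi G S = 0 := h
    exact (fpoly_core (fun s hs => ih (h'.2.1 s hs)) h'.2.2).2

theorem gdeg {G : SimpleGraph T} {m : ℕ} {S : Finset T} (h : Zc G (m + 3) S) :
    (∑ s ∈ S, (nb G S s).card) + 4 * (m + 2) * (m + 4) = (4 * m + 10) * S.card := by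
  have h' : Conn G S ∧ (∀ s ∈ S, Zc G (m + 2) (nb G S s)) ∧ chi G S = 0 := h
  have h1 := (fpoly_core (fun s hs => Zc.fpoly_eq (h'.2.1 s hs)) h'.2.2).1
  have h2 : (((∑ s ∈ S, (nb G S s).card) + 4 * (m + 2) * (m + 4) : ℕ) : ℚ) =
      (((4 * m + 10) * S.card : ℕ) : ℚ) := by
    push_cast
    linarith
  exact_mod_cast h2

end Pool.Agent.LibFlagPL

end

section

namespace Pool.Agent.LibFlagPL

open Finset Polynomial

set_option linter.unusedSectionVars false

variable {T : Type} [Fintype T] [DecidableEq T]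

/-- value at `-1/2` of the iterated derivatives of the powers of `1 + 2 x` -/
private theorem GZ3_iter (n j : ℕ) (h : j < n) :
    (derivative^[j] ((1 + C (2 : ℚ) * X) ^ n)).eval (-1 / 2 : ℚ) = 0 := by
  have key : ∀ j n : ℕ, j < n → ∀ c : ℚ,
      (derivative^[j] (C c * (1 + C (2 : ℚ) * X) ^ n)).eval (-1 / 2 : ℚ) = 0 := by
    intro j
    induction j with
    | zero =>
      intro n hn c
      simp only [Function.iterate_zero, id_eq, eval_mul, eval_C, eval_pow, eval_add, eval_one,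
        eval_X]
      rw [show (1 + 2 * (-1 / 2) : ℚ) = 0 by norm_num, zero_pow (by omega), mul_zero]
    | succ j ih =>
      intro n hn c
      obtain ⟨k, rfl⟩ : ∃ k, n = k + 1 := ⟨n - 1, by omega⟩
      rw [Function.iterate_succ_apply]
      have h1 : derivative (C c * (1 + C (2 : ℚ) * X) ^ (k + 1)) =
          C (c * (k + 1) * 2) * (1 + C (2 : ℚ) * X) ^ k := by
        rw [derivative_C_mul, derivative_pow_succ, derivative_add, derivative_one,
          derivative_C_mul, derivative_X]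
        simp only [map_mul, map_add, map_natCast, map_one]
        ring
      rw [h1]
      exact ih k (by omega) _
  have h2 := key j n h 1
  rwa [C_1, one_mul] at h2

/-- families: the sums of the values of the iterated derivatives vanish -/
private theorem GZ3_fam (hD : DHypG) {G : SimpleGraph T} (r : ℕ) :
    ∀ (ι : Type) (I : Finset ι) (A : ι → Finset T), (∀ i ∈ I, Wc G (r + 3) (A i)) →
      (∀ j ≤ r, ∑ i ∈ I, (derivative^[j] (fpoly G (A i))).eval (-1 / 2 : ℚ) = 0) →
      ∀ i ∈ I, Zc G (r + 3) (A i) := by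
  induction r with
  | zero =>
    intro ι I A hW h0
    have hz : ∀ i ∈ I, ∀ s ∈ A i, Zc G 2 (nb G (A i) s) := fun i hi s hs => (hW i hi).2 s hs
    have hc : ∀ i ∈ I, 0 ≤ chi G (A i) := fun i hi => hD 0 T G (A i) (hW i hi).1 (hz i hi)
    have h1 : ∑ i ∈ I, chi G (A i) = 0 := by
      rw [← h0 0 le_rfl]
      refine Finset.sum_congr rfl fun i _ => ?_
      rw [Function.iterate_zero, id_eq]
      exact chi_eq_eval
    have h2 := (Finset.sum_eq_zero_iff_of_nonneg hc).1 h1
    intro i hi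
    exact ⟨(hW i hi).1, hz i hi, h2 i hi⟩
  | succ r ih =>
    intro ι I A hW h0
    have hz : ∀ i ∈ I, ∀ s ∈ A i, Zc G (r + 3) (nb G (A i) s) := by
      have h1 := ih (Σ _ : ι, T) (I.sigma fun i => A i) (fun p => nb G (A p.1) p.2) ?_ ?_
      · intro i hi s hs
        exact h1 ⟨i, s⟩ (Finset.mem_sigma.2 ⟨hi, hs⟩)
      · intro p hp
        rw [Finset.mem_sigma] at hp
        exact (hW p.1 hp.1).2 p.2 hp.2
      · intro j hj
        rw [Finset.sum_sigma, ← h0 (j + 1) (by omega)]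
        refine Finset.sum_congr rfl fun i _ => ?_
        rw [Function.iterate_succ_apply, fpoly_deriv, iterate_derivative_sum, eval_finsetSum]
    have hc : ∀ i ∈ I, 0 ≤ chi G (A i) := fun i hi => hD (r + 1) T G (A i) (hW i hi).1 (hz i hi)
    have h1 : ∑ i ∈ I, chi G (A i) = 0 := by
      rw [← h0 0 (by omega)]
      refine Finset.sum_congr rfl fun i _ => ?_
      rw [Function.iterate_zero, id_eq]
      exact chi_eq_eval
    have h2 := (Finset.sum_eq_zero_iff_of_nonneg hc).1 h1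
    intro i hi
    exact ⟨(hW i hi).1, hz i hi, h2 i hi⟩

theorem zc_of_fpoly (hD : DHypG) {G : SimpleGraph T} {m : ℕ} {S : Finset T}
    (h : Wc G (m + 3) S) (g : ℚ)
    (hf : fpoly G S = C (1 + g / 4) * (1 + C 2 * X) ^ (m + 4) -
      C (g / 4) * (1 + C 2 * X) ^ (m + 2)) : Zc G (m + 3) S := by
  refine GZ3_fam hD m Unit {()} (fun _ => S) (fun _ _ => h) ?_ () (Finset.mem_singleton_self _)
  intro j hj
  rw [Finset.sum_singleton, hf, iterate_derivative_sub, iterate_derivative_C_mul,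
    iterate_derivative_C_mul, eval_sub, eval_mul, eval_mul, GZ3_iter (m + 4) j (by omega),
    GZ3_iter (m + 2) j (by omega), mul_zero, mul_zero, sub_zero]

private theorem GZ3_eval_zero {G : SimpleGraph T} {S : Finset T} :
    (fpoly G S).eval (0 : ℚ) = 1 := by
  classical
  unfold fpoly
  rw [eval_finsetSum, Finset.sum_eq_single ∅]
  · simp
  · intro σ _ hne
    rw [eval_pow, eval_X, zero_pow]
    exact Finset.card_ne_zero.2 (Finset.nonempty_iff_ne_empty.2 hne)
  · intro h
    exfalso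
    apply h
    rw [Finset.mem_filter, Finset.mem_powerset]
    exact ⟨Finset.empty_subset S, fun s hs => absurd hs (Finset.notMem_empty s)⟩

private theorem GZ3_mul {a b c : ℚ} {Q : ℚ[X]} (h : a * (b * 2) = c) :
    C a * (C b * Q * C 2) = C c * Q := by
  rw [← h, map_mul, map_mul]
  ring

theorem zc_of_edges {G : SimpleGraph T} {m : ℕ} {S : Finset T} (hc : Conn G S)
    (hl : ∀ s ∈ S, Zc G (m + 3) (nb G S s))
    (he : (∑ s ∈ S, (nb G S s).card) + 4 * (m + 3) * (m + 5) = (4 * m + 14) * S.card) :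
    Zc G (m + 4) S := by
  refine ⟨hc, hl, ?_⟩
  -- the total excess
  obtain ⟨E, hE⟩ : ∃ E : ℚ, E = ∑ s ∈ S, (((nb G S s).card : ℚ) - 2 * ((m + 1 : ℕ) : ℚ) - 6) / 4 :=
    ⟨_, rfl⟩
  have hn : ((∑ s ∈ S, (nb G S s).card : ℕ) : ℚ) + 4 * ((m : ℚ) + 3) * ((m : ℚ) + 5) =
      (4 * (m : ℚ) + 14) * (S.card : ℚ) := by
    exact_mod_cast he
  have hE' : 4 * E = (∑ s ∈ S, ((nb G S s).card : ℚ)) - (2 * (m : ℚ) + 8) * (S.card : ℚ) := by
    rw [hE, Finset.mul_sum]
    rw [Finset.sum_congr rfl (fun s _ => by push_cast; ring :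
      ∀ s ∈ S, 4 * ((((nb G S s).card : ℚ) - 2 * ((m + 1 : ℕ) : ℚ) - 6) / 4) =
        ((nb G S s).card : ℚ) - (2 * (m : ℚ) + 8)), Finset.sum_sub_distrib, Finset.sum_const,
      nsmul_eq_mul]
    ring
  have hm3 : ((m : ℚ) + 3) ≠ 0 := by positivity
  have hm5 : ((m : ℚ) + 5) ≠ 0 := by positivity
  -- the candidate
  obtain ⟨P, hP⟩ : ∃ P : ℚ[X], P = C (((S.card : ℚ) + E) / (2 * ((m : ℚ) + 5))) *
      (1 + C (2 : ℚ) * X) ^ (m + 4 + 1) - C (E / (2 * ((m : ℚ) + 3))) *
      (1 + C (2 : ℚ) * X) ^ (m + 2 + 1) := ⟨_, rfl⟩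
  have hd : derivative (fpoly G S - P) = 0 := by
    rw [derivative_sub, fpoly_deriv, hP, derivative_sub, derivative_C_mul, derivative_C_mul,
      derivative_pow_succ, derivative_pow_succ, derivative_add, derivative_one, derivative_C_mul,
      derivative_X, zero_add, mul_one]
    have h1 : ∑ s ∈ S, fpoly G (nb G S s) =
        C ((S.card : ℚ) + E) * (1 + C (2 : ℚ) * X) ^ (m + 4) -
          C E * (1 + C (2 : ℚ) * X) ^ (m + 2) := by
      rw [Finset.sum_congr rfl fun s hs => (hl s hs).fpoly_eq (m := m + 1), Finset.sum_sub_distrib,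
        ← Finset.sum_mul, ← Finset.sum_mul, ← map_sum, ← map_sum, Finset.sum_add_distrib,
        Finset.sum_const, nsmul_eq_mul, mul_one, ← hE]
    rw [h1]
    have h2 : C (((S.card : ℚ) + E) / (2 * ((m : ℚ) + 5))) *
        (C (((m + 4 : ℕ) : ℚ) + 1) * (1 + C (2 : ℚ) * X) ^ (m + 4) * C (2 : ℚ)) =
        C ((S.card : ℚ) + E) * (1 + C (2 : ℚ) * X) ^ (m + 4) := by
      refine GZ3_mul ?_
      push_cast
      field_simp
      ring
    have h4 : C (E / (2 * ((m : ℚ) + 3))) *
        (C (((m + 2 : ℕ) : ℚ) + 1) * (1 + C (2 : ℚ) * X) ^ (m + 2) * C (2 : ℚ)) =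
        C E * (1 + C (2 : ℚ) * X) ^ (m + 2) := by
      refine GZ3_mul ?_
      push_cast
      field_simp
      ring
    rw [h2, h4, sub_self]
  have hdeg := derivative_eq_zero.1 hd
  obtain ⟨c, hcc⟩ : ∃ c : ℚ, fpoly G S - P = C c := ⟨_, eq_C_of_natDegree_eq_zero hdeg⟩
  have hP0 : P.eval 0 = 1 := by
    rw [hP]
    simp only [eval_sub, eval_mul, eval_C, eval_pow, eval_add, eval_one, eval_X, mul_zero, add_zero,
      one_pow, mul_one]
    rw [div_sub_div _ _ (by positivity) (by positivity), div_eq_one_iff_eq (by positivity)]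
    push_cast at hn
    linear_combination ((-1 : ℚ)) * hE' - hn
  have hPh : P.eval (-1 / 2 : ℚ) = 0 := by
    rw [hP]
    simp only [eval_sub, eval_mul, eval_C, eval_pow, eval_add, eval_one, eval_X]
    rw [show (1 + 2 * (-1 / 2) : ℚ) = 0 by norm_num, zero_pow (by omega), zero_pow (by omega)]
    ring
  have h5 := congrArg (Polynomial.eval (0 : ℚ)) hcc
  rw [eval_sub, GZ3_eval_zero, hP0, eval_C] at h5
  have h6 := congrArg (Polynomial.eval (-1 / 2 : ℚ)) hcc
  rw [eval_sub, hPh, eval_C, ← h5] at h6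
  rw [chi_eq_eval]
  linarith

end Pool.Agent.LibFlagPL

end
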