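import Pool.Agent.LibFlagPL.Graphs

/-!
# LibFlagPL.NbhdA: neighbourhoods in flag 2-spheres
-/

section

namespace Pool.Agent.LibFlagPL

open Finset

set_option linter.unusedSectionVars false

variable {T : Type} [Fintype T] [DecidableEq T]

private theorem four_aux {G : SimpleGraph T} {C : Finset T} (h : Circle G C) {p q r s : T}
    (hC : C = {p, q, r, s}) (hq : q ∈ C) (hqs : ¬ G.Adj q s) (hqr : p ≠ r) :
    G.Adj q r := by
  have h1 : nb G C q ⊆ {p, r} := by
    intro x hx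
    obtain ⟨hxC, hax⟩ := mem_nb.1 hx
    rw [hC] at hxC
    simp only [Finset.mem_insert, Finset.mem_singleton] at hxC ⊢
    rcases hxC with rfl | rfl | rfl | rfl
    · exact Or.inl rfl
    · exact absurd hax (G.loopless.irrefl _)
    · exact Or.inr rfl
    · exact absurd hax hqs
  have h2 : nb G C q = {p, r} := by
    refine Finset.eq_of_subset_of_card_le h1 ?_
    rw [h.2.1 q hq, Finset.card_pair hqr]
  have h3 : r ∈ nb G C q := by
    rw [h2]
    simp
  exact (mem_nb.1 h3).2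

theorem Circle.pt_four {G : SimpleGraph T} {C : Finset T} (h : Circle G C) (h4 : C.card = 4) :
    ∃ p q r s : T, C = {p, q, r, s} ∧ Ind4 G p q r s := by
  have hne : C.Nonempty := by
    rw [← Finset.card_pos]
    omega
  obtain ⟨p, hp⟩ := hne
  obtain ⟨q, s, hqs, hnqs, hnb⟩ := h.nb_eq hp
  have hq' : q ∈ nb G C p := by
    rw [hnb]
    simp
  have hs' : s ∈ nb G C p := by
    rw [hnb]
    simp
  obtain ⟨hqC, hpq⟩ := mem_nb.1 hq'
  obtain ⟨hsC, hps⟩ := mem_nb.1 hs'
  have hpq' : p ≠ q := G.ne_of_adj hpq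
  have hps' : p ≠ s := G.ne_of_adj hps
  have hsub : ({p, q, s} : Finset T) ⊆ C := by
    intro x hx
    simp only [Finset.mem_insert, Finset.mem_singleton] at hx
    rcases hx with rfl | rfl | rfl
    · exact hp
    · exact hqC
    · exact hsC
  have hc3 : ({p, q, s} : Finset T).card = 3 := by
    rw [Finset.card_insert_of_notMem, Finset.card_pair hqs]
    simp only [Finset.mem_insert, Finset.mem_singleton, not_or]
    exact ⟨hpq', hps'⟩
  have hc1 : (C \ {p, q, s}).card = 1 := by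
    have := Finset.card_sdiff_add_card_eq_card hsub
    omega
  obtain ⟨r, hr⟩ := Finset.card_eq_one.1 hc1
  have hrm : r ∈ C \ {p, q, s} := by
    rw [hr]
    simp
  obtain ⟨hrC, hrn⟩ := Finset.mem_sdiff.1 hrm
  simp only [Finset.mem_insert, Finset.mem_singleton, not_or] at hrn
  obtain ⟨hrp, hrq, hrs⟩ := hrn
  have hCe : C = {p, q, r, s} := by
    ext x
    simp only [Finset.mem_insert, Finset.mem_singleton]
    constructor
    · intro hx
      by_cases hx3 : x ∈ ({p, q, s} : Finset T)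
      · simp only [Finset.mem_insert, Finset.mem_singleton] at hx3
        rcases hx3 with hx3 | hx3 | hx3
        · exact Or.inl hx3
        · exact Or.inr (Or.inl hx3)
        · exact Or.inr (Or.inr (Or.inr hx3))
      · have : x ∈ C \ {p, q, s} := Finset.mem_sdiff.2 ⟨hx, hx3⟩
        rw [hr] at this
        exact Or.inr (Or.inr (Or.inl (Finset.mem_singleton.1 this)))
    · rintro (rfl | rfl | rfl | rfl)
      · exact hp
      · exact hqC
      · exact hrC
      · exact hsC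
  have hnpr : ¬ G.Adj p r := by
    intro hadj
    have : r ∈ nb G C p := mem_nb.2 ⟨hrC, hadj⟩
    rw [hnb] at this
    simp only [Finset.mem_insert, Finset.mem_singleton] at this
    rcases this with h1 | h1
    · exact hrq h1
    · exact hrs h1
  have hCe' : C = {p, s, r, q} := by
    rw [hCe]
    ext x
    simp only [Finset.mem_insert, Finset.mem_singleton]
    tauto
  have hqr : G.Adj q r := four_aux h hCe hqC hnqs (Ne.symm hrp)
  have hsr : G.Adj s r := four_aux h hCe' hsC (fun h1 => hnqs h1.symm) (Ne.symm hrp)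
  exact ⟨p, q, r, s, hCe, hpq, hqr, hsr.symm, hps.symm, Ne.symm hrp, hqs, hnpr, hnqs⟩

theorem F2.exists_deg_four {G : SimpleGraph T} {K : Finset T} (h : F2 G K) (h1 : K.card ≤ 11) :
    ∃ t ∈ K, (nb G K t).card = 4 := by
  by_contra hcon
  push Not at hcon
  have h5 : ∀ t ∈ K, 5 ≤ (nb G K t).card := by
    intro t ht
    have h4 := (h.2.1 t ht).1
    have h3 := hcon t ht
    omega
  have h6 : K.card * 5 ≤ ∑ t ∈ K, (nb G K t).card := by
    rw [← smul_eq_mul]
    exact Finset.card_nsmul_le_sum K _ 5 h5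
  have h7 := h.2.2
  omega

theorem F2.second {G : SimpleGraph T} {K : Finset T} (h : F2 G K) {t p q : T} (ht : t ∈ K)
    (hp : p ∈ K) (hq : q ∈ K) (hpq : G.Adj p q) (htp : G.Adj t p) (htq : G.Adj t q) :
    ∃ x ∈ K, x ≠ t ∧ ¬ G.Adj t x ∧ G.Adj p x ∧ G.Adj q x ∧
      ∀ u ∈ K, G.Adj p u → G.Adj q u → u = t ∨ u = x := by
  have hc := h.2.1 p hp
  have hqm : q ∈ nb G K p := mem_nb.2 ⟨hq, hpq⟩
  obtain ⟨a, b, hab, hnab, hnb⟩ := hc.nb_eq hqm
  have htm : t ∈ nb G (nb G K p) q := mem_nb.2 ⟨mem_nb.2 ⟨ht, htp.symm⟩, htq.symm⟩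
  have key : ∀ a b : T, a ≠ b → ¬ G.Adj a b → nb G (nb G K p) q = {a, b} → t = a →
      ∃ x ∈ K, x ≠ t ∧ ¬ G.Adj t x ∧ G.Adj p x ∧ G.Adj q x ∧
        ∀ u ∈ K, G.Adj p u → G.Adj q u → u = t ∨ u = x := by
    intro a b hab hnab hnb hta
    have hbm : b ∈ nb G (nb G K p) q := by
      rw [hnb]
      simp
    obtain ⟨hb1, hb2⟩ := mem_nb.1 hbm
    obtain ⟨hb3, hb4⟩ := mem_nb.1 hb1
    refine ⟨b, hb3, ?_, ?_, hb4, hb2, ?_⟩
    · rw [hta]
      exact Ne.symm hab
    · rw [hta]
      exact hnab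
    · intro u hu hpu hqu
      have hum : u ∈ nb G (nb G K p) q := mem_nb.2 ⟨mem_nb.2 ⟨hu, hpu⟩, hqu⟩
      rw [hnb] at hum
      simp only [Finset.mem_insert, Finset.mem_singleton] at hum
      rw [hta]
      exact hum
  have htm' := htm
  rw [hnb] at htm'
  simp only [Finset.mem_insert, Finset.mem_singleton] at htm'
  rcases htm' with h1 | h1
  · exact key a b hab hnab hnb h1
  · refine key b a (Ne.symm hab) (fun h2 => hnab h2.symm) ?_ h1
    rw [hnb]
    exact Finset.pair_comm a b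

end Pool.Agent.LibFlagPL

end

section

namespace Pool.Agent.LibFlagPL

open Finset

set_option linter.unusedSectionVars false

variable {T : Type} [Fintype T] [DecidableEq T]

/-- the flag 2-sphere with nine vertices which satisfies (C1), up to one adjacency -/
structure Nn (G : SimpleGraph T) (K : Finset T) (t p q r s x y z w : T) : Prop where
  hK : K = {t, p, q, r, s, x, y, z, w}
  card : K.card = 9
  nt : nb G K t = {p, q, r, s}
  np : nb G K p = {t, q, s, x, w}
  nq : nb G K q = {t, p, r, x, y}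
  nr : nb G K r = {t, q, s, y, z}
  ns : nb G K s = {t, p, r, z, w}
  xy : G.Adj x y
  yz : G.Adj y z
  zw : G.Adj z w
  wx : G.Adj w x

theorem Nn.rot {G : SimpleGraph T} {K : Finset T} {t p q r s x y z w : T}
    (h : Nn G K t p q r s x y z w) : Nn G K t q r s p y z w x := by
  refine ⟨?_, h.card, ?_, ?_, ?_, ?_, ?_, h.yz, h.zw, h.wx, h.xy⟩
  · rw [h.hK]
    ext u
    simp only [Finset.mem_insert, Finset.mem_singleton]
    tauto
  · rw [h.nt]
    ext u
    simp only [Finset.mem_insert, Finset.mem_singleton]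
    tauto
  · rw [h.nq]
    ext u
    simp only [Finset.mem_insert, Finset.mem_singleton]
    tauto
  · rw [h.nr]
  · rw [h.ns]
    ext u
    simp only [Finset.mem_insert, Finset.mem_singleton]
    tauto
  · rw [h.np]
    ext u
    simp only [Finset.mem_insert, Finset.mem_singleton]
    tauto

private theorem PT2_three {X : Finset T} {a b c u : T} (h : X.card ≤ 3) (hab : a ≠ b)
    (hac : a ≠ c) (hbc : b ≠ c) (ha : a ∈ X) (hb : b ∈ X) (hc : c ∈ X) (hu : u ∈ X) :
    u = a ∨ u = b ∨ u = c := by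
  have h1 : ({a, b, c} : Finset T) ⊆ X := by
    intro v hv
    simp only [Finset.mem_insert, Finset.mem_singleton] at hv
    rcases hv with rfl | rfl | rfl <;> assumption
  have h2 : ({a, b, c} : Finset T).card = 3 := Finset.card_eq_three.2 ⟨a, b, c, hab, hac, hbc, rfl⟩
  have h3 : ({a, b, c} : Finset T) = X := Finset.eq_of_subset_of_card_le h1 (by omega)
  rw [← h3] at hu
  simpa only [Finset.mem_insert, Finset.mem_singleton] using hu

private theorem PT2_adj {G : SimpleGraph T} {C : Finset T} {x p y : T}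
    (hc : (nb G C x).card = 2) (hsub : ∀ u ∈ C, G.Adj x u → u = p ∨ u = y) : G.Adj x y := by
  by_contra hn
  have h1 : nb G C x ⊆ {p} := by
    intro u hu
    rw [mem_nb] at hu
    rcases hsub u hu.1 hu.2 with h | h
    · rw [h]; exact Finset.mem_singleton_self p
    · rw [h] at hu; exact absurd hu.2 hn
  have h2 := Finset.card_le_card h1
  rw [Finset.card_singleton] at h2
  omega

theorem F2.exists_Nn {G : SimpleGraph T} {K : Finset T} (h : F2 G K)
    (hC1 : ∀ a ∈ K, ∀ a' ∈ K, a ≠ a' → ¬ G.Adj a a' → (nb G K a ∩ nb G K a').card ≤ 3)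
    (h9 : K.card ≤ 9) : ∃ t p q r s x y z w : T, Nn G K t p q r s x y z w := by
  obtain ⟨t, ht, ht4⟩ := F2.exists_deg_four h (by omega)
  obtain ⟨p, q, r, s, hC, hpq, hqr, hrs, hsp, hpr, hqs, npr, nqs⟩ :=
    Circle.pt_four (h.2.1 t ht) ht4
  have hp : p ∈ K ∧ G.Adj t p := mem_nb.1 (by rw [hC]; simp)
  have hq : q ∈ K ∧ G.Adj t q := mem_nb.1 (by rw [hC]; simp)
  have hr : r ∈ K ∧ G.Adj t r := mem_nb.1 (by rw [hC]; simp)
  have hs : s ∈ K ∧ G.Adj t s := mem_nb.1 (by rw [hC]; simp)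
  obtain ⟨x, hx, hxt, htx, hpx, hqx, -⟩ := F2.second h ht hp.1 hq.1 hpq hp.2 hq.2
  obtain ⟨y, hy, hyt, hty, hqy, hry, -⟩ := F2.second h ht hq.1 hr.1 hqr hq.2 hr.2
  obtain ⟨z, hz, hzt, htz, hrz, hsz, -⟩ := F2.second h ht hr.1 hs.1 hrs hr.2 hs.2
  obtain ⟨w, hw, hwt, htw, hsw, hpw, -⟩ := F2.second h ht hs.1 hp.1 hsp hs.2 hp.2
  have hP : ∀ u ∈ K, G.Adj p u → G.Adj r u → u = t ∨ u = q ∨ u = s := by
    intro u hu h1 h2
    refine PT2_three (hC1 p hp.1 r hr.1 hpr npr) hq.2.ne hs.2.ne hqs ?_ ?_ ?_ ?_ <;>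
      simp only [Finset.mem_inter, mem_nb]
    · exact ⟨⟨ht, hp.2.symm⟩, ht, hr.2.symm⟩
    · exact ⟨⟨hq.1, hpq⟩, hq.1, hqr.symm⟩
    · exact ⟨⟨hs.1, hsp.symm⟩, hs.1, hrs⟩
    · exact ⟨⟨hu, h1⟩, hu, h2⟩
  have hQ : ∀ u ∈ K, G.Adj q u → G.Adj s u → u = t ∨ u = p ∨ u = r := by
    intro u hu h1 h2
    refine PT2_three (hC1 q hq.1 s hs.1 hqs nqs) hp.2.ne hr.2.ne hpr ?_ ?_ ?_ ?_ <;>
      simp only [Finset.mem_inter, mem_nb]
    · exact ⟨⟨ht, hq.2.symm⟩, ht, hs.2.symm⟩
    · exact ⟨⟨hp.1, hpq.symm⟩, hp.1, hsp⟩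
    · exact ⟨⟨hr.1, hqr⟩, hr.1, hrs.symm⟩
    · exact ⟨⟨hu, h1⟩, hu, h2⟩
  -- the outer vertices are different from the inner ones
  have out : ∀ u, u ≠ t → ¬ G.Adj t u → u ≠ p ∧ u ≠ q ∧ u ≠ r ∧ u ≠ s := by
    intro u _ h2
    refine ⟨?_, ?_, ?_, ?_⟩
    · rintro rfl; exact h2 hp.2
    · rintro rfl; exact h2 hq.2
    · rintro rfl; exact h2 hr.2
    · rintro rfl; exact h2 hs.2
  obtain ⟨xp, xq, xr, xs⟩ := out x hxt htx
  obtain ⟨yp, yq, yr, ys⟩ := out y hyt hty
  obtain ⟨zp, zq, zr, zs⟩ := out z hzt htz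
  obtain ⟨wp, wq, wr, ws⟩ := out w hwt htw
  have nrx : ¬ G.Adj r x := fun h1 => by
    rcases hP x hx hpx h1 with h2 | h2 | h2 <;> contradiction
  have nsx : ¬ G.Adj s x := fun h1 => by
    rcases hQ x hx hqx h1 with h2 | h2 | h2 <;> contradiction
  have npy : ¬ G.Adj p y := fun h1 => by
    rcases hP y hy h1 hry with h2 | h2 | h2 <;> contradiction
  have nsy : ¬ G.Adj s y := fun h1 => by
    rcases hQ y hy hqy h1 with h2 | h2 | h2 <;> contradiction
  have npz : ¬ G.Adj p z := fun h1 => by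
    rcases hP z hz h1 hrz with h2 | h2 | h2 <;> contradiction
  have nqz : ¬ G.Adj q z := fun h1 => by
    rcases hQ z hz h1 hsz with h2 | h2 | h2 <;> contradiction
  have nrw : ¬ G.Adj r w := fun h1 => by
    rcases hP w hw hpw h1 with h2 | h2 | h2 <;> contradiction
  have nqw : ¬ G.Adj q w := fun h1 => by
    rcases hQ w hw h1 hsw with h2 | h2 | h2 <;> contradiction
  have xy' : x ≠ y := by rintro rfl; exact npy hpx
  have xz' : x ≠ z := by rintro rfl; exact npz hpx
  have xw' : x ≠ w := by rintro rfl; exact nqw hqx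
  have yz' : y ≠ z := by rintro rfl; exact nqz hqy
  have yw' : y ≠ w := by rintro rfl; exact nqw hqy
  have zw' : z ≠ w := by rintro rfl; exact nrw hrz
  have hnd : [t, p, q, r, s, x, y, z, w].Nodup := by
    simp only [List.nodup_cons, List.mem_cons, List.not_mem_nil, or_false, not_or,
      not_false_eq_true, and_true, List.nodup_nil]
    exact ⟨⟨hp.2.ne, hq.2.ne, hr.2.ne, hs.2.ne, hxt.symm, hyt.symm, hzt.symm, hwt.symm⟩,
      ⟨hpq.ne, hpr, hsp.ne.symm, xp.symm, yp.symm, zp.symm, wp.symm⟩,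
      ⟨hqr.ne, hqs, xq.symm, yq.symm, zq.symm, wq.symm⟩,
      ⟨hrs.ne, xr.symm, yr.symm, zr.symm, wr.symm⟩,
      ⟨xs.symm, ys.symm, zs.symm, ws.symm⟩, ⟨xy', xz', xw'⟩, ⟨yz', yw'⟩, zw'⟩
  have hcard : ({t, p, q, r, s, x, y, z, w} : Finset T).card = 9 := by
    have h1 := List.toFinset_card_of_nodup hnd
    have h2 : [t, p, q, r, s, x, y, z, w].toFinset = {t, p, q, r, s, x, y, z, w} := by
      ext u
      simp
    rw [h2] at h1
    simpa using h1
  have hKS : K = {t, p, q, r, s, x, y, z, w} := by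
    symm
    refine Finset.eq_of_subset_of_card_le ?_ (by omega)
    intro u hu
    simp only [Finset.mem_insert, Finset.mem_singleton] at hu
    rcases hu with h1 | h1 | h1 | h1 | h1 | h1 | h1 | h1 | h1 <;> rw [h1]
    exacts [ht, hp.1, hq.1, hr.1, hs.1, hx, hy, hz, hw]
  have hmem : ∀ u ∈ K, u = t ∨ u = p ∨ u = q ∨ u = r ∨ u = s ∨ u = x ∨ u = y ∨ u = z ∨
      u = w := by
    intro u hu
    rw [hKS] at hu
    simpa only [Finset.mem_insert, Finset.mem_singleton] using hu
  have np' : nb G K p = {t, q, s, x, w} := by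
    ext u
    simp only [mem_nb, Finset.mem_insert, Finset.mem_singleton]
    constructor
    · rintro ⟨h1, h2⟩
      rcases hmem u h1 with h3 | h3 | h3 | h3 | h3 | h3 | h3 | h3 | h3
      · exact Or.inl h3
      · rw [h3] at h2; exact absurd h2 (G.irrefl)
      · exact Or.inr (Or.inl h3)
      · rw [h3] at h2; exact absurd h2 npr
      · exact Or.inr (Or.inr (Or.inl h3))
      · exact Or.inr (Or.inr (Or.inr (Or.inl h3)))
      · rw [h3] at h2; exact absurd h2 npy
      · rw [h3] at h2; exact absurd h2 npz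
      · exact Or.inr (Or.inr (Or.inr (Or.inr h3)))
    · rintro (h1 | h1 | h1 | h1 | h1) <;> rw [h1]
      exacts [⟨ht, hp.2.symm⟩, ⟨hq.1, hpq⟩, ⟨hs.1, hsp.symm⟩, ⟨hx, hpx⟩, ⟨hw, hpw⟩]
  have nq' : nb G K q = {t, p, r, x, y} := by
    ext u
    simp only [mem_nb, Finset.mem_insert, Finset.mem_singleton]
    constructor
    · rintro ⟨h1, h2⟩
      rcases hmem u h1 with h3 | h3 | h3 | h3 | h3 | h3 | h3 | h3 | h3
      · exact Or.inl h3
      · exact Or.inr (Or.inl h3)
      · rw [h3] at h2; exact absurd h2 (G.irrefl)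
      · exact Or.inr (Or.inr (Or.inl h3))
      · rw [h3] at h2; exact absurd h2 nqs
      · exact Or.inr (Or.inr (Or.inr (Or.inl h3)))
      · exact Or.inr (Or.inr (Or.inr (Or.inr h3)))
      · rw [h3] at h2; exact absurd h2 nqz
      · rw [h3] at h2; exact absurd h2 nqw
    · rintro (h1 | h1 | h1 | h1 | h1) <;> rw [h1]
      exacts [⟨ht, hq.2.symm⟩, ⟨hp.1, hpq.symm⟩, ⟨hr.1, hqr⟩, ⟨hx, hqx⟩, ⟨hy, hqy⟩]
  have nr' : nb G K r = {t, q, s, y, z} := by
    ext u
    simp only [mem_nb, Finset.mem_insert, Finset.mem_singleton]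
    constructor
    · rintro ⟨h1, h2⟩
      rcases hmem u h1 with h3 | h3 | h3 | h3 | h3 | h3 | h3 | h3 | h3
      · exact Or.inl h3
      · rw [h3] at h2; exact absurd h2.symm npr
      · exact Or.inr (Or.inl h3)
      · rw [h3] at h2; exact absurd h2 (G.irrefl)
      · exact Or.inr (Or.inr (Or.inl h3))
      · rw [h3] at h2; exact absurd h2 nrx
      · exact Or.inr (Or.inr (Or.inr (Or.inl h3)))
      · exact Or.inr (Or.inr (Or.inr (Or.inr h3)))
      · rw [h3] at h2; exact absurd h2 nrw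
    · rintro (h1 | h1 | h1 | h1 | h1) <;> rw [h1]
      exacts [⟨ht, hr.2.symm⟩, ⟨hq.1, hqr.symm⟩, ⟨hs.1, hrs⟩, ⟨hy, hry⟩, ⟨hz, hrz⟩]
  have ns' : nb G K s = {t, p, r, z, w} := by
    ext u
    simp only [mem_nb, Finset.mem_insert, Finset.mem_singleton]
    constructor
    · rintro ⟨h1, h2⟩
      rcases hmem u h1 with h3 | h3 | h3 | h3 | h3 | h3 | h3 | h3 | h3
      · exact Or.inl h3
      · exact Or.inr (Or.inl h3)
      · rw [h3] at h2; exact absurd h2.symm nqs
      · exact Or.inr (Or.inr (Or.inl h3))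
      · rw [h3] at h2; exact absurd h2 (G.irrefl)
      · rw [h3] at h2; exact absurd h2 nsx
      · rw [h3] at h2; exact absurd h2 nsy
      · exact Or.inr (Or.inr (Or.inr (Or.inl h3)))
      · exact Or.inr (Or.inr (Or.inr (Or.inr h3)))
    · rintro (h1 | h1 | h1 | h1 | h1) <;> rw [h1]
      exacts [⟨ht, hs.2.symm⟩, ⟨hp.1, hsp⟩, ⟨hr.1, hrs.symm⟩, ⟨hz, hsz⟩, ⟨hw, hsw⟩]
  have axy : G.Adj x y := by
    refine PT2_adj (p := p) ((h.2.1 q hq.1).2.1 x (mem_nb.2 ⟨hx, hqx⟩)) ?_
    intro u hu hxu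
    rw [nq'] at hu
    simp only [Finset.mem_insert, Finset.mem_singleton] at hu
    rcases hu with h1 | h1 | h1 | h1 | h1
    · rw [h1] at hxu; exact absurd hxu.symm htx
    · exact Or.inl h1
    · rw [h1] at hxu; exact absurd hxu.symm nrx
    · rw [h1] at hxu; exact absurd hxu (G.irrefl)
    · exact Or.inr h1
  have ayz : G.Adj y z := by
    refine PT2_adj (p := q) ((h.2.1 r hr.1).2.1 y (mem_nb.2 ⟨hy, hry⟩)) ?_
    intro u hu hxu
    rw [nr'] at hu
    simp only [Finset.mem_insert, Finset.mem_singleton] at hu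
    rcases hu with h1 | h1 | h1 | h1 | h1
    · rw [h1] at hxu; exact absurd hxu.symm hty
    · exact Or.inl h1
    · rw [h1] at hxu; exact absurd hxu.symm nsy
    · rw [h1] at hxu; exact absurd hxu (G.irrefl)
    · exact Or.inr h1
  have azw : G.Adj z w := by
    refine PT2_adj (p := r) ((h.2.1 s hs.1).2.1 z (mem_nb.2 ⟨hz, hsz⟩)) ?_
    intro u hu hxu
    rw [ns'] at hu
    simp only [Finset.mem_insert, Finset.mem_singleton] at hu
    rcases hu with h1 | h1 | h1 | h1 | h1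
    · rw [h1] at hxu; exact absurd hxu.symm htz
    · rw [h1] at hxu; exact absurd hxu.symm npz
    · exact Or.inl h1
    · rw [h1] at hxu; exact absurd hxu (G.irrefl)
    · exact Or.inr h1
  have awx : G.Adj w x := by
    refine PT2_adj (p := s) ((h.2.1 p hp.1).2.1 w (mem_nb.2 ⟨hw, hpw⟩)) ?_
    intro u hu hxu
    rw [np'] at hu
    simp only [Finset.mem_insert, Finset.mem_singleton] at hu
    rcases hu with h1 | h1 | h1 | h1 | h1
    · rw [h1] at hxu; exact absurd hxu.symm htw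
    · rw [h1] at hxu; exact absurd hxu.symm nqw
    · exact Or.inl h1
    · exact Or.inr h1
    · rw [h1] at hxu; exact absurd hxu (G.irrefl)
  exact ⟨t, p, q, r, s, x, y, z, w,
    { hK := hKS
      card := by rw [hKS]; exact hcard
      nt := hC
      np := np'
      nq := nq'
      nr := nr'
      ns := ns'
      xy := axy
      yz := ayz
      zw := azw
      wx := awx }⟩

end Pool.Agent.LibFlagPL

end

section

namespace Pool.Agent.LibFlagPL

open Finset

set_option linter.unusedSectionVars false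

variable {T : Type} [Fintype T] [DecidableEq T]

private theorem Nn.toF {G : SimpleGraph T} {K : Finset T} {t p q r s x y z w : T}
    (h : Nn G K t p q r s x y z w) : K = [t, p, q, r, s, x, y, z, w].toFinset := by
  rw [h.hK]
  ext u
  simp

private theorem Nn.nodup {G : SimpleGraph T} {K : Finset T} {t p q r s x y z w : T}
    (h : Nn G K t p q r s x y z w) : [t, p, q, r, s, x, y, z, w].Nodup := by
  have h1 := h.card
  rw [h.toF, List.card_toFinset] at h1
  have h2 : [t, p, q, r, s, x, y, z, w].dedup = [t, p, q, r, s, x, y, z, w] :=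
    (List.dedup_sublist _).eq_of_length (by rw [h1]; rfl)
  rw [← h2]
  exact List.nodup_dedup _

theorem Nn.nx {G : SimpleGraph T} {K : Finset T} {t p q r s x y z w : T}
    (h : Nn G K t p q r s x y z w) (h1 : G.Adj x z) : nb G K x = {p, q, y, w, z} := by
  have hd := h.nodup
  simp only [List.nodup_cons, List.mem_cons, List.not_mem_nil, or_false, not_or, not_false_iff,
    List.nodup_nil, and_true] at hd
  obtain ⟨⟨htp, htq, htr, hts, htx, hty, htz, htw⟩, ⟨hpq, hpr, hps, hpx, hpy, hpz, hpw⟩,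
    ⟨hqr, hqs, hqx, hqy, hqz, hqw⟩, ⟨hrs, hrx, hry, hrz, hrw⟩, ⟨hsx, hsy, hsz, hsw⟩,
    ⟨hxy, hxz, hxw⟩, ⟨hyz, hyw⟩, hzw⟩ := hd
  have hK : ∀ u, u ∈ K ↔ u = t ∨ u = p ∨ u = q ∨ u = r ∨ u = s ∨ u = x ∨ u = y ∨ u = z ∨ u = w := by
    intro u
    rw [h.hK]
    simp
  have hx : x ∈ K := (hK x).2 (by simp)
  have at' : ¬ G.Adj t x := by
    intro ha
    have h2 : x ∈ nb G K t := mem_nb.2 ⟨hx, ha⟩
    rw [h.nt] at h2
    simp only [Finset.mem_insert, Finset.mem_singleton, Ne.symm hpx, Ne.symm hqx, Ne.symm hrx,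
      Ne.symm hsx, or_self] at h2
  have ap' : G.Adj p x := by
    have h2 : x ∈ nb G K p := by rw [h.np]; simp
    exact (mem_nb.1 h2).2
  have aq' : G.Adj q x := by
    have h2 : x ∈ nb G K q := by rw [h.nq]; simp
    exact (mem_nb.1 h2).2
  have ar' : ¬ G.Adj r x := by
    intro ha
    have h2 : x ∈ nb G K r := mem_nb.2 ⟨hx, ha⟩
    rw [h.nr] at h2
    simp only [Finset.mem_insert, Finset.mem_singleton, Ne.symm htx, Ne.symm hqx, Ne.symm hsx,
      hxy, hxz, or_self] at h2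
  have as' : ¬ G.Adj s x := by
    intro ha
    have h2 : x ∈ nb G K s := mem_nb.2 ⟨hx, ha⟩
    rw [h.ns] at h2
    simp only [Finset.mem_insert, Finset.mem_singleton, Ne.symm htx, Ne.symm hpx, Ne.symm hrx,
      hxz, hxw, or_self] at h2
  have axy := h.xy
  have awx := h.wx
  have m : ∀ u, u ∈ nb G K x ↔ (u = p ∨ u = q ∨ u = y ∨ u = w ∨ u = z) := by
    intro u
    rw [mem_nb, hK]
    constructor
    · rintro ⟨hu, ha⟩
      rcases hu with e | e | e | e | e | e | e | e | e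
      · exact absurd (e ▸ ha.symm) at'
      · exact Or.inl e
      · exact Or.inr (Or.inl e)
      · exact absurd (e ▸ ha.symm) ar'
      · exact absurd (e ▸ ha.symm) as'
      · exact absurd e.symm ha.ne
      · exact Or.inr (Or.inr (Or.inl e))
      · exact Or.inr (Or.inr (Or.inr (Or.inr e)))
      · exact Or.inr (Or.inr (Or.inr (Or.inl e)))
    · rintro (e | e | e | e | e)
      · exact ⟨by simp [e], e ▸ ap'.symm⟩
      · exact ⟨by simp [e], e ▸ aq'.symm⟩
      · exact ⟨by simp [e], e ▸ axy⟩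
      · exact ⟨by simp [e], e ▸ awx.symm⟩
      · exact ⟨by simp [e], e ▸ h1⟩
  ext u
  rw [m u]
  simp only [Finset.mem_insert, Finset.mem_singleton]

theorem Nn.ny {G : SimpleGraph T} {K : Finset T} {t p q r s x y z w : T}
    (h : Nn G K t p q r s x y z w) (h1 : ¬ G.Adj y w) : nb G K y = {q, r, x, z} := by
  have hd := h.nodup
  simp only [List.nodup_cons, List.mem_cons, List.not_mem_nil, or_false, not_or, not_false_iff,
    List.nodup_nil, and_true] at hd
  obtain ⟨⟨htp, htq, htr, hts, htx, hty, htz, htw⟩, ⟨hpq, hpr, hps, hpx, hpy, hpz, hpw⟩,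
    ⟨hqr, hqs, hqx, hqy, hqz, hqw⟩, ⟨hrs, hrx, hry, hrz, hrw⟩, ⟨hsx, hsy, hsz, hsw⟩,
    ⟨hxy, hxz, hxw⟩, ⟨hyz, hyw⟩, hzw⟩ := hd
  have hK : ∀ u, u ∈ K ↔ u = t ∨ u = p ∨ u = q ∨ u = r ∨ u = s ∨ u = x ∨ u = y ∨ u = z ∨ u = w := by
    intro u
    rw [h.hK]
    simp
  have hy : y ∈ K := (hK y).2 (by simp)
  have at' : ¬ G.Adj t y := by
    intro ha
    have h2 : y ∈ nb G K t := mem_nb.2 ⟨hy, ha⟩
    rw [h.nt] at h2
    simp only [Finset.mem_insert, Finset.mem_singleton, Ne.symm hpy, Ne.symm hqy, Ne.symm hry,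
      Ne.symm hsy, or_self] at h2
  have ap' : ¬ G.Adj p y := by
    intro ha
    have h2 : y ∈ nb G K p := mem_nb.2 ⟨hy, ha⟩
    rw [h.np] at h2
    simp only [Finset.mem_insert, Finset.mem_singleton, Ne.symm hty, Ne.symm hqy, Ne.symm hsy,
      Ne.symm hxy, hyw, or_self] at h2
  have aq' : G.Adj q y := by
    have h2 : y ∈ nb G K q := by rw [h.nq]; simp
    exact (mem_nb.1 h2).2
  have ar' : G.Adj r y := by
    have h2 : y ∈ nb G K r := by rw [h.nr]; simp
    exact (mem_nb.1 h2).2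
  have as' : ¬ G.Adj s y := by
    intro ha
    have h2 : y ∈ nb G K s := mem_nb.2 ⟨hy, ha⟩
    rw [h.ns] at h2
    simp only [Finset.mem_insert, Finset.mem_singleton, Ne.symm hty, Ne.symm hpy, Ne.symm hry,
      hyz, hyw, or_self] at h2
  have axy := h.xy
  have ayz := h.yz
  have m : ∀ u, u ∈ nb G K y ↔ (u = q ∨ u = r ∨ u = x ∨ u = z) := by
    intro u
    rw [mem_nb, hK]
    constructor
    · rintro ⟨hu, ha⟩
      rcases hu with e | e | e | e | e | e | e | e | e
      · exact absurd (e ▸ ha.symm) at'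
      · exact absurd (e ▸ ha.symm) ap'
      · exact Or.inl e
      · exact Or.inr (Or.inl e)
      · exact absurd (e ▸ ha.symm) as'
      · exact Or.inr (Or.inr (Or.inl e))
      · exact absurd e.symm ha.ne
      · exact Or.inr (Or.inr (Or.inr e))
      · exact absurd (e ▸ ha) h1
    · rintro (e | e | e | e)
      · exact ⟨by simp [e], e ▸ aq'.symm⟩
      · exact ⟨by simp [e], e ▸ ar'.symm⟩
      · exact ⟨by simp [e], e ▸ axy.symm⟩
      · exact ⟨by simp [e], e ▸ ayz⟩
  ext u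
  rw [m u]
  simp only [Finset.mem_insert, Finset.mem_singleton]

private theorem Nn.cx {G : SimpleGraph T} {K : Finset T} {t p q r s x y z w : T}
    (h : Nn G K t p q r s x y z w) :
    (G.Adj x z → (nb G K x).card = 5) ∧ (¬ G.Adj x z → (nb G K x).card = 4) := by
  have hd := h.nodup
  simp only [List.nodup_cons, List.mem_cons, List.not_mem_nil, or_false, not_or, not_false_iff,
    List.nodup_nil, and_true] at hd
  constructor
  · intro h1
    rw [h.nx h1]
    rw [Finset.card_insert_of_notMem (by simp only [Finset.mem_insert, Finset.mem_singleton]; grind),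
      Finset.card_insert_of_notMem (by simp only [Finset.mem_insert, Finset.mem_singleton]; grind),
      Finset.card_insert_of_notMem (by simp only [Finset.mem_insert, Finset.mem_singleton]; grind),
      Finset.card_insert_of_notMem (by simp only [Finset.mem_singleton]; grind),
      Finset.card_singleton]
  · intro h1
    rw [h.rot.rot.rot.ny h1]
    rw [Finset.card_insert_of_notMem (by simp only [Finset.mem_insert, Finset.mem_singleton]; grind),
      Finset.card_insert_of_notMem (by simp only [Finset.mem_insert, Finset.mem_singleton]; grind),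
      Finset.card_insert_of_notMem (by simp only [Finset.mem_singleton]; grind),
      Finset.card_singleton]

private theorem Nn.cp {G : SimpleGraph T} {K : Finset T} {t p q r s x y z w : T}
    (h : Nn G K t p q r s x y z w) : (nb G K p).card = 5 := by
  have hd := h.nodup
  simp only [List.nodup_cons, List.mem_cons, List.not_mem_nil, or_false, not_or, not_false_iff,
    List.nodup_nil, and_true] at hd
  rw [h.np]
  rw [Finset.card_insert_of_notMem (by simp only [Finset.mem_insert, Finset.mem_singleton]; grind),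
    Finset.card_insert_of_notMem (by simp only [Finset.mem_insert, Finset.mem_singleton]; grind),
    Finset.card_insert_of_notMem (by simp only [Finset.mem_insert, Finset.mem_singleton]; grind),
    Finset.card_insert_of_notMem (by simp only [Finset.mem_singleton]; grind),
    Finset.card_singleton]

private theorem Nn.ct {G : SimpleGraph T} {K : Finset T} {t p q r s x y z w : T}
    (h : Nn G K t p q r s x y z w) : (nb G K t).card = 4 := by
  have hd := h.nodup
  simp only [List.nodup_cons, List.mem_cons, List.not_mem_nil, or_false, not_or, not_false_iff,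
    List.nodup_nil, and_true] at hd
  rw [h.nt]
  rw [Finset.card_insert_of_notMem (by simp only [Finset.mem_insert, Finset.mem_singleton]; grind),
    Finset.card_insert_of_notMem (by simp only [Finset.mem_insert, Finset.mem_singleton]; grind),
    Finset.card_insert_of_notMem (by simp only [Finset.mem_singleton]; grind),
    Finset.card_singleton]

theorem Nn.diag {G : SimpleGraph T} {K : Finset T} {t p q r s x y z w : T}
    (h : Nn G K t p q r s x y z w) (hF : F2 G K) :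
    (G.Adj x z ∧ ¬ G.Adj y w) ∨ (¬ G.Adj x z ∧ G.Adj y w) := by
  have hsum := hF.2.2
  rw [h.card] at hsum
  have hs : ∀ f : T → ℕ, ∑ u ∈ K, f u = f t + f p + f q + f r + f s + f x + f y + f z + f w := by
    intro f
    rw [h.toF, List.sum_toFinset _ h.nodup]
    simp only [List.map_cons, List.map_nil, List.sum_cons, List.sum_nil]
    ring
  rw [hs] at hsum
  have ct := h.ct
  have c1 := h.cp
  have c2 := h.rot.cp
  have c3 := h.rot.rot.cp
  have c4 := h.rot.rot.rot.cp
  have cx := h.cx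
  have cy := h.rot.cx
  have cz := h.rot.rot.cx
  have cw := h.rot.rot.rot.cx
  by_cases h1 : G.Adj x z
  · by_cases h2 : G.Adj y w
    · have := cx.1 h1
      have := cz.1 h1.symm
      have := cy.1 h2
      have := cw.1 h2.symm
      omega
    · exact Or.inl ⟨h1, h2⟩
  · by_cases h2 : G.Adj y w
    · exact Or.inr ⟨h1, h2⟩
    · have := cx.2 h1
      have := cz.2 (fun h' => h1 h'.symm)
      have := cy.2 h2
      have := cw.2 (fun h' => h2 h'.symm)
      omega

end Pool.Agent.LibFlagPL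

end

section

namespace Pool.Agent.LibFlagPL

open Finset

set_option linter.unusedSectionVars false

variable {T : Type} [Fintype T] [DecidableEq T]

theorem Nn.false_of {G : SimpleGraph T} {M : Finset T} (hM : F3 G M) {v : T} (hv : v ∈ M)
    (hC2 : ∀ a ∈ nb G M v, ∃ b ∈ nb G M v, ∃ X ∈ M, b ≠ a ∧ ¬ G.Adj a b ∧ X ≠ v ∧
      ¬ G.Adj v X ∧ G.Adj X a ∧ G.Adj X b ∧
      Cl G (nb G (nb G M v) a ∩ nb G (nb G M v) b) ∧
      ∀ y ∈ nb G (nb G M v) a ∩ nb G (nb G M v) b, G.Adj X y)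
    (hc : ∀ X ∈ M, X ≠ v → ¬ G.Adj v X → ¬ Cl G (nb G M v ∩ nb G M X) →
      (nb G M v ∩ nb G M X).card ≤ 4)
    {t p q r s x y z w : T} (h : Nn G (nb G M v) t p q r s x y z w) (hxz : G.Adj x z)
    (hyw : ¬ G.Adj y w) : False := by
  have hnd : ([t, p, q, r, s, x, y, z, w] : List T).Nodup := by
    have h1 : (([t, p, q, r, s, x, y, z, w] : List T) : Multiset T).toFinset.card =
        Multiset.card (([t, p, q, r, s, x, y, z, w] : List T) : Multiset T) := by
      have h2 : (([t, p, q, r, s, x, y, z, w] : List T) : Multiset T).toFinset = nb G M v := by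
        rw [h.hK]
        ext a
        simp
      rw [h2, h.card]
      rfl
    exact Multiset.toFinset_card_eq_card_iff_nodup.1 h1
  have hz : nb G (nb G M v) z = {r, s, w, y, x} := h.rot.rot.nx hxz.symm
  have hw : nb G (nb G M v) w = {s, p, z, x} := h.rot.rot.ny (fun h1 => hyw h1.symm)
  have hy : nb G (nb G M v) y = {q, r, x, z} := h.ny hyw
  simp only [List.nodup_cons, List.mem_cons, List.not_mem_nil, not_or, or_false, not_false_iff,
    List.nodup_nil, and_true] at hnd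
  obtain ⟨⟨tp, tq, tr, ts, tx, ty, tz, tw⟩, ⟨pq, pr, ps, px, py, pz, pw⟩, ⟨qr, qs, qx, qy, qz, qw⟩,
    ⟨rs, rx, ry, rz, rw'⟩, ⟨sx, sy, sz, sw⟩, ⟨xy, xz, xw⟩, ⟨yz, yw⟩, zw⟩ := hnd
  have hm : ∀ a ∈ nb G M v, ∀ b ∈ nb G M v, b ∉ nb G (nb G M v) a → ¬ G.Adj a b :=
    fun a _ b hb hn hab => hn (mem_nb.2 ⟨hb, hab⟩)
  have mem : ∀ a, a ∈ nb G M v ↔ a = t ∨ a = p ∨ a = q ∨ a = r ∨ a = s ∨ a = x ∨ a = y ∨ a = z ∨
      a = w := by
    intro a
    rw [h.hK]
    simp
  have mp : ∀ a, a ∈ nb G (nb G M v) p ↔ a = t ∨ a = q ∨ a = s ∨ a = x ∨ a = w := by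
    intro a
    rw [h.np]
    simp
  have mq : ∀ a, a ∈ nb G (nb G M v) q ↔ a = t ∨ a = p ∨ a = r ∨ a = x ∨ a = y := by
    intro a
    rw [h.nq]
    simp
  have mr : ∀ a, a ∈ nb G (nb G M v) r ↔ a = t ∨ a = q ∨ a = s ∨ a = y ∨ a = z := by
    intro a
    rw [h.nr]
    simp
  have ms : ∀ a, a ∈ nb G (nb G M v) s ↔ a = t ∨ a = p ∨ a = r ∨ a = z ∨ a = w := by
    intro a
    rw [h.ns]
    simp
  have mz : ∀ a, a ∈ nb G (nb G M v) z ↔ a = r ∨ a = s ∨ a = w ∨ a = y ∨ a = x := by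
    intro a
    rw [hz]
    simp
  have mw : ∀ a, a ∈ nb G (nb G M v) w ↔ a = s ∨ a = p ∨ a = z ∨ a = x := by
    intro a
    rw [hw]
    simp
  have my : ∀ a, a ∈ nb G (nb G M v) y ↔ a = q ∨ a = r ∨ a = x ∨ a = z := by
    intro a
    rw [hy]
    simp
  have hpK : p ∈ nb G M v := (mem p).2 (by simp)
  have hqK : q ∈ nb G M v := (mem q).2 (by simp)
  have hxK : x ∈ nb G M v := (mem x).2 (by simp)
  have hyK : y ∈ nb G M v := (mem y).2 (by simp)
  have hwK : w ∈ nb G M v := (mem w).2 (by simp)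
  have nqs : ¬ G.Adj q s := fun h1 => by
    have h2 := (mq s).1 (mem_nb.2 ⟨(mem s).2 (by simp), h1⟩)
    rcases h2 with h2 | h2 | h2 | h2 | h2
    · exact ts h2.symm
    · exact ps h2.symm
    · exact rs h2.symm
    · exact sx h2
    · exact sy h2
  have nsx : ¬ G.Adj s x := fun h1 => by
    have h2 := (ms x).1 (mem_nb.2 ⟨hxK, h1⟩)
    rcases h2 with h2 | h2 | h2 | h2 | h2
    · exact tx h2.symm
    · exact px h2.symm
    · exact rx h2.symm
    · exact xz h2
    · exact xw h2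
  have npr : ¬ G.Adj p r := fun h1 => by
    have h2 := (mp r).1 (mem_nb.2 ⟨(mem r).2 (by simp), h1⟩)
    rcases h2 with h2 | h2 | h2 | h2 | h2
    · exact tr h2.symm
    · exact qr h2.symm
    · exact rs h2
    · exact rx h2
    · exact rw' h2
  have nrx : ¬ G.Adj r x := fun h1 => by
    have h2 := (mr x).1 (mem_nb.2 ⟨hxK, h1⟩)
    rcases h2 with h2 | h2 | h2 | h2 | h2
    · exact tx h2.symm
    · exact qx h2.symm
    · exact sx h2.symm
    · exact xy h2
    · exact xz h2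
  -- (C2) at `p`
  obtain ⟨X, hXM, hXv, hvX, hpy, hXp, hXy, hXq, hXx⟩ : ∃ X ∈ M, X ≠ v ∧ ¬ G.Adj v X ∧
      ¬ G.Adj p y ∧ G.Adj X p ∧ G.Adj X y ∧ G.Adj X q ∧ G.Adj X x := by
    obtain ⟨b, hb, X, hXM, hbp, hpb, hXv, hvX, hXp, hXb, hCl, hall⟩ := hC2 p hpK
    have hnp : ¬ (b = t ∨ b = q ∨ b = s ∨ b = x ∨ b = w) :=
      fun h1 => hpb (mem_nb.1 ((mp b).2 h1)).2
    rcases (mem b).1 hb with h1 | h1 | h1 | h1 | h1 | h1 | h1 | h1 | h1
    · exact absurd (by simp [h1]) hnp
    · exact absurd h1 hbp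
    · exact absurd (by simp [h1]) hnp
    · subst h1
      exact absurd (hCl q (Finset.mem_inter.2 ⟨(mp q).2 (by simp), (mr q).2 (by simp)⟩) s
        (Finset.mem_inter.2 ⟨(mp s).2 (by simp), (mr s).2 (by simp)⟩) qs) nqs
    · exact absurd (by simp [h1]) hnp
    · exact absurd (by simp [h1]) hnp
    · subst h1
      exact ⟨X, hXM, hXv, hvX, hpb, hXp, hXb,
        hall q (Finset.mem_inter.2 ⟨(mp q).2 (by simp), (my q).2 (by simp)⟩),
        hall x (Finset.mem_inter.2 ⟨(mp x).2 (by simp), (my x).2 (by simp)⟩)⟩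
    · subst h1
      exact absurd (hCl s (Finset.mem_inter.2 ⟨(mp s).2 (by simp), (mz s).2 (by simp)⟩) x
        (Finset.mem_inter.2 ⟨(mp x).2 (by simp), (mz x).2 (by simp)⟩) sx) nsx
    · exact absurd (by simp [h1]) hnp
  -- (C2) at `q`
  obtain ⟨X', hXM', hXv', hXq', hXw', hXp', hXx'⟩ : ∃ X ∈ M, X ≠ v ∧
      G.Adj X q ∧ G.Adj X w ∧ G.Adj X p ∧ G.Adj X x := by
    obtain ⟨b, hb, X, hXM, hbp, hpb, hXv, hvX, hXp, hXb, hCl, hall⟩ := hC2 q hqK
    have hnp : ¬ (b = t ∨ b = p ∨ b = r ∨ b = x ∨ b = y) :=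
      fun h1 => hpb (mem_nb.1 ((mq b).2 h1)).2
    rcases (mem b).1 hb with h1 | h1 | h1 | h1 | h1 | h1 | h1 | h1 | h1
    · exact absurd (by simp [h1]) hnp
    · exact absurd (by simp [h1]) hnp
    · exact absurd h1 hbp
    · exact absurd (by simp [h1]) hnp
    · subst h1
      exact absurd (hCl p (Finset.mem_inter.2 ⟨(mq p).2 (by simp), (ms p).2 (by simp)⟩) r
        (Finset.mem_inter.2 ⟨(mq r).2 (by simp), (ms r).2 (by simp)⟩) pr) npr
    · exact absurd (by simp [h1]) hnp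
    · exact absurd (by simp [h1]) hnp
    · subst h1
      exact absurd (hCl r (Finset.mem_inter.2 ⟨(mq r).2 (by simp), (mz r).2 (by simp)⟩) x
        (Finset.mem_inter.2 ⟨(mq x).2 (by simp), (mz x).2 (by simp)⟩) rx) nrx
    · subst h1
      exact ⟨X, hXM, hXv, hXp, hXb,
        hall p (Finset.mem_inter.2 ⟨(mq p).2 (by simp), (mw p).2 (by simp)⟩),
        hall x (Finset.mem_inter.2 ⟨(mq x).2 (by simp), (mw x).2 (by simp)⟩)⟩
  -- `X = X'`
  have hpM := mem_nb.1 hpK
  have hqM := mem_nb.1 hqK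
  have hxM := mem_nb.1 hxK
  have apq : G.Adj p q := (mem_nb.1 ((mp q).2 (by simp))).2
  have apx : G.Adj p x := (mem_nb.1 ((mp x).2 (by simp))).2
  have aqx : G.Adj q x := (mem_nb.1 ((mq x).2 (by simp))).2
  have hcirc : Circle G (nb G (nb G M p) q) := hM.circle hpM.1 hqM.1 apq
  have hx2 : x ∈ nb G (nb G M p) q := mem_nb.2 ⟨mem_nb.2 ⟨hxM.1, apx⟩, aqx⟩
  have hcard := hcirc.2.1 x hx2
  have hXX : X = X' := by
    by_contra hne
    have hsub : ({v, X, X'} : Finset T) ⊆ nb G (nb G (nb G M p) q) x := by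
      intro a ha
      simp only [Finset.mem_insert, Finset.mem_singleton] at ha
      rcases ha with rfl | rfl | rfl
      · exact mem_nb.2 ⟨mem_nb.2 ⟨mem_nb.2 ⟨hv, hpM.2.symm⟩, hqM.2.symm⟩, hxM.2.symm⟩
      · exact mem_nb.2 ⟨mem_nb.2 ⟨mem_nb.2 ⟨hXM, hXp.symm⟩, hXq.symm⟩, hXx.symm⟩
      · exact mem_nb.2 ⟨mem_nb.2 ⟨mem_nb.2 ⟨hXM', hXp'.symm⟩, hXq'.symm⟩, hXx'.symm⟩
    have h3 := Finset.card_le_card hsub
    rw [Finset.card_eq_three.2 ⟨v, X, X', hXv.symm, hXv'.symm, hne, rfl⟩, hcard] at h3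
    omega
  subst hXX
  have hmI : ∀ a ∈ nb G M v, G.Adj X a → a ∈ nb G M v ∩ nb G M X := fun a ha hXa =>
    Finset.mem_inter.2 ⟨ha, mem_nb.2 ⟨(mem_nb.1 ha).1, hXa⟩⟩
  have h4 := hc X hXM hXv hvX
    (fun h1 => hpy (h1 p (hmI p hpK hXp) y (hmI y hyK hXy) py))
  have hsub : ({p, q, x, y, w} : Finset T) ⊆ nb G M v ∩ nb G M X := by
    intro a ha
    simp only [Finset.mem_insert, Finset.mem_singleton] at ha
    rcases ha with rfl | rfl | rfl | rfl | rfl
    · exact hmI _ hpK hXp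
    · exact hmI _ hqK hXq
    · exact hmI _ hxK hXx
    · exact hmI _ hyK hXy
    · exact hmI _ hwK hXw'
  have h5 := Finset.card_le_card hsub
  have h6 : ({p, q, x, y, w} : Finset T).card = 5 := by
    rw [Finset.card_insert_of_notMem (by simp [pq, px, py, pw]),
      Finset.card_insert_of_notMem (by simp [qx, qy, qw]),
      Finset.card_insert_of_notMem (by simp [xy, xw]),
      Finset.card_insert_of_notMem (by simp [yw]), Finset.card_singleton]
  omega

end Pool.Agent.LibFlagPL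

end

section

namespace Pool.Agent.LibFlagPL

open Finset

set_option linter.unusedSectionVars false

variable {T : Type} [Fintype T] [DecidableEq T]

/-- P3.5: from (c), (C1), (C2) at `v` the link of `v` has at least ten vertices -/
theorem ten_le_link {G : SimpleGraph T} {M : Finset T} (hM : F3 G M) {v : T} (hv : v ∈ M)
    (hC1 : ∀ a ∈ nb G M v, ∀ a' ∈ nb G M v, a ≠ a' → ¬ G.Adj a a' →
      (nb G (nb G M v) a ∩ nb G (nb G M v) a').card ≤ 3)
    (hC2 : ∀ a ∈ nb G M v, ∃ b ∈ nb G M v, ∃ X ∈ M, b ≠ a ∧ ¬ G.Adj a b ∧ X ≠ v ∧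
      ¬ G.Adj v X ∧ G.Adj X a ∧ G.Adj X b ∧
      Cl G (nb G (nb G M v) a ∩ nb G (nb G M v) b) ∧
      ∀ y ∈ nb G (nb G M v) a ∩ nb G (nb G M v) b, G.Adj X y)
    (hc : ∀ X ∈ M, X ≠ v → ¬ G.Adj v X → ¬ Cl G (nb G M v ∩ nb G M X) →
      (nb G M v ∩ nb G M X).card ≤ 4) : 10 ≤ (nb G M v).card := by
  by_contra h
  have hF : F2 G (nb G M v) := hM.2 v hv
  obtain ⟨t, p, q, r, s, x, y, z, w, h1⟩ := hF.exists_Nn hC1 (by omega)
  rcases h1.diag hF with ⟨h2, h3⟩ | ⟨h2, h3⟩
  · exact h1.false_of hM hv hC2 hc h2 h3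
  · exact h1.rot.false_of hM hv hC2 hc h3 fun h4 => h2 h4.symm

end Pool.Agent.LibFlagPL

end
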