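import Pool.Agent.LibFlagPL.GenK
import Pool.Agent.LibFlagPL.GenY
import Pool.Agent.LibFlagPL.GenZ
import Pool.Agent.LibFlagPL.NbhdA

/-!
# LibFlagPL.GenP: the prime case in all dimensions
-/

section

namespace Pool.Agent.LibFlagPL

open Finset

set_option linter.unusedSectionVars false

variable {T : Type} [Fintype T] [DecidableEq T]

private theorem gp1_mem_nb {G : SimpleGraph T} {S : Finset T} {y t : T} :
    t ∈ nb G S y ↔ t ∈ S ∧ G.Adj y t := by
  classical
  unfold nb
  rw [Finset.mem_filter]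

private theorem gp1_mem_bdy {G : SimpleGraph T} {Y Z : Finset T} {y : T} :
    y ∈ bdy G Y Z ↔ y ∈ Y ∧ ∃ x ∈ Z, G.Adj y x := by
  classical
  unfold bdy
  rw [Finset.mem_filter]

theorem gP1 (hD : DHypG) (hN : NHypG) {G : SimpleGraph T} {m : ℕ} {M : Finset T}
    (hM : Zc G (m + 3) M) (hs : ¬ Susp G M) (hp : PrimeM G M (m + 3)) : C1 G M := by
  classical
  intro a ha b hb hne hn
  rcases gclass hD hN hM ha hb hne hn with h | hT
  · exact h
  set K := nb G M a with hKdef
  set Y := nb G M a ∩ nb G M b with hYdef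
  have hK : Zc G (m + 2) K := hM.link ha
  have hYK : Y ⊆ K := Finset.inter_subset_left
  -- `Y ≠ K`
  have hex : ∃ x, x ∈ K \ Y := by
    by_contra hcon
    push Not at hcon
    refine hs ⟨a, ha, b, hb, hne, hn, fun t ht => ?_⟩
    have h1 := hcon t
    rw [Finset.mem_sdiff] at h1
    push Not at h1
    have h2 : t ∈ Y := h1 ht
    exact (Finset.mem_inter.1 h2).2
  obtain ⟨x0, hx0⟩ := hex
  obtain ⟨Z, hZ, hx0Z⟩ := comp_exists (G := G) hx0
  have hd := hT Z hZ
  set O := bdy G Y Z with hOdef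
  have hOY : O ⊆ Y := fun y hy => (gp1_mem_bdy.1 hy).1
  have haO : ∀ t ∈ O, G.Adj a t := fun t ht =>
    (gp1_mem_nb.1 (Finset.mem_inter.1 (hOY ht)).1).2
  have hbO : ∀ t ∈ O, G.Adj b t := fun t ht =>
    (gp1_mem_nb.1 (Finset.mem_inter.1 (hOY ht)).2).2
  have hOM : ∀ t ∈ O, t ∈ M := fun t ht =>
    (gp1_mem_nb.1 (Finset.mem_inter.1 (hOY ht)).1).1
  have hS : DIA G (insert a (insert b O)) (m + 3) := hd.susp hne hn haO hbO
  have hSM : insert a (insert b O) ⊆ M := by
    intro t ht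
    rw [Finset.mem_insert, Finset.mem_insert] at ht
    rcases ht with rfl | rfl | ht
    · exact ha
    · exact hb
    · exact hOM t ht
  obtain ⟨u, hu, huS⟩ := hp _ hSM hS
  have huS' : ∀ t, t = a ∨ t = b ∨ t ∈ O → G.Adj u t := by
    intro t ht
    have h1 : t ∈ nb G M u := by
      rw [huS, Finset.mem_insert, Finset.mem_insert]
      exact ht
    exact (gp1_mem_nb.1 h1).2
  have hua : G.Adj u a := huS' a (Or.inl rfl)
  have hub : G.Adj u b := huS' b (Or.inr (Or.inl rfl))
  have huO : ∀ t ∈ O, G.Adj u t := fun t ht => huS' t (Or.inr (Or.inr ht))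
  have huK : u ∈ K := gp1_mem_nb.2 ⟨hu, hua.symm⟩
  have huY : u ∈ Y := Finset.mem_inter.2 ⟨huK, gp1_mem_nb.2 ⟨hu, hub.symm⟩⟩
  have huO' : u ∉ O := fun h => G.loopless.irrefl u (huO u h)
  have hKu : ∀ t ∈ K, G.Adj u t → t ∈ O := by
    intro t ht hut
    have h1 := gp1_mem_nb.1 ht
    have h2 : t ∈ nb G M u := gp1_mem_nb.2 ⟨h1.1, hut⟩
    rw [huS, Finset.mem_insert, Finset.mem_insert] at h2
    rcases h2 with rfl | rfl | h2
    · exact absurd h1.2 (G.loopless.irrefl _)
    · exact absurd h1.2 hn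
    · exact h2
  -- the separation by `O`
  obtain ⟨U, V, hUV⟩ := sep_exists hD (r := m + 1) hK (hOY.trans hYK) hd
  have hZY : ∀ t ∈ Z, t ∉ Y := fun t ht => (Finset.mem_sdiff.1 (hZ.1 ht)).2
  have hcZ : Comp G (K \ O) Z := by
    refine ⟨fun t ht => ?_, hZ.2.1, fun x hx y hy hxy => ?_⟩
    · have h1 := Finset.mem_sdiff.1 (hZ.1 ht)
      exact Finset.mem_sdiff.2 ⟨h1.1, fun h2 => h1.2 (hOY h2)⟩
    · have h1 := Finset.mem_sdiff.1 hy
      by_cases hyY : y ∈ Y
      · exact absurd (gp1_mem_bdy.2 ⟨hyY, x, hx, hxy.symm⟩) h1.2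
      · exact hZ.2.2 x hx y (Finset.mem_sdiff.2 ⟨h1.1, hyY⟩) hxy
  have hcu : Comp G (K \ O) {u} := by
    refine ⟨fun t ht => ?_, ⟨⟨u, by simp⟩, ?_⟩, ?_⟩
    · rw [Finset.mem_singleton] at ht
      rw [ht]
      exact Finset.mem_sdiff.2 ⟨huK, huO'⟩
    · intro x hx y hy
      rw [Finset.mem_singleton] at hx hy
      rw [hx, hy]
    · intro x hx y hy hxy
      rw [Finset.mem_singleton] at hx
      rw [hx] at hxy
      have h1 := Finset.mem_sdiff.1 hy
      exact absurd (hKu y h1.1 hxy) h1.2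
  have hneq : Z ≠ {u} := by
    intro h
    exact hZY u (by rw [h]; simp) huY
  have hcov : Z ∪ {u} = K \ O := by
    rcases hUV.comp hcZ with h1 | h1 <;> rcases hUV.comp hcu with h2 | h2
    · exact absurd (h1.trans h2.symm) hneq
    · rw [h1, h2]
      exact hUV.union
    · rw [h1, h2, Finset.union_comm]
      exact hUV.union
    · exact absurd (h1.trans h2.symm) hneq
  have hYO : ∀ y ∈ Y, y = u ∨ y ∈ O := by
    intro y hy
    by_cases hyO : y ∈ O
    · exact Or.inr hyO
    · have h1 : y ∈ K \ O := Finset.mem_sdiff.2 ⟨hYK hy, hyO⟩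
      rw [← hcov, Finset.mem_union, Finset.mem_singleton] at h1
      rcases h1 with h1 | h1
      · exact absurd hy (hZY y h1)
      · exact Or.inl h1
  have hJ : JT G O := hd.2.1
  intro x hx y hy z hz hyx hzx hxy hxz
  rcases hYO x hx with rfl | hxO
  · rcases hYO y hy with h1 | h1
    · exact absurd h1 hyx
    · exact absurd (huO y h1) hxy
  · rcases hYO y hy with rfl | h1
    · exact absurd (huO x hxO).symm hxy
    · rcases hYO z hz with rfl | h2
      · exact absurd (huO x hxO).symm hxz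
      · exact hJ x hxO y h1 z h2 hyx hzx hxy hxz

theorem gP2 {G : SimpleGraph T} {m : ℕ} {M : Finset T} (hM : Zc G (m + 3) M)
    (hs : ¬ Susp G M) (hC : C1 G M) {u a : T} (hu : u ∈ M) (hd : DIA G (nb G M u) (m + 3))
    (ha : a ∈ nb G M u) : GE G M u a := by
  classical
  have haM := gp1_mem_nb.1 ha
  refine ⟨hu, haM.1, haM.2, fun w hw t ht hwu hta haw hwt htu => ?_⟩
  by_contra hcon
  push Not at hcon
  obtain ⟨huw, hat⟩ := hcon
  obtain ⟨hW, a', ha', ha'a, haa', hO, ha'W⟩ := DIA.link (k := m + 2) hd ha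
  set W := nb G (nb G M u) a with hWdef
  -- `t` is the antipode of `a`
  have htO : t ∈ nb G M u := gp1_mem_nb.2 ⟨ht, htu.symm⟩
  have hta' : t = a' := by
    have h1 := htO
    rw [hO, Finset.mem_insert, Finset.mem_insert] at h1
    rcases h1 with h1 | h1 | h1
    · exact absurd h1 hta
    · exact h1
    · exact absurd (gp1_mem_nb.1 h1).2 hat
  have hWa : ∀ x ∈ W, G.Adj a x := fun x hx => (gp1_mem_nb.1 hx).2
  have hWt : ∀ x ∈ W, G.Adj t x := by
    rw [hta']
    exact ha'W
  have hWu : ∀ x ∈ W, G.Adj u x := fun x hx => (gp1_mem_nb.1 (gp1_mem_nb.1 hx).1).2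
  have hWM : ∀ x ∈ W, x ∈ M := fun x hx => (gp1_mem_nb.1 (gp1_mem_nb.1 hx).1).1
  have hJ := hC a haM.1 t ht (fun h => hta h.symm) hat
  have hmem : ∀ x ∈ M, G.Adj a x → G.Adj t x → x ∈ nb G M a ∩ nb G M t := fun x hx h1 h2 =>
    Finset.mem_inter.2 ⟨gp1_mem_nb.2 ⟨hx, h1⟩, gp1_mem_nb.2 ⟨hx, h2⟩⟩
  have huY := hmem u hu haM.2.symm htu
  have hwY := hmem w hw haw hwt.symm
  have hwW : ∀ x ∈ W, G.Adj w x := by
    intro x hx
    by_contra hwx
    have hxw : x ≠ w := by
      rintro rfl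
      exact huw (hWu _ hx)
    have h1 := hJ w hwY u huY x (hmem x (hWM x hx) (hWa x hx) (hWt x hx)) (fun h => hwu h.symm) hxw
      (fun h => huw h.symm) hwx
    have h2 := hWu x hx
    rw [← h1] at h2
    exact G.loopless.irrefl _ h2
  have hE : DIA G (insert u (insert w W)) (m + 3) :=
    DIA.susp hW (fun h => hwu h.symm) huw hWu hwW
  have hZ : Zc G (m + 2) (insert u (insert w W)) := DIA.zc hE
  have e1 : insert u (insert w W) = nb G M a := by
    refine zc_sub hZ (hM.link haM.1) fun x hx => ?_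
    rw [Finset.mem_insert, Finset.mem_insert] at hx
    rcases hx with rfl | rfl | hx
    · exact gp1_mem_nb.2 ⟨hu, haM.2.symm⟩
    · exact gp1_mem_nb.2 ⟨hw, haw⟩
    · exact gp1_mem_nb.2 ⟨hWM x hx, hWa x hx⟩
  refine hs ⟨a, haM.1, t, ht, fun h => hta h.symm, hat, ?_⟩
  rw [← e1]
  intro x hx
  rw [Finset.mem_insert, Finset.mem_insert] at hx
  rcases hx with rfl | rfl | hx
  · exact gp1_mem_nb.2 ⟨hu, htu⟩
  · exact gp1_mem_nb.2 ⟨hw, hwt.symm⟩
  · exact gp1_mem_nb.2 ⟨hWM x hx, hWt x hx⟩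

end Pool.Agent.LibFlagPL

end

section

namespace Pool.Agent.LibFlagPL

open Finset

set_option linter.unusedSectionVars false

variable {T : Type} [Fintype T] [DecidableEq T]

private theorem gp2_mem_nb {G : SimpleGraph T} {S : Finset T} {y t : T} :
    t ∈ nb G S y ↔ t ∈ S ∧ G.Adj y t := by
  classical
  unfold nb
  rw [Finset.mem_filter]

theorem C1.link {G : SimpleGraph T} {M : Finset T} (h : C1 G M) {v : T} :
    C1 G (nb G M v) := by
  classical
  intro a ha b hb hne hn
  refine (h a (gp2_mem_nb.1 ha).1 b (gp2_mem_nb.1 hb).1 hne hn).mono fun x hx => ?_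
  rw [Finset.mem_inter, gp2_mem_nb, gp2_mem_nb, gp2_mem_nb] at hx
  rw [Finset.mem_inter, gp2_mem_nb, gp2_mem_nb]
  exact ⟨⟨hx.1.1.1, hx.1.2⟩, ⟨hx.1.1.1, hx.2.2⟩⟩

private theorem gp2_jt_card {G : SimpleGraph T} {Y : Finset T} (h : JT G Y) {y : T}
    (hy : y ∈ Y) : Y.card ≤ (nb G Y y).card + 2 := by
  classical
  set N := Y.filter (fun z => z ≠ y ∧ ¬ G.Adj y z) with hN
  have h1 : N.card ≤ 1 := by
    rw [Finset.card_le_one]
    intro a ha b hb
    rw [hN, Finset.mem_filter] at ha hb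
    exact h y hy a ha.1 b hb.1 ha.2.1 hb.2.1 ha.2.2 hb.2.2
  have h2 : Y ⊆ insert y (nb G Y y ∪ N) := by
    intro z hz
    rw [Finset.mem_insert, Finset.mem_union, gp2_mem_nb, hN, Finset.mem_filter]
    by_cases h3 : z = y
    · exact Or.inl h3
    · by_cases h4 : G.Adj y z
      · exact Or.inr (Or.inl ⟨hz, h4⟩)
      · exact Or.inr (Or.inr ⟨hz, h3, h4⟩)
  have h3 := Finset.card_le_card h2
  have h4 := Finset.card_insert_le y (nb G Y y ∪ N)
  have h5 := Finset.card_union_le (nb G Y y) N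
  omega

theorem gp_bound_two {G : SimpleGraph T} {L : Finset T} (hL : Zc G 2 L) (hC : C1 G L)
    (hd : ¬ DIA G L 3) : 9 ≤ L.card := by
  classical
  by_contra hcon
  push Not at hcon
  have hF : F2 G L := hL
  have hC' : ∀ a ∈ L, ∀ a' ∈ L, a ≠ a' → ¬ G.Adj a a' → (nb G L a ∩ nb G L a').card ≤ 3 := by
    intro a ha a' ha' hne hn
    by_contra h4
    push Not at h4
    have hCz : Zc G 1 (nb G L a) := Zc.link (m := 1) hL ha
    have hCir : Circle G (nb G L a) := hCz
    set Y := nb G L a ∩ nb G L a' with hY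
    have hJ : JT G Y := hC a ha a' ha' hne hn
    have hYC : Y ⊆ nb G L a := Finset.inter_subset_left
    have key : ∀ y ∈ Y, ∀ z ∈ nb G L a, G.Adj y z → z ∈ Y := by
      intro y hy z hz hyz
      have h1 := gp2_jt_card hJ hy
      have h2 := hCir.2.1 y (hYC hy)
      have h3 : nb G Y y ⊆ nb G (nb G L a) y := by
        intro t ht
        rw [gp2_mem_nb] at ht
        exact gp2_mem_nb.2 ⟨hYC ht.1, ht.2⟩
      have h5 : nb G Y y = nb G (nb G L a) y := Finset.eq_of_subset_of_card_le h3 (by omega)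
      have h6 : z ∈ nb G (nb G L a) y := gp2_mem_nb.2 ⟨hz, hyz⟩
      rw [← h5, gp2_mem_nb] at h6
      exact h6.1
    have hne' : Y.Nonempty := Finset.card_pos.1 (by omega)
    obtain ⟨y0, hy0⟩ := hne'
    have hCY : nb G L a ⊆ Y := by
      intro x hx
      have h1 := hCir.2.2.2 y0 (hYC hy0) x hx
      clear hx
      induction h1 with
      | refl => exact hy0
      | tail _ h3 ih => exact key _ ih _ h3.2.1 h3.2.2
    have e : Y = nb G L a := Finset.Subset.antisymm hYC hCY
    have hJ' : JT G (nb G L a) := e ▸ hJ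
    have hDC : DIA G (nb G L a) 2 := zc_jt hCz hJ'
    have hsub : nb G L a ⊆ nb G L a' := by
      rw [← e]
      exact Finset.inter_subset_right
    have hLe := zc_susp_eq (m := 1) hL ha ha' hne hn hsub
    refine hd ?_
    rw [hLe]
    exact DIA.susp hDC hne hn (fun t ht => (gp2_mem_nb.1 ht).2)
      (fun t ht => (gp2_mem_nb.1 (hsub ht)).2)
  obtain ⟨t, p, q, r, s, x, y, z, w, h⟩ := hF.exists_Nn hC' (by omega)
  have := h.card
  omega

/-- two vertices with cross-polytopal links are not adjacent -/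
theorem gp_indep {G : SimpleGraph T} {r : ℕ} {L : Finset T} (hL : Zc G (r + 3) L) (hC : C1 G L)
    (hd : ¬ DIA G L (r + 4)) {a b : T} (ha : a ∈ L) (hb : b ∈ L)
    (hda : DIA G (nb G L a) (r + 3)) (hdb : DIA G (nb G L b) (r + 3)) : ¬ G.Adj a b := by
  classical
  intro hab
  have hba' : b ∈ nb G L a := gp2_mem_nb.2 ⟨hb, hab⟩
  have hab' : a ∈ nb G L b := gp2_mem_nb.2 ⟨ha, hab.symm⟩
  obtain ⟨hCd, b', hb', hb'b, hbb', hOa, hb'C⟩ := DIA.link (k := r + 2) hda hba'
  obtain ⟨-, a', ha', ha'a, haa', hOb, ha'C⟩ := DIA.link (k := r + 2) hdb hab'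
  have hb'm := gp2_mem_nb.1 hb'
  have ha'm := gp2_mem_nb.1 ha'
  set C := nb G (nb G L a) b with hCdef
  have hCm : ∀ t ∈ C, t ∈ L ∧ G.Adj a t ∧ G.Adj b t := by
    intro t ht
    have h1 := gp2_mem_nb.1 ht
    have h2 := gp2_mem_nb.1 h1.1
    exact ⟨h2.1, h2.2, h1.2⟩
  have ha'C2 : ∀ t ∈ C, G.Adj a' t := by
    intro t ht
    obtain ⟨h1, h2, h3⟩ := hCm t ht
    exact ha'C t (gp2_mem_nb.2 ⟨gp2_mem_nb.2 ⟨h1, h3⟩, h2⟩)
  have hCne : C.Nonempty := by
    rw [← Finset.card_pos, hCd.1]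
    omega
  obtain ⟨c, hc⟩ := hCne
  obtain ⟨hW, c', hc', hc'c, hcc', hCeq, hc'W⟩ := DIA.link (k := r + 1) hCd hc
  set W := nb G C c with hWdef
  have hWC : ∀ t ∈ W, t ∈ C := fun t ht => (gp2_mem_nb.1 ht).1
  have hcm := hCm c hc
  have hcm' := hCm c' hc'
  have hJ := hC c hcm.1 c' hcm'.1 (fun h => hc'c h.symm) hcc'
  have hmem : ∀ x ∈ L, (∀ t ∈ C, G.Adj x t) → x ∈ nb G L c ∩ nb G L c' := fun x hx h =>
    Finset.mem_inter.2 ⟨gp2_mem_nb.2 ⟨hx, (h c hc).symm⟩, gp2_mem_nb.2 ⟨hx, (h c' hc').symm⟩⟩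
  have haC : ∀ t ∈ C, G.Adj a t := fun t ht => (hCm t ht).2.1
  have hbC : ∀ t ∈ C, G.Adj b t := fun t ht => (hCm t ht).2.2
  have haY := hmem a ha haC
  have hbY := hmem b hb hbC
  have ha'Y := hmem a' ha'm.1 ha'C2
  have hb'Y := hmem b' hb'm.1 hb'C
  have ha'b' : G.Adj a' b' := by
    by_contra hcon
    have h1 : a' ≠ b' := by
      rintro rfl
      exact haa' hb'm.2
    have h2 := hJ b' hb'Y b hbY a' ha'Y (fun h => hb'b h.symm) h1 (fun h => hbb' h.symm)
      (fun h => hcon h.symm)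
    have h3 := ha'm.2
    rw [← h2] at h3
    exact G.loopless.irrefl _ h3
  -- the cross-polytope in the link of `c` and of `c'`
  have hE1 : DIA G (insert b (insert b' W)) (r + 2) :=
    DIA.susp hW (fun h => hb'b h.symm) hbb' (fun t ht => hbC t (hWC t ht))
      (fun t ht => hb'C t (hWC t ht))
  have hE : DIA G (insert a (insert a' (insert b (insert b' W)))) (r + 3) := by
    refine DIA.susp hE1 (fun h => ha'a h.symm) haa' ?_ ?_
    · intro t ht
      rw [Finset.mem_insert, Finset.mem_insert] at ht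
      rcases ht with rfl | rfl | ht
      · exact hab
      · exact hb'm.2
      · exact haC t (hWC t ht)
    · intro t ht
      rw [Finset.mem_insert, Finset.mem_insert] at ht
      rcases ht with rfl | rfl | ht
      · exact ha'm.2.symm
      · exact ha'b'
      · exact ha'C2 t (hWC t ht)
  have hZ : Zc G (r + 2) (insert a (insert a' (insert b (insert b' W)))) := DIA.zc hE
  have hsubY : insert a (insert a' (insert b (insert b' W))) ⊆ nb G L c ∩ nb G L c' := by
    intro t ht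
    simp only [Finset.mem_insert] at ht
    rcases ht with rfl | rfl | rfl | rfl | ht
    · exact haY
    · exact ha'Y
    · exact hbY
    · exact hb'Y
    · have h1 := (gp2_mem_nb.1 ht).2
      have h2 := hc'W t ht
      have h3 := (hCm t (hWC t ht)).1
      exact Finset.mem_inter.2 ⟨gp2_mem_nb.2 ⟨h3, h1⟩, gp2_mem_nb.2 ⟨h3, h2⟩⟩
  have e1 : insert a (insert a' (insert b (insert b' W))) = nb G L c :=
    zc_sub hZ (Zc.link (m := r + 2) hL hcm.1) (hsubY.trans Finset.inter_subset_left)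
  have hsub : nb G L c ⊆ nb G L c' := by
    rw [← e1]
    exact hsubY.trans Finset.inter_subset_right
  have hLe := zc_susp_eq (m := r + 2) hL hcm.1 hcm'.1 (fun h => hc'c h.symm) hcc' hsub
  refine hd ?_
  rw [hLe]
  refine DIA.susp (k := r + 3) ?_ (fun h => hc'c h.symm) hcc' (fun t ht => (gp2_mem_nb.1 ht).2)
    (fun t ht => (gp2_mem_nb.1 (hsub ht)).2)
  rw [← e1]
  exact hE

theorem gP4 {G : SimpleGraph T} {r : ℕ} {L : Finset T} (hL : Zc G (r + 3) L) (hC : C1 G L)
    (hd : ¬ DIA G L (r + 4)) : 4 * r + 14 ≤ L.card := by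
  classical
  induction r generalizing L with
  | zero =>
    set D := L.filter (fun v => DIA G (nb G L v) (0 + 3)) with hD
    set E := L.filter (fun v => ¬ DIA G (nb G L v) (0 + 3)) with hE
    have hcard : D.card + E.card = L.card := by
      rw [hD, hE]
      exact Finset.card_filter_add_card_filter_not _
    have hsum : ∑ v ∈ D, (nb G L v).card + ∑ v ∈ E, (nb G L v).card
        = ∑ v ∈ L, (nb G L v).card := by
      rw [hD, hE]
      exact Finset.sum_filter_add_sum_filter_not _ _ _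
    have h1 : ∑ v ∈ D, (nb G L v).card = D.card * 6 := by
      refine Finset.sum_const_nat fun v hv => ?_
      rw [hD, Finset.mem_filter] at hv
      exact hv.2.1
    have h2 : E.card * 9 ≤ ∑ v ∈ E, (nb G L v).card := by
      rw [← smul_eq_mul]
      refine Finset.card_nsmul_le_sum E _ _ fun v hv => ?_
      rw [hE, Finset.mem_filter] at hv
      exact gp_bound_two (Zc.link (m := 2) hL hv.1) hC.link hv.2
    have h3 := gdeg (m := 0) hL
    by_contra hcon
    push Not at hcon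
    have h4 : 7 ≤ D.card := by omega
    -- the link of a vertex of `D` is disjoint from `D`
    have h5 : ∀ a ∈ D, nb G L a ⊆ E ∧ (nb G L a).card = 6 := by
      intro a ha
      rw [hD, Finset.mem_filter] at ha
      refine ⟨fun t ht => ?_, ha.2.1⟩
      rw [hE, Finset.mem_filter]
      have ht' := gp2_mem_nb.1 ht
      exact ⟨ht'.1, fun h => gp_indep (r := 0) hL hC hd ha.1 ht'.1 ha.2 h ht'.2⟩
    obtain ⟨a, ha, b, hb, hab⟩ := Finset.one_lt_card.1 (show 1 < D.card by omega)
    obtain ⟨ha1, ha2⟩ := h5 a ha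
    obtain ⟨hb1, hb2⟩ := h5 b hb
    have h6 := Finset.card_le_card ha1
    have e1 : nb G L a = E := Finset.eq_of_subset_of_card_le ha1 (by omega)
    have e2 : nb G L b = E := Finset.eq_of_subset_of_card_le hb1 (by omega)
    have haD := Finset.mem_filter.1 (hD ▸ ha)
    have hbD := Finset.mem_filter.1 (hD ▸ hb)
    have hn := gp_indep (r := 0) hL hC hd haD.1 hbD.1 haD.2 hbD.2
    have hLe := zc_susp_eq (m := 2) hL haD.1 hbD.1 hab hn (by rw [e1, e2])
    have h7 : L.card ≤ 8 := by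
      rw [hLe]
      have h8 := Finset.card_insert_le a (insert b (nb G L a))
      have h9 := Finset.card_insert_le b (nb G L a)
      omega
    omega
  | succ r ih =>
    set D := L.filter (fun v => DIA G (nb G L v) (r + 1 + 3)) with hD
    set E := L.filter (fun v => ¬ DIA G (nb G L v) (r + 1 + 3)) with hE
    have hcard : D.card + E.card = L.card := by
      rw [hD, hE]
      exact Finset.card_filter_add_card_filter_not _
    have hsum : ∑ v ∈ D, (nb G L v).card + ∑ v ∈ E, (nb G L v).card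
        = ∑ v ∈ L, (nb G L v).card := by
      rw [hD, hE]
      exact Finset.sum_filter_add_sum_filter_not _ _ _
    have h1 : ∑ v ∈ D, (nb G L v).card = D.card * (2 * r + 8) := by
      refine Finset.sum_const_nat fun v hv => ?_
      rw [hD, Finset.mem_filter] at hv
      have := hv.2.1
      omega
    have h2 : E.card * (4 * r + 14) ≤ ∑ v ∈ E, (nb G L v).card := by
      rw [← smul_eq_mul]
      refine Finset.card_nsmul_le_sum E _ _ fun v hv => ?_
      rw [hE, Finset.mem_filter] at hv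
      exact ih (Zc.link (m := r + 3) hL hv.1) hC.link hv.2
    have h3 := gdeg (m := r + 1) hL
    have h4 : 2 * r + 10 ≤ D.card := by
      have h5 : (2 * r + 6) * (2 * r + 10) ≤ (2 * r + 6) * D.card := by
        rw [← hsum, h1, ← hcard] at h3
        nlinarith [h2, h3]
      exact Nat.le_of_mul_le_mul_left h5 (by omega)
    obtain ⟨a, ha⟩ := Finset.card_pos.1 (show 0 < D.card by omega)
    have haD := Finset.mem_filter.1 (hD ▸ ha)
    have h5 : nb G L a ⊆ E := by
      intro t ht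
      rw [hE, Finset.mem_filter]
      have ht' := gp2_mem_nb.1 ht
      exact ⟨ht'.1, fun h => gp_indep (r := r + 1) hL hC hd haD.1 ht'.1 haD.2 h ht'.2⟩
    have h6 := Finset.card_le_card h5
    have h7 := haD.2.1
    omega

end Pool.Agent.LibFlagPL

end

section

namespace Pool.Agent.LibFlagPL

open Finset

set_option linter.unusedSectionVars false

variable {T : Type} [Fintype T] [DecidableEq T]

private theorem gp3_main (hD : DHypG) (hN : NHypG) {G : SimpleGraph T} {m : ℕ} {M : Finset T}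
    (hM : Zc G (m + 4) M) (hs : ¬ Susp G M) (hp : PrimeM G M (m + 4)) {Z : Finset T} (hZ : Z ⊆ M)
    (hc : Z.card ≤ 2 * m + 9) : ∃ v ∈ M \ Z, ∃ w, GE G M v w := by
  classical
  by_contra hcon
  push Not at hcon
  have hC : C1 G M := gP1 (m := m + 1) hD hN hM hs hp
  have h1 : ∀ v ∈ M \ Z, 4 * m + 14 ≤ (nb G M v).card := by
    intro v hv
    have hvM := (Finset.mem_sdiff.1 hv).1
    have hL : Zc G (m + 3) (nb G M v) := Zc.link (m := m + 3) hM hvM
    refine gP4 hL hC.link fun hd => ?_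
    obtain ⟨a, ha⟩ := hL.nonempty
    exact hcon v hv a (gP2 (m := m + 1) hM hs hC hvM hd ha)
  have h2 : ∀ v ∈ Z, 2 * m + 8 ≤ (nb G M v).card := by
    intro v hv
    have := (Zc.link (m := m + 3) hM (hZ hv)).card_ge
    omega
  have h3 := gdeg (m := m + 1) hM
  have hcard : (M \ Z).card + Z.card = M.card := Finset.card_sdiff_add_card_eq_card hZ
  have hsum : ∑ v ∈ M \ Z, (nb G M v).card + ∑ v ∈ Z, (nb G M v).card
      = ∑ v ∈ M, (nb G M v).card := Finset.sum_sdiff hZ
  have h4 : (M \ Z).card * (4 * m + 14) ≤ ∑ v ∈ M \ Z, (nb G M v).card := by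
    rw [← smul_eq_mul]
    exact Finset.card_nsmul_le_sum _ _ _ h1
  have h5 : Z.card * (2 * m + 8) ≤ ∑ v ∈ Z, (nb G M v).card := by
    rw [← smul_eq_mul]
    exact Finset.card_nsmul_le_sum _ _ _ h2
  have h6 : (2 * m + 6) * (2 * m + 10) ≤ (2 * m + 6) * Z.card := by
    rw [← hsum, ← hcard] at h3
    nlinarith [h3, h4, h5]
  have h7 : 2 * m + 10 ≤ Z.card := Nat.le_of_mul_le_mul_left h6 (by omega)
  omega

theorem gprime (hD : DHypG) (hN : NHypG) {G : SimpleGraph T} {m : ℕ} {M : Finset T}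
    (hM : Zc G (m + 4) M) (hs : ¬ Susp G M) (hp : PrimeM G M (m + 4)) :
    (∃ u v, GE G M u v) ∧ I2m G M (m + 4) := by
  classical
  refine ⟨?_, ?_⟩
  · obtain ⟨v, -, w, h⟩ := gp3_main hD hN hM hs hp (Finset.empty_subset M) (by simp)
    exact ⟨v, w, h⟩
  · intro c hc hd _
    have hZ : insert c (nb G M c) ⊆ M := by
      intro t ht
      rw [Finset.mem_insert] at ht
      rcases ht with rfl | ht
      · exact hc
      · unfold nb at ht
        exact (Finset.mem_filter.1 ht).1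
    have hcard : (insert c (nb G M c)).card ≤ 2 * m + 9 := by
      have h1 := Finset.card_insert_le c (nb G M c)
      have h2 := hd.1
      omega
    obtain ⟨v, hv, w, h⟩ := gp3_main hD hN hM hs hp hZ hcard
    exact ⟨v, w, h, (Finset.mem_sdiff.1 hv).2⟩

end Pool.Agent.LibFlagPL

end
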