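import Mathlib

/-!
# LibFlagPL.Graphs: definitions for graphs (cliques, links, circles, flag 2-spheres, 3-manifolds, the class `Z_m`) and basic facts
-/

section

namespace Pool.Agent.LibFlagPL

open Finset

section Graph

variable {T : Type} [Fintype T] [DecidableEq T]

/-- clique (as a finite set) -/
def Cl (G : SimpleGraph T) (σ : Finset T) : Prop := ∀ s ∈ σ, ∀ t ∈ σ, s ≠ t → G.Adj s t

open scoped Classical in
/-- neighbours of `y` inside `S` (the vertex set of the link of `y`) -/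
noncomputable def nb (G : SimpleGraph T) (S : Finset T) (y : T) : Finset T :=
  S.filter (fun t => G.Adj y t)

open scoped Classical in
/-- common neighbours of `σ` inside `S` (the vertex set of the link of `σ`) -/
noncomputable def cn (G : SimpleGraph T) (S : Finset T) (σ : Finset T) : Finset T :=
  S.filter (fun t => ∀ s ∈ σ, G.Adj s t)

open scoped Classical in
/-- the faces with `j` vertices -/
noncomputable def faces (G : SimpleGraph T) (S : Finset T) (j : ℕ) : Finset (Finset T) :=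
  S.powerset.filter (fun σ => Cl G σ ∧ σ.card = j)

open scoped Classical in
/-- the Euler characteristic with weight `-1/2` per vertex -/
noncomputable def chi (G : SimpleGraph T) (S : Finset T) : ℚ :=
  ∑ σ ∈ S.powerset.filter (fun σ => Cl G σ), (-1 / 2 : ℚ) ^ σ.card

/-- connectedness of the induced graph on `S` (nonempty) -/
def Conn (G : SimpleGraph T) (S : Finset T) : Prop :=
  S.Nonempty ∧ ∀ x ∈ S, ∀ y ∈ S,
    Relation.ReflTransGen (fun a b => a ∈ S ∧ b ∈ S ∧ G.Adj a b) x y

/-- the induced graph on `C` is a cycle with at least four vertices -/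
def Circle (G : SimpleGraph T) (C : Finset T) : Prop :=
  4 ≤ C.card ∧ (∀ t ∈ C, (nb G C t).card = 2) ∧ Conn G C

/-- flag 2-sphere: connected, all vertex links are cycles of length at least four,
`2 f_1 = 6 f_0 - 12` -/
def F2 (G : SimpleGraph T) (S : Finset T) : Prop :=
  Conn G S ∧ (∀ s ∈ S, Circle G (nb G S s)) ∧ (∑ s ∈ S, (nb G S s).card) + 12 = 6 * S.card

/-- connected flag 3-manifold: all vertex links are flag 2-spheres -/
def F3 (G : SimpleGraph T) (S : Finset T) : Prop :=
  Conn G S ∧ ∀ s ∈ S, F2 G (nb G S s)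

/-- contraction of the vertex `v` into the vertex `u` (to be used on `S.erase v`) -/
def ctr (G : SimpleGraph T) (u v : T) : SimpleGraph T where
  Adj s t := s ≠ t ∧ s ≠ v ∧ t ≠ v ∧ (G.Adj s t ∨ (s = u ∧ G.Adj v t) ∨ (t = u ∧ G.Adj v s))
  symm := by
    constructor
    rintro s t ⟨h1, h2, h3, h4⟩
    refine ⟨h1.symm, h3, h2, ?_⟩
    rcases h4 with h | h | h
    · exact Or.inl h.symm
    · exact Or.inr (Or.inr h)
    · exact Or.inr (Or.inl h)
  loopless := ⟨fun s h => h.1 rfl⟩

end Graph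

section Systems

variable {T : Type} [Fintype T] [DecidableEq T]
variable {R : Type} [CommRing R]
variable {ι : Type} [Fintype ι] [DecidableEq ι]

/-- system of commuting copies of the algebra of `2 x 2` matrices (over a commutative ring) -/
structure Sys (G : SimpleGraph T) (S : Finset T) (e f : T → Matrix ι ι R) : Prop where
  ee : ∀ s ∈ S, e s * e s = 0
  ff : ∀ s ∈ S, f s * f s = 0
  ef : ∀ s ∈ S, e s * f s + f s * e s = 1
  cee : ∀ s ∈ S, ∀ t ∈ S, G.Adj s t → e s * e t = e t * e s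
  cef : ∀ s ∈ S, ∀ t ∈ S, G.Adj s t → e s * f t = f t * e s
  cff : ∀ s ∈ S, ∀ t ∈ S, G.Adj s t → f s * f t = f t * f s

/-- the idempotent on the subspace at `s` -/
def pr (e f : T → Matrix ι ι R) : T → Matrix ι ι R := fun s => e s * f s

open scoped Classical in
/-- the matrix of the boundary from edges to vertices, with `h a * h b` on the edge `a b`
(ordered pairs; over any commutative ring, in particular over `k` and over `k[X]`) -/
noncomputable def PhiM (G : SimpleGraph T) (S : Finset T) (h : T → Matrix ι ι R) :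
    Matrix (T × ι) ((T × T) × ι) R :=
  fun x y => if y.1.1 ∈ S ∧ y.1.2 ∈ S ∧ G.Adj y.1.1 y.1.2 ∧ (x.1 = y.1.1 ∨ x.1 = y.1.2)
    then (h y.1.1 * h y.1.2) x.2 y.2 else 0

end Systems

section Chains

variable {T : Type} [Fintype T] [DecidableEq T]
variable {k : Type} [Field k]
variable {ι : Type} [Fintype ι] [DecidableEq ι]

/-- boundary of a chain (characteristic two: no signs) -/
def bd : (Finset T → ι → k) →ₗ[k] (Finset T → ι → k) where
  toFun c := fun τ => ∑ s ∈ τᶜ, c (insert s τ)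
  map_add' c d := by
    funext τ
    simp [Finset.sum_add_distrib]
  map_smul' r c := by
    funext τ
    simp [Finset.smul_sum]

/-- cone over a chain with apex `y` -/
def cone (y : T) : (Finset T → ι → k) →ₗ[k] (Finset T → ι → k) where
  toFun c := fun σ => if y ∈ σ then c (σ.erase y) else 0
  map_add' c d := by
    funext σ
    by_cases h : y ∈ σ <;> simp [h]
  map_smul' r c := by
    funext σ
    by_cases h : y ∈ σ <;> simp [h]

/-- chains of degree `j` on the vertex set `A` with coefficients in the intersection of the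
kernels of `e s`, `s ∈ κ` -/
def Ch (G : SimpleGraph T) (e : T → Matrix ι ι k) (κ : Finset T) (A : Finset T) (j : ℕ) :
    Submodule k (Finset T → ι → k) where
  carrier := {c | ∀ σ, (c σ ≠ 0 → σ ⊆ A ∧ Cl G σ ∧ σ.card = j) ∧
    ∀ s, s ∈ σ ∨ s ∈ κ → (e s).mulVec (c σ) = 0}
  zero_mem' := by
    intro σ
    exact ⟨fun h => absurd rfl h, fun s _ => by simp⟩
  add_mem' := by
    intro c d hc hd σ
    refine ⟨fun h => ?_, fun s hs => ?_⟩
    · by_cases h1 : c σ = 0
      · refine (hd σ).1 (fun h2 => h ?_)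
        simp [h1, h2]
      · exact (hc σ).1 h1
    · simp only [Pi.add_apply]
      rw [Matrix.mulVec_add, (hc σ).2 s hs, (hd σ).2 s hs, add_zero]
  smul_mem' := by
    intro r c hc σ
    refine ⟨fun h => (hc σ).1 (fun h2 => h (by simp [h2])), fun s hs => ?_⟩
    simp only [Pi.smul_apply]
    rw [Matrix.mulVec_smul, (hc σ).2 s hs, smul_zero]

/-- vanishing of the homology in degree `j` -/
def HZ (G : SimpleGraph T) (e : T → Matrix ι ι k) (κ : Finset T) (A : Finset T) (j : ℕ) : Prop :=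
  ∀ c ∈ Ch G e κ A j, bd c = 0 → ∃ b ∈ Ch G e κ A (j + 1), bd b = c

/-- complementary subspaces at nonadjacent vertices -/
def Cpl (G : SimpleGraph T) (S : Finset T) (e : T → Matrix ι ι k) : Prop :=
  ∀ a ∈ S, ∀ b ∈ S, a ≠ b → ¬ G.Adj a b →
    (∀ v : ι → k, (e a).mulVec v = 0 → (e b).mulVec v = 0 → v = 0) ∧
    (∀ v : ι → k, ∃ x y : ι → k, (e a).mulVec x = 0 ∧ (e b).mulVec y = 0 ∧ v = x + y)

/-- good system -/
structure Good (G : SimpleGraph T) (S : Finset T) (e f : T → Matrix ι ι k) : Prop where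
  sys : Sys G S e f
  cpl : Cpl G S e
  acyc : ∀ y ∈ S, HZ G e ∅ (nb G S y) 1

/-- goal: the subspaces at `a` and `b` together span everything -/
def GPair (p : T → Matrix ι ι k) (a b : T) : Prop :=
  Fintype.card ι ≤ (Matrix.fromCols (p a) (p b)).rank

/-- goal: the boundary from edges to vertices of the complex on `S` has rank at least
`(|S| - 2) N / 2` -/
def GLink (G : SimpleGraph T) (p : T → Matrix ι ι k) (S : Finset T) : Prop :=
  S.card * Fintype.card ι ≤ 2 * (PhiM G S p).rank + 2 * Fintype.card ι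

end Chains

/-- realizability of a set of goals -/
def Rz {T : Type} [Fintype T] [DecidableEq T] (k : Type) [Field k] (G : SimpleGraph T)
    (S : Finset T) (P : Set (T × T)) (L : Set (Finset T)) : Prop :=
  ∃ (ι : Type) (_ : Fintype ι) (_ : DecidableEq ι) (e f : T → Matrix ι ι k),
    Nonempty ι ∧ Sys G S e f ∧ (∀ x ∈ P, GPair (pr e f) x.1 x.2) ∧
      ∀ S' ∈ L, GLink G (pr e f) S'

end Pool.Agent.LibFlagPL

end

section

namespace Pool.Agent.LibFlagPL

open Finset

variable {T : Type} [Fintype T] [DecidableEq T]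

/-- good edge: an edge of `M` contained in no induced cycle of length four of `M`
(cycle `u v w t`) -/
def GE (G : SimpleGraph T) (M : Finset T) (u v : T) : Prop :=
  u ∈ M ∧ v ∈ M ∧ G.Adj u v ∧ ∀ w ∈ M, ∀ t ∈ M, w ≠ u → t ≠ v →
    G.Adj v w → G.Adj w t → G.Adj t u → G.Adj u w ∨ G.Adj v t

/-- induced octahedron -/
def Oct (G : SimpleGraph T) (O : Finset T) : Prop := F2 G O ∧ O.card = 6

/-- prime: every induced octahedron is a vertex link -/
def Prime3 (G : SimpleGraph T) (M : Finset T) : Prop :=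
  ∀ O ⊆ M, Oct G O → ∃ u ∈ M, nb G M u = O

/-- suspension (link of `s` contained in the link of a nonadjacent vertex) -/
def Susp (G : SimpleGraph T) (M : Finset T) : Prop :=
  ∃ s ∈ M, ∃ s' ∈ M, s ≠ s' ∧ ¬ G.Adj s s' ∧ nb G M s ⊆ nb G M s'

/-- claim (i) -/
def I1 (G : SimpleGraph T) (M : Finset T) : Prop :=
  M.card = 8 ∨ ∃ u v : T, GE G M u v

/-- claim (ii) -/
def I2 (G : SimpleGraph T) (M : Finset T) : Prop :=
  ∀ c ∈ M, Oct G (nb G M c) → 9 ≤ M.card →
    ∃ u v : T, GE G M u v ∧ u ∉ insert c (nb G M c)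

end Pool.Agent.LibFlagPL

end

section

namespace Pool.Agent.LibFlagPL

open Finset

variable {T : Type} [Fintype T] [DecidableEq T]

/-- induced 4-cycle `p q r s` -/
def Ind4 (G : SimpleGraph T) (p q r s : T) : Prop :=
  G.Adj p q ∧ G.Adj q r ∧ G.Adj r s ∧ G.Adj s p ∧ p ≠ r ∧ q ≠ s ∧ ¬ G.Adj p r ∧ ¬ G.Adj q s

/-- two nonadjacent points -/
def TyB (G : SimpleGraph T) (Y : Finset T) : Prop :=
  ∃ a b : T, Y = {a, b} ∧ a ≠ b ∧ ¬ G.Adj a b

/-- path `a m b` -/
def TyC (G : SimpleGraph T) (Y : Finset T) : Prop :=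
  ∃ a m b : T, Y = {a, m, b} ∧ a ≠ b ∧ ¬ G.Adj a b ∧ G.Adj a m ∧ G.Adj b m

/-- two triangles glued along the edge `m n` -/
def TyD (G : SimpleGraph T) (Y : Finset T) : Prop :=
  ∃ a b m n : T, Y = {a, b, m, n} ∧ a ≠ b ∧ ¬ G.Adj a b ∧ G.Adj a m ∧ G.Adj b m ∧
    G.Adj a n ∧ G.Adj b n ∧ G.Adj m n

/-- a component `R` of `K \ Y` is attached to `Y` exactly along an induced 4-cycle -/
def TyE (G : SimpleGraph T) (K Y : Finset T) : Prop :=
  ∃ (R : Finset T) (p q r s : T), R ⊆ K \ Y ∧ Conn G R ∧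
    (∀ x ∈ R, ∀ y ∈ K \ Y, G.Adj x y → y ∈ R) ∧
    p ∈ Y ∧ q ∈ Y ∧ r ∈ Y ∧ s ∈ Y ∧ Ind4 G p q r s ∧
    ∀ y ∈ Y, (∃ x ∈ R, G.Adj y x) ↔ y ∈ ({p, q, r, s} : Finset T)

/-- a vertex `u` with octahedral link in `M`, joined to an induced 4-cycle (`Y = {u} * C`) -/
def TyF (G : SimpleGraph T) (M Y : Finset T) : Prop :=
  ∃ u p q r s : T, Y = {u, p, q, r, s} ∧ Oct G (nb G M u) ∧ Ind4 G p q r s ∧
    G.Adj u p ∧ G.Adj u q ∧ G.Adj u r ∧ G.Adj u s

end Pool.Agent.LibFlagPL

end

section

namespace Pool.Agent.LibFlagPL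

open Finset

set_option linter.unusedSectionVars false

variable {T : Type} [Fintype T] [DecidableEq T]

theorem mem_nb {G : SimpleGraph T} {S : Finset T} {y t : T} :
    t ∈ nb G S y ↔ t ∈ S ∧ G.Adj y t := by
  simp [nb]

theorem mem_cn {G : SimpleGraph T} {S σ : Finset T} {t : T} :
    t ∈ cn G S σ ↔ t ∈ S ∧ ∀ s ∈ σ, G.Adj s t := by
  simp [cn]

theorem mem_faces {G : SimpleGraph T} {S σ : Finset T} {j : ℕ} :
    σ ∈ faces G S j ↔ σ ⊆ S ∧ Cl G σ ∧ σ.card = j := by
  simp [faces]

theorem nb_subset {G : SimpleGraph T} {S : Finset T} {y : T} : nb G S y ⊆ S := by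
  intro t ht
  exact (mem_nb.1 ht).1

private theorem J2A_pair {s : Finset T} (hs : s.card = 2) {a b x : T} (ha : a ∈ s) (hb : b ∈ s)
    (hab : a ≠ b) (hx : x ∈ s) : x = a ∨ x = b := by
  by_contra hne
  push Not at hne
  have h1 : ({x, a, b} : Finset T) ⊆ s := by
    intro y hy
    simp only [Finset.mem_insert, Finset.mem_singleton] at hy
    rcases hy with rfl | rfl | rfl
    · exact hx
    · exact ha
    · exact hb
  have h2 : ({x, a, b} : Finset T).card = 3 := Finset.card_eq_three.2 ⟨x, a, b, hne.1, hne.2, hab, rfl⟩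
  have h3 := Finset.card_le_card h1
  omega

/-- in a circle the two neighbours of a vertex are not adjacent -/
theorem Circle.not_adj {G : SimpleGraph T} {C : Finset T} (h : Circle G C) {t a b : T}
    (ht : t ∈ C) (ha : a ∈ nb G C t) (hb : b ∈ nb G C t) (hab : a ≠ b) : ¬ G.Adj a b := by
  intro hadj
  obtain ⟨h4, h2, _, hc⟩ := h
  have ha' := mem_nb.1 ha
  have hb' := mem_nb.1 hb
  have hta : t ∈ nb G C a := mem_nb.2 ⟨ht, ha'.2.symm⟩
  have htb : t ∈ nb G C b := mem_nb.2 ⟨ht, hb'.2.symm⟩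
  have hba : b ∈ nb G C a := mem_nb.2 ⟨hb'.1, hadj⟩
  have hab' : a ∈ nb G C b := mem_nb.2 ⟨ha'.1, hadj.symm⟩
  have hta' : t ≠ a := ha'.2.ne
  have htb' : t ≠ b := hb'.2.ne
  have key : ∀ y, Relation.ReflTransGen (fun a b => a ∈ C ∧ b ∈ C ∧ G.Adj a b) t y →
      y = t ∨ y = a ∨ y = b := by
    intro y hy
    induction hy with
    | refl => exact Or.inl rfl
    | tail _ hst ih =>
      obtain ⟨_, hz, hyz⟩ := hst
      rcases ih with rfl | rfl | rfl
      · exact Or.inr (J2A_pair (h2 _ ht) ha hb hab (mem_nb.2 ⟨hz, hyz⟩))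
      · rcases J2A_pair (h2 _ ha'.1) hta hba htb' (mem_nb.2 ⟨hz, hyz⟩) with h | h
        · exact Or.inl h
        · exact Or.inr (Or.inr h)
      · rcases J2A_pair (h2 _ hb'.1) htb hab' hta' (mem_nb.2 ⟨hz, hyz⟩) with h | h
        · exact Or.inl h
        · exact Or.inr (Or.inl h)
  have hsub : C ⊆ {t, a, b} := by
    intro y hy
    simp only [Finset.mem_insert, Finset.mem_singleton]
    exact key y (hc t ht y hy)
  have h5 := Finset.card_le_card hsub
  have h6 : ({t, a, b} : Finset T).card ≤ 3 := Finset.card_le_three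
  omega

/-- the neighbours of a vertex of a circle as a pair -/
theorem Circle.nb_eq {G : SimpleGraph T} {C : Finset T} (h : Circle G C) {t : T}
    (ht : t ∈ C) : ∃ a b : T, a ≠ b ∧ ¬ G.Adj a b ∧ nb G C t = {a, b} := by
  obtain ⟨a, b, hab, he⟩ := Finset.card_eq_two.1 (h.2.1 t ht)
  refine ⟨a, b, hab, ?_, he⟩
  exact h.not_adj ht (by rw [he]; simp) (by rw [he]; simp) hab

/-- a circle contains no triangle -/
theorem Circle.no_three {G : SimpleGraph T} {C : Finset T} (h : Circle G C) {σ : Finset T}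
    (h1 : σ ⊆ C) (h2 : Cl G σ) : σ.card ≤ 2 := by
  by_contra hlt
  push Not at hlt
  obtain ⟨a, b, c, ha, hb, hc, hab, hac, hbc⟩ := Finset.two_lt_card_iff.1 hlt
  exact h.not_adj (h1 ha) (mem_nb.2 ⟨h1 hb, h2 a ha b hb hab⟩)
    (mem_nb.2 ⟨h1 hc, h2 a ha c hc hac⟩) hbc (h2 b hb c hc hbc)

/-- a circle contains a nonadjacent pair -/
theorem Circle.exists_pair {G : SimpleGraph T} {C : Finset T} (h : Circle G C) :
    ∃ a ∈ C, ∃ b ∈ C, a ≠ b ∧ ¬ G.Adj a b := by
  obtain ⟨t, ht⟩ := h.2.2.1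
  obtain ⟨a, b, hab, hadj, he⟩ := h.nb_eq ht
  have ha : a ∈ nb G C t := by rw [he]; simp
  have hb : b ∈ nb G C t := by rw [he]; simp
  exact ⟨a, (mem_nb.1 ha).1, b, (mem_nb.1 hb).1, hab, hadj⟩

end Pool.Agent.LibFlagPL

end

section

namespace Pool.Agent.LibFlagPL

open Finset

set_option linter.unusedSectionVars false

variable {T : Type} [Fintype T] [DecidableEq T]

/-- link of an edge of a flag 3-manifold -/
theorem F3.circle {G : SimpleGraph T} {S : Finset T} (h : F3 G S) {s t : T} (hs : s ∈ S)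
    (ht : t ∈ S) (hst : G.Adj s t) : Circle G (nb G (nb G S s) t) :=
  (h.2 s hs).2.1 t (mem_nb.2 ⟨ht, hst⟩)

private theorem J2B_erase {G : SimpleGraph T} {S σ : Finset T} {s : T} (h1 : σ ⊆ S)
    (h2 : Cl G σ) (hs : s ∈ σ) : σ.erase s ⊆ nb G S s ∧ Cl G (σ.erase s) := by
  refine ⟨fun t ht => ?_, fun a ha b hb hab => ?_⟩
  · have h3 := Finset.mem_erase.1 ht
    exact mem_nb.2 ⟨h1 h3.2, h2 s hs t h3.2 h3.1.symm⟩
  · exact h2 a (Finset.mem_of_mem_erase ha) b (Finset.mem_of_mem_erase hb) hab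

theorem F2.no_four {G : SimpleGraph T} {S : Finset T} (h : F2 G S) {σ : Finset T}
    (h1 : σ ⊆ S) (h2 : Cl G σ) : σ.card ≤ 3 := by
  rcases Finset.eq_empty_or_nonempty σ with rfl | ⟨s, hs⟩
  · simp
  · obtain ⟨h3, h4⟩ := J2B_erase h1 h2 hs
    have h5 := Circle.no_three (h.2.1 s (h1 hs)) h3 h4
    have h6 := Finset.card_erase_add_one hs
    omega

theorem F3.no_five {G : SimpleGraph T} {S : Finset T} (h : F3 G S) {σ : Finset T}
    (h1 : σ ⊆ S) (h2 : Cl G σ) : σ.card ≤ 4 := by
  rcases Finset.eq_empty_or_nonempty σ with rfl | ⟨s, hs⟩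
  · simp
  · obtain ⟨h3, h4⟩ := J2B_erase h1 h2 hs
    have h5 := F2.no_four (h.2 s (h1 hs)) h3 h4
    have h6 := Finset.card_erase_add_one hs
    omega

theorem F2.exists_pair {G : SimpleGraph T} {S : Finset T} (h : F2 G S) :
    ∃ a ∈ S, ∃ b ∈ S, a ≠ b ∧ ¬ G.Adj a b := by
  obtain ⟨s, hs⟩ := h.1.1
  obtain ⟨a, ha, b, hb, h1⟩ := Circle.exists_pair (h.2.1 s hs)
  exact ⟨a, nb_subset ha, b, nb_subset hb, h1⟩

theorem F3.exists_pair {G : SimpleGraph T} {S : Finset T} (h : F3 G S) :
    ∃ a ∈ S, ∃ b ∈ S, a ≠ b ∧ ¬ G.Adj a b := by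
  obtain ⟨s, hs⟩ := h.1.1
  obtain ⟨a, ha, b, hb, h1⟩ := F2.exists_pair (h.2 s hs)
  exact ⟨a, nb_subset ha, b, nb_subset hb, h1⟩

end Pool.Agent.LibFlagPL

end

section

namespace Pool.Agent.LibFlagPL

open Finset

set_option linter.unusedSectionVars false

variable {T : Type} [Fintype T] [DecidableEq T]

/-- `chi` as a sum over the number of vertices -/
theorem chi_eq_sum {G : SimpleGraph T} {S : Finset T} {m : ℕ}
    (h : ∀ σ, σ ⊆ S → Cl G σ → σ.card ≤ m) :
    chi G S = ∑ j ∈ range (m + 1), ((faces G S j).card : ℚ) * (-1 / 2) ^ j := by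
  classical
  unfold chi
  rw [← Finset.sum_fiberwise_of_maps_to (g := Finset.card) (t := range (m + 1))]
  · refine Finset.sum_congr rfl fun j _ => ?_
    have h1 : ((S.powerset.filter (fun σ => Cl G σ)).filter fun σ => σ.card = j) = faces G S j := by
      unfold faces
      rw [Finset.filter_filter]
    rw [h1, ← nsmul_eq_mul]
    refine Finset.sum_eq_card_nsmul fun σ hσ => ?_
    rw [(mem_faces.1 hσ).2.2]
  · intro σ hσ
    rw [Finset.mem_filter, Finset.mem_powerset] at hσ
    rw [Finset.mem_range]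
    exact Nat.lt_succ_of_le (h σ hσ.1 hσ.2)

theorem faces_zero {G : SimpleGraph T} {S : Finset T} : faces G S 0 = {∅} := by
  ext σ
  rw [mem_faces, Finset.mem_singleton, Finset.card_eq_zero]
  constructor
  · exact fun h => h.2.2
  · rintro rfl
    exact ⟨Finset.empty_subset _, fun s hs => absurd hs (Finset.notMem_empty s), rfl⟩

theorem card_faces_one {G : SimpleGraph T} {S : Finset T} : (faces G S 1).card = S.card := by
  have h1 : faces G S 1 = S.image fun s => ({s} : Finset T) := by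
    ext σ
    rw [mem_faces, Finset.mem_image, Finset.card_eq_one]
    constructor
    · rintro ⟨h1, -, s, rfl⟩
      exact ⟨s, h1 (Finset.mem_singleton_self s), rfl⟩
    · rintro ⟨s, hs, rfl⟩
      refine ⟨Finset.singleton_subset_iff.2 hs, ?_, s, rfl⟩
      intro a ha b hb hab
      rw [Finset.mem_singleton] at ha hb
      exact absurd (ha.trans hb.symm) hab
  rw [h1, Finset.card_image_of_injective _ (Finset.singleton_injective)]

theorem J2C_nb {G : SimpleGraph T} {S : Finset T} (j : ℕ) {s : T} (hs : s ∈ S) :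
    (faces G (nb G S s) j).card = ((faces G S (j + 1)).filter fun τ => s ∈ τ).card := by
  refine Finset.card_nbij' (fun σ => insert s σ) (fun τ => τ.erase s) ?_ ?_ ?_ ?_
  · intro σ hσ
    rw [Finset.mem_coe, mem_faces] at hσ
    obtain ⟨h1, h2, h3⟩ := hσ
    have hsσ : s ∉ σ := fun h => G.loopless.irrefl s (mem_nb.1 (h1 h)).2
    rw [Finset.mem_coe, Finset.mem_filter, mem_faces]
    refine ⟨⟨?_, ?_, ?_⟩, Finset.mem_insert_self s σ⟩
    · exact Finset.insert_subset hs (h1.trans nb_subset)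
    · intro a ha b hb hab
      rcases Finset.mem_insert.1 ha with ha' | ha'
      · rcases Finset.mem_insert.1 hb with hb' | hb'
        · exact absurd (ha'.trans hb'.symm) hab
        · rw [ha']
          exact (mem_nb.1 (h1 hb')).2
      · rcases Finset.mem_insert.1 hb with hb' | hb'
        · rw [hb']
          exact (mem_nb.1 (h1 ha')).2.symm
        · exact h2 a ha' b hb' hab
    · rw [Finset.card_insert_of_notMem hsσ, h3]
  · intro τ hτ
    rw [Finset.mem_coe, Finset.mem_filter, mem_faces] at hτ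
    obtain ⟨⟨h1, h2, h3⟩, h4⟩ := hτ
    rw [Finset.mem_coe, mem_faces]
    refine ⟨?_, ?_, ?_⟩
    · intro t ht
      rw [Finset.mem_erase] at ht
      exact mem_nb.2 ⟨h1 ht.2, h2 s h4 t ht.2 ht.1.symm⟩
    · intro a ha b hb hab
      exact h2 a (Finset.mem_of_mem_erase ha) b (Finset.mem_of_mem_erase hb) hab
    · rw [Finset.card_erase_of_mem h4, h3, Nat.add_sub_cancel]
  · intro σ hσ
    rw [Finset.mem_coe, mem_faces] at hσ
    have hsσ : s ∉ σ := fun h => G.loopless.irrefl s (mem_nb.1 (hσ.1 h)).2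
    exact Finset.erase_insert hsσ
  · intro τ hτ
    rw [Finset.mem_coe, Finset.mem_filter] at hτ
    exact Finset.insert_erase hτ.2

/-- double counting: faces through a vertex are faces of the link -/
theorem sum_faces_nb {G : SimpleGraph T} {S : Finset T} (j : ℕ) :
    ∑ s ∈ S, (faces G (nb G S s) j).card = (j + 1) * (faces G S (j + 1)).card := by
  rw [Finset.sum_congr rfl fun s hs => J2C_nb (G := G) (S := S) j hs]
  have h1 := Finset.sum_card_bipartiteAbove_eq_sum_card_bipartiteBelow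
    (s := S) (t := faces G S (j + 1)) (fun (s : T) (τ : Finset T) => s ∈ τ)
  unfold Finset.bipartiteAbove Finset.bipartiteBelow at h1
  rw [h1, mul_comm, ← smul_eq_mul]
  refine Finset.sum_eq_card_nsmul fun τ hτ => ?_
  rw [mem_faces] at hτ
  have h2 : (S.filter fun s => s ∈ τ) = τ := by
    ext s
    rw [Finset.mem_filter]
    exact ⟨fun h => h.2, fun h => ⟨hτ.1 h, h⟩⟩
  rw [h2, hτ.2.2]

end Pool.Agent.LibFlagPL

end

section

namespace Pool.Agent.LibFlagPL

open Finset

set_option linter.unusedSectionVars false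

variable {T : Type} [Fintype T] [DecidableEq T]

theorem Circle.faces_two {G : SimpleGraph T} {C : Finset T} (h : Circle G C) :
    (faces G C 2).card = C.card := by
  have h1 : ∑ s ∈ C, (faces G (nb G C s) 1).card = 2 * (faces G C 2).card := sum_faces_nb 1
  have h2 : ∑ s ∈ C, (faces G (nb G C s) 1).card = ∑ s ∈ C, 2 :=
    Finset.sum_congr rfl (fun s hs => by rw [card_faces_one]; exact h.2.1 s hs)
  rw [h2, Finset.sum_const, smul_eq_mul] at h1
  omega

theorem F2.faces_two {G : SimpleGraph T} {S : Finset T} (h : F2 G S) :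
    (faces G S 2).card + 6 = 3 * S.card := by
  have h1 : ∑ s ∈ S, (faces G (nb G S s) 1).card = 2 * (faces G S 2).card := sum_faces_nb 1
  have h2 : ∑ s ∈ S, (faces G (nb G S s) 1).card = ∑ s ∈ S, (nb G S s).card :=
    Finset.sum_congr rfl (fun s _ => card_faces_one)
  have h3 := h.2.2
  rw [h2] at h1
  omega

theorem F2.faces_three {G : SimpleGraph T} {S : Finset T} (h : F2 G S) :
    (faces G S 3).card + 4 = 2 * S.card := by
  have h1 : ∑ s ∈ S, (faces G (nb G S s) 2).card = 3 * (faces G S 3).card := sum_faces_nb 2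
  have h2 : ∑ s ∈ S, (faces G (nb G S s) 2).card = ∑ s ∈ S, (nb G S s).card :=
    Finset.sum_congr rfl (fun s hs => (h.2.1 s hs).faces_two)
  have h3 := h.2.2
  rw [h2] at h1
  omega

theorem F2.chi_eq {G : SimpleGraph T} {S : Finset T} (h : F2 G S) : chi G S = 0 := by
  have h0 := chi_eq_sum (G := G) (S := S) (m := 3) (fun σ h1 h2 => h.no_four h1 h2)
  have h2 := h.faces_two
  have h3 := h.faces_three
  have h2' : ((faces G S 2).card : ℚ) = 3 * S.card - 6 := by
    have : (((faces G S 2).card + 6 : ℕ) : ℚ) = ((3 * S.card : ℕ) : ℚ) := by rw [h2]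
    push_cast at this
    linarith
  have h3' : ((faces G S 3).card : ℚ) = 2 * S.card - 4 := by
    have : (((faces G S 3).card + 4 : ℕ) : ℚ) = ((2 * S.card : ℕ) : ℚ) := by rw [h3]
    push_cast at this
    linarith
  rw [h0]
  simp only [Finset.sum_range_succ, Finset.sum_range_zero]
  rw [faces_zero, card_faces_one, h2', h3']
  simp only [Finset.card_singleton, Nat.cast_one]
  ring

theorem F3.faces_four {G : SimpleGraph T} {S : Finset T} (h : F3 G S) :
    (faces G S 4).card + S.card = (faces G S 2).card := by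
  have h1 : ∑ s ∈ S, (faces G (nb G S s) 3).card = 4 * (faces G S 4).card := sum_faces_nb 3
  have h2 : ∑ s ∈ S, (faces G (nb G S s) 1).card = 2 * (faces G S 2).card := sum_faces_nb 1
  have h3 : ∑ s ∈ S, (faces G (nb G S s) 1).card = ∑ s ∈ S, (nb G S s).card :=
    Finset.sum_congr rfl (fun s _ => card_faces_one)
  have h4 : ∑ s ∈ S, ((faces G (nb G S s) 3).card + 4) = ∑ s ∈ S, 2 * (nb G S s).card :=
    Finset.sum_congr rfl (fun s hs => (h.2 s hs).faces_three)
  rw [Finset.sum_add_distrib, Finset.sum_const, smul_eq_mul, ← Finset.mul_sum] at h4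
  rw [h3] at h2
  omega

theorem F3.faces_three {G : SimpleGraph T} {S : Finset T} (h : F3 G S) :
    (faces G S 3).card = 2 * (faces G S 4).card := by
  have h0 := h.faces_four
  have h1 : ∑ s ∈ S, (faces G (nb G S s) 2).card = 3 * (faces G S 3).card := sum_faces_nb 2
  have h2 : ∑ s ∈ S, (faces G (nb G S s) 1).card = 2 * (faces G S 2).card := sum_faces_nb 1
  have h3 : ∑ s ∈ S, (faces G (nb G S s) 1).card = ∑ s ∈ S, (nb G S s).card :=
    Finset.sum_congr rfl (fun s _ => card_faces_one)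
  have h4 : ∑ s ∈ S, ((faces G (nb G S s) 2).card + 6) = ∑ s ∈ S, 3 * (nb G S s).card :=
    Finset.sum_congr rfl (fun s hs => (h.2 s hs).faces_two)
  rw [Finset.sum_add_distrib, Finset.sum_const, smul_eq_mul, ← Finset.mul_sum] at h4
  rw [h3] at h2
  omega

/-- `16 chi` is `gamma_2` -/
theorem F3.chi_eq {G : SimpleGraph T} {S : Finset T} (h : F3 G S) :
    16 * chi G S = (faces G S 2).card - 5 * S.card + 16 := by
  have h0 := chi_eq_sum (G := G) (S := S) (m := 4) (fun σ h1 h2 => h.no_five h1 h2)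
  have h2 := h.faces_four
  have h3 := h.faces_three
  have h2' : ((faces G S 4).card : ℚ) = (faces G S 2).card - S.card := by
    have : (((faces G S 4).card + S.card : ℕ) : ℚ) = ((faces G S 2).card : ℚ) := by rw [h2]
    push_cast at this
    linarith
  have h3' : ((faces G S 3).card : ℚ) = 2 * ((faces G S 2).card - S.card) := by
    rw [← h2', h3]
    push_cast
    ring
  rw [h0]
  simp only [Finset.sum_range_succ, Finset.sum_range_zero]
  rw [faces_zero, card_faces_one, h2', h3']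
  simp only [Finset.card_singleton, Nat.cast_one]
  ring

end Pool.Agent.LibFlagPL

end

section

namespace Pool.Agent.LibFlagPL

open Finset

/-- (D), proved in the algebraic block -/
def DHyp : Prop :=
  ∀ (T : Type) [Fintype T] [DecidableEq T] (G : SimpleGraph T) (S : Finset T), F3 G S → 0 ≤ chi G S

section

variable {T : Type} [Fintype T] [DecidableEq T]

/-- the values of `g` on the two facets containing a ridge agree (ridges have `j` vertices) -/
def Rel {α : Type} (G : SimpleGraph T) (S : Finset T) (j : ℕ) (g : Finset T → α) : Prop :=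
  ∀ τ ∈ faces G S j, ∀ a ∈ cn G S τ, ∀ b ∈ cn G S τ, g (insert a τ) = g (insert b τ)

/-- connected, and all vertex links are circles (surface) -/
def W2 (G : SimpleGraph T) (S : Finset T) : Prop :=
  Conn G S ∧ ∀ s ∈ S, Circle G (nb G S s)

/-- incidence matrix modulo 2 of the faces with `j` vertices and the faces with `j + 1` vertices -/
noncomputable def Dm (G : SimpleGraph T) (S : Finset T) (j : ℕ) :
    Matrix {σ // σ ∈ faces G S j} {σ // σ ∈ faces G S (j + 1)} (ZMod 2) :=
  fun τ σ => if τ.1 ⊆ σ.1 then 1 else 0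

/-- cocycle modulo 2 on the edges -/
structure Coc (G : SimpleGraph T) (S : Finset T) (z : T → T → ZMod 2) : Prop where
  symm : ∀ s t, z s t = z t s
  tri : ∀ s ∈ S, ∀ t ∈ S, ∀ u ∈ S, G.Adj s t → G.Adj t u → G.Adj s u →
    z s t + z t u + z s u = 0

/-- the double cover defined by `z` -/
def dbl (G : SimpleGraph T) (z : T → T → ZMod 2) : SimpleGraph (T × ZMod 2) where
  Adj a b := G.Adj a.1 b.1 ∧ b.2 = a.2 + z a.1 b.1 ∧ a.2 = b.2 + z b.1 a.1
  symm := by
    constructor
    rintro a b ⟨h1, h2, h3⟩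
    exact ⟨h1.symm, h3, h2⟩
  loopless := ⟨fun a h => G.loopless.irrefl a.1 h.1⟩

/-- the graph in which `q` is joined exactly to the vertices of `O` -/
def capG (G : SimpleGraph T) (O : Finset T) (q : T) : SimpleGraph T where
  Adj s t := s ≠ t ∧ ((s ≠ q ∧ t ≠ q ∧ G.Adj s t) ∨ (s = q ∧ t ∈ O) ∨ (t = q ∧ s ∈ O))
  symm := by
    constructor
    rintro s t ⟨h1, h2⟩
    refine ⟨h1.symm, ?_⟩
    rcases h2 with ⟨a, b, c⟩ | h | h
    · exact Or.inl ⟨b, a, c.symm⟩
    · exact Or.inr (Or.inr h)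
    · exact Or.inr (Or.inl h)
  loopless := ⟨fun s h => h.1 rfl⟩

/-- `P` and `Q` are the two sides of `O` in `S`; `j` is the number of vertices of the facets of `O` -/
structure Sides (G : SimpleGraph T) (S O P Q : Finset T) (j : ℕ) : Prop where
  disj : Disjoint P Q
  union : P ∪ Q = S \ O
  sep : ∀ p ∈ P, ∀ q ∈ Q, ¬ G.Adj p q
  left : ∀ σ ∈ faces G O j, ∃ p ∈ P, ∀ s ∈ σ, G.Adj p s
  right : ∀ σ ∈ faces G O j, ∃ q ∈ Q, ∀ s ∈ σ, G.Adj q s

/-- the graphs `G` and `G'` agree on `S` -/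
def Agr (G G' : SimpleGraph T) (S : Finset T) : Prop :=
  ∀ s ∈ S, ∀ t ∈ S, (G.Adj s t ↔ G'.Adj s t)

/-- `φ` maps the induced graph of `G` on `S` isomorphically to an induced subgraph of `G'` -/
def Emb {T' : Type} (G : SimpleGraph T) (S : Finset T) (G' : SimpleGraph T') (φ : T → T') : Prop :=
  (∀ s ∈ S, ∀ t ∈ S, φ s = φ t → s = t) ∧ ∀ s ∈ S, ∀ t ∈ S, (G'.Adj (φ s) (φ t) ↔ G.Adj s t)


theorem capG_adj {G : SimpleGraph T} {O : Finset T} {q s t : T} (hs : s ≠ q) (ht : t ≠ q) :
    (capG G O q).Adj s t ↔ G.Adj s t := by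
  constructor
  · rintro ⟨_, h | h | h⟩
    · exact h.2.2
    · exact absurd h.1 hs
    · exact absurd h.1 ht
  · intro h
    exact ⟨h.ne, Or.inl ⟨hs, ht, h⟩⟩

theorem capG_adj_left {G : SimpleGraph T} {O : Finset T} {q t : T} (ht : t ≠ q) :
    (capG G O q).Adj q t ↔ t ∈ O := by
  constructor
  · rintro ⟨_, h | h | h⟩
    · exact absurd rfl h.1
    · exact h.2
    · exact absurd h.1 ht
  · intro h
    exact ⟨ht.symm, Or.inr (Or.inl ⟨rfl, h⟩)⟩

theorem capG_adj_right {G : SimpleGraph T} {O : Finset T} {q t : T} (ht : t ≠ q) :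
    (capG G O q).Adj t q ↔ t ∈ O := by
  rw [SimpleGraph.adj_comm]
  exact capG_adj_left ht

theorem Sides.symm {G : SimpleGraph T} {S O P Q : Finset T} {j : ℕ} (h : Sides G S O P Q j) :
    Sides G S O Q P j where
  disj := h.disj.symm
  union := by rw [Finset.union_comm]; exact h.union
  sep := fun p hp q hq hpq => h.sep q hq p hp hpq.symm
  left := h.right
  right := h.left

theorem Sides.left_subset {G : SimpleGraph T} {S O P Q : Finset T} {j : ℕ}
    (h : Sides G S O P Q j) : P ⊆ S := by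
  intro p hp
  have : p ∈ S \ O := by rw [← h.union]; exact Finset.mem_union_left _ hp
  exact (Finset.mem_sdiff.1 this).1

theorem Sides.left_not_mem {G : SimpleGraph T} {S O P Q : Finset T} {j : ℕ}
    (h : Sides G S O P Q j) {p : T} (hp : p ∈ P) : p ∉ O := by
  have : p ∈ S \ O := by rw [← h.union]; exact Finset.mem_union_left _ hp
  exact (Finset.mem_sdiff.1 this).2

theorem Sides.right_subset {G : SimpleGraph T} {S O P Q : Finset T} {j : ℕ}
    (h : Sides G S O P Q j) : Q ⊆ S := h.symm.left_subset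

theorem Sides.right_not_mem {G : SimpleGraph T} {S O P Q : Finset T} {j : ℕ}
    (h : Sides G S O P Q j) {p : T} (hp : p ∈ Q) : p ∉ O := h.symm.left_not_mem hp

theorem Sides.cases {G : SimpleGraph T} {S O P Q : Finset T} {j : ℕ}
    (h : Sides G S O P Q j) {t : T} (ht : t ∈ S) : t ∈ O ∨ t ∈ P ∨ t ∈ Q := by
  by_cases h1 : t ∈ O
  · exact Or.inl h1
  · have : t ∈ P ∪ Q := by rw [h.union]; exact Finset.mem_sdiff.2 ⟨ht, h1⟩
    exact Or.inr (Finset.mem_union.1 this)

end

end Pool.Agent.LibFlagPL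

end

section

namespace Pool.Agent.LibFlagPL

open Finset

section

variable {T : Type} [Fintype T] [DecidableEq T]

/-- the class `Z_m`: two points, circles, flag 2-spheres, and for `m ≥ 3`: connected, all vertex
links in `Z_(m-1)`, `chi = 0` -/
def Zc (G : SimpleGraph T) : ℕ → Finset T → Prop
  | 0, S => S.card = 2 ∧ ∀ a ∈ S, ∀ b ∈ S, ¬ G.Adj a b
  | 1, S => Circle G S
  | 2, S => F2 G S
  | (m + 3), S => Conn G S ∧ (∀ s ∈ S, Zc G (m + 2) (nb G S s)) ∧ chi G S = 0

/-- every vertex of `Y` has at most one nonneighbour in `Y` (other than itself) -/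
def JT (G : SimpleGraph T) (Y : Finset T) : Prop :=
  ∀ x ∈ Y, ∀ y ∈ Y, ∀ z ∈ Y, y ≠ x → z ≠ x → ¬ G.Adj x y → ¬ G.Adj x z → y = z

/-- induced cross-polytope with `k` antipodal pairs -/
def DIA (G : SimpleGraph T) (O : Finset T) (k : ℕ) : Prop :=
  O.card = 2 * k ∧ JT G O ∧ ∀ x ∈ O, ∃ y ∈ O, y ≠ x ∧ ¬ G.Adj x y

/-- `Z` is a connected component of the induced graph on `X` -/
def Comp (G : SimpleGraph T) (X Z : Finset T) : Prop :=
  Z ⊆ X ∧ Conn G Z ∧ ∀ x ∈ Z, ∀ y ∈ X, G.Adj x y → y ∈ Z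

open scoped Classical in
/-- the vertices of `Y` with a neighbour in `Z` -/
noncomputable def bdy (G : SimpleGraph T) (Y Z : Finset T) : Finset T :=
  Y.filter (fun y => ∃ x ∈ Z, G.Adj y x)

/-- every component of `K \ Y` is attached to `Y` along an induced cross-polytope with `k`
antipodal pairs (to be used for `K ∈ Z_k`) -/
def T3 (G : SimpleGraph T) (K Y : Finset T) (k : ℕ) : Prop :=
  ∀ Z, Comp G (K \ Y) Z → DIA G (bdy G Y Z) k

/-- `U` and `V` are the two (connected) sides of `O` in `K` -/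
structure Sep (G : SimpleGraph T) (K O U V : Finset T) : Prop where
  compU : Comp G (K \ O) U
  compV : Comp G (K \ O) V
  disj : Disjoint U V
  union : U ∪ V = K \ O
  touchU : ∀ o ∈ O, (nb G U o).Nonempty
  touchV : ∀ o ∈ O, (nb G V o).Nonempty

/-- every induced cross-polytope with `m` pairs is a vertex link -/
def PrimeM (G : SimpleGraph T) (M : Finset T) (m : ℕ) : Prop :=
  ∀ O ⊆ M, DIA G O m → ∃ u ∈ M, nb G M u = O

/-- common neighbours of two nonadjacent vertices of `L` always form a set `JT` -/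
def C1 (G : SimpleGraph T) (L : Finset T) : Prop :=
  ∀ a ∈ L, ∀ b ∈ L, a ≠ b → ¬ G.Adj a b → JT G (nb G L a ∩ nb G L b)

/-- claim (i) in dimension `m` -/
def I1m (G : SimpleGraph T) (M : Finset T) (m : ℕ) : Prop :=
  M.card = 2 * m + 2 ∨ ∃ u v : T, GE G M u v

/-- claim (ii) in dimension `m` -/
def I2m (G : SimpleGraph T) (M : Finset T) (m : ℕ) : Prop :=
  ∀ c ∈ M, DIA G (nb G M c) m → 2 * m + 3 ≤ M.card →
    ∃ u v : T, GE G M u v ∧ u ∉ insert c (nb G M c)

end

/-- (D_m) for all `m ≥ 3`, algebraic block -/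
def DHypG : Prop :=
  ∀ (m : ℕ) (T : Type) [Fintype T] [DecidableEq T] (G : SimpleGraph T) (S : Finset T),
    Conn G S → (∀ s ∈ S, Zc G (m + 2) (nb G S s)) → 0 ≤ chi G S

/-- (N_m) for all `m ≥ 3`, algebraic block -/
def NHypG : Prop :=
  ∀ (m : ℕ) (T : Type) [Fintype T] [DecidableEq T] (G : SimpleGraph T) (S : Finset T),
    Zc G (m + 3) S → ∀ A ⊆ S, ¬ Cl G A → chi G A ≤ 0

end Pool.Agent.LibFlagPL

end

section

namespace Pool.Agent.LibFlagPL

open Finset

variable {T : Type} [Fintype T] [DecidableEq T]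

/-- connected, all vertex links again in the class, 2-dimensional links are flag 2-spheres
(this is `Zc` without the condition `chi = 0`) -/
def Wc (G : SimpleGraph T) : ℕ → Finset T → Prop
  | 0, S => S.card = 2 ∧ ∀ a ∈ S, ∀ b ∈ S, ¬ G.Adj a b
  | 1, S => Circle G S
  | 2, S => F2 G S
  | (m + 3), S => Conn G S ∧ ∀ s ∈ S, Wc G (m + 2) (nb G S s)

open scoped Classical in
/-- the face polynomial `∑ x^|σ|` (all cliques `σ ⊆ S`, the empty one included) -/
noncomputable def fpoly (G : SimpleGraph T) (S : Finset T) : Polynomial ℚ :=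
  ∑ σ ∈ S.powerset.filter (fun σ => Cl G σ), Polynomial.X ^ σ.card

/-- reduction to the cross-polytope by contractions of good edges with cross-polytopal links,
dimension `m + 3` -/
inductive RedM : SimpleGraph T → Finset T → ℕ → Prop
  | base {G : SimpleGraph T} {M : Finset T} {m : ℕ} (h : DIA G M (m + 4)) : RedM G M m
  | step {G : SimpleGraph T} {M : Finset T} {m : ℕ} {u v : T} (hM : Zc G (m + 3) M)
      (hg : GE G M u v) (hl : DIA G (nb G M u ∩ nb G M v) (m + 2))
      (h : RedM (ctr G u v) (M.erase v) m) : RedM G M m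

end Pool.Agent.LibFlagPL

end
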