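import Pool.Agent.LibFlagPL.AlgF
import Pool.Agent.LibFlagPL.GenY
import Pool.Agent.LibFlagPL.NbhdA
import Pool.Agent.LibFlagPL.SideD

/-!
# LibFlagPL.PrimeA: the prime case in dimension three and the base of the induction
-/

section

namespace Pool.Agent.LibFlagPL

open Finset

variable {T : Type} [Fintype T] [DecidableEq T]

/-- the classification of the common neighbours of two nonadjacent vertices (P3.2) -/
def Cls (G : SimpleGraph T) (M : Finset T) : Prop :=
  ∀ a ∈ M, ∀ b ∈ M, a ≠ b → ¬ G.Adj a b →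
    Cl G (nb G M a ∩ nb G M b) ∨ TyB G (nb G M a ∩ nb G M b) ∨ TyC G (nb G M a ∩ nb G M b) ∨
      TyD G (nb G M a ∩ nb G M b) ∨ TyF G M (nb G M a ∩ nb G M b)

end Pool.Agent.LibFlagPL

end

section

namespace Pool.Agent.LibFlagPL

open Finset

set_option linter.unusedSectionVars false

variable {T : Type} [Fintype T] [DecidableEq T]

/-- the link of `p` in `K`: one arc lies in `R`, the other one is `u` -/
private theorem ring_cover {G : SimpleGraph T} {K R : Finset T} (hK : F2 G K) {u p q r s : T}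
    (h4 : Ind4 G p q r s) (hu : u ∈ K) (hp : p ∈ K) (hq : q ∈ K) (hs : s ∈ K)
    (hup : G.Adj u p) (huq : G.Adj u q) (hus : G.Adj u s)
    (huR : u ∉ R) (hCR : ∀ y ∈ ({p, q, r, s} : Finset T), y ∉ R)
    (hcl : ∀ x ∈ R, ∀ y ∈ K, G.Adj x y → y ∈ R ∨ y ∈ ({p, q, r, s} : Finset T))
    (hnu : ∀ y ∈ K, G.Adj u y → y ∈ ({p, q, r, s} : Finset T))
    (hRK : R ⊆ K) (hpR : ∃ x ∈ R, G.Adj p x) :
    ∀ y ∈ K, G.Adj p y → y ∈ R ∨ y = u ∨ y = q ∨ y = s := by
  obtain ⟨hpq, hqr, hrs, hsp, npr, nqs, hpr, hqs⟩ := h4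
  have hX : Circle G (nb G K p) := hK.2.1 p hp
  have huX : u ∈ nb G K p := mem_nb.2 ⟨hu, hup.symm⟩
  have hqX : q ∈ nb G K p := mem_nb.2 ⟨hq, hpq⟩
  have hsX : s ∈ nb G K p := mem_nb.2 ⟨hs, hsp.symm⟩
  have hqR : q ∉ R := hCR q (by simp)
  have hsR : s ∉ R := hCR s (by simp)
  have hCX : ∀ y ∈ nb G K p, y ∈ ({p, q, r, s} : Finset T) → y = q ∨ y = s := by
    intro y hy h1
    simp only [Finset.mem_insert, Finset.mem_singleton] at h1
    rcases h1 with rfl | rfl | rfl | rfl
    · exact absurd (mem_nb.1 hy).2 (G.loopless.irrefl _)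
    · exact Or.inl rfl
    · exact absurd (mem_nb.1 hy).2 hpr
    · exact Or.inr rfl
  have hAsub : nb G K p ∩ R ⊆ nb G K p := Finset.inter_subset_left
  have hAne : (nb G K p ∩ R).Nonempty := by
    obtain ⟨x, hx, hpx⟩ := hpR
    exact ⟨x, Finset.mem_inter.2 ⟨mem_nb.2 ⟨hRK hx, hpx⟩, hx⟩⟩
  have huP : u ∈ nb G K p \ (nb G K p ∩ R) :=
    Finset.mem_sdiff.2 ⟨huX, fun h => huR (Finset.mem_inter.1 h).2⟩
  have hqP : q ∈ nb G K p \ (nb G K p ∩ R) :=
    Finset.mem_sdiff.2 ⟨hqX, fun h => hqR (Finset.mem_inter.1 h).2⟩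
  have hsP : s ∈ nb G K p \ (nb G K p ∩ R) :=
    Finset.mem_sdiff.2 ⟨hsX, fun h => hsR (Finset.mem_inter.1 h).2⟩
  have hunion : nb G K p = (nb G K p \ (nb G K p ∩ R)) ∪ (nb G K p ∩ R) := by
    rw [Finset.sdiff_union_of_subset hAsub]
  have hdisj : Disjoint (nb G K p \ (nb G K p ∩ R)) (nb G K p ∩ R) := Finset.sdiff_disjoint
  -- only `q` and `s` see `A`
  have hzero : ∀ y ∈ nb G K p \ (nb G K p ∩ R), y ≠ q → y ≠ s →
      (nb G (nb G K p ∩ R) y).card = 0 := by
    intro y hy hyq hys
    rw [Finset.mem_sdiff] at hy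
    rw [Finset.card_eq_zero, Finset.eq_empty_iff_forall_notMem]
    intro x hx
    obtain ⟨hx1, hx2⟩ := mem_nb.1 hx
    obtain ⟨hx3, hx4⟩ := Finset.mem_inter.1 hx1
    rcases hcl x hx4 y (mem_nb.1 hy.1).1 hx2.symm with h1 | h1
    · exact hy.2 (Finset.mem_inter.2 ⟨hy.1, h1⟩)
    · rcases hCX y hy.1 h1 with h2 | h2
      · exact hyq h2
      · exact hys h2
  have hle : ∀ y ∈ nb G K p, G.Adj u y → (nb G (nb G K p ∩ R) y).card ≤ 1 := by
    intro y hy huy
    have h1 : nb G (nb G K p ∩ R) y ⊆ (nb G (nb G K p) y).erase u := by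
      intro x hx
      obtain ⟨hx1, hx2⟩ := mem_nb.1 hx
      obtain ⟨hx3, hx4⟩ := Finset.mem_inter.1 hx1
      refine Finset.mem_erase.2 ⟨?_, mem_nb.2 ⟨hx3, hx2⟩⟩
      rintro rfl
      exact huR hx4
    have h2 := Finset.card_le_card h1
    rw [Finset.card_erase_of_mem (mem_nb.2 ⟨huX, huy.symm⟩), hX.2.1 y hy] at h2
    exact h2
  have hsum : ∑ y ∈ nb G K p \ (nb G K p ∩ R), (nb G (nb G K p ∩ R) y).card =
      (nb G (nb G K p ∩ R) q).card + (nb G (nb G K p ∩ R) s).card := by
    have h1 : ({q, s} : Finset T) ⊆ nb G K p \ (nb G K p ∩ R) := by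
      intro y hy
      rw [Finset.mem_insert, Finset.mem_singleton] at hy
      rcases hy with rfl | rfl
      · exact hqP
      · exact hsP
    rw [← Finset.sum_subset h1, Finset.sum_pair nqs]
    intro y hy hny
    rw [Finset.mem_insert, Finset.mem_singleton, not_or] at hny
    exact hzero y hy hny.1 hny.2
  have hcut := hX.cut hunion hdisj ⟨u, huP⟩ hAne
  rw [hsum] at hcut
  have h1q := hle q hqX huq
  have h1s := hle s hsX hus
  have e1q : (nb G (nb G K p ∩ R) q).card = 1 := by omega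
  have e1s : (nb G (nb G K p ∩ R) s).card = 1 := by omega
  have hP0 : ({q, u, s} : Finset T) ⊆ nb G K p \ (nb G K p ∩ R) := by
    intro y hy
    simp only [Finset.mem_insert, Finset.mem_singleton] at hy
    rcases hy with rfl | rfl | rfl
    · exact hqP
    · exact huP
    · exact hsP
  have nq : nb G ({q, u, s} : Finset T) q = {u} := by
    ext y
    simp only [mem_nb, Finset.mem_insert, Finset.mem_singleton]
    constructor
    · rintro ⟨rfl | rfl | rfl, h⟩
      · exact absurd h (G.loopless.irrefl _)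
      · rfl
      · exact absurd h hqs
    · rintro rfl
      exact ⟨Or.inr (Or.inl rfl), huq.symm⟩
  have ns : nb G ({q, u, s} : Finset T) s = {u} := by
    ext y
    simp only [mem_nb, Finset.mem_insert, Finset.mem_singleton]
    constructor
    · rintro ⟨rfl | rfl | rfl, h⟩
      · exact absurd h.symm hqs
      · rfl
      · exact absurd h (G.loopless.irrefl _)
    · rintro rfl
      exact ⟨Or.inr (Or.inl rfl), hus.symm⟩
  have nu : nb G ({q, u, s} : Finset T) u = {q, s} := by
    ext y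
    simp only [mem_nb, Finset.mem_insert, Finset.mem_singleton]
    constructor
    · rintro ⟨rfl | rfl | rfl, h⟩
      · exact Or.inl rfl
      · exact absurd h (G.loopless.irrefl _)
      · exact Or.inr rfl
    · rintro (rfl | rfl)
      · exact ⟨Or.inl rfl, huq⟩
      · exact ⟨Or.inr (Or.inr rfl), hus⟩
  have nuA : (nb G (nb G K p ∩ R) u).card = 0 :=
    hzero u huP huq.ne hus.ne
  have hfin : ({q, u, s} : Finset T) = nb G K p \ (nb G K p ∩ R) := by
    refine hX.ext hunion hdisj hP0 ⟨q, by simp⟩ ?_ ?_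
    · intro y hy
      simp only [Finset.mem_insert, Finset.mem_singleton] at hy
      rcases hy with rfl | rfl | rfl
      · rw [nq, e1q, Finset.card_singleton]
      · rw [nu, nuA, Finset.card_pair nqs]
      · rw [ns, e1s, Finset.card_singleton]
    · rw [hsum]
      have h2 : ({q, s} : Finset T) ⊆ {q, u, s} := by
        intro y hy
        simp only [Finset.mem_insert, Finset.mem_singleton] at hy ⊢
        tauto
      calc (nb G (nb G K p ∩ R) q).card + (nb G (nb G K p ∩ R) s).card
          = ∑ y ∈ ({q, s} : Finset T), (nb G (nb G K p ∩ R) y).card := by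
            rw [Finset.sum_pair nqs]
        _ ≤ ∑ y ∈ ({q, u, s} : Finset T), (nb G (nb G K p ∩ R) y).card :=
            Finset.sum_le_sum_of_subset h2
  intro y hy hpy
  by_cases hyR : y ∈ R
  · exact Or.inl hyR
  · right
    have h3 : y ∈ ({q, u, s} : Finset T) := by
      rw [hfin]
      exact Finset.mem_sdiff.2 ⟨mem_nb.2 ⟨hy, hpy⟩, fun h => hyR (Finset.mem_inter.1 h).2⟩
    simp only [Finset.mem_insert, Finset.mem_singleton] at h3
    tauto

private theorem ind4_rot {G : SimpleGraph T} {p q r s : T} (h : Ind4 G p q r s) :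
    Ind4 G q r s p := by
  obtain ⟨h1, h2, h3, h5, h6, h7, h8, h9⟩ := h
  exact ⟨h2, h3, h5, h1, h7, h6.symm, h9, fun h => h8 h.symm⟩

private theorem rot_set {p q r s : T} : ({q, r, s, p} : Finset T) = {p, q, r, s} := by
  ext y
  simp only [Finset.mem_insert, Finset.mem_singleton]
  tauto

theorem cls_of_prime {G : SimpleGraph T} {M : Finset T} (hM : F3 G M)
    (hN : ∀ A ⊆ M, ¬ Cl G A → chi G A ≤ 0) (hp : Prime3 G M) (hs : ¬ Susp G M) : Cls G M := by
  intro a ha b hb hne hn
  have hK : F2 G (nb G M a) := hM.2 a ha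
  have hNK : ∀ A ⊆ nb G M a, ¬ Cl G A → chi G A ≤ 0 := fun A hA => hN A (hA.trans nb_subset)
  have h0 : 0 ≤ chi G (nb G M a ∩ nb G M b) := chi_common_nonneg hN ha hb hne hn hK.chi_eq
  by_cases hcl : Cl G (nb G M a ∩ nb G M b)
  · exact Or.inl hcl
  right
  rcases classY_all hK hNK Finset.inter_subset_left hcl h0 with h | h | h | ⟨-, h⟩
  · exact Or.inl h
  · exact Or.inr (Or.inl h)
  · exact Or.inr (Or.inr (Or.inl h))
  right; right; right
  -- `Y ≠ K`
  obtain ⟨x, hxK, hxY⟩ : ∃ x ∈ nb G M a, x ∉ nb G M a ∩ nb G M b := by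
    by_contra hcon
    push Not at hcon
    exact hs ⟨a, ha, b, hb, hne, hn, fun t ht => (Finset.mem_inter.1 (hcon t ht)).2⟩
  obtain ⟨R, hR, -, hRc, hRcl⟩ := exists_comp (G := G) (Finset.mem_sdiff.2 ⟨hxK, hxY⟩)
  obtain ⟨p, q, r, s, hpY, hqY, hrY, hsY, h4, h5⟩ := h R hR hRc hRcl
  have hRK : R ⊆ nb G M a := hR.trans Finset.sdiff_subset
  have hpa := Finset.mem_inter.1 hpY
  have hqa := Finset.mem_inter.1 hqY
  have hra := Finset.mem_inter.1 hrY
  have hsa := Finset.mem_inter.1 hsY
  -- the octahedron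
  have h4' := h4
  obtain ⟨hpq, hqr, hrs, hsp, npr, nqs, hpr, hqs⟩ := h4'
  have hC : Circle G ({p, r, q, s} : Finset T) :=
    susp_circle npr nqs hpr hqs hpq hsp.symm hqr.symm hrs
  have hCset : ({p, r, q, s} : Finset T) = {p, q, r, s} := by
    ext y
    simp only [Finset.mem_insert, Finset.mem_singleton]
    tauto
  rw [hCset] at hC
  have hCY : ∀ y ∈ ({p, q, r, s} : Finset T), y ∈ nb G M a ∩ nb G M b := by
    intro y hy
    simp only [Finset.mem_insert, Finset.mem_singleton] at hy
    rcases hy with rfl | rfl | rfl | rfl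
    · exact hpY
    · exact hqY
    · exact hrY
    · exact hsY
  have haC : ∀ t ∈ ({p, q, r, s} : Finset T), G.Adj a t := fun t ht =>
    (mem_nb.1 (Finset.mem_inter.1 (hCY t ht)).1).2
  have hbC : ∀ t ∈ ({p, q, r, s} : Finset T), G.Adj b t := fun t ht =>
    (mem_nb.1 (Finset.mem_inter.1 (hCY t ht)).2).2
  have hO2 : F2 G (insert a (insert b ({p, q, r, s} : Finset T))) := F2_susp hC haC hbC hne hn
  have hCcard : ({p, q, r, s} : Finset T).card = 4 := h4.dia_y.1
  have hOcard : (insert a (insert b ({p, q, r, s} : Finset T))).card = 6 := by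
    rw [Finset.card_insert_of_notMem, Finset.card_insert_of_notMem, hCcard]
    · exact fun h1 => G.loopless.irrefl b (hbC b h1)
    · rw [Finset.mem_insert]
      rintro (h1 | h1)
      · exact hne h1
      · exact G.loopless.irrefl a (haC a h1)
  have hOM : insert a (insert b ({p, q, r, s} : Finset T)) ⊆ M := by
    intro t ht
    rw [Finset.mem_insert, Finset.mem_insert] at ht
    rcases ht with rfl | rfl | ht
    · exact ha
    · exact hb
    · exact (mem_nb.1 (Finset.mem_inter.1 (hCY t ht)).1).1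
  obtain ⟨u, hu, hlu⟩ := hp _ hOM ⟨hO2, hOcard⟩
  have hmem : ∀ t, t ∈ M ∧ G.Adj u t ↔
      t ∈ insert a (insert b ({p, q, r, s} : Finset T)) := fun t => by rw [← hlu, mem_nb]
  have hua : G.Adj u a := ((hmem a).2 (by simp)).2
  have hub : G.Adj u b := ((hmem b).2 (by simp)).2
  have huC : ∀ t ∈ ({p, q, r, s} : Finset T), G.Adj u t := fun t ht =>
    ((hmem t).2 (Finset.mem_insert_of_mem (Finset.mem_insert_of_mem ht))).2
  have huY : u ∈ nb G M a ∩ nb G M b :=
    Finset.mem_inter.2 ⟨mem_nb.2 ⟨hu, hua.symm⟩, mem_nb.2 ⟨hu, hub.symm⟩⟩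
  have huK : u ∈ nb G M a := (Finset.mem_inter.1 huY).1
  have hRY : ∀ y ∈ R, y ∉ nb G M a ∩ nb G M b := fun y hy => (Finset.mem_sdiff.1 (hR hy)).2
  have huR : u ∉ R := fun h1 => hRY u h1 huY
  have hCR : ∀ y ∈ ({p, q, r, s} : Finset T), y ∉ R := fun y hy h1 => hRY y h1 (hCY y hy)
  have hclR : ∀ x ∈ R, ∀ y ∈ nb G M a, G.Adj x y → y ∈ R ∨ y ∈ ({p, q, r, s} : Finset T) := by
    intro x hx y hy hxy
    by_cases hyY : y ∈ nb G M a ∩ nb G M b
    · exact Or.inr ((h5 y hyY).1 ⟨x, hx, hxy.symm⟩)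
    · exact Or.inl (hRcl x hx y (Finset.mem_sdiff.2 ⟨hy, hyY⟩) hxy)
  have hnu : ∀ y ∈ nb G M a, G.Adj u y → y ∈ ({p, q, r, s} : Finset T) := by
    intro y hy huy
    obtain ⟨hyM, hay⟩ := mem_nb.1 hy
    have h1 := (hmem y).1 ⟨hyM, huy⟩
    rw [Finset.mem_insert, Finset.mem_insert] at h1
    rcases h1 with rfl | rfl | h1
    · exact absurd hay (G.loopless.irrefl _)
    · exact absurd hay hn
    · exact h1
  have hseeR : ∀ y ∈ ({p, q, r, s} : Finset T), ∃ x ∈ R, G.Adj y x := fun y hy =>
    (h5 y (hCY y hy)).2 hy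
  -- the four links
  have r1 := ring_cover hK h4 huK hpa.1 hqa.1 hsa.1 (huC p (by simp)) (huC q (by simp))
    (huC s (by simp)) huR hCR hclR hnu hRK (hseeR p (by simp))
  have h4b := ind4_rot h4
  have h4c := ind4_rot h4b
  have h4d := ind4_rot h4c
  have sb : ({q, r, s, p} : Finset T) = {p, q, r, s} := rot_set
  have sc : ({r, s, p, q} : Finset T) = {p, q, r, s} := by rw [← sb]; exact rot_set
  have sd : ({s, p, q, r} : Finset T) = {p, q, r, s} := by rw [← sc]; exact rot_set
  have r2 := ring_cover hK h4b huK hqa.1 hra.1 hpa.1 (huC q (by simp)) (huC r (by simp))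
    (huC p (by simp)) huR (by rw [sb]; exact hCR) (by rw [sb]; exact hclR)
    (by rw [sb]; exact hnu) hRK (hseeR q (by simp))
  have r3 := ring_cover hK h4c huK hra.1 hsa.1 hqa.1 (huC r (by simp)) (huC s (by simp))
    (huC q (by simp)) huR (by rw [sc]; exact hCR) (by rw [sc]; exact hclR)
    (by rw [sc]; exact hnu) hRK (hseeR r (by simp))
  have r4 := ring_cover hK h4d huK hsa.1 hpa.1 hra.1 (huC s (by simp)) (huC p (by simp))
    (huC r (by simp)) huR (by rw [sd]; exact hCR) (by rw [sd]; exact hclR)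
    (by rw [sd]; exact hnu) hRK (hseeR s (by simp))
  -- the whole link
  have hwhole : R ∪ insert u ({p, q, r, s} : Finset T) = nb G M a := by
    refine hK.1.eq_of_closed_y ?_ ⟨u, by simp⟩ ?_
    · intro y hy
      rw [Finset.mem_union, Finset.mem_insert] at hy
      rcases hy with hy | rfl | hy
      · exact hRK hy
      · exact huK
      · exact (Finset.mem_inter.1 (hCY y hy)).1
    · intro x hx y hy hxy
      rw [Finset.mem_union, Finset.mem_insert] at hx ⊢
      rcases hx with hx | rfl | hx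
      · rcases hclR x hx y hy hxy with h1 | h1
        · exact Or.inl h1
        · exact Or.inr (Or.inr h1)
      · exact Or.inr (Or.inr (hnu y hy hxy))
      · simp only [Finset.mem_insert, Finset.mem_singleton] at hx ⊢
        rcases hx with rfl | rfl | rfl | rfl
        · have := r1 y hy hxy
          tauto
        · have := r2 y hy hxy
          tauto
        · have := r3 y hy hxy
          tauto
        · have := r4 y hy hxy
          tauto
  refine ⟨u, p, q, r, s, ?_, ?_, h4, huC p (by simp), huC q (by simp), huC r (by simp),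
    huC s (by simp)⟩
  · refine Finset.Subset.antisymm ?_ ?_
    · intro y hy
      have h1 := (Finset.mem_inter.1 hy).1
      rw [← hwhole, Finset.mem_union] at h1
      rcases h1 with h1 | h1
      · exact absurd hy (hRY y h1)
      · exact h1
    · intro y hy
      rw [Finset.mem_insert] at hy
      rcases hy with rfl | hy
      · exact huY
      · exact hCY y hy
  · rw [hlu]
    exact ⟨hO2, hOcard⟩

end Pool.Agent.LibFlagPL

end

section

namespace Pool.Agent.LibFlagPL

open Finset

variable {T : Type} [Fintype T] [DecidableEq T]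

private theorem PP3_card_le {G : SimpleGraph T} {M Y : Finset T}
    (h : TyB G Y ∨ TyC G Y ∨ TyD G Y ∨ TyF G M Y) : Y.card ≤ 5 := by
  rcases h with ⟨a, b, h, _⟩ | ⟨a, m, b, h, _⟩ | ⟨a, b, m, n, h, _⟩ | ⟨u, p, q, r, s, h, _⟩
  · rw [h]
    exact Finset.card_le_two.trans (by norm_num)
  · rw [h]
    exact Finset.card_le_three.trans (by norm_num)
  · rw [h]
    exact Finset.card_le_four.trans (by norm_num)
  · rw [h]
    exact Finset.card_le_five

private theorem PP3_oct {G : SimpleGraph T} {O : Finset T} (h : Oct G O) {x y : T} (hx : x ∈ O)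
    (hy : y ∈ O) (hxy : x ≠ y) (hn : ¬ G.Adj x y) : (O.erase x).erase y = nb G O x := by
  obtain ⟨hO, h6⟩ := h
  have h4 : 4 ≤ (nb G O x).card := (hO.2.1 x hx).1
  have hsub : nb G O x ⊆ (O.erase x).erase y := by
    intro z hz
    rw [mem_nb] at hz
    rw [Finset.mem_erase, Finset.mem_erase]
    refine ⟨?_, ?_, hz.1⟩
    · rintro rfl
      exact hn hz.2
    · rintro rfl
      exact G.irrefl hz.2
  have hcard : ((O.erase x).erase y).card = 4 := by
    rw [Finset.card_erase_of_mem (Finset.mem_erase.2 ⟨hxy.symm, hy⟩),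
      Finset.card_erase_of_mem hx, h6]
  exact (Finset.eq_of_subset_of_card_le hsub (by omega)).symm

theorem octE2 {G : SimpleGraph T} {M : Finset T} (hM : F3 G M) (hc : Cls G M) {u a : T}
    (hu : u ∈ M) (ho : Oct G (nb G M u)) (ha : a ∈ nb G M u) : GE G M u a := by
  have ha' := mem_nb.1 ha
  refine ⟨hu, ha'.1, ha'.2, ?_⟩
  intro w hw t ht hwu hta haw hwt htu
  by_contra hcon
  rw [not_or] at hcon
  obtain ⟨huw, hat⟩ := hcon
  have htO : t ∈ nb G M u := mem_nb.2 ⟨ht, htu.symm⟩
  have e1 := PP3_oct ho ha htO hta.symm hat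
  have e2 := PP3_oct ho htO ha hta (fun h => hat h.symm)
  have hsub : insert u (insert w (((nb G M u).erase a).erase t)) ⊆ nb G M a ∩ nb G M t := by
    intro z hz
    rw [Finset.mem_insert, Finset.mem_insert] at hz
    rcases hz with rfl | rfl | hz
    · exact Finset.mem_inter.2 ⟨mem_nb.2 ⟨hu, ha'.2.symm⟩, mem_nb.2 ⟨hu, htu⟩⟩
    · exact Finset.mem_inter.2 ⟨mem_nb.2 ⟨hw, haw⟩, mem_nb.2 ⟨hw, hwt.symm⟩⟩
    · have h1 : z ∈ nb G (nb G M u) a := by
        rw [← e1]
        exact hz
      have h2 : z ∈ nb G (nb G M u) t := by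
        rw [← e2, Finset.erase_right_comm]
        exact hz
      rw [mem_nb] at h1 h2
      have hzM : z ∈ M := (mem_nb.1 h1.1).1
      exact Finset.mem_inter.2 ⟨mem_nb.2 ⟨hzM, h1.2⟩, mem_nb.2 ⟨hzM, h2.2⟩⟩
  have hcard : (insert u (insert w (((nb G M u).erase a).erase t))).card = 6 := by
    have h0 : (((nb G M u).erase a).erase t).card = 4 := by
      rw [Finset.card_erase_of_mem (Finset.mem_erase.2 ⟨hta, htO⟩),
        Finset.card_erase_of_mem ha, ho.2]
    have hw' : w ∉ ((nb G M u).erase a).erase t := by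
      intro h
      have h1 := Finset.mem_of_mem_erase (Finset.mem_of_mem_erase h)
      exact huw (mem_nb.1 h1).2
    have hu' : u ∉ insert w (((nb G M u).erase a).erase t) := by
      intro h
      rcases Finset.mem_insert.1 h with h | h
      · exact hwu h.symm
      · have h1 := Finset.mem_of_mem_erase (Finset.mem_of_mem_erase h)
        exact G.irrefl (mem_nb.1 h1).2
    rw [Finset.card_insert_of_notMem hu', Finset.card_insert_of_notMem hw', h0]
  have h6 : 6 ≤ (nb G M a ∩ nb G M t).card := by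
    rw [← hcard]
    exact Finset.card_le_card hsub
  rcases hc a ha'.1 t ht hta.symm hat with h | h
  · exact huw (h u (hsub (Finset.mem_insert_self _ _)) w
      (hsub (Finset.mem_insert_of_mem (Finset.mem_insert_self _ _))) hwu.symm)
  · have := PP3_card_le h
    omega

end Pool.Agent.LibFlagPL

end

section

namespace Pool.Agent.LibFlagPL

open Finset

variable {T : Type} [Fintype T] [DecidableEq T]

private theorem PP4_symm {G : SimpleGraph T} {M : Finset T} {u v : T} (h : GE G M u v) :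
    GE G M v u := by
  obtain ⟨h1, h2, h3, h4⟩ := h
  refine ⟨h2, h1, h3.symm, ?_⟩
  intro w hw t ht hwv htu huw hwt htv
  rcases h4 t ht w hw htu hwv htv.symm hwt.symm huw.symm with h | h
  · exact Or.inr h
  · exact Or.inl h

/-- (a) -/
private theorem PP4_a {G : SimpleGraph T} {M : Finset T} (hM : F3 G M) (hc : Cls G M) {v : T}
    (hv : v ∈ M) (hbad : ∀ a, ¬ GE G M v a) : ¬ Oct G (nb G M v) := by
  intro ho
  have h1 : (nb G M v).Nonempty := by
    rw [← Finset.card_pos, ho.2]
    norm_num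
  obtain ⟨a, ha⟩ := h1
  exact hbad a (octE2 hM hc hv ho ha)

/-- (b) -/
private theorem PP4_b {G : SimpleGraph T} {M : Finset T} (hM : F3 G M) (hc : Cls G M) {v : T}
    (hv : v ∈ M) (hbad : ∀ a, ¬ GE G M v a) {u : T} (hu : u ∈ M) (huv : G.Adj u v) :
    ¬ Oct G (nb G M u) := by
  intro ho
  exact hbad u (PP4_symm (octE2 hM hc hu ho (mem_nb.2 ⟨hv, huv⟩)))

private theorem PP4_noF {G : SimpleGraph T} {M : Finset T} (hM : F3 G M) (hc : Cls G M) {v : T}
    (hv : v ∈ M) (hbad : ∀ a, ¬ GE G M v a) {Y : Finset T} (hY : Y ⊆ M) (hvY : v ∈ Y) :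
    ¬ TyF G M Y := by
  rintro ⟨u, p, q, r, s, h, ho, _, hp, hq, hr, hs⟩
  have hu : u ∈ M := hY (by rw [h]; exact Finset.mem_insert_self _ _)
  rw [h] at hvY
  simp only [Finset.mem_insert, Finset.mem_singleton] at hvY
  rcases hvY with rfl | rfl | rfl | rfl | rfl
  · exact PP4_a hM hc hv hbad ho
  · exact PP4_b hM hc hv hbad hu hp ho
  · exact PP4_b hM hc hv hbad hu hq ho
  · exact PP4_b hM hc hv hbad hu hr ho
  · exact PP4_b hM hc hv hbad hu hs ho

private theorem PP4_card {G : SimpleGraph T} {Y : Finset T}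
    (h : TyB G Y ∨ TyC G Y ∨ TyD G Y) : Y.card ≤ 4 := by
  rcases h with ⟨a, b, h, _⟩ | ⟨a, m, b, h, _⟩ | ⟨a, b, m, n, h, _⟩
  · rw [h]
    exact Finset.card_le_two.trans (by norm_num)
  · rw [h]
    exact Finset.card_le_three.trans (by norm_num)
  · rw [h]
    exact Finset.card_le_four

/-- the shape of the common neighbours of two nonadjacent vertices `v`, `X` of `Y` -/
private theorem PP4_shape {G : SimpleGraph T} {Y : Finset T}
    (h : TyB G Y ∨ TyC G Y ∨ TyD G Y) {v X : T} (hv : v ∈ Y) (hX : X ∈ Y) (hne : X ≠ v)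
    (hn : ¬ G.Adj v X) :
    (∀ y ∈ Y, y ≠ v → y ≠ X → G.Adj X y) ∧
      ∀ y ∈ Y, ∀ z ∈ Y, y ≠ v → y ≠ X → z ≠ v → z ≠ X → y ≠ z → G.Adj y z := by
  rcases h with ⟨a, b, h, hab, hnab⟩ | ⟨a, m, b, h, hab, hnab, ham, hbm⟩ |
    ⟨a, b, m, n, h, hab, hnab, ham, hbm, han, hbn, hmn⟩
  · subst h
    simp only [Finset.mem_insert, Finset.mem_singleton] at hv hX ⊢
    refine ⟨?_, ?_⟩
    · rintro y hy h1 h2
      rcases hv with rfl | rfl <;> rcases hX with rfl | rfl <;> rcases hy with rfl | rfl <;>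
        first
          | exact absurd rfl hne
          | exact absurd rfl h1
          | exact absurd rfl h2
    · rintro y hy z hz h1 h2 h3 h4 h5
      rcases hv with rfl | rfl <;> rcases hX with rfl | rfl <;> rcases hy with rfl | rfl <;>
        first
          | exact absurd rfl hne
          | exact absurd rfl h1
          | exact absurd rfl h2
  · subst h
    simp only [Finset.mem_insert, Finset.mem_singleton] at hv hX ⊢
    have hvX : (v = a ∧ X = b) ∨ (v = b ∧ X = a) := by
      rcases hv with rfl | rfl | rfl <;> rcases hX with rfl | rfl | rfl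
      · exact absurd rfl hne
      · exact absurd ham hn
      · exact Or.inl ⟨rfl, rfl⟩
      · exact absurd ham.symm hn
      · exact absurd rfl hne
      · exact absurd hbm.symm hn
      · exact Or.inr ⟨rfl, rfl⟩
      · exact absurd hbm hn
      · exact absurd rfl hne
    have hy' : ∀ y, (y = a ∨ y = m ∨ y = b) → y ≠ v → y ≠ X → y = m := by
      intro y hy h1 h2
      rcases hvX with ⟨rfl, rfl⟩ | ⟨rfl, rfl⟩
      · rcases hy with h | h | h
        · exact absurd h h1
        · exact h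
        · exact absurd h h2
      · rcases hy with h | h | h
        · exact absurd h h2
        · exact h
        · exact absurd h h1
    refine ⟨?_, ?_⟩
    · intro y hy h1 h2
      rw [hy' y hy h1 h2]
      rcases hvX with ⟨_, rfl⟩ | ⟨_, rfl⟩
      · exact hbm
      · exact ham
    · intro y hy z hz h1 h2 h3 h4 h5
      exact absurd ((hy' y hy h1 h2).trans (hy' z hz h3 h4).symm) h5
  · subst h
    simp only [Finset.mem_insert, Finset.mem_singleton] at hv hX ⊢
    have hvX : (v = a ∧ X = b) ∨ (v = b ∧ X = a) := by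
      rcases hv with rfl | rfl | rfl | rfl <;> rcases hX with rfl | rfl | rfl | rfl
      · exact absurd rfl hne
      · exact Or.inl ⟨rfl, rfl⟩
      · exact absurd ham hn
      · exact absurd han hn
      · exact Or.inr ⟨rfl, rfl⟩
      · exact absurd rfl hne
      · exact absurd hbm hn
      · exact absurd hbn hn
      · exact absurd ham.symm hn
      · exact absurd hbm.symm hn
      · exact absurd rfl hne
      · exact absurd hmn hn
      · exact absurd han.symm hn
      · exact absurd hbn.symm hn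
      · exact absurd hmn.symm hn
      · exact absurd rfl hne
    have hy' : ∀ y, (y = a ∨ y = b ∨ y = m ∨ y = n) → y ≠ v → y ≠ X → y = m ∨ y = n := by
      intro y hy h1 h2
      rcases hvX with ⟨rfl, rfl⟩ | ⟨rfl, rfl⟩
      · rcases hy with h | h | h
        · exact absurd h h1
        · exact absurd h h2
        · exact h
      · rcases hy with h | h | h
        · exact absurd h h2
        · exact absurd h h1
        · exact h
    refine ⟨?_, ?_⟩
    · intro y hy h1 h2
      rcases hvX with ⟨_, rfl⟩ | ⟨_, rfl⟩ <;> rcases hy' y hy h1 h2 with rfl | rfl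
      · exact hbm
      · exact hbn
      · exact ham
      · exact han
    · intro y hy z hz h1 h2 h3 h4 h5
      rcases hy' y hy h1 h2 with rfl | rfl <;> rcases hy' z hz h3 h4 with rfl | rfl
      · exact absurd rfl h5
      · exact hmn
      · exact hmn.symm
      · exact absurd rfl h5

theorem ten_of_bad {G : SimpleGraph T} {M : Finset T} (hM : F3 G M) (hc : Cls G M) {v : T}
    (hv : v ∈ M) (hbad : ∀ a, ¬ GE G M v a) : 10 ≤ (nb G M v).card := by
  have hsubY : ∀ a b : T, nb G M a ∩ nb G M b ⊆ M := fun a b =>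
    Finset.inter_subset_left.trans nb_subset
  refine ten_le_link hM hv ?_ ?_ ?_
  · -- (C1)
    intro a ha a' ha' hne hna
    have ha1 := mem_nb.1 ha
    have ha2 := mem_nb.1 ha'
    have hvY : v ∈ nb G M a ∩ nb G M a' :=
      Finset.mem_inter.2 ⟨mem_nb.2 ⟨hv, ha1.2.symm⟩, mem_nb.2 ⟨hv, ha2.2.symm⟩⟩
    have hsub : nb G (nb G M v) a ∩ nb G (nb G M v) a' ⊆ (nb G M a ∩ nb G M a').erase v := by
      intro y hy
      obtain ⟨h1, h2⟩ := Finset.mem_inter.1 hy
      rw [mem_nb] at h1 h2
      have h3 := mem_nb.1 h1.1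
      rw [Finset.mem_erase]
      refine ⟨?_, Finset.mem_inter.2 ⟨mem_nb.2 ⟨h3.1, h1.2⟩, mem_nb.2 ⟨h3.1, h2.2⟩⟩⟩
      rintro rfl
      exact G.irrefl h3.2
    have hcl := Finset.card_le_card hsub
    rw [Finset.card_erase_of_mem hvY] at hcl
    rcases hc a ha1.1 a' ha2.1 hne hna with h | h | h | h | h
    · -- clique
      have hK : F2 G (nb G M v) := hM.2 v hv
      have ha_not : a ∉ nb G (nb G M v) a ∩ nb G (nb G M v) a' := by
        intro h1
        exact G.irrefl (mem_nb.1 (Finset.mem_inter.1 h1).1).2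
      have hins : insert a (nb G (nb G M v) a ∩ nb G (nb G M v) a') ⊆ nb G M v := by
        intro y hy
        rcases Finset.mem_insert.1 hy with rfl | hy
        · exact ha
        · exact (mem_nb.1 (Finset.mem_inter.1 hy).1).1
      have hclq : Cl G (insert a (nb G (nb G M v) a ∩ nb G (nb G M v) a')) := by
        intro y hy z hz hyz
        rcases Finset.mem_insert.1 hy with rfl | hy
        · rcases Finset.mem_insert.1 hz with rfl | hz
          · exact absurd rfl hyz
          · exact (mem_nb.1 (Finset.mem_inter.1 hz).1).2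
        · rcases Finset.mem_insert.1 hz with rfl | hz
          · exact (mem_nb.1 (Finset.mem_inter.1 hy).1).2.symm
          · exact h y (Finset.mem_of_mem_erase (hsub hy)) z (Finset.mem_of_mem_erase (hsub hz)) hyz
      have h4 := hK.no_four hins hclq
      rw [Finset.card_insert_of_notMem ha_not] at h4
      omega
    · have := PP4_card (Or.inl h)
      omega
    · have := PP4_card (Or.inr (Or.inl h))
      omega
    · have := PP4_card (Or.inr (Or.inr h))
      omega
    · exact absurd h (PP4_noF hM hc hv hbad (hsubY a a') hvY)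
  · -- (C2)
    intro a ha
    have ha1 := mem_nb.1 ha
    have h0 := hbad a
    unfold GE at h0
    push Not at h0
    obtain ⟨w, hw, t, ht, hwv, hta, haw, hwt, htv, hvw, hat⟩ := h0 hv ha1.1 ha1.2
    have htK : t ∈ nb G M v := mem_nb.2 ⟨ht, htv.symm⟩
    have hvY : v ∈ nb G M a ∩ nb G M t :=
      Finset.mem_inter.2 ⟨mem_nb.2 ⟨hv, ha1.2.symm⟩, mem_nb.2 ⟨hv, htv⟩⟩
    have hwY : w ∈ nb G M a ∩ nb G M t :=
      Finset.mem_inter.2 ⟨mem_nb.2 ⟨hw, haw⟩, mem_nb.2 ⟨hw, hwt.symm⟩⟩
    have hL : ∀ y ∈ nb G (nb G M v) a ∩ nb G (nb G M v) t,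
        y ∈ nb G M a ∩ nb G M t ∧ y ≠ v ∧ y ≠ w := by
      intro y hy
      obtain ⟨h1, h2⟩ := Finset.mem_inter.1 hy
      rw [mem_nb] at h1 h2
      have h3 := mem_nb.1 h1.1
      refine ⟨Finset.mem_inter.2 ⟨mem_nb.2 ⟨h3.1, h1.2⟩, mem_nb.2 ⟨h3.1, h2.2⟩⟩, ?_, ?_⟩
      · rintro rfl
        exact G.irrefl h3.2
      · rintro rfl
        exact hvw h3.2
    have hT : TyB G (nb G M a ∩ nb G M t) ∨ TyC G (nb G M a ∩ nb G M t) ∨
        TyD G (nb G M a ∩ nb G M t) := by
      rcases hc a ha1.1 t ht hta.symm hat with h | h | h | h | h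
      · exact absurd (h v hvY w hwY hwv.symm) hvw
      · exact Or.inl h
      · exact Or.inr (Or.inl h)
      · exact Or.inr (Or.inr h)
      · exact absurd h (PP4_noF hM hc hv hbad (hsubY a t) hvY)
    obtain ⟨s1, s2⟩ := PP4_shape hT hvY hwY hwv hvw
    refine ⟨t, htK, w, hw, hta, hat, hwv, hvw, haw.symm, hwt, ?_, ?_⟩
    · intro y hy z hz hyz
      obtain ⟨y1, y2, y3⟩ := hL y hy
      obtain ⟨z1, z2, z3⟩ := hL z hz
      exact s2 y y1 z z1 y2 y3 z2 z3 hyz
    · intro y hy
      obtain ⟨y1, y2, y3⟩ := hL y hy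
      exact s1 y y1 y2 y3
  · -- (c)
    intro X hX hXv hvX hncl
    rcases hc v hv X hX hXv.symm hvX with h | h | h | h | h
    · exact absurd h hncl
    · exact PP4_card (Or.inl h)
    · exact PP4_card (Or.inr (Or.inl h))
    · exact PP4_card (Or.inr (Or.inr h))
    · obtain ⟨u, p, q, r, s, h1, ho, _⟩ := h
      have hu : u ∈ nb G M v ∩ nb G M X := by
        rw [h1]
        exact Finset.mem_insert_self _ _
      have hu1 := mem_nb.1 (Finset.mem_inter.1 hu).1
      exact absurd ho (PP4_b hM hc hv hbad hu1.1 hu1.2.symm)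

end Pool.Agent.LibFlagPL

end

section

namespace Pool.Agent.LibFlagPL

open Finset

set_option linter.unusedSectionVars false

variable {T : Type} [Fintype T] [DecidableEq T]

private theorem deg_sum {G : SimpleGraph T} {M : Finset T} (hM : F3 G M) (h0 : chi G M = 0) :
    (∑ v ∈ M, (nb G M v).card) + 32 = 10 * M.card := by
  have h1 : ∑ s ∈ M, (faces G (nb G M s) 1).card = 2 * (faces G M 2).card := sum_faces_nb 1
  have h2 : ∑ s ∈ M, (faces G (nb G M s) 1).card = ∑ s ∈ M, (nb G M s).card :=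
    Finset.sum_congr rfl (fun s _ => card_faces_one)
  have h3 := hM.chi_eq
  rw [h0, mul_zero] at h3
  have h4 : ((faces G M 2).card : ℚ) + 16 = 5 * M.card := by linarith
  have h5 : (faces G M 2).card + 16 = 5 * M.card := by exact_mod_cast h4
  rw [h2] at h1
  omega

theorem primeI {G : SimpleGraph T} {M : Finset T} (hM : F3 G M) (h0 : chi G M = 0)
    (hN : ∀ A ⊆ M, ¬ Cl G A → chi G A ≤ 0) (hp : Prime3 G M) (hs : ¬ Susp G M) :
    (∃ u v, GE G M u v) ∧ ∀ c ∈ M, Oct G (nb G M c) →
      ∃ u v, GE G M u v ∧ u ∉ insert c (nb G M c) := by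
  have hc : Cls G M := cls_of_prime hM hN hp hs
  have hdeg := deg_sum hM h0
  constructor
  · by_contra hcon
    push Not at hcon
    have h1 : ∀ v ∈ M, 10 ≤ (nb G M v).card := fun v hv =>
      ten_of_bad hM hc hv (fun a => hcon v a)
    have h2 := Finset.card_nsmul_le_sum M (fun v => (nb G M v).card) 10 h1
    rw [smul_eq_mul] at h2
    omega
  · intro c hcM hoct
    by_contra hcon
    push Not at hcon
    have h1 : ∀ v ∈ M \ insert c (nb G M c), 10 ≤ (nb G M v).card := by
      intro v hv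
      rw [Finset.mem_sdiff] at hv
      exact ten_of_bad hM hc hv.1 (fun a ha => hv.2 (hcon v a ha))
    have hZ : insert c (nb G M c) ⊆ M := by
      intro t ht
      rw [Finset.mem_insert] at ht
      rcases ht with rfl | ht
      · exact hcM
      · exact (mem_nb.1 ht).1
    have hZc : (insert c (nb G M c)).card = 7 := by
      rw [Finset.card_insert_of_notMem (fun h => G.loopless.irrefl c (mem_nb.1 h).2), hoct.2]
    have h2 := Finset.card_nsmul_le_sum (M \ insert c (nb G M c)) (fun v => (nb G M v).card) 10 h1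
    have h3 := Finset.card_nsmul_le_sum (insert c (nb G M c)) (fun v => (nb G M v).card) 6
      (fun v hv => (hM.2 v (hZ hv)).six_le)
    rw [smul_eq_mul] at h2 h3
    have h4 := Finset.sum_sdiff (f := fun v => (nb G M v).card) hZ
    have h5 := Finset.card_sdiff_of_subset hZ
    have h6 := Finset.card_le_card hZ
    have h4' : (∑ v ∈ M \ insert c (nb G M c), (nb G M v).card) +
        ∑ v ∈ insert c (nb G M c), (nb G M v).card = ∑ v ∈ M, (nb G M v).card := h4
    have h2' : (M \ insert c (nb G M c)).card * 10 ≤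
        ∑ v ∈ M \ insert c (nb G M c), (nb G M v).card := h2
    have h3' : (insert c (nb G M c)).card * 6 ≤
        ∑ v ∈ insert c (nb G M c), (nb G M v).card := h3
    rw [hZc] at h3' h5 h6
    omega

/-- the form used in `thOCT` -/
theorem primeI' {G : SimpleGraph T} {M : Finset T} (hM : F3 G M) (h0 : chi G M = 0)
    (hN : ∀ A ⊆ M, ¬ Cl G A → chi G A ≤ 0) (hp : Prime3 G M) (hs : ¬ Susp G M) :
    I1 G M ∧ I2 G M := by
  obtain ⟨h1, h2⟩ := primeI hM h0 hN hp hs
  exact ⟨Or.inr h1, fun c hc ho _ => h2 c hc ho⟩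

end Pool.Agent.LibFlagPL

end

section

namespace Pool.Agent.LibFlagPL

open Finset

set_option linter.unusedSectionVars false

/-- claims (i) and (ii) for flag 3-manifolds with `chi = 0` -/
theorem baseI {T : Type} [Fintype T] [DecidableEq T] (G : SimpleGraph T) (M : Finset T)
    (hM : F3 G M) (h0 : chi G M = 0) : I1 G M ∧ I2 G M := by
  refine thOCT (fun T _ _ G S h => thD h) (fun G M hM hs => ⟨?_, ?_⟩)
    (fun G M hM h0 hp hs => primeI' hM h0 (fun A hA hn => thN hM h0 hA hn) hp hs) G M hM h0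
  · exact caseB_I1 hM hs (fun K hK h6 => i2 hK h6)
  · exact caseB_I2 hM hs (fun K hK c hc h4 h7 => ii2 hK hc h4 h7)

/-- base of the claim in all dimensions (`BaseHyp` of GW) -/
theorem baseZ (T : Type) [Fintype T] [DecidableEq T] (G : SimpleGraph T) (M : Finset T)
    (hM : Zc G 3 M) : I1m G M 3 ∧ I2m G M 3 := by
  obtain ⟨hF, h0⟩ := zc_three_iff.1 hM
  obtain ⟨h1, h2⟩ := baseI G M hF h0
  refine ⟨h1, fun c hc hd h9 => ?_⟩
  exact h2 c hc (oct_iff_dia.2 hd) h9

end Pool.Agent.LibFlagPL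

end
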