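import Pool.Agent.LibFlagPL.StellB

/-!
# LibFlagPL.StellC: contraction of an edge with reducible link is a stellar equivalence
-/

section

namespace Pool.Agent.LibFlagPL

open Finset

private theorem Q24_mem2 {M : Fam} {v p q x : ℕ} (hM : IsCx M) (hx : ∀ s ∈ M, x ∉ s)
    (hxp : x ≠ p) {t : Finset ℕ} (hc : IsCx (stell M {v, q} x)) :
    t ∈ contr (stell M {v, q} x) p x ↔ x ∉ t ∧ ((t ∈ M ∧ ¬ ({v, q} : Finset ℕ) ⊆ t) ∨
      (p ∈ t ∧ ¬ ({v, q} : Finset ℕ) ⊆ t.erase p ∧ t.erase p ∪ {v, q} ∈ M)) := by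
  rw [mem_contr_cx hc hxp.symm]
  refine and_congr_right fun hxt => ?_
  have hxt' : x ∉ t.erase p := fun h => hxt (mem_of_mem_erase h)
  rw [mem_stell hM hx, mem_stell hM hx, erase_insert hxt']
  constructor
  · rintro ((⟨-, h1, h2⟩ | ⟨h1, -⟩) | ⟨h0, ⟨h1, -⟩ | ⟨-, h1, h2⟩⟩)
    · exact Or.inl ⟨h1, h2⟩
    · exact absurd h1 hxt
    · exact absurd (mem_insert_self _ _) h1
    · exact Or.inr ⟨h0, h1, h2⟩
  · rintro (⟨h1, h2⟩ | ⟨h0, h1, h2⟩)
    · exact Or.inl (Or.inl ⟨hxt, h1, h2⟩)
    · exact Or.inr ⟨h0, Or.inr ⟨mem_insert_self _ _, h1, h2⟩⟩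

theorem Amb.two {M K : Fam} {v p q x : ℕ} (h : Amb M v K) (hpq : p ≠ q)
    (he : ({p, q} : Finset ℕ) ∈ K) (hx : ∀ s ∈ M, x ∉ s) :
    Amb (contr (stell M {v, q} x) p x) v (contr K p q) := by
  have hpK : ({p} : Finset ℕ) ∈ K := h.cxK.2 _ he _ (by simp)
  have hqK : ({q} : Finset ℕ) ∈ K := h.cxK.2 _ he _ (by simp)
  have hvV := h.notMem
  have hpV : p ∈ vert K := (mem_vert h.cxK).2 hpK
  have hqV : q ∈ vert K := (mem_vert h.cxK).2 hqK
  have hvp : v ≠ p := fun e => hvV (e ▸ hpV)
  have hvq : v ≠ q := fun e => hvV (e ▸ hqV)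
  have hpv := h.edge hpK
  have hqv := h.edge hqK
  have hxp : x ≠ p := fun e => hx _ hpv (by rw [e]; simp)
  have hxq : x ≠ q := fun e => hx _ hqv (by rw [e]; simp)
  have hxv : x ≠ v := fun e => hx _ hqv (by rw [e]; simp)
  have hc : IsCx (stell M {v, q} x) := isCx_stell h.cx ⟨v, by simp⟩ hx
  have hm := fun t : Finset ℕ => Q24_mem2 (t := t) h.cx hx hxp hc
  have hxV : x ∉ vert K := fun e => by
    have h1 := h.edge ((mem_vert h.cxK).1 e)
    exact hx _ h1 (by simp)
  -- faces with `v`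
  have mA : ∀ s : Finset ℕ, v ∉ s → (insert v s ∈ contr (stell M {v, q} x) p x ↔ x ∉ s ∧ q ∉ s ∧
      (insert v s ∈ M ∨ (p ∈ s ∧ insert v (insert q (s.erase p)) ∈ M))) := by
    intro s hv
    rw [hm]
    have e1 : x ∉ insert v s ↔ x ∉ s := by simp [hxv]
    have e2 : ({v, q} : Finset ℕ) ⊆ insert v s ↔ q ∈ s := by
      constructor
      · intro h1
        have h2 := h1 (show q ∈ ({v, q} : Finset ℕ) by simp)
        rcases mem_insert.1 h2 with h3 | h3
        · exact absurd h3.symm hvq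
        · exact h3
      · intro h1 y hy
        rcases mem_insert.1 hy with rfl | hy
        · exact mem_insert_self _ _
        · rw [mem_singleton] at hy
          rw [hy]
          exact mem_insert_of_mem h1
    have e3 : p ∈ insert v s ↔ p ∈ s := by
      rw [mem_insert]
      exact ⟨fun h1 => h1.resolve_left hvp.symm, Or.inr⟩
    have e4 : ({v, q} : Finset ℕ) ⊆ (insert v s).erase p ↔ q ∈ s := by
      constructor
      · intro h1
        exact e2.1 (h1.trans (erase_subset _ _))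
      · intro h1 y hy
        have h2 := e2.2 h1 hy
        refine mem_erase.2 ⟨?_, h2⟩
        rintro rfl
        rcases mem_insert.1 hy with h3 | h3
        · exact hvp h3.symm
        · exact hpq (mem_singleton.1 h3)
    have e5 : (insert v s).erase p ∪ {v, q} = insert v (insert q (s.erase p)) := by
      ext y
      simp only [mem_union, mem_erase, mem_insert, mem_singleton]
      constructor
      · rintro (⟨h1, h2 | h2⟩ | h2 | h2)
        · exact Or.inl h2
        · exact Or.inr (Or.inr ⟨h1, h2⟩)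
        · exact Or.inl h2
        · exact Or.inr (Or.inl h2)
      · rintro (h1 | h1 | ⟨h1, h2⟩)
        · exact Or.inr (Or.inl h1)
        · exact Or.inr (Or.inr h1)
        · exact Or.inl ⟨h1, Or.inr h2⟩
    rw [e1, e2, e3, e4, e5]
    tauto
  have mB : ∀ s : Finset ℕ, v ∉ s → (insert v s ∈ contr (stell M {v, q} x) p x ↔ x ∉ s ∧ q ∉ s ∧
      insert v (s \ vert K) ∈ M ∧ (s ∩ vert K ∈ K ∨
        (p ∈ s ∧ insert q ((s ∩ vert K).erase p) ∈ K))) := by
    intro s hv
    rw [mA s hv, h.lj s hv]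
    have hv' : v ∉ insert q (s.erase p) := by
      rw [mem_insert, mem_erase]
      rintro (h1 | h1)
      · exact hvq h1
      · exact hv h1.2
    rw [h.lj _ hv']
    have e1 : insert q (s.erase p) \ vert K = s \ vert K := by
      ext y
      simp only [mem_sdiff, mem_insert, mem_erase]
      constructor
      · rintro ⟨rfl | h1, h2⟩
        · exact absurd hqV h2
        · exact ⟨h1.2, h2⟩
      · rintro ⟨h1, h2⟩
        exact ⟨Or.inr ⟨fun e => h2 (e ▸ hpV), h1⟩, h2⟩
    have e2 : insert q (s.erase p) ∩ vert K = insert q ((s ∩ vert K).erase p) := by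
      ext y
      simp only [mem_inter, mem_insert, mem_erase]
      constructor
      · rintro ⟨rfl | h1, h2⟩
        · exact Or.inl rfl
        · exact Or.inr ⟨h1.1, h1.2, h2⟩
      · rintro (rfl | ⟨h1, h2, h3⟩)
        · exact ⟨Or.inl rfl, hqV⟩
        · exact ⟨Or.inr ⟨h1, h2⟩, h3⟩
    rw [e1, e2]
    tauto
  have hK' := fun s : Finset ℕ => mem_contr_cx (s := s) h.cxK hpq
  have hcK : IsCx (contr K p q) := isCx_contr h.cxK
  have hV' : ∀ y, y ∈ vert (contr K p q) ↔ y ≠ q ∧ y ∈ vert K := by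
    intro y
    rw [mem_vert hcK, hK', mem_vert h.cxK, mem_singleton]
    constructor
    · rintro ⟨h1, h2 | ⟨h2, h3⟩⟩
      · exact ⟨fun e => h1 e.symm, h2⟩
      · rw [mem_singleton] at h2
        rw [← h2]
        exact ⟨hpq, hpK⟩
    · rintro ⟨h1, h2⟩
      exact ⟨fun e => h1 e.symm, Or.inl h2⟩
  refine ⟨isCx_contr hc, hcK, ?_, ?_, ?_, ?_⟩
  · rw [hm]
    refine ⟨by simp [hxv], Or.inl ⟨h.vM, fun h1 => ?_⟩⟩
    have h2 := h1 (show q ∈ ({v, q} : Finset ℕ) by simp)
    exact hvq (mem_singleton.1 h2).symm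
  · intro s hs hvs
    rw [hK'] at hs
    rcases hs.2 with h1 | ⟨-, h1⟩
    · exact h.vK s h1 hvs
    · exact h.vK _ h1 (mem_insert_of_mem (mem_erase.2 ⟨hvp, hvs⟩))
  · intro s hv
    have hv' : v ∉ s \ vert (contr K p q) := fun h1 => hv (mem_sdiff.1 h1).1
    rw [mB s hv, mB _ hv', hK']
    have e1 : x ∉ s \ vert (contr K p q) ↔ x ∉ s := by
      rw [mem_sdiff, hV']
      tauto
    have e2 : q ∉ s \ vert (contr K p q) ↔ q ∉ s := by
      rw [mem_sdiff, hV']
      tauto
    have e3 : (s \ vert (contr K p q)) \ vert K = s \ vert K := by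
      ext y
      simp only [mem_sdiff, hV']
      tauto
    rw [e1, e2, e3]
    by_cases hq : q ∈ s
    · tauto
    · have e4 : (s \ vert (contr K p q)) ∩ vert K = ∅ := by
        refine eq_empty_of_forall_notMem fun y hy => ?_
        rw [mem_inter, mem_sdiff, hV'] at hy
        obtain ⟨⟨h1, h2⟩, h3⟩ := hy
        exact h2 ⟨fun e => hq (e ▸ h1), h3⟩
      have e5 : s ∩ vert (contr K p q) = s ∩ vert K := by
        ext y
        simp only [mem_inter, hV']
        constructor
        · rintro ⟨h1, -, h2⟩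
          exact ⟨h1, h2⟩
        · rintro ⟨h1, h2⟩
          exact ⟨h1, fun e => hq (e ▸ h1), h2⟩
      rw [e4, e5]
      have e6 : (∅ : Finset ℕ) ∈ K := h.cxK.1
      have e7 : p ∈ s ∩ vert K ↔ p ∈ s := by
        rw [mem_inter]
        exact ⟨fun h1 => h1.1, fun h1 => ⟨h1, hpV⟩⟩
      have e8 : q ∉ s ∩ vert K := fun h1 => hq (mem_inter.1 h1).1
      rw [e7]
      tauto
  · intro s hs hv hall
    rw [mA s hv]
    rw [hm] at hs
    have hqs : q ∉ s := by
      intro hq
      have h1 := hall q hq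
      rw [hm] at h1
      rcases h1.2 with ⟨-, h2⟩ | ⟨h2, -⟩
      · exact h2 (by rw [pair_comm])
      · rcases mem_insert.1 h2 with h3 | h3
        · exact hpq h3
        · exact hvp (mem_singleton.1 h3).symm
    have hadj : ∀ y ∈ s, ({y, v} : Finset ℕ) ∈ M := by
      intro y hy
      have h1 := hall y hy
      rw [hm] at h1
      rcases h1.2 with ⟨h2, -⟩ | ⟨h2, -⟩
      · exact h2
      · rcases mem_insert.1 h2 with h3 | h3
        · rw [← h3]; exact hpv
        · exact absurd (mem_singleton.1 h3).symm hvp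
    refine ⟨hs.1, hqs, ?_⟩
    rcases hs.2 with ⟨h1, -⟩ | ⟨h1, -, h2⟩
    · exact Or.inl (h.ind s h1 hv hadj)
    · refine Or.inr ⟨h1, ?_⟩
      have e : insert v (insert q (s.erase p)) = s.erase p ∪ {v, q} := by
        ext y
        simp only [mem_union, mem_insert, mem_singleton]
        tauto
      rw [e]
      exact h2

end Pool.Agent.LibFlagPL

end

section

namespace Pool.Agent.LibFlagPL

open Finset

private theorem Q25_vP {K : Fam} (hK : IsCx K) {q : ℕ} (hq : {q} ∈ K) {y : ℕ} :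
    y ∈ vert (link K {q}) ↔ y ≠ q ∧ ({q, y} : Finset ℕ) ∈ K := by
  rw [mem_vert (isCx_link hK hq), mem_link hK]
  have h1 : ({q} : Finset ℕ) ∪ {y} = {q, y} := rfl
  rw [h1, disjoint_singleton]
  constructor
  · rintro ⟨h2, h3⟩
    exact ⟨h2.symm, h3⟩
  · rintro ⟨h2, h3⟩
    exact ⟨h2.symm, h3⟩

private theorem Q25_key {K : Fam} (hK : IsCx K) {u q : ℕ} (hq : {q} ∈ K) (hn : ({u, q} : Finset ℕ) ∉ K)
    (A : Finset ℕ) :
    insert q (A.erase u) ∈ K ↔
      insert q ((A \ vert (link K {q})).erase u) ∈ K ∧ A ∩ vert (link K {q}) ∈ link K {q} := by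
  have huP : u ∉ vert (link K {q}) := by
    rw [Q25_vP hK hq]
    rintro ⟨-, h1⟩
    rw [pair_comm] at h1
    exact hn h1
  have hqP : q ∉ vert (link K {q}) := by
    rw [Q25_vP hK hq]
    exact fun h1 => h1.1 rfl
  have hlink : A ∩ vert (link K {q}) ∈ link K {q} ↔ insert q (A ∩ vert (link K {q})) ∈ K := by
    rw [mem_link hK]
    constructor
    · intro h1
      exact h1.2
    · intro h1
      refine ⟨?_, h1⟩
      rw [disjoint_singleton_left, mem_inter]
      exact fun h2 => hqP h2.2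
  rw [hlink]
  constructor
  · intro h1
    refine ⟨hK.2 _ h1 _ ?_, hK.2 _ h1 _ ?_⟩
    · exact insert_subset_insert _ (erase_subset_erase _ sdiff_subset)
    · refine insert_subset_insert _ fun y hy => ?_
      rw [mem_inter] at hy
      exact mem_erase.2 ⟨fun h2 => huP (h2 ▸ hy.2), hy.1⟩
  · rintro ⟨h1, h2⟩
    refine hK.2 _ h2 _ fun y hy => ?_
    rw [mem_insert] at hy ⊢
    rcases hy with hy | hy
    · exact Or.inl hy
    · by_cases hyq : y = q
      · exact Or.inl hyq
      · right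
        rw [mem_erase] at hy
        refine mem_inter.2 ⟨hy.2, ?_⟩
        by_contra h3
        refine h3 ((Q25_vP hK hq).2 ⟨hyq, hK.2 _ h1 _ ?_⟩)
        intro z hz
        rw [mem_insert, mem_singleton] at hz
        rw [mem_insert]
        rcases hz with hz | hz
        · exact Or.inl hz
        · right
          rw [hz]
          exact mem_erase.2 ⟨hy.1, mem_sdiff.2 ⟨hy.2, h3⟩⟩

/-- the faces of the contraction containing `u`, `q` -/
private theorem Q25_union {M K : Fam} {u v q : ℕ} (h : Amb M v K) (hu : {u} ∈ K) (hq : {q} ∈ K)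
    (huq : u ≠ q) (hn : ({u, q} : Finset ℕ) ∉ K) (t : Finset ℕ) :
    t ∪ {u, q} ∈ contr M u v ↔ v ∉ t ∧ insert v (insert q (t.erase u)) ∈ M := by
  have hvV : v ∉ vert K := h.notMem
  have huv : u ≠ v := fun h1 => hvV (h1 ▸ (mem_vert h.cxK).2 hu)
  have hqv : q ≠ v := fun h1 => hvV (h1 ▸ (mem_vert h.cxK).2 hq)
  have hne : ({u, q} : Finset ℕ) ∉ M := h.not_edge hu hq hn
  have h1 : (t ∪ {u, q}).erase u = insert q (t.erase u) := by
    ext y
    simp only [mem_erase, mem_union, mem_insert, mem_singleton]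
    constructor
    · rintro ⟨h2, h3 | h3 | h3⟩
      · exact Or.inr ⟨h2, h3⟩
      · exact absurd h3 h2
      · exact Or.inl h3
    · rintro (h2 | ⟨h2, h3⟩)
      · exact ⟨fun h3 => huq (h3.symm.trans h2), Or.inr (Or.inr h2)⟩
      · exact ⟨h2, Or.inl h3⟩
  have h2 : v ∉ t ∪ {u, q} ↔ v ∉ t := by
    simp only [mem_union, mem_insert, mem_singleton, not_or]
    exact ⟨fun h3 => h3.1, fun h3 => ⟨h3, huv.symm, hqv.symm⟩⟩
  rw [mem_contr_cx h.cx huv, h1, h2]
  constructor
  · rintro ⟨h3, h4 | ⟨-, h4⟩⟩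
    · exact absurd (h.cx.2 _ h4 _ subset_union_right) hne
    · exact ⟨h3, h4⟩
  · rintro ⟨h3, h4⟩
    exact ⟨h3, Or.inr ⟨mem_union_right _ (mem_insert_self _ _), h4⟩⟩

private theorem Q25_D {M K : Fam} {u v q : ℕ} (h : Amb M v K) (hu : {u} ∈ K) (hq : {q} ∈ K)
    (huq : u ≠ q) (hn : ({u, q} : Finset ℕ) ∉ K) (t : Finset ℕ) :
    t ∪ {u, q} ∈ contr M u v ↔
      v ∉ t ∧ insert v (t \ vert K) ∈ M ∧ insert q ((t ∩ vert K).erase u) ∈ K := by
  have huV : u ∈ vert K := (mem_vert h.cxK).2 hu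
  have hqV : q ∈ vert K := (mem_vert h.cxK).2 hq
  have hvV : v ∉ vert K := h.notMem
  rw [Q25_union h hu hq huq hn]
  refine and_congr_right fun hvt => ?_
  have h1 : v ∉ insert q (t.erase u) := by
    rw [mem_insert, mem_erase]
    rintro (h2 | h2)
    · exact hvV (h2 ▸ hqV)
    · exact hvt h2.2
  rw [h.lj _ h1]
  have h2 : insert q (t.erase u) \ vert K = t \ vert K := by
    ext y
    simp only [mem_sdiff, mem_insert, mem_erase]
    constructor
    · rintro ⟨h3 | h3, h4⟩
      · exact absurd (h3 ▸ hqV) h4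
      · exact ⟨h3.2, h4⟩
    · rintro ⟨h3, h4⟩
      exact ⟨Or.inr ⟨fun h5 => h4 (h5 ▸ huV), h3⟩, h4⟩
  have h3 : insert q (t.erase u) ∩ vert K = insert q ((t ∩ vert K).erase u) := by
    ext y
    simp only [mem_inter, mem_insert, mem_erase]
    constructor
    · rintro ⟨h4 | h4, h5⟩
      · exact Or.inl h4
      · exact Or.inr ⟨h4.1, h4.2, h5⟩
    · rintro (h4 | ⟨h4, h5, h6⟩)
      · exact ⟨Or.inl h4, h4 ▸ hqV⟩
      · exact ⟨Or.inr ⟨h4, h5⟩, h6⟩
  rw [h2, h3]

theorem Amb.three {M K : Fam} {u v q x : ℕ} (h : Amb M v K) (hu : {u} ∈ K) (hq : {q} ∈ K)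
    (huq : u ≠ q) (hn : ({u, q} : Finset ℕ) ∉ K)
    (hind : ∀ s ∈ K, (∀ y ∈ s, ({y, q} : Finset ℕ) ∈ K) → insert q s ∈ K)
    (hx : ∀ s ∈ M, x ∉ s) : Amb (stell (contr M u v) {u, q} x) x (link K {q}) := by
  have huV : u ∈ vert K := (mem_vert h.cxK).2 hu
  have hqV : q ∈ vert K := (mem_vert h.cxK).2 hq
  have hvV : v ∉ vert K := h.notMem
  have huv : u ≠ v := fun h1 => hvV (h1 ▸ huV)
  have hxV : ∀ y, {y} ∈ K → x ≠ y := by
    intro y hy h1
    exact hx _ (h.edge hy) (h1 ▸ mem_insert_self _ _)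
  have hxu : x ≠ u := hxV u hu
  have hxv : x ≠ v := fun h1 => hx _ h.vM (h1 ▸ mem_singleton_self _)
  have hPK : ∀ s ∈ link K {q}, s ∈ K := by
    intro s hs
    rw [mem_link h.cxK] at hs
    exact h.cxK.2 _ hs.2 _ subset_union_right
  have hPV : vert (link K {q}) ⊆ vert K := by
    intro y hy
    have h1 := (mem_vert (isCx_link h.cxK hq)).1 hy
    exact (mem_vert h.cxK).2 (hPK _ h1)
  have huP : u ∉ vert (link K {q}) := by
    rw [Q25_vP h.cxK hq]
    rintro ⟨-, h1⟩
    rw [pair_comm] at h1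
    exact hn h1
  have hqP : q ∉ vert (link K {q}) := by
    rw [Q25_vP h.cxK hq]
    exact fun h1 => h1.1 rfl
  have hN : IsCx (contr M u v) := isCx_contr h.cx
  have hxN : ∀ t ∈ contr M u v, x ∉ t := by
    intro t ht hxt
    rw [mem_contr_cx h.cx huv] at ht
    rcases ht.2 with h1 | ⟨-, h1⟩
    · exact hx t h1 hxt
    · exact hx _ h1 (mem_insert_of_mem (mem_erase.2 ⟨hxu, hxt⟩))
  have hst : ∀ s : Finset ℕ, x ∉ s → (insert x s ∈ stell (contr M u v) {u, q} x ↔
      ¬ ({u, q} : Finset ℕ) ⊆ s ∧ s ∪ {u, q} ∈ contr M u v) := by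
    intro s hs
    rw [mem_stell hN hxN, erase_insert hs]
    constructor
    · rintro (h1 | h1)
      · exact absurd (mem_insert_self x s) h1.1
      · exact h1.2
    · intro h1
      exact Or.inr ⟨mem_insert_self x s, h1⟩
  refine ⟨isCx_stell hN ⟨u, mem_insert_self _ _⟩ hxN, isCx_link h.cxK hq, ?_, ?_, ?_, ?_⟩
  · have h1 := (hst ∅ (notMem_empty x)).2 ⟨fun h2 => notMem_empty u (h2 (mem_insert_self _ _)), by
      rw [empty_union]
      exact edge_mem_contr h hu hq huq⟩
    exact h1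
  · intro s hs hxs
    exact hxV x (h.cxK.2 _ (hPK s hs) _ (singleton_subset_iff.2 hxs)) rfl
  · intro s hs
    have hs' : x ∉ s \ vert (link K {q}) := fun h1 => hs (mem_sdiff.1 h1).1
    rw [hst s hs, hst _ hs', Q25_D h hu hq huq hn, Q25_D h hu hq huq hn, Q25_key h.cxK hq hn (s ∩ vert K)]
    have e1 : ({u, q} : Finset ℕ) ⊆ s \ vert (link K {q}) ↔ ({u, q} : Finset ℕ) ⊆ s := by
      constructor
      · intro h1
        exact h1.trans sdiff_subset
      · intro h1 y hy
        refine mem_sdiff.2 ⟨h1 hy, ?_⟩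
        rw [mem_insert, mem_singleton] at hy
        rcases hy with rfl | rfl
        · exact huP
        · exact hqP
    have e2 : (v ∉ s \ vert (link K {q})) ↔ v ∉ s := by
      rw [mem_sdiff, not_and_not_right]
      constructor
      · intro h1 h2
        exact hvV (hPV (h1 h2))
      · intro h1 h2
        exact absurd h2 h1
    have e3 : (s \ vert (link K {q})) \ vert K = s \ vert K := by
      ext y
      simp only [mem_sdiff]
      exact ⟨fun h1 => ⟨h1.1.1, h1.2⟩, fun h1 => ⟨⟨h1.1, fun h2 => h1.2 (hPV h2)⟩, h1.2⟩⟩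
    have e4 : (s \ vert (link K {q})) ∩ vert K = (s ∩ vert K) \ vert (link K {q}) := by
      ext y
      simp only [mem_sdiff, mem_inter]
      tauto
    have e5 : s ∩ vert K ∩ vert (link K {q}) = s ∩ vert (link K {q}) := by
      ext y
      simp only [mem_inter]
      exact ⟨fun h1 => ⟨h1.1.1, h1.2⟩, fun h1 => ⟨⟨h1.1, hPV h1.2⟩, h1.2⟩⟩
    rw [e1, e2, e3, e4, e5]
    tauto
  · intro s hsM hxs hadj
    rw [mem_stell hN hxN] at hsM
    obtain ⟨hsN, hnot⟩ : s ∈ contr M u v ∧ ¬ ({u, q} : Finset ℕ) ⊆ s := by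
      rcases hsM with h1 | h1
      · exact h1.2
      · exact absurd h1.1 hxs
    have hvs : v ∉ s := ((mem_contr_cx h.cx huv).1 hsN).1
    have hy : ∀ y ∈ s, insert v (insert q (({y} : Finset ℕ).erase u)) ∈ M := by
      intro y hys
      have hxy : x ∉ ({y} : Finset ℕ) := by
        rw [mem_singleton]
        exact fun h1 => hxs (h1 ▸ hys)
      have h1 := hadj y hys
      rw [pair_comm y x] at h1
      exact ((Q25_union h hu hq huq hn {y}).1 ((hst {y} hxy).1 h1).2).2
    rw [hst s hxs]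
    refine ⟨hnot, (Q25_union h hu hq huq hn s).2 ⟨hvs, ?_⟩⟩
    set t : Finset ℕ := (s.erase u).erase q with ht
    have hts : ∀ y ∈ t, y ≠ q ∧ y ≠ u ∧ y ∈ s := by
      intro y hyt
      rw [ht, mem_erase, mem_erase] at hyt
      exact hyt
    have htN : t ∈ contr M u v := hN.2 _ hsN _ ((erase_subset _ _).trans (erase_subset _ _))
    have htM : t ∈ M := by
      rcases ((mem_contr_cx h.cx huv).1 htN).2 with h1 | h1
      · exact h1
      · exact absurd rfl (hts u h1.1).2.1
    have hvt : v ∉ t := fun h1 => hvs (hts v h1).2.2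
    have htri : ∀ y ∈ t, insert v ({y, q} : Finset ℕ) ∈ M := by
      intro y hyt
      have h1 := hy y (hts y hyt).2.2
      rw [erase_eq_of_notMem (by rw [mem_singleton]; exact fun h2 => (hts y hyt).2.1 h2.symm)] at h1
      rw [pair_comm y q]
      exact h1
    have hvtM : insert v t ∈ M := by
      refine h.ind t htM hvt fun y hyt => h.cx.2 _ (htri y hyt) _ ?_
      intro z hz
      rw [mem_insert, mem_singleton] at hz
      rw [mem_insert, mem_insert]
      rcases hz with hz | hz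
      · exact Or.inr (Or.inl hz)
      · exact Or.inl hz
    obtain ⟨h2, h3⟩ := (h.lj t hvt).1 hvtM
    have h4 : insert q (t ∩ vert K) ∈ K := by
      refine hind _ h3 fun y hyt => ?_
      rw [mem_inter] at hyt
      refine (h.face ?_).1 (htri y hyt.1)
      intro z hz
      rw [mem_insert, mem_singleton] at hz
      rcases hz with rfl | rfl
      · exact hyt.2
      · exact hqV
    have h5 : insert q (s.erase u) = insert q t := by
      rw [ht]
      ext y
      simp only [mem_insert, mem_erase]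
      tauto
    have h6 : v ∉ insert q t := by
      rw [mem_insert]
      rintro (h7 | h7)
      · exact hvV (h7 ▸ hqV)
      · exact hvt h7
    rw [h5, h.lj _ h6]
    have h7 : insert q t \ vert K = t \ vert K := by
      ext y
      simp only [mem_sdiff, mem_insert]
      constructor
      · rintro ⟨h8 | h8, h9⟩
        · exact absurd (h8 ▸ hqV) h9
        · exact ⟨h8, h9⟩
      · rintro ⟨h8, h9⟩
        exact ⟨Or.inr h8, h9⟩
    have h8 : insert q t ∩ vert K = insert q (t ∩ vert K) := insert_inter_of_mem hqV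
    rw [h7, h8]
    exact ⟨h2, h4⟩

end Pool.Agent.LibFlagPL

end

section

namespace Pool.Agent.LibFlagPL

open Finset

theorem StEq.symm' {K L : Fam} (h : StEq K L) : StEq L K := Relation.EqvGen.symm _ _ h

theorem StEq.trans' {K L M : Fam} (h : StEq K L) (h' : StEq L M) : StEq K M :=
  Relation.EqvGen.trans _ _ _ h h'

private theorem Q26_step {K : Fam} {E : Finset ℕ} {a : ℕ} (hK : IsCx K) (hE : E ∈ K)
    (h2 : 2 ≤ E.card) (ha : ∀ s ∈ K, a ∉ s) : StEq K (stell K E a) :=
  Relation.EqvGen.rel _ _ ⟨hK, Or.inr ⟨E, a, hE, h2, ha, rfl⟩⟩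

theorem stEq_contr {K : Fam} {u : ℕ} (h : RED K u) :
    ∀ (M : Fam) (v : ℕ), Amb M v K → StEq M (contr M u v) := by
  induction h with
  | @susp K u u' hK hu hu' huu hn hs =>
    intro M v hA
    have huv : u ≠ v := by
      intro h1
      exact hA.vK {u} hu (by rw [h1]; exact Finset.mem_singleton_self v)
    have e := eq_stell_contr hA hu hu' huu hn hs
    have h1 : StEq (contr M u v) (stell (contr M u v) {u, u'} v) :=
      Q26_step (isCx_contr hA.cx) (edge_mem_contr hA hu hu' huu)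
        (by rw [Finset.card_pair huu]) (fun s hs => ((mem_contr_cx hA.cx huv).1 hs).1)
    rw [← e] at h1
    exact h1.symm'
  | @step K u p q hK hu hpq hqu he hn hind _ _ ih1 ih2 =>
    intro M v hA
    have hp : ({p} : Finset ℕ) ∈ K :=
      hK.2 _ he _ (Finset.singleton_subset_iff.2 (Finset.mem_insert_self p {q}))
    have hq : ({q} : Finset ℕ) ∈ K :=
      hK.2 _ he _ (Finset.singleton_subset_iff.2
        (Finset.mem_insert_of_mem (Finset.mem_singleton_self q)))
    have hne : ∀ w : ℕ, ({w} : Finset ℕ) ∈ K → w ≠ v := by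
      intro w hw h1
      exact hA.vK {w} hw (by rw [h1]; exact Finset.mem_singleton_self v)
    have huv := hne u hu
    have hpv := hne p hp
    have hqv := hne q hq
    have hpu : p ≠ u := by
      intro h1
      rw [h1] at he
      exact hn he
    obtain ⟨x, hx0⟩ := Infinite.exists_notMem_finset (vert M ∪ {u, v, p, q})
    have hx : ∀ s ∈ M, x ∉ s := fun s hs h1 =>
      hx0 (Finset.mem_union_left _ (subset_vert hs h1))
    have hx1 : x ∉ ({u, v, p, q} : Finset ℕ) := fun h1 => hx0 (Finset.mem_union_right _ h1)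
    simp only [Finset.mem_insert, Finset.mem_singleton, not_or] at hx1
    obtain ⟨hxu, hxv, hxp, hxq⟩ := hx1
    have hvqM : ({v, q} : Finset ℕ) ∈ M := by
      rw [Finset.pair_comm]
      exact hA.edge hq
    have s1 : StEq M (stell M {v, q} x) :=
      Q26_step hA.cx hvqM (by rw [Finset.card_pair hqv.symm]) hx
    have s2 := ih1 _ x (Amb.one hA hq hind hx)
    have s3 := ih2 _ v (Amb.two hA hpq he hx)
    have hxN : ∀ s ∈ contr M u v, x ∉ s := by
      intro s hs h1
      rcases ((mem_contr_cx hA.cx huv).1 hs).2 with h2 | ⟨_, h2⟩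
      · exact hx s h2 h1
      · exact hx _ h2 (Finset.mem_insert_of_mem (Finset.mem_erase.2 ⟨hxu, h1⟩))
    have s4 : StEq (contr M u v) (stell (contr M u v) {u, q} x) :=
      Q26_step (isCx_contr hA.cx) (edge_mem_contr hA hu hq hqu.symm)
        (by rw [Finset.card_pair hqu.symm]) hxN
    have s5 := ih1 _ x (Amb.three hA hu hq hqu.symm hn hind hx)
    have e := contr_stell_swap hA.cx hx huv hqu.symm hqv.symm hpu hpv hpq hxu hxv hxp hxq
      (Amb.not_edge hA hu hq hn)
    rw [e] at s3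
    exact (((s1.trans' s2).trans' s3).trans' s5.symm').trans' s4.symm'

end Pool.Agent.LibFlagPL

end

section

namespace Pool.Agent.LibFlagPL

open Finset

private theorem Q27_link {M : Fam} {v : ℕ} (hM : IsCx M) {s : Finset ℕ} (hs : v ∉ s) :
    s ∈ link M {v} ↔ insert v s ∈ M := by
  rw [mem_link hM, Finset.disjoint_singleton_left, Finset.insert_eq]
  exact ⟨fun h => h.2, fun h => ⟨hs, h⟩⟩

private theorem Q27_sub {M : Fam} {v : ℕ} (hM : IsCx M) (hv : {v} ∈ M) {s : Finset ℕ}
    (hs : v ∉ s) (h : insert v s ∈ M) : s ⊆ vert (link M {v}) := by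
  intro y hy
  have hyv : v ∉ ({y} : Finset ℕ) := by
    rw [Finset.mem_singleton]
    rintro rfl
    exact hs hy
  rw [mem_vert (isCx_link hM hv), Q27_link hM hyv]
  refine hM.2 _ h _ ?_
  exact Finset.insert_subset_insert v (Finset.singleton_subset_iff.2 hy)

theorem Amb.of_flag {M : Fam} {v : ℕ} (hM : IsCx M) (hF : Flag M) (hv : {v} ∈ M) :
    Amb M v (link M {v}) := by
  refine ⟨hM, isCx_link hM hv, hv, ?_, ?_, ?_⟩
  · intro s hs
    rw [mem_link hM, Finset.disjoint_singleton_left] at hs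
    exact hs.1
  · intro s hs
    constructor
    · intro h
      have h1 := Q27_sub hM hv hs h
      rw [Finset.sdiff_eq_empty_iff_subset.2 h1, Finset.inter_eq_left.2 h1, Q27_link hM hs]
      exact ⟨by simpa using hv, h⟩
    · rintro ⟨h1, h2⟩
      have h3 : v ∉ s \ vert (link M {v}) := fun h => hs (Finset.mem_sdiff.1 h).1
      have h4 := Q27_sub hM hv h3 h1
      have h5 : s ⊆ vert (link M {v}) := by
        intro y hy
        by_contra h6
        exact h6 (h4 (Finset.mem_sdiff.2 ⟨hy, h6⟩))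
      rw [Finset.inter_eq_left.2 h5, Q27_link hM hs] at h2
      exact h2
  · intro s hs hvs h
    refine hF _ fun a ha b hb => ?_
    rcases Finset.mem_insert.1 ha with ha' | ha'
    · rcases Finset.mem_insert.1 hb with hb' | hb'
      · rw [ha', hb', Finset.pair_eq_singleton]
        exact hv
      · rw [ha', Finset.pair_comm]
        exact h b hb'
    · rcases Finset.mem_insert.1 hb with hb' | hb'
      · rw [hb']
        exact h a ha'
      · refine hM.2 _ hs _ ?_
        intro x hx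
        rcases Finset.mem_insert.1 hx with hx' | hx'
        · rw [hx']
          exact ha'
        · rw [Finset.mem_singleton] at hx'
          rw [hx']
          exact hb'

theorem stEq_contr_flag {M : Fam} {u v : ℕ} (hM : IsCx M) (hF : Flag M) (hv : {v} ∈ M)
    (h : RED (link M {v}) u) : StEq M (contr M u v) :=
  stEq_contr h M v (Amb.of_flag hM hF hv)

theorem SPL_of_contr {d : ℕ} {M : Fam} {u v : ℕ} (hM : IsCx M) (hF : Flag M) (hv : {v} ∈ M)
    (h : RED (link M {v}) u) (h' : SPL d (contr M u v)) : SPL d M :=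
  ⟨hM, h'.2.trans' (stEq_contr_flag hM hF hv h).symm'⟩

end Pool.Agent.LibFlagPL

end
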