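import Pool.Agent.LibFlagPL.GenC
import Pool.Agent.LibFlagPL.StellC
import Pool.Agent.LibFlagPL.SurfD

/-!
# LibFlagPL.StellD: from reductions of graphs to chains of contractions through PL spheres
-/

section

namespace Pool.Agent.LibFlagPL

open Finset

variable {N : ℕ}

theorem SW_Wc {G : SimpleGraph (Fin N)} (m : ℕ) : ∀ S : Finset (Fin N),
    SW (m + 1) (cxOf G S) → Wc G m S := by
  induction m using Nat.strong_induction_on with
  | _ m ih =>
    intro S h
    match m, ih, h with
    | 0, _, h =>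
      exact SW_one h
    | 1, _, h =>
      exact SW_circle h
    | 2, _, h =>
      exact SW_F2 h
    | m + 3, ih, h =>
      obtain ⟨_, h2, _, h4⟩ := h
      refine ⟨conn_of_connF' (h4 (by omega)), ?_⟩
      intro s hs
      refine ih (m + 2) (by omega) (nb G S s) ?_
      rw [← link_vertex_cxOf hs]
      exact h2 s.val (vertex_mem_cxOf.2 ⟨s, hs, rfl⟩)

end Pool.Agent.LibFlagPL

end

section

namespace Pool.Agent.LibFlagPL

open Finset

variable {N : ℕ}

private theorem Q28_cl {G : SimpleGraph (Fin N)} {σ : Finset (Fin N)} {u : Fin N} (h : Cl G σ)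
    (hu : ∀ t ∈ σ, t ≠ u → G.Adj u t) : Cl G (insert u σ) := by
  intro a ha b hb hab
  rcases Finset.mem_insert.1 ha with ha | ha <;> rcases Finset.mem_insert.1 hb with hb | hb
  · exact absurd (ha.trans hb.symm) hab
  · rw [ha]
    exact hu b hb (fun e => hab (ha.trans e.symm))
  · rw [hb]
    exact (hu a ha (fun e => hab (e.trans hb.symm))).symm
  · exact h a ha b hb hab

theorem RED_susp {G : SimpleGraph (Fin N)} {S : Finset (Fin N)} {u w : Fin N} (hu : u ∈ S)
    (hw : w ∈ S) (huw : u ≠ w) (hn : ¬ G.Adj u w)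
    (h : ∀ t ∈ S, t ≠ u → t ≠ w → G.Adj u t ∧ G.Adj w t) : RED (cxOf G S) u.val := by
  refine RED.susp (u' := w.val) (isCx_cxOf G S) (vertex_mem_cxOf.2 ⟨u, hu, rfl⟩) (vertex_mem_cxOf.2 ⟨w, hw, rfl⟩)
    (fun e => huw (Fin.ext e)) (fun h1 => hn ((edge_mem_cxOf huw).1 h1).2.2) ?_
  intro s hs hus hws
  obtain ⟨σ, h1, h2, rfl⟩ := mem_cxOf.1 hs
  have hus' : u ∉ σ := fun h3 => hus (P2b_val_mem.2 h3)
  have hws' : w ∉ σ := fun h3 => hws (P2b_val_mem.2 h3)
  constructor
  · rw [← P2b_image_insert, image_mem_cxOf]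
    refine ⟨Finset.insert_subset hu h1, Q28_cl h2 fun t ht htu => ?_⟩
    exact (h t (h1 ht) htu (fun e => hws' (by rw [← e]; exact ht))).1
  · rw [← P2b_image_insert, image_mem_cxOf]
    refine ⟨Finset.insert_subset hw h1, Q28_cl h2 fun t ht htw => ?_⟩
    exact (h t (h1 ht) (fun e => hus' (by rw [← e]; exact ht)) htw).2

theorem RED_step {G : SimpleGraph (Fin N)} {S : Finset (Fin N)} {u p q : Fin N} (hu : u ∈ S)
    (hg : GE G S p q) (hq : q ∉ insert u (nb G S u))
    (h1 : RED (cxOf G (nb G S q)) p.val)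
    (h2 : RED (cxOf (ctr G p q) (S.erase q)) u.val) : RED (cxOf G S) u.val := by
  have hqS : q ∈ S := hg.2.1
  have hpq : p ≠ q := hg.2.2.1.ne
  rw [Finset.mem_insert, not_or] at hq
  refine RED.step (p := p.val) (q := q.val) (isCx_cxOf G S) (vertex_mem_cxOf.2 ⟨u, hu, rfl⟩)
    (fun e => hpq (Fin.ext e)) (fun e => hq.1 (Fin.ext e)) ((edge_mem_cxOf hpq).2 ⟨hg.1, hqS, hg.2.2.1⟩)
    (fun h3 => ?_) ?_ ?_ ?_
  · have h4 := (edge_mem_cxOf (Ne.symm hq.1)).1 h3
    exact hq.2 (mem_nb.2 ⟨hqS, h4.2.2⟩)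
  · intro s hs hx
    refine flag_cxOf G S _ ?_
    intro a ha b hb
    rcases Finset.mem_insert.1 ha with ha | ha <;> rcases Finset.mem_insert.1 hb with hb | hb
    · rw [ha, hb, Finset.pair_eq_singleton]
      exact vertex_mem_cxOf.2 ⟨q, hqS, rfl⟩
    · rw [ha, Finset.pair_comm]
      exact hx b hb
    · rw [hb]
      exact hx a ha
    · refine (isCx_cxOf G S).2 s hs _ ?_
      intro y hy
      rcases Finset.mem_insert.1 hy with hy | hy
      · rw [hy]
        exact ha
      · rw [Finset.mem_singleton.1 hy]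
        exact hb
  · rw [link_vertex_cxOf hqS]
    exact h1
  · rw [contr_cxOf hg]
    exact h2

theorem RED_points {G : SimpleGraph (Fin N)} {S : Finset (Fin N)} {p : Fin N}
    (h : S.card = 2) (hn : ∀ a ∈ S, ∀ b ∈ S, ¬ G.Adj a b) (hp : p ∈ S) :
    RED (cxOf G S) p.val := by
  obtain ⟨q, hq, hqp⟩ := Finset.exists_mem_ne (by omega : 1 < S.card) p
  refine RED_susp hp hq (Ne.symm hqp) (hn p hp q hq) ?_
  intro t ht htp htq
  exfalso
  have h1 : ({t, p, q} : Finset (Fin N)) ⊆ S := by
    intro y hy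
    rw [Finset.mem_insert, Finset.mem_insert, Finset.mem_singleton] at hy
    rcases hy with hy | hy | hy
    · rw [hy]
      exact ht
    · rw [hy]
      exact hp
    · rw [hy]
      exact hq
  have h2 := Finset.card_le_card h1
  rw [Finset.card_insert_of_notMem, Finset.card_pair (Ne.symm hqp)] at h2
  · omega
  · rw [Finset.mem_insert, Finset.mem_singleton, not_or]
    exact ⟨htp, htq⟩

theorem RED_circle (n : ℕ) : ∀ (G : SimpleGraph (Fin N)) (C : Finset (Fin N)) (p : Fin N),
    C.card = n → Circle G C → p ∈ C → RED (cxOf G C) p.val := by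
  induction n with
  | zero =>
    intro G C p hc hC hp
    have := hC.1
    omega
  | succ n ih =>
    intro G C p hc hC hp
    by_cases h4 : C.card = 4
    · have ho := circle_oct1 hC h4
      obtain ⟨w, hw, hwp, hn, hall⟩ := ho p hp
      obtain ⟨w', hw', hww, hn', hall'⟩ := ho w hw
      refine RED_susp hp hw (Ne.symm hwp) hn ?_
      intro t ht htp htw
      refine ⟨hall t ht htp htw, ?_⟩
      have e : p = w' := by
        by_contra hne
        exact hn (hall' p hp (Ne.symm hwp) hne).symm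
      exact hall' t ht htw (by rw [← e]; exact htp)
    · have h5 : 5 ≤ C.card := by
        have := hC.1
        omega
      have hcn : (insert p (nb G C p)).card ≤ 3 := by
        have h1 := Finset.card_insert_le p (nb G C p)
        rw [hC.2.1 p hp] at h1
        exact h1
      obtain ⟨q, hq, hq'⟩ := Finset.exists_mem_notMem_of_card_lt_card (by omega : (insert p (nb G C p)).card < C.card)
      have hq2 := hq'
      rw [Finset.mem_insert, not_or] at hq2
      have hnr : (nb G C q).Nonempty := Finset.card_pos.1 (by rw [hC.2.1 q hq]; norm_num)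
      obtain ⟨r, hr⟩ := hnr
      have hr' := mem_nb.1 hr
      refine RED_step hp (circle_GE hC h5 hr'.1 hq hr'.2.symm) hq' ?_ ?_
      · refine RED_points (hC.2.1 q hq) ?_ hr
        intro a ha b hb hab
        exact hC.not_adj hq ha hb hab.ne hab
      · refine ih _ _ _ ?_ (circle_ctr hC h5 hr'.1 hq hr'.2.symm) ?_
        · rw [Finset.card_erase_of_mem hq]
          omega
        · exact Finset.mem_erase.2 ⟨Ne.symm hq2.1, hp⟩

end Pool.Agent.LibFlagPL

end

section

namespace Pool.Agent.LibFlagPL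

open Finset

variable {N : ℕ}

private theorem Q29_ge_symm {T : Type} {G : SimpleGraph T} {M : Finset T} {u v : T}
    (h : GE G M u v) : GE G M v u := by
  refine ⟨h.2.1, h.1, h.2.2.1.symm, ?_⟩
  intro w hw t ht hwv htu h1 h2 h3
  rcases h.2.2.2 t ht w hw htu hwv h3.symm h2.symm h1.symm with h4 | h4
  · exact Or.inr h4
  · exact Or.inl h4

theorem RED_F2 (n : ℕ) : ∀ (G : SimpleGraph (Fin N)) (S : Finset (Fin N)) (u : Fin N),
    S.card = n → F2 G S → u ∈ S → (nb G S u).card = 4 → RED (cxOf G S) u.val := by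
  induction n with
  | zero =>
    intro G S u hn h _ _
    have := h.six_le
    omega
  | succ n ih =>
    intro G S u hn h hu h4
    by_cases h7 : 7 ≤ S.card
    · obtain ⟨q, p, hg, hq⟩ := ii2 h hu h4 h7
      have hg' : GE G S p q := Q29_ge_symm hg
      have hpS : p ∈ S := hg.2.1
      have hqS : q ∈ S := hg.1
      have hqp : G.Adj q p := hg.2.2.1
      have hqu : q ≠ u := fun e => hq (Finset.mem_insert.2 (Or.inl e))
      have hnadj : ¬ G.Adj u q := fun e =>
        hq (Finset.mem_insert_of_mem (mem_nb.2 ⟨hqS, e⟩))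
      have hup : u ≠ p := by
        intro e
        apply hnadj
        rw [e]
        exact hqp.symm
      refine RED_step hu hg' hq
        (RED_circle _ G _ p rfl (h.2.1 q hqS) (mem_nb.2 ⟨hpS, hqp⟩)) ?_
      refine ih (ctr G p q) (S.erase q) u ?_ (h.ctr hg') (Finset.mem_erase.2 ⟨hqu.symm, hu⟩) ?_
      · rw [Finset.card_erase_of_mem hqS, hn]
        rfl
      · rw [nb_ctr_of_not_adj hup hqu.symm hnadj]
        exact h4
    · have h6 : S.card = 6 := by
        have := h.six_le
        omega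
      obtain ⟨w, hw, hwu, hnw, ht⟩ := h.antipode h6 hu
      exact RED_susp hu hw hwu.symm hnw ht

end Pool.Agent.LibFlagPL

end

section

namespace Pool.Agent.LibFlagPL

open Finset

variable {N : ℕ}

private theorem q30_dia {G G' : SimpleGraph (Fin N)} {O : Finset (Fin N)} {k : ℕ}
    (h : ∀ a ∈ O, ∀ b ∈ O, (G'.Adj a b ↔ G.Adj a b)) (hd : DIA G O k) : DIA G' O k := by
  refine ⟨hd.1, ?_, ?_⟩
  · intro x hx y hy z hz hyx hzx h1 h2
    rw [h x hx y hy] at h1
    rw [h x hx z hz] at h2
    exact hd.2.1 x hx y hy z hz hyx hzx h1 h2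
  · intro x hx
    obtain ⟨y, hy, h1, h2⟩ := hd.2.2 x hx
    refine ⟨y, hy, h1, ?_⟩
    rw [h x hx y hy]
    exact h2

private theorem q30_ge {G : SimpleGraph (Fin N)} {S : Finset (Fin N)} {a b : Fin N}
    (h : GE G S a b) : GE G S b a := by
  obtain ⟨h1, h2, h3, h4⟩ := h
  refine ⟨h2, h1, h3.symm, ?_⟩
  intro w hw t ht hwb hta hbw hwt htb
  exact (h4 t ht w hw hta hwb htb.symm hwt.symm hbw.symm).symm

theorem nb_ctr_dia {G : SimpleGraph (Fin N)} {S : Finset (Fin N)} {u p q : Fin N} {k : ℕ}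
    (hu : u ∈ S) (hg : GE G S p q) (hq : q ∉ insert u (nb G S u))
    (hd : DIA G (nb G S u) k) :
    DIA (ctr G p q) (nb (ctr G p q) (S.erase q) u) k := by
  have hqS : q ∈ S := hg.2.1
  rw [Finset.mem_insert, not_or] at hq
  have huq : u ≠ q := fun h => hq.1 h.symm
  have hnuq : ¬ G.Adj u q := fun h => hq.2 (mem_nb.2 ⟨hqS, h⟩)
  have hup : u ≠ p := by
    intro h
    rw [h] at hnuq
    exact hnuq hg.2.2.1
  rw [nb_ctr_of_not_adj hup huq hnuq]
  have key : ∀ a ∈ nb G S u, ∀ b ∈ nb G S u, a = p → a ≠ b → G.Adj q b → G.Adj a b := by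
    intro a ha b hb hap hab hqb
    obtain ⟨hb1, hb2⟩ := mem_nb.1 hb
    obtain ⟨ha1, ha2⟩ := mem_nb.1 ha
    rw [hap] at ha2 hab ⊢
    rcases hg.2.2.2 b hb1 u hu hab.symm huq hqb hb2.symm ha2 with h | h
    · exact h
    · exact absurd h.symm hnuq
  refine q30_dia ?_ hd
  intro a ha b hb
  constructor
  · rintro ⟨h1, h2, h3, h4 | h4 | h4⟩
    · exact h4
    · exact key a ha b hb h4.1 h1 h4.2
    · exact (key b hb a ha h4.1 h1.symm h4.2).symm
  · intro h
    refine ⟨h.ne, ?_, ?_, Or.inl h⟩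
    · rintro rfl
      exact hq.2 ha
    · rintro rfl
      exact hq.2 hb

theorem RED_zc
    (hI2 : ∀ (m : ℕ) (G : SimpleGraph (Fin N)) (S : Finset (Fin N)), Zc G (m + 3) S →
      I2m G S (m + 3))
    (hcon : ∀ (m : ℕ) (G : SimpleGraph (Fin N)) (S : Finset (Fin N)) (u v : Fin N),
      Zc G (m + 3) S → GE G S u v →
      DIA G (nb G S u ∩ nb G S v) (m + 2) ∧ Zc (ctr G u v) (m + 3) (S.erase v))
    (m : ℕ) : ∀ (n : ℕ) (G : SimpleGraph (Fin N)) (S : Finset (Fin N)) (u : Fin N),
    S.card = n → Zc G m S → u ∈ S → DIA G (nb G S u) m → RED (cxOf G S) u.val := by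
  induction m using Nat.strong_induction_on with
  | _ m IHm =>
    match m, IHm with
    | 0, _ =>
      intro n G S u _ hZ hu _
      exact RED_points hZ.1 hZ.2 hu
    | 1, _ =>
      intro n G S u hn hZ hu _
      exact RED_circle n G S u hn hZ hu
    | 2, _ =>
      intro n G S u hn hZ hu hd
      exact RED_F2 n G S u hn hZ hu hd.1
    | (m + 3), IHm =>
      intro n
      induction n using Nat.strong_induction_on with
      | _ n IHn =>
        intro G S u hn hZ hu hd
        by_cases hc : S.card = 2 * (m + 3) + 2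
        · obtain ⟨_, w, hw, hwu, hnw, hS, hwt⟩ := DIA.link (zc_dia_of_card hZ hc) hu
          refine RED_susp hu hw hwu.symm hnw ?_
          intro t ht htu htw
          rw [hS, Finset.mem_insert, Finset.mem_insert] at ht
          rcases ht with ht | ht | ht
          · exact absurd ht htu
          · exact absurd ht htw
          · exact ⟨(mem_nb.1 ht).2, hwt t ht⟩
        · have hge := Zc.card_ge hZ
          obtain ⟨q, p, hg0, hq⟩ := hI2 m G S hZ u hu hd (by omega)
          have hg : GE G S p q := q30_ge hg0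
          obtain ⟨hdd, hZ'⟩ := hcon m G S p q hZ hg
          have hqS : q ∈ S := hg.2.1
          have hpS : p ∈ S := hg.1
          have hpq : p ∈ nb G S q := mem_nb.2 ⟨hpS, hg.2.2.1.symm⟩
          have hnb : nb G (nb G S q) p = nb G S p ∩ nb G S q := by
            ext t
            rw [mem_nb, mem_nb, Finset.mem_inter, mem_nb, mem_nb]
            tauto
          have huq : u ≠ q := by
            intro h
            exact hq (Finset.mem_insert.2 (Or.inl h.symm))
          have h1 : RED (cxOf G (nb G S q)) p.val := by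
            refine IHm (m + 2) (by omega) _ G (nb G S q) p rfl (Zc.link hZ hqS) hpq ?_
            rw [hnb]
            exact hdd
          have hpos : 0 < S.card := Finset.card_pos.2 ⟨q, hqS⟩
          have h2 : RED (cxOf (ctr G p q) (S.erase q)) u.val := by
            refine IHn (S.card - 1) (by omega) (ctr G p q) (S.erase q) u ?_ hZ' ?_ ?_
            · exact Finset.card_erase_of_mem hqS
            · exact Finset.mem_erase.2 ⟨huq, hu⟩
            · exact nb_ctr_dia hu hg hq hd
          exact RED_step hu hg hq h1 h2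

end Pool.Agent.LibFlagPL

end

section

namespace Pool.Agent.LibFlagPL

open Finset

theorem SPL_iso {d : ℕ} {K L : Fam} (h : Iso K L) (hK : SPL d K) : SPL d L :=
  ⟨isCx_iso h hK.1, Relation.EqvGen.trans _ _ _ hK.2 (Relation.EqvGen.rel _ _ ⟨hK.1, Or.inl h⟩)⟩

private theorem Q31_mem_susp {K : Fam} {x y : ℕ} (hxy : x ≠ y) (hx : Fresh K x) (hy : Fresh K y)
    {s : Finset ℕ} : s ∈ susp K x y ↔ ¬ (x ∈ s ∧ y ∈ s) ∧ (s.erase x).erase y ∈ K := by
  rw [P4b_mem_susp]
  constructor
  · rintro (h | ⟨t, ht, rfl⟩ | ⟨t, ht, rfl⟩)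
    · refine ⟨fun h1 => hx s h h1.1, ?_⟩
      rw [Finset.erase_eq_of_notMem (hx s h), Finset.erase_eq_of_notMem (hy s h)]
      exact h
    · refine ⟨fun h1 => ?_, ?_⟩
      · rcases Finset.mem_insert.1 h1.2 with h2 | h2
        · exact hxy h2.symm
        · exact hy t ht h2
      · rw [Finset.erase_insert (hx t ht), Finset.erase_eq_of_notMem (hy t ht)]
        exact ht
    · refine ⟨fun h1 => ?_, ?_⟩
      · rcases Finset.mem_insert.1 h1.1 with h2 | h2
        · exact hxy h2
        · exact hx t ht h2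
      · rw [Finset.erase_right_comm, Finset.erase_insert (hy t ht),
          Finset.erase_eq_of_notMem (hx t ht)]
        exact ht
  · rintro ⟨h1, h2⟩
    by_cases hxs : x ∈ s
    · have hys : y ∉ s := fun h3 => h1 ⟨hxs, h3⟩
      right
      left
      rw [Finset.erase_eq_of_notMem (fun h3 => hys (Finset.mem_of_mem_erase h3))] at h2
      exact ⟨_, h2, Finset.insert_erase hxs⟩
    · rw [Finset.erase_eq_of_notMem hxs] at h2
      by_cases hys : y ∈ s
      · right
        right
        exact ⟨_, h2, Finset.insert_erase hys⟩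
      · left
        rw [Finset.erase_eq_of_notMem hys] at h2
        exact h2

theorem susp_stell {K : Fam} {E : Finset ℕ} {a x y : ℕ} (hK : IsCx K) (hEK : E ∈ K)
    (ha : ∀ s ∈ K, a ∉ s) (hxy : x ≠ y) (hx : Fresh K x) (hy : Fresh K y) (hxa : x ≠ a)
    (hya : y ≠ a) : susp (stell K E a) x y = stell (susp K x y) E a := by
  have hxE : x ∉ E := hx E hEK
  have hyE : y ∉ E := hy E hEK
  have hfr : ∀ z : ℕ, Fresh K z → z ≠ a → Fresh (stell K E a) z := by
    intro z hz hza s hs hzs
    rw [mem_stell hK ha] at hs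
    rcases hs with ⟨-, h1, -⟩ | ⟨-, -, h1⟩
    · exact hz s h1 hzs
    · exact hz _ h1 (Finset.mem_union_left _ (Finset.mem_erase.2 ⟨hza, hzs⟩))
  have ha' : ∀ s ∈ susp K x y, a ∉ s := by
    intro s hs has
    rw [Q31_mem_susp hxy hx hy] at hs
    exact ha _ hs.2 (Finset.mem_erase.2 ⟨hya.symm, Finset.mem_erase.2 ⟨hxa.symm, has⟩⟩)
  ext s
  rw [Q31_mem_susp hxy (hfr x hx hxa) (hfr y hy hya), mem_stell hK ha,
    mem_stell (isCx_susp hK x y) ha', Q31_mem_susp hxy hx hy, Q31_mem_susp hxy hx hy]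
  have e1 : a ∈ (s.erase x).erase y ↔ a ∈ s := by
    rw [Finset.mem_erase, Finset.mem_erase]
    exact ⟨fun h => h.2.2, fun h => ⟨hya.symm, hxa.symm, h⟩⟩
  have e2 : E ⊆ (s.erase x).erase y ↔ E ⊆ s := by
    constructor
    · intro h b hb
      exact (Finset.mem_erase.1 (Finset.mem_erase.1 (h hb)).2).2
    · intro h b hb
      exact Finset.mem_erase.2 ⟨fun h1 => hyE (h1 ▸ hb), Finset.mem_erase.2
        ⟨fun h1 => hxE (h1 ▸ hb), h hb⟩⟩
  have e3 : E ⊆ ((s.erase x).erase y).erase a ↔ E ⊆ s.erase a := by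
    constructor
    · intro h b hb
      have h1 := Finset.mem_erase.1 (h hb)
      exact Finset.mem_erase.2 ⟨h1.1, (Finset.mem_erase.1 (Finset.mem_erase.1 h1.2).2).2⟩
    · intro h b hb
      have h1 := Finset.mem_erase.1 (h hb)
      exact Finset.mem_erase.2 ⟨h1.1, Finset.mem_erase.2 ⟨fun h1 => hyE (h1 ▸ hb),
        Finset.mem_erase.2 ⟨fun h1 => hxE (h1 ▸ hb), h1.2⟩⟩⟩
  have e4 : ((s.erase x).erase y).erase a ∪ E = ((s.erase a ∪ E).erase x).erase y := by
    ext b
    simp only [Finset.mem_union, Finset.mem_erase]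
    constructor
    · rintro (⟨h1, h2, h3, h4⟩ | h1)
      · exact ⟨h2, h3, Or.inl ⟨h1, h4⟩⟩
      · exact ⟨fun h2 => hyE (h2 ▸ h1), fun h2 => hxE (h2 ▸ h1), Or.inr h1⟩
    · rintro ⟨h1, h2, ⟨h3, h4⟩ | h3⟩
      · exact Or.inl ⟨h3, h1, h2, h4⟩
      · exact Or.inr h3
  have e5 : (x ∈ s.erase a ∪ E ∧ y ∈ s.erase a ∪ E) ↔ (x ∈ s ∧ y ∈ s) := by
    simp only [Finset.mem_union, Finset.mem_erase]
    constructor
    · rintro ⟨h1, h2⟩
      exact ⟨h1.elim (fun h => h.2) (fun h => absurd h hxE),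
        h2.elim (fun h => h.2) (fun h => absurd h hyE)⟩
    · rintro ⟨h1, h2⟩
      exact ⟨Or.inl ⟨hxa, h1⟩, Or.inl ⟨hya, h2⟩⟩
  rw [e1, e2, e3, e4, e5]
  constructor
  · rintro ⟨h1, ⟨h2, h3, h4⟩ | ⟨h2, h3, h4⟩⟩
    · exact Or.inl ⟨h2, ⟨h1, h3⟩, h4⟩
    · exact Or.inr ⟨h2, h3, h1, h4⟩
  · rintro (⟨h2, ⟨h1, h3⟩, h4⟩ | ⟨h2, h3, h1, h4⟩)
    · exact ⟨h1, Or.inl ⟨h2, h3, h4⟩⟩
    · exact ⟨h1, Or.inr ⟨h2, h3, h4⟩⟩

private theorem Q31_bds_stell (d : ℕ) :
    stell (bds (d + 1)) (range (d + 1)) (d + 2) = susp (bds d) (d + 1) (d + 2) := by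
  have ha : ∀ s ∈ bds (d + 1), d + 2 ∉ s := by
    intro s hs h
    have h1 := (Finset.mem_ssubsets.1 hs).1 h
    rw [Finset.mem_range] at h1
    omega
  have hR : ∀ s : Finset ℕ, s ∈ bds (d + 1) ↔ s ⊆ range (d + 2) ∧ ¬ range (d + 2) ⊆ s := by
    intro s
    unfold bds
    rw [Finset.mem_ssubsets]
    rfl
  ext s
  rw [mem_stell (PLS_bds (d + 1)).isCx ha, hR, hR]
  unfold bds
  rw [P4b_mem_susp_bds (by omega) (by simp) (by simp)]
  have hins : ∀ b : ℕ, b ∈ insert (d + 1) (insert (d + 2) (range (d + 1))) ↔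
      b < d + 3 := by
    intro b
    rw [Finset.mem_insert, Finset.mem_insert, Finset.mem_range]
    omega
  constructor
  · rintro (⟨h1, ⟨h2, -⟩, h3⟩ | ⟨h1, h2, h3, h4⟩)
    · refine ⟨fun b hb => ?_, fun h => h1 h.2, h3⟩
      rw [hins]
      have := Finset.mem_range.1 (h2 hb)
      omega
    · refine ⟨fun b hb => ?_, fun h => h4 fun b hb => ?_, fun h => h2 fun b hb => ?_⟩
      · rw [hins]
        by_cases hb2 : b = d + 2
        · omega
        · have := Finset.mem_range.1 (h3 (Finset.mem_union_left _ (Finset.mem_erase.2 ⟨hb2, hb⟩)))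
          omega
      · have hb1 := Finset.mem_range.1 hb
        by_cases hb2 : b = d + 1
        · exact Finset.mem_union_left _ (Finset.mem_erase.2 ⟨by omega, hb2 ▸ h.1⟩)
        · exact Finset.mem_union_right _ (Finset.mem_range.2 (by omega))
      · have hb1 := Finset.mem_range.1 hb
        exact Finset.mem_erase.2 ⟨by omega, h hb⟩
  · rintro ⟨h1, h2, h3⟩
    by_cases hy : d + 2 ∈ s
    · right
      have hx : d + 1 ∉ s := fun h => h2 ⟨h, hy⟩
      have h4 : ∀ b ∈ s.erase (d + 2) ∪ range (d + 1), b < d + 1 := by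
        intro b hb
        rcases Finset.mem_union.1 hb with h | h
        · have h5 := Finset.mem_erase.1 h
          have h6 := (hins b).1 (h1 h5.2)
          have h7 : b ≠ d + 1 := fun h8 => hx (h8 ▸ h5.2)
          have h8 := h5.1
          omega
        · exact Finset.mem_range.1 h
      refine ⟨hy, fun h => h3 fun b hb => Finset.mem_of_mem_erase (h hb), fun b hb => ?_, fun h => ?_⟩
      · rw [Finset.mem_range]
        have := h4 b hb
        omega
      · have := h4 _ (h (Finset.mem_range.2 (show d + 1 < d + 2 by omega)))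
        omega
    · left
      refine ⟨hy, ⟨fun b hb => ?_, fun h => h3 fun b hb => h ?_⟩, h3⟩
      · rw [Finset.mem_range]
        have h4 := (hins b).1 (h1 hb)
        have h5 : b ≠ d + 2 := fun h => hy (h ▸ hb)
        omega
      · rw [Finset.mem_range] at hb ⊢
        omega

theorem SPL_susp_bds (d : ℕ) {x y : ℕ} (hxy : x ≠ y) (hx : Fresh (bds d) x)
    (hy : Fresh (bds d) y) : SPL (d + 1) (susp (bds d) x y) := by
  have hb : SPL (d + 1) (bds (d + 1)) := ⟨(PLS_bds (d + 1)).isCx, Relation.EqvGen.refl _⟩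
  rcases Nat.eq_zero_or_pos d with rfl | hd
  · have h0 : bds 1 = susp (bds 0) 0 1 := by decide
    have hf : ∀ z, Fresh (bds 0) z := by
      intro z s hs
      have h1 : bds 0 = {∅} := by decide
      rw [h1, Finset.mem_singleton] at hs
      rw [hs]
      exact Finset.notMem_empty _
    refine SPL_iso (K := bds 1) ?_ hb
    rw [h0]
    exact susp_iso (Iso.refl _) (by decide) hxy (hf 0) (hf 1) hx hy
  · have hf : ∀ z, d < z → Fresh (bds d) z := by
      intro z hz s hs h
      have h1 := (Finset.mem_ssubsets.1 hs).1 h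
      rw [Finset.mem_range] at h1
      omega
    have hst : SPL (d + 1) (susp (bds d) (d + 1) (d + 2)) := by
      refine ⟨isCx_susp (PLS_bds d).isCx _ _, Relation.EqvGen.rel _ _ ⟨hb.1, Or.inr
        ⟨range (d + 1), d + 2, ?_, ?_, ?_, (Q31_bds_stell d).symm⟩⟩⟩
      · unfold bds
        rw [Finset.mem_ssubsets]
        refine ⟨fun b hb => ?_, fun h => ?_⟩
        · rw [Finset.mem_range] at hb ⊢
          omega
        · have := Finset.mem_range.1 (h (Finset.mem_range.2 (show d + 1 < d + 1 + 1 by omega)))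
          omega
      · rw [Finset.card_range]
        omega
      · intro s hs h
        have h1 := (Finset.mem_ssubsets.1 hs).1 h
        rw [Finset.mem_range] at h1
        omega
    exact SPL_iso (susp_iso (Iso.refl _) (by omega) hxy (hf _ (by omega)) (hf _ (by omega)) hx hy) hst

end Pool.Agent.LibFlagPL

end

section

namespace Pool.Agent.LibFlagPL

open Finset

private def QS (d : ℕ) (K : Fam) : Prop :=
  ∀ x y, x ≠ y → Fresh K x → Fresh K y → SPL (d + 1) (susp K x y)

private theorem exists_two (K : Fam) (a : ℕ) :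
    ∃ x y : ℕ, x ≠ y ∧ Fresh K x ∧ Fresh K y ∧ x ≠ a ∧ y ≠ a := by
  obtain ⟨x, hx⟩ := Infinite.exists_notMem_finset (insert a (K.biUnion id))
  obtain ⟨y, hy⟩ := Infinite.exists_notMem_finset (insert x (insert a (K.biUnion id)))
  simp only [mem_insert, mem_biUnion, id, not_or, not_exists, not_and] at hx hy
  exact ⟨x, y, fun h => hy.1 h.symm, fun s hs => hx.2 s hs, fun s hs => hy.2.2 s hs, hx.1, hy.2.1⟩

private theorem QS_of_one {d : ℕ} {K : Fam} {x y : ℕ} (hxy : x ≠ y) (hx : Fresh K x)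
    (hy : Fresh K y) (h : SPL (d + 1) (susp K x y)) : QS d K := fun x' y' hxy' hx' hy' =>
  SPL_iso (susp_iso (Iso.refl K) hxy hxy' hx hy hx' hy') h

private theorem QS_iso {d : ℕ} {K L : Fam} (h : Iso K L) (hQ : QS d K) : QS d L := by
  intro x y hxy hx hy
  obtain ⟨x', y', hxy', hx', hy', -, -⟩ := exists_two K 0
  exact SPL_iso (susp_iso h hxy' hxy hx' hy' hx hy) (hQ x' y' hxy' hx' hy')

private theorem fresh_stell {K : Fam} {E : Finset ℕ} {a x : ℕ} (hx : Fresh K x) (hxa : x ≠ a) :
    Fresh (stell K E a) x := by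
  intro s hs
  unfold stell at hs
  rw [mem_union, mem_image] at hs
  rcases hs with hs | ⟨t, ht, rfl⟩
  · exact hx s (mem_filter.1 hs).1
  · rw [mem_insert]
    rintro (h | h)
    · exact hxa h
    · exact hx t (mem_filter.1 ht).1 h

private theorem QS_stell {d : ℕ} {K : Fam} {E : Finset ℕ} {a : ℕ} (hK : IsCx K) (hEK : E ∈ K)
    (hE : 2 ≤ E.card) (ha : ∀ s ∈ K, a ∉ s) : QS d K ↔ QS d (stell K E a) := by
  obtain ⟨x, y, hxy, hx, hy, hxa, hya⟩ := exists_two K a
  have hEne : E.Nonempty := by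
    rw [← Finset.card_pos]; omega
  have hL : IsCx (stell K E a) := isCx_stell hK hEne ha
  have e1 : susp (stell K E a) x y = stell (susp K x y) E a :=
    susp_stell hK hEK ha hxy hx hy hxa hya
  have hst : StStep (susp K x y) (susp (stell K E a) x y) := by
    refine ⟨isCx_susp hK x y, Or.inr ⟨E, a, P4_mem_susp.2 (Or.inl hEK), hE, ?_, e1⟩⟩
    intro s hs
    rw [P4_mem_susp] at hs
    rcases hs with hs | ⟨t, ht, rfl⟩ | ⟨t, ht, rfl⟩
    · exact ha s hs
    · rw [mem_insert]
      rintro (h | h)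
      · exact hxa h.symm
      · exact ha t ht h
    · rw [mem_insert]
      rintro (h | h)
      · exact hya h.symm
      · exact ha t ht h
  have hx' : Fresh (stell K E a) x := fresh_stell hx hxa
  have hy' : Fresh (stell K E a) y := fresh_stell hy hya
  constructor
  · intro hQ
    obtain ⟨_, h2⟩ := hQ x y hxy hx hy
    exact QS_of_one hxy hx' hy' ⟨isCx_susp hL x y,
      Relation.EqvGen.trans _ _ _ h2 (Relation.EqvGen.rel _ _ hst)⟩
  · intro hQ
    obtain ⟨_, h2⟩ := hQ x y hxy hx' hy'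
    exact QS_of_one hxy hx hy ⟨isCx_susp hK x y,
      Relation.EqvGen.trans _ _ _ h2 (Relation.EqvGen.symm _ _ (Relation.EqvGen.rel _ _ hst))⟩

private theorem QS_eqv {d : ℕ} {K L : Fam} (h : Relation.EqvGen StStep K L) :
    QS d K ↔ QS d L := by
  induction h with
  | rel K L h =>
    obtain ⟨hK, h | ⟨E, a, hEK, hE, ha, rfl⟩⟩ := h
    · exact ⟨QS_iso h, QS_iso (Iso.symm h)⟩
    · exact QS_stell hK hEK hE ha
  | refl K => exact Iff.rfl
  | symm K L _ ih => exact ih.symm
  | trans K L M _ _ ih1 ih2 => exact ih1.trans ih2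

theorem SPL_susp {d : ℕ} {K : Fam} (h : SPL d K) {x y : ℕ} (hxy : x ≠ y) (hx : Fresh K x)
    (hy : Fresh K y) : SPL (d + 1) (susp K x y) :=
  (QS_eqv h.2).1 (fun _ _ h1 h2 h3 => SPL_susp_bds d h1 h2 h3) x y hxy hx hy

theorem SPL_cross (d : ℕ) : SPL d (cross d) := by
  induction d with
  | zero =>
    have e : cross 0 = bds 0 := by decide
    have hc : IsCx (cross 0) := by
      have e2 : cross 0 = {∅} := by decide
      rw [e2]
      refine ⟨mem_singleton_self _, ?_⟩
      intro s hs t ht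
      rw [mem_singleton] at hs ⊢
      rw [hs] at ht
      exact Finset.subset_empty.1 ht
    refine ⟨hc, ?_⟩
    rw [e]
    exact Relation.EqvGen.refl _
  | succ d ih =>
    rw [cross_succ]
    have hf : ∀ x, 2 * d ≤ x → Fresh (cross d) x := by
      intro x hx s hs hxs
      have h1 := (mem_powerset.1 (mem_filter.1 hs).1) hxs
      rw [mem_range] at h1
      omega
    exact SPL_susp ih (by omega) (hf _ le_rfl) (hf _ (by omega))

end Pool.Agent.LibFlagPL

end

section

namespace Pool.Agent.LibFlagPL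

open Finset

variable {N : ℕ}

theorem DIA.iso {G : SimpleGraph (Fin N)} {O : Finset (Fin N)} {k : ℕ} (h : DIA G O k) :
    Iso (cross k) (cxOf G O) := by
  refine iso_cross h.1 ?_
  intro v hv
  obtain ⟨w, hw, hwv, hn⟩ := h.2.2 v hv
  refine ⟨w, hw, hwv, hn, ?_⟩
  intro t ht htv htw
  by_contra hc
  exact htw (h.2.1 v hv t ht w hw htv hwv hc hn)

theorem SReduces.spl {d : ℕ} {K : Fam} (h : SReduces d K) : SPL d K := by
  cases h with
  | base _ h2 _ => exact h2
  | step _ h2 _ _ _ _ => exact h2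

theorem sreduces_of_RedM
    (hI2 : ∀ (m : ℕ) (G : SimpleGraph (Fin N)) (S : Finset (Fin N)), Zc G (m + 3) S →
      I2m G S (m + 3))
    (hcon : ∀ (m : ℕ) (G : SimpleGraph (Fin N)) (S : Finset (Fin N)) (u v : Fin N),
      Zc G (m + 3) S → GE G S u v →
      DIA G (nb G S u ∩ nb G S v) (m + 2) ∧ Zc (ctr G u v) (m + 3) (S.erase v))
    {G : SimpleGraph (Fin N)} {M : Finset (Fin N)} {m : ℕ} (h : RedM G M m) :
    SReduces (m + 4) (cxOf G M) := by
  induction h with
  | base h =>
    exact SReduces.base (flag_cxOf _ _) (SPL_iso h.iso (SPL_cross _)) h.iso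
  | @step G M m u v hM hg hl h ih =>
    have hu : u ∈ M := hg.1
    have hv : v ∈ M := hg.2.1
    have huv : G.Adj u v := hg.2.2.1
    have hc := contr_cxOf hg
    rw [← hc] at ih
    have e1 : nb G (nb G M v) u = nb G M u ∩ nb G M v := by
      ext t
      rw [Finset.mem_inter, P2b_mem_nb, P2b_mem_nb, P2b_mem_nb]
      tauto
    have hR : RED (link (cxOf G M) {v.val}) u.val := by
      rw [link_vertex_cxOf hv]
      refine RED_zc hI2 hcon (m + 2) _ G (nb G M v) u rfl (hM.link hv) ?_ ?_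
      · exact P2b_mem_nb.2 ⟨hu, huv.symm⟩
      · rw [e1]
        exact hl
    have hv' : ({v.val} : Finset ℕ) ∈ cxOf G M := vertex_mem_cxOf.2 ⟨v, hv, rfl⟩
    have hS : SPL (m + 4) (cxOf G M) := SPL_of_contr (isCx_cxOf G M) (flag_cxOf G M) hv' hR ih.spl
    refine SReduces.step (flag_cxOf G M) hS (fun hh => huv.ne (Fin.ext hh))
      ((edge_mem_cxOf huv.ne).2 ⟨hu, hv, huv⟩) ?_ ih
    have e2 : ({u, v} : Finset (Fin N)).image Fin.val = {u.val, v.val} := by
      rw [Finset.image_insert, Finset.image_singleton]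
    have e3 : cn G M {u, v} = nb G M u ∩ nb G M v := by
      ext t
      rw [P2b_mem_cn, Finset.mem_inter, P2b_mem_nb, P2b_mem_nb]
      simp only [Finset.mem_insert, Finset.mem_singleton, forall_eq_or_imp, forall_eq]
      tauto
    have h1 : ({u, v} : Finset (Fin N)) ⊆ M := by
      intro x hx
      rw [Finset.mem_insert, Finset.mem_singleton] at hx
      rcases hx with rfl | rfl
      · exact hu
      · exact hv
    have h2 : Cl G ({u, v} : Finset (Fin N)) := by
      intro x hx y hy hxy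
      rw [Finset.mem_insert, Finset.mem_singleton] at hx hy
      rcases hx with rfl | rfl <;> rcases hy with rfl | rfl
      · exact absurd rfl hxy
      · exact huv
      · exact huv.symm
      · exact absurd rfl hxy
    rw [← e2, link_cxOf h1 h2, e3]
    have e4 : m + 4 - 2 = m + 2 := by omega
    rw [e4]
    exact hl.iso

end Pool.Agent.LibFlagPL

end
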