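import Pool.Agent.LibFlagPL.Conv
import Pool.Agent.LibFlagPL.GalB
import Pool.Agent.LibFlagPL.PrimeA
import Pool.Agent.LibFlagPL.StellD

/-!
# LibFlagPL.Main: the theorem
-/

namespace Pool.Agent.LibFlagPL

open Finset Pool.Agent.LibGal41

section

variable {T : Type} [Fintype T] [DecidableEq T]

theorem wc_conn {G : SimpleGraph T} {m : ℕ} {S : Finset T} (h : Wc G (m + 1) S) : Conn G S := by
  match m, h with
  | 0, h =>
    have h' : Circle G S := h
    exact h'.2.2
  | 1, h =>
    have h' : F2 G S := h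
    exact h'.1
  | m + 2, h => exact h.1

theorem wc_link {G : SimpleGraph T} {m : ℕ} {S : Finset T} (h : Wc G (m + 1) S) {s : T}
    (hs : s ∈ S) : Wc G m (nb G S s) := by
  match m, h with
  | 0, h =>
    have h' : Circle G S := h
    refine ⟨h'.2.1 s hs, fun a ha b hb hadj => ?_⟩
    exact h'.not_adj hs ha hb hadj.ne hadj
  | 1, h =>
    have h' : F2 G S := h
    exact h'.2.1 s hs
  | m + 2, h => exact h.2 s hs

theorem wc_dp {G : SimpleGraph T} (m : ℕ) : ∀ S : Finset T, Wc G m S → DP G m S := by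
  induction m with
  | zero => exact fun S h => h
  | succ m ih => exact fun S h => ⟨wc_conn h, fun v hv => ih _ (wc_link h hv)⟩

theorem zc_of_g2 {G : SimpleGraph T} (m : ℕ) : ∀ S : Finset T, Wc G (m + 3) S →
    g2 G (m + 3) S = 0 → Zc G (m + 3) S := by
  induction m with
  | zero =>
    intro S h h0
    have hF : F3 G S := h
    refine zc_three_iff.2 ⟨hF, ?_⟩
    have h1 : ∑ s ∈ S, (faces G (nb G S s) 1).card = 2 * (faces G S 2).card := sum_faces_nb 1
    have h2 : ∑ s ∈ S, (faces G (nb G S s) 1).card = ∑ s ∈ S, (nb G S s).card :=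
      Finset.sum_congr rfl (fun s _ => card_faces_one)
    rw [h2] at h1
    have h3 := hF.chi_eq
    unfold g2 ee at h0
    have h4 : (∑ s ∈ S, ((nb G S s).card : ℤ)) = 2 * ((faces G S 2).card : ℤ) := by
      rw [← Nat.cast_sum, h1]
      push_cast
      ring
    rw [h4] at h0
    have h5 : ((faces G S 2).card : ℤ) = 5 * (S.card : ℤ) - 16 := by
      push_cast at h0
      linarith
    have h6 : ((faces G S 2).card : ℚ) = 5 * (S.card : ℚ) - 16 := by exact_mod_cast h5
    rw [h6] at h3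
    linarith
  | succ m ih =>
    intro S h h0
    have hsd : Sd G (m + 3 + 1) S := (wc_dp _ S h).sd
    refine zc_of_edges (wc_conn h) (fun s hs => ?_) ?_
    · refine ih _ (wc_link h hs) (le_antisymm ?_ (gal2_nonneg (hsd.2 s hs).1))
      have h1 := gal2_link hsd hs
      have h2 : g2 G (m + 3 + 1) S = 0 := h0
      rw [h2] at h1
      exact h1
    · unfold g2 ee at h0
      have h1 : ((∑ s ∈ S, (nb G S s).card : ℕ) : ℤ) + 4 * ((m : ℤ) + 3) * ((m : ℤ) + 5) =
          (4 * (m : ℤ) + 14) * (S.card : ℤ) := by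
        push_cast at h0 ⊢
        linarith
      exact_mod_cast h1

end

/-- Q1 of Lutz and Nevo in all dimensions: flag PL spheres of dimension `d - 1 ≥ 3` with
`gamma_2 = 0` reduce to the cross-polytope -/
theorem main_gamma2 {d : ℕ} (hd : 4 ≤ d) {K : Fam} (h1 : Flag K) (h2 : SPL d K) {g : ℕ → ℤ}
    (h3 : IsGamma d K g) (h4 : g 2 = 0) : SReduces d K := by
  obtain ⟨m, rfl⟩ : ∃ m, d = m + 4 := ⟨d - 4, by omega⟩
  have hSW : SW (m + 4) K := SW_of_SPL h2
  obtain ⟨N, G, S, hK⟩ := exists_cxOf h2.1 h1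
  subst hK
  have hW : Wc G (m + 3) S := SW_Wc (m + 3) S hSW
  have h5 : fnum (cxOf G S) 0 = 1 := by
    rw [fnum_cxOf, faces_zero, card_singleton]
  have h6 := gamma_two (d := m + 4) (by omega) h5 h3
  rw [h4, fnum_cxOf, fnum_cxOf, card_faces_one] at h6
  have h7 : ∑ s ∈ S, (faces G (nb G S s) 1).card = 2 * (faces G S 2).card := sum_faces_nb 1
  have h8 : ∑ s ∈ S, (faces G (nb G S s) 1).card = ∑ s ∈ S, (nb G S s).card :=
    Finset.sum_congr rfl (fun s _ => card_faces_one)
  rw [h8] at h7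
  have h9 : (∑ s ∈ S, ((nb G S s).card : ℤ)) = 2 * ((faces G S 2).card : ℤ) := by
    rw [← Nat.cast_sum, h7]
    push_cast
    ring
  have hg : g2 G (m + 3) S = 0 := by
    unfold g2 ee
    rw [h9]
    push_cast at h6 ⊢
    linarith
  have hZ : Zc G (m + 3) S := zc_of_g2 m S hW hg
  have hR : RedM G S m := gred dHypG nHypG baseZ m S.card G S rfl hZ
  exact sreduces_of_RedM (fun m G S h => (gclaim dHypG nHypG baseZ G m S h).2)
    (fun m G S u v h hg => gcon dHypG h hg) hR

/-- full form -/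
theorem main_gamma2_iff {d : ℕ} (hd : 4 ≤ d) {K : Fam} (h1 : Flag K) (h2 : SPL d K) {g : ℕ → ℤ}
    (h3 : IsGamma d K g) : SReduces d K ↔ g 2 = 0 :=
  ⟨fun h => gamma_zero_of_SReduces hd h h3 2 le_rfl (by omega), main_gamma2 hd h1 h2 h3⟩

end Pool.Agent.LibFlagPL
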