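import Pool.Agent.LibFlagPL.Graphs

/-!
# LibFlagPL.SideA: sides of induced spheres, first part
-/

section

namespace Pool.Agent.LibFlagPL

open Finset

set_option linter.unusedSectionVars false

variable {T : Type} [Fintype T] [DecidableEq T]

variable {T' : Type} [Fintype T'] [DecidableEq T']

private theorem O01_mem {V : Type} [Fintype V] [DecidableEq V] {G : SimpleGraph V} {S : Finset V} {y t : V} :
    t ∈ LibFlagPL.nb G S y ↔ t ∈ S ∧ G.Adj y t := by
  classical
  rw [LibFlagPL.nb, Finset.mem_filter]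

theorem Emb.mono {G : SimpleGraph T} {S A : Finset T} {G' : SimpleGraph T'} {φ : T → T'}
    (h : Emb G S G' φ) (hA : A ⊆ S) : Emb G A G' φ :=
  ⟨fun s hs t ht => h.1 s (hA hs) t (hA ht), fun s hs t ht => h.2 s (hA hs) t (hA ht)⟩

theorem Emb.card {G : SimpleGraph T} {S : Finset T} {G' : SimpleGraph T'} {φ : T → T'}
    (h : Emb G S G' φ) : (S.image φ).card = S.card :=
  Finset.card_image_of_injOn fun s hs t ht hst => h.1 s hs t ht hst

theorem Emb.nb {G : SimpleGraph T} {S : Finset T} {G' : SimpleGraph T'} {φ : T → T'}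
    (h : Emb G S G' φ) {s : T} (hs : s ∈ S) :
    LibFlagPL.nb G' (S.image φ) (φ s) = (LibFlagPL.nb G S s).image φ := by
  ext x
  rw [O01_mem, Finset.mem_image, Finset.mem_image]
  constructor
  · rintro ⟨⟨t, ht, rfl⟩, h1⟩
    exact ⟨t, O01_mem.mpr ⟨ht, (h.2 s hs t ht).mp h1⟩, rfl⟩
  · rintro ⟨t, ht, rfl⟩
    obtain ⟨ht1, ht2⟩ := O01_mem.mp ht
    exact ⟨⟨t, ht1, rfl⟩, (h.2 s hs t ht1).mpr ht2⟩

private theorem O01_chain {G : SimpleGraph T} {S : Finset T} {G' : SimpleGraph T'} {φ : T → T'}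
    (h : Emb G S G' φ) {x y : T}
    (hxy : Relation.ReflTransGen (fun a b => a ∈ S ∧ b ∈ S ∧ G.Adj a b) x y) :
    Relation.ReflTransGen (fun a b => a ∈ S.image φ ∧ b ∈ S.image φ ∧ G'.Adj a b) (φ x) (φ y) := by
  induction hxy with
  | refl => exact Relation.ReflTransGen.refl
  | tail _ h1 ih =>
    exact ih.tail ⟨Finset.mem_image_of_mem φ h1.1, Finset.mem_image_of_mem φ h1.2.1,
      (h.2 _ h1.1 _ h1.2.1).mpr h1.2.2⟩

theorem Emb.conn {G : SimpleGraph T} {S : Finset T} {G' : SimpleGraph T'} {φ : T → T'}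
    (h : Emb G S G' φ) (hc : Conn G S) : Conn G' (S.image φ) := by
  refine ⟨hc.1.image φ, ?_⟩
  intro x hx y hy
  obtain ⟨s, hs, rfl⟩ := Finset.mem_image.mp hx
  obtain ⟨t, ht, rfl⟩ := Finset.mem_image.mp hy
  exact O01_chain h (hc.2 s hs t ht)

theorem Emb.circle {G : SimpleGraph T} {S : Finset T} {G' : SimpleGraph T'} {φ : T → T'}
    (h : Emb G S G' φ) (hc : Circle G S) : Circle G' (S.image φ) := by
  refine ⟨?_, ?_, h.conn hc.2.2⟩
  · rw [h.card]
    exact hc.1
  · intro x hx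
    obtain ⟨s, hs, rfl⟩ := Finset.mem_image.mp hx
    have hsub : LibFlagPL.nb G S s ⊆ S := fun t ht => (O01_mem.mp ht).1
    rw [h.nb hs, (h.mono hsub).card]
    exact hc.2.1 s hs

theorem Emb.f2 {G : SimpleGraph T} {S : Finset T} {G' : SimpleGraph T'} {φ : T → T'}
    (h : Emb G S G' φ) (hc : F2 G S) : F2 G' (S.image φ) := by
  have hsub : ∀ s, LibFlagPL.nb G S s ⊆ S := fun s t ht => (O01_mem.mp ht).1
  refine ⟨h.conn hc.1, ?_, ?_⟩
  · intro x hx
    obtain ⟨s, hs, rfl⟩ := Finset.mem_image.mp hx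
    rw [h.nb hs]
    exact (h.mono (hsub s)).circle (hc.2.1 s hs)
  · rw [h.card, ← hc.2.2, Finset.sum_image (fun s hs t ht hst => h.1 s hs t ht hst)]
    congr 1
    refine Finset.sum_congr rfl fun s hs => ?_
    rw [h.nb hs, (h.mono (hsub s)).card]

theorem Emb.f3 {G : SimpleGraph T} {S : Finset T} {G' : SimpleGraph T'} {φ : T → T'}
    (h : Emb G S G' φ) (hc : F3 G S) : F3 G' (S.image φ) := by
  have hsub : ∀ s, LibFlagPL.nb G S s ⊆ S := fun s t ht => (O01_mem.mp ht).1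
  refine ⟨h.conn hc.1, ?_⟩
  intro x hx
  obtain ⟨s, hs, rfl⟩ := Finset.mem_image.mp hx
  rw [h.nb hs]
  exact (h.mono (hsub s)).f2 (hc.2 s hs)

end Pool.Agent.LibFlagPL

end

section

namespace Pool.Agent.LibFlagPL

open Finset

set_option linter.unusedSectionVars false

variable {T : Type} [Fintype T] [DecidableEq T]

theorem Agr.mono {G G' : SimpleGraph T} {S A : Finset T} (h : Agr G G' S) (hA : A ⊆ S) :
    Agr G G' A :=
  fun s hs t ht => h s (hA hs) t (hA ht)

theorem Agr.symm {G G' : SimpleGraph T} {S : Finset T} (h : Agr G G' S) : Agr G' G S :=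
  fun s hs t ht => (h s hs t ht).symm

theorem Agr.nb {G G' : SimpleGraph T} {S : Finset T} (h : Agr G G' S) {s : T} (hs : s ∈ S) :
    LibFlagPL.nb G' S s = LibFlagPL.nb G S s := by
  ext t
  rw [mem_nb, mem_nb]
  constructor
  · rintro ⟨h1, h2⟩
    exact ⟨h1, (h s hs t h1).2 h2⟩
  · rintro ⟨h1, h2⟩
    exact ⟨h1, (h s hs t h1).1 h2⟩

theorem Agr.cl {G G' : SimpleGraph T} {S σ : Finset T} (h : Agr G G' S) (hσ : σ ⊆ S) :
    Cl G' σ ↔ Cl G σ :=
  ⟨fun h1 s hs t ht hst => (h s (hσ hs) t (hσ ht)).2 (h1 s hs t ht hst),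
    fun h1 s hs t ht hst => (h s (hσ hs) t (hσ ht)).1 (h1 s hs t ht hst)⟩

theorem Agr.faces {G G' : SimpleGraph T} {S : Finset T} (h : Agr G G' S) (j : ℕ) :
    LibFlagPL.faces G' S j = LibFlagPL.faces G S j := by
  ext σ
  rw [mem_faces, mem_faces]
  constructor
  · rintro ⟨h1, h2, h3⟩
    exact ⟨h1, (Agr.cl h h1).1 h2, h3⟩
  · rintro ⟨h1, h2, h3⟩
    exact ⟨h1, (Agr.cl h h1).2 h2, h3⟩

theorem Agr.chi {G G' : SimpleGraph T} {S : Finset T} (h : Agr G G' S) :
    LibFlagPL.chi G' S = LibFlagPL.chi G S := by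
  classical
  unfold LibFlagPL.chi
  exact Finset.sum_congr (Finset.filter_congr fun σ hσ => Agr.cl h (Finset.mem_powerset.1 hσ))
    (fun _ _ => rfl)

theorem Agr.conn {G G' : SimpleGraph T} {S : Finset T} (h : Agr G G' S) (hc : Conn G S) :
    Conn G' S :=
  ⟨hc.1, fun x hx y hy => Relation.ReflTransGen.mono
    (fun a b hab => ⟨hab.1, hab.2.1, (h a hab.1 b hab.2.1).1 hab.2.2⟩) x y (hc.2 x hx y hy)⟩

theorem Agr.circle {G G' : SimpleGraph T} {S : Finset T} (h : Agr G G' S) (hc : Circle G S) :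
    Circle G' S := by
  refine ⟨hc.1, fun t ht => ?_, Agr.conn h hc.2.2⟩
  rw [Agr.nb h ht]
  exact hc.2.1 t ht

theorem Agr.f2 {G G' : SimpleGraph T} {S : Finset T} (h : Agr G G' S) (hc : F2 G S) :
    F2 G' S := by
  refine ⟨Agr.conn h hc.1, fun s hs => ?_, ?_⟩
  · rw [Agr.nb h hs]
    exact Agr.circle (Agr.mono h nb_subset) (hc.2.1 s hs)
  · rw [Finset.sum_congr rfl (fun s hs => by rw [Agr.nb h hs] :
      ∀ s ∈ S, (LibFlagPL.nb G' S s).card = (LibFlagPL.nb G S s).card)]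
    exact hc.2.2

theorem Agr.f3 {G G' : SimpleGraph T} {S : Finset T} (h : Agr G G' S) (hc : F3 G S) :
    F3 G' S := by
  refine ⟨Agr.conn h hc.1, fun s hs => ?_⟩
  rw [Agr.nb h hs]
  exact Agr.f2 (Agr.mono h nb_subset) (hc.2 s hs)

end Pool.Agent.LibFlagPL

end

section

namespace Pool.Agent.LibFlagPL

open Finset

set_option linter.unusedSectionVars false

variable {T : Type} [Fintype T] [DecidableEq T]

private theorem O03_mem_nb {G : SimpleGraph T} {S : Finset T} {y t : T} :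
    t ∈ nb G S y ↔ t ∈ S ∧ G.Adj y t := by
  simp only [nb, Finset.mem_filter]

private theorem O03_mem_cn {G : SimpleGraph T} {S σ : Finset T} {t : T} :
    t ∈ cn G S σ ↔ t ∈ S ∧ ∀ s ∈ σ, G.Adj s t := by
  simp only [cn, Finset.mem_filter]

private theorem O03_mem_faces {G : SimpleGraph T} {S σ : Finset T} {j : ℕ} :
    σ ∈ faces G S j ↔ σ ⊆ S ∧ Cl G σ ∧ σ.card = j := by
  simp only [faces, Finset.mem_filter, Finset.mem_powerset]

private theorem O03_erase {G : SimpleGraph T} {S σ : Finset T} {m : ℕ} {s : T}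
    (hσ : σ ∈ faces G S (m + 1)) (hs : s ∈ σ) : σ.erase s ∈ faces G (nb G S s) m := by
  obtain ⟨h1, h2, h3⟩ := O03_mem_faces.1 hσ
  refine O03_mem_faces.2 ⟨fun t ht => ?_, fun a ha b hb hab => ?_, ?_⟩
  · obtain ⟨hts, ht⟩ := Finset.mem_erase.1 ht
    exact O03_mem_nb.2 ⟨h1 ht, h2 s hs t ht (Ne.symm hts)⟩
  · exact h2 a (Finset.mem_of_mem_erase ha) b (Finset.mem_of_mem_erase hb) hab
  · rw [Finset.card_erase_of_mem hs, h3]
    rfl

private theorem O03_insert {G : SimpleGraph T} {S τ : Finset T} {m : ℕ} {s : T} (hs : s ∈ S)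
    (hτ : τ ∈ faces G (nb G S s) m) : insert s τ ∈ faces G S (m + 1) := by
  obtain ⟨h1, h2, h3⟩ := O03_mem_faces.1 hτ
  have hadj : ∀ t ∈ τ, G.Adj s t := fun t ht => (O03_mem_nb.1 (h1 ht)).2
  have hns : s ∉ τ := fun h => G.loopless.irrefl s (hadj s h)
  refine O03_mem_faces.2 ⟨fun t ht => ?_, fun a ha b hb hab => ?_, ?_⟩
  · rcases Finset.mem_insert.1 ht with rfl | ht
    · exact hs
    · exact (O03_mem_nb.1 (h1 ht)).1
  · rcases Finset.mem_insert.1 ha with ha | ha
    · rcases Finset.mem_insert.1 hb with hb | hb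
      · exact absurd (ha.trans hb.symm) hab
      · rw [ha]
        exact hadj b hb
    · rcases Finset.mem_insert.1 hb with hb | hb
      · rw [hb]
        exact (hadj a ha).symm
      · exact h2 a ha b hb hab
  · rw [Finset.card_insert_of_notMem hns, h3]

theorem rel_step {α : Type} {G : SimpleGraph T} {S : Finset T} {j : ℕ} (hc : Conn G S)
    (hlink : ∀ s ∈ S, ∀ g : Finset T → α, Rel G (nb G S s) j g →
      ∀ σ ∈ faces G (nb G S s) (j + 1), ∀ σ' ∈ faces G (nb G S s) (j + 1), g σ = g σ')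
    (hpure : ∀ s ∈ S, ∀ t ∈ nb G S s, ∃ σ ∈ faces G (nb G S s) (j + 1), t ∈ σ)
    {g : Finset T → α} (hg : Rel G S (j + 1) g) :
    ∀ σ ∈ faces G S (j + 2), ∀ σ' ∈ faces G S (j + 2), g σ = g σ' := by
  -- claim 1
  have claim1 : ∀ s ∈ S, ∀ σ ∈ faces G S (j + 2), ∀ σ' ∈ faces G S (j + 2), s ∈ σ → s ∈ σ' →
      g σ = g σ' := by
    intro s hs σ hσ σ' hσ' hsσ hsσ'
    have hrel : Rel G (nb G S s) j (fun τ => g (insert s τ)) := by
      intro τ hτ a ha b hb
      have hm : ∀ x ∈ cn G (nb G S s) τ, x ∈ cn G S (insert s τ) := by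
        intro x hx
        obtain ⟨hx1, hx2⟩ := O03_mem_cn.1 hx
        obtain ⟨hx3, hx4⟩ := O03_mem_nb.1 hx1
        refine O03_mem_cn.2 ⟨hx3, fun t ht => ?_⟩
        rcases Finset.mem_insert.1 ht with rfl | ht
        · exact hx4
        · exact hx2 t ht
      have h1 := hg (insert s τ) (O03_insert hs hτ) a (hm a ha) b (hm b hb)
      show g (insert s (insert a τ)) = g (insert s (insert b τ))
      rw [Finset.insert_comm s a τ, Finset.insert_comm s b τ]
      exact h1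
    have h2 := hlink s hs (fun τ => g (insert s τ)) hrel (σ.erase s) (O03_erase hσ hsσ)
      (σ'.erase s) (O03_erase hσ' hsσ')
    have h3 : g (insert s (σ.erase s)) = g (insert s (σ'.erase s)) := h2
    rw [Finset.insert_erase hsσ, Finset.insert_erase hsσ'] at h3
    exact h3
  intro σ hσ σ' hσ'
  obtain ⟨hσ1, _, hσ3⟩ := O03_mem_faces.1 hσ
  obtain ⟨hσ1', _, hσ3'⟩ := O03_mem_faces.1 hσ'
  obtain ⟨x, hx⟩ : σ.Nonempty := by
    rw [← Finset.card_pos]
    omega
  obtain ⟨y, hy⟩ : σ'.Nonempty := by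
    rw [← Finset.card_pos]
    omega
  have hpath := hc.2 x (hσ1 hx) y (hσ1' hy)
  have key : ∀ y : T, Relation.ReflTransGen (fun a b => a ∈ S ∧ b ∈ S ∧ G.Adj a b) x y →
      ∀ ρ ∈ faces G S (j + 2), y ∈ ρ → g ρ = g σ := by
    intro y hxy
    induction hxy with
    | refl =>
      intro ρ hρ hyρ
      exact claim1 x (hσ1 hx) ρ hρ σ hσ hyρ hx
    | @tail b c _ hbc ih =>
      intro ρ hρ hcρ
      obtain ⟨hbS, hcS, hadj⟩ := hbc
      obtain ⟨π, hπ, hcπ⟩ := hpure b hbS c (O03_mem_nb.2 ⟨hcS, hadj⟩)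
      have h4 : insert b π ∈ faces G S (j + 2) := O03_insert hbS hπ
      have h5 : g ρ = g (insert b π) :=
        claim1 c hcS ρ hρ (insert b π) h4 hcρ (Finset.mem_insert_of_mem hcπ)
      have h6 : g (insert b π) = g σ := ih (insert b π) h4 (Finset.mem_insert_self b π)
      exact h5.trans h6
  exact (key y hpath σ' hσ' hy).symm

end Pool.Agent.LibFlagPL

end

section

namespace Pool.Agent.LibFlagPL

open Finset

set_option linter.unusedSectionVars false

variable {T : Type} [Fintype T] [DecidableEq T]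

private theorem O04_insert {G : SimpleGraph T} {S σ : Finset T} {s : T} {j : ℕ} (hs : s ∈ S)
    (hσ : σ ∈ faces G (nb G S s) j) : insert s σ ∈ faces G S (j + 1) := by
  obtain ⟨h1, h2, h3⟩ := mem_faces.1 hσ
  have hadj : ∀ t ∈ σ, G.Adj s t := fun t ht => (mem_nb.1 (h1 ht)).2
  refine mem_faces.2 ⟨?_, ?_, ?_⟩
  · intro t ht
    rcases Finset.mem_insert.1 ht with rfl | ht
    · exact hs
    · exact nb_subset (h1 ht)
  · intro a ha b hb hab
    rcases Finset.mem_insert.1 ha with ha | ha <;> rcases Finset.mem_insert.1 hb with hb | hb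
    · exact absurd (ha.trans hb.symm) hab
    · rw [ha]
      exact hadj b hb
    · rw [hb]
      exact (hadj a ha).symm
    · exact h2 a ha b hb hab
  · rw [Finset.card_insert_of_notMem (fun h => (hadj s h).ne rfl), h3]

theorem F2.w2 {G : SimpleGraph T} {S : Finset T} (h : F2 G S) : W2 G S := ⟨h.1, h.2.1⟩

theorem Circle.pure {G : SimpleGraph T} {C : Finset T} (h : Circle G C) {t : T} (ht : t ∈ C) :
    ∃ σ ∈ faces G C 2, t ∈ σ := by
  obtain ⟨a, b, hab, -, hn⟩ := h.nb_eq ht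
  have ha : a ∈ nb G C t := by
    rw [hn]
    exact Finset.mem_insert_self a _
  obtain ⟨haC, hta⟩ := mem_nb.1 ha
  refine ⟨insert t {a}, O04_insert ht (mem_faces.2 ⟨?_, ?_, Finset.card_singleton a⟩),
    Finset.mem_insert_self t _⟩
  · exact Finset.singleton_subset_iff.2 ha
  · intro x hx y hy hxy
    exact absurd ((Finset.mem_singleton.1 hx).trans (Finset.mem_singleton.1 hy).symm) hxy

theorem W2.pure {G : SimpleGraph T} {S : Finset T} (h : W2 G S) {t : T} (ht : t ∈ S) :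
    ∃ σ ∈ faces G S 3, t ∈ σ := by
  obtain ⟨u, hu⟩ := (h.2 t ht).2.2.1
  obtain ⟨σ, hσ, -⟩ := (h.2 t ht).pure hu
  exact ⟨insert t σ, O04_insert ht hσ, Finset.mem_insert_self t σ⟩

theorem F3.pure2 {G : SimpleGraph T} {S : Finset T} (h : F3 G S) {s t : T} (hs : s ∈ S)
    (ht : t ∈ S) (hst : G.Adj s t) : ∃ σ ∈ faces G S 4, s ∈ σ ∧ t ∈ σ := by
  obtain ⟨σ, hσ, htσ⟩ := (h.2 s hs).w2.pure (mem_nb.2 ⟨ht, hst⟩)
  exact ⟨insert s σ, O04_insert hs hσ, Finset.mem_insert_self s σ, Finset.mem_insert_of_mem htσ⟩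

theorem Circle.rel {α : Type} {G : SimpleGraph T} {C : Finset T} (h : Circle G C)
    {g : Finset T → α} (hg : Rel G C 1 g) :
    ∀ σ ∈ faces G C 2, ∀ σ' ∈ faces G C 2, g σ = g σ' := by
  refine rel_step (j := 0) h.2.2 ?_ ?_ hg
  · intro s hs f hf σ hσ σ' hσ'
    obtain ⟨h1, -, h3⟩ := mem_faces.1 hσ
    obtain ⟨h1', -, h3'⟩ := mem_faces.1 hσ'
    obtain ⟨a, rfl⟩ := Finset.card_eq_one.1 h3
    obtain ⟨b, rfl⟩ := Finset.card_eq_one.1 h3'
    have h0 : (∅ : Finset T) ∈ faces G (nb G C s) 0 :=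
      mem_faces.2 ⟨Finset.empty_subset _, fun x hx => absurd hx (Finset.notMem_empty x), Finset.card_empty⟩
    have hcn : ∀ x ∈ nb G C s, x ∈ cn G (nb G C s) ∅ := fun x hx =>
      mem_cn.2 ⟨hx, fun y hy => absurd hy (Finset.notMem_empty y)⟩
    have h4 := hf ∅ h0 a (hcn a (h1 (Finset.mem_singleton_self a))) b
      (hcn b (h1' (Finset.mem_singleton_self b)))
    rw [insert_empty_eq, insert_empty_eq] at h4
    exact h4
  · intro s hs t ht
    refine ⟨{t}, mem_faces.2 ⟨Finset.singleton_subset_iff.2 ht, ?_, Finset.card_singleton t⟩,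
      Finset.mem_singleton_self t⟩
    intro x hx y hy hxy
    exact absurd ((Finset.mem_singleton.1 hx).trans (Finset.mem_singleton.1 hy).symm) hxy

theorem W2.rel {α : Type} {G : SimpleGraph T} {S : Finset T} (h : W2 G S)
    {g : Finset T → α} (hg : Rel G S 2 g) :
    ∀ σ ∈ faces G S 3, ∀ σ' ∈ faces G S 3, g σ = g σ' :=
  rel_step (j := 1) h.1 (fun s hs _ hf => (h.2 s hs).rel hf) (fun s hs _ ht => (h.2 s hs).pure ht) hg

theorem F3.rel {α : Type} {G : SimpleGraph T} {S : Finset T} (h : F3 G S)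
    {g : Finset T → α} (hg : Rel G S 3 g) :
    ∀ σ ∈ faces G S 4, ∀ σ' ∈ faces G S 4, g σ = g σ' :=
  rel_step (j := 2) h.1 (fun s hs _ hf => (h.2 s hs).w2.rel hf)
    (fun s hs _ ht => (h.2 s hs).w2.pure ht) hg

end Pool.Agent.LibFlagPL

end

section

namespace Pool.Agent.LibFlagPL

open Finset

set_option linter.unusedSectionVars false

variable {T : Type} [Fintype T] [DecidableEq T]

theorem cn_insert {G : SimpleGraph T} {S τ : Finset T} {s : T} :
    cn G S (insert s τ) = cn G (nb G S s) τ := by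
  ext t
  rw [mem_cn, mem_cn, mem_nb]
  constructor
  · rintro ⟨h1, h2⟩
    exact ⟨⟨h1, h2 s (Finset.mem_insert_self s τ)⟩, fun u hu => h2 u (Finset.mem_insert_of_mem hu)⟩
  · rintro ⟨⟨h1, h2⟩, h3⟩
    refine ⟨h1, fun u hu => ?_⟩
    rcases Finset.mem_insert.1 hu with rfl | hu
    · exact h2
    · exact h3 u hu

private theorem O05_face {G : SimpleGraph T} {S τ : Finset T} {s : T} {j : ℕ}
    (hτ : τ ∈ faces G S (j + 1)) (hs : s ∈ τ) : τ.erase s ∈ faces G (nb G S s) j := by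
  obtain ⟨h1, h2, h3⟩ := mem_faces.1 hτ
  refine mem_faces.2 ⟨?_, ?_, ?_⟩
  · intro t ht
    obtain ⟨h4, h5⟩ := Finset.mem_erase.1 ht
    exact mem_nb.2 ⟨h1 h5, h2 s hs t h5 (Ne.symm h4)⟩
  · intro a ha b hb hab
    exact h2 a (Finset.mem_of_mem_erase ha) b (Finset.mem_of_mem_erase hb) hab
  · rw [Finset.card_erase_of_mem hs, h3]
    rfl

private theorem O05_nonempty {G : SimpleGraph T} {S τ : Finset T} {j : ℕ}
    (hτ : τ ∈ faces G S (j + 1)) : ∃ s, s ∈ τ := by
  have h3 := (mem_faces.1 hτ).2.2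
  have : τ.Nonempty := by
    rw [← Finset.card_pos, h3]
    exact Nat.succ_pos j
  exact this

theorem Circle.cn_card {G : SimpleGraph T} {C : Finset T} (h : Circle G C) {τ : Finset T}
    (hτ : τ ∈ faces G C 1) : (cn G C τ).card = 2 := by
  obtain ⟨h1, _, h3⟩ := mem_faces.1 hτ
  obtain ⟨t, rfl⟩ := Finset.card_eq_one.1 h3
  have h4 : cn G C {t} = nb G C t := by
    ext u
    rw [mem_cn, mem_nb]
    simp
  rw [h4]
  exact h.2.1 t (h1 (Finset.mem_singleton_self t))

theorem W2.cn_card {G : SimpleGraph T} {S : Finset T} (h : W2 G S) {τ : Finset T}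
    (hτ : τ ∈ faces G S 2) : (cn G S τ).card = 2 := by
  obtain ⟨s, hs⟩ := O05_nonempty hτ
  have h1 : s ∈ S := (mem_faces.1 hτ).1 hs
  rw [← Finset.insert_erase hs, cn_insert]
  exact (h.2 s h1).cn_card (O05_face hτ hs)

theorem F3.cn_card {G : SimpleGraph T} {S : Finset T} (h : F3 G S) {τ : Finset T}
    (hτ : τ ∈ faces G S 3) : (cn G S τ).card = 2 := by
  obtain ⟨s, hs⟩ := O05_nonempty hτ
  have h1 : s ∈ S := (mem_faces.1 hτ).1 hs
  have h2 : F2 G (nb G S s) := h.2 s h1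
  have h3 : W2 G (nb G S s) := ⟨h2.1, h2.2.1⟩
  rw [← Finset.insert_erase hs, cn_insert]
  exact h3.cn_card (O05_face hτ hs)

theorem facets_of_ridge {G : SimpleGraph T} {S τ σ : Finset T} {j : ℕ} (hτ : τ ∈ faces G S j) :
    (σ ∈ faces G S (j + 1) ∧ τ ⊆ σ) ↔ ∃ a ∈ cn G S τ, σ = insert a τ := by
  obtain ⟨t1, t2, t3⟩ := mem_faces.1 hτ
  constructor
  · rintro ⟨hσ, hsub⟩
    obtain ⟨s1, s2, s3⟩ := mem_faces.1 hσ
    have hc : (σ \ τ).card = 1 := by
      rw [Finset.card_sdiff_of_subset hsub, s3, t3]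
      omega
    obtain ⟨a, ha⟩ := Finset.card_eq_one.1 hc
    have ha1 : a ∈ σ \ τ := by rw [ha]; exact Finset.mem_singleton_self a
    obtain ⟨ha2, ha3⟩ := Finset.mem_sdiff.1 ha1
    refine ⟨a, mem_cn.2 ⟨s1 ha2, fun s hs => ?_⟩, ?_⟩
    · exact s2 s (hsub hs) a ha2 (fun e => ha3 (e ▸ hs))
    · ext u
      rw [Finset.mem_insert]
      constructor
      · intro hu
        by_cases hut : u ∈ τ
        · exact Or.inr hut
        · have : u ∈ σ \ τ := Finset.mem_sdiff.2 ⟨hu, hut⟩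
          rw [ha] at this
          exact Or.inl (Finset.mem_singleton.1 this)
      · rintro (rfl | hu)
        · exact ha2
        · exact hsub hu
  · rintro ⟨a, ha, rfl⟩
    obtain ⟨ha1, ha2⟩ := mem_cn.1 ha
    have hnot : a ∉ τ := fun h => (ha2 a h).ne rfl
    refine ⟨mem_faces.2 ⟨?_, ?_, ?_⟩, Finset.subset_insert a τ⟩
    · exact Finset.insert_subset ha1 t1
    · intro x hx y hy hxy
      rcases Finset.mem_insert.1 hx with e | hx'
      · rcases Finset.mem_insert.1 hy with e' | hy'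
        · exact absurd (e.trans e'.symm) hxy
        · exact e ▸ (ha2 y hy').symm
      · rcases Finset.mem_insert.1 hy with e' | hy'
        · exact e' ▸ ha2 x hx'
        · exact t2 x hx' y hy' hxy
    · rw [Finset.card_insert_of_notMem hnot, t3]

end Pool.Agent.LibFlagPL

end

section

namespace Pool.Agent.LibFlagPL

open Finset

set_option linter.unusedSectionVars false

variable {T : Type} [Fintype T] [DecidableEq T]

private theorem O06_card {G : SimpleGraph T} {S : Finset T} (j : ℕ)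
    (τ : {σ // σ ∈ faces G S j}) (ρ : {σ // σ ∈ faces G S (j + 1 + 1)}) (h : τ.1 ⊆ ρ.1)
    (inst : Fintype {σ // σ ∈ faces G S (j + 1)})
    (inst2 : DecidablePred (fun σ : {σ // σ ∈ faces G S (j + 1)} => τ.1 ⊆ σ.1 ∧ σ.1 ⊆ ρ.1)) :
    (@Finset.filter _ (fun σ : {σ // σ ∈ faces G S (j + 1)} => τ.1 ⊆ σ.1 ∧ σ.1 ⊆ ρ.1) inst2
      (@Finset.univ _ inst)).card = 2 := by
  obtain ⟨τ, hτ⟩ := τ
  obtain ⟨ρ, hρ⟩ := ρ
  simp only at h ⊢
  have hτ' := mem_faces.1 hτ
  have hρ' := mem_faces.1 hρ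
  have hc : (ρ \ τ).card = 2 := by
    rw [Finset.card_sdiff_of_subset h, hτ'.2.2, hρ'.2.2]
    omega
  have hmem : ∀ a ∈ ρ \ τ, insert a τ ∈ faces G S (j + 1) := by
    intro a ha
    have ha' := Finset.mem_sdiff.1 ha
    refine mem_faces.2 ⟨?_, ?_, ?_⟩
    · intro x hx
      rcases Finset.mem_insert.1 hx with rfl | hx
      · exact hρ'.1 ha'.1
      · exact hτ'.1 hx
    · intro s hs t ht hst
      refine hρ'.2.1 s ?_ t ?_ hst
      · rcases Finset.mem_insert.1 hs with rfl | hs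
        · exact ha'.1
        · exact h hs
      · rcases Finset.mem_insert.1 ht with rfl | ht
        · exact ha'.1
        · exact h ht
    · rw [Finset.card_insert_of_notMem ha'.2, hτ'.2.2]
  rw [← hc]
  symm
  refine Finset.card_bij (fun a ha => ⟨insert a τ, hmem a ha⟩) ?_ ?_ ?_
  · intro a ha
    have ha' := Finset.mem_sdiff.1 ha
    refine Finset.mem_filter.2 ⟨by simp, Finset.subset_insert _ _, ?_⟩
    intro x hx
    rcases Finset.mem_insert.1 hx with rfl | hx
    · exact ha'.1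
    · exact h hx
  · intro a ha b hb hab
    have ha' := Finset.mem_sdiff.1 ha
    have hab' : insert a τ = insert b τ := congrArg Subtype.val hab
    have : a ∈ insert b τ := by
      rw [← hab']
      exact Finset.mem_insert_self _ _
    rcases Finset.mem_insert.1 this with h1 | h1
    · exact h1
    · exact absurd h1 ha'.2
  · rintro ⟨σ, hσ⟩ hσ2
    have hσ3 := (Finset.mem_filter.1 hσ2).2
    simp only at hσ3
    have hσ' := mem_faces.1 hσ
    have hc1 : (σ \ τ).card = 1 := by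
      rw [Finset.card_sdiff_of_subset hσ3.1, hτ'.2.2, hσ'.2.2]
      omega
    obtain ⟨a, ha⟩ := Finset.card_eq_one.1 hc1
    have haσ : a ∈ σ \ τ := by
      rw [ha]
      exact Finset.mem_singleton_self _
    have haσ' := Finset.mem_sdiff.1 haσ
    refine ⟨a, Finset.mem_sdiff.2 ⟨hσ3.2 haσ'.1, haσ'.2⟩, ?_⟩
    apply Subtype.ext
    simp only
    rw [Finset.insert_eq, ← ha, Finset.sdiff_union_of_subset hσ3.1]

theorem Dm_mul {G : SimpleGraph T} {S : Finset T} (j : ℕ) : Dm G S j * Dm G S (j + 1) = 0 := by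
  ext τ ρ
  rw [Matrix.mul_apply, Matrix.zero_apply]
  have h1 : ∀ σ : {σ // σ ∈ faces G S (j + 1)}, Dm G S j τ σ * Dm G S (j + 1) σ ρ
      = if τ.1 ⊆ σ.1 ∧ σ.1 ⊆ ρ.1 then (1 : ZMod 2) else 0 := by
    intro σ
    unfold Dm
    by_cases ha : τ.1 ⊆ σ.1 <;> by_cases hb : σ.1 ⊆ ρ.1 <;> simp [ha, hb]
  rw [Finset.sum_congr rfl (fun σ _ => h1 σ), Finset.sum_boole]
  by_cases h : τ.1 ⊆ ρ.1
  · have h3 : (((2 : ℕ)) : ZMod 2) = 0 := by decide
    rw [← h3]
    congr 1
    exact O06_card j τ ρ h _ _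
  · have h3 : (((0 : ℕ)) : ZMod 2) = 0 := by simp
    rw [← h3]
    congr 1
    rw [Finset.card_eq_zero]
    apply Finset.filter_eq_empty_iff.2
    intro σ _ hσ
    exact h (hσ.1.trans hσ.2)

end Pool.Agent.LibFlagPL

end

section

namespace Pool.Agent.LibFlagPL

open Finset

set_option linter.unusedSectionVars false

variable {T : Type} [Fintype T] [DecidableEq T]

private theorem O07_mem {G : SimpleGraph T} {S : Finset T} {s : T} (hs : s ∈ S) :
    ({s} : Finset T) ∈ faces G S 1 := by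
  rw [mem_faces]
  refine ⟨Finset.singleton_subset_iff.2 hs, ?_, Finset.card_singleton s⟩
  intro a ha b hb hab
  rw [Finset.mem_singleton] at ha hb
  exact absurd (ha.trans hb.symm) hab

private theorem O07_form {G : SimpleGraph T} {S : Finset T} (τ : {σ // σ ∈ faces G S 1}) :
    ∃ s, ∃ hs : s ∈ S, τ = ⟨{s}, O07_mem hs⟩ := by
  obtain ⟨τ, hτ⟩ := τ
  obtain ⟨h1, _, h3⟩ := mem_faces.1 hτ
  obtain ⟨s, rfl⟩ := Finset.card_eq_one.1 h3
  exact ⟨s, Finset.singleton_subset_iff.1 h1, rfl⟩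

private theorem O07_edge {G : SimpleGraph T} {S : Finset T} {s t : T} (hs : s ∈ S) (ht : t ∈ S)
    (hst : G.Adj s t) : ({s, t} : Finset T) ∈ faces G S 2 := by
  rw [mem_faces]
  refine ⟨Finset.insert_subset_iff.2 ⟨hs, Finset.singleton_subset_iff.2 ht⟩, ?_,
    Finset.card_pair hst.ne⟩
  intro a ha b hb hab
  rw [Finset.mem_insert, Finset.mem_singleton] at ha hb
  rcases ha with rfl | rfl <;> rcases hb with rfl | rfl
  · exact absurd rfl hab
  · exact hst
  · exact hst.symm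
  · exact absurd rfl hab

private theorem O07_sum {G : SimpleGraph T} {S : Finset T} (x : {σ // σ ∈ faces G S 1} → ZMod 2)
    {s t : T} (hs : s ∈ S) (ht : t ∈ S) (hst : s ≠ t) (σ : {σ // σ ∈ faces G S 2})
    (hσ : σ.1 = {s, t}) :
    ((Dm G S 1).transpose.mulVec x) σ = x ⟨{s}, O07_mem hs⟩ + x ⟨{t}, O07_mem ht⟩ := by
  have h1 : ((Dm G S 1).transpose.mulVec x) σ = ∑ τ, (if τ.1 ⊆ σ.1 then 1 else 0) * x τ := rfl
  rw [h1, Fintype.sum_eq_add (⟨{s}, O07_mem hs⟩ : {σ // σ ∈ faces G S 1})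
    (⟨{t}, O07_mem ht⟩ : {σ // σ ∈ faces G S 1})]
  · rw [hσ, if_pos, if_pos, one_mul, one_mul]
    · exact Finset.singleton_subset_iff.2 (Finset.mem_insert_of_mem (Finset.mem_singleton_self t))
    · exact Finset.singleton_subset_iff.2 (Finset.mem_insert_self s _)
  · intro h
    exact hst (Finset.singleton_injective (congrArg Subtype.val h))
  · intro τ hτ
    obtain ⟨u, hu, rfl⟩ := O07_form τ
    rw [if_neg, zero_mul]
    intro h
    rw [hσ, Finset.singleton_subset_iff, Finset.mem_insert, Finset.mem_singleton] at h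
    rcases h with rfl | rfl
    · exact hτ.1 rfl
    · exact hτ.2 rfl

private theorem O07_nullity {G : SimpleGraph T} {S : Finset T} :
    (Dm G S 1).rank + Module.finrank (ZMod 2) (LinearMap.ker (Dm G S 1).transpose.mulVecLin) =
      S.card := by
  have h1 : (Dm G S 1).rank = (Dm G S 1).transpose.rank := (Matrix.rank_transpose _).symm
  rw [h1]
  have h2 := LinearMap.finrank_range_add_finrank_ker (Dm G S 1).transpose.mulVecLin
  have h3 : Module.finrank (ZMod 2) ({σ // σ ∈ faces G S 1} → ZMod 2) = S.card := by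
    rw [Module.finrank_fintype_fun_eq_card, Fintype.card_coe, card_faces_one]
  rw [h3] at h2
  exact h2

theorem rank_one_ge {G : SimpleGraph T} {S : Finset T} (h : Conn G S) :
    S.card ≤ (Dm G S 1).rank + 1 := by
  obtain ⟨⟨s0, hs0⟩, hc⟩ := h
  rw [← O07_nullity (G := G) (S := S)]
  refine Nat.add_le_add_left ?_ _
  have hle : LinearMap.ker (Dm G S 1).transpose.mulVecLin ≤
      Submodule.span (ZMod 2) {(fun _ => 1 : {σ // σ ∈ faces G S 1} → ZMod 2)} := by
    intro x hx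
    rw [LinearMap.mem_ker, Matrix.mulVecLin_apply] at hx
    have hE : ∀ s (hs : s ∈ S) t (ht : t ∈ S), G.Adj s t →
        x ⟨{s}, O07_mem hs⟩ = x ⟨{t}, O07_mem ht⟩ := by
      intro s hs t ht hst
      have h1 := O07_sum x hs ht hst.ne ⟨{s, t}, O07_edge hs ht hst⟩ rfl
      rw [hx] at h1
      exact CharTwo.add_eq_zero.1 h1.symm
    have hA : ∀ t, Relation.ReflTransGen (fun a b => a ∈ S ∧ b ∈ S ∧ G.Adj a b) s0 t →
        ∃ ht : t ∈ S, x ⟨{t}, O07_mem ht⟩ = x ⟨{s0}, O07_mem hs0⟩ := by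
      intro t ht
      induction ht with
      | refl => exact ⟨hs0, rfl⟩
      | tail _ hbc ih =>
        obtain ⟨hb, ih⟩ := ih
        exact ⟨hbc.2.1, (hE _ hbc.1 _ hbc.2.1 hbc.2.2).symm.trans ih⟩
    rw [Submodule.mem_span_singleton]
    refine ⟨x ⟨{s0}, O07_mem hs0⟩, funext fun τ => ?_⟩
    obtain ⟨t, ht, rfl⟩ := O07_form τ
    obtain ⟨_, h2⟩ := hA t (hc s0 hs0 t ht)
    rw [h2]
    exact mul_one _
  refine (Submodule.finrank_mono hle).trans ?_
  have h4 := finrank_span_le_card (R := ZMod 2)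
    ({(fun _ => 1 : {σ // σ ∈ faces G S 1} → ZMod 2)} : Set _)
  rw [Set.toFinset_singleton, Finset.card_singleton] at h4
  exact h4

theorem rank_one_le {G : SimpleGraph T} {S : Finset T} (h : S.Nonempty) :
    (Dm G S 1).rank + 1 ≤ S.card := by
  obtain ⟨s0, hs0⟩ := h
  rw [← O07_nullity (G := G) (S := S)]
  refine Nat.add_le_add_left ?_ _
  rw [Submodule.one_le_finrank_iff, Submodule.ne_bot_iff]
  refine ⟨fun _ => 1, ?_, ?_⟩
  · rw [LinearMap.mem_ker, Matrix.mulVecLin_apply]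
    funext σ
    obtain ⟨h1, h2, h3⟩ := mem_faces.1 σ.2
    obtain ⟨s, t, hst, hσ⟩ := Finset.card_eq_two.1 h3
    have hs : s ∈ S := h1 (by rw [hσ]; exact Finset.mem_insert_self s _)
    have ht : t ∈ S := h1 (by
      rw [hσ]; exact Finset.mem_insert_of_mem (Finset.mem_singleton_self t))
    rw [O07_sum _ hs ht hst σ hσ]
    exact CharTwo.add_self_eq_zero 1
  · intro h
    have h1 := congrFun h ⟨{s0}, O07_mem hs0⟩
    exact one_ne_zero h1

end Pool.Agent.LibFlagPL

end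

section

namespace Pool.Agent.LibFlagPL

open Finset

set_option linter.unusedSectionVars false

variable {T : Type} [Fintype T] [DecidableEq T]

open scoped Classical in
/-- extension by zero -/
private noncomputable def O08_ext (G : SimpleGraph T) (S : Finset T) (j : ℕ)
    (x : {σ // σ ∈ faces G S (j + 1)} → ZMod 2) : Finset T → ZMod 2 :=
  fun σ => if h : σ ∈ faces G S (j + 1) then x ⟨σ, h⟩ else 0

private theorem O08_rel {G : SimpleGraph T} {S : Finset T} {j : ℕ}
    (h2 : ∀ τ ∈ faces G S j, (cn G S τ).card = 2) (x : {σ // σ ∈ faces G S (j + 1)} → ZMod 2)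
    (hx : (Dm G S j).mulVec x = 0) : Rel G S j (O08_ext G S j x) := by
  classical
  intro τ hτ a ha b hb
  by_cases hab : a = b
  · rw [hab]
  have hsub : ({a, b} : Finset T) ⊆ cn G S τ := by
    intro t ht
    rw [Finset.mem_insert, Finset.mem_singleton] at ht
    rcases ht with rfl | rfl
    · exact ha
    · exact hb
  have hcn : ({a, b} : Finset T) = cn G S τ :=
    Finset.eq_of_subset_of_card_le hsub (by rw [h2 τ hτ, Finset.card_pair hab])
  have hfa : insert a τ ∈ faces G S (j + 1) := ((facets_of_ridge hτ).2 ⟨a, ha, rfl⟩).1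
  have hfb : insert b τ ∈ faces G S (j + 1) := ((facets_of_ridge hτ).2 ⟨b, hb, rfl⟩).1
  have hat : a ∉ τ := fun h => G.loopless.irrefl a ((mem_cn.1 ha).2 a h)
  have hne : (⟨insert a τ, hfa⟩ : {σ // σ ∈ faces G S (j + 1)}) ≠ ⟨insert b τ, hfb⟩ := by
    intro h
    have h1 : insert a τ = insert b τ := congrArg Subtype.val h
    have h3 : a ∈ insert b τ := by
      rw [← h1]
      exact Finset.mem_insert_self _ _
    rcases Finset.mem_insert.1 h3 with h4 | h4
    · exact hab h4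
    · exact hat h4
  have hsum : ∑ σ : {σ // σ ∈ faces G S (j + 1)}, (Dm G S j) ⟨τ, hτ⟩ σ * x σ = 0 :=
    congrFun hx ⟨τ, hτ⟩
  have hsum2 : ∑ σ : {σ // σ ∈ faces G S (j + 1)}, (Dm G S j) ⟨τ, hτ⟩ σ * x σ =
      ∑ σ ∈ ({⟨insert a τ, hfa⟩, ⟨insert b τ, hfb⟩} : Finset {σ // σ ∈ faces G S (j + 1)}),
        (Dm G S j) ⟨τ, hτ⟩ σ * x σ := by
    refine (Finset.sum_subset (Finset.subset_univ _) fun σ _ hσ => ?_).symm
    have h5 : ¬ τ ⊆ σ.1 := by
      intro hs
      obtain ⟨c, hc, he⟩ := (facets_of_ridge hτ).1 ⟨σ.2, hs⟩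
      rw [← hcn, Finset.mem_insert, Finset.mem_singleton] at hc
      apply hσ
      rw [Finset.mem_insert, Finset.mem_singleton]
      rcases hc with rfl | rfl
      · exact Or.inl (Subtype.ext he)
      · exact Or.inr (Subtype.ext he)
    unfold Dm
    rw [if_neg h5, zero_mul]
  rw [hsum2, Finset.sum_pair hne] at hsum
  have ha1 : (Dm G S j) ⟨τ, hτ⟩ ⟨insert a τ, hfa⟩ = 1 := by
    unfold Dm
    rw [if_pos (Finset.subset_insert a τ)]
  have hb1 : (Dm G S j) ⟨τ, hτ⟩ ⟨insert b τ, hfb⟩ = 1 := by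
    unfold Dm
    rw [if_pos (Finset.subset_insert b τ)]
  rw [ha1, hb1, one_mul, one_mul, CharTwo.add_eq_zero] at hsum
  unfold O08_ext
  rw [dif_pos hfa, dif_pos hfb]
  exact hsum

theorem rank_top {G : SimpleGraph T} {S : Finset T} {j : ℕ}
    (h2 : ∀ τ ∈ faces G S j, (cn G S τ).card = 2)
    (hR : ∀ g : Finset T → ZMod 2, Rel G S j g →
      ∀ σ ∈ faces G S (j + 1), ∀ σ' ∈ faces G S (j + 1), g σ = g σ') :
    (faces G S (j + 1)).card ≤ (Dm G S j).rank + 1 := by
  classical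
  have h1 := LinearMap.finrank_range_add_finrank_ker (Dm G S j).mulVecLin
  have h3 : Module.finrank (ZMod 2) ({σ // σ ∈ faces G S (j + 1)} → ZMod 2) =
      (faces G S (j + 1)).card := by
    rw [Module.finrank_fintype_fun_eq_card, Fintype.card_coe]
  have h4 : LinearMap.ker (Dm G S j).mulVecLin ≤
      Submodule.span (ZMod 2) {(fun _ => 1 : {σ // σ ∈ faces G S (j + 1)} → ZMod 2)} := by
    intro x hx
    rw [LinearMap.mem_ker, Matrix.mulVecLin_apply] at hx
    have hrel := O08_rel h2 x hx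
    rw [Submodule.mem_span_singleton]
    rcases isEmpty_or_nonempty {σ // σ ∈ faces G S (j + 1)} with he | ⟨⟨σ₀⟩⟩
    · exact ⟨0, funext fun σ => (he.false σ).elim⟩
    · refine ⟨x σ₀, funext fun σ => ?_⟩
      have h5 := hR _ hrel σ₀.1 σ₀.2 σ.1 σ.2
      unfold O08_ext at h5
      rw [dif_pos σ₀.2, dif_pos σ.2] at h5
      change x σ₀ * 1 = x σ
      rw [mul_one]
      exact h5
  have h5 : Module.finrank (ZMod 2) (LinearMap.ker (Dm G S j).mulVecLin) ≤ 1 := by
    refine (Submodule.finrank_mono h4).trans ?_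
    refine (finrank_span_le_card _).trans ?_
    rw [Set.toFinset_singleton, Finset.card_singleton]
  have h6 : (Dm G S j).rank = Module.finrank (ZMod 2) (LinearMap.range (Dm G S j).mulVecLin) := rfl
  rw [h3] at h1
  omega

end Pool.Agent.LibFlagPL

end

section

namespace Pool.Agent.LibFlagPL

open Finset

set_option linter.unusedSectionVars false

theorem rank_add_le {F l m n : Type} [Field F] [Fintype l] [Fintype m] [Fintype n]
    [DecidableEq m] [DecidableEq n] (A : Matrix l m F) (B : Matrix m n F) (h : A * B = 0) :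
    A.rank + B.rank ≤ Fintype.card m := by
  have h1 : LinearMap.range B.mulVecLin ≤ LinearMap.ker A.mulVecLin := by
    rintro _ ⟨y, rfl⟩
    rw [LinearMap.mem_ker, Matrix.mulVecLin_apply, Matrix.mulVecLin_apply, Matrix.mulVec_mulVec, h,
      Matrix.zero_mulVec]
  have h2 := Submodule.finrank_mono h1
  have h3 := LinearMap.finrank_range_add_finrank_ker A.mulVecLin
  rw [Module.finrank_fintype_fun_eq_card] at h3
  unfold Matrix.rank
  omega

theorem exact_of_rank {F l m n : Type} [Field F] [Fintype l] [Fintype m] [Fintype n]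
    [DecidableEq m] [DecidableEq n] (A : Matrix l m F) (B : Matrix m n F) (h : A * B = 0)
    (hr : Fintype.card m ≤ A.rank + B.rank) (x : m → F) (hx : A.mulVec x = 0) :
    ∃ y : n → F, B.mulVec y = x := by
  have h1 : LinearMap.range B.mulVecLin ≤ LinearMap.ker A.mulVecLin := by
    rintro _ ⟨y, rfl⟩
    rw [LinearMap.mem_ker, Matrix.mulVecLin_apply, Matrix.mulVecLin_apply, Matrix.mulVec_mulVec, h,
      Matrix.zero_mulVec]
  have h3 := LinearMap.finrank_range_add_finrank_ker A.mulVecLin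
  rw [Module.finrank_fintype_fun_eq_card] at h3
  unfold Matrix.rank at hr
  have h4 := Submodule.eq_of_le_of_finrank_le h1 (by omega)
  have h5 : x ∈ LinearMap.ker A.mulVecLin := by
    rw [LinearMap.mem_ker, Matrix.mulVecLin_apply, hx]
  rw [← h4] at h5
  obtain ⟨y, hy⟩ := h5
  exact ⟨y, by rw [← hy, Matrix.mulVecLin_apply]⟩

end Pool.Agent.LibFlagPL

end

section

namespace Pool.Agent.LibFlagPL

open Finset

set_option linter.unusedSectionVars false

variable {T : Type} [Fintype T] [DecidableEq T]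

theorem w2_ineq {G : SimpleGraph T} {S : Finset T} (h : W2 G S) :
    6 * S.card ≤ (∑ s ∈ S, (nb G S s).card) + 12 := by
  have h1 : (Dm G S 1).rank + (Dm G S (1 + 1)).rank ≤ (faces G S (1 + 1)).card := by
    have := rank_add_le (Dm G S 1) (Dm G S (1 + 1)) (Dm_mul 1)
    simpa [Fintype.card_coe] using this
  have h2 : S.card ≤ (Dm G S 1).rank + 1 := rank_one_ge h.1
  have h3 : (faces G S (1 + 1 + 1)).card ≤ (Dm G S (1 + 1)).rank + 1 :=
    rank_top (j := 1 + 1) (fun τ hτ => W2.cn_card h hτ) (fun g hg => W2.rel h hg)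
  have h4 : ∑ s ∈ S, (faces G (nb G S s) 1).card = (1 + 1) * (faces G S (1 + 1)).card :=
    sum_faces_nb 1
  have h5 : ∑ s ∈ S, (faces G (nb G S s) 1).card = ∑ s ∈ S, (nb G S s).card :=
    Finset.sum_congr rfl (fun s _ => card_faces_one)
  have h6 : ∑ s ∈ S, (faces G (nb G S s) 2).card = (2 + 1) * (faces G S (2 + 1)).card :=
    sum_faces_nb 2
  have h7 : ∑ s ∈ S, (faces G (nb G S s) 2).card = ∑ s ∈ S, (nb G S s).card :=
    Finset.sum_congr rfl (fun s hs => Circle.faces_two (h.2 s hs))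
  have h8 : faces G S (2 + 1) = faces G S (1 + 1 + 1) := rfl
  rw [h8] at h6
  omega

end Pool.Agent.LibFlagPL

end
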