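import Pool.Agent.LibFlagPL.SideA

/-!
# LibFlagPL.SideB: sides of induced spheres, second part
-/

section

namespace Pool.Agent.LibFlagPL

open Finset

set_option linter.unusedSectionVars false

variable {T : Type} [Fintype T] [DecidableEq T]

private theorem O11_z1 : ∀ i a b c : ZMod 2, a + b + c = 0 → i + c = i + a + b := by decide

private theorem O11_z2 : ∀ i a b c : ZMod 2, a + b + c = 0 → i + a = i + c + b := by decide

private theorem O11_z3 : ∀ i a : ZMod 2, i = i + a + a := by decide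

theorem dbl_emb {G : SimpleGraph T} {S : Finset T} {z : T → T → ZMod 2} (hz : Coc G S z) {v : T}
    (hv : v ∈ S) (i : ZMod 2) :
    Emb G (nb G S v) (dbl G z) (fun w => (w, i + z v w)) := by
  refine ⟨fun s _ t _ h => (Prod.mk.inj h).1, fun w hw w' hw' => ⟨fun h => h.1, fun h => ?_⟩⟩
  have h1 := mem_nb.1 hw
  have h2 := mem_nb.1 hw'
  have h3 := hz.tri v hv w h1.1 w' h2.1 h1.2 h h2.2
  have h4 := hz.symm w w'
  refine ⟨h, ?_, ?_⟩
  · exact O11_z1 i (z v w) (z w w') (z v w') h3
  · show i + z v w = i + z v w' + z w' w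
    rw [← h4]
    exact O11_z2 i (z v w) (z w w') (z v w') h3

theorem dbl_nb {G : SimpleGraph T} {S : Finset T} {z : T → T → ZMod 2} (hz : Coc G S z) {v : T}
    (hv : v ∈ S) (i : ZMod 2) :
    nb (dbl G z) (S ×ˢ univ) (v, i) = (nb G S v).image (fun w => (w, i + z v w)) := by
  ext ⟨w, j⟩
  rw [mem_nb, Finset.mem_image]
  constructor
  · rintro ⟨h1, h2, h3, _⟩
    refine ⟨w, mem_nb.2 ⟨(Finset.mem_product.1 h1).1, h2⟩, ?_⟩
    exact Prod.ext rfl h3.symm
  · rintro ⟨w', hw', h⟩
    obtain ⟨rfl, rfl⟩ := Prod.mk.inj h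
    have h1 := mem_nb.1 hw'
    refine ⟨Finset.mem_product.2 ⟨h1.1, Finset.mem_univ _⟩, h1.2, rfl, ?_⟩
    show i = i + z v w' + z w' v
    rw [hz.symm w' v]
    exact O11_z3 i (z v w')

theorem dbl_f3 {G : SimpleGraph T} {S : Finset T} {z : T → T → ZMod 2} (hz : Coc G S z)
    (h : F3 G S) (hc : Conn (dbl G z) (S ×ˢ univ)) : F3 (dbl G z) (S ×ˢ univ) := by
  refine ⟨hc, ?_⟩
  rintro ⟨v, i⟩ hvi
  have hv : v ∈ S := (Finset.mem_product.1 hvi).1
  rw [dbl_nb hz hv i]
  exact (dbl_emb hz hv i).f2 (h.2 v hv)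

end Pool.Agent.LibFlagPL

end

section

namespace Pool.Agent.LibFlagPL

open Finset

set_option linter.unusedSectionVars false

variable {T : Type} [Fintype T] [DecidableEq T]

private theorem O12_two (a : ZMod 2) : a + a = 0 := CharTwo.add_self_eq_zero a

private theorem O12_cases (a : ZMod 2) : a = 0 ∨ a = 1 := by
  revert a
  decide

theorem dbl_conn {G : SimpleGraph T} {S : Finset T} {z : T → T → ZMod 2} (hz : Coc G S z)
    (hc : Conn G S)
    (hn : ¬ ∃ w : T → ZMod 2, ∀ s ∈ S, ∀ t ∈ S, G.Adj s t → z s t = w s + w t) :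
    Conn (dbl G z) (S ×ˢ univ) := by
  classical
  obtain ⟨⟨v0, hv0⟩, hcon⟩ := hc
  have hmem : ∀ (x : T) (i : ZMod 2), x ∈ S → (x, i) ∈ S ×ˢ (univ : Finset (ZMod 2)) := by
    intro x i hx
    exact Finset.mem_product.2 ⟨hx, Finset.mem_univ _⟩
  let R : T × ZMod 2 → T × ZMod 2 → Prop := fun a b =>
    a ∈ S ×ˢ (univ : Finset (ZMod 2)) ∧ b ∈ S ×ˢ (univ : Finset (ZMod 2)) ∧ (dbl G z).Adj a b
  have hRsymm : Symmetric R := fun a b h => ⟨h.2.1, h.1, h.2.2.symm⟩
  have hGsymm : ∀ {a b}, Relation.ReflTransGen R a b → Relation.ReflTransGen R b a := by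
    intro a b h
    induction h with
    | refl => exact Relation.ReflTransGen.refl
    | tail _ hbc ih => exact Relation.ReflTransGen.head (hRsymm hbc) ih
  have hstep : ∀ s ∈ S, ∀ t ∈ S, G.Adj s t → ∀ i, R (s, i) (t, i + z s t) := by
    intro s hs t ht hst i
    refine ⟨hmem s i hs, hmem t _ ht, hst, rfl, ?_⟩
    show i = i + z s t + z t s
    rw [hz.symm t s, add_assoc, O12_two, add_zero]
  have hlift : ∀ x y, Relation.ReflTransGen (fun a b => a ∈ S ∧ b ∈ S ∧ G.Adj a b) x y → ∀ i : ZMod 2,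
      ∃ j : ZMod 2, Relation.ReflTransGen R (x, i) (y, j) := by
    intro x y hxy i
    induction hxy with
    | refl => exact ⟨i, Relation.ReflTransGen.refl⟩
    | tail _ hbc ih =>
      obtain ⟨j, hj⟩ := ih
      exact ⟨_, hj.tail (hstep _ hbc.1 _ hbc.2.1 hbc.2.2 j)⟩
  have hshift : ∀ a b, Relation.ReflTransGen R a b →
      Relation.ReflTransGen R (a.1, a.2 + 1) (b.1, b.2 + 1) := by
    intro a b hab
    refine Relation.ReflTransGen.lift (fun c : T × ZMod 2 => (c.1, c.2 + 1)) ?_ _ _ hab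
    rintro c d ⟨h1, h2, h3, h4, h5⟩
    refine ⟨hmem _ _ (Finset.mem_product.1 h1).1, hmem _ _ (Finset.mem_product.1 h2).1, h3, ?_, ?_⟩
    · show d.2 + 1 = c.2 + 1 + z c.1 d.1
      rw [h4]
      ring
    · show c.2 + 1 = d.2 + 1 + z d.1 c.1
      rw [h5]
      ring
  by_cases h1 : Relation.ReflTransGen R (v0, 0) (v0, 1)
  · refine ⟨⟨(v0, 0), hmem _ _ hv0⟩, ?_⟩
    have hto : ∀ a ∈ S ×ˢ (univ : Finset (ZMod 2)), Relation.ReflTransGen R a (v0, 0) := by
      intro a ha
      obtain ⟨j, hj⟩ := hlift a.1 v0 (hcon a.1 (Finset.mem_product.1 ha).1 v0 hv0) a.2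
      rcases O12_cases j with h | h
      · rw [h] at hj
        exact hj
      · rw [h] at hj
        exact hj.trans (hGsymm h1)
    intro x hx y hy
    exact (hto x hx).trans (hGsymm (hto y hy))
  · exfalso
    apply hn
    have huniq : ∀ v (a b : ZMod 2), Relation.ReflTransGen R (v0, 0) (v, a) →
        Relation.ReflTransGen R (v0, 0) (v, b) → a = b := by
      have key : ∀ v, Relation.ReflTransGen R (v0, 0) (v, 0) →
          Relation.ReflTransGen R (v0, 0) (v, 1) → False := by
        intro v ha hb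
        have h2 := hshift _ _ ha
        simp only [zero_add] at h2
        exact h1 (hb.trans (hGsymm h2))
      intro v a b ha hb
      rcases O12_cases a with h | h <;> rcases O12_cases b with h' | h'
      · rw [h, h']
      · rw [h] at ha
        rw [h'] at hb
        exact (key v ha hb).elim
      · rw [h] at ha
        rw [h'] at hb
        exact (key v hb ha).elim
      · rw [h, h']
    have hex : ∀ v, ∃ w : ZMod 2, v ∈ S → Relation.ReflTransGen R (v0, 0) (v, w) := by
      intro v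
      by_cases hv : v ∈ S
      · obtain ⟨j, hj⟩ := hlift v0 v (hcon v0 hv0 v hv) 0
        exact ⟨j, fun _ => hj⟩
      · exact ⟨0, fun h => absurd h hv⟩
    choose w hw using hex
    refine ⟨w, ?_⟩
    intro s hs t ht hst
    have h2 : Relation.ReflTransGen R (v0, 0) (t, w s + z s t) := (hw s hs).tail (hstep s hs t ht hst (w s))
    have h3 := huniq t _ _ (hw t ht) h2
    rw [h3, ← add_assoc, O12_two, zero_add]

end Pool.Agent.LibFlagPL

end

section

namespace Pool.Agent.LibFlagPL

open Finset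

set_option linter.unusedSectionVars false

variable {T : Type} [Fintype T] [DecidableEq T]

private theorem O13_sum {G : SimpleGraph T} {S : Finset T} :
    ∑ s ∈ S, (nb G S s).card = 2 * (faces G S 2).card := by
  have h1 := sum_faces_nb (G := G) (S := S) 1
  simp only [card_faces_one] at h1
  exact h1

theorem dbl_faces_two {G : SimpleGraph T} {S : Finset T} {z : T → T → ZMod 2} (hz : Coc G S z) :
    (faces (dbl G z) (S ×ˢ univ) 2).card = 2 * (faces G S 2).card := by
  have h1 := O13_sum (G := dbl G z) (S := S ×ˢ (univ : Finset (ZMod 2)))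
  have h2 := O13_sum (G := G) (S := S)
  rw [Finset.sum_product] at h1
  have h3 : ∀ s ∈ S, ∀ i : ZMod 2, (nb (dbl G z) (S ×ˢ univ) (s, i)).card = (nb G S s).card := by
    intro s hs i
    rw [dbl_nb hz hs i]
    exact (dbl_emb hz hs i).card
  have h4 : ∑ s ∈ S, ∑ i : ZMod 2, (nb (dbl G z) (S ×ˢ univ) (s, i)).card =
      ∑ s ∈ S, 2 * (nb G S s).card := by
    refine Finset.sum_congr rfl fun s hs => ?_
    rw [Finset.sum_congr rfl fun i _ => h3 s hs i, Finset.sum_const]
    simp [ZMod.card]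
  rw [h4, ← Finset.mul_sum, h2] at h1
  omega

theorem thH1 (hD : DHyp) {G : SimpleGraph T} {S : Finset T} (h : F3 G S) (h0 : chi G S = 0)
    {z : T → T → ZMod 2} (hz : Coc G S z) :
    ∃ w : T → ZMod 2, ∀ s ∈ S, ∀ t ∈ S, G.Adj s t → z s t = w s + w t := by
  by_contra hn
  have hc := dbl_conn hz h.1 hn
  have h3 := dbl_f3 hz h hc
  have h4 := hD (T × ZMod 2) (dbl G z) (S ×ˢ univ) h3
  have e1 := h3.chi_eq
  have e2 := h.chi_eq
  have e3 := dbl_faces_two (S := S) hz
  have e4 : (S ×ˢ (univ : Finset (ZMod 2))).card = 2 * S.card := by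
    rw [Finset.card_product]
    simp [ZMod.card, mul_comm]
  rw [e3, e4] at e1
  rw [h0] at e2
  push_cast at e1
  linarith

end Pool.Agent.LibFlagPL

end

section

namespace Pool.Agent.LibFlagPL

open Finset

set_option linter.unusedSectionVars false

variable {T : Type} [Fintype T] [DecidableEq T]

private theorem O14_pair {G : SimpleGraph T} {S : Finset T} {s t : T} (hs : s ∈ S) (ht : t ∈ S)
    (h : G.Adj s t) : ({s, t} : Finset T) ∈ faces G S 2 := by
  rw [mem_faces]
  refine ⟨?_, ?_, card_pair h.ne⟩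
  · intro z hz
    simp only [mem_insert, mem_singleton] at hz
    rcases hz with rfl | rfl <;> assumption
  · intro a ha b hb hab
    simp only [mem_insert, mem_singleton] at ha hb
    rcases ha with rfl | rfl <;> rcases hb with rfl | rfl
    · exact absurd rfl hab
    · exact h
    · exact h.symm
    · exact absurd rfl hab

private theorem O14_tri {G : SimpleGraph T} {S : Finset T} {s t u : T} (hs : s ∈ S) (ht : t ∈ S)
    (hu : u ∈ S) (h1 : G.Adj s t) (h2 : G.Adj t u) (h3 : G.Adj s u) :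
    ({s, t, u} : Finset T) ∈ faces G S 3 := by
  rw [mem_faces]
  refine ⟨?_, ?_, ?_⟩
  · intro z hz
    simp only [mem_insert, mem_singleton] at hz
    rcases hz with rfl | rfl | rfl <;> assumption
  · intro a ha b hb hab
    simp only [mem_insert, mem_singleton] at ha hb
    rcases ha with rfl | rfl | rfl <;> rcases hb with rfl | rfl | rfl <;>
      first
        | exact absurd rfl hab
        | assumption
        | exact h1.symm
        | exact h2.symm
        | exact h3.symm
  · rw [card_insert_of_notMem, card_pair h2.ne]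
    simp only [mem_insert, mem_singleton, not_or]
    exact ⟨h1.ne, h3.ne⟩

private theorem O14_sum {G : SimpleGraph T} {S : Finset T} {j : ℕ}
    (x : {σ // σ ∈ faces G S j} → ZMod 2) (ρ : Finset T) :
    ∑ τ : {σ // σ ∈ faces G S j}, (if τ.1 ⊆ ρ then (1 : ZMod 2) else 0) * x τ =
      ∑ τ ∈ (faces G S j).filter (fun τ => τ ⊆ ρ),
        (if h : τ ∈ faces G S j then x ⟨τ, h⟩ else 0) := by
  rw [Finset.sum_filter, ← Finset.sum_attach (faces G S j), Finset.univ_eq_attach]
  refine Finset.sum_congr rfl fun τ _ => ?_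
  by_cases h : τ.1 ⊆ ρ
  · rw [if_pos h, if_pos h, dif_pos τ.2, one_mul]
  · rw [if_neg h, if_neg h, zero_mul]

private theorem O14_filter3 {G : SimpleGraph T} {S : Finset T} {s t u : T} (hs : s ∈ S)
    (ht : t ∈ S) (hu : u ∈ S) (h1 : G.Adj s t) (h2 : G.Adj t u) (h3 : G.Adj s u) :
    (faces G S 2).filter (fun τ => τ ⊆ {s, t, u}) = {{s, t}, {t, u}, {s, u}} := by
  ext τ
  rw [mem_filter]
  constructor
  · rintro ⟨hτ, hsub⟩
    obtain ⟨a, b, hab, rfl⟩ := card_eq_two.1 (mem_faces.1 hτ).2.2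
    have ha := hsub (mem_insert_self a _)
    have hb := hsub (mem_insert_of_mem (mem_singleton_self b))
    simp only [mem_insert, mem_singleton] at ha hb
    simp only [mem_insert, mem_singleton]
    rcases ha with rfl | rfl | rfl <;> rcases hb with rfl | rfl | rfl <;>
      first
        | exact absurd rfl hab
        | exact Or.inl rfl
        | exact Or.inr (Or.inl rfl)
        | exact Or.inr (Or.inr rfl)
        | exact Or.inl (pair_comm _ _)
        | exact Or.inr (Or.inl (pair_comm _ _))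
        | exact Or.inr (Or.inr (pair_comm _ _))
  · intro hτ
    simp only [mem_insert, mem_singleton] at hτ
    rcases hτ with rfl | rfl | rfl
    · refine ⟨O14_pair hs ht h1, ?_⟩
      intro z hz
      simp only [mem_insert, mem_singleton] at hz ⊢
      tauto
    · refine ⟨O14_pair ht hu h2, ?_⟩
      intro z hz
      simp only [mem_insert, mem_singleton] at hz ⊢
      tauto
    · refine ⟨O14_pair hs hu h3, ?_⟩
      intro z hz
      simp only [mem_insert, mem_singleton] at hz ⊢
      tauto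

private theorem O14_filter2 {G : SimpleGraph T} {S : Finset T} {s t : T} (hs : s ∈ S)
    (ht : t ∈ S) :
    (faces G S 1).filter (fun τ => τ ⊆ {s, t}) = {{s}, {t}} := by
  have hone : ∀ r ∈ S, ({r} : Finset T) ∈ faces G S 1 := fun r hr => by
    rw [mem_faces]
    refine ⟨by simpa using hr, ?_, card_singleton r⟩
    intro a ha b hb hab
    rw [mem_singleton] at ha hb
    exact absurd (ha.trans hb.symm) hab
  ext τ
  rw [mem_filter]
  constructor
  · rintro ⟨hτ, hsub⟩
    obtain ⟨a, rfl⟩ := card_eq_one.1 (mem_faces.1 hτ).2.2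
    have ha := hsub (mem_singleton_self a)
    simp only [mem_insert, mem_singleton] at ha
    simp only [mem_insert, mem_singleton]
    rcases ha with rfl | rfl
    · exact Or.inl rfl
    · exact Or.inr rfl
  · intro hτ
    simp only [mem_insert, mem_singleton] at hτ
    rcases hτ with rfl | rfl
    · refine ⟨hone _ hs, ?_⟩
      intro z hz
      simp only [mem_insert, mem_singleton] at hz ⊢
      exact Or.inl hz
    · refine ⟨hone _ ht, ?_⟩
      intro z hz
      simp only [mem_insert, mem_singleton] at hz ⊢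
      exact Or.inr hz

private theorem O14_pair_inj {s t u : T} (h : ({s, t} : Finset T) = {t, u} ∨
    ({s, t} : Finset T) = {s, u} ∨ ({t, u} : Finset T) = {s, u}) : s = t ∨ t = u ∨ s = u := by
  rcases h with h | h | h
  · have h1 : s ∈ ({t, u} : Finset T) := h ▸ mem_insert_self s _
    simp only [mem_insert, mem_singleton] at h1
    tauto
  · have h1 : t ∈ ({s, u} : Finset T) := h ▸ mem_insert_of_mem (mem_singleton_self t)
    simp only [mem_insert, mem_singleton] at h1
    rcases h1 with h1 | h1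
    · exact Or.inl h1.symm
    · exact Or.inr (Or.inl h1)
  · have h1 : t ∈ ({s, u} : Finset T) := h ▸ mem_insert_self t _
    simp only [mem_insert, mem_singleton] at h1
    rcases h1 with h1 | h1
    · exact Or.inl h1.symm
    · exact Or.inr (Or.inl h1)

theorem rank_two_ge {G : SimpleGraph T} {S : Finset T}
    (hc : ∀ z, Coc G S z → ∃ w : T → ZMod 2, ∀ s ∈ S, ∀ t ∈ S, G.Adj s t → z s t = w s + w t) :
    (faces G S 2).card ≤ (Dm G S 2).rank + (Dm G S 1).rank := by
  have h1 := LinearMap.finrank_range_add_finrank_ker (Dm G S 2).transpose.mulVecLin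
  have h2 : Module.finrank (ZMod 2) (LinearMap.range (Dm G S 2).transpose.mulVecLin) =
      (Dm G S 2).rank := Matrix.rank_transpose (Dm G S 2)
  have h3 : Module.finrank (ZMod 2) (LinearMap.range (Dm G S 1).transpose.mulVecLin) =
      (Dm G S 1).rank := Matrix.rank_transpose (Dm G S 1)
  have h4 : Module.finrank (ZMod 2) ({σ // σ ∈ faces G S 2} → ZMod 2) = (faces G S 2).card := by
    rw [Module.finrank_fintype_fun_eq_card, Fintype.card_coe]
  have hker : LinearMap.ker (Dm G S 2).transpose.mulVecLin ≤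
      LinearMap.range (Dm G S 1).transpose.mulVecLin := by
    intro x hx
    rw [LinearMap.mem_ker, Matrix.mulVecLin_apply] at hx
    obtain ⟨F, hF⟩ : ∃ F : Finset T → ZMod 2,
      F = fun τ => if h : τ ∈ faces G S 2 then x ⟨τ, h⟩ else 0 := ⟨_, rfl⟩
    have hsum : ∀ ρ ∈ faces G S 3, ∑ τ ∈ (faces G S 2).filter (fun τ => τ ⊆ ρ), F τ = 0 := by
      intro ρ hρ
      have h5 := congrFun hx ⟨ρ, hρ⟩
      rw [hF, ← O14_sum x ρ]
      exact h5
    have hcoc : Coc G S (fun s t => F {s, t}) := by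
      constructor
      · intro s t
        show F {s, t} = F {t, s}
        rw [pair_comm]
      · intro s hs t ht u hu hst htu hsu
        show F {s, t} + F {t, u} + F {s, u} = 0
        have h5 := hsum _ (O14_tri hs ht hu hst htu hsu)
        rw [O14_filter3 hs ht hu hst htu hsu, sum_insert, sum_insert, sum_singleton] at h5
        · rw [add_assoc]
          exact h5
        · rw [mem_singleton]
          intro hh
          rcases O14_pair_inj (Or.inr (Or.inr hh)) with h6 | h6 | h6
          · exact hst.ne h6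
          · exact htu.ne h6
          · exact hsu.ne h6
        · rw [mem_insert, mem_singleton]
          intro hh
          rcases O14_pair_inj (hh.elim Or.inl (fun h7 => Or.inr (Or.inl h7))) with h6 | h6 | h6
          · exact hst.ne h6
          · exact htu.ne h6
          · exact hsu.ne h6
    obtain ⟨w, hw⟩ := hc _ hcoc
    refine ⟨fun τ => ∑ s ∈ τ.1, w s, ?_⟩
    rw [Matrix.mulVecLin_apply]
    funext e
    obtain ⟨e, he⟩ := e
    obtain ⟨s, t, hst, rfl⟩ := card_eq_two.1 (mem_faces.1 he).2.2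
    have hs : s ∈ S := (mem_faces.1 he).1 (mem_insert_self s _)
    have ht : t ∈ S := (mem_faces.1 he).1 (mem_insert_of_mem (mem_singleton_self t))
    have hadj : G.Adj s t := (mem_faces.1 he).2.1 s (mem_insert_self s _) t
      (mem_insert_of_mem (mem_singleton_self t)) hst
    have h5 := hw s hs t ht hadj
    have h6 : x ⟨{s, t}, he⟩ = w s + w t := by
      have h8 : F {s, t} = x ⟨{s, t}, he⟩ := by
        rw [hF]
        exact dif_pos (c := ({s, t} : Finset T) ∈ faces G S 2) he
      rw [← h8]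
      exact h5
    have h7 := O14_sum (G := G) (S := S) (j := 1) (fun τ => ∑ s ∈ τ.1, w s) {s, t}
    rw [h6]
    refine Eq.trans ?_ (h7.trans ?_)
    · rfl
    · rw [O14_filter2 hs ht, sum_pair]
      · have hone : ∀ r ∈ S, ({r} : Finset T) ∈ faces G S 1 := fun r hr => by
          rw [mem_faces]
          refine ⟨by simpa using hr, ?_, card_singleton r⟩
          intro a ha b hb hab
          rw [mem_singleton] at ha hb
          exact absurd (ha.trans hb.symm) hab
        rw [dif_pos (hone s hs), dif_pos (hone t ht), sum_singleton, sum_singleton]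
      · intro hh
        exact hst (singleton_injective hh)
  have h5 : Module.finrank (ZMod 2) (LinearMap.ker (Dm G S 2).transpose.mulVecLin) ≤
      (Dm G S 1).rank := (Submodule.finrank_mono hker).trans (le_of_eq h3)
  omega

end Pool.Agent.LibFlagPL

end

section

namespace Pool.Agent.LibFlagPL

open Finset

set_option linter.unusedSectionVars false

variable {T : Type} [Fintype T] [DecidableEq T]

theorem thH2 (hD : DHyp) {G : SimpleGraph T} {S : Finset T} (h : F3 G S) (h0 : chi G S = 0)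
    (x : {σ // σ ∈ faces G S 3} → ZMod 2) (hx : (Dm G S 2).mulVec x = 0) :
    ∃ y : {σ // σ ∈ faces G S 4} → ZMod 2, (Dm G S 3).mulVec y = x := by
  refine exact_of_rank (Dm G S 2) (Dm G S 3) (Dm_mul 2) ?_ x hx
  rw [Fintype.card_coe]
  have h2 := rank_two_ge (G := G) (S := S) (fun z hz => thH1 hD h h0 hz)
  have h1 := rank_one_le (G := G) h.1.1
  have h3 := rank_top (G := G) (S := S) (j := 3) (fun τ hτ => h.cn_card hτ) (fun g hg => h.rel hg)
  have h4 := h.faces_four
  have h5 := h.faces_three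
  have h3' : (faces G S 4).card ≤ (Dm G S 3).rank + 1 := h3
  have h6 : (faces G S (2 + 1)).card = (faces G S 3).card := rfl
  omega

end Pool.Agent.LibFlagPL

end

section

namespace Pool.Agent.LibFlagPL

open Finset

set_option linter.unusedSectionVars false

variable {T : Type} [Fintype T] [DecidableEq T]

private theorem O16_ins {G : SimpleGraph T} {S τ : Finset T} {v : T} {j : ℕ} (hv : v ∈ S)
    (hτ : τ ∈ faces G (nb G S v) j) : insert v τ ∈ faces G S (j + 1) := by
  obtain ⟨h1, h2, h3⟩ := mem_faces.1 hτ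
  have hvτ : v ∉ τ := fun h => G.loopless.irrefl v (mem_nb.1 (h1 h)).2
  refine mem_faces.2 ⟨?_, ?_, ?_⟩
  · intro t ht
    rcases Finset.mem_insert.1 ht with rfl | ht
    · exact hv
    · exact (mem_nb.1 (h1 ht)).1
  · intro s hs t ht hst
    rcases Finset.mem_insert.1 hs with h5 | h5
    · rcases Finset.mem_insert.1 ht with h6 | h6
      · exact absurd (h5.trans h6.symm) hst
      · rw [h5]
        exact (mem_nb.1 (h1 h6)).2
    · rcases Finset.mem_insert.1 ht with h6 | h6
      · rw [h6]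
        exact (mem_nb.1 (h1 h5)).2.symm
      · exact h2 s h5 t h6 hst
  · rw [Finset.card_insert_of_notMem hvτ, h3]

private theorem O16_er {G : SimpleGraph T} {S σ : Finset T} {v : T} {j : ℕ}
    (hσ : σ ∈ faces G S (j + 1)) (hv : v ∈ σ) : σ.erase v ∈ faces G (nb G S v) j := by
  obtain ⟨h1, h2, h3⟩ := mem_faces.1 hσ
  refine mem_faces.2 ⟨?_, ?_, ?_⟩
  · intro t ht
    have ht' := Finset.mem_erase.1 ht
    exact mem_nb.2 ⟨h1 ht'.2, h2 v hv t ht'.2 (Ne.symm ht'.1)⟩
  · intro s hs t ht hst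
    exact h2 s (Finset.mem_of_mem_erase hs) t (Finset.mem_of_mem_erase ht) hst
  · have := Finset.card_erase_add_one hv
    omega

theorem status {G : SimpleGraph T} {S O : Finset T} (h : F3 G S) {g : Finset T → ZMod 2}
    (hg : ∀ τ ∈ faces G S 3, ¬ τ ⊆ O → ∀ a ∈ cn G S τ, ∀ b ∈ cn G S τ,
      g (insert a τ) = g (insert b τ)) {v : T} (hv : v ∈ S) (hvO : v ∉ O) :
    ∀ σ ∈ faces G S 4, ∀ σ' ∈ faces G S 4, v ∈ σ → v ∈ σ' → g σ = g σ' := by
  intro σ hσ σ' hσ' hvσ hvσ'
  have hrel : Rel G (nb G S v) 2 (fun τ => g (insert v τ)) := by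
    intro τ hτ a ha b hb
    have h1 := O16_ins hv hτ
    have h2 : ¬ insert v τ ⊆ O := fun h3 => hvO (h3 (Finset.mem_insert_self v τ))
    rw [← cn_insert] at ha hb
    have h4 := hg (insert v τ) h1 h2 a ha b hb
    show g (insert v (insert a τ)) = g (insert v (insert b τ))
    rw [Finset.insert_comm v a τ, Finset.insert_comm v b τ]
    exact h4
  have h5 := W2.rel (h.2 v hv).w2 hrel (σ.erase v) (O16_er hσ hvσ) (σ'.erase v)
    (O16_er hσ' hvσ')
  have h6 : g (insert v (σ.erase v)) = g (insert v (σ'.erase v)) := h5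
  rw [Finset.insert_erase hvσ, Finset.insert_erase hvσ'] at h6
  exact h6

private theorem O16_zmod (x : ZMod 2) (h : x ≠ 1) : x = 0 := by
  revert x
  decide

private theorem O16_pair (x y : ZMod 2) (h : x ≠ y) : (x = 1 ∧ y = 0) ∨ (x = 0 ∧ y = 1) := by
  revert x y
  decide

private theorem O16_key {G : SimpleGraph T} {S O : Finset T} (h : F3 G S) (hOS : O ⊆ S)
    (hO : F2 G O) {g : Finset T → ZMod 2}
    (hg' : ∀ τ ∈ faces G O 3, ∀ a ∈ cn G S τ, ∀ b ∈ cn G S τ, a ≠ b →
      g (insert a τ) ≠ g (insert b τ)) {σ : Finset T} (hσ : σ ∈ faces G O 3) :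
    ∃ a b : T, a ∈ S \ O ∧ b ∈ S \ O ∧ a ∈ cn G S σ ∧ b ∈ cn G S σ ∧
      insert a σ ∈ faces G S 4 ∧ insert b σ ∈ faces G S 4 ∧ g (insert a σ) = 1 ∧
      g (insert b σ) = 0 := by
  have hσS : σ ∈ faces G S 3 := by
    obtain ⟨h1, h2, h3⟩ := mem_faces.1 hσ
    exact mem_faces.2 ⟨h1.trans hOS, h2, h3⟩
  obtain ⟨h1, h2, h3⟩ := mem_faces.1 hσ
  have hmem : ∀ a ∈ cn G S σ, a ∈ S \ O ∧ insert a σ ∈ faces G S 4 := by
    intro a ha
    obtain ⟨ha1, ha2⟩ := mem_cn.1 ha
    have haσ : a ∉ σ := fun h4 => G.loopless.irrefl a (ha2 a h4)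
    have hcl : Cl G (insert a σ) := by
      intro s hs t ht hst
      rcases Finset.mem_insert.1 hs with h5 | h5
      · rcases Finset.mem_insert.1 ht with h6 | h6
        · exact absurd (h5.trans h6.symm) hst
        · rw [h5]
          exact (ha2 t h6).symm
      · rcases Finset.mem_insert.1 ht with h6 | h6
        · rw [h6]
          exact ha2 s h5
        · exact h2 s h5 t h6 hst
    have hcard : (insert a σ).card = 4 := by
      rw [Finset.card_insert_of_notMem haσ, h3]
    refine ⟨Finset.mem_sdiff.2 ⟨ha1, fun haO => ?_⟩, mem_faces.2 ⟨?_, hcl, hcard⟩⟩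
    · have h5 := F2.no_four hO (σ := insert a σ)
        (Finset.insert_subset haO h1) hcl
      omega
    · exact Finset.insert_subset ha1 (h1.trans hOS)
  obtain ⟨a, b, hab, hcn⟩ := Finset.card_eq_two.1 (F3.cn_card h hσS)
  have ha : a ∈ cn G S σ := by rw [hcn]; simp
  have hb : b ∈ cn G S σ := by rw [hcn]; simp
  rcases O16_pair _ _ (hg' σ hσ a ha b hb hab) with ⟨h4, h5⟩ | ⟨h4, h5⟩
  · exact ⟨a, b, (hmem a ha).1, (hmem b hb).1, ha, hb, (hmem a ha).2, (hmem b hb).2, h4, h5⟩
  · exact ⟨b, a, (hmem b hb).1, (hmem a ha).1, hb, ha, (hmem b hb).2, (hmem a ha).2, h5, h4⟩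

theorem sides_of_fun {G : SimpleGraph T} {S O : Finset T} (h : F3 G S) (hOS : O ⊆ S)
    (hO : F2 G O) {g : Finset T → ZMod 2}
    (hg : ∀ τ ∈ faces G S 3, ¬ τ ⊆ O → ∀ a ∈ cn G S τ, ∀ b ∈ cn G S τ,
      g (insert a τ) = g (insert b τ))
    (hg' : ∀ τ ∈ faces G O 3, ∀ a ∈ cn G S τ, ∀ b ∈ cn G S τ, a ≠ b →
      g (insert a τ) ≠ g (insert b τ)) :
    ∃ P Q, Sides G S O P Q 3 := by
  classical
  refine ⟨(S \ O).filter (fun v => ∃ σ ∈ faces G S 4, v ∈ σ ∧ g σ = 1),
    (S \ O).filter (fun v => ∀ σ ∈ faces G S 4, v ∈ σ → g σ = 0), ?_, ?_, ?_, ?_, ?_⟩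
  · rw [Finset.disjoint_left]
    intro v hv hv'
    obtain ⟨σ, h1, h2, h3⟩ := (Finset.mem_filter.1 hv).2
    have h4 := (Finset.mem_filter.1 hv').2 σ h1 h2
    rw [h3] at h4
    exact one_ne_zero h4
  · ext v
    rw [Finset.mem_union, Finset.mem_filter, Finset.mem_filter]
    constructor
    · rintro (h1 | h1)
      · exact h1.1
      · exact h1.1
    · intro hv
      by_cases h1 : ∃ σ ∈ faces G S 4, v ∈ σ ∧ g σ = 1
      · exact Or.inl ⟨hv, h1⟩
      · refine Or.inr ⟨hv, fun σ h2 h3 => O16_zmod _ fun h4 => h1 ⟨σ, h2, h3, h4⟩⟩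
  · intro p hp q hq hpq
    obtain ⟨hp1, σ, h1, h2, h3⟩ := Finset.mem_filter.1 hp
    obtain ⟨hq1, h4⟩ := Finset.mem_filter.1 hq
    obtain ⟨hpS, hpO⟩ := Finset.mem_sdiff.1 hp1
    obtain ⟨σ', h5, h6, h7⟩ := F3.pure2 h hpS (Finset.mem_sdiff.1 hq1).1 hpq
    have h8 := status h hg hpS hpO σ h1 σ' h5 h2 h6
    rw [h3, h4 σ' h5 h7] at h8
    exact one_ne_zero h8
  · intro σ hσ
    obtain ⟨a, b, ha, _, hac, _, haf, _, hga, _⟩ := O16_key h hOS hO hg' hσ
    refine ⟨a, Finset.mem_filter.2 ⟨ha, insert a σ, haf, Finset.mem_insert_self a σ, hga⟩,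
      fun s hs => ((mem_cn.1 hac).2 s hs).symm⟩
  · intro σ hσ
    obtain ⟨a, b, _, hb, _, hbc, _, hbf, _, hgb⟩ := O16_key h hOS hO hg' hσ
    obtain ⟨hbS, hbO⟩ := Finset.mem_sdiff.1 hb
    refine ⟨b, Finset.mem_filter.2 ⟨hb, fun σ' h1 h2 => ?_⟩,
      fun s hs => ((mem_cn.1 hbc).2 s hs).symm⟩
    have h8 := status h hg hbS hbO σ' h1 (insert b σ) hbf h2 (Finset.mem_insert_self b σ)
    rw [h8, hgb]

end Pool.Agent.LibFlagPL

end

section

namespace Pool.Agent.LibFlagPL

open Finset

set_option linter.unusedSectionVars false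

variable {T : Type} [Fintype T] [DecidableEq T]

private theorem O17_key {G : SimpleGraph T} {S : Finset T} {j : ℕ}
    (y : {σ // σ ∈ faces G S (j + 1)} → ZMod 2) {g : Finset T → ZMod 2}
    (hg : ∀ σ (h : σ ∈ faces G S (j + 1)), g σ = y ⟨σ, h⟩) (τ : {σ // σ ∈ faces G S j}) :
    (Dm G S j).mulVec y τ = ∑ a ∈ cn G S τ.1, g (insert a τ.1) := by
  classical
  have h1 : (Dm G S j).mulVec y τ =
      ∑ σ : {σ // σ ∈ faces G S (j + 1)}, (fun σ : Finset T => if τ.1 ⊆ σ then g σ else 0) σ.1 := by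
    unfold Matrix.mulVec dotProduct Dm
    refine Finset.sum_congr rfl fun σ _ => ?_
    by_cases h : τ.1 ⊆ σ.1
    · simp only [h, if_true, one_mul]
      exact (hg σ.1 σ.2).symm
    · simp only [h, if_false, zero_mul]
  rw [h1, Finset.sum_coe_sort (faces G S (j + 1)) (fun σ : Finset T => if τ.1 ⊆ σ then g σ else 0),
    ← Finset.sum_filter]
  symm
  refine Finset.sum_bij (fun a _ => insert a τ.1) ?_ ?_ ?_ ?_
  · intro a ha
    rw [Finset.mem_filter]
    exact (facets_of_ridge τ.2).2 ⟨a, ha, rfl⟩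
  · intro a ha b hb hab
    have h2 : a ∉ τ.1 := fun h => G.loopless.irrefl a ((mem_cn.1 ha).2 a h)
    have h3 : a ∈ insert b τ.1 := by rw [← hab]; exact Finset.mem_insert_self _ _
    rcases Finset.mem_insert.1 h3 with h3 | h3
    · exact h3
    · exact absurd h3 h2
  · intro σ hσ
    rw [Finset.mem_filter] at hσ
    obtain ⟨a, ha, h4⟩ := (facets_of_ridge τ.2).1 hσ
    exact ⟨a, ha, h4.symm⟩
  · intro a _
    rfl

theorem sides_exist (hD : DHyp) {G : SimpleGraph T} {S O : Finset T} (h : F3 G S)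
    (h0 : chi G S = 0) (hOS : O ⊆ S) (hO : F2 G O) : ∃ P Q, Sides G S O P Q 3 := by
  classical
  set x : {σ // σ ∈ faces G S 3} → ZMod 2 := fun τ => if τ.1 ⊆ O then 1 else 0 with hx
  set gx : Finset T → ZMod 2 := fun τ => if τ ⊆ O then 1 else 0 with hgx
  have hxx : (Dm G S 2).mulVec x = 0 := by
    funext e
    rw [O17_key (g := gx) x (fun σ h => rfl) e]
    have he := mem_faces.1 e.2
    by_cases heO : e.1 ⊆ O
    · have h1 : e.1 ∈ faces G O 2 := mem_faces.2 ⟨heO, he.2⟩
      have h2 := hO.w2.cn_card h1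
      have h3 : ∑ a ∈ cn G S e.1, gx (insert a e.1) = ∑ a ∈ cn G O e.1, (1 : ZMod 2) := by
        have h4 : cn G O e.1 = (cn G S e.1).filter (fun a => a ∈ O) := by
          ext a
          rw [Finset.mem_filter, mem_cn, mem_cn]
          exact ⟨fun h => ⟨⟨hOS h.1, h.2⟩, h.1⟩, fun h => ⟨h.2, h.1.2⟩⟩
        rw [h4, Finset.sum_filter]
        refine Finset.sum_congr rfl fun a _ => ?_
        rw [hgx]
        refine if_congr ?_ rfl rfl
        rw [Finset.insert_subset_iff]
        exact ⟨fun h => h.1, fun h => ⟨h, heO⟩⟩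
      rw [h3, Finset.sum_const, h2]
      rfl
    · refine Finset.sum_eq_zero fun a _ => ?_
      rw [hgx]
      exact if_neg fun h => heO ((Finset.subset_insert _ _).trans h)
  obtain ⟨y, hy⟩ := thH2 hD h h0 x hxx
  set g : Finset T → ZMod 2 := fun σ => if h : σ ∈ faces G S 4 then y ⟨σ, h⟩ else 0 with hg
  have hgy : ∀ σ (h : σ ∈ faces G S 4), g σ = y ⟨σ, h⟩ := fun σ h => dif_pos h
  have key : ∀ τ ∈ faces G S 3, ∀ a ∈ cn G S τ, ∀ b ∈ cn G S τ, a ≠ b →
      g (insert a τ) + g (insert b τ) = if τ ⊆ O then 1 else 0 := by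
    intro τ hτ a ha b hb hab
    have h1 : (Dm G S 3).mulVec y ⟨τ, hτ⟩ = x ⟨τ, hτ⟩ := by rw [hy]
    rw [O17_key y hgy ⟨τ, hτ⟩] at h1
    have h2 : cn G S τ = {a, b} := by
      symm
      refine Finset.eq_of_subset_of_card_le ?_ ?_
      · intro t ht
        rw [Finset.mem_insert, Finset.mem_singleton] at ht
        rcases ht with ht | ht
        · rw [ht]; exact ha
        · rw [ht]; exact hb
      · rw [h.cn_card hτ, Finset.card_pair hab]
    change ∑ c ∈ cn G S τ, g (insert c τ) = _ at h1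
    rw [h2, Finset.sum_pair hab] at h1
    exact h1
  refine sides_of_fun h hOS hO (g := g) ?_ ?_
  · intro τ hτ hτO a ha b hb
    by_cases hab : a = b
    · rw [hab]
    · have h1 := key τ hτ a ha b hb hab
      rw [if_neg hτO] at h1
      exact CharTwo.add_eq_zero.1 h1
  · intro τ hτ a ha b hb hab h1
    have hτS : τ ∈ faces G S 3 := by
      rw [mem_faces] at hτ ⊢
      exact ⟨hτ.1.trans hOS, hτ.2⟩
    have h2 := key τ hτS a ha b hb hab
    rw [if_pos (mem_faces.1 hτ).1, h1, CharTwo.add_self_eq_zero] at h2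
    exact zero_ne_one h2

end Pool.Agent.LibFlagPL

end

section

namespace Pool.Agent.LibFlagPL

open Finset

set_option linter.unusedSectionVars false

variable {T : Type} [Fintype T] [DecidableEq T]

theorem cap_nb_q {G : SimpleGraph T} {O P : Finset T} {q : T} (hq : q ∉ O) :
    nb (capG G O q) (insert q (O ∪ P)) q = O := by
  ext t
  rw [mem_nb]
  by_cases htq : t = q
  · subst htq
    constructor
    · intro h
      exact absurd h.2 ((capG G O t).loopless.irrefl t)
    · intro h
      exact absurd h hq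
  · rw [capG_adj_left htq, Finset.mem_insert, Finset.mem_union]
    tauto

theorem cap_nb_left {G : SimpleGraph T} {S O P Q : Finset T} {q p : T} {j : ℕ}
    (hS : Sides G S O P Q j) (hOS : O ⊆ S) (hq : q ∉ O ∪ P) (hp : p ∈ P) :
    nb (capG G O q) (insert q (O ∪ P)) p = nb G S p := by
  have hpq : p ≠ q := fun h => hq (h ▸ Finset.mem_union_right _ hp)
  have hqO : q ∉ O := fun h => hq (Finset.mem_union_left _ h)
  have hqP : q ∉ P := fun h => hq (Finset.mem_union_right _ h)
  have hPS := hS.left_subset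
  ext t
  rw [mem_nb, mem_nb]
  by_cases htq : t = q
  · subst htq
    rw [capG_adj_right hpq]
    constructor
    · intro h
      exact absurd h.2 (hS.left_not_mem hp)
    · rintro ⟨h1, h2⟩
      rcases hS.cases h1 with h | h | h
      · exact absurd h hqO
      · exact absurd h hqP
      · exact absurd h2 (hS.sep p hp _ h)
  · rw [capG_adj hpq htq, Finset.mem_insert, Finset.mem_union]
    constructor
    · rintro ⟨h1 | h1 | h1, h2⟩
      · exact absurd h1 htq
      · exact ⟨hOS h1, h2⟩
      · exact ⟨hPS h1, h2⟩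
    · rintro ⟨h1, h2⟩
      refine ⟨Or.inr ?_, h2⟩
      rcases hS.cases h1 with h | h | h
      · exact Or.inl h
      · exact Or.inr h
      · exact absurd h2 (hS.sep p hp _ h)

theorem cap_nb_mid {G : SimpleGraph T} {S O P Q : Finset T} {q o : T} {j : ℕ}
    (hS : Sides G S O P Q j) (hOS : O ⊆ S) (hq : q ∉ O ∪ P) (ho : o ∈ O) :
    nb (capG G O q) (insert q (O ∪ P)) o = insert q (nb G O o ∪ (nb G S o ∩ P)) := by
  have hqO : q ∉ O := fun h => hq (Finset.mem_union_left _ h)
  have hoq : o ≠ q := fun h => hqO (h ▸ ho)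
  have hPS := hS.left_subset
  ext t
  rw [mem_nb, Finset.mem_insert, Finset.mem_insert, Finset.mem_union, Finset.mem_union,
    Finset.mem_inter, mem_nb, mem_nb]
  by_cases htq : t = q
  · subst htq
    rw [capG_adj_right hoq]
    exact ⟨fun _ => Or.inl rfl, fun _ => ⟨Or.inl rfl, ho⟩⟩
  · rw [capG_adj hoq htq]
    constructor
    · rintro ⟨h1 | h1 | h1, h2⟩
      · exact absurd h1 htq
      · exact Or.inr (Or.inl ⟨h1, h2⟩)
      · exact Or.inr (Or.inr ⟨⟨hPS h1, h2⟩, h1⟩)
    · rintro (h | h | h)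
      · exact absurd h htq
      · exact ⟨Or.inr (Or.inl h.1), h.2⟩
      · exact ⟨Or.inr (Or.inr h.2), h.1.2⟩

private theorem O18_face {G : SimpleGraph T} {O σ : Finset T} {o : T} {j : ℕ} (ho : o ∈ O)
    (h : σ ∈ faces G (nb G O o) j) : insert o σ ∈ faces G O (j + 1) := by
  classical
  simp only [faces, Finset.mem_filter, Finset.mem_powerset] at h ⊢
  obtain ⟨h1, h2, h3⟩ := h
  have hadj : ∀ s ∈ σ, G.Adj o s := fun s hs => (mem_nb.1 (h1 hs)).2
  have hO : ∀ s ∈ σ, s ∈ O := fun s hs => (mem_nb.1 (h1 hs)).1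
  have hoσ : o ∉ σ := fun h => (hadj o h).ne rfl
  refine ⟨?_, ?_, ?_⟩
  · intro s hs
    rcases Finset.mem_insert.1 hs with h | h
    · exact h ▸ ho
    · exact hO s h
  · intro s hs t ht hst
    rcases Finset.mem_insert.1 hs with h | h
    · rcases Finset.mem_insert.1 ht with h' | h'
      · exact absurd (h.trans h'.symm) hst
      · rw [h]
        exact hadj t h'
    · rcases Finset.mem_insert.1 ht with h' | h'
      · rw [h']
        exact (hadj s h).symm
      · exact h2 s h t h' hst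
  · rw [Finset.card_insert_of_notMem hoσ, h3]

theorem Sides.link {G : SimpleGraph T} {S O P Q : Finset T} {o : T} {j : ℕ}
    (hS : Sides G S O P Q (j + 1)) (hOS : O ⊆ S) (ho : o ∈ O) :
    Sides G (nb G S o) (nb G O o) (nb G S o ∩ P) (nb G S o ∩ Q) j := by
  have hPS := hS.left_subset
  have hQS := hS.right_subset
  refine ⟨?_, ?_, ?_, ?_, ?_⟩
  · exact Finset.disjoint_of_subset_left Finset.inter_subset_right
      (Finset.disjoint_of_subset_right Finset.inter_subset_right hS.disj)
  · ext t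
    have hu : t ∈ P ∪ Q ↔ t ∈ S \ O := by rw [hS.union]
    rw [Finset.mem_union, Finset.mem_sdiff] at hu
    rw [Finset.mem_union, Finset.mem_inter, Finset.mem_inter, Finset.mem_sdiff, mem_nb, mem_nb]
    tauto
  · intro p hp r hr
    exact hS.sep p (Finset.mem_inter.1 hp).2 r (Finset.mem_inter.1 hr).2
  · intro σ hσ
    obtain ⟨p, hp, hadj⟩ := hS.left _ (O18_face ho hσ)
    refine ⟨p, Finset.mem_inter.2 ⟨mem_nb.2 ⟨hPS hp, ?_⟩, hp⟩, ?_⟩
    · exact (hadj o (Finset.mem_insert_self _ _)).symm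
    · exact fun s hs => hadj s (Finset.mem_insert_of_mem hs)
  · intro σ hσ
    obtain ⟨p, hp, hadj⟩ := hS.right _ (O18_face ho hσ)
    refine ⟨p, Finset.mem_inter.2 ⟨mem_nb.2 ⟨hQS hp, ?_⟩, hp⟩, ?_⟩
    · exact (hadj o (Finset.mem_insert_self _ _)).symm
    · exact fun s hs => hadj s (Finset.mem_insert_of_mem hs)

/-- on the link of `o` the two cap graphs agree -/
theorem cap_agr {G : SimpleGraph T} {S O P Q : Finset T} {q o : T} {j : ℕ}
    (hS : Sides G S O P Q j) (hq : q ∉ O ∪ P) (ho : o ∈ O) :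
    Agr (capG G (nb G O o) q) (capG G O q) (insert q (nb G O o ∪ (nb G S o ∩ P))) := by
  have hqO : q ∉ O := fun h => hq (Finset.mem_union_left _ h)
  have hqP : q ∉ P := fun h => hq (Finset.mem_union_right _ h)
  have key : ∀ t ∈ insert q (nb G O o ∪ (nb G S o ∩ P)), t ≠ q → (t ∈ nb G O o ↔ t ∈ O) := by
    intro t ht htq
    rw [Finset.mem_insert, Finset.mem_union, Finset.mem_inter] at ht
    constructor
    · intro h
      exact (mem_nb.1 h).1
    · intro h
      rcases ht with h' | h' | h'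
      · exact absurd h' htq
      · exact h'
      · exact absurd h (hS.left_not_mem h'.2)
  intro s hs t ht
  by_cases hsq : s = q
  · by_cases htq : t = q
    · subst hsq
      subst htq
      exact ⟨fun h => absurd h ((capG G (nb G O o) t).loopless.irrefl t),
        fun h => absurd h ((capG G O t).loopless.irrefl t)⟩
    · subst hsq
      rw [capG_adj_left htq, capG_adj_left htq]
      exact key t ht htq
  · by_cases htq : t = q
    · subst htq
      rw [capG_adj_right hsq, capG_adj_right hsq]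
      exact key s hs hsq
    · rw [capG_adj hsq htq, capG_adj hsq htq]

/-- away from `q` nothing changes -/
theorem cap_agr_away {G : SimpleGraph T} {O A : Finset T} {q : T} (hq : q ∉ A) :
    Agr G (capG G O q) A := by
  intro s hs t ht
  have hsq : s ≠ q := fun h => hq (h ▸ hs)
  have htq : t ≠ q := fun h => hq (h ▸ ht)
  exact (capG_adj hsq htq).symm

end Pool.Agent.LibFlagPL

end
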