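import Pool.Agent.LibFlagPL.SideB

/-!
# LibFlagPL.SideC: caps
-/

section

namespace Pool.Agent.LibFlagPL

open Finset

set_option linter.unusedSectionVars false

variable {T : Type} [Fintype T] [DecidableEq T]

theorem cap_conn {G : SimpleGraph T} {S O P Q : Finset T} {q : T} {j : ℕ}
    (hS : Sides G S O P Q j) (hOS : O ⊆ S) (hO : O.Nonempty) (hc : Conn G S)
    (hq : q ∉ O ∪ P) : Conn (capG G O q) (insert q (O ∪ P)) := by
  have hqO : ∀ o ∈ O, o ≠ q := by
    rintro o ho rfl
    exact hq (Finset.mem_union_left _ ho)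
  have hqP : ∀ p ∈ P, p ≠ q := by
    rintro p hp rfl
    exact hq (Finset.mem_union_right _ hp)
  have hmO : ∀ o ∈ O, o ∈ insert q (O ∪ P) := fun o ho =>
    Finset.mem_insert_of_mem (Finset.mem_union_left _ ho)
  have hmP : ∀ p ∈ P, p ∈ insert q (O ∪ P) := fun p hp =>
    Finset.mem_insert_of_mem (Finset.mem_union_right _ hp)
  have hstep : ∀ o ∈ O, Relation.ReflTransGen (fun a b => a ∈ insert q (O ∪ P) ∧
      b ∈ insert q (O ∪ P) ∧ (capG G O q).Adj a b) q o := by
    intro o ho
    exact Relation.ReflTransGen.single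
      ⟨Finset.mem_insert_self _ _, hmO o ho, (capG_adj_left (hqO o ho)).2 ho⟩
  have hreach : ∀ p ∈ P, Relation.ReflTransGen (fun a b => a ∈ insert q (O ∪ P) ∧
      b ∈ insert q (O ∪ P) ∧ (capG G O q).Adj a b) q p := by
    intro p hp
    by_contra hnp
    have key : ∀ t, Relation.ReflTransGen (fun a b => a ∈ S ∧ b ∈ S ∧ G.Adj a b) p t →
        t ∈ P ∧ ¬ Relation.ReflTransGen (fun a b => a ∈ insert q (O ∪ P) ∧
          b ∈ insert q (O ∪ P) ∧ (capG G O q).Adj a b) q t := by
      intro t ht
      induction ht with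
      | refl => exact ⟨hp, hnp⟩
      | @tail b c _ hbc ih =>
        obtain ⟨hbP, hbn⟩ := ih
        obtain ⟨-, hcS, hadj⟩ := hbc
        have hcO : c ∉ O := by
          intro hcO
          exact hbn ((hstep c hcO).tail ⟨hmO c hcO, hmP b hbP,
            (capG_adj (hqO c hcO) (hqP b hbP)).2 hadj.symm⟩)
        have hcPQ : c ∈ P ∪ Q := by
          rw [hS.union]
          exact Finset.mem_sdiff.2 ⟨hcS, hcO⟩
        have hcP : c ∈ P := by
          rcases Finset.mem_union.1 hcPQ with h | h
          · exact h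
          · exact absurd hadj (hS.sep b hbP c h)
        refine ⟨hcP, fun hcr => hbn (hcr.tail ⟨hmP c hcP, hmP b hbP,
          (capG_adj (hqP c hcP) (hqP b hbP)).2 hadj.symm⟩)⟩
    obtain ⟨o, ho⟩ := hO
    have h1 := key o (hc.2 p (hS.left_subset hp) o (hOS ho))
    exact hS.left_not_mem h1.1 ho
  have hall : ∀ x ∈ insert q (O ∪ P), Relation.ReflTransGen (fun a b => a ∈ insert q (O ∪ P) ∧
      b ∈ insert q (O ∪ P) ∧ (capG G O q).Adj a b) q x := by
    intro x hx
    rcases Finset.mem_insert.1 hx with rfl | hx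
    · exact Relation.ReflTransGen.refl
    · rcases Finset.mem_union.1 hx with h | h
      · exact hstep x h
      · exact hreach x h
  refine ⟨⟨q, Finset.mem_insert_self _ _⟩, fun x hx y hy => ?_⟩
  have hsym : Std.Symm (fun a b => a ∈ insert q (O ∪ P) ∧
      b ∈ insert q (O ∪ P) ∧ (capG G O q).Adj a b) :=
    ⟨fun a b h => ⟨h.2.1, h.1, h.2.2.symm⟩⟩
  exact (Relation.ReflTransGen.stdSymm.symm _ _ (hall x hx)).trans (hall y hy)

end Pool.Agent.LibFlagPL

end

section

namespace Pool.Agent.LibFlagPL

open Finset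

set_option linter.unusedSectionVars false

variable {T : Type} [Fintype T] [DecidableEq T]

private theorem O20_face {G : SimpleGraph T} {O : Finset T} {o : T} (ho : o ∈ O) :
    ({o} : Finset T) ∈ faces G O 1 := by
  rw [mem_faces]
  refine ⟨Finset.singleton_subset_iff.2 ho, ?_, Finset.card_singleton o⟩
  intro s hs t ht hst
  rw [Finset.mem_singleton] at hs ht
  exact absurd (hs.trans ht.symm) hst

private theorem O20_one {G : SimpleGraph T} {L O P Q : Finset T} {o : T} (hL : Circle G L)
    (hOL : O ⊆ L) (ho : o ∈ O) (hS : Sides G L O P Q 1) : (nb G L o ∩ P).card = 1 := by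
  obtain ⟨p, hp, hpo⟩ := hS.left {o} (O20_face ho)
  obtain ⟨q, hq, hqo⟩ := hS.right {o} (O20_face ho)
  have hpn : p ∈ nb G L o ∩ P := Finset.mem_inter.2
    ⟨mem_nb.2 ⟨hS.left_subset hp, (hpo o (Finset.mem_singleton_self o)).symm⟩, hp⟩
  have hqn : q ∈ nb G L o ∩ Q := Finset.mem_inter.2
    ⟨mem_nb.2 ⟨hS.right_subset hq, (hqo o (Finset.mem_singleton_self o)).symm⟩, hq⟩
  have h1 : 0 < (nb G L o ∩ P).card := Finset.card_pos.2 ⟨p, hpn⟩
  have h2 : 0 < (nb G L o ∩ Q).card := Finset.card_pos.2 ⟨q, hqn⟩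
  have hd : Disjoint (nb G L o ∩ P) (nb G L o ∩ Q) :=
    Finset.disjoint_of_subset_left Finset.inter_subset_right
      (Finset.disjoint_of_subset_right Finset.inter_subset_right hS.disj)
  have h3 : ((nb G L o ∩ P) ∪ (nb G L o ∩ Q)).card ≤ (nb G L o).card :=
    Finset.card_le_card (Finset.union_subset Finset.inter_subset_left Finset.inter_subset_left)
  rw [Finset.card_union_of_disjoint hd, hL.2.1 o (hOL ho)] at h3
  omega

theorem cap1 {G : SimpleGraph T} {L P Q : Finset T} {a b q : T} (hL : Circle G L) (ha : a ∈ L)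
    (hb : b ∈ L) (hab : a ≠ b) (hn : ¬ G.Adj a b) (hS : Sides G L {a, b} P Q 1)
    (hq : q ∉ ({a, b} : Finset T) ∪ P) :
    Circle (capG G {a, b} q) (insert q ({a, b} ∪ P)) := by
  have hOL : ({a, b} : Finset T) ⊆ L := by
    intro x hx
    rw [Finset.mem_insert, Finset.mem_singleton] at hx
    rcases hx with rfl | rfl
    · exact ha
    · exact hb
  have haO : a ∈ ({a, b} : Finset T) := Finset.mem_insert_self a _
  have hbO : b ∈ ({a, b} : Finset T) := Finset.mem_insert_of_mem (Finset.mem_singleton_self b)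
  have hqO : q ∉ ({a, b} : Finset T) := fun h => hq (Finset.mem_union_left _ h)
  have hqP : q ∉ P := fun h => hq (Finset.mem_union_right _ h)
  have hqa : q ≠ a := fun h => hqO (h ▸ haO)
  have hqb : q ≠ b := fun h => hqO (h ▸ hbO)
  have hnb : ∀ o ∈ ({a, b} : Finset T), nb G {a, b} o = ∅ := by
    intro o ho
    rw [Finset.eq_empty_iff_forall_notMem]
    intro t ht
    have h1 := mem_nb.1 ht
    rw [Finset.mem_insert, Finset.mem_singleton] at ho h1
    rcases ho with rfl | rfl
    · rcases h1.1 with h2 | h2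
      · exact h1.2.ne h2.symm
      · exact hn (h2 ▸ h1.2)
    · rcases h1.1 with h2 | h2
      · exact hn (h2 ▸ h1.2.symm)
      · exact h1.2.ne h2.symm
  refine ⟨?_, ?_, cap_conn hS hOL ⟨a, haO⟩ hL.2.2 hq⟩
  · obtain ⟨p, hp, -⟩ := hS.left {a} (O20_face haO)
    have hpO := hS.left_not_mem hp
    have hpa : a ≠ p := fun h => hpO (h ▸ haO)
    have hpb : b ≠ p := fun h => hpO (h ▸ hbO)
    have hqp : q ≠ p := fun h => hqP (h ▸ hp)
    have h1 : ({q, a, b, p} : Finset T).card = 4 := by
      rw [Finset.card_insert_of_notMem, Finset.card_insert_of_notMem, Finset.card_pair hpb]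
      · simp only [Finset.mem_insert, Finset.mem_singleton, not_or]
        exact ⟨hab, hpa⟩
      · simp only [Finset.mem_insert, Finset.mem_singleton, not_or]
        exact ⟨hqa, hqb, hqp⟩
    rw [← h1]
    apply Finset.card_le_card
    intro x hx
    simp only [Finset.mem_insert, Finset.mem_singleton] at hx
    rcases hx with rfl | rfl | rfl | rfl
    · exact Finset.mem_insert_self _ _
    · exact Finset.mem_insert_of_mem (Finset.mem_union_left _ haO)
    · exact Finset.mem_insert_of_mem (Finset.mem_union_left _ hbO)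
    · exact Finset.mem_insert_of_mem (Finset.mem_union_right _ hp)
  · intro x hx
    rcases Finset.mem_insert.1 hx with hx1 | hx1
    · rw [hx1, cap_nb_q hqO, Finset.card_pair hab]
    · rcases Finset.mem_union.1 hx1 with hx2 | hx2
      · rw [cap_nb_mid hS hOL hq hx2, hnb x hx2, Finset.empty_union, Finset.card_insert_of_notMem,
          O20_one hL hOL hx2 hS]
        intro h1
        exact hqP (Finset.mem_inter.1 h1).2
      · rw [cap_nb_left hS hOL hq hx2]
        exact hL.2.1 x (hS.left_subset hx2)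

end Pool.Agent.LibFlagPL

end

section

namespace Pool.Agent.LibFlagPL

open Finset

set_option linter.unusedSectionVars false

variable {T : Type} [Fintype T] [DecidableEq T]

theorem cap2_w2 {G : SimpleGraph T} {K C P Q : Finset T} {q : T} (hK : W2 G K)
    (hC : Circle G C) (hCK : C ⊆ K) (hS : Sides G K C P Q 2) (hq : q ∉ C ∪ P) :
    W2 (capG G C q) (insert q (C ∪ P)) := by
  have hqC : q ∉ C := fun h => hq (Finset.mem_union_left _ h)
  have hqP : q ∉ P := fun h => hq (Finset.mem_union_right _ h)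
  refine ⟨cap_conn hS hCK hC.2.2.1 hK.1 hq, fun s hs => ?_⟩
  rcases Finset.mem_insert.1 hs with rfl | hs'
  · rw [cap_nb_q hqC]
    exact (cap_agr_away hqC).circle hC
  rcases Finset.mem_union.1 hs' with hc | hp
  · rw [cap_nb_mid hS hCK hq hc]
    obtain ⟨a, b, hab, hn, he⟩ := hC.nb_eq hc
    have hl : Sides G (nb G K s) (nb G C s) (nb G K s ∩ P) (nb G K s ∩ Q) 1 := hS.link hCK hc
    have hagr := cap_agr (q := q) hS hq hc
    rw [he] at hl hagr ⊢
    have ha : a ∈ nb G C s := by rw [he]; simp
    have hb : b ∈ nb G C s := by rw [he]; simp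
    have ha' : a ∈ nb G K s := mem_nb.2 ⟨hCK (mem_nb.1 ha).1, (mem_nb.1 ha).2⟩
    have hb' : b ∈ nb G K s := mem_nb.2 ⟨hCK (mem_nb.1 hb).1, (mem_nb.1 hb).2⟩
    have hq2 : q ∉ ({a, b} : Finset T) ∪ (nb G K s ∩ P) := by
      intro h
      rcases Finset.mem_union.1 h with h | h
      · rw [← he] at h
        exact hqC (mem_nb.1 h).1
      · exact hqP (Finset.mem_inter.1 h).2
    exact hagr.circle (cap1 (hK.2 s (hCK hc)) ha' hb' hab hn hl hq2)
  · rw [cap_nb_left hS hCK hq hp]
    have hq3 : q ∉ nb G K s := by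
      intro h
      obtain ⟨h1, h2⟩ := mem_nb.1 h
      rcases hS.cases h1 with h | h | h
      · exact hqC h
      · exact hqP h
      · exact hS.sep s hp q h h2
    exact (cap_agr_away hq3).circle (hK.2 s (hS.left_subset hp))

end Pool.Agent.LibFlagPL

end

section

namespace Pool.Agent.LibFlagPL

open Finset

set_option linter.unusedSectionVars false

variable {T : Type} [Fintype T] [DecidableEq T]

private theorem O22_disj {G : SimpleGraph T} {K C P Q : Finset T} (hS : Sides G K C P Q 2) :
    Disjoint C P := by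
  rw [Finset.disjoint_left]
  intro c hc hp
  exact hS.left_not_mem hp hc

/-- degree sum of one cap -/
private theorem O22_one {G : SimpleGraph T} {K C P Q : Finset T} {q : T} (hC : Circle G C)
    (hCK : C ⊆ K) (hS : Sides G K C P Q 2) (hq : q ∉ C ∪ P) :
    (∑ s ∈ insert q (C ∪ P), (nb (capG G C q) (insert q (C ∪ P)) s).card) =
      4 * C.card + ∑ c ∈ C, (nb G K c ∩ P).card + ∑ p ∈ P, (nb G K p).card := by
  have hqC : q ∉ C := fun h => hq (Finset.mem_union_left _ h)
  have hqP : q ∉ P := fun h => hq (Finset.mem_union_right _ h)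
  rw [Finset.sum_insert hq, cap_nb_q hqC, Finset.sum_union (O22_disj hS)]
  have h1 : ∑ c ∈ C, (nb (capG G C q) (insert q (C ∪ P)) c).card =
      ∑ c ∈ C, (3 + (nb G K c ∩ P).card) := by
    refine Finset.sum_congr rfl fun c hc => ?_
    rw [cap_nb_mid hS hCK hq hc, Finset.card_insert_of_notMem, Finset.card_union_of_disjoint,
      hC.2.1 c hc]
    · omega
    · rw [Finset.disjoint_left]
      intro t ht ht'
      exact hS.left_not_mem (Finset.mem_inter.1 ht').2 (nb_subset ht)
    · intro h
      rcases Finset.mem_union.1 h with h | h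
      · exact hqC (nb_subset h)
      · exact hqP (Finset.mem_inter.1 h).2
  have h2 : ∑ p ∈ P, (nb (capG G C q) (insert q (C ∪ P)) p).card = ∑ p ∈ P, (nb G K p).card :=
    Finset.sum_congr rfl fun p hp => by rw [cap_nb_left hS hCK hq hp]
  rw [h1, h2, Finset.sum_add_distrib, Finset.sum_const, smul_eq_mul]
  ring

theorem cap2_deg {G : SimpleGraph T} {K C P Q : Finset T} {q q' : T} (hC : Circle G C)
    (hCK : C ⊆ K) (hS : Sides G K C P Q 2) (hq : q ∉ C ∪ P) (hq' : q' ∉ C ∪ Q) :
    (∑ s ∈ insert q (C ∪ P), (nb (capG G C q) (insert q (C ∪ P)) s).card) +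
      (∑ s ∈ insert q' (C ∪ Q), (nb (capG G C q') (insert q' (C ∪ Q)) s).card) =
    (∑ s ∈ K, (nb G K s).card) + 6 * C.card := by
  rw [O22_one hC hCK hS hq, O22_one hC hCK hS.symm hq']
  have h1 : ∑ s ∈ K, (nb G K s).card =
      ∑ p ∈ P, (nb G K p).card + ∑ p ∈ Q, (nb G K p).card + ∑ c ∈ C, (nb G K c).card := by
    rw [← Finset.sum_union hS.disj, hS.union, Finset.sum_sdiff hCK]
  have h2 : ∑ c ∈ C, (nb G K c).card =
      2 * C.card + ∑ c ∈ C, (nb G K c ∩ P).card + ∑ c ∈ C, (nb G K c ∩ Q).card := by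
    have h3 : ∀ c ∈ C, (nb G K c).card = 2 + (nb G K c ∩ P).card + (nb G K c ∩ Q).card := by
      intro c hc
      have h4 : nb G K c = nb G C c ∪ (nb G K c ∩ P) ∪ (nb G K c ∩ Q) := by
        ext t
        rw [Finset.mem_union, Finset.mem_union, Finset.mem_inter, Finset.mem_inter]
        constructor
        · intro ht
          rcases hS.cases (nb_subset ht) with h5 | h5 | h5
          · exact Or.inl (Or.inl (mem_nb.2 ⟨h5, (mem_nb.1 ht).2⟩))
          · exact Or.inl (Or.inr ⟨ht, h5⟩)
          · exact Or.inr ⟨ht, h5⟩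
        · rintro ((h5 | h5) | h5)
          · exact mem_nb.2 ⟨hCK (nb_subset h5), (mem_nb.1 h5).2⟩
          · exact h5.1
          · exact h5.1
      have h5 : Disjoint (nb G C c) (nb G K c ∩ P) := by
        rw [Finset.disjoint_left]
        intro t ht ht'
        exact hS.left_not_mem (Finset.mem_inter.1 ht').2 (nb_subset ht)
      have h6 : Disjoint (nb G C c ∪ (nb G K c ∩ P)) (nb G K c ∩ Q) := by
        rw [Finset.disjoint_left]
        intro t ht ht'
        rcases Finset.mem_union.1 ht with h7 | h7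
        · exact hS.right_not_mem (Finset.mem_inter.1 ht').2 (nb_subset h7)
        · exact (Finset.disjoint_left.1 hS.disj) (Finset.mem_inter.1 h7).2
            (Finset.mem_inter.1 ht').2
      have h7 : (nb G K c).card = (nb G C c ∪ (nb G K c ∩ P) ∪ (nb G K c ∩ Q)).card :=
        congrArg Finset.card h4
      rw [h7, Finset.card_union_of_disjoint h6, Finset.card_union_of_disjoint h5, hC.2.1 c hc]
    rw [Finset.sum_congr rfl h3, Finset.sum_add_distrib, Finset.sum_add_distrib,
      Finset.sum_const, smul_eq_mul]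
    ring
  rw [h1, h2]
  ring

end Pool.Agent.LibFlagPL

end

section

namespace Pool.Agent.LibFlagPL

open Finset

set_option linter.unusedSectionVars false

variable {T : Type} [Fintype T] [DecidableEq T]

theorem cap2 {G : SimpleGraph T} {K C P Q : Finset T} {q : T} (hK : F2 G K)
    (hC : Circle G C) (hCK : C ⊆ K) (hS : Sides G K C P Q 2) (hq : q ∉ C ∪ P) :
    F2 (capG G C q) (insert q (C ∪ P)) := by
  have hne : C.Nonempty := by
    rw [← Finset.card_pos]
    have := hC.1
    omega
  obtain ⟨c, hc⟩ := hne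
  have h2 := hC.2.1 c hc
  obtain ⟨d, hd⟩ : (nb G C c).Nonempty := by
    rw [← Finset.card_pos]
    omega
  rw [mem_nb] at hd
  have hf : ({c, d} : Finset T) ∈ faces G C 2 := by
    rw [mem_faces]
    refine ⟨?_, ?_, Finset.card_pair hd.2.ne⟩
    · intro x hx
      rcases Finset.mem_insert.1 hx with rfl | hx
      · exact hc
      · rw [Finset.mem_singleton.1 hx]
        exact hd.1
    · intro x hx y hy hxy
      rw [Finset.mem_insert, Finset.mem_singleton] at hx hy
      rcases hx with rfl | rfl <;> rcases hy with rfl | rfl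
      · exact absurd rfl hxy
      · exact hd.2
      · exact hd.2.symm
      · exact absurd rfl hxy
  obtain ⟨q', hq', -⟩ := hS.left _ hf
  have hq'2 : q' ∉ C ∪ Q := by
    rw [Finset.mem_union]
    rintro (h | h)
    · exact hS.left_not_mem hq' h
    · exact (Finset.disjoint_left.1 hS.disj) hq' h
  have hW : W2 G K := ⟨hK.1, hK.2.1⟩
  have w1 := cap2_w2 hW hC hCK hS hq
  have w2 := cap2_w2 hW hC hCK hS.symm hq'2
  have i1 := w2_ineq w1
  have i2 := w2_ineq w2
  have hdeg := cap2_deg hC hCK hS hq hq'2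
  have hCP : Disjoint C P := by
    rw [Finset.disjoint_left]
    intro x hx hxP
    exact hS.left_not_mem hxP hx
  have hCQ : Disjoint C Q := by
    rw [Finset.disjoint_left]
    intro x hx hxQ
    exact hS.right_not_mem hxQ hx
  have c1 : (insert q (C ∪ P)).card = C.card + P.card + 1 := by
    rw [Finset.card_insert_of_notMem hq, Finset.card_union_of_disjoint hCP]
  have c2 : (insert q' (C ∪ Q)).card = C.card + Q.card + 1 := by
    rw [Finset.card_insert_of_notMem hq'2, Finset.card_union_of_disjoint hCQ]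
  have c3 : K.card = C.card + (P.card + Q.card) := by
    rw [← Finset.card_union_of_disjoint hS.disj, hS.union, Finset.card_sdiff_of_subset hCK]
    have := Finset.card_le_card hCK
    omega
  have e := hK.2.2
  refine ⟨w1.1, w1.2, ?_⟩
  omega

end Pool.Agent.LibFlagPL

end

section

namespace Pool.Agent.LibFlagPL

open Finset

set_option linter.unusedSectionVars false

variable {T : Type} [Fintype T] [DecidableEq T]

theorem cap3 {G : SimpleGraph T} {M O P Q : Finset T} {q : T} (hM : F3 G M) (hO : F2 G O)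
    (hOM : O ⊆ M) (hS : Sides G M O P Q 3) (hq : q ∉ O ∪ P) :
    F3 (capG G O q) (insert q (O ∪ P)) := by
  have hqO : q ∉ O := fun h => hq (Finset.mem_union_left _ h)
  have hqP : q ∉ P := fun h => hq (Finset.mem_union_right _ h)
  refine ⟨cap_conn hS hOM hO.1.1 hM.1 hq, ?_⟩
  intro s hs
  rcases Finset.mem_insert.1 hs with hsq | hs
  · rw [hsq, cap_nb_q hqO]
    exact (cap_agr_away hqO).f2 hO
  · rcases Finset.mem_union.1 hs with ho | hp
    · rw [cap_nb_mid hS hOM hq ho]
      have h1 : Sides G (nb G M s) (nb G O s) (nb G M s ∩ P) (nb G M s ∩ Q) 2 :=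
        Sides.link hS hOM ho
      have h2 : Circle G (nb G O s) := hO.2.1 s ho
      have h3 : F2 G (nb G M s) := hM.2 s (hOM ho)
      have h4 : nb G O s ⊆ nb G M s := by
        intro t ht
        rw [mem_nb] at ht ⊢
        exact ⟨hOM ht.1, ht.2⟩
      have h5 : q ∉ nb G O s ∪ (nb G M s ∩ P) := by
        intro h
        rcases Finset.mem_union.1 h with h | h
        · rw [mem_nb] at h
          exact hqO h.1
        · exact hqP (Finset.mem_inter.1 h).2
      exact (cap_agr hS hq ho).f2 (cap2 h3 h2 h4 h1 h5)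
    · rw [cap_nb_left hS hOM hq hp]
      refine (cap_agr_away ?_).f2 (hM.2 s (hS.left_subset hp))
      intro h
      rw [mem_nb] at h
      rcases hS.cases h.1 with h1 | h1 | h1
      · exact hqO h1
      · exact hqP h1
      · exact hS.sep s hp q h1 h.2

end Pool.Agent.LibFlagPL

end

section

namespace Pool.Agent.LibFlagPL

open Finset

set_option linter.unusedSectionVars false

variable {T : Type} [Fintype T] [DecidableEq T]

open scoped Classical in
private theorem O25_chi {G : SimpleGraph T} (S : Finset T) :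
    chi G S = ∑ σ ∈ S.powerset, (if Cl G σ then (-1 / 2 : ℚ) ^ σ.card else 0) := by
  unfold chi
  rw [Finset.sum_filter]

theorem chi_sides_union {G : SimpleGraph T} {S O P Q : Finset T} {j : ℕ} (hS : Sides G S O P Q j)
    (hOS : O ⊆ S) : chi G S + chi G O = chi G (O ∪ P) + chi G (O ∪ Q) := by
  classical
  have hU : S.powerset.filter (fun σ => Cl G σ) =
      (O ∪ P).powerset.filter (fun σ => Cl G σ) ∪ (O ∪ Q).powerset.filter (fun σ => Cl G σ) := by
    ext σ
    simp only [Finset.mem_union, Finset.mem_filter, Finset.mem_powerset]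
    constructor
    · rintro ⟨h1, h2⟩
      by_cases hq : ∃ q ∈ σ, q ∈ Q
      · obtain ⟨q, hqσ, hqQ⟩ := hq
        right
        refine ⟨?_, h2⟩
        intro x hx
        rcases hS.cases (h1 hx) with h3 | h3 | h3
        · exact Finset.mem_union_left _ h3
        · exfalso
          have hne : x ≠ q := fun h4 => Finset.disjoint_left.1 hS.disj h3 (h4 ▸ hqQ)
          exact hS.sep x h3 q hqQ (h2 x hx q hqσ hne)
        · exact Finset.mem_union_right _ h3
      · left
        refine ⟨?_, h2⟩
        intro x hx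
        rcases hS.cases (h1 hx) with h3 | h3 | h3
        · exact Finset.mem_union_left _ h3
        · exact Finset.mem_union_right _ h3
        · exact absurd ⟨x, hx, h3⟩ hq
    · rintro (⟨h1, h2⟩ | ⟨h1, h2⟩)
      · exact ⟨h1.trans (Finset.union_subset hOS hS.left_subset), h2⟩
      · exact ⟨h1.trans (Finset.union_subset hOS hS.right_subset), h2⟩
  have hI : O.powerset.filter (fun σ => Cl G σ) =
      (O ∪ P).powerset.filter (fun σ => Cl G σ) ∩ (O ∪ Q).powerset.filter (fun σ => Cl G σ) := by
    ext σ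
    simp only [Finset.mem_inter, Finset.mem_filter, Finset.mem_powerset]
    constructor
    · rintro ⟨h1, h2⟩
      exact ⟨⟨h1.trans Finset.subset_union_left, h2⟩, ⟨h1.trans Finset.subset_union_left, h2⟩⟩
    · rintro ⟨⟨h1, h2⟩, ⟨h3, _⟩⟩
      refine ⟨?_, h2⟩
      intro x hx
      rcases Finset.mem_union.1 (h1 hx) with h4 | h4
      · exact h4
      · rcases Finset.mem_union.1 (h3 hx) with h5 | h5
        · exact h5
        · exact absurd h5 (Finset.disjoint_left.1 hS.disj h4)
  have key := Finset.sum_union_inter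
    (s₁ := (O ∪ P).powerset.filter (fun σ => Cl G σ))
    (s₂ := (O ∪ Q).powerset.filter (fun σ => Cl G σ))
    (f := fun σ : Finset T => (-1 / 2 : ℚ) ^ σ.card)
  rw [← hU, ← hI] at key
  have e : ∀ A : Finset T, chi G A =
      ∑ σ ∈ A.powerset.filter (fun σ => Cl G σ), (-1 / 2 : ℚ) ^ σ.card := by
    intro A
    unfold chi
    refine Finset.sum_congr ?_ (fun _ _ => rfl)
    ext σ
    simp only [Finset.mem_filter]
  rw [e S, e O, e (O ∪ P), e (O ∪ Q)]
  exact key

theorem chi_insert {G : SimpleGraph T} {A : Finset T} {q : T} (hq : q ∉ A) :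
    chi G (insert q A) = chi G A - chi G (nb G A q) / 2 := by
  classical
  rw [O25_chi (insert q A), O25_chi A, O25_chi (nb G A q), Finset.sum_powerset_insert hq]
  have hsub : (nb G A q).powerset ⊆ A.powerset := Finset.powerset_mono.2 nb_subset
  have h1 : ∀ t ∈ (nb G A q).powerset,
      (if Cl G (insert q t) then (-1 / 2 : ℚ) ^ (insert q t).card else 0) =
        (-1 / 2 : ℚ) * (if Cl G t then (-1 / 2 : ℚ) ^ t.card else 0) := by
    intro t ht
    have ht' : t ⊆ nb G A q := Finset.mem_powerset.1 ht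
    have hqt : q ∉ t := fun h => hq (nb_subset (ht' h))
    have hiff : Cl G (insert q t) ↔ Cl G t := by
      constructor
      · intro h a ha b hb hab
        exact h a (Finset.mem_insert_of_mem ha) b (Finset.mem_insert_of_mem hb) hab
      · intro h a ha b hb hab
        rcases Finset.mem_insert.1 ha with ha1 | ha1
        · rcases Finset.mem_insert.1 hb with hb1 | hb1
          · exact absurd (ha1.trans hb1.symm) hab
          · rw [ha1]
            exact (mem_nb.1 (ht' hb1)).2
        · rcases Finset.mem_insert.1 hb with hb1 | hb1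
          · rw [hb1]
            exact (mem_nb.1 (ht' ha1)).2.symm
          · exact h a ha1 b hb1 hab
    by_cases hc : Cl G t
    · rw [if_pos (hiff.2 hc), if_pos hc, Finset.card_insert_of_notMem hqt, pow_succ]
      ring
    · rw [if_neg (fun h => hc (hiff.1 h)), if_neg hc, mul_zero]
  have h2 : ∑ t ∈ A.powerset,
      (if Cl G (insert q t) then (-1 / 2 : ℚ) ^ (insert q t).card else 0) =
      ∑ t ∈ (nb G A q).powerset,
        (if Cl G (insert q t) then (-1 / 2 : ℚ) ^ (insert q t).card else 0) := by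
    symm
    apply Finset.sum_subset hsub
    intro t htA htn
    apply if_neg
    intro hc
    apply htn
    rw [Finset.mem_powerset]
    intro x hx
    have hxA : x ∈ A := (Finset.mem_powerset.1 htA) hx
    have hqx : q ≠ x := fun h => hq (h ▸ hxA)
    exact mem_nb.2 ⟨hxA, hc q (Finset.mem_insert_self _ _) x (Finset.mem_insert_of_mem hx) hqx⟩
  rw [h2, Finset.sum_congr rfl h1, ← Finset.mul_sum]
  ring_nf

end Pool.Agent.LibFlagPL

end

section

namespace Pool.Agent.LibFlagPL

open Finset

set_option linter.unusedSectionVars false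

variable {T : Type} [Fintype T] [DecidableEq T]

theorem chi_cap {G : SimpleGraph T} {O P : Finset T} {q : T} (hO : F2 G O) (hq : q ∉ O ∪ P) :
    chi (capG G O q) (insert q (O ∪ P)) = chi G (O ∪ P) := by
  have hqO : q ∉ O := fun h => hq (Finset.mem_union_left _ h)
  have h1 : nb (capG G O q) (O ∪ P) q = O := by
    ext t
    rw [mem_nb]
    constructor
    · rintro ⟨h1, h2⟩
      have htq : t ≠ q := fun h => hq (h ▸ h1)
      exact (capG_adj_left htq).1 h2
    · intro h
      have htq : t ≠ q := fun h' => hqO (h' ▸ h)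
      exact ⟨Finset.mem_union_left _ h, (capG_adj_left htq).2 h⟩
  rw [chi_insert hq, h1, (cap_agr_away hqO).chi, hO.chi_eq, (cap_agr_away hq).chi]
  ring

theorem cap_chi_zero (hD : DHyp) {G : SimpleGraph T} {M O P Q : Finset T} {q : T}
    (hM : F3 G M) (h0 : chi G M = 0) (hO : F2 G O) (hOM : O ⊆ M) (hS : Sides G M O P Q 3)
    (hq : q ∉ O ∪ P) : chi (capG G O q) (insert q (O ∪ P)) = 0 := by
  obtain ⟨t, ht⟩ := hO.1.1
  obtain ⟨σ, hσ, -⟩ := W2.pure hO.w2 ht
  obtain ⟨q', hq'P, -⟩ := hS.left σ hσ
  have hq' : q' ∉ O ∪ Q := by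
    intro h
    rcases Finset.mem_union.1 h with h | h
    · exact hS.left_not_mem hq'P h
    · exact Finset.disjoint_left.1 hS.disj hq'P h
  have h1 := hD T (capG G O q) (insert q (O ∪ P)) (cap3 hM hO hOM hS hq)
  have h2 := hD T (capG G O q') (insert q' (O ∪ Q)) (cap3 hM hO hOM hS.symm hq')
  have h3 := chi_sides_union hS hOM
  rw [h0, hO.chi_eq] at h3
  rw [chi_cap hO hq] at h1 ⊢
  rw [chi_cap hO hq'] at h2
  linarith

end Pool.Agent.LibFlagPL

end

section

namespace Pool.Agent.LibFlagPL

open Finset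

set_option linter.unusedSectionVars false

variable {T : Type} [Fintype T] [DecidableEq T]

theorem GE.of_cap {G : SimpleGraph T} {M O P Q : Finset T} {q u v : T}
    (hOM : O ⊆ M) (hS : Sides G M O P Q 3) (hq : q ∉ O ∪ P)
    (h : GE (capG G O q) (insert q (O ∪ P)) u v) (hu : u ∉ insert q O) :
    GE G M u v ∧ u ∈ P := by
  obtain ⟨huM, hvM, huv, hsq⟩ := h
  have huq : u ≠ q := fun h0 => hu (by rw [h0]; exact Finset.mem_insert_self q O)
  have huO : u ∉ O := fun h0 => hu (Finset.mem_insert_of_mem h0)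
  have huP : u ∈ P := by
    rcases Finset.mem_insert.1 huM with h0 | h0
    · exact absurd h0 huq
    · rcases Finset.mem_union.1 h0 with h1 | h1
      · exact absurd h1 huO
      · exact h1
  have hvq : v ≠ q := by
    rintro rfl
    exact huO ((capG_adj_right huq).1 huv)
  have hvOP : v ∈ O ∪ P := (Finset.mem_insert.1 hvM).resolve_left hvq
  have hM : ∀ x ∈ O ∪ P, x ∈ M := fun x hx =>
    (Finset.mem_union.1 hx).elim (fun h0 => hOM h0) (fun h0 => hS.left_subset h0)
  have hne : ∀ x ∈ O ∪ P, x ≠ q := fun x hx h0 => hq (h0 ▸ hx)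
  have huOP : u ∈ O ∪ P := Finset.mem_union_right _ huP
  have huv' : G.Adj u v := (capG_adj huq hvq).1 huv
  refine ⟨⟨hM u huOP, hM v hvOP, huv', ?_⟩, huP⟩
  intro w hw t ht hwu htv hvw hwt htu
  have htOP : t ∈ O ∪ P := by
    rcases hS.cases ht with h0 | h0 | h0
    · exact Finset.mem_union_left _ h0
    · exact Finset.mem_union_right _ h0
    · exact absurd htu.symm (hS.sep u huP t h0)
  have htq : t ≠ q := hne t htOP
  have htu' : (capG G O q).Adj t u := (capG_adj htq huq).2 htu
  by_cases hwQ : w ∈ Q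
  · have hvO : v ∈ O := by
      rcases Finset.mem_union.1 hvOP with h0 | h0
      · exact h0
      · exact absurd hvw (hS.sep v h0 w hwQ)
    have htO : t ∈ O := by
      rcases Finset.mem_union.1 htOP with h0 | h0
      · exact h0
      · exact absurd hwt.symm (hS.sep t h0 w hwQ)
    rcases hsq q (Finset.mem_insert_self q _) t (Finset.mem_insert_of_mem htOP) huq.symm htv
      ((capG_adj_right hvq).2 hvO) ((capG_adj_left htq).2 htO) htu' with h0 | h0
    · exact absurd ((capG_adj_right huq).1 h0) huO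
    · exact Or.inr ((capG_adj hvq htq).1 h0)
  · have hwOP : w ∈ O ∪ P := by
      rcases hS.cases hw with h0 | h0 | h0
      · exact Finset.mem_union_left _ h0
      · exact Finset.mem_union_right _ h0
      · exact absurd h0 hwQ
    have hwq : w ≠ q := hne w hwOP
    rcases hsq w (Finset.mem_insert_of_mem hwOP) t (Finset.mem_insert_of_mem htOP) hwu htv
      ((capG_adj hvq hwq).2 hvw) ((capG_adj hwq htq).2 hwt) htu' with h0 | h0
    · exact Or.inl ((capG_adj huq hwq).1 h0)
    · exact Or.inr ((capG_adj hvq htq).1 h0)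

end Pool.Agent.LibFlagPL

end
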