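import Pool.Agent.LibFlagPL.Complexes

/-!
# LibFlagPL.StellA: stellar subdivisions, links, PL spheres, contractions
-/

section

namespace Pool.Agent.LibFlagPL

open Finset

/-- union of a face of `A` and a face of `B` (join, if the vertices are disjoint) -/
def jn (A B : Fam) : Fam := (A ×ˢ B).image (fun p => p.1 ∪ p.2)

/-- reduced Euler characteristic, up to sign -/
def eul (K : Fam) : ℤ := ∑ s ∈ K, (-1 : ℤ) ^ s.card

/-- combinatorial shadow of a `(d - 1)`-sphere: vertex links are shadows of
`(d - 2)`-spheres, the Euler characteristic is right, connected if `d ≥ 2` -/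
def SW : ℕ → Fam → Prop
  | 0 => fun K => K = {∅}
  | d + 1 => fun K => IsCx K ∧ (∀ v : ℕ, {v} ∈ K → SW d (link K {v})) ∧
      eul K = (-1) ^ (d + 1) ∧ (1 ≤ d → ConnF K)

/-- the vertices of a family -/
def vert (K : Fam) : Finset ℕ := K.biUnion id

/-- `lk_M v = J * K` for some `J` (condition `lj`), and every face of `M` whose vertices are adjacent to `v`
is in the link of `v` (condition `ind`) -/
structure Amb (M : Fam) (v : ℕ) (K : Fam) : Prop where
  cx : IsCx M
  cxK : IsCx K
  vM : {v} ∈ M
  vK : ∀ s ∈ K, v ∉ s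
  lj : ∀ s : Finset ℕ, v ∉ s → (insert v s ∈ M ↔ insert v (s \ vert K) ∈ M ∧ s ∩ vert K ∈ K)
  ind : ∀ s ∈ M, v ∉ s → (∀ x ∈ s, ({x, v} : Finset ℕ) ∈ M) → insert v s ∈ M

/-- `K` is reducible relative to the star of the vertex `u`: a suspension with apexes `u`, `u'`, or there is
an edge `p q`, `q` not in the closed star of `u`, with the same property for the link of `q` and `p` and for the
contraction of `q` into `p` and `u` -/
inductive RED : Fam → ℕ → Prop
  | susp {K : Fam} {u u' : ℕ} : IsCx K → {u} ∈ K → {u'} ∈ K → u ≠ u' →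
      ({u, u'} : Finset ℕ) ∉ K →
      (∀ s ∈ K, u ∉ s → u' ∉ s → insert u s ∈ K ∧ insert u' s ∈ K) → RED K u
  | step {K : Fam} {u p q : ℕ} : IsCx K → {u} ∈ K → p ≠ q → q ≠ u →
      ({p, q} : Finset ℕ) ∈ K → ({u, q} : Finset ℕ) ∉ K →
      (∀ s ∈ K, (∀ x ∈ s, ({x, q} : Finset ℕ) ∈ K) → insert q s ∈ K) →
      RED (link K {q}) p → RED (contr K p q) u → RED K u

end Pool.Agent.LibFlagPL

end

section

namespace Pool.Agent.LibFlagPL

open Finset

theorem mem_stell {K : Fam} {E s : Finset ℕ} {a : ℕ} (hK : IsCx K) (ha : ∀ t ∈ K, a ∉ t) :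
    s ∈ stell K E a ↔ (a ∉ s ∧ s ∈ K ∧ ¬ E ⊆ s) ∨
      (a ∈ s ∧ ¬ E ⊆ s.erase a ∧ s.erase a ∪ E ∈ K) := by
  unfold stell
  rw [Finset.mem_union, Finset.mem_filter, Finset.mem_image]
  constructor
  · rintro (⟨h1, h2⟩ | ⟨t, ht, rfl⟩)
    · exact Or.inl ⟨ha s h1, h1, h2⟩
    · rw [Finset.mem_filter] at ht
      right
      rw [Finset.erase_insert (ha t ht.1)]
      exact ⟨Finset.mem_insert_self _ _, ht.2.1, ht.2.2⟩
  · rintro (⟨h0, h1, h2⟩ | ⟨h0, h1, h2⟩)
    · exact Or.inl ⟨h1, h2⟩
    · right
      refine ⟨s.erase a, ?_, Finset.insert_erase h0⟩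
      rw [Finset.mem_filter]
      exact ⟨hK.2 _ h2 _ Finset.subset_union_left, h1, h2⟩

theorem isCx_stell {K : Fam} {E : Finset ℕ} {a : ℕ} (hK : IsCx K) (hE : E.Nonempty)
    (ha : ∀ t ∈ K, a ∉ t) : IsCx (stell K E a) := by
  constructor
  · rw [mem_stell hK ha]
    left
    refine ⟨Finset.notMem_empty _, hK.1, fun h => ?_⟩
    rw [Finset.subset_empty] at h
    exact hE.ne_empty h
  · intro s hs t ht
    rw [mem_stell hK ha] at hs ⊢
    rcases hs with ⟨h0, h1, h2⟩ | ⟨h0, h1, h2⟩
    · exact Or.inl ⟨fun h => h0 (ht h), hK.2 _ h1 _ ht, fun h => h2 (h.trans ht)⟩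
    · by_cases hat : a ∈ t
      · right
        refine ⟨hat, fun h => h1 (h.trans (Finset.erase_subset_erase a ht)), ?_⟩
        exact hK.2 _ h2 _ (Finset.union_subset_union (Finset.erase_subset_erase a ht)
          (Finset.Subset.refl _))
      · left
        have h3 : t ⊆ s.erase a := Finset.subset_erase.2 ⟨ht, hat⟩
        exact ⟨hat, hK.2 _ h2 _ (h3.trans Finset.subset_union_left), fun h => h1 (h.trans h3)⟩

theorem vertex_stell {K : Fam} {E : Finset ℕ} {a : ℕ} (hK : IsCx K) (hE : 2 ≤ E.card)
    (hEK : E ∈ K) (ha : ∀ t ∈ K, a ∉ t) {v : ℕ} : {v} ∈ stell K E a ↔ {v} ∈ K ∨ v = a := by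
  rw [mem_stell hK ha]
  constructor
  · rintro (⟨h0, h1, h2⟩ | ⟨h0, _, _⟩)
    · exact Or.inl h1
    · exact Or.inr (Finset.mem_singleton.1 h0).symm
  · rintro (h | rfl)
    · left
      refine ⟨ha _ h, h, fun h2 => ?_⟩
      have h3 := Finset.card_le_card h2
      rw [Finset.card_singleton] at h3
      omega
    · right
      have h3 : ({v} : Finset ℕ).erase v = ∅ := by simp
      rw [h3, Finset.empty_union]
      refine ⟨Finset.mem_singleton_self _, fun h => ?_, hEK⟩
      rw [Finset.subset_empty] at h
      rw [h, Finset.card_empty] at hE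
      omega

theorem stell_image (f : Equiv.Perm ℕ) (K : Fam) (E : Finset ℕ) (a : ℕ) :
    (stell K E a).image (fun s => s.image f) =
      stell (K.image (fun s => s.image f)) (E.image f) (f a) := by
  have hinj : Function.Injective (fun s : Finset ℕ => s.image f) :=
    Finset.image_injective f.injective
  unfold stell
  rw [Finset.image_union, Finset.image_image, Finset.filter_image, Finset.filter_image,
    Finset.image_image]
  congr 1
  · congr 1
    apply Finset.filter_congr
    intro s _
    rw [Finset.image_subset_image_iff f.injective]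
  · have h1 : K.filter (fun s => ¬ E.image f ⊆ s.image f ∧
        s.image f ∪ E.image f ∈ K.image (fun s : Finset ℕ => s.image f)) =
        K.filter (fun s => ¬ E ⊆ s ∧ s ∪ E ∈ K) := by
      apply Finset.filter_congr
      intro s _
      rw [Finset.image_subset_image_iff f.injective, ← Finset.image_union]
      constructor
      · rintro ⟨h2, h3⟩
        rw [Finset.mem_image] at h3
        obtain ⟨r, hr, hr2⟩ := h3
        have h4 : r = s ∪ E := hinj hr2
        rw [h4] at hr
        exact ⟨h2, hr⟩
      · rintro ⟨h2, h3⟩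
        exact ⟨h2, Finset.mem_image_of_mem _ h3⟩
    rw [h1]
    apply Finset.image_congr
    intro s _
    simp only [Function.comp_apply]
    rw [Finset.image_insert]

private theorem Q1_fix {s : Finset ℕ} {w a : ℕ} (hw : w ∉ s) (ha : a ∉ s) :
    s.image (Equiv.swap w a) = s := by
  have h : s.image (Equiv.swap w a) = s.image id := by
    apply Finset.image_congr
    intro x hx
    have h1 : x ≠ w := fun e => hw (e ▸ hx)
    have h2 : x ≠ a := fun e => ha (e ▸ hx)
    exact Equiv.swap_apply_of_ne_of_ne h1 h2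
  rw [h, Finset.image_id]

private theorem Q1_img {s : Finset ℕ} {w a : ℕ} (hw : w ∉ s) (ha : a ∉ s) :
    (insert w s).image (Equiv.swap w a) = insert a s := by
  rw [Finset.image_insert, Q1_fix hw ha, Equiv.swap_apply_left]

theorem stell_single {K : Fam} {w a : ℕ} (hK : IsCx K) (ha : ∀ t ∈ K, a ∉ t) :
    stell K {w} a = K.image (fun s => s.image (Equiv.swap w a)) := by
  ext s
  rw [mem_stell hK ha, Finset.mem_image]
  constructor
  · rintro (⟨h0, h1, h2⟩ | ⟨h0, h1, h2⟩)
    · rw [Finset.singleton_subset_iff] at h2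
      exact ⟨s, h1, Q1_fix h2 h0⟩
    · rw [Finset.singleton_subset_iff] at h1
      refine ⟨s.erase a ∪ {w}, h2, ?_⟩
      rw [Finset.union_comm, ← Finset.insert_eq, Q1_img h1 (Finset.notMem_erase _ _),
        Finset.insert_erase h0]
  · rintro ⟨r, hr, rfl⟩
    have har := ha r hr
    by_cases hw : w ∈ r
    · right
      have h3 : r = insert w (r.erase w) := (Finset.insert_erase hw).symm
      have h4 : w ∉ r.erase w := Finset.notMem_erase _ _
      have h5 : a ∉ r.erase w := fun h => har (Finset.mem_of_mem_erase h)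
      have h6 : r.image (Equiv.swap w a) = insert a (r.erase w) := by
        conv_lhs => rw [h3]
        exact Q1_img h4 h5
      rw [h6, Finset.erase_insert h5, Finset.singleton_subset_iff]
      refine ⟨Finset.mem_insert_self _ _, h4, ?_⟩
      rw [Finset.union_comm, ← Finset.insert_eq, ← h3]
      exact hr
    · left
      rw [Q1_fix hw har, Finset.singleton_subset_iff]
      exact ⟨har, hr, hw⟩

end Pool.Agent.LibFlagPL

end

section

namespace Pool.Agent.LibFlagPL

open Finset

private theorem Q2_ne {K : Fam} {a v : ℕ} (ha : ∀ t ∈ K, a ∉ t) (hv : {v} ∈ K) : a ≠ v := by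
  intro h
  exact ha _ hv (by rw [h]; exact Finset.mem_singleton_self _)

theorem link_stell_far {K : Fam} {E : Finset ℕ} {a v : ℕ} (hK : IsCx K) (hE : E.Nonempty)
    (ha : ∀ t ∈ K, a ∉ t) (hv : {v} ∈ K) (h : insert v E ∉ K) :
    link (stell K E a) {v} = link K {v} := by
  have hav := Q2_ne ha hv
  ext s
  rw [mem_link (isCx_stell hK hE ha), mem_link hK, mem_stell hK ha]
  constructor
  · rintro ⟨h1, h2 | h2⟩
    · exact ⟨h1, h2.2.1⟩
    · refine absurd (hK.2 _ h2.2.2 _ ?_) h
      intro x hx
      rw [Finset.mem_insert] at hx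
      rcases hx with rfl | hx
      · refine Finset.mem_union_left _ (Finset.mem_erase.2 ⟨hav.symm, ?_⟩)
        exact Finset.mem_union_left _ (Finset.mem_singleton_self _)
      · exact Finset.mem_union_right _ hx
  · rintro ⟨h1, h2⟩
    refine ⟨h1, Or.inl ⟨ha _ h2, h2, fun h3 => h (hK.2 _ h2 _ ?_)⟩⟩
    intro x hx
    rw [Finset.mem_insert] at hx
    rcases hx with rfl | hx
    · exact Finset.mem_union_left _ (Finset.mem_singleton_self _)
    · exact h3 hx

theorem link_stell_near {K : Fam} {E : Finset ℕ} {a v : ℕ} (hK : IsCx K) (hE : E.Nonempty)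
    (ha : ∀ t ∈ K, a ∉ t) (hv : {v} ∈ K) (h : insert v E ∈ K) :
    link (stell K E a) {v} = stell (link K {v}) (E.erase v) a := by
  have _ := h
  have hav := Q2_ne ha hv
  have hL : IsCx (link K {v}) := isCx_link hK hv
  have haL : ∀ t ∈ link K {v}, a ∉ t := by
    intro t ht
    rw [mem_link hK] at ht
    exact fun h1 => ha _ ht.2 (Finset.mem_union_right _ h1)
  ext s
  rw [mem_link (isCx_stell hK hE ha), mem_stell hK ha, mem_stell hL haL, mem_link hK, mem_link hK,
    Finset.disjoint_singleton_left, Finset.disjoint_singleton_left]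
  have A1 : a ∈ ({v} : Finset ℕ) ∪ s ↔ a ∈ s := by
    rw [Finset.mem_union, Finset.mem_singleton]
    exact ⟨fun h1 => h1.resolve_left hav, Or.inr⟩
  have A2 : ∀ t : Finset ℕ, E ⊆ {v} ∪ t ↔ E.erase v ⊆ t := by
    intro t
    rw [← Finset.insert_eq, Finset.subset_insert_iff]
  have A3 : (({v} : Finset ℕ) ∪ s).erase a = {v} ∪ s.erase a := by
    rw [← Finset.insert_eq, ← Finset.insert_eq, Finset.erase_insert_of_ne hav.symm]
  have A4 : ({v} : Finset ℕ) ∪ s.erase a ∪ E = {v} ∪ (s.erase a ∪ E.erase v) := by
    ext x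
    simp only [Finset.mem_union, Finset.mem_singleton, Finset.mem_erase]
    by_cases hx : x = v
    · simp [hx]
    · simp [hx]
  have A5 : v ∉ s.erase a ∪ E.erase v ↔ v ∉ s := by
    rw [Finset.mem_union, Finset.mem_erase, Finset.mem_erase]
    constructor
    · intro h1 h2
      exact h1 (Or.inl ⟨hav.symm, h2⟩)
    · rintro h1 (h2 | h2)
      · exact h1 h2.2
      · exact h2.1 rfl
  rw [A1, A2, A3, A2, A4, A5]
  tauto

theorem link_stell_new {K : Fam} {E : Finset ℕ} {a : ℕ} (hK : IsCx K) (hE : E.Nonempty)
    (hEK : E ∈ K) (ha : ∀ t ∈ K, a ∉ t) :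
    link (stell K E a) {a} = jn E.ssubsets (link K E) := by
  ext s
  rw [mem_link (isCx_stell hK hE ha), mem_stell hK ha, Finset.disjoint_singleton_left]
  unfold jn
  rw [Finset.mem_image]
  constructor
  · rintro ⟨h1, h2 | h2⟩
    · exact absurd (Finset.mem_union_left _ (Finset.mem_singleton_self _)) h2.1
    · obtain ⟨-, h3, h4⟩ := h2
      have e : (({a} : Finset ℕ) ∪ s).erase a = s := by
        rw [← Finset.insert_eq, Finset.erase_insert h1]
      rw [e] at h3 h4
      refine ⟨(s ∩ E, s \ E), ?_, ?_⟩
      · rw [Finset.mem_product, Finset.mem_ssubsets, mem_link hK]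
        refine ⟨⟨Finset.inter_subset_right, fun h5 => h3 fun x hx => ?_⟩,
          Finset.disjoint_sdiff, ?_⟩
        · exact Finset.mem_of_mem_inter_left (h5 hx)
        · have e2 : E ∪ s \ E = s ∪ E := by
            rw [Finset.union_sdiff_self_eq_union, Finset.union_comm]
          change E ∪ s \ E ∈ K
          rw [e2]
          exact h4
      · change s ∩ E ∪ s \ E = s
        ext x
        simp only [Finset.mem_union, Finset.mem_inter, Finset.mem_sdiff]
        tauto
  · rintro ⟨⟨p, q⟩, hpq, rfl⟩
    rw [Finset.mem_product, Finset.mem_ssubsets, mem_link hK] at hpq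
    obtain ⟨h1, h2, h3⟩ := hpq
    change p ⊂ E at h1
    change Disjoint E q at h2
    change E ∪ q ∈ K at h3
    have h4 : a ∉ p ∪ q := by
      intro h5
      refine ha _ h3 ?_
      rw [Finset.mem_union] at h5 ⊢
      rcases h5 with h5 | h5
      · exact Or.inl (h1.1 h5)
      · exact Or.inr h5
    change a ∉ p ∪ q ∧ (_ ∨ (a ∈ {a} ∪ (p ∪ q) ∧ ¬ E ⊆ ({a} ∪ (p ∪ q)).erase a ∧
      ({a} ∪ (p ∪ q)).erase a ∪ E ∈ K))
    have e : (({a} : Finset ℕ) ∪ (p ∪ q)).erase a = p ∪ q := by
      rw [← Finset.insert_eq, Finset.erase_insert h4]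
    rw [e]
    refine ⟨h4, Or.inr ⟨Finset.mem_union_left _ (Finset.mem_singleton_self _), ?_, ?_⟩⟩
    · intro h5
      apply h1.2
      intro x hx
      rcases Finset.mem_union.1 (h5 hx) with h6 | h6
      · exact h6
      · exact absurd h6 (Finset.disjoint_left.1 h2 hx)
    · have e2 : p ∪ q ∪ E = E ∪ q := by
        ext x
        simp only [Finset.mem_union]
        have := @h1.1 x
        tauto
      rw [e2]
      exact h3

end Pool.Agent.LibFlagPL

end

section

namespace Pool.Agent.LibFlagPL

open Finset

theorem mem_bj {E s : Finset ℕ} {L : Fam} (hL : ∀ t ∈ L, Disjoint E t) :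
    s ∈ jn E.ssubsets L ↔ ¬ E ⊆ s ∧ s \ E ∈ L := by
  unfold jn
  rw [Finset.mem_image]
  constructor
  · rintro ⟨⟨e, t⟩, hp, rfl⟩
    rw [Finset.mem_product, Finset.mem_ssubsets] at hp
    obtain ⟨he, ht⟩ := hp
    dsimp only at he ht ⊢
    have hd := hL t ht
    constructor
    · intro h
      apply he.2
      intro x hx
      have h1 := h hx
      rw [Finset.mem_union] at h1
      rcases h1 with h1 | h1
      · exact h1
      · exact absurd h1 (Finset.disjoint_left.mp hd hx)
    · have h2 : (e ∪ t) \ E = t := by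
        ext x
        rw [Finset.mem_sdiff, Finset.mem_union]
        constructor
        · rintro ⟨h3 | h3, h4⟩
          · exact absurd (he.1 h3) h4
          · exact h3
        · intro h3
          exact ⟨Or.inr h3, fun h4 => Finset.disjoint_left.mp hd h4 h3⟩
      rw [h2]
      exact ht
  · rintro ⟨h1, h2⟩
    refine ⟨(s ∩ E, s \ E), ?_, ?_⟩
    · rw [Finset.mem_product, Finset.mem_ssubsets]
      refine ⟨⟨Finset.inter_subset_right, ?_⟩, h2⟩
      intro h3
      exact h1 (h3.trans Finset.inter_subset_left)
    · dsimp only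
      ext x
      rw [Finset.mem_union, Finset.mem_inter, Finset.mem_sdiff]
      tauto

theorem isCx_bj {E : Finset ℕ} {L : Fam} (hE : E.Nonempty) (hL : IsCx L)
    (hd : ∀ t ∈ L, Disjoint E t) : IsCx (jn E.ssubsets L) := by
  constructor
  · rw [mem_bj hd]
    constructor
    · intro h
      obtain ⟨x, hx⟩ := hE
      exact absurd (h hx) (Finset.notMem_empty _)
    · rw [Finset.empty_sdiff]
      exact hL.1
  · intro s hs t ht
    rw [mem_bj hd] at hs ⊢
    exact ⟨fun h => hs.1 (h.trans ht),
      hL.2 _ hs.2 _ (Finset.sdiff_subset_sdiff ht (Finset.Subset.refl _))⟩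

theorem bj_single (v : ℕ) (L : Fam) : jn ({v} : Finset ℕ).ssubsets L = L := by
  unfold jn
  ext s
  rw [Finset.mem_image]
  constructor
  · rintro ⟨⟨e, t⟩, hp, rfl⟩
    rw [Finset.mem_product, Finset.mem_ssubsets] at hp
    obtain ⟨he, ht⟩ := hp
    dsimp only at he ht ⊢
    rw [Finset.ssubset_singleton_iff] at he
    rw [he, Finset.empty_union]
    exact ht
  · intro hs
    refine ⟨(∅, s), ?_, ?_⟩
    · rw [Finset.mem_product, Finset.mem_ssubsets]
      exact ⟨Finset.ssubset_singleton_iff.mpr rfl, hs⟩
    · dsimp only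
      rw [Finset.empty_union]

theorem vertex_bj {E : Finset ℕ} {L : Fam} (hE : 2 ≤ E.card) (hL : IsCx L)
    (hd : ∀ t ∈ L, Disjoint E t) {v : ℕ} :
    {v} ∈ jn E.ssubsets L ↔ v ∈ E ∨ {v} ∈ L := by
  rw [mem_bj hd]
  have h0 : ¬ E ⊆ {v} := by
    intro h
    have h1 := Finset.card_le_card h
    rw [Finset.card_singleton] at h1
    omega
  by_cases hv : v ∈ E
  · constructor
    · intro _
      exact Or.inl hv
    · intro _
      refine ⟨h0, ?_⟩
      have h2 : ({v} : Finset ℕ) \ E = ∅ := by
        rw [Finset.sdiff_eq_empty_iff_subset, Finset.singleton_subset_iff]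
        exact hv
      rw [h2]
      exact hL.1
  · have h2 : ({v} : Finset ℕ) \ E = {v} := by
      rw [Finset.sdiff_eq_self_iff_disjoint, Finset.disjoint_singleton_left]
      exact hv
    rw [h2]
    constructor
    · rintro ⟨_, h3⟩
      exact Or.inr h3
    · rintro (h3 | h3)
      · exact absurd h3 hv
      · exact ⟨h0, h3⟩

theorem link_bj_left {E : Finset ℕ} {L : Fam} {v : ℕ} (hE : 2 ≤ E.card) (hL : IsCx L)
    (hd : ∀ t ∈ L, Disjoint E t) (hv : v ∈ E) :
    link (jn E.ssubsets L) {v} = jn (E.erase v).ssubsets L := by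
  have hne : E.Nonempty := ⟨v, hv⟩
  have hd' : ∀ t ∈ L, Disjoint (E.erase v) t := fun t ht =>
    Finset.disjoint_of_subset_left (Finset.erase_subset _ _) (hd t ht)
  ext s
  rw [mem_link (isCx_bj hne hL hd), mem_bj hd, mem_bj hd', Finset.disjoint_singleton_left]
  constructor
  · rintro ⟨h1, h2, h3⟩
    constructor
    · intro h4
      apply h2
      intro x hx
      rw [Finset.mem_union, Finset.mem_singleton]
      by_cases hxv : x = v
      · exact Or.inl hxv
      · exact Or.inr (h4 (Finset.mem_erase.mpr ⟨hxv, hx⟩))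
    · have h5 : s \ E.erase v = ({v} ∪ s) \ E := by
        ext x
        rw [Finset.mem_sdiff, Finset.mem_sdiff, Finset.mem_erase, Finset.mem_union,
          Finset.mem_singleton]
        constructor
        · rintro ⟨h6, h7⟩
          refine ⟨Or.inr h6, fun h8 => h7 ⟨?_, h8⟩⟩
          rintro rfl
          exact h1 h6
        · rintro ⟨h6 | h6, h7⟩
          · rw [h6] at h7
            exact absurd hv h7
          · exact ⟨h6, fun h8 => h7 h8.2⟩
      rw [h5]
      exact h3
  · rintro ⟨h1, h2⟩
    have hvs : v ∉ s := by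
      intro h3
      have h4 : v ∈ s \ E.erase v := by
        rw [Finset.mem_sdiff]
        exact ⟨h3, Finset.notMem_erase _ _⟩
      exact Finset.disjoint_left.mp (hd _ h2) hv h4
    refine ⟨hvs, ?_, ?_⟩
    · intro h3
      apply h1
      intro x hx
      rw [Finset.mem_erase] at hx
      have h4 := h3 hx.2
      rw [Finset.mem_union, Finset.mem_singleton] at h4
      rcases h4 with h4 | h4
      · exact absurd h4 hx.1
      · exact h4
    · have h5 : ({v} ∪ s) \ E = s \ E.erase v := by
        ext x
        rw [Finset.mem_sdiff, Finset.mem_sdiff, Finset.mem_erase, Finset.mem_union,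
          Finset.mem_singleton]
        constructor
        · rintro ⟨h6 | h6, h7⟩
          · rw [h6] at h7
            exact absurd hv h7
          · exact ⟨h6, fun h8 => h7 h8.2⟩
        · rintro ⟨h6, h7⟩
          refine ⟨Or.inr h6, fun h8 => h7 ⟨?_, h8⟩⟩
          rintro rfl
          exact hvs h6
      rw [h5]
      exact h2

theorem link_bj_right {E : Finset ℕ} {L : Fam} {v : ℕ} (hE : E.Nonempty) (hL : IsCx L)
    (hd : ∀ t ∈ L, Disjoint E t) (hv : {v} ∈ L) :
    link (jn E.ssubsets L) {v} = jn E.ssubsets (link L {v}) := by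
  have hvE : v ∉ E := by
    have h := hd _ hv
    rw [Finset.disjoint_singleton_right] at h
    exact h
  have hd' : ∀ t ∈ link L {v}, Disjoint E t := by
    intro t ht
    unfold link at ht
    rw [Finset.mem_filter] at ht
    exact hd t ht.1
  ext s
  rw [mem_link (isCx_bj hE hL hd), mem_bj hd, mem_bj hd', mem_link hL,
    Finset.disjoint_singleton_left, Finset.disjoint_singleton_left]
  have h5 : ({v} ∪ s) \ E = {v} ∪ (s \ E) := by
    ext x
    rw [Finset.mem_sdiff, Finset.mem_union, Finset.mem_union, Finset.mem_singleton,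
      Finset.mem_sdiff]
    constructor
    · rintro ⟨h6 | h6, h7⟩
      · exact Or.inl h6
      · exact Or.inr ⟨h6, h7⟩
    · rintro (h6 | h6)
      · refine ⟨Or.inl h6, ?_⟩
        rw [h6]
        exact hvE
      · exact ⟨Or.inr h6.1, h6.2⟩
  have h6 : E ⊆ {v} ∪ s ↔ E ⊆ s := by
    constructor
    · intro h x hx
      have h7 := h hx
      rw [Finset.mem_union, Finset.mem_singleton] at h7
      rcases h7 with h7 | h7
      · rw [h7] at hx
        exact absurd hx hvE
      · exact h7
    · intro h
      exact h.trans Finset.subset_union_right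
  have h7 : v ∉ s \ E ↔ v ∉ s := by
    rw [Finset.mem_sdiff]
    tauto
  rw [h5, h6, h7]
  tauto

end Pool.Agent.LibFlagPL

end

section

namespace Pool.Agent.LibFlagPL

open Finset

theorem link_empty {K : Fam} (hK : IsCx K) : link K ∅ = K := by
  ext t
  rw [mem_link hK, Finset.empty_union]
  exact ⟨fun h => h.2, fun h => ⟨Finset.disjoint_empty_left t, h⟩⟩

theorem link_link {K : Fam} {s t : Finset ℕ} (hK : IsCx K) (hs : s ∈ K) (hst : Disjoint s t) :
    link (link K s) t = link K (s ∪ t) := by
  ext r
  rw [mem_link (isCx_link hK hs), mem_link hK, mem_link hK, Finset.disjoint_union_left,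
    Finset.disjoint_union_right, Finset.union_assoc]
  constructor
  · rintro ⟨h1, ⟨h2, h3⟩, h4⟩
    exact ⟨⟨h3, h1⟩, h4⟩
  · rintro ⟨⟨h3, h1⟩, h4⟩
    exact ⟨h1, ⟨hst, h3⟩, h4⟩

theorem SW.isCx {d : ℕ} {K : Fam} (h : SW d K) : IsCx K := by
  cases d with
  | zero =>
    have h' : K = {∅} := h
    subst h'
    refine ⟨?_, ?_⟩
    · simp
    · intro s hs t ht
      rw [Finset.mem_singleton] at hs
      subst hs
      rw [Finset.subset_empty.1 ht]
      simp
  | succ d => exact h.1

theorem SW.link_face {d : ℕ} {K : Fam} (h : SW d K) {s : Finset ℕ} (hs : s ∈ K) :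
    s.card ≤ d ∧ SW (d - s.card) (link K s) := by
  induction s using Finset.induction_on generalizing d K with
  | empty =>
    rw [Finset.card_empty, link_empty h.isCx]
    exact ⟨Nat.zero_le _, h⟩
  | insert v s hv ih =>
    have hcx := h.isCx
    have hvK : {v} ∈ K := hcx.2 _ hs _ (Finset.singleton_subset_iff.2 (Finset.mem_insert_self v s))
    cases d with
    | zero =>
      have h' : K = {∅} := h
      rw [h', Finset.mem_singleton] at hvK
      exact absurd hvK (Finset.singleton_ne_empty v)
    | succ d =>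
      have h1 : SW d (link K {v}) := h.2.1 v hvK
      have h2 : s ∈ link K {v} := by
        rw [mem_link hcx, Finset.disjoint_singleton_left]
        refine ⟨hv, ?_⟩
        rw [← Finset.insert_eq]
        exact hs
      obtain ⟨h3, h4⟩ := ih h1 h2
      rw [link_link hcx hvK (Finset.disjoint_singleton_left.2 hv), ← Finset.insert_eq] at h4
      rw [Finset.card_insert_of_notMem hv, Nat.add_sub_add_right]
      exact ⟨Nat.succ_le_succ h3, h4⟩

end Pool.Agent.LibFlagPL

end

section

namespace Pool.Agent.LibFlagPL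

open Finset

private theorem Q5_ssub {E : Finset ℕ} (hE : E.Nonempty) :
    ∑ e ∈ E.ssubsets, (-1 : ℤ) ^ e.card = -(-1) ^ E.card := by
  have h1 := Finset.sum_powerset_neg_one_pow_card_of_nonempty hE
  have h2 : E.powerset = insert E E.ssubsets := by
    ext s
    rw [Finset.mem_insert, Finset.mem_powerset, Finset.mem_ssubsets]
    constructor
    · intro h
      rcases eq_or_ne s E with h3 | h3
      · exact Or.inl h3
      · exact Or.inr (Finset.ssubset_iff_subset_ne.2 ⟨h, h3⟩)
    · rintro (h | h)
      · rw [h]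
      · exact h.1
  have h3 : E ∉ E.ssubsets := by
    rw [Finset.mem_ssubsets]
    exact fun h => h.2 (Finset.Subset.refl E)
  rw [h2, Finset.sum_insert h3] at h1
  linarith

private theorem Q5_union_inter {E a b : Finset ℕ} (ha : a ⊆ E) (hb : Disjoint E b) : (a ∪ b) ∩ E = a := by
  ext x
  rw [Finset.mem_inter, Finset.mem_union]
  constructor
  · rintro ⟨h | h, h2⟩
    · exact h
    · exact absurd h (Finset.disjoint_left.1 hb h2)
  · intro h
    exact ⟨Or.inl h, ha h⟩

private theorem Q5_union_sdiff {E a b : Finset ℕ} (ha : a ⊆ E) (hb : Disjoint E b) : (a ∪ b) \ E = b := by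
  ext x
  rw [Finset.mem_sdiff, Finset.mem_union]
  constructor
  · rintro ⟨h | h, h2⟩
    · exact absurd (ha h) h2
    · exact h
  · intro h
    exact ⟨Or.inr h, fun h2 => Finset.disjoint_left.1 hb h2 h⟩

theorem eul_bj {E : Finset ℕ} {L : Fam} (hE : E.Nonempty) (hd : ∀ t ∈ L, Disjoint E t) :
    eul (jn E.ssubsets L) = -(-1) ^ E.card * eul L := by
  unfold eul jn
  rw [Finset.sum_image]
  · rw [← Q5_ssub hE, Finset.sum_product, Finset.sum_mul_sum]
    refine Finset.sum_congr rfl fun e he => Finset.sum_congr rfl fun t ht => ?_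
    have h1 : Disjoint e t := Finset.disjoint_of_subset_left (Finset.mem_ssubsets.1 he).1 (hd t ht)
    rw [Finset.card_union_of_disjoint h1, pow_add]
  · rintro ⟨a, b⟩ hab ⟨c, d⟩ hcd h
    have hab : a ∈ E.ssubsets ∧ b ∈ L := Finset.mem_product.1 (Finset.mem_coe.1 hab)
    have hcd : c ∈ E.ssubsets ∧ d ∈ L := Finset.mem_product.1 (Finset.mem_coe.1 hcd)
    have h' : a ∪ b = c ∪ d := h
    have h1 := (Finset.mem_ssubsets.1 hab.1).1
    have h2 := (Finset.mem_ssubsets.1 hcd.1).1
    have e1 : a = c := by
      rw [← Q5_union_inter h1 (hd b hab.2), h', Q5_union_inter h2 (hd d hcd.2)]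
    have e2 : b = d := by
      rw [← Q5_union_sdiff h1 (hd b hab.2), h', Q5_union_sdiff h2 (hd d hcd.2)]
    rw [e1, e2]

theorem eul_stell {K : Fam} {E : Finset ℕ} {a : ℕ} (hK : IsCx K) (hE : E.Nonempty)
    (hEK : E ∈ K) (ha : ∀ t ∈ K, a ∉ t) : eul (stell K E a) = eul K := by
  have hd : ∀ t ∈ link K E, Disjoint E t := fun t ht => ((mem_link hK).1 ht).1
  have hF : K.filter (fun s => ¬ E ⊆ s ∧ s ∪ E ∈ K) = jn E.ssubsets (link K E) := by
    ext s
    rw [Finset.mem_filter, mem_bj hd, mem_link hK, Finset.union_sdiff_self_eq_union, Finset.union_comm E s]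
    constructor
    · rintro ⟨_, h2, h3⟩
      exact ⟨h2, Finset.disjoint_sdiff, h3⟩
    · rintro ⟨h2, _, h3⟩
      exact ⟨hK.2 _ h3 _ Finset.subset_union_left, h2, h3⟩
  have hL : ∑ s ∈ K.filter (fun s => E ⊆ s), (-1 : ℤ) ^ s.card = (-1) ^ E.card * eul (link K E) := by
    have h1 : K.filter (fun s => E ⊆ s) = (link K E).image (fun t => E ∪ t) := by
      ext s
      rw [Finset.mem_filter, Finset.mem_image]
      constructor
      · rintro ⟨h1, h2⟩
        refine ⟨s \ E, (mem_link hK).2 ⟨Finset.disjoint_sdiff, ?_⟩, Finset.union_sdiff_of_subset h2⟩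
        rw [Finset.union_sdiff_of_subset h2]
        exact h1
      · rintro ⟨t, ht, rfl⟩
        exact ⟨((mem_link hK).1 ht).2, Finset.subset_union_left⟩
    rw [h1, Finset.sum_image, eul, Finset.mul_sum]
    · refine Finset.sum_congr rfl fun t ht => ?_
      rw [Finset.card_union_of_disjoint (hd t ht), pow_add]
    · intro s hs t ht h
      have h' : E ∪ s = E ∪ t := h
      rw [← Q5_union_sdiff (Finset.Subset.refl E) (hd s (Finset.mem_coe.1 hs)), h',
        Q5_union_sdiff (Finset.Subset.refl E) (hd t (Finset.mem_coe.1 ht))]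
  have h2 : eul (stell K E a) = ∑ s ∈ K.filter (fun s => ¬ E ⊆ s), (-1 : ℤ) ^ s.card -
      ∑ s ∈ K.filter (fun s => ¬ E ⊆ s ∧ s ∪ E ∈ K), (-1 : ℤ) ^ s.card := by
    rw [eul, stell, Finset.sum_union, Finset.sum_image, sub_eq_add_neg, ← Finset.sum_neg_distrib]
    · congr 1
      refine Finset.sum_congr rfl fun s hs => ?_
      rw [Finset.card_insert_of_notMem (ha s (Finset.mem_filter.1 hs).1), pow_succ]
      ring
    · intro s hs t ht h
      have h' : insert a s = insert a t := h
      have hs' := ha s (Finset.mem_filter.1 (Finset.mem_coe.1 hs)).1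
      have ht' := ha t (Finset.mem_filter.1 (Finset.mem_coe.1 ht)).1
      rw [← Finset.erase_insert hs', h', Finset.erase_insert ht']
    · rw [Finset.disjoint_left]
      intro s hs hs2
      obtain ⟨t, _, rfl⟩ := Finset.mem_image.1 hs2
      exact ha _ (Finset.mem_filter.1 hs).1 (Finset.mem_insert_self a t)
  have h3 : ∑ s ∈ K.filter (fun s => ¬ E ⊆ s ∧ s ∪ E ∈ K), (-1 : ℤ) ^ s.card =
      -(-1) ^ E.card * eul (link K E) := by
    rw [hF]
    exact eul_bj hE hd
  have h4 : eul K = ∑ s ∈ K.filter (fun s => E ⊆ s), (-1 : ℤ) ^ s.card +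
      ∑ s ∈ K.filter (fun s => ¬ E ⊆ s), (-1 : ℤ) ^ s.card :=
    (Finset.sum_filter_add_sum_filter_not K (fun s => E ⊆ s) _).symm
  rw [h2, h3, h4, hL]
  ring

theorem eul_iso {K L : Fam} (h : Iso K L) : eul K = eul L := by
  obtain ⟨f, rfl⟩ := h
  rw [eul, eul, Finset.sum_image]
  · refine Finset.sum_congr rfl fun s _ => ?_
    rw [Finset.card_image_of_injective s f.injective]
  · intro s _ t _ h
    exact Finset.image_injective f.injective h

theorem eul_bds (d : ℕ) : eul (bds d) = (-1) ^ d := by
  rw [eul, bds, Q5_ssub ⟨0, Finset.mem_range.2 (Nat.succ_pos d)⟩, Finset.card_range, pow_succ]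
  ring

end Pool.Agent.LibFlagPL

end

section

namespace Pool.Agent.LibFlagPL

open Finset

private theorem q6_lift {R S : ℕ → ℕ → Prop} (f : ℕ → ℕ)
    (h : ∀ x y, R x y → Relation.ReflTransGen S (f x) (f y)) {a b : ℕ}
    (hab : Relation.ReflTransGen R a b) : Relation.ReflTransGen S (f a) (f b) := by
  induction hab with
  | refl => exact Relation.ReflTransGen.refl
  | tail _ hbc ih => exact ih.trans (h _ _ hbc)

private theorem q6_symm {R : ℕ → ℕ → Prop} (hR : ∀ x y, R x y → R y x) {a b : ℕ}
    (hab : Relation.ReflTransGen R a b) : Relation.ReflTransGen R b a := by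
  induction hab with
  | refl => exact Relation.ReflTransGen.refl
  | tail _ hbc ih => exact (Relation.ReflTransGen.single (hR _ _ hbc)).trans ih

private theorem q6_pair {K : Fam} (x y : ℕ) (h : ({x, y} : Finset ℕ) ∈ K) : ({y, x} : Finset ℕ) ∈ K := by
  rw [Finset.pair_comm]
  exact h

/-- connectedness from paths starting at one vertex -/
private theorem q6_conn {K : Fam} {e₀ : ℕ} (he : {e₀} ∈ K)
    (h : ∀ v : ℕ, {v} ∈ K → Relation.ReflTransGen (fun x y => ({x, y} : Finset ℕ) ∈ K) e₀ v) : ConnF K :=
  ⟨⟨e₀, he⟩, fun a b ha hb => (q6_symm (fun x y hxy => q6_pair x y hxy) (h a ha)).trans (h b hb)⟩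

theorem ConnF_bj {E : Finset ℕ} {L : Fam} (hE : 2 ≤ E.card) (hL : IsCx L)
    (hd : ∀ t ∈ L, Disjoint E t) (h : 3 ≤ E.card ∨ ∃ w : ℕ, {w} ∈ L) :
    ConnF (jn E.ssubsets L) := by
  obtain ⟨e₀, he₀⟩ : E.Nonempty := Finset.card_pos.1 (by omega)
  have hA : ∀ x ∈ E, ∀ w : ℕ, {w} ∈ L → ({x, w} : Finset ℕ) ∈ jn E.ssubsets L := by
    intro x hx w hw
    have hwE : w ∉ E := fun hwE => Finset.disjoint_left.1 (hd _ hw) hwE (Finset.mem_singleton_self w)
    rw [mem_bj hd]
    constructor
    · intro hsub
      have h1 : E ⊆ {x} := by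
        intro z hz
        rcases Finset.mem_insert.1 (hsub hz) with h2 | h2
        · exact Finset.mem_singleton.2 h2
        · rw [Finset.mem_singleton] at h2
          exact absurd (h2 ▸ hz) hwE
      have h3 := Finset.card_le_card h1
      rw [Finset.card_singleton] at h3
      omega
    · have h1 : ({x, w} : Finset ℕ) \ E = {w} := by
        rw [Finset.insert_sdiff_of_mem _ hx]
        exact Finset.sdiff_eq_self_of_disjoint (Finset.disjoint_singleton_left.2 hwE)
      rw [h1]
      exact hw
  have hB : ∀ x ∈ E, ∀ y ∈ E,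
      Relation.ReflTransGen (fun x y => ({x, y} : Finset ℕ) ∈ jn E.ssubsets L) x y := by
    intro x hx y hy
    rcases h with h | ⟨w, hw⟩
    · refine Relation.ReflTransGen.single ?_
      show ({x, y} : Finset ℕ) ∈ jn E.ssubsets L
      rw [mem_bj hd]
      constructor
      · intro hsub
        have h3 := Finset.card_le_card hsub
        have h4 : ({x, y} : Finset ℕ).card ≤ 2 := Finset.card_le_two
        omega
      · have h1 : ({x, y} : Finset ℕ) \ E = ∅ := by
          rw [Finset.sdiff_eq_empty_iff_subset]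
          intro z hz
          rcases Finset.mem_insert.1 hz with h2 | h2
          · exact h2 ▸ hx
          · rw [Finset.mem_singleton] at h2
            exact h2 ▸ hy
        rw [h1]
        exact hL.1
    · exact (Relation.ReflTransGen.single (hA x hx w hw)).trans
        (Relation.ReflTransGen.single (q6_pair _ _ (hA y hy w hw)))
  refine q6_conn (e₀ := e₀) ((vertex_bj hE hL hd).2 (Or.inl he₀)) (fun v hv => ?_)
  rcases (vertex_bj hE hL hd).1 hv with h1 | h1
  · exact hB e₀ he₀ v h1
  · exact Relation.ReflTransGen.single (hA e₀ he₀ v h1)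

theorem ConnF_stell {K : Fam} {E : Finset ℕ} {a : ℕ} (hK : IsCx K) (hE : 2 ≤ E.card)
    (hEK : E ∈ K) (ha : ∀ t ∈ K, a ∉ t) : ConnF (stell K E a) ↔ ConnF K := by
  obtain ⟨e₀, he₀⟩ : E.Nonempty := Finset.card_pos.1 (by omega)
  have hsing : ∀ x : ℕ, ¬ E ⊆ {x} := by
    intro x hx
    have h3 := Finset.card_le_card hx
    rw [Finset.card_singleton] at h3
    omega
  have heK : ({e₀} : Finset ℕ) ∈ K := hK.2 _ hEK _ (Finset.singleton_subset_iff.2 he₀)
  have hne : ∀ v : ℕ, {v} ∈ K → v ≠ a := by
    intro v hv hva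
    exact ha _ hv (Finset.mem_singleton.2 hva.symm)
  have haE : a ∉ E := ha _ hEK
  -- the edges from `a` to `E`
  have hae : ∀ x ∈ E, ({a, x} : Finset ℕ) ∈ stell K E a := by
    intro x hx
    have hxa : a ≠ x := fun h => haE (h ▸ hx)
    rw [mem_stell hK ha]
    right
    have h1 : ({a, x} : Finset ℕ).erase a = {x} :=
      Finset.erase_insert (fun h => hxa (Finset.mem_singleton.1 h))
    rw [h1]
    refine ⟨Finset.mem_insert_self _ _, hsing x, ?_⟩
    rw [Finset.union_eq_right.2 (Finset.singleton_subset_iff.2 hx)]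
    exact hEK
  constructor
  · intro h
    refine q6_conn heK (fun v hv => ?_)
    have h1 := h.2 e₀ v ((vertex_stell hK hE hEK ha).2 (Or.inl heK))
      ((vertex_stell hK hE hEK ha).2 (Or.inl hv))
    have h2 := q6_lift (S := fun x y => ({x, y} : Finset ℕ) ∈ K) (fun x => if x = a then e₀ else x)
      (fun x y hxy => ?_) h1
    · rw [if_neg (hne e₀ heK), if_neg (hne v hv)] at h2
      exact h2
    · rw [mem_stell hK ha] at hxy
      rcases hxy with ⟨h3, h4, -⟩ | ⟨-, -, h5⟩
      · have hxa : x ≠ a := fun e => h3 (by rw [e]; exact Finset.mem_insert_self _ _)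
        have hya : y ≠ a := fun e => h3 (by
          rw [e]; exact Finset.mem_insert_of_mem (Finset.mem_singleton_self _))
        rw [if_neg hxa, if_neg hya]
        exact Relation.ReflTransGen.single h4
      · by_cases hxa : x = a
        · by_cases hya : y = a
          · rw [if_pos hxa, if_pos hya]
          · rw [if_pos hxa, if_neg hya]
            refine Relation.ReflTransGen.single (hK.2 _ h5 _ ?_)
            intro z hz
            rcases Finset.mem_insert.1 hz with h6 | h6
            · rw [h6]
              exact Finset.mem_union_right _ he₀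
            · rw [Finset.mem_singleton.1 h6]
              exact Finset.mem_union_left _ (Finset.mem_erase.2 ⟨hya,
                Finset.mem_insert_of_mem (Finset.mem_singleton_self _)⟩)
        · by_cases hya : y = a
          · rw [if_neg hxa, if_pos hya]
            refine Relation.ReflTransGen.single (hK.2 _ h5 _ ?_)
            intro z hz
            rcases Finset.mem_insert.1 hz with h6 | h6
            · rw [h6]
              exact Finset.mem_union_left _ (Finset.mem_erase.2 ⟨hxa, Finset.mem_insert_self _ _⟩)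
            · rw [Finset.mem_singleton.1 h6]
              exact Finset.mem_union_right _ he₀
          · rw [if_neg hxa, if_neg hya]
            refine Relation.ReflTransGen.single (hK.2 _ h5 _ ?_)
            intro z hz
            refine Finset.mem_union_left _ (Finset.mem_erase.2 ⟨?_, hz⟩)
            rcases Finset.mem_insert.1 hz with h6 | h6
            · rw [h6]
              exact hxa
            · rw [Finset.mem_singleton.1 h6]
              exact hya
  · intro h
    have hedge : ∀ x y : ℕ, ({x, y} : Finset ℕ) ∈ K →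
        Relation.ReflTransGen (fun x y => ({x, y} : Finset ℕ) ∈ stell K E a) (id x) (id y) := by
      intro x y hxy
      simp only [id]
      by_cases hs : E ⊆ {x, y}
      · have h1 : E = {x, y} := Finset.eq_of_subset_of_card_le hs (Finset.card_le_two.trans hE)
        have hx : x ∈ E := by rw [h1]; exact Finset.mem_insert_self _ _
        have hy : y ∈ E := by
          rw [h1]; exact Finset.mem_insert_of_mem (Finset.mem_singleton_self _)
        exact (Relation.ReflTransGen.single (q6_pair _ _ (hae x hx))).trans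
          (Relation.ReflTransGen.single (hae y hy))
      · exact Relation.ReflTransGen.single ((mem_stell hK ha).2 (Or.inl ⟨ha _ hxy, hxy, hs⟩))
    refine q6_conn (e₀ := e₀) ((vertex_stell hK hE hEK ha).2 (Or.inl heK)) (fun v hv => ?_)
    rcases (vertex_stell hK hE hEK ha).1 hv with h1 | h1
    · exact q6_lift id hedge (h.2 e₀ v heK h1)
    · rw [h1]
      exact Relation.ReflTransGen.single (q6_pair _ _ (hae e₀ he₀))

end Pool.Agent.LibFlagPL

end

section

namespace Pool.Agent.LibFlagPL

open Finset

theorem SW.eul {d : ℕ} {K : Fam} (h : SW d K) : eul K = (-1) ^ d := by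
  cases d with
  | zero =>
    have h1 : K = {∅} := h
    rw [h1]
    unfold Pool.Agent.LibFlagPL.eul
    rw [Finset.sum_singleton, Finset.card_empty]
  | succ d => exact h.2.2.1

theorem SW.exists_vertex {d : ℕ} {K : Fam} (h : SW (d + 1) K) : ∃ v : ℕ, {v} ∈ K := by
  cases d with
  | zero =>
    by_contra hne
    push Not at hne
    have h0 : IsCx K := h.1
    have h1 : K = {∅} := by
      ext s
      rw [Finset.mem_singleton]
      constructor
      · intro hs
        by_contra h2
        obtain ⟨v, hv⟩ := Finset.nonempty_iff_ne_empty.2 h2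
        exact hne v (h0.2 s hs _ (Finset.singleton_subset_iff.2 hv))
      · intro hs
        rw [hs]
        exact h0.1
    have h2 := SW.eul h
    rw [h1] at h2
    unfold Pool.Agent.LibFlagPL.eul at h2
    rw [Finset.sum_singleton, Finset.card_empty] at h2
    norm_num at h2
  | succ d => exact (h.2.2.2 (by omega)).1

private theorem Q7_main (n : ℕ) : ∀ (d : ℕ) (E : Finset ℕ) (L : Fam), d + E.card ≤ n →
    E.Nonempty → SW d L → (∀ t ∈ L, Disjoint E t) → SW (d + E.card - 1) (jn E.ssubsets L) := by
  induction n with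
  | zero =>
    intro d E L hn hE _ _
    have := hE.card_pos
    omega
  | succ n ih =>
    intro d E L hn hE hL hd
    have hLcx := hL.isCx
    by_cases h1 : E.card = 1
    · obtain ⟨v, rfl⟩ := Finset.card_eq_one.1 h1
      rw [bj_single, Finset.card_singleton, Nat.add_sub_cancel]
      exact hL
    · have hpos := hE.card_pos
      have h2 : 2 ≤ E.card := by omega
      obtain ⟨e, he⟩ : ∃ e, E.card = e + 2 := ⟨E.card - 2, by omega⟩
      have hidx : d + E.card - 1 = (d + e) + 1 := by omega
      rw [hidx]
      change IsCx (jn E.ssubsets L) ∧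
        (∀ v : ℕ, {v} ∈ jn E.ssubsets L → SW (d + e) (link (jn E.ssubsets L) {v})) ∧
        eul (jn E.ssubsets L) = (-1) ^ ((d + e) + 1) ∧ (1 ≤ d + e → ConnF (jn E.ssubsets L))
      refine ⟨isCx_bj hE hLcx hd, ?_, ?_, ?_⟩
      · intro v hv
        rcases (vertex_bj h2 hLcx hd).1 hv with h | h
        · rw [link_bj_left h2 hLcx hd h]
          have hc : (E.erase v).card = e + 1 := by
            rw [Finset.card_erase_of_mem h, he]
            omega
          have h3 := ih d (E.erase v) L (by omega) (Finset.card_pos.1 (by omega)) hL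
            (fun t ht => Finset.disjoint_of_subset_left (Finset.erase_subset v E) (hd t ht))
          have h4 : d + (E.erase v).card - 1 = d + e := by omega
          rw [h4] at h3
          exact h3
        · rw [link_bj_right hE hLcx hd h]
          cases d with
          | zero =>
            have h5 : L = {∅} := hL
            rw [h5, Finset.mem_singleton] at h
            exact absurd h (Finset.singleton_ne_empty v)
          | succ d =>
            have h6 : SW d (link L {v}) := hL.2.1 v h
            have h3 := ih d E (link L {v}) (by omega) hE h6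
              (fun t ht => hd t (Finset.mem_filter.1 ht).1)
            have h4 : d + E.card - 1 = d + 1 + e := by omega
            rw [h4] at h3
            exact h3
      · rw [eul_bj hE hd, SW.eul hL, he]
        ring
      · intro h3
        refine ConnF_bj h2 hLcx hd ?_
        cases d with
        | zero => left; omega
        | succ d => right; exact SW.exists_vertex hL

theorem SW_bj {d : ℕ} {E : Finset ℕ} {L : Fam} (hE : E.Nonempty) (hL : SW d L)
    (hd : ∀ t ∈ L, Disjoint E t) : SW (d + E.card - 1) (jn E.ssubsets L) := by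
  exact Q7_main (d + E.card) d E L le_rfl hE hL hd

end Pool.Agent.LibFlagPL

end

section

namespace Pool.Agent.LibFlagPL

open Finset

private theorem Q8_iso_one {d : ℕ} {K L : Fam} (h : Iso K L) (hK : SW d K) : SW d L := by
  induction d generalizing K L with
  | zero =>
    have h1 : K = {∅} := hK
    subst h1
    obtain ⟨f, hf⟩ := h
    show L = {∅}
    rw [hf, Finset.image_singleton, Finset.image_empty]
  | succ d ih =>
    have hiso := h
    obtain ⟨f, hf⟩ := h
    obtain ⟨hc, hl, he, hcn⟩ := hK
    refine ⟨isCx_iso hiso hc, ?_, ?_, ?_⟩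
    · intro v hv
      have hv2 := hv
      rw [hf, Finset.mem_image] at hv2
      obtain ⟨s, hs, hs2⟩ := hv2
      have hinj : Function.Injective (fun s : Finset ℕ => s.image f) :=
        Finset.image_injective f.injective
      have h3 : (({f.symm v} : Finset ℕ)).image f = {v} := by
        rw [Finset.image_singleton, Equiv.apply_symm_apply]
      have h4 : s = {f.symm v} := by
        apply hinj
        show s.image f = (({f.symm v} : Finset ℕ)).image f
        rw [h3]
        exact hs2
      rw [h4] at hs
      have h5 := Iso.link_image f hf hc {f.symm v}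
      rw [h3] at h5
      exact ih ⟨f, h5⟩ (hl _ hs)
    · rw [← eul_iso hiso]
      exact he
    · intro h1
      exact (ConnF_iso hiso).1 (hcn h1)

theorem SW_iso {d : ℕ} {K L : Fam} (h : Iso K L) : SW d K ↔ SW d L :=
  ⟨Q8_iso_one h, Q8_iso_one h.symm⟩

theorem SW_bds (d : ℕ) : SW d (bds d) := by
  have h0 : SW 0 ({∅} : Fam) := rfl
  have h1 := SW_bj (d := 0) (E := Finset.range (d + 1)) (L := ({∅} : Fam))
    ⟨0, by rw [Finset.mem_range]; omega⟩ h0 (by
      intro t ht
      rw [Finset.mem_singleton] at ht
      subst ht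
      exact Finset.disjoint_empty_right _)
  have h2 : jn (Finset.range (d + 1)).ssubsets ({∅} : Fam) = bds d := by
    unfold jn bds
    ext τ
    rw [Finset.mem_image]
    constructor
    · rintro ⟨p, hp, rfl⟩
      rw [Finset.mem_product, Finset.mem_singleton] at hp
      rw [hp.2, Finset.union_empty]
      exact hp.1
    · intro hτ
      exact ⟨(τ, ∅), Finset.mem_product.2 ⟨hτ, Finset.mem_singleton_self _⟩, Finset.union_empty _⟩
  rw [h2, Finset.card_range] at h1
  have h3 : 0 + (d + 1) - 1 = d := by omega
  rw [h3] at h1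
  exact h1

end Pool.Agent.LibFlagPL

end

section

namespace Pool.Agent.LibFlagPL

open Finset

private theorem Q9_single {d : ℕ} {K : Fam} {E : Finset ℕ} {a : ℕ} (hK : IsCx K)
    (ha : ∀ t ∈ K, a ∉ t) (h1 : E.card = 1) : SW d (stell K E a) ↔ SW d K := by
  obtain ⟨w, rfl⟩ := Finset.card_eq_one.mp h1
  exact (SW_iso (d := d) ⟨Equiv.swap w a, stell_single hK ha⟩).symm

theorem SW_stell {d : ℕ} {K : Fam} {E : Finset ℕ} {a : ℕ} (hK : IsCx K) (hE : E.Nonempty)
    (hEK : E ∈ K) (ha : ∀ t ∈ K, a ∉ t) : SW d (stell K E a) ↔ SW d K := by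
  induction d generalizing K E with
  | zero =>
    by_cases h1 : E.card = 1
    · exact Q9_single hK ha h1
    · have h2 : 2 ≤ E.card := by
        have := hE.card_pos
        omega
      constructor
      · intro h
        have h3 : stell K E a = {∅} := h
        have h4 : ({a} : Finset ℕ) ∈ stell K E a := (vertex_stell hK h2 hEK ha).mpr (Or.inr rfl)
        rw [h3, Finset.mem_singleton] at h4
        exact absurd h4 (Finset.singleton_ne_empty a)
      · intro h
        have h3 : K = {∅} := h
        rw [h3, Finset.mem_singleton] at hEK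
        exact absurd hEK hE.ne_empty
  | succ d ih =>
    by_cases h1 : E.card = 1
    · exact Q9_single hK ha h1
    · have h2 : 2 ≤ E.card := by
        have := hE.card_pos
        omega
      -- links of the vertices of `K`
      have hlk : ∀ v : ℕ, {v} ∈ K → (SW d (link (stell K E a) {v}) ↔ SW d (link K {v})) := by
        intro v hv
        by_cases hvE : insert v E ∈ K
        · rw [link_stell_near hK hE ha hv hvE]
          refine ih (isCx_link hK hv) ?_ ?_ ?_
          · rw [← Finset.card_pos]
            have := Finset.pred_card_le_card_erase (s := E) (a := v)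
            omega
          · rw [mem_link hK]
            refine ⟨?_, ?_⟩
            · rw [Finset.disjoint_singleton_left]
              exact Finset.notMem_erase v E
            · have h5 : ({v} : Finset ℕ) ∪ E.erase v = insert v E := by
                ext x
                simp only [Finset.mem_union, Finset.mem_singleton, Finset.mem_erase, Finset.mem_insert]
                tauto
              rw [h5]
              exact hvE
          · intro t ht
            exact ha t (Finset.mem_filter.mp ht).1
        · rw [link_stell_far hK hE ha hv hvE]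
      constructor
      · rintro ⟨_, g2, g3, g4⟩
        refine ⟨hK, ?_, ?_, ?_⟩
        · intro v hv
          exact (hlk v hv).mp (g2 v ((vertex_stell hK h2 hEK ha).mpr (Or.inl hv)))
        · rw [← eul_stell hK hE hEK ha]
          exact g3
        · intro hd
          exact (ConnF_stell hK h2 hEK ha).mp (g4 hd)
      · intro hS
        obtain ⟨_, g2, g3, g4⟩ := id hS
        refine ⟨isCx_stell hK hE ha, ?_, ?_, ?_⟩
        · intro v hv
          rcases (vertex_stell hK h2 hEK ha).mp hv with hv | rfl
          · exact (hlk v hv).mpr (g2 v hv)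
          · rw [link_stell_new hK hE hEK ha]
            obtain ⟨k1, k2⟩ := SW.link_face hS hEK
            have k3 := SW_bj hE k2 (fun t ht => ((mem_link hK).mp ht).1)
            have k4 : d + 1 - E.card + E.card - 1 = d := by omega
            rw [k4] at k3
            exact k3
        · rw [eul_stell hK hE hEK ha]
          exact g3
        · intro hd
          exact (ConnF_stell hK h2 hEK ha).mpr (g4 hd)

theorem SW_of_SPL {d : ℕ} {K : Fam} (h : SPL d K) : SW d K := by
  have hstep : ∀ K L : Fam, StStep K L → (SW d K ↔ SW d L) := by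
    rintro K L ⟨hK, h1 | ⟨E, a, hEK, hE, ha, rfl⟩⟩
    · exact SW_iso h1
    · exact (SW_stell hK (Finset.card_pos.mp (by omega)) hEK ha).symm
  have heq : ∀ K L : Fam, StEq K L → (SW d K ↔ SW d L) := by
    intro K L hKL
    induction hKL with
    | rel _ _ h => exact hstep _ _ h
    | refl _ => exact Iff.rfl
    | symm _ _ _ ih => exact ih.symm
    | trans _ _ _ _ _ ih1 ih2 => exact ih1.trans ih2
  exact (heq _ _ h.2).mp (SW_bds d)

end Pool.Agent.LibFlagPL

end
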