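import Pool.Agent.LibFlagPL.StellA

/-!
# LibFlagPL.StellB: commutation of stellar subdivisions
-/

section

namespace Pool.Agent.LibFlagPL

open Finset

variable {N : ℕ}

private theorem Q10_nb {G : SimpleGraph (Fin N)} {S : Finset (Fin N)} {y t : Fin N} :
    t ∈ nb G S y ↔ t ∈ S ∧ G.Adj y t := by
  classical
  unfold nb
  simp [Finset.mem_filter]

theorem conn_of_connF' {G : SimpleGraph (Fin N)} {S : Finset (Fin N)}
    (h : ConnF (cxOf G S)) : Conn G S := by
  obtain ⟨⟨a, ha⟩, h2⟩ := h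
  obtain ⟨v, hv, _⟩ := vertex_mem_cxOf.1 ha
  refine ⟨⟨v, hv⟩, ?_⟩
  intro x hx y hy
  have h3 := h2 x.val y.val (vertex_mem_cxOf.2 ⟨x, hx, rfl⟩) (vertex_mem_cxOf.2 ⟨y, hy, rfl⟩)
  have key : ∀ b : ℕ, Relation.ReflTransGen (fun x y => ({x, y} : Finset ℕ) ∈ cxOf G S) x.val b →
      ∀ w : Fin N, w ∈ S → w.val = b →
        Relation.ReflTransGen (fun a b => a ∈ S ∧ b ∈ S ∧ G.Adj a b) x w := by
    intro b hb
    induction hb with
    | refl =>
      intro w _ hwx
      have : w = x := Fin.ext hwx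
      rw [this]
    | @tail c d _ hcd ih =>
      intro w hw hwd
      have hc : ({c} : Finset ℕ) ∈ cxOf G S := by
        refine (isCx_cxOf G S).2 _ hcd _ ?_
        intro z hz
        rw [Finset.mem_singleton] at hz
        rw [hz]
        exact Finset.mem_insert_self _ _
      obtain ⟨w', hw', hwc⟩ := vertex_mem_cxOf.1 hc
      have h5 := ih w' hw' hwc
      by_cases hne : w' = w
      · rw [← hne]
        exact h5
      · rw [← hwc, ← hwd] at hcd
        exact h5.tail ((edge_mem_cxOf hne).1 hcd)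
  exact key y.val h3 y hy rfl

private theorem Q10_nonadj {G : SimpleGraph (Fin N)} {S : Finset (Fin N)} (h : SW 1 (cxOf G S)) :
    ∀ s ∈ S, ∀ t ∈ S, ¬ G.Adj s t := by
  intro s hs t ht hst
  obtain ⟨hcx, hl, _, _⟩ := h
  have h1 : link (cxOf G S) {s.val} = {∅} := hl s.val (vertex_mem_cxOf.2 ⟨s, hs, rfl⟩)
  have h2 : ({t.val} : Finset ℕ) ∈ link (cxOf G S) {s.val} := by
    rw [link_vertex_cxOf hs]
    exact vertex_mem_cxOf.2 ⟨t, Q10_nb.2 ⟨ht, hst⟩, rfl⟩
  rw [h1, Finset.mem_singleton] at h2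
  exact Finset.singleton_ne_empty _ h2

private theorem Q10_fam {G : SimpleGraph (Fin N)} {S : Finset (Fin N)}
    (h : ∀ s ∈ S, ∀ t ∈ S, ¬ G.Adj s t) :
    cxOf G S = insert ∅ (S.image (fun s => ({s.val} : Finset ℕ))) := by
  classical
  ext s
  rw [Finset.mem_insert, Finset.mem_image]
  constructor
  · intro hs
    obtain ⟨σ, h1, h2, h3⟩ := mem_cxOf.1 hs
    rcases σ.eq_empty_or_nonempty with h4 | ⟨x, hx⟩
    · left
      rw [h3, h4, Finset.image_empty]
    · right
      refine ⟨x, h1 hx, ?_⟩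
      have h5 : σ = {x} := by
        ext y
        rw [Finset.mem_singleton]
        constructor
        · intro hy
          by_contra hne
          exact h y (h1 hy) x (h1 hx) (h2 y hy x hx hne)
        · intro hy
          rw [hy]
          exact hx
      rw [h3, h5, Finset.image_singleton]
  · rintro (h1 | ⟨x, hx, h1⟩)
    · rw [h1]
      exact (isCx_cxOf G S).1
    · rw [← h1]
      exact vertex_mem_cxOf.2 ⟨x, hx, rfl⟩

theorem SW_one {G : SimpleGraph (Fin N)} {S : Finset (Fin N)} (h : SW 1 (cxOf G S)) :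
    S.card = 2 ∧ ∀ s ∈ S, ∀ t ∈ S, ¬ G.Adj s t := by
  have hna := Q10_nonadj h
  refine ⟨?_, hna⟩
  obtain ⟨_, _, he, _⟩ := h
  unfold eul at he
  rw [Q10_fam hna, Finset.sum_insert, Finset.sum_image] at he
  · simp only [Finset.card_empty, pow_zero, Finset.card_singleton, pow_one, Finset.sum_const,
      nsmul_eq_mul] at he
    have h1 : (S.card : ℤ) = 2 := by
      have h2 : ((-1 : ℤ)) ^ (0 + 1) = -1 := by norm_num
      rw [h2] at he
      linarith
    exact_mod_cast h1
  · intro x _ y _ hxy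
    have h2 : x.val = y.val := Finset.singleton_injective hxy
    exact Fin.ext h2
  · intro hmem
    obtain ⟨x, _, hx⟩ := Finset.mem_image.1 hmem
    exact Finset.singleton_ne_empty _ hx

theorem SW_circle {G : SimpleGraph (Fin N)} {S : Finset (Fin N)} (h : SW 2 (cxOf G S)) :
    Circle G S := by
  classical
  obtain ⟨_, hl, _, hc⟩ := h
  have hconn : Conn G S := conn_of_connF' (hc le_rfl)
  have hlink : ∀ s ∈ S, (nb G S s).card = 2 ∧ ∀ a ∈ nb G S s, ∀ b ∈ nb G S s, ¬ G.Adj a b := by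
    intro s hs
    have h1 : SW 1 (link (cxOf G S) {s.val}) := hl s.val (vertex_mem_cxOf.2 ⟨s, hs, rfl⟩)
    rw [link_vertex_cxOf hs] at h1
    exact SW_one h1
  refine ⟨?_, fun t ht => (hlink t ht).1, hconn⟩
  obtain ⟨s, hs⟩ := hconn.1
  obtain ⟨h2, h3⟩ := hlink s hs
  obtain ⟨a, b, hab, hnab⟩ := Finset.card_eq_two.1 h2
  have ha : a ∈ nb G S s := by rw [hnab]; exact Finset.mem_insert_self _ _
  have hb : b ∈ nb G S s := by
    rw [hnab]; exact Finset.mem_insert_of_mem (Finset.mem_singleton_self _)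
  have haS := (Q10_nb.1 ha).1
  have hbS := (Q10_nb.1 hb).1
  have hsa := (Q10_nb.1 ha).2
  have hsb := (Q10_nb.1 hb).2
  have hs2 : s ∈ nb G S a := Q10_nb.2 ⟨hs, hsa.symm⟩
  have h4 : 1 < (nb G S a).card := by rw [(hlink a haS).1]; norm_num
  obtain ⟨c, hc1, hc2⟩ := Finset.exists_mem_ne h4 s
  have hcS := (Q10_nb.1 hc1).1
  have hac := (Q10_nb.1 hc1).2
  have hcb : c ≠ b := by
    intro he
    rw [he] at hac
    exact h3 a ha b hb hac
  have hsub : ({s, a, b, c} : Finset (Fin N)) ⊆ S := by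
    intro x hx
    simp only [Finset.mem_insert, Finset.mem_singleton] at hx
    rcases hx with hx | hx | hx | hx
    · rw [hx]; exact hs
    · rw [hx]; exact haS
    · rw [hx]; exact hbS
    · rw [hx]; exact hcS
  have hcard : ({s, a, b, c} : Finset (Fin N)).card = 4 := by
    rw [Finset.card_insert_of_notMem, Finset.card_insert_of_notMem, Finset.card_insert_of_notMem,
      Finset.card_singleton]
    · rw [Finset.mem_singleton]
      exact hcb.symm
    · simp only [Finset.mem_insert, Finset.mem_singleton, not_or]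
      exact ⟨hab, hac.ne⟩
    · simp only [Finset.mem_insert, Finset.mem_singleton, not_or]
      exact ⟨hsa.ne, hsb.ne, hc2.symm⟩
  rw [← hcard]
  exact Finset.card_le_card hsub

end Pool.Agent.LibFlagPL

end

section

namespace Pool.Agent.LibFlagPL

open Finset

variable {N : ℕ}

theorem SW_F2 {G : SimpleGraph (Fin N)} {S : Finset (Fin N)} (h : SW 3 (cxOf G S)) :
    F2 G S := by
  have h' := h
  obtain ⟨-, hl, he, hc⟩ := h'
  have hcirc : ∀ s ∈ S, Circle G (nb G S s) := by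
    intro s hs
    have h1 := hl s.val (vertex_mem_cxOf.2 ⟨s, hs, rfl⟩)
    rw [link_vertex_cxOf hs] at h1
    exact SW_circle h1
  refine ⟨conn_of_connF' (hc (show 1 ≤ 2 by omega)), hcirc, ?_⟩
  have hsum : eul (cxOf G S) = (fnum (cxOf G S) 0 : ℤ) - fnum (cxOf G S) 1 + fnum (cxOf G S) 2 -
      fnum (cxOf G S) 3 := by
    have hmaps : ∀ s ∈ cxOf G S, s.card ∈ Finset.range 4 := fun s hs =>
      Finset.mem_range.2 (by have := (h.link_face hs).1; omega)
    unfold eul
    rw [← Finset.sum_fiberwise_of_maps_to hmaps]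
    have hj : ∀ j, (∑ s ∈ (cxOf G S).filter (fun s => s.card = j), (-1 : ℤ) ^ s.card) =
        (-1) ^ j * (fnum (cxOf G S) j : ℤ) := by
      intro j
      rw [Finset.sum_congr rfl (fun s hs => by rw [(Finset.mem_filter.1 hs).2]), Finset.sum_const]
      unfold fnum
      rw [nsmul_eq_mul, mul_comm]
    simp only [hj, Finset.sum_range_succ, Finset.sum_range_zero]
    ring
  rw [fnum_cxOf, fnum_cxOf, fnum_cxOf, fnum_cxOf, faces_zero, card_faces_one, he] at hsum
  have h3 := sum_faces_nb (G := G) (S := S) 2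
  have h2 := sum_faces_nb (G := G) (S := S) 1
  have h3' : ∑ s ∈ S, (faces G (nb G S s) 2).card = ∑ s ∈ S, (nb G S s).card :=
    Finset.sum_congr rfl fun s hs => (hcirc s hs).faces_two
  have h2' : ∑ s ∈ S, (faces G (nb G S s) 1).card = ∑ s ∈ S, (nb G S s).card :=
    Finset.sum_congr rfl fun s _ => card_faces_one
  rw [h3'] at h3
  rw [h2'] at h2
  simp only [Finset.card_singleton] at hsum
  norm_num at hsum h3 h2
  omega

theorem SW_F3 {G : SimpleGraph (Fin N)} {S : Finset (Fin N)} (h : SW 4 (cxOf G S)) :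
    F3 G S := by
  obtain ⟨-, hl, -, hc⟩ := h
  refine ⟨conn_of_connF' (hc (show 1 ≤ 3 by omega)), fun s hs => ?_⟩
  have h1 := hl s.val (vertex_mem_cxOf.2 ⟨s, hs, rfl⟩)
  rw [link_vertex_cxOf hs] at h1
  exact SW_F2 h1

end Pool.Agent.LibFlagPL

end

section

namespace Pool.Agent.LibFlagPL

open Finset

theorem mem_contr_cx {K : Fam} {u v : ℕ} {s : Finset ℕ} (hK : IsCx K) (huv : u ≠ v) :
    s ∈ contr K u v ↔ v ∉ s ∧ (s ∈ K ∨ (u ∈ s ∧ insert v (s.erase u) ∈ K)) := by
  rw [mem_contr]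
  constructor
  · rintro (⟨h1, h2⟩ | ⟨t, ht, hv, hs⟩)
    · exact ⟨h2, Or.inl h1⟩
    · subst hs
      refine ⟨?_, Or.inr ⟨Finset.mem_insert_self _ _, ?_⟩⟩
      · intro h
        rcases Finset.mem_insert.1 h with h | h
        · exact huv h.symm
        · exact Finset.notMem_erase _ _ h
      · apply hK.2 t ht
        intro x hx
        rcases Finset.mem_insert.1 hx with hx | hx
        · rw [hx]
          exact hv
        · have h1 := Finset.mem_erase.1 hx
          rcases Finset.mem_insert.1 h1.2 with h2 | h2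
          · exact absurd h2 h1.1
          · exact Finset.mem_of_mem_erase h2
  · rintro ⟨hv, hs | ⟨hu, hs⟩⟩
    · exact Or.inl ⟨hs, hv⟩
    · have h1 : v ∉ s.erase u := fun h => hv (Finset.mem_of_mem_erase h)
      refine Or.inr ⟨insert v (s.erase u), hs, Finset.mem_insert_self _ _, ?_⟩
      rw [Finset.erase_insert h1, Finset.insert_erase hu]

theorem mem_vert {K : Fam} (hK : IsCx K) {x : ℕ} : x ∈ vert K ↔ {x} ∈ K := by
  unfold vert
  rw [Finset.mem_biUnion]
  constructor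
  · rintro ⟨s, hs, hx⟩
    exact hK.2 s hs _ (Finset.singleton_subset_iff.2 hx)
  · intro h
    exact ⟨{x}, h, Finset.mem_singleton_self x⟩

theorem subset_vert {K : Fam} {s : Finset ℕ} (hs : s ∈ K) : s ⊆ vert K := by
  intro x hx
  unfold vert
  rw [Finset.mem_biUnion]
  exact ⟨s, hs, hx⟩

theorem Amb.notMem {M : Fam} {v : ℕ} {K : Fam} (h : Amb M v K) : v ∉ vert K := by
  intro hv
  unfold vert at hv
  rw [Finset.mem_biUnion] at hv
  obtain ⟨s, hs, hv⟩ := hv
  exact h.vK s hs hv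

/-- faces of `K` are faces of the link of `v` -/
theorem Amb.face {M : Fam} {v : ℕ} {K : Fam} (h : Amb M v K) {s : Finset ℕ}
    (hs : s ⊆ vert K) : insert v s ∈ M ↔ s ∈ K := by
  have hv : v ∉ s := fun hv => h.notMem (hs hv)
  have h1 : s \ vert K = ∅ := Finset.sdiff_eq_empty_iff_subset.2 hs
  have h2 : s ∩ vert K = s := Finset.inter_eq_left.2 hs
  rw [h.lj s hv, h1, h2]
  constructor
  · rintro ⟨_, h3⟩
    exact h3
  · intro h3
    exact ⟨h.vM, h3⟩

theorem Amb.edge {M : Fam} {v : ℕ} {K : Fam} (h : Amb M v K) {x : ℕ} (hx : {x} ∈ K) :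
    ({x, v} : Finset ℕ) ∈ M := by
  have h1 : insert v ({x} : Finset ℕ) ∈ M := (h.face (subset_vert hx)).2 hx
  rw [Finset.pair_comm]
  exact h1

theorem Amb.not_edge {M : Fam} {v : ℕ} {K : Fam} (h : Amb M v K) {u q : ℕ} (hu : {u} ∈ K)
    (hq : {q} ∈ K) (huq : ({u, q} : Finset ℕ) ∉ K) : ({u, q} : Finset ℕ) ∉ M := by
  intro hM
  have hu1 : u ∈ vert K := (mem_vert h.cxK).2 hu
  have hq1 : q ∈ vert K := (mem_vert h.cxK).2 hq
  have hsub : ({u, q} : Finset ℕ) ⊆ vert K := by
    intro x hx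
    rcases Finset.mem_insert.1 hx with hx | hx
    · rw [hx]
      exact hu1
    · rw [Finset.mem_singleton.1 hx]
      exact hq1
  have hv : v ∉ ({u, q} : Finset ℕ) := fun hv => h.notMem (hsub hv)
  have h1 : insert v ({u, q} : Finset ℕ) ∈ M := by
    apply h.ind _ hM hv
    intro x hx
    exact h.edge ((mem_vert h.cxK).1 (hsub hx))
  exact huq ((h.face hsub).1 h1)

end Pool.Agent.LibFlagPL

end

section

namespace Pool.Agent.LibFlagPL

open Finset

private theorem Q21_mem {M : Fam} {v p q x : ℕ} (hM : IsCx M) (hx : ∀ s ∈ M, x ∉ s)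
    (hxp : x ≠ p) (t : Finset ℕ) : t ∈ contr (stell M {v, q} x) p x ↔
      x ∉ t ∧ ((t ∈ M ∧ ¬ ({v, q} : Finset ℕ) ⊆ t) ∨
        (p ∈ t ∧ ¬ ({v, q} : Finset ℕ) ⊆ t.erase p ∧ t.erase p ∪ {v, q} ∈ M)) := by
  rw [mem_contr_cx (isCx_stell hM ⟨v, by simp⟩ hx) hxp.symm, mem_stell hM hx, mem_stell hM hx]
  constructor
  · rintro ⟨hxt, h⟩
    refine ⟨hxt, ?_⟩
    rcases h with (h | h) | ⟨hp, h | h⟩
    · exact Or.inl h.2
    · exact absurd h.1 hxt
    · exact absurd (Finset.mem_insert_self x _) h.1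
    · rw [Finset.erase_insert (fun h => hxt (Finset.mem_of_mem_erase h))] at h
      exact Or.inr ⟨hp, h.2.1, h.2.2⟩
  · rintro ⟨hxt, h⟩
    refine ⟨hxt, ?_⟩
    rcases h with h | ⟨hp, h1, h2⟩
    · exact Or.inl (Or.inl ⟨hxt, h.1, h.2⟩)
    · right
      refine ⟨hp, Or.inr ⟨Finset.mem_insert_self x _, ?_⟩⟩
      rw [Finset.erase_insert (fun h => hxt (Finset.mem_of_mem_erase h))]
      exact ⟨h1, h2⟩

private theorem Q21_sub {a b : ℕ} {t : Finset ℕ} : ({a, b} : Finset ℕ) ⊆ t ↔ a ∈ t ∧ b ∈ t := by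
  rw [Finset.insert_subset_iff, Finset.singleton_subset_iff]

theorem contr_stell_swap {M : Fam} {u v p q x : ℕ} (hM : IsCx M) (hx : ∀ s ∈ M, x ∉ s)
    (huv : u ≠ v) (huq : u ≠ q) (hvq : v ≠ q) (hpu : p ≠ u) (hpv : p ≠ v) (hpq : p ≠ q)
    (hxu : x ≠ u) (hxv : x ≠ v) (hxp : x ≠ p) (hxq : x ≠ q)
    (huqM : ({u, q} : Finset ℕ) ∉ M) :
    contr (contr (stell M {v, q} x) p x) u v =
      contr (stell (contr M u v) {u, q} x) p x := by
  have hN : IsCx (contr M u v) := isCx_contr hM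
  have hxN : ∀ s ∈ contr M u v, x ∉ s := by
    intro s hs hxs
    obtain ⟨-, h | ⟨-, h⟩⟩ := (mem_contr_cx hM huv).1 hs
    · exact hx s h hxs
    · exact hx _ h (Finset.mem_insert_of_mem (Finset.mem_erase.2 ⟨hxu, hxs⟩))
  have hM2 : IsCx (contr (stell M {v, q} x) p x) := isCx_contr (isCx_stell hM ⟨v, by simp⟩ hx)
  have hno : ∀ s ∈ M, ¬ (u ∈ s ∧ q ∈ s) := by
    rintro s hs ⟨h1, h2⟩
    refine huqM (hM.2 s hs _ ?_)
    rw [Q21_sub]
    exact ⟨h1, h2⟩
  ext s
  rw [mem_contr_cx hM2 huv, Q21_mem hM hx hxp, Q21_mem hM hx hxp, Q21_mem hN hxN hxp, mem_contr_cx hM huv,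
    mem_contr_cx hM huv]
  simp only [Q21_sub]
  by_cases hvs : v ∈ s
  · constructor
    · rintro ⟨h, -⟩
      exact absurd hvs h
    · rintro ⟨hxs, ⟨⟨h, -⟩, -⟩ | ⟨hp, -, h, -⟩⟩
      · exact absurd hvs h
      · exact absurd (Finset.mem_union_left _ (Finset.mem_erase.2 ⟨hpv.symm, hvs⟩)) h
  by_cases hxs : x ∈ s
  · constructor
    · rintro ⟨-, ⟨h, -⟩ | ⟨-, h, -⟩⟩
      · exact absurd hxs h
      · exact absurd (Finset.mem_insert_of_mem (Finset.mem_erase.2 ⟨hxu, hxs⟩)) h
    · rintro ⟨h, -⟩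
      exact absurd hxs h
  have e1 : s.erase p ∪ {v, q} = insert v (insert q (s.erase p)) := by
    ext z
    simp only [Finset.mem_union, Finset.mem_erase, Finset.mem_insert, Finset.mem_singleton]
    tauto
  have e2 : (insert v (s.erase u)).erase p ∪ {v, q} = insert v (insert q ((s.erase u).erase p)) := by
    ext z
    simp only [Finset.mem_union, Finset.mem_erase, Finset.mem_insert, Finset.mem_singleton]
    by_cases h1 : z = v
    · simp [h1]
    · tauto
  have e3 : insert v ((s.erase p ∪ {u, q}).erase u) = insert v (insert q ((s.erase u).erase p)) := by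
    ext z
    simp only [Finset.mem_union, Finset.mem_erase, Finset.mem_insert, Finset.mem_singleton]
    by_cases h1 : z = u
    · rw [h1]
      constructor
      · rintro (h | ⟨h, -⟩)
        · exact Or.inl h
        · exact absurd rfl h
      · rintro (h | h | ⟨-, h, -⟩)
        · exact Or.inl h
        · exact absurd h huq
        · exact absurd rfl h
    · tauto
  rw [e1, e2, e3]
  have m1 : (x ∉ insert v (s.erase u)) := by
    intro h
    rcases Finset.mem_insert.1 h with h | h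
    · exact hxv h
    · exact hxs (Finset.mem_of_mem_erase h)
  have m2 : ∀ z, z ≠ v → z ≠ u → (z ∈ insert v (s.erase u) ↔ z ∈ s) := by
    intro z h1 h2
    rw [Finset.mem_insert, Finset.mem_erase]
    exact ⟨fun h => h.elim (fun h => absurd h h1) (fun h => h.2), fun h => Or.inr ⟨h2, h⟩⟩
  have m3 : ∀ z, z ≠ p → (z ∈ s.erase p ↔ z ∈ s) := by
    intro z h1
    rw [Finset.mem_erase]
    exact ⟨fun h => h.2, fun h => ⟨h1, h⟩⟩
  have m4 : ∀ z, z ≠ p → (z ∈ (insert v (s.erase u)).erase p ↔ z ∈ insert v (s.erase u)) := by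
    intro z h1
    rw [Finset.mem_erase]
    exact ⟨fun h => h.2, fun h => ⟨h1, h⟩⟩
  rw [m4 v hpv.symm, m4 q hpq.symm, m2 q (Ne.symm hvq) (Ne.symm huq), m2 p hpv hpu, m3 v hpv.symm, m3 q hpq.symm,
    m3 u hpu.symm]
  have m5 : v ∈ insert v (s.erase u) := Finset.mem_insert_self _ _
  have m6 : v ∉ s.erase p ∪ {u, q} := by
    intro h
    rcases Finset.mem_union.1 h with h | h
    · exact hvs (Finset.mem_of_mem_erase h)
    · rcases Finset.mem_insert.1 h with h | h
      · exact huv h.symm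
      · exact hvq (Finset.mem_singleton.1 h)
  have m7 : s.erase p ∪ {u, q} ∉ M := by
    intro h
    exact hno _ h ⟨Finset.mem_union_right _ (by simp), Finset.mem_union_right _ (by simp)⟩
  have m8 : u ∈ s.erase p ∪ {u, q} := Finset.mem_union_right _ (by simp)
  have m9 : s ∈ M → ¬ (u ∈ s ∧ q ∈ s) := hno s
  have m10 : insert v (insert q (s.erase p)) ∈ M → u ∉ s := by
    intro h hu
    exact hno _ h ⟨Finset.mem_insert_of_mem (Finset.mem_insert_of_mem (Finset.mem_erase.2 ⟨hpu.symm, hu⟩)),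
      Finset.mem_insert_of_mem (Finset.mem_insert_self _ _)⟩
  have m11 : u ∉ s → insert v (insert q ((s.erase u).erase p)) = insert v (insert q (s.erase p)) := by
    intro h
    rw [Finset.erase_eq_of_notMem h]
  by_cases hu : u ∈ s
  · constructor
    · rintro ⟨-, ⟨-, ⟨h1, h2⟩ | ⟨h1, h2, h3⟩⟩ | ⟨h0, -, ⟨h1, h2⟩ | ⟨h1, h2, h3⟩⟩⟩
      · exact ⟨hxs, Or.inl ⟨⟨hvs, Or.inl h1⟩, m9 h1⟩⟩
      · exact absurd hu (m10 h3)
      · exact ⟨hxs, Or.inl ⟨⟨hvs, Or.inr ⟨hu, h1⟩⟩, fun h => h2 ⟨m5, h.2⟩⟩⟩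
      · exact ⟨hxs, Or.inr ⟨h1, fun h => h2 ⟨m5, h.2⟩, m6, Or.inr ⟨m8, h3⟩⟩⟩
    · rintro ⟨-, ⟨⟨-, h1 | ⟨h1, h2⟩⟩, h3⟩ | ⟨h1, h2, -, h3 | ⟨-, h3⟩⟩⟩
      · exact ⟨hvs, Or.inl ⟨hxs, Or.inl ⟨h1, fun h => hvs h.1⟩⟩⟩
      · exact ⟨hvs, Or.inr ⟨hu, m1, Or.inl ⟨h2, fun h => h3 ⟨hu, h.2⟩⟩⟩⟩
      · exact absurd h3 m7
      · exact ⟨hvs, Or.inr ⟨hu, m1, Or.inr ⟨h1, fun h => h2 ⟨hu, h.2⟩, h3⟩⟩⟩
  · rw [m11 hu]
    constructor
    · rintro ⟨-, ⟨-, ⟨h1, h2⟩ | ⟨h1, h2, h3⟩⟩ | ⟨h0, -⟩⟩
      · exact ⟨hxs, Or.inl ⟨⟨hvs, Or.inl h1⟩, m9 h1⟩⟩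
      · exact ⟨hxs, Or.inr ⟨h1, fun h => hu h.1, m6, Or.inr ⟨m8, h3⟩⟩⟩
      · exact absurd h0 hu
    · rintro ⟨-, ⟨⟨-, h1 | ⟨h1, h2⟩⟩, h3⟩ | ⟨h1, h2, -, h3 | ⟨-, h3⟩⟩⟩
      · exact ⟨hvs, Or.inl ⟨hxs, Or.inl ⟨h1, fun h => hvs h.1⟩⟩⟩
      · exact absurd h1 hu
      · exact absurd h3 m7
      · exact ⟨hvs, Or.inl ⟨hxs, Or.inr ⟨h1, fun h => hvs h.1, h3⟩⟩⟩

end Pool.Agent.LibFlagPL

end

section

namespace Pool.Agent.LibFlagPL

open Finset

theorem eq_stell_contr {M K : Fam} {u u' v : ℕ} (h : Amb M v K) (hu : {u} ∈ K)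
    (hu' : {u'} ∈ K) (huu : u ≠ u') (hn : ({u, u'} : Finset ℕ) ∉ K)
    (hs : ∀ s ∈ K, u ∉ s → u' ∉ s → insert u s ∈ K ∧ insert u' s ∈ K) :
    M = stell (contr M u v) {u, u'} v := by
  have huv : u ≠ v := fun e => h.vK _ hu (by rw [e]; simp)
  have hu'v : u' ≠ v := fun e => h.vK _ hu' (by rw [e]; simp)
  have hN : IsCx (contr M u v) := isCx_contr h.cx
  have hvN : ∀ s ∈ contr M u v, v ∉ s := fun s hs => ((mem_contr_cx h.cx huv).1 hs).1
  have hne : ({u, u'} : Finset ℕ) ∉ M := h.not_edge hu hu' hn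
  have huV : u ∈ vert K := (mem_vert h.cxK).2 hu
  have hu'V : u' ∈ vert K := (mem_vert h.cxK).2 hu'
  have hno : ∀ s ∈ M, ¬ (u ∈ s ∧ u' ∈ s) := by
    rintro s hs ⟨h1, h2⟩
    refine hne (h.cx.2 s hs _ ?_)
    rw [Finset.insert_subset_iff, Finset.singleton_subset_iff]
    exact ⟨h1, h2⟩
  have hnoK : ∀ s ∈ K, ¬ (u ∈ s ∧ u' ∈ s) := by
    rintro s hs ⟨h1, h2⟩
    refine hn (h.cxK.2 s hs _ ?_)
    rw [Finset.insert_subset_iff, Finset.singleton_subset_iff]
    exact ⟨h1, h2⟩
  ext s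
  rw [mem_stell hN hvN, Finset.insert_subset_iff, Finset.singleton_subset_iff, Finset.insert_subset_iff,
    Finset.singleton_subset_iff]
  by_cases hvs : v ∈ s
  · have hvt : v ∉ s.erase v := Finset.notMem_erase v s
    have hst : insert v (s.erase v) = s := Finset.insert_erase hvs
    set t := s.erase v with ht
    have hvw : v ∉ t ∪ {u, u'} := by
      intro h1
      rcases Finset.mem_union.1 h1 with h1 | h1
      · exact hvt h1
      · rcases Finset.mem_insert.1 h1 with h1 | h1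
        · exact huv h1.symm
        · exact hu'v (Finset.mem_singleton.1 h1).symm
    have hvw' : v ∉ (t ∪ {u, u'}).erase u := fun h1 => hvw (Finset.mem_of_mem_erase h1)
    have hW : t ∪ {u, u'} ∈ contr M u v ↔ insert v ((t ∪ {u, u'}).erase u) ∈ M := by
      rw [mem_contr_cx h.cx huv]
      constructor
      · rintro ⟨-, h1 | ⟨-, h1⟩⟩
        · exact absurd ⟨Finset.mem_union_right _ (by simp), Finset.mem_union_right _ (by simp)⟩ (hno _ h1)
        · exact h1
      · intro h1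
        exact ⟨hvw, Or.inr ⟨Finset.mem_union_right _ (by simp), h1⟩⟩
    have e1 : (t ∪ {u, u'}).erase u \ vert K = t \ vert K := by
      ext z
      simp only [Finset.mem_sdiff, Finset.mem_erase, Finset.mem_union, Finset.mem_insert, Finset.mem_singleton]
      constructor
      · rintro ⟨⟨h1, h2 | h2 | h2⟩, h3⟩
        · exact ⟨h2, h3⟩
        · exact absurd h2 h1
        · exact absurd (h2 ▸ hu'V) h3
      · rintro ⟨h1, h2⟩
        exact ⟨⟨fun h3 => h2 (h3 ▸ huV), Or.inl h1⟩, h2⟩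
    have e2 : (t ∪ {u, u'}).erase u ∩ vert K = insert u' ((t ∩ vert K).erase u) := by
      ext z
      simp only [Finset.mem_inter, Finset.mem_erase, Finset.mem_union, Finset.mem_insert, Finset.mem_singleton]
      constructor
      · rintro ⟨⟨h1, h2 | h2 | h2⟩, h3⟩
        · exact Or.inr ⟨h1, h2, h3⟩
        · exact absurd h2 h1
        · exact Or.inl h2
      · rintro (h1 | ⟨h1, h2, h3⟩)
        · rw [h1]
          exact ⟨⟨huu.symm, Or.inr (Or.inr rfl)⟩, hu'V⟩
        · exact ⟨⟨h1, Or.inl h2⟩, h3⟩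
    have hA : t ∩ vert K ∈ K ↔ ¬ (u ∈ t ∧ u' ∈ t) ∧ insert u' ((t ∩ vert K).erase u) ∈ K := by
      set A := t ∩ vert K with hAdef
      have huA : u ∈ A ↔ u ∈ t := by
        rw [hAdef, Finset.mem_inter]
        exact ⟨fun h => h.1, fun h => ⟨h, huV⟩⟩
      have hu'A : u' ∈ A ↔ u' ∈ t := by
        rw [hAdef, Finset.mem_inter]
        exact ⟨fun h => h.1, fun h => ⟨h, hu'V⟩⟩
      have hBu : u ∉ (A.erase u).erase u' := fun h1 => Finset.notMem_erase u A (Finset.mem_of_mem_erase h1)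
      have hBu' : u' ∉ (A.erase u).erase u' := Finset.notMem_erase _ _
      constructor
      · intro h1
        refine ⟨fun h2 => hnoK _ h1 ⟨huA.2 h2.1, hu'A.2 h2.2⟩, ?_⟩
        have hB : (A.erase u).erase u' ∈ K :=
          h.cxK.2 _ h1 _ ((Finset.erase_subset _ _).trans (Finset.erase_subset _ _))
        have h3 := (hs _ hB hBu hBu').2
        refine h.cxK.2 _ h3 _ ?_
        intro z hz
        by_cases hzu : z = u'
        · rw [hzu]; exact Finset.mem_insert_self _ _
        · rcases Finset.mem_insert.1 hz with h4 | h4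
          · exact absurd h4 hzu
          · exact Finset.mem_insert_of_mem (Finset.mem_erase.2 ⟨hzu, h4⟩)
      · rintro ⟨h1, h2⟩
        have hB : (A.erase u).erase u' ∈ K :=
          h.cxK.2 _ h2 _ ((Finset.erase_subset _ _).trans (Finset.subset_insert _ _))
        have h3 := hs _ hB hBu hBu'
        by_cases h4 : u ∈ A
        · have h5 : u' ∉ A := fun h5 => h1 ⟨huA.1 h4, hu'A.1 h5⟩
          refine h.cxK.2 _ h3.1 _ ?_
          intro z hz
          by_cases hzu : z = u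
          · rw [hzu]; exact Finset.mem_insert_self _ _
          · refine Finset.mem_insert_of_mem (Finset.mem_erase.2 ⟨?_, Finset.mem_erase.2 ⟨hzu, hz⟩⟩)
            rintro rfl
            exact h5 hz
        · refine h.cxK.2 _ h3.2 _ ?_
          intro z hz
          by_cases hzu : z = u'
          · rw [hzu]; exact Finset.mem_insert_self _ _
          · refine Finset.mem_insert_of_mem (Finset.mem_erase.2 ⟨hzu, Finset.mem_erase.2 ⟨?_, hz⟩⟩)
            rintro rfl
            exact h4 hz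
    have hlt := h.lj t hvt
    have hlw := h.lj _ hvw'
    rw [e1, e2] at hlw
    rw [hst] at hlt
    rw [hW, hlw, hlt, hA]
    constructor
    · rintro ⟨h1, h2, h3⟩
      exact Or.inr ⟨hvs, h2, h1, h3⟩
    · rintro (⟨h1, -⟩ | ⟨-, h1, h2, h3⟩)
      · exact absurd hvs h1
      · exact ⟨h2, h1, h3⟩
  · constructor
    · intro h1
      exact Or.inl ⟨hvs, (mem_contr_cx h.cx huv).2 ⟨hvs, Or.inl h1⟩, hno _ h1⟩
    · rintro (⟨-, h1, h2⟩ | ⟨h1, -⟩)
      · obtain ⟨-, h3 | ⟨h3, h4⟩⟩ := (mem_contr_cx h.cx huv).1 h1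
        · exact h3
        · have h5 : u' ∉ s := fun h5 => h2 ⟨h3, h5⟩
          have hvt : v ∉ s.erase u := fun h6 => hvs (Finset.mem_of_mem_erase h6)
          obtain ⟨h6, h7⟩ := (h.lj _ hvt).1 h4
          have h8 := (hs _ h7 (fun h8 => Finset.notMem_erase u s (Finset.mem_inter.1 h8).1)
            (fun h8 => h5 (Finset.mem_of_mem_erase (Finset.mem_inter.1 h8).1))).1
          have h9 : insert v s ∈ M := by
            refine (h.lj s hvs).2 ⟨?_, ?_⟩
            · refine h.cx.2 _ h6 _ (Finset.insert_subset_insert v ?_)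
              intro z hz
              obtain ⟨h10, h11⟩ := Finset.mem_sdiff.1 hz
              refine Finset.mem_sdiff.2 ⟨Finset.mem_erase.2 ⟨?_, h10⟩, h11⟩
              rintro rfl
              exact h11 huV
            · refine h.cxK.2 _ h8 _ ?_
              intro z hz
              obtain ⟨h10, h11⟩ := Finset.mem_inter.1 hz
              by_cases hzu : z = u
              · rw [hzu]; exact Finset.mem_insert_self _ _
              · exact Finset.mem_insert_of_mem (Finset.mem_inter.2 ⟨Finset.mem_erase.2 ⟨hzu, h10⟩, h11⟩)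
          exact h.cx.2 _ h9 _ (Finset.subset_insert _ _)
      · exact absurd h1 hvs

theorem edge_mem_contr {M K : Fam} {u q v : ℕ} (h : Amb M v K) (hu : {u} ∈ K)
    (hq : {q} ∈ K) (huq : u ≠ q) : ({u, q} : Finset ℕ) ∈ contr M u v := by
  have huv : u ≠ v := fun e => h.vK _ hu (by rw [e]; simp)
  have hqv : q ≠ v := fun e => h.vK _ hq (by rw [e]; simp)
  refine (mem_contr_cx h.cx huv).2 ⟨?_, Or.inr ⟨by simp, ?_⟩⟩
  · intro h1
    rcases Finset.mem_insert.1 h1 with h1 | h1
    · exact huv h1.symm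
    · exact hqv (Finset.mem_singleton.1 h1).symm
  · have e : ({u, q} : Finset ℕ).erase u = {q} := by
      rw [Finset.erase_insert]
      rw [Finset.mem_singleton]
      exact huq
    rw [e]
    have h1 := h.edge hq
    rw [Finset.pair_comm] at h1
    exact h1

end Pool.Agent.LibFlagPL

end

section

namespace Pool.Agent.LibFlagPL

open Finset

private theorem Q23_star {M : Fam} {v q x : ℕ} (hM : IsCx M) (hx : ∀ s ∈ M, x ∉ s)
    {s : Finset ℕ} (hs : x ∉ s) :
    insert x s ∈ stell M {v, q} x ↔ ¬ ({v, q} : Finset ℕ) ⊆ s ∧ s ∪ {v, q} ∈ M := by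
  rw [mem_stell hM hx, erase_insert hs]
  constructor
  · rintro (⟨h1, _⟩ | ⟨_, h2, h3⟩)
    · exact absurd (mem_insert_self x s) h1
    · exact ⟨h2, h3⟩
  · rintro ⟨h1, h2⟩
    exact Or.inr ⟨mem_insert_self x s, h1, h2⟩

private theorem Q23_B {M K : Fam} {v q : ℕ} (h : Amb M v K) (hq : {q} ∈ K) (s : Finset ℕ) :
    s ∪ {v, q} ∈ M ↔ insert v (s \ vert K) ∈ M ∧ insert q (s ∩ vert K) ∈ K := by
  have hqV : q ∈ vert K := (mem_vert h.cxK).2 hq
  have hvV : v ∉ vert K := h.notMem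
  have h1 := h.lj ((insert q s).erase v) (notMem_erase v _)
  have e1 : insert v ((insert q s).erase v) = s ∪ {v, q} := by
    ext y
    simp only [mem_insert, mem_erase, mem_union, mem_singleton]
    tauto
  have e2 : insert v (((insert q s).erase v) \ vert K) = insert v (s \ vert K) := by
    ext y
    simp only [mem_insert, mem_erase, mem_sdiff]
    constructor
    · rintro (h2 | ⟨⟨h2, h3 | h3⟩, h4⟩)
      · exact Or.inl h2
      · rw [h3] at h4
        exact absurd hqV h4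
      · exact Or.inr ⟨h3, h4⟩
    · rintro (h2 | ⟨h2, h3⟩)
      · exact Or.inl h2
      · by_cases h4 : y = v
        · exact Or.inl h4
        · exact Or.inr ⟨⟨h4, Or.inr h2⟩, h3⟩
  have e3 : ((insert q s).erase v) ∩ vert K = insert q (s ∩ vert K) := by
    ext y
    simp only [mem_insert, mem_erase, mem_inter]
    constructor
    · rintro ⟨⟨_, h3 | h3⟩, h4⟩
      · exact Or.inl h3
      · exact Or.inr ⟨h3, h4⟩
    · rintro (h2 | ⟨h2, h3⟩)
      · refine ⟨⟨?_, Or.inl h2⟩, ?_⟩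
        · rintro rfl
          rw [h2] at hvV
          exact hvV hqV
        · rw [h2]
          exact hqV
      · refine ⟨⟨?_, Or.inr h2⟩, h3⟩
        rintro rfl
        exact hvV h3
  rw [e1, e2, e3] at h1
  exact h1

private theorem Q23_VP {K : Fam} {q y : ℕ} (hK : IsCx K) (hq : {q} ∈ K) :
    y ∈ vert (link K {q}) ↔ q ≠ y ∧ ({q, y} : Finset ℕ) ∈ K := by
  rw [mem_vert (isCx_link hK hq), mem_link hK, disjoint_singleton]
  rfl

private theorem Q23_key {K : Fam} {q : ℕ} (hK : IsCx K) (hq : {q} ∈ K) (s : Finset ℕ) :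
    insert q (s ∩ vert K) ∈ K ↔ insert q ((s \ vert (link K {q})) ∩ vert K) ∈ K ∧
      s ∩ vert (link K {q}) ∈ link K {q} := by
  have hVPV : ∀ y, y ∈ vert (link K {q}) → y ∈ vert K := by
    intro y hy
    rw [Q23_VP hK hq] at hy
    exact subset_vert hy.2 (mem_insert_of_mem (mem_singleton_self y))
  constructor
  · intro h1
    refine ⟨hK.2 _ h1 _ ?_, ?_⟩
    · intro y hy
      simp only [mem_insert, mem_inter, mem_sdiff] at hy ⊢
      tauto
    · rw [mem_link hK]
      refine ⟨?_, hK.2 _ h1 _ ?_⟩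
      · rw [disjoint_singleton_left, mem_inter]
        rintro ⟨_, h2⟩
        rw [Q23_VP hK hq] at h2
        exact h2.1 rfl
      · intro y hy
        simp only [mem_union, mem_singleton, mem_inter, mem_insert] at hy ⊢
        rcases hy with h2 | ⟨h2, h3⟩
        · exact Or.inl h2
        · exact Or.inr ⟨h2, hVPV y h3⟩
  · rintro ⟨h1, h2⟩
    rw [mem_link hK] at h2
    refine hK.2 _ h2.2 _ ?_
    intro y hy
    simp only [mem_union, mem_singleton, mem_inter, mem_insert] at hy ⊢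
    rcases hy with h3 | ⟨h3, h4⟩
    · exact Or.inl h3
    · by_cases h5 : y = q
      · exact Or.inl h5
      · refine Or.inr ⟨h3, ?_⟩
        by_contra h6
        apply h6
        rw [Q23_VP hK hq]
        refine ⟨fun h7 => h5 h7.symm, hK.2 _ h1 _ ?_⟩
        intro z hz
        simp only [mem_insert, mem_singleton] at hz
        rcases hz with rfl | rfl
        · exact mem_insert_self _ _
        · exact mem_insert_of_mem (mem_inter.2 ⟨mem_sdiff.2 ⟨h3, h6⟩, h4⟩)

theorem Amb.one {M K : Fam} {v q x : ℕ} (h : Amb M v K) (hq : {q} ∈ K)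
    (hind : ∀ s ∈ K, (∀ y ∈ s, ({y, q} : Finset ℕ) ∈ K) → insert q s ∈ K)
    (hx : ∀ s ∈ M, x ∉ s) : Amb (stell M {v, q} x) x (link K {q}) := by
  have hqV : q ∈ vert K := (mem_vert h.cxK).2 hq
  have hvV : v ∉ vert K := h.notMem
  have hvq : v ≠ q := by
    rintro rfl
    exact hvV hqV
  have hvqM : ({v, q} : Finset ℕ) ∈ M := by
    have h1 := h.edge hq
    rwa [pair_comm] at h1
  refine ⟨isCx_stell h.cx (insert_nonempty v _) hx, isCx_link h.cxK hq, ?_, ?_, ?_, ?_⟩
  · rw [vertex_stell h.cx (by rw [card_pair hvq]) hvqM hx]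
    exact Or.inr rfl
  · intro s hs hxs
    rw [mem_link h.cxK] at hs
    have h1 : ({x} : Finset ℕ) ∈ K := by
      refine h.cxK.2 _ hs.2 _ ?_
      rw [singleton_subset_iff]
      exact mem_union_right _ hxs
    exact hx _ (h.edge h1) (mem_insert_self x _)
  · intro s hs
    have hs2 : x ∉ s \ vert (link K {q}) := fun h1 => hs (mem_sdiff.1 h1).1
    rw [Q23_star h.cx hx hs, Q23_star h.cx hx hs2, Q23_B h hq, Q23_B h hq,
      Q23_key h.cxK hq s]
    have e1 : (s \ vert (link K {q})) \ vert K = s \ vert K := by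
      ext y
      simp only [mem_sdiff]
      constructor
      · rintro ⟨⟨h1, _⟩, h3⟩
        exact ⟨h1, h3⟩
      · rintro ⟨h1, h3⟩
        refine ⟨⟨h1, fun h4 => h3 ?_⟩, h3⟩
        rw [Q23_VP h.cxK hq] at h4
        exact subset_vert h4.2 (mem_insert_of_mem (mem_singleton_self y))
    have hvVP : v ∉ vert (link K {q}) := by
      rw [Q23_VP h.cxK hq]
      rintro ⟨_, h4⟩
      exact hvV (subset_vert h4 (mem_insert_of_mem (mem_singleton_self v)))
    have hqVP : q ∉ vert (link K {q}) := by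
      rw [Q23_VP h.cxK hq]
      rintro ⟨h4, _⟩
      exact h4 rfl
    have e2 : ({v, q} : Finset ℕ) ⊆ s \ vert (link K {q}) ↔ ({v, q} : Finset ℕ) ⊆ s := by
      constructor
      · intro h1
        exact h1.trans sdiff_subset
      · intro h1 y hy
        rw [mem_sdiff]
        refine ⟨h1 hy, ?_⟩
        simp only [mem_insert, mem_singleton] at hy
        rcases hy with rfl | rfl
        · exact hvVP
        · exact hqVP
    rw [e1, e2]
    tauto
  · intro s hs hxs hadj
    rw [mem_stell h.cx hx] at hs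
    obtain ⟨hsM, hsub⟩ : s ∈ M ∧ ¬ ({v, q} : Finset ℕ) ⊆ s := by
      rcases hs with ⟨_, h2, h3⟩ | ⟨h1, _⟩
      · exact ⟨h2, h3⟩
      · exact absurd h1 hxs
    have hadj2 : ∀ y ∈ s, ({y} : Finset ℕ) ∪ {v, q} ∈ M := by
      intro y hy
      have h1 := hadj y hy
      have hxy : x ∉ ({y} : Finset ℕ) := by
        rw [mem_singleton]
        rintro rfl
        exact hxs hy
      rw [pair_comm y x] at h1
      exact ((Q23_star h.cx hx hxy).1 h1).2
    rw [Q23_star h.cx hx hxs]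
    refine ⟨hsub, ?_⟩
    rw [Q23_B h hq]
    have h1 : insert v (s.erase v) ∈ M := by
      refine h.ind _ (h.cx.2 _ hsM _ (erase_subset v s)) (notMem_erase v s) ?_
      intro y hy
      refine h.cx.2 _ (hadj2 y (mem_of_mem_erase hy)) _ ?_
      intro z hz
      simp only [mem_insert, mem_singleton, mem_union] at hz ⊢
      tauto
    rw [h.lj _ (notMem_erase v s)] at h1
    have e2 : insert v (s.erase v \ vert K) = insert v (s \ vert K) := by
      ext y
      simp only [mem_insert, mem_erase, mem_sdiff]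
      tauto
    have e3 : s.erase v ∩ vert K = s ∩ vert K := by
      ext y
      simp only [mem_erase, mem_inter]
      constructor
      · rintro ⟨⟨_, h3⟩, h4⟩
        exact ⟨h3, h4⟩
      · rintro ⟨h3, h4⟩
        refine ⟨⟨?_, h3⟩, h4⟩
        rintro rfl
        exact hvV h4
    rw [e2, e3] at h1
    refine ⟨h1.1, hind _ h1.2 ?_⟩
    intro y hy
    rw [mem_inter] at hy
    have h5 : ({y, q} : Finset ℕ) ⊆ vert K := by
      intro z hz
      simp only [mem_insert, mem_singleton] at hz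
      rcases hz with rfl | rfl
      · exact hy.2
      · exact hqV
    rw [← h.face h5]
    have h6 := hadj2 y hy.1
    have e4 : ({y} : Finset ℕ) ∪ {v, q} = insert v {y, q} := by
      ext z
      simp only [mem_insert, mem_singleton, mem_union]
      tauto
    rwa [e4] at h6

end Pool.Agent.LibFlagPL

end
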